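import Mathlib

open Set Bundle MeasureTheory
open scoped Manifold ContDiff

namespace Pool.Agent.GeoPairs

variable (V : Type) [NormedAddCommGroup V] [NormedSpace ℝ V]

/-- smooth Riemannian metrics on a manifold `M` modelled on `V` -/
def Met (M : Type) [TopologicalSpace M] [ChartedSpace V M] [IsManifold 𝓘(ℝ, V) ∞ M] : Type :=
  ContMDiffRiemannianMetric 𝓘(ℝ, V) ∞ V (fun x : M => TangentSpace 𝓘(ℝ, V) x)

variable {M : Type} [TopologicalSpace M] [ChartedSpace V M]

/-- the chart at `x` -/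
noncomputable def chart (x : M) : PartialEquiv M V := extChartAt 𝓘(ℝ, V) x

/-- subsets of `M × M` that are Lebesgue null in every product chart -/
def NullPairs [MeasureSpace V] (S : Set (M × M)) : Prop :=
  ∀ x y : M, volume (Prod.map (chart V x) (chart V y) ''
    (S ∩ (chart V x).source ×ˢ (chart V y).source)) = 0

variable {V} [IsManifold 𝓘(ℝ, V) ∞ M]

/-- the scalar product of two tangent vectors at `p` -/
noncomputable def ip (g : Met V M) (p : M) (u w : V) : ℝ := g.inner p u w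

/-- the metric `g` read in the chart at `x`, at the point `a` of the model space -/
noncomputable def coef (g : Met V M) (x : M) (a u w : V) : ℝ :=
  ip g ((chart V x).symm a) (mfderiv 𝓘(ℝ, V) 𝓘(ℝ, V) (chart V x).symm a u)
    (mfderiv 𝓘(ℝ, V) 𝓘(ℝ, V) (chart V x).symm a w)

/-- smooth curves solving the Euler-Lagrange equation of the energy in every chart -/
def IsGeodesic (g : Met V M) (γ : ℝ → M) : Prop :=
  ContMDiff 𝓘(ℝ, ℝ) 𝓘(ℝ, V) ∞ γ ∧ ∀ (x : M) (t : ℝ), γ t ∈ (chart V x).source → ∀ w : V,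
    HasDerivAt (fun s => coef g x (chart V x (γ s)) (deriv (chart V x ∘ γ) s) w)
      (1 / 2 * fderiv ℝ (fun a => coef g x a (deriv (chart V x ∘ γ) t)
        (deriv (chart V x ∘ γ) t)) (chart V x (γ t)) w) t

/-- unit speed -/
def UnitSpeed (g : Met V M) (γ : ℝ → M) : Prop :=
  ∀ t, ip g (γ t) (mfderiv 𝓘(ℝ, ℝ) 𝓘(ℝ, V) γ t (1 : ℝ)) (mfderiv 𝓘(ℝ, ℝ) 𝓘(ℝ, V) γ t (1 : ℝ)) = 1

/-- pairs of points joined by only finitely many geometrically distinct geodesics -/
def finPairs (g : Met V M) : Set (M × M) :=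
  {z | Set.Finite {S : Set M | ∃ γ : ℝ → M, IsGeodesic g γ ∧ (∃ s ∈ Icc (0 : ℝ) 1, γ s ≠ γ 0) ∧
    γ 0 = z.1 ∧ γ 1 = z.2 ∧ S = γ '' Icc 0 1}}

/-- the Euclidean plane -/
abbrev E : Type := EuclideanSpace ℝ (Fin 2)

end Pool.Agent.GeoPairs
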