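import Mathlib
import Pool.Agent.P.MP_365c00_gt.DefsG

open Set MeasureTheory Topology
open scoped Manifold ContDiff

namespace Pool.Agent.GeoPairs

variable {V : Type} [NormedAddCommGroup V] [NormedSpace ℝ V] {M : Type} [TopologicalSpace M]
  [ChartedSpace V M] [IsManifold 𝓘(ℝ, V) ∞ M]

/-- all unit speed geodesics have a common period -/
def Besse (g : Met V M) : Prop :=
  ∃ τ : ℝ, 0 < τ ∧ ∀ γ : ℝ → M, IsGeodesic g γ → UnitSpeed g γ → Function.Periodic γ τ

/-- the number of geometrically distinct geodesics from the point with coordinate `w.1` in the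
chart at `x` to the point with coordinate `w.2` in the chart at `y` -/
noncomputable def count (g : Met V M) (x y : M) (w : V × V) : ENNReal :=
  Set.encard {S : Set M | ∃ γ : ℝ → M, IsGeodesic g γ ∧ (∃ s ∈ Icc (0 : ℝ) 1, γ s ≠ γ 0) ∧
    γ 0 = (chart V x).symm w.1 ∧ γ 1 = (chart V y).symm w.2 ∧ S = γ '' Icc 0 1}

variable [MeasureSpace V]

/-- on every compact subset of a product chart `count` has an integrable measurable majorant -/
def Integr (g : Met V M) : Prop :=
  ∀ (x y : M) (K : Set (V × V)), IsCompact K → K ⊆ (chart V x).target ×ˢ (chart V y).target →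
    ∃ φ : V × V → ENNReal, Measurable φ ∧ ∫⁻ w, φ w < ⊤ ∧ ∀ w ∈ K, count g x y w ≤ φ w

/-- near every point of the diagonal some positive moment of `count` is finite -/
def Moment (g : Met V M) : Prop :=
  ∀ x : M, ∃ s : ℝ, 0 < s ∧ ∃ U ∈ 𝓝 (chart V x x), ∫⁻ w in U ×ˢ U, count g x x w ^ s < ⊤

/-- Euclidean space -/
abbrev En (n : ℕ) : Type := EuclideanSpace ℝ (Fin n)

end Pool.Agent.GeoPairs
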