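import Mathlib

/-!
Abstract geodesic systems on surfaces: what the dynamical part of the proof uses.
-/

open Set Filter Topology MeasureTheory

namespace Pool.Agent.GeoFin

/-- `Y` is the space of unit speed geodesics, `ev u` the curve, `φ` the flow, `ae` the filter of
sets of full measure of `M` -/
structure Sys (M Y : Type*) [TopologicalSpace M] [TopologicalSpace Y] where
  ev : Y → ℝ → M
  φ : ℝ → Y → Y
  ae : Filter M
  cif : CountableInterFilter ae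
  ev_cont : Continuous fun x : Y × ℝ => ev x.1 x.2
  φ_cont : Continuous fun x : ℝ × Y => φ x.1 x.2
  ev_φ : ∀ t u s, ev (φ t u) s = ev u (s + t)
  ev_inj : Function.Injective ev
  locinj : ∀ u, ∃ ε > 0, InjOn (ev u) (Ioo (-ε) ε)
  dir : ∀ u u' T ε, 0 < ε → ev u '' Icc 0 ε ⊆ ev u' '' Icc 0 T →
    ∃ r ∈ Icc 0 T, (∀ s, ev u s = ev u' (r + s)) ∨ ∀ s, ev u s = ev u' (r - s)
  open_pos : ∀ O, IsOpen O → O.Nonempty → Oᶜ ∉ ae
  null_range : ∀ u, (range (ev u))ᶜ ∈ ae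
  fib_conn : ∀ p, IsPreconnected {u | ev u 0 = p}
  fib_ne : ∀ p, ∃ u, ev u 0 = p
  sec : ∀ w, ∃ O ∈ 𝓝 (ev w 0), ∃ r > 0, ∃ e : M → ℝ → Y,
    ContinuousOn (fun x : M × ℝ => e x.1 x.2) (O ×ˢ Icc (-r) r) ∧
    (∀ q ∈ O, ∀ s ∈ Icc (-r) r, ev (e q s) 0 = q) ∧ InjOn (e (ev w 0)) (Icc (-r) r) ∧
    e (ev w 0) 0 = w
  cone : ∀ A : Set M, Aᶜ ∉ ae → ∃ p ∈ A, ∀ v, ev v 0 = p → ∀ U ∈ 𝓝 v, ∀ ε > 0,
    (A ∩ {q | ∃ x ∈ U, ev x 0 = p ∧ ∃ a, |a| < ε ∧ ev x a = q})ᶜ ∉ ae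

variable {M Y : Type*} [TopologicalSpace M] [TopologicalSpace Y]

/-- a flow box with a planar transversal -/
structure Box (S : Sys M Y) where
  D : Set (ℝ × ℝ)
  Z : ℝ × ℝ → Y
  N : Set Y
  τ : Y → ℝ
  ζ : Y → ℝ × ℝ
  c : ℝ
  c_pos : 0 < c
  D_open : IsOpen D
  N_open : IsOpen N
  Z_cont : ContinuousOn Z D
  τ_cont : ContinuousOn τ N
  ζ_cont : ContinuousOn ζ N
  ζ_mem : ∀ u ∈ N, ζ u ∈ D
  τ_lt : ∀ u ∈ N, |τ u| < c
  φ_τ : ∀ u ∈ N, S.φ (τ u) u = Z (ζ u)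
  mem_N : ∀ z ∈ D, ∀ t, |t| < c → S.φ t (Z z) ∈ N
  uniq : ∀ z ∈ D, ∀ z' ∈ D, ∀ t, |t| < 2 * c → S.φ t (Z z) = Z z' → t = 0 ∧ z = z'
  sweep : ∀ z ∈ D, ∀ z' ∈ D, z ≠ z' → ∃ V ∈ 𝓝 z, ∃ V' ∈ 𝓝 z', ∃ O : Set M, IsOpen O ∧
    O.Nonempty ∧ ∀ (β : ℝ → ℝ × ℝ) (a b : ℝ), a ≤ b → ContinuousOn β (Icc a b) →
      MapsTo β (Icc a b) D → β a ∈ V → β b ∈ V' →
      ∀ q ∈ O, ∃ s ∈ Ioo a b, ∃ t, |t| < c ∧ S.ev (Z (β s)) t = q
  null_arc : ∀ A : Set (ℝ × ℝ), volume A = 0 →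
    {p | ∃ (e : ℝ → Y) (r : ℝ), 0 < r ∧ ContinuousOn e (Icc 0 r) ∧ InjOn e (Icc 0 r) ∧
      ∀ s ∈ Icc 0 r, S.ev (e s) 0 = p ∧ e s ∈ N ∧ ζ (e s) ∈ A}ᶜ ∈ S.ae

/-- domain of the holonomy map from `b` to `b'` after time about `a` -/
def holDom {S : Sys M Y} (b b' : Box S) (a : ℝ) : Set (ℝ × ℝ) :=
  {z | z ∈ b.D ∧ S.φ a (b.Z z) ∈ b'.N}

/-- the holonomy map -/
def hol {S : Sys M Y} (b b' : Box S) (a : ℝ) (z : ℝ × ℝ) : ℝ × ℝ := b'.ζ (S.φ a (b.Z z))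

/-- the holonomy time -/
def holT {S : Sys M Y} (b b' : Box S) (a : ℝ) (z : ℝ × ℝ) : ℝ := a + b'.τ (S.φ a (b.Z z))

/-- a box centred at each point, with smooth exact holonomy maps -/
structure Atl (S : Sys M Y) where
  box : Y → Box S
  η0 : Y → ℝ
  c_le : ∀ w, (box w).c ≤ 1 / 4
  ctr_mem : ∀ w, (0, η0 w) ∈ (box w).D
  ctr : ∀ w, (box w).Z (0, η0 w) = w
  fib : ∀ w, ∀ z ∈ (box w).D, S.ev ((box w).Z z) 0 = S.ev w 0 ↔ z.1 = 0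
  fib_τ : ∀ w, ∀ u ∈ (box w).N, S.ev u 0 = S.ev w 0 → (box w).τ u = 0
  hol_smooth : ∀ w w' a, ContDiffOn ℝ 2 (hol (box w) (box w') a) (holDom (box w) (box w') a)
  holT_smooth : ∀ w w' a, ContDiffOn ℝ 2 (holT (box w) (box w') a) (holDom (box w) (box w') a)
  exact : ∀ w w' a, ∀ z ∈ holDom (box w) (box w') a, ∀ ξ : ℝ × ℝ,
    fderiv ℝ (holT (box w) (box w') a) z ξ =
      (hol (box w) (box w') a z).2 * (fderiv ℝ (hol (box w) (box w') a) z ξ).1 - z.2 * ξ.1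

namespace Sys

variable (S : Sys M Y)

/-- finitely many images of geodesic arcs from `p` to `q` -/
def Fin (p q : M) : Prop :=
  Set.Finite {A : Set M | ∃ u t, 0 < t ∧ S.ev u 0 = p ∧ S.ev u t = q ∧ A = S.ev u '' Icc 0 t}

/-- good points -/
def Good (p : M) : Prop := ∀ᶠ q in S.ae, S.Fin p q

/-- periodic geodesics -/
def Per (u : Y) : Prop := ∃ σ > 0, S.φ σ u = u

/-- every nonempty open subset of the fibre has uncountably many periodic elements -/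
def Rich (p : M) : Prop :=
  ∀ v, S.ev v 0 = p → ∀ U ∈ 𝓝 v, ¬ {u | u ∈ U ∧ S.ev u 0 = p ∧ S.Per u}.Countable

theorem φ_zero (u : Y) : S.φ 0 u = u := S.ev_inj (funext fun s => by rw [S.ev_φ, add_zero])

theorem φ_add (s t : ℝ) (u : Y) : S.φ (s + t) u = S.φ s (S.φ t u) :=
  S.ev_inj (funext fun r => by rw [S.ev_φ, S.ev_φ, S.ev_φ, add_assoc])

theorem ev_φ_zero (t : ℝ) (u : Y) : S.ev (S.φ t u) 0 = S.ev u t := by rw [S.ev_φ, zero_add]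

theorem continuous_ev (u : Y) : Continuous (S.ev u) :=
  S.ev_cont.comp (continuous_const.prodMk continuous_id)

theorem continuous_φ (t : ℝ) : Continuous (S.φ t) :=
  S.φ_cont.comp (continuous_const.prodMk continuous_id)

theorem continuous_π : Continuous fun u => S.ev u 0 :=
  S.ev_cont.comp (continuous_id.prodMk continuous_const)

instance : CountableInterFilter S.ae := S.cif

end Sys

theorem holDom_open {S : Sys M Y} (b b' : Box S) (a : ℝ) : IsOpen (holDom b b' a) :=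
  ((S.continuous_φ a).comp_continuousOn b.Z_cont).isOpen_inter_preimage b.D_open b'.N_open

theorem Z_hol {S : Sys M Y} (b b' : Box S) (a : ℝ) {z : ℝ × ℝ} (hz : z ∈ holDom b b' a) :
    b'.Z (hol b b' a z) = S.φ (holT b b' a z) (b.Z z) := by
  rw [hol, holT, add_comm, S.φ_add, b'.φ_τ _ hz.2]

theorem hol_mem {S : Sys M Y} (b b' : Box S) (a : ℝ) {z : ℝ × ℝ} (hz : z ∈ holDom b b' a) :
    hol b b' a z ∈ b'.D := b'.ζ_mem _ hz.2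

theorem Box.τ_ζ {S : Sys M Y} (b : Box S) {z : ℝ × ℝ} (hz : z ∈ b.D) {t : ℝ} (ht : |t| < b.c) :
    b.τ (S.φ t (b.Z z)) = -t ∧ b.ζ (S.φ t (b.Z z)) = z := by
  have hN := b.mem_N z hz t ht
  have h1 := b.φ_τ _ hN
  rw [← S.φ_add] at h1
  have h2 := b.τ_lt _ hN
  have h3 := b.uniq z hz _ (b.ζ_mem _ hN) _
    ((abs_add_le _ _).trans_lt (by linarith)) h1
  exact ⟨by linarith [h3.1], h3.2.symm⟩

end Pool.Agent.GeoFin
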