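import Mathlib

/-!
Exact planar maps preserve area; asymptotic sets of a chain of such maps are null.
-/

open Set Filter Topology MeasureTheory

namespace Pool.Agent.GeoFin

theorem det_eq (A : ℝ × ℝ →L[ℝ] ℝ × ℝ) :
    A.det = (A (1, 0)).1 * (A (0, 1)).2 - (A (0, 1)).1 * (A (1, 0)).2 := by
  rw [ContinuousLinearMap.det, ← LinearMap.det_toMatrix (Module.Basis.finTwoProd ℝ),
    Matrix.det_fin_two]
  simp [LinearMap.toMatrix_apply]

theorem det_of_exact {g : ℝ × ℝ → ℝ × ℝ} {T : ℝ × ℝ → ℝ} {U : Set (ℝ × ℝ)} (hU : IsOpen U)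
    (hg : ContDiffOn ℝ 2 g U) (hT : ContDiffOn ℝ 2 T U)
    (hex : ∀ z ∈ U, ∀ ξ : ℝ × ℝ, fderiv ℝ T z ξ = (g z).2 * (fderiv ℝ g z ξ).1 - z.2 * ξ.1)
    {z : ℝ × ℝ} (hz : z ∈ U) : (fderiv ℝ g z).det = 1 := by
  have hg' : ContDiffAt ℝ 2 g z := hg.contDiffAt (hU.mem_nhds hz)
  have hT' : ContDiffAt ℝ 2 T z := hT.contDiffAt (hU.mem_nhds hz)
  have sg := hg'.isSymmSndFDerivAt (by simp)
  have sT := hT'.isSymmSndFDerivAt (by simp)
  have dg : HasFDerivAt g (fderiv ℝ g z) z := (hg'.differentiableAt (by norm_num)).hasFDerivAt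
  have d2g : HasFDerivAt (fderiv ℝ g) (fderiv ℝ (fderiv ℝ g) z) z :=
    ((hg'.fderiv_right (m := 1) (by norm_num)).differentiableAt (by norm_num)).hasFDerivAt
  have d2T : HasFDerivAt (fderiv ℝ T) (fderiv ℝ (fderiv ℝ T) z) z :=
    ((hT'.fderiv_right (m := 1) (by norm_num)).differentiableAt (by norm_num)).hasFDerivAt
  have key : ∀ u v : ℝ × ℝ, fderiv ℝ (fderiv ℝ T) z u v =
      (g z).2 * (fderiv ℝ (fderiv ℝ g) z u v).1 + (fderiv ℝ g z v).1 * (fderiv ℝ g z u).2 -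
        u.2 * v.1 := by
    intro u v
    have h1 := d2T.clm_apply (hasFDerivAt_const v z)
    have h2 := (dg.snd.fun_mul (d2g.clm_apply (hasFDerivAt_const v z)).fst).fun_sub
      ((hasFDerivAt_snd (𝕜 := ℝ) (p := z)).mul_const v.1)
    have h3 : (fun w => fderiv ℝ T w v) =ᶠ[𝓝 z]
        fun w => (g w).2 * (fderiv ℝ g w v).1 - w.2 * v.1 := by
      filter_upwards [hU.mem_nhds hz] with w hw using hex w hw v
    have h4 := congrArg (fun L : ℝ × ℝ →L[ℝ] ℝ => L u) (h1.unique (h2.congr_of_eventuallyEq h3))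
    simpa [mul_comm] using h4
  have h := sT (0, 1) (1, 0)
  rw [key, key, sg (0, 1) (1, 0)] at h
  rw [det_eq]
  simp only at h
  linarith

/-- a map with nonzero Jacobian is injective near the point -/
theorem injOn_nhds_of_det {g : ℝ × ℝ → ℝ × ℝ} {z : ℝ × ℝ} (hg : ContDiffAt ℝ 1 g z)
    (hd : (fderiv ℝ g z).det ≠ 0) : ∃ V ∈ 𝓝 z, InjOn g V := by
  have h : HasStrictFDerivAt g
      (((fderiv ℝ g z).toContinuousLinearEquivOfDetNeZero hd : (ℝ × ℝ) ≃L[ℝ] (ℝ × ℝ)) :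
        ℝ × ℝ →L[ℝ] ℝ × ℝ) z := by
    rw [ContinuousLinearMap.coe_toContinuousLinearEquivOfDetNeZero]
    exact hg.hasStrictFDerivAt (by norm_num)
  refine ⟨_, h.eventually_left_inverse, fun x hx y hy hxy => ?_⟩
  have hx' : h.localInverse g _ _ (g x) = x := hx
  have hy' : h.localInverse g _ _ (g y) = y := hy
  rw [← hx', hxy, hy']

namespace AreaX

theorem step {g : ℝ × ℝ → ℝ × ℝ} {Ω B : Set (ℝ × ℝ)} (hΩ : IsOpen Ω)
    (hg : DifferentiableOn ℝ g Ω) (hi : InjOn g Ω) (hd : ∀ z ∈ Ω, (fderiv ℝ g z).det = 1)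
    (hB : IsOpen B) : volume (Ω ∩ g ⁻¹' B) ≤ volume B := by
  have ho : IsOpen (Ω ∩ g ⁻¹' B) := hg.continuousOn.isOpen_inter_preimage hΩ hB
  have h := lintegral_abs_det_fderiv_eq_addHaar_image volume ho.measurableSet
    (f' := fderiv ℝ g) (fun x hx =>
      (hg.differentiableAt (hΩ.mem_nhds hx.1)).hasFDerivAt.hasFDerivWithinAt)
    (hi.mono inter_subset_left)
  rw [setLIntegral_congr_fun ho.measurableSet (g := fun _ => 1)
    (fun x hx => by simp [hd x hx.1]), setLIntegral_const, one_mul] at h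
  rw [h]
  exact measure_mono (by rintro _ ⟨x, hx, rfl⟩; exact hx.2)

end AreaX

theorem null_of_chain (g : ℕ → ℝ × ℝ → ℝ × ℝ) (Ω : ℕ → Set (ℝ × ℝ)) (hΩ : ∀ j, IsOpen (Ω j))
    (hg : ∀ j, DifferentiableOn ℝ (g j) (Ω j)) (hi : ∀ j, InjOn (g j) (Ω j))
    (hd : ∀ j, ∀ z ∈ Ω j, (fderiv ℝ (g j) z).det = 1) (F : ℕ → ℝ × ℝ → ℝ × ℝ)
    (F0 : ∀ z, F 0 z = z) (Fs : ∀ j z, F (j + 1) z = g j (F j z)) (v : ℕ → ℝ × ℝ) :
    volume {z | (∀ j, F j z ∈ Ω j) ∧ Tendsto (fun j => dist (F j z) (v j)) atTop (𝓝 0)} = 0 := by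
  have h1 : ∀ n, ∀ B, IsOpen B → volume {z | (∀ j < n, F j z ∈ Ω j) ∧ F n z ∈ B} ≤ volume B := by
    intro n
    induction n with
    | zero =>
      intro B _
      exact measure_mono fun z hz => by simpa [F0] using hz.2
    | succ n ih =>
      intro B hB
      refine le_trans (measure_mono fun z hz => ?_)
        ((ih _ ((hg n).continuousOn.isOpen_inter_preimage (hΩ n) hB)).trans
          (AreaX.step (hΩ n) (hg n) (hi n) (hd n) hB))
      refine ⟨fun j hj => hz.1 j (by omega), hz.1 n (by omega), ?_⟩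
      have := hz.2
      rwa [Fs] at this
  have h2 : ∀ ε : ℝ, 0 < ε →
      volume {z | (∀ j, F j z ∈ Ω j) ∧ Tendsto (fun j => dist (F j z) (v j)) atTop (𝓝 0)} ≤
        ENNReal.ofReal (2 * ε) * ENNReal.ofReal (2 * ε) := by
    intro ε hε
    have hm : Monotone fun n : ℕ => {z | (∀ j, F j z ∈ Ω j) ∧ ∀ j ≥ n, dist (F j z) (v j) < ε} :=
      fun a b hab z hz => ⟨hz.1, fun j hj => hz.2 j (hab.trans hj)⟩
    refine le_trans (measure_mono (t := ⋃ n : ℕ,
      {z | (∀ j, F j z ∈ Ω j) ∧ ∀ j ≥ n, dist (F j z) (v j) < ε}) fun z hz => ?_) ?_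
    · obtain ⟨n, hn⟩ := eventually_atTop.1 (hz.2.eventually (gt_mem_nhds hε))
      exact mem_iUnion.2 ⟨n, hz.1, hn⟩
    · rw [hm.measure_iUnion]
      refine iSup_le fun n => le_trans (measure_mono fun z hz => ?_)
        ((h1 n (Metric.ball (v n) ε) Metric.isOpen_ball).trans (le_of_eq ?_))
      · exact ⟨fun j _ => hz.1 j, hz.2 n le_rfl⟩
      · rw [← Prod.mk.eta (p := v n), ← ball_prod_same, Measure.volume_eq_prod, Measure.prod_prod,
          Real.volume_ball, Real.volume_ball]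
  have h3 : Tendsto (fun ε : ℝ => ENNReal.ofReal (2 * ε) * ENNReal.ofReal (2 * ε)) (𝓝[>] 0)
      (𝓝 0) := by
    have h4 : Tendsto (fun ε : ℝ => ENNReal.ofReal (2 * ε * (2 * ε))) (𝓝 0)
        (𝓝 (ENNReal.ofReal (2 * 0 * (2 * 0)))) :=
      (ENNReal.continuous_ofReal.comp (by fun_prop)).tendsto 0
    simp only [mul_zero, ENNReal.ofReal_zero] at h4
    refine (h4.mono_left nhdsWithin_le_nhds).congr' ?_
    filter_upwards [self_mem_nhdsWithin] with ε hε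
    rw [ENNReal.ofReal_mul (by have : 0 < ε := hε; positivity)]
  refine le_antisymm (ge_of_tendsto h3 ?_) bot_le
  filter_upwards [self_mem_nhdsWithin] with ε hε using h2 ε hε

end Pool.Agent.GeoFin
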