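import Mathlib
import Pool.Agent.P.MP_797ab1_gt.Fund

/-!
Definitions for the homological part (Serre's theorem).  `HH A k` is the relative singular
homology `H_k(Y, A)` of the ambient space `Y` of `A`; `E n` is `Fin n → ℝ`.
-/

open Set Topology Function
open Pool.Agent.URC

namespace Pool.Agent.GeoN.Ser

variable {X Y : Type} [TopologicalSpace X] [TopologicalSpace Y]

/-- complements of preimages reverse inclusions -/
theorem sub_pre (e : C(Y, X)) {K K' : Set X} (h : K' ⊆ K) : (e ⁻¹' K)ᶜ ⊆ (e ⁻¹' K')ᶜ :=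
  compl_subset_compl.2 (preimage_mono h)

/-- the same for a point of `K` -/
theorem sub_pt (e : C(Y, X)) {K : Set X} {x : X} (h : x ∈ K) : (e ⁻¹' K)ᶜ ⊆ (e ⁻¹' {x})ᶜ :=
  sub_pre e (singleton_subset_iff.2 h)

/-- over the open embedding `j` the map `e` is fibre homotopy equivalent to the projection
`E n × F → E n` -/
structure LocTriv (e : C(Y, X)) (F : Type) [TopologicalSpace F] {n : ℕ} (j : C(E n, X)) where
  Φ : C(e ⁻¹' range j, E n × F)
  Ψ : C(E n × F, Y)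
  eΨ : ∀ z, e (Ψ z) = j z.1
  eΦ : ∀ y, j (Φ y).1 = e y.1
  H1 : C((e ⁻¹' range j) × unitInterval, Y)
  H1_zero : ∀ y, H1 (y, 0) = Ψ (Φ y)
  H1_one : ∀ y, H1 (y, 1) = y.1
  H1_e : ∀ y t, e (H1 (y, t)) = e y.1
  H2 : C((E n × F) × unitInterval, E n × F)
  H2_zero : ∀ z, H2 (z, 0) = Φ ⟨Ψ z, ⟨z.1, (eΨ z).symm⟩⟩
  H2_one : ∀ z, H2 (z, 1) = z
  H2_e : ∀ z t, (H2 (z, t)).1 = z.1

/-- the homological properties of a chart `j` of the base of `e`, top degree `N` -/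
structure Loc (e : C(Y, X)) (N : ℕ) {n : ℕ} (j : C(E n, X)) : Prop where
  emb : IsOpenEmbedding j
  bij : ∀ (K : Set (E n)), IsCompact K → Convex ℝ K → ∀ z (hz : z ∈ K) (k : ℕ),
    Bijective (HH.res (sub_pt e (mem_image_of_mem j hz)) :
      HH (e ⁻¹' (j '' K))ᶜ k → HH (e ⁻¹' {j z})ᶜ k)
  van : ∀ (z : E n) (k : ℕ), N < k → ∀ α : HH (e ⁻¹' {j z})ᶜ k, α = 0

/-- a locally consistent choice of classes in the local homology groups -/
def Cons (e : C(Y, X)) (N : ℕ) (om : ∀ x : X, HH (e ⁻¹' {x})ᶜ N) : Prop :=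
  ∀ x : X, ∃ K ∈ 𝓝 x, ∃ α : HH (e ⁻¹' K)ᶜ N, ∀ y (hy : y ∈ K), HH.res (sub_pt e hy) α = om y

/-- the three properties of Hatcher 3.27 over the set `K` -/
structure Gd (e : C(Y, X)) (N : ℕ) (om : ∀ x : X, HH (e ⁻¹' {x})ᶜ N) (K : Set X) : Prop where
  van : ∀ k, N < k → ∀ α : HH (e ⁻¹' K)ᶜ k, α = 0
  inj : ∀ α : HH (e ⁻¹' K)ᶜ N, (∀ x (hx : x ∈ K), HH.res (sub_pt e hx) α = 0) → α = 0
  ex : ∃ α : HH (e ⁻¹' K)ᶜ N, ∀ x (hx : x ∈ K), HH.res (sub_pt e hx) α = om x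

/-- the set `A` has finitely many path components -/
def FinComp (A : Set Y) : Prop := ∃ S : Set Y, S.Finite ∧ ∀ y ∈ A, ∃ s ∈ S, JoinedIn A y s

/-- the singular homology of `F` vanishes above the degree `d` -/
def Van (F : Type) [TopologicalSpace F] (d : ℕ) : Prop :=
  ∀ k, d < k → ∀ α : HH (∅ : Set F) k, α = 0

/-- every point lies in the range of an open embedding of `E n` -/
def Charted (n : ℕ) (X : Type) [TopologicalSpace X] : Prop :=
  ∀ x : X, ∃ j : C(E n, X), IsOpenEmbedding j ∧ x ∈ range j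

/-- paths starting at `p` -/
abbrev PP (p : X) : Type := {γ : C(unitInterval, X) // γ 0 = p}

/-- paths from `p` to `q` -/
abbrev Om (p q : X) : Type := {γ : C(unitInterval, X) // γ 0 = p ∧ γ 1 = q}

/-- the end point -/
def endp (p : X) : C(PP p, X) := ⟨fun γ => γ.1 1, by fun_prop⟩

end Pool.Agent.GeoN.Ser
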