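import Mathlib

open Set Bundle MeasureTheory
open scoped Manifold ContDiff

namespace Pool.Agent.GeoN

variable {E : Type} [NormedAddCommGroup E] [NormedSpace ℝ E]

/-- smooth Riemannian metrics on `M` -/
abbrev Met (E : Type) [NormedAddCommGroup E] [NormedSpace ℝ E] (M : Type) [TopologicalSpace M]
    [ChartedSpace E M] [IsManifold 𝓘(ℝ, E) ∞ M] :=
  ContMDiffRiemannianMetric 𝓘(ℝ, E) ∞ E (fun x : M => TangentSpace 𝓘(ℝ, E) x)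

variable {M : Type} [TopologicalSpace M] [ChartedSpace E M] [IsManifold 𝓘(ℝ, E) ∞ M]

/-- the metric `g` read in the chart at `x`, at the point `a` of the model space -/
noncomputable def coef (g : Met E M) (x : M) (a u w : E) : ℝ :=
  g.inner ((extChartAt 𝓘(ℝ, E) x).symm a)
    (mfderiv 𝓘(ℝ, E) 𝓘(ℝ, E) (extChartAt 𝓘(ℝ, E) x).symm a u)
    (mfderiv 𝓘(ℝ, E) 𝓘(ℝ, E) (extChartAt 𝓘(ℝ, E) x).symm a w)

/-- smooth curves solving the Euler-Lagrange equation of the energy in every chart -/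
def IsGeodesic (g : Met E M) (γ : ℝ → M) : Prop :=
  ContMDiff 𝓘(ℝ, ℝ) 𝓘(ℝ, E) ∞ γ ∧ ∀ (x : M) (t : ℝ), γ t ∈ (extChartAt 𝓘(ℝ, E) x).source →
    ∀ w : E, HasDerivAt
      (fun s => coef g x (extChartAt 𝓘(ℝ, E) x (γ s)) (deriv (extChartAt 𝓘(ℝ, E) x ∘ γ) s) w)
      (1 / 2 * fderiv ℝ (fun a => coef g x a (deriv (extChartAt 𝓘(ℝ, E) x ∘ γ) t)
        (deriv (extChartAt 𝓘(ℝ, E) x ∘ γ) t)) (extChartAt 𝓘(ℝ, E) x (γ t)) w) t

/-- unit speed -/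
def UnitSpeed (g : Met E M) (γ : ℝ → M) : Prop :=
  ∀ t, g.inner (γ t) (mfderiv 𝓘(ℝ, ℝ) 𝓘(ℝ, E) γ t (1 : ℝ))
    (mfderiv 𝓘(ℝ, ℝ) 𝓘(ℝ, E) γ t (1 : ℝ)) = 1

/-- the images of the geodesics joining the two points of `z` -/
def images (g : Met E M) (z : M × M) : Set (Set M) :=
  {S : Set M | ∃ γ : ℝ → M, IsGeodesic g γ ∧ (∃ s ∈ Icc (0 : ℝ) 1, γ s ≠ γ 0) ∧
    γ 0 = z.1 ∧ γ 1 = z.2 ∧ S = γ '' Icc 0 1}

end Pool.Agent.GeoN
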