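import Mathlib
import Pool.Agent.Lib.Flow.Tools
import Pool.Agent.P.MP_365c00_gt.NChart

/-!
Existence, uniqueness and smooth dependence for geodesics.
-/

set_option linter.unusedSectionVars false
set_option linter.unusedVariables false

open Set Filter Topology Metric
open scoped Manifold ContDiff

namespace Pool.Agent.GeoN

variable {E : Type} [NormedAddCommGroup E] [NormedSpace ℝ E] [FiniteDimensional ℝ E]
  {M : Type} [TopologicalSpace M] [ChartedSpace E M] [IsManifold 𝓘(ℝ, E) ∞ M]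

/-- local smooth flow of the geodesic equation in a chart -/
theorem exists_local_flow (g : Met E M) (x : M) {a0 : E} (ha : a0 ∈ (κ E x).target) {R : ℝ}
    (hR : 0 < R) : ∃ ε > 0, ∃ r > 0, ∃ Φ : ℝ × (E × E) → E × E, ContDiff ℝ ∞ Φ ∧
      (∀ y, Φ (0, y) = y) ∧ ∀ y ∈ ball a0 r ×ˢ ball (0 : E) R, ∀ t, |t| < ε →
        (Φ (t, y)).1 ∈ (κ E x).target ∧
        HasDerivAt (fun s => Φ (s, y)) ((Φ (t, y)).2, acc g x (Φ (t, y))) t := by
  obtain ⟨ρ0, hρ0, hb⟩ := Metric.isOpen_iff.1 (target_open x) a0 ha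
  set ρ := ρ0 / 4 with hρ
  have hρ' : 0 < ρ := by positivity
  have hsub : closedBall a0 (3 * ρ) ⊆ (κ E x).target :=
    (closedBall_subset_ball (by rw [hρ]; linarith)).trans hb
  let f1 : ContDiffBump a0 := ⟨2 * ρ, 3 * ρ, by positivity, by linarith⟩
  let f2 : ContDiffBump (0 : E) := ⟨R + 1, R + 2, by positivity, by linarith⟩
  let v : E × E → E × E := fun y => (f1 y.1 * f2 y.2) • (y.2, acc g x y)
  have hv : ContDiff ℝ ∞ v := by
    rw [contDiff_iff_contDiffAt]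
    intro y
    by_cases hy : y.1 ∈ (κ E x).target
    · refine ContDiffAt.smul (((f1.contDiff.comp contDiff_fst).mul
        (f2.contDiff.comp contDiff_snd)).contDiffAt) (contDiffAt_snd.prodMk ?_)
      exact (acc_smooth g x).contDiffAt
        (((target_open x).prod isOpen_univ).mem_nhds ⟨hy, mem_univ _⟩)
    · have h1 : y.1 ∉ tsupport f1 := by
        rw [f1.tsupport_eq]; exact fun h => hy (hsub h)
      have h2 : (fun z : E × E => f1 z.1) =ᶠ[𝓝 y] fun _ => 0 :=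
        continuous_fst.continuousAt.eventually (notMem_tsupport_iff_eventuallyEq.1 h1)
      refine (contDiffAt_const (c := (0 : E × E))).congr_of_eventuallyEq ?_
      filter_upwards [h2] with z hz
      simp only [v, hz, zero_mul, zero_smul]
  have hc : HasCompactSupport v := by
    refine HasCompactSupport.intro ((isCompact_closedBall a0 (3 * ρ)).prod
      (isCompact_closedBall (0 : E) (R + 2))) fun y hy => ?_
    rw [mem_prod, not_and_or, mem_closedBall, mem_closedBall, not_le, not_le] at hy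
    rcases hy with hy | hy
    · simp only [v, f1.zero_of_le_dist hy.le, zero_mul, zero_smul]
    · simp only [v, f2.zero_of_le_dist hy.le, mul_zero, zero_smul]
  obtain ⟨P, hP, h0, hd, -⟩ := Lib.Flow.exists_flow_of_hasCompactSupport (n := ⊤) (by simp) v hv hc
  have hU : IsOpen (ball a0 (2 * ρ) ×ˢ ball (0 : E) (R + 1)) := isOpen_ball.prod isOpen_ball
  have key : ∀ᶠ t in 𝓝 (0 : ℝ), ∀ y ∈ closedBall a0 ρ ×ˢ closedBall (0 : E) R,
      P (t, y) ∈ ball a0 (2 * ρ) ×ˢ ball (0 : E) (R + 1) := by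
    refine ((isCompact_closedBall a0 ρ).prod
      (isCompact_closedBall (0 : E) R)).eventually_forall_of_forall_eventually fun y hy => ?_
    refine hP.continuous.continuousAt.eventually_mem (hU.mem_nhds ?_)
    rw [h0]
    exact ⟨closedBall_subset_ball (by linarith) hy.1, closedBall_subset_ball (by linarith) hy.2⟩
  obtain ⟨ε, hε, hk⟩ := Metric.eventually_nhds_iff.1 key
  refine ⟨ε, hε, ρ, hρ', P, hP, h0, fun y hy t ht => ?_⟩
  have hm := hk (y := t) (by simpa [Real.dist_eq] using ht) y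
    ⟨ball_subset_closedBall hy.1, ball_subset_closedBall hy.2⟩
  refine ⟨hsub (ball_subset_closedBall (ball_subset_ball (by linarith) hm.1)), ?_⟩
  have := hd t y
  simp only [v, f1.one_of_mem_closedBall (ball_subset_closedBall hm.1),
    f2.one_of_mem_closedBall (ball_subset_closedBall hm.2), mul_one, one_smul] at this
  exact this

namespace FlowX

theorem cont {g : Met E M} {γ : ℝ → M} {t : ℝ} (h : GeoAt g γ t) : ContinuousAt γ t :=
  h.1.self_of_nhds.continuousAt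

/-- the geodesic given by a solution in a chart -/
theorem loc_geo {g : Met E M} {x : M} {ε : ℝ} {Φ : ℝ × (E × E) → E × E} (hΦ : ContDiff ℝ ∞ Φ)
    (h0 : ∀ y, Φ (0, y) = y) {y : E × E}
    (h : ∀ t, |t| < ε → (Φ (t, y)).1 ∈ (κ E x).target ∧
      HasDerivAt (fun s => Φ (s, y)) ((Φ (t, y)).2, acc g x (Φ (t, y))) t) (hε : 0 < ε) (t1 : ℝ) :
    (∀ t ∈ Ioo (t1 - ε) (t1 + ε), GeoAt g (fun s => (κ E x).symm (Φ (s - t1, y)).1) t) ∧
      (κ E x).symm (Φ (t1 - t1, y)).1 = (κ E x).symm y.1 ∧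
      vel E x (fun s => (κ E x).symm (Φ (s - t1, y)).1) t1 = y.2 := by
  set Y : ℝ → E × E := fun s => Φ (s - t1, y) with hY
  have hm : ∀ t ∈ Ioo (t1 - ε) (t1 + ε), |t - t1| < ε := fun t ht =>
    abs_lt.2 ⟨by linarith [ht.1], by linarith [ht.2]⟩
  have hd : ∀ t ∈ Ioo (t1 - ε) (t1 + ε), HasDerivAt Y ((Y t).2, acc g x (Y t)) t := fun t ht =>
    HasDerivAt.comp_sub_const t t1 (h _ (hm t ht)).2
  have hd1 : ∀ t ∈ Ioo (t1 - ε) (t1 + ε), deriv (fun s => (Y s).1) t = (Y t).2 := fun t ht =>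
    ((ContinuousLinearMap.fst ℝ E E).hasFDerivAt.comp_hasDerivAt t (hd t ht)).deriv
  have hs : ContDiff ℝ ∞ fun s => (Y s).1 :=
    (hΦ.comp ((contDiff_id.sub contDiff_const).prodMk contDiff_const)).fst
  have ht1 : t1 ∈ Ioo (t1 - ε) (t1 + ε) := ⟨by linarith, by linarith⟩
  refine ⟨fun t ht => ?_, by rw [sub_self, h0], ?_⟩
  · refine geoAt_of_chart g (c := fun s => (Y s).1) (Eventually.of_forall fun s => hs.contDiffAt)
      (h _ (hm t ht)).1 ?_
    rw [hd1 t ht]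
    refine HasDerivAt.congr_of_eventuallyEq
      ((ContinuousLinearMap.snd ℝ E E).hasFDerivAt.comp_hasDerivAt t (hd t ht)) ?_
    filter_upwards [isOpen_Ioo.mem_nhds ht] with s hs using hd1 s hs
  · have e : (κ E x ∘ fun s => (κ E x).symm (Φ (s - t1, y)).1) =ᶠ[𝓝 t1] fun s => (Y s).1 := by
      filter_upwards [isOpen_Ioo.mem_nhds ht1] with s hs
      exact (κ E x).right_inv (h _ (hm s hs)).1
    rw [vel, e.deriv_eq, hd1 t1 ht1]
    simp only [hY, sub_self, h0]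

omit [IsManifold 𝓘(ℝ, E) ∞ M] in
theorem vel_congr {γ γ' : ℝ → M} {t : ℝ} (h : γ =ᶠ[𝓝 t] γ') (x : M) : vel E x γ t = vel E x γ' t :=
  (h.fun_comp (κ E x)).deriv_eq

theorem loc_unique {g : Met E M} {γ γ' : ℝ → M} {t : ℝ} (h : ∀ᶠ s in 𝓝 t, GeoAt g γ s)
    (h' : ∀ᶠ s in 𝓝 t, GeoAt g γ' s) {x : M} (hx : γ t ∈ (κ E x).source) (h0 : γ t = γ' t)
    (h1 : vel E x γ t = vel E x γ' t) : γ =ᶠ[𝓝 t] γ' := by
  have hv : ContDiffAt ℝ 1 (fun y : E × E => (y.2, acc g x y)) (κ E x (γ t), vel E x γ t) :=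
    contDiffAt_snd.prodMk (((acc_smooth g x).contDiffAt
      (((target_open x).prod isOpen_univ).mem_nhds
        ⟨(κ E x).map_source hx, mem_univ _⟩)).of_le (by simp))
  obtain ⟨K, W, hW, hK⟩ := hv.exists_lipschitzOnWith
  have key : ∀ c : ℝ → M, (∀ᶠ s in 𝓝 t, GeoAt g c s) → c t ∈ (κ E x).source →
      W ∈ 𝓝 (κ E x (c t), vel E x c t) → ∀ᶠ s in 𝓝 t, c s ∈ (κ E x).source ∧
        HasDerivAt (fun s => (κ E x (c s), vel E x c s))
          (vel E x c s, acc g x (κ E x (c s), vel E x c s)) s ∧ (κ E x (c s), vel E x c s) ∈ W := by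
    intro c hc hcx hcW
    have h2 := hc.self_of_nhds
    filter_upwards [hc, (cont h2).eventually_mem ((source_open x).mem_nhds hcx),
      ((h2.hasDerivAt hcx).prodMk (h2.2 x hcx)).continuousAt.eventually_mem hcW] with s a b d
    exact ⟨b, (a.hasDerivAt b).prodMk (a.2 x b), d⟩
  have k1 := key γ h hx hW
  have k2 := key γ' h' (h0 ▸ hx) (by rwa [← h0, ← h1])
  have e := ODE_solution_unique_of_eventually (v := fun _ (y : E × E) => (y.2, acc g x y))
    (s := fun _ => W) (K := K) (f := fun s => (κ E x (γ s), vel E x γ s))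
    (g := fun s => (κ E x (γ' s), vel E x γ' s)) (Eventually.of_forall fun _ => hK)
    (k1.mono fun s hs => hs.2) (k2.mono fun s hs => hs.2) (by simp only [h0, h1])
  filter_upwards [k1, k2, e] with s a b c
  exact (κ E x).injOn a.1 b.1 (congrArg Prod.fst c)

end FlowX

open FlowX

variable [T2Space M]

theorem geo_unique_on {g : Met E M} {γ γ' : ℝ → M} {a b t0 : ℝ} (ht : t0 ∈ Ioo a b)
    (h : ∀ t ∈ Ioo a b, GeoAt g γ t) (h' : ∀ t ∈ Ioo a b, GeoAt g γ' t) {x : M}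
    (hx : γ t0 ∈ (κ E x).source) (h0 : γ t0 = γ' t0) (h1 : vel E x γ t0 = vel E x γ' t0) :
    EqOn γ γ' (Ioo a b) := by
  have ev : ∀ {c : ℝ → M}, (∀ t ∈ Ioo a b, GeoAt g c t) → ∀ t ∈ Ioo a b,
      ∀ᶠ s in 𝓝 t, GeoAt g c s := fun hc t ht =>
    mem_of_superset (isOpen_Ioo.mem_nhds ht) hc
  have key : Ioo a b ⊆ {t | ∀ᶠ s in 𝓝 t, γ s = γ' s} := by
    refine isPreconnected_Ioo.subset_of_closure_inter_subset isOpen_setOfPred_eventually_nhds
      ⟨t0, ht, loc_unique (ev h t0 ht) (ev h' t0 ht) hx h0 h1⟩ ?_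
    rintro t ⟨hc, hm⟩
    have fr := mem_closure_iff_frequently.1 hc
    have e0 : γ t = γ' t := tendsto_nhds_unique_of_frequently_eq (cont (h t hm)) (cont (h' t hm))
      (fr.mono fun s hs => hs.self_of_nhds)
    have hs : γ t ∈ (κ E (γ t)).source := mem_extChartAt_source _
    refine loc_unique (ev h t hm) (ev h' t hm) hs e0 ?_
    exact tendsto_nhds_unique_of_frequently_eq ((h t hm).2 _ hs).continuousAt
      ((h' t hm).2 _ (e0 ▸ hs)).continuousAt (fr.mono fun s hs => vel_congr hs _)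
  exact fun t ht => (key ht).self_of_nhds

theorem geo_unique {g : Met E M} {γ γ' : ℝ → M} (h : IsGeodesic g γ) (h' : IsGeodesic g γ')
    {t0 : ℝ} {x : M} (hx : γ t0 ∈ (κ E x).source) (h0 : γ t0 = γ' t0)
    (h1 : vel E x γ t0 = vel E x γ' t0) : γ = γ' := by
  rw [isGeodesic_iff] at h h'
  funext t
  exact geo_unique_on (a := min t t0 - 1) (b := max t t0 + 1)
    ⟨by linarith [min_le_right t t0], by linarith [le_max_right t t0]⟩ (fun s _ => h s)
    (fun s _ => h' s) hx h0 h1 ⟨by linarith [min_le_left t t0], by linarith [le_max_left t t0]⟩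

namespace FlowX

theorem glue {g : Met E M} {γ δ : ℝ → M} {a b c d t : ℝ} (ht : t ∈ Ioo a b) (ht' : t ∈ Ioo c d)
    (h : ∀ s ∈ Ioo a b, GeoAt g γ s) (h' : ∀ s ∈ Ioo c d, GeoAt g δ s) {x : M}
    (hx : γ t ∈ (κ E x).source) (h0 : γ t = δ t) (h1 : vel E x γ t = vel E x δ t) :
    ∃ η : ℝ → M, (∀ s ∈ Ioo (min a c) (max b d), GeoAt g η s) ∧ EqOn η γ (Ioo a b) := by
  classical
  have e : EqOn γ δ (Ioo (max a c) (min b d)) :=
    geo_unique_on ⟨max_lt ht.1 ht'.1, lt_min ht.2 ht'.2⟩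
      (fun s hs => h s ⟨(max_lt_iff.1 hs.1).1, (lt_min_iff.1 hs.2).1⟩)
      (fun s hs => h' s ⟨(max_lt_iff.1 hs.1).2, (lt_min_iff.1 hs.2).2⟩) hx h0 h1
  refine ⟨fun s => if s ∈ Ioo a b then γ s else δ s, fun s hs => ?_, fun s hs => if_pos hs⟩
  by_cases h2 : s ∈ Ioo a b
  · refine (h s h2).congr ?_
    filter_upwards [isOpen_Ioo.mem_nhds h2] with u hu using if_pos hu
  have h3 : s ∈ Ioo c d := by
    rw [mem_Ioo, not_and_or, not_lt, not_lt] at h2
    rcases h2 with h2 | h2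
    · exact ⟨(min_lt_iff.1 hs.1).resolve_left (not_lt.2 h2), by linarith [ht.1, ht'.2]⟩
    · exact ⟨by linarith [ht.2, ht'.1], (lt_max_iff.1 hs.2).resolve_left (not_lt.2 h2)⟩
  refine (h' s h3).congr ?_
  filter_upwards [isOpen_Ioo.mem_nhds h3] with u hu
  split_ifs with h4
  · exact e ⟨max_lt h4.1 hu.1, lt_min h4.2 hu.2⟩
  · rfl

omit [T2Space M] in
theorem energy_const {g : Met E M} {γ : ℝ → M} {a b : ℝ} (h : ∀ s ∈ Ioo a b, GeoAt g γ s) {s t : ℝ}
    (hs : s ∈ Ioo a b) (ht : t ∈ Ioo a b) : energy g γ s = energy g γ t := by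
  have hd : ∀ u ∈ Ioo a b, HasDerivAt (energy g γ) 0 u := fun u hu =>
    hasDerivAt_energy (mem_of_superset (isOpen_Ioo.mem_nhds hu) h)
  exact isOpen_Ioo.is_const_of_deriv_eq_zero isPreconnected_Ioo
    (fun u hu => (hd u hu).differentiableAt.differentiableWithinAt) (fun u hu => (hd u hu).deriv)
    hs ht

omit [T2Space M] in
/-- a uniform time of existence for bounded energy -/
theorem uniform [CompactSpace M] (g : Met E M) (e : ℝ) : ∃ ε > 0, ∀ (γ : ℝ → M) (t : ℝ),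
    GeoAt g γ t → energy g γ t ≤ e → ∃ (x : M) (δ : ℝ → M), γ t ∈ (κ E x).source ∧
      (∀ s ∈ Ioo (t - ε) (t + ε), GeoAt g δ s) ∧ γ t = δ t ∧ vel E x γ t = vel E x δ t := by
  have key : ∀ q : M, ∃ ε > 0, ∀ᶠ p in 𝓝 q, ∀ ε' ∈ Ioc 0 ε, ∀ (γ : ℝ → M) (t : ℝ), γ t = p →
      GeoAt g γ t → energy g γ t ≤ e → ∃ (x : M) (δ : ℝ → M), γ t ∈ (κ E x).source ∧
        (∀ s ∈ Ioo (t - ε') (t + ε'), GeoAt g δ s) ∧ γ t = δ t ∧ vel E x γ t = vel E x δ t := by
    intro q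
    have hq : κ E q q ∈ (κ E q).target := mem_extChartAt_target q
    obtain ⟨r0, hr0, hb⟩ := Metric.nhds_basis_closedBall.mem_iff.1 ((target_open q).mem_nhds hq)
    obtain ⟨l, hl, hco⟩ := G_coercive g q (isCompact_closedBall _ r0) hb
    obtain ⟨ε, hε, r, hr, Φ, hΦ, h0, hf⟩ := exists_local_flow g q hq
      (R := |e| / l + 1) (by positivity)
    refine ⟨ε, hε, ?_⟩
    filter_upwards [extChartAt_source_mem_nhds (I := 𝓘(ℝ, E)) q,
      (continuousAt_extChartAt (I := 𝓘(ℝ, E)) q).eventually_mem (ball_mem_nhds _ hr),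
      (continuousAt_extChartAt (I := 𝓘(ℝ, E)) q).eventually_mem (closedBall_mem_nhds _ hr0)]
      with p p1 p2 p3 ε' hε' γ t hp hg he
    subst hp
    have hV : vel E q γ t ∈ ball (0 : E) (|e| / l + 1) := by
      have h1 := hco _ p3 (vel E q γ t)
      rw [← energy_eq hg p1] at h1
      have h2 : ‖vel E q γ t‖ ^ 2 ≤ |e| / l := by
        rw [le_div_iff₀ hl]; linarith [le_abs_self e]
      rw [mem_ball_zero_iff]
      nlinarith [sq_nonneg (‖vel E q γ t‖ - 1 / 2)]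
    obtain ⟨a, b, c⟩ := loc_geo hΦ h0 (hf (κ E q (γ t), vel E q γ t) ⟨p2, hV⟩) hε t
    exact ⟨q, _, p1, fun s hs => a s ⟨by linarith [hs.1, hε'.2], by linarith [hs.2, hε'.2]⟩,
      by rw [b, (κ E q).left_inv p1], c.symm⟩
  choose ε hε hU using key
  obtain ⟨T, hT⟩ := CompactSpace.elim_nhds_subcover _ hU
  have : ∀ᶠ ε' in 𝓝[>] (0 : ℝ), ∀ q ∈ T, ε' ∈ Ioc 0 (ε q) :=
    (eventually_all_finset T).2 fun q _ => Ioc_mem_nhdsGT (hε q)
  obtain ⟨ε', h1, h2⟩ := (this.and self_mem_nhdsWithin).exists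
  refine ⟨ε', h2, fun γ t => ?_⟩
  obtain ⟨q, hq, hp⟩ := mem_iUnion₂.1 (hT.ge (mem_univ (γ t)))
  exact hp ε' (h1 q hq) γ t rfl

end FlowX

variable [CompactSpace M]

theorem exists_geo (g : Met E M) (x : M) (y : E × E) : ∃ γ : ℝ → M, y.1 ∈ (κ E x).target →
    IsGeodesic g γ ∧ γ 0 = (κ E x).symm y.1 ∧ vel E x γ 0 = y.2 := by
  by_cases hy : y.1 ∈ (κ E x).target
  swap
  · exact ⟨fun _ => x, fun h => absurd h hy⟩
  let Q : ℝ → ℝ → (ℝ → M) → Prop := fun a b γ =>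
    (∀ s ∈ Ioo a b, GeoAt g γ s) ∧ γ 0 = (κ E x).symm y.1 ∧ vel E x γ 0 = y.2
  have hsrc : (κ E x).symm y.1 ∈ (κ E x).source := (κ E x).map_target hy
  obtain ⟨ε, hε, hU⟩ := uniform g (G g x y.1 y.2 y.2)
  have step : ∀ a b γ, (0 : ℝ) ∈ Ioo a b → Q a b γ → ∀ t ∈ Ioo a b,
      ∃ η, Q (min a (t - ε)) (max b (t + ε)) η := by
    rintro a b γ h0 ⟨h1, h2, h3⟩ t ht
    obtain ⟨q, δ, d1, d2, d3, d4⟩ := hU γ t (h1 t ht) (by
      rw [energy_const h1 ht h0, energy_eq (h1 0 h0) (h2 ▸ hsrc), h2, h3, (κ E x).right_inv hy])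
    obtain ⟨η, e1, e2⟩ := glue ht ⟨by linarith, by linarith⟩ h1 d2 d1 d3 d4
    exact ⟨η, e1, (e2 h0).trans h2,
      (vel_congr (e2.eventuallyEq_of_mem (isOpen_Ioo.mem_nhds h0)) x).trans h3⟩
  have mono : ∀ a b a' b' γ, Q a b γ → a ≤ a' → b' ≤ b → Q a' b' γ :=
    fun a b a' b' γ h ha hb => ⟨fun s hs => h.1 s (Ioo_subset_Ioo ha hb hs), h.2⟩
  obtain ⟨T, hT, r, hr, Φ, hΦ, h0, hf⟩ := exists_local_flow g x hy (R := ‖y.2‖ + 1)
    (by positivity)
  have ind : ∀ n : ℕ, ∃ γ, Q (-(T + n * (ε / 2))) (T + n * (ε / 2)) γ := by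
    intro n
    induction n with
    | zero =>
      obtain ⟨a, b, c⟩ := loc_geo hΦ h0 (hf y ⟨mem_ball_self hr, by simp⟩) hT 0
      exact ⟨_, fun s hs => a s (by simpa using hs), b, c⟩
    | succ n ih =>
      obtain ⟨γ, hγ⟩ := ih
      have hS : 0 < T + n * (ε / 2) := by positivity
      generalize hS' : T + n * (ε / 2) = S at hγ hS
      have e : T + ((n + 1 : ℕ) : ℝ) * (ε / 2) = S + ε / 2 := by rw [← hS']; push_cast; ring
      have h1 : max 0 (S - ε / 2) < S := max_lt hS (by linarith)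
      have h2 := le_max_left 0 (S - ε / 2)
      have h3 := le_max_right 0 (S - ε / 2)
      generalize max 0 (S - ε / 2) = t at h1 h2 h3
      obtain ⟨η, hη⟩ := step _ _ γ ⟨by linarith, hS⟩ hγ t ⟨by linarith, h1⟩
      have hη' := mono _ _ (-S) (S + ε / 2) η hη (min_le_left _ _)
        (le_max_of_le_right (by linarith))
      obtain ⟨ζ, hζ⟩ := step _ _ η ⟨by linarith, by linarith⟩ hη' (-t) ⟨by linarith, by linarith⟩
      rw [e]
      exact ⟨ζ, mono _ _ _ _ ζ hζ (min_le_of_right_le (by linarith)) (le_max_left _ _)⟩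
  have all : ∀ S : ℝ, ∃ γ, Q (-S) S γ := by
    intro S
    obtain ⟨n, hn⟩ := exists_nat_ge (S / (ε / 2))
    rw [div_le_iff₀ (by positivity)] at hn
    obtain ⟨γ, hγ⟩ := ind n
    exact ⟨γ, mono _ _ _ _ γ hγ (by linarith) (by linarith)⟩
  choose c hc using all
  have agree : ∀ S t, |t| < S → c (|t| + 1) t = c S t := by
    intro S t ht
    have h1 : 0 < min S (|t| + 1) := lt_min ((abs_nonneg t).trans_lt ht) (by positivity)
    have h2 : |t| < min S (|t| + 1) := lt_min ht (by linarith)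
    have q1 := mono _ _ _ _ _ (hc S) (neg_le_neg (min_le_left S (|t| + 1)))
      (min_le_left S (|t| + 1))
    have q2 := mono _ _ _ _ _ (hc (|t| + 1)) (neg_le_neg (min_le_right S (|t| + 1)))
      (min_le_right S (|t| + 1))
    exact geo_unique_on (t0 := 0) ⟨by linarith, h1⟩ q2.1 q1.1 (x := x) (by rw [q2.2.1]; exact hsrc)
      (q2.2.1.trans q1.2.1.symm) (q2.2.2.trans q1.2.2.symm) (abs_lt.1 h2)
  have ev : ∀ t, (fun s => c (|s| + 1) s) =ᶠ[𝓝 t] c (|t| + 1) := by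
    intro t
    filter_upwards [continuous_abs.continuousAt.eventually_lt continuousAt_const
      (show |t| < |t| + 1 by linarith)] with s hs using agree _ s hs
  refine ⟨fun s => c (|s| + 1) s, fun _ => ⟨(isGeodesic_iff _ _).2 fun t => ?_, (hc _).2.1,
    (vel_congr (ev 0) x).trans (hc _).2.2⟩⟩
  exact ((hc _).1 t (abs_lt.1 (by linarith))).congr (ev t)

/-- the geodesic with initial point and velocity `y` in the chart at `x` -/
noncomputable def geo (g : Met E M) (x : M) (y : E × E) : ℝ → M := (exists_geo g x y).choose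

theorem geo_spec (g : Met E M) (x : M) {y : E × E} (hy : y.1 ∈ (κ E x).target) :
    IsGeodesic g (geo g x y) ∧ geo g x y 0 = (κ E x).symm y.1 ∧ vel E x (geo g x y) 0 = y.2 :=
  (exists_geo g x y).choose_spec hy

theorem geo_smooth (g : Met E M) (x : M) {y : E × E} (hy : y.1 ∈ (κ E x).target) (t : ℝ) :
    ContMDiffAt 𝓘(ℝ, (E × E) × ℝ) 𝓘(ℝ, E) ∞ (fun z : (E × E) × ℝ => geo g x z.1 z.2) (y, t) := by
  let Γ : (E × E) × ℝ → M := fun z => geo g x z.1 z.2
  have hyt : ∀ᶠ y' in 𝓝 y, y'.1 ∈ (κ E x).target :=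
    continuous_fst.continuousAt.eventually_mem ((target_open x).mem_nhds hy)
  have prop : ∀ (q : M) (t1 ε : ℝ) (Φ : ℝ × (E × E) → E × E) (W : E × E → E × E)
      (B : Set (E × E)), 0 < ε → IsOpen B → ContDiff ℝ ∞ Φ → (∀ y, Φ (0, y) = y) →
      (∀ y ∈ B, ∀ t, |t| < ε → (Φ (t, y)).1 ∈ (κ E q).target ∧
        HasDerivAt (fun s => Φ (s, y)) ((Φ (t, y)).2, acc g q (Φ (t, y))) t) → W y ∈ B →
      (∀ᶠ y' in 𝓝 y, ContDiffAt ℝ ∞ W y' ∧ geo g x y' t1 ∈ (κ E q).source ∧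
        κ E q (geo g x y' t1) = (W y').1 ∧ vel E q (geo g x y') t1 = (W y').2) →
      ∀ t ∈ Ioo (t1 - ε) (t1 + ε),
        ∀ᶠ z in 𝓝 (y, t), ContMDiffAt 𝓘(ℝ, (E × E) × ℝ) 𝓘(ℝ, E) ∞ Γ z := by
    intro q t1 ε Φ W B hε hB hΦ h0 hf hy' hW t ht
    have e1 : ∀ᶠ z in 𝓝 (y, t), ContDiffAt ℝ ∞ W z.1 ∧ (Φ (z.2 - t1, W z.1)).1 ∈ (κ E q).target ∧
        Γ z = (κ E q).symm (Φ (z.2 - t1, W z.1)).1 := by
      filter_upwards [(continuous_fst.tendsto (y, t)).eventually (hW.and (hyt.and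
        (hW.self_of_nhds.1.continuousAt.eventually_mem (hB.mem_nhds hy')))),
        continuous_snd.continuousAt.eventually_mem (x := (y, t)) (isOpen_Ioo.mem_nhds ht)]
        with z ⟨⟨a1, a2, a3, a4⟩, a5, a6⟩ b
      obtain ⟨c1, c2, c3⟩ := loc_geo hΦ h0 (hf _ a6) hε t1
      refine ⟨a1, (hf _ a6 _ (abs_lt.2 ⟨by linarith [b.1], by linarith [b.2]⟩)).1, ?_⟩
      exact geo_unique_on (t0 := t1) ⟨by linarith, by linarith⟩
        (fun s _ => (isGeodesic_iff _ _).1 (geo_spec g x a5).1 s) c1 a2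
        (by rw [c2, ← a3, (κ E q).left_inv a2]) (a4.trans c3.symm) b
    filter_upwards [e1.eventually_nhds] with z hz
    refine (contMDiffAt_symm (n := ⊤) (x := q) (c := fun z : (E × E) × ℝ =>
      (Φ (z.2 - t1, W z.1)).1) ?_ hz.self_of_nhds.2.1).congr_of_eventuallyEq
      (hz.mono fun w hw => hw.2.2)
    exact (hΦ.contDiffAt.comp z ((contDiffAt_snd.sub contDiffAt_const).prodMk
      (hz.self_of_nhds.1.comp z contDiffAt_fst))).fst
  have key : (univ : Set ℝ) ⊆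
      {t | ∀ᶠ z in 𝓝 (y, t), ContMDiffAt 𝓘(ℝ, (E × E) × ℝ) 𝓘(ℝ, E) ∞ Γ z} := by
    refine isPreconnected_univ.subset_of_closure_inter_subset
      (isOpen_setOfPred_eventually_nhds.preimage (Continuous.prodMk_right y)) ⟨0, mem_univ _, ?_⟩ ?_
    · obtain ⟨ε, hε, r, hr, Φ, hΦ, h0, hf⟩ := exists_local_flow g x hy (R := ‖y.2‖ + 1)
        (by positivity)
      refine prop x 0 ε Φ id _ hε (isOpen_ball.prod isOpen_ball) hΦ h0 hf
        ⟨mem_ball_self hr, by simp⟩ ?_ 0 ⟨by linarith, by linarith⟩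
      filter_upwards [hyt] with y' h
      obtain ⟨-, s2, s3⟩ := geo_spec g x h
      exact ⟨contDiffAt_id, s2 ▸ (κ E x).map_target h, by rw [s2, (κ E x).right_inv h]; rfl, s3⟩
    rintro t0 ⟨hc, -⟩
    have hg := (isGeodesic_iff _ _).1 (geo_spec g x hy).1 t0
    set q := geo g x y t0 with hq
    have hs : geo g x y t0 ∈ (κ E q).source := mem_extChartAt_source q
    obtain ⟨ε, hε, r, hr, Φ, hΦ, h0, hf⟩ := exists_local_flow g q ((κ E q).map_source hs)
      (R := ‖vel E q (geo g x y) t0‖ + 1) (by positivity)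
    obtain ⟨t1, a0, a1, a2, a3, a4⟩ := ((mem_closure_iff_frequently.1 hc).and_eventually
      (((cont hg).eventually_mem ((source_open q).mem_nhds hs)).and
        (((hg.hasDerivAt hs).continuousAt.eventually_mem (ball_mem_nhds _ hr)).and
          (((hg.2 q hs).continuousAt.eventually_mem (isOpen_ball.mem_nhds
            (show vel E q (geo g x y) t0 ∈ ball 0 (‖vel E q (geo g x y) t0‖ + 1) by simp))).and
            (Ioo_mem_nhds (show t0 - ε < t0 by linarith) (show t0 < t0 + ε by linarith)))))).exists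
    have a0 : ∀ᶠ z in 𝓝 (y, t1), ContMDiffAt 𝓘(ℝ, (E × E) × ℝ) 𝓘(ℝ, E) ∞ Γ z := a0
    have hW : ∀ᶠ y' in 𝓝 y, ContDiffAt ℝ ∞
        (fun y' => (κ E q (Γ (y', t1)), fderiv ℝ (κ E q ∘ Γ) (y', t1) (0, 1))) y' ∧
        geo g x y' t1 ∈ (κ E q).source ∧ κ E q (geo g x y' t1) = κ E q (Γ (y', t1)) ∧
        vel E q (geo g x y') t1 = fderiv ℝ (κ E q ∘ Γ) (y', t1) (0, 1) := by
      filter_upwards [((Continuous.prodMk_left t1).tendsto y).eventually (a0.and
        (a0.self_of_nhds.continuousAt.eventually_mem ((source_open q).mem_nhds a1)))]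
        with y' ⟨b1, b2⟩
      have b3 : ContDiffAt ℝ ∞ (κ E q ∘ Γ) (y', t1) := contDiffAt_chart (n := ⊤) b1 b2
      have b4 : ContDiffAt ℝ ∞ (fun y'' : E × E => (y'', t1)) y' :=
        contDiffAt_id.prodMk contDiffAt_const
      have b5 := ContDiffAt.comp y' (f := fun y'' : E × E => (y'', t1)) b3 b4
      have b6 := ContDiffAt.comp y' (f := fun y'' : E × E => (y'', t1))
        (b3.fderiv_right (m := ∞) (by simp)) b4
      refine ⟨b5.prodMk (b6.clm_apply contDiffAt_const), b2, rfl, ?_⟩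
      exact ((b3.differentiableAt (by simp)).hasFDerivAt.comp_hasDerivAt t1
        ((hasDerivAt_const t1 y').prodMk (hasDerivAt_id t1))).deriv
    refine prop q t1 ε Φ (fun y' => (κ E q (Γ (y', t1)), fderiv ℝ (κ E q ∘ Γ) (y', t1) (0, 1))) _ hε
      (isOpen_ball.prod isOpen_ball) hΦ h0 hf ⟨a2, ?_⟩ hW t0
      ⟨by linarith [a4.2], by linarith [a4.1]⟩
    have e := hW.self_of_nhds.2.2.2
    rw [e] at a3
    exact a3
  exact (key (mem_univ t)).self_of_nhds

end Pool.Agent.GeoN
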