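import Mathlib
import Pool.Agent.P.MP_365c00_gt.NSpace

/-! TASK BVar: elementary facts on geodesics and the first variation formula. -/

set_option linter.unusedSectionVars false
set_option linter.unusedVariables false

open Set Filter Topology Metric Function
open scoped Manifold ContDiff

namespace Pool.Agent.GeoN

variable {E : Type} [NormedAddCommGroup E] [InnerProductSpace ℝ E] [FiniteDimensional ℝ E]
  {M : Type} [TopologicalSpace M] [ChartedSpace E M] [IsManifold 𝓘(ℝ, E) ∞ M]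
  [T2Space M] [CompactSpace M] [Nonempty M] [Nontrivial E]

theorem isGeodesic_const (g : Met E M) (x : M) : IsGeodesic g fun _ => x := by
  refine (isGeodesic_iff g _).2 fun t => ⟨Eventually.of_forall fun s => contMDiffAt_const,
    fun y hy => ?_⟩
  have hv : vel E y (fun _ : ℝ => x) = fun _ => 0 := funext fun s => by
    unfold vel
    exact deriv_const s (κ E y x)
  have h0 := acc_smul g y ((κ E y).map_source hy) 0 0
  rw [zero_smul, zero_pow two_ne_zero, zero_smul] at h0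
  rw [hv, h0]
  exact hasDerivAt_const t 0

theorem energy_nonneg (g : Met E M) (γ : ℝ → M) (t : ℝ) : 0 ≤ energy g γ t := by
  unfold energy
  by_cases h : mfderiv 𝓘(ℝ, ℝ) 𝓘(ℝ, E) γ t (1 : ℝ) = 0
  · rw [h, map_zero]
  · exact (g.pos _ _ h).le

theorem energy_of_const (g : Met E M) (x : M) (t : ℝ) : energy g (fun _ => x) t = 0 := by
  unfold energy
  rw [mfderiv_const, zero_apply, map_zero]

theorem IsGeodesic.cont {g : Met E M} {γ : ℝ → M} (h : IsGeodesic g γ) : Continuous γ := by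
  exact h.1.continuous

theorem geo_jet {g : Met E M} {γ : ℝ → M} (h : IsGeodesic g γ) {x : M}
    (hx : γ 0 ∈ (κ E x).source) : geo g x (κ E x (γ 0), vel E x γ 0) = γ := by
  obtain ⟨h1, h2, h3⟩ := geo_spec g x (y := (κ E x (γ 0), vel E x γ 0)) ((κ E x).map_source hx)
  rw [(κ E x).left_inv hx] at h2
  exact geo_unique h1 h (t0 := 0) (x := x) (by rwa [h2]) h2 h3

theorem energy_geo (g : Met E M) (x : M) {y : E × E} (hy : y.1 ∈ (κ E x).target) :
    energy g (geo g x y) 0 = G g x y.1 y.2 y.2 := by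
  obtain ⟨h1, h2, h3⟩ := geo_spec g x hy
  have hx : geo g x y 0 ∈ (κ E x).source := by rw [h2]; exact (κ E x).map_target hy
  rw [energy_eq ((isGeodesic_iff g _).1 h1 0) hx, h3, h2, (κ E x).right_inv hy]

theorem geo_smul (g : Met E M) (x : M) {a : E} (ha : a ∈ (κ E x).target) (l : ℝ) (V : E) (s : ℝ) :
    geo g x (a, l • V) s = geo g x (a, V) (l * s) := by
  obtain ⟨h1, h2, h3⟩ := geo_spec g x (y := (a, l • V)) ha
  obtain ⟨k1, k2, k3⟩ := geo_spec g x (y := (a, V)) ha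
  have hs : (κ E x).symm a ∈ (κ E x).source := (κ E x).map_target ha
  have e : l * 0 + 0 = (0 : ℝ) := by ring
  have := geo_unique h1 (k1.affine l 0) (t0 := 0) (x := x) (by rwa [h2])
    (by rw [h2, e, k2]) (by
      rw [h3, vel_affine ((isGeodesic_iff g _).1 k1 _) (by rwa [e, k2]), e, k3])
  rw [this]
  dsimp only
  rw [add_zero]

theorem energy_pos {g : Met E M} {γ : ℝ → M} (h : IsGeodesic g γ) {s : ℝ} (hs : γ s ≠ γ 0) :
    0 < energy g γ 0 := by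
  obtain ⟨u, l, hl, hu⟩ := exists_unit h hs
  have e : γ = fun s => u.1 (l * s + 0) := funext fun t => by rw [hu, add_zero]
  have h1 : energy g u.1 (l * 0 + 0) = 1 := u.2.2 _
  rw [e, energy_affine u.2.1, h1]
  positivity

theorem exists_unit_sqrt {g : Met E M} {γ : ℝ → M} (h : IsGeodesic g γ) (he : 0 < energy g γ 0) :
    ∃ u : UG g, ∀ t, γ t = u.1 (√(energy g γ 0) * t) := by
  have hl : 0 < √(energy g γ 0) := Real.sqrt_pos.2 he
  have h2 := h.affine (√(energy g γ 0))⁻¹ 0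
  refine ⟨⟨⟨_, h2.1.continuous⟩, h2, fun t => ?_⟩, fun t => ?_⟩
  · have := energy_affine h (√(energy g γ 0))⁻¹ 0 t
    rw [energy_const h (_ * t + 0) 0, inv_pow, Real.sq_sqrt he.le,
      inv_mul_cancel₀ he.ne'] at this
    exact this
  · simp only [ContinuousMap.coe_mk]
    rw [inv_mul_cancel_left₀ hl.ne', add_zero]

theorem exists_ne_of_energy {g : Met E M} {γ : ℝ → M} (h : IsGeodesic g γ)
    (he : 0 < energy g γ 0) {a : ℝ} (ha : 0 < a) : ∃ s ∈ Icc 0 a, γ s ≠ γ 0 := by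
  obtain ⟨u, hu⟩ := exists_unit_sqrt h he
  obtain ⟨ε, hε, hi⟩ := u.locinj
  have hl : 0 < √(energy g γ 0) := Real.sqrt_pos.2 he
  generalize √(energy g γ 0) = l at hu hl
  have h1 : 0 < min a (ε / 2 / l) := lt_min ha (by positivity)
  refine ⟨min a (ε / 2 / l), ⟨h1.le, min_le_left _ _⟩, fun e => ?_⟩
  rw [hu, hu, mul_zero] at e
  have h2 : l * min a (ε / 2 / l) ≤ ε / 2 := by
    rw [mul_comm, ← le_div_iff₀ hl]; exact min_le_right _ _
  have h3 := mul_pos hl h1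
  exact h3.ne' (hi ⟨by linarith, by linarith⟩ ⟨by linarith, hε⟩ e)

theorem UG.energy_scale {g : Met E M} (u : UG g) (l m : ℝ) :
    IsGeodesic g (fun t => u.1 (l * t + m)) ∧ energy g (fun t => u.1 (l * t + m)) 0 = l ^ 2 := by
  refine ⟨u.2.1.affine l m, ?_⟩
  have h1 : energy g u.1 (l * 0 + m) = 1 := u.2.2 _
  rw [energy_affine u.2.1, h1, mul_one]

variable {P : Type} [NormedAddCommGroup P] [NormedSpace ℝ P]

namespace VarX

theorem deriv_fderiv {c : P → E} {y : P} (hc : ContDiffAt ℝ 2 c y) {σ : ℝ → P} {v : P} {s : ℝ}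
    (hσ : HasDerivAt σ v s) (h0 : σ s = y) (e : P) :
    HasDerivAt (fun r => fderiv ℝ c (σ r) e) (fderiv ℝ (fderiv ℝ c) y v e) s := by
  subst h0
  have hD : HasFDerivAt (fderiv ℝ c) (fderiv ℝ (fderiv ℝ c) (σ s)) (σ s) :=
    ((hc.fderiv_right (m := 1) (by norm_num)).differentiableAt one_ne_zero).hasFDerivAt
  simpa using (hD.comp_hasDerivAt s hσ).clm_apply (hasDerivAt_const s e)

theorem deriv_form {c : P → E} {y : P} (hc : ContDiffAt ℝ 2 c y) {B : E → E →L[ℝ] E →L[ℝ] ℝ}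
    (hB : DifferentiableAt ℝ B (c y)) {σ : ℝ → P} {v : P} {s : ℝ}
    (hσ : HasDerivAt σ v s) (h0 : σ s = y) (e e' : P) :
    HasDerivAt (fun r => B (c (σ r)) (fderiv ℝ c (σ r) e) (fderiv ℝ c (σ r) e'))
      (fderiv ℝ B (c y) (fderiv ℝ c y v) (fderiv ℝ c y e) (fderiv ℝ c y e')
        + B (c y) (fderiv ℝ (fderiv ℝ c) y v e) (fderiv ℝ c y e')
        + B (c y) (fderiv ℝ c y e) (fderiv ℝ (fderiv ℝ c) y v e')) s := by
  have h1 := deriv_fderiv hc hσ h0 e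
  have h2 := deriv_fderiv hc hσ h0 e'
  subst h0
  have h3 : HasDerivAt (fun r => c (σ r)) (fderiv ℝ c (σ s) v) s :=
    (hc.differentiableAt two_ne_zero).hasFDerivAt.comp_hasDerivAt s hσ
  exact ChartX.hasDerivAt_bil (c := fun r => c (σ r)) hB h3 h1 h2

theorem fderiv_snd {c : P × ℝ → E} {z : P} {t : ℝ} (hc : DifferentiableAt ℝ c (z, t)) :
    fderiv ℝ c (z, t) (0, 1) = deriv (fun s => c (z, s)) t :=
  (hc.hasFDerivAt.comp_hasDerivAt t ((hasDerivAt_const t z).prodMk (hasDerivAt_id t))).deriv.symm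

theorem fderiv_fst {c : P × ℝ → E} {z : P} {t : ℝ} (hc : DifferentiableAt ℝ c (z, t)) (ξ : P) :
    fderiv ℝ c (z, t) (ξ, 0) = fderiv ℝ (fun y => c (y, t)) z ξ := by
  have h := HasFDerivAt.comp z (f := fun y => (y, t)) hc.hasFDerivAt
    ((hasFDerivAt_id z).prodMk (hasFDerivAt_const t z))
  rw [HasFDerivAt.fderiv (f := fun y => c (y, t)) h]
  simp

/-- the family of curves as a map of all the variables -/
def fam (Γ : P → ℝ → M) (y : P × ℝ) : M := Γ y.1 y.2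

variable {Γ : P → ℝ → M}

theorem fam_vel {y : P × ℝ} {x : M} (h : DifferentiableAt ℝ (κ E x ∘ fam Γ) y) :
    fderiv ℝ (κ E x ∘ fam Γ) y (0, 1) = vel E x (Γ y.1) y.2 := fderiv_snd (z := y.1) (t := y.2) h

theorem fam_ev {D : Set P} (hD : IsOpen D)
    (hZ : ∀ z ∈ D, ∀ t, ContMDiffAt 𝓘(ℝ, P × ℝ) 𝓘(ℝ, E) ∞ (fam Γ) (z, t))
    {z : P} (hz : z ∈ D) {t : ℝ} {x : M} (hx : fam Γ (z, t) ∈ (κ E x).source) :
    ∀ᶠ y in 𝓝 (z, t), y.1 ∈ D ∧ fam Γ y ∈ (κ E x).source ∧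
      ContMDiffAt 𝓘(ℝ, P × ℝ) 𝓘(ℝ, E) ∞ (fam Γ) y ∧ ContDiffAt ℝ ∞ (κ E x ∘ fam Γ) y := by
  have h1 : ∀ᶠ y in 𝓝 (z, t), fam Γ y ∈ (κ E x).source :=
    (hZ z hz t).continuousAt.preimage_mem_nhds ((source_open x).mem_nhds hx)
  have h2 : ∀ᶠ y : P × ℝ in 𝓝 (z, t), y.1 ∈ D :=
    continuousAt_fst.preimage_mem_nhds (hD.mem_nhds hz)
  filter_upwards [h1, h2] with y hy hy'
  exact ⟨hy', hy, hZ y.1 hy' y.2, contDiffAt_chart (n := ⊤) (hZ y.1 hy' y.2) hy⟩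

theorem vel_sm {D : Set P} (hD : IsOpen D)
    (hs : ∀ z ∈ D, ∀ t, ContMDiffAt 𝓘(ℝ, P × ℝ) 𝓘(ℝ, E) ∞ (fam Γ) (z, t))
    {z : P} (hz : z ∈ D) {t : ℝ} {x : M} (hx : fam Γ (z, t) ∈ (κ E x).source) :
    ContDiffAt ℝ ∞ (fun y : P × ℝ => vel E x (Γ y.1) y.2) (z, t) := by
  have hev := fam_ev hD hs hz hx
  have h1 : ContDiffAt ℝ ∞ (fun y => fderiv ℝ (κ E x ∘ fam Γ) y (0, 1)) (z, t) :=
    (hev.self_of_nhds.2.2.2.fderiv_right (m := ∞) (by exact_mod_cast le_top)).clm_apply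
      contDiffAt_const
  refine h1.congr_of_eventuallyEq (hev.mono fun y hy => ?_)
  exact (fam_vel (hy.2.2.2.differentiableAt (by simp))).symm

end VarX

theorem energy_smooth {g : Met E M} {Γ : P → ℝ → M} {D : Set P} (hD : IsOpen D)
    (hg : ∀ z ∈ D, IsGeodesic g (Γ z))
    (hs : ∀ z ∈ D, ∀ t, ContMDiffAt 𝓘(ℝ, P × ℝ) 𝓘(ℝ, E) ∞ (fun y : P × ℝ => Γ y.1 y.2) (z, t))
    {z : P} (hz : z ∈ D) : ContDiffAt ℝ ∞ (fun y => energy g (Γ y) 0) z := by
  have hx : Γ z 0 ∈ (κ E (Γ z 0)).source := mem_extChartAt_source _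
  generalize hy : Γ z 0 = x at hx
  have hx : VarX.fam Γ (z, 0) ∈ (κ E x).source := hy ▸ hx
  have hev := VarX.fam_ev hD hs hz hx
  have hι : ContDiffAt ℝ ∞ (fun y : P => (y, (0 : ℝ))) z := contDiffAt_id.prodMk contDiffAt_const
  have h1 := (VarX.vel_sm hD hs hz hx).comp z hι
  have h2 := hev.self_of_nhds.2.2.2.comp z hι
  have h3 := (ChartX.G_diff g x ((κ E x).map_source hx)).comp z h2
  refine ((h3.clm_apply h1).clm_apply h1).congr_of_eventuallyEq ?_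
  filter_upwards [hι.continuousAt.eventually hev] with y hy
  exact energy_eq ((isGeodesic_iff g _).1 (hg y hy.1) 0) hy.2.1

theorem vel_smooth {g : Met E M} {Γ : P → ℝ → M} {D : Set P} (hD : IsOpen D)
    (hs : ∀ z ∈ D, ∀ t, ContMDiffAt 𝓘(ℝ, P × ℝ) 𝓘(ℝ, E) ∞ (fun y : P × ℝ => Γ y.1 y.2) (z, t))
    {z : P} (hz : z ∈ D) {t : ℝ} {x : M} (hx : Γ z t ∈ (κ E x).source) :
    ContDiffAt ℝ ∞ (fun y : P × ℝ => vel E x (Γ y.1) y.2) (z, t) := by
  exact VarX.vel_sm hD hs hz hx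

theorem VarX.hasDerivAt_var {g : Met E M} {Γ : P → ℝ → M} {D : Set P} (hD : IsOpen D)
    (hg : ∀ z ∈ D, IsGeodesic g (Γ z))
    (hZ : ∀ z ∈ D, ∀ t, ContMDiffAt 𝓘(ℝ, P × ℝ) 𝓘(ℝ, E) ∞ (fam Γ) (z, t))
    {z : P} (hz : z ∈ D) (ξ : P) (t : ℝ) :
    HasDerivAt (fun s => g.inner (fam Γ (z, s))
      (mfderiv 𝓘(ℝ, P × ℝ) 𝓘(ℝ, E) (fam Γ) (z, s) ((0, 1) : P × ℝ))
      (mfderiv 𝓘(ℝ, P × ℝ) 𝓘(ℝ, E) (fam Γ) (z, s) ((ξ, 0) : P × ℝ)))
      (1 / 2 * fderiv ℝ (fun y => energy g (Γ y) 0) z ξ) t := by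
  set x := fam Γ (z, t) with hxdef
  have hx : fam Γ (z, t) ∈ (κ E x).source := mem_extChartAt_source x
  have hev := fam_ev hD hZ hz hx
  set c := κ E x ∘ fam Γ with hcdef
  have hc : ContDiffAt ℝ 2 c (z, t) := hev.self_of_nhds.2.2.2.of_le ChartX.two_le
  have ha : c (z, t) ∈ (κ E x).target := (κ E x).map_source hx
  have hB : DifferentiableAt ℝ (G g x) (c (z, t)) :=
    (ChartX.G_diff g x ha).differentiableAt (by simp)
  have hσ : HasDerivAt (fun s : ℝ => (z, s)) ((0, 1) : P × ℝ) t :=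
    (hasDerivAt_const t z).prodMk (hasDerivAt_id t)
  have hl : HasDerivAt (fun s : ℝ => z + s • ξ) ξ 0 := by
    simpa using ((hasDerivAt_id (0 : ℝ)).smul_const ξ).const_add z
  have hσ' : HasDerivAt (fun s : ℝ => (z + s • ξ, t)) ((ξ, 0) : P × ℝ) 0 :=
    hl.prodMk (hasDerivAt_const (0 : ℝ) t)
  have h0 : z + (0 : ℝ) • ξ = z := by simp
  have h0' : (z + (0 : ℝ) • ξ, t) = (z, t) := by rw [h0]
  have hev1 := hσ.continuousAt.eventually hev
  have hev2 : ∀ᶠ s in 𝓝 (0 : ℝ), z + s • ξ ∈ D ∧ fam Γ (z + s • ξ, t) ∈ (κ E x).source ∧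
      ContMDiffAt 𝓘(ℝ, P × ℝ) 𝓘(ℝ, E) ∞ (fam Γ) (z + s • ξ, t) ∧
      ContDiffAt ℝ ∞ c (z + s • ξ, t) := by
    have := hσ'.continuousAt
    rw [ContinuousAt, h0'] at this
    exact this.eventually hev
  have hacc : fderiv ℝ (fderiv ℝ c) (z, t) (0, 1) (0, 1)
      = acc g x (c (z, t), fderiv ℝ c (z, t) (0, 1)) := by
    have h1 := deriv_fderiv hc hσ rfl (0, 1)
    have h2 := ((isGeodesic_iff g _).1 (hg z hz) t).2 x hx
    rw [fam_vel (hc.differentiableAt two_ne_zero)]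
    refine h1.unique (h2.congr_of_eventuallyEq ?_)
    filter_upwards [hev1] with s hs
    exact fam_vel (hs.2.2.2.differentiableAt (by simp))
  have hunit := deriv_form hc hB hσ' h0' (0, 1) (0, 1)
  have hE : DifferentiableAt ℝ (fun y => energy g (Γ y) 0) (z + (0 : ℝ) • ξ) := by
    rw [h0]; exact (energy_smooth hD hg hZ hz).differentiableAt (by simp)
  have hone : HasDerivAt (fun r : ℝ => G g x (c (z + r • ξ, t)) (fderiv ℝ c (z + r • ξ, t) (0, 1))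
      (fderiv ℝ c (z + r • ξ, t) (0, 1))) (fderiv ℝ (fun y => energy g (Γ y) 0) z ξ) 0 := by
    have h1 := hE.hasFDerivAt.comp_hasDerivAt (0 : ℝ) hl
    rw [h0] at h1
    refine h1.congr_of_eventuallyEq ?_
    filter_upwards [hev2] with s hs
    rw [fam_vel (hs.2.2.2.differentiableAt (by simp))]
    exact ((energy_const (hg _ hs.1) 0 t).trans
      (energy_eq ((isGeodesic_iff g _).1 (hg _ hs.1) t) hs.2.1)).symm
  have hu := hunit.unique hone
  have hmain := deriv_form hc hB hσ rfl (0, 1) (ξ, 0)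
  rw [hacc, acc_spec g x ha, (hc.isSymmSndFDerivAt (by simp)).eq (0, 1) (ξ, 0)] at hmain
  rw [G_symm g x _ (fderiv ℝ (fderiv ℝ c) (z, t) (ξ, 0) (0, 1))] at hu
  refine (hmain.congr_deriv (by linarith)).congr_of_eventuallyEq ?_
  filter_upwards [hev1] with s hs
  exact inner_eq g (hs.2.2.1.mdifferentiableAt (by simp)) hs.2.1 _ _

theorem first_variation {g : Met E M} {Γ : P → ℝ → M} {D : Set P} (hD : IsOpen D)
    (hg : ∀ z ∈ D, IsGeodesic g (Γ z))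
    (hs : ∀ z ∈ D, ∀ t, ContMDiffAt 𝓘(ℝ, P × ℝ) 𝓘(ℝ, E) ∞ (fun y : P × ℝ => Γ y.1 y.2) (z, t))
    {z : P} (hz : z ∈ D) (ξ : P) {t t' : ℝ} {x x' : M} (hx : Γ z t ∈ (κ E x).source)
    (hx' : Γ z t' ∈ (κ E x').source) :
    G g x' (κ E x' (Γ z t')) (vel E x' (Γ z) t') (fderiv ℝ (fun y => κ E x' (Γ y t')) z ξ) =
      G g x (κ E x (Γ z t)) (vel E x (Γ z) t) (fderiv ℝ (fun y => κ E x (Γ y t)) z ξ)
        + (t' - t) / 2 * fderiv ℝ (fun y => energy g (Γ y) 0) z ξ := by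
  have key : ∀ (s : ℝ) (p : M), Γ z s ∈ (κ E p).source →
      g.inner (VarX.fam Γ (z, s))
        (mfderiv 𝓘(ℝ, P × ℝ) 𝓘(ℝ, E) (VarX.fam Γ) (z, s) ((0, 1) : P × ℝ))
        (mfderiv 𝓘(ℝ, P × ℝ) 𝓘(ℝ, E) (VarX.fam Γ) (z, s) ((ξ, 0) : P × ℝ)) =
      G g p (κ E p (Γ z s)) (vel E p (Γ z) s) (fderiv ℝ (fun y => κ E p (Γ y s)) z ξ) := by
    intro s p hp
    have h1 : ContMDiffAt 𝓘(ℝ, P × ℝ) 𝓘(ℝ, E) ∞ (VarX.fam Γ) (z, s) := hs z hz s
    have h2 : DifferentiableAt ℝ (κ E p ∘ VarX.fam Γ) (z, s) :=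
      (contDiffAt_chart (n := ⊤) h1 hp).differentiableAt (by simp)
    refine (inner_eq g (h1.mdifferentiableAt (by simp)) hp _ _).trans ?_
    rw [VarX.fam_vel h2, VarX.fderiv_fst h2]
    rfl
  rw [← key t x hx, ← key t' x' hx']
  have hd := fun s => (VarX.hasDerivAt_var hD hg hs hz ξ s).sub
    ((hasDerivAt_id s).mul_const (1 / 2 * fderiv ℝ (fun y => energy g (Γ y) 0) z ξ))
  have := is_const_of_deriv_eq_zero (fun s => (hd s).differentiableAt)
    (fun s => (hd s).deriv.trans (by ring)) t t'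
  simp only [Pi.sub_apply, id] at this
  linarith

/-- smoothness of an implicitly defined continuous function -/
theorem implicit_smooth [CompleteSpace P] {Φ : P × ℝ → ℝ} {T : P → ℝ} {z : P} {k : ℝ}
    (hΦ : ContDiffAt ℝ ∞ Φ (z, T z)) (hd : fderiv ℝ Φ (z, T z) (0, 1) ≠ 0)
    (hT : ContinuousAt T z) (hk : ∀ᶠ y in 𝓝 z, Φ (y, T y) = k) : ContDiffAt ℝ ∞ T z := by
  have hn : (∞ : ℕ∞ω) ≠ 0 := by simp
  have hinv : (fderiv ℝ Φ (z, T z) ∘L ContinuousLinearMap.inr ℝ P ℝ).IsInvertible := by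
    refine ⟨ContinuousLinearEquiv.unitsEquivAut ℝ (Units.mk0 _ hd), ?_⟩
    ext
    simp
  have h1 := hΦ.eventually_apply_eq_iff_implicitFunction hn hinv
  have h2 : ContinuousAt (fun y => (y, T y)) z := continuousAt_id.prodMk hT
  refine (hΦ.contDiffAt_implicitFunction hn hinv).congr_of_eventuallyEq ?_
  filter_upwards [h2.eventually h1, hk] with y hy hy'
  exact (hy.1 (hy'.trans hk.self_of_nhds.symm)).symm

end Pool.Agent.GeoN
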