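import Mathlib
import Pool.Agent.P.MP_365c00_gt.BVar
import Pool.Agent.P.MP_365c00_gt.BHDefs

/-! Definitions: short geodesics, broken geodesics, return maps. -/

set_option linter.unusedSectionVars false
set_option linter.unusedVariables false

open Set Filter Topology Metric Function
open scoped Manifold ContDiff

namespace Pool.Agent.GeoN

variable {E : Type} [NormedAddCommGroup E] [InnerProductSpace ℝ E] [FiniteDimensional ℝ E]
  {M : Type} [TopologicalSpace M] [ChartedSpace E M] [IsManifold 𝓘(ℝ, E) ∞ M]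
  [T2Space M] [CompactSpace M] [Nonempty M] [Nontrivial E]

/-- the short geodesic between two nearby points -/
structure Short (g : Met E M) where
  ε : ℝ
  ε_pos : 0 < ε
  D : Set (M × M)
  D_open : IsOpen D
  σ : M × M → ℝ → M
  geo : ∀ z ∈ D, IsGeodesic g (σ z)
  zero : ∀ z ∈ D, σ z 0 = z.1
  one : ∀ z ∈ D, σ z 1 = z.2
  lt : ∀ z ∈ D, energy g (σ z) 0 < ε
  uniq : ∀ γ, IsGeodesic g γ → energy g γ 0 < ε → (γ 0, γ 1) ∈ D ∧ σ (γ 0, γ 1) = γ
  smooth : ∀ (x y : M) (w : E × E), w.1 ∈ (κ E x).target → w.2 ∈ (κ E y).target →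
    ((κ E x).symm w.1, (κ E y).symm w.2) ∈ D → ∀ t : ℝ,
    ContMDiffAt 𝓘(ℝ, (E × E) × ℝ) 𝓘(ℝ, E) ∞
      (fun v : (E × E) × ℝ => σ ((κ E x).symm v.1.1, (κ E y).symm v.1.2) v.2) (w, t)

variable {g : Met E M}

/-- the energy of the short geodesic -/
noncomputable def Short.S (sh : Short g) (z : M × M) : ℝ := energy g (sh.σ z) 0

/-- the corners `p, y 0, ..., y (k-1), q, q, ...` -/
def pt (p q : M) {k : ℕ} (y : Fin k → M) (i : ℕ) : M :=
  if i = 0 then p else if h : i - 1 < k then y ⟨i - 1, h⟩ else q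

/-- admissible corner points -/
def Short.W (sh : Short g) (p q : M) (k : ℕ) : Set (Fin k → M) :=
  {y | ∀ i ≤ k, (pt p q y i, pt p q y (i + 1)) ∈ sh.D}

/-- the discrete energy -/
noncomputable def Short.En (sh : Short g) (p q : M) {k : ℕ} (y : Fin k → M) : ℝ :=
  ∑ i ∈ Finset.range (k + 1), sh.S (pt p q y i, pt p q y (i + 1))

/-- the broken geodesic with the given corners, on `[0,1]` -/
noncomputable def Short.bk (sh : Short g) (p q : M) {k : ℕ} (y : Fin k → M) (t : ℝ) : M :=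
  sh.σ (pt p q y (min k ⌊((k : ℝ) + 1) * t⌋₊), pt p q y (min k ⌊((k : ℝ) + 1) * t⌋₊ + 1))
    (((k : ℝ) + 1) * t - (min k ⌊((k : ℝ) + 1) * t⌋₊ : ℕ))

/-- sampling a path at the times `(i+1)/(k+1)` -/
noncomputable def smp {p q : M} (k : ℕ) (γ : Ser.Om p q) : Fin k → M :=
  fun i => γ.1 (projIcc 0 1 zero_le_one ((((i : ℕ) : ℝ) + 1) / ((k : ℝ) + 1)))

/-- `ι` is an embedding which is `C`-Lipschitz along geodesics -/
def LipEmb (g : Met E M) {N : ℕ} (ι : M → EuclideanSpace ℝ (Fin N)) (C : ℝ) : Prop :=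
  IsClosedEmbedding ι ∧ 0 < C ∧ ∀ γ, IsGeodesic g γ → ∀ s t : ℝ,
    dist (ι (γ s)) (ι (γ t)) ≤ C * √(energy g γ 0) * |s - t|

/-- the short geodesic between two points of the chart at `x` -/
noncomputable def Short.Γ (sh : Short g) (x : M) (w : E × E) : ℝ → M :=
  sh.σ ((κ E x).symm w.1, (κ E x).symm w.2)

/-- admissible pairs of distinct points of the chart at `x` -/
def Short.V (sh : Short g) (x : M) : Set (E × E) :=
  {w | w.1 ∈ (κ E x).target ∧ w.2 ∈ (κ E x).target ∧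
    ((κ E x).symm w.1, (κ E x).symm w.2) ∈ sh.D ∧ w.1 ≠ w.2}

/-- a return map near the geodesic `sh.Γ x w0` of period `τ` -/
structure Box (sh : Short g) (x : M) (w0 : E × E) (τ : ℝ) where
  r : ℝ
  r_pos : 0 < r
  sub : ball w0 r ⊆ sh.V x
  T : E × E → ℝ
  f : E × E → E × E
  T_smooth : ContDiffOn ℝ ∞ T (ball w0 r)
  f_smooth : ContDiffOn ℝ ∞ f (ball w0 r)
  T_zero : T w0 = τ
  src0 : ∀ w ∈ ball w0 r, sh.Γ x w (T w) ∈ (κ E x).source
  src1 : ∀ w ∈ ball w0 r, sh.Γ x w (T w + 1) ∈ (κ E x).source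
  f_eq : ∀ w ∈ ball w0 r, f w = (κ E x (sh.Γ x w (T w)), κ E x (sh.Γ x w (T w + 1)))
  l : E →L[ℝ] ℝ
  lev : ∀ w ∈ ball w0 r, l (f w).1 = l w.1
  c : ℝ
  gap : ∀ w ∈ ball w0 r, ∀ s : ℝ, |s| < c → l (κ E x (sh.Γ x w s)) = l w.1 → s = 0
  θ : ℝ
  θ_pos : 0 < θ
  θ_le : θ ≤ 1 / 10
  θ_τ : 4 * θ < τ
  θ_c : θ * (τ + 4) < c
  T_near : ∀ w ∈ ball w0 r, |T w - τ| < θ
  speed : ∀ w ∈ ball w0 r, ∀ w' ∈ ball w0 r,
    |√(energy g (sh.Γ x w') 0) - √(energy g (sh.Γ x w) 0)| ≤ θ * √(energy g (sh.Γ x w) 0)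

/-- the number of geometrically distinct geodesics, read in the charts at `x` and `y` -/
noncomputable def num (g : Met E M) (x y : M) (w : E × E) : ENNReal :=
  ((images g ((κ E x).symm w.1, (κ E y).symm w.2)).encard : ENNReal)

/-- unit speed geodesics with period `τ` -/
def Per (g : Met E M) (τ : ℝ) : Set (UG g) := {u | Periodic u.1 τ}

/-- the moment condition near the diagonal -/
def Mom (g : Met E M) [MeasurableSpace (E × E)] (μ : MeasureTheory.Measure (E × E)) : Prop :=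
  ∀ x : M, ∃ s : ℝ, 0 < s ∧ ∃ U ∈ 𝓝 (κ E x x), ∫⁻ w in U ×ˢ U, num g x x w ^ s ∂μ < ⊤

end Pool.Agent.GeoN
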