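import Mathlib
import Pool.Agent.P.MP_365c00_gt.BSDefs

/-! TASK BLip: basic properties of short geodesics, a Lipschitz embedding. -/

set_option linter.unusedSectionVars false
set_option linter.unusedVariables false

open Set Filter Topology Metric Function
open scoped Manifold ContDiff

namespace Pool.Agent.GeoN

variable {E : Type} [NormedAddCommGroup E] [InnerProductSpace ℝ E] [FiniteDimensional ℝ E]
  {M : Type} [TopologicalSpace M] [ChartedSpace E M] [IsManifold 𝓘(ℝ, E) ∞ M]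
  [T2Space M] [CompactSpace M] [Nonempty M] [Nontrivial E]

variable {g : Met E M}

theorem Short.diag (sh : Short g) (x : M) : (x, x) ∈ sh.D :=
  (sh.uniq _ (isGeodesic_const g x) (by rw [energy_of_const]; exact sh.ε_pos)).1

theorem Short.const (sh : Short g) (x : M) (t : ℝ) : sh.σ (x, x) t = x :=
  congrFun (sh.uniq _ (isGeodesic_const g x) (by rw [energy_of_const]; exact sh.ε_pos)).2 t

theorem Short.S_nonneg (sh : Short g) (z : M × M) : 0 ≤ sh.S z :=
  energy_nonneg g _ _

theorem Short.S_diag (sh : Short g) (x : M) : sh.S (x, x) = 0 := by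
  have h : sh.σ (x, x) = fun _ => x := funext (sh.const x)
  unfold Short.S
  rw [h, energy_of_const]

theorem LipX.chart_cont (z : M × M) :
    ContinuousAt (fun y : M × M => (κ E z.1 y.1, κ E z.2 y.2)) z :=
  ((continuousAt_extChartAt z.1).comp continuousAt_fst).prodMk
    ((continuousAt_extChartAt z.2).comp continuousAt_snd)

theorem LipX.chart_inv (z : M × M) :
    ∀ᶠ y in 𝓝 z, ((κ E z.1).symm (κ E z.1 y.1), (κ E z.2).symm (κ E z.2 y.2)) = y := by
  filter_upwards [continuousAt_fst.preimage_mem_nhds (extChartAt_source_mem_nhds (I := 𝓘(ℝ, E)) z.1),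
    continuousAt_snd.preimage_mem_nhds (extChartAt_source_mem_nhds (I := 𝓘(ℝ, E)) z.2)] with y h1 h2
  rw [(κ E z.1).left_inv h1, (κ E z.2).left_inv h2]

theorem Short.cont (sh : Short g) :
    ContinuousOn (fun y : (M × M) × ℝ => sh.σ y.1 y.2) (sh.D ×ˢ univ) := by
  rintro ⟨z, t⟩ ⟨hz, -⟩
  refine ContinuousAt.continuousWithinAt ?_
  have h0 := (LipX.chart_inv (E := E) z).self_of_nhds
  have h1 := (sh.smooth z.1 z.2 (κ E z.1 z.1, κ E z.2 z.2) (mem_extChartAt_target z.1)
    (mem_extChartAt_target z.2) (by rw [h0]; exact hz) t).continuousAt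
  have h2 : ContinuousAt (fun y : (M × M) × ℝ => ((κ E z.1 y.1.1, κ E z.2 y.1.2), y.2)) (z, t) :=
    (ContinuousAt.comp (f := fun y : (M × M) × ℝ => y.1) (x := (z, t))
      (g := fun y : M × M => (κ E z.1 y.1, κ E z.2 y.2))
      (LipX.chart_cont (E := E) z) continuousAt_fst).prodMk continuousAt_snd
  refine (ContinuousAt.comp
    (f := fun y : (M × M) × ℝ => ((κ E z.1 y.1.1, κ E z.2 y.1.2), y.2)) h1 h2).congr ?_
  filter_upwards [(continuousAt_fst (p := (z, t))).tendsto.eventually (LipX.chart_inv (E := E) z)]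
    with y hy
  simp only [Function.comp_apply]
  rw [hy]

theorem Short.S_cont (sh : Short g) : ContinuousOn sh.S sh.D := by
  intro z hz
  refine ContinuousAt.continuousWithinAt ?_
  have h0 := (LipX.chart_inv (E := E) z).self_of_nhds
  have hc : ContinuousOn (fun w : E × E => ((κ E z.1).symm w.1, (κ E z.2).symm w.2))
      ((κ E z.1).target ×ˢ (κ E z.2).target) :=
    ((continuousOn_extChartAt_symm z.1).comp continuousOn_fst fun w hw => hw.1).prodMk
      ((continuousOn_extChartAt_symm z.2).comp continuousOn_snd fun w hw => hw.2)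
  have hO := hc.isOpen_inter_preimage ((target_open z.1).prod (target_open z.2)) sh.D_open
  have h1 := (energy_smooth (g := g)
    (Γ := fun w : E × E => sh.σ ((κ E z.1).symm w.1, (κ E z.2).symm w.2)) hO
    (fun w hw => sh.geo _ hw.2) (fun w hw t => sh.smooth z.1 z.2 w hw.1.1 hw.1.2 hw.2 t)
    (z := (κ E z.1 z.1, κ E z.2 z.2))
    ⟨⟨mem_extChartAt_target z.1, mem_extChartAt_target z.2⟩,
      by rw [mem_preimage, h0]; exact hz⟩).continuousAt
  refine (ContinuousAt.comp (f := fun y : M × M => (κ E z.1 y.1, κ E z.2 y.2)) h1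
    (LipX.chart_cont (E := E) z)).congr ?_
  filter_upwards [LipX.chart_inv (E := E) z] with y hy
  simp only [Function.comp_apply]
  rw [hy]
  rfl

theorem Short.compact_le (sh : Short g) {c : ℝ} (hc : c < sh.ε) :
    IsCompact {z | z ∈ sh.D ∧ sh.S z ≤ c} := by
  rcases lt_or_ge c 0 with h0 | h0
  · have e : {z | z ∈ sh.D ∧ sh.S z ≤ c} = ∅ :=
      eq_empty_of_forall_notMem fun z hz => by linarith [hz.2, sh.S_nonneg z]
    rw [e]
    exact isCompact_empty
  have e : {z | z ∈ sh.D ∧ sh.S z ≤ c} =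
      (fun y : UG g × ℝ => (y.1.1 0, y.1.1 y.2)) '' (univ ×ˢ Icc 0 √c) := by
    ext z
    constructor
    · rintro ⟨hz, h1⟩
      by_cases he : 0 < energy g (sh.σ z) 0
      · obtain ⟨u, hu⟩ := exists_unit_sqrt (sh.geo z hz) he
        refine ⟨(u, √(energy g (sh.σ z) 0)),
          ⟨mem_univ _, Real.sqrt_nonneg _, Real.sqrt_le_sqrt h1⟩, Prod.ext ?_ ?_⟩
        · rw [← sh.zero z hz, hu, mul_zero]
        · rw [← sh.one z hz, hu, mul_one]
      · obtain ⟨u, hu⟩ := fib_ne g z.1
        have h2 : sh.σ z 1 = sh.σ z 0 := by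
          by_contra h2
          exact he (energy_pos (sh.geo z hz) h2)
        rw [sh.zero z hz, sh.one z hz] at h2
        exact ⟨(u, 0), ⟨mem_univ _, le_rfl, Real.sqrt_nonneg _⟩, Prod.ext hu (hu.trans h2.symm)⟩
    · rintro ⟨⟨u, l⟩, ⟨-, h1, h2⟩, rfl⟩
      obtain ⟨h3, h4⟩ := u.energy_scale l 0
      have h5 : l ^ 2 ≤ c := (Real.le_sqrt h1 h0).1 h2
      obtain ⟨h6, h7⟩ := sh.uniq _ h3 (by rw [h4]; linarith)
      simp only [mul_zero, mul_one, add_zero] at h4 h6 h7
      refine ⟨h6, ?_⟩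
      unfold Short.S
      rw [h7, h4]
      exact h5
  rw [e]
  exact (isCompact_univ.prod isCompact_Icc).image
    (((ev_cont g).comp (continuous_fst.prodMk continuous_const)).prodMk (ev_cont g))

theorem LipX.smooth {N : ℕ} {ι : M → EuclideanSpace ℝ (Fin N)}
    (hι : ContMDiff 𝓘(ℝ, E) 𝓘(ℝ, EuclideanSpace ℝ (Fin N)) ∞ ι) {x : M} {a : E}
    (ha : a ∈ (κ E x).target) : ContDiffAt ℝ ∞ (ι ∘ (κ E x).symm) a :=
  (hι.contMDiffAt.comp a (ChartX.symm_smooth ha)).contDiffAt

theorem LipX.hasDerivAt {N : ℕ} {ι : M → EuclideanSpace ℝ (Fin N)}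
    (hι : ContMDiff 𝓘(ℝ, E) 𝓘(ℝ, EuclideanSpace ℝ (Fin N)) ∞ ι) (u : UG g) (t : ℝ) {x : M}
    (hx : u.1 t ∈ (κ E x).source) : HasDerivAt (fun s => ι (u.1 s))
      (fderiv ℝ (ι ∘ (κ E x).symm) (κ E x (u.1 t)) (vel E x u.1 t)) t := by
  have h1 := ((LipX.smooth hι ((κ E x).map_source hx)).differentiableAt
    (by simp)).hasFDerivAt.comp_hasDerivAt t ((u.geoAt t).hasDerivAt hx)
  refine h1.congr_of_eventuallyEq ?_
  filter_upwards [u.1.continuous.continuousAt.preimage_mem_nhds ((source_open x).mem_nhds hx)]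
    with s hs
  simp only [Function.comp_apply, (κ E x).left_inv hs]

theorem LipX.deriv_cont {N : ℕ} {ι : M → EuclideanSpace ℝ (Fin N)}
    (hι : ContMDiff 𝓘(ℝ, E) 𝓘(ℝ, EuclideanSpace ℝ (Fin N)) ∞ ι) :
    Continuous fun u : UG g => deriv (fun s => ι (u.1 s)) 0 := by
  refine continuous_iff_continuousAt.2 fun u => ?_
  obtain ⟨x, hx⟩ : ∃ x : M, u.1 0 ∈ (κ E x).source := ⟨_, mem_extChartAt_source _⟩
  have hev : Continuous fun v : UG g => v.1 0 :=
    (ev_cont g).comp (continuous_id.prodMk continuous_const)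
  have h1 : ContinuousAt (fun v : UG g => κ E x (v.1 0)) u :=
    ContinuousAt.comp (f := fun v : UG g => v.1 0) (continuousAt_extChartAt' hx) hev.continuousAt
  have h2 : ContinuousAt (fderiv ℝ (ι ∘ (κ E x).symm)) (κ E x (u.1 0)) :=
    ((LipX.smooth hι ((κ E x).map_source hx)).fderiv_right (m := 0) (by simp)).continuousAt
  have h3 := (ContinuousAt.comp (f := fun v : UG g => κ E x (v.1 0)) h2 h1).clm_apply
    (SpaceX.vel_cont_zero g x hx)
  refine h3.congr ?_
  filter_upwards [hev.continuousAt.preimage_mem_nhds ((source_open x).mem_nhds hx)] with v hv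
  exact (LipX.hasDerivAt hι v 0 hv).deriv.symm

theorem exists_lipEmb (g : Met E M) :
    ∃ (N : ℕ) (ι : M → EuclideanSpace ℝ (Fin N)) (C : ℝ), LipEmb g ι C := by
  obtain ⟨N, ι, h1, h2, -⟩ := exists_embedding_euclidean_of_compact (I := 𝓘(ℝ, E)) (M := M)
  obtain ⟨C, hC⟩ := isCompact_univ.exists_bound_of_continuousOn
    (LipX.deriv_cont (g := g) h1).continuousOn
  have h3 : ∀ (u : UG g) (s t : ℝ), dist (ι (u.1 s)) (ι (u.1 t)) ≤ (|C| + 1) * |s - t| := by
    intro u s t
    rw [dist_eq_norm, ← Real.norm_eq_abs (s - t)]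
    refine Convex.norm_image_sub_le_of_norm_deriv_le (f := fun s => ι (u.1 s)) (s := univ)
      (fun r _ => (LipX.hasDerivAt h1 u r (mem_extChartAt_source _)).differentiableAt)
      (fun r _ => ?_) convex_univ (mem_univ t) (mem_univ s)
    have h4 := hC (shift r u) (mem_univ _)
    simp only [shift_apply] at h4
    rw [deriv_comp_add_const (fun s => ι (u.1 s)), zero_add] at h4
    linarith [le_abs_self C]
  refine ⟨N, ι, |C| + 1, h2, by positivity, fun γ hγ s t => ?_⟩
  by_cases he : 0 < energy g γ 0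
  · obtain ⟨u, hu⟩ := exists_unit_sqrt hγ he
    rw [hu s, hu t]
    refine (h3 u _ _).trans (le_of_eq ?_)
    rw [← mul_sub, abs_mul, abs_of_nonneg (Real.sqrt_nonneg _), mul_assoc]
  · have h4 : ∀ r, γ r = γ 0 := fun r => by
      by_contra h4
      exact he (energy_pos hγ h4)
    rw [h4 s, h4 t, dist_self]
    positivity

theorem Short.near (sh : Short g) {N : ℕ} {ι : M → EuclideanSpace ℝ (Fin N)}
    (hι : IsClosedEmbedding ι) {δ : ℝ} (hδ : 0 < δ) :
    ∃ ρ > 0, ∀ x y : M, dist (ι x) (ι y) < ρ → (x, y) ∈ sh.D ∧ sh.S (x, y) < δ := by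
  have hO : IsOpen (sh.D ∩ sh.S ⁻¹' Iio δ) := sh.S_cont.isOpen_inter_preimage sh.D_open isOpen_Iio
  have hc : Continuous fun z : M × M => dist (ι z.1) (ι z.2) :=
    (hι.continuous.comp continuous_fst).dist (hι.continuous.comp continuous_snd)
  obtain ⟨ρ, h1, h2⟩ := hO.isClosed_compl.isCompact.exists_forall_le' hc.continuousOn (a := 0)
    fun z hz => dist_pos.2 fun h => hz (by
      obtain ⟨x, y⟩ := z
      obtain rfl : x = y := hι.injective h
      exact ⟨sh.diag x, by rw [mem_preimage, sh.S_diag]; exact hδ⟩)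
  refine ⟨ρ, h1, fun x y h => ?_⟩
  by_contra h3
  exact absurd (h2 (x, y) h3) (not_le.2 h)

theorem Short.homotopic (sh : Short g) {p q : M} {Z : Type} [TopologicalSpace Z]
    (f f' : C(Z, Ser.Om p q)) (h : ∀ z t, ((f z).1 t, (f' z).1 t) ∈ sh.D) : f.Homotopic f' := by
  have ev : ∀ φ : C(Z, Ser.Om p q),
      Continuous fun y : (unitInterval × Z) × unitInterval => (φ y.1.2).1 y.2 := fun φ =>
    (continuous_subtype_val.comp (φ.continuous.comp continuous_fst.snd)).eval continuous_snd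
  let Φ : C((unitInterval × Z) × unitInterval, M) :=
    ⟨fun y => sh.σ ((f y.1.2).1 y.2, (f' y.1.2).1 y.2) y.1.1,
      sh.cont.comp_continuous (f := fun y : (unitInterval × Z) × unitInterval =>
        (((f y.1.2).1 y.2, (f' y.1.2).1 y.2), (y.1.1 : ℝ)))
        (((ev f).prodMk (ev f')).prodMk (continuous_subtype_val.comp continuous_fst.fst))
        fun y => ⟨h _ _, mem_univ _⟩⟩
  have e0 : ∀ y, Φ.curry y 0 = p ∧ Φ.curry y 1 = q := fun y => by
    constructor
    · show sh.σ ((f y.2).1 0, (f' y.2).1 0) y.1 = p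
      rw [(f y.2).2.1, (f' y.2).2.1, sh.const]
    · show sh.σ ((f y.2).1 1, (f' y.2).1 1) y.1 = q
      rw [(f y.2).2.2, (f' y.2).2.2, sh.const]
  refine ⟨⟨⟨fun y => ⟨Φ.curry y, e0 y⟩, Φ.curry.continuous.subtype_mk _⟩, fun z => ?_, fun z => ?_⟩⟩
  · exact Subtype.ext (ContinuousMap.ext fun t => sh.zero _ (h z t))
  · exact Subtype.ext (ContinuousMap.ext fun t => sh.one _ (h z t))

end Pool.Agent.GeoN
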