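import Mathlib
import Pool.Agent.P.MP_365c00_gt.BLip

/-! TASK BGam: geodesics parametrised by pairs of chart points; properties of boxes. -/

set_option linter.unusedSectionVars false
set_option linter.unusedVariables false

open Set Filter Topology Metric Function
open scoped Manifold ContDiff

namespace Pool.Agent.GeoN

variable {E : Type} [NormedAddCommGroup E] [InnerProductSpace ℝ E] [FiniteDimensional ℝ E]
  {M : Type} [TopologicalSpace M] [ChartedSpace E M] [IsManifold 𝓘(ℝ, E) ∞ M]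
  [T2Space M] [CompactSpace M] [Nonempty M] [Nontrivial E]

variable {g : Met E M} {sh : Short g} {x : M} {w0 : E × E} {τ : ℝ}

theorem Short.V_open (sh : Short g) (x : M) : IsOpen (sh.V x) := by
  refine isOpen_iff_mem_nhds.2 fun w hw => ?_
  obtain ⟨h1, h2, h3, h4⟩ := hw
  have c1 : ContinuousAt (fun v : E × E => (κ E x).symm v.1) w :=
    ContinuousAt.comp (f := fun v : E × E => v.1) (ChartX.symm_smooth h1).continuousAt
      continuous_fst.continuousAt
  have c2 : ContinuousAt (fun v : E × E => (κ E x).symm v.2) w :=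
    ContinuousAt.comp (f := fun v : E × E => v.2) (ChartX.symm_smooth h2).continuousAt
      continuous_snd.continuousAt
  have e1 : ∀ᶠ v : E × E in 𝓝 w, v.1 ∈ (κ E x).target :=
    continuous_fst.continuousAt.eventually_mem ((target_open x).mem_nhds h1)
  have e2 : ∀ᶠ v : E × E in 𝓝 w, v.2 ∈ (κ E x).target :=
    continuous_snd.continuousAt.eventually_mem ((target_open x).mem_nhds h2)
  have e3 : ∀ᶠ v : E × E in 𝓝 w, ((κ E x).symm v.1, (κ E x).symm v.2) ∈ sh.D :=
    (c1.prodMk c2).eventually_mem (sh.D_open.mem_nhds h3)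
  have e4 : ∀ᶠ v : E × E in 𝓝 w, v.1 ≠ v.2 :=
    (isOpen_ne_fun continuous_fst continuous_snd).mem_nhds h4
  filter_upwards [e1, e2, e3, e4] with v a1 a2 a3 a4 using ⟨a1, a2, a3, a4⟩

theorem Short.Γ_geo {w : E × E} (hw : w ∈ sh.V x) : IsGeodesic g (sh.Γ x w) := by
  exact sh.geo _ hw.2.2.1

theorem Short.Γ_zero {w : E × E} (hw : w ∈ sh.V x) : sh.Γ x w 0 = (κ E x).symm w.1 := by
  exact sh.zero _ hw.2.2.1

theorem Short.Γ_one {w : E × E} (hw : w ∈ sh.V x) : sh.Γ x w 1 = (κ E x).symm w.2 := by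
  exact sh.one _ hw.2.2.1

theorem Short.Γ_pos {w : E × E} (hw : w ∈ sh.V x) : 0 < energy g (sh.Γ x w) 0 := by
  refine energy_pos (Short.Γ_geo hw) (s := 1) ?_
  rw [Short.Γ_zero hw, Short.Γ_one hw]
  intro h
  apply hw.2.2.2
  have h1 := congrArg (κ E x) h
  rw [(κ E x).right_inv hw.1, (κ E x).right_inv hw.2.1] at h1
  exact h1.symm

theorem Short.Γ_inj {w w' : E × E} (hw : w ∈ sh.V x) (hw' : w' ∈ sh.V x)
    (h : sh.Γ x w = sh.Γ x w') : w = w' := by
  have h0 := congrArg (κ E x) (congrFun h 0)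
  have h1 := congrArg (κ E x) (congrFun h 1)
  rw [Short.Γ_zero hw, Short.Γ_zero hw', (κ E x).right_inv hw.1, (κ E x).right_inv hw'.1] at h0
  rw [Short.Γ_one hw, Short.Γ_one hw', (κ E x).right_inv hw.2.1, (κ E x).right_inv hw'.2.1] at h1
  exact Prod.ext h0 h1

theorem Short.Γ_smooth {w : E × E} (hw : w ∈ sh.V x) (t : ℝ) :
    ContMDiffAt 𝓘(ℝ, (E × E) × ℝ) 𝓘(ℝ, E) ∞ (fun v : (E × E) × ℝ => sh.Γ x v.1 v.2) (w, t) := by
  exact sh.smooth x x w hw.1 hw.2.1 hw.2.2.1 t

theorem Short.Γ_of_geo {γ : ℝ → M} (h : IsGeodesic g γ) (he : energy g γ 0 < sh.ε)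
    (h0 : γ 0 ∈ (κ E x).source) (h1 : γ 1 ∈ (κ E x).source) (hne : γ 1 ≠ γ 0) :
    (κ E x (γ 0), κ E x (γ 1)) ∈ sh.V x ∧ sh.Γ x (κ E x (γ 0), κ E x (γ 1)) = γ := by
  obtain ⟨a1, a2⟩ := sh.uniq γ h he
  have e0 := (κ E x).left_inv h0
  have e1 := (κ E x).left_inv h1
  refine ⟨⟨(κ E x).map_source h0, (κ E x).map_source h1, ?_, fun hh => hne ?_⟩, ?_⟩
  · simpa only [e0, e1] using a1
  · have h2 : κ E x (γ 0) = κ E x (γ 1) := hh
    rw [← e0, ← e1, h2]
  · unfold Short.Γ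
    simpa only [e0, e1] using a2

/-- the unit speed version depends continuously on the pair -/
theorem Short.exists_un (sh : Short g) (x : M) : ∃ un : E × E → UG g, ContinuousOn un (sh.V x) ∧
    ∀ w ∈ sh.V x, ∀ t, sh.Γ x w t = (un w).1 (√(energy g (sh.Γ x w) 0) * t) := by
  have hx : ∀ w ∈ sh.V x, sh.Γ x w 0 ∈ (κ E x).source := fun w hw => by
    rw [Short.Γ_zero hw]; exact (κ E x).map_target hw.1
  have hk : ∀ w ∈ sh.V x, κ E x (sh.Γ x w 0) = w.1 := fun w hw => by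
    rw [Short.Γ_zero hw]; exact (κ E x).right_inv hw.1
  have hj : ∀ w ∈ sh.V x, GeoN.geo g x (w.1, vel E x (sh.Γ x w) 0) = sh.Γ x w := fun w hw => by
    have := geo_jet (Short.Γ_geo hw) (hx w hw)
    rwa [hk w hw] at this
  have he : ∀ w ∈ sh.V x, energy g (sh.Γ x w) 0 =
      G g x w.1 (vel E x (sh.Γ x w) 0) (vel E x (sh.Γ x w) 0) := fun w hw => by
    have := energy_geo g x (y := (w.1, vel E x (sh.Γ x w) 0)) hw.1
    rwa [hj w hw] at this
  have hV : ∀ w ∈ sh.V x, vel E x (sh.Γ x w) 0 ≠ 0 := fun w hw h0 => by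
    have := Short.Γ_pos hw
    rw [he w hw, h0] at this
    simp at this
  refine ⟨fun w => GeoN.mk g x (w.1, vel E x (sh.Γ x w) 0), ?_, fun w hw t => ?_⟩
  · refine (mk_cont g x).comp (f := fun w : E × E => (w.1, vel E x (sh.Γ x w) 0))
      (continuousOn_fst.prodMk fun w hw => ?_) fun w hw => ⟨hw.1, hV w hw⟩
    have h1 := vel_smooth (g := g) (Γ := sh.Γ x) (sh.V_open x) (fun z hz t => Short.Γ_smooth hz t) hw
      (hx w hw)
    exact (ContinuousAt.comp (f := fun w : E × E => (w, (0 : ℝ))) h1.continuousAt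
      (by fun_prop)).continuousWithinAt
  · have hp := Real.sqrt_pos.2 (Short.Γ_pos hw)
    rw [mk_eq g x (y := (w.1, vel E x (sh.Γ x w) 0)) hw.1 (hV w hw)]
    dsimp only
    rw [geo_smul g x hw.1, hj w hw, ← he w hw, ← mul_assoc, inv_mul_cancel₀ hp.ne', one_mul]

theorem Box.c_pos (b : Box sh x w0 τ) : 0 < b.c := by
  have h1 := b.θ_pos
  have h2 := b.θ_τ
  have h3 := b.θ_c
  have : 0 < b.θ * (τ + 4) := mul_pos h1 (by linarith)
  linarith

theorem Box.Γ_f (b : Box sh x w0 τ) {w : E × E} (hw : w ∈ ball w0 b.r) (t : ℝ) :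
    sh.Γ x (b.f w) t = sh.Γ x w (t + b.T w) := by
  have hV := b.sub hw
  have hg := Short.Γ_geo hV
  have h1 := hg.affine 1 (b.T w)
  have h2 : energy g (fun s => sh.Γ x w (1 * s + b.T w)) 0 < sh.ε := by
    rw [energy_affine hg, one_pow, one_mul (energy _ _ _), energy_const hg _ 0]
    exact sh.lt _ hV.2.2.1
  have h3 := congrFun (sh.uniq _ h1 h2).2 t
  simp only [mul_zero, zero_add, one_mul] at h3
  rw [← h3, b.f_eq w hw]
  unfold Short.Γ
  have e0 := (κ E x).left_inv (b.src0 w hw)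
  have e1 := (κ E x).left_inv (b.src1 w hw)
  unfold Short.Γ at e0 e1
  simp only [e0, e1, add_comm (1 : ℝ) (b.T w)]

theorem Box.fix (b : Box sh x w0 τ) {w : E × E} (hw : w ∈ ball w0 b.r) {t : ℝ}
    (ht : |t - τ| < b.θ) (hp : Periodic (sh.Γ x w) t) : b.f w = w := by
  have hV := b.sub hw
  have h1 := b.θ_pos
  have h2 := b.θ_τ
  have h3 := b.θ_c
  have h4 := b.T_near w hw
  have h5 : |b.T w - t| < b.c := by
    have a1 := abs_lt.1 h4
    have a2 := abs_lt.1 ht
    have a3 : b.θ * 4 ≤ b.θ * (τ + 4) := mul_le_mul_of_nonneg_left (by linarith) h1.le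
    rw [abs_lt]
    constructor <;> linarith
  have h6 := b.lev w hw
  rw [b.f_eq w hw] at h6
  have h7 : b.T w - t = 0 := b.gap w hw _ h5 (by rw [hp.sub_eq]; exact h6)
  have h8 : b.T w = t := by linarith
  have h9 := hp 0
  rw [zero_add] at h9
  rw [b.f_eq w hw, h8, add_comm t 1, hp 1, h9, Short.Γ_zero hV, Short.Γ_one hV,
    (κ E x).right_inv hV.1, (κ E x).right_inv hV.2.1]

theorem Box.const (b : Box sh x w0 τ) (h : ∀ w ∈ ball w0 b.r, b.f w = w) {w : E × E}
    (hw : w ∈ ball w0 b.r) : Periodic (sh.Γ x w) (b.T w) ∧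
      √(energy g (sh.Γ x w) 0) * b.T w = √(energy g (sh.Γ x w0) 0) * τ := by
  have hper : ∀ z ∈ ball w0 b.r, Periodic (sh.Γ x z) (b.T z) := fun z hz t => by
    rw [← b.Γ_f hz t, h z hz]
  refine ⟨hper w hw, ?_⟩
  have hT : ∀ z ∈ ball w0 b.r, 0 < b.T z := fun z hz => by
    have a1 := abs_lt.1 (b.T_near z hz)
    have := b.θ_pos
    have := b.θ_τ
    linarith
  have hk : ∀ z ∈ ball w0 b.r, κ E x (sh.Γ x z 0) = z.1 := fun z hz => by
    rw [Short.Γ_zero (b.sub hz)]; exact (κ E x).right_inv (b.sub hz).1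
  have hkT : ∀ z ∈ ball w0 b.r, κ E x (sh.Γ x z (b.T z)) = z.1 := fun z hz => by
    have := hper z hz 0
    rw [zero_add] at this
    rw [this, hk z hz]
  have hd : ∀ z ∈ ball w0 b.r,
      HasFDerivAt (fun y => energy g (sh.Γ x y) 0 * (b.T y * b.T y)) (0 : (E × E) →L[ℝ] ℝ) z := by
    intro z hz
    have hV := b.sub hz
    have hn : ball w0 b.r ∈ 𝓝 z := isOpen_ball.mem_nhds hz
    have hx0 : sh.Γ x z 0 ∈ (κ E x).source := by
      rw [Short.Γ_zero hV]; exact (κ E x).map_target hV.1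
    have hgeo := (isGeodesic_iff g _).1 (Short.Γ_geo hV)
    have dT : HasFDerivAt b.T (fderiv ℝ b.T z) z :=
      ((b.T_smooth.contDiffAt hn).differentiableAt (by simp)).hasFDerivAt
    have de : HasFDerivAt (fun y => energy g (sh.Γ x y) 0)
        (fderiv ℝ (fun y => energy g (sh.Γ x y) 0) z) z :=
      ((energy_smooth (Γ := sh.Γ x) (sh.V_open x) (fun z hz => Short.Γ_geo hz)
        (fun z hz t => Short.Γ_smooth hz t) hV).differentiableAt (by simp)).hasFDerivAt
    have hΦ0 := ((contDiffAt_chart (n := ⊤) (Short.Γ_smooth hV (b.T z))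
      (b.src0 z hz)).differentiableAt (by simp)).hasFDerivAt
    obtain ⟨L, hΦ⟩ : ∃ L : (E × E) × ℝ →L[ℝ] E,
        HasFDerivAt (fun v : (E × E) × ℝ => κ E x (sh.Γ x v.1 v.2)) L (z, b.T z) := ⟨_, hΦ0⟩
    have d1 : HasFDerivAt (fun y : E × E => κ E x (sh.Γ x y (b.T y)))
        (L.comp ((ContinuousLinearMap.id ℝ (E × E)).prod (fderiv ℝ b.T z))) z :=
      HasFDerivAt.comp (f := fun y : E × E => (y, b.T y)) z hΦ ((hasFDerivAt_id z).prodMk dT)
    have d1' : HasFDerivAt (fun y : E × E => κ E x (sh.Γ x y (b.T y)))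
        (ContinuousLinearMap.fst ℝ E E) z :=
      hasFDerivAt_fst.congr_of_eventuallyEq (mem_of_superset hn fun y hy => hkT y hy)
    have d2 : HasFDerivAt (fun y : E × E => κ E x (sh.Γ x y (b.T z)))
        (L.comp ((ContinuousLinearMap.id ℝ (E × E)).prod 0)) z :=
      HasFDerivAt.comp (f := fun y : E × E => (y, b.T z)) z hΦ
        ((hasFDerivAt_id z).prodMk (hasFDerivAt_const _ _))
    have d3 : HasDerivAt (fun s : ℝ => κ E x (sh.Γ x z s)) (L (0, 1)) (b.T z) :=
      HasFDerivAt.comp_hasDerivAt (f := fun s : ℝ => (z, s)) (b.T z) hΦ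
        ((hasDerivAt_const _ _).prodMk (hasDerivAt_id _))
    have d4 : HasFDerivAt (fun y : E × E => κ E x (sh.Γ x y 0))
        (ContinuousLinearMap.fst ℝ E E) z :=
      hasFDerivAt_fst.congr_of_eventuallyEq (mem_of_superset hn fun y hy => hk y hy)
    have v1 : vel E x (sh.Γ x z) (b.T z) = L (0, 1) := d3.deriv
    have v2 : vel E x (sh.Γ x z) (b.T z) = vel E x (sh.Γ x z) 0 := by
      have e : (κ E x ∘ sh.Γ x z) = fun s => (κ E x ∘ sh.Γ x z) (s + b.T z) :=
        funext fun s => by simp only [Function.comp_apply, hper z hz s]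
      unfold vel
      conv_rhs => rw [e, deriv_comp_add_const, zero_add]
    have he := energy_eq (hgeo 0) hx0
    have key : ∀ ξ : E × E, -(fderiv ℝ b.T z ξ) * energy g (sh.Γ x z) 0 =
        b.T z / 2 * fderiv ℝ (fun y => energy g (sh.Γ x y) 0) z ξ := by
      intro ξ
      have fv := first_variation (Γ := sh.Γ x) (sh.V_open x) (fun z hz => Short.Γ_geo hz)
        (fun z hz t => Short.Γ_smooth hz t) hV ξ hx0 (b.src0 z hz)
      have q1 : L (ξ, fderiv ℝ b.T z ξ) = ξ.1 := congrArg (fun A => A ξ) (d1.unique d1')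
      have q2 : L (ξ, 0) = ξ.1 - fderiv ℝ b.T z ξ • L (0, 1) := by
        rw [← q1, ← map_smul, ← map_sub]
        simp
      have q3 : fderiv ℝ (fun y : E × E => κ E x (sh.Γ x y (b.T z))) z ξ = L (ξ, 0) := by
        rw [d2.fderiv]; rfl
      have q4 : fderiv ℝ (fun y : E × E => κ E x (sh.Γ x y 0)) z ξ = ξ.1 := by
        rw [d4.fderiv]; rfl
      rw [q3, q4, q2, ← v1, v2, hkT z hz, hk z hz, map_sub, map_smul, smul_eq_mul] at fv
      rw [he, hk z hz]
      linarith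
    refine (de.mul (dT.mul dT)).congr_fderiv (ContinuousLinearMap.ext fun ξ => ?_)
    have := key ξ
    simp only [add_apply, smul_apply, smul_eq_mul, zero_apply, Pi.mul_apply]
    linear_combination (-2 * b.T z) * this
  have h0 : w0 ∈ ball w0 b.r := mem_ball_self b.r_pos
  have hc : energy g (sh.Γ x w) 0 * (b.T w * b.T w) = energy g (sh.Γ x w0) 0 * (b.T w0 * b.T w0) :=
    isOpen_ball.is_const_of_fderiv_eq_zero (𝕜 := ℝ) (convex_ball w0 b.r).isPreconnected
      (fun z hz => (hd z hz).differentiableAt.differentiableWithinAt)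
      (fun z hz => (hd z hz).fderiv) hw h0
  have hs := congrArg Real.sqrt hc
  rw [Real.sqrt_mul (energy_nonneg _ _ _), Real.sqrt_mul (energy_nonneg _ _ _),
    Real.sqrt_mul_self (hT w hw).le, Real.sqrt_mul_self (hT w0 h0).le, b.T_zero] at hs
  exact hs

end Pool.Agent.GeoN
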