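import Mathlib
import Pool.Agent.P.MP_365c00_gt.BGam

/-! TASK BBox: existence of return maps. -/

set_option linter.unusedSectionVars false
set_option linter.unusedVariables false

open Set Filter Topology Metric Function
open scoped Manifold ContDiff

namespace Pool.Agent.GeoN

variable {E : Type} [NormedAddCommGroup E] [InnerProductSpace ℝ E] [FiniteDimensional ℝ E]
  {M : Type} [TopologicalSpace M] [ChartedSpace E M] [IsManifold 𝓘(ℝ, E) ∞ M]
  [T2Space M] [CompactSpace M] [Nonempty M] [Nontrivial E]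

variable {g : Met E M} {sh : Short g} {x : M} {w0 : E × E} {τ : ℝ}

theorem bbox_mono {f f' : ℝ → ℝ} {s0 a : ℝ}
    (h : ∀ s ∈ ball s0 a, HasDerivAt f (f' s) s ∧ 0 < f' s) : StrictMonoOn f (ball s0 a) := by
  refine strictMonoOn_of_deriv_pos (convex_ball s0 a)
    (fun s hs => (h s hs).1.continuousAt.continuousWithinAt) fun s hs => ?_
  rw [isOpen_ball.interior_eq] at hs
  rw [(h s hs).1.deriv]
  exact (h s hs).2

theorem bbox_ift {P : Type} [NormedAddCommGroup P] [NormedSpace ℝ P] [CompleteSpace P]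
    {Φ Φ' : P × ℝ → ℝ} {w0 : P} {τ a θ : ℝ} (ha : 0 < a) (hθ : 0 < θ) (h0 : Φ (w0, τ) = 0)
    (h : ∀ w ∈ ball w0 a, ∀ s ∈ ball τ a, ContDiffAt ℝ ∞ Φ (w, s) ∧
      HasDerivAt (fun s => Φ (w, s)) (Φ' (w, s)) s ∧ 0 < Φ' (w, s)) :
    ∃ r > 0, r ≤ a ∧ ∃ T : P → ℝ, ContDiffOn ℝ ∞ T (ball w0 r) ∧ T w0 = τ ∧
      ∀ w ∈ ball w0 r, |T w - τ| < θ ∧ T w ∈ ball τ a ∧ Φ (w, T w) = 0 := by
  have mono : ∀ w ∈ ball w0 a, StrictMonoOn (fun s => Φ (w, s)) (ball τ a) := fun w hw =>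
    bbox_mono (f' := fun s => Φ' (w, s)) fun s hs => (h w hw s hs).2
  have cont : ∀ w ∈ ball w0 a, ∀ s ∈ ball τ a, ContinuousAt (fun v => Φ (v, s)) w :=
    fun w hw s hs => ContinuousAt.comp (f := fun v : P => (v, s)) (h w hw s hs).1.continuousAt
      (continuousAt_id.prodMk continuousAt_const)
  set η : ℝ := min θ a / 2 with hη
  have hm : 0 < min θ a := lt_min hθ ha
  have η0 : 0 < η := by positivity
  have ηθ : η < θ := by have := min_le_left θ a; linarith
  have ηa : η < a := by have := min_le_right θ a; linarith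
  have hI : ∀ s, τ - η ≤ s → s ≤ τ + η → s ∈ ball τ a := fun s h1 h2 => by
    rw [mem_ball, Real.dist_eq, abs_lt]
    constructor <;> linarith
  have m0 : τ ∈ ball τ a := mem_ball_self ha
  have m1 : τ - η ∈ ball τ a := hI _ le_rfl (by linarith)
  have m2 : τ + η ∈ ball τ a := hI _ (by linarith) le_rfl
  have w0a : w0 ∈ ball w0 a := mem_ball_self ha
  have s1 : Φ (w0, τ - η) < 0 := h0 ▸ mono w0 w0a m1 m0 (by linarith)
  have s2 : 0 < Φ (w0, τ + η) := h0 ▸ mono w0 w0a m0 m2 (by linarith)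
  obtain ⟨r, hr, hr'⟩ := Metric.eventually_nhds_iff_ball.1
    (((cont w0 w0a _ m1).eventually (gt_mem_nhds s1)).and
      ((cont w0 w0a _ m2).eventually (lt_mem_nhds s2)))
  have sub : ball w0 (min r a) ⊆ ball w0 a := ball_subset_ball (min_le_right _ _)
  have ex : ∀ w, ∃ t, w ∈ ball w0 (min r a) → t ∈ Ioo (τ - η) (τ + η) ∧ Φ (w, t) = 0 := by
    intro w
    by_cases hw : w ∈ ball w0 (min r a)
    · have hc : ContinuousOn (fun s => Φ (w, s)) (Icc (τ - η) (τ + η)) := fun s hs =>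
        (h w (sub hw) s (hI s hs.1 hs.2)).2.1.continuousAt.continuousWithinAt
      obtain ⟨t, ht, ht'⟩ := intermediate_value_Ioo (by linarith) hc
        (hr' w (ball_subset_ball (min_le_left _ _) hw))
      exact ⟨t, fun _ => ⟨ht, ht'⟩⟩
    · exact ⟨0, fun h => absurd h hw⟩
  choose T hT using ex
  have hTa : ∀ w ∈ ball w0 (min r a), T w ∈ ball τ a := fun w hw =>
    hI _ (hT w hw).1.1.le (hT w hw).1.2.le
  have hra : 0 < min r a := lt_min hr ha
  refine ⟨min r a, hra, min_le_right _ _, T, fun w hw => ?_, ?_, fun w hw => ⟨?_, hTa w hw,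
    (hT w hw).2⟩⟩
  · have hn : ∀ᶠ v in 𝓝 w, v ∈ ball w0 (min r a) := isOpen_ball.mem_nhds hw
    have hc : ContinuousAt T w := by
      refine tendsto_order.2 ⟨fun b hb => ?_, fun b hb => ?_⟩
      · have b1 : max b (τ - η) < T w := max_lt hb (hT w hw).1.1
        have b2 : max b (τ - η) ∈ ball τ a :=
          hI _ (le_max_right _ _) (b1.le.trans (hT w hw).1.2.le)
        have b3 : Φ (w, max b (τ - η)) < 0 := (hT w hw).2 ▸ mono w (sub hw) b2 (hTa w hw) b1
        filter_upwards [hn, (cont w (sub hw) _ b2).eventually (gt_mem_nhds b3)] with v hv h1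
        refine (le_max_left _ _).trans_lt (((mono v (sub hv)).lt_iff_lt b2 (hTa v hv)).1 ?_)
        rw [(hT v hv).2]
        exact h1
      · have b1 : T w < min b (τ + η) := lt_min hb (hT w hw).1.2
        have b2 : min b (τ + η) ∈ ball τ a :=
          hI _ ((hT w hw).1.1.le.trans b1.le) (min_le_right _ _)
        have b3 : 0 < Φ (w, min b (τ + η)) := (hT w hw).2 ▸ mono w (sub hw) (hTa w hw) b2 b1
        filter_upwards [hn, (cont w (sub hw) _ b2).eventually (lt_mem_nhds b3)] with v hv h1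
        refine (((mono v (sub hv)).lt_iff_lt (hTa v hv) b2).1 ?_).trans_le (min_le_left _ _)
        rw [(hT v hv).2]
        exact h1
    obtain ⟨h1, h2, h3⟩ := h w (sub hw) _ (hTa w hw)
    refine (implicit_smooth (k := 0) h1 ?_ hc (hn.mono fun v hv => (hT v hv).2)).contDiffWithinAt
    have h4 : HasDerivAt (fun s => Φ (w, s)) (fderiv ℝ Φ (w, T w) (0, 1)) (T w) :=
      (h1.differentiableAt (by simp)).hasFDerivAt.comp_hasDerivAt (T w)
        ((hasDerivAt_const (T w) w).prodMk (hasDerivAt_id (T w)))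
    rw [h4.unique h2]
    exact h3.ne'
  · have hw := mem_ball_self (x := w0) hra
    exact (mono w0 w0a).injOn (hTa w0 hw) m0 ((hT w0 hw).2.trans h0.symm)
  · rw [abs_lt]
    constructor <;> linarith [(hT w hw).1.1, (hT w hw).1.2]

theorem bbox_chart {w : E × E} (hw : w ∈ sh.V x) {t : ℝ} (ht : sh.Γ x w t ∈ (κ E x).source) :
    ContDiffAt ℝ ∞ (fun v : (E × E) × ℝ => κ E x (sh.Γ x v.1 v.2)) (w, t) :=
  contDiffAt_chart (n := ⊤) (Short.Γ_smooth hw t) ht

theorem bbox_good {w : E × E} (hw : w ∈ sh.V x) {t : ℝ} (ht : sh.Γ x w t ∈ (κ E x).source)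
    (l : E →L[ℝ] ℝ) (hl : 0 < l (vel E x (sh.Γ x w) t)) : ∃ c > 0, ∀ v ∈ ball w c,
      ∀ s ∈ ball t c, v ∈ sh.V x ∧ sh.Γ x v s ∈ (κ E x).source ∧ 0 < l (vel E x (sh.Γ x v) s) := by
  have h1 : ∀ᶠ y : (E × E) × ℝ in 𝓝 (w, t), y.1 ∈ sh.V x :=
    continuousAt_fst.eventually ((sh.V_open x).mem_nhds hw)
  have h2 : ∀ᶠ y : (E × E) × ℝ in 𝓝 (w, t), sh.Γ x y.1 y.2 ∈ (κ E x).source :=
    (Short.Γ_smooth hw t).continuousAt.eventually ((source_open x).mem_nhds ht)
  have h3 : ∀ᶠ y : (E × E) × ℝ in 𝓝 (w, t), 0 < l (vel E x (sh.Γ x y.1) y.2) :=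
    (l.continuous.continuousAt.comp (vel_smooth (g := g) (sh.V_open x)
      (fun z hz t => Short.Γ_smooth hz t) hw ht).continuousAt).eventually (lt_mem_nhds hl)
  obtain ⟨c, hc, h⟩ := Metric.eventually_nhds_iff_ball.1 (h1.and (h2.and h3))
  refine ⟨c, hc, fun v hv s hs => h (v, s) ?_⟩
  rw [← ball_prod_same]
  exact ⟨hv, hs⟩

theorem exists_box (hw : w0 ∈ sh.V x) (hτ : 0 < τ) (hp : Periodic (sh.Γ x w0) τ)
    {N : Set (E × E)} (hN : N ∈ 𝓝 w0) : ∃ b : Box sh x w0 τ, ball w0 b.r ⊆ N := by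
  have geoAt : ∀ w ∈ sh.V x, ∀ t, GeoAt g (sh.Γ x w) t := fun w hw =>
    (isGeodesic_iff g _).1 (Short.Γ_geo hw)
  have z0 : ∀ w ∈ sh.V x, κ E x (sh.Γ x w 0) = w.1 := fun w hw => by
    rw [Short.Γ_zero hw, (κ E x).right_inv hw.1]
  have s0 : sh.Γ x w0 0 ∈ (κ E x).source := by
    rw [Short.Γ_zero hw]
    exact (κ E x).map_target hw.1
  have pτ : sh.Γ x w0 τ = sh.Γ x w0 0 := by simpa using hp 0
  have sτ : sh.Γ x w0 τ ∈ (κ E x).source := pτ ▸ s0
  have s1 : sh.Γ x w0 (τ + 1) ∈ (κ E x).source := by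
    rw [add_comm, hp 1, Short.Γ_one hw]
    exact (κ E x).map_target hw.2.1
  have hV0 : vel E x (sh.Γ x w0) 0 ≠ 0 := fun h => by
    have := Short.Γ_pos hw
    rw [energy_eq (geoAt w0 hw 0) s0, h, map_zero] at this
    exact lt_irrefl _ this
  have vτ : vel E x (sh.Γ x w0) τ = vel E x (sh.Γ x w0) 0 := by
    have h1 := ChartX.vel_aff (E := E) x (sh.Γ x w0) 1 τ 0
    have h2 : (fun s => sh.Γ x w0 (1 * s + τ)) = sh.Γ x w0 := funext fun s => by
      rw [one_mul, hp s]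
    rw [h2, one_smul, mul_zero, zero_add] at h1
    exact h1.symm
  set l : E →L[ℝ] ℝ := innerSL ℝ (vel E x (sh.Γ x w0) 0) with hl
  have l0 : 0 < l (vel E x (sh.Γ x w0) 0) := by
    rw [hl, innerSL_apply_apply]
    exact real_inner_self_pos.2 hV0
  obtain ⟨c0, hc0, g0⟩ := bbox_good hw s0 l l0
  obtain ⟨c1, hc1, g1⟩ := bbox_good hw sτ l (vτ ▸ l0)
  have der : ∀ w ∈ sh.V x, ∀ s, sh.Γ x w s ∈ (κ E x).source →
      HasDerivAt (fun s => l (κ E x (sh.Γ x w s))) (l (vel E x (sh.Γ x w) s)) s :=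
    fun w hw s hs => l.hasFDerivAt.comp_hasDerivAt s ((geoAt w hw s).hasDerivAt hs)
  set θ : ℝ := min (1 / 10) (min (τ / 5) (c0 / (τ + 5))) with hθ
  have θ0 : 0 < θ := lt_min (by norm_num) (lt_min (by positivity) (by positivity))
  have θ1 : θ ≤ 1 / 10 := min_le_left _ _
  have θ2 : θ ≤ τ / 5 := (min_le_right _ _).trans (min_le_left _ _)
  have θ3 : θ ≤ c0 / (τ + 5) := (min_le_right _ _).trans (min_le_right _ _)
  obtain ⟨r2, hr2, hr2c, T, hT, hT0, hT'⟩ := bbox_ift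
    (Φ := fun y : (E × E) × ℝ => l (κ E x (sh.Γ x y.1 y.2)) - l y.1.1)
    (Φ' := fun y => l (vel E x (sh.Γ x y.1) y.2)) (w0 := w0) (τ := τ) hc1 θ0
    (by simp only [pτ, z0 w0 hw, sub_self]) fun w hw s hs => by
      obtain ⟨a1, a2, a3⟩ := g1 w hw s hs
      exact ⟨(l.contDiff.contDiffAt.comp _ (bbox_chart a1 a2)).sub
        (l.contDiff.contDiffAt.comp _ (contDiffAt_fst.comp _ contDiffAt_fst)),
        (der w a1 s a2).sub_const (l w.1), a3⟩
  have Tc : ContinuousAt T w0 :=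
    (hT.contDiffAt (isOpen_ball.mem_nhds (mem_ball_self hr2))).continuousAt
  have e1 : ∀ᶠ w in 𝓝 w0, sh.Γ x w (T w + 1) ∈ (κ E x).source := by
    have h1 : ContinuousAt (fun w => sh.Γ x w (T w + 1)) w0 :=
      ContinuousAt.comp (f := fun w : E × E => (w, T w + 1))
        (Short.Γ_smooth hw (T w0 + 1)).continuousAt
        (continuousAt_id.prodMk (Tc.add continuousAt_const))
    rw [← hT0] at s1
    exact h1.eventually ((source_open x).mem_nhds s1)
  have q0 : 0 < √(energy g (sh.Γ x w0) 0) := Real.sqrt_pos.2 (Short.Γ_pos hw)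
  have e2 : ∀ᶠ w in 𝓝 w0, √(energy g (sh.Γ x w) 0) ∈
      ball (√(energy g (sh.Γ x w0) 0)) (θ * √(energy g (sh.Γ x w0) 0) / 4) :=
    (energy_smooth (sh.V_open x) (fun z hz => Short.Γ_geo hz)
      (fun z hz t => Short.Γ_smooth hz t) hw).continuousAt.sqrt.eventually
      (ball_mem_nhds _ (by positivity))
  obtain ⟨r3, hr3, h3⟩ := Metric.eventually_nhds_iff_ball.1
    (e1.and (e2.and (Filter.Eventually.and hN (ball_mem_nhds w0 hc0))))
  have b2 : ball w0 (min r2 r3) ⊆ ball w0 r2 := ball_subset_ball (min_le_left _ _)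
  have b3 : ball w0 (min r2 r3) ⊆ ball w0 r3 := ball_subset_ball (min_le_right _ _)
  have gT : ∀ w ∈ ball w0 (min r2 r3), w ∈ sh.V x ∧ sh.Γ x w (T w) ∈ (κ E x).source :=
    fun w hw => by
      obtain ⟨a1, a2, -⟩ := g1 w (ball_subset_ball hr2c (b2 hw)) _ (hT' w (b2 hw)).2.1
      exact ⟨a1, a2⟩
  refine ⟨{ r := min r2 r3
            r_pos := lt_min hr2 hr3
            sub := fun w hw => (gT w hw).1
            T := T
            f := fun w => (κ E x (sh.Γ x w (T w)), κ E x (sh.Γ x w (T w + 1)))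
            T_smooth := hT.mono b2
            f_smooth := fun w hw => ?_
            T_zero := hT0
            src0 := fun w hw => (gT w hw).2
            src1 := fun w hw => (h3 w (b3 hw)).1
            f_eq := fun w _ => rfl
            l := l
            lev := fun w hw => sub_eq_zero.1 (hT' w (b2 hw)).2.2
            c := c0
            gap := fun w hw s hs hls => ?_
            θ := θ
            θ_pos := θ0
            θ_le := θ1
            θ_τ := by linarith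
            θ_c := ?_
            T_near := fun w hw => (hT' w (b2 hw)).1
            speed := fun w hw w' hw' => ?_ }, fun w hw => (h3 w (b3 hw)).2.2.1⟩
  · have h1 : ContDiffAt ℝ ∞ T w := hT.contDiffAt (isOpen_ball.mem_nhds (b2 hw))
    refine (ContDiffAt.prodMk ?_ ?_).contDiffWithinAt
    · exact ContDiffAt.comp (f := fun w : E × E => (w, T w)) w
        (bbox_chart (gT w hw).1 (gT w hw).2) (contDiffAt_id.prodMk h1)
    · exact ContDiffAt.comp (f := fun w : E × E => (w, T w + 1)) w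
        (bbox_chart (gT w hw).1 (h3 w (b3 hw)).1)
        (contDiffAt_id.prodMk (h1.add contDiffAt_const))
  · have hwc := (h3 w (b3 hw)).2.2.2
    have mono : StrictMonoOn (fun s => l (κ E x (sh.Γ x w s))) (ball 0 c0) :=
      bbox_mono (f' := fun s => l (vel E x (sh.Γ x w) s)) fun s hs => by
        obtain ⟨a1, a2, a3⟩ := g0 w hwc s hs
        exact ⟨der w a1 s a2, a3⟩
    refine mono.injOn (mem_ball_zero_iff.2 hs) (mem_ball_self hc0) ?_
    simp only [hls, z0 w (gT w hw).1]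
  · have h1 : θ * (τ + 5) ≤ c0 := (le_div_iff₀ (by positivity)).1 θ3
    nlinarith
  · have a1 := (h3 w (b3 hw)).2.1
    have a2 := (h3 w' (b3 hw')).2.1
    rw [mem_ball, Real.dist_eq, abs_lt] at a1 a2
    have a3 : θ * √(energy g (sh.Γ x w0) 0) ≤ 1 / 10 * √(energy g (sh.Γ x w0) 0) :=
      mul_le_mul_of_nonneg_right θ1 q0.le
    have a4 : √(energy g (sh.Γ x w0) 0) / 2 ≤ √(energy g (sh.Γ x w) 0) := by linarith [a1.1]
    have a5 := mul_le_mul_of_nonneg_left a4 θ0.le
    rw [abs_le]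
    constructor <;> linarith [a1.1, a1.2, a2.1, a2.2]

end Pool.Agent.GeoN
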