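import Mathlib
import Pool.Agent.P.MP_365c00_gt.BLip

/-! TASK BBrk: broken geodesics. -/

set_option linter.unusedSectionVars false
set_option linter.unusedVariables false

open Set Filter Topology Metric Function
open scoped Manifold ContDiff

namespace Pool.Agent.GeoN

variable {E : Type} [NormedAddCommGroup E] [InnerProductSpace ℝ E] [FiniteDimensional ℝ E]
  {M : Type} [TopologicalSpace M] [ChartedSpace E M] [IsManifold 𝓘(ℝ, E) ∞ M]
  [T2Space M] [CompactSpace M] [Nonempty M] [Nontrivial E]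

variable {g : Met E M} (sh : Short g) (p q : M) {k : ℕ}

theorem pt_cont (i : ℕ) : Continuous fun y : Fin k → M => pt p q y i := by
  unfold pt
  split_ifs
  · exact continuous_const
  · exact continuous_apply _
  · exact continuous_const

theorem brk_pair_cont (i : ℕ) :
    Continuous fun y : Fin k → M => (pt p q y i, pt p q y (i + 1)) :=
  (pt_cont p q i).prodMk (pt_cont p q (i + 1))

theorem brk_pt_zero (y : Fin k → M) : pt p q y 0 = p := by simp [pt]

theorem brk_pt_last (y : Fin k → M) : pt p q y (k + 1) = q := by simp [pt]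

theorem Short.W_open (k : ℕ) : IsOpen (sh.W p q k) := by
  have e : sh.W p q k = ⋂ i ∈ Iic k,
      (fun y : Fin k → M => (pt p q y i, pt p q y (i + 1))) ⁻¹' sh.D := by
    ext y
    simp [Short.W]
  rw [e]
  exact (finite_Iic k).isOpen_biInter fun i _ => sh.D_open.preimage (brk_pair_cont p q i)

theorem Short.En_cont : ContinuousOn (fun y : Fin k → M => sh.En p q y) (sh.W p q k) := by
  refine continuousOn_finsetSum _ fun i hi => ?_
  exact sh.S_cont.comp (brk_pair_cont p q i).continuousOn fun y hy =>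
    hy i (Nat.lt_succ_iff.1 (Finset.mem_range.1 hi))

theorem Short.compact_each {c : ℝ} (hc : c < sh.ε) :
    IsCompact {y | y ∈ sh.W p q k ∧ ∀ i ≤ k, sh.S (pt p q y i, pt p q y (i + 1)) ≤ c} := by
  have e : {y | y ∈ sh.W p q k ∧ ∀ i ≤ k, sh.S (pt p q y i, pt p q y (i + 1)) ≤ c} = ⋂ i ∈ Iic k,
      (fun y : Fin k → M => (pt p q y i, pt p q y (i + 1))) ⁻¹' {z | z ∈ sh.D ∧ sh.S z ≤ c} := by
    ext y
    simp [Short.W, forall_and]
  rw [e]
  exact (isClosed_biInter fun i _ =>
    (sh.compact_le hc).isClosed.preimage (brk_pair_cont p q i)).isCompact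

theorem Short.compact_En {c : ℝ} (hc : c < sh.ε) :
    IsCompact {y | y ∈ sh.W p q k ∧ sh.En p q y ≤ c} := by
  have h1 := sh.compact_each p q (k := k) hc
  have h2 := ((sh.En_cont p q).mono fun y hy => hy.1 :
    ContinuousOn _ {y | y ∈ sh.W p q k ∧ ∀ i ≤ k, sh.S (pt p q y i, pt p q y (i + 1)) ≤ c}
    ).preimage_isClosed_of_isClosed h1.isClosed (isClosed_Iic (a := c))
  have e : {y | y ∈ sh.W p q k ∧ sh.En p q y ≤ c} =
      {y | y ∈ sh.W p q k ∧ ∀ i ≤ k, sh.S (pt p q y i, pt p q y (i + 1)) ≤ c} ∩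
        (fun y : Fin k → M => sh.En p q y) ⁻¹' Iic c := by
    ext y
    refine ⟨fun h => ⟨⟨h.1, fun i hi => le_trans ?_ h.2⟩, h.2⟩, fun h => ⟨h.1.1, h.2⟩⟩
    exact Finset.single_le_sum (f := fun i => sh.S (pt p q y i, pt p q y (i + 1)))
      (fun _ _ => sh.S_nonneg _) (Finset.mem_range.2 (Nat.lt_succ_of_le hi))
  rw [e]
  exact h2.isCompact

theorem Short.bk_eq {y : Fin k → M} (hy : y ∈ sh.W p q k) {i : ℕ} (hi : i ≤ k) {t : ℝ}
    (h1 : (i : ℝ) ≤ ((k : ℝ) + 1) * t) (h2 : ((k : ℝ) + 1) * t ≤ i + 1) :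
    sh.bk p q y t = sh.σ (pt p q y i, pt p q y (i + 1)) (((k : ℝ) + 1) * t - i) := by
  unfold Short.bk
  rcases h2.lt_or_eq with h3 | h3
  · have h4 : ⌊((k : ℝ) + 1) * t⌋₊ = i :=
      (Nat.floor_eq_iff ((Nat.cast_nonneg i).trans h1)).2 ⟨h1, h3⟩
    rw [h4, min_eq_right hi]
  · have h4 : ⌊((k : ℝ) + 1) * t⌋₊ = i + 1 := by
      rw [h3, ← Nat.cast_succ, Nat.floor_natCast]
    rw [h4]
    rcases hi.lt_or_eq with h5 | h5
    · rw [min_eq_right (Nat.succ_le_of_lt h5), h3, Nat.cast_succ, sub_self, add_sub_cancel_left,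
        sh.zero _ (hy (i + 1) h5), sh.one _ (hy i hi)]
    · rw [h5, min_eq_left (Nat.le_succ k)]

theorem Short.exists_brk (k : ℕ) : ∃ b : C(sh.W p q k, Ser.Om p q),
    ∀ y (t : unitInterval), (b y).1 t = sh.bk p q y.1 t := by
  have hk : (0 : ℝ) < (k : ℝ) + 1 := by positivity
  have hc : Continuous fun z : sh.W p q k × unitInterval => sh.bk p q z.1.1 z.2 := by
    refine (locallyFinite_of_finite fun i : Iic k => {z : sh.W p q k × unitInterval |
      (i.1 : ℝ) ≤ ((k : ℝ) + 1) * z.2 ∧ ((k : ℝ) + 1) * z.2 ≤ i.1 + 1}).continuous ?_ ?_ ?_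
    · refine eq_univ_of_forall fun z => mem_iUnion.2 ?_
      have h0 : 0 ≤ ((k : ℝ) + 1) * z.2 := mul_nonneg hk.le z.2.2.1
      refine ⟨⟨min k ⌊((k : ℝ) + 1) * z.2⌋₊, mem_Iic.2 (min_le_left _ _)⟩, ?_, ?_⟩
      · exact le_trans (Nat.cast_le.2 (min_le_right _ _)) (Nat.floor_le h0)
      · rcases le_total k ⌊((k : ℝ) + 1) * z.2⌋₊ with h | h
        · simp only [min_eq_left h]
          exact mul_le_of_le_one_right hk.le z.2.2.2
        · simp only [min_eq_right h]
          exact (Nat.lt_floor_add_one _).le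
    · intro i
      have h1 : Continuous fun z : sh.W p q k × unitInterval => ((k : ℝ) + 1) * z.2 := by fun_prop
      exact (isClosed_le continuous_const h1).inter (isClosed_le h1 continuous_const)
    · intro i
      have h1 : Continuous fun z : sh.W p q k × unitInterval =>
          ((pt p q z.1.1 i.1, pt p q z.1.1 (i.1 + 1)), ((k : ℝ) + 1) * z.2 - i.1) :=
        ((brk_pair_cont p q i.1).comp (continuous_subtype_val.comp continuous_fst)).prodMk
          (by fun_prop)
      have h2 := sh.cont.comp_continuous h1 fun z => ⟨z.1.2 i.1 i.2, mem_univ _⟩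
      exact h2.continuousOn.congr fun z hz => sh.bk_eq p q z.1.2 i.2 hz.1 hz.2
  refine ⟨⟨fun y => ⟨(ContinuousMap.curry ⟨_, hc⟩) y, ?_, ?_⟩,
    (ContinuousMap.curry ⟨_, hc⟩).continuous.subtype_mk _⟩, fun y t => rfl⟩
  · show sh.bk p q y.1 0 = p
    rw [sh.bk_eq p q y.2 (Nat.zero_le k) (by simp) (by simp), mul_zero, Nat.cast_zero, sub_zero,
      sh.zero _ (y.2 0 (Nat.zero_le k)), brk_pt_zero]
  · show sh.bk p q y.1 1 = q
    rw [sh.bk_eq p q y.2 le_rfl (by simp) (by simp), mul_one, add_sub_cancel_left,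
      sh.one _ (y.2 k le_rfl), brk_pt_last]

/-- the broken geodesic as a path -/
noncomputable def Short.brk (k : ℕ) : C(sh.W p q k, Ser.Om p q) := (sh.exists_brk p q k).choose

theorem Short.brk_apply (y : sh.W p q k) (t : unitInterval) :
    (sh.brk p q k y).1 t = sh.bk p q y.1 t := (sh.exists_brk p q k).choose_spec y t

theorem smp_cont (k : ℕ) : Continuous (smp k : Ser.Om p q → Fin k → M) := by
  exact continuous_pi fun i => (continuous_eval_const _).comp continuous_subtype_val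

theorem pt_smp (γ : Ser.Om p q) {i : ℕ} (hi : i ≤ k + 1) :
    pt p q (smp k γ) i = γ.1 (projIcc 0 1 zero_le_one ((i : ℝ) / ((k : ℝ) + 1))) := by
  have hk : (0 : ℝ) < (k : ℝ) + 1 := by positivity
  unfold pt
  split_ifs with h0 h1
  · rw [h0, Nat.cast_zero, zero_div, projIcc_left]
    exact γ.2.1.symm
  · obtain ⟨j, rfl⟩ := Nat.exists_eq_succ_of_ne_zero h0
    simp only [smp, Nat.succ_sub_one, Nat.cast_succ]
  · obtain rfl : i = k + 1 := by omega
    rw [Nat.cast_succ, div_self hk.ne', projIcc_right]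
    exact γ.2.2.symm

end Pool.Agent.GeoN
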