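import Mathlib
import Pool.Agent.P.MP_365c00_gt.BSDefs

/-! TASK BConv: on a Besse manifold the number of geodesics is integrable. -/

set_option linter.unusedSectionVars false
set_option linter.unusedVariables false

open Set Filter Topology Metric Function
open scoped Manifold ContDiff

namespace Pool.Agent.GeoN

variable {E : Type} [NormedAddCommGroup E] [InnerProductSpace ℝ E] [FiniteDimensional ℝ E]
  {M : Type} [TopologicalSpace M] [ChartedSpace E M] [IsManifold 𝓘(ℝ, E) ∞ M]
  [T2Space M] [CompactSpace M] [Nonempty M] [Nontrivial E]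

open MeasureTheory

namespace ConvX

/-- a bound for all finite subsets bounds the extended cardinality -/
theorem encard_le {α : Type} {s : Set α} {c : ENNReal}
    (h : ∀ t : Finset α, (t : Set α) ⊆ s → (t.card : ENNReal) ≤ c) : (s.encard : ENNReal) ≤ c := by
  rcases s.finite_or_infinite with hs | hs
  · have h1 := h hs.toFinset (by simp)
    rw [hs.encard_eq_coe_toFinset_card]
    simpa using h1
  · have h1 : c = ⊤ := by
      refine top_unique ?_
      rw [← ENNReal.iSup_natCast]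
      refine iSup_le fun n => ?_
      obtain ⟨t, ht, hn⟩ := hs.exists_subset_card_eq n
      rw [← hn]
      exact h t ht
    rw [h1]
    exact le_top

/-- measurable partitions with small pieces -/
theorem exists_part (W : Type) [NormedAddCommGroup W] [NormedSpace ℝ W] [FiniteDimensional ℝ W]
    [MeasurableSpace W] [BorelSpace W] (n : ℕ) : ∃ D : ℕ → Set W, (∀ i, MeasurableSet (D i)) ∧
      Pairwise (Disjoint on D) ∧ (∀ x, ∃ i, x ∈ D i) ∧
      ∀ i, ∀ x ∈ D i, ∀ y ∈ D i, dist x y < 2 * (1 / ((n : ℝ) + 1)) := by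
  have hr : (0 : ℝ) < 1 / ((n : ℝ) + 1) := Nat.one_div_pos_of_nat
  let B : ℕ → Set W := fun i => ball (TopologicalSpace.denseSeq W i) (1 / ((n : ℝ) + 1))
  refine ⟨disjointed B, fun i => MeasurableSet.disjointed (fun j => measurableSet_ball) i,
    disjoint_disjointed B, fun x => ?_, fun i x hx y hy => ?_⟩
  · obtain ⟨i, hi⟩ := (TopologicalSpace.denseRange_denseSeq W).exists_dist_lt x hr
    have h1 : x ∈ ⋃ i, B i := mem_iUnion.2 ⟨i, hi⟩
    rw [← iUnion_disjointed] at h1
    exact mem_iUnion.1 h1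
  · have h1 : dist x (TopologicalSpace.denseSeq W i) < 1 / ((n : ℝ) + 1) :=
      disjointed_subset B i hx
    have h2 : dist y (TopologicalSpace.denseSeq W i) < 1 / ((n : ℝ) + 1) :=
      disjointed_subset B i hy
    linarith [dist_triangle_right x y (TopologicalSpace.denseSeq W i)]

end ConvX

theorem mult_le {W : Type} [NormedAddCommGroup W] [NormedSpace ℝ W] [FiniteDimensional ℝ W]
    [MeasurableSpace W] [BorelSpace W] (μ : Measure W) [μ.IsAddHaarMeasure] {F : W → W}
    {O K : Set W} (hO : IsOpen O) (hF : ContDiffOn ℝ 1 F O) (hK : IsCompact K) (hKO : K ⊆ O) :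
    ∃ φ : W → ENNReal, Measurable φ ∧ ∫⁻ w, φ w ∂μ < ⊤ ∧
      ∀ w, ((K ∩ F ⁻¹' {w}).encard : ENNReal) ≤ φ w := by
  classical
  have hc : ContinuousOn (fun x => |(fderiv ℝ F x).det|) K :=
    (ContinuousLinearMap.continuous_det.comp_continuousOn
      ((hF.continuousOn_fderiv_of_isOpen hO le_rfl).mono hKO)).abs
  obtain ⟨L, hL⟩ := hK.bddAbove_image hc
  have him : ∀ A : Set W, MeasurableSet A → A ⊆ K → μ (F '' A) ≤ ENNReal.ofReal L * μ A := by
    intro A hA hAK
    refine (addHaar_image_le_lintegral_abs_det_fderiv μ (f' := fderiv ℝ F) hA fun x hx => ?_).trans ?_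
    · exact ((hF.contDiffAt (hO.mem_nhds (hKO (hAK hx)))).differentiableAt
        one_ne_zero).hasFDerivAt.hasFDerivWithinAt
    · rw [← setLIntegral_const]
      exact setLIntegral_mono' hA fun x hx =>
        ENNReal.ofReal_le_ofReal (hL (mem_image_of_mem _ (hAK hx)))
  choose D hDm hDd hDc hDs using ConvX.exists_part W
  let ψ : ℕ → W → ENNReal := fun n w =>
    ∑' i, (toMeasurable μ (F '' (K ∩ D n i))).indicator (fun _ => (1 : ENNReal)) w
  have hm1 : ∀ n i, Measurable
      ((toMeasurable μ (F '' (K ∩ D n i))).indicator (fun _ => (1 : ENNReal))) := fun n i =>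
    measurable_const.indicator (measurableSet_toMeasurable _ _)
  have hm : ∀ n, Measurable (ψ n) := fun n => Measurable.tsum (hm1 n)
  have hi : ∀ n, ∫⁻ w, ψ n w ∂μ ≤ ENNReal.ofReal L * μ K := by
    intro n
    have hA : ∀ i, MeasurableSet (K ∩ D n i) := fun i => hK.measurableSet.inter (hDm n i)
    have e : μ K = ∑' i, μ (K ∩ D n i) := by
      rw [← measure_iUnion (fun i j hij => (hDd n hij).mono inter_subset_right inter_subset_right)
        hA]
      congr 1
      ext x
      simp only [mem_iUnion, mem_inter_iff]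
      exact ⟨fun hx => (hDc n x).imp fun i hi => ⟨hx, hi⟩, fun ⟨i, hi⟩ => hi.1⟩
    rw [lintegral_tsum fun i => (hm1 n i).aemeasurable, e, ← ENNReal.tsum_mul_left]
    refine ENNReal.tsum_le_tsum fun i => ?_
    rw [lintegral_indicator (measurableSet_toMeasurable _ _), setLIntegral_const, one_mul,
      measure_toMeasurable]
    exact him _ (hA i) inter_subset_left
  refine ⟨fun w => liminf (fun n => ψ n w) atTop, Measurable.liminf hm, ?_, fun w => ?_⟩
  · refine ((lintegral_liminf_le hm).trans (liminf_le_of_frequently_le'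
      (Eventually.of_forall hi).frequently)).trans_lt ?_
    exact ENNReal.mul_lt_top ENNReal.ofReal_lt_top hK.measure_lt_top
  · refine ConvX.encard_le fun t ht => le_liminf_of_le (by isBoundedDefault) ?_
    have hev : ∀ᶠ n : ℕ in atTop, ∀ x ∈ t, ∀ y ∈ t, x ≠ y →
        2 * (1 / ((n : ℝ) + 1)) < dist x y := by
      refine (t.eventually_all).2 fun x _ => (t.eventually_all).2 fun y _ => ?_
      by_cases hxy : x = y
      · exact Eventually.of_forall fun n h => absurd hxy h
      · have h1 : Tendsto (fun n : ℕ => 2 * (1 / ((n : ℝ) + 1))) atTop (𝓝 (2 * 0)) :=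
          tendsto_one_div_add_atTop_nhds_zero_nat.const_mul 2
        rw [mul_zero] at h1
        filter_upwards [h1.eventually (gt_mem_nhds (dist_pos.2 hxy))] with n hn _ using hn
    filter_upwards [hev] with n hn
    choose ι hι using hDc n
    have hinj : InjOn ι t := by
      intro x hx y hy hxy
      by_contra hne
      have h1 := hDs n (ι x) x (hι x) y (hxy ▸ hι y)
      exact lt_asymm h1 (hn x hx y hy hne)
    refine le_trans ?_ (ENNReal.sum_le_tsum (t.image ι))
    rw [← Finset.card_image_of_injOn hinj, Finset.card_eq_sum_ones, Nat.cast_sum]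
    refine Finset.sum_le_sum fun i hi => ?_
    obtain ⟨x, hx, rfl⟩ := Finset.mem_image.1 hi
    have h1 : w ∈ toMeasurable μ (F '' (K ∩ D n (ι x))) :=
      subset_toMeasurable _ _ ⟨x, ⟨(ht hx).1, hι x⟩, (ht hx).2⟩
    rw [indicator_of_mem h1, Nat.cast_one]

variable {g : Met E M} [MeasurableSpace (E × E)] [BorelSpace (E × E)]

theorem ConvX.compact_ball (g : Met E M) (x : M) {K : Set E} (hK : IsCompact K)
    (hKt : K ⊆ (κ E x).target) (c : ℝ) :
    IsCompact {y : E × E | y.1 ∈ K ∧ G g x y.1 y.2 y.2 ≤ c} := by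
  obtain ⟨l, hl, h⟩ := G_coercive g x hK hKt
  have hc : ContinuousOn (fun y : E × E => G g x y.1 y.2 y.2) (K ×ˢ univ) := by
    have h1 : ContinuousOn (fun y : E × E => G g x y.1) (K ×ˢ univ) :=
      (G_smooth g x).continuousOn.comp continuousOn_fst fun y hy => hKt hy.1
    exact (h1.clm_apply continuousOn_snd).clm_apply continuousOn_snd
  have hcl := hc.preimage_isClosed_of_isClosed (hK.isClosed.prod isClosed_univ)
    (isClosed_Iic (a := c))
  have e : {y : E × E | y.1 ∈ K ∧ G g x y.1 y.2 y.2 ≤ c} =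
      K ×ˢ univ ∩ (fun y : E × E => G g x y.1 y.2 y.2) ⁻¹' Iic c := by
    ext y
    simp
  refine (hK.prod (isCompact_closedBall (0 : E) (c / l + 1))).of_isClosed_subset (e ▸ hcl) ?_
  intro y hy
  refine ⟨hy.1, mem_closedBall_zero_iff.2 ?_⟩
  have h1 := (h y.1 hy.1 y.2).trans hy.2
  have h2 : ‖y.2‖ ^ 2 ≤ c / l := by
    rw [le_div_iff₀ hl]; linarith
  nlinarith [sq_nonneg (‖y.2‖ - 1), sq_nonneg ‖y.2‖]

theorem conv (μ : Measure (E × E)) [μ.IsAddHaarMeasure] {τ : ℝ} (hτ : 0 < τ)
    (h : ∀ γ : ℝ → M, IsGeodesic g γ → UnitSpeed g γ → Periodic γ τ) (x y : M)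
    {K : Set (E × E)} (hK : IsCompact K) (hKt : K ⊆ (κ E x).target ×ˢ (κ E y).target) :
    ∃ φ : E × E → ENNReal, Measurable φ ∧ ∫⁻ w, φ w ∂μ < ⊤ ∧ ∀ w ∈ K, num g x y w ≤ φ w := by
  have hK1 : IsCompact (Prod.fst '' K) := hK.image continuous_fst
  have hK1t : Prod.fst '' K ⊆ (κ E x).target := by
    rintro _ ⟨w, hw, rfl⟩
    exact (hKt hw).1
  have hK2t : Prod.snd '' K ⊆ (κ E y).target := by
    rintro _ ⟨w, hw, rfl⟩
    exact (hKt hw).2
  have hC : IsCompact ((κ E y).symm '' (Prod.snd '' K)) :=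
    (hK.image continuous_snd).image_of_continuousOn
      ((continuousOn_extChartAt_symm y).mono hK2t)
  have hs : ∀ z : E × E, z.1 ∈ (κ E x).target →
      ContMDiffAt 𝓘(ℝ, E × E) 𝓘(ℝ, E) ∞ (fun z : E × E => geo g x z 1) z := by
    intro z hz
    exact (geo_smooth g x hz 1).comp z (f := fun z : E × E => (z, (1 : ℝ)))
      (ContDiffAt.contMDiffAt (by fun_prop))
  have hQ0 := ConvX.compact_ball g x hK1 hK1t (τ ^ 2)
  set Q0 := {z : E × E | z.1 ∈ Prod.fst '' K ∧ G g x z.1 z.2 z.2 ≤ τ ^ 2} with hQ0d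
  set Q := Q0 ∩ (fun z : E × E => geo g x z 1) ⁻¹' ((κ E y).symm '' (Prod.snd '' K)) with hQd
  have hQ : IsCompact Q := by
    refine hQ0.of_isClosed_subset ?_ inter_subset_left
    exact ContinuousOn.preimage_isClosed_of_isClosed
      (fun z hz => (hs z (hK1t hz.1)).continuousAt.continuousWithinAt) hQ0.isClosed hC.isClosed
  set O := (Prod.fst ⁻¹' (κ E x).target) ∩ (fun z : E × E => geo g x z 1) ⁻¹' (κ E y).source
    with hOd
  have hO : IsOpen O := by
    refine ContinuousOn.isOpen_inter_preimage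
      (fun z hz => (hs z hz).continuousAt.continuousWithinAt)
      ((target_open x).preimage continuous_fst) (source_open y)
  have hQO : Q ⊆ O := by
    rintro z ⟨hz, b, hb, e⟩
    refine ⟨hK1t hz.1, ?_⟩
    show geo g x z 1 ∈ (κ E y).source
    rw [show geo g x z 1 = (κ E y).symm b from e.symm]
    exact (κ E y).map_target (hK2t hb)
  let F : E × E → E × E := fun z => (z.1, κ E y (geo g x z 1))
  have hF : ContDiffOn ℝ 1 F O := fun z hz =>
    (contDiffAt_fst.prodMk ((contDiffAt_chart (n := ⊤) (hs z hz.1) hz.2).of_le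
      (by simp))).contDiffWithinAt
  obtain ⟨φ, hφm, hφi, hφ⟩ := mult_le μ hO hF hQ hQO
  refine ⟨fun w => φ w + φ w, hφm.add hφm, ?_, fun w hw => ?_⟩
  · rw [lintegral_add_left hφm]
    exact ENNReal.add_lt_top.2 ⟨hφi, hφi⟩
  have hsub : images g ((κ E x).symm w.1, (κ E y).symm w.2) ⊆
      (fun z => geo g x z '' Icc 0 1) '' (Q ∩ F ⁻¹' {w}) ∪
        (fun z => range (geo g x z)) '' (Q ∩ F ⁻¹' {w}) := by
    rintro S ⟨γ, hγ, ⟨s, -, hs0⟩, h0, h1, rfl⟩
    obtain ⟨u, l, hl, hu⟩ := exists_unit hγ hs0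
    have hp : Periodic u.1 τ := h _ u.2.1 u.2.2
    have hu0 : u.1 0 = (κ E x).symm w.1 := by
      have h2 := hu 0
      rw [mul_zero] at h2
      exact h2.symm.trans h0
    have hul : u.1 l = (κ E y).symm w.2 := by
      have h2 := hu 1
      rw [mul_one] at h2
      exact h2.symm.trans h1
    have key : ∀ l' : ℝ, 0 ≤ l' → l' ≤ τ → u.1 l' = u.1 l →
        ∃ z ∈ Q ∩ F ⁻¹' {w}, geo g x z = fun t => u.1 (l' * t) := by
      intro l' hl0 hlτ he
      obtain ⟨hc, hen⟩ := u.energy_scale l' 0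
      simp only [add_zero] at hc hen
      have hc0 : u.1 (l' * 0) = (κ E x).symm w.1 := by rw [mul_zero, hu0]
      have hsrc : (fun t => u.1 (l' * t)) 0 ∈ (κ E x).source := by
        show u.1 (l' * 0) ∈ _
        rw [hc0]
        exact (κ E x).map_target (hKt hw).1
      have hj := geo_jet hc hsrc
      have ha : κ E x (u.1 (l' * 0)) = w.1 := by
        rw [hc0]
        exact (κ E x).right_inv (hKt hw).1
      simp only [ha] at hj
      set V := vel E x (fun t => u.1 (l' * t)) 0 with hV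
      have h11 : geo g x (w.1, V) 1 = (κ E y).symm w.2 := by
        rw [hj]
        show u.1 (l' * 1) = _
        rw [mul_one, he, hul]
      refine ⟨(w.1, V), ⟨⟨⟨⟨w, hw, rfl⟩, ?_⟩, ?_⟩, ?_⟩, hj⟩
      · have h2 := energy_geo g x (y := (w.1, V)) (hKt hw).1
        rw [hj, hen] at h2
        rw [← h2]
        exact pow_le_pow_left₀ hl0 hlτ 2
      · exact ⟨w.2, mem_image_of_mem _ hw, h11.symm⟩
      · show (w.1, κ E y (geo g x (w.1, V) 1)) = w
        rw [h11, (κ E y).right_inv (hKt hw).2]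
    rcases le_total l τ with hlτ | hlτ
    · obtain ⟨z, hz, e⟩ := key l hl.le hlτ rfl
      refine Or.inl ⟨z, hz, ?_⟩
      show geo g x z '' Icc 0 1 = γ '' Icc 0 1
      rw [e, show γ = fun t => u.1 (l * t) from funext hu]
    · have hm := toIocMod_mem_Ioc hτ 0 l
      rw [zero_add] at hm
      obtain ⟨z, hz, e⟩ := key (toIocMod hτ 0 l) hm.1.le hm.2 (by
        rw [← self_sub_toIocDiv_zsmul]
        exact hp.sub_zsmul_eq _)
      refine Or.inr ⟨z, hz, ?_⟩
      show range (geo g x z) = γ '' Icc 0 1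
      rw [e]
      refine Subset.antisymm ?_ ?_
      · rintro _ ⟨t, rfl⟩
        have h2 : u.1 (toIocMod hτ 0 l * t) ∈ u.1 '' Ioc 0 (0 + τ) := by
          rw [hp.image_Ioc hτ 0]
          exact mem_range_self _
        obtain ⟨t', ht', e'⟩ := h2
        rw [zero_add] at ht'
        refine ⟨t' / l, ⟨div_nonneg ht'.1.le hl.le, (div_le_one hl).2 (ht'.2.trans hlτ)⟩, ?_⟩
        rw [hu, mul_div_cancel₀ _ hl.ne']
        exact e'
      · rintro _ ⟨t, -, rfl⟩
        refine ⟨l * t / toIocMod hτ 0 l, ?_⟩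
        show u.1 (toIocMod hτ 0 l * (l * t / toIocMod hτ 0 l)) = γ t
        rw [mul_div_cancel₀ _ hm.1.ne', hu]
  have h2 : (images g ((κ E x).symm w.1, (κ E y).symm w.2)).encard ≤
      (Q ∩ F ⁻¹' {w}).encard + (Q ∩ F ⁻¹' {w}).encard :=
    (encard_le_encard hsub).trans ((encard_union_le _ _).trans
      (add_le_add (encard_image_le _ _) (encard_image_le _ _)))
  have h3 := ENat.toENNReal_le.2 h2
  rw [ENat.toENNReal_add] at h3
  exact h3.trans (add_le_add (hφ w) (hφ w))

theorem conv_null (μ : Measure (E × E)) [μ.IsAddHaarMeasure] {τ : ℝ} (hτ : 0 < τ)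
    (h : ∀ γ : ℝ → M, IsGeodesic g γ → UnitSpeed g γ → Periodic γ τ) (x y : M) :
    μ (Prod.map (κ E x) (κ E y) '' ({z : M × M | (images g z).Finite}ᶜ ∩
      (κ E x).source ×ˢ (κ E y).source)) = 0 := by
  refine measure_null_of_locally_null _ ?_
  rintro w ⟨z, ⟨-, hz⟩, rfl⟩
  have ht : Prod.map (κ E x) (κ E y) z ∈ (κ E x).target ×ˢ (κ E y).target :=
    ⟨(κ E x).map_source hz.1, (κ E y).map_source hz.2⟩
  obtain ⟨K, hK, hKi, hKt⟩ := exists_compact_subset ((target_open x).prod (target_open y)) ht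
  obtain ⟨φ, hφm, hφi, hφ⟩ := conv μ hτ h x y hK hKt
  refine ⟨_, inter_mem_nhdsWithin _ (mem_interior_iff_mem_nhds.1 hKi), ?_⟩
  refine measure_mono_null ?_ (ae_iff.1 (ae_lt_top hφm hφi.ne))
  rintro w ⟨⟨z', ⟨hinf, hz'⟩, rfl⟩, hw⟩
  have h1 := hφ _ hw
  have h2 : num g x y (Prod.map (κ E x) (κ E y) z') = ⊤ := by
    show ((images g ((κ E x).symm (κ E x z'.1), (κ E y).symm (κ E y z'.2))).encard : ENNReal) = ⊤
    rw [(κ E x).left_inv hz'.1, (κ E y).left_inv hz'.2, Set.Infinite.encard_eq hinf]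
    rfl
  rw [h2] at h1
  exact not_lt.2 h1

end Pool.Agent.GeoN
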