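import Mathlib
import Pool.Agent.P.MP_365c00_gt.BVar

/-! TASK BImg: two geodesic segments with the same image. -/

set_option linter.unusedSectionVars false
set_option linter.unusedVariables false

open Set Filter Topology Metric Function
open scoped Manifold ContDiff

namespace Pool.Agent.GeoN

variable {E : Type} [NormedAddCommGroup E] [InnerProductSpace ℝ E] [FiniteDimensional ℝ E]
  {M : Type} [TopologicalSpace M] [ChartedSpace E M] [IsManifold 𝓘(ℝ, E) ∞ M]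
  [T2Space M] [CompactSpace M] [Nonempty M] [Nontrivial E]

variable {g : Met E M}

theorem bimg_norev (u : UG g) (c ρ : ℝ) : ¬ ∀ s, u.1 (c + s) = u.1 (ρ - s) := by
  intro h
  obtain ⟨ε, hε, hi⟩ := (shift ((c + ρ) / 2) u).locinj
  have h1 : (shift ((c + ρ) / 2) u).1 (ε / 2) = (shift ((c + ρ) / 2) u).1 (-(ε / 2)) := by
    rw [shift_apply, shift_apply, show ε / 2 + (c + ρ) / 2 = c + (ε / 2 + (ρ - c) / 2) by ring, h]
    congr 1
    ring
  have := hi ⟨by linarith, by linarith⟩ ⟨by linarith, by linarith⟩ h1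
  linarith

theorem bimg_P (u : UG g) {a b c d : ℝ} (hcd : c < d) (h : u.1 '' Icc c d ⊆ u.1 '' Icc a b) :
    ∃ ρ ∈ Icc a b, ∀ s, u.1 (c + s) = u.1 (ρ + s) := by
  obtain ⟨r, hr, h1 | h1⟩ := (shift c u).dir (shift a u) (b - a) (d - c) (by linarith) (by
    rintro _ ⟨t, ht, rfl⟩
    obtain ⟨t', ht', e⟩ := h ⟨t + c, ⟨by linarith [ht.1], by linarith [ht.2]⟩, rfl⟩
    exact ⟨t' - a, ⟨by linarith [ht'.1], by linarith [ht'.2]⟩, by
      rw [shift_apply, shift_apply, sub_add_cancel, e]⟩)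
  · refine ⟨r + a, ⟨by linarith [hr.1], by linarith [hr.2]⟩, fun s => ?_⟩
    have := h1 s
    rw [shift_apply, shift_apply] at this
    rw [add_comm c s, this, add_right_comm]
  · refine absurd (fun s => ?_) (bimg_norev u c (r + a))
    have := h1 s
    rw [shift_apply, shift_apply] at this
    rw [add_comm c s, this, sub_add_eq_add_sub]

theorem bimg_per {f : ℝ → M} {c ρ : ℝ} (h : ∀ s, f (c + s) = f (ρ + s)) : Periodic f (ρ - c) :=
  fun x => by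
    have := h (x - c)
    rw [add_sub_cancel] at this
    rw [this]
    congr 1
    ring

theorem bimg_left (u : UG g) {a b a' b' : ℝ} (h' : a' < b') (h : u.1 '' Icc a' b' ⊆ u.1 '' Icc a b)
    (ha : a' < a) : ∃ π ∈ Ioc 0 (b - a'), Periodic u.1 π := by
  obtain ⟨ρ, hρ, e⟩ := bimg_P u h' h
  exact ⟨ρ - a', ⟨by linarith [hρ.1], by linarith [hρ.2]⟩, bimg_per e⟩

theorem bimg_right (u : UG g) {a b a' b' : ℝ} (h' : a' < b')
    (h : u.1 '' Icc a' b' ⊆ u.1 '' Icc a b) (hb : b < b') :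
    ∃ π ∈ Ioc 0 (b' - a), Periodic u.1 π := by
  obtain ⟨c, hc1, hc2⟩ := exists_between (max_lt h' hb)
  obtain ⟨ρ, hρ, e⟩ := bimg_P u hc2
    ((image_mono (Icc_subset_Icc_left ((le_max_left _ _).trans hc1.le))).trans h)
  exact ⟨c - ρ, ⟨by linarith [hρ.2, le_max_right a' b], by linarith [hρ.1]⟩,
    bimg_per fun s => (e s).symm⟩

theorem bimg_R (u : UG g) {L a b r : ℝ} (hL : 0 < L) (hab : a < b) (hr : r ∈ Icc 0 L)
    (hr' : r ∈ Icc a b) (h : u.1 '' Icc 0 L = u.1 '' Icc a b) :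
    (∃ π ∈ Ioc 0 (L + (b - a)), Periodic u.1 π) ∨ (a = 0 ∧ b = L) := by
  rcases lt_trichotomy a 0 with h1 | h1 | h1
  · obtain ⟨π, hπ, e⟩ := bimg_left u hab h.ge h1
    exact Or.inl ⟨π, ⟨hπ.1, by linarith [hπ.2, hr.1, hr'.2]⟩, e⟩
  · rcases lt_trichotomy b L with h2 | h2 | h2
    · obtain ⟨π, hπ, e⟩ := bimg_right u hL h.le h2
      exact Or.inl ⟨π, ⟨hπ.1, by linarith [hπ.2, hr.1, hr'.2]⟩, e⟩
    · exact Or.inr ⟨h1, h2⟩
    · obtain ⟨π, hπ, e⟩ := bimg_right u hab h.ge h2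
      exact Or.inl ⟨π, ⟨hπ.1, by linarith [hπ.2, hr.2, hr'.1]⟩, e⟩
  · obtain ⟨π, hπ, e⟩ := bimg_left u hL h.le h1
    exact Or.inl ⟨π, ⟨hπ.1, by linarith [hπ.2, hr.2, hr'.1]⟩, e⟩

theorem bimg_core (u u' : UG g) {L L' : ℝ} (hL : 0 < L) (hL' : 0 < L') (h0 : u.1 0 = u'.1 0)
    (him : u.1 '' Icc 0 L = u'.1 '' Icc 0 L') :
    (∃ π ∈ Ioc 0 (L + L'), Periodic u.1 π ∧ Periodic u'.1 π) ∨
      (L = L' ∧ ((∀ s, u'.1 s = u.1 s) ∨ u.1 L = u.1 0)) := by
  obtain ⟨r, hr, h1 | h1⟩ := u'.dir u L L' hL' him.ge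
  · have e : u'.1 '' Icc 0 L' = u.1 '' Icc r (r + L') := by
      rw [show (u'.1 : ℝ → M) = u.1 ∘ fun s => r + s from funext h1, image_comp,
        image_const_add_Icc, add_zero]
    rcases bimg_R u hL (by linarith) hr ⟨le_rfl, by linarith⟩ (him.trans e) with
      ⟨π, hπ, hp⟩ | ⟨h2, h3⟩
    · exact Or.inl ⟨π, ⟨hπ.1, by linarith [hπ.2]⟩, hp, fun s => by
        rw [h1, h1, ← add_assoc, hp]⟩
    · exact Or.inr ⟨by linarith, Or.inl fun s => by rw [h1, h2, zero_add]⟩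
  · have e : u'.1 '' Icc 0 L' = u.1 '' Icc (r - L') r := by
      rw [show (u'.1 : ℝ → M) = u.1 ∘ fun s => r - s from funext h1, image_comp,
        image_const_sub_Icc, sub_zero]
    rcases bimg_R u hL (by linarith) hr ⟨by linarith, le_rfl⟩ (him.trans e) with
      ⟨π, hπ, hp⟩ | ⟨h2, h3⟩
    · exact Or.inl ⟨π, ⟨hπ.1, by linarith [hπ.2]⟩, hp, fun s => by
        rw [h1, h1, ← sub_sub, hp.sub_eq]⟩
    · exact Or.inr ⟨by linarith, Or.inr (by rw [h0, h1, sub_zero, h3])⟩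

theorem bimg_scale {γ f : ℝ → M} {l : ℝ} (hl : 0 < l) (h : ∀ t, γ t = f (l * t)) :
    (∀ A, γ '' Icc 0 A = f '' Icc 0 (l * A)) ∧ ∀ π, Periodic f π → Periodic γ (π / l) := by
  refine ⟨fun A => ?_, fun π hp t => ?_⟩
  · rw [show γ = f ∘ fun s => l * s from funext h, image_comp, image_mul_left_Icc' hl, mul_zero]
  · rw [h, h, mul_add, mul_div_cancel₀ _ hl.ne', hp]

theorem bimg_geo {γ γ' : ℝ → M} (h : IsGeodesic g γ) (h' : IsGeodesic g γ')
    (he : 0 < energy g γ 0) (he' : 0 < energy g γ' 0) {A A' : ℝ} (hA : 0 < A) (hA' : 0 < A')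
    (h0 : γ 0 = γ' 0) (him : γ '' Icc 0 A = γ' '' Icc 0 A') :
    (∃ π ∈ Ioc 0 (2 * A), Periodic γ π) ∨ (∃ π ∈ Ioc 0 (2 * A'), Periodic γ' π) ∨
      (√(energy g γ 0) * A = √(energy g γ' 0) * A' ∧
        ((∀ t, γ' t = γ (√(energy g γ' 0) / √(energy g γ 0) * t)) ∨ γ A = γ 0)) := by
  obtain ⟨u, hu⟩ := exists_unit_sqrt h he
  obtain ⟨u', hu'⟩ := exists_unit_sqrt h' he'
  have hl := Real.sqrt_pos.2 he
  have hl' := Real.sqrt_pos.2 he'
  generalize √(energy g γ 0) = l at hu hl ⊢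
  generalize √(energy g γ' 0) = l' at hu' hl' ⊢
  obtain ⟨i1, p1⟩ := bimg_scale hl hu
  obtain ⟨i2, p2⟩ := bimg_scale hl' hu'
  rw [i1, i2] at him
  rw [hu, hu', mul_zero, mul_zero] at h0
  rcases bimg_core u u' (mul_pos hl hA) (mul_pos hl' hA') h0 him with
    ⟨π, hπ, q1, q2⟩ | ⟨e, h1 | h1⟩
  · rcases le_total (l' * A') (l * A) with h2 | h2
    · exact Or.inl ⟨π / l, ⟨div_pos hπ.1 hl, (div_le_iff₀ hl).2 (by linarith [hπ.2])⟩, p1 π q1⟩
    · exact Or.inr (Or.inl ⟨π / l', ⟨div_pos hπ.1 hl', (div_le_iff₀ hl').2 (by linarith [hπ.2])⟩,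
        p2 π q2⟩)
  · exact Or.inr (Or.inr ⟨e, Or.inl fun t => by
      rw [hu, hu', h1, ← mul_assoc, mul_div_cancel₀ _ hl.ne']⟩)
  · exact Or.inr (Or.inr ⟨e, Or.inr (by rw [hu, hu, mul_zero, h1])⟩)

theorem per_of_image {γ γ' : ℝ → M} (h : IsGeodesic g γ) (h' : IsGeodesic g γ')
    (he : 0 < energy g γ 0) (he' : 0 < energy g γ' 0) {A A' : ℝ} (hA : 0 < A) (hA' : 0 < A')
    (h0 : γ 0 = γ' 0) (hne : γ A ≠ γ 0) (him : γ '' Icc 0 A = γ' '' Icc 0 A') :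
    (∃ π ∈ Ioc 0 (2 * A), Periodic γ π) ∨ (∃ π ∈ Ioc 0 (2 * A'), Periodic γ' π) ∨
      ∃ l > 0, (∀ t, γ' t = γ (l * t)) ∧ l * A' = A ∧
        l * √(energy g γ 0) = √(energy g γ' 0) := by
  have hl := Real.sqrt_pos.2 he
  have hl' := Real.sqrt_pos.2 he'
  rcases bimg_geo h h' he he' hA hA' h0 him with h1 | h1 | ⟨e, h1 | h1⟩
  · exact Or.inl h1
  · exact Or.inr (Or.inl h1)
  · refine Or.inr (Or.inr ⟨_, div_pos hl' hl, h1, ?_, div_mul_cancel₀ _ hl.ne'⟩)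
    rw [div_mul_eq_mul_div, ← e, mul_div_cancel_left₀ _ hl.ne']
  · exact absurd h1 hne

theorem per_of_finite {p q : M}
    (hS : ∀ T : ℝ, ∃ γ, IsGeodesic g γ ∧ γ 0 = p ∧ γ 1 = q ∧ T < energy g γ 0)
    (h : (images g (p, q)).Finite) :
    ∃ γ, IsGeodesic g γ ∧ γ 0 = p ∧ γ 1 = q ∧ 0 < energy g γ 0 ∧ ∃ π > 0, Periodic γ π := by
  choose F h1 h2 h3 h4 using hS
  obtain ⟨T, T0, Ts⟩ : ∃ T : ℕ → ℝ, T 0 = 0 ∧ ∀ n, T (n + 1) = energy g (F (T n)) 0 :=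
    ⟨fun n => Nat.rec 0 (fun _ t => energy g (F t) 0) n, rfl, fun _ => rfl⟩
  have hm : StrictMono T := strictMono_nat_of_lt_succ fun n => (Ts n).symm ▸ h4 (T n)
  have hp : ∀ n, 0 < energy g (F (T n)) 0 := fun n => by
    rw [← Ts, ← T0]
    exact hm (Nat.succ_pos n)
  obtain ⟨n, -, m, -, hnm, e⟩ := Set.infinite_univ.exists_ne_map_eq_of_mapsTo
    (f := fun n : ℕ => F (T n) '' Icc 0 1) (t := images g (p, q)) (fun n _ => ⟨F (T n), h1 _,
      exists_ne_of_energy (h1 _) (hp n) one_pos, h2 _, h3 _, rfl⟩) h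
  rcases bimg_geo (h1 _) (h1 _) (hp n) (hp m) one_pos one_pos ((h2 _).trans (h2 _).symm) e with
    ⟨π, hπ, q⟩ | ⟨π, hπ, q⟩ | ⟨e', -⟩
  · exact ⟨_, h1 _, h2 _, h3 _, hp n, π, hπ.1, q⟩
  · exact ⟨_, h1 _, h2 _, h3 _, hp m, π, hπ.1, q⟩
  · rw [mul_one, mul_one, Real.sqrt_inj (hp n).le (hp m).le, ← Ts, ← Ts] at e'
    exact absurd (Nat.succ_injective (hm.injective e')) hnm

theorem ug_conn [ConnectedSpace M] (hE : 2 ≤ Module.finrank ℝ E) (g : Met E M) :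
    PreconnectedSpace (UG g) := by
  have hc : Continuous fun u : UG g => u.1 0 :=
    (ev_cont g).comp (continuous_id.prodMk continuous_const)
  have hq : IsQuotientMap fun u : UG g => u.1 0 :=
    hc.isClosedMap.isQuotientMap hc fun p => fib_ne g p
  refine preconnectedSpace_iff_connectedComponent.2 fun u => ?_
  rw [← hq.preimage_connectedComponent (fun p => ⟨fib_ne g p, fib_conn hE g p⟩) u,
    PreconnectedSpace.connectedComponent_eq_univ, preimage_univ]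

theorem per_closed (g : Met E M) (τ : ℝ) : IsClosed {u : UG g | Periodic u.1 τ} := by
  have e : {u : UG g | Periodic u.1 τ} = ⋂ t : ℝ, {u : UG g | u.1 (t + τ) = u.1 t} := by
    ext u
    simp only [mem_iInter]
    rfl
  rw [e]
  exact isClosed_iInter fun t => isClosed_eq
    ((ev_cont g).comp (continuous_id.prodMk continuous_const))
    ((ev_cont g).comp (continuous_id.prodMk continuous_const))

end Pool.Agent.GeoN
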