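import Mathlib
import Pool.Agent.P.MP_365c00_gt.BGam
import Pool.Agent.P.MP_365c00_gt.BImg

/-! TASK BCount: many geometrically distinct geodesics. -/

set_option linter.unusedSectionVars false
set_option linter.unusedVariables false

open Set Filter Topology Metric Function
open scoped Manifold ContDiff

namespace Pool.Agent.GeoN

variable {E : Type} [NormedAddCommGroup E] [InnerProductSpace ℝ E] [FiniteDimensional ℝ E]
  {M : Type} [TopologicalSpace M] [ChartedSpace E M] [IsManifold 𝓘(ℝ, E) ∞ M]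
  [T2Space M] [CompactSpace M] [Nonempty M] [Nontrivial E]

variable {g : Met E M} {sh : Short g} {x : M} {w0 : E × E} {τ : ℝ}

/-- the total return time -/
noncomputable def Box.cnT (b : Box sh x w0 τ) (y : E × E) (j : ℕ) : ℝ :=
  ∑ i ∈ Finset.range j, b.T (b.f^[i] y)

theorem Box.cnT_succ (b : Box sh x w0 τ) (y : E × E) (j : ℕ) :
    b.cnT y (j + 1) = b.cnT y j + b.T (b.f^[j] y) := Finset.sum_range_succ _ _

theorem Box.cn_Γ (b : Box sh x w0 τ) {K : ℕ} {y : E × E} (ho : ∀ j ≤ K, b.f^[j] y ∈ ball w0 b.r)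
    {j : ℕ} (hj : j ≤ K) (t : ℝ) : sh.Γ x (b.f^[j] y) t = sh.Γ x y (t + b.cnT y j) := by
  induction j generalizing t with
  | zero => simp [Box.cnT]
  | succ j ih =>
    rw [iterate_succ_apply', b.Γ_f (ho j (by omega)), ih (by omega), b.cnT_succ]
    congr 1
    ring

theorem Box.cn_lev (b : Box sh x w0 τ) {K : ℕ} {y : E × E} (ho : ∀ j ≤ K, b.f^[j] y ∈ ball w0 b.r)
    {j : ℕ} (hj : j ≤ K) : b.l (b.f^[j] y).1 = b.l y.1 := by
  induction j with
  | zero => rfl
  | succ j ih => rw [iterate_succ_apply', b.lev _ (ho j (by omega)), ih (by omega)]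

theorem Box.cn_bd (b : Box sh x w0 τ) {K : ℕ} {y : E × E} (ho : ∀ j ≤ K, b.f^[j] y ∈ ball w0 b.r)
    {j : ℕ} (hj : j ≤ K) : 0 ≤ b.cnT y j ∧ b.cnT y j ≤ j * (τ + 1) := by
  induction j with
  | zero => simp [Box.cnT]
  | succ j ih =>
    have h1 := abs_lt.1 (b.T_near _ (ho j (by omega)))
    have h2 := ih (by omega)
    have := b.θ_pos
    have := b.θ_le
    have := b.θ_τ
    rw [b.cnT_succ]
    push_cast
    constructor
    · linarith
    · linarith

theorem Box.cn_lt (b : Box sh x w0 τ) {K : ℕ} {y : E × E} (ho : ∀ j ≤ K, b.f^[j] y ∈ ball w0 b.r)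
    {j j' : ℕ} (h : j < j') (hj : j' ≤ K) : b.cnT y j + (τ - b.θ) ≤ b.cnT y j' := by
  induction j', h using Nat.le_induction with
  | base =>
    have h1 := abs_lt.1 (b.T_near _ (ho j (by omega)))
    rw [b.cnT_succ]
    linarith
  | succ i hi ih =>
    have h1 := abs_lt.1 (b.T_near _ (ho i (by omega)))
    have h2 := ih (by omega)
    have := b.θ_pos
    have := b.θ_τ
    rw [b.cnT_succ]
    linarith

/-- a shift smaller than the gap between two points of the same level vanishes -/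
theorem Box.cn_gap (b : Box sh x w0 τ) {z z' : E × E} (hz : z ∈ ball w0 b.r)
    (hz' : z' ∈ ball w0 b.r) (hl : b.l z'.1 = b.l z.1) {s : ℝ} (hs : |s| < b.c)
    (h : sh.Γ x z' 0 = sh.Γ x z s) : s = 0 := by
  refine b.gap z hz s hs ?_
  rw [← h, Short.Γ_zero (b.sub hz'), (κ E x).right_inv (b.sub hz').1, hl]

theorem Box.cn_per (b : Box sh x w0 τ) {K : ℕ} {y : E × E} (ho : ∀ j ≤ K, b.f^[j] y ∈ ball w0 b.r)
    (h3 : ∀ j j', j < j' → j' ≤ K → b.f^[j] y ≠ b.f^[j'] y) {p : ℝ} (hp : 0 < p)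
    (hK : p < b.c * K) : ¬ Periodic (sh.Γ x y) p := by
  intro hper
  have hK0 : (0 : ℝ) < K := by
    rcases Nat.eq_zero_or_pos K with rfl | h
    · simp at hK
      linarith
    · exact_mod_cast h
  obtain ⟨j, hj, j', hj', hne, he⟩ := Finset.exists_ne_map_eq_of_card_lt_of_maps_to
    (s := Finset.range (K + 1)) (t := Finset.range K) (by simp)
    (f := fun j => ⌊(K : ℝ) * Int.fract (b.cnT y j / p)⌋₊) (fun j _ => by
      rw [Finset.mem_coe, Finset.mem_range, Nat.floor_lt (mul_nonneg hK0.le (Int.fract_nonneg _))]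
      exact mul_lt_of_lt_one_right hK0 (Int.fract_lt_one _))
  rw [Finset.mem_range, Nat.lt_succ_iff] at hj hj'
  have a1 := Nat.floor_le (mul_nonneg hK0.le (Int.fract_nonneg (b.cnT y j / p)))
  have a2 := Nat.lt_floor_add_one ((K : ℝ) * Int.fract (b.cnT y j / p))
  have a3 := Nat.floor_le (mul_nonneg hK0.le (Int.fract_nonneg (b.cnT y j' / p)))
  have a4 := Nat.lt_floor_add_one ((K : ℝ) * Int.fract (b.cnT y j' / p))
  rw [he] at a1 a2
  have e1 := Int.floor_add_fract (b.cnT y j / p)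
  have e2 := Int.floor_add_fract (b.cnT y j' / p)
  generalize Int.fract (b.cnT y j / p) = u at a1 a2 e1
  generalize Int.fract (b.cnT y j' / p) = u' at a1 a2 a3 a4 e2
  generalize ⌊b.cnT y j / p⌋ = n at e1
  generalize ⌊b.cnT y j' / p⌋ = n' at e2
  rw [eq_div_iff hp.ne'] at e1 e2
  have hs : |p * (u' - u)| < b.c := by
    have h1 : |(K : ℝ) * (u' - u)| < 1 := by
      rw [abs_lt]
      constructor
      · linarith
      · linarith
    rw [abs_mul, abs_of_pos hK0] at h1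
    rw [abs_mul, abs_of_pos hp]
    have h2 := abs_nonneg (u' - u)
    have h4 := b.c_pos
    nlinarith
  have key : ∀ t, sh.Γ x (b.f^[j'] y) t = sh.Γ x (b.f^[j] y) (t + p * (u' - u)) := by
    intro t
    rw [b.cn_Γ ho hj, b.cn_Γ ho hj', ← (hper.int_mul (n' - n)) (t + p * (u' - u) + b.cnT y j)]
    congr 1
    push_cast
    linarith
  have h0 := b.cn_gap (ho j hj) (ho j' hj') ((b.cn_lev ho hj').trans (b.cn_lev ho hj).symm) hs
    (by rw [key, zero_add])
  have h5 : b.f^[j'] y = b.f^[j] y := Short.Γ_inj (b.sub (ho j' hj')) (b.sub (ho j hj))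
    (funext fun t => by rw [key, h0, add_zero])
  rcases lt_or_gt_of_ne hne with h | h
  · exact h3 j j' h hj' h5.symm
  · exact h3 j' j h hj h5

theorem Box.cn_scale (b : Box sh x w0 τ) {K : ℕ} {y y' : E × E}
    (ho : ∀ j ≤ K, b.f^[j] y ∈ ball w0 b.r) (ho' : ∀ j ≤ K, b.f^[j] y' ∈ ball w0 b.r)
    (h1 : y'.1 = y.1) {l : ℝ} (hl : |l - 1| ≤ b.θ) (h : ∀ t, sh.Γ x y' t = sh.Γ x y (l * t))
    {j : ℕ} (hj : j ≤ K) : l * b.cnT y' j = b.cnT y j := by
  induction j with
  | zero => simp [Box.cnT]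
  | succ j ih =>
    have ih := ih (by omega)
    have a1 := abs_lt.1 (b.T_near _ (ho j (by omega)))
    have a2 := abs_lt.1 (b.T_near _ (ho' j (by omega)))
    have a3 := abs_le.1 hl
    have := b.θ_pos
    have := b.θ_le
    have := b.θ_τ
    have := b.θ_c
    have hs : |l * b.T (b.f^[j] y') - b.T (b.f^[j] y)| < b.c := by
      rw [abs_lt]
      constructor
      · nlinarith
      · nlinarith
    have h0 := b.cn_gap (ho _ hj) (ho' _ hj)
      (by rw [b.cn_lev ho hj, b.cn_lev ho' hj, h1]) hs (by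
        rw [b.cn_Γ ho hj, b.cn_Γ ho' hj, h, b.cnT_succ, b.cnT_succ]
        congr 1
        linarith)
    rw [b.cnT_succ, b.cnT_succ]
    linarith

theorem Box.count (b : Box sh x w0 τ) {K K' : ℕ} {w : E × E} (hw : w ∈ ball w0 b.r)
    (y : ℕ → E × E) (h1 : ∀ k ≤ K', (y k).1 = w.1 ∧ (b.f^[k] (y k)).2 = w.2)
    (h2 : ∀ k ≤ K', ∀ j ≤ K, b.f^[j] (y k) ∈ ball w0 b.r)
    (h3 : ∀ k ≤ K', ∀ j j', j < j' → j' ≤ K → b.f^[j] (y k) ≠ b.f^[j'] (y k))
    (hK' : K' ≤ K) (hK : 2 * (K' * (τ + 1) + 1) < b.c * K) :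
    ((K' + 1 : ℕ) : ENNReal) ≤ num g x x w := by
  have hV := b.sub hw
  have h0 : ∀ k ≤ K', y k ∈ ball w0 b.r := fun k hk => h2 k hk 0 (Nat.zero_le _)
  have e0 : ∀ k ≤ K', sh.Γ x (y k) 0 = (κ E x).symm w.1 := fun k hk => by
    rw [Short.Γ_zero (b.sub (h0 k hk)), (h1 k hk).1]
  have e1 : ∀ k ≤ K', sh.Γ x (y k) (1 + b.cnT (y k) k) = (κ E x).symm w.2 := fun k hk => by
    rw [← b.cn_Γ (h2 k hk) (hk.trans hK'), Short.Γ_one (b.sub (h2 k hk k (hk.trans hK'))),
      (h1 k hk).2]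
  have hne : (κ E x).symm w.2 ≠ (κ E x).symm w.1 := fun h =>
    hV.2.2.2 ((κ E x).symm.injOn hV.2.1 hV.1 h).symm
  have hA : ∀ k ≤ K', 0 < 1 + b.cnT (y k) k ∧ 2 * (1 + b.cnT (y k) k) < b.c * K := fun k hk => by
    have a1 := b.cn_bd (h2 k hk) (hk.trans hK')
    have a2 : (k : ℝ) ≤ K' := by exact_mod_cast hk
    have := b.θ_pos
    have := b.θ_τ
    constructor
    · linarith
    · nlinarith
  have hmem : ∀ k ≤ K', sh.Γ x (y k) '' Icc 0 (1 + b.cnT (y k) k) ∈
      images g ((κ E x).symm w.1, (κ E x).symm w.2) := fun k hk => by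
    refine ⟨_, (Short.Γ_geo (b.sub (h0 k hk))).affine (1 + b.cnT (y k) k) 0,
      ⟨1, ⟨zero_le_one, le_rfl⟩, ?_⟩, ?_, ?_, ?_⟩
    · rw [mul_one, mul_zero, add_zero, add_zero, e0 k hk, e1 k hk]
      exact hne
    · rw [mul_zero, add_zero, e0 k hk]
    · rw [mul_one, add_zero, e1 k hk]
    · have hp := (hA k hk).1
      ext z
      constructor
      · rintro ⟨t, ht, rfl⟩
        refine ⟨t / (1 + b.cnT (y k) k), ⟨div_nonneg ht.1 hp.le, (div_le_one hp).2 ht.2⟩, ?_⟩
        show sh.Γ x (y k) _ = _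
        rw [mul_div_cancel₀ _ hp.ne', add_zero]
      · rintro ⟨t, ht, rfl⟩
        exact ⟨_, ⟨by nlinarith [ht.1], by nlinarith [ht.2]⟩, rfl⟩
  have hinj : InjOn (fun k => sh.Γ x (y k) '' Icc 0 (1 + b.cnT (y k) k))
      (Finset.range (K' + 1) : Set ℕ) := by
    intro k hk k' hk' him
    rw [Finset.mem_coe, Finset.mem_range, Nat.lt_succ_iff] at hk hk'
    by_contra hkk
    have hp := Short.Γ_pos (b.sub (h0 k hk))
    rcases per_of_image (Short.Γ_geo (b.sub (h0 k hk))) (Short.Γ_geo (b.sub (h0 k' hk'))) hp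
      (Short.Γ_pos (b.sub (h0 k' hk'))) (hA k hk).1 (hA k' hk').1 ((e0 k hk).trans (e0 k' hk').symm)
      (by rw [e0 k hk, e1 k hk]; exact hne) him with ⟨p, h, hper⟩ | ⟨p, h, hper⟩ | ⟨l, -, a1, a2, a3⟩
    · exact b.cn_per (h2 k hk) (h3 k hk) h.1 (h.2.trans_lt (hA k hk).2) hper
    · exact b.cn_per (h2 k' hk') (h3 k' hk') h.1 (h.2.trans_lt (hA k' hk').2) hper
    · have hl : |l - 1| ≤ b.θ := by
        have a4 := b.speed _ (h0 k hk) _ (h0 k' hk')
        have a5 := Real.sqrt_pos.2 hp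
        rw [← a3, ← sub_one_mul, abs_mul, abs_of_pos a5] at a4
        exact le_of_mul_le_mul_right a4 a5
      have a6 := b.cn_scale (h2 k hk) (h2 k' hk') ((h1 k' hk').1.trans (h1 k hk).1.symm) hl a1
        (hk'.trans hK')
      have a7 := abs_le.1 hl
      have := b.θ_pos
      have := b.θ_τ
      rcases lt_or_gt_of_ne hkk with h | h
      · have := b.cn_lt (h2 k hk) h (hk'.trans hK')
        linarith
      · have := b.cn_lt (h2 k hk) h (hk.trans hK')
        linarith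
  have hle : ((K' + 1 : ℕ) : ℕ∞) ≤ (images g ((κ E x).symm w.1, (κ E x).symm w.2)).encard := by
    have := Set.encard_le_encard_of_injOn (fun k hk => hmem k (by
      rwa [Finset.mem_coe, Finset.mem_range, Nat.lt_succ_iff] at hk)) hinj
    rwa [Set.encard_coe_eq_coe_finsetCard, Finset.card_range] at this
  rw [num, ← ENat.toENNReal_coe]
  exact ENat.toENNReal_le.2 hle

end Pool.Agent.GeoN
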