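import Mathlib

/-! TASK BDef: an abstract deformation lemma (no geometry). -/

open Set Filter Topology Function

namespace Pool.Agent.GeoN

theorem bdef_local {Z : Type} [TopologicalSpace Z] [CompactSpace Z] [T2Space Z] (f : C(Z, ℝ))
    {z : Z} {N : Set Z} (hN : N ∈ 𝓝 z) {m : Z × ℝ → Z} (hm : ContinuousOn m (N ×ˢ Icc 0 1))
    (h : ∀ y ∈ N, m (y, 0) = y ∧ ∀ s ∈ Ioc (0 : ℝ) 1, f (m (y, s)) < f y) :
    ∃ t ∈ 𝓝 z, ∃ P : C(Z, Z), P.Homotopic (ContinuousMap.id Z) ∧
      (∀ y, P y = y ∨ f (P y) < f y) ∧ ∀ y ∈ t, f (P y) < f y := by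
  classical
  obtain ⟨F, hF, hFc, hFN⟩ := exists_mem_nhds_isClosed_subset (interior_mem_nhds.2 hN)
  obtain ⟨ρ, h0, h1, h01⟩ := exists_continuous_zero_one_of_isClosed
    (isOpen_interior (s := F)).isClosed_compl (isClosed_singleton (x := z))
    (disjoint_singleton_right.2 fun hz => hz (mem_interior_iff_mem_nhds.2 hF))
  have hρ : ∀ y, y ∉ F → ρ y = 0 := fun y hy => h0 fun h' => hy (interior_subset h')
  obtain ⟨Q, hQ⟩ : ∃ Q : unitInterval × Z → Z,
      ∀ p, Q p = if p.2 ∈ N then m (p.2, p.1 * ρ p.2) else p.2 := ⟨_, fun _ => rfl⟩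
  have hQc : Continuous Q := by
    rw [continuous_iff_continuousAt]
    intro p
    by_cases hp : p.2 ∈ F
    · have ho : IsOpen {q : unitInterval × Z | q.2 ∈ interior N} :=
        isOpen_interior.preimage continuous_snd
      refine ContinuousOn.continuousAt ?_ (ho.mem_nhds (hFN hp))
      have hc : ContinuousOn (fun q : unitInterval × Z => m (q.2, q.1 * ρ q.2))
          {q : unitInterval × Z | q.2 ∈ interior N} := by
        refine hm.comp (Continuous.continuousOn (by fun_prop)) fun q hq => ?_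
        exact ⟨interior_subset hq, mul_nonneg q.1.2.1 (h01 _).1,
          mul_le_one₀ q.1.2.2 (h01 _).1 (h01 _).2⟩
      exact hc.congr fun q hq => by rw [hQ, if_pos (interior_subset hq)]
    · have ho : IsOpen {q : unitInterval × Z | q.2 ∈ Fᶜ} :=
        hFc.isOpen_compl.preimage continuous_snd
      refine continuousAt_snd.congr ?_
      filter_upwards [ho.mem_nhds hp] with q hq
      rw [hQ]
      split_ifs with hq'
      · rw [hρ _ hq, mul_zero, (h _ hq').1]
      · rfl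
  have hlt : ∀ y, 0 < ρ y → f (Q (1, y)) < f y := fun y hy => by
    have hyN : y ∈ N := by
      by_contra hn
      exact hy.ne' (hρ y fun h' => hn (interior_subset (hFN h')))
    rw [hQ, if_pos hyN]
    refine (h y hyN).2 _ ?_
    simp only [Icc.coe_one, one_mul]
    exact ⟨hy, (h01 y).2⟩
  refine ⟨{y | 0 < ρ y}, (isOpen_lt continuous_const ρ.continuous).mem_nhds ?_,
    ⟨fun y => Q (1, y), by fun_prop⟩, ContinuousMap.Homotopic.symm ⟨⟨⟨Q, hQc⟩, fun y => ?_,
      fun _ => rfl⟩⟩, fun y => ?_, hlt⟩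
  · have : ρ z = 1 := h1 rfl
    change 0 < ρ z
    rw [this]
    exact one_pos
  · change Q (0, y) = y
    rw [hQ]
    split_ifs with hy
    · simp only [Icc.coe_zero, zero_mul]
      exact (h y hy).1
    · rfl
  · rcases (h01 y).1.eq_or_lt with h2 | h2
    · left
      change Q (1, y) = y
      rw [hQ]
      split_ifs with hy
      · rw [← h2, mul_zero]
        exact (h y hy).1
      · rfl
    · exact Or.inr (hlt y h2)

theorem deform {Z : Type} [TopologicalSpace Z] [CompactSpace Z] [T2Space Z] (f : C(Z, ℝ)) (b : ℝ)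
    (h : ∀ z, b ≤ f z → ∃ N ∈ 𝓝 z, ∃ m : Z × ℝ → Z, ContinuousOn m (N ×ˢ Icc 0 1) ∧
      ∀ y ∈ N, m (y, 0) = y ∧ ∀ s ∈ Ioc (0 : ℝ) 1, f (m (y, s)) < f y) :
    ∃ Ψ : C(Z, Z), Ψ.Homotopic (ContinuousMap.id Z) ∧ ∀ z, f (Ψ z) ≤ b := by
  have hK : IsCompact {z | b ≤ f z} := (isClosed_le continuous_const f.continuous).isCompact
  have hcomp : ∀ P P' : C(Z, Z), P.Homotopic (ContinuousMap.id Z) →
      P'.Homotopic (ContinuousMap.id Z) → (P'.comp P).Homotopic (ContinuousMap.id Z) :=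
    fun P P' h1 h2 => ContinuousMap.Homotopic.comp h2 h1
  obtain ⟨P, hP, hle, hlt⟩ : ∃ P : C(Z, Z), P.Homotopic (ContinuousMap.id Z) ∧
      (∀ y, P y = y ∨ f (P y) < f y) ∧ ∀ y ∈ {z | b ≤ f z}, f (P y) < f y := by
    refine hK.induction_on (p := fun t => ∃ P : C(Z, Z), P.Homotopic (ContinuousMap.id Z) ∧
      (∀ y, P y = y ∨ f (P y) < f y) ∧ ∀ y ∈ t, f (P y) < f y) ?_ ?_ ?_ ?_
    · exact ⟨ContinuousMap.id Z, .refl _, fun _ => Or.inl rfl, fun _ h' => h'.elim⟩
    · rintro s t hst ⟨P, h1, h2, h3⟩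
      exact ⟨P, h1, h2, fun y hy => h3 y (hst hy)⟩
    · rintro s t ⟨P, h1, h2, h3⟩ ⟨P', h1', h2', h3'⟩
      have hle' : ∀ y, f (P' y) ≤ f y := fun y => (h2' y).elim (fun e => by rw [e]) le_of_lt
      refine ⟨P'.comp P, hcomp _ _ h1 h1', fun y => ?_, fun y hy => ?_⟩
      · rw [ContinuousMap.comp_apply]
        rcases h2 y with e | e
        · rw [e]
          exact h2' y
        · exact Or.inr ((hle' _).trans_lt e)
      · rw [ContinuousMap.comp_apply]
        rcases hy with hy | hy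
        · exact (hle' _).trans_lt (h3 y hy)
        · rcases h2 y with e | e
          · rw [e]
            exact h3' y hy
          · exact (hle' _).trans_lt e
    · intro z hz
      obtain ⟨N, hN, m, hm, hm'⟩ := h z hz
      obtain ⟨t, ht, hP⟩ := bdef_local f hN hm hm'
      exact ⟨t, mem_nhdsWithin_of_mem_nhds ht, hP⟩
  have hle' : ∀ y, f (P y) ≤ f y := fun y => (hle y).elim (fun e => by rw [e]) le_of_lt
  obtain ⟨η, hη, hη'⟩ : ∃ η : ℝ, 0 < η ∧ ∀ y ∈ {z | b ≤ f z}, η ≤ f y - f (P y) :=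
    hK.exists_forall_le' (f := fun y => f y - f (P y)) (Continuous.continuousOn (by fun_prop))
      fun y hy => sub_pos.2 (hlt y hy)
  obtain ⟨M, hM⟩ := (isCompact_range f.continuous).bddAbove
  have key : ∀ n : ℕ, ∃ Ψ : C(Z, Z), Ψ.Homotopic (ContinuousMap.id Z) ∧
      ∀ z, f (Ψ z) ≤ b ∨ f (Ψ z) ≤ M - n * η := by
    intro n
    induction n with
    | zero =>
      refine ⟨ContinuousMap.id Z, .refl _, fun z => Or.inr ?_⟩
      rw [Nat.cast_zero, zero_mul, sub_zero]
      exact hM ⟨z, rfl⟩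
    | succ n ih =>
      obtain ⟨Ψ, h1, h2⟩ := ih
      refine ⟨P.comp Ψ, hcomp _ _ h1 hP, fun z => ?_⟩
      rw [ContinuousMap.comp_apply]
      rcases le_total (f (Ψ z)) b with h3 | h3
      · exact Or.inl ((hle' _).trans h3)
      · rcases h2 z with h4 | h4
        · exact Or.inl ((hle' _).trans h4)
        · have := hη' _ h3
          right
          push_cast
          linarith
  obtain ⟨n, hn⟩ := exists_nat_ge ((M - b) / η)
  rw [div_le_iff₀ hη] at hn
  obtain ⟨Ψ, h1, h2⟩ := key n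
  exact ⟨Ψ, h1, fun z => (h2 z).elim id fun h3 => by linarith⟩

end Pool.Agent.GeoN
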