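import Mathlib
import Pool.Agent.P.MP_365c00_gt.BBrk

/-! TASK BMove: a broken geodesic which is not a geodesic can be shortened. -/

set_option linter.unusedSectionVars false
set_option linter.unusedVariables false

open Set Filter Topology Metric Function
open scoped Manifold ContDiff

namespace Pool.Agent.GeoN

variable {E : Type} [NormedAddCommGroup E] [InnerProductSpace ℝ E] [FiniteDimensional ℝ E]
  {M : Type} [TopologicalSpace M] [ChartedSpace E M] [IsManifold 𝓘(ℝ, E) ∞ M]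
  [T2Space M] [CompactSpace M] [Nonempty M] [Nontrivial E]

variable {g : Met E M} (sh : Short g) (p q : M) {k : ℕ}

theorem bm_open {X : Type} [TopologicalSpace X] {s t : Set X} (h : s = t) :
    IsOpen s ↔ IsOpen t := h ▸ Iff.rfl

theorem bm_desc {P : Type} [NormedAddCommGroup P] [NormedSpace ℝ P] {Φ : P → ℝ} {v0 u : P}
    (hΦ : ContDiffAt ℝ 1 Φ v0) (hd : fderiv ℝ Φ v0 u < 0) {Q : P → Prop} (hQ : ∀ᶠ v in 𝓝 v0, Q v) :
    ∃ η : ℝ, ∀ᶠ v in 𝓝 v0, ∀ s ∈ Icc (0 : ℝ) 1, Q (v + s • η • u) ∧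
      (0 < s → Φ (v + s • η • u) < Φ v) := by
  have h1 : ∀ᶠ v in 𝓝 v0, fderiv ℝ Φ v u < 0 :=
    ((hΦ.continuousAt_fderiv (by simp)).clm_apply continuousAt_const).eventually_lt
      continuousAt_const hd
  obtain ⟨r, hr, h2⟩ := Metric.eventually_nhds_iff_ball.1
    (hQ.and (h1.and (hΦ.eventually (by simp))))
  have hη : 0 < r / 2 / (‖u‖ + 1) := by positivity
  refine ⟨r / 2 / (‖u‖ + 1), ?_⟩
  filter_upwards [ball_mem_nhds v0 (half_pos hr)] with v hv
  have h3 : ∀ s ∈ Icc (0 : ℝ) 1, v + s • (r / 2 / (‖u‖ + 1)) • u ∈ ball v0 r := fun s hs => by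
    have : ‖s • (r / 2 / (‖u‖ + 1)) • u‖ ≤ r / 2 := by
      rw [norm_smul, norm_smul, Real.norm_of_nonneg hs.1, Real.norm_of_nonneg hη.le]
      refine (mul_le_of_le_one_left (by positivity) hs.2).trans ?_
      rw [div_mul_eq_mul_div, div_le_iff₀ (by positivity)]
      nlinarith
    have := dist_triangle (v + s • (r / 2 / (‖u‖ + 1)) • u) v v0
    rw [dist_self_add_left] at this
    rw [mem_ball] at hv ⊢
    linarith
  have h4 : ∀ s ∈ Icc (0 : ℝ) 1, HasDerivAt (fun s : ℝ => Φ (v + s • (r / 2 / (‖u‖ + 1)) • u))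
      (r / 2 / (‖u‖ + 1) * fderiv ℝ Φ (v + s • (r / 2 / (‖u‖ + 1)) • u) u) s := fun s hs => by
    have := ((h2 _ (h3 s hs)).2.2.differentiableAt (by simp)).hasFDerivAt.comp_hasDerivAt s
      (((hasDerivAt_id s).smul_const ((r / 2 / (‖u‖ + 1)) • u)).const_add v)
    rwa [one_smul, map_smul] at this
  refine fun s hs => ⟨(h2 _ (h3 s hs)).1, fun h0 => ?_⟩
  have := strictAntiOn_of_deriv_neg (convex_Icc (0 : ℝ) 1)
    (fun s hs => (h4 s hs).continuousAt.continuousWithinAt) (fun s hs => by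
      rw [(h4 s (interior_subset hs)).deriv]
      exact mul_neg_of_pos_of_neg hη (h2 _ (h3 s (interior_subset hs))).2.1)
    (left_mem_Icc.2 zero_le_one) hs h0
  simpa using this

theorem bm_pair {x y : M} (h : (x, y) ∈ sh.D) :
    (∀ᶠ w : E × E in 𝓝 (κ E x x, κ E y y), w.1 ∈ (κ E x).target ∧ w.2 ∈ (κ E y).target ∧
      ((κ E x).symm w.1, (κ E y).symm w.2) ∈ sh.D) ∧
    ContDiffAt ℝ ∞ (fun w : E × E => sh.S ((κ E x).symm w.1, (κ E y).symm w.2)) (κ E x x, κ E y y) ∧
    ∀ ξ : E × E, fderiv ℝ (fun w : E × E => sh.S ((κ E x).symm w.1, (κ E y).symm w.2))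
      (κ E x x, κ E y y) ξ = 2 * G g y (κ E y y) (vel E y (sh.σ (x, y)) 1) ξ.2 -
        2 * G g x (κ E x x) (vel E x (sh.σ (x, y)) 0) ξ.1 := by
  have ho : IsOpen {w : E × E | w.1 ∈ (κ E x).target ∧ w.2 ∈ (κ E y).target ∧
      ((κ E x).symm w.1, (κ E y).symm w.2) ∈ sh.D} := by
    have := (((continuousOn_extChartAt_symm (I := 𝓘(ℝ, E)) x).prodMap
      (continuousOn_extChartAt_symm (I := 𝓘(ℝ, E)) y)).isOpen_inter_preimage
      ((target_open x).prod (target_open y)) sh.D_open)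
    exact (bm_open (Set.ext fun w => and_assoc.symm)).2 this
  have e : ((κ E x).symm (κ E x x), (κ E y).symm (κ E y y)) = (x, y) := by
    rw [extChartAt_to_inv, extChartAt_to_inv]
  have hz : (κ E x x, κ E y y) ∈ {w : E × E | w.1 ∈ (κ E x).target ∧ w.2 ∈ (κ E y).target ∧
      ((κ E x).symm w.1, (κ E y).symm w.2) ∈ sh.D} :=
    ⟨mem_extChartAt_target x, mem_extChartAt_target y, e ▸ h⟩
  have hg := fun w (hw : w ∈ {w : E × E | w.1 ∈ (κ E x).target ∧ w.2 ∈ (κ E y).target ∧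
      ((κ E x).symm w.1, (κ E y).symm w.2) ∈ sh.D}) => sh.geo _ hw.2.2
  have hs := fun w (hw : w ∈ {w : E × E | w.1 ∈ (κ E x).target ∧ w.2 ∈ (κ E y).target ∧
      ((κ E x).symm w.1, (κ E y).symm w.2) ∈ sh.D}) => sh.smooth x y w hw.1 hw.2.1 hw.2.2
  refine ⟨ho.mem_nhds hz, energy_smooth ho hg hs hz, fun ξ => ?_⟩
  have := first_variation ho hg hs hz ξ (t := 0) (t' := 1) (x := x) (x' := y)
    (by simp only [e, sh.zero _ h]; exact mem_extChartAt_source x)
    (by simp only [e, sh.one _ h]; exact mem_extChartAt_source y)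
  have e0 : (fun w : E × E => κ E x (sh.σ ((κ E x).symm w.1, (κ E y).symm w.2) 0)) =ᶠ[𝓝
      (κ E x x, κ E y y)] Prod.fst := by
    filter_upwards [ho.mem_nhds hz] with w hw
    rw [sh.zero _ hw.2.2, (κ E x).right_inv hw.1]
  have e1 : (fun w : E × E => κ E y (sh.σ ((κ E x).symm w.1, (κ E y).symm w.2) 1)) =ᶠ[𝓝
      (κ E x x, κ E y y)] Prod.snd := by
    filter_upwards [ho.mem_nhds hz] with w hw
    rw [sh.one _ hw.2.2, (κ E y).right_inv hw.2.1]
  rw [e0.fderiv_eq, e1.fderiv_eq, fderiv_fst, fderiv_snd] at this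
  simp only [e, sh.zero _ h, sh.one _ h, ContinuousLinearMap.coe_fst', ContinuousLinearMap.coe_snd']
    at this
  unfold Short.S
  linarith

theorem bm_corner {x' x x'' : M} (h1 : (x', x) ∈ sh.D) (h2 : (x, x'') ∈ sh.D)
    (hne : vel E x (sh.σ (x', x)) 1 ≠ vel E x (sh.σ (x, x'')) 0) :
    ∃ ξ : E, ∀ᶠ z : M × M × M in 𝓝 (x', x, x''), z.2.1 ∈ (κ E x).source ∧ ∀ s ∈ Icc (0 : ℝ) 1,
      κ E x z.2.1 + s • ξ ∈ (κ E x).target ∧ (z.1, (κ E x).symm (κ E x z.2.1 + s • ξ)) ∈ sh.D ∧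
      ((κ E x).symm (κ E x z.2.1 + s • ξ), z.2.2) ∈ sh.D ∧ (0 < s →
        sh.S (z.1, (κ E x).symm (κ E x z.2.1 + s • ξ)) +
          sh.S ((κ E x).symm (κ E x z.2.1 + s • ξ), z.2.2) < sh.S (z.1, z.2.1) + sh.S z.2) := by
  obtain ⟨a1, a2, a3⟩ := bm_pair sh h1
  obtain ⟨b1, b2, b3⟩ := bm_pair sh h2
  let L : (E × E × E) →L[ℝ] E × E := (ContinuousLinearMap.id ℝ E).prodMap (ContinuousLinearMap.fst ℝ E E)
  let v0 : E × E × E := (κ E x' x', κ E x x, κ E x'' x'')
  have c1 := (ContDiffAt.comp v0 (f := L) a2 L.contDiff.contDiffAt).add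
    (ContDiffAt.comp v0 (f := Prod.snd) b2 contDiffAt_snd)
  have c2 := (HasFDerivAt.comp v0 (f := L) (a2.differentiableAt (by simp)).hasFDerivAt
    L.hasFDerivAt).fun_add (HasFDerivAt.comp v0 (f := Prod.snd)
      (b2.differentiableAt (by simp)).hasFDerivAt hasFDerivAt_snd)
  obtain ⟨η, hη⟩ := bm_desc (u := (0, vel E x (sh.σ (x, x'')) 0 - vel E x (sh.σ (x', x)) 1, 0))
    (c1.of_le (by simp)) (by
      have := G_pos g x (mem_extChartAt_target x) (sub_ne_zero.2 hne.symm)
      rw [map_sub (G g x _), sub_apply] at this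
      rw [c2.fderiv]
      simp only [add_apply, ContinuousLinearMap.comp_apply, a3, b3, L,
        ContinuousLinearMap.coe_prodMap', Prod.map, ContinuousLinearMap.coe_fst',
        ContinuousLinearMap.coe_snd', map_zero]
      linarith) ((L.continuous.continuousAt.eventually a1).and
        (continuous_snd.continuousAt.eventually b1))
  refine ⟨η • (vel E x (sh.σ (x, x'')) 0 - vel E x (sh.σ (x', x)) 1), ?_⟩
  have d : ContinuousAt (fun z : M × M × M => (κ E x' z.1, κ E x z.2.1, κ E x'' z.2.2))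
      (x', x, x'') := (continuousAt_extChartAt x').prodMap'
        ((continuousAt_extChartAt x).prodMap' (continuousAt_extChartAt x''))
  filter_upwards [d.eventually hη, prod_mem_nhds (extChartAt_source_mem_nhds (I := 𝓘(ℝ, E)) x')
    (prod_mem_nhds (extChartAt_source_mem_nhds (I := 𝓘(ℝ, E)) x)
      (extChartAt_source_mem_nhds (I := 𝓘(ℝ, E)) x''))] with z hz hs
  refine ⟨hs.2.1, fun s h => ?_⟩
  obtain ⟨⟨⟨-, f1, f2⟩, -, -, f3⟩, f4⟩ := hz s h
  simp only [L, ContinuousLinearMap.coe_prodMap', Prod.map, ContinuousLinearMap.coe_fst',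
    ContinuousLinearMap.coe_id', id, Prod.smul_mk, Prod.mk_add_mk, smul_zero, add_zero,
    Function.comp_apply, (κ E x').left_inv hs.1, (κ E x).left_inv hs.2.1,
    (κ E x'').left_inv hs.2.2] at f1 f2 f3 f4
  exact ⟨f1, f2, f3, f4⟩

theorem bm_pt (y : Fin k → M) (j : Fin k) : pt p q y (j + 1) = y j := by simp [pt]

theorem bm_update (y : Fin k → M) (j : Fin k) (a : M) {l : ℕ} (h : l ≠ j + 1) :
    pt p q (update y j a) l = pt p q y l := by
  unfold pt
  split_ifs with h1 h2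
  · rfl
  · exact update_of_ne (fun e => h (by rw [← e]; simp only; omega)) _ _
  · rfl

theorem Short.move {y0 : Fin k → M} (hy : y0 ∈ sh.W p q k)
    (hno : ∀ γ, IsGeodesic g γ → γ 0 = p → γ 1 = q →
      energy g γ 0 ≠ ((k : ℝ) + 1) * sh.En p q y0) :
    ∃ N ∈ 𝓝 y0, ∃ m : (Fin k → M) × ℝ → (Fin k → M), ContinuousOn m (N ×ˢ Icc 0 1) ∧
      ∀ y ∈ N, m (y, 0) = y ∧ ∀ s ∈ Icc (0 : ℝ) 1, m (y, s) ∈ sh.W p q k ∧
        (0 < s → sh.En p q (m (y, s)) < sh.En p q y) := by
  obtain ⟨j, hj⟩ : ∃ j : Fin k, vel E (y0 j) (sh.σ (pt p q y0 j, y0 j)) 1 ≠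
      vel E (y0 j) (sh.σ (y0 j, pt p q y0 (j + 1 + 1))) 0 := by
    by_contra! h
    have g0 := sh.geo _ (hy 0 k.zero_le)
    have e : ∀ i ≤ k, sh.σ (pt p q y0 i, pt p q y0 (i + 1)) =
        fun t => sh.σ (pt p q y0 0, pt p q y0 (0 + 1)) (1 * t + i) := fun i hi => by
      induction i with
      | zero => simp
      | succ i ih =>
        have a := hy i (by omega)
        have b := bm_pt p q y0 ⟨i, hi⟩
        rw [geo_unique (sh.geo _ (hy _ hi)) ((sh.geo _ a).affine 1 1) (t0 := 0) (x := y0 ⟨i, hi⟩)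
          (by rw [sh.zero _ (hy _ hi), b]; exact mem_extChartAt_source _)
          (by simp only [mul_zero, zero_add, sh.zero _ (hy _ hi), sh.one _ a])
          (by rw [ChartX.vel_aff, one_smul, mul_zero, zero_add, b]; exact (h ⟨i, hi⟩).symm),
          ih (by omega)]
        funext t
        exact congrArg _ (by push_cast; ring)
    refine hno _ (g0.affine (k + 1) 0) ?_ ?_ ?_
    · simp only [mul_zero, add_zero, sh.zero _ (hy 0 k.zero_le)]
      rfl
    · have := sh.one _ (hy k le_rfl)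
      rw [e k le_rfl] at this
      simp only [mul_one, add_zero] at this ⊢
      rw [add_comm (k : ℝ), this]
      simp [pt]
    · rw [energy_affine g0, Short.En, Finset.sum_congr rfl fun i hi => show sh.S _ =
        energy g (sh.σ (pt p q y0 0, pt p q y0 (0 + 1))) 0 by
          rw [Short.S, e i (Nat.lt_succ_iff.1 (Finset.mem_range.1 hi)), energy_affine g0,
            energy_const g0 _ 0, one_pow, one_mul], energy_const g0 _ 0]
      simp only [Finset.sum_const, Finset.card_range, nsmul_eq_mul]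
      push_cast
      ring
  have a := hy j j.2.le
  have b := hy (j + 1) j.2
  rw [bm_pt] at a b
  obtain ⟨ξ, h⟩ := bm_corner sh a b hj
  have c : ContinuousAt (fun y : Fin k → M => (pt p q y j, y j, pt p q y (j + 1 + 1))) y0 :=
    ((pt_cont p q j).prodMk ((continuous_apply j).prodMk (pt_cont p q _))).continuousAt
  refine ⟨_, inter_mem (c.eventually h) ((sh.W_open p q k).mem_nhds hy),
    fun z => update z.1 j ((κ E (y0 j)).symm (κ E (y0 j) (z.1 j) + z.2 • ξ)), ?_,
    fun y ⟨⟨h1, h2⟩, h3⟩ => ⟨?_, fun s hs => ?_⟩⟩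
  · refine continuousOn_pi.2 fun i => ?_
    rcases eq_or_ne i j with rfl | hi
    · simp only [update_self]
      exact (continuousOn_extChartAt_symm _).comp (((continuousOn_extChartAt _).comp
        ((continuous_apply i).comp continuous_fst).continuousOn fun z hz => hz.1.1.1).add
        (continuous_snd.smul continuous_const).continuousOn) fun z hz => (hz.1.1.2 _ hz.2).1
    · simp only [update_of_ne hi]
      exact ((continuous_apply i).comp continuous_fst).continuousOn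
  · simp only [zero_smul, add_zero, (κ E (y0 j)).left_inv h1, update_eq_self]
  obtain ⟨-, d1, d2, d3⟩ := h2 s hs
  simp only at d1 d2 d3 ⊢
  generalize (κ E (y0 j)).symm (κ E (y0 j) (y j) + s • ξ) = u at d1 d2 d3
  have e0 := bm_update p q y j u (l := j) (by omega)
  have e1 : pt p q (update y j u) (j + 1) = u := by rw [bm_pt, update_self]
  have e2 := bm_update p q y j u (l := j + 1 + 1) (by omega)
  refine ⟨fun i hi => ?_, fun h0 => ?_⟩
  · rcases eq_or_ne i j with rfl | f1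
    · rwa [e0, e1]
    rcases eq_or_ne i (j + 1) with rfl | f2
    · rwa [e1, e2]
    rw [bm_update p q y j u f2, bm_update p q y j u (by omega)]
    exact h3 i hi
  · have := j.2
    rw [← sub_neg, Short.En, Short.En, ← Finset.sum_sub_distrib, Finset.sum_eq_add_of_mem (j : ℕ)
      (j + 1) (Finset.mem_range.2 (by omega)) (Finset.mem_range.2 (by omega)) (by omega)
      fun i _ hi => by rw [bm_update p q y j u hi.2, bm_update p q y j u (by omega), sub_self],
      e0, e1, e2, bm_pt]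
    linarith [d3 h0]

end Pool.Agent.GeoN
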