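import Mathlib
import Pool.Agent.P.MP_365c00_gt.BBrk

/-! TASK BRef: refinement of broken geodesics and the Hoelder estimate. -/

set_option linter.unusedSectionVars false
set_option linter.unusedVariables false

open Set Filter Topology Metric Function
open scoped Manifold ContDiff

namespace Pool.Agent.GeoN

variable {E : Type} [NormedAddCommGroup E] [InnerProductSpace ℝ E] [FiniteDimensional ℝ E]
  {M : Type} [TopologicalSpace M] [ChartedSpace E M] [IsManifold 𝓘(ℝ, E) ∞ M]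
  [T2Space M] [CompactSpace M] [Nonempty M] [Nontrivial E]

variable {g : Met E M} (sh : Short g) (p q : M) {k : ℕ}

theorem bref_sum (F : ℕ → ℝ) (n m : ℕ) :
    ∑ j ∈ Finset.range (n * m), F j = ∑ i ∈ Finset.range n, ∑ r ∈ Finset.range m, F (i * m + r) := by
  induction n with
  | zero => simp
  | succ n ih => rw [Nat.succ_mul, Finset.sum_range_add, ih, Finset.sum_range_succ]

theorem bref_idx (k : ℕ) {t : ℝ} (h0 : 0 ≤ t) (h1 : t ≤ 1) :
    ∃ i ≤ k, (i : ℝ) ≤ ((k : ℝ) + 1) * t ∧ ((k : ℝ) + 1) * t ≤ i + 1 := by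
  have hk : (0 : ℝ) ≤ k := Nat.cast_nonneg k
  have h2 : 0 ≤ ((k : ℝ) + 1) * t := by positivity
  rcases le_total k ⌊((k : ℝ) + 1) * t⌋₊ with h | h
  · refine ⟨k, le_rfl, ?_, by nlinarith⟩
    exact le_trans (by exact_mod_cast h) (Nat.floor_le h2)
  · exact ⟨_, h, Nat.floor_le h2, (Nat.lt_floor_add_one _).le⟩

theorem Short.bref_pt (y : sh.W p q k) {m k' : ℕ} (hm : 0 < m) (hk : k' + 1 = (k + 1) * m)
    {i r : ℕ} (hi : i ≤ k) (hr : r ≤ m) :
    pt p q (smp k' (sh.brk p q k y)) (i * m + r) =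
      sh.σ (pt p q y.1 i, pt p q y.1 (i + 1)) ((r : ℝ) / m) := by
  have hle : i * m + r ≤ k' + 1 := by
    rw [hk]; nlinarith [Nat.mul_le_mul_right m hi]
  have hm' : (0 : ℝ) < m := by exact_mod_cast hm
  have hk' : (k' : ℝ) + 1 = ((k : ℝ) + 1) * m := by exact_mod_cast hk
  have hp : (0 : ℝ) < (k' : ℝ) + 1 := by positivity
  have hmem : ((i * m + r : ℕ) : ℝ) / ((k' : ℝ) + 1) ∈ Icc (0 : ℝ) 1 :=
    ⟨by positivity, (div_le_one hp).2 (by exact_mod_cast hle)⟩
  have e : ((k : ℝ) + 1) * (((i * m + r : ℕ) : ℝ) / ((k' : ℝ) + 1)) = i + (r : ℝ) / m := by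
    have : (0 : ℝ) < (k : ℝ) + 1 := by positivity
    rw [hk']; push_cast; field_simp
  have h1 : (0 : ℝ) ≤ (r : ℝ) / m := by positivity
  have h2 : (r : ℝ) / m ≤ 1 := (div_le_one hm').2 (by exact_mod_cast hr)
  rw [pt_smp p q _ hle, sh.brk_apply, projIcc_of_mem _ hmem]
  show sh.bk p q y.1 (((i * m + r : ℕ) : ℝ) / ((k' : ℝ) + 1)) = _
  rw [sh.bk_eq p q y.2 hi (by rw [e]; linarith) (by rw [e]; linarith), e, add_sub_cancel_left]

theorem Short.bref_seg (y : sh.W p q k) {m k' : ℕ} (hm : 0 < m) (hk : k' + 1 = (k + 1) * m)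
    {i r : ℕ} (hi : i ≤ k) (hr : r < m) :
    (pt p q (smp k' (sh.brk p q k y)) (i * m + r),
      pt p q (smp k' (sh.brk p q k y)) (i * m + r + 1)) ∈ sh.D ∧
    sh.σ (pt p q (smp k' (sh.brk p q k y)) (i * m + r),
      pt p q (smp k' (sh.brk p q k y)) (i * m + r + 1)) =
      (fun t => sh.σ (pt p q y.1 i, pt p q y.1 (i + 1)) ((m : ℝ)⁻¹ * t + (r : ℝ) / m)) ∧
    sh.S (pt p q (smp k' (sh.brk p q k y)) (i * m + r),
      pt p q (smp k' (sh.brk p q k y)) (i * m + r + 1)) =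
      sh.S (pt p q y.1 i, pt p q y.1 (i + 1)) / (m : ℝ) ^ 2 := by
  have hm' : (1 : ℝ) ≤ m := by exact_mod_cast hm
  have hD := y.2 i hi
  have hg := sh.geo _ hD
  have he : energy g (fun t => sh.σ (pt p q y.1 i, pt p q y.1 (i + 1))
      ((m : ℝ)⁻¹ * t + (r : ℝ) / m)) 0 = sh.S (pt p q y.1 i, pt p q y.1 (i + 1)) / (m : ℝ) ^ 2 := by
    rw [energy_affine hg, energy_const hg _ 0, Short.S, inv_pow, div_eq_inv_mul]
  have hlt : sh.S (pt p q y.1 i, pt p q y.1 (i + 1)) / (m : ℝ) ^ 2 < sh.ε :=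
    (div_le_self (sh.S_nonneg _) (one_le_pow₀ hm')).trans_lt (sh.lt _ hD)
  obtain ⟨h1, h2⟩ := sh.uniq _ (hg.affine (m : ℝ)⁻¹ ((r : ℝ) / m)) (he.trans_lt hlt)
  have e0 : pt p q (smp k' (sh.brk p q k y)) (i * m + r) =
      sh.σ (pt p q y.1 i, pt p q y.1 (i + 1)) ((m : ℝ)⁻¹ * 0 + (r : ℝ) / m) := by
    rw [sh.bref_pt p q y hm hk hi hr.le, mul_zero, zero_add]
  have e1 : pt p q (smp k' (sh.brk p q k y)) (i * m + r + 1) =
      sh.σ (pt p q y.1 i, pt p q y.1 (i + 1)) ((m : ℝ)⁻¹ * 1 + (r : ℝ) / m) := by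
    rw [Nat.add_assoc, sh.bref_pt p q y hm hk hi (Nat.succ_le_of_lt hr)]
    congr 1
    push_cast
    rw [add_div, mul_one, one_div, add_comm]
  rw [e0, e1]
  exact ⟨h1, h2, by rw [Short.S, h2, he]⟩

theorem Short.refine (y : sh.W p q k) {m k' : ℕ} (hm : 0 < m) (hk : k' + 1 = (k + 1) * m) :
    ∃ h : smp k' (sh.brk p q k y) ∈ sh.W p q k',
      sh.En p q (smp k' (sh.brk p q k y)) = sh.En p q y.1 / m ∧
      sh.brk p q k' ⟨_, h⟩ = sh.brk p q k y := by
  have hm' : (0 : ℝ) < m := by exact_mod_cast hm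
  have hk' : (k' : ℝ) + 1 = ((k : ℝ) + 1) * m := by exact_mod_cast hk
  have hdiv : ∀ j ≤ k', ∃ i ≤ k, ∃ r < m, j = i * m + r := fun j hj =>
    ⟨j / m, Nat.lt_succ_iff.1 ((Nat.div_lt_iff_lt_mul hm).2 (hk ▸ Nat.lt_succ_of_le hj)), j % m, Nat.mod_lt _ hm,
      (Nat.div_add_mod' j m).symm⟩
  have hW : smp k' (sh.brk p q k y) ∈ sh.W p q k' := fun j hj => by
    obtain ⟨i, hi, r, hr, rfl⟩ := hdiv j hj
    exact (sh.bref_seg p q y hm hk hi hr).1
  refine ⟨hW, ?_, ?_⟩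
  · rw [Short.En, Short.En, hk, bref_sum, Finset.sum_div]
    refine Finset.sum_congr rfl fun i hi => ?_
    rw [Finset.sum_congr rfl fun r hr => (sh.bref_seg p q y hm hk
      (Nat.lt_succ_iff.1 (Finset.mem_range.1 hi)) (Finset.mem_range.1 hr)).2.2,
      Finset.sum_const, Finset.card_range, nsmul_eq_mul]
    field_simp
  · refine Subtype.ext (ContinuousMap.ext fun t => ?_)
    obtain ⟨j, hj, h1, h2⟩ := bref_idx k' t.2.1 t.2.2
    obtain ⟨i, hi, r, hr, rfl⟩ := hdiv j hj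
    have hr' : (r : ℝ) + 1 ≤ m := by exact_mod_cast hr
    have hr0 : (0 : ℝ) ≤ r := Nat.cast_nonneg r
    rw [sh.brk_apply, sh.brk_apply, sh.bk_eq p q hW hj h1 h2, (sh.bref_seg p q y hm hk hi hr).2.1]
    rw [hk'] at h1 h2 ⊢
    push_cast at h1 h2 ⊢
    rw [sh.bk_eq p q y.2 hi (le_of_mul_le_mul_right (by linarith) hm')
      (le_of_mul_le_mul_right (by linarith) hm')]
    congr 1
    field_simp
    ring

theorem Short.bref_le {N : ℕ} {ι : M → EuclideanSpace ℝ (Fin N)} {C : ℝ} (hι : LipEmb g ι C)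
    (y : sh.W p q k) (s t : unitInterval) (hst : (s : ℝ) ≤ t) :
    dist (ι ((sh.brk p q k y).1 s)) (ι ((sh.brk p q k y).1 t)) ≤
      C * √(((k : ℝ) + 1) * sh.En p q y.1) * √|(s : ℝ) - t| := by
  have hk : (0 : ℝ) < (k : ℝ) + 1 := by positivity
  set a := ((k : ℝ) + 1) * s with ha
  set b := ((k : ℝ) + 1) * t with hb
  have ha0 : 0 ≤ a := mul_nonneg hk.le s.2.1
  have hab : a ≤ b := mul_le_mul_of_nonneg_left hst hk.le
  have hb1 : b ≤ (k : ℝ) + 1 := mul_le_of_le_one_right hk.le t.2.2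
  let u : ℕ → ℝ := fun i => min (max (i : ℝ) a) b
  let P : ℕ → EuclideanSpace ℝ (Fin N) := fun i => ι (sh.bk p q y.1 (u i / ((k : ℝ) + 1)))
  have hu0 : u 0 = a := by simp [u, ha0, hab]
  have hu1 : u (k + 1) = b := by
    simp only [u]; push_cast; exact min_eq_right (le_max_of_le_left hb1)
  have hmono : ∀ i, u i ≤ u (i + 1) := fun i =>
    min_le_min (max_le_max (by push_cast; linarith) le_rfl) le_rfl
  have hin : ∀ i, u i < u (i + 1) → (i : ℝ) ≤ u i ∧ u (i + 1) ≤ i + 1 := fun i h => by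
    simp only [u] at h ⊢
    push_cast at h ⊢
    constructor
    · have h1 : max (i : ℝ) a < b := by
        by_contra h2
        rw [min_eq_right (not_lt.1 h2)] at h
        exact absurd (min_le_right _ _) (not_le.2 h)
      rw [min_eq_left h1.le]; exact le_max_left _ _
    · have h1 : a ≤ i + 1 := by
        by_contra h2
        rw [max_eq_right (by linarith), max_eq_right (by linarith)] at h
        exact lt_irrefl _ h
      rw [max_eq_left h1]; exact min_le_left _ _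
  have hd1 : ∀ i, u (i + 1) - u i ≤ 1 := fun i => by
    rcases (hmono i).lt_or_eq with h | h
    · linarith [hin i h]
    · linarith
  have hstep : ∀ i ∈ Finset.range (k + 1), dist (P i) (P (i + 1)) ≤
      C * (√(sh.S (pt p q y.1 i, pt p q y.1 (i + 1))) * (u (i + 1) - u i)) := fun i hi => by
    have hi' : i ≤ k := Nat.lt_succ_iff.1 (Finset.mem_range.1 hi)
    rcases (hmono i).lt_or_eq with h | h
    · obtain ⟨h1, h2⟩ := hin i h
      have e : ∀ v : ℝ, ((k : ℝ) + 1) * (v / ((k : ℝ) + 1)) = v := fun v => by field_simp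
      simp only [P]
      rw [sh.bk_eq p q y.2 hi' (by rw [e]; linarith) (by rw [e]; linarith),
        sh.bk_eq p q y.2 hi' (by rw [e]; linarith) (by rw [e]; linarith), e, e]
      refine (hι.2.2 _ (sh.geo _ (y.2 i hi')) _ _).trans (le_of_eq ?_)
      rw [sub_sub_sub_cancel_right, abs_sub_comm, abs_of_nonneg (by linarith), Short.S, mul_assoc]
    · simp only [P, ← h, dist_self, sub_self, mul_zero, le_refl]
  have h1 := (dist_le_range_sum_dist P (k + 1)).trans (Finset.sum_le_sum hstep)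
  rw [← Finset.mul_sum] at h1
  have h2 := Finset.sum_mul_sq_le_sq_mul_sq (Finset.range (k + 1))
    (fun i => √(sh.S (pt p q y.1 i, pt p q y.1 (i + 1)))) (fun i => u (i + 1) - u i)
  have h3 : ∑ i ∈ Finset.range (k + 1), √(sh.S (pt p q y.1 i, pt p q y.1 (i + 1))) ^ 2 =
      sh.En p q y.1 := Finset.sum_congr rfl fun i _ => Real.sq_sqrt (sh.S_nonneg _)
  have h4 : ∑ i ∈ Finset.range (k + 1), (u (i + 1) - u i) ^ 2 ≤ ((k : ℝ) + 1) * |(s : ℝ) - t| := by
    refine (Finset.sum_le_sum (g := fun i => u (i + 1) - u i) fun i _ => by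
      nlinarith [hmono i, hd1 i]).trans (le_of_eq ?_)
    rw [Finset.sum_range_sub, hu0, hu1, abs_sub_comm, abs_of_nonneg (by linarith), ha, hb]
    ring
  have hE : 0 ≤ sh.En p q y.1 := Finset.sum_nonneg fun i _ => sh.S_nonneg _
  rw [h3] at h2
  have h5 : ∑ i ∈ Finset.range (k + 1), √(sh.S (pt p q y.1 i, pt p q y.1 (i + 1))) *
      (u (i + 1) - u i) ≤ √(((k : ℝ) + 1) * sh.En p q y.1) * √|(s : ℝ) - t| := by
    rw [← Real.sqrt_mul (by positivity)]
    refine Real.le_sqrt_of_sq_le (h2.trans ((mul_le_mul_of_nonneg_left h4 hE).trans (le_of_eq ?_)))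
    ring
  have e0 : P 0 = ι ((sh.brk p q k y).1 s) := by
    simp only [P]; rw [hu0, sh.brk_apply, ha, mul_div_cancel_left₀ _ hk.ne']
  have e1 : P (k + 1) = ι ((sh.brk p q k y).1 t) := by
    simp only [P]; rw [hu1, sh.brk_apply, hb, mul_div_cancel_left₀ _ hk.ne']
  rw [← e0, ← e1, mul_assoc]
  exact h1.trans (mul_le_mul_of_nonneg_left h5 hι.2.1.le)

theorem Short.hoelder {N : ℕ} {ι : M → EuclideanSpace ℝ (Fin N)} {C : ℝ} (hι : LipEmb g ι C)
    (y : sh.W p q k) (s t : unitInterval) :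
    dist (ι ((sh.brk p q k y).1 s)) (ι ((sh.brk p q k y).1 t)) ≤
      C * √(((k : ℝ) + 1) * sh.En p q y.1) * √|(s : ℝ) - t| := by
  rcases le_total (s : ℝ) t with h | h
  · exact sh.bref_le p q hι y s t h
  · rw [dist_comm, abs_sub_comm]; exact sh.bref_le p q hι y t s h

end Pool.Agent.GeoN
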