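import Mathlib
import Pool.Agent.P.MP_365c00_gt.BRef
import Pool.Agent.P.MP_365c00_gt.BMove
import Pool.Agent.P.MP_365c00_gt.BDef

/-! TASK BDom: without long geodesics the path space is dominated by a compact set of broken geodesics. -/

set_option linter.unusedSectionVars false
set_option linter.unusedVariables false

open Set Filter Topology Metric Function
open scoped Manifold ContDiff

namespace Pool.Agent.GeoN

variable {E : Type} [NormedAddCommGroup E] [InnerProductSpace ℝ E] [FiniteDimensional ℝ E]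
  {M : Type} [TopologicalSpace M] [ChartedSpace E M] [IsManifold 𝓘(ℝ, E) ∞ M]
  [T2Space M] [CompactSpace M] [Nonempty M] [Nontrivial E]

variable {g : Met E M}

theorem bdom_proj {k i : ℕ} (hi : i ≤ k + 1) :
    ((projIcc (0 : ℝ) 1 zero_le_one ((i : ℝ) / ((k : ℝ) + 1)) : unitInterval) : ℝ) =
      (i : ℝ) / ((k : ℝ) + 1) := by
  have h1 : (i : ℝ) ≤ (k : ℝ) + 1 := by exact_mod_cast hi
  rw [projIcc_of_mem zero_le_one ⟨by positivity, (div_le_one (by positivity)).2 h1⟩]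

theorem bdom_idx (k : ℕ) (t : unitInterval) :
    ∃ i ≤ k, (i : ℝ) ≤ ((k : ℝ) + 1) * t ∧ ((k : ℝ) + 1) * t ≤ i + 1 := by
  have h0 : 0 ≤ ((k : ℝ) + 1) * t := mul_nonneg (by positivity) t.2.1
  rcases le_total k ⌊((k : ℝ) + 1) * t⌋₊ with h | h
  · refine ⟨k, le_rfl, le_trans (by exact_mod_cast h) (Nat.floor_le h0), ?_⟩
    exact mul_le_of_le_one_right (by positivity) t.2.2
  · exact ⟨_, h, Nat.floor_le h0, (Nat.lt_floor_add_one _).le⟩

theorem bdom_A (sh : Short g) (p q : M) {N : ℕ} {ι : M → EuclideanSpace ℝ (Fin N)} {C : ℝ}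
    (hι : LipEmb g ι C) : ∃ ρ > 0, ∀ (k : ℕ) (Z : Type) [TopologicalSpace Z]
      (f : C(Z, Ser.Om p q)), (∀ z (s t : unitInterval), |(s : ℝ) - t| ≤ 1 / ((k : ℝ) + 1) →
        dist (ι ((f z).1 s)) (ι ((f z).1 t)) < ρ) →
      ∃ φ : C(Z, sh.W p q k),
        (∀ z, ∀ i ≤ k, sh.S (pt p q (φ z).1 i, pt p q (φ z).1 (i + 1)) ≤ sh.ε / 2) ∧
        f.Homotopic ((sh.brk p q k).comp φ) := by
  obtain ⟨h1, hC, h3⟩ := hι
  have hε := sh.ε_pos
  obtain ⟨ρ0, hρ0, n0⟩ := sh.near h1 hε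
  obtain ⟨ρ2, hρ2, n2⟩ := sh.near h1 (δ := min (sh.ε / 2) ((ρ0 / (2 * C)) ^ 2))
    (lt_min (by positivity) (by positivity))
  refine ⟨min ρ2 (ρ0 / 2), lt_min hρ2 (by positivity), fun k Z _ f hf => ?_⟩
  have hk : (0 : ℝ) < (k : ℝ) + 1 := by positivity
  have key : ∀ z, ∀ i ≤ k, (pt p q (smp k (f z)) i, pt p q (smp k (f z)) (i + 1)) ∈ sh.D ∧
      sh.S (pt p q (smp k (f z)) i, pt p q (smp k (f z)) (i + 1)) <
        min (sh.ε / 2) ((ρ0 / (2 * C)) ^ 2) := fun z i hi => by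
    refine n2 _ _ ?_
    rw [pt_smp p q _ (by omega : i ≤ k + 1), pt_smp p q _ (by omega : i + 1 ≤ k + 1)]
    refine (hf z _ _ ?_).trans_le (min_le_left _ _)
    rw [bdom_proj (by omega : i ≤ k + 1), bdom_proj (by omega : i + 1 ≤ k + 1), ← sub_div,
      abs_div, abs_of_pos hk]
    push_cast
    rw [sub_add_cancel_left, abs_neg, abs_one]
  refine ⟨⟨fun z => ⟨smp k (f z), fun i hi => (key z i hi).1⟩,
    ((smp_cont p q k).comp f.continuous).subtype_mk _⟩,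
    fun z i hi => ((key z i hi).2.trans_le (min_le_left _ _)).le,
    sh.homotopic _ _ fun z t => (n0 _ _ ?_).1⟩
  obtain ⟨i, hi, a1, a2⟩ := bdom_idx k t
  obtain ⟨b1, b2⟩ := key z i hi
  rw [ContinuousMap.comp_apply, sh.brk_apply, sh.bk_eq p q (Subtype.property _) hi a1 a2]
  have c1 : dist (ι ((f z).1 t)) (ι (pt p q (smp k (f z)) i)) < ρ0 / 2 := by
    rw [pt_smp p q _ (by omega : i ≤ k + 1)]
    refine (hf z _ _ ?_).trans_le (min_le_right _ _)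
    rw [bdom_proj (by omega : i ≤ k + 1), sub_div' hk.ne', abs_div, abs_of_pos hk]
    gcongr
    rw [abs_le]
    constructor <;> linarith
  have c2 := h3 _ (sh.geo _ b1) 0 (((k : ℝ) + 1) * t - i)
  rw [sh.zero _ b1] at c2
  have c3 : √(sh.S (pt p q (smp k (f z)) i, pt p q (smp k (f z)) (i + 1))) ≤ ρ0 / (2 * C) :=
    Real.sqrt_le_iff.2 ⟨by positivity, (b2.trans_le (min_le_right _ _)).le⟩
  have c4 : |0 - (((k : ℝ) + 1) * t - i)| ≤ 1 := by
    rw [abs_le]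
    constructor <;> linarith
  have c5 : C * √(sh.S (pt p q (smp k (f z)) i, pt p q (smp k (f z)) (i + 1))) *
      |0 - (((k : ℝ) + 1) * t - i)| ≤ C * (ρ0 / (2 * C)) * 1 := by gcongr
  have c6 : C * (ρ0 / (2 * C)) * 1 = ρ0 / 2 := by field_simp
  exact (dist_triangle _ (ι (pt p q (smp k (f z)) i)) _).trans_lt
    ((add_lt_add_of_lt_of_le c1 (c2.trans (c5.trans c6.le))).trans_eq (add_halves ρ0))

theorem bdom_unif {p q : M} {N : ℕ} {ι : M → EuclideanSpace ℝ (Fin N)} (hι : Continuous ι)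
    {Z : Type} [TopologicalSpace Z] [CompactSpace Z] (f : C(Z, Ser.Om p q)) {ρ : ℝ} (hρ : 0 < ρ) :
    ∃ k : ℕ, ∀ z (s t : unitInterval), |(s : ℝ) - t| ≤ 1 / ((k : ℝ) + 1) →
      dist (ι ((f z).1 s)) (ι ((f z).1 t)) < ρ := by
  have h0 : Continuous fun z => (f z).1 := continuous_subtype_val.comp f.continuous
  have h1 : IsClosed {w : Z × unitInterval × unitInterval |
      ρ ≤ dist (ι ((f w.1).1 w.2.1)) (ι ((f w.1).1 w.2.2))} :=
    isClosed_le continuous_const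
      ((hι.comp ((h0.comp continuous_fst).eval continuous_snd.fst)).dist
        (hι.comp ((h0.comp continuous_fst).eval continuous_snd.snd)))
  obtain ⟨a, ha, h2⟩ := h1.isCompact.exists_forall_le' (a := (0 : ℝ))
    (f := fun w => |(w.2.1 : ℝ) - w.2.2|) (by fun_prop) fun w hw => by
      refine abs_pos.2 (sub_ne_zero.2 fun e => ?_)
      have e1 : w.2.1 = w.2.2 := Subtype.ext e
      have e2 : ρ ≤ dist (ι ((f w.1).1 w.2.1)) (ι ((f w.1).1 w.2.2)) := hw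
      rw [e1, dist_self] at e2
      exact absurd hρ e2.not_gt
  obtain ⟨k, hk⟩ := exists_nat_one_div_lt ha
  refine ⟨k, fun z s t h => ?_⟩
  by_contra h3
  exact absurd (h2 (z, s, t) (not_lt.1 h3)) (h.trans_lt hk).not_ge

theorem bdom_def (sh : Short g) (p q : M) {T B : ℝ} (hB : T < B)
    (hT : ∀ γ, IsGeodesic g γ → γ 0 = p → γ 1 = q → energy g γ 0 ≤ T) (k : ℕ) {c : ℝ}
    (hc : c < sh.ε) : ∃ Ψ : C({y | y ∈ sh.W p q k ∧ sh.En p q y ≤ c},
      {y | y ∈ sh.W p q k ∧ sh.En p q y ≤ c}), Ψ.Homotopic (ContinuousMap.id _) ∧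
      ∀ z, ((k : ℝ) + 1) * sh.En p q (Ψ z).1 ≤ B := by
  classical
  have hk : (0 : ℝ) < (k : ℝ) + 1 := by positivity
  have : CompactSpace {y | y ∈ sh.W p q k ∧ sh.En p q y ≤ c} :=
    isCompact_iff_compactSpace.1 (sh.compact_En p q hc)
  obtain ⟨Ψ, h1, h2⟩ := deform (Z := {y | y ∈ sh.W p q k ∧ sh.En p q y ≤ c})
    ⟨fun z => sh.En p q z.1, (sh.En_cont p q).comp_continuous continuous_subtype_val
      fun z => z.2.1⟩ (B / ((k : ℝ) + 1)) fun z hz => by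
    obtain ⟨U, hU, m, m1, m2⟩ := sh.move p q z.2.1 fun γ a1 a2 a3 e => by
      have a4 := hT γ a1 a2 a3
      have a5 : B ≤ sh.En p q z.1 * ((k : ℝ) + 1) := (div_le_iff₀ hk).1 hz
      linarith
    have m3 : ∀ y : {y | y ∈ sh.W p q k ∧ sh.En p q y ≤ c}, y.1 ∈ U → ∀ s ∈ Icc (0 : ℝ) 1,
        m (y.1, s) ∈ {y | y ∈ sh.W p q k ∧ sh.En p q y ≤ c} := fun y hy s hs => by
      refine ⟨((m2 _ hy).2 s hs).1, ?_⟩
      rcases hs.1.eq_or_lt with e | e
      · rw [← e, (m2 _ hy).1]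
        exact y.2.2
      · exact (((m2 _ hy).2 s hs).2 e).le.trans y.2.2
    refine ⟨Subtype.val ⁻¹' U, continuous_subtype_val.continuousAt.preimage_mem_nhds hU,
      fun w => if h : m (w.1.1, w.2) ∈ {y | y ∈ sh.W p q k ∧ sh.En p q y ≤ c} then ⟨_, h⟩
        else w.1, ?_, fun y hy => ⟨?_, fun s hs => ?_⟩⟩
    · rw [IsInducing.subtypeVal.continuousOn_iff]
      refine (m1.comp (f := fun w : {y | y ∈ sh.W p q k ∧ sh.En p q y ≤ c} × ℝ => (w.1.1, w.2))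
        (by fun_prop) fun w hw => hw).congr fun w hw => ?_
      simp only [comp_apply, dif_pos (m3 w.1 hw.1 w.2 hw.2)]
    · simp only [dif_pos (m3 y hy 0 ⟨le_rfl, zero_le_one⟩)]
      exact Subtype.ext (m2 _ hy).1
    · simp only [dif_pos (m3 y hy s ⟨hs.1.le, hs.2⟩)]
      exact ((m2 _ hy).2 s ⟨hs.1.le, hs.2⟩).2 hs.1
  exact ⟨Ψ, h1, fun z => (le_div_iff₀' hk).1 (h2 z)⟩

theorem Short.dom (sh : Short g) (p q : M) {T : ℝ}
    (hT : ∀ γ, IsGeodesic g γ → γ 0 = p → γ 1 = q → energy g γ 0 ≤ T) :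
    ∃ (k : ℕ) (Z : Set (sh.W p q k)), IsCompact Z ∧ ∀ K : Set (Ser.Om p q), IsCompact K →
      ∃ φ : C(K, sh.W p q k), (∀ z, φ z ∈ Z) ∧ ContinuousMap.Homotopic
        (⟨Subtype.val, continuous_subtype_val⟩ : C(K, Ser.Om p q)) ((sh.brk p q k).comp φ) := by
  obtain ⟨N, ι, C, hι⟩ := exists_lipEmb g
  obtain ⟨ρ, hρ, hA⟩ := bdom_A sh p q hι
  have hC := hι.2.1
  have hε := sh.ε_pos
  obtain ⟨B, hB, hTB⟩ : ∃ B : ℝ, 0 < B ∧ T < B :=
    ⟨max T 0 + 1, by positivity, by linarith [le_max_left T 0]⟩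
  obtain ⟨k0, hk0⟩ := exists_nat_one_div_lt (show 0 < (ρ / (C * √B)) ^ 2 by positivity)
  refine ⟨k0, {y | ∀ i ≤ k0, sh.S (pt p q y.1 i, pt p q y.1 (i + 1)) ≤ sh.ε / 2}, ?_,
    fun K hK => ?_⟩
  · rw [Subtype.isCompact_iff]
    refine (sh.compact_each p q (k := k0) (half_lt_self hε)).of_isClosed_subset ?_ ?_
    · have e : Subtype.val '' {y : sh.W p q k0 |
          ∀ i ≤ k0, sh.S (pt p q y.1 i, pt p q y.1 (i + 1)) ≤ sh.ε / 2} =
          {y | y ∈ sh.W p q k0 ∧ ∀ i ≤ k0, sh.S (pt p q y i, pt p q y (i + 1)) ≤ sh.ε / 2} := by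
        ext y
        exact ⟨fun ⟨y', h, e⟩ => e ▸ ⟨y'.2, h⟩, fun h => ⟨⟨y, h.1⟩, h.2, rfl⟩⟩
      rw [e]
      exact (sh.compact_each p q (half_lt_self hε)).isClosed
    · rintro _ ⟨y, h, rfl⟩
      exact ⟨y.2, h⟩
  have : CompactSpace K := isCompact_iff_compactSpace.1 hK
  obtain ⟨k1, hk1⟩ := bdom_unif hι.1.continuous
    (⟨Subtype.val, continuous_subtype_val⟩ : C(K, Ser.Om p q)) hρ
  obtain ⟨φ0, a1, a2⟩ := hA k1 K _ hk1
  have hk : (0 : ℝ) < (k1 : ℝ) + 1 := by positivity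
  have hr := fun z => sh.refine p q (φ0 z) (m := k1 + 1) (k' := k1 * k1 + 2 * k1)
    (Nat.succ_pos _) (by ring)
  choose r1 r2 r3 using hr
  have r4 : ∀ z, sh.En p q (smp (k1 * k1 + 2 * k1) (sh.brk p q k1 (φ0 z))) ≤ sh.ε / 2 :=
    fun z => by
      rw [r2, Nat.cast_succ, div_le_iff₀ hk]
      refine (Finset.sum_le_card_nsmul _ _ (sh.ε / 2) fun i hi =>
        a1 z i (Nat.lt_succ_iff.1 (Finset.mem_range.1 hi))).trans (le_of_eq ?_)
      rw [Finset.card_range, nsmul_eq_mul, Nat.cast_succ, mul_comm]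
  obtain ⟨Ψ, b1, b2⟩ := bdom_def sh p q hTB hT (k1 * k1 + 2 * k1) (half_lt_self hε)
  let φ1 : C(K, {y | y ∈ sh.W p q (k1 * k1 + 2 * k1) ∧ sh.En p q y ≤ sh.ε / 2}) :=
    ⟨fun z => ⟨smp _ (sh.brk p q k1 (φ0 z)), r1 z, r4 z⟩,
      ((smp_cont p q _).comp ((sh.brk p q k1).comp φ0).continuous).subtype_mk _⟩
  let j : C({y | y ∈ sh.W p q (k1 * k1 + 2 * k1) ∧ sh.En p q y ≤ sh.ε / 2},
      sh.W p q (k1 * k1 + 2 * k1)) :=
    ⟨fun y => ⟨y.1, y.2.1⟩, continuous_subtype_val.subtype_mk _⟩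
  have c1 : (((sh.brk p q _).comp j).comp (Ψ.comp φ1)).Homotopic ((sh.brk p q k1).comp φ0) := by
    have e : ((sh.brk p q _).comp j).comp ((ContinuousMap.id _).comp φ1) =
        (sh.brk p q k1).comp φ0 := ContinuousMap.ext fun z => r3 z
    rw [← e]
    exact (ContinuousMap.Homotopic.refl _).comp (b1.comp (ContinuousMap.Homotopic.refl φ1))
  obtain ⟨φ, d1, d2⟩ := hA k0 K (((sh.brk p q _).comp j).comp (Ψ.comp φ1)) fun z s t h => by
    refine (sh.hoelder p q hι (j (Ψ (φ1 z))) s t).trans_lt ?_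
    have e1 : √|(s : ℝ) - t| < ρ / (C * √B) :=
      (Real.sqrt_lt' (by positivity)).2 (h.trans_lt hk0)
    calc _ ≤ C * √B * √|(s : ℝ) - t| := by gcongr; exact b2 (φ1 z)
      _ < ρ := (lt_div_iff₀' (by positivity)).1 e1
  exact ⟨φ, d1, a2.trans (c1.symm.trans d2)⟩

end Pool.Agent.GeoN
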