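import Mathlib
import Pool.Agent.P.MP_365c00_gt.BHDefs

/-! TASK BProd: local homology of the product `E n × F` along `K × F`. -/

open Set Topology Function
open Pool.Agent.URC

namespace Pool.Agent.GeoN.Ser

variable {F : Type} [TopologicalSpace F] {n : ℕ}

/-- the dilation in the first factor -/
noncomputable def bprod_dil (F : Type) [TopologicalSpace F] (x : E n) (l : ℝ) :
    C(E n × F, E n × F) :=
  ⟨fun p => (dil x l p.1, p.2), by fun_prop⟩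

theorem bprod_mapsTo {K : Set (E n)} {x : E n} (hs : StarConvex ℝ x K) {l : ℝ} (hl : 1 ≤ l) :
    MapsTo (bprod_dil F x l) (K ×ˢ (univ : Set F))ᶜ (K ×ˢ (univ : Set F))ᶜ :=
  fun _ hp h => dil_mapsTo hs hl (fun e => hp ⟨e, mem_univ _⟩) h.1

theorem bprod_map_dil {K : Set (E n)} {x : E n} (hs : StarConvex ℝ x K) {l : ℝ} (hl : 1 ≤ l)
    {k : ℕ} (α : HH (K ×ˢ (univ : Set F))ᶜ k) :
    HH.map (bprod_dil F x l) (bprod_mapsTo hs hl) α = α := by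
  let H : C((E n × F) × unitInterval, E n × F) :=
    ⟨fun q => (x + (1 + (q.2 : ℝ) * (l - 1)) • (q.1.1 - x), q.1.2), by fun_prop⟩
  rw [← HH.map_homotopy (ContinuousMap.id _) (bprod_dil F x l) H (fun y => by simp [H])
    (fun y => by simp [H, bprod_dil, dil]) ?_ (mapsTo_id _), HH.map_id']
  intro y hy t
  have h1 : 1 ≤ 1 + (t : ℝ) * (l - 1) := by
    have := mul_nonneg t.2.1 (sub_nonneg.2 hl)
    linarith
  exact bprod_mapsTo hs h1 hy

theorem bprod_exists_dil {K : Set (E n)} {C : Set (E n × F)} (hK : Bornology.IsBounded K)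
    (hC : IsCompact C) {x : E n} (hx : C ⊆ (({x} : Set (E n)) ×ˢ (univ : Set F))ᶜ) :
    ∃ l : ℝ, 1 ≤ l ∧ MapsTo (bprod_dil F x l) C (K ×ˢ (univ : Set F))ᶜ := by
  obtain ⟨l, hl, hm⟩ := exists_dil hK (hC.image continuous_fst) (x := x) (by
    rintro _ ⟨p, hp, rfl⟩ h
    exact hx hp ⟨h, mem_univ _⟩)
  exact ⟨l, hl, fun p hp h => hm (mem_image_of_mem _ hp) h.1⟩

/-- non-vanishing passes to the suspension -/
theorem bprod_susp {Y : Type} [TopologicalSpace Y] {A : Set Y} (hA : IsClosed A) {k : ℕ}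
    (h : ∃ β : HH Aᶜ k, β ≠ 0) : ∃ α : HH (Up A ∪ Dn A) (k + 1), α ≠ 0 := by
  obtain ⟨β, hβ⟩ := h
  obtain ⟨γ, rfl⟩ := (snd_bij A).2 β
  obtain ⟨a, ha, rfl⟩ := HH.exists_mk γ
  obtain ⟨d1, h1⟩ := mem_Bd.1 (HH.mk_eq_zero.1
    (vanish_Up A (HH.mk a (ChIn_mono inter_subset_left k ha))))
  obtain ⟨d2, h2⟩ := mem_Bd.1 (HH.mk_eq_zero.1
    (vanish_Dn A (HH.mk a (ChIn_mono inter_subset_right k ha))))
  have h3 : bd (d2 - d1) = (a - bd d1) + -(a - bd d2) := by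
    rw [map_sub]
    abel
  have h4 := Submodule.neg_mem _ h2
  refine ⟨HH.mk (d2 - d1) (split_mem h1 h4 h3), fun e => hβ ?_⟩
  have h5 := delta_wd (isOpen_Up hA) (isOpen_Dn hA) h1 h4 h3 (HH.mk_eq_zero.1 e)
  have h6 : HH.mk a ha = 0 := by
    rw [HH.mk_eq_zero, ← sub_add_cancel a (bd d1)]
    exact Submodule.add_mem _ h5 (bd_mem_Bd _ _)
  rw [h6, map_zero]

theorem bprod_zero (x : E 0) (k : ℕ) :
    ∃ φ : HH (({x} : Set (E 0)) ×ˢ (univ : Set F))ᶜ k →+ HH (∅ : Set F) k, Bijective φ := by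
  have hf : MapsTo (ContinuousMap.snd : C(E 0 × F, F)) (({x} : Set (E 0)) ×ˢ (univ : Set F))ᶜ ∅ :=
    fun p hp => hp ⟨Subsingleton.elim _ _, mem_univ _⟩
  exact ⟨_, map_bij_of_inv _ ⟨fun w => (x, w), by fun_prop⟩ hf (fun _ h => h.elim)
    (fun p => Prod.ext (Subsingleton.elim _ _) rfl) fun _ => rfl⟩

theorem bprod_succ (x : E (n + 1)) (k : ℕ) : ∃ y : E n,
    ∃ φ : HH (({x} : Set (E (n + 1))) ×ˢ (univ : Set F))ᶜ k →+
      HH (Up (({y} : Set (E n)) ×ˢ (univ : Set F)) ∪ Dn (({y} : Set (E n)) ×ˢ (univ : Set F))) k,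
      Bijective φ := by
  have h : spl 0 (x 0) 0 x = (0, fun j => x j.succ) := by
    ext <;> simp [spl]
  generalize (fun j : Fin n => x j.succ) = y at h
  let f : C(E (n + 1) × F, ℝ × (E n × F)) :=
    ⟨fun p => ((spl 0 (x 0) 0 p.1).1, (spl 0 (x 0) 0 p.1).2, p.2), by fun_prop⟩
  let g : C(ℝ × (E n × F), E (n + 1) × F) :=
    ⟨fun q => (uns 0 (x 0) 0 (q.1, q.2.1), q.2.2), by fun_prop⟩
  have hf : MapsTo f (({x} : Set (E (n + 1))) ×ˢ (univ : Set F))ᶜ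
      (Up (({y} : Set (E n)) ×ˢ (univ : Set F)) ∪ Dn (({y} : Set (E n)) ×ˢ (univ : Set F))) :=
    fun p hp => mem_Up_union_Dn.2 fun e =>
      (mem_Up_union_Dn (A := {y}) (p := spl 0 (x 0) 0 p.1)).1
        (spl_mapsTo 0 (x 0) 0 h fun e' => hp ⟨e', mem_univ _⟩) e.1
  refine ⟨y, _, map_bij_of_inv f g hf (fun q hq hx => ?_)
    (fun p => Prod.ext (uns_spl 0 (x 0) 0 p.1) rfl) fun q => ?_⟩
  · have e : uns 0 (x 0) 0 (q.1, q.2.1) = x := hx.1
    have e2 : (q.1, q.2.1) = (0, y) := by rw [← h, ← spl_uns 0 (x 0) 0 (q.1, q.2.1), e]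
    exact mem_Up_union_Dn.1 hq ⟨(Prod.mk.inj e2).2, mem_univ _⟩ (Prod.mk.inj e2).1
  · change ((spl 0 (x 0) 0 (uns 0 (x 0) 0 (q.1, q.2.1))).1,
      (spl 0 (x 0) 0 (uns 0 (x 0) 0 (q.1, q.2.1))).2, q.2.2) = q
    rw [spl_uns]

theorem prod_res_bij {K : Set (E n)} (hK : Bornology.IsBounded K) {x : E n}
    (hs : StarConvex ℝ x K)
    (h : (K ×ˢ (univ : Set F))ᶜ ⊆ (({x} : Set (E n)) ×ˢ (univ : Set F))ᶜ) (k : ℕ) :
    Bijective (HH.res h :
      HH (K ×ˢ (univ : Set F))ᶜ k → HH (({x} : Set (E n)) ×ˢ (univ : Set F))ᶜ k) := by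
  constructor
  · rw [injective_iff_map_eq_zero]
    intro α h
    obtain ⟨c, hc, rfl⟩ := HH.exists_mk α
    rw [HH.res_mk, HH.mk_eq_zero] at h
    obtain ⟨d, hd⟩ := mem_Bd.1 h
    obtain ⟨l, hl, hm⟩ := bprod_exists_dil hK (isCompact_car (c - bd d)) (mem_ChIn_iff_car.1 hd)
    rw [← bprod_map_dil hs hl (HH.mk c hc), HH.map_mk, HH.mk_eq_zero]
    refine mem_Bd.2 ⟨push (bprod_dil F x l) d, ?_⟩
    rw [bd_push, ← map_sub]
    exact push_mem_ChIn _ hm (mem_ChIn_iff_car.2 subset_rfl)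
  · intro α
    obtain ⟨c, hc, rfl⟩ := HH.exists_mk α
    obtain ⟨l, hl, hm⟩ := bprod_exists_dil hK (isCompact_car (bd c)) (mem_ChIn_iff_car.1 hc)
    refine ⟨HH.mk (push (bprod_dil F x l) c) ?_, ?_⟩
    · rw [bd_push]
      exact push_mem_ChIn _ hm (mem_ChIn_iff_car.2 subset_rfl)
    · rw [HH.res_mk, ← bprod_map_dil (starConvex_singleton x) hl (HH.mk c hc), HH.map_mk]

theorem prod_vanish {d : ℕ} (hF : Van F d) (x : E n) {k : ℕ} (hk : n + d < k)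
    (α : HH (({x} : Set (E n)) ×ˢ (univ : Set F))ᶜ k) : α = 0 := by
  induction n generalizing k with
  | zero =>
    obtain ⟨φ, hφ⟩ := bprod_zero (F := F) x k
    exact hφ.1 (by rw [map_zero]; exact hF k (by omega) _)
  | succ n ih =>
    obtain ⟨k, rfl⟩ : ∃ j, k = j + 1 := ⟨k - 1, by omega⟩
    obtain ⟨y, φ, hφ⟩ := bprod_succ (F := F) x (k + 1)
    refine hφ.1 ?_
    rw [map_zero]
    exact susp_vanish (isClosed_singleton.prod isClosed_univ) (ih y (by omega)) _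

theorem prod_nonzero {d : ℕ} (h : ∃ α : HH (∅ : Set F) d, α ≠ 0) (x : E n) :
    ∃ β : HH (({x} : Set (E n)) ×ˢ (univ : Set F))ᶜ (n + d), β ≠ 0 := by
  induction n with
  | zero =>
    rw [Nat.zero_add]
    obtain ⟨φ, hφ⟩ := bprod_zero (F := F) x d
    obtain ⟨α, hα⟩ := h
    obtain ⟨β, rfl⟩ := hφ.2 α
    exact ⟨β, fun e => hα (by rw [e, map_zero])⟩
  | succ n ih =>
    rw [Nat.add_right_comm]
    obtain ⟨y, φ, hφ⟩ := bprod_succ (F := F) x (n + d + 1)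
    obtain ⟨α, hα⟩ := bprod_susp (isClosed_singleton.prod isClosed_univ) (ih y)
    obtain ⟨β, rfl⟩ := hφ.2 α
    exact ⟨β, fun e => hα (by rw [e, map_zero])⟩

end Pool.Agent.GeoN.Ser
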