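import Mathlib
import Pool.Agent.P.MP_365c00_gt.BProd

/-! Consequences of a local trivialisation up to fibre homotopy. -/

open Set Topology Function
open Pool.Agent.URC

namespace Pool.Agent.GeoN.Ser

variable {X Y F : Type} [TopologicalSpace X] [TopologicalSpace Y] [TopologicalSpace F] {n : ℕ}
  {e : C(Y, X)} {j : C(E n, X)}

theorem LocTriv.mapsTo (L : LocTriv e F j) (hj : Injective j) (K : Set (E n)) :
    MapsTo L.Ψ (K ×ˢ (univ : Set F))ᶜ (e ⁻¹' (j '' K))ᶜ := by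
  rintro z hz ⟨a, ha, h⟩
  rw [L.eΨ] at h
  exact hz ⟨hj h ▸ ha, trivial⟩

theorem LocTriv.bij [T2Space X] (L : LocTriv e F j) (hj : IsOpenEmbedding j) {K : Set (E n)}
    (hK : IsCompact K) (k : ℕ) :
    Bijective (HH.map L.Ψ (L.mapsTo hj.injective K) :
      HH (K ×ˢ (univ : Set F))ᶜ k → HH (e ⁻¹' (j '' K))ᶜ k) := by
  let i : C(e ⁻¹' range j, Y) := ⟨Subtype.val, continuous_subtype_val⟩
  let Ψ' : C(E n × F, e ⁻¹' range j) :=
    ⟨fun z => ⟨L.Ψ z, ⟨z.1, (L.eΨ z).symm⟩⟩, L.Ψ.continuous.subtype_mk _⟩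
  have hH : ∀ p, L.H1 p ∈ e ⁻¹' range j := fun p => by
    show e (L.H1 (p.1, p.2)) ∈ range j
    rw [L.H1_e]
    exact p.1.2
  let H' : C((e ⁻¹' range j) × unitInterval, e ⁻¹' range j) :=
    ⟨fun p => ⟨L.H1 p, hH p⟩, L.H1.continuous.subtype_mk hH⟩
  have hU : IsOpen (e ⁻¹' range j) := hj.isOpen_range.preimage e.continuous
  have hT : IsOpen (e ⁻¹' (j '' K))ᶜ :=
    ((hK.image j.continuous).isClosed.preimage e.continuous).isOpen_compl
  have m0 : MapsTo i (i ⁻¹' (e ⁻¹' (j '' K))ᶜ) (e ⁻¹' (j '' K))ᶜ := mapsTo_preimage _ _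
  have b1 := excision (k := k) i hU.isOpenEmbedding_subtypeVal hT (fun y => by
    by_cases hy : y ∈ e ⁻¹' range j
    · exact Or.inl ⟨⟨y, hy⟩, rfl⟩
    · exact Or.inr fun h => hy (image_subset_range _ _ h)) (fun _ h => h) m0
  have m1 : MapsTo Ψ' (K ×ˢ (univ : Set F))ᶜ (i ⁻¹' (e ⁻¹' (j '' K))ᶜ) :=
    L.mapsTo hj.injective K
  have m2 : MapsTo L.Φ (i ⁻¹' (e ⁻¹' (j '' K))ᶜ) (K ×ˢ (univ : Set F))ᶜ := fun y hy h =>
    hy ⟨_, h.1, L.eΦ y⟩
  have l1 : ∀ a : HH (K ×ˢ (univ : Set F))ᶜ k, HH.map L.Φ m2 (HH.map Ψ' m1 a) = a := fun a => by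
    rw [HH.map_map]
    refine (HH.map_homotopy _ (ContinuousMap.id _) L.H2 L.H2_zero L.H2_one ?_ _
      (mapsTo_id _) a).trans (HH.res_self Subset.rfl a)
    exact fun z hz t h => hz ⟨L.H2_e z t ▸ h.1, trivial⟩
  have l2 : ∀ b : HH (i ⁻¹' (e ⁻¹' (j '' K))ᶜ) k, HH.map Ψ' m1 (HH.map L.Φ m2 b) = b := fun b => by
    rw [HH.map_map]
    refine (HH.map_homotopy _ (ContinuousMap.id _) H' (fun y => Subtype.ext (L.H1_zero y))
      (fun y => Subtype.ext (L.H1_one y)) ?_ _ (mapsTo_id _) b).trans (HH.res_self Subset.rfl b)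
    intro y hy t h
    have h1 : e (L.H1 (y, t)) ∈ j '' K := h
    rw [L.H1_e] at h1
    exact hy h1
  have b2 : Bijective (HH.map Ψ' m1 : HH (K ×ˢ (univ : Set F))ᶜ k → _) :=
    bijective_iff_has_inverse.2 ⟨HH.map L.Φ m2, l1, l2⟩
  have h3 : (HH.map L.Ψ (L.mapsTo hj.injective K) : HH (K ×ˢ (univ : Set F))ᶜ k → _) =
      HH.map i m0 ∘ HH.map Ψ' m1 := funext fun a => (HH.map_map i Ψ' m0 m1 a).symm
  rw [h3]
  exact b1.comp b2

theorem fib_mapsTo (L : LocTriv e F j) (hj : Injective j) (z : E n) :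
    MapsTo L.Ψ (({z} : Set (E n)) ×ˢ (univ : Set F))ᶜ (e ⁻¹' {j z})ᶜ := by
  rw [← image_singleton]
  exact L.mapsTo hj _

theorem fib_bij [T2Space X] (L : LocTriv e F j) (hj : IsOpenEmbedding j) {K : Set (E n)}
    (hK : IsCompact K) {S : Set X} (hS : j '' K = S)
    (h : MapsTo L.Ψ (K ×ˢ (univ : Set F))ᶜ (e ⁻¹' S)ᶜ) (k : ℕ) :
    Bijective (HH.map L.Ψ h : HH (K ×ˢ (univ : Set F))ᶜ k → HH (e ⁻¹' S)ᶜ k) := by
  subst hS
  exact L.bij hj hK k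

theorem LocTriv.loc [T2Space X] (L : LocTriv e F j) (hj : IsOpenEmbedding j) {d : ℕ}
    (hF : Van F d) : Loc e (n + d) j := by
  have hp := fun z k => fib_bij L hj isCompact_singleton image_singleton
    (fib_mapsTo L hj.injective z) k
  refine ⟨hj, fun K hK hc z hz k => ?_, fun z k hk α => ?_⟩
  · have hs : (K ×ˢ (univ : Set F))ᶜ ⊆ (({z} : Set (E n)) ×ˢ (univ : Set F))ᶜ :=
      compl_subset_compl.2 (prod_mono (singleton_subset_iff.2 hz) Subset.rfl)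
    rw [← Bijective.of_comp_iff _ (L.bij hj hK k)]
    have h1 : (HH.res (sub_pt e (mem_image_of_mem j hz)) : HH (e ⁻¹' (j '' K))ᶜ k → _) ∘
        HH.map L.Ψ (L.mapsTo hj.injective K) =
        HH.map L.Ψ (fib_mapsTo L hj.injective z) ∘ HH.res hs := funext fun a => by
      simp only [comp_apply, HH.res_map, HH.map_res]
    rw [h1]
    exact (hp z k).comp (prod_res_bij hK.isBounded (hc.starConvex hz) hs k)
  · obtain ⟨a, rfl⟩ := (hp z k).2 α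
    rw [prod_vanish hF z hk a, map_zero]

theorem LocTriv.nonzero [T2Space X] (L : LocTriv e F j) (hj : IsOpenEmbedding j) {d : ℕ}
    (h : ∃ α : HH (∅ : Set F) d, α ≠ 0) (z : E n) :
    ∃ β : HH (e ⁻¹' {j z})ᶜ (n + d), β ≠ 0 := by
  obtain ⟨a, ha⟩ := prod_nonzero h z
  refine ⟨HH.map L.Ψ (fib_mapsTo L hj.injective z) a, fun h0 => ha ?_⟩
  exact (fib_bij L hj isCompact_singleton image_singleton (fib_mapsTo L hj.injective z) _).1
    (h0.trans (map_zero _).symm)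

theorem LocTriv.finComp (L : LocTriv e F j) (hj : Injective j) (hF : FinComp (univ : Set F))
    {K : Set (E n)} (hK : Convex ℝ K) : FinComp (e ⁻¹' (j '' K)) := by
  rcases K.eq_empty_or_nonempty with rfl | ⟨z₀, hz₀⟩
  · exact ⟨∅, finite_empty, fun y hy => by simp at hy⟩
  obtain ⟨S, hS, h⟩ := hF
  refine ⟨(fun s => L.Ψ (z₀, s)) '' S, hS.image _, fun y hy => ?_⟩
  let y' : e ⁻¹' range j := ⟨y, image_subset_range _ _ hy⟩
  obtain ⟨s, hs, h1⟩ := h (L.Φ y').2 trivial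
  refine ⟨_, mem_image_of_mem _ hs, ?_⟩
  have ha : (L.Φ y').1 ∈ K := by
    obtain ⟨a, ha, h2⟩ := hy
    exact hj (h2.trans (L.eΦ y').symm) ▸ ha
  have j1 : JoinedIn (e ⁻¹' (j '' K)) (L.Ψ (L.Φ y')) y :=
    ⟨⟨⟨fun t => L.H1 (y', t), by fun_prop⟩, L.H1_zero y', L.H1_one y'⟩, fun t => by
      show e (L.H1 (y', t)) ∈ j '' K
      rw [L.H1_e]
      exact hy⟩
  have j2 : JoinedIn (K ×ˢ (univ : Set F)) (L.Φ y') (z₀, s) :=
    ((hK.isPathConnected ⟨z₀, hz₀⟩).joinedIn _ ha _ hz₀).prod h1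
  refine j1.symm.trans ((j2.map L.Ψ.continuous).mono ?_)
  rintro _ ⟨z, hz, rfl⟩
  exact ⟨z.1, hz.1, (L.eΨ z).symm⟩

end Pool.Agent.GeoN.Ser
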