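import Mathlib

/-! TASK BFlat: points where a smooth map vanishes to infinite order (no geometry). -/

open Set Filter Topology Metric MeasureTheory
open scoped ContDiff

namespace Pool.Agent.GeoN

variable {W W' : Type} [NormedAddCommGroup W] [NormedSpace ℝ W] [NormedAddCommGroup W']
  [NormedSpace ℝ W']

/-- the points of `O` where all derivatives of `X` vanish -/
def Flat (X : W → W') (O : Set W) : Set W := {w | w ∈ O ∧ ∀ j : ℕ, iteratedFDeriv ℝ j X w = 0}

variable {X : W → W'} {O : Set W}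

theorem Flat.zero {w : W} (h : w ∈ Flat X O) : X w = 0 := by
  rw [← norm_eq_zero, ← norm_iteratedFDeriv_zero (𝕜 := ℝ), h.2 0, norm_zero]

theorem mem_flat_of_eventually {w : W} (hw : w ∈ O) (h : ∀ᶠ y in 𝓝 w, X y = 0) :
    w ∈ Flat X O := by
  refine ⟨hw, fun j => ?_⟩
  have h1 : X =ᶠ[𝓝 w] fun _ => (0 : W') := h
  rw [(h1.iteratedFDeriv ℝ j).self_of_nhds]
  simp

theorem mem_flat_of_closure (hO : IsOpen O) (hX : ContDiffOn ℝ ∞ X O) {w : W} (hw : w ∈ O)
    (h : w ∈ closure (Flat X O)) : w ∈ Flat X O := by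
  refine ⟨hw, fun j => ?_⟩
  have h1 : ContinuousAt (iteratedFDeriv ℝ j X) w :=
    (hX.contDiffAt (hO.mem_nhds hw)).continuousAt_iteratedFDeriv (by exact_mod_cast le_top)
  have h2 := h1.continuousWithinAt.mem_closure_image h
  have h3 : iteratedFDeriv ℝ j X '' Flat X O ⊆ {0} := by
    rintro _ ⟨y, hy, rfl⟩
    exact hy.2 j
  simpa using closure_mono h3 h2

theorem bFlat_diff (hO : IsOpen O) (hX : ContDiffOn ℝ ∞ X O) (i : ℕ) {y : W} (hy : y ∈ O) :
    DifferentiableAt ℝ (iteratedFDeriv ℝ i X) y :=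
  (hX.contDiffAt (hO.mem_nhds hy)).differentiableAt_iteratedFDeriv
    (by exact_mod_cast ENat.natCast_lt_top i)

theorem bFlat_pow (hO : IsOpen O) (hX : ContDiffOn ℝ ∞ X O) {w : W} (hw : w ∈ Flat X O) (m : ℕ) :
    ∀ i : ℕ, ∃ δ0 > 0, ball w δ0 ⊆ O ∧
      ∀ y ∈ ball w δ0, ‖iteratedFDeriv ℝ i X y‖ ≤ ‖y - w‖ ^ m := by
  induction m with
  | zero =>
    intro i
    have h1 := (bFlat_diff hO hX i hw.1).continuousAt.norm
    have h2 : ∀ᶠ y in 𝓝 w, ‖iteratedFDeriv ℝ i X y‖ < 1 :=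
      h1.eventually_lt continuousAt_const (by simp [hw.2 i])
    obtain ⟨δ, hδ, h3⟩ := Metric.mem_nhds_iff.1 (h2.and (hO.mem_nhds hw.1))
    exact ⟨δ, hδ, fun y hy => (h3 hy).2, fun y hy => by simpa using (h3 hy).1.le⟩
  | succ m ih =>
    intro i
    obtain ⟨δ, hδ, h1, h2⟩ := ih (i + 1)
    refine ⟨δ, hδ, h1, fun y hy => ?_⟩
    have h3 : closedBall w ‖y - w‖ ⊆ ball w δ :=
      closedBall_subset_ball (by rwa [← dist_eq_norm])
    have h4 := (convex_closedBall w ‖y - w‖).norm_image_sub_le_of_norm_fderiv_le (𝕜 := ℝ)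
      (f := iteratedFDeriv ℝ i X) (C := ‖y - w‖ ^ m) (x := w) (y := y)
      (fun z hz => bFlat_diff hO hX i (h1 (h3 hz)))
      (fun z hz => by
        rw [norm_fderiv_iteratedFDeriv]
        exact (h2 z (h3 hz)).trans
          (pow_le_pow_left₀ (norm_nonneg _) (mem_closedBall_iff_norm.1 hz) m))
      (mem_closedBall_self (norm_nonneg _)) (mem_closedBall_iff_norm.2 le_rfl)
    rwa [hw.2 i, sub_zero, ← pow_succ] at h4

theorem flat_est (hO : IsOpen O) (hX : ContDiffOn ℝ ∞ X O) {w : W} (hw : w ∈ Flat X O) (m : ℕ) :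
    ∃ C > 0, ∃ δ0 > 0, ball w δ0 ⊆ O ∧ ∀ δ, 0 < δ → δ ≤ δ0 → ∀ y ∈ ball w δ, ∀ y' ∈ ball w δ,
      ‖X y - X y'‖ ≤ C * δ ^ m * ‖y - y'‖ := by
  obtain ⟨δ0, h0, h1, h2⟩ := bFlat_pow hO hX hw m 1
  refine ⟨1, one_pos, δ0, h0, h1, fun δ _ hδ y hy y' hy' => ?_⟩
  have h3 : ball w δ ⊆ ball w δ0 := ball_subset_ball hδ
  rw [one_mul]
  refine (convex_ball w δ).norm_image_sub_le_of_norm_fderiv_le (𝕜 := ℝ) (fun z hz => ?_)
    (fun z hz => ?_) hy' hy
  · exact (hX.contDiffAt (hO.mem_nhds (h1 (h3 hz)))).differentiableAt (by simp)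
  · rw [← norm_iteratedFDeriv_one]
    exact (h2 z (h3 hz)).trans
      (pow_le_pow_left₀ (norm_nonneg _) (mem_ball_iff_norm.1 hz).le m)

theorem bFlat_ae [FiniteDimensional ℝ W] [MeasurableSpace W] [BorelSpace W]
    (μ : Measure W) [μ.IsAddHaarMeasure] {Y : W → W'} {s : Set W} (hs : MeasurableSet s)
    (hd : ∀ x ∈ s, DifferentiableAt ℝ Y x) (h0 : ∀ x ∈ s, Y x = 0) :
    ∀ᵐ x ∂μ.restrict s, fderiv ℝ Y x = 0 := by
  have h1 : ∀ x, ∃ T : W' →L[ℝ] W, T.comp (fderiv ℝ Y x) = 0 → fderiv ℝ Y x = 0 := by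
    intro x
    by_cases h : fderiv ℝ Y x = 0
    · exact ⟨0, fun _ => h⟩
    obtain ⟨v, hv⟩ : ∃ v, fderiv ℝ Y x v ≠ 0 := by
      by_contra h2
      push Not at h2
      exact h (ContinuousLinearMap.ext h2)
    obtain ⟨φ, -, hφ⟩ := exists_dual_vector ℝ (fderiv ℝ Y x v) (norm_ne_zero_iff.2 hv)
    refine ⟨φ.smulRight v, fun h2 => ?_⟩
    have h3 := congrArg (fun L : W →L[ℝ] W => L v) h2
    simp only [ContinuousLinearMap.comp_apply, ContinuousLinearMap.smulRight_apply, hφ,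
      zero_apply, smul_eq_zero] at h3
    rcases h3 with h3 | h3
    · exact absurd (norm_eq_zero.1 (by simpa using h3)) hv
    · rw [h3, map_zero] at hv
      exact absurd rfl hv
  choose T hT using h1
  have h2 : ApproximatesLinearOn (fun _ : W => (0 : W)) (0 : W →L[ℝ] W) s 0 := by
    intro x _ y _
    simp
  have h3 := h2.norm_fderiv_sub_le μ hs (fun x => (T x).comp (fderiv ℝ Y x)) fun x hx =>
    ((T x).hasFDerivAt.comp x (hd x hx).hasFDerivAt).hasFDerivWithinAt.congr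
      (fun y hy => by simp [h0 y hy]) (by simp [h0 x hx])
  filter_upwards [h3] with x hx
  exact hT x (by simpa using hx)

theorem null_diff_flat [FiniteDimensional ℝ W] [MeasurableSpace W] [BorelSpace W]
    (μ : Measure W) [μ.IsAddHaarMeasure] (hO : IsOpen O) (hX : ContDiffOn ℝ ∞ X O) :
    μ ({w | w ∈ O ∧ X w = 0} \ Flat X O) = 0 := by
  have h1 : ∀ j : ℕ, μ ({w | w ∈ O ∧ iteratedFDeriv ℝ j X w = 0} \
      {w | iteratedFDeriv ℝ (j + 1) X w = 0}) = 0 := by
    intro j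
    have h2 : ContinuousOn (iteratedFDeriv ℝ j X) O := fun y hy =>
      (bFlat_diff hO hX j hy).continuousAt.continuousWithinAt
    have h3 : MeasurableSet {w | w ∈ O ∧ iteratedFDeriv ℝ j X w = 0} := by
      have h4 := h2.isOpen_inter_preimage hO (isOpen_compl_singleton (x := 0))
      have h5 : {w | w ∈ O ∧ iteratedFDeriv ℝ j X w = 0}
          = O \ (O ∩ iteratedFDeriv ℝ j X ⁻¹' {0}ᶜ) := by
        ext w
        simp only [mem_ofPred_eq, Set.mem_sdiff, mem_inter_iff, mem_preimage, mem_compl_iff,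
          mem_singleton_iff]
        tauto
      rw [h5]
      exact hO.measurableSet.diff h4.measurableSet
    have h4 := bFlat_ae μ h3 (fun x hx => bFlat_diff hO hX j hx.1) fun x hx => hx.2
    rw [ae_restrict_iff' h3, ae_iff] at h4
    refine measure_mono_null (fun w hw => ?_) h4
    intro h5
    refine hw.2 ?_
    have h6 := h5 hw.1
    rw [mem_ofPred_eq, ← norm_eq_zero, ← norm_fderiv_iteratedFDeriv, h6]
    exact ContinuousLinearMap.opNorm_zero
  refine measure_mono_null (fun w hw => ?_) (measure_iUnion_null h1)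
  by_contra h2
  simp only [mem_iUnion, Set.mem_sdiff, mem_ofPred_eq, not_exists, not_and, not_not] at h2
  refine hw.2 ⟨hw.1.1, fun j => ?_⟩
  induction j with
  | zero => rw [← norm_eq_zero, norm_iteratedFDeriv_zero, hw.1.2, norm_zero]
  | succ j ih => exact h2 j ⟨hw.1.1, ih⟩

end Pool.Agent.GeoN
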