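import Mathlib
import Pool.Agent.P.MP_365c00_gt.BHDefs

/-! TASK BGood: Hatcher 3.27 over a base, and vanishing of homology above the dimension. -/

open Set Topology Function
open Pool.Agent.URC

namespace Pool.Agent.GeoN.Ser

variable {X Y : Type} [TopologicalSpace X] [TopologicalSpace Y] {n N : ℕ}

section aux

variable {e : C(Y, X)} {om : ∀ x : X, HH (e ⁻¹' {x})ᶜ N}

theorem good_empty : Gd e N om ∅ :=
  ⟨fun _ _ => HH.eq_zero_of_forall (by simp), fun α _ => HH.eq_zero_of_forall (by simp) α,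
    0, fun _ hx => absurd hx (notMem_empty _)⟩

theorem good_union {K L : Set X} (hK : IsClosed K) (hL : IsClosed L) (h1 : Gd e N om K)
    (h2 : Gd e N om L) (h3 : Gd e N om (K ∩ L)) : Gd e N om (K ∪ L) := by
  have hS : IsOpen (e ⁻¹' K)ᶜ := (hK.preimage e.continuous).isOpen_compl
  have hT : IsOpen (e ⁻¹' L)ᶜ := (hL.preimage e.continuous).isOpen_compl
  have e1 : (e ⁻¹' K)ᶜ ∪ (e ⁻¹' L)ᶜ = (e ⁻¹' (K ∩ L))ᶜ := by rw [preimage_inter, compl_inter]
  have e2 : (e ⁻¹' K)ᶜ ∩ (e ⁻¹' L)ᶜ = (e ⁻¹' (K ∪ L))ᶜ := by rw [preimage_union, compl_union]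
  have h0 : ∀ k, N ≤ k → ∀ γ : HH ((e ⁻¹' K)ᶜ ∪ (e ⁻¹' L)ᶜ) (k + 1), γ = 0 := fun k hk => by
    rw [e1]
    exact h3.van _ (by omega)
  refine ⟨fun k hk α => mv_inj hS hT e2.le (sub_pre e subset_union_left)
    (sub_pre e subset_union_right) (h0 k hk.le) α (h1.van k hk _) (h2.van k hk _),
    fun α h => mv_inj hS hT e2.le (sub_pre e subset_union_left)
    (sub_pre e subset_union_right) (h0 N le_rfl) α (h1.inj _ fun x hx => ?_)
    (h2.inj _ fun x hx => ?_), ?_⟩
  · rw [HH.res_res]; exact h x (Or.inl hx)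
  · rw [HH.res_res]; exact h x (Or.inr hx)
  · obtain ⟨α, hα⟩ := h1.ex
    obtain ⟨β, hβ⟩ := h2.ex
    have h4 : HH.res (sub_pre e (inter_subset_left (t := L))) α =
        HH.res (sub_pre e (inter_subset_right (s := K))) β :=
      sub_eq_zero.1 (h3.inj _ fun x hx => by
        rw [map_sub, HH.res_res, HH.res_res, hα x hx.1, hβ x hx.2, sub_self])
    have h5 := congrArg (HH.res e1.ge) h4
    rw [HH.res_res, HH.res_res] at h5
    obtain ⟨γ, k1, k2⟩ := mv_glue hS hT α β h5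
    refine ⟨HH.res e2.le γ, fun x hx => ?_⟩
    rcases hx with hx | hx
    · rw [← hα x hx, ← k1, HH.res_res, HH.res_res]
    · rw [← hβ x hx, ← k2, HH.res_res, HH.res_res]

theorem good_biUnion' (C : Set X → Prop) (hcl : ∀ A, C A → IsClosed A)
    (hP : ∀ A, C A → Gd e N om A) (hi : ∀ A B, C A → C B → C (A ∩ B)) {ι : Type} (s : Finset ι)
    (f : ι → Set X) (hf : ∀ i ∈ s, C (f i)) : Gd e N om (⋃ i ∈ s, f i) := by
  classical
  induction s using Finset.induction_on generalizing f with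
  | empty => simpa using good_empty
  | insert a s ha ih =>
    have h1 := hf a (Finset.mem_insert_self _ _)
    have h2 : ∀ i ∈ s, C (f i) := fun i hi => hf i (Finset.mem_insert_of_mem hi)
    rw [Finset.set_biUnion_insert]
    refine good_union (hcl _ h1) (isClosed_biUnion_finset fun i hi => hcl _ (h2 i hi))
      (hP _ h1) (ih f h2) ?_
    rw [inter_iUnion₂]
    exact ih _ fun i h => hi _ _ h1 (h2 i h)

variable {j : C(E n, X)}

theorem good_prop (hj : Loc e N j) {B : Set (E n)} (hB : IsCompact B) (hc : Convex ℝ B)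
    {k : ℕ} (α : HH (e ⁻¹' (j '' B))ᶜ k) {z w : E n} (hz : z ∈ B) (hw : w ∈ B)
    (h : HH.res (sub_pt e (mem_image_of_mem j hz)) α = 0) :
    HH.res (sub_pt e (mem_image_of_mem j hw)) α = 0 := by
  rw [(injective_iff_map_eq_zero _).1 (hj.bij B hB hc z hz k).1 α h, map_zero]

theorem good_convex' (hj : Loc e N j) (hom : Cons e N om) {K : Set (E n)} (hK : IsCompact K)
    (hc : Convex ℝ K) : Gd e N om (j '' K) := by
  rcases K.eq_empty_or_nonempty with rfl | ⟨z₀, hz₀⟩
  · simpa using good_empty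
  have hb := fun k => (injective_iff_map_eq_zero _).1 (hj.bij K hK hc z₀ hz₀ k).1
  refine ⟨fun k hk α => hb k α (hj.van z₀ k hk _), fun α h => hb N α (h _ (mem_image_of_mem j hz₀)), ?_⟩
  obtain ⟨α, hα⟩ := (hj.bij K hK hc z₀ hz₀ N).2 (om (j z₀))
  refine ⟨α, ?_⟩
  set P : E n → Prop := fun z => ∀ hz : z ∈ K,
    HH.res (sub_pt e (mem_image_of_mem j hz)) α = om (j z) with hP
  have key : ∀ z ∈ K, ∀ᶠ w in 𝓝[K] z, (P z ↔ P w) := by
    intro z hz
    obtain ⟨K', hK', α', hα'⟩ := hom (j z)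
    obtain ⟨r, hr, hsub⟩ := Metric.nhds_basis_closedBall.mem_iff.1
      (j.continuous.continuousAt.preimage_mem_nhds hK')
    have hB : IsCompact (K ∩ Metric.closedBall z r) := hK.inter_right Metric.isClosed_closedBall
    have hBc : Convex ℝ (K ∩ Metric.closedBall z r) := hc.inter (convex_closedBall _ _)
    have s1 : j '' (K ∩ Metric.closedBall z r) ⊆ j '' K := image_mono inter_subset_left
    have s2 : j '' (K ∩ Metric.closedBall z r) ⊆ K' := by
      rintro _ ⟨w, hw, rfl⟩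
      exact hsub hw.2
    have hiff : ∀ w (hw : w ∈ K ∩ Metric.closedBall z r), P w ↔
        HH.res (sub_pt e (mem_image_of_mem j hw))
          (HH.res (sub_pre e s1) α - HH.res (sub_pre e s2) α') = 0 := fun w hw => by
      rw [map_sub, HH.res_res, HH.res_res, hα' (j w) (hsub hw.2), sub_eq_zero]
      exact ⟨fun h => h hw.1, fun h _ => h⟩
    have hzB : z ∈ K ∩ Metric.closedBall z r := ⟨hz, Metric.mem_closedBall_self hr.le⟩
    filter_upwards [inter_mem_nhdsWithin K (Metric.closedBall_mem_nhds z hr)] with w hw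
    rw [hiff z hzB, hiff w hw]
    exact ⟨good_prop hj hB hBc _ hzB hw, good_prop hj hB hBc _ hw hzB⟩
  rintro _ ⟨z, hz, rfl⟩
  have h1 : P z₀ ↔ P z :=
    hc.isPreconnected.induction₂ (fun a b => P a ↔ P b) key (fun _ _ _ _ _ _ h h' => h.trans h')
      (fun _ _ _ _ h => h.symm) hz₀ hz
  exact h1.1 (fun _ => hα) hz

theorem good_balls {A : Set (E n)} (hA : IsCompact A) [T2Space X] {k : ℕ}
    (α : HH (e ⁻¹' (j '' A))ᶜ k) :
    ∃ (s : Finset (E n)) (r : E n → ℝ) (h : A ⊆ ⋃ x ∈ s, Metric.closedBall x (r x))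
      (β : HH (e ⁻¹' (j '' ⋃ x ∈ s, Metric.closedBall x (r x)))ᶜ k),
      (∀ x ∈ s, x ∈ A ∧ 0 < r x) ∧ HH.res (sub_pre e (image_mono h)) β = α := by
  obtain ⟨c, hc, rfl⟩ := HH.exists_mk α
  have hcl : IsClosed (j ⁻¹' (e '' car (bd c))) :=
    ((isCompact_car (bd c)).image e.continuous).isClosed.preimage j.continuous
  have h1 : ∀ x : E n, ∃ r : ℝ, 0 < r ∧
      (x ∈ A → Metric.closedBall x r ⊆ (j ⁻¹' (e '' car (bd c)))ᶜ) := fun x => by
    by_cases hx : x ∈ A
    · obtain ⟨r, hr, h⟩ := Metric.nhds_basis_closedBall.mem_iff.1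
        (hcl.isOpen_compl.mem_nhds (x := x) fun ⟨y, hy, e1⟩ =>
          mem_ChIn_iff_car.1 hc hy ⟨x, hx, e1.symm⟩)
      exact ⟨r, hr, fun _ => h⟩
    · exact ⟨1, one_pos, fun h => absurd h hx⟩
  choose r hr h1 using h1
  obtain ⟨s, hs, h2⟩ := hA.elim_nhds_subcover (fun x => Metric.closedBall x (r x))
    fun x _ => Metric.closedBall_mem_nhds x (hr x)
  refine ⟨s, r, h2, HH.mk c (mem_ChIn_iff_car.2 fun y hy h => ?_),
    fun x hx => ⟨hs x hx, hr x⟩, HH.res_mk _ _ _⟩
  obtain ⟨w, hw, e1⟩ := h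
  obtain ⟨x, hx, h⟩ := mem_iUnion₂.1 hw
  exact h1 x (hs x hx) h ⟨y, hy, e1.symm⟩

theorem good_chart [T2Space X] (hj : Loc e N j) (hom : Cons e N om) {A : Set (E n)}
    (hA : IsCompact A) : Gd e N om (j '' A) := by
  have key : ∀ (s : Finset (E n)) (r : E n → ℝ),
      Gd e N om (j '' ⋃ x ∈ s, Metric.closedBall x (r x)) := fun s r => by
    rw [image_iUnion₂]
    refine good_biUnion' (fun A => ∃ B, IsCompact B ∧ Convex ℝ B ∧ A = j '' B) ?_ ?_ ?_ s _
      fun x _ => ⟨_, isCompact_closedBall _ _, convex_closedBall _ _, rfl⟩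
    · rintro _ ⟨B, hB, -, rfl⟩
      exact (hB.image j.continuous).isClosed
    · rintro _ ⟨B, hB, hc, rfl⟩
      exact good_convex' hj hom hB hc
    · rintro _ _ ⟨B, hB, hc, rfl⟩ ⟨B', hB', hc', rfl⟩
      exact ⟨_, hB.inter hB', hc.inter hc', (image_inter hj.emb.injective).symm⟩
  refine ⟨fun k hk α => ?_, fun α h => ?_, ?_⟩
  · obtain ⟨s, r, h, β, -, rfl⟩ := good_balls hA α
    rw [(key s r).van k hk β, map_zero]
  · obtain ⟨s, r, h1, β, h2, rfl⟩ := good_balls hA α
    rw [(key s r).inj β ?_, map_zero]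
    rintro _ ⟨y, hy, rfl⟩
    obtain ⟨x, hx, h3⟩ := mem_iUnion₂.1 hy
    have k1 : j '' Metric.closedBall x (r x) ⊆ j '' ⋃ x ∈ s, Metric.closedBall x (r x) :=
      image_mono (subset_iUnion₂ (s := fun x (_ : x ∈ s) => Metric.closedBall x (r x)) x hx)
    have k2 : x ∈ Metric.closedBall x (r x) := Metric.mem_closedBall_self (h2 x hx).2.le
    have k4 := good_prop hj (isCompact_closedBall x (r x)) (convex_closedBall x (r x))
      (HH.res (sub_pre e k1) β) k2 h3 (by
        have := h (j x) (mem_image_of_mem j (h2 x hx).1)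
        rw [HH.res_res] at this ⊢
        exact this)
    rw [HH.res_res] at k4
    exact k4
  · obtain ⟨R, hR⟩ := hA.isBounded.subset_closedBall 0
    obtain ⟨α, hα⟩ :=
      (good_convex' hj hom (isCompact_closedBall (0 : E n) R) (convex_closedBall _ _)).ex
    refine ⟨HH.res (sub_pre e (image_mono hR)) α, fun x hx => ?_⟩
    rw [HH.res_res]
    exact hα x (image_mono hR hx)

end aux

theorem good_of_compact [T2Space X] {e : C(Y, X)} {om : ∀ x : X, HH (e ⁻¹' {x})ᶜ N}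
    (hX : ∀ x : X, ∃ j : C(E n, X), Loc e N j ∧ x ∈ range j) (hom : Cons e N om)
    {K : Set X} (hK : IsCompact K) : Gd e N om K := by
  choose J hJ hJx using hX
  have h1 : ∀ x : X, ∃ A : Set (E n), IsCompact A ∧ J x '' A ∈ 𝓝 x := fun x => by
    obtain ⟨z, hz⟩ := hJx x
    refine ⟨Metric.closedBall z 1, isCompact_closedBall _ _, ?_⟩
    have := (hJ x).emb.image_mem_nhds.2 (Metric.closedBall_mem_nhds z one_pos)
    rwa [hz] at this
  choose A hA hA' using h1
  obtain ⟨s, -, h2⟩ := hK.elim_nhds_subcover (fun x => J x '' A x) fun x _ => hA' x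
  have e1 : K = ⋃ x ∈ s, J x '' (A x ∩ J x ⁻¹' K) := by
    simp only [image_inter_preimage]
    rw [← iUnion₂_inter]
    exact (inter_eq_right.2 h2).symm
  rw [e1]
  refine good_biUnion' (fun B => ∃ x B', IsCompact B' ∧ B = J x '' B') ?_ ?_ ?_ s _
    fun x _ => ⟨x, _, (hA x).inter_right (hK.isClosed.preimage (J x).continuous), rfl⟩
  · rintro _ ⟨x, B, hB, rfl⟩
    exact (hB.image (J x).continuous).isClosed
  · rintro _ ⟨x, B, hB, rfl⟩
    exact good_chart (hJ x) hom hB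
  · rintro _ _ ⟨x, B, hB, rfl⟩ ⟨x', B', hB', rfl⟩
    exact ⟨x, _, hB.inter_right ((hB'.image (J x').continuous).isClosed.preimage
      (J x).continuous), (image_inter_preimage _ _ _).symm⟩

end Pool.Agent.GeoN.Ser
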