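import Mathlib

/-! TASK BIter: iterates of a map close to the identity (no geometry). -/

open Set Filter Topology Metric Function

namespace Pool.Agent.GeoN

variable {E : Type} [NormedAddCommGroup E] [NormedSpace ℝ E] [CompleteSpace E]
  {f : E × E → E × E} {w1 : E × E} {δ η : ℝ} {K : ℕ}

/-- `f` fixes `w1` and `f - id` is `η`-Lipschitz on the ball of radius `10 δ` -/
structure NearId (f : E × E → E × E) (w1 : E × E) (δ η : ℝ) (K : ℕ) : Prop where
  δ_pos : 0 < δ
  η_nonneg : 0 ≤ η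
  fix : f w1 = w1
  lip : ∀ y ∈ ball w1 (10 * δ), ∀ y' ∈ ball w1 (10 * δ),
    ‖(f y - y) - (f y' - y')‖ ≤ η * ‖y - y'‖
  small : K * η ≤ 1 / 100

omit [NormedSpace ℝ E] [CompleteSpace E] in
theorem biter_small (h : NearId f w1 δ η K) {j : ℕ} (hj : j ≤ K) : j * η ≤ 1 / 100 :=
  (mul_le_mul_of_nonneg_right (Nat.cast_le.2 hj) h.η_nonneg).trans h.small

omit [NormedSpace ℝ E] [CompleteSpace E] in
theorem biter_mem (h : NearId f w1 δ η K) {y z : E × E} (hy : y ∈ ball w1 (5 * δ)) {j : ℕ}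
    (hj : j ≤ K) (hz : ‖z - y‖ ≤ j * η * (10 * δ)) : z ∈ ball w1 (10 * δ) := by
  have h1 := biter_small h hj
  have h2 := h.δ_pos
  rw [mem_ball, dist_eq_norm] at hy ⊢
  have h3 := norm_sub_le_norm_sub_add_norm_sub z y w1
  nlinarith

omit [NormedSpace ℝ E] [CompleteSpace E] in
theorem biter_move (h : NearId f w1 δ η K) {y : E × E} (hy : y ∈ ball w1 (5 * δ)) {j : ℕ}
    (hj : j ≤ K) : ‖f^[j] y - y‖ ≤ j * η * (10 * δ) := by
  induction j with
  | zero => simp
  | succ j ih =>
    have h1 := ih (by omega)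
    have h2 := biter_mem h hy (by omega) h1
    have h3 := h.lip _ h2 w1 (mem_ball_self (by linarith [h.δ_pos]))
    rw [h.fix, sub_self, sub_zero] at h3
    rw [mem_ball, dist_eq_norm] at h2
    have h4 := mul_le_mul_of_nonneg_left h2.le h.η_nonneg
    have h5 := norm_sub_le_norm_sub_add_norm_sub (f (f^[j] y)) (f^[j] y) y
    rw [iterate_succ_apply']
    push_cast
    linarith

theorem NearId.mem (h : NearId f w1 δ η K) {y : E × E} (hy : y ∈ ball w1 (5 * δ)) {j : ℕ}
    (hj : j ≤ K) : f^[j] y ∈ ball w1 (10 * δ) := by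
  exact biter_mem h hy hj (biter_move h hy hj)

theorem biter_diff (h : NearId f w1 δ η K) {y y' : E × E} (hy : y ∈ ball w1 (5 * δ))
    (hy' : y' ∈ ball w1 (5 * δ)) {j : ℕ} (hj : j ≤ K) :
    ‖(f^[j] y - y) - (f^[j] y' - y')‖ ≤ 2 * (j * η) * ‖y - y'‖ := by
  induction j with
  | zero => simp
  | succ j ih =>
    have hj' : j ≤ K := by omega
    have h1 := ih hj'
    have h2 := h.lip _ (h.mem hy hj') _ (h.mem hy' hj')
    have h3 := biter_small h hj'
    have h0 := norm_nonneg (y - y')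
    have h4 : ‖f^[j] y - f^[j] y'‖ ≤ 2 * ‖y - y'‖ := by
      have e : f^[j] y - f^[j] y' = ((f^[j] y - y) - (f^[j] y' - y')) + (y - y') := by abel
      rw [e]
      refine (norm_add_le _ _).trans ?_
      nlinarith
    have h5 := mul_le_mul_of_nonneg_left h4 h.η_nonneg
    rw [iterate_succ_apply', iterate_succ_apply']
    have e : f (f^[j] y) - y - (f (f^[j] y') - y')
        = ((f (f^[j] y) - f^[j] y) - (f (f^[j] y') - f^[j] y'))
          + ((f^[j] y - y) - (f^[j] y' - y')) := by abel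
    rw [e]
    refine (norm_add_le _ _).trans ?_
    push_cast
    linarith

theorem biter_step (h : NearId f w1 δ η K) {y : E × E} (hy : y ∈ ball w1 (5 * δ)) {j : ℕ}
    (hj : j ≤ K) (h1 : ‖f^[j] y - y‖ ≤ 2 * j * ‖f y - y‖) :
    ‖(f (f^[j] y) - f^[j] y) - (f y - y)‖ ≤ ‖f y - y‖ / 50 := by
  have h2 := h.lip _ (h.mem hy hj) _ (h.mem hy (Nat.zero_le K))
  have h3 := biter_small h hj
  have h4 := mul_le_mul_of_nonneg_left h1 h.η_nonneg
  have h0 := norm_nonneg (f y - y)
  simp only [iterate_zero, id] at h2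
  nlinarith

theorem biter_lin (h : NearId f w1 δ η K) {y : E × E} (hy : y ∈ ball w1 (5 * δ)) {j : ℕ}
    (hj : j ≤ K) : ‖f^[j] y - y‖ ≤ 2 * j * ‖f y - y‖ := by
  induction j with
  | zero => simp
  | succ j ih =>
    have hj' : j ≤ K := by omega
    have h1 := ih hj'
    have h2 := biter_step h hy hj' h1
    have h0 := norm_nonneg (f y - y)
    rw [iterate_succ_apply']
    have e : f (f^[j] y) - y
        = ((f (f^[j] y) - f^[j] y) - (f y - y)) + (f y - y) + (f^[j] y - y) := by abel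
    rw [e]
    refine (norm_add₃_le).trans ?_
    push_cast
    linarith

theorem biter_sum (h : NearId f w1 δ η K) {y : E × E} (hy : y ∈ ball w1 (5 * δ)) (j : ℕ) {n : ℕ}
    (hn : j + n ≤ K) : ‖f^[j + n] y - f^[j] y - (n : ℝ) • (f y - y)‖ ≤ n * (‖f y - y‖ / 50) := by
  induction n with
  | zero => simp
  | succ n ih =>
    have hn' : j + n ≤ K := by omega
    have h1 := ih hn'
    have h2 := biter_step h hy hn' (biter_lin h hy hn')
    rw [← add_assoc, iterate_succ_apply']
    have e : f (f^[j + n] y) - f^[j] y - ((n + 1 : ℕ) : ℝ) • (f y - y)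
        = ((f (f^[j + n] y) - f^[j + n] y) - (f y - y))
          + (f^[j + n] y - f^[j] y - (n : ℝ) • (f y - y)) := by
      rw [Nat.cast_succ, add_smul, one_smul]
      abel
    rw [e]
    refine (norm_add_le _ _).trans ?_
    push_cast
    linarith

theorem NearId.solve (h : NearId f w1 δ η K) {w : E × E} (hw : w ∈ ball w1 (3 * δ)) {k : ℕ}
    (hk : k ≤ K) : ∃ y ∈ ball w1 (5 * δ), y.1 = w.1 ∧ (f^[k] y).2 = w.2 := by
  have hδ := h.δ_pos
  have hs := biter_small h hk
  have hm : ∀ b ∈ closedBall w.2 δ, (w.1, b) ∈ ball w1 (5 * δ) := by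
    intro b hb
    have h1 : dist (w.1, b) w ≤ δ := by
      rw [Prod.dist_eq, dist_self]
      exact max_le hδ.le hb
    rw [mem_ball] at hw ⊢
    linarith [dist_triangle (w.1, b) w w1]
  set Φ : E → E := fun b => w.2 - ((f^[k] (w.1, b)).2 - b) with hΦ
  have hmaps : MapsTo Φ (closedBall w.2 δ) (closedBall w.2 δ) := by
    intro b hb
    have h1 := biter_move h (hm b hb) hk
    have h2 := norm_snd_le (f^[k] (w.1, b) - (w.1, b))
    rw [mem_closedBall, dist_eq_norm, hΦ]
    simp only [sub_sub_cancel_left, norm_neg]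
    simp only [Prod.snd_sub] at h2
    nlinarith
  have hc : ContractingWith (1 / 50) (hmaps.restrict Φ _ _) := by
    refine ⟨by norm_num, LipschitzWith.of_dist_le_mul fun a b => ?_⟩
    have h1 := biter_diff h (hm a a.2) (hm b b.2) hk
    have h2 := norm_snd_le
      ((f^[k] (w.1, a) - (w.1, (a : E))) - (f^[k] (w.1, b) - (w.1, (b : E))))
    have h3 : ‖(w.1, (a : E)) - (w.1, (b : E))‖ = ‖(a : E) - b‖ := by simp
    have h4 : Φ a - Φ b = -(((f^[k] (w.1, a)).2 - a) - ((f^[k] (w.1, b)).2 - b)) := by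
      simp only [hΦ]
      abel
    rw [Subtype.dist_eq, Subtype.dist_eq, dist_eq_norm, dist_eq_norm]
    simp only [MapsTo.val_restrict_apply]
    simp only [Prod.snd_sub] at h2
    rw [h3] at h1
    rw [h4, norm_neg]
    have h0 := norm_nonneg ((a : E) - b)
    push_cast
    nlinarith
  obtain ⟨b, hb, hfix, -⟩ := hc.exists_fixedPoint' isClosed_closedBall.isComplete hmaps
    (mem_closedBall_self hδ.le) (edist_ne_top _ _)
  refine ⟨(w.1, b), hm b hb, rfl, ?_⟩
  have h1 : w.2 - ((f^[k] (w.1, b)).2 - b) = b := hfix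
  rw [sub_sub_eq_add_sub, sub_eq_iff_eq_add, add_comm] at h1
  exact (add_left_cancel h1).symm

theorem NearId.fixed (h : NearId f w1 δ η K) {y : E × E} (hy : y ∈ ball w1 (5 * δ)) {j j' : ℕ}
    (hj : j < j') (hj' : j' ≤ K) (e : f^[j] y = f^[j'] y) : f y = y := by
  obtain ⟨n, rfl⟩ := Nat.exists_eq_add_of_le hj.le
  have h1 := biter_sum h hy j hj'
  have hn : (0 : ℝ) < n := by exact_mod_cast (by omega : 0 < n)
  rw [← e, sub_self, zero_sub, norm_neg, norm_smul, Real.norm_of_nonneg hn.le] at h1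
  have h2 := le_of_mul_le_mul_left h1 hn
  have h3 : ‖f y - y‖ = 0 := by linarith [norm_nonneg (f y - y)]
  exact sub_eq_zero.1 (norm_eq_zero.1 h3)

end Pool.Agent.GeoN
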