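import Mathlib
import Pool.Agent.P.MP_365c00_gt.BCount
import Pool.Agent.P.MP_365c00_gt.BFlat
import Pool.Agent.P.MP_365c00_gt.BIter

/-! TASK BKey: under the moment condition the flat set of a return map is open. -/

set_option linter.unusedSectionVars false
set_option linter.unusedVariables false

open Set Filter Topology Metric Function
open scoped Manifold ContDiff

namespace Pool.Agent.GeoN

variable {E : Type} [NormedAddCommGroup E] [InnerProductSpace ℝ E] [FiniteDimensional ℝ E]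
  {M : Type} [TopologicalSpace M] [ChartedSpace E M] [IsManifold 𝓘(ℝ, E) ∞ M]
  [T2Space M] [CompactSpace M] [Nonempty M] [Nontrivial E]

open MeasureTheory

variable {g : Met E M} {sh : Short g} {x : M} {w0 : E × E} {τ : ℝ}
  [MeasurableSpace (E × E)] [BorelSpace (E × E)]

theorem Box.key_smooth (b : Box sh x w0 τ) :
    ContDiffOn ℝ ∞ (fun w => b.f w - w) (ball w0 b.r) :=
  b.f_smooth.sub contDiffOn_id

theorem Box.key_c_pos (b : Box sh x w0 τ) : 0 < τ ∧ 0 < b.c := by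
  have h1 := b.θ_pos
  have h2 := b.θ_τ
  have h3 := b.θ_c
  have h4 : 0 < τ := by linarith
  refine ⟨h4, lt_trans ?_ h3⟩
  positivity

theorem Box.key_count (b : Box sh x w0 τ) {w1 : E × E}
    (hw1 : w1 ∈ Flat (fun w => b.f w - w) (ball w0 b.r)) {m : ℕ} (hm : 1 ≤ m) :
    ∃ A > 0, ∃ δ1 > 0, ∀ d : ℝ, 0 < d → d ≤ δ1 → ball w1 (3 * d) ⊆ ball w0 b.r ∧
      ∀ w ∈ ball w1 (3 * d), b.f w ≠ w → ENNReal.ofReal (A / d ^ m) ≤ num g x x w := by
  obtain ⟨hτ, hc⟩ := b.key_c_pos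
  obtain ⟨C, hC, δ0, hδ0, hsub, hest⟩ := flat_est isOpen_ball b.key_smooth hw1 m
  obtain ⟨al, hal0, hal1, hal2⟩ : ∃ al : ℝ, 0 < al ∧ al ≤ 1 ∧ al * (τ + 1) ≤ b.c / 4 := by
    refine ⟨min 1 (b.c / (4 * (τ + 1))), lt_min one_pos (by positivity), min_le_left _ _, ?_⟩
    have h1 : min 1 (b.c / (4 * (τ + 1))) ≤ b.c / (4 * (τ + 1)) := min_le_right _ _
    have h2 : b.c / (4 * (τ + 1)) * (τ + 1) = b.c / 4 := by field_simp
    rw [← h2]
    exact mul_le_mul_of_nonneg_right h1 (by positivity)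
  obtain ⟨B, hB⟩ : ∃ B : ℝ, B = 4 / b.c + 2 := ⟨_, rfl⟩
  have hB0 : 0 < 4 / b.c := by positivity
  have hBpos : 0 < B := by rw [hB]; positivity
  refine ⟨al / (200 * C * 10 ^ m), by positivity,
    min (δ0 / 10) (min (1 / 10) (1 / (1000 * C * B))), by positivity, ?_⟩
  intro d hd hdle
  have hd1 : 10 * d ≤ δ0 := by
    have := hdle.trans (min_le_left _ _); linarith
  have hd2 : 10 * d ≤ 1 := by
    have := (hdle.trans (min_le_right _ _)).trans (min_le_left _ _); linarith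
  have hd3 : d * (1000 * C * B) ≤ 1 := by
    have := (hdle.trans (min_le_right _ _)).trans (min_le_right _ _)
    rwa [le_div_iff₀ (by positivity)] at this
  have hball : ball w1 (10 * d) ⊆ ball w0 b.r := (ball_subset_ball hd1).trans hsub
  refine ⟨(ball_subset_ball (by linarith)).trans hball, ?_⟩
  intro w hw hne
  obtain ⟨η, hη⟩ : ∃ η : ℝ, η = C * (10 * d) ^ m := ⟨_, rfl⟩
  have hη0 : 0 < η := by rw [hη]; positivity
  have hpow : (10 * d) ^ m ≤ 10 * d := pow_le_of_le_one (by positivity) hd2 (by omega)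
  have hη1 : 100 * η * B ≤ 1 := by
    have h1 : η ≤ C * (10 * d) := by rw [hη]; exact mul_le_mul_of_nonneg_left hpow hC.le
    have h2 : 100 * η * B ≤ 100 * (C * (10 * d)) * B :=
      mul_le_mul_of_nonneg_right (by linarith) hBpos.le
    nlinarith
  obtain ⟨u, hu⟩ : ∃ u : ℝ, u = 1 / (100 * η) := ⟨_, rfl⟩
  have hu0 : 0 < u := by rw [hu]; positivity
  have huB : B ≤ u := by
    rw [hu, le_div_iff₀ (by positivity)]; linarith
  obtain ⟨K, hK⟩ : ∃ K : ℕ, K = ⌊u⌋₊ := ⟨_, rfl⟩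
  have hK1 : (K : ℝ) ≤ u := by rw [hK]; exact Nat.floor_le hu0.le
  have hK2 : u < K + 1 := by rw [hK]; exact Nat.lt_floor_add_one u
  have hN : NearId b.f w1 d η K := by
    have h0 := Flat.zero hw1
    refine ⟨hd, hη0.le, sub_eq_zero.1 h0, ?_, ?_⟩
    · intro y hy y' hy'
      rw [hη]
      exact hest (10 * d) (by positivity) hd1 y hy y' hy'
    · have h1 : (K : ℝ) * η ≤ u * η := mul_le_mul_of_nonneg_right hK1 hη0.le
      have h2 : u * η = 1 / 100 := by rw [hu]; field_simp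
      linarith
  have hsol : ∀ k : ℕ, ∃ y : E × E, k ≤ K →
      y ∈ ball w1 (5 * d) ∧ y.1 = w.1 ∧ (b.f^[k] y).2 = w.2 := by
    intro k
    by_cases hk : k ≤ K
    · obtain ⟨y, hy, h⟩ := hN.solve hw hk
      exact ⟨y, fun _ => ⟨hy, h⟩⟩
    · exact ⟨w, fun h => absurd h hk⟩
  choose y hy using hsol
  obtain ⟨K', hK'⟩ : ∃ K' : ℕ, K' = ⌊al * K⌋₊ := ⟨_, rfl⟩
  have hKn : (0 : ℝ) ≤ K := Nat.cast_nonneg K
  have hK'1 : (K' : ℝ) ≤ al * K := by rw [hK']; exact Nat.floor_le (by positivity)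
  have hK'2 : al * K < K' + 1 := by rw [hK']; exact Nat.lt_floor_add_one _
  have hK'K : K' ≤ K := by
    have : (K' : ℝ) ≤ K := hK'1.trans (by nlinarith)
    exact_mod_cast this
  have hcK : 4 < b.c * K := by
    have h1 : 4 / b.c < K := by linarith
    rw [div_lt_iff₀ hc] at h1
    linarith
  have hcount := b.count (K := K) (K' := K') (w := w)
    (hball (ball_subset_ball (by linarith) hw)) y
    (fun k hk => (hy k (hk.trans hK'K)).2)
    (fun k hk j hj => hball (hN.mem (hy k (hk.trans hK'K)).1 hj))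
    (fun k hk j j' hj hj' e => by
      obtain ⟨h1, h2, h3⟩ := hy k (hk.trans hK'K)
      have hf : b.f (y k) = y k := hN.fixed h1 hj hj' e
      have hi : b.f^[k] (y k) = y k := Function.iterate_fixed hf k
      rw [hi] at h3
      have hyw : y k = w := Prod.ext h2 h3
      rw [hyw] at hf
      exact hne hf)
    hK'K
    (by
      have h1 : (K' : ℝ) * (τ + 1) ≤ al * K * (τ + 1) :=
        mul_le_mul_of_nonneg_right hK'1 (by positivity)
      have h2 : al * (τ + 1) * K ≤ b.c / 4 * K := mul_le_mul_of_nonneg_right hal2 hKn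
      nlinarith)
  refine le_trans ?_ hcount
  rw [← ENNReal.ofReal_natCast]
  apply ENNReal.ofReal_le_ofReal
  have h1 : al / (200 * C * 10 ^ m) / d ^ m = al * (u / 2) := by
    rw [hu, hη, mul_pow]; field_simp; ring
  have h2 : u / 2 ≤ K := by linarith
  have h3 : al * (u / 2) ≤ al * K := mul_le_mul_of_nonneg_left h2 hal0.le
  rw [h1]
  push_cast
  linarith

theorem Box.key_touch (b : Box sh x w0 τ) (μ : Measure (E × E)) [μ.IsAddHaarMeasure] {s : ℝ}
    (hs : 0 < s) (hμ : ∫⁻ w in ball w0 b.r, num g x x w ^ s ∂μ < ⊤) {w1 c : E × E}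
    (hw1 : w1 ∈ Flat (fun w => b.f w - w) (ball w0 b.r)) (hc : 0 < dist c w1)
    (hno : ∀ y ∈ ball c (dist c w1), y ∉ Flat (fun w => b.f w - w) (ball w0 b.r)) : False := by
  obtain ⟨D, hD⟩ : ∃ D : ℕ, D = Module.finrank ℝ (E × E) := ⟨_, rfl⟩
  obtain ⟨m, hm⟩ := exists_nat_ge (((D : ℝ) + 1) / s)
  have hms : (D : ℝ) + 1 ≤ m * s := by rwa [div_le_iff₀ hs] at hm
  have hm1 : 1 ≤ m := by
    rcases Nat.eq_zero_or_pos m with h | h
    · rw [h] at hms
      have : (0 : ℝ) ≤ D := Nat.cast_nonneg D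
      simp only [Nat.cast_zero, zero_mul] at hms
      linarith
    · exact h
  obtain ⟨A, hA, δ1, hδ1, hcnt⟩ := b.key_count hw1 hm1
  obtain ⟨R, hR⟩ : ∃ R : ℝ, R = dist c w1 := ⟨_, rfl⟩
  rw [← hR] at hc hno
  obtain ⟨I, hI⟩ : ∃ I, I = ∫⁻ w in ball w0 b.r, num g x x w ^ s ∂μ := ⟨_, rfl⟩
  have hI0 : 0 ≤ I.toReal := ENNReal.toReal_nonneg
  have hβ0 : μ (ball (0 : E × E) 1) ≠ 0 := (measure_ball_pos μ _ one_pos).ne'
  have hβ1 : μ (ball (0 : E × E) 1) ≠ ⊤ := measure_ball_lt_top.ne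
  obtain ⟨β, hβ⟩ : ∃ β : ℝ, β = (μ (ball (0 : E × E) 1)).toReal := ⟨_, rfl⟩
  have hβpos : 0 < β := by rw [hβ]; exact ENNReal.toReal_pos hβ0 hβ1
  have hAs : 0 < A ^ s := Real.rpow_pos_of_pos hA s
  obtain ⟨d, hd, hd1, hd2, hd3, hd4⟩ : ∃ d : ℝ, 0 < d ∧ d ≤ δ1 ∧ d ≤ 1 ∧ 2 * d ≤ R ∧
      d * (I.toReal + 1) ≤ A ^ s * β := by
    refine ⟨min (min δ1 1) (min (R / 2) (A ^ s * β / (I.toReal + 1))), by positivity,
      (min_le_left _ _).trans (min_le_left _ _), (min_le_left _ _).trans (min_le_right _ _),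
      ?_, ?_⟩
    · have : min (min δ1 1) (min (R / 2) (A ^ s * β / (I.toReal + 1))) ≤ R / 2 :=
        (min_le_right _ _).trans (min_le_left _ _)
      linarith
    · rw [← le_div_iff₀ (by positivity)]
      exact (min_le_right _ _).trans (min_le_right _ _)
  obtain ⟨hsub, hlow⟩ := hcnt d hd hd1
  obtain ⟨wd, hwd⟩ : ∃ wd : E × E, wd = w1 + (2 * d / R) • (c - w1) := ⟨_, rfl⟩
  have hnorm : ‖c - w1‖ = R := by rw [hR, dist_eq_norm]
  have hq0 : 0 ≤ 2 * d / R := by positivity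
  have hq1 : 2 * d / R ≤ 1 := by rw [div_le_one hc]; exact hd3
  have hqR : 2 * d / R * R = 2 * d := by field_simp
  have e1 : dist wd w1 = 2 * d := by
    rw [hwd, dist_eq_norm, add_sub_cancel_left, norm_smul, hnorm, Real.norm_eq_abs,
      abs_of_nonneg hq0, hqR]
  have e2 : dist wd c = R - 2 * d := by
    have : wd - c = (-(1 - 2 * d / R)) • (c - w1) := by
      rw [hwd, neg_smul, sub_smul, one_smul]; abel
    rw [dist_eq_norm, this, norm_smul, hnorm, Real.norm_eq_abs, abs_neg,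
      abs_of_nonneg (by linarith), sub_mul, hqR, one_mul]
  have s1 : ball wd d ⊆ ball w1 (3 * d) := by
    intro y hy
    have := dist_triangle y wd w1
    rw [mem_ball] at hy ⊢
    linarith
  have s2 : ball wd d ⊆ ball c R := by
    intro y hy
    have := dist_triangle y wd c
    rw [mem_ball] at hy ⊢
    linarith
  have hnull := null_diff_flat μ isOpen_ball b.key_smooth
  have hae : ∀ᵐ w ∂(μ.restrict (ball wd d)),
      ENNReal.ofReal (A / d ^ m) ^ s ≤ num g x x w ^ s := by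
    rw [ae_restrict_iff' measurableSet_ball]
    have h0 : ∀ᵐ w ∂μ, w ∉ ({w | w ∈ ball w0 b.r ∧ b.f w - w = 0} \
        Flat (fun w => b.f w - w) (ball w0 b.r)) := measure_eq_zero_iff_ae_notMem.1 hnull
    filter_upwards [h0] with w hw hwb
    apply ENNReal.rpow_le_rpow _ hs.le
    apply hlow w (s1 hwb)
    intro hfix
    exact hw ⟨⟨hsub (s1 hwb), sub_eq_zero.2 hfix⟩, hno w (s2 hwb)⟩
  have hle : ENNReal.ofReal (A / d ^ m) ^ s * μ (ball wd d) ≤ I := by
    rw [hI, ← setLIntegral_const]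
    exact (lintegral_mono_ae hae).trans (lintegral_mono_set (s1.trans hsub))
  rw [Measure.addHaar_ball_of_pos μ wd hd, ← hD,
    ENNReal.ofReal_rpow_of_pos (by positivity)] at hle
  have hIt : I ≠ ⊤ := by rw [hI]; exact hμ.ne
  have hre := ENNReal.toReal_mono hIt hle
  rw [ENNReal.toReal_mul, ENNReal.toReal_mul, ← hβ,
    ENNReal.toReal_ofReal (by positivity), ENNReal.toReal_ofReal (by positivity)] at hre
  have hdm : (d ^ m) ^ s ≤ d ^ (D + 1) := by
    rw [← Real.rpow_natCast, ← Real.rpow_mul hd.le, ← Real.rpow_natCast]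
    apply Real.rpow_le_rpow_of_exponent_ge hd hd2
    push_cast
    exact hms
  have hdm0 : 0 < (d ^ m) ^ s := Real.rpow_pos_of_pos (by positivity) s
  rw [Real.div_rpow hA.le (by positivity)] at hre
  have h1 : A ^ s / d ^ (D + 1) ≤ A ^ s / (d ^ m) ^ s :=
    div_le_div_of_nonneg_left hAs.le hdm0 hdm
  have h2 : A ^ s / d ^ (D + 1) * (d ^ D * β) ≤ I.toReal :=
    (mul_le_mul_of_nonneg_right h1 (by positivity)).trans hre
  have h3 : A ^ s / d ^ (D + 1) * (d ^ D * β) = A ^ s * β / d := by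
    rw [pow_succ]; field_simp
  rw [h3, div_le_iff₀ hd] at h2
  nlinarith

theorem Box.flat_open (b : Box sh x w0 τ) (μ : Measure (E × E)) [μ.IsAddHaarMeasure] {s : ℝ}
    (hs : 0 < s) (hμ : ∫⁻ w in ball w0 b.r, num g x x w ^ s ∂μ < ⊤) :
    IsOpen (Flat (fun w => b.f w - w) (ball w0 b.r)) := by
  rw [Metric.isOpen_iff]
  intro v hv
  obtain ⟨ε, hε, hεs⟩ := Metric.isOpen_iff.1 isOpen_ball v hv.1
  refine ⟨ε / 3, by positivity, fun c hc => ?_⟩
  by_contra hcn
  have hcb : closedBall v (2 * (ε / 3)) ⊆ ball w0 b.r :=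
    (closedBall_subset_ball (by linarith)).trans hεs
  have hcl : IsClosed (Flat (fun w => b.f w - w) (ball w0 b.r) ∩ closedBall v (2 * (ε / 3))) := by
    rw [← closure_subset_iff_isClosed]
    intro y hy
    have h2 : y ∈ closedBall v (2 * (ε / 3)) :=
      isClosed_closedBall.closure_subset (closure_mono inter_subset_right hy)
    exact ⟨mem_flat_of_closure isOpen_ball b.key_smooth (hcb h2)
      (closure_mono inter_subset_left hy), h2⟩
  have hcp : IsCompact (Flat (fun w => b.f w - w) (ball w0 b.r) ∩ closedBall v (2 * (ε / 3))) :=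
    (isCompact_closedBall v _).of_isClosed_subset hcl inter_subset_right
  have hvm : v ∈ Flat (fun w => b.f w - w) (ball w0 b.r) ∩ closedBall v (2 * (ε / 3)) :=
    ⟨hv, mem_closedBall_self (by positivity)⟩
  obtain ⟨w1, hw1, hmin⟩ := hcp.exists_isMinOn ⟨v, hvm⟩
    (f := fun y => dist c y) (continuous_const.dist continuous_id).continuousOn
  have hpos : 0 < dist c w1 := by
    rw [dist_pos]
    rintro rfl
    exact hcn hw1.1
  have hlt : dist c w1 ≤ dist c v := hmin hvm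
  refine b.key_touch μ hs hμ hw1.1 hpos fun y hy hyf => ?_
  rw [mem_ball] at hy hc
  have h1 : y ∈ closedBall v (2 * (ε / 3)) := by
    have := dist_triangle y c v
    rw [mem_closedBall]
    linarith
  have h2 : dist c w1 ≤ dist c y := hmin ⟨hyf, h1⟩
  rw [dist_comm c y] at h2
  linarith

theorem Box.all_fixed (b : Box sh x w0 τ) (μ : Measure (E × E)) [μ.IsAddHaarMeasure] {s : ℝ}
    (hs : 0 < s) (hμ : ∫⁻ w in ball w0 b.r, num g x x w ^ s ∂μ < ⊤)
    (hne : (Flat (fun w => b.f w - w) (ball w0 b.r)).Nonempty) :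
    ∀ w ∈ ball w0 b.r, b.f w = w := by
  have hsub : ball w0 b.r ⊆ Flat (fun w => b.f w - w) (ball w0 b.r) := by
    apply (convex_ball w0 b.r).isPreconnected.subset_of_closure_inter_subset
      (b.flat_open μ hs hμ)
    · obtain ⟨v, hv⟩ := hne
      exact ⟨v, hv.1, hv⟩
    · intro y hy
      exact mem_flat_of_closure isOpen_ball b.key_smooth hy.2 hy.1
  intro w hw
  have h0 := Flat.zero (hsub hw)
  exact sub_eq_zero.1 h0

end Pool.Agent.GeoN
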