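import Mathlib

/-! TASK BLift: lifting a contractible space into a local system (no homology here). -/

set_option linter.style.haveILetI false

open Set Topology Function Filter

namespace Pool.Agent.GeoN.Ser

/-- the local sections of the total space -/
def blift_sec {X : Type} {G : X → Type} {ι : Type} (U : ι → Set X) {A : ι → Type}
    (r : ∀ i x, x ∈ U i → A i → G x) (i : ι) (α : A i) (x : U i) : Σ x, G x :=
  ⟨x.1, r i x.1 x.2 α⟩

/-- the topology of the total space -/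
@[reducible] def blift_top {X : Type} [TopologicalSpace X] {G : X → Type} {ι : Type}
    (U : ι → Set X) {A : ι → Type} (r : ∀ i x, x ∈ U i → A i → G x) :
    TopologicalSpace (Σ x, G x) :=
  ⨆ p : Σ i, A i, TopologicalSpace.coinduced (blift_sec U r p.1 p.2) inferInstance

theorem blift_cov {X : Type} [TopologicalSpace X] {G : X → Type}
    {ι : Type} (U : ι → Set X) (hU : ∀ i, IsOpen (U i)) (hcov : ∀ x, ∃ i, x ∈ U i)
    {A : ι → Type} (r : ∀ i x, x ∈ U i → A i → G x) (hr : ∀ i x h, Bijective (r i x h))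
    (hcomp : ∀ i i' x (h : x ∈ U i) (h' : x ∈ U i') α α', r i x h α = r i' x h' α' →
      ∀ᶠ y in 𝓝 x, ∀ (k : y ∈ U i) (k' : y ∈ U i'), r i y k α = r i' y k' α') :
    letI := blift_top U r
    (∀ i α, IsOpenMap (blift_sec U r i α)) ∧ IsCoveringMap (Sigma.fst : (Σ x, G x) → X) := by
  letI := blift_top U r
  have hc : ∀ i α, Continuous (blift_sec U r i α) := fun i α =>
    continuous_iSup_rng (i := (⟨i, α⟩ : Σ i, A i)) continuous_coinduced_rng
  have hp : Continuous (Sigma.fst : (Σ x, G x) → X) :=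
    continuous_iSup_dom.2 fun p => continuous_coinduced_dom.2 continuous_subtype_val
  have ho : ∀ i α, IsOpenMap (blift_sec U r i α) := by
    intro i α W hW
    refine isOpen_iSup_iff.2 fun p => ?_
    obtain ⟨i', α'⟩ := p
    change IsOpen (blift_sec U r i' α' ⁻¹' (blift_sec U r i α '' W))
    rw [isOpen_iff_mem_nhds]
    rintro ⟨x, hx'⟩ ⟨⟨z, hz⟩, hzW, hzx⟩
    have h1 : z = x := congrArg Sigma.fst hzx
    subst h1
    have h2 : r i z hz α = r i' z hx' α' := eq_of_heq (Sigma.mk.inj hzx).2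
    have h3 : Subtype.val '' W ∈ 𝓝 z :=
      ((hU i).isOpenMap_subtype_val W hW).mem_nhds ⟨⟨z, hz⟩, hzW, rfl⟩
    have h4 := continuous_subtype_val.continuousAt (x := (⟨z, hx'⟩ : U i'))
      ((hcomp i i' z hz hx' α α' h2).and h3)
    filter_upwards [h4] with y hy
    obtain ⟨hy1, ⟨w, hw⟩, hwW, hwy⟩ := hy
    obtain ⟨y, hy'⟩ := y
    change w = y at hwy
    subst hwy
    exact ⟨⟨w, hw⟩, hwW, congrArg (Sigma.mk w) (hy1 hw hy')⟩
  refine ⟨ho, fun x => ?_⟩
  obtain ⟨i, hi⟩ := hcov x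
  letI : TopologicalSpace (A i) := ⊥
  haveI : DiscreteTopology (A i) := ⟨rfl⟩
  let Φ : U i × A i → (Sigma.fst ⁻¹' U i : Set (Σ x, G x)) := fun q =>
    ⟨blift_sec U r i q.2 q.1, q.1.2⟩
  have hΦb : Bijective Φ := by
    constructor
    · rintro ⟨⟨z, hz⟩, α⟩ ⟨⟨w, hw⟩, β⟩ h
      have h0 : blift_sec U r i α ⟨z, hz⟩ = blift_sec U r i β ⟨w, hw⟩ := congrArg Subtype.val h
      have h1 : z = w := congrArg Sigma.fst h0
      subst h1
      have h2 : r i z hz α = r i z hw β := eq_of_heq (Sigma.mk.inj h0).2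
      rw [(hr i z hz).1 h2]
    · rintro ⟨⟨z, g⟩, hz⟩
      obtain ⟨α, hα⟩ := (hr i z hz).2 g
      exact ⟨(⟨z, hz⟩, α), Subtype.ext (congrArg (Sigma.mk z) hα)⟩
  have hΦc : Continuous Φ :=
    continuous_prod_of_discrete_right.2 fun α => (hc i α).subtype_mk _
  have hΦo : IsOpenMap Φ :=
    isOpenMap_prod_of_discrete_right.2 fun α => (ho i α).subtype_mk _
  let Ψ := (Equiv.ofBijective Φ hΦb).toHomeomorphOfContinuousOpen hΦc hΦo
  refine IsEvenlyCovered.to_isEvenlyCovered_preimage (I := A i)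
    ⟨inferInstance, U i, hi, hU i, (hU i).preimage hp, Ψ.symm, fun q => ?_⟩
  obtain ⟨q, rfl⟩ := Ψ.surjective q
  rw [Homeomorph.symm_apply_apply]
  rfl

theorem exists_lift {X Y : Type} [TopologicalSpace X] [TopologicalSpace Y] {G : X → Type}
    {ι : Type} (U : ι → Set X) (hU : ∀ i, IsOpen (U i)) (hcov : ∀ x, ∃ i, x ∈ U i)
    {A : ι → Type} (r : ∀ i x, x ∈ U i → A i → G x) (hr : ∀ i x h, Bijective (r i x h))
    (hcomp : ∀ i i' x (h : x ∈ U i) (h' : x ∈ U i') α α', r i x h α = r i' x h' α' →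
      ∀ᶠ y in 𝓝 x, ∀ (k : y ∈ U i) (k' : y ∈ U i'), r i y k α = r i' y k' α')
    (e : C(Y, X)) (y0 : Y) (H : C(Y × unitInterval, Y)) (H0 : ∀ y, H (y, 0) = y0)
    (H1 : ∀ y, H (y, 1) = y) (y1 : Y) (a : G (e y1)) :
    ∃ T : Y → (Σ x, G x), T y1 = ⟨e y1, a⟩ ∧ ∀ y i, e y ∈ U i → ∃ α : A i,
      ∀ᶠ y' in 𝓝 y, ∀ k : e y' ∈ U i, T y' = ⟨e y', r i (e y') k α⟩ := by
  letI := blift_top U r
  obtain ⟨ho, cov⟩ := blift_cov U hU hcov r hr hcomp
  let K : C(unitInterval × Y, X) := e.comp (H.comp ⟨Prod.swap, continuous_swap⟩)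
  let γ : C(unitInterval, X) :=
    ⟨fun t => K (unitInterval.symm t, y1), by fun_prop⟩
  have hγ0 : γ 0 = (⟨e y1, a⟩ : Σ x, G x).1 := by
    change e (H (y1, unitInterval.symm 0)) = e y1
    rw [unitInterval.symm_zero, H1]
  obtain ⟨Γ, hΓ, hΓ0⟩ := cov.exists_path_lifts γ ⟨e y1, a⟩ hγ0
  have hK0 : ∀ y, K (0, y) = ((ContinuousMap.const Y (Γ 1)) y).1 := by
    intro y
    have h1 : (Γ 1).1 = γ 1 := congrFun hΓ 1
    change e (H (y, 0)) = (Γ 1).1
    rw [h1, H0]
    change e y0 = e (H (y1, unitInterval.symm 1))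
    rw [unitInterval.symm_one, H0]
  let L := cov.liftHomotopy K (ContinuousMap.const Y (Γ 1)) hK0
  have hL : ∀ q, (L q).1 = K q := fun q => congrFun (cov.liftHomotopy_lifts K _ hK0) q
  have hT : ∀ y, (L (1, y)).1 = e y := by
    intro y
    rw [hL]
    change e (H (y, 1)) = e y
    rw [H1]
  refine ⟨fun y => L (1, y), ?_, fun y i hy => ?_⟩
  · have h1 : (fun t : unitInterval => L (t, y1)) = fun t => Γ (unitInterval.symm t) := by
      refine cov.eq_of_comp_eq (by fun_prop) (by fun_prop) ?_ 0 ?_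
      · funext t
        have h2 : (Γ (unitInterval.symm t)).1 = γ (unitInterval.symm t) := congrFun hΓ _
        change (L (t, y1)).1 = (Γ (unitInterval.symm t)).1
        rw [hL, h2]
        change K (t, y1) = K (unitInterval.symm (unitInterval.symm t), y1)
        rw [unitInterval.symm_symm]
      · rw [unitInterval.symm_zero]
        exact cov.liftHomotopy_zero K _ hK0 y1
    have h3 := congrFun h1 1
    rw [unitInterval.symm_one, hΓ0] at h3
    exact h3
  · have hx : (L (1, y)).1 ∈ U i := by rw [hT]; exact hy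
    obtain ⟨α, hα⟩ := (hr i _ hx).2 (L (1, y)).2
    have hm : L (1, y) ∈ range (blift_sec U r i α) :=
      ⟨⟨_, hx⟩, congrArg (Sigma.mk (L (1, y)).1) hα⟩
    have hcT : Continuous fun y => L (1, y) := by fun_prop
    refine ⟨α, ?_⟩
    filter_upwards [hcT.continuousAt ((ho i α).isOpen_range.mem_nhds hm)] with y' hy' k
    obtain ⟨⟨w, hw⟩, hwy⟩ := hy'
    have h5 : w = e y' := (congrArg Sigma.fst hwy).trans (hT y')
    subst h5
    exact hwy.symm

end Pool.Agent.GeoN.Ser
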