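import Mathlib
import Pool.Agent.P.MP_365c00_gt.BHDefs

/-! TASK BPath: the path fibration is locally trivial up to fibre homotopy (no homology). -/

open Set Topology Function
open Pool.Agent.URC

namespace Pool.Agent.GeoN.Ser

variable {X : Type} [TopologicalSpace X] {n : ℕ}

/-- a path on `[0,1]` followed by `b` -/
noncomputable def bpCat (g : C(unitInterval, X)) (b : ℝ → X) (u : ℝ) : X :=
  if u ≤ 1 then g (projIcc 0 1 zero_le_one u) else b u

theorem bp_coe (g : C(unitInterval, X)) (b : ℝ → X) (t : unitInterval) : bpCat g b t = g t := by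
  rw [bpCat, if_pos t.2.2, projIcc_val]

theorem bp_zero (g : C(unitInterval, X)) (b : ℝ → X) : bpCat g b 0 = g 0 := bp_coe g b 0

theorem bp_one (g : C(unitInterval, X)) (b : ℝ → X) : bpCat g b 1 = g 1 := bp_coe g b 1

theorem bp_ge {g : C(unitInterval, X)} {b : ℝ → X} (h : g 1 = b 1) {u : ℝ} (hu : 1 ≤ u) :
    bpCat g b u = b u := by
  rcases hu.eq_or_lt with rfl | hu
  · rw [bp_one, h]
  · rw [bpCat, if_neg hu.not_ge]

theorem bp_back {g g' : C(unitInterval, X)} {b b' : ℝ → X} (h : g 1 = b 1)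
    (hg : ∀ t : unitInterval, g' t = bpCat g b (2 * t)) (hb : ∀ u, b' u = b (3 - u))
    (t : unitInterval) : bpCat g' b' (2 * t) = bpCat g b (min (4 * t) (3 - 2 * t)) := by
  have h0 := t.2.1
  have h1 := t.2.2
  by_cases ht : 2 * (t : ℝ) ≤ 1
  · rw [min_eq_left (by linarith), bp_coe g' b' ⟨2 * t, by linarith, ht⟩, hg]
    congr 1
    ring
  · rw [min_eq_right (by linarith), bpCat, if_neg ht, hb, bp_ge h (by linarith)]

/-- a family of paths, each followed by a curve -/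
structure BpFam (Z X : Type) [TopologicalSpace Z] [TopologicalSpace X] where
  g : C(Z, C(unitInterval, X))
  b : C(Z × ℝ, X)
  h : ∀ z, g z 1 = b (z, 1)

namespace BpFam

variable {Z : Type} [TopologicalSpace Z] (A : BpFam Z X)

/-- the concatenation -/
noncomputable def cat : C(Z × ℝ, X) :=
  ⟨fun x => bpCat (A.g x.1) (fun u => A.b (x.1, u)) x.2, by
    refine Continuous.if_le ?_ ?_ continuous_snd continuous_const fun x hx => ?_
    · exact (A.g.continuous.comp continuous_fst).eval (continuous_projIcc.comp continuous_snd)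
    · exact A.b.continuous
    · rw [hx, projIcc_right]
      exact A.h x.1⟩

/-- the concatenation at double speed -/
noncomputable def dbl : C(Z, C(unitInterval, X)) :=
  (A.cat.comp (⟨fun x : Z × unitInterval => (x.1, 2 * (x.2 : ℝ)), by fun_prop⟩ :
    C(Z × unitInterval, Z × ℝ))).curry

/-- the homotopy that pulls the second half back -/
noncomputable def hty : C(Z × unitInterval, C(unitInterval, X)) :=
  (A.cat.comp (⟨fun x : (Z × unitInterval) × unitInterval =>
    (x.1.1, (1 - (x.1.2 : ℝ)) * min (4 * (x.2 : ℝ)) (3 - 2 * (x.2 : ℝ)) + (x.1.2 : ℝ) * (x.2 : ℝ)),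
      by fun_prop⟩ : C((Z × unitInterval) × unitInterval, Z × ℝ))).curry

theorem dbl_apply (z : Z) (t : unitInterval) :
    A.dbl z t = bpCat (A.g z) (fun u => A.b (z, u)) (2 * t) := rfl

theorem hty_apply (z : Z) (s t : unitInterval) : A.hty (z, s) t =
    bpCat (A.g z) (fun u => A.b (z, u))
      ((1 - (s : ℝ)) * min (4 * (t : ℝ)) (3 - 2 * (t : ℝ)) + (s : ℝ) * (t : ℝ)) := rfl

theorem dbl_zero (z : Z) : A.dbl z 0 = A.g z 0 := by
  rw [dbl_apply, Icc.coe_zero, mul_zero, bp_zero]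

theorem dbl_one (z : Z) : A.dbl z 1 = A.b (z, 2) := by
  rw [dbl_apply, Icc.coe_one, mul_one, bp_ge (A.h z) one_le_two]

theorem hty_start (x : Z × unitInterval) : A.hty x 0 = A.g x.1 0 := by
  rw [hty_apply, ← bp_zero _ fun u => A.b (x.1, u)]
  congr 1
  norm_num

theorem hty_end (x : Z × unitInterval) : A.hty x 1 = A.g x.1 1 := by
  rw [hty_apply, ← bp_one _ fun u => A.b (x.1, u)]
  congr 1
  norm_num

theorem hty_one (z : Z) : A.hty (z, 1) = A.g z := by
  ext t
  rw [hty_apply, ← bp_coe _ fun u => A.b (z, u)]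
  congr 1
  norm_num

theorem hty_zero {W : Type} [TopologicalSpace W] (B : BpFam W X) (z : Z) (w : W)
    (hg : B.g w = A.dbl z) (hb : ∀ u, B.b (w, u) = A.b (z, 3 - u)) : A.hty (z, 0) = B.dbl w := by
  ext t
  rw [hty_apply, dbl_apply, bp_back (A.h z) (fun t => by rw [hg, dbl_apply]) hb]
  congr 1
  norm_num

end BpFam

theorem bp_lam [PathConnectedSpace X] (q : X) (j : C(E n, X)) :
    ∃ L : C(E n × ℝ, X), (∀ y, L (y, 0) = j y) ∧ ∀ y, L (y, 1) = q := by
  obtain ⟨c⟩ := PathConnectedSpace.joined (j 0) q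
  refine ⟨⟨fun x => if x.2 ≤ 1 / 2 then j ((1 - 2 * x.2) • x.1) else c.extend (2 * x.2 - 1), ?_⟩,
    fun y => ?_, fun y => ?_⟩
  · refine Continuous.if_le (by fun_prop) (by fun_prop) continuous_snd continuous_const
      fun x hx => ?_
    rw [hx]
    norm_num
  · norm_num
  · norm_num

theorem path_locTriv [PathConnectedSpace X] (p q : X) {j : C(E n, X)} (hj : IsOpenEmbedding j) :
    Nonempty (LocTriv (endp p) (Om p q) j) := by
  obtain ⟨L, L0, L1⟩ := bp_lam q j
  let k : C(endp p ⁻¹' range j, E n) :=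
    ⟨fun y => hj.isEmbedding.toHomeomorph.symm ⟨endp p y.1, y.2⟩, by fun_prop⟩
  have hk : ∀ y, j (k y) = endp p y.1 := fun y =>
    congrArg Subtype.val (hj.isEmbedding.toHomeomorph.apply_symm_apply ⟨endp p y.1, y.2⟩)
  let A : BpFam (endp p ⁻¹' range j) X :=
    ⟨⟨fun y => y.1.1, by fun_prop⟩, ⟨fun x => L (k x.1, x.2 - 1), by fun_prop⟩, fun y => by
      show endp p y.1 = L (k y, 1 - 1)
      rw [sub_self, L0, hk]⟩
  let B : BpFam (E n × Om p q) X :=
    ⟨⟨fun z => z.2.1, by fun_prop⟩, ⟨fun x => L (x.1.1, 2 - x.2), by fun_prop⟩, fun z => by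
      show z.2.1 1 = L (z.1, 2 - 1)
      rw [z.2.2.2, show (2 : ℝ) - 1 = 1 by norm_num, L1]⟩
  have A1 : ∀ y, A.dbl y 1 = q := fun y => by
    rw [A.dbl_one]
    show L (k y, 2 - 1) = q
    rw [show (2 : ℝ) - 1 = 1 by norm_num, L1]
  have B1 : ∀ z, B.dbl z 1 = j z.1 := fun z => by
    rw [B.dbl_one]
    show L (z.1, 2 - 2) = j z.1
    rw [sub_self, L0]
  let Φ : C(endp p ⁻¹' range j, E n × Om p q) :=
    ⟨fun y => (k y, ⟨A.dbl y, (A.dbl_zero y).trans y.1.2, A1 y⟩),
      k.continuous.prodMk (A.dbl.continuous.subtype_mk _)⟩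
  let Ψ : C(E n × Om p q, PP p) :=
    ⟨fun z => ⟨B.dbl z, (B.dbl_zero z).trans z.2.2.1⟩, B.dbl.continuous.subtype_mk _⟩
  refine ⟨{
    Φ := Φ
    Ψ := Ψ
    eΨ := B1
    eΦ := hk
    H1 := ⟨fun x => ⟨A.hty x, (A.hty_start x).trans x.1.1.2⟩, A.hty.continuous.subtype_mk _⟩
    H1_zero := fun y => Subtype.ext (A.hty_zero B y (Φ y) rfl fun u => ?_)
    H1_one := fun y => Subtype.ext (A.hty_one y)
    H1_e := fun y t => A.hty_end (y, t)
    H2 := ⟨fun x => (x.1.1, ⟨B.hty x, (B.hty_start x).trans x.1.2.2.1,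
      (B.hty_end x).trans x.1.2.2.2⟩),
      (continuous_fst.comp continuous_fst).prodMk (B.hty.continuous.subtype_mk _)⟩
    H2_zero := fun z => ?_
    H2_one := fun z => Prod.ext rfl (Subtype.ext (B.hty_one z))
    H2_e := fun _ _ => rfl }⟩
  · show L (k y, 2 - u) = L (k y, 3 - u - 1)
    congr 2
    ring
  · have h1 : k ⟨Ψ z, ⟨z.1, (B1 z).symm⟩⟩ = z.1 := hj.injective ((hk _).trans (B1 z))
    refine Prod.ext h1.symm (Subtype.ext (B.hty_zero A z ⟨Ψ z, ⟨z.1, (B1 z).symm⟩⟩ rfl fun u => ?_))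
    show L (k ⟨Ψ z, ⟨z.1, (B1 z).symm⟩⟩, u - 1) = L (z.1, 2 - (3 - u))
    rw [h1]
    congr 2
    ring

theorem path_contr (p : X) : ∃ (y0 : PP p) (H : C(PP p × unitInterval, PP p)),
    (∀ y, H (y, 0) = y0) ∧ ∀ y, H (y, 1) = y := by
  let G : C(PP p × unitInterval, C(unitInterval, X)) :=
    (⟨fun x => x.1.1.1 (x.1.2 * x.2), by fun_prop⟩ :
      C((PP p × unitInterval) × unitInterval, X)).curry
  have hG : ∀ x t, G x t = x.1.1 (x.2 * t) := fun _ _ => rfl
  have h0 : ∀ x, G x 0 = p := fun x => by rw [hG, mul_zero, x.1.2]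
  refine ⟨⟨ContinuousMap.const _ p, rfl⟩, ⟨fun x => ⟨G x, h0 x⟩, G.continuous.subtype_mk h0⟩,
    fun y => Subtype.ext ?_, fun y => Subtype.ext ?_⟩
  · ext t
    exact (hG _ _).trans (by rw [zero_mul, y.2]; rfl)
  · ext t
    exact (hG _ _).trans (by rw [one_mul])

end Pool.Agent.GeoN.Ser
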