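import Mathlib
import Pool.Agent.P.MP_365c00_gt.BHDefs
import Pool.Agent.P.MP_365c00_gt.BLift

/-! TASK BSec: a non-zero locally consistent section. -/

open Set Topology Function Filter
open Pool.Agent.URC

namespace Pool.Agent.GeoN.Ser

variable {X Y : Type} [TopologicalSpace X] [TopologicalSpace Y] {n N : ℕ}

/-- a class along a finite disjoint union of closed sets is determined by its pieces -/
theorem mv_fin_inj {ι : Type} (s : Finset ι) (Z : ι → Set Y) (hZ : ∀ i ∈ s, IsClosed (Z i))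
    (hd : ∀ i ∈ s, ∀ i' ∈ s, Z i = Z i' ∨ Disjoint (Z i) (Z i')) {A : Set Y}
    (hA : A = ⋃ i ∈ s, Z i) (α : HH Aᶜ N)
    (h : ∀ i ∈ s, ∀ hi : Aᶜ ⊆ (Z i)ᶜ, HH.res hi α = 0) : α = 0 := by
  classical
  induction s using Finset.induction_on generalizing A with
  | empty => exact HH.eq_zero_of_forall (by simp [hA]) α
  | @insert i s hi ih =>
    rw [Finset.set_biUnion_insert] at hA
    have hZ' : ∀ i ∈ s, IsClosed (Z i) := fun i' h' => hZ i' (Finset.mem_insert_of_mem h')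
    have hd' : ∀ i ∈ s, ∀ i' ∈ s, Z i = Z i' ∨ Disjoint (Z i) (Z i') := fun a ha b hb =>
      hd a (Finset.mem_insert_of_mem ha) b (Finset.mem_insert_of_mem hb)
    by_cases hc : ∃ i' ∈ s, Z i = Z i'
    · obtain ⟨i', hi', e⟩ := hc
      refine ih hZ' hd' (hA.trans (union_eq_right.2 ?_)) α
        fun a ha => h a (Finset.mem_insert_of_mem ha)
      rw [e]
      exact subset_biUnion_of_mem (u := Z) (Finset.mem_coe.2 hi')
    · have h1 : Aᶜ ⊆ (Z i)ᶜ := compl_subset_compl.2 (hA ▸ subset_union_left)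
      have h2 : Aᶜ ⊆ (⋃ a ∈ s, Z a)ᶜ := compl_subset_compl.2 (hA ▸ subset_union_right)
      refine mv_inj (hZ i (Finset.mem_insert_self _ _)).isOpen_compl
        (isClosed_biUnion_finset hZ').isOpen_compl (by rw [hA, compl_union]) h1 h2
        (fun γ => HH.eq_zero_of_forall (fun y => ?_) γ) α (h i (Finset.mem_insert_self _ _) h1)
        (ih hZ' hd' rfl _ fun a ha k => ?_)
      · by_contra hy
        simp only [mem_union, mem_compl_iff, not_or, not_not, mem_iUnion] at hy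
        obtain ⟨y1, a, ha, y2⟩ := hy
        rcases hd i (Finset.mem_insert_self _ _) a (Finset.mem_insert_of_mem ha) with e | e
        · exact hc ⟨a, ha, e⟩
        · exact disjoint_left.1 e y1 y2
      · rw [HH.res_res]
        exact h a (Finset.mem_insert_of_mem ha) _

/-- and the pieces can be prescribed -/
theorem mv_fin_ex {ι : Type} (s : Finset ι) (Z : ι → Set Y) (hZ : ∀ i ∈ s, IsClosed (Z i))
    (hd : ∀ i ∈ s, ∀ i' ∈ s, i ≠ i' → Disjoint (Z i) (Z i')) {A : Set Y}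
    (hA : A = ⋃ i ∈ s, Z i) (α : ∀ i, HH (Z i)ᶜ N) :
    ∃ β : HH Aᶜ N, ∀ i ∈ s, ∀ hi : Aᶜ ⊆ (Z i)ᶜ, HH.res hi β = α i := by
  classical
  induction s using Finset.induction_on generalizing A with
  | empty => exact ⟨0, by simp⟩
  | @insert i s hi ih =>
    rw [Finset.set_biUnion_insert] at hA
    have hZ' : ∀ i ∈ s, IsClosed (Z i) := fun i' h' => hZ i' (Finset.mem_insert_of_mem h')
    obtain ⟨β, hβ⟩ := ih hZ' (fun a ha b hb =>
      hd a (Finset.mem_insert_of_mem ha) b (Finset.mem_insert_of_mem hb)) rfl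
    have hu : ∀ y, y ∈ (Z i)ᶜ ∪ (⋃ a ∈ s, Z a)ᶜ := by
      intro y
      by_contra hy
      simp only [mem_union, mem_compl_iff, not_or, not_not, mem_iUnion] at hy
      obtain ⟨y1, a, ha, y2⟩ := hy
      exact disjoint_left.1 (hd i (Finset.mem_insert_self _ _) a (Finset.mem_insert_of_mem ha)
        fun e => hi (e ▸ ha)) y1 y2
    obtain ⟨γ, h1, h2⟩ := mv_glue (hZ i (Finset.mem_insert_self _ _)).isOpen_compl
      (isClosed_biUnion_finset hZ').isOpen_compl (α i) β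
      ((HH.eq_zero_of_forall hu _).trans (HH.eq_zero_of_forall hu _).symm)
    refine ⟨HH.res (by rw [hA, compl_union]) γ, fun a ha k => ?_⟩
    rw [HH.res_res]
    rcases Finset.mem_insert.1 ha with rfl | ha
    · exact h1
    · have k' : (⋃ a ∈ s, Z a)ᶜ ⊆ (Z a)ᶜ :=
        compl_subset_compl.2 (subset_biUnion_of_mem (u := Z) (Finset.mem_coe.2 ha))
      rw [← hβ a ha k', ← h2, HH.res_res]

section Pieces

variable {D : Type} {A B : Set Y} {W : D → Set Y}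

theorem bsec_cover (hAB : A ⊆ B) (hB : FinComp B) (h1 : ∀ y ∈ B, ∃ c, y ∈ W c)
    (h2 : ∀ y y' c, JoinedIn B y y' → y' ∈ W c → y ∈ W c) :
    ∃ s : Finset D, A = ⋃ c ∈ s, A ∩ W c := by
  obtain ⟨S, hS, h⟩ := hB
  choose f hf using h1
  have : Finite (S ∩ B : Set Y) := (hS.subset inter_subset_left).to_subtype
  refine ⟨(finite_range fun y : (S ∩ B : Set Y) => f y y.2.2).toFinset, ?_⟩
  refine Subset.antisymm (fun y hy => ?_) (iUnion₂_subset fun _ _ => inter_subset_left)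
  obtain ⟨s, hs, hj⟩ := h y (hAB hy)
  refine mem_iUnion₂.2 ⟨f s hj.target_mem, ?_, hy, h2 _ _ _ hj (hf _ _)⟩
  rw [Finite.mem_toFinset]
  exact ⟨⟨s, hs, hj.target_mem⟩, rfl⟩

theorem bsec_inj (hAB : A ⊆ B) (hB : FinComp B) (h1 : ∀ y ∈ B, ∃ c, y ∈ W c)
    (h2 : ∀ y y' c, JoinedIn B y y' → y' ∈ W c → y ∈ W c) (h3 : ∀ c, IsClosed (A ∩ W c))
    (h4 : ∀ y c c', y ∈ W c → y ∈ W c' → c = c') (α : HH Aᶜ N)
    (h : ∀ c (k : Aᶜ ⊆ (A ∩ W c)ᶜ), HH.res k α = 0) : α = 0 := by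
  obtain ⟨s, hs⟩ := bsec_cover hAB hB h1 h2
  refine mv_fin_inj s (fun c => A ∩ W c) (fun c _ => h3 c) (fun c _ c' _ => ?_) hs α
    fun c _ k => h c k
  by_cases e : c = c'
  · exact Or.inl (e ▸ rfl)
  · exact Or.inr (disjoint_left.2 fun y hy hy' => e (h4 y c c' hy.2 hy'.2))

theorem bsec_ex (hAB : A ⊆ B) (hB : FinComp B) (h1 : ∀ y ∈ B, ∃ c, y ∈ W c)
    (h2 : ∀ y y' c, JoinedIn B y y' → y' ∈ W c → y ∈ W c) (h3 : ∀ c, IsClosed (A ∩ W c))
    (h4 : ∀ y c c', y ∈ W c → y ∈ W c' → c = c') (α : ∀ c, HH (A ∩ W c)ᶜ N) :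
    ∃ β : HH Aᶜ N, ∀ c (k : Aᶜ ⊆ (A ∩ W c)ᶜ), HH.res k β = α c := by
  obtain ⟨s, hs⟩ := bsec_cover hAB hB h1 h2
  obtain ⟨β, hβ⟩ := mv_fin_ex s (fun c => A ∩ W c) (fun c _ => h3 c)
    (fun c _ c' _ e => disjoint_left.2 fun y hy hy' => e (h4 y c c' hy.2 hy'.2)) hs α
  refine ⟨β, fun c k => ?_⟩
  by_cases hc : c ∈ s
  · exact hβ c hc k
  · have hu : ∀ y, y ∈ (A ∩ W c)ᶜ := by
      intro y hy
      obtain ⟨c', hc', hy'⟩ := mem_iUnion₂.1 (hs ▸ hy.1 : y ∈ ⋃ c ∈ s, A ∩ W c)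
      exact hc (h4 y c' c hy'.2 hy.2 ▸ hc')
    exact (HH.eq_zero_of_forall hu _).trans (HH.eq_zero_of_forall hu _).symm

end Pieces

section Sys

variable {G : X → Type} {ι : Type} {U : ι → Set X} {A : ι → Type}

/-- locally constant lifts into a local system -/
def bsecLift (e : C(Y, X)) (r : ∀ i x, x ∈ U i → A i → G x) (T : Y → (Σ x, G x)) : Prop :=
  ∀ y i, e y ∈ U i → ∃ α : A i,
    ∀ᶠ y' in 𝓝 y, ∀ k : e y' ∈ U i, T y' = ⟨e y', r i (e y') k α⟩

/-- the part of `Y` that is lifted to one sheet -/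
def bsecW (e : C(Y, X)) (r : ∀ i x, x ∈ U i → A i → G x) (T : Y → (Σ x, G x)) (i : ι) (α : A i) :
    Set Y := {y | ∃ k : e y ∈ U i, T y = ⟨e y, r i (e y) k α⟩}

variable {e : C(Y, X)} {r : ∀ i x, x ∈ U i → A i → G x} {T : Y → (Σ x, G x)}

theorem bsec_uniq (hr : ∀ i x h, Bijective (r i x h)) {i : ι} {α α' : A i} {y : Y}
    (h : y ∈ bsecW e r T i α) (h' : y ∈ bsecW e r T i α') : α = α' := by
  obtain ⟨k, h⟩ := h
  obtain ⟨k', h'⟩ := h'
  exact (hr i _ k).1 (eq_of_heq (Sigma.mk.inj (h.symm.trans h')).2)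

theorem bsec_exW (hT : bsecLift e r T) {i : ι} {y : Y} (k : e y ∈ U i) :
    ∃ α, y ∈ bsecW e r T i α := by
  obtain ⟨α, h⟩ := hT y i k
  exact ⟨α, k, h.self_of_nhds k⟩

theorem bsec_open (hU : ∀ i, IsOpen (U i)) (hr : ∀ i x h, Bijective (r i x h))
    (hT : bsecLift e r T) (i : ι) (α : A i) : IsOpen (bsecW e r T i α) := by
  rw [isOpen_iff_mem_nhds]
  intro y hy
  obtain ⟨k, hk⟩ := hy
  obtain ⟨α', h⟩ := hT y i k
  obtain rfl : α = α' := bsec_uniq hr (T := T) ⟨k, hk⟩ ⟨k, h.self_of_nhds k⟩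
  filter_upwards [h, ((hU i).preimage e.continuous).mem_nhds k] with y' h1 h2
  exact ⟨h2, h1 h2⟩

theorem bsec_closed (hU : ∀ i, IsOpen (U i)) (hr : ∀ i x h, Bijective (r i x h))
    (hT : bsecLift e r T) {i : ι} {K : Set X} (hK : IsClosed K) (hKU : K ⊆ U i) (α : A i) :
    IsClosed (e ⁻¹' K ∩ bsecW e r T i α) := by
  rw [← isOpen_compl_iff, isOpen_iff_mem_nhds]
  intro y hy
  by_cases h : e y ∈ K
  · obtain ⟨α', h'⟩ := bsec_exW hT (hKU h)
    filter_upwards [(bsec_open hU hr hT i α').mem_nhds h'] with y' h1 h2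
    exact hy ⟨h, bsec_uniq hr h1 h2.2 ▸ h'⟩
  · filter_upwards [(hK.preimage e.continuous).isOpen_compl.mem_nhds h] with y' h1 h2
    exact h1 h2.1

theorem bsec_join (hU : ∀ i, IsOpen (U i)) (hr : ∀ i x h, Bijective (r i x h))
    (hT : bsecLift e r T) {i : ι} {B : Set Y} (hB : B ⊆ e ⁻¹' U i) {y y' : Y} {α : A i}
    (hj : JoinedIn B y y') (h : y' ∈ bsecW e r T i α) : y ∈ bsecW e r T i α := by
  obtain ⟨γ, hγ⟩ := hj
  have hp : IsPreconnected (range γ) := isPreconnected_range γ.continuous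
  refine hp.subset_left_of_subset_union (v := ⋃ α' ∈ {α' | α' ≠ α}, bsecW e r T i α')
    (bsec_open hU hr hT i α) (isOpen_biUnion fun α' _ => bsec_open hU hr hT i α') ?_ ?_
    ⟨y', γ.target_mem_range, h⟩ γ.source_mem_range
  · refine disjoint_left.2 fun z h1 h2 => ?_
    obtain ⟨α', h3, h4⟩ := mem_iUnion₂.1 h2
    exact h3 (bsec_uniq hr h4 h1)
  · rintro _ ⟨t, rfl⟩
    obtain ⟨α', h'⟩ := bsec_exW hT (hB (hγ t))
    by_cases e' : α' = α
    · exact Or.inl (e' ▸ h')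
    · exact Or.inr (mem_iUnion₂.2 ⟨α', e', h'⟩)

theorem bsec_fst (hcov : ∀ x, ∃ i, x ∈ U i) (hT : bsecLift e r T) (y : Y) : (T y).1 = e y := by
  obtain ⟨i, k⟩ := hcov (e y)
  obtain ⟨α, k', h⟩ := bsec_exW hT k
  rw [h]

theorem bsec_sub (hcov : ∀ x, ∃ i, x ∈ U i) (hT : bsecLift e r T) {i : ι} {x : X} (k : x ∈ U i)
    (α : A i) : T ⁻¹' {⟨x, r i x k α⟩} = e ⁻¹' {x} ∩ bsecW e r T i α := by
  ext y
  constructor
  · intro h
    have h' : T y = ⟨x, r i x k α⟩ := h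
    obtain rfl : e y = x := (bsec_fst hcov hT y).symm.trans (congrArg Sigma.fst h')
    exact ⟨rfl, k, h'⟩
  · rintro ⟨h1, k', h2⟩
    obtain rfl : e y = x := h1
    exact h2

theorem bsec_fib_closed [T1Space X] (hU : ∀ i, IsOpen (U i)) (hcov : ∀ x, ∃ i, x ∈ U i)
    (hr : ∀ i x h, Bijective (r i x h)) (hT : bsecLift e r T) (c : Σ x, G x) :
    IsClosed (T ⁻¹' {c}) := by
  obtain ⟨x, g⟩ := c
  obtain ⟨i, k⟩ := hcov x
  obtain ⟨α, rfl⟩ := (hr i x k).2 g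
  rw [bsec_sub hcov hT]
  exact bsec_closed hU hr hT isClosed_singleton (singleton_subset_iff.2 k) α

theorem bsec_fib_join (hU : ∀ i, IsOpen (U i)) (hcov : ∀ x, ∃ i, x ∈ U i)
    (hr : ∀ i x h, Bijective (r i x h)) (hT : bsecLift e r T) {x : X} {y y' : Y}
    (hj : JoinedIn (e ⁻¹' {x}) y y') : T y = T y' := by
  obtain ⟨i, k⟩ := hcov x
  have hB : e ⁻¹' {x} ⊆ e ⁻¹' U i := preimage_mono (singleton_subset_iff.2 k)
  obtain ⟨α, h'⟩ := bsec_exW hT (hB hj.target_mem)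
  have h := bsec_join hU hr hT hB hj h'
  have h1 : y ∈ T ⁻¹' {⟨x, r i x k α⟩} := by rw [bsec_sub hcov hT]; exact ⟨hj.source_mem, h⟩
  have h2 : y' ∈ T ⁻¹' {⟨x, r i x k α⟩} := by rw [bsec_sub hcov hT]; exact ⟨hj.target_mem, h'⟩
  exact (mem_singleton_iff.1 h1).trans (mem_singleton_iff.1 h2).symm

end Sys

/-- centred charts -/
abbrev bsecI (e : C(Y, X)) (N n : ℕ) : Type := {p : C(E n, X) × E n // Loc e N p.1}

/-- the open sets of the local system -/
def bsecU (e : C(Y, X)) (N n : ℕ) (i : bsecI e N n) : Set X := i.1.1 '' Metric.ball i.1.2 2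

/-- the restriction maps of the local system -/
noncomputable def bsecR (e : C(Y, X)) (N n : ℕ) (i : bsecI e N n) (x : X) (h : x ∈ bsecU e N n i)
    (α : HH (e ⁻¹' (i.1.1 '' Metric.closedBall i.1.2 2))ᶜ N) : HH (e ⁻¹' {x})ᶜ N :=
  HH.res (sub_pt e (image_mono Metric.ball_subset_closedBall h)) α

theorem bsec_hU {e : C(Y, X)} (i : bsecI e N n) : IsOpen (bsecU e N n i) :=
  i.2.emb.isOpenMap _ Metric.isOpen_ball

theorem bsec_hr {e : C(Y, X)} (i : bsecI e N n) (x : X) (h : x ∈ bsecU e N n i) :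
    Bijective (bsecR e N n i x h) := by
  obtain ⟨w, hw, rfl⟩ := h
  exact i.2.bij _ (isCompact_closedBall _ _) (convex_closedBall _ _) w
    (Metric.ball_subset_closedBall hw) N

theorem bsec_comp {e : C(Y, X)} (i i' : bsecI e N n) (x : X) (h : x ∈ bsecU e N n i)
    (h' : x ∈ bsecU e N n i') (α) (α') (H : bsecR e N n i x h α = bsecR e N n i' x h' α') :
    ∀ᶠ y in 𝓝 x, ∀ (k : y ∈ bsecU e N n i) (k' : y ∈ bsecU e N n i'),
      bsecR e N n i y k α = bsecR e N n i' y k' α' := by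
  obtain ⟨w, hw, rfl⟩ := h
  obtain ⟨δ, hδ, hb⟩ := Metric.nhds_basis_closedBall.mem_iff.1 (inter_mem
    (Metric.isOpen_ball.mem_nhds hw) (((bsec_hU i').preimage i.1.1.continuous).mem_nhds h'))
  have s1 : i.1.1 '' Metric.closedBall w δ ⊆ i.1.1 '' Metric.closedBall i.1.2 2 :=
    image_mono fun z hz => Metric.ball_subset_closedBall (hb hz).1
  have s2 : i.1.1 '' Metric.closedBall w δ ⊆ i'.1.1 '' Metric.closedBall i'.1.2 2 := by
    rintro _ ⟨z, hz, rfl⟩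
    exact image_mono Metric.ball_subset_closedBall (hb hz).2
  have key : HH.res (sub_pre e s1) α = HH.res (sub_pre e s2) α' := by
    refine (i.2.bij _ (isCompact_closedBall w δ) (convex_closedBall _ _) w
      (Metric.mem_closedBall_self hδ.le) N).1 ?_
    rw [HH.res_res, HH.res_res]
    exact H
  filter_upwards [i.2.emb.isOpenMap.image_mem_nhds (Metric.closedBall_mem_nhds w hδ)]
    with y hy k k'
  have := congrArg (HH.res (sub_pt e hy)) key
  rw [HH.res_res, HH.res_res] at this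
  exact this

theorem exists_section [T2Space X] (e : C(Y, X))
    (hX : ∀ x : X, ∃ j : C(E n, X), Loc e N j ∧ x ∈ range j ∧
      ∀ K : Set (E n), Convex ℝ K → FinComp (e ⁻¹' (j '' K)))
    (y0 : Y) (H : C(Y × unitInterval, Y)) (H0 : ∀ y, H (y, 0) = y0) (H1 : ∀ y, H (y, 1) = y)
    (hne : ∃ (x : X) (a : HH (e ⁻¹' {x})ᶜ N), a ≠ 0) :
    ∃ om : ∀ x : X, HH (e ⁻¹' {x})ᶜ N, Cons e N om ∧ ∃ x, om x ≠ 0 := by
  have hcov : ∀ x, ∃ i, x ∈ bsecU e N n i := by
    intro x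
    obtain ⟨j, hj, ⟨z, rfl⟩, -⟩ := hX x
    exact ⟨⟨(j, z), hj⟩, z, Metric.mem_ball_self two_pos, rfl⟩
  have hfib : ∀ x, FinComp (e ⁻¹' {x}) := by
    intro x
    obtain ⟨j, -, ⟨z, rfl⟩, h⟩ := hX x
    simpa only [image_singleton] using h {z} (convex_singleton z)
  obtain ⟨x0, a0, ha0⟩ := hne
  obtain ⟨T, hT, hTa⟩ : ∃ T : Y → (Σ x, HH (e ⁻¹' {x})ᶜ N), bsecLift e (bsecR e N n) T ∧
      ∀ k : (e ⁻¹' {x0})ᶜ ⊆ (T ⁻¹' {⟨x0, a0⟩})ᶜ, HH.res k a0 ≠ 0 := by
    by_contra hcon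
    refine ha0 (bsec_inj (W := fun c : {T // bsecLift e (bsecR e N n) T} →
      (Σ x, HH (e ⁻¹' {x})ᶜ N) => {y | ∀ T : {T // bsecLift e (bsecR e N n) T}, T.1 y = c T})
      Subset.rfl (hfib x0) (fun y _ => ⟨fun T => T.1 y, fun _ => rfl⟩)
      (fun y y' c hj h T => (bsec_fib_join bsec_hU hcov bsec_hr T.2 hj).trans (h T)) (fun c => ?_)
      (fun y c c' h h' => funext fun T => (h T).symm.trans (h' T)) a0 fun c k => ?_)
    · refine (isClosed_singleton.preimage e.continuous).inter ?_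
      rw [Set.ofPred_forall]
      exact isClosed_iInter fun T => bsec_fib_closed bsec_hU hcov bsec_hr T.2 (c T)
    · by_contra hk
      obtain ⟨y1, h1, h2⟩ : ∃ y1, y1 ∈ e ⁻¹' {x0} ∩
          {y | ∀ T : {T // bsecLift e (bsecR e N n) T}, T.1 y = c T} := by
        by_contra hy
        exact hk (HH.eq_zero_of_forall (fun y h => hy ⟨y, h⟩) _)
      obtain rfl : e y1 = x0 := h1
      obtain ⟨T, t1, t2⟩ := exists_lift (bsecU e N n) bsec_hU hcov (bsecR e N n) bsec_hr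
        bsec_comp e y0 H H0 H1 y1 a0
      refine hcon ⟨T, t2, fun k' h0 => hk ?_⟩
      have k2 : (T ⁻¹' {⟨e y1, a0⟩})ᶜ ⊆ (e ⁻¹' {e y1} ∩
          {y | ∀ T : {T // bsecLift e (bsecR e N n) T}, T.1 y = c T})ᶜ :=
        compl_subset_compl.2 fun y hy => ((hy.2 ⟨T, t2⟩).trans (h2 ⟨T, t2⟩).symm).trans t1
      have := congrArg (HH.res k2) h0
      rwa [HH.res_res, map_zero] at this
  have hsub : ∀ x g, (e ⁻¹' {x})ᶜ ⊆ (T ⁻¹' {⟨x, g⟩})ᶜ := fun x g =>
    compl_subset_compl.2 fun y hy => (bsec_fst hcov hT y).symm.trans (congrArg Sigma.fst hy)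
  have huniq : ∀ x (b b' : HH (e ⁻¹' {x})ᶜ N), (∀ g, HH.res (hsub x g) b = HH.res (hsub x g) g) →
      (∀ g, HH.res (hsub x g) b' = HH.res (hsub x g) g) → b = b' := by
    intro x b b' hb hb'
    rw [← sub_eq_zero]
    refine bsec_inj (W := fun g : HH (e ⁻¹' {x})ᶜ N => T ⁻¹' {⟨x, g⟩}) Subset.rfl (hfib x)
      (fun y hy => ?_) (fun y y' g hj h => (bsec_fib_join bsec_hU hcov bsec_hr hT hj).trans h)
      (fun g => (isClosed_singleton.preimage e.continuous).inter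
        (bsec_fib_closed bsec_hU hcov bsec_hr hT _))
      (fun y g g' h h' => eq_of_heq (Sigma.mk.inj (β := fun x => HH (e ⁻¹' {x})ᶜ N)
        ((mem_singleton_iff.1 h).symm.trans h')).2) _
      fun g k => ?_
    · obtain rfl : e y = x := hy
      obtain ⟨i, k⟩ := hcov (e y)
      obtain ⟨α, k', h⟩ := bsec_exW hT k
      exact ⟨_, h⟩
    · have := congrArg (HH.res (compl_subset_compl.2 (inter_subset_right (s := e ⁻¹' {x}))))
        ((hb g).trans (hb' g).symm)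
      rw [HH.res_res, HH.res_res] at this
      rw [map_sub, sub_eq_zero]
      exact this
  have hloc : ∀ x, ∃ K ∈ 𝓝 x, ∃ β : HH (e ⁻¹' K)ᶜ N, ∀ x' (hx : x' ∈ K) g,
      HH.res (hsub x' g) (HH.res (sub_pt e hx) β) = HH.res (hsub x' g) g := by
    intro x
    obtain ⟨j, hj, ⟨z, rfl⟩, hf⟩ := hX x
    have hKU : j '' Metric.closedBall z 1 ⊆ bsecU e N n ⟨(j, z), hj⟩ :=
      image_mono (Metric.closedBall_subset_ball one_lt_two)
    have hK : IsClosed (j '' Metric.closedBall z 1) :=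
      ((isCompact_closedBall z 1).image j.continuous).isClosed
    have hs : ∀ α, (e ⁻¹' (j '' Metric.closedBall z 2))ᶜ ⊆
        (e ⁻¹' (j '' Metric.closedBall z 1) ∩ bsecW e (bsecR e N n) T ⟨(j, z), hj⟩ α)ᶜ := fun α =>
      compl_subset_compl.2 fun y hy =>
        image_mono (Metric.closedBall_subset_closedBall one_le_two) hy.1
    obtain ⟨β, hβ⟩ := bsec_ex (N := N) (W := bsecW e (bsecR e N n) T ⟨(j, z), hj⟩)
      (preimage_mono hKU) (hf _ (convex_ball z 2)) (fun y hy => bsec_exW hT hy)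
      (fun y y' α hj h => bsec_join bsec_hU bsec_hr hT Subset.rfl hj h)
      (fun α => bsec_closed bsec_hU bsec_hr hT hK hKU α)
      (fun y α α' h h' => bsec_uniq bsec_hr h h') fun α => HH.res (hs α) α
    refine ⟨_, hj.emb.isOpenMap.image_mem_nhds (Metric.closedBall_mem_nhds z one_pos), β,
      fun x' hx g => ?_⟩
    obtain ⟨α, rfl⟩ := (bsec_hr ⟨(j, z), hj⟩ x' (hKU hx)).2 g
    have k : (e ⁻¹' (j '' Metric.closedBall z 1) ∩ bsecW e (bsecR e N n) T ⟨(j, z), hj⟩ α)ᶜ ⊆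
        (T ⁻¹' {⟨x', bsecR e N n ⟨(j, z), hj⟩ x' (hKU hx) α⟩})ᶜ := by
      rw [bsec_sub hcov hT]
      exact compl_subset_compl.2
        (inter_subset_inter_left _ (preimage_mono (singleton_subset_iff.2 hx)))
    have := congrArg (HH.res k) (hβ α (compl_subset_compl.2 inter_subset_left))
    rw [HH.res_res, HH.res_res] at this
    rw [HH.res_res]
    refine this.trans ?_
    exact (HH.res_res _ _ α).symm
  have hex : ∀ x, ∃ b : HH (e ⁻¹' {x})ᶜ N, ∀ g, HH.res (hsub x g) b = HH.res (hsub x g) g := by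
    intro x
    obtain ⟨K, hK, β, h⟩ := hloc x
    exact ⟨_, h x (mem_of_mem_nhds hK)⟩
  choose om hom using hex
  refine ⟨om, fun x => ?_, x0, fun h0 => hTa (hsub x0 a0) ?_⟩
  · obtain ⟨K, hK, β, h⟩ := hloc x
    exact ⟨K, hK, β, fun y hy => huniq y _ _ (h y hy) (hom y)⟩
  · rw [← hom x0 a0, h0, map_zero]

end Pool.Agent.GeoN.Ser
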