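import Mathlib
import Pool.Agent.P.MP_365c00_gt.BFib
import Pool.Agent.P.MP_365c00_gt.BGood
import Pool.Agent.P.MP_365c00_gt.BSec
import Pool.Agent.P.MP_365c00_gt.BPath

/-! TASK BSerre: the space of paths between two points of a closed manifold is not finitely
dominated. -/

open Set Topology Function
open Pool.Agent.URC

namespace Pool.Agent.GeoN.Ser

variable {X Y : Type} [TopologicalSpace X] [TopologicalSpace Y] {n : ℕ}

theorem h0_ne (F : Type) [TopologicalSpace F] [Nonempty F] : ∃ α : HH (∅ : Set F) 0, α ≠ 0 := by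
  obtain ⟨y⟩ := ‹Nonempty F›
  have hb : ∀ {Z : Type} [TopologicalSpace Z] (A : Set Z) (c : Ch Z 0), c ∈ ChIn A 0 := by
    intro Z _ A c
    refine mem_ChIn.2 fun σ _ => ?_
    rintro _ ⟨t, rfl⟩
    have := t.2.2
    simp at this
  refine ⟨HH.mk (Finsupp.single (ContinuousMap.const _ y) 1) (hb _ _), fun h => ?_⟩
  have h1 := congrArg (HH.map (B := ({()}ᶜ : Set Unit)) (ContinuousMap.const F ())
    (mapsTo_empty _ _)) h
  rw [map_zero, HH.map_mk] at h1
  simp only [push_single] at h1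
  have h2 := (gen_subsingleton () ((ContinuousMap.const F ()).comp (ContinuousMap.const _ y))
    (hb _ _)).1 (a₁ := 1) (a₂ := 0) (by simp only [h1, smul_zero])
  exact one_ne_zero h2

theorem contr_van (y0 : Y) (H : C(Y × unitInterval, Y)) (H0 : ∀ y, H (y, 0) = y0)
    (H1 : ∀ y, H (y, 1) = y) : Van Y 0 := by
  intro k hk α
  obtain ⟨k, rfl⟩ : ∃ m, k = m + 1 := ⟨k - 1, by omega⟩
  have hm : MapsTo (ContinuousMap.const Unit y0) ({()}ᶜ : Set Unit) (∅ : Set Y) :=
    fun u hu => absurd (mem_singleton_iff.2 rfl) hu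
  have h1 := HH.map_homotopy ((ContinuousMap.const Unit y0).comp (ContinuousMap.const Y ()))
    (ContinuousMap.id Y) H H0 H1 (A := ∅) (B := ∅) (fun x hx => hx.elim) (mapsTo_empty _ _)
    (mapsTo_empty _ _) α
  rw [HH.map_id'] at h1
  have h2 := HH.map_map (ContinuousMap.const Unit y0) (ContinuousMap.const Y ()) hm
    (mapsTo_empty _ _) α
  rw [vanish_subsingleton () (HH.map (ContinuousMap.const Y ()) _ α), map_zero] at h2
  rw [← h1]
  exact h2.symm

theorem serre_top [T2Space X] [CompactSpace X] [PathConnectedSpace X] (hn : 0 < n)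
    (hX : Charted n X) (p q : X) (hfin : FinComp (univ : Set (Om p q))) {d : ℕ}
    (hv : Van (Om p q) d) : False := by
  classical
  have : Nonempty (Om p q) := by
    obtain ⟨γ⟩ := PathConnectedSpace.joined p q
    exact ⟨⟨γ.toContinuousMap, γ.source, γ.target⟩⟩
  have hex : ∃ d, Van (Om p q) d := ⟨d, hv⟩
  obtain ⟨m, hm, hne⟩ : ∃ m, Van (Om p q) m ∧ ∃ α : HH (∅ : Set (Om p q)) m, α ≠ 0 := by
    refine ⟨Nat.find hex, Nat.find_spec hex, ?_⟩
    have h1 := Nat.find_spec hex
    have h2 : ∀ m < Nat.find hex, ¬ Van (Om p q) m := fun m h => Nat.find_min hex h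
    generalize Nat.find hex = m at h1 h2
    rcases m with _ | m
    · exact h0_ne _
    · by_contra hn
      refine h2 m (Nat.lt_succ_self m) fun k hk α => ?_
      rcases Nat.lt_or_ge (m + 1) k with h | h
      · exact h1 k h α
      · obtain rfl : k = m + 1 := by omega
        by_contra h0
        exact hn ⟨α, h0⟩
  obtain ⟨y0, H, H0, H1⟩ := path_contr p
  have hL : ∀ x : X, ∃ j : C(E n, X), Loc (endp p) (n + m) j ∧ x ∈ range j ∧
      ∀ K : Set (E n), Convex ℝ K → FinComp (endp p ⁻¹' (j '' K)) := by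
    intro x
    obtain ⟨j, hj, hx⟩ := hX x
    obtain ⟨L⟩ := path_locTriv p q hj
    exact ⟨j, L.loc hj hm, hx, fun K hK => L.finComp hj.injective hfin hK⟩
  have hne' : ∃ (x : X) (a : HH (endp p ⁻¹' {x})ᶜ (n + m)), a ≠ 0 := by
    obtain ⟨j, hj, -⟩ := hX p
    obtain ⟨L⟩ := path_locTriv p q hj
    exact ⟨j 0, L.nonzero hj hne 0⟩
  obtain ⟨om, hom, x, hx⟩ := exists_section (endp p) hL y0 H H0 H1 hne'
  obtain ⟨α, hα⟩ := (good_of_compact (fun x => (hL x).imp fun j h => ⟨h.1, h.2.1⟩) hom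
    isCompact_univ).ex
  have he : (endp p ⁻¹' (univ : Set X))ᶜ ⊆ ∅ := fun y hy => hy (mem_univ _)
  have h0 : α = 0 := by
    have h1 := contr_van y0 H H0 H1 (n + m) (by omega) (HH.res he α)
    have h2 := congrArg (HH.res (empty_subset (endp p ⁻¹' (univ : Set X))ᶜ)) h1
    rwa [HH.res_res, HH.res_self, map_zero] at h2
  exact hx (by rw [← hα x (mem_univ x), h0, map_zero])

end Pool.Agent.GeoN.Ser
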