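import Mathlib
import Pool.Agent.P.MP_365c00_gt.BSDefs

/-! TASK BShort: existence of short geodesics. -/

set_option linter.unusedSectionVars false
set_option linter.unusedVariables false

open Set Filter Topology Metric Function
open scoped Manifold ContDiff

namespace Pool.Agent.GeoN

variable {E : Type} [NormedAddCommGroup E] [InnerProductSpace ℝ E] [FiniteDimensional ℝ E]
  {M : Type} [TopologicalSpace M] [ChartedSpace E M] [IsManifold 𝓘(ℝ, E) ∞ M]
  [T2Space M] [CompactSpace M] [Nonempty M] [Nontrivial E]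

theorem bsh_smooth (g : Met E M) (x : M) {y : E × E} (hy : y.1 ∈ (κ E x).target)
    (h1 : geo g x y 1 ∈ (κ E x).source) :
    ContDiffAt ℝ ∞ (fun y : E × E => κ E x (geo g x y 1)) y := by
  have hin : ContDiff ℝ ∞ fun y : E × E => ((y, 1) : (E × E) × ℝ) := by fun_prop
  exact ContDiffAt.comp (f := fun y : E × E => ((y, 1) : (E × E) × ℝ)) y
    (contDiffAt_chart (n := ⊤) (x := x) (geo_smooth g x hy 1) h1) hin.contDiffAt

theorem bsh_zero (g : Met E M) (x : M) {a : E} (ha : a ∈ (κ E x).target) :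
    geo g x (a, 0) 1 = (κ E x).symm a := by
  have := geo_smul g x ha 0 0 1
  rw [zero_smul, zero_mul] at this
  rw [this]
  exact (geo_spec g x (y := (a, 0)) ha).2.1

theorem bsh_deriv (g : Met E M) (x : M) {a : E} (ha : a ∈ (κ E x).target) (V : E) :
    fderiv ℝ (fun y : E × E => κ E x (geo g x y 1)) (a, 0) (0, V) = V := by
  have hs : (κ E x).symm a ∈ (κ E x).source := (κ E x).map_target ha
  have hc := bsh_smooth g x (y := (a, 0)) ha (by rwa [bsh_zero g x ha])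
  have h1 := (hc.differentiableAt (by simp)).hasFDerivAt
  obtain ⟨k1, k2, k3⟩ := geo_spec g x (y := (a, V)) ha
  have h2 := ((isGeodesic_iff g _).1 k1 0).hasDerivAt (x := x) (by rwa [k2])
  rw [k3] at h2
  have h3 : HasDerivAt (fun t : ℝ => ((a, t • V) : E × E)) (0, V) 0 := by
    refine (hasDerivAt_const (0 : ℝ) a).prodMk ?_
    simpa using (hasDerivAt_id (0 : ℝ)).smul_const V
  have h4 := h1.comp_hasDerivAt_of_eq 0 h3 (by simp)
  have e : ((fun y : E × E => κ E x (geo g x y 1)) ∘ fun t : ℝ => ((a, t • V) : E × E)) =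
      fun t => κ E x (geo g x (a, V) t) := by
    funext t
    rw [Function.comp_apply, geo_smul g x ha, mul_one]
  rw [e] at h4
  exact h4.unique h2

/-- the local inverse of the end point map -/
theorem bsh_local (g : Met E M) (x : M) : ∃ (r ε : ℝ) (O : Set (E × E)) (Ψ : E × E → E × E),
    0 < r ∧ 0 < ε ∧ IsOpen O ∧
    (∀ a ∈ ball (κ E x x) r, ∀ V, G g x a V V < ε → (a, V) ∈ O) ∧
    ∀ y ∈ O, y.1 ∈ (κ E x).target ∧ geo g x y 1 ∈ (κ E x).source ∧
      Ψ (y.1, κ E x (geo g x y 1)) = y ∧ ContDiffAt ℝ ∞ Ψ (y.1, κ E x (geo g x y 1)) ∧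
      ∀ᶠ w in 𝓝 (y.1, κ E x (geo g x y 1)), ((Ψ w).1, κ E x (geo g x (Ψ w) 1)) = w := by
  have ha : κ E x x ∈ (κ E x).target := mem_extChartAt_target x
  generalize κ E x x = a at ha ⊢
  have hs : geo g x (a, 0) 1 ∈ (κ E x).source := by
    rw [bsh_zero g x ha]
    exact (κ E x).map_target ha
  obtain ⟨F, hF⟩ : ∃ F : E × E → E × E, F = fun y => (y.1, κ E x (geo g x y 1)) := ⟨_, rfl⟩
  have hsm : ∀ y : E × E, y.1 ∈ (κ E x).target → geo g x y 1 ∈ (κ E x).source →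
      ContDiffAt ℝ ∞ F y := fun y h1 h2 => hF ▸ contDiffAt_fst.prodMk (bsh_smooth g x h1 h2)
  have h0 := hsm (a, 0) ha hs
  have hd : fderiv ℝ F (a, 0) = (ContinuousLinearMap.fst ℝ E E).prod
      (fderiv ℝ (fun y : E × E => κ E x (geo g x y 1)) (a, 0)) := by
    rw [hF]
    exact (hasFDerivAt_fst.prodMk
      ((bsh_smooth g x (y := (a, 0)) ha hs).differentiableAt (by simp)).hasFDerivAt).fderiv
  have hinj : Injective (fderiv ℝ F (a, 0)) := by
    rw [injective_iff_map_eq_zero]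
    rintro ⟨u, v⟩ h
    rw [hd] at h
    have h1 : u = 0 := congrArg Prod.fst h
    have h2 : fderiv ℝ (fun y : E × E => κ E x (geo g x y 1)) (a, 0) (u, v) = 0 :=
      congrArg Prod.snd h
    rw [h1, bsh_deriv g x ha] at h2
    rw [h1, h2]
    rfl
  obtain ⟨L, hL⟩ : ∃ L : (E × E) ≃L[ℝ] (E × E), (L : E × E →L[ℝ] E × E) = fderiv ℝ F (a, 0) :=
    ⟨(LinearEquiv.ofInjectiveEndo (fderiv ℝ F (a, 0)).toLinearMap hinj).toContinuousLinearEquiv,
      ContinuousLinearMap.ext fun _ => rfl⟩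
  have h0' : HasFDerivAt F (L : E × E →L[ℝ] E × E) (a, 0) :=
    hL ▸ (h0.differentiableAt (by simp)).hasFDerivAt
  obtain ⟨e, he, hes⟩ : ∃ e : OpenPartialHomeomorph (E × E) (E × E), (e : E × E → E × E) = F ∧
      (a, 0) ∈ e.source :=
    ⟨h0.toOpenPartialHomeomorph F h0' (by simp), rfl,
      h0.mem_toOpenPartialHomeomorph_source h0' (by simp)⟩
  have e1 : ∀ᶠ y in 𝓝 ((a, 0) : E × E), y ∈ e.source := e.open_source.mem_nhds hes
  have e2 : ∀ᶠ y in 𝓝 ((a, 0) : E × E), y.1 ∈ (κ E x).target :=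
    continuousAt_fst.eventually ((target_open x).mem_nhds ha)
  have e3 : ∀ᶠ y in 𝓝 ((a, 0) : E × E), geo g x y 1 ∈ (κ E x).source := by
    have hin : Continuous fun y : E × E => ((y, 1) : (E × E) × ℝ) := by fun_prop
    have : ContinuousAt (fun y : E × E => geo g x y 1) (a, 0) :=
      (geo_smooth g x (y := (a, 0)) ha 1).continuousAt.comp_of_eq hin.continuousAt rfl
    exact this.eventually ((source_open x).mem_nhds hs)
  have e4 : ∀ᶠ y in 𝓝 ((a, 0) : E × E), fderiv ℝ F y ∈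
      range ((↑) : ((E × E) ≃L[ℝ] (E × E)) → E × E →L[ℝ] E × E) :=
    (h0.continuousAt_fderiv (by simp)).eventually
      (ContinuousLinearEquiv.isOpen.mem_nhds ⟨L, hL⟩)
  obtain ⟨ρ, hρ, hb⟩ := Metric.eventually_nhds_iff_ball.1 (e1.and (e2.and (e3.and e4)))
  have hmem : ∀ b ∈ closedBall a (ρ / 2), ∀ V : E, ‖V‖ < ρ → (b, V) ∈ ball ((a, 0) : E × E) ρ := by
    intro b hb V hV
    rw [← ball_prod_same]
    exact ⟨closedBall_subset_ball (half_lt_self hρ) hb, mem_ball_zero_iff.2 hV⟩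
  obtain ⟨l, hl, hG⟩ := G_coercive g x (isCompact_closedBall a (ρ / 2))
    (fun b hb' => (hb _ (hmem b hb' 0 (by simpa using hρ))).2.1)
  refine ⟨ρ / 2, l * ρ ^ 2, ball (a, 0) ρ, e.symm, half_pos hρ, by positivity, isOpen_ball, ?_, ?_⟩
  · intro b hb' V hV
    refine hmem b (ball_subset_closedBall hb') V ?_
    have h1 := lt_of_mul_lt_mul_left ((hG b (ball_subset_closedBall hb') V).trans_lt hV) hl.le
    exact lt_of_pow_lt_pow_left₀ 2 hρ.le h1
  · intro y hy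
    obtain ⟨h1, h2, h3, L', hL'⟩ := hb y hy
    have h4 : (y.1, κ E x (geo g x y 1)) = e y := by rw [he, hF]
    have h5 : e.symm (e y) = y := e.left_inv h1
    rw [h4]
    refine ⟨h2, h3, h5, ?_, ?_⟩
    · refine e.contDiffAt_symm (f₀' := L') (e.map_source h1) ?_ ?_
      · rw [h5, he, hL']
        exact ((hsm y h2 h3).differentiableAt (by simp)).hasFDerivAt
      · rw [h5, he]
        exact hsm y h2 h3
    · filter_upwards [e.open_target.mem_nhds (e.map_source h1)] with w hw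
      have := e.right_inv hw
      rwa [he, hF] at this

/-- a uniform energy bound -/
theorem bsh_unif (g : Met E M) : ∃ ε : ℝ, 0 < ε ∧ ∀ p : M, ∃ (x : M) (O : Set (E × E))
    (Ψ : E × E → E × E), p ∈ (κ E x).source ∧ IsOpen O ∧
    (∀ V, G g x (κ E x p) V V < ε → (κ E x p, V) ∈ O) ∧
    ∀ y ∈ O, y.1 ∈ (κ E x).target ∧ geo g x y 1 ∈ (κ E x).source ∧
      Ψ (y.1, κ E x (geo g x y 1)) = y ∧ ContDiffAt ℝ ∞ Ψ (y.1, κ E x (geo g x y 1)) ∧
      ∀ᶠ w in 𝓝 (y.1, κ E x (geo g x y 1)), ((Ψ w).1, κ E x (geo g x (Ψ w) 1)) = w := by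
  choose r ε O Ψ hr hε hO h1 h2 using bsh_local g
  obtain ⟨t, ht⟩ := CompactSpace.elim_nhds_subcover
    (fun x : M => (κ E x).source ∩ κ E x ⁻¹' ball (κ E x x) (r x)) fun x =>
      inter_mem (extChartAt_source_mem_nhds x)
        ((continuousAt_extChartAt x).preimage_mem_nhds (ball_mem_nhds _ (hr x)))
  have h3 : ∀ᶠ δ in 𝓝[>] (0 : ℝ), ∀ x ∈ t, δ < ε x :=
    (eventually_all_finset t).2 fun x _ => nhdsWithin_le_nhds (gt_mem_nhds (hε x))
  obtain ⟨δ, h4, h5⟩ := (h3.and self_mem_nhdsWithin).exists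
  refine ⟨δ, h5, fun p => ?_⟩
  have hp : p ∈ ⋃ x ∈ t, (κ E x).source ∩ κ E x ⁻¹' ball (κ E x x) (r x) := by
    rw [ht]
    exact mem_univ p
  obtain ⟨x, hx, hp1, hp2⟩ := mem_iUnion₂.1 hp
  exact ⟨x, O x, Ψ x, hp1, hO x, fun V hV => h1 x _ hp2 V (hV.trans (h4 x hx)), h2 x⟩

theorem exists_short (g : Met E M) : Nonempty (Short g) := by
  obtain ⟨ε, hε, H⟩ := bsh_unif g
  have hen : ∀ {γ : ℝ → M} {x : M}, IsGeodesic g γ → γ 0 ∈ (κ E x).source →
      G g x (κ E x (γ 0)) (vel E x γ 0) (vel E x γ 0) = energy g γ 0 := fun h hx =>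
    (energy_eq ((isGeodesic_iff g _).1 h 0) hx).symm
  have U : ∀ γ γ' : ℝ → M, IsGeodesic g γ → IsGeodesic g γ' → energy g γ 0 < ε →
      energy g γ' 0 < ε → γ 0 = γ' 0 → γ 1 = γ' 1 → γ = γ' := by
    intro γ γ' h h' k k' h0 h1
    obtain ⟨x, O, Ψ, hx, -, h2, h3⟩ := H (γ 0)
    have hx' : γ' 0 ∈ (κ E x).source := h0 ▸ hx
    have a := (h3 _ (h2 _ (by rwa [hen h hx]))).2.2.1
    rw [h0] at h2
    have b := (h3 _ (h2 _ (by rwa [hen h' hx']))).2.2.1
    rw [geo_jet h hx] at a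
    rw [geo_jet h' hx', ← h1] at b
    dsimp only at a b
    rw [← h0, a] at b
    exact geo_unique h h' hx h0 (congrArg Prod.snd b)
  obtain ⟨D, hD⟩ : ∃ D : Set (M × M), ∀ z, z ∈ D ↔
      ∃ γ, IsGeodesic g γ ∧ energy g γ 0 < ε ∧ γ 0 = z.1 ∧ γ 1 = z.2 := ⟨{z | _}, fun _ => Iff.rfl⟩
  have hex : ∀ z : M × M, ∃ γ : ℝ → M, z ∈ D →
      IsGeodesic g γ ∧ energy g γ 0 < ε ∧ γ 0 = z.1 ∧ γ 1 = z.2 := by
    intro z
    by_cases hz : z ∈ D
    · obtain ⟨γ, h⟩ := (hD z).1 hz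
      exact ⟨γ, fun _ => h⟩
    · exact ⟨fun _ => z.1, fun h => absurd h hz⟩
  choose σ hσ using hex
  have hu : ∀ γ, IsGeodesic g γ → energy g γ 0 < ε → (γ 0, γ 1) ∈ D ∧ σ (γ 0, γ 1) = γ := by
    intro γ h k
    have hz : (γ 0, γ 1) ∈ D := (hD _).2 ⟨γ, h, k, rfl, rfl⟩
    obtain ⟨a, b, c, d⟩ := hσ _ hz
    exact ⟨hz, U _ _ a h b k c d⟩
  have K : ∀ z ∈ D, ∃ (x : M) (Ψ : E × E → E × E), z.1 ∈ (κ E x).source ∧ z.2 ∈ (κ E x).source ∧
      ContDiffAt ℝ ∞ Ψ (κ E x z.1, κ E x z.2) ∧ (Ψ (κ E x z.1, κ E x z.2)).1 ∈ (κ E x).target ∧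
      ∀ᶠ z' in 𝓝 z, z' ∈ D ∧ σ z' = geo g x (Ψ (κ E x z'.1, κ E x z'.2)) := by
    intro z hz
    obtain ⟨γ, h, k, h0, h1⟩ := (hD z).1 hz
    obtain ⟨x, O, Ψ, hx, hO, h2, h3⟩ := H (γ 0)
    have hy := h2 _ (show G g x _ (vel E x γ 0) (vel E x γ 0) < ε by rwa [hen h hx])
    obtain ⟨a1, a2, a3, a4, a5⟩ := h3 _ hy
    rw [geo_jet h hx] at a2 a3 a4 a5
    dsimp only at a1 a3 a4 a5
    have k' : G g x (κ E x (γ 0)) (vel E x γ 0) (vel E x γ 0) < ε := by rwa [hen h hx]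
    generalize vel E x γ 0 = V at hy a3 k'
    rw [h1] at a2 a3 a4 a5
    rw [h0] at hx hy a1 a3 a4 a5 k'
    refine ⟨x, Ψ, hx, a2, a4, by rwa [a3], ?_⟩
    have c1 : ContinuousAt (fun z' : M × M => (κ E x z'.1, κ E x z'.2)) z :=
      ((continuousAt_extChartAt' hx).comp continuousAt_fst).prodMk
        ((continuousAt_extChartAt' a2).comp continuousAt_snd)
    have c2 : Tendsto (fun z' : M × M => Ψ (κ E x z'.1, κ E x z'.2)) (𝓝 z) (𝓝 (κ E x z.1, V)) := by
      rw [← a3]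
      exact a4.continuousAt.tendsto.comp c1
    have c3 : ContinuousAt (fun y : E × E => G g x y.1 y.2 y.2) (κ E x z.1, V) :=
      (((ChartX.G_diff g x a1).continuousAt.comp_of_eq continuousAt_fst rfl).clm_apply
        continuousAt_snd).clm_apply continuousAt_snd
    filter_upwards [c1.eventually a5, c2.eventually (hO.mem_nhds hy),
      c2.eventually (c3.eventually (gt_mem_nhds k')),
      continuousAt_fst.eventually ((source_open x).mem_nhds hx),
      continuousAt_snd.eventually ((source_open x).mem_nhds a2)] with z' b1 b2 b3 b4 b5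
    generalize Ψ (κ E x z'.1, κ E x z'.2) = y at b1 b2 b3 ⊢
    obtain ⟨d1, d2, -⟩ := h3 y b2
    obtain ⟨d3, d4, -⟩ := geo_spec g x d1
    have d5 : geo g x y 0 = z'.1 := by
      rw [d4, show y.1 = κ E x z'.1 from congrArg Prod.fst b1]
      exact (κ E x).left_inv b4
    have d6 : geo g x y 1 = z'.2 := (κ E x).injOn d2 b5 (congrArg Prod.snd b1)
    have d7 := hu _ d3 (by rwa [energy_geo g x d1])
    rwa [d5, d6] at d7
  refine ⟨⟨ε, hε, D, ?_, σ, fun z hz => (hσ z hz).1, fun z hz => (hσ z hz).2.2.1,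
    fun z hz => (hσ z hz).2.2.2, fun z hz => (hσ z hz).2.1, hu, ?_⟩⟩
  · rw [isOpen_iff_mem_nhds]
    intro z hz
    obtain ⟨x, Ψ, -, -, -, -, h⟩ := K z hz
    exact h.mono fun _ h' => h'.1
  · intro x y w h1 h2 hz t
    obtain ⟨x0, Ψ, a1, a2, a3, a4, a5⟩ := K _ hz
    dsimp only at a1 a2 a3 a4
    have c1 : ContinuousAt (fun v : (E × E) × ℝ => ((κ E x).symm v.1.1, (κ E y).symm v.1.2))
        (w, t) :=
      ((ChartX.symm_smooth h1).continuousAt.comp_of_eq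
        (continuousAt_fst.comp continuousAt_fst) rfl).prodMk
        ((ChartX.symm_smooth h2).continuousAt.comp_of_eq
          (continuousAt_snd.comp continuousAt_fst) rfl)
    have c2 : ContDiffAt ℝ ∞ (fun v : (E × E) × ℝ =>
        (κ E x0 ((κ E x).symm v.1.1), κ E x0 ((κ E y).symm v.1.2))) (w, t) :=
      (ContDiffAt.comp (f := fun v : (E × E) × ℝ => v.1.1) (w, t) (contDiffAt_trans h1 a1)
        contDiffAt_fst.fst).prodMk
        (ContDiffAt.comp (f := fun v : (E × E) × ℝ => v.1.2) (w, t) (contDiffAt_trans h2 a2)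
          contDiffAt_fst.snd)
    have c3 : ContDiffAt ℝ ∞ (fun v : (E × E) × ℝ =>
        (Ψ (κ E x0 ((κ E x).symm v.1.1), κ E x0 ((κ E y).symm v.1.2)), v.2)) (w, t) :=
      (ContDiffAt.comp (f := fun v : (E × E) × ℝ =>
        (κ E x0 ((κ E x).symm v.1.1), κ E x0 ((κ E y).symm v.1.2))) (w, t) a3 c2).prodMk
        contDiffAt_snd
    have c4 := ContMDiffAt.comp (f := fun v : (E × E) × ℝ =>
        (Ψ (κ E x0 ((κ E x).symm v.1.1), κ E x0 ((κ E y).symm v.1.2)), v.2)) (w, t)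
      (geo_smooth g x0 a4 t) c3.contMDiffAt
    refine c4.congr_of_eventuallyEq ?_
    filter_upwards [c1.eventually a5] with v hv
    exact congrFun hv.2 v.2

end Pool.Agent.GeoN
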