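import Mathlib
import Pool.Agent.P.MP_365c00_gt.BGood

/-! TASK BVan: the homology of an open subset of a compact manifold vanishes above the
dimension; products of charted spaces; domination. -/

open Set Topology Function
open Pool.Agent.URC

namespace Pool.Agent.GeoN.Ser

variable {X : Type} [TopologicalSpace X] {n : ℕ}

theorem loc_id [T2Space X] {j : C(E n, X)} (hj : IsOpenEmbedding j) :
    Loc (ContinuousMap.id X) n j := by
  refine ⟨hj, fun K hK hc z hz k => ?_, fun z k hk α => ?_⟩
  · have h : MapsTo j Kᶜ (j '' K)ᶜ := fun x hx h => hx (hj.injective.mem_set_image.1 h)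
    have hb := excision (k := k) j hj (A := Kᶜ) (hK.image j.continuous).isClosed.isOpen_compl
      (fun y => by
        by_cases hy : y ∈ j '' K
        · exact Or.inl (image_subset_range _ _ hy)
        · exact Or.inr hy) (fun x hx hx' => hx ⟨x, hx', rfl⟩) h
    have hz' : Kᶜ ⊆ {z}ᶜ := compl_subset_compl.2 (singleton_subset_iff.2 hz)
    have hz2 : (j '' K)ᶜ ⊆ {j z}ᶜ :=
      compl_subset_compl.2 (singleton_subset_iff.2 (mem_image_of_mem j hz))
    have h1 := (bij_pt (k := k) j hj rfl (mapsTo_pt hj.injective z)).comp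
      (res_bij hK.isBounded (hc.starConvex hz) hz')
    have e : (HH.map j (mapsTo_pt hj.injective z) : HH {z}ᶜ k → HH {j z}ᶜ k) ∘ HH.res hz' =
        (HH.res hz2 : HH (j '' K)ᶜ k → HH {j z}ᶜ k) ∘ HH.map j h := by
      funext α
      simp only [comp_apply, HH.res_map, HH.map_res]
    rw [e] at h1
    exact (Bijective.of_comp_iff _ hb).1 h1
  · obtain ⟨β, rfl⟩ := (bij_pt (k := k) j hj rfl (mapsTo_pt hj.injective z)).2 α
    rw [vanish_pt z hk β]
    exact map_zero _

/-- a chain in a union of two disjoint open sets splits -/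
theorem bvan_split {U V : Set X} (hU : IsOpen U) (hV : IsOpen V) (hd : Disjoint U V) {k : ℕ}
    {c : Ch X k} (hc : c ∈ ChIn (U ∪ V) k) : ∃ a ∈ ChIn U k, ∃ b ∈ ChIn V k, c = a + b := by
  refine ChIn_induction (P := fun c => ∃ a ∈ ChIn U k, ∃ b ∈ ChIn V k, c = a + b) hc
    ⟨0, Submodule.zero_mem _, 0, Submodule.zero_mem _, by simp⟩ ?_ ?_
  · rintro _ _ ⟨a, ha, b, hb, rfl⟩ ⟨a', ha', b', hb', rfl⟩
    exact ⟨a + a', Submodule.add_mem _ ha ha', b + b', Submodule.add_mem _ hb hb', by abel⟩
  · intro σ m hσ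
    have : PreconnectedSpace (Dl k) :=
      Subtype.preconnectedSpace (convex_stdSimplex ℝ (Fin k)).isPreconnected
    rcases (isPreconnected_range σ.continuous).subset_or_subset hU hV hd
      (range_subset_iff.2 hσ) with h | h
    · exact ⟨_, single_mem_ChIn m (range_subset_iff.1 h), 0, Submodule.zero_mem _, by simp⟩
    · exact ⟨0, Submodule.zero_mem _, _, single_mem_ChIn m (range_subset_iff.1 h), by simp⟩

theorem bvan_compact [T2Space X] (hX : Charted n X) {K : Set X} (hK : IsCompact K) {k : ℕ}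
    (hk : n < k) (α : HH Kᶜ k) : α = 0 := by
  have h := good_of_compact (e := ContinuousMap.id X) (N := n) (om := fun _ => 0)
    (fun x => by
      obtain ⟨j, hj, hx⟩ := hX x
      exact ⟨j, loc_id hj, hx⟩)
    (fun x => ⟨univ, Filter.univ_mem, 0, fun y hy => map_zero _⟩) hK
  exact h.van k hk α

theorem bvan_push_inj {Y : Type} [TopologicalSpace Y] (i : C(Y, X)) (hi : Injective i) {k : ℕ}
    {c : Ch Y (k + 1)} (h : push i c = 0) : c = 0 := by
  have h1 := mem_ChIn_of_push i hi (T := ∅) (c := c) (by rw [h]; exact Submodule.zero_mem _)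
  rw [preimage_empty] at h1
  exact mem_ChIn_empty.1 h1

theorem van_open [T2Space X] [CompactSpace X] (hX : Charted n X) {W : Set X} (hW : IsOpen W) :
    Van W n := by
  intro k hk α
  obtain ⟨k, rfl⟩ : ∃ m, k = m + 1 := ⟨k - 1, by omega⟩
  obtain ⟨c, hc, rfl⟩ := HH.exists_mk α
  have hc0 : bd c = 0 := mem_ChIn_empty.1 hc
  let i : C(W, X) := ⟨Subtype.val, continuous_subtype_val⟩
  have hz0 : bd (push i c) = 0 := by rw [bd_push, hc0, map_zero]
  have hzW : push i c ∈ ChIn W (k + 2) :=
    push_mem_ChIn i (A := univ) (fun x _ => x.2) (mem_ChIn_univ c)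
  obtain ⟨U, hU, h1, h2⟩ := normal_exists_closure_subset (isCompact_car (push i c)).isClosed hW
    (mem_ChIn_iff_car.1 hzW)
  have hzU : push i c ∈ ChIn U (k + 2) := mem_ChIn_iff_car.2 h1
  have hV : IsOpen (closure U)ᶜ := isClosed_closure.isOpen_compl
  have hd : Disjoint U (closure U)ᶜ := disjoint_compl_right_iff_subset.2 subset_closure
  obtain ⟨d, hd1⟩ := mem_Bd.1 (HH.mk_eq_zero.1 (bvan_compact hX isClosed_closure.isCompact hk
    (HH.mk (A := (closure U)ᶜ) (push i c) (by rw [hz0]; exact Submodule.zero_mem _))))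
  have hK : IsCompact (U ∪ (closure U)ᶜ)ᶜ := (hU.union hV).isClosed_compl.isCompact
  have hbd : bd d ∈ ChIn (U ∪ (closure U)ᶜ)ᶜᶜ (k + 2) := by
    rw [compl_compl]
    have := Submodule.sub_mem _ (ChIn_mono (subset_union_left (t := (closure U)ᶜ)) _ hzU)
      (ChIn_mono (subset_union_right (s := U)) _ hd1)
    rwa [sub_sub_cancel] at this
  obtain ⟨d', hd2⟩ := mem_Bd.1 (HH.mk_eq_zero.1 (bvan_compact hX hK (by omega) (HH.mk d hbd)))
  rw [compl_compl] at hd2
  obtain ⟨a, ha, b, hb, e⟩ := bvan_split hU hV hd hd2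
  have e1 : bd d = bd a + bd b := by
    rw [← map_add, ← e, map_sub, bd_bd, sub_zero]
  have m1 : push i c - bd a ∈ ChIn U (k + 2) := Submodule.sub_mem _ hzU (bd_mem_ChIn ha)
  have m2 : push i c - bd a ∈ ChIn (closure U)ᶜ (k + 2) := by
    have := Submodule.add_mem _ hd1 (bd_mem_ChIn hb)
    rwa [e1, show push i c - (bd a + bd b) + bd b = push i c - bd a by abel] at this
  have m3 := mem_ChIn_inter.2 ⟨m1, m2⟩
  rw [hd.inter_eq] at m3
  have m4 := mem_ChIn_empty.1 m3
  obtain ⟨a', rfl⟩ := exists_push i IsInducing.subtypeVal (c := a)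
    (ChIn_mono (B := range i) (fun x hx => ⟨⟨x, h2 (subset_closure hx)⟩, rfl⟩) _ ha)
  rw [bd_push, ← map_sub] at m4
  refine HH.mk_eq_zero.2 (mem_Bd.2 ⟨a', ?_⟩)
  rw [bvan_push_inj i Subtype.val_injective m4]
  exact Submodule.zero_mem _

/-- blocks of coordinates -/
def bvanBlk (m n : ℕ) : E (m * n) ≃ₜ (Fin m → E n) where
  toFun v i a := v (finProdFinEquiv (i, a))
  invFun w l := w (finProdFinEquiv.symm l).1 (finProdFinEquiv.symm l).2
  left_inv v := by
    funext l
    simp only [Prod.mk.eta, Equiv.apply_symm_apply]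
  right_inv w := by
    funext i a
    simp only [Equiv.symm_apply_apply]
  continuous_toFun := by fun_prop
  continuous_invFun := by fun_prop

theorem Charted.pi (hX : Charted n X) (m : ℕ) : Charted (m * n) (Fin m → X) := by
  intro x
  choose j hj y hy using fun i => hX (x i)
  have h := (IsOpenEmbedding.piMap (f := fun i => (j i : E n → X)) hj).comp
    (bvanBlk m n).isOpenEmbedding
  refine ⟨⟨_, h.continuous⟩, h, (bvanBlk m n).symm y, ?_⟩
  funext i
  simp only [ContinuousMap.coe_mk, comp_apply, Homeomorph.apply_symm_apply, Pi.map_apply, hy]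

theorem charted_of_chartedSpace {V : Type} [NormedAddCommGroup V] [NormedSpace ℝ V]
    [FiniteDimensional ℝ V] [ChartedSpace V X] : Charted (Module.finrank ℝ V) X := by
  intro x
  let L : E (Module.finrank ℝ V) ≃L[ℝ] V := ContinuousLinearEquiv.ofFinrankEq (by simp)
  have hx := mem_chart_source V x
  have h1 : L ⁻¹' (chartAt V x).target ∈ 𝓝 (L.symm (chartAt V x x)) := by
    refine ((chartAt V x).open_target.preimage L.continuous).mem_nhds ?_
    rw [mem_preimage, L.apply_symm_apply]
    exact (chartAt V x).map_source hx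
  obtain ⟨β, hβ, h0, hU⟩ := exists_emb _ h1
  have hL : IsOpenEmbedding (L ∘ β) := L.toHomeomorph.isOpenEmbedding.comp hβ
  have h : IsOpenEmbedding ((chartAt V x).symm ∘ (L ∘ β)) := by
    refine IsOpenEmbedding.of_continuous_injective_isOpenMap
      ((chartAt V x).continuousOn_symm.comp_continuous hL.continuous hU)
      (fun y y' e => hL.injective ((chartAt V x).symm.injOn (hU y) (hU y') e)) fun S hS => ?_
    rw [image_comp]
    refine (chartAt V x).symm.isOpen_image_of_subset_source (hL.isOpenMap S hS) ?_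
    rintro _ ⟨y, -, rfl⟩
    exact hU y
  refine ⟨⟨_, h.continuous⟩, h, 0, ?_⟩
  simp only [ContinuousMap.coe_mk, comp_apply, h0, L.apply_symm_apply]
  exact (chartAt V x).left_inv hx

/-- if every map from a compact space to `F` factors up to homotopy through `W`, vanishing of
homology passes from `W` to `F` -/
theorem van_of_dom {F W : Type} [TopologicalSpace F] [TopologicalSpace W] (b : C(W, F))
    (h : ∀ (K : Set F), IsCompact K → ∃ φ : C(K, W),
      ContinuousMap.Homotopic (⟨Subtype.val, continuous_subtype_val⟩ : C(K, F)) (b.comp φ))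
    {d : ℕ} (hW : Van W d) : Van F d := by
  intro k hk α
  obtain ⟨k, rfl⟩ : ∃ m, k = m + 1 := ⟨k - 1, by omega⟩
  obtain ⟨c, hc, rfl⟩ := HH.exists_mk α
  have hc0 : bd c = 0 := mem_ChIn_empty.1 hc
  obtain ⟨φ, ⟨H⟩⟩ := h (car c) (isCompact_car c)
  let i : C(car c, F) := ⟨Subtype.val, continuous_subtype_val⟩
  obtain ⟨c', hc'⟩ := exists_push i IsInducing.subtypeVal (c := c)
    (mem_ChIn_iff_car.2 fun x hx => ⟨⟨x, hx⟩, rfl⟩)
  have h0 : bd c' = 0 := bvan_push_inj i Subtype.val_injective (by rw [← bd_push, hc', hc0])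
  have h1 : bd c' ∈ ChIn (∅ : Set (car c)) (k + 1) := by
    rw [h0]
    exact Submodule.zero_mem _
  have h2 : HH.mk c hc = HH.map i (mapsTo_empty _ _) (HH.mk c' h1) := by
    rw [HH.map_mk, HH.mk_eq_mk, hc', sub_self]
    exact Submodule.zero_mem _
  have h3 := HH.map_homotopy i (b.comp φ) (H.toContinuousMap.comp ContinuousMap.prodSwap)
    (fun x => H.apply_zero x) (fun x => H.apply_one x) (A := ∅) (B := ∅)
    (fun x hx => absurd hx (notMem_empty x)) (mapsTo_empty _ _) (mapsTo_empty _ _) (HH.mk c' h1)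
  rw [h2, h3, ← HH.map_map b φ (mapsTo_empty _ ∅) (mapsTo_empty _ ∅), hW _ hk (HH.map φ _ _),
    map_zero]

end Pool.Agent.GeoN.Ser
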