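import Mathlib
import Pool.Agent.P.MP_365c00_gt.BDom
import Pool.Agent.P.MP_365c00_gt.BShort
import Pool.Agent.P.MP_365c00_gt.BSerre
import Pool.Agent.P.MP_365c00_gt.BVan

/-! TASK BLong: Serre's theorem: arbitrarily long geodesics between any two points. -/

set_option linter.unusedSectionVars false
set_option linter.unusedVariables false

open Set Filter Topology Metric Function
open scoped Manifold ContDiff

namespace Pool.Agent.GeoN

variable {E : Type} [NormedAddCommGroup E] [InnerProductSpace ℝ E] [FiniteDimensional ℝ E]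
  {M : Type} [TopologicalSpace M] [ChartedSpace E M] [IsManifold 𝓘(ℝ, E) ∞ M]
  [T2Space M] [CompactSpace M] [Nonempty M] [Nontrivial E]

theorem blong_joined {A B : Type} [TopologicalSpace A] [TopologicalSpace B] {f f' : C(A, B)}
    (h : f.Homotopic f') (a : A) : Joined (f a) (f' a) := by
  obtain ⟨H⟩ := h
  exact ⟨H.evalAt a⟩

theorem blong_near {g : Met E M} (sh : Short g) {p q : M} (c : Ser.Om p q) :
    ∀ᶠ c' in 𝓝 c, Joined c' c := by
  have h1 : ∀ᶠ c' : Ser.Om p q in 𝓝 c, ∀ t ∈ (univ : Set unitInterval), (c'.1 t, c.1 t) ∈ sh.D := by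
    refine isCompact_univ.eventually_forall_of_forall_eventually fun t _ => ?_
    have hc : Continuous fun z : Ser.Om p q × unitInterval => (z.1.1 z.2, c.1 z.2) := by
      fun_prop
    exact hc.continuousAt.eventually_mem (sh.D_open.mem_nhds (sh.diag _))
  filter_upwards [h1] with c' hc'
  exact blong_joined (sh.homotopic (Z := PUnit) (ContinuousMap.const _ c')
    (ContinuousMap.const _ c) fun _ t => hc' t (mem_univ t)) PUnit.unit

theorem serre [ConnectedSpace M] (g : Met E M) (p q : M) (T : ℝ) :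
    ∃ γ, IsGeodesic g γ ∧ γ 0 = p ∧ γ 1 = q ∧ T < energy g γ 0 := by
  by_contra hno
  push Not at hno
  obtain ⟨sh⟩ := exists_short g
  obtain ⟨k, Z, hZ, hdom⟩ := sh.dom p q hno
  have hch : Ser.Charted (Module.finrank ℝ E) M := Ser.charted_of_chartedSpace
  have hv : Ser.Van (Ser.Om p q) (k * Module.finrank ℝ E) :=
    Ser.van_of_dom (sh.brk p q k) (fun K hK => (hdom K hK).imp fun φ h => h.2)
      (Ser.van_open (hch.pi k) (sh.W_open p q k))
  have hfin : Ser.FinComp (univ : Set (Ser.Om p q)) := by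
    obtain ⟨S, -, hS⟩ := (hZ.image (sh.brk p q k).continuous).elim_nhds_subcover
      (fun c => {c' | Joined c' c}) fun c _ => blong_near sh c
    refine ⟨S, S.finite_toSet, fun c _ => ?_⟩
    obtain ⟨φ, h1, h2⟩ := hdom {c} isCompact_singleton
    obtain ⟨s, hs, h3⟩ := mem_iUnion₂.1 (hS (mem_image_of_mem _ (h1 ⟨c, rfl⟩)))
    exact ⟨s, hs, joinedIn_univ.2 ((blong_joined h2 ⟨c, rfl⟩).trans h3)⟩
  have : LocallyPathConnectedSpace M := ChartedSpace.locallyPathConnectedSpace E M
  have : PathConnectedSpace M := pathConnectedSpace_iff_connectedSpace.2 inferInstance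
  exact Ser.serre_top Module.finrank_pos hch p q hfin hv

end Pool.Agent.GeoN
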