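import Mathlib
import Pool.Agent.P.MP_365c00_gt.BKey
import Pool.Agent.P.MP_365c00_gt.BBox
import Pool.Agent.P.MP_365c00_gt.BLong

/-! TASK BStep: the moment condition gives an open set of geodesics with a common period. -/

set_option linter.unusedSectionVars false
set_option linter.unusedVariables false

open Set Filter Topology Metric Function
open scoped Manifold ContDiff

namespace Pool.Agent.GeoN

variable {E : Type} [NormedAddCommGroup E] [InnerProductSpace ℝ E] [FiniteDimensional ℝ E]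
  {M : Type} [TopologicalSpace M] [ChartedSpace E M] [IsManifold 𝓘(ℝ, E) ∞ M]
  [T2Space M] [CompactSpace M] [Nonempty M] [Nontrivial E]

open MeasureTheory

variable {g : Met E M} [MeasurableSpace (E × E)] [BorelSpace (E × E)]

/-- a box all of whose points are fixed gives an interior point -/
theorem Box.interior {sh : Short g} {x : M} {w0 : E × E} {τ : ℝ} (b : Box sh x w0 τ)
    (h : ∀ w ∈ ball w0 b.r, b.f w = w) (u : UG g)
    (hu : ∀ t, sh.Γ x w0 t = u.1 (√(energy g (sh.Γ x w0) 0) * t)) :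
    u ∈ interior (Per g (√(energy g (sh.Γ x w0) 0) * τ)) := by
  have hw0 : w0 ∈ sh.V x := b.sub (mem_ball_self b.r_pos)
  have hpos := Short.Γ_pos hw0
  have hlt : energy g (sh.Γ x w0) 0 < sh.ε := sh.lt _ hw0.2.2.1
  set e0 := energy g (sh.Γ x w0) 0 with he0
  set lam := √e0 with hlam
  have hl : 0 < lam := Real.sqrt_pos.2 hpos
  have hl2 : lam ^ 2 = e0 := Real.sq_sqrt hpos.le
  have u0 : u.1 0 = (κ E x).symm w0.1 := by rw [← Short.Γ_zero hw0, hu, mul_zero]
  have u1 : u.1 lam = (κ E x).symm w0.2 := by rw [← Short.Γ_one hw0, hu, mul_one]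
  have s0 : u.1 0 ∈ (κ E x).source := u0 ▸ (κ E x).map_target hw0.1
  have s1 : u.1 lam ∈ (κ E x).source := u1 ▸ (κ E x).map_target hw0.2.1
  have hev : ∀ t : ℝ, Continuous fun v : UG g => v.1 t := fun t =>
    (ev_cont g).comp (continuous_id.prodMk continuous_const)
  have e1 : ∀ᶠ v : UG g in 𝓝 u, v.1 0 ∈ (κ E x).source :=
    (hev 0).continuousAt.eventually_mem ((source_open x).mem_nhds s0)
  have e2 : ∀ᶠ v : UG g in 𝓝 u, v.1 lam ∈ (κ E x).source :=
    (hev lam).continuousAt.eventually_mem ((source_open x).mem_nhds s1)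
  have c1 : ContinuousAt (fun v : UG g => κ E x (v.1 0)) u :=
    ContinuousAt.comp (f := fun v : UG g => v.1 0) (continuousAt_extChartAt' s0)
      (hev 0).continuousAt
  have c2 : ContinuousAt (fun v : UG g => κ E x (v.1 lam)) u :=
    ContinuousAt.comp (f := fun v : UG g => v.1 lam) (continuousAt_extChartAt' s1)
      (hev lam).continuousAt
  have e3 : ∀ᶠ v : UG g in 𝓝 u, (κ E x (v.1 0), κ E x (v.1 lam)) ∈ ball w0 b.r := by
    refine (c1.prodMk c2).eventually_mem (isOpen_ball.mem_nhds ?_)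
    rw [u0, u1, (κ E x).right_inv hw0.1, (κ E x).right_inv hw0.2.1]
    exact mem_ball_self b.r_pos
  rw [mem_interior_iff_mem_nhds]
  filter_upwards [e1, e2, e3] with v h1 h2 h3
  obtain ⟨hg, he⟩ := v.energy_scale lam 0
  have a0 : lam * 0 + 0 = 0 := by ring
  have a1 : lam * 1 + 0 = lam := by ring
  have hne : v.1 lam ≠ v.1 0 := fun e => (b.sub h3).2.2.2 (by simp only [e])
  have key := (Short.Γ_of_geo (sh := sh) (x := x) hg (by rw [he, hl2]; exact hlt)
    (by simpa only [a0] using h1) (by simpa only [a1] using h2)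
    (by simpa only [a0, a1] using hne)).2
  simp only [a0, a1] at key
  obtain ⟨hp, hT⟩ := b.const h h3
  rw [key] at hp hT
  rw [he, Real.sqrt_sq hl.le] at hT
  intro s
  have := hp (s / lam)
  simp only [add_zero] at this
  rw [mul_add, hT, mul_div_cancel₀ _ hl.ne'] at this
  exact this

omit [MeasurableSpace (E × E)] [BorelSpace (E × E)] in
theorem bstep_small {γ : ℝ → M} (h : IsGeodesic g γ) (he : 0 < energy g γ 0) {x : M}
    (hx : γ 0 ∈ (κ E x).source) {B : Set E} (hB : IsOpen B) (h0 : κ E x (γ 0) ∈ B) {ε : ℝ}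
    (hε : 0 < ε) : ∃ m : ℕ, (1 / ((m : ℝ) + 1)) ^ 2 * energy g γ 0 < ε ∧
      γ (1 / ((m : ℝ) + 1)) ∈ (κ E x).source ∧ κ E x (γ (1 / ((m : ℝ) + 1))) ∈ B ∧
      γ (1 / ((m : ℝ) + 1)) ≠ γ 0 := by
  obtain ⟨u, hu⟩ := exists_unit_sqrt h he
  obtain ⟨δ, hδ, hinj⟩ := u.locinj
  have hl : 0 < √(energy g γ 0) := Real.sqrt_pos.2 he
  have e1 : ∀ᶠ t in 𝓝 (0 : ℝ), t ^ 2 * energy g γ 0 < ε := by
    have : ContinuousAt (fun t : ℝ => t ^ 2 * energy g γ 0) 0 := by fun_prop
    exact this.eventually_lt continuousAt_const (by simpa using hε)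
  have e2 : ∀ᶠ t in 𝓝 (0 : ℝ), γ t ∈ (κ E x).source :=
    h.cont.continuousAt.eventually_mem ((source_open x).mem_nhds hx)
  have e3 : ∀ᶠ t in 𝓝 (0 : ℝ), κ E x (γ t) ∈ B :=
    (ContinuousAt.comp (f := γ) (continuousAt_extChartAt' hx)
      h.cont.continuousAt).eventually_mem (hB.mem_nhds h0)
  have e4 : ∀ᶠ t in 𝓝 (0 : ℝ), √(energy g γ 0) * t < δ := by
    have : ContinuousAt (fun t : ℝ => √(energy g γ 0) * t) 0 := by fun_prop
    exact this.eventually_lt continuousAt_const (by simpa using hδ)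
  obtain ⟨m, h1, h2, h3, h4⟩ := (tendsto_one_div_add_atTop_nhds_zero_nat.eventually
    (e1.and (e2.and (e3.and e4)))).exists
  refine ⟨m, h1, h2, h3, fun e => ?_⟩
  have hm : 0 < √(energy g γ 0) * (1 / ((m : ℝ) + 1)) := by positivity
  rw [hu, hu 0, mul_zero] at e
  have := hinj ⟨by linarith, h4⟩ ⟨by linarith, hδ⟩ e
  linarith

/-- closed short geodesics have positive measure -/
theorem bstep_pos [ConnectedSpace M] (μ : Measure (E × E)) [μ.IsAddHaarMeasure] (sh : Short g)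
    (x : M) {B : Set E} (hB : IsOpen B) (hne : B.Nonempty) (hBt : B ⊆ (κ E x).target) {s : ℝ}
    (hs : 0 < s) (hint : ∫⁻ w in B ×ˢ B, num g x x w ^ s ∂μ < ⊤) :
    μ {w | w ∈ B ×ˢ B ∧ w ∈ sh.V x ∧ ∃ π > 0, Periodic (sh.Γ x w) π} ≠ 0 := by
  intro hP
  set P := {w | w ∈ B ×ˢ B ∧ w ∈ sh.V x ∧ ∃ π > 0, Periodic (sh.Γ x w) π} with hPdef
  let F : ℕ → E × E → E × E := fun m w => (w.1, κ E x (sh.Γ x w ((m : ℝ) + 1)))
  let S : ℕ → Set (E × E) := fun m => P ∩ {w | sh.Γ x w ((m : ℝ) + 1) ∈ (κ E x).source}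
  have hF : ∀ m, μ (F m '' S m) = 0 := by
    intro m
    refine addHaar_image_eq_zero_of_differentiableOn_of_addHaar_eq_zero μ (fun w hw => ?_)
      (measure_mono_null inter_subset_left hP)
    have h1 := contDiffAt_chart (n := ⊤) (Short.Γ_smooth hw.1.2.1 ((m : ℝ) + 1)) hw.2
    have h2 : DifferentiableAt ℝ (fun w : E × E => (w, (m : ℝ) + 1)) w := by fun_prop
    have h3 := (h1.differentiableAt (by simp)).comp w h2
    exact (differentiableAt_fst.prodMk h3).differentiableWithinAt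
  have hA : {w | w ∈ B ×ˢ B ∧ num g x x w < ⊤} ⊆ ⋃ m, F m '' S m := by
    rintro w ⟨hw, hfin⟩
    have hfin' : (images g ((κ E x).symm w.1, (κ E x).symm w.2)).Finite := by
      rw [← Set.encard_lt_top_iff]
      exact ENat.toENNReal_lt_top.1 hfin
    obtain ⟨γ, hγ, g0, g1, he, π, hπ, hp⟩ := per_of_finite (fun T => serre g _ _ T) hfin'
    have s0 : γ 0 ∈ (κ E x).source := g0 ▸ (κ E x).map_target (hBt hw.1)
    have k0 : κ E x (γ 0) = w.1 := by rw [g0, (κ E x).right_inv (hBt hw.1)]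
    obtain ⟨m, h1, h2, h3, h4⟩ := bstep_small hγ he s0 hB (k0 ▸ hw.1) sh.ε_pos
    set l : ℝ := 1 / ((m : ℝ) + 1) with hl
    have hl0 : 0 < l := by positivity
    have a0 : l * 0 + 0 = 0 := by ring
    have a1 : l * 1 + 0 = l := by ring
    have a2 : l * ((m : ℝ) + 1) + 0 = 1 := by
      rw [hl]
      field_simp
      ring
    have hg := hγ.affine l 0
    have key := Short.Γ_of_geo (sh := sh) (x := x) hg
      (by rw [energy_affine hγ, a0]; exact h1)
      (by simpa only [a0] using s0) (by simpa only [a1] using h2)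
      (by simpa only [a0, a1] using h4)
    simp only [a0, a1] at key
    have g2 : sh.Γ x (κ E x (γ 0), κ E x (γ l)) ((m : ℝ) + 1) = (κ E x).symm w.2 := by
      rw [key.2]
      simp only [a2, g1]
    refine mem_iUnion.2 ⟨m, (κ E x (γ 0), κ E x (γ l)), ⟨⟨⟨k0 ▸ hw.1, h3⟩, key.1, π / l,
      by positivity, ?_⟩, ?_⟩, ?_⟩
    · rw [key.2]
      intro t
      simp only [add_zero]
      rw [mul_add, mul_div_cancel₀ _ hl0.ne']
      exact hp _
    · change sh.Γ x (κ E x (γ 0), κ E x (γ l)) ((m : ℝ) + 1) ∈ (κ E x).source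
      rw [g2]
      exact (κ E x).map_target (hBt hw.2)
    · simp only [F]
      rw [g2, k0, (κ E x).right_inv (hBt hw.2)]
  have hA0 := measure_mono_null hA (measure_iUnion_null hF)
  have hae : (fun w => num g x x w ^ s) =ᵐ[μ.restrict (B ×ˢ B)] fun _ => ⊤ := by
    refine (ae_restrict_iff' (hB.prod hB).measurableSet).2 ?_
    filter_upwards [measure_eq_zero_iff_ae_notMem.1 hA0] with w hw hwB
    have : num g x x w = ⊤ := by
      by_contra hh
      exact hw ⟨hwB, lt_top_iff_ne_top.2 hh⟩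
    rw [this, ENNReal.top_rpow_of_pos hs]
  rw [lintegral_congr_ae hae, lintegral_const, Measure.restrict_apply_univ,
    ENNReal.top_mul ((hB.prod hB).measure_ne_zero μ (hne.prod hne))] at hint
  exact lt_irrefl _ hint

theorem step1 [ConnectedSpace M] (μ : Measure (E × E)) [μ.IsAddHaarMeasure] (hm : Mom g μ) :
    ∃ τ > 0, (interior (Per g τ)).Nonempty := by
  obtain ⟨sh⟩ := exists_short g
  let x : M := Classical.arbitrary M
  obtain ⟨s, hs, U, hU, hint⟩ := hm x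
  obtain ⟨ρ, hρ, hB⟩ := Metric.mem_nhds_iff.1
    (inter_mem hU ((target_open x).mem_nhds (mem_extChartAt_target x)))
  set B := ball (κ E x x) ρ with hBdef
  have hBo : IsOpen B := isOpen_ball
  have hint' : ∫⁻ w in B ×ˢ B, num g x x w ^ s ∂μ < ⊤ :=
    (lintegral_mono_set (prod_mono (fun _ h => (hB h).1) fun _ h => (hB h).1)).trans_lt hint
  by_contra hno
  refine bstep_pos μ sh x hBo ⟨_, mem_ball_self hρ⟩ (fun _ h => (hB h).2) hs hint' ?_
  let Q : Set ((E × E) × ℝ) :=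
    {z | z.1 ∈ B ×ˢ B ∧ z.1 ∈ sh.V x ∧ 0 < z.2 ∧ Periodic (sh.Γ x z.1) z.2}
  have key : ∀ z ∈ Q, ∃ N ∈ 𝓝[Q] z, μ (Prod.fst '' (N ∩ Q)) = 0 := by
    rintro ⟨w0, τ⟩ ⟨h1, h2, h3, h4⟩
    obtain ⟨b, hb⟩ := exists_box h2 h3 h4 ((hBo.prod hBo).mem_nhds h1)
    have hX : ContDiffOn ℝ ∞ (fun w => b.f w - w) (ball w0 b.r) := b.f_smooth.sub contDiffOn_id
    have hflat : Flat (fun w => b.f w - w) (ball w0 b.r) = ∅ := by
      by_contra hne
      have hfix := b.all_fixed μ hs ((lintegral_mono_set hb).trans_lt hint')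
        (nonempty_iff_ne_empty.2 hne)
      obtain ⟨u, hu⟩ := exists_unit_sqrt (Short.Γ_geo h2) (Short.Γ_pos h2)
      exact hno ⟨_, mul_pos (Real.sqrt_pos.2 (Short.Γ_pos h2)) h3, u, b.interior hfix u hu⟩
    have hnull := null_diff_flat μ isOpen_ball hX
    rw [hflat, sdiff_empty] at hnull
    refine ⟨ball w0 b.r ×ˢ ball τ b.θ, mem_nhdsWithin_of_mem_nhds
      (prod_mem_nhds (ball_mem_nhds _ b.r_pos) (ball_mem_nhds _ b.θ_pos)),
      measure_mono_null ?_ hnull⟩
    rintro _ ⟨⟨w, t⟩, ⟨⟨hw, ht⟩, hq⟩, rfl⟩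
    refine ⟨hw, sub_eq_zero.2 (b.fix hw ?_ hq.2.2.2)⟩
    simpa only [mem_ball, Real.dist_eq] using ht
  choose! N hN hN0 using key
  obtain ⟨t, htQ, htc, hcov⟩ := TopologicalSpace.countable_cover_nhdsWithin hN
  refine measure_mono_null (t := ⋃ z ∈ t, Prod.fst '' (N z ∩ Q)) ?_
    ((measure_biUnion_null_iff htc).2 fun z hz => hN0 z (htQ hz))
  rintro w ⟨h1, h2, π, h3, h4⟩
  have hq : (w, π) ∈ Q := ⟨h1, h2, h3, h4⟩
  obtain ⟨z, hz, hz'⟩ := mem_iUnion₂.1 (hcov hq)
  exact mem_iUnion₂.2 ⟨z, hz, (w, π), ⟨hz', hq⟩, rfl⟩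

end Pool.Agent.GeoN
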