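import Mathlib
import Pool.Agent.P.MP_365c00_gt.BStep

/-! TASK BMain: the moment condition implies a common period. -/

set_option linter.unusedSectionVars false
set_option linter.unusedVariables false

open Set Filter Topology Metric Function
open scoped Manifold ContDiff

namespace Pool.Agent.GeoN

variable {E : Type} [NormedAddCommGroup E] [InnerProductSpace ℝ E] [FiniteDimensional ℝ E]
  {M : Type} [TopologicalSpace M] [ChartedSpace E M] [IsManifold 𝓘(ℝ, E) ∞ M]
  [T2Space M] [CompactSpace M] [Nonempty M] [Nontrivial E]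

open MeasureTheory

variable {g : Met E M} [MeasurableSpace (E × E)] [BorelSpace (E × E)]

theorem bmain_pair (sh : Short g) (x : M) {lam : ℝ} (hε : lam ^ 2 < sh.ε) (v : UG g)
    (h0 : v.1 0 ∈ (κ E x).source) (h1 : v.1 lam ∈ (κ E x).source) (hne : v.1 lam ≠ v.1 0) :
    (κ E x (v.1 0), κ E x (v.1 lam)) ∈ sh.V x ∧
      (∀ t, sh.Γ x (κ E x (v.1 0), κ E x (v.1 lam)) t = v.1 (lam * t)) ∧
      energy g (sh.Γ x (κ E x (v.1 0), κ E x (v.1 lam))) 0 = lam ^ 2 := by
  obtain ⟨a1, a2⟩ := v.energy_scale lam 0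
  have h := Short.Γ_of_geo (sh := sh) (x := x) a1 (a2 ▸ hε) (by simpa using h0)
    (by simpa using h1) (by simpa using hne)
  simp only [mul_zero, add_zero, mul_one] at h a2
  exact ⟨h.1, fun t => by rw [h.2], by rw [h.2]; exact a2⟩

theorem step2 (μ : Measure (E × E)) [μ.IsAddHaarMeasure] (hm : Mom g μ) {τ : ℝ} (hτ : 0 < τ) :
    IsClosed (interior (Per g τ)) := by
  obtain ⟨sh⟩ := exists_short g
  refine isClosed_of_closure_subset fun u hu => ?_
  have hup : Periodic u.1 τ := closure_minimal interior_subset (per_closed g τ) hu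
  obtain ⟨x, hx⟩ : ∃ x, x = u.1 0 := ⟨_, rfl⟩
  obtain ⟨s, hs, U, hU, hμ⟩ := hm x
  have hsrc : IsOpen (κ E x).source := isOpen_extChartAt_source x
  have hx0 : u.1 0 ∈ (κ E x).source := hx ▸ mem_extChartAt_source x
  have hk : ∀ y ∈ (κ E x).source, ContinuousAt (κ E x) y := fun y hy =>
    continuousAt_extChartAt' hy
  obtain ⟨ε, hε, hinj⟩ := u.locinj
  have hev : ∀ᶠ lam in 𝓝[>] (0 : ℝ), lam ^ 2 < sh.ε ∧ u.1 lam ∈ (κ E x).source ∧
      κ E x (u.1 lam) ∈ interior U ∧ lam < ε ∧ 0 < lam := by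
    have hc : ContinuousAt u.1 0 := u.1.continuous.continuousAt
    refine (Eventually.filter_mono nhdsWithin_le_nhds ?_).and
      ((Eventually.filter_mono nhdsWithin_le_nhds (hc.eventually (hsrc.mem_nhds hx0))).and
      ((Eventually.filter_mono nhdsWithin_le_nhds ?_).and
      ((Eventually.filter_mono nhdsWithin_le_nhds (gt_mem_nhds hε)).and self_mem_nhdsWithin)))
    · exact (continuous_pow 2).continuousAt.eventually (gt_mem_nhds (by simpa using sh.ε_pos))
    · refine ((hk _ hx0).comp hc).eventually (interior_mem_nhds.2 ?_)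
      simpa only [Function.comp_apply, ← hx] using hU
  obtain ⟨lam, l1, l2, l3, l4, l5⟩ := hev.exists
  have l6 : u.1 lam ≠ u.1 0 := fun h =>
    l5.ne' (hinj ⟨by linarith, l4⟩ ⟨by linarith, hε⟩ h)
  have hsq : √(lam ^ 2) = lam := Real.sqrt_sq l5.le
  obtain ⟨w1, w2, w3⟩ := bmain_pair sh x l1 u hx0 l2 l6
  have hN : U ×ˢ U ∈ 𝓝 (κ E x (u.1 0), κ E x (u.1 lam)) :=
    prod_mem_nhds (hx ▸ hU) (mem_interior_iff_mem_nhds.1 l3)
  have hW : ContinuousAt (fun v : UG g => (κ E x (v.1 0), κ E x (v.1 lam))) u ∧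
      ∀ᶠ v : UG g in 𝓝 u, v.1 0 ∈ (κ E x).source ∧ v.1 lam ∈ (κ E x).source ∧
        v.1 lam ≠ v.1 0 := by
    have e0 : Continuous fun v : UG g => v.1 0 :=
      (ev_cont g).comp (continuous_id.prodMk continuous_const)
    have e1 : Continuous fun v : UG g => v.1 lam :=
      (ev_cont g).comp (continuous_id.prodMk continuous_const)
    refine ⟨(ContinuousAt.comp (f := fun v : UG g => v.1 0) (hk _ hx0) e0.continuousAt).prodMk
      (ContinuousAt.comp (f := fun v : UG g => v.1 lam) (hk _ l2) e1.continuousAt), ?_⟩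
    exact (e0.continuousAt.eventually (hsrc.mem_nhds hx0)).and
      ((e1.continuousAt.eventually (hsrc.mem_nhds l2)).and
        ((isOpen_ne_fun e1 e0).mem_nhds l6))
  generalize hw0 : (κ E x (u.1 0), κ E x (u.1 lam)) = w0 at w1 w2 w3 hN
  have hper : Periodic (sh.Γ x w0) (τ / lam) := fun t => by
    rw [w2, w2, mul_add, mul_div_cancel₀ _ l5.ne', hup]
  obtain ⟨b, hb⟩ := exists_box w1 (div_pos hτ l5) hper hN
  have hball : ∀ᶠ v : UG g in 𝓝 u, (κ E x (v.1 0), κ E x (v.1 lam)) ∈ ball w0 b.r :=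
    hW.1.eventually (by beta_reduce; rw [hw0]; exact ball_mem_nhds w0 b.r_pos)
  obtain ⟨v, hv1, hv2, hv3⟩ := ((mem_closure_iff_frequently.1 hu).and_eventually
    (hball.and hW.2)).exists
  obtain ⟨v1, v2, v3⟩ := bmain_pair sh x l1 v hv3.1 hv3.2.1 hv3.2.2
  generalize (κ E x (v.1 0), κ E x (v.1 lam)) = w at v1 v2 v3 hv2
  obtain ⟨un, hun, hun2⟩ := sh.exists_un x
  have hVn : sh.V x ∈ 𝓝 w := (sh.V_open x).mem_nhds v1
  have hunw : un w = v := by
    refine Subtype.ext (ContinuousMap.ext fun t => ?_)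
    have h := hun2 w v1 (t / lam)
    rw [v2, v3, hsq, mul_div_cancel₀ _ l5.ne'] at h
    exact h.symm
  have he : ContinuousAt (fun y => energy g (sh.Γ x y) 0) w :=
    (energy_smooth (Γ := sh.Γ x) (sh.V_open x) (fun z hz => Short.Γ_geo hz)
      (fun z hz t => Short.Γ_smooth hz t) v1).continuousAt
  have hq : ContinuousAt (fun y => |τ / √(energy g (sh.Γ x y) 0) - τ / lam|) w :=
    ((continuousAt_const.div he.sqrt (by rw [v3, hsq]; exact l5.ne')).sub continuousAt_const).abs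
  have hfix : ∀ᶠ y in 𝓝 w, b.f y - y = 0 := by
    have e1 : ∀ᶠ y in 𝓝 w, un y ∈ interior (Per g τ) :=
      (hun.continuousAt hVn).eventually (isOpen_interior.mem_nhds (hunw ▸ hv1))
    have e2 : ∀ᶠ y in 𝓝 w, |τ / √(energy g (sh.Γ x y) 0) - τ / lam| < b.θ :=
      hq.eventually (gt_mem_nhds (by simpa only [v3, hsq, sub_self, abs_zero] using b.θ_pos))
    filter_upwards [e1, e2, isOpen_ball.mem_nhds hv2] with y h1 h2 h3
    have hy := b.sub h3
    have hp : Periodic (un y).1 τ := interior_subset h1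
    have hpos : 0 < √(energy g (sh.Γ x y) 0) := Real.sqrt_pos.2 (Short.Γ_pos hy)
    refine sub_eq_zero.2 (b.fix h3 h2 fun t => ?_)
    rw [hun2 y hy, hun2 y hy, mul_add, mul_div_cancel₀ _ hpos.ne', hp]
  have hall := b.all_fixed μ hs ((lintegral_mono_set hb).trans_lt hμ)
    ⟨w, mem_flat_of_eventually hv2 hfix⟩
  have hfin := b.interior hall u (fun t => by rw [w2, w3, hsq])
  rwa [w3, hsq, mul_div_cancel₀ _ l5.ne'] at hfin

theorem besse_of_mom [ConnectedSpace M] (hE : 2 ≤ Module.finrank ℝ E) (μ : Measure (E × E))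
    [μ.IsAddHaarMeasure] (hm : Mom g μ) :
    ∃ τ : ℝ, 0 < τ ∧ ∀ γ : ℝ → M, IsGeodesic g γ → UnitSpeed g γ → Periodic γ τ := by
  obtain ⟨τ, hτ, hne⟩ := step1 μ hm
  haveI := ug_conn hE g
  have h : interior (Per g τ) = univ :=
    IsClopen.eq_univ ⟨step2 μ hm hτ, isOpen_interior⟩ hne
  refine ⟨τ, hτ, fun γ h1 h2 => ?_⟩
  have h3 : (⟨⟨γ, h1.cont⟩, h1, h2⟩ : UG g) ∈ Per g τ := interior_subset (h ▸ mem_univ _)
  exact h3

end Pool.Agent.GeoN
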