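import Mathlib

open Set Bundle MeasureTheory
open scoped Manifold ContDiff

namespace Pool.Agent.GeoFin

/-- the model plane -/
abbrev E : Type := EuclideanSpace ℝ (Fin 2)

variable {M : Type*} [TopologicalSpace M] [ChartedSpace E M] [IsManifold (𝓡 2) ∞ M]

/-- smooth Riemannian metrics on the surface `M` -/
abbrev Met (M : Type*) [TopologicalSpace M] [ChartedSpace E M] [IsManifold (𝓡 2) ∞ M] :=
  ContMDiffRiemannianMetric (𝓡 2) ∞ E (fun x : M => TangentSpace (𝓡 2) x)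

/-- the metric `g` read in the chart at `x`, at the point `a` of the plane -/
noncomputable def coef (g : Met M) (x : M) (a u w : E) : ℝ :=
  g.inner ((extChartAt (𝓡 2) x).symm a)
    (mfderiv 𝓘(ℝ, E) (𝓡 2) (extChartAt (𝓡 2) x).symm a u)
    (mfderiv 𝓘(ℝ, E) (𝓡 2) (extChartAt (𝓡 2) x).symm a w)

/-- smooth curves solving the Euler-Lagrange equation of the energy in every chart -/
def IsGeodesic (g : Met M) (γ : ℝ → M) : Prop :=
  ContMDiff 𝓘(ℝ, ℝ) (𝓡 2) ∞ γ ∧ ∀ (x : M) (t : ℝ), γ t ∈ (extChartAt (𝓡 2) x).source → ∀ w : E,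
    HasDerivAt
      (fun s => coef g x (extChartAt (𝓡 2) x (γ s)) (deriv (extChartAt (𝓡 2) x ∘ γ) s) w)
      (1 / 2 * fderiv ℝ (fun a => coef g x a (deriv (extChartAt (𝓡 2) x ∘ γ) t)
        (deriv (extChartAt (𝓡 2) x ∘ γ) t)) (extChartAt (𝓡 2) x (γ t)) w) t

/-- unit speed -/
def UnitSpeed (g : Met M) (γ : ℝ → M) : Prop :=
  ∀ t, g.inner (γ t) (mfderiv 𝓘(ℝ, ℝ) (𝓡 2) γ t (1 : ℝ)) (mfderiv 𝓘(ℝ, ℝ) (𝓡 2) γ t (1 : ℝ)) = 1

/-- pairs of points joined by only finitely many geometrically distinct geodesics -/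
def finPairs (g : Met M) : Set (M × M) :=
  {z | Set.Finite {S : Set M | ∃ γ : ℝ → M, IsGeodesic g γ ∧ (∃ s ∈ Icc (0 : ℝ) 1, γ s ≠ γ 0) ∧
    γ 0 = z.1 ∧ γ 1 = z.2 ∧ S = γ '' Icc 0 1}}

/-- subsets of `M × M` that are Lebesgue null in every product chart -/
def NullPairs (S : Set (M × M)) : Prop :=
  ∀ x y : M, volume (Prod.map (extChartAt (𝓡 2) x) (extChartAt (𝓡 2) y) ''
    (S ∩ (extChartAt (𝓡 2) x).source ×ˢ (extChartAt (𝓡 2) y).source)) = 0

end Pool.Agent.GeoFin
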