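import Mathlib
import Pool.Agent.P.MP_365c00_gt.Defs

/-!
The metric and the geodesic equation in charts.
-/

set_option maxSynthPendingDepth 3

open Set Filter Topology Bundle
open scoped Manifold ContDiff

namespace Pool.Agent.GeoFin

variable {M : Type*} [TopologicalSpace M] [ChartedSpace E M] [IsManifold (𝓡 2) ∞ M]

/-- the chart at `x` -/
noncomputable abbrev κ (x : M) : PartialEquiv M E := extChartAt (𝓡 2) x

/-- the metric in the chart at `x` as a field of bilinear forms -/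
noncomputable def G (g : Met M) (x : M) (a : E) : E →L[ℝ] E →L[ℝ] ℝ :=
  let B : E →L[ℝ] E →L[ℝ] ℝ := g.inner ((κ x).symm a)
  let D : E →L[ℝ] E := mfderiv 𝓘(ℝ, E) (𝓡 2) (κ x).symm a
  B.bilinearComp D D

theorem G_apply (g : Met M) (x : M) (a u w : E) : G g x a u w = coef g x a u w := rfl

section
omit [IsManifold (𝓡 2) ∞ M]

theorem target_open (x : M) : IsOpen (κ x).target := isOpen_extChartAt_target x

theorem source_open (x : M) : IsOpen (κ x).source := isOpen_extChartAt_source x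

end

namespace ChartX

theorem two_le : (2 : WithTop ℕ∞) ≤ ∞ := WithTop.coe_le_coe.2 (le_top : ((2 : ℕ) : ℕ∞) ≤ ⊤)

theorem one_add_one_le : (1 : WithTop ℕ∞) + 1 ≤ ∞ := one_add_one_eq_two (R := WithTop ℕ∞) ▸ two_le

/-- derivative of a field of bilinear forms along a curve -/
theorem hasDerivAt_bil {B : E → E →L[ℝ] E →L[ℝ] ℝ} {c U W : ℝ → E} {v U' W' : E} {t : ℝ}
    (hB : DifferentiableAt ℝ B (c t)) (hc : HasDerivAt c v t) (hU : HasDerivAt U U' t)
    (hW : HasDerivAt W W' t) : HasDerivAt (fun s => B (c s) (U s) (W s))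
      (fderiv ℝ B (c t) v (U t) (W t) + B (c t) U' (W t) + B (c t) (U t) W') t := by
  have h1 : HasDerivAt (fun s => B (c s)) (fderiv ℝ B (c t) v) t :=
    hB.hasFDerivAt.comp_hasDerivAt t hc
  simpa using (h1.clm_apply hU).clm_apply hW

theorem fderiv_bil {B : E → E →L[ℝ] E →L[ℝ] ℝ} {a : E} (hB : DifferentiableAt ℝ B a)
    (u w h : E) : fderiv ℝ (fun b => B b u w) a h = fderiv ℝ B a h u w := by
  have h1 := ((hB.hasFDerivAt.clm_apply (hasFDerivAt_const u a)).clm_apply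
    (hasFDerivAt_const w a)).fderiv
  rw [h1]
  simp

/-- derivative of the transformation rule -/
theorem fderiv_pull {B B' : E → E →L[ℝ] E →L[ℝ] ℝ} {φ : E → E} {a : E}
    (hB : DifferentiableAt ℝ B a) (hB' : DifferentiableAt ℝ B' (φ a)) (hφ : ContDiffAt ℝ 2 φ a)
    (he : ∀ᶠ b in 𝓝 a, ∀ u w, B b u w = B' (φ b) (fderiv ℝ φ b u) (fderiv ℝ φ b w)) (h u w : E) :
    fderiv ℝ B a h u w = fderiv ℝ B' (φ a) (fderiv ℝ φ a h) (fderiv ℝ φ a u) (fderiv ℝ φ a w)
      + B' (φ a) (fderiv ℝ (fderiv ℝ φ) a h u) (fderiv ℝ φ a w)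
      + B' (φ a) (fderiv ℝ φ a u) (fderiv ℝ (fderiv ℝ φ) a h w) := by
  have hl : HasDerivAt (fun s : ℝ => a + s • h) h 0 := by
    simpa using ((hasDerivAt_id (0 : ℝ)).smul_const h).const_add a
  have e0 : a + (0 : ℝ) • h = a := by simp
  have hD : DifferentiableAt ℝ (fderiv ℝ φ) (a + (0 : ℝ) • h) := by
    rw [e0]
    exact (hφ.fderiv_right (m := 1) (by norm_num)).differentiableAt (by norm_num)
  have hφ' : DifferentiableAt ℝ φ (a + (0 : ℝ) • h) := by
    rw [e0]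
    exact hφ.differentiableAt (by norm_num)
  have hD' := hD.hasFDerivAt.comp_hasDerivAt (0 : ℝ) hl
  have h1 := hasDerivAt_bil (B := B) (c := fun s : ℝ => a + s • h) (by rwa [e0]) hl
    (hasDerivAt_const (0 : ℝ) u) (hasDerivAt_const (0 : ℝ) w)
  have h2 := hasDerivAt_bil (B := B') (c := fun s : ℝ => φ (a + s • h)) (by rwa [e0])
    (hφ'.hasFDerivAt.comp_hasDerivAt (0 : ℝ) hl)
    (hD'.clm_apply (hasDerivAt_const (0 : ℝ) u)) (hD'.clm_apply (hasDerivAt_const (0 : ℝ) w))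
  have ht : Tendsto (fun s : ℝ => a + s • h) (𝓝 0) (𝓝 a) := by
    simpa using hl.continuousAt.tendsto
  have h3 := h1.unique (h2.congr_of_eventuallyEq ((ht.eventually he).mono fun s hs => hs u w))
  simpa using h3

theorem hasDerivAt_deriv {c : ℝ → E} {t : ℝ} (h : ContDiffAt ℝ ∞ c t) :
    HasDerivAt (deriv c) (deriv (deriv c) t) t := by
  have h1 : ContDiffAt ℝ 1 (fderiv ℝ c) t := h.fderiv_right one_add_one_le
  exact ((h1.differentiableAt (by norm_num)).clm_apply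
    (differentiableAt_const (1 : ℝ))).hasDerivAt

theorem inner_congr (g : Met M) {p q : M} (h : p = q) (u w : E) :
    (g.inner p : E →L[ℝ] E →L[ℝ] ℝ) u w = (g.inner q : E →L[ℝ] E →L[ℝ] ℝ) u w := by
  subst h
  rfl

theorem symm_smooth {x : M} {a : E} (ha : a ∈ (κ x).target) :
    ContMDiffAt 𝓘(ℝ, E) (𝓡 2) ∞ (κ x).symm a :=
  (contMDiffOn_extChartAt_symm x).contMDiffAt ((target_open x).mem_nhds ha)

theorem field_smooth {x : M} {a : E} (ha : a ∈ (κ x).target) (u : E) :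
    ContMDiffAt 𝓘(ℝ, E) ((𝓡 2).prod 𝓘(ℝ, E)) ∞ (fun b => (TotalSpace.mk' E ((κ x).symm b)
      (mfderiv 𝓘(ℝ, E) (𝓡 2) (κ x).symm b u) : TangentBundle (𝓡 2) M)) a := by
  have h1 := (symm_smooth ha).mfderiv_const (m := ∞) (by exact_mod_cast le_top)
  have h2 : ContMDiffAt 𝓘(ℝ, E) (𝓘(ℝ, E).prod 𝓘(ℝ, E)) ∞
      (fun b : E => (TotalSpace.mk' E b u : TangentBundle 𝓘(ℝ, E) E)) a :=
    contMDiffAt_vectorSpace_iff_contDiffAt.2 contDiffAt_const
  exact ContMDiffAt.clm_apply_of_inCoordinates (b₁ := id) (b₂ := (κ x).symm)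
    (ϕ := fun b => mfderiv 𝓘(ℝ, E) (𝓡 2) (κ x).symm b) (v := fun _ => u) h1 h2 (symm_smooth ha)

end ChartX

open ChartX

variable {P : Type*} [NormedAddCommGroup P] [NormedSpace ℝ P]

theorem contDiffAt_chart {n : ℕ∞} {Γ : P → M} {z : P} {x : M}
    (h : ContMDiffAt 𝓘(ℝ, P) (𝓡 2) n Γ z) (hx : Γ z ∈ (κ x).source) :
    ContDiffAt ℝ n (κ x ∘ Γ) z := by
  have h1 : ContMDiffAt (𝓡 2) 𝓘(ℝ, E) ∞ (κ x) (Γ z) :=
    contMDiffAt_extChartAt' (by rwa [extChartAt_source] at hx)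
  exact ((h1.of_le (by exact_mod_cast le_top)).comp z h).contDiffAt

theorem contMDiffAt_symm {n : ℕ∞} {c : P → E} {z : P} {x : M} (h : ContDiffAt ℝ n c z)
    (hx : c z ∈ (κ x).target) : ContMDiffAt 𝓘(ℝ, P) (𝓡 2) n ((κ x).symm ∘ c) z := by
  exact ((symm_smooth hx).of_le (by exact_mod_cast le_top)).comp z h.contMDiffAt

/-- change of chart -/
theorem contDiffAt_trans {x x' : M} {a : E} (ha : a ∈ (κ x).target)
    (ha' : (κ x).symm a ∈ (κ x').source) : ContDiffAt ℝ ∞ (κ x' ∘ (κ x).symm) a := by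
  exact contDiffAt_chart (n := ⊤) (symm_smooth ha) ha'

theorem G_smooth (g : Met M) (x : M) : ContDiffOn ℝ ∞ (G g x) (κ x).target := by
  refine contDiffOn_clm_apply.2 fun u => contDiffOn_clm_apply.2 fun w a ha => ?_
  have h : ContMDiffAt 𝓘(ℝ, E) ((𝓡 2).prod 𝓘(ℝ)) ∞
      (fun b => TotalSpace.mk' ℝ (E := Bundle.Trivial M ℝ) ((κ x).symm b)
        (g.inner ((κ x).symm b) (mfderiv 𝓘(ℝ, E) (𝓡 2) (κ x).symm b u)
          (mfderiv 𝓘(ℝ, E) (𝓡 2) (κ x).symm b w))) a := by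
    apply ContMDiffAt.clm_bundle_apply₂ (F₁ := E) (F₂ := E)
    · exact g.contMDiff.contMDiffAt.comp a (symm_smooth ha)
    · exact field_smooth ha u
    · exact field_smooth ha w
  simp only [contMDiffAt_totalSpace] at h
  exact h.2.contDiffAt.contDiffWithinAt

theorem G_symm (g : Met M) (x : M) (a u w : E) : G g x a u w = G g x a w u := by
  exact g.symm _ _ _

theorem G_pos (g : Met M) (x : M) {a : E} (ha : a ∈ (κ x).target) {u : E} (hu : u ≠ 0) :
    0 < G g x a u u := by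
  refine g.pos _ _ fun h0 => hu ?_
  have hs : MDifferentiableAt 𝓘(ℝ, E) (𝓡 2) (κ x).symm a :=
    (symm_smooth ha).mdifferentiableAt (by simp)
  have hk : MDifferentiableAt (𝓡 2) 𝓘(ℝ, E) (κ x) ((κ x).symm a) :=
    mdifferentiableAt_extChartAt (by simpa using (κ x).map_target ha)
  have h2 := mfderiv_comp a hk hs
  have h3 : κ x ∘ (κ x).symm =ᶠ[𝓝 a] id := by
    filter_upwards [(target_open x).mem_nhds ha] with b hb using (κ x).right_inv hb
  rw [h3.mfderiv_eq, mfderiv_id] at h2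
  have h4 : u = mfderiv (𝓡 2) 𝓘(ℝ, E) (κ x) ((κ x).symm a)
      (mfderiv 𝓘(ℝ, E) (𝓡 2) (κ x).symm a u) := congrArg (fun L => L u) h2
  have h5 : mfderiv 𝓘(ℝ, E) (𝓡 2) (κ x).symm a u = 0 := h0
  rw [h5, map_zero] at h4
  exact h4

/-- uniform positivity on compact sets -/
theorem G_coercive (g : Met M) (x : M) {K : Set E} (hK : IsCompact K) (hKt : K ⊆ (κ x).target) :
    ∃ l > 0, ∀ a ∈ K, ∀ u : E, l * ‖u‖ ^ 2 ≤ G g x a u u := by
  have hc : ContinuousOn (fun z : E × E => G g x z.1 z.2 z.2) (K ×ˢ Metric.sphere 0 1) := by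
    have h1 : ContinuousOn (fun z : E × E => G g x z.1) (K ×ˢ Metric.sphere 0 1) :=
      (G_smooth g x).continuousOn.comp continuousOn_fst fun z hz => hKt hz.1
    exact (h1.clm_apply continuousOn_snd).clm_apply continuousOn_snd
  obtain ⟨l, hl, h⟩ := (hK.prod (isCompact_sphere (0 : E) 1)).exists_forall_le' hc (a := 0)
    fun z hz => G_pos g x (hKt hz.1) (by
      rintro h0
      have := hz.2
      rw [h0] at this
      simp at this)
  refine ⟨l, hl, fun a ha u => ?_⟩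
  by_cases hu : u = 0
  · simp [hu]
  have h0 : 0 < ‖u‖ := norm_pos_iff.2 hu
  have h1 := h (a, ‖u‖⁻¹ • u) ⟨ha, by simp [norm_smul, h0.ne']⟩
  simp only [map_smul, smul_apply, smul_eq_mul] at h1
  have h2 : G g x a u u = ‖u‖ ^ 2 * (‖u‖⁻¹ * (‖u‖⁻¹ * G g x a u u)) := by field_simp
  rw [h2, mul_comm l]
  exact mul_le_mul_of_nonneg_left h1 (by positivity)

/-- the metric of two tangent vectors of a map, in a chart -/
theorem inner_eq (g : Met M) {Γ : P → M} {z : P} {x : M}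
    (h : MDifferentiableAt 𝓘(ℝ, P) (𝓡 2) Γ z) (hx : Γ z ∈ (κ x).source) (ξ ξ' : P) :
    g.inner (Γ z) (mfderiv 𝓘(ℝ, P) (𝓡 2) Γ z ξ) (mfderiv 𝓘(ℝ, P) (𝓡 2) Γ z ξ') =
      G g x (κ x (Γ z)) (fderiv ℝ (κ x ∘ Γ) z ξ) (fderiv ℝ (κ x ∘ Γ) z ξ') := by
  have hk : MDifferentiableAt (𝓡 2) 𝓘(ℝ, E) (κ x) (Γ z) :=
    mdifferentiableAt_extChartAt (by rwa [extChartAt_source] at hx)
  have hs : MDifferentiableAt 𝓘(ℝ, E) (𝓡 2) (κ x).symm ((κ x ∘ Γ) z) :=
    (symm_smooth ((κ x).map_source hx)).mdifferentiableAt (by simp)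
  have h2 := mfderiv_comp z hs (hk.comp z h)
  have h3 : (κ x).symm ∘ (κ x ∘ Γ) =ᶠ[𝓝 z] Γ := by
    filter_upwards [h.continuousAt.preimage_mem_nhds ((source_open x).mem_nhds hx)] with b hb
      using (κ x).left_inv hb
  rw [h3.mfderiv_eq, mfderiv_eq_fderiv] at h2
  rw [h2]
  exact inner_congr g ((κ x).left_inv hx).symm _ _

theorem G_trans (g : Met M) {x x' : M} {a : E} (ha : a ∈ (κ x).target)
    (ha' : (κ x).symm a ∈ (κ x').source) (u w : E) :
    G g x a u w = G g x' (κ x' ((κ x).symm a)) (fderiv ℝ (κ x' ∘ (κ x).symm) a u)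
      (fderiv ℝ (κ x' ∘ (κ x).symm) a w) := by
  exact inner_eq g ((symm_smooth ha).mdifferentiableAt (by simp)) ha' u w

theorem ChartX.G_diff (g : Met M) (x : M) {a : E} (ha : a ∈ (κ x).target) :
    ContDiffAt ℝ ∞ (G g x) a := (G_smooth g x).contDiffAt ((target_open x).mem_nhds ha)

theorem ChartX.G_inj (g : Met M) (x : M) {a : E} (ha : a ∈ (κ x).target) {u u' : E}
    (h : ∀ w, G g x a u w = G g x a u' w) : u = u' := by
  by_contra hne
  have h1 := G_pos g x ha (sub_ne_zero.2 hne)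
  rw [map_sub (G g x a), sub_apply, h, sub_self] at h1
  exact lt_irrefl _ h1

theorem ChartX.G_equiv (g : Met M) (x : M) {a : E} (ha : a ∈ (κ x).target) :
    ∃ e : E ≃L[ℝ] (E →L[ℝ] ℝ), (e : E →L[ℝ] E →L[ℝ] ℝ) = G g x a := by
  have hi : Function.Injective (G g x a : E →ₗ[ℝ] E →L[ℝ] ℝ) := fun u u' h =>
    G_inj g x ha fun w => congrArg (fun L : E →L[ℝ] ℝ => L w) h
  have hd : Module.finrank ℝ E = Module.finrank ℝ (E →L[ℝ] ℝ) := by
    rw [← (LinearMap.toContinuousLinearMap (𝕜 := ℝ) (E := E) (F' := ℝ)).finrank_eq]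
    exact Subspace.dual_finrank_eq.symm
  refine ⟨(LinearMap.linearEquivOfInjective _ hi hd).toContinuousLinearEquiv, ?_⟩
  ext1 u
  rfl

theorem exists_acc (g : Met M) (x : M) : ∃ acc : E × E → E,
    ContDiffOn ℝ ∞ acc ((κ x).target ×ˢ univ) ∧ ∀ a ∈ (κ x).target, ∀ V w : E,
      G g x a (acc (a, V)) w = 1 / 2 * fderiv ℝ (G g x) a w V V - fderiv ℝ (G g x) a V V w := by
  refine ⟨fun z => (G g x z.1).inverse ((1 / 2 : ℝ) • ((fderiv ℝ (G g x) z.1).flip z.2).flip z.2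
    - fderiv ℝ (G g x) z.1 z.2 z.2), ?_, fun a ha V w => ?_⟩
  · have hD : ContDiffOn ℝ ∞ (fun z : E × E => fderiv ℝ (G g x) z.1) ((κ x).target ×ˢ univ) :=
      fun z hz => (((G_diff g x hz.1).fderiv_right (m := ∞) (by exact_mod_cast le_top)).comp z
        contDiffAt_fst).contDiffWithinAt
    refine ContDiffOn.clm_apply (fun z hz => ?_) (contDiffOn_clm_apply.2 fun w => ?_)
    · obtain ⟨e, he⟩ := G_equiv g x hz.1
      have h1 : ContDiffAt ℝ ∞ ContinuousLinearMap.inverse (G g x z.1) :=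
        he ▸ contDiffAt_map_inverse e
      exact ((h1.comp z.1 (G_diff g x hz.1)).comp z contDiffAt_fst).contDiffWithinAt
    · simp only [sub_apply, smul_apply,
        ContinuousLinearMap.flip_apply]
      exact (((hD.clm_apply contDiffOn_const).clm_apply contDiffOn_snd).clm_apply
        contDiffOn_snd).const_smul _ |>.sub
        (((hD.clm_apply contDiffOn_snd).clm_apply contDiffOn_snd).clm_apply contDiffOn_const)
  · obtain ⟨e, he⟩ := G_equiv g x ha
    simp only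
    conv_lhs => rw [← he]
    simp

/-- the acceleration of geodesics in the chart at `x` -/
noncomputable def acc (g : Met M) (x : M) : E × E → E := (exists_acc g x).choose

theorem acc_smooth (g : Met M) (x : M) : ContDiffOn ℝ ∞ (acc g x) ((κ x).target ×ˢ univ) :=
  (exists_acc g x).choose_spec.1

theorem acc_spec (g : Met M) (x : M) {a : E} (ha : a ∈ (κ x).target) (V w : E) :
    G g x a (acc g x (a, V)) w = 1 / 2 * fderiv ℝ (G g x) a w V V - fderiv ℝ (G g x) a V V w :=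
  (exists_acc g x).choose_spec.2 a ha V w

theorem acc_smul (g : Met M) (x : M) {a : E} (ha : a ∈ (κ x).target) (l : ℝ) (V : E) :
    acc g x (a, l • V) = l ^ 2 • acc g x (a, V) := by
  refine G_inj g x ha fun w => ?_
  simp only [map_smul, smul_apply, acc_spec g x ha, smul_eq_mul]
  ring

/-- velocity in the chart at `x` -/
noncomputable def vel (x : M) (γ : ℝ → M) (t : ℝ) : E := deriv (κ x ∘ γ) t

/-- geodesic at the time `t` -/
def GeoAt (g : Met M) (γ : ℝ → M) (t : ℝ) : Prop :=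
  (∀ᶠ s in 𝓝 t, ContMDiffAt 𝓘(ℝ, ℝ) (𝓡 2) ∞ γ s) ∧ ∀ x : M, γ t ∈ (κ x).source →
    HasDerivAt (vel x γ) (acc g x (κ x (γ t), vel x γ t)) t

theorem isGeodesic_iff (g : Met M) (γ : ℝ → M) : IsGeodesic g γ ↔ ∀ t, GeoAt g γ t := by
  have key : ∀ (x : M) (t : ℝ), ContMDiffAt 𝓘(ℝ, ℝ) (𝓡 2) ∞ γ t → γ t ∈ (κ x).source → ∀ w : E,
      HasDerivAt (vel x γ) (deriv (vel x γ) t) t ∧
      HasDerivAt (fun s => G g x (κ x (γ s)) (vel x γ s) w)
        (fderiv ℝ (G g x) (κ x (γ t)) (vel x γ t) (vel x γ t) w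
          + G g x (κ x (γ t)) (deriv (vel x γ) t) w) t ∧
      fderiv ℝ (fun a => G g x a (vel x γ t) (vel x γ t)) (κ x (γ t)) w
        = fderiv ℝ (G g x) (κ x (γ t)) w (vel x γ t) (vel x γ t) := by
    intro x t h hx w
    have h1 := contDiffAt_chart (n := ⊤) h hx
    have h2 := (G_diff g x ((κ x).map_source hx)).differentiableAt (by simp)
    have h3 := hasDerivAt_deriv h1
    refine ⟨h3, ?_, fderiv_bil h2 _ _ _⟩
    have h4 := hasDerivAt_bil (c := κ x ∘ γ) h2 (h1.differentiableAt (by simp)).hasDerivAt h3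
      (hasDerivAt_const t w)
    rw [map_zero, add_zero] at h4
    exact h4
  constructor
  · rintro ⟨h1, h2⟩ t
    refine ⟨Eventually.of_forall h1, fun x hx => ?_⟩
    have e : deriv (vel x γ) t = acc g x (κ x (γ t), vel x γ t) := by
      refine G_inj g x ((κ x).map_source hx) fun w => ?_
      obtain ⟨-, k2, k3⟩ := key x t (h1 t) hx w
      have h3 := k2.unique (h2 x t hx w)
      rw [acc_spec g x ((κ x).map_source hx), ← k3]
      exact eq_sub_of_add_eq' h3
    exact e ▸ (key x t (h1 t) hx 0).1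
  · intro h
    refine ⟨fun t => (h t).1.self_of_nhds, fun x t hx w => ?_⟩
    obtain ⟨-, k2, k3⟩ := key x t (h t).1.self_of_nhds hx w
    rw [((h t).2 x hx).deriv, acc_spec g x ((κ x).map_source hx), add_sub_cancel, ← k3] at k2
    exact k2

theorem GeoAt.congr {g : Met M} {γ γ' : ℝ → M} {t : ℝ} (h : GeoAt g γ t) (he : γ' =ᶠ[𝓝 t] γ) :
    GeoAt g γ' t := by
  refine ⟨?_, fun x hx => ?_⟩
  · filter_upwards [h.1, he.eventuallyEq_nhds] with s h1 h2 using h1.congr_of_eventuallyEq h2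
  · have h1 : vel x γ' =ᶠ[𝓝 t] vel x γ := (he.fun_comp (κ x)).deriv
    rw [he.self_of_nhds] at hx ⊢
    rw [h1.self_of_nhds]
    exact (h.2 x hx).congr_of_eventuallyEq h1

theorem GeoAt.hasDerivAt {g : Met M} {γ : ℝ → M} {t : ℝ} (h : GeoAt g γ t) {x : M}
    (hx : γ t ∈ (κ x).source) : HasDerivAt (fun s => κ x (γ s)) (vel x γ t) t := by
  exact ((contDiffAt_chart (n := ⊤) h.1.self_of_nhds hx).differentiableAt (by simp)).hasDerivAt

/-- transformation rule of the acceleration -/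
theorem ChartX.acc_trans (g : Met M) {x x' : M} {a : E} (ha : a ∈ (κ x).target)
    (ha' : (κ x).symm a ∈ (κ x').source) (V : E) :
    acc g x' ((κ x' ∘ (κ x).symm) a, fderiv ℝ (κ x' ∘ (κ x).symm) a V) =
      fderiv ℝ (fderiv ℝ (κ x' ∘ (κ x).symm)) a V V
        + fderiv ℝ (κ x' ∘ (κ x).symm) a (acc g x (a, V)) := by
  have hφ := contDiffAt_trans ha ha'
  have hb : (κ x' ∘ (κ x).symm) a ∈ (κ x').target := (κ x').map_source ha'
  have he : ∀ᶠ b in 𝓝 a, ∀ u w, G g x b u w = G g x' ((κ x' ∘ (κ x).symm) b)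
      (fderiv ℝ (κ x' ∘ (κ x).symm) b u) (fderiv ℝ (κ x' ∘ (κ x).symm) b w) := by
    filter_upwards [(target_open x).mem_nhds ha, (symm_smooth ha).continuousAt.preimage_mem_nhds
      ((source_open x').mem_nhds ha')] with b h1 h2 using G_trans g h1 h2
  generalize κ x' ∘ (κ x).symm = φ at hφ hb he ⊢
  have h2 : ContDiffAt ℝ 2 φ a := hφ.of_le two_le
  have hp := fderiv_pull ((G_diff g x ha).differentiableAt (by simp))
    ((G_diff g x' hb).differentiableAt (by simp)) h2 he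
  have hsym := h2.isSymmSndFDerivAt (by simp)
  have hi : Function.Injective (fderiv ℝ φ a : E →ₗ[ℝ] E) := by
    rw [injective_iff_map_eq_zero]
    intro u hu
    by_contra hne
    have h3 := G_pos g x ha hne
    have hu' : fderiv ℝ φ a u = 0 := hu
    rw [he.self_of_nhds, hu', map_zero] at h3
    exact lt_irrefl _ h3
  refine G_inj g x' hb fun w' => ?_
  obtain ⟨w, hw⟩ := LinearMap.injective_iff_surjective.1 hi w'
  have hw' : fderiv ℝ φ a w = w' := hw
  have h4 := acc_spec g x ha V w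
  rw [he.self_of_nhds, hp, hp, hsym w V, hw'] at h4
  rw [acc_spec g x' hb, map_add, add_apply, h4,
    G_symm g x' _ (fderiv ℝ (fderiv ℝ φ) a V w)]
  ring

/-- a solution in one chart is a geodesic (invariance of the equation) -/
theorem geoAt_of_chart (g : Met M) {x : M} {c : ℝ → E} {t : ℝ}
    (hc : ∀ᶠ s in 𝓝 t, ContDiffAt ℝ ∞ c s) (ht : c t ∈ (κ x).target)
    (hd : HasDerivAt (deriv c) (acc g x (c t, deriv c t)) t) : GeoAt g ((κ x).symm ∘ c) t := by
  have hc0 := hc.self_of_nhds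
  have h1 : ∀ᶠ s in 𝓝 t, c s ∈ (κ x).target :=
    hc0.continuousAt.preimage_mem_nhds ((target_open x).mem_nhds ht)
  refine ⟨?_, fun x' hx' => ?_⟩
  · filter_upwards [hc, h1] with s h2 h3 using contMDiffAt_symm (n := ⊤) h2 h3
  have h2 : ∀ᶠ s in 𝓝 t, (κ x).symm (c s) ∈ (κ x').source :=
    (contMDiffAt_symm (n := ⊤) hc0 ht).continuousAt.preimage_mem_nhds
      ((source_open x').mem_nhds hx')
  have h3 : vel x' ((κ x).symm ∘ c) =ᶠ[𝓝 t]
      fun s => fderiv ℝ (κ x' ∘ (κ x).symm) (c s) (deriv c s) := by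
    filter_upwards [hc, h1, h2] with s k1 k2 k3
    exact (((contDiffAt_trans k2 k3).differentiableAt (by simp)).hasFDerivAt.comp_hasDerivAt s
      (k1.differentiableAt (by simp)).hasDerivAt).deriv
  have h4 : DifferentiableAt ℝ (fderiv ℝ (κ x' ∘ (κ x).symm)) (c t) :=
    ((contDiffAt_trans ht hx').fderiv_right (m := 1) one_add_one_le).differentiableAt
      (by simp)
  have h5 := (h4.hasFDerivAt.comp_hasDerivAt t
    (hc0.differentiableAt (by simp)).hasDerivAt).clm_apply hd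
  rw [h3.self_of_nhds]
  refine HasDerivAt.congr_of_eventuallyEq ?_ h3
  have h6 := acc_trans g ht hx' (deriv c t)
  exact h6 ▸ h5

omit [IsManifold (𝓡 2) ∞ M] in
theorem ChartX.vel_aff (x : M) (γ : ℝ → M) (l m t : ℝ) :
    vel x (fun s => γ (l * s + m)) t = l • vel x γ (l * t + m) := by
  have h1 := deriv_comp_mul_left l (fun s => (κ x ∘ γ) (s + m)) t
  rw [deriv_comp_add_const] at h1
  exact h1

/-- affine reparametrisation -/
theorem GeoAt.affine {g : Met M} {γ : ℝ → M} {l m t : ℝ} (h : GeoAt g γ (l * t + m)) :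
    GeoAt g (fun s => γ (l * s + m)) t := by
  have ha : HasDerivAt (fun s : ℝ => l * s + m) l t := by
    simpa using ((hasDerivAt_id t).const_mul l).add_const m
  refine ⟨?_, fun x hx => ?_⟩
  · filter_upwards [ha.continuousAt.tendsto.eventually h.1] with s hs
    exact hs.comp s (f := fun s : ℝ => l * s + m) (ContDiffAt.contMDiffAt (by fun_prop))
  · have h1 := ((h.2 x hx).scomp t ha).const_smul l
    rw [vel_aff, acc_smul g x ((κ x).map_source hx), funext (vel_aff x γ l m), sq, mul_smul]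
    exact h1

theorem vel_affine {g : Met M} {γ : ℝ → M} {l m t : ℝ} (h : GeoAt g γ (l * t + m)) {x : M}
    (hx : γ (l * t + m) ∈ (κ x).source) :
    vel x (fun s => γ (l * s + m)) t = l • vel x γ (l * t + m) := by
  exact vel_aff x γ l m t

/-- velocities in two charts -/
theorem vel_trans {g : Met M} {γ : ℝ → M} {t : ℝ} (h : GeoAt g γ t) {x x' : M}
    (hx : γ t ∈ (κ x).source) (hx' : γ t ∈ (κ x').source) :
    vel x' γ t = fderiv ℝ (κ x' ∘ (κ x).symm) (κ x (γ t)) (vel x γ t) := by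
  have h1 : κ x' ∘ γ =ᶠ[𝓝 t] (κ x' ∘ (κ x).symm) ∘ fun s => κ x (γ s) := by
    filter_upwards [h.1.self_of_nhds.continuousAt.preimage_mem_nhds
      ((source_open x).mem_nhds hx)] with s hs
    simp only [Function.comp_apply, (κ x).left_inv hs]
  have h2 := (contDiffAt_trans ((κ x).map_source hx) (x' := x')
    (by rwa [(κ x).left_inv hx])).differentiableAt (by simp)
  exact ((h2.hasFDerivAt.comp_hasDerivAt t (h.hasDerivAt hx)).congr_of_eventuallyEq h1).deriv

/-- squared speed -/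
noncomputable def energy (g : Met M) (γ : ℝ → M) (t : ℝ) : ℝ :=
  g.inner (γ t) (mfderiv 𝓘(ℝ, ℝ) (𝓡 2) γ t (1 : ℝ)) (mfderiv 𝓘(ℝ, ℝ) (𝓡 2) γ t (1 : ℝ))

theorem energy_eq {g : Met M} {γ : ℝ → M} {t : ℝ} (h : GeoAt g γ t) {x : M}
    (hx : γ t ∈ (κ x).source) : energy g γ t = G g x (κ x (γ t)) (vel x γ t) (vel x γ t) := by
  exact inner_eq g (h.1.self_of_nhds.mdifferentiableAt (by simp)) hx 1 1

theorem hasDerivAt_energy {g : Met M} {γ : ℝ → M} {t : ℝ} (h : ∀ᶠ s in 𝓝 t, GeoAt g γ s) :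
    HasDerivAt (energy g γ) 0 t := by
  have h0 := h.self_of_nhds
  have hx : γ t ∈ (κ (γ t)).source := mem_extChartAt_source _
  generalize hy : γ t = y at hx
  have hx : γ t ∈ (κ y).source := hy ▸ hx
  have ha := (κ y).map_source hx
  have h1 : energy g γ =ᶠ[𝓝 t] fun s => G g y (κ y (γ s)) (vel y γ s) (vel y γ s) := by
    filter_upwards [h, h0.1.self_of_nhds.continuousAt.preimage_mem_nhds
      ((source_open y).mem_nhds hx)] with s k1 k2 using energy_eq k1 k2
  have h2 := hasDerivAt_bil (c := fun s => κ y (γ s)) ((G_diff g y ha).differentiableAt (by simp))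
    (h0.hasDerivAt hx) (h0.2 y hx) (h0.2 y hx)
  rw [G_symm g y _ (vel y γ t) (acc g y _), acc_spec g y ha] at h2
  refine (h2.congr_of_eventuallyEq h1).congr_deriv ?_
  ring

end Pool.Agent.GeoFin
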