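import Mathlib
import Pool.Agent.P.MP_365c00_gt.Flow

/-!
The compact space of unit speed geodesics.
-/

open Set Filter Topology Metric
open scoped Manifold ContDiff

namespace Pool.Agent.GeoFin

variable {M : Type*} [TopologicalSpace M] [ChartedSpace E M] [IsManifold (𝓡 2) ∞ M]

/-- unit speed geodesics, with the compact-open topology -/
abbrev UG (g : Met M) := {u : C(ℝ, M) // IsGeodesic g u ∧ UnitSpeed g u}

theorem UG.geoAt {g : Met M} (u : UG g) (t : ℝ) : GeoAt g u.1 t :=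
  (isGeodesic_iff g u.1).1 u.2.1 t

theorem UG.unit {g : Met M} (u : UG g) (t : ℝ) {x : M} (hx : u.1 t ∈ (κ x).source) :
    G g x (κ x (u.1 t)) (vel x u.1 t) (vel x u.1 t) = 1 :=
  (energy_eq (u.geoAt t) hx).symm.trans (u.2.2 t)

theorem UG.vel_ne {g : Met M} (u : UG g) (t : ℝ) {x : M} (hx : u.1 t ∈ (κ x).source) :
    vel x u.1 t ≠ 0 := fun h => by simpa [h] using u.unit t hx

theorem energy_const {g : Met M} {γ : ℝ → M} (h : IsGeodesic g γ) (s t : ℝ) :
    energy g γ s = energy g γ t := by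
  have hd : ∀ t, HasDerivAt (energy g γ) 0 t := fun t =>
    hasDerivAt_energy (Eventually.of_forall ((isGeodesic_iff g γ).1 h))
  exact is_const_of_deriv_eq_zero (fun t => (hd t).differentiableAt) (fun t => (hd t).deriv) s t

theorem IsGeodesic.affine {g : Met M} {γ : ℝ → M} (h : IsGeodesic g γ) (l m : ℝ) :
    IsGeodesic g fun s => γ (l * s + m) := by
  exact (isGeodesic_iff g _).2 fun t => ((isGeodesic_iff g γ).1 h _).affine

theorem energy_affine {g : Met M} {γ : ℝ → M} (h : IsGeodesic g γ) (l m t : ℝ) :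
    energy g (fun s => γ (l * s + m)) t = l ^ 2 * energy g γ (l * t + m) := by
  have h1 := (isGeodesic_iff g γ).1 h (l * t + m)
  have hx : γ (l * t + m) ∈ (κ (γ (l * t + m))).source := mem_extChartAt_source _
  rw [energy_eq h1.affine hx, energy_eq h1 hx, vel_affine h1 hx]
  simp only [map_smul, smul_apply, smul_eq_mul]
  ring

/-- a nonconstant geodesic is a rescaled unit speed geodesic -/
theorem exists_unit {g : Met M} {γ : ℝ → M} (h : IsGeodesic g γ) {s : ℝ} (hs : γ s ≠ γ 0) :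
    ∃ (u : UG g) (l : ℝ), 0 < l ∧ ∀ t, γ t = u.1 (l * t) := by
  have hg := (isGeodesic_iff g γ).1 h
  have hc : Continuous γ := h.1.continuous
  have hpos : 0 < energy g γ 0 := by
    by_contra hn
    have hv : ∀ (t : ℝ) (x : M), γ t ∈ (κ x).source → vel x γ t = 0 := by
      intro t x hx
      by_contra hv
      have := G_pos g x ((κ x).map_source hx) hv
      rw [← energy_eq (hg t) hx, energy_const h t 0] at this
      exact hn this
    have hl : IsLocallyConstant γ := by
      refine (IsLocallyConstant.iff_eventually_eq γ).2 fun t => ?_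
      have hO : γ ⁻¹' (κ (γ t)).source ∈ 𝓝 t :=
        hc.continuousAt.preimage_mem_nhds (extChartAt_source_mem_nhds _)
      obtain ⟨ε, hε, hb⟩ := Metric.mem_nhds_iff.1 hO
      filter_upwards [ball_mem_nhds t hε] with y hy
      refine (κ (γ t)).injOn (hb hy) (hb (mem_ball_self hε)) ?_
      exact isOpen_ball.is_const_of_deriv_eq_zero (f := fun s => κ (γ t) (γ s))
        (convex_ball t ε).isPreconnected
        (fun s hs => ((hg s).hasDerivAt (hb hs)).differentiableAt.differentiableWithinAt)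
        (fun s hs => ((hg s).hasDerivAt (hb hs)).deriv.trans (hv s _ (hb hs))) hy
        (mem_ball_self hε)
    exact hs (hl.apply_eq_of_preconnectedSpace s 0)
  have hl : 0 < √(energy g γ 0) := Real.sqrt_pos.2 hpos
  have h2 := h.affine (√(energy g γ 0))⁻¹ 0
  refine ⟨⟨⟨_, h2.1.continuous⟩, h2, fun t => ?_⟩, √(energy g γ 0), hl, fun t => ?_⟩
  · have := energy_affine h (√(energy g γ 0))⁻¹ 0 t
    rw [energy_const h (_ * t + 0) 0, inv_pow, Real.sq_sqrt hpos.le,
      inv_mul_cancel₀ hpos.ne'] at this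
    exact this
  · simp only [ContinuousMap.coe_mk]
    rw [inv_mul_cancel_left₀ hl.ne', add_zero]

theorem exists_shift {g : Met M} (t : ℝ) (u : UG g) : ∃ v : UG g, ∀ s, v.1 s = u.1 (s + t) := by
  have h2 := u.2.1.affine 1 t
  refine ⟨⟨⟨_, h2.1.continuous⟩, h2, fun s => ?_⟩, fun s => by simp⟩
  have := energy_affine u.2.1 1 t s
  rw [one_pow, one_mul (energy _ _ _)] at this
  exact this.trans (u.2.2 _)

/-- the geodesic flow -/
noncomputable def shift {g : Met M} (t : ℝ) (u : UG g) : UG g := (exists_shift t u).choose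

theorem shift_apply {g : Met M} (t : ℝ) (u : UG g) (s : ℝ) : (shift t u).1 s = u.1 (s + t) :=
  (exists_shift t u).choose_spec s

theorem vel_shift {g : Met M} (t : ℝ) (u : UG g) (x : M) (s : ℝ) :
    vel x (shift t u).1 s = vel x u.1 (s + t) := by
  have e : κ x ∘ (shift t u).1 = fun s => (κ x ∘ u.1) (s + t) :=
    funext fun s => by simp only [Function.comp_apply, shift_apply]
  unfold vel
  rw [e, deriv_comp_add_const]

theorem ev_cont (g : Met M) : Continuous fun z : UG g × ℝ => z.1.1 z.2 := by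
  exact (continuous_subtype_val.comp continuous_fst).eval continuous_snd

theorem shift_cont (g : Met M) : Continuous fun z : ℝ × UG g => shift z.1 z.2 := by
  refine continuous_induced_rng.2 (ContinuousMap.continuous_of_continuous_uncurry _ ?_)
  have e : (Function.uncurry fun (z : ℝ × UG g) (s : ℝ) =>
      (Subtype.val ∘ fun z : ℝ × UG g => shift z.1 z.2) z s)
      = fun q : (ℝ × UG g) × ℝ => q.1.2.1 (q.2 + q.1.1) :=
    funext fun q => shift_apply _ _ _
  rw [e]
  exact (ev_cont g).comp (f := fun q : (ℝ × UG g) × ℝ => (q.1.2, q.2 + q.1.1)) (by fun_prop)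

theorem UG.locinj {g : Met M} (u : UG g) : ∃ ε > 0, InjOn u.1 (Ioo (-ε) ε) := by
  have hx : u.1 0 ∈ (κ (u.1 0)).source := mem_extChartAt_source _
  set x := u.1 0 with hx0
  set V := vel x u.1 0 with hV
  have hV0 : V ≠ 0 := u.vel_ne 0 hx
  have h1 : ∀ᶠ t in 𝓝 (0 : ℝ), u.1 t ∈ (κ x).source :=
    u.1.continuous.continuousAt.preimage_mem_nhds (extChartAt_source_mem_nhds _)
  have h2 : ∀ᶠ t in 𝓝 (0 : ℝ), 0 < inner ℝ V (vel x u.1 t) := by
    have hc : ContinuousAt (fun t => inner ℝ V (vel x u.1 t)) 0 :=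
      continuousAt_const.inner ((u.geoAt 0).2 x hx).continuousAt
    exact hc.eventually (lt_mem_nhds (real_inner_self_pos.2 hV0))
  obtain ⟨ε, hε, hb⟩ := Metric.eventually_nhds_iff_ball.1 (h1.and h2)
  rw [Real.ball_eq_Ioo, zero_sub, zero_add] at hb
  have hd : ∀ t ∈ Ioo (-ε) ε, HasDerivAt (fun s => inner ℝ V (κ x (u.1 s)))
      (inner ℝ V (vel x u.1 t)) t := fun t ht =>
    (innerSL ℝ V).hasFDerivAt.comp_hasDerivAt t ((u.geoAt t).hasDerivAt (hb t ht).1)
  have hm : StrictMonoOn (fun s => inner ℝ V (κ x (u.1 s))) (Ioo (-ε) ε) :=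
    strictMonoOn_of_deriv_pos (convex_Ioo _ _)
      (fun t ht => (hd t ht).continuousAt.continuousWithinAt) fun t ht => by
        rw [interior_Ioo] at ht
        rw [(hd t ht).deriv]
        exact (hb t ht).2
  exact ⟨ε, hε, fun s hs t ht e => hm.injOn hs ht (by simp only [e])⟩

variable [T2Space M]

theorem UG.dir {g : Met M} (u u' : UG g) (T ε : ℝ) (hε : 0 < ε)
    (h : u.1 '' Icc 0 ε ⊆ u'.1 '' Icc 0 T) :
    ∃ r ∈ Icc 0 T, (∀ s, u.1 s = u'.1 (r + s)) ∨ ∀ s, u.1 s = u'.1 (r - s) := by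
  have hex : ∀ t : ℝ, ∃ r, t ∈ Icc 0 ε → r ∈ Icc 0 T ∧ u'.1 r = u.1 t := by
    intro t
    by_cases ht : t ∈ Icc 0 ε
    · obtain ⟨r, hr, e⟩ := h ⟨t, ht, rfl⟩
      exact ⟨r, fun _ => ⟨hr, e⟩⟩
    · exact ⟨0, fun h => absurd h ht⟩
  choose ρ hρ using hex
  obtain ⟨F, hF⟩ := Ultrafilter.exists_le (𝓝[>] (0 : ℝ))
  have hF0 : (F : Filter ℝ) ≤ 𝓝 0 := hF.trans nhdsWithin_le_nhds
  have hI : ∀ᶠ t in (F : Filter ℝ), t ∈ Ioc 0 ε := hF (Ioc_mem_nhdsGT hε)
  obtain ⟨r, hr, hlim⟩ := isCompact_Icc.ultrafilter_le_nhds (F.map ρ)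
    (le_principal_iff.2 (hI.mono fun t ht => (hρ t (Ioc_subset_Icc_self ht)).1))
  have hlim' : Tendsto ρ F (𝓝 r) := hlim
  have h0 : u.1 0 = u'.1 r := by
    refine tendsto_nhds_unique_of_eventuallyEq (l := (F : Filter ℝ))
      ((u.1.continuous.tendsto 0).mono_left hF0) ((u'.1.continuous.tendsto r).comp hlim') ?_
    exact hI.mono fun t ht => (hρ t (Ioc_subset_Icc_self ht)).2.symm
  obtain ⟨x, hx⟩ : ∃ x : M, u.1 0 ∈ (κ x).source := ⟨_, mem_extChartAt_source _⟩
  have hx' : u'.1 r ∈ (κ x).source := h0 ▸ hx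
  set V := vel x u.1 0 with hV
  set V' := vel x u'.1 r with hV'
  have hV0 : V' ≠ 0 := u'.vel_ne r hx'
  have hd := (u.geoAt 0).hasDerivAt hx
  have hd' := (u'.geoAt r).hasDerivAt hx'
  have hQ : Tendsto (dslope (fun s => κ x (u.1 s)) 0) F (𝓝 V) := by
    have := (continuousAt_dslope_same.2 hd.differentiableAt).tendsto
    rw [dslope_same, hd.deriv] at this
    exact this.mono_left hF0
  have hQ' : Tendsto (fun t => dslope (fun s => κ x (u'.1 s)) r (ρ t)) F (𝓝 V') := by
    have := (continuousAt_dslope_same.2 hd'.differentiableAt).tendsto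
    rw [dslope_same, hd'.deriv] at this
    exact this.comp hlim'
  have hrel : ∀ᶠ t in (F : Filter ℝ), dslope (fun s => κ x (u.1 s)) 0 t
      = ((ρ t - r) / t) • dslope (fun s => κ x (u'.1 s)) r (ρ t) := by
    refine hI.mono fun t ht => ?_
    have e1 := sub_smul_dslope (fun s => κ x (u.1 s)) 0 t
    have e2 := sub_smul_dslope (fun s => κ x (u'.1 s)) r (ρ t)
    simp only [(hρ t (Ioc_subset_Icc_self ht)).2, ← h0] at e2
    rw [sub_zero] at e1
    rw [div_eq_inv_mul, mul_smul, e2, ← e1, inv_smul_smul₀ ht.1.ne']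
  have hVV : inner ℝ V' V' ≠ 0 := (real_inner_self_pos.2 hV0).ne'
  have hi : Tendsto (fun t => inner ℝ V' (dslope (fun s => κ x (u.1 s)) 0 t)) F
      (𝓝 (inner ℝ V' V)) := tendsto_const_nhds.inner hQ
  have hi' : Tendsto (fun t => inner ℝ V' (dslope (fun s => κ x (u'.1 s)) r (ρ t))) F
      (𝓝 (inner ℝ V' V')) := tendsto_const_nhds.inner hQ'
  set l : ℝ := inner ℝ V' V / inner ℝ V' V' with hl
  have hlam : Tendsto (fun t => (ρ t - r) / t) F (𝓝 l) := by
    refine (hi.div hi' hVV).congr' ?_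
    filter_upwards [hrel, hi'.eventually_ne hVV] with t h1 h2
    simp only [Pi.div_apply]
    rw [h1, real_inner_smul_right, mul_div_cancel_right₀ _ h2]
  have hVl : V = l • V' := tendsto_nhds_unique_of_eventuallyEq hQ (hlam.smul hQ') hrel
  have hsq : l * l = 1 := by
    have h1 := u.unit 0 hx
    have h2 := u'.unit r hx'
    rw [← hV, hVl, h0] at h1
    simp only [map_smul, smul_apply, smul_eq_mul] at h1
    rw [← hV'] at h2
    rw [h2] at h1
    linarith
  have hxl : u'.1 (l * 0 + r) ∈ (κ x).source := by rwa [mul_zero, zero_add]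
  have key := geo_unique u.2.1 (u'.2.1.affine l r) (t0 := 0) hx (by simpa using h0)
    (by rw [vel_affine (u'.geoAt _) hxl, mul_zero, zero_add]; exact hVl)
  refine ⟨r, hr, ?_⟩
  rcases mul_self_eq_one_iff.1 hsq with h1 | h1
  · exact Or.inl fun s => by rw [congrFun key s, h1, one_mul, add_comm]
  · exact Or.inr fun s => by rw [congrFun key s, h1, neg_one_mul, neg_add_eq_sub]

variable [CompactSpace M] [Nonempty M]

omit [Nonempty M] in
theorem SpaceX.exists_mk' (g : Met M) (x : M) {y : E × E} (hy : y.1 ∈ (κ x).target)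
    (hV : y.2 ≠ 0) :
    ∃ u : UG g, (u.1 : ℝ → M) = geo g x (y.1, (√(G g x y.1 y.2 y.2))⁻¹ • y.2) := by
  obtain ⟨h1, h2, h3⟩ := geo_spec g x (y := (y.1, (√(G g x y.1 y.2 y.2))⁻¹ • y.2)) hy
  refine ⟨⟨⟨_, h1.1.continuous⟩, h1, fun t => ?_⟩, rfl⟩
  have hpos := G_pos g x hy hV
  have hx : geo g x (y.1, (√(G g x y.1 y.2 y.2))⁻¹ • y.2) 0 ∈ (κ x).source := by
    rw [h2]; exact (κ x).map_target hy
  have h4 := energy_eq ((isGeodesic_iff g _).1 h1 0) hx
  rw [h3, h2, (κ x).right_inv hy] at h4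
  simp only [map_smul, smul_apply, smul_eq_mul] at h4
  rw [← mul_assoc, ← mul_inv, Real.mul_self_sqrt hpos.le, inv_mul_cancel₀ hpos.ne'] at h4
  exact (energy_const h1 t 0).trans h4

theorem exists_mk (g : Met M) (x : M) (y : E × E) : ∃ u : UG g, y.1 ∈ (κ x).target → y.2 ≠ 0 →
    (u.1 : ℝ → M) = geo g x (y.1, (√(G g x y.1 y.2 y.2))⁻¹ • y.2) := by
  by_cases h : y.1 ∈ (κ x).target ∧ y.2 ≠ 0
  · obtain ⟨u, hu⟩ := SpaceX.exists_mk' g x h.1 h.2
    exact ⟨u, fun _ _ => hu⟩
  · obtain ⟨V, hV⟩ := exists_ne (0 : E)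
    obtain ⟨u, -⟩ := SpaceX.exists_mk' g x (y := (κ x x, V)) (mem_extChartAt_target x) hV
    exact ⟨u, fun h1 h2 => absurd ⟨h1, h2⟩ h⟩

/-- the unit speed geodesic with initial point `y.1` and initial direction `y.2` in the chart at
`x` -/
noncomputable def mk (g : Met M) (x : M) (y : E × E) : UG g := (exists_mk g x y).choose

theorem mk_eq (g : Met M) (x : M) {y : E × E} (hy : y.1 ∈ (κ x).target) (hV : y.2 ≠ 0) :
    ((mk g x y).1 : ℝ → M) = geo g x (y.1, (√(G g x y.1 y.2 y.2))⁻¹ • y.2) :=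
  (exists_mk g x y).choose_spec hy hV

theorem mk_zero (g : Met M) (x : M) {y : E × E} (hy : y.1 ∈ (κ x).target) (hV : y.2 ≠ 0) :
    (mk g x y).1 0 = (κ x).symm y.1 := by
  rw [mk_eq g x hy hV]; exact (geo_spec g x (y := (y.1, (√(G g x y.1 y.2 y.2))⁻¹ • y.2)) hy).2.1

theorem vel_mk (g : Met M) (x : M) {y : E × E} (hy : y.1 ∈ (κ x).target) (hV : y.2 ≠ 0) :
    vel x (mk g x y).1 0 = (√(G g x y.1 y.2 y.2))⁻¹ • y.2 := by
  rw [mk_eq g x hy hV]; exact (geo_spec g x (y := (y.1, (√(G g x y.1 y.2 y.2))⁻¹ • y.2)) hy).2.2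

theorem mk_jet {g : Met M} (u : UG g) {x : M} (hx : u.1 0 ∈ (κ x).source) {l : ℝ} (hl : 0 < l) :
    mk g x (κ x (u.1 0), l • vel x u.1 0) = u := by
  have hy : κ x (u.1 0) ∈ (κ x).target := (κ x).map_source hx
  have hV : l • vel x u.1 0 ≠ 0 := smul_ne_zero hl.ne' (u.vel_ne 0 hx)
  have h0 : (mk g x (κ x (u.1 0), l • vel x u.1 0)).1 0 = u.1 0 := by
    rw [mk_zero g x hy hV]; exact (κ x).left_inv hx
  refine Subtype.ext (DFunLike.coe_injective ?_)
  refine geo_unique (mk g x _).2.1 u.2.1 (t0 := 0) (x := x) (by rw [h0]; exact hx) h0 ?_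
  rw [vel_mk g x hy hV]
  simp only [map_smul, smul_apply, smul_eq_mul]
  rw [u.unit 0 hx, mul_one, Real.sqrt_mul_self hl.le, inv_smul_smul₀ hl.ne']

theorem mk_smooth (g : Met M) (x : M) {y : E × E} (hy : y.1 ∈ (κ x).target) (hV : y.2 ≠ 0)
    (t : ℝ) :
    ContMDiffAt 𝓘(ℝ, (E × E) × ℝ) (𝓡 2) ∞ (fun z : (E × E) × ℝ => (mk g x z.1).1 z.2) (y, t) := by
  have hO : ∀ᶠ z : (E × E) × ℝ in 𝓝 (y, t), z.1.1 ∈ (κ x).target ∧ z.1.2 ≠ 0 := by
    refine Eventually.and ?_ ?_
    · exact (continuous_fst.fst).continuousAt.preimage_mem_nhds ((target_open x).mem_nhds hy)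
    · exact (continuous_fst.snd).continuousAt.eventually_ne hV
  have hG : ContDiffAt ℝ ∞ (fun z : (E × E) × ℝ => G g x z.1.1 z.1.2 z.1.2) (y, t) := by
    have h1 : ContDiffAt ℝ ∞ (fun z : (E × E) × ℝ => G g x z.1.1) (y, t) :=
      ((G_smooth g x).contDiffAt ((target_open x).mem_nhds hy)).comp (y, t) contDiffAt_fst.fst
    exact (h1.clm_apply contDiffAt_fst.snd).clm_apply contDiffAt_fst.snd
  have hpos := G_pos g x hy hV
  have hN : ContDiffAt ℝ ∞ (fun z : (E × E) × ℝ =>
      ((z.1.1, (√(G g x z.1.1 z.1.2 z.1.2))⁻¹ • z.1.2), z.2)) (y, t) :=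
    (contDiffAt_fst.fst.prodMk (((hG.sqrt hpos.ne').inv (Real.sqrt_pos.2 hpos).ne').smul
      contDiffAt_fst.snd)).prodMk contDiffAt_snd
  have h := (geo_smooth g x (y := (y.1, (√(G g x y.1 y.2 y.2))⁻¹ • y.2)) hy t).comp (y, t)
    hN.contMDiffAt
  refine h.congr_of_eventuallyEq (hO.mono fun z hz => ?_)
  simp only [Function.comp_apply]
  rw [mk_eq g x hz.1 hz.2]

theorem mk_cont (g : Met M) (x : M) : ContinuousOn (mk g x) ((κ x).target ×ˢ {0}ᶜ) := by
  rw [continuousOn_iff_continuous_domRestrict]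
  refine continuous_induced_rng.2 (ContinuousMap.continuous_of_continuous_uncurry _ ?_)
  refine continuous_iff_continuousAt.2 fun q => ?_
  exact ContinuousAt.comp (f := fun q : ((κ x).target ×ˢ ({0}ᶜ : Set E) : Set (E × E)) × ℝ =>
    ((q.1 : E × E), q.2)) (mk_smooth g x q.1.2.1 q.1.2.2 q.2).continuousAt (by fun_prop)

omit [T2Space M] [CompactSpace M] [Nonempty M] in
theorem SpaceX.compact_sphere (g : Met M) (x : M) {K : Set E} (hK : IsCompact K)
    (hKt : K ⊆ (κ x).target) : IsCompact {y : E × E | y.1 ∈ K ∧ G g x y.1 y.2 y.2 = 1} := by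
  obtain ⟨l, hl, h⟩ := G_coercive g x hK hKt
  have hc : ContinuousOn (fun y : E × E => G g x y.1 y.2 y.2) (K ×ˢ univ) := by
    have h1 : ContinuousOn (fun y : E × E => G g x y.1) (K ×ˢ univ) :=
      (G_smooth g x).continuousOn.comp continuousOn_fst fun y hy => hKt hy.1
    exact (h1.clm_apply continuousOn_snd).clm_apply continuousOn_snd
  have hcl := hc.preimage_isClosed_of_isClosed (hK.isClosed.prod isClosed_univ)
    (isClosed_singleton (x := (1 : ℝ)))
  refine (hK.prod (isCompact_closedBall (0 : E) (l⁻¹ + 1))).of_isClosed_subset ?_ ?_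
  · convert hcl using 1
    ext y
    simp
  · intro y hy
    refine ⟨hy.1, mem_closedBall_zero_iff.2 ?_⟩
    have h1 := h y.1 hy.1 y.2
    rw [hy.2] at h1
    have h2 : ‖y.2‖ ^ 2 ≤ l⁻¹ := by
      rw [← one_div, le_div_iff₀ hl]; linarith
    nlinarith [sq_nonneg (‖y.2‖ - 1), inv_pos.2 hl]

theorem SpaceX.vel_cont_zero (g : Met M) (x : M) {u : UG g} (hu : u.1 0 ∈ (κ x).source) :
    ContinuousAt (fun v : UG g => vel x v.1 0) u := by
  obtain ⟨r, hr, hsub⟩ := nhds_basis_closedBall.mem_iff.1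
    ((target_open x).mem_nhds ((κ x).map_source hu))
  have hev : Continuous fun v : UG g => v.1 0 :=
    (ev_cont g).comp (continuous_id.prodMk continuous_const)
  have h1 : ∀ᶠ v : UG g in 𝓝 u, v.1 0 ∈ (κ x).source :=
    hev.continuousAt.preimage_mem_nhds ((source_open x).mem_nhds hu)
  have h2 : ∀ᶠ v : UG g in 𝓝 u, κ x (v.1 0) ∈ closedBall (κ x (u.1 0)) r :=
    (ContinuousAt.comp (f := fun v : UG g => v.1 0) (continuousAt_extChartAt' hu)
      hev.continuousAt).preimage_mem_nhds (closedBall_mem_nhds _ hr)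
  have key : Tendsto (fun v : UG g => (κ x (v.1 0), vel x v.1 0)) (𝓝 u)
      (𝓝 (κ x (u.1 0), vel x u.1 0)) := by
    refine (SpaceX.compact_sphere g x (isCompact_closedBall _ r)
      hsub).tendsto_nhds_of_unique_mapClusterPt ?_ fun y hy hcl => ?_
    · filter_upwards [h1, h2] with v hv1 hv2
      exact ⟨hv2, v.unit 0 hv1⟩
    · have hyt : y.1 ∈ (κ x).target := hsub hy.1
      have hy0 : y.2 ≠ 0 := fun h0 => by
        have h3 := hy.2
        rw [h0] at h3
        simp at h3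
      have hc : ContinuousAt (mk g x) y := (mk_cont g x).continuousAt
        (((target_open x).prod isOpen_compl_singleton).mem_nhds ⟨hyt, hy0⟩)
      have h3 := hcl.continuousAt_comp hc
      have h4 : (mk g x ∘ fun v : UG g => (κ x (v.1 0), vel x v.1 0)) =ᶠ[𝓝 u] id :=
        h1.mono fun v hv => by simpa using mk_jet v hv one_pos
      have h5 : mk g x y = u := by
        have h6 : ClusterPt (mk g x y) (𝓝 u) := by
          have h7 : ClusterPt (mk g x y) (map _ (𝓝 u)) := h3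
          rwa [map_congr h4, map_id] at h7
        exact eq_of_nhds_neBot h6
      rw [← h5, mk_zero g x hyt hy0, vel_mk g x hyt hy0, (κ x).right_inv hyt, hy.2]
      simp
  exact key.snd_nhds

/-- the velocity depends continuously on the geodesic and the time -/
theorem vel_cont (g : Met M) (x : M) :
    ContinuousOn (fun z : UG g × ℝ => vel x z.1.1 z.2) {z | z.1.1 z.2 ∈ (κ x).source} := by
  intro z hz
  have e : (fun z : UG g × ℝ => vel x z.1.1 z.2) = fun z => vel x (shift z.2 z.1).1 0 :=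
    funext fun z => by rw [vel_shift, zero_add]
  rw [e]
  refine ContinuousAt.continuousWithinAt ?_
  refine ContinuousAt.comp (f := fun z : UG g × ℝ => shift z.2 z.1)
    (SpaceX.vel_cont_zero g x (by rwa [shift_apply, zero_add])) ?_
  exact ((shift_cont g).comp continuous_swap).continuousAt

instance (g : Met M) : CompactSpace (UG g) := by
  have hex : ∀ p : M, ∃ r > 0, closedBall (κ p p) r ⊆ (κ p).target := fun p =>
    nhds_basis_closedBall.mem_iff.1 ((target_open p).mem_nhds (mem_extChartAt_target p))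
  choose r hr hsub using hex
  obtain ⟨t, -, ht⟩ := isCompact_univ.elim_nhds_subcover
    (fun p : M => (κ p).source ∩ κ p ⁻¹' closedBall (κ p p) (r p)) fun p _ =>
      inter_mem (extChartAt_source_mem_nhds p)
        ((continuousAt_extChartAt p).preimage_mem_nhds (closedBall_mem_nhds _ (hr p)))
  refine ⟨IsCompact.of_isClosed_subset (t.isCompact_biUnion (f := fun p => mk g p ''
    {y : E × E | y.1 ∈ closedBall (κ p p) (r p) ∧ G g p y.1 y.2 y.2 = 1}) fun p _ => ?_)
    isClosed_univ fun u _ => ?_⟩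
  · refine (SpaceX.compact_sphere g p (isCompact_closedBall _ _) (hsub p)).image_of_continuousOn
      ((mk_cont g p).mono fun y hy => ⟨hsub p hy.1, fun h0 => ?_⟩)
    have h1 := hy.2
    rw [mem_singleton_iff.1 h0] at h1
    simp at h1
  · obtain ⟨p, hp, h⟩ := mem_iUnion₂.1 (ht (mem_univ (u.1 0)))
    refine mem_iUnion₂.2 ⟨p, hp, (κ p (u.1 0), vel p u.1 0), ⟨h.2, u.unit 0 h.1⟩, ?_⟩
    simpa using mk_jet u h.1 one_pos

theorem fib_ne (g : Met M) (p : M) : ∃ u : UG g, u.1 0 = p := by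
  obtain ⟨V, hV⟩ := exists_ne (0 : E)
  refine ⟨mk g p (κ p p, V), ?_⟩
  rw [mk_zero g p (mem_extChartAt_target p) hV]
  exact extChartAt_to_inv p

theorem fib_conn (g : Met M) (p : M) : IsPreconnected {u : UG g | u.1 0 = p} := by
  have e : {u : UG g | u.1 0 = p} = (fun V : E => mk g p (κ p p, V)) '' {0}ᶜ := by
    ext u
    constructor
    · intro hu
      have hu' : u.1 0 = p := hu
      have hx : u.1 0 ∈ (κ p).source := hu' ▸ mem_extChartAt_source _
      refine ⟨vel p u.1 0, u.vel_ne 0 hx, ?_⟩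
      have := mk_jet u hx one_pos
      rwa [one_smul, hu'] at this
    · rintro ⟨V, hV, rfl⟩
      exact (mk_zero g p (y := (κ p p, V)) (mem_extChartAt_target p) hV).trans
        (extChartAt_to_inv p)
  rw [e]
  refine (isConnected_compl_singleton_of_one_lt_rank ?_ 0).isPreconnected.image _ ?_
  · rw [← Module.finrank_eq_rank, finrank_euclideanSpace_fin]
    norm_num
  · exact (mk_cont g p).comp (by fun_prop) fun V hV => ⟨mem_extChartAt_target p, hV⟩

theorem SpaceX.exists_orth (V : E) : ∃ W : E, W ≠ 0 ∧ inner ℝ V W = 0 := by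
  by_cases hV : V = 0
  · obtain ⟨W, hW⟩ := exists_ne (0 : E)
    exact ⟨W, hW, by simp [hV]⟩
  · refine ⟨!₂[-V 1, V 0], fun h => hV ?_, ?_⟩
    · have h0 := congrArg (fun W : E => W 0) h
      have h1 := congrArg (fun W : E => W 1) h
      simp at h0 h1
      ext i
      fin_cases i <;> simp [h0, h1]
    · simp [PiLp.inner_apply, Fin.sum_univ_two]
      ring

theorem exists_sec {g : Met M} (w : UG g) : ∃ O ∈ 𝓝 (w.1 0), ∃ r > 0, ∃ e : M → ℝ → UG g,
    ContinuousOn (fun x : M × ℝ => e x.1 x.2) (O ×ˢ Icc (-r) r) ∧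
    (∀ q ∈ O, ∀ s ∈ Icc (-r) r, (e q s).1 0 = q) ∧ InjOn (e (w.1 0)) (Icc (-r) r) ∧
    e (w.1 0) 0 = w := by
  have hx : w.1 0 ∈ (κ (w.1 0)).source := mem_extChartAt_source _
  set x := w.1 0 with hx0
  set V := vel x w.1 0 with hV
  have hV0 : V ≠ 0 := w.vel_ne 0 hx
  obtain ⟨W, hW, hVW⟩ := SpaceX.exists_orth V
  have hVV : inner ℝ V V ≠ 0 := (real_inner_self_pos.2 hV0).ne'
  have hin : ∀ s : ℝ, inner ℝ V (V + s • W) = inner ℝ V V := fun s => by
    rw [inner_add_right, real_inner_smul_right, hVW, mul_zero, add_zero]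
  have hne : ∀ s : ℝ, V + s • W ≠ 0 := fun s h => hVV (by rw [← hin s, h, inner_zero_right])
  refine ⟨(κ x).source, extChartAt_source_mem_nhds x, 1, one_pos,
    fun q s => mk g x (κ x q, V + s • W), ?_, fun q hq s _ => ?_, fun s _ s' _ e => ?_, ?_⟩
  · refine (mk_cont g x).comp (f := fun z : M × ℝ => (κ x z.1, V + z.2 • W)) ?_
      fun z hz => ⟨(κ x).map_source hz.1, hne _⟩
    refine ContinuousOn.prodMk ?_ (by fun_prop)
    exact (continuousOn_extChartAt x).comp continuousOn_fst fun z hz => hz.1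
  · rw [mk_zero g x ((κ x).map_source hq) (hne s)]
    exact (κ x).left_inv hq
  · have h1 := vel_mk g x (y := (κ x x, V + s • W)) (mem_extChartAt_target x) (hne s)
    have h2 := vel_mk g x (y := (κ x x, V + s' • W)) (mem_extChartAt_target x) (hne s')
    simp only at e h1 h2
    rw [e, h2] at h1
    have h3 := congrArg (inner ℝ V) h1
    rw [real_inner_smul_right, real_inner_smul_right, hin, hin] at h3
    have h4 := mul_right_cancel₀ hVV h3
    rw [h4] at h1
    have hc : (√(G g x (κ x x) (V + s • W) (V + s • W)))⁻¹ ≠ 0 :=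
      inv_ne_zero (Real.sqrt_pos.2 (G_pos g x (mem_extChartAt_target x) (hne s))).ne'
    have h5 := add_left_cancel (smul_right_injective E hc h1)
    exact (smul_left_injective ℝ hW h5).symm
  · have := mk_jet w hx one_pos
    rw [one_smul] at this
    simpa using this

end Pool.Agent.GeoFin
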