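import Mathlib
import Pool.Agent.P.MP_365c00_gt.Space

/-!
Concrete boxes (paper sec. 0).
-/

open Set Filter Topology Metric
open scoped Manifold ContDiff

namespace Pool.Agent.GeoFin

variable {M : Type*} [TopologicalSpace M] [ChartedSpace E M] [IsManifold (𝓡 2) ∞ M]
  [T2Space M] [CompactSpace M] [Nonempty M]

/-- data of a box centred at `w`, in the chart at `w 0` -/
structure PreBox {g : Met M} (w : UG g) where
  e1 : E
  e2 : E
  l1 : E →L[ℝ] ℝ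
  l2 : E →L[ℝ] ℝ
  D : Set (ℝ × ℝ)
  c : ℝ
  V : ℝ × ℝ → E
  η0 : ℝ
  l1_e1 : l1 e1 = 1
  l1_e2 : l1 e2 = 0
  l2_e1 : l2 e1 = 0
  l2_e2 : l2 e2 = 1
  decomp : ∀ v : E, v = l1 v • e1 + l2 v • e2
  D_open : IsOpen D
  c_pos : 0 < c
  c_le : c ≤ 1 / 4
  pt_mem : ∀ z ∈ D, κ (w.1 0) (w.1 0) + z.1 • e2 ∈ (κ (w.1 0)).target
  V_smooth : ContDiffOn ℝ ∞ V D
  V_unit : ∀ z ∈ D, G g (w.1 0) (κ (w.1 0) (w.1 0) + z.1 • e2) (V z) (V z) = 1
  V_mom : ∀ z ∈ D, G g (w.1 0) (κ (w.1 0) (w.1 0) + z.1 • e2) (V z) e2 = z.2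
  V_uniq : ∀ z ∈ D, ∀ U : E, G g (w.1 0) (κ (w.1 0) (w.1 0) + z.1 • e2) U U = 1 →
    G g (w.1 0) (κ (w.1 0) (w.1 0) + z.1 • e2) U e2 = z.2 → 0 < l1 U → U = V z
  ctr_mem : (0, η0) ∈ D
  ctr : V (0, η0) = vel (w.1 0) w.1 0
  stay : ∀ z ∈ D, ∀ t, |t| ≤ 2 * c →
    (mk g (w.1 0) (κ (w.1 0) (w.1 0) + z.1 • e2, V z)).1 t ∈ (κ (w.1 0)).source ∧
      1 / 2 ≤ l1 (vel (w.1 0) (mk g (w.1 0) (κ (w.1 0) (w.1 0) + z.1 • e2, V z)).1 t)

namespace PreBox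

variable {g : Met M} {w : UG g} (b : PreBox w)

/-- base point of the transversal in the chart -/
noncomputable def pt (z : ℝ × ℝ) : E := κ (w.1 0) (w.1 0) + z.1 • b.e2

/-- the transversal -/
noncomputable def Z (z : ℝ × ℝ) : UG g := GeoFin.mk g (w.1 0) (b.pt z, b.V z)

/-- the box -/
def N : Set (UG g) := {u | ∃ y : ℝ × (ℝ × ℝ), y.2 ∈ b.D ∧ |y.1| < b.c ∧ shift y.1 u = b.Z y.2}

open Classical in
/-- time to the transversal and point hit -/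
noncomputable def hit (u : UG g) : ℝ × (ℝ × ℝ) := if h : u ∈ b.N then h.choose else 0

/-- time to the transversal -/
noncomputable def τ (u : UG g) : ℝ := (b.hit u).1

/-- point hit -/
noncomputable def ζ (u : UG g) : ℝ × ℝ := (b.hit u).2

theorem hit_spec {u : UG g} (h : u ∈ b.N) :
    b.ζ u ∈ b.D ∧ |b.τ u| < b.c ∧ shift (b.τ u) u = b.Z (b.ζ u) := by
  unfold τ ζ hit
  rw [dif_pos h]
  exact h.choose_spec

theorem V_ne {z : ℝ × ℝ} (hz : z ∈ b.D) : b.V z ≠ 0 := fun h => by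
  simpa [h] using b.V_unit z hz

theorem Z_zero {z : ℝ × ℝ} (hz : z ∈ b.D) : (b.Z z).1 0 = (κ (w.1 0)).symm (b.pt z) :=
  mk_zero g _ (y := (b.pt z, b.V z)) (b.pt_mem z hz) (b.V_ne hz)

theorem κ_Z_zero {z : ℝ × ℝ} (hz : z ∈ b.D) : κ (w.1 0) ((b.Z z).1 0) = b.pt z := by
  rw [b.Z_zero hz]; exact (κ (w.1 0)).right_inv (b.pt_mem z hz)

theorem vel_Z_zero {z : ℝ × ℝ} (hz : z ∈ b.D) : vel (w.1 0) (b.Z z).1 0 = b.V z := by
  have h := vel_mk g (w.1 0) (y := (b.pt z, b.V z)) (b.pt_mem z hz) (b.V_ne hz)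
  have h1 : G g (w.1 0) (b.pt z) (b.V z) (b.V z) = 1 := b.V_unit z hz
  rw [h1, Real.sqrt_one, inv_one, one_smul] at h
  exact h

theorem Z_stay {z : ℝ × ℝ} (hz : z ∈ b.D) {t : ℝ} (ht : |t| ≤ 2 * b.c) :
    (b.Z z).1 t ∈ (κ (w.1 0)).source ∧ 1 / 2 ≤ b.l1 (vel (w.1 0) (b.Z z).1 t) := b.stay z hz t ht

/-- the family of geodesics through the transversal is smooth -/
theorem Z_smooth {z : ℝ × ℝ} (hz : z ∈ b.D) (t : ℝ) :
    ContMDiffAt 𝓘(ℝ, (ℝ × ℝ) × ℝ) (𝓡 2) ∞ (fun y : (ℝ × ℝ) × ℝ => (b.Z y.1).1 y.2) (z, t) := by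
  have h1 : ContDiffAt ℝ ∞ b.V z := b.V_smooth.contDiffAt (b.D_open.mem_nhds hz)
  have h2 : ContDiffAt ℝ ∞ (fun y : (ℝ × ℝ) × ℝ => ((b.pt y.1, b.V y.1), y.2)) (z, t) := by
    refine ContDiffAt.prodMk (ContDiffAt.prodMk ?_ ?_) contDiffAt_snd
    · unfold pt
      fun_prop
    · exact ContDiffAt.comp (z, t) (g := b.V) h1 contDiffAt_fst
  exact (mk_smooth g (w.1 0) (y := (b.pt z, b.V z)) (b.pt_mem z hz) (b.V_ne hz) t).comp (z, t)
    h2.contMDiffAt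

theorem Z_cont : ContinuousOn b.Z b.D := by
  have h1 : ContinuousOn (fun z => (b.pt z, b.V z)) b.D := by
    refine ContinuousOn.prodMk ?_ b.V_smooth.continuousOn
    unfold pt
    fun_prop
  exact (mk_cont g (w.1 0)).comp h1 fun z hz => ⟨b.pt_mem z hz, b.V_ne hz⟩

theorem Z_ctr : b.Z (0, b.η0) = w := by
  have h := mk_jet w (x := w.1 0) (mem_extChartAt_source _) one_pos
  rw [one_smul] at h
  unfold Z pt
  rw [b.ctr, zero_smul, add_zero]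
  exact h

end PreBox

namespace BoxCX

variable {g : Met M} {w : UG g} (b : PreBox w)

omit [T2Space M] [CompactSpace M] [Nonempty M] in
theorem shift_shift (s t : ℝ) (u : UG g) : shift s (shift t u) = shift (s + t) u := by
  refine Subtype.ext (ContinuousMap.ext fun r => ?_)
  rw [shift_apply, shift_apply, shift_apply, add_assoc]

omit [T2Space M] [CompactSpace M] [Nonempty M] in
theorem shift_zero (u : UG g) : shift 0 u = u := by
  refine Subtype.ext (ContinuousMap.ext fun r => ?_)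
  rw [shift_apply, add_zero]

/-- first coordinate -/
noncomputable def cx (q : M) : ℝ := b.l1 (κ (w.1 0) q - κ (w.1 0) (w.1 0))

/-- second coordinate -/
noncomputable def cy (q : M) : ℝ := b.l2 (κ (w.1 0) q - κ (w.1 0) (w.1 0))

theorem chart_eq (q : M) :
    κ (w.1 0) q = κ (w.1 0) (w.1 0) + (cx b q • b.e1 + cy b q • b.e2) := by
  have h := b.decomp (κ (w.1 0) q - κ (w.1 0) (w.1 0))
  unfold cx cy
  rw [← h]
  abel

theorem eq_of_coord {q q' : M} (hq : q ∈ (κ (w.1 0)).source) (hq' : q' ∈ (κ (w.1 0)).source)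
    (h1 : cx b q = cx b q') (h2 : cy b q = cy b q') : q = q' := by
  apply (κ (w.1 0)).injOn hq hq'
  rw [chart_eq b q, chart_eq b q', h1, h2]

theorem cx_cont {q : M} (hq : q ∈ (κ (w.1 0)).source) : ContinuousAt (cx b) q :=
  b.l1.continuous.continuousAt.comp ((continuousAt_extChartAt' hq).sub continuousAt_const)

theorem cy_cont {q : M} (hq : q ∈ (κ (w.1 0)).source) : ContinuousAt (cy b) q :=
  b.l2.continuous.continuousAt.comp ((continuousAt_extChartAt' hq).sub continuousAt_const)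

theorem cx_zero {z : ℝ × ℝ} (hz : z ∈ b.D) : cx b ((b.Z z).1 0) = 0 := by
  unfold cx
  rw [b.κ_Z_zero hz, PreBox.pt, add_sub_cancel_left, map_smul, b.l1_e2, smul_zero]

theorem cy_zero {z : ℝ × ℝ} (hz : z ∈ b.D) : cy b ((b.Z z).1 0) = z.1 := by
  unfold cy
  rw [b.κ_Z_zero hz, PreBox.pt, add_sub_cancel_left, map_smul, b.l2_e2, smul_eq_mul, mul_one]

theorem cx_deriv (u : UG g) {t : ℝ} (ht : u.1 t ∈ (κ (w.1 0)).source) :
    HasDerivAt (fun s => cx b (u.1 s)) (b.l1 (vel (w.1 0) u.1 t)) t :=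
  b.l1.hasFDerivAt.comp_hasDerivAt t (((u.geoAt t).hasDerivAt ht).sub_const _)

theorem cx_grow {z : ℝ × ℝ} (hz : z ∈ b.D) {s t : ℝ} (hs : |s| ≤ 2 * b.c) (ht : |t| ≤ 2 * b.c)
    (hst : s ≤ t) : 1 / 2 * (t - s) ≤ cx b ((b.Z z).1 t) - cx b ((b.Z z).1 s) := by
  have hd : ∀ r ∈ Icc (-(2 * b.c)) (2 * b.c), HasDerivAt (fun s => cx b ((b.Z z).1 s))
      (b.l1 (vel (w.1 0) (b.Z z).1 r)) r := fun r hr =>
    cx_deriv b _ (b.Z_stay hz (abs_le.2 hr)).1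
  refine (convex_Icc (-(2 * b.c)) (2 * b.c)).mul_sub_le_image_sub_of_le_deriv
    (f := fun s => cx b ((b.Z z).1 s))
    (fun r hr => (hd r hr).continuousAt.continuousWithinAt)
    (fun r hr => (hd r (interior_subset hr)).differentiableAt.differentiableWithinAt)
    (fun r hr => ?_) s (abs_le.1 hs) t (abs_le.1 ht) hst
  rw [(hd r (interior_subset hr)).deriv]
  have hr' : r ∈ Icc (-(2 * b.c)) (2 * b.c) := interior_subset hr
  exact (b.Z_stay hz (abs_le.2 hr')).2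

theorem cx_lt {z : ℝ × ℝ} (hz : z ∈ b.D) {s t : ℝ} (hs : |s| ≤ 2 * b.c) (ht : |t| ≤ 2 * b.c)
    (h : cx b ((b.Z z).1 s) < cx b ((b.Z z).1 t)) : s < t := by
  by_contra hn
  have := cx_grow b hz ht hs (not_lt.1 hn)
  linarith [not_lt.1 hn]

theorem cx_le {z : ℝ × ℝ} (hz : z ∈ b.D) {s t : ℝ} (hs : |s| ≤ 2 * b.c) (ht : |t| ≤ 2 * b.c)
    (h : cx b ((b.Z z).1 s) ≤ cx b ((b.Z z).1 t)) : s ≤ t := by
  by_contra hn
  have := cx_grow b hz ht hs (not_le.1 hn).le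
  linarith [not_le.1 hn]

theorem cx_inj {z : ℝ × ℝ} (hz : z ∈ b.D) {s t : ℝ} (hs : |s| ≤ 2 * b.c) (ht : |t| ≤ 2 * b.c)
    (h : cx b ((b.Z z).1 s) = cx b ((b.Z z).1 t)) : s = t :=
  le_antisymm (cx_le b hz hs ht h.le) (cx_le b hz ht hs h.ge)

theorem abs_zero_le : |(0 : ℝ)| ≤ 2 * b.c := by
  rw [abs_zero]
  linarith [b.c_pos]

theorem uniq {z z' : ℝ × ℝ} (hz : z ∈ b.D) (hz' : z' ∈ b.D) {t : ℝ} (ht : |t| < 2 * b.c)
    (h : shift t (b.Z z) = b.Z z') : t = 0 ∧ z = z' := by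
  have h1 : (b.Z z).1 t = (b.Z z').1 0 := by rw [← h, shift_apply, zero_add]
  have h2 : t = 0 := by
    refine cx_inj b hz ht.le (abs_zero_le b) ?_
    rw [h1, cx_zero b hz, cx_zero b hz']
  refine ⟨h2, ?_⟩
  rw [h2, shift_zero] at h
  have h3 : z.1 = z'.1 := by rw [← cy_zero b hz, ← cy_zero b hz', h]
  have h4 : b.V z = b.V z' := by rw [← b.vel_Z_zero hz, ← b.vel_Z_zero hz', h]
  refine Prod.ext h3 ?_
  rw [← b.V_mom z hz, ← b.V_mom z' hz', h3, h4]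

/-- coordinates of a geodesic crossing the transversal -/
noncomputable def psi (y : UG g × ℝ) : ℝ × ℝ :=
  (cy b (y.1.1 y.2), G g (w.1 0) (κ (w.1 0) (y.1.1 y.2)) (vel (w.1 0) y.1.1 y.2) b.e2)

omit [T2Space M] [CompactSpace M] [Nonempty M] in
theorem src_open : IsOpen {y : UG g × ℝ | y.1.1 y.2 ∈ (κ (w.1 0)).source} :=
  (source_open (w.1 0)).preimage (ev_cont g)

theorem vel_contAt {y : UG g × ℝ} (hy : y.1.1 y.2 ∈ (κ (w.1 0)).source) :
    ContinuousAt (fun y : UG g × ℝ => vel (w.1 0) y.1.1 y.2) y :=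
  (vel_cont g (w.1 0)).continuousAt (src_open.mem_nhds hy)

theorem psi_cont {y : UG g × ℝ} (hy : y.1.1 y.2 ∈ (κ (w.1 0)).source) :
    ContinuousAt (psi b) y := by
  have h0 : ContinuousAt (fun y : UG g × ℝ => y.1.1 y.2) y := (ev_cont g).continuousAt
  refine ContinuousAt.prodMk
    (ContinuousAt.comp (f := fun y : UG g × ℝ => y.1.1 y.2) (cy_cont b hy) h0) ?_
  have h1 : ContinuousAt (fun y : UG g × ℝ => κ (w.1 0) (y.1.1 y.2)) y :=
    ContinuousAt.comp (f := fun y : UG g × ℝ => y.1.1 y.2) (continuousAt_extChartAt' hy) h0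
  have h2 : ContinuousAt (G g (w.1 0)) (κ (w.1 0) (y.1.1 y.2)) :=
    (G_smooth g (w.1 0)).continuousOn.continuousAt
      ((target_open _).mem_nhds ((κ (w.1 0)).map_source hy))
  have h3 : ContinuousAt (fun y : UG g × ℝ => G g (w.1 0) (κ (w.1 0) (y.1.1 y.2))) y :=
    ContinuousAt.comp (f := fun y : UG g × ℝ => κ (w.1 0) (y.1.1 y.2)) h2 h1
  exact (h3.clm_apply (vel_contAt hy)).clm_apply continuousAt_const

theorem cross {u : UG g} {t : ℝ} (hs : u.1 t ∈ (κ (w.1 0)).source) (hD : psi b (u, t) ∈ b.D)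
    (hl : 0 < b.l1 (vel (w.1 0) u.1 t)) (h0 : cx b (u.1 t) = 0) :
    shift t u = b.Z (psi b (u, t)) := by
  have h1 : κ (w.1 0) (u.1 t) = b.pt (psi b (u, t)) := by
    rw [chart_eq b (u.1 t), h0, zero_smul, zero_add]
    rfl
  have h2 : vel (w.1 0) u.1 t = b.V (psi b (u, t)) := by
    refine b.V_uniq _ hD _ ?_ ?_ hl
    · have := u.unit t hs
      rwa [h1] at this
    · have : G g (w.1 0) (κ (w.1 0) (u.1 t)) (vel (w.1 0) u.1 t) b.e2 = (psi b (u, t)).2 := rfl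
      rwa [h1] at this
  have h3 : (shift t u).1 0 = u.1 t := by rw [shift_apply, zero_add]
  have h4 := mk_jet (shift t u) (x := w.1 0) (by rwa [h3]) one_pos
  rw [one_smul, h3, vel_shift, zero_add, h1, h2] at h4
  exact h4.symm

theorem near {u0 : UG g} (hu : u0 ∈ b.N) {ε : ℝ} (hε : 0 < ε) {W : Set (ℝ × ℝ)}
    (hW : W ∈ 𝓝 (b.ζ u0)) :
    ∀ᶠ u in 𝓝 u0, u ∈ b.N ∧ |b.τ u - b.τ u0| < ε ∧ b.ζ u ∈ W := by
  obtain ⟨hD, hτ, hs⟩ := b.hit_spec hu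
  set t0 := b.τ u0 with ht0
  set z0 := b.ζ u0 with hz0
  have hev : ∀ s, u0.1 (s + t0) = (b.Z z0).1 s := fun s => by rw [← hs, shift_apply]
  have e0 : u0.1 t0 = (b.Z z0).1 0 := by rw [← hev, zero_add]
  have ev0 : vel (w.1 0) u0.1 t0 = b.V z0 := by
    rw [← b.vel_Z_zero hD, ← hs, vel_shift, zero_add]
  have hsrc : u0.1 t0 ∈ (κ (w.1 0)).source := by
    rw [e0]
    exact (b.Z_stay hD (abs_zero_le b)).1
  have hpsi : psi b (u0, t0) = z0 := by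
    refine Prod.ext ?_ ?_
    · change cy b (u0.1 t0) = z0.1
      rw [e0, cy_zero b hD]
    · change G g (w.1 0) (κ (w.1 0) (u0.1 t0)) (vel (w.1 0) u0.1 t0) b.e2 = z0.2
      rw [ev0, e0, b.κ_Z_zero hD]
      exact b.V_mom z0 hD
  have hl0 : 0 < b.l1 (vel (w.1 0) u0.1 t0) := by
    have := (b.Z_stay hD (abs_zero_le b)).2
    rw [b.vel_Z_zero hD] at this
    rw [ev0]
    linarith
  have E1 : ∀ᶠ y : UG g × ℝ in 𝓝 (u0, t0), y.1.1 y.2 ∈ (κ (w.1 0)).source :=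
    src_open.mem_nhds hsrc
  have E2 : ∀ᶠ y : UG g × ℝ in 𝓝 (u0, t0), psi b y ∈ W ∩ b.D :=
    psi_cont b (y := (u0, t0)) hsrc (by
      rw [hpsi]
      exact inter_mem hW (b.D_open.mem_nhds hD))
  have E3 : ∀ᶠ y : UG g × ℝ in 𝓝 (u0, t0), 0 < b.l1 (vel (w.1 0) y.1.1 y.2) :=
    (b.l1.continuous.continuousAt.comp (vel_contAt (y := (u0, t0)) hsrc)).eventually
      (lt_mem_nhds hl0)
  have E4 := E1.and (E2.and E3)
  rw [nhds_prod_eq, eventually_prod_iff] at E4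
  obtain ⟨pa, hpa, pb, hpb, hab⟩ := E4
  obtain ⟨δ0, hδ0, hball⟩ := Metric.eventually_nhds_iff.1 hpb
  obtain ⟨δ, hδ, hδ1, hδ2, hδ3⟩ : ∃ δ > 0, δ < δ0 ∧ δ < ε ∧ δ < b.c - |t0| :=
    ⟨min δ0 (min ε (b.c - |t0|)) / 2, by
      have : 0 < min δ0 (min ε (b.c - |t0|)) := lt_min hδ0 (lt_min hε (by linarith))
      have h1 := min_le_left δ0 (min ε (b.c - |t0|))
      have h2 := min_le_right δ0 (min ε (b.c - |t0|))
      have h3 := min_le_left ε (b.c - |t0|)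
      have h4 := min_le_right ε (b.c - |t0|)
      refine ⟨by linarith, by linarith, by linarith, by linarith⟩⟩
  have hδc : δ ≤ 2 * b.c := by linarith [abs_nonneg t0, b.c_pos]
  have a1 : |δ| ≤ 2 * b.c := by rwa [abs_of_pos hδ]
  have a2 : |-δ| ≤ 2 * b.c := by rwa [abs_neg]
  have hc : ∀ s, |s| ≤ 2 * b.c → ContinuousAt (fun u : UG g => cx b (u.1 (s + t0))) u0 := by
    intro s hs'
    refine ContinuousAt.comp (f := fun u : UG g => u.1 (s + t0)) (cx_cont b ?_) ?_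
    · rw [hev]
      exact (b.Z_stay hD hs').1
    · exact ((ev_cont g).comp (continuous_id.prodMk continuous_const)).continuousAt
  have F1 : ∀ᶠ u : UG g in 𝓝 u0, 0 < cx b (u.1 (δ + t0)) := by
    refine (hc δ a1).eventually (lt_mem_nhds ?_)
    have := cx_grow b hD (abs_zero_le b) a1 hδ.le
    rw [cx_zero b hD] at this
    simp only [hev]
    linarith
  have F2 : ∀ᶠ u : UG g in 𝓝 u0, cx b (u.1 (-δ + t0)) < 0 := by
    refine (hc (-δ) a2).eventually (gt_mem_nhds ?_)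
    have := cx_grow b hD a2 (abs_zero_le b) (by linarith)
    rw [cx_zero b hD] at this
    simp only [hev]
    linarith
  filter_upwards [hpa, F1, F2] with u h1 h2 h3
  have hI : ∀ t ∈ Icc (-δ + t0) (δ + t0), |t - t0| ≤ δ := fun t ht =>
    abs_le.2 ⟨by linarith [ht.1], by linarith [ht.2]⟩
  have hgood : ∀ t ∈ Icc (-δ + t0) (δ + t0), u.1 t ∈ (κ (w.1 0)).source ∧
      psi b (u, t) ∈ W ∩ b.D ∧ 0 < b.l1 (vel (w.1 0) u.1 t) := fun t ht =>
    hab h1 (hball (by rw [Real.dist_eq]; linarith [hI t ht]))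
  have hcont : ContinuousOn (fun t => cx b (u.1 t)) (Icc (-δ + t0) (δ + t0)) := fun t ht =>
    (cx_deriv b u (hgood t ht).1).continuousAt.continuousWithinAt
  obtain ⟨t, ht, h0⟩ := intermediate_value_Icc (by linarith) hcont ⟨h3.le, h2.le⟩
  obtain ⟨g1, ⟨g2, g3⟩, g4⟩ := hgood t ht
  have hx := cross b g1 g3 g4 h0
  have htc : |t| < b.c := by
    have := abs_add_le (t - t0) t0
    rw [sub_add_cancel] at this
    linarith [hI t ht]
  have hN : u ∈ b.N := ⟨(t, psi b (u, t)), g3, htc, hx⟩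
  obtain ⟨k1, k2, k3⟩ := b.hit_spec hN
  have hu2 := uniq b g3 k1 (t := b.τ u - t) (by
    have := abs_sub (b.τ u) t
    linarith) (by rw [← hx, shift_shift, sub_add_cancel, k3])
  refine ⟨hN, ?_, hu2.2 ▸ g2⟩
  have : b.τ u = t := by linarith [hu2.1]
  rw [this]
  linarith [hI t ht]

theorem exists_root (y : (ℝ × ℝ) × ℝ) : ∃ t : ℝ, y ∈ b.D ×ˢ Ioo (-(b.c / 2)) (b.c / 2) →
    |t| < b.c ∧ cx b ((b.Z y.1).1 t) = y.2 := by
  by_cases hy : y ∈ b.D ×ˢ Ioo (-(b.c / 2)) (b.c / 2)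
  swap
  · exact ⟨0, fun h => absurd h hy⟩
  obtain ⟨hz, h1, h2⟩ := hy
  have hc := b.c_pos
  have a1 : |b.c| ≤ 2 * b.c := by rw [abs_of_pos hc]; linarith
  have a2 : |-b.c| ≤ 2 * b.c := by rwa [abs_neg]
  have g1 := cx_grow b hz (abs_zero_le b) a1 hc.le
  have g2 := cx_grow b hz a2 (abs_zero_le b) (by linarith)
  rw [cx_zero b hz] at g1 g2
  have hcont : ContinuousOn (fun t => cx b ((b.Z y.1).1 t)) (Icc (-b.c) b.c) := fun t ht =>
    (cx_deriv b _ (b.Z_stay hz (abs_le.2 ⟨by linarith [ht.1], by linarith [ht.2]⟩)).1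
      ).continuousAt.continuousWithinAt
  obtain ⟨t, ht, h0⟩ := intermediate_value_Ioo (by linarith) hcont
    (show y.2 ∈ Ioo (cx b ((b.Z y.1).1 (-b.c))) (cx b ((b.Z y.1).1 b.c)) from
      ⟨by linarith, by linarith⟩)
  exact ⟨t, fun _ => ⟨abs_lt.2 ht, h0⟩⟩

/-- the time at which the first coordinate takes a given value -/
noncomputable def rt (y : (ℝ × ℝ) × ℝ) : ℝ := (exists_root b y).choose

theorem rt_spec {y : (ℝ × ℝ) × ℝ} (hy : y ∈ b.D ×ˢ Ioo (-(b.c / 2)) (b.c / 2)) :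
    |rt b y| < b.c ∧ cx b ((b.Z y.1).1 (rt b y)) = y.2 := (exists_root b y).choose_spec hy

theorem rt_le {y : (ℝ × ℝ) × ℝ} (hy : y ∈ b.D ×ˢ Ioo (-(b.c / 2)) (b.c / 2)) :
    |rt b y| ≤ 2 * b.c := by
  linarith [(rt_spec b hy).1, b.c_pos]

theorem S_open : IsOpen (b.D ×ˢ Ioo (-(b.c / 2)) (b.c / 2)) := b.D_open.prod isOpen_Ioo

theorem rt_cont {y0 : (ℝ × ℝ) × ℝ} (hy : y0 ∈ b.D ×ˢ Ioo (-(b.c / 2)) (b.c / 2)) :
    ContinuousAt (rt b) y0 := by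
  have hc := b.c_pos
  have hZ : ContinuousAt (fun y : (ℝ × ℝ) × ℝ => b.Z y.1) y0 :=
    ContinuousAt.comp (f := Prod.fst) (b.Z_cont.continuousAt (b.D_open.mem_nhds hy.1))
      continuousAt_fst
  have hf : ∀ s, |s| ≤ 2 * b.c →
      ContinuousAt (fun y : (ℝ × ℝ) × ℝ => cx b ((b.Z y.1).1 s) - y.2) y0 := by
    intro s hs
    refine ContinuousAt.sub ?_ continuousAt_snd
    refine ContinuousAt.comp (f := fun y : (ℝ × ℝ) × ℝ => (b.Z y.1).1 s)
      (cx_cont b (b.Z_stay hy.1 hs).1) ?_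
    exact ContinuousAt.comp (f := fun y : (ℝ × ℝ) × ℝ => (b.Z y.1, s)) (ev_cont g).continuousAt
      (hZ.prodMk continuousAt_const)
  obtain ⟨h1, h2⟩ := rt_spec b hy
  rw [ContinuousAt, Metric.tendsto_nhds]
  intro ε hε
  set δ := min ε b.c / 2 with hδ
  have d0 : 0 < min ε b.c := lt_min hε hc
  have d1 : δ < ε := by linarith [min_le_left ε b.c]
  have d2 : δ < b.c := by linarith [min_le_right ε b.c]
  have d3 : 0 < δ := by linarith
  have hr := abs_lt.1 h1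
  have a1 : |rt b y0 + δ| ≤ 2 * b.c := abs_le.2 ⟨by linarith, by linarith⟩
  have a2 : |rt b y0 - δ| ≤ 2 * b.c := abs_le.2 ⟨by linarith, by linarith⟩
  have F1 : ∀ᶠ y : (ℝ × ℝ) × ℝ in 𝓝 y0, 0 < cx b ((b.Z y.1).1 (rt b y0 + δ)) - y.2 := by
    refine (hf _ a1).eventually (lt_mem_nhds ?_)
    have := cx_grow b hy.1 (rt_le b hy) a1 (by linarith)
    linarith
  have F2 : ∀ᶠ y : (ℝ × ℝ) × ℝ in 𝓝 y0, cx b ((b.Z y.1).1 (rt b y0 - δ)) - y.2 < 0 := by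
    refine (hf _ a2).eventually (gt_mem_nhds ?_)
    have := cx_grow b hy.1 a2 (rt_le b hy) (by linarith)
    linarith
  filter_upwards [F1, F2, (S_open b).mem_nhds hy] with y k1 k2 k3
  have k4 := (rt_spec b k3).2
  have k5 := cx_lt b k3.1 (rt_le b k3) a1 (by linarith)
  have k6 := cx_lt b k3.1 a2 (rt_le b k3) (by linarith)
  rw [Real.dist_eq, abs_lt]
  constructor <;> linarith

/-- the second coordinate as a function of the first -/
noncomputable def yg (y : (ℝ × ℝ) × ℝ) : ℝ := cy b ((b.Z y.1).1 (rt b y))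

theorem yg_cont {y0 : (ℝ × ℝ) × ℝ} (hy : y0 ∈ b.D ×ˢ Ioo (-(b.c / 2)) (b.c / 2)) :
    ContinuousAt (yg b) y0 := by
  have hZ : ContinuousAt (fun y : (ℝ × ℝ) × ℝ => b.Z y.1) y0 :=
    ContinuousAt.comp (f := Prod.fst) (b.Z_cont.continuousAt (b.D_open.mem_nhds hy.1))
      continuousAt_fst
  refine ContinuousAt.comp (f := fun y : (ℝ × ℝ) × ℝ => (b.Z y.1).1 (rt b y))
    (cy_cont b (b.Z_stay hy.1 (rt_le b hy)).1) ?_
  exact ContinuousAt.comp (f := fun y : (ℝ × ℝ) × ℝ => (b.Z y.1, rt b y))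
    (ev_cont g).continuousAt (hZ.prodMk (rt_cont b hy))

theorem yg_ne {z z' : ℝ × ℝ} (hz : z ∈ b.D) (hz' : z' ∈ b.D) (hne : z ≠ z') :
    ∃ ξ ∈ Ioo (-(b.c / 2)) (b.c / 2), yg b (z, ξ) ≠ yg b (z', ξ) := by
  by_contra hn
  push Not at hn
  have hc := b.c_pos
  have m4 : b.c / 4 ∈ Ioo (-(b.c / 2)) (b.c / 2) := ⟨by linarith, by linarith⟩
  have s4 := rt_spec b (y := (z, b.c / 4)) ⟨hz, m4⟩
  have l4 := rt_le b (y := (z, b.c / 4)) ⟨hz, m4⟩
  set ε := rt b (z, b.c / 4) with hεd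
  have hε : 0 < ε := by
    refine cx_lt b hz (abs_zero_le b) l4 ?_
    rw [cx_zero b hz, s4.2]
    linarith
  have hsub : (b.Z z).1 '' Icc 0 ε ⊆ (b.Z z').1 '' Icc 0 b.c := by
    rintro _ ⟨s, hs, rfl⟩
    have a1 : |s| ≤ 2 * b.c := by
      rw [abs_of_nonneg hs.1]
      exact hs.2.trans ((le_abs_self _).trans l4)
    have g1 := cx_grow b hz (abs_zero_le b) a1 hs.1
    have g2 := cx_grow b hz a1 l4 hs.2
    rw [cx_zero b hz] at g1
    rw [s4.2] at g2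
    set ξ := cx b ((b.Z z).1 s) with hξ
    have mξ : ξ ∈ Ioo (-(b.c / 2)) (b.c / 2) :=
      ⟨by linarith [hs.1], by simp only at g2; linarith [hs.2]⟩
    have r1 := rt_spec b (y := (z, ξ)) ⟨hz, mξ⟩
    have r2 := rt_spec b (y := (z', ξ)) ⟨hz', mξ⟩
    have l2 := rt_le b (y := (z', ξ)) ⟨hz', mξ⟩
    have e1 : rt b (z, ξ) = s := cx_inj b hz (rt_le b (y := (z, ξ)) ⟨hz, mξ⟩) a1 r1.2
    refine ⟨rt b (z', ξ), ⟨?_, (le_abs_self _).trans r2.1.le⟩, ?_⟩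
    · refine cx_le b hz' (abs_zero_le b) l2 ?_
      rw [cx_zero b hz', r2.2]
      linarith [hs.1]
    · refine eq_of_coord b (b.Z_stay hz' l2).1 (b.Z_stay hz a1).1 r2.2 ?_
      have := hn ξ mξ
      unfold yg at this
      rw [e1] at this
      exact this.symm
  obtain ⟨r, hr, h | h⟩ := UG.dir (b.Z z) (b.Z z') b.c ε hε hsub
  · have h1 : shift r (b.Z z') = b.Z z := by
      refine Subtype.ext (ContinuousMap.ext fun s => ?_)
      rw [shift_apply, h, add_comm]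
    have := uniq b hz' hz (t := r) (by rw [abs_of_nonneg hr.1]; linarith [hr.2]) h1
    exact hne this.2.symm
  · have a1 : |r| ≤ 2 * b.c := by rw [abs_of_nonneg hr.1]; linarith [hr.2]
    have h1 : r = 0 := by
      refine cx_inj b hz' a1 (abs_zero_le b) ?_
      have := h 0
      rw [sub_zero] at this
      rw [← this, cx_zero b hz, cx_zero b hz']
    have a2 : |b.c| ≤ 2 * b.c := by rw [abs_of_pos hc]; linarith
    have a3 : |-b.c| ≤ 2 * b.c := by rwa [abs_neg]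
    have g1 := cx_grow b hz (abs_zero_le b) a2 hc.le
    have g2 := cx_grow b hz' a3 (abs_zero_le b) (by linarith)
    have h2 := h b.c
    rw [h1, zero_sub] at h2
    rw [cx_zero b hz, h2] at g1
    rw [cx_zero b hz'] at g2
    linarith

end BoxCX

namespace PreBox

variable {g : Met M} {w : UG g} (b : PreBox w)

theorem mem_N {z : ℝ × ℝ} (hz : z ∈ b.D) {t : ℝ} (ht : |t| < b.c) : shift t (b.Z z) ∈ b.N :=
  ⟨(-t, z), hz, by rwa [abs_neg], by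
    rw [BoxCX.shift_shift, neg_add_cancel, BoxCX.shift_zero]⟩

theorem uniq {z z' : ℝ × ℝ} (hz : z ∈ b.D) (hz' : z' ∈ b.D) {t : ℝ} (ht : |t| < 2 * b.c)
    (h : shift t (b.Z z) = b.Z z') : t = 0 ∧ z = z' :=
  BoxCX.uniq b hz hz' ht h

theorem N_open : IsOpen b.N :=
  isOpen_iff_mem_nhds.2 fun _ hu => (BoxCX.near b hu one_pos univ_mem).mono fun _ h => h.1

theorem τ_cont : ContinuousOn b.τ b.N := by
  intro u hu
  refine ContinuousAt.continuousWithinAt ?_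
  rw [ContinuousAt, Metric.tendsto_nhds]
  intro ε hε
  exact (BoxCX.near b hu hε univ_mem).mono fun _ h => by rw [Real.dist_eq]; exact h.2.1

theorem ζ_cont : ContinuousOn b.ζ b.N := by
  intro u hu
  refine ContinuousAt.continuousWithinAt ?_
  intro W hW
  exact (BoxCX.near b hu one_pos hW).mono fun _ h => h.2.2

theorem fib {z : ℝ × ℝ} (hz : z ∈ b.D) : (b.Z z).1 0 = w.1 0 ↔ z.1 = 0 := by
  constructor
  · intro h
    rw [← BoxCX.cy_zero b hz, h]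
    simp [BoxCX.cy]
  · intro h
    rw [b.Z_zero hz, pt, h, zero_smul, add_zero]
    exact (κ (w.1 0)).left_inv (mem_extChartAt_source _)

theorem fib_τ {u : UG g} (hu : u ∈ b.N) (h : u.1 0 = w.1 0) : b.τ u = 0 := by
  obtain ⟨h1, h2, h3⟩ := b.hit_spec hu
  have h4 : (b.Z (b.ζ u)).1 (-b.τ u) = w.1 0 := by
    rw [← h3, shift_apply, neg_add_cancel, h]
  have h5 : -b.τ u = 0 := by
    refine BoxCX.cx_inj b h1 (by rw [abs_neg]; linarith [b.c_pos]) (BoxCX.abs_zero_le b) ?_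
    rw [h4, BoxCX.cx_zero b h1]
    simp [BoxCX.cx]
  linarith

theorem sweep {z z' : ℝ × ℝ} (hz : z ∈ b.D) (hz' : z' ∈ b.D) (hne : z ≠ z') :
    ∃ V ∈ 𝓝 z, ∃ V' ∈ 𝓝 z', ∃ O : Set M, IsOpen O ∧ O.Nonempty ∧
      ∀ (β : ℝ → ℝ × ℝ) (a a' : ℝ), a ≤ a' → ContinuousOn β (Icc a a') →
        MapsTo β (Icc a a') b.D → β a ∈ V → β a' ∈ V' →
        ∀ q ∈ O, ∃ s ∈ Ioo a a', ∃ t, |t| < b.c ∧ (b.Z (β s)).1 t = q := by
  obtain ⟨ξ0, hξ0, hY⟩ := BoxCX.yg_ne b hz hz' hne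
  set σ := BoxCX.yg b (z', ξ0) - BoxCX.yg b (z, ξ0) with hσ
  have hσ0 : σ ≠ 0 := sub_ne_zero.2 hY.symm
  have hσ2 : 0 < σ * σ := mul_self_pos.2 hσ0
  have r0 := BoxCX.rt_spec b (y := (z, ξ0)) ⟨hz, hξ0⟩
  set p0 := (b.Z z).1 (BoxCX.rt b (z, ξ0)) with hp0
  have hp0s : p0 ∈ (κ (w.1 0)).source :=
    (b.Z_stay hz (BoxCX.rt_le b (y := (z, ξ0)) ⟨hz, hξ0⟩)).1
  have hev : ∀ᶠ s : ℝ in 𝓝[>] 0, κ (w.1 0) p0 + (s * σ) • b.e2 ∈ (κ (w.1 0)).target := by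
    have hc : ContinuousAt (fun s : ℝ => κ (w.1 0) p0 + (s * σ) • b.e2) 0 := by fun_prop
    refine (hc.eventually ((target_open (w.1 0)).mem_nhds ?_)).filter_mono nhdsWithin_le_nhds
    simpa using (κ (w.1 0)).map_source hp0s
  obtain ⟨s0, hs0t, hs0⟩ := (hev.and (Ioo_mem_nhdsGT (zero_lt_one' ℝ))).exists
  set q0 := (κ (w.1 0)).symm (κ (w.1 0) p0 + (s0 * σ) • b.e2) with hq0
  have hq0s : q0 ∈ (κ (w.1 0)).source := (κ (w.1 0)).map_target hs0t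
  have hκq : κ (w.1 0) q0 = κ (w.1 0) p0 + (s0 * σ) • b.e2 := (κ (w.1 0)).right_inv hs0t
  have hx0 : BoxCX.cx b q0 = ξ0 := by
    have : BoxCX.cx b p0 = ξ0 := r0.2
    rw [← this]
    unfold BoxCX.cx
    rw [hκq, add_sub_right_comm, map_add, map_smul, b.l1_e2, smul_zero, add_zero]
  have hy0 : BoxCX.cy b q0 = BoxCX.yg b (z, ξ0) + s0 * σ := by
    have : BoxCX.yg b (z, ξ0) = BoxCX.cy b p0 := rfl
    rw [this]
    unfold BoxCX.cy
    rw [hκq, add_sub_right_comm, map_add, map_smul, b.l2_e2, smul_eq_mul, mul_one]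
  have hΦ : ∀ z1 ∈ b.D, ContinuousAt (fun y : (ℝ × ℝ) × M =>
      (BoxCX.yg b (y.1, BoxCX.cx b y.2) - BoxCX.cy b y.2) * σ) (z1, q0) := by
    intro z1 hz1
    refine ContinuousAt.mul (ContinuousAt.sub ?_ ?_) continuousAt_const
    · refine ContinuousAt.comp (f := fun y : (ℝ × ℝ) × M => (y.1, BoxCX.cx b y.2))
        (BoxCX.yg_cont b ⟨hz1, by simp only [hx0]; exact hξ0⟩) ?_
      exact continuousAt_fst.prodMk
        (ContinuousAt.comp (f := Prod.snd) (BoxCX.cx_cont b hq0s) continuousAt_snd)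
    · exact ContinuousAt.comp (f := Prod.snd) (BoxCX.cy_cont b hq0s) continuousAt_snd
  have E1 := (hΦ z hz).eventually (gt_mem_nhds (show (BoxCX.yg b (z, BoxCX.cx b q0)
      - BoxCX.cy b q0) * σ < 0 by
    rw [hx0, hy0]
    nlinarith [hs0.1]))
  have E2 := (hΦ z' hz').eventually (lt_mem_nhds (show 0 < (BoxCX.yg b (z', BoxCX.cx b q0)
      - BoxCX.cy b q0) * σ by
    rw [hx0, hy0, ← sub_sub, ← hσ]
    nlinarith [hs0.2]))
  rw [nhds_prod_eq, eventually_prod_iff] at E1 E2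
  obtain ⟨V, hV, O1, hO1, k1⟩ := E1
  obtain ⟨V', hV', O2, hO2, k2⟩ := E2
  have E3 : ∀ᶠ q in 𝓝 q0, q ∈ (κ (w.1 0)).source := (source_open _).mem_nhds hq0s
  have E4 : ∀ᶠ q in 𝓝 q0, BoxCX.cx b q ∈ Ioo (-(b.c / 2)) (b.c / 2) :=
    BoxCX.cx_cont b hq0s (isOpen_Ioo.mem_nhds (by rwa [hx0]))
  obtain ⟨O, hO, hOo, hOq⟩ := _root_.eventually_nhds_iff.1 (hO1.and (hO2.and (E3.and E4)))
  refine ⟨{x | V x}, hV, {x | V' x}, hV', O, hOo, ⟨q0, hOq⟩, ?_⟩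
  intro β a a' haa hβ hmap ha ha' q hq
  obtain ⟨m1, m2, m3, m4⟩ := hO q hq
  have hcont : ContinuousOn
      (fun s => (BoxCX.yg b (β s, BoxCX.cx b q) - BoxCX.cy b q) * σ) (Icc a a') := by
    intro s hs
    refine ContinuousWithinAt.mul (ContinuousWithinAt.sub ?_ continuousWithinAt_const)
      continuousWithinAt_const
    exact ContinuousAt.comp_continuousWithinAt (f := fun s => (β s, BoxCX.cx b q))
      (BoxCX.yg_cont b ⟨hmap hs, m4⟩) ((hβ s hs).prodMk continuousWithinAt_const)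
  obtain ⟨s, hs, h0⟩ := intermediate_value_Ioo haa hcont ⟨k1 ha m1, k2 ha' m2⟩
  have hsD : β s ∈ b.D := hmap (Ioo_subset_Icc_self hs)
  have r1 := BoxCX.rt_spec b (y := (β s, BoxCX.cx b q)) ⟨hsD, m4⟩
  refine ⟨s, hs, _, r1.1, BoxCX.eq_of_coord b
    (b.Z_stay hsD (BoxCX.rt_le b (y := (β s, BoxCX.cx b q)) ⟨hsD, m4⟩)).1 m3 r1.2 ?_⟩
  exact sub_eq_zero.1 ((mul_eq_zero.1 h0).resolve_right hσ0)

end PreBox

end Pool.Agent.GeoFin
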