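import Mathlib
import Pool.Agent.P.MP_365c00_gt.Abs

/-!
Counting images of geodesic arcs (paper sec. 1, 6 and small facts of sec. 5).
-/

set_option linter.unusedSectionVars false

open Set Filter Topology

namespace Pool.Agent.GeoFin

namespace CountX

theorem finite_of_isolated {X : Type*} [TopologicalSpace X] {K : Set X} (hK : IsCompact K)
    (h : ∀ x ∈ K, ∀ᶠ y in 𝓝 x, y ∈ K → y = x) : K.Finite := by
  obtain ⟨t, -, hsub⟩ := hK.elim_nhds_subcover (fun x => {y | y ∈ K → y = x}) h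
  refine t.finite_toSet.subset fun y hy => ?_
  obtain ⟨x, hx, hxy⟩ := mem_iUnion₂.1 (hsub hy)
  rw [hxy hy]
  exact hx

variable {M Y : Type*} [TopologicalSpace M] [TopologicalSpace Y]

theorem locinj_at (S : Sys M Y) (u : Y) (r : ℝ) :
    ∃ ε > 0, InjOn (S.ev u) (Ioo (r - ε) (r + ε)) := by
  obtain ⟨ε, hε, h⟩ := S.locinj (S.φ r u)
  refine ⟨ε, hε, fun a ha b hb hab => ?_⟩
  have : a - r = b - r := by
    refine h ⟨by linarith [ha.1], by linarith [ha.2]⟩ ⟨by linarith [hb.1], by linarith [hb.2]⟩ ?_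
    rw [S.ev_φ, S.ev_φ, sub_add_cancel, sub_add_cancel, hab]
  linarith

end CountX

open CountX

variable {M Y : Type*} [TopologicalSpace M] [TopologicalSpace Y] [T2Space M]

theorem Sys.times_finite (S : Sys M Y) (u : Y) (p : M) (T : ℝ) :
    {r | r ∈ Icc 0 T ∧ S.ev u r = p}.Finite := by
  refine finite_of_isolated
    (isCompact_Icc.inter_right (isClosed_eq (S.continuous_ev u) continuous_const)) ?_
  intro r hr
  obtain ⟨ε, hε, h⟩ := locinj_at S u r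
  have hm : r ∈ Ioo (r - ε) (r + ε) := ⟨by linarith, by linarith⟩
  filter_upwards [Ioo_mem_nhds hm.1 hm.2] with s hs hsK
  exact h hs hm (hsK.2.trans hr.2.symm)

theorem CountX.starts_finite (S : Sys M Y) (u' : Y) (p : M) (T : ℝ) :
    {u | S.ev u 0 = p ∧ ∃ ε > 0, S.ev u '' Icc 0 ε ⊆ S.ev u' '' Icc 0 T}.Finite := by
  have hR := S.times_finite u' p T
  have hfin := (hR.image fun r s => S.ev u' (r + s)).union (hR.image fun r s => S.ev u' (r - s))
  refine (hfin.preimage S.ev_inj.injOn).subset ?_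
  rintro u ⟨hu, ε, hε, hsub⟩
  obtain ⟨r, hr, h | h⟩ := S.dir u u' T ε hε hsub
  · exact Or.inl ⟨r, ⟨hr, by rw [← hu, h, add_zero]⟩, (funext h).symm⟩
  · exact Or.inr ⟨r, ⟨hr, by rw [← hu, h, sub_zero]⟩, (funext h).symm⟩

/-- (N1) -/
theorem Sys.not_fin_of_infinite (S : Sys M Y) {p q : M}
    (h : {u | S.ev u 0 = p ∧ ∃ t > 0, S.ev u t = q}.Infinite) : ¬ S.Fin p q := by
  intro hF
  refine h ((hF.biUnion (t := fun A => {u | S.ev u 0 = p ∧ ∃ ε > 0, S.ev u '' Icc 0 ε ⊆ A})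
    ?_).subset ?_)
  · rintro A ⟨u', T, -, -, -, rfl⟩
    exact starts_finite S u' p T
  · rintro u ⟨hu, t, ht, hq⟩
    exact mem_iUnion₂.2 ⟨_, ⟨u, t, ht, hu, hq, rfl⟩, hu, t, ht, Subset.rfl⟩

/-- (N2) -/
theorem Sys.per_of_fin (S : Sys M Y) {p q : M} {u : Y} (hF : S.Fin p q) (hu : S.ev u 0 = p)
    (h : ∀ T : ℝ, ∃ t > T, S.ev u t = q) : S.Per u := by
  have hfin : {A : Set M | ∃ t, 0 < t ∧ S.ev u t = q ∧ A = S.ev u '' Icc 0 t}.Finite :=
    hF.subset fun A ⟨t, h1, h2, h3⟩ => ⟨u, t, h1, hu, h2, h3⟩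
  have := hfin.to_subtype
  choose τ hτ using fun A : {A : Set M | ∃ t, 0 < t ∧ S.ev u t = q ∧ A = S.ev u '' Icc 0 t} => A.2
  obtain ⟨T, hT⟩ := (finite_range τ).bddAbove
  have hall : ∀ s, 0 ≤ s → S.ev u s ∈ S.ev u '' Icc 0 T := by
    intro s hs
    obtain ⟨t, ht, hq⟩ := h s
    have h1 := (hτ ⟨_, t, hs.trans_lt ht, hq, rfl⟩).2.2
    have h2 : S.ev u s ∈ S.ev u '' Icc 0 t := ⟨s, ⟨hs, ht.le⟩, rfl⟩
    simp only at h1
    rw [h1] at h2
    exact image_mono (Icc_subset_Icc_right (hT ⟨_, rfl⟩)) h2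
  obtain ⟨r, hr, h1 | h1⟩ := S.dir (S.φ (|T| + 1) u) u T 1 one_pos (by
    rintro _ ⟨s, hs, rfl⟩
    rw [S.ev_φ]
    exact hall _ (by linarith [hs.1, abs_nonneg T]))
  · refine ⟨|T| + 1 - r, by linarith [hr.2, le_abs_self T], S.ev_inj (funext fun s => ?_)⟩
    have := h1 (s - r)
    rw [S.ev_φ, add_sub_cancel] at this
    rw [S.ev_φ, ← this]
    congr 1
    ring
  · exfalso
    obtain ⟨ε, hε, hinj⟩ := locinj_at S u ((r + (|T| + 1)) / 2)
    have h2 := h1 ((r - (|T| + 1)) / 2 + ε / 2)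
    rw [S.ev_φ] at h2
    have := hinj ⟨by linarith, by linarith⟩ ⟨by linarith, by linarith⟩ h2
    linarith

/-- sec. 6 -/
theorem Sys.fin_of_discrete [CompactSpace Y] (S : Sys M Y) {τ : ℝ} (hτ : 0 < τ)
    (hper : ∀ u, S.φ τ u = u) {p q : M}
    (h : ∀ u t, S.ev u 0 = p → S.ev u t = q →
      ∀ᶠ x in 𝓝 (u, t), S.ev x.1 0 = p → S.ev x.1 x.2 = q → x = (u, t)) : S.Fin p q := by
  have hK : {x : Y × ℝ | x ∈ (univ : Set Y) ×ˢ Icc 0 τ ∧
      (S.ev x.1 0 = p ∧ S.ev x.1 x.2 = q)}.Finite := by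
    refine finite_of_isolated ((isCompact_univ.prod isCompact_Icc).inter_right
      ((isClosed_eq (S.continuous_π.comp continuous_fst) continuous_const).inter
        (isClosed_eq S.ev_cont continuous_const))) ?_
    rintro ⟨u, t⟩ hx
    filter_upwards [h u t hx.2.1 hx.2.2] with y hy hyK
    exact hy hyK.2.1 hyK.2.2
  refine ((hK.image fun x => S.ev x.1 '' Icc 0 x.2).union
    (hK.image fun x => range (S.ev x.1))).subset ?_
  rintro A ⟨u, t, ht, hu, hq, rfl⟩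
  rcases le_total t τ with h1 | h1
  · exact Or.inl ⟨(u, t), ⟨⟨mem_univ _, ht.le, h1⟩, hu, hq⟩, rfl⟩
  · have hP : Function.Periodic (S.ev u) τ := fun s => by rw [← S.ev_φ, hper]
    obtain ⟨t', ht', e⟩ := hP.exists_mem_Ico₀ hτ t
    refine Or.inr ⟨(u, t'), ⟨⟨mem_univ _, ht'.1, ht'.2.le⟩, hu, e.symm.trans hq⟩, ?_⟩
    refine Subset.antisymm ?_ (image_subset_range _ _)
    rintro _ ⟨s, rfl⟩
    obtain ⟨s', hs', e'⟩ := hP.exists_mem_Ico₀ hτ s
    exact ⟨s', ⟨hs'.1, hs'.2.le.trans h1⟩, e'.symm⟩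

/-- two periods of one geodesic are commensurable -/
theorem Sys.period_ratio (S : Sys M Y) [T2Space Y] {u : Y} {s t : ℝ} (hs : 0 < s) (ht : 0 < t)
    (h1 : S.φ s u = u) (h2 : S.φ t u = u) : ∃ m n : ℕ, 0 < m ∧ 0 < n ∧ m * s = n * t := by
  let H : AddSubgroup ℝ :=
    { carrier := {a | S.φ a u = u}
      zero_mem' := S.φ_zero u
      add_mem' := fun {a b} ha hb => by
        simp only [mem_ofPred_eq] at ha hb ⊢
        rw [S.φ_add, hb, ha]
      neg_mem' := fun {a} ha => by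
        simp only [mem_ofPred_eq] at ha ⊢
        conv_lhs => rw [← ha]
        rw [← S.φ_add, neg_add_cancel, S.φ_zero] }
  obtain ⟨ε, hε, hinj⟩ := S.locinj u
  have hd : Disjoint (H : Set ℝ) (Ioo 0 ε) := by
    refine disjoint_left.2 fun a ha ha' => ?_
    have e : S.ev u a = S.ev u 0 := by
      rw [← S.ev_φ_zero, show S.φ a u = u from ha]
    exact ha'.1.ne' (hinj ⟨by linarith [ha'.1], ha'.2⟩ ⟨by linarith, hε⟩ e)
  obtain ⟨b, hb⟩ := AddSubgroup.cyclic_of_isolated_zero hε hd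
  have hsH : s ∈ H := h1
  have htH : t ∈ H := h2
  rw [hb, AddSubgroup.mem_closure_singleton] at hsH htH
  obtain ⟨k, hk⟩ := hsH
  obtain ⟨l, hl⟩ := htH
  rw [zsmul_eq_mul] at hk hl
  have hk0 : k ≠ 0 := by
    rintro rfl
    simp at hk
    exact hs.ne hk
  have hl0 : l ≠ 0 := by
    rintro rfl
    simp at hl
    exact ht.ne hl
  refine ⟨l.natAbs, k.natAbs, Int.natAbs_pos.2 hl0, Int.natAbs_pos.2 hk0, ?_⟩
  rw [Nat.cast_natAbs, Nat.cast_natAbs, ← abs_of_pos hs, ← abs_of_pos ht, ← hk, ← hl,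
    Int.cast_abs, Int.cast_abs, abs_mul, abs_mul]
  ring

theorem Sys.φ_nat_mul (S : Sys M Y) {u : Y} {s : ℝ} (h : S.φ s u = u) (m : ℕ) :
    S.φ (m * s) u = u := by
  induction m with
  | zero => rw [Nat.cast_zero, zero_mul, S.φ_zero]
  | succ m ih => rw [Nat.cast_succ, add_mul, one_mul, S.φ_add, h, ih]

/-- a closed orbit meets the transversal of a box in finitely many points -/
theorem Box.finite_of_per {S : Sys M Y} (b : Box S) {u : Y} (hu : S.Per u) :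
    {z | z ∈ b.D ∧ ∃ t, S.φ t u = b.Z z}.Finite := by
  obtain ⟨σ, hσ, hper⟩ := hu
  have hP : Function.Periodic (fun t => S.φ t u) σ := fun t => by
    simp only [S.φ_add, hper]
  have key : ∀ z, ∃ t, z ∈ {z | z ∈ b.D ∧ ∃ t, S.φ t u = b.Z z} →
      t ∈ Ico 0 σ ∧ S.φ t u = b.Z z := by
    intro z
    by_cases hz : z ∈ {z | z ∈ b.D ∧ ∃ t, S.φ t u = b.Z z}
    · obtain ⟨t, ht⟩ := hz.2
      obtain ⟨t', ht', e⟩ := hP.exists_mem_Ico₀ hσ t
      exact ⟨t', fun _ => ⟨ht', e.symm.trans ht⟩⟩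
    · exact ⟨0, fun h => absurd h hz⟩
  choose t ht using key
  have hc : 0 < 2 * b.c := by linarith [b.c_pos]
  refine Set.Finite.of_injOn (f := fun z => ⌊t z / (2 * b.c)⌋)
    (t := Icc 0 ⌊σ / (2 * b.c)⌋) (fun z hz => ⟨?_, ?_⟩) (fun z hz z' hz' e => ?_)
    (finite_Icc _ _)
  · exact Int.floor_nonneg.2 (div_nonneg (ht z hz).1.1 hc.le)
  · exact Int.floor_le_floor (div_le_div_of_nonneg_right (ht z hz).1.2.le hc.le)
  · have h1 := Int.abs_sub_lt_one_of_floor_eq_floor e.symm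
    rw [← sub_div, abs_div, abs_of_pos hc, div_lt_one hc] at h1
    refine (b.uniq z hz.1 z' hz'.1 _ h1 ?_).2
    rw [← (ht z hz).2, ← S.φ_add, sub_add_cancel, (ht z' hz').2]

end Pool.Agent.GeoFin
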