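import Mathlib
import Pool.Agent.P.MP_365c00_gt.Count

/-!
The chain lemma (paper sec. 2).
-/

set_option linter.unusedSectionVars false

open Set Filter Topology Metric

namespace Pool.Agent.GeoFin

variable {M Y : Type*} [TopologicalSpace M] [TopologicalSpace Y]

/-- a chain of holonomy maps between finitely many boxes -/
structure Chain {S : Sys M Y} (box : Y → Box S) where
  w : ℕ → Y
  fin : (range w).Finite
  K : Y → Set (ℝ × ℝ)
  K_cpt : ∀ j, IsCompact (K (w j))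
  K_sub : ∀ j, K (w j) ⊆ (box (w j)).D
  Ω : ℕ → Set (ℝ × ℝ)
  Ω_sub : ∀ j, Ω j ⊆ (box (w j)).D
  g : ℕ → ℝ × ℝ → ℝ × ℝ
  g_cont : ∀ j, ContinuousOn (g j) (Ω j)
  g_maps : ∀ j, MapsTo (g j) (Ω j) (K (w (j + 1)))
  a0 : ℝ
  a0_pos : 0 < a0
  g_time : ∀ j, ∀ z ∈ Ω j, ∃ t, a0 ≤ t ∧ (box (w (j + 1))).Z (g j z) = S.φ t ((box (w j)).Z z)

/-- iterates along the chain -/
def Chain.it {S : Sys M Y} {box : Y → Box S} (C : Chain box) (j : ℕ) (z : ℝ × ℝ) : ℝ × ℝ :=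
  Nat.rec z (fun i x => C.g i x) j

theorem Chain.it_zero {S : Sys M Y} {box : Y → Box S} (C : Chain box) (z : ℝ × ℝ) :
    C.it 0 z = z := rfl

theorem Chain.it_succ {S : Sys M Y} {box : Y → Box S} (C : Chain box) (j : ℕ) (z : ℝ × ℝ) :
    C.it (j + 1) z = C.g j (C.it j z) := rfl

/-- an arc in the fibre over `p`, read in the first box, whose centre follows the chain -/
structure Chain.Arc {S : Sys M Y} {box : Y → Box S} (C : Chain box) (p : M) (e : ℝ → Y)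
    (β : ℝ → ℝ × ℝ) (s0 r d1 : ℝ) : Prop where
  r_pos : 0 < r
  d_pos : 0 < d1
  inj : InjOn e (Icc (s0 - r) (s0 + r))
  base : ∀ s ∈ Icc (s0 - r) (s0 + r), S.ev (e s) 0 = p
  cont : ContinuousOn β (Icc (s0 - r) (s0 + r))
  maps : MapsTo β (Icc (s0 - r) (s0 + r)) (box (C.w 0)).D
  time : ∃ C0 : ℝ, ∀ s ∈ Icc (s0 - r) (s0 + r), ∃ t, |t| ≤ C0 ∧
    (box (C.w 0)).Z (β s) = S.φ t (e s)
  ball_sub : ∀ j, ball (C.it j (β s0)) d1 ⊆ C.Ω j

variable [T2Space M] {S : Sys M Y} {box : Y → Box S} {C : Chain box} {p : M} {e : ℝ → Y}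
  {β : ℝ → ℝ × ℝ} {s0 r d1 : ℝ}

namespace ChainX

theorem mem_D (h : C.Arc p e β s0 r d1) {s : ℝ} (hs : s ∈ Icc (s0 - r) (s0 + r)) {j : ℕ}
    (hj : ∀ i < j, C.it i (β s) ∈ C.Ω i) : C.it j (β s) ∈ (box (C.w j)).D := by
  cases j with
  | zero => exact h.maps hs
  | succ j => exact C.K_sub _ (C.g_maps j (hj j (Nat.lt_succ_self j)))

theorem mem_K {z : ℝ × ℝ} {j : ℕ} (h0 : 0 < j) (hj : ∀ i < j, C.it i z ∈ C.Ω i) :
    C.it j z ∈ C.K (C.w j) := by
  cases j with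
  | zero => exact absurd h0 (lt_irrefl _)
  | succ j => exact C.g_maps j (hj j (Nat.lt_succ_self j))

theorem time_it {z : ℝ × ℝ} : ∀ j : ℕ, (∀ i < j, C.it i z ∈ C.Ω i) →
    ∃ t, j * C.a0 ≤ t ∧ (box (C.w j)).Z (C.it j z) = S.φ t ((box (C.w 0)).Z z)
  | 0, _ => ⟨0, by simp, (S.φ_zero _).symm⟩
  | j + 1, hj => by
    obtain ⟨t, ht, e1⟩ := time_it j fun i hi => hj i (hi.trans (Nat.lt_succ_self j))
    obtain ⟨t', ht', e2⟩ := C.g_time j _ (hj j (Nat.lt_succ_self j))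
    refine ⟨t' + t, by push_cast; linarith, ?_⟩
    rw [C.it_succ, e2, e1, S.φ_add]

theorem cont_it {J : Set ℝ} (hβ : ContinuousOn β J) : ∀ j : ℕ,
    (∀ i < j, ∀ s ∈ J, C.it i (β s) ∈ C.Ω i) → ContinuousOn (fun s => C.it j (β s)) J
  | 0, _ => hβ
  | j + 1, hj =>
    (C.g_cont j).comp (cont_it hβ j fun i hi => hj i (hi.trans (Nat.lt_succ_self j)))
      fun s hs => hj j (Nat.lt_succ_self j) s hs

/-- arcs whose far iterates have ends far apart sweep out an open set at late times -/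
theorem sweep (h : C.Arc p e β s0 r d1) {d : ℝ} (hd : 0 < d) (j : ℕ → ℕ) (a b : ℕ → ℝ)
    (hj : ∀ n, n ≤ j n) (hab : ∀ n, a n ≤ b n)
    (hI : ∀ n, Icc (a n) (b n) ⊆ Icc (s0 - r) (s0 + r))
    (hΩ : ∀ n, ∀ i < j n, ∀ s ∈ Icc (a n) (b n), C.it i (β s) ∈ C.Ω i)
    (hfar : ∀ n, d ≤ dist (C.it (j n) (β (a n))) (C.it (j n) (β (b n)))) :
    ∃ O : Set M, IsOpen O ∧ O.Nonempty ∧ ∀ q ∈ O, ∀ (N : ℕ) (T : ℝ), ∃ n ≥ N,
      ∃ s ∈ Ioo (a n) (b n), ∃ t > T, S.ev (e s) t = q := by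
  let U : Ultrafilter ℕ := Ultrafilter.of atTop
  have hU : (U : Filter ℕ) ≤ atTop := Ultrafilter.of_le _
  obtain ⟨w, ⟨j0, hw⟩, hpure⟩ := Ultrafilter.eq_pure_of_finite_mem
    (f := U.map fun n => C.w (j n)) C.fin
    (Ultrafilter.mem_map.2 (univ_mem' fun n => mem_range_self _))
  have hwU : ∀ᶠ n in (U : Filter ℕ), C.w (j n) = w := by
    have : ({w} : Set Y) ∈ U.map fun n => C.w (j n) := by
      rw [hpure]; exact Ultrafilter.mem_pure.2 rfl
    exact this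
  have hK : IsCompact (C.K w) := hw ▸ C.K_cpt j0
  have hKD : C.K w ⊆ (box w).D := hw ▸ C.K_sub j0
  have hlim : ∀ x : ℕ → ℝ, (∀ n, x n ∈ Icc (a n) (b n)) →
      ∃ z ∈ C.K w, Tendsto (fun n => C.it (j n) (β (x n))) U (𝓝 z) := by
    intro x hx
    refine hK.ultrafilter_le_nhds (U.map fun n => C.it (j n) (β (x n))) ?_
    rw [le_principal_iff]
    change ∀ᶠ n in (U : Filter ℕ), C.it (j n) (β (x n)) ∈ C.K w
    filter_upwards [hwU, hU (eventually_ge_atTop 1)] with n h1 h2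
    rw [← h1]
    exact mem_K (lt_of_lt_of_le h2 (hj n)) fun i hi => hΩ n i hi _ (hx n)
  obtain ⟨z, hz, hza⟩ := hlim a fun n => left_mem_Icc.2 (hab n)
  obtain ⟨z', hz', hzb⟩ := hlim b fun n => right_mem_Icc.2 (hab n)
  have hne : z ≠ z' := by
    have : d ≤ dist z z' := ge_of_tendsto' (hza.dist hzb) hfar
    exact dist_pos.1 (hd.trans_le this)
  obtain ⟨V, hV, V', hV', O, hO, hOne, hsw⟩ := (box w).sweep z (hKD hz) z' (hKD hz') hne
  obtain ⟨C0, hC0⟩ := h.time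
  refine ⟨O, hO, hOne, fun q hq N T => ?_⟩
  have hbig : ∀ᶠ n : ℕ in atTop, T + C0 + (box w).c ≤ n * C.a0 :=
    (tendsto_natCast_atTop_atTop.atTop_mul_const C.a0_pos).eventually_ge_atTop _
  obtain ⟨n, h1, h2, h3, h4, h5⟩ := (hwU.and ((hza.eventually_mem hV).and
    ((hzb.eventually_mem hV').and
    (((eventually_ge_atTop N).filter_mono hU).and (hbig.filter_mono hU))))).exists
  obtain ⟨s, hs, t, ht, hq'⟩ := hsw (fun s => C.it (j n) (β s)) (a n) (b n) (hab n)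
    (cont_it (h.cont.mono (hI n)) _ (hΩ n))
    (fun s hs => h1 ▸ mem_D h (hI n hs) fun i hi => hΩ n i hi s hs) h2 h3 q hq
  have hs' := Ioo_subset_Icc_self hs
  obtain ⟨t1, ht1, e1⟩ := time_it (C := C) (j n) fun i hi => hΩ n i hi s hs'
  obtain ⟨t0, ht0, e0⟩ := hC0 s (hI n hs')
  refine ⟨n, h4, s, hs, t + t1 + t0, ?_, ?_⟩
  · have h6 : (n : ℝ) * C.a0 ≤ j n * C.a0 :=
      mul_le_mul_of_nonneg_right (by exact_mod_cast hj n) C.a0_pos.le
    have h7 := abs_lt.1 ht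
    have h8 := abs_le.1 ht0
    have h9 : T + C0 + (box w).c ≤ n * C.a0 := h5
    linarith [h7.1, h8.1]
  · rw [← h1, e1, e0, S.ev_φ, S.ev_φ] at hq'
    exact hq'

theorem near_upto (h : C.Arc p e β s0 r d1) {d : ℝ} (hd : 0 < d) (hd1 : d ≤ d1) : ∀ N : ℕ,
    ∃ η > 0, η ≤ r ∧ ∀ s, |s - s0| < η → ∀ i < N, dist (C.it i (β s)) (C.it i (β s0)) < d
  | 0 => ⟨r, h.r_pos, le_rfl, fun _ _ i hi => absurd hi (Nat.not_lt_zero i)⟩
  | N + 1 => by
    obtain ⟨η, hη, hηr, H⟩ := near_upto h hd hd1 N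
    have hsub : ball s0 η ⊆ Icc (s0 - r) (s0 + r) := fun s hs => by
      have := abs_lt.1 (mem_ball_iff_norm.1 hs)
      exact ⟨by linarith [this.1], by linarith [this.2]⟩
    have hc : ContinuousAt (fun s => C.it N (β s)) s0 :=
      (cont_it (h.cont.mono hsub) N fun i hi s hs =>
        h.ball_sub i (mem_ball.2 ((H s (mem_ball_iff_norm.1 hs) i hi).trans_le hd1))).continuousAt
        (ball_mem_nhds s0 hη)
    obtain ⟨η', hη', H'⟩ := Metric.continuousAt_iff.1 hc d hd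
    refine ⟨min η η', lt_min hη hη', (min_le_left _ _).trans hηr, fun s hs i hi => ?_⟩
    rcases Nat.lt_succ_iff_lt_or_eq.1 hi with hi | rfl
    · exact H s (hs.trans_le (min_le_left _ _)) i hi
    · exact H' (hs.trans_le (min_le_right _ _))

theorem abs_lt_of_mem {s s0 η x : ℝ} (hs : |s - s0| < η) (hx : x ∈ Icc (min s s0) (max s s0)) :
    |x - s0| < η := by
  have := abs_lt.1 hs
  rcases le_total s s0 with h | h
  · rw [min_eq_left h, max_eq_right h] at hx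
    exact abs_lt.2 ⟨by linarith [hx.1], by linarith [hx.2]⟩
  · rw [min_eq_right h, max_eq_left h] at hx
    exact abs_lt.2 ⟨by linarith [hx.1], by linarith [hx.2]⟩

theorem dist_min_max {X : Type*} [PseudoMetricSpace X] (f : ℝ → X) (s s0 : ℝ) :
    dist (f (min s s0)) (f (max s s0)) = dist (f s) (f s0) := by
  rcases le_total s s0 with h | h
  · rw [min_eq_left h, max_eq_right h]
  · rw [min_eq_right h, max_eq_left h, dist_comm]

theorem ne_of_mem {s s0 x : ℝ} (hx : x ∈ Ioo (min s s0) (max s s0)) : x ≠ s0 := by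
  rcases le_total s s0 with h | h
  · rw [min_eq_left h, max_eq_right h] at hx
    exact hx.2.ne
  · rw [min_eq_right h, max_eq_left h] at hx
    exact hx.1.ne'

theorem mem_I {s s0 η r : ℝ} (hη : η ≤ r) (hs : |s - s0| < η) : s ∈ Icc (s0 - r) (s0 + r) := by
  have := abs_lt.1 hs
  exact ⟨by linarith [this.1], by linarith [this.2]⟩

theorem finite_hits (h : C.Arc p e β s0 r d1) {q : M} (hF : S.Fin p q) :
    {s | s ∈ Icc (s0 - r) (s0 + r) ∧ ∃ t > 0, S.ev (e s) t = q}.Finite := by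
  have hfin : {u | S.ev u 0 = p ∧ ∃ t > 0, S.ev u t = q}.Finite := by
    by_contra hcon
    exact S.not_fin_of_infinite hcon hF
  refine Set.Finite.of_injOn (f := e) (fun s hs => ?_) (h.inj.mono fun s hs => hs.1) hfin
  exact ⟨h.base s hs.1, hs.2⟩

theorem stable_le (h : C.Arc p e β s0 r d1) (hp : S.Good p) {d : ℝ} (hd : 0 < d) (hd1 : d ≤ d1) :
    ∃ η > 0, η ≤ r ∧ ∀ s, |s - s0| < η → ∀ j, dist (C.it j (β s)) (C.it j (β s0)) < d := by
  classical
  by_contra hcon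
  push Not at hcon
  have key : ∀ N : ℕ, ∃ (j : ℕ) (s η : ℝ), N ≤ j ∧ η ≤ r ∧ η ≤ 1 / ((N : ℝ) + 1) ∧ |s - s0| < η ∧
      (∀ i < j, ∀ x, |x - s0| < η → dist (C.it i (β x)) (C.it i (β s0)) < d) ∧
      d ≤ dist (C.it j (β s)) (C.it j (β s0)) := by
    intro N
    obtain ⟨η, hη, hηr, H⟩ := near_upto h hd hd1 N
    have hη' : 0 < min η (1 / ((N : ℝ) + 1)) := lt_min hη (by positivity)
    have hex : ∃ j, ∃ s, |s - s0| < min η (1 / ((N : ℝ) + 1)) ∧
        d ≤ dist (C.it j (β s)) (C.it j (β s0)) := by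
      obtain ⟨s, hs, j, hj⟩ := hcon _ hη' ((min_le_left _ _).trans hηr)
      exact ⟨j, s, hs, hj⟩
    obtain ⟨s, hs, hfar⟩ := Nat.find_spec hex
    refine ⟨Nat.find hex, s, _, ?_, (min_le_left _ _).trans hηr, min_le_right _ _, hs,
      fun i hi x hx => ?_, hfar⟩
    · by_contra hlt
      exact absurd (H s (hs.trans_le (min_le_left _ _)) _ (not_le.1 hlt)) (not_lt.2 hfar)
    · by_contra hge
      exact Nat.find_min hex hi ⟨x, hx, not_lt.1 hge⟩
  choose j s η hj hηr hηN hs hin hfar using key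
  obtain ⟨O, hO, hOne, hsw⟩ := sweep h hd j (fun n => min (s n) s0) (fun n => max (s n) s0) hj
    (fun n => min_le_max) (fun n x hx => mem_I (hηr n) (abs_lt_of_mem (hs n) hx))
    (fun n i hi x hx => h.ball_sub i
      (mem_ball.2 ((hin n i hi x (abs_lt_of_mem (hs n) hx)).trans_le hd1)))
    (fun n => by rw [dist_min_max fun x => C.it (j n) (β x)]; exact hfar n)
  refine S.open_pos O hO hOne (mem_of_superset hp fun q hF hq => ?_)
  have hfin := (finite_hits h hF).sdiff (t := {s0})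
  obtain ⟨ε, hε, hball⟩ := Metric.isOpen_iff.1 hfin.isClosed.isOpen_compl s0
    (fun hm => hm.2 rfl)
  obtain ⟨N, hN⟩ := exists_nat_one_div_lt hε
  obtain ⟨n, hn, x, hx, t, ht, hq'⟩ := hsw q hq N 0
  have hx' := abs_lt_of_mem (hs n) (Ioo_subset_Icc_self hx)
  refine hball (a := x) (mem_ball_iff_norm.2 ?_) ⟨⟨mem_I (hηr n) hx', t, ht, hq'⟩, ne_of_mem hx⟩
  refine (hx'.trans_le ((hηN n).trans ?_)).trans hN
  exact Nat.one_div_le_one_div hn

end ChainX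

open ChainX

/-- (C1) -/
theorem Chain.Arc.stable (h : C.Arc p e β s0 r d1) (hp : S.Good p) {d : ℝ} (hd : 0 < d) :
    ∃ η > 0, η ≤ r ∧ ∀ s, |s - s0| < η → ∀ j, dist (C.it j (β s)) (C.it j (β s0)) < d := by
  obtain ⟨η, hη, hηr, H⟩ := stable_le h hp (lt_min hd h.d_pos) (min_le_right _ _)
  exact ⟨η, hη, hηr, fun s hs j => (H s hs j).trans_le (min_le_left _ _)⟩

/-- (C2) -/
theorem Chain.Arc.asymptotic (h : C.Arc p e β s0 r d1) (hp : S.Good p)
    (hc : {s | s ∈ Icc (s0 - r) (s0 + r) ∧ S.Per (e s)}.Countable) :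
    ∃ η > 0, η ≤ r ∧ ∀ s, |s - s0| < η → (∀ j, dist (C.it j (β s)) (C.it j (β s0)) < d1) ∧
      Tendsto (fun j => dist (C.it j (β s)) (C.it j (β s0))) atTop (𝓝 0) := by
  obtain ⟨η, hη, hηr, H⟩ := h.stable hp h.d_pos
  refine ⟨η, hη, hηr, fun s hs => ⟨H s hs, ?_⟩⟩
  by_contra hcon
  rw [Metric.tendsto_atTop] at hcon
  push Not at hcon
  obtain ⟨d, hd, hfar⟩ := hcon
  choose j hj hfar using hfar
  obtain ⟨O, hO, hOne, hsw⟩ := sweep h hd j (fun _ => min s s0) (fun _ => max s s0) hj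
    (fun _ => min_le_max) (fun _ x hx => mem_I hηr (abs_lt_of_mem hs hx))
    (fun _ i _ x hx => h.ball_sub i (mem_ball.2 (H x (abs_lt_of_mem hs hx) i)))
    (fun n => by
      rw [dist_min_max fun x => C.it (j n) (β x)]
      simpa using hfar n)
  have hnull : ∀ᶠ q in S.ae, ∀ x ∈ {s | s ∈ Icc (s0 - r) (s0 + r) ∧ S.Per (e s)},
      q ∉ range (S.ev (e x)) :=
    (eventually_countable_ball hc).2 fun x _ => S.null_range (e x)
  refine S.open_pos O hO hOne (mem_of_superset (hp.and hnull) fun q ⟨hF, hq0⟩ hq => ?_)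
  have hfin := finite_hits h hF
  have hex : ∃ x ∈ {s | s ∈ Icc (s0 - r) (s0 + r) ∧ ∃ t > 0, S.ev (e s) t = q},
      ∀ T : ℝ, ∃ t > T, S.ev (e x) t = q := by
    by_contra hno
    push Not at hno
    choose! T hT using hno
    obtain ⟨B, hB⟩ := (hfin.image T).bddAbove
    obtain ⟨-, -, x, hx, t, ht, hq'⟩ := hsw q hq 0 (max B 0)
    have hxm : x ∈ {s | s ∈ Icc (s0 - r) (s0 + r) ∧ ∃ t > 0, S.ev (e s) t = q} :=
      ⟨mem_I hηr (abs_lt_of_mem hs (Ioo_subset_Icc_self hx)), t,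
        (le_max_right _ _).trans_lt ht, hq'⟩
    exact hT x hxm t (((hB ⟨x, hxm, rfl⟩).trans (le_max_left _ _)).trans_lt ht) hq'
  obtain ⟨x, hx, hT⟩ := hex
  obtain ⟨t, -, ht⟩ := hx.2
  exact hq0 x ⟨hx.1, S.per_of_fin hF (h.base x hx.1) hT⟩ ⟨t, ht⟩

end Pool.Agent.GeoFin
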