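import Mathlib
import Pool.Agent.P.MP_365c00_gt.Chain
import Pool.Agent.P.MP_365c00_gt.Area

/-!
Periodic geodesics are dense in almost every fibre (paper sec. 3).
-/

open Set Filter Topology Metric

namespace Pool.Agent.GeoFin

variable {M Y : Type*} [TopologicalSpace M] [TopologicalSpace Y] [T2Space M] {S : Sys M Y}

namespace DenseX

omit [T2Space M] in
theorem ctr_N (A : Atl S) (w : Y) :
    w ∈ (A.box w).N ∧ (A.box w).ζ w = (0, A.η0 w) := by
  have h0 : |(0 : ℝ)| < (A.box w).c := by simpa using (A.box w).c_pos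
  have h1 := (A.box w).mem_N _ (A.ctr_mem w) 0 h0
  have h2 := ((A.box w).τ_ζ (A.ctr_mem w) h0).2
  rw [S.φ_zero, A.ctr] at h1 h2
  exact ⟨h1, h2⟩

omit [T2Space M] in
/-- a uniform radius for one step of the chain -/
theorem step (A : Atl S) (ρ : Y → ℝ) (T : Finset Y)
    (hT : ∀ u : Y, ∃ w ∈ T, u ∈ (A.box w).N ∧ (A.box w).ζ u ∈ ball (0, A.η0 w) (ρ w))
    (w : Y) (hK : closedBall (0, A.η0 w) (ρ w) ⊆ (A.box w).D) :
    ∃ δ > 0, ∀ x ∈ closedBall (0, A.η0 w) (ρ w), ∃ w' ∈ T,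
      ball x δ ⊆ holDom (A.box w) (A.box w') 1 ∧
      MapsTo (hol (A.box w) (A.box w') 1) (ball x δ) (ball (0, A.η0 w') (ρ w')) ∧
      InjOn (hol (A.box w) (A.box w') 1) (ball x δ) := by
  have loc : ∀ z : closedBall ((0 : ℝ), A.η0 w) (ρ w), ∃ V : Set (ℝ × ℝ), IsOpen V ∧ z.1 ∈ V ∧
      ∃ w' ∈ T, V ⊆ holDom (A.box w) (A.box w') 1 ∧
      MapsTo (hol (A.box w) (A.box w') 1) V (ball (0, A.η0 w') (ρ w')) ∧
      InjOn (hol (A.box w) (A.box w') 1) V := by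
    rintro ⟨z, hz⟩
    obtain ⟨w', hw', h1, h2⟩ := hT (S.φ 1 ((A.box w).Z z))
    have hzd : z ∈ holDom (A.box w) (A.box w') 1 := ⟨hK hz, h1⟩
    have ho := holDom_open (A.box w) (A.box w') 1
    have hdet := det_of_exact ho (A.hol_smooth w w' 1) (A.holT_smooth w w' 1) (A.exact w w' 1) hzd
    have hca : ContDiffAt ℝ 2 (hol (A.box w) (A.box w') 1) z :=
      (A.hol_smooth w w' 1).contDiffAt (ho.mem_nhds hzd)
    obtain ⟨V, hV, hi⟩ := injOn_nhds_of_det (hca.of_le (by norm_num)) (by rw [hdet]; norm_num)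
    have h3 : hol (A.box w) (A.box w') 1 ⁻¹' ball (0, A.η0 w') (ρ w') ∈ 𝓝 z :=
      hca.continuousAt.preimage_mem_nhds (isOpen_ball.mem_nhds h2)
    obtain ⟨O, hO, hOo, hzO⟩ :=
      _root_.mem_nhds_iff.1 (inter_mem (inter_mem hV h3) (ho.mem_nhds hzd))
    exact ⟨O, hOo, hzO, w', hw', fun y hy => (hO hy).2, fun y hy => (hO hy).1.2,
      hi.mono fun y hy => (hO hy).1.1⟩
  choose V hVo hzV hV using loc
  obtain ⟨δ, hδ, h⟩ := lebesgue_number_lemma_of_metric (isCompact_closedBall _ _) hVo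
    (fun z hz => mem_iUnion.2 ⟨⟨z, hz⟩, hzV _⟩)
  refine ⟨δ, hδ, fun x hx => ?_⟩
  obtain ⟨i, hi⟩ := h x hx
  obtain ⟨w', hw', h1, h2, h3⟩ := hV i
  exact ⟨w', hw', hi.trans h1, h2.mono_left hi, h3.mono hi⟩

end DenseX

/-- every point starts a chain of injective area preserving maps on balls of a fixed radius -/
theorem Atl.exists_chain [CompactSpace Y] (A : Atl S) (v : Y) :
    ∃ (C : Chain A.box) (d1 : ℝ), 0 < d1 ∧ v ∈ (A.box (C.w 0)).N ∧
      (∀ j, C.Ω j = ball (C.it j ((A.box (C.w 0)).ζ v)) d1) ∧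
      (∀ j, DifferentiableOn ℝ (C.g j) (C.Ω j)) ∧ (∀ j, InjOn (C.g j) (C.Ω j)) ∧
      ∀ j, ∀ z ∈ C.Ω j, (fderiv ℝ (C.g j) z).det = 1 := by
  classical
  have hρ : ∀ w : Y, ∃ ρ > 0, closedBall ((0 : ℝ), A.η0 w) ρ ⊆ (A.box w).D := fun w =>
    nhds_basis_closedBall.mem_iff.1 ((A.box w).D_open.mem_nhds (A.ctr_mem w))
  choose ρ hρ hK using hρ
  obtain ⟨T, hT⟩ := CompactSpace.elim_nhds_subcover
    (fun w => (A.box w).N ∩ (A.box w).ζ ⁻¹' ball (0, A.η0 w) (ρ w)) (fun w =>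
      (((A.box w).ζ_cont.isOpen_inter_preimage (A.box w).N_open isOpen_ball).mem_nhds
        ⟨(DenseX.ctr_N A w).1, by
          rw [mem_preimage, (DenseX.ctr_N A w).2]; exact mem_ball_self (hρ w)⟩))
  have hT' : ∀ u : Y, ∃ w ∈ T, u ∈ (A.box w).N ∧ (A.box w).ζ u ∈ ball (0, A.η0 w) (ρ w) := by
    intro u
    have : u ∈ ⋃ w ∈ T, (A.box w).N ∩ (A.box w).ζ ⁻¹' ball (0, A.η0 w) (ρ w) := by
      rw [hT]; trivial
    obtain ⟨w, hw, h⟩ := mem_iUnion₂.1 this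
    exact ⟨w, hw, h.1, h.2⟩
  choose δ hδ hstep using fun w => DenseX.step A ρ T hT' w (hK w)
  obtain ⟨w0, hw0, hv1, hv2⟩ := hT' v
  obtain ⟨wm, -, hwm⟩ := T.exists_min_image δ ⟨w0, hw0⟩
  choose! nxt hnT hn1 hn2 hn3 using hstep
  let σ : ℕ → Y × (ℝ × ℝ) := fun j => Nat.rec (w0, (A.box w0).ζ v)
    (fun _ x => (nxt x.1 x.2, hol (A.box x.1) (A.box (nxt x.1 x.2)) 1 x.2)) j
  have σs1 : ∀ j, (σ (j + 1)).1 = nxt (σ j).1 (σ j).2 := fun j => rfl
  have σs2 : ∀ j, (σ (j + 1)).2 = hol (A.box (σ j).1) (A.box (σ (j + 1)).1) 1 (σ j).2 :=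
    fun j => rfl
  have inv : ∀ j, (σ j).1 ∈ T ∧ (σ j).2 ∈ closedBall (0, A.η0 (σ j).1) (ρ (σ j).1) := by
    intro j
    induction j with
    | zero => exact ⟨hw0, ball_subset_closedBall hv2⟩
    | succ j ih =>
      refine ⟨hnT _ _ ih.2, ball_subset_closedBall ?_⟩
      exact hn2 _ _ ih.2 (mem_ball_self (hδ _))
  have hsub : ∀ j, ball (σ j).2 (δ wm) ⊆ ball (σ j).2 (δ (σ j).1) := fun j =>
    ball_subset_ball (hwm _ (inv j).1)
  have hdom : ∀ j, ball (σ j).2 (δ wm) ⊆ holDom (A.box (σ j).1) (A.box (σ (j + 1)).1) 1 :=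
    fun j => (hsub j).trans (hn1 _ _ (inv j).2)
  let C : Chain A.box :=
    { w := fun j => (σ j).1
      fin := T.finite_toSet.subset (by rintro _ ⟨j, rfl⟩; exact (inv j).1)
      K := fun w => closedBall (0, A.η0 w) (ρ w)
      K_cpt := fun j => isCompact_closedBall _ _
      K_sub := fun j => hK _
      Ω := fun j => ball (σ j).2 (δ wm)
      Ω_sub := fun j z hz => (hdom j hz).1
      g := fun j => hol (A.box (σ j).1) (A.box (σ (j + 1)).1) 1
      g_cont := fun j => (A.hol_smooth _ _ 1).continuousOn.mono (hdom j)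
      g_maps := fun j z hz => ball_subset_closedBall (hn2 _ _ (inv j).2 (hsub j hz))
      a0 := 1 / 2
      a0_pos := by norm_num
      g_time := fun j z hz => ⟨holT (A.box (σ j).1) (A.box (σ (j + 1)).1) 1 z, by
        have h1 := abs_lt.1 ((A.box (σ (j + 1)).1).τ_lt _ (hdom j hz).2)
        have h2 := A.c_le (σ (j + 1)).1
        rw [holT]; linarith [h1.1], Z_hol _ _ _ (hdom j hz)⟩ }
  have hit : ∀ j, C.it j ((A.box w0).ζ v) = (σ j).2 := by
    intro j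
    induction j with
    | zero => rfl
    | succ j ih => rw [Chain.it_succ, ih, σs2]
  refine ⟨C, δ wm, hδ _, hv1, fun j => ?_, fun j => ?_, fun j => ?_, fun j z hz => ?_⟩
  · exact congrArg (fun x => ball x (δ wm)) (hit j).symm
  · exact ((A.hol_smooth _ _ 1).differentiableOn (by norm_num)).mono (hdom j)
  · exact (hn3 _ _ (inv j).2).mono (hsub j)
  · exact det_of_exact (holDom_open _ _ 1) (A.hol_smooth _ _ 1) (A.holT_smooth _ _ 1)
      (A.exact _ _ 1) (hdom j hz)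

namespace DenseX

/-- the arc of the fibre through `u` -/
def arc (A : Atl S) (u : Y) (s : ℝ) : Y := (A.box u).Z (0, A.η0 u + s)

omit [T2Space M] in
theorem arc_zero (A : Atl S) (u : Y) : arc A u 0 = u := by
  rw [arc, add_zero, A.ctr]

omit [T2Space M] in
theorem arc_cont (A : Atl S) (u : Y) {I : Set ℝ}
    (hI : ∀ s ∈ I, ((0 : ℝ), A.η0 u + s) ∈ (A.box u).D) : ContinuousOn (arc A u) I :=
  (A.box u).Z_cont.comp (by fun_prop) hI

omit [T2Space M] in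
theorem arc_inj (A : Atl S) (u : Y) {I : Set ℝ}
    (hI : ∀ s ∈ I, ((0 : ℝ), A.η0 u + s) ∈ (A.box u).D) : InjOn (arc A u) I := by
  intro s hs s' hs' h
  have h0 : |(0 : ℝ)| < 2 * (A.box u).c := by simpa using (A.box u).c_pos
  have := ((A.box u).uniq _ (hI s hs) _ (hI s' hs') 0 h0 (by rw [S.φ_zero]; exact h)).2
  simpa using this

omit [T2Space M] in
theorem arc_base (A : Atl S) (u : Y) {s : ℝ} (hs : ((0 : ℝ), A.η0 u + s) ∈ (A.box u).D) :
    S.ev (arc A u s) 0 = S.ev u 0 :=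
  (A.fib u _ hs).2 rfl

/-- points of the fibre near `u` are asymptotic to `u` along the chain -/
theorem arc_lemma (A : Atl S) (C : Chain A.box) {U : Set Y} (hU : IsOpen U) {u : Y} (huU : u ∈ U)
    (huN : u ∈ (A.box (C.w 0)).N) (hp : S.Good (S.ev u 0))
    (hc : {x | x ∈ U ∧ S.ev x 0 = S.ev u 0 ∧ S.Per x}.Countable) {d : ℝ} (hd : 0 < d)
    (hb : ∀ j, ball (C.it j ((A.box (C.w 0)).ζ u)) d ⊆ C.Ω j) :
    ∃ η > 0, ∀ s, |s| < η → ((0 : ℝ), A.η0 u + s) ∈ (A.box u).D ∧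
      arc A u s ∈ (A.box (C.w 0)).N ∧
      (∀ j, dist (C.it j ((A.box (C.w 0)).ζ (arc A u s))) (C.it j ((A.box (C.w 0)).ζ u)) < d) ∧
      Tendsto (fun j => dist (C.it j ((A.box (C.w 0)).ζ (arc A u s)))
        (C.it j ((A.box (C.w 0)).ζ u))) atTop (𝓝 0) := by
  have hl : Continuous fun s : ℝ => ((0 : ℝ), A.η0 u + s) := by fun_prop
  have h0 : ((0 : ℝ), A.η0 u + 0) ∈ (A.box u).D := by simpa using A.ctr_mem u
  have e1 : ∀ᶠ s in 𝓝 (0 : ℝ), ((0 : ℝ), A.η0 u + s) ∈ (A.box u).D :=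
    hl.continuousAt.eventually ((A.box u).D_open.mem_nhds h0)
  have hca : ContinuousAt (arc A u) 0 :=
    ContinuousAt.comp (f := fun s : ℝ => ((0 : ℝ), A.η0 u + s))
      ((A.box u).Z_cont.continuousAt ((A.box u).D_open.mem_nhds h0)) hl.continuousAt
  have e2 : ∀ᶠ s in 𝓝 (0 : ℝ), arc A u s ∈ U ∩ (A.box (C.w 0)).N :=
    hca.eventually ((hU.inter (A.box (C.w 0)).N_open).mem_nhds
      (by rw [arc_zero]; exact ⟨huU, huN⟩))
  obtain ⟨r, hr, hI⟩ := nhds_basis_closedBall.mem_iff.1 (e1.and e2)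
  rw [Real.closedBall_eq_Icc] at hI
  have hI1 : ∀ s ∈ Icc (0 - r) (0 + r), ((0 : ℝ), A.η0 u + s) ∈ (A.box u).D :=
    fun s hs => (hI hs).1
  have harc : C.Arc (S.ev u 0) (arc A u) (fun s => (A.box (C.w 0)).ζ (arc A u s)) 0 r d :=
    { r_pos := hr
      d_pos := hd
      inj := arc_inj A u hI1
      base := fun s hs => arc_base A u (hI1 s hs)
      cont := (A.box (C.w 0)).ζ_cont.comp (arc_cont A u hI1) fun s hs => (hI hs).2.2
      maps := fun s hs => (A.box (C.w 0)).ζ_mem _ (hI hs).2.2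
      time := ⟨(A.box (C.w 0)).c, fun s hs => ⟨_, ((A.box (C.w 0)).τ_lt _ (hI hs).2.2).le,
        ((A.box (C.w 0)).φ_τ _ (hI hs).2.2).symm⟩⟩
      ball_sub := by simpa only [arc_zero] using hb }
  have hc' : {s | s ∈ Icc (0 - r) (0 + r) ∧ S.Per (arc A u s)}.Countable :=
    MapsTo.countable_of_injOn (f := arc A u)
      (t := {x | x ∈ U ∧ S.ev x 0 = S.ev u 0 ∧ S.Per x})
      (fun s hs => ⟨(hI hs.1).2.1, arc_base A u (hI1 s hs.1), hs.2⟩)
      ((arc_inj A u hI1).mono fun s hs => hs.1) hc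
  obtain ⟨η, hη, hηr, h⟩ := harc.asymptotic hp hc'
  refine ⟨η, hη, fun s hs => ?_⟩
  have hs' : s ∈ Icc (0 - r) (0 + r) := by
    have := abs_lt.1 hs
    constructor <;> linarith [this.1, this.2]
  have h1 := h s (by simpa using hs)
  simp only [arc_zero] at h1
  exact ⟨hI1 s hs', (hI hs').2.2, h1.1, h1.2⟩

/-- the good points whose fibre meets `U` in countably many periodic elements are null -/
theorem bad_null [CompactSpace Y] (A : Atl S) {U : Set Y} (hU : IsOpen U) :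
    {p | S.Good p ∧ (∃ v ∈ U, S.ev v 0 = p) ∧
      {x | x ∈ U ∧ S.ev x 0 = p ∧ S.Per x}.Countable}ᶜ ∈ S.ae := by
  by_contra hB
  obtain ⟨p, ⟨hp, ⟨v, hvU, rfl⟩, hc⟩, hcone⟩ := S.cone _ hB
  obtain ⟨C, d1, hd1, hvN, hΩ, hdiff, hinj, hdet⟩ := A.exists_chain v
  have hW := null_of_chain C.g C.Ω (fun j => by rw [hΩ]; exact isOpen_ball) hdiff hinj hdet
    C.it C.it_zero C.it_succ (fun j => C.it j ((A.box (C.w 0)).ζ v))
  have hP := (A.box (C.w 0)).null_arc _ hW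
  obtain ⟨η, hη, h1⟩ := arc_lemma A C hU hvU hvN hp hc (half_pos hd1)
    (fun j => by rw [hΩ]; exact ball_subset_ball (half_le_self hd1.le))
  have e1 : ∀ᶠ x in 𝓝 v, x ∈ (A.box v).N ∧ |((A.box v).ζ x).2 - A.η0 v| < η := by
    have hn := (A.box v).N_open.mem_nhds (ctr_N A v).1
    have hc1 : ContinuousAt (fun x => |((A.box v).ζ x).2 - A.η0 v|) v :=
      (((A.box v).ζ_cont.continuousAt hn).snd.sub continuousAt_const).abs
    refine Eventually.and hn (hc1.eventually (gt_mem_nhds ?_))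
    simpa [(ctr_N A v).2] using hη
  have e2 : ∀ᶠ y in 𝓝 ((0 : ℝ), v), S.φ y.1 y.2 ∈ U ∧ y.2 ∈ (A.box (C.w 0)).N ∧
      |y.1 - (A.box (C.w 0)).τ y.2| < (A.box (C.w 0)).c := by
    have hn := (A.box (C.w 0)).N_open.mem_nhds hvN
    have hc1 : ContinuousAt (fun y : ℝ × Y => |y.1 - (A.box (C.w 0)).τ y.2|) (0, v) :=
      (continuousAt_fst.sub (ContinuousAt.comp (f := fun y : ℝ × Y => y.2)
        ((A.box (C.w 0)).τ_cont.continuousAt hn) continuousAt_snd)).abs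
    refine (S.φ_cont.continuousAt.eventually (hU.mem_nhds ?_)).and
      (Eventually.and ((continuousAt_snd (p := ((0 : ℝ), v))).preimage_mem_nhds hn) (hc1.eventually (gt_mem_nhds ?_)))
    · simpa [S.φ_zero] using hvU
    · simpa using (A.box (C.w 0)).τ_lt v hvN
  rw [nhds_prod_eq] at e2
  obtain ⟨I, hI, V, hV, hIV⟩ := mem_prod_iff.1 e2
  obtain ⟨ε, hε, hεI⟩ := Metric.mem_nhds_iff.1 hI
  refine hcone v rfl _ (inter_mem hV e1) ε hε (mem_of_superset hP (compl_subset_compl.2 ?_))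
  rintro q ⟨⟨hq, -, hqc⟩, x, ⟨hxV, hxN, hxη⟩, hx0, a, ha, rfl⟩
  have hxa : arc A v (((A.box v).ζ x).2 - A.η0 v) = x := by
    have h2 := (A.box v).φ_τ x hxN
    rw [A.fib_τ v x hxN hx0, S.φ_zero] at h2
    have h3 := (A.fib v _ ((A.box v).ζ_mem x hxN)).1 (by rw [← h2]; exact hx0)
    rw [arc, add_sub_cancel, ← h3]
    exact h2.symm
  obtain ⟨-, -, h3, h4⟩ := h1 _ hxη
  rw [hxa] at h3 h4
  obtain ⟨huU, hxN0, hτ⟩ := hIV (mk_mem_prod (hεI (by simpa using ha : a ∈ ball (0 : ℝ) ε)) hxV)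
  have hu : S.φ a x = S.φ (a - (A.box (C.w 0)).τ x) ((A.box (C.w 0)).Z ((A.box (C.w 0)).ζ x)) := by
    rw [← (A.box (C.w 0)).φ_τ x hxN0, ← S.φ_add, sub_add_cancel]
  have huN : S.φ a x ∈ (A.box (C.w 0)).N := by
    rw [hu]; exact (A.box (C.w 0)).mem_N _ ((A.box (C.w 0)).ζ_mem x hxN0) _ hτ
  have huζ : (A.box (C.w 0)).ζ (S.φ a x) = (A.box (C.w 0)).ζ x := by
    rw [hu]; exact ((A.box (C.w 0)).τ_ζ ((A.box (C.w 0)).ζ_mem x hxN0) hτ).2
  rw [← S.ev_φ_zero] at hq hqc ⊢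
  obtain ⟨η', hη', h5⟩ := arc_lemma A C hU huU huN hq hqc (half_pos hd1) (fun j => by
    rw [hΩ, huζ]
    exact ball_subset_ball' (by linarith [h3 j]))
  have hI' : ∀ s ∈ Icc (0 : ℝ) (η' / 2), |s| < η' := fun s hs =>
    abs_lt.2 ⟨by linarith [hs.1], by linarith [hs.2]⟩
  refine ⟨arc A (S.φ a x), η' / 2, half_pos hη', arc_cont A _ fun s hs => (h5 s (hI' s hs)).1,
    arc_inj A _ fun s hs => (h5 s (hI' s hs)).1, fun s hs => ?_⟩
  obtain ⟨h6, h7, h8, h9⟩ := h5 s (hI' s hs)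
  rw [huζ] at h8 h9
  refine ⟨arc_base A _ h6, h7, fun j => ?_, ?_⟩
  · rw [hΩ, mem_ball]
    linarith [dist_triangle (C.it j ((A.box (C.w 0)).ζ (arc A (S.φ a x) s)))
      (C.it j ((A.box (C.w 0)).ζ x)) (C.it j ((A.box (C.w 0)).ζ v)), h8 j, h3 j]
  · exact squeeze_zero (fun j => dist_nonneg) (fun j => dist_triangle _ _ _)
      (by simpa using h9.add h4)

end DenseX

theorem Atl.rich [CompactSpace Y] [SecondCountableTopology Y] (A : Atl S)
    (h : ∀ᶠ p in S.ae, S.Good p) : ∀ᶠ p in S.ae, S.Good p ∧ S.Rich p := by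
  have h1 := (eventually_countable_ball (l := S.ae)
    (TopologicalSpace.countable_countableBasis Y)).2 fun U hU =>
      DenseX.bad_null A (TopologicalSpace.isOpen_of_mem_countableBasis hU)
  filter_upwards [h, h1] with p hp hb
  refine ⟨hp, fun v hv U hU hc => ?_⟩
  obtain ⟨U', hU', hvU, hUU⟩ := (TopologicalSpace.isBasis_countableBasis Y).mem_nhds_iff.1 hU
  refine hb U' hU' ⟨hp, ⟨v, hvU, hv⟩, hc.mono ?_⟩
  exact fun x hx => ⟨hUU hx.1, hx.2⟩

end Pool.Agent.GeoFin
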