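import Mathlib
import Pool.Agent.P.MP_365c00_gt.BoxC

/-!
First variation formula; holonomy maps are smooth and exact (paper sec. 0, (exact)).
-/

open Set Filter Topology Metric
open scoped Manifold ContDiff

namespace Pool.Agent.GeoFin

namespace ExactX

section calc_lemmas

variable {P : Type*} [NormedAddCommGroup P] [NormedSpace ℝ P]

theorem deriv_fderiv {c : P → E} {y : P} (hc : ContDiffAt ℝ 2 c y) {σ : ℝ → P} {v : P} {s : ℝ}
    (hσ : HasDerivAt σ v s) (h0 : σ s = y) (e : P) :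
    HasDerivAt (fun r => fderiv ℝ c (σ r) e) (fderiv ℝ (fderiv ℝ c) y v e) s := by
  subst h0
  have hD : HasFDerivAt (fderiv ℝ c) (fderiv ℝ (fderiv ℝ c) (σ s)) (σ s) :=
    ((hc.fderiv_right (m := 1) (by norm_num)).differentiableAt one_ne_zero).hasFDerivAt
  simpa using (hD.comp_hasDerivAt s hσ).clm_apply (hasDerivAt_const s e)

theorem deriv_form {c : P → E} {y : P} (hc : ContDiffAt ℝ 2 c y) {B : E → E →L[ℝ] E →L[ℝ] ℝ}
    (hB : DifferentiableAt ℝ B (c y)) {σ : ℝ → P} {v : P} {s : ℝ}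
    (hσ : HasDerivAt σ v s) (h0 : σ s = y) (e e' : P) :
    HasDerivAt (fun r => B (c (σ r)) (fderiv ℝ c (σ r) e) (fderiv ℝ c (σ r) e'))
      (fderiv ℝ B (c y) (fderiv ℝ c y v) (fderiv ℝ c y e) (fderiv ℝ c y e')
        + B (c y) (fderiv ℝ (fderiv ℝ c) y v e) (fderiv ℝ c y e')
        + B (c y) (fderiv ℝ c y e) (fderiv ℝ (fderiv ℝ c) y v e')) s := by
  have h1 := deriv_fderiv hc hσ h0 e
  have h2 := deriv_fderiv hc hσ h0 e'
  subst h0
  have h3 : HasDerivAt (fun r => c (σ r)) (fderiv ℝ c (σ s) v) s :=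
    (hc.differentiableAt two_ne_zero).hasFDerivAt.comp_hasDerivAt s hσ
  have h4 : HasDerivAt (fun r => B (c (σ r))) (fderiv ℝ B (c (σ s)) (fderiv ℝ c (σ s) v)) s :=
    HasFDerivAt.comp_hasDerivAt (F := E) (E := E →L[ℝ] E →L[ℝ] ℝ) (f := fun r => c (σ r)) s
      hB.hasFDerivAt h3
  simpa using (h4.clm_apply h1).clm_apply h2

theorem fderiv_snd {c : P × ℝ → E} {z : P} {t : ℝ} (hc : DifferentiableAt ℝ c (z, t)) :
    fderiv ℝ c (z, t) (0, 1) = deriv (fun s => c (z, s)) t :=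
  (hc.hasFDerivAt.comp_hasDerivAt t ((hasDerivAt_const t z).prodMk (hasDerivAt_id t))).deriv.symm

theorem fderiv_fst {c : P × ℝ → E} {z : P} {t : ℝ} (hc : DifferentiableAt ℝ c (z, t)) (ξ : P) :
    fderiv ℝ c (z, t) (ξ, 0) = fderiv ℝ (fun y => c (y, t)) z ξ := by
  have h := HasFDerivAt.comp z (f := fun y => (y, t)) hc.hasFDerivAt
    ((hasFDerivAt_id z).prodMk (hasFDerivAt_const t z))
  rw [HasFDerivAt.fderiv (f := fun y => c (y, t)) h]
  simp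

theorem implicit [CompleteSpace P] {Φ : P × ℝ → ℝ} {T : P → ℝ} {z : P} {k : ℝ} {n : ℕ∞ω}
    (hn : n ≠ 0) (hΦ : ContDiffAt ℝ n Φ (z, T z)) (hd : fderiv ℝ Φ (z, T z) (0, 1) ≠ 0)
    (hT : ContinuousAt T z) (hk : ∀ᶠ y in 𝓝 z, Φ (y, T y) = k) : ContDiffAt ℝ n T z := by
  have hinv : (fderiv ℝ Φ (z, T z) ∘L ContinuousLinearMap.inr ℝ P ℝ).IsInvertible := by
    refine ⟨ContinuousLinearEquiv.unitsEquivAut ℝ (Units.mk0 _ hd), ?_⟩
    ext
    simp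
  have h1 := hΦ.eventually_apply_eq_iff_implicitFunction hn hinv
  have h2 : ContinuousAt (fun y => (y, T y)) z := continuousAt_id.prodMk hT
  refine (hΦ.contDiffAt_implicitFunction hn hinv).congr_of_eventuallyEq ?_
  filter_upwards [h2.eventually h1, hk] with y hy hy'
  exact (hy.1 (hy'.trans hk.self_of_nhds.symm)).symm

end calc_lemmas

variable {M : Type*} [TopologicalSpace M] [ChartedSpace E M] [IsManifold (𝓡 2) ∞ M]

/-- the family of curves as a map of all the variables -/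
def fam {g : Met M} (Z : ℝ × ℝ → UG g) (y : (ℝ × ℝ) × ℝ) : M := (Z y.1).1 y.2

variable {g : Met M} {Z : ℝ × ℝ → UG g}

theorem fam_vel {y : (ℝ × ℝ) × ℝ} {x : M} (h : DifferentiableAt ℝ (κ x ∘ fam Z) y) :
    fderiv ℝ (κ x ∘ fam Z) y (0, 1) = vel x (Z y.1).1 y.2 := fderiv_snd (z := y.1) (t := y.2) h

theorem fam_ev {D : Set (ℝ × ℝ)} (hD : IsOpen D)
    (hZ : ∀ z ∈ D, ∀ t, ContMDiffAt 𝓘(ℝ, (ℝ × ℝ) × ℝ) (𝓡 2) ∞ (fam Z) (z, t))
    {z : ℝ × ℝ} (hz : z ∈ D) {t : ℝ} {x : M} (hx : fam Z (z, t) ∈ (κ x).source) :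
    ∀ᶠ y in 𝓝 (z, t), fam Z y ∈ (κ x).source ∧ ContMDiffAt 𝓘(ℝ, (ℝ × ℝ) × ℝ) (𝓡 2) ∞ (fam Z) y ∧
      ContDiffAt ℝ ∞ (κ x ∘ fam Z) y := by
  have h1 : ∀ᶠ y in 𝓝 (z, t), fam Z y ∈ (κ x).source :=
    (hZ z hz t).continuousAt.preimage_mem_nhds ((source_open x).mem_nhds hx)
  have h2 : ∀ᶠ y : (ℝ × ℝ) × ℝ in 𝓝 (z, t), y.1 ∈ D :=
    continuousAt_fst.preimage_mem_nhds (hD.mem_nhds hz)
  filter_upwards [h1, h2] with y hy hy'
  exact ⟨hy, hZ y.1 hy' y.2, contDiffAt_chart (n := ⊤) (hZ y.1 hy' y.2) hy⟩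

theorem two_le : (2 : ℕ∞ω) ≤ ∞ := by
  exact WithTop.coe_le_coe.2 (le_top : (2 : ℕ∞) ≤ ⊤)

theorem hasDerivAt_var {D : Set (ℝ × ℝ)} (hD : IsOpen D)
    (hZ : ∀ z ∈ D, ∀ t, ContMDiffAt 𝓘(ℝ, (ℝ × ℝ) × ℝ) (𝓡 2) ∞ (fam Z) (z, t))
    {z : ℝ × ℝ} (hz : z ∈ D) (ξ : ℝ × ℝ) (t : ℝ) :
    HasDerivAt (fun s => g.inner (fam Z (z, s))
      (mfderiv 𝓘(ℝ, (ℝ × ℝ) × ℝ) (𝓡 2) (fam Z) (z, s) ((0, 1) : (ℝ × ℝ) × ℝ))
      (mfderiv 𝓘(ℝ, (ℝ × ℝ) × ℝ) (𝓡 2) (fam Z) (z, s) ((ξ, 0) : (ℝ × ℝ) × ℝ))) 0 t := by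
  set x := fam Z (z, t) with hxdef
  have hx : fam Z (z, t) ∈ (κ x).source := mem_extChartAt_source x
  have hev := fam_ev hD hZ hz hx
  set c := κ x ∘ fam Z with hcdef
  have hc : ContDiffAt ℝ 2 c (z, t) := hev.self_of_nhds.2.2.of_le two_le
  have ha : c (z, t) ∈ (κ x).target := (κ x).map_source hx
  have hB : DifferentiableAt ℝ (G g x) (c (z, t)) :=
    ((G_smooth g x).contDiffAt ((target_open x).mem_nhds ha)).differentiableAt (by simp)
  have hσ : HasDerivAt (fun s : ℝ => (z, s)) ((0, 1) : (ℝ × ℝ) × ℝ) t :=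
    (hasDerivAt_const t z).prodMk (hasDerivAt_id t)
  have hσ' : HasDerivAt (fun s : ℝ => (z + s • ξ, t)) ((ξ, 0) : (ℝ × ℝ) × ℝ) 0 := by
    simpa using (((hasDerivAt_id (0 : ℝ)).smul_const ξ).const_add z).prodMk
      (hasDerivAt_const (0 : ℝ) t)
  have h0' : (z + (0 : ℝ) • ξ, t) = (z, t) := by simp
  have hev1 : ∀ᶠ s in 𝓝 t, fam Z (z, s) ∈ (κ x).source ∧
      ContMDiffAt 𝓘(ℝ, (ℝ × ℝ) × ℝ) (𝓡 2) ∞ (fam Z) (z, s) ∧ ContDiffAt ℝ ∞ c (z, s) :=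
    hσ.continuousAt.eventually hev
  have hev2 : ∀ᶠ s in 𝓝 (0 : ℝ), fam Z (z + s • ξ, t) ∈ (κ x).source ∧
      ContMDiffAt 𝓘(ℝ, (ℝ × ℝ) × ℝ) (𝓡 2) ∞ (fam Z) (z + s • ξ, t) ∧
      ContDiffAt ℝ ∞ c (z + s • ξ, t) := by
    have := hσ'.continuousAt
    rw [ContinuousAt, h0'] at this
    exact this.eventually hev
  -- the acceleration
  have hacc : fderiv ℝ (fderiv ℝ c) (z, t) (0, 1) (0, 1)
      = acc g x (c (z, t), fderiv ℝ c (z, t) (0, 1)) := by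
    have h1 := deriv_fderiv hc hσ rfl (0, 1)
    have h2 := ((Z z).geoAt t).2 x hx
    rw [fam_vel (hc.differentiableAt two_ne_zero)]
    refine h1.unique (h2.congr_of_eventuallyEq ?_)
    filter_upwards [hev1] with s hs
    exact fam_vel (hs.2.2.differentiableAt (by simp))
  -- unit speed
  have hunit := deriv_form hc hB hσ' h0' (0, 1) (0, 1)
  have hone : HasDerivAt (fun r : ℝ => G g x (c (z + r • ξ, t)) (fderiv ℝ c (z + r • ξ, t) (0, 1))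
      (fderiv ℝ c (z + r • ξ, t) (0, 1))) 0 0 := by
    refine (hasDerivAt_const (0 : ℝ) (1 : ℝ)).congr_of_eventuallyEq ?_
    filter_upwards [hev2] with s hs
    rw [fam_vel (hs.2.2.differentiableAt (by simp))]
    exact (Z (z + s • ξ)).unit t hs.1
  have hu := hunit.unique hone
  have hmain := deriv_form hc hB hσ rfl (0, 1) (ξ, 0)
  rw [hacc, acc_spec g x ha, (hc.isSymmSndFDerivAt (by simp)).eq (0, 1) (ξ, 0)] at hmain
  rw [G_symm g x _ (fderiv ℝ (fderiv ℝ c) (z, t) (ξ, 0) (0, 1))] at hu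
  refine (hmain.congr_deriv (by linarith)).congr_of_eventuallyEq ?_
  filter_upwards [hev1] with s hs
  exact inner_eq g (hs.2.1.mdifferentiableAt (by simp)) hs.1 _ _

end ExactX

variable {M : Type*} [TopologicalSpace M] [ChartedSpace E M] [IsManifold (𝓡 2) ∞ M]

/-- first variation for a smooth family of unit speed geodesics -/
theorem first_variation {g : Met M} {Z : ℝ × ℝ → UG g} {D : Set (ℝ × ℝ)} (hD : IsOpen D)
    (hZ : ∀ z ∈ D, ∀ t, ContMDiffAt 𝓘(ℝ, (ℝ × ℝ) × ℝ) (𝓡 2) ∞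
      (fun y : (ℝ × ℝ) × ℝ => (Z y.1).1 y.2) (z, t))
    {z : ℝ × ℝ} (hz : z ∈ D) (ξ : ℝ × ℝ) {t t' : ℝ} {x x' : M} (hx : (Z z).1 t ∈ (κ x).source)
    (hx' : (Z z).1 t' ∈ (κ x').source) :
    G g x (κ x ((Z z).1 t)) (vel x (Z z).1 t) (fderiv ℝ (fun y => κ x ((Z y).1 t)) z ξ) =
      G g x' (κ x' ((Z z).1 t')) (vel x' (Z z).1 t')
        (fderiv ℝ (fun y => κ x' ((Z y).1 t')) z ξ) := by
  have key : ∀ (s : ℝ) (p : M), (Z z).1 s ∈ (κ p).source →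
      g.inner (ExactX.fam Z (z, s))
        (mfderiv 𝓘(ℝ, (ℝ × ℝ) × ℝ) (𝓡 2) (ExactX.fam Z) (z, s) ((0, 1) : (ℝ × ℝ) × ℝ))
        (mfderiv 𝓘(ℝ, (ℝ × ℝ) × ℝ) (𝓡 2) (ExactX.fam Z) (z, s) ((ξ, 0) : (ℝ × ℝ) × ℝ)) =
      G g p (κ p ((Z z).1 s)) (vel p (Z z).1 s) (fderiv ℝ (fun y => κ p ((Z y).1 s)) z ξ) := by
    intro s p hp
    have h1 : ContMDiffAt 𝓘(ℝ, (ℝ × ℝ) × ℝ) (𝓡 2) ∞ (ExactX.fam Z) (z, s) := hZ z hz s
    have h2 : DifferentiableAt ℝ (κ p ∘ ExactX.fam Z) (z, s) :=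
      (contDiffAt_chart (n := ⊤) h1 hp).differentiableAt (by simp)
    refine (inner_eq g (h1.mdifferentiableAt (by simp)) hp _ _).trans ?_
    rw [ExactX.fam_vel h2, ExactX.fderiv_fst h2]
    rfl
  rw [← key t x hx, ← key t' x' hx']
  exact is_const_of_deriv_eq_zero
    (fun s => (ExactX.hasDerivAt_var hD hZ hz ξ s).differentiableAt)
    (fun s => (ExactX.hasDerivAt_var hD hZ hz ξ s).deriv) t t'

variable [T2Space M] [CompactSpace M] [Nonempty M] {g : Met M} {w w' : UG g}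

namespace ExactX

variable (b : PreBox w) (b' : PreBox w') (a : ℝ)

/-- the hitting time -/
noncomputable def TT (z : ℝ × ℝ) : ℝ := a + b'.τ (shift a (b.Z z))

/-- the point hit -/
noncomputable def ZZ (z : ℝ × ℝ) : ℝ × ℝ := b'.ζ (shift a (b.Z z))

/-- the domain of the holonomy -/
def Om : Set (ℝ × ℝ) := {z | z ∈ b.D ∧ shift a (b.Z z) ∈ b'.N}

theorem cont_shift : ContinuousOn (fun z => shift a (b.Z z)) b.D :=
  (shift_cont g).comp_continuousOn (continuousOn_const.prodMk b.Z_cont)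

theorem Om_open : IsOpen (Om b b' a) :=
  (cont_shift b a).isOpen_inter_preimage b.D_open b'.N_open

theorem TT_cont : ContinuousOn (TT b b' a) (Om b b' a) :=
  continuousOn_const.add
    (b'.τ_cont.comp ((cont_shift b a).mono fun _ h => h.1) fun _ h => h.2)

variable {b b' a}

theorem hit_pt {z : ℝ × ℝ} (hz : z ∈ Om b b' a) :
    fam b.Z (z, TT b b' a z) = (b'.Z (ZZ b b' a z)).1 0 := by
  have h := (b'.hit_spec hz.2).2.2
  unfold ZZ
  rw [← h, shift_apply, shift_apply, zero_add, add_comm]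
  rfl

theorem hit_vel {z : ℝ × ℝ} (hz : z ∈ Om b b' a) :
    vel (w'.1 0) (b.Z z).1 (TT b b' a z) = b'.V (ZZ b b' a z) := by
  have h := b'.hit_spec hz.2
  unfold ZZ
  rw [← b'.vel_Z_zero h.1, ← h.2.2, vel_shift, vel_shift, zero_add, add_comm]
  rfl

theorem hit_src {z : ℝ × ℝ} (hz : z ∈ Om b b' a) :
    fam b.Z (z, TT b b' a z) ∈ (κ (w'.1 0)).source := by
  rw [hit_pt hz]
  exact (b'.Z_stay (b'.hit_spec hz.2).1 (by simpa using b'.c_pos.le)).1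

theorem hit_κ {z : ℝ × ℝ} (hz : z ∈ Om b b' a) :
    (κ (w'.1 0) ∘ fam b.Z) (z, TT b b' a z)
      = κ (w'.1 0) (w'.1 0) + (ZZ b b' a z).1 • b'.e2 := by
  rw [Function.comp_apply, hit_pt hz]
  exact b'.κ_Z_zero (b'.hit_spec hz.2).1

theorem hit_smooth {z : ℝ × ℝ} (hz : z ∈ Om b b' a) :
    ContDiffAt ℝ ∞ (κ (w'.1 0) ∘ fam b.Z) (z, TT b b' a z) :=
  contDiffAt_chart (n := ⊤) (b.Z_smooth hz.1 _) (hit_src hz)

theorem hit_fderiv {z : ℝ × ℝ} (hz : z ∈ Om b b' a) :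
    fderiv ℝ (κ (w'.1 0) ∘ fam b.Z) (z, TT b b' a z) (0, 1) = b'.V (ZZ b b' a z) := by
  rw [fam_vel ((hit_smooth hz).differentiableAt (by simp))]
  exact hit_vel hz

theorem TT_smooth {z : ℝ × ℝ} (hz : z ∈ Om b b' a) : ContDiffAt ℝ ∞ (TT b b' a) z := by
  have hO := (Om_open b b' a).mem_nhds hz
  refine implicit (Φ := fun y => b'.l1 ((κ (w'.1 0) ∘ fam b.Z) y))
    (k := b'.l1 (κ (w'.1 0) (w'.1 0))) (by simp)
    (b'.l1.contDiff.contDiffAt.comp _ (hit_smooth hz)) ?_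
    ((TT_cont b b' a).continuousAt hO) ?_
  · have h := b'.l1.hasFDerivAt.comp _
      ((hit_smooth hz).differentiableAt (by simp)).hasFDerivAt
    rw [HasFDerivAt.fderiv (f := fun y => b'.l1 ((κ (w'.1 0) ∘ fam b.Z) y)) h,
      ContinuousLinearMap.comp_apply, hit_fderiv hz]
    have h1 := (b'.hit_spec hz.2).1
    have h2 := (b'.Z_stay h1 (t := 0) (by simpa using b'.c_pos.le)).2
    rw [b'.vel_Z_zero h1] at h2
    exact (lt_of_lt_of_le (by norm_num) h2).ne'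
  · filter_upwards [hO] with y hy
    rw [hit_κ hy, map_add, map_smul, b'.l1_e2, smul_zero, add_zero]

theorem comp_smooth {z : ℝ × ℝ} (hz : z ∈ Om b b' a) :
    ContDiffAt ℝ ∞ (fun y => (κ (w'.1 0) ∘ fam b.Z) (y, TT b b' a y)) z :=
  ContDiffAt.comp z (f := fun y => (y, TT b b' a y)) (hit_smooth hz)
    (contDiffAt_id.prodMk (TT_smooth hz))

theorem ZZ_smooth {z : ℝ × ℝ} (hz : z ∈ Om b b' a) : ContDiffAt ℝ ∞ (ZZ b b' a) z := by
  have hO := (Om_open b b' a).mem_nhds hz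
  have h1 : ContDiffAt ℝ ∞ (fun y => b'.l2 ((κ (w'.1 0) ∘ fam b.Z) (y, TT b b' a y)
      - κ (w'.1 0) (w'.1 0))) z :=
    b'.l2.contDiff.contDiffAt.comp _ ((comp_smooth hz).sub contDiffAt_const)
  have h2 : ContDiffAt ℝ ∞
      (fun y => fderiv ℝ (κ (w'.1 0) ∘ fam b.Z) (y, TT b b' a y) (0, 1)) z :=
    (ContDiffAt.comp z (f := fun y => (y, TT b b' a y))
      ((hit_smooth hz).fderiv_right (m := ∞) (by simp))
      (contDiffAt_id.prodMk (TT_smooth hz))).clm_apply contDiffAt_const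
  have h3 : ContDiffAt ℝ ∞
      (fun y => G g (w'.1 0) ((κ (w'.1 0) ∘ fam b.Z) (y, TT b b' a y))) z :=
    ContDiffAt.comp z (f := fun y => (κ (w'.1 0) ∘ fam b.Z) (y, TT b b' a y))
      ((G_smooth g (w'.1 0)).contDiffAt ((target_open _).mem_nhds
        ((κ (w'.1 0)).map_source (hit_src hz)))) (comp_smooth hz)
  refine (h1.prodMk ((h3.clm_apply h2).clm_apply (contDiffAt_const (c := b'.e2)))
    ).congr_of_eventuallyEq ?_
  filter_upwards [hO] with y hy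
  rw [hit_κ hy, hit_fderiv hy, b'.V_mom (ZZ b b' a y) (b'.hit_spec hy.2).1, add_sub_cancel_left,
    map_smul, b'.l2_e2, smul_eq_mul, mul_one]

end ExactX

theorem PreBox.time_smooth (b : PreBox w) (b' : PreBox w') (a : ℝ) :
    ContDiffOn ℝ 2 (fun z => a + b'.τ (shift a (b.Z z))) {z | z ∈ b.D ∧ shift a (b.Z z) ∈ b'.N} := by
  intro z hz
  exact ((ExactX.TT_smooth (b := b) (b' := b') (a := a) hz).of_le ExactX.two_le).contDiffWithinAt

theorem PreBox.hol_smooth (b : PreBox w) (b' : PreBox w') (a : ℝ) :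
    ContDiffOn ℝ 2 (fun z => b'.ζ (shift a (b.Z z))) {z | z ∈ b.D ∧ shift a (b.Z z) ∈ b'.N} := by
  intro z hz
  exact ((ExactX.ZZ_smooth (b := b) (b' := b') (a := a) hz).of_le ExactX.two_le).contDiffWithinAt

theorem PreBox.exact (b : PreBox w) (b' : PreBox w') (a : ℝ) {z : ℝ × ℝ} (hz : z ∈ b.D)
    (hN : shift a (b.Z z) ∈ b'.N) (ξ : ℝ × ℝ) :
    fderiv ℝ (fun z => a + b'.τ (shift a (b.Z z))) z ξ =
      (b'.ζ (shift a (b.Z z))).2 * (fderiv ℝ (fun z => b'.ζ (shift a (b.Z z))) z ξ).1 -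
        z.2 * ξ.1 := by
  have hz' : z ∈ ExactX.Om b b' a := ⟨hz, hN⟩
  change fderiv ℝ (ExactX.TT b b' a) z ξ = (ExactX.ZZ b b' a z).2 *
    (fderiv ℝ (ExactX.ZZ b b' a) z ξ).1 - z.2 * ξ.1
  have hO := (ExactX.Om_open b b' a).mem_nhds hz'
  have hT := ((ExactX.TT_smooth hz').differentiableAt (by simp)).hasFDerivAt
  have hZ := ((ExactX.ZZ_smooth hz').differentiableAt (by simp)).hasFDerivAt
  have hc := (ExactX.hit_smooth hz').differentiableAt (by simp)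
  have h1 := HasFDerivAt.comp z (f := fun y => (y, ExactX.TT b b' a y)) hc.hasFDerivAt
    ((hasFDerivAt_id z).prodMk hT)
  have h2 : HasFDerivAt (fun y => κ (w'.1 0) (w'.1 0) + (ExactX.ZZ b b' a y).1 • b'.e2) _ z :=
    (hZ.fst.smul_const b'.e2).const_add _
  have h3 := congrArg (fun L => L ξ) (h1.unique (h2.congr_of_eventuallyEq (by
    filter_upwards [hO] with y hy using ExactX.hit_κ hy)))
  simp only [ContinuousLinearMap.comp_apply, ContinuousLinearMap.prod_apply,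
    ContinuousLinearMap.id_apply, ContinuousLinearMap.smulRight_apply,
    ContinuousLinearMap.coe_fst'] at h3
  have h4 : ((ξ, fderiv ℝ (ExactX.TT b b' a) z ξ) : (ℝ × ℝ) × ℝ)
      = (ξ, 0) + fderiv ℝ (ExactX.TT b b' a) z ξ • ((0, 1) : (ℝ × ℝ) × ℝ) := by simp
  rw [h4, map_add, map_smul, ExactX.hit_fderiv hz', ExactX.fderiv_fst hc] at h3
  have hD' : ExactX.ZZ b b' a z ∈ b'.D := (b'.hit_spec hN).1
  have h5 := congrArg (G g (w'.1 0) (κ (w'.1 0) (w'.1 0) + (ExactX.ZZ b b' a z).1 • b'.e2)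
    (b'.V (ExactX.ZZ b b' a z))) h3
  rw [map_add, map_smul, map_smul, b'.V_unit _ hD', b'.V_mom _ hD'] at h5
  have h6 := first_variation b.D_open (fun y hy t => b.Z_smooth hy t) hz ξ
    (b.Z_stay hz (t := 0) (by simpa using b.c_pos.le)).1 (ExactX.hit_src hz')
  have h7 : HasFDerivAt (fun y => κ (w.1 0) ((b.Z y).1 0))
      ((ContinuousLinearMap.fst ℝ ℝ ℝ).smulRight b.e2) z := by
    refine ((hasFDerivAt_fst.smul_const b.e2).const_add
      (κ (w.1 0) (w.1 0))).congr_of_eventuallyEq ?_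
    filter_upwards [b.D_open.mem_nhds hz] with y hy using b.κ_Z_zero hy
  have h8 : κ (w'.1 0) ((b.Z z).1 (ExactX.TT b b' a z))
      = κ (w'.1 0) (w'.1 0) + (ExactX.ZZ b b' a z).1 • b'.e2 := ExactX.hit_κ hz'
  rw [h7.fderiv, b.κ_Z_zero hz, b.vel_Z_zero hz, ExactX.hit_vel hz', h8,
    ContinuousLinearMap.smulRight_apply, map_smul, PreBox.pt, b.V_mom z hz] at h6
  have h9 : (fun y => (κ (w'.1 0) ∘ ExactX.fam b.Z) (y, ExactX.TT b b' a z))
      = fun y => κ (w'.1 0) ((b.Z y).1 (ExactX.TT b b' a z)) := rfl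
  rw [h9, ← h6] at h5
  simp only [smul_eq_mul, ContinuousLinearMap.coe_fst'] at h5
  linarith

end Pool.Agent.GeoFin
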