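import Mathlib

/-!
Normalised planar setting of paper sec. 4.
-/

open Set Metric Complex

namespace Pool.Agent.GeoFin

/-- a map close to the identity with a fixed point and a generating function -/
structure Near (f : ℂ → ℂ) (H : ℂ → ℝ) (z0 : ℂ) (R : ℝ) : Prop where
  R_pos : 0 < R
  fix : f z0 = z0
  lip : ∀ z ∈ ball z0 R, ∀ z' ∈ ball z0 R, ‖(f z - z) - (f z' - z')‖ ≤ 1 / 10 * ‖z - z'‖
  H_cont : ContinuousOn H (ball z0 R)
  up : ∀ z ∈ closedBall z0 (R / 2), ∀ h ∈ Icc (0 : ℝ) 1,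
    H z + h * ‖f z - z‖ ^ 2 / 2 ≤ H (z - I * h * (f z - z))
  down : ∀ z ∈ closedBall z0 (R / 2), ∀ h ∈ Icc (0 : ℝ) 1,
    H (z + I * h * (f z - z)) ≤ H z - h * ‖f z - z‖ ^ 2 / 2

/-- total turning of the orbit polygon of `y` around `w` -/
noncomputable def turn (f : ℂ → ℂ) (y : ℂ) (k : ℕ) (w : ℂ) : ℝ :=
  ∑ i ∈ Finset.range k, arg ((f^[i + 1] y - w) / (f^[i] y - w))

end Pool.Agent.GeoFin
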