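import Mathlib
import Pool.Agent.P.MP_365c00_gt.LocDefs

/-!
Rotation numbers along an equicontinuous segment vanish (paper sec. 4, part (rho)).
-/

open Set Metric Complex

namespace Pool.Agent.GeoFin

namespace LocRhoX

/-- the sum of the turning angles of the chord between two orbits -/
noncomputable def Rn (f : ℂ → ℂ) (n : ℕ) (z w : ℂ) : ℝ :=
  ∑ i ∈ Finset.range n, arg ((f^[i + 1] z - f^[i + 1] w) / (f^[i] z - f^[i] w))

theorem Rn_symm (f : ℂ → ℂ) (n : ℕ) (z w : ℂ) : Rn f n z w = Rn f n w z := by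
  refine Finset.sum_congr rfl fun i _ => ?_
  rw [← neg_div_neg_eq, neg_sub, neg_sub]

theorem Rn_add (f : ℂ → ℂ) (n m : ℕ) (z w : ℂ) :
    Rn f (n + m) z w = Rn f n z w + Rn f m (f^[n] z) (f^[n] w) := by
  unfold Rn
  rw [Finset.sum_range_add]
  congr 1
  refine Finset.sum_congr rfl fun i _ => ?_
  rw [← Function.iterate_add_apply, ← Function.iterate_add_apply, ← Function.iterate_add_apply,
    ← Function.iterate_add_apply, add_comm i n, add_comm (i + 1) n, add_assoc]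

theorem iter_mul {f : ℂ → ℂ} {k : ℕ} {z : ℂ} (hz : f^[k] z = z) (m : ℕ) : f^[m * k] z = z := by
  rw [mul_comm, Function.iterate_mul]
  exact Function.iterate_fixed hz m

theorem Rn_mul {f : ℂ → ℂ} {k : ℕ} {z w : ℂ} (hz : f^[k] z = z) (hw : f^[k] w = w) (m : ℕ) :
    Rn f (m * k) z w = m * Rn f k z w := by
  induction m with
  | zero => simp [Rn]
  | succ m ih =>
    rw [Nat.succ_mul, Rn_add, ih, iter_mul hz, iter_mul hw]
    push_cast
    ring

/-- the rotation number vanishes -/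
def Null (f : ℂ → ℂ) (z w : ℂ) : Prop := ∃ N > 0, ∃ C : ℝ, ∀ m, |Rn f (m * N) z w| ≤ C

theorem Null.symm {f : ℂ → ℂ} {z w : ℂ} (h : Null f z w) : Null f w z := by
  obtain ⟨N, hN, C, hC⟩ := h
  exact ⟨N, hN, C, fun m => by rw [Rn_symm]; exact hC m⟩

theorem null_fixed {f : ℂ → ℂ} {z w : ℂ} (hz : f z = z) (hw : f w = w) : Null f z w := by
  refine ⟨1, one_pos, 0, fun m => ?_⟩
  have : Rn f (m * 1) z w = 0 := by
    refine Finset.sum_eq_zero fun i _ => ?_
    simp only [Function.iterate_fixed hz, Function.iterate_fixed hw]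
    by_cases e : z - w = 0
    · simp [e]
    · rw [div_self e, arg_one]
  rw [this, abs_zero]

theorem Null.trans {f : ℂ → ℂ} {z z' w : ℂ} (h : Null f z w) {N : ℕ} (hN : 0 < N) {C : ℝ}
    (hC : ∀ m, |Rn f (m * N) z w - Rn f (m * N) z' w| ≤ C) : Null f z' w := by
  obtain ⟨N', hN', C', hC'⟩ := h
  refine ⟨N * N', Nat.mul_pos hN hN', C' + C, fun m => ?_⟩
  have h1 := hC' (m * N)
  have h2 := hC (m * N')
  rw [mul_assoc] at h1
  rw [mul_assoc, mul_comm N' N] at h2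
  rw [abs_le] at h1 h2 ⊢
  constructor <;> linarith [h1.1, h1.2, h2.1, h2.2]

theorem Null.eq_zero {f : ℂ → ℂ} {z w : ℂ} (h : Null f z w) {k : ℕ} (hz : f^[k] z = z)
    (hw : f^[k] w = w) : Rn f k z w = 0 := by
  obtain ⟨N, hN, C, hC⟩ := h
  by_contra hne
  have hpos : 0 < |Rn f k z w| := abs_pos.2 hne
  obtain ⟨m, hm⟩ := exists_nat_gt (C / |Rn f k z w|)
  have h1 := hC (m * k)
  rw [mul_right_comm, Rn_mul hz hw, abs_mul, Nat.abs_cast, Nat.cast_mul] at h1
  rw [div_lt_iff₀ hpos] at hm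
  have h2 : (1 : ℝ) ≤ N := by exact_mod_cast hN
  have h3 : (0 : ℝ) ≤ m * |Rn f k z w| := by positivity
  nlinarith

theorem re_pos_of_norm_lt {a b : ℂ} (h : ‖a - b‖ < ‖b‖) : 0 < (a / b).re := by
  have hb : b ≠ 0 := by
    rintro rfl
    simp only [norm_zero] at h
    exact absurd h (not_lt.2 (norm_nonneg _))
  have e : a / b = 1 + (a - b) / b := by field_simp; ring
  have h1 : ‖(a - b) / b‖ < 1 := by
    rw [norm_div, div_lt_one (norm_pos_iff.2 hb)]
    exact h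
  have h2 := (abs_le.1 (abs_re_le_norm ((a - b) / b))).1
  rw [e, add_re, one_re]
  linarith

variable {f : ℂ → ℂ} {H : ℂ → ℝ} {z0 : ℂ} {R r : ℝ}

theorem step (h : Near f H z0 R) {z w : ℂ} (hz : z ∈ ball z0 R) (hw : w ∈ ball z0 R)
    (hne : z - w ≠ 0) : 0 < ((f z - f w) / (z - w)).re := by
  refine re_pos_of_norm_lt ?_
  have h1 := h.lip z hz w hw
  have e : f z - f w - (z - w) = f z - z - (f w - w) := by ring
  have h2 := norm_pos_iff.2 hne
  rw [e]
  linarith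

theorem iter_ne (h : Near f H z0 R) {z w : ℂ} (hz : ∀ i, f^[i] z ∈ ball z0 R)
    (hw : ∀ i, f^[i] w ∈ ball z0 R) (hne : z - w ≠ 0) (i : ℕ) : f^[i] z - f^[i] w ≠ 0 := by
  induction i with
  | zero => exact hne
  | succ i ih =>
    have h1 := step h (hz i) (hw i) ih
    rw [Function.iterate_succ_apply', Function.iterate_succ_apply']
    intro e
    simp [e] at h1

theorem Rn_angle (h : Near f H z0 R) {z w : ℂ} (hz : ∀ i, f^[i] z ∈ ball z0 R)
    (hw : ∀ i, f^[i] w ∈ ball z0 R) (hne : z - w ≠ 0) (n : ℕ) :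
    (Rn f n z w : Real.Angle) = (arg (f^[n] z - f^[n] w) : Real.Angle) - arg (z - w) := by
  induction n with
  | zero => simp [Rn]
  | succ n ih =>
    unfold Rn at ih ⊢
    rw [Finset.sum_range_succ, Real.Angle.coe_add, ih,
      arg_div_coe_angle (iter_ne h hz hw hne _) (iter_ne h hz hw hne _)]
    abel

theorem loc (h : Near f H z0 R)
    (horb : ∀ s ∈ Ioo (-r) r, ∀ i, f^[i] (z0 + s * I) ∈ ball z0 R)
    (heq : ∀ s ∈ Ioo (-r) r, ∀ d > 0, ∃ η > 0, ∀ s' ∈ Ioo (-r) r, |s' - s| < η →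
      ∀ i, dist (f^[i] (z0 + s' * I)) (f^[i] (z0 + s * I)) < d)
    (hdense : ∀ s ∈ Ioo (-r) r, ∀ η > 0, ∃ s' ∈ Ioo (-r) r, |s' - s| < η ∧
      ∃ k > 0, f^[k] (z0 + s' * I) = z0 + s' * I)
    {w : ℂ} (hw : ∀ i, f^[i] w ∈ ball z0 R) {l : ℕ} (hl : 0 < l) (hwl : f^[l] w = w)
    {s : ℝ} (hs : s ∈ Ioo (-r) r) (hne : z0 + s * I ≠ w) :
    ∃ η > 0, ∃ N > 0, ∀ a ∈ Ioo (-r) r, |a - s| < η → ∀ b ∈ Ioo (-r) r, |b - s| < η → ∀ m,
      |Rn f (m * N) (z0 + a * I) w - Rn f (m * N) (z0 + b * I) w| ≤ 2 * Real.pi := by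
  set x : ℂ := z0 + s * I with hx
  have hxw : x - w ≠ 0 := sub_ne_zero.2 hne
  set d : ℝ := ‖x - w‖ / 4 with hd
  have hd0 : 0 < d := by have := norm_pos_iff.2 hxw; positivity
  obtain ⟨η, hη, hJ⟩ := heq s hs d hd0
  obtain ⟨s1, hs1, hs1η, p, hp, hper⟩ := hdense s hs η hη
  refine ⟨η, hη, p * l, Nat.mul_pos hp hl, fun a ha haη b hb hbη m => ?_⟩
  set n : ℕ := m * (p * l) with hn
  have hwn : f^[n] w = w := by rw [hn, ← mul_assoc]; exact iter_mul hwl _
  have hzn : f^[n] (z0 + s1 * I) = z0 + s1 * I := by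
    rw [hn, mul_comm p l, ← mul_assoc]; exact iter_mul hper _
  set J : Set ℝ := Ioo (-r) r ∩ ball s η with hJd
  have hJc : IsPreconnected J := ((convex_Ioo _ _).inter (convex_ball _ _)).isPreconnected
  have hmem : ∀ c ∈ J, c ∈ Ioo (-r) r ∧ |c - s| < η := fun c hc =>
    ⟨hc.1, by have := hc.2; rwa [mem_ball, Real.dist_eq] at this⟩
  have h0 : ∀ c ∈ J, ‖(z0 + c * I - w) - (x - w)‖ < ‖x - w‖ := fun c hc => by
    have h1 := hJ c (hmem c hc).1 (hmem c hc).2 0
    simp only [Function.iterate_zero, id_eq, dist_eq_norm] at h1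
    rw [sub_sub_sub_cancel_right]
    linarith
  have h1 : ∀ c ∈ J, ‖(f^[n] (z0 + c * I) - w) - (x - w)‖ < ‖x - w‖ := fun c hc => by
    have h1 := hJ c (hmem c hc).1 (hmem c hc).2 n
    have h2 := hJ s1 hs1 hs1η n
    have h3 := hJ s1 hs1 hs1η 0
    rw [hzn] at h2
    simp only [Function.iterate_zero, id_eq] at h3
    have h4 := dist_triangle (f^[n] (z0 + c * I)) (f^[n] x) x
    have h5 := dist_triangle_left (f^[n] x) x (z0 + s1 * I)
    rw [sub_sub_sub_cancel_right, ← dist_eq_norm]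
    linarith
  have hne' : ∀ c ∈ J, z0 + c * I - w ≠ 0 := fun c hc e => by
    have := h0 c hc
    rw [e, zero_sub, norm_neg] at this
    exact lt_irrefl _ this
  have hcont : ∀ i, ContinuousOn (fun c : ℝ => f^[i] (z0 + c * I)) J := fun i => by
    refine ContinuousOn.mono (s := Ioo (-r) r) ?_ inter_subset_left
    rw [Metric.continuousOn_iff]
    intro c hc ε hε
    obtain ⟨δ, hδ, hδ'⟩ := heq c hc ε hε
    exact ⟨δ, hδ, fun c' hc' hcc => hδ' c' hc' (by rwa [Real.dist_eq] at hcc) i⟩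
  set Φ : ℝ → ℝ := fun c => Rn f n (z0 + c * I) w - arg ((f^[n] (z0 + c * I) - w) / (x - w))
    + arg ((z0 + c * I - w) / (x - w)) with hΦ
  have hΦc : ContinuousOn Φ J := by
    refine ContinuousOn.add (ContinuousOn.sub ?_ ?_) ?_
    · refine continuousOn_finsetSum _ fun i _ => continuousOn_arg.comp ?_ fun c hc => ?_
      · exact ((hcont _).sub continuousOn_const).div ((hcont _).sub continuousOn_const)
          fun c hc => iter_ne h (horb c hc.1) hw (hne' c hc) i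
      · refine Or.inl ?_
        rw [Function.iterate_succ_apply', Function.iterate_succ_apply']
        exact step h (horb c hc.1 i) (hw i) (iter_ne h (horb c hc.1) hw (hne' c hc) i)
    · exact continuousOn_arg.comp (((hcont n).sub continuousOn_const).div_const _)
        fun c hc => Or.inl (re_pos_of_norm_lt (h1 c hc))
    · exact continuousOn_arg.comp (((hcont 0).sub continuousOn_const).div_const _)
        fun c hc => Or.inl (re_pos_of_norm_lt (h0 c hc))
  have hΦ0 : ∀ c ∈ J, (Φ c : Real.Angle) = 0 := fun c hc => by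
    have h2 := iter_ne h (horb c hc.1) hw (hne' c hc) n
    have h3 := Rn_angle h (horb c hc.1) hw (hne' c hc) n
    rw [hwn] at h2 h3
    simp only [hΦ]
    rw [Real.Angle.coe_add, Real.Angle.coe_sub, h3, arg_div_coe_angle h2 hxw,
      arg_div_coe_angle (hne' c hc) hxw]
    abel
  have haJ : a ∈ J := ⟨ha, by rwa [mem_ball, Real.dist_eq]⟩
  have hbJ : b ∈ J := ⟨hb, by rwa [mem_ball, Real.dist_eq]⟩
  have hab : Φ a = Φ b :=
    (AddCircle.isCoveringMap_coe (2 * Real.pi)).constOn_of_comp hJc hΦc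
      (fun c hc c' hc' => (hΦ0 c hc).trans (hΦ0 c' hc').symm) haJ hbJ
  simp only [hΦ] at hab
  have e1 := abs_le.1 (abs_arg_le_pi_div_two_iff.2 (re_pos_of_norm_lt (h0 a haJ)).le)
  have e2 := abs_le.1 (abs_arg_le_pi_div_two_iff.2 (re_pos_of_norm_lt (h1 a haJ)).le)
  have e3 := abs_le.1 (abs_arg_le_pi_div_two_iff.2 (re_pos_of_norm_lt (h0 b hbJ)).le)
  have e4 := abs_le.1 (abs_arg_le_pi_div_two_iff.2 (re_pos_of_norm_lt (h1 b hbJ)).le)
  rw [abs_le]
  constructor <;> linarith [e1.1, e1.2, e2.1, e2.2, e3.1, e3.2, e4.1, e4.2]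

theorem move (h : Near f H z0 R)
    (horb : ∀ s ∈ Ioo (-r) r, ∀ i, f^[i] (z0 + s * I) ∈ ball z0 R)
    (heq : ∀ s ∈ Ioo (-r) r, ∀ d > 0, ∃ η > 0, ∀ s' ∈ Ioo (-r) r, |s' - s| < η →
      ∀ i, dist (f^[i] (z0 + s' * I)) (f^[i] (z0 + s * I)) < d)
    (hdense : ∀ s ∈ Ioo (-r) r, ∀ η > 0, ∃ s' ∈ Ioo (-r) r, |s' - s| < η ∧
      ∃ k > 0, f^[k] (z0 + s' * I) = z0 + s' * I)
    {w : ℂ} (hw : ∀ i, f^[i] w ∈ ball z0 R) {l : ℕ} (hl : 0 < l) (hwl : f^[l] w = w)
    {a b : ℝ} (ha : a ∈ Ioo (-r) r) (hb : b ∈ Ioo (-r) r)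
    (hne : ∀ c ∈ uIcc a b, z0 + c * I ≠ w) (hN : Null f (z0 + a * I) w) :
    Null f (z0 + b * I) w := by
  have hsub : uIcc a b ⊆ Ioo (-r) r := ordConnected_Ioo.uIcc_subset ha hb
  refine isPreconnected_uIcc.induction₂'
    (fun c c' : ℝ => Null f (z0 + c * I) w → Null f (z0 + c' * I) w) (fun c hc => ?_)
    (fun c c' c'' _ _ _ h1 h2 h3 => h2 (h1 h3)) left_mem_uIcc right_mem_uIcc hN
  obtain ⟨η, hη, N, hN, hb⟩ := loc h horb heq hdense hw hl hwl (hsub hc) (hne c hc)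
  have hc0 : |c - c| < η := by simpa using hη
  filter_upwards [self_mem_nhdsWithin, mem_nhdsWithin_of_mem_nhds (ball_mem_nhds c hη)]
    with c' hc' hcc
  rw [mem_ball, Real.dist_eq] at hcc
  exact ⟨fun h1 => h1.trans hN (hb c (hsub hc) hc0 c' (hsub hc') hcc),
    fun h1 => h1.trans hN (hb c' (hsub hc') hcc c (hsub hc) hc0)⟩

theorem line_inj {a b : ℝ} (e : z0 + a * I = z0 + b * I) : a = b := by
  have := congrArg Complex.im e
  simpa using this

end LocRhoX

open LocRhoX in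
theorem Near.turn_eq_zero {f : ℂ → ℂ} {H : ℂ → ℝ} {z0 : ℂ} {R r : ℝ} (h : Near f H z0 R)
    (horb : ∀ s ∈ Ioo (-r) r, ∀ i, f^[i] (z0 + s * I) ∈ ball z0 (R / 4))
    (heq : ∀ s ∈ Ioo (-r) r, ∀ d > 0, ∃ η > 0, ∀ s' ∈ Ioo (-r) r, |s' - s| < η →
      ∀ i, dist (f^[i] (z0 + s' * I)) (f^[i] (z0 + s * I)) < d)
    (hdense : ∀ s ∈ Ioo (-r) r, ∀ η > 0, ∃ s' ∈ Ioo (-r) r, |s' - s| < η ∧
      ∃ k > 0, f^[k] (z0 + s' * I) = z0 + s' * I)
    (hfix : ∃ s ∈ Ioo (-r) r, s ≠ 0 ∧ f (z0 + s * I) = z0 + s * I)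
    {s : ℝ} (hs : s ∈ Ioo (-r) r) {k : ℕ} (hk : 0 < k) (hper : f^[k] (z0 + s * I) = z0 + s * I)
    (hy : f (z0 + s * I) ≠ z0 + s * I) {w : ℂ} (hw : w ∈ ball z0 R) (hfw : f w = w) :
    turn f (z0 + s * I) k w = 0 := by
  have hR := h.R_pos
  have horb' : ∀ s ∈ Ioo (-r) r, ∀ i, f^[i] (z0 + s * I) ∈ ball z0 R := fun s hs i =>
    ball_subset_ball (by linarith) (horb s hs i)
  have hwi : ∀ i, f^[i] w = w := fun i => Function.iterate_fixed hfw i
  have hwB : ∀ i, f^[i] w ∈ ball z0 R := fun i => by rw [hwi]; exact hw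
  obtain ⟨t, ht, hft, htw⟩ : ∃ t ∈ Ioo (-r) r, f (z0 + t * I) = z0 + t * I ∧ z0 + t * I ≠ w := by
    obtain ⟨s0, hs0, hs00, hf0⟩ := hfix
    by_cases e : z0 + s0 * I = w
    · refine ⟨0, ⟨by linarith [hs.1, hs.2], by linarith [hs.1, hs.2]⟩, by simpa using h.fix,
        fun e' => hs00 (line_inj (e.trans e'.symm))⟩
    · exact ⟨s0, hs0, hf0, e⟩
  have key : Null f (z0 + s * I) w := by
    by_cases hc : ∀ c ∈ uIcc t s, z0 + c * I ≠ w
    · exact move h horb' heq hdense hwB one_pos hfw ht hs hc (null_fixed hft hfw)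
    · push Not at hc
      obtain ⟨c, hc, rfl⟩ := hc
      have hcI : c ∈ Ioo (-r) r := ordConnected_Ioo.uIcc_subset ht hs hc
      have hct : c ≠ t := fun e => htw (by rw [e])
      have hcs : c ≠ s := fun e => hy (by rw [← e]; exact hfw)
      have h1 : Null f (z0 + s * I) (z0 + t * I) := by
        refine move h horb' heq hdense (horb' t ht) one_pos hft hcI hs (fun e he e' => ?_)
          (null_fixed hfw hft)
        obtain rfl := line_inj e'
        rw [mem_uIcc] at hc he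
        rcases hc with hc | hc <;> rcases he with he | he <;>
          exact hct (by linarith [hc.1, hc.2, he.1, he.2])
      have h2 : Null f (z0 + c * I) (z0 + s * I) := by
        refine move h horb' heq hdense (horb' s hs) hk hper ht hcI (fun e he e' => ?_) h1.symm
        obtain rfl := line_inj e'
        rw [mem_uIcc] at hc he
        rcases hc with hc | hc <;> rcases he with he | he <;>
          exact hcs (by linarith [hc.1, hc.2, he.1, he.2])
      exact h2.symm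
  have e := key.eq_zero hper (hwi k)
  unfold Rn at e
  simpa only [turn, hwi] using e

end Pool.Agent.GeoFin
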