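import Mathlib
import Pool.Agent.P.MP_365c00_gt.LocDefs

/-!
A periodic orbit turns around some fixed point (paper sec. 4, part (nu)).
-/

open Set Metric Complex

namespace Pool.Agent.GeoFin

/-- the quadrilateral sum -/
noncomputable def quad (P Q a b : ℂ) : ℝ :=
  arg ((Q - b) / (P - b)) - arg ((Q - a) / (P - a)) - arg ((Q - b) / (Q - a)) +
    arg ((P - b) / (P - a))

namespace LocWindX

theorem arg_div_half {u x y : ℂ} (hx : 0 < (u * x).re) (hy : 0 < (u * y).re) :
    arg (x / y) = arg (u * x) - arg (u * y) := by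
  have hx0 : u * x ≠ 0 := fun h => by simp [h] at hx
  have hy0 : u * y ≠ 0 := fun h => by simp [h] at hy
  have hu : u ≠ 0 := left_ne_zero_of_mul hx0
  have e : x / y = (u * x) / (u * y) := (mul_div_mul_left x y hu).symm
  have h1 := abs_lt.1 (abs_arg_lt_pi_div_two_iff.2 (Or.inl hx))
  have h2 := abs_lt.1 (abs_arg_lt_pi_div_two_iff.2 (Or.inl hy))
  have h3 : ((arg (x / y) : ℝ) : Real.Angle) = ((arg (u * x) - arg (u * y) : ℝ) : Real.Angle) := by
    rw [e, arg_div_coe_angle hx0 hy0, Real.Angle.coe_sub]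
  have h4 := congrArg Real.Angle.toReal h3
  rw [arg_coe_angle_toReal_eq_arg, Real.Angle.toReal_coe_eq_self_iff.2
    ⟨by linarith [h1.1, h2.2], by linarith [h1.2, h2.1]⟩] at h4
  exact h4

theorem quad_int {P Q a b : ℂ} (h1 : P - a ≠ 0) (h2 : P - b ≠ 0) (h3 : Q - a ≠ 0)
    (h4 : Q - b ≠ 0) : ∃ n : ℤ, (n : ℝ) * (2 * Real.pi) = quad P Q a b := by
  have : ((quad P Q a b : ℝ) : Real.Angle) = 0 := by
    unfold quad
    rw [Real.Angle.coe_add, Real.Angle.coe_sub, Real.Angle.coe_sub, arg_div_coe_angle h4 h2,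
      arg_div_coe_angle h3 h1, arg_div_coe_angle h4 h3, arg_div_coe_angle h2 h1]
    abel
  obtain ⟨n, hn⟩ := Real.Angle.coe_eq_zero_iff.1 this
  exact ⟨n, by simpa using hn⟩

theorem im_div (x y : ℂ) : (x / y).im = (x.im * y.re - x.re * y.im) / normSq y := by
  rw [div_im]
  ring

end LocWindX

open LocWindX

theorem quad_eq_zero {P Q a b : ℂ} (h : Disjoint (segment ℝ a b) (segment ℝ P Q)) :
    quad P Q a b = 0 := by
  have hc : ∀ x y : ℂ, IsCompact (segment ℝ x y) := fun x y => by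
    rw [segment_eq_image]
    exact isCompact_Icc.image (by fun_prop)
  obtain ⟨φ, s, t, h1, hst, h2⟩ := geometric_hahn_banach_compact_closed (convex_segment a b)
    (hc a b) (convex_segment P Q) (hc P Q).isClosed h
  set u : ℂ := (φ 1 : ℂ) - (φ I : ℂ) * I with hu
  have hφ : ∀ z : ℂ, (u * z).re = φ z := by
    intro z
    have : z = z.re • (1 : ℂ) + z.im • I := by simp
    conv_rhs => rw [this, map_add, map_smul, map_smul]
    simp [hu]
    ring
  have ha := h1 a (left_mem_segment ℝ a b)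
  have hb := h1 b (right_mem_segment ℝ a b)
  have hP := h2 P (left_mem_segment ℝ P Q)
  have hQ := h2 Q (right_mem_segment ℝ P Q)
  have e1 : 0 < (u * (P - a)).re := by rw [hφ, map_sub]; linarith
  have e2 : 0 < (u * (P - b)).re := by rw [hφ, map_sub]; linarith
  have e3 : 0 < (u * (Q - a)).re := by rw [hφ, map_sub]; linarith
  have e4 : 0 < (u * (Q - b)).re := by rw [hφ, map_sub]; linarith
  unfold quad
  rw [arg_div_half e4 e2, arg_div_half e3 e1, arg_div_half e4 e3, arg_div_half e2 e1]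
  ring

theorem quad_nonpos {P Q a b : ℂ} (ha : a ∉ segment ℝ P Q) (hb : b ∉ segment ℝ P Q)
    (h : ¬ Disjoint (segment ℝ a b) (segment ℝ P Q))
    (hs : ((starRingEnd ℂ) (Q - P) * (b - a)).im < 0) :
    quad P Q a b ≤ 0 ∧ (P ∉ segment ℝ a b → quad P Q a b < 0) := by
  obtain ⟨c, hc1, hc2⟩ := Set.not_disjoint_iff.1 h
  have hc1' := hc1
  have hc2' := hc2
  rw [segment_eq_image'] at hc1 hc2
  obtain ⟨s, hs01, hsc⟩ := hc1
  obtain ⟨t, ht01, htc⟩ := hc2
  have hsc' : a + s • (b - a) = c := hsc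
  have htc' : P + t • (Q - P) = c := htc
  have hs0 : 0 < s := lt_of_le_of_ne hs01.1 fun h0 => ha (by
    rw [← h0] at hsc'
    have : a = c := by simpa using hsc'
    rw [this]; exact hc2')
  have hs1 : s < 1 := lt_of_le_of_ne hs01.2 fun h0 => hb (by
    rw [h0] at hsc'
    have : b = c := by simpa using hsc'
    rw [this]; exact hc2')
  have n1 : P - a ≠ 0 := sub_ne_zero.2 fun h => ha (h ▸ left_mem_segment ℝ P Q)
  have n2 : P - b ≠ 0 := sub_ne_zero.2 fun h => hb (h ▸ left_mem_segment ℝ P Q)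
  have n3 : Q - a ≠ 0 := sub_ne_zero.2 fun h => ha (h ▸ right_mem_segment ℝ P Q)
  have n4 : Q - b ≠ 0 := sub_ne_zero.2 fun h => hb (h ▸ right_mem_segment ℝ P Q)
  have hre : a.re + s * (b.re - a.re) = P.re + t * (Q.re - P.re) := by
    have := congrArg re (hsc'.trans htc'.symm)
    simpa using this
  have him : a.im + s * (b.im - a.im) = P.im + t * (Q.im - P.im) := by
    have := congrArg im (hsc'.trans htc'.symm)
    simpa using this
  set D : ℝ := (Q.re - P.re) * (b.im - a.im) - (Q.im - P.im) * (b.re - a.re) with hD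
  have hD0 : D < 0 := by
    have : ((starRingEnd ℂ) (Q - P) * (b - a)).im = D := by
      simp [hD]
      ring
    rwa [this] at hs
  have a1 : arg ((Q - b) / (P - b)) < 0 := by
    rw [arg_neg_iff, im_div]
    refine div_neg_of_neg_of_pos ?_ (normSq_pos.2 n2)
    have : (Q - b).im * (P - b).re - (Q - b).re * (P - b).im = (1 - s) * D := by
      simp only [sub_re, sub_im, hD]
      linear_combination (-(Q.im - P.im)) * hre + (Q.re - P.re) * him
    rw [this]
    exact mul_neg_of_pos_of_neg (by linarith) hD0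
  have a2 : 0 ≤ arg ((Q - a) / (P - a)) := by
    rw [arg_nonneg_iff, im_div]
    refine div_nonneg ?_ (normSq_nonneg _)
    have : (Q - a).im * (P - a).re - (Q - a).re * (P - a).im = -(s * D) := by
      simp only [sub_re, sub_im, hD]
      linear_combination (-(Q.im - P.im)) * hre + (Q.re - P.re) * him
    rw [this]
    nlinarith
  have a3 : 0 ≤ arg ((Q - b) / (Q - a)) := by
    rw [arg_nonneg_iff, im_div]
    refine div_nonneg ?_ (normSq_nonneg _)
    have : (Q - b).im * (Q - a).re - (Q - b).re * (Q - a).im = -((1 - t) * D) := by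
      simp only [sub_re, sub_im, hD]
      linear_combination (b.im - a.im) * hre - (b.re - a.re) * him
    rw [this]
    nlinarith [ht01.2]
  have key : 0 < t → quad P Q a b < 0 := by
    intro ht
    have a4 : arg ((P - b) / (P - a)) < 0 := by
      rw [arg_neg_iff, im_div]
      refine div_neg_of_neg_of_pos ?_ (normSq_pos.2 n1)
      have : (P - b).im * (P - a).re - (P - b).re * (P - a).im = t * D := by
        simp only [sub_re, sub_im, hD]
        linear_combination (b.im - a.im) * hre - (b.re - a.re) * him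
      rw [this]
      exact mul_neg_of_pos_of_neg ht hD0
    unfold quad
    linarith
  constructor
  · obtain ⟨n, hn⟩ := quad_int n1 n2 n3 n4
    have h1 : quad P Q a b < Real.pi := by
      unfold quad
      linarith [arg_le_pi ((P - b) / (P - a))]
    have hπ := Real.pi_pos
    have h2 : (n : ℝ) < 1 := by nlinarith
    have h3 : n ≤ 0 := by
      have : n < 1 := by exact_mod_cast h2
      omega
    have h4 : (n : ℝ) ≤ 0 := by exact_mod_cast h3
    nlinarith
  · intro hP
    refine key (lt_of_le_of_ne ht01.1 fun h0 => hP ?_)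
    rw [← h0] at htc'
    have : P = c := by simpa using htc'
    rw [this]; exact hc1'

namespace LocWindX

/-- the orbit polygon -/
def Gam (f : ℂ → ℂ) (y : ℂ) (k : ℕ) : Set ℂ :=
  ⋃ i ∈ Finset.range k, segment ℝ (f^[i] y) (f^[i + 1] y)

theorem isClosed_Gam (f : ℂ → ℂ) (y : ℂ) (k : ℕ) : IsClosed (Gam f y k) := by
  refine isClosed_biUnion_finset fun i _ => IsCompact.isClosed ?_
  rw [segment_eq_image]
  exact isCompact_Icc.image (by fun_prop)

theorem not_mem_Gam {f : ℂ → ℂ} {y z : ℂ} {k : ℕ} :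
    z ∉ Gam f y k ↔ ∀ i < k, z ∉ segment ℝ (f^[i] y) (f^[i + 1] y) := by
  simp [Gam]

theorem turn_sub {f : ℂ → ℂ} {y : ℂ} {k : ℕ} (hper : f^[k] y = y) (a b : ℂ) :
    turn f y k b - turn f y k a = ∑ i ∈ Finset.range k, quad (f^[i] y) (f^[i + 1] y) a b := by
  have h := Finset.sum_range_sub (fun i => arg ((f^[i] y - b) / (f^[i] y - a))) k
  simp only [hper, Function.iterate_zero, id, sub_self] at h
  unfold turn quad
  rw [Finset.sum_sub_distrib] at h
  rw [Finset.sum_add_distrib, Finset.sum_sub_distrib, Finset.sum_sub_distrib]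
  linarith

theorem turn_far {f : ℂ → ℂ} {y z0 w : ℂ} {k : ℕ} {r : ℝ} (hper : f^[k] y = y)
    (horb : ∀ i, f^[i] y ∈ ball z0 r) (hw : w ∉ closedBall z0 r) : turn f y k w = 0 := by
  set u : ℂ := (starRingEnd ℂ) (z0 - w) with hu
  have hpos : ∀ i, 0 < (u * (f^[i] y - w)).re := by
    intro i
    have h1 : ‖f^[i] y - z0‖ < r := by simpa [dist_eq_norm] using horb i
    have h2 : r < ‖z0 - w‖ := by
      rw [mem_closedBall, not_le, dist_comm, dist_eq_norm] at hw
      exact hw
    have h3 : u * (f^[i] y - w) = u * (z0 - w) + u * (f^[i] y - z0) := by ring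
    have h4 : (u * (z0 - w)).re = ‖z0 - w‖ ^ 2 := by
      rw [hu, mul_comm, mul_conj, normSq_eq_norm_sq, ofReal_re]
    have h5 : |(u * (f^[i] y - z0)).re| ≤ ‖z0 - w‖ * ‖f^[i] y - z0‖ := by
      refine (abs_re_le_norm _).trans ?_
      rw [norm_mul, hu, norm_conj]
    have h6 := (abs_le.1 h5).1
    have h7 := norm_nonneg (f^[i] y - z0)
    rw [h3, add_re, h4]
    nlinarith
  unfold turn
  simp_rw [fun i => arg_div_half (hpos (i + 1)) (hpos i)]
  rw [Finset.sum_range_sub (fun i => arg (u * (f^[i] y - w))) k]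
  simp [hper]

theorem turn_loc {f : ℂ → ℂ} {y w : ℂ} {k : ℕ} (hper : f^[k] y = y) (hw : w ∉ Gam f y k) :
    ∃ ε > 0, ∀ z ∈ ball w ε, turn f y k z = turn f y k w := by
  obtain ⟨ε, hε, hb⟩ := Metric.isOpen_iff.1 (isClosed_Gam f y k).isOpen_compl w hw
  refine ⟨ε, hε, fun z hz => ?_⟩
  have h := turn_sub hper w z
  rw [Finset.sum_eq_zero] at h
  · linarith
  · intro i hi
    refine quad_eq_zero (Set.disjoint_left.2 fun x hx => ?_)
    have : x ∈ ball w ε := (convex_ball w ε).segment_subset (mem_ball_self hε) hz hx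
    exact not_mem_Gam.1 (hb this) i (Finset.mem_range.1 hi)

theorem re_pos {A B C : ℂ} (hA : A ≠ 0) (h1 : ‖C - A‖ ≤ 1 / 10 * ‖A‖)
    (h2 : ‖C - B‖ ≤ 1 / 10 * ‖B‖) : 0 < A.re * B.re + A.im * B.im := by
  have h3 : ‖A - B‖ ≤ 1 / 10 * ‖A‖ + 1 / 10 * ‖B‖ := by
    have : A - B = (C - B) - (C - A) := by ring
    rw [this]
    linarith [norm_sub_le (C - B) (C - A)]
  have h4 : ‖A - B‖ ^ 2 = ‖A‖ ^ 2 + ‖B‖ ^ 2 - 2 * (A.re * B.re + A.im * B.im) := by
    rw [← normSq_eq_norm_sq, ← normSq_eq_norm_sq, ← normSq_eq_norm_sq]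
    simp only [normSq_apply, sub_re, sub_im]
    ring
  have h5 := pow_le_pow_left₀ (norm_nonneg _) h3 2
  have h6 := norm_pos_iff.2 hA
  nlinarith [sq_nonneg (‖A‖ - ‖B‖), sq_nonneg ‖B‖, pow_pos h6 2]

theorem norm_sub_le_of_mem {a b x y : ℂ} (hx : x ∈ segment ℝ a b) (hy : y ∈ segment ℝ a b) :
    ‖x - y‖ ≤ ‖b - a‖ := by
  rw [segment_eq_image'] at hx hy
  obtain ⟨s, hs, rfl⟩ := hx
  obtain ⟨t, ht, rfl⟩ := hy
  have : a + s • (b - a) - (a + t • (b - a)) = (s - t) • (b - a) := by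
    rw [sub_smul]; abel
  simp only
  rw [this, norm_smul, Real.norm_eq_abs]
  have h1 : |s - t| ≤ 1 := abs_le.2 ⟨by linarith [hs.1, ht.2], by linarith [hs.2, ht.1]⟩
  nlinarith [norm_nonneg (b - a), abs_nonneg (s - t)]

section
variable {f : ℂ → ℂ} {H : ℂ → ℝ} {z0 : ℂ} {R : ℝ} {y : ℂ} {k : ℕ}

theorem not_fixed (hk : 0 < k) (hper : f^[k] y = y) (hy : f y ≠ y) (i : ℕ) :
    f (f^[i] y) - f^[i] y ≠ 0 := by
  intro h
  have h1 : f (f^[i] y) = f^[i] y := sub_eq_zero.1 h
  have h2 : f^[k * (i + 1)] y = y := Function.IsPeriodicPt.mul_const hper (i + 1)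
  have h3 : k * (i + 1) = (k * (i + 1) - i) + i := by
    have : i + 1 ≤ k * (i + 1) := Nat.le_mul_of_pos_left _ hk
    omega
  rw [h3, Function.iterate_add_apply, Function.iterate_fixed h1] at h2
  rw [h2] at h1
  exact hy h1

theorem cross (h : Near f H z0 R) (hk : 0 < k) (hper : f^[k] y = y)
    (horb : ∀ i, f^[i] y ∈ ball z0 (R / 4)) (hy : f y ≠ y) {i : ℕ} {c m : ℂ}
    (hc : c ∈ segment ℝ (f^[i] y) (f^[i + 1] y)) (hm : m ∈ ball z0 R)
    (hcm : ‖c - m‖ ≤ ‖f m - m‖) :
    0 < (f^[i + 1] y - f^[i] y).re * (f m - m).re + (f^[i + 1] y - f^[i] y).im * (f m - m).im := by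
  have hR := h.R_pos
  have hsub : ball z0 (R / 4) ⊆ ball z0 R := ball_subset_ball (by linarith)
  have hcb : c ∈ ball z0 R := hsub ((convex_ball z0 (R / 4)).segment_subset (horb _) (horb _) hc)
  have h1 := h.lip c hcb _ (hsub (horb i))
  have h2 := h.lip c hcb m hm
  have h3 := norm_sub_le_of_mem hc (left_mem_segment ℝ _ _)
  rw [Function.iterate_succ_apply'] at h3 ⊢
  exact re_pos (C := f c - c) (not_fixed hk hper hy i) (by linarith) (by linarith)

theorem quad_step (h : Near f H z0 R) (hk : 0 < k) (hper : f^[k] y = y)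
    (horb : ∀ i, f^[i] y ∈ ball z0 (R / 4)) (hy : f y ≠ y) {a b m : ℂ} {t : ℝ}
    (ha : a ∉ Gam f y k) (hb : b ∉ Gam f y k) (hm : m ∈ ball z0 R) (hmab : m ∈ segment ℝ a b)
    (ht0 : 0 < t) (ht1 : t ≤ 1) (hab : b - a = -(I * t * (f m - m))) {i : ℕ} (hi : i < k) :
    quad (f^[i] y) (f^[i + 1] y) a b ≤ 0 ∧
      (¬ Disjoint (segment ℝ a b) (segment ℝ (f^[i] y) (f^[i + 1] y)) →
        f^[i] y ∉ segment ℝ a b → quad (f^[i] y) (f^[i + 1] y) a b < 0) := by
  by_cases hd : Disjoint (segment ℝ a b) (segment ℝ (f^[i] y) (f^[i + 1] y))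
  · exact ⟨(quad_eq_zero hd).le, fun h => absurd hd h⟩
  · obtain ⟨c, hc1, hc2⟩ := Set.not_disjoint_iff.1 hd
    have h1 : ‖c - m‖ ≤ ‖f m - m‖ := by
      refine (norm_sub_le_of_mem hc1 hmab).trans ?_
      rw [hab, norm_neg, norm_mul, norm_mul, norm_I, norm_real, Real.norm_eq_abs, abs_of_pos ht0]
      nlinarith [norm_nonneg (f m - m)]
    have h2 := cross h hk hper horb hy hc2 hm h1
    have h3 : ((starRingEnd ℂ) (f^[i + 1] y - f^[i] y) * (b - a)).im < 0 := by
      rw [hab]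
      generalize f^[i + 1] y - f^[i] y = A at h2 ⊢
      generalize f m - m = B at h2 ⊢
      have : ((starRingEnd ℂ) A * -(I * t * B)).im = -(t * (A.re * B.re + A.im * B.im)) := by
        simp
        ring
      rw [this]
      nlinarith
    have := quad_nonpos (not_mem_Gam.1 ha i hi) (not_mem_Gam.1 hb i hi) hd h3
    exact ⟨this.1, fun _ => this.2⟩

theorem avoid (h : Near f H z0 R) (hk : 0 < k) (hper : f^[k] y = y)
    (horb : ∀ i, f^[i] y ∈ ball z0 (R / 4)) (hy : f y ≠ y) {z : ℂ} (hz : z ∈ ball z0 R)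
    {lo hi : ℝ} (h0 : -1 ≤ lo) (hlt : lo < hi) (h1 : hi ≤ 1) :
    ∃ t ∈ Icc lo hi, z + I * t * (f z - z) ∉ Gam f y k := by
  have hfin : (⋃ i ∈ Finset.range k,
      {t ∈ Icc lo hi | z + I * t * (f z - z) ∈ segment ℝ (f^[i] y) (f^[i + 1] y)}).Finite := by
    refine Set.Finite.biUnion (Finset.finite_toSet _) fun i _ => Set.Subsingleton.finite ?_
    rintro t ⟨ht, hs⟩ t' ⟨ht', hs'⟩
    have hn : ‖z + I * t * (f z - z) - z‖ ≤ ‖f z - z‖ := by
      rw [add_sub_cancel_left, norm_mul, norm_mul, norm_I, norm_real, Real.norm_eq_abs]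
      have : |t| ≤ 1 := abs_le.2 ⟨by linarith [ht.1], by linarith [ht.2]⟩
      nlinarith [norm_nonneg (f z - z), abs_nonneg t]
    have h2 := cross h hk hper horb hy hs hz hn
    rw [segment_eq_image'] at hs hs'
    obtain ⟨s, -, hs⟩ := hs
    obtain ⟨s', -, hs'⟩ := hs'
    generalize f^[i + 1] y - f^[i] y = A at h2 hs hs'
    generalize f z - z = B at h2 hs hs'
    have e1 := congrArg re hs
    have e2 := congrArg im hs
    have e3 := congrArg re hs'
    have e4 := congrArg im hs'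
    simp at e1 e2 e3 e4
    have : (t - t') * (A.re * B.re + A.im * B.im) = 0 := by
      linear_combination A.im * e1 - A.re * e2 - A.im * e3 + A.re * e4
    rcases mul_eq_zero.1 this with h | h
    · linarith
    · exact absurd h h2.ne'
  obtain ⟨t, ht, hn⟩ := (Set.Icc_infinite hlt).exists_notMem_finite hfin
  refine ⟨t, ht, not_mem_Gam.2 fun i hi hs => hn ?_⟩
  exact Set.mem_biUnion (Finset.mem_coe.2 (Finset.mem_range.2 hi)) ⟨ht, hs⟩

theorem descend (h : Near f H z0 R) {G : ℂ → ℝ} (hG : ContinuousOn G (ball z0 R)) {S : Set ℂ}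
    (hS : S ⊆ closedBall z0 (R / 4)) (hne : S.Nonempty)
    (hstep : ∀ z ∈ S, ∃ z' ∈ S, G z + ‖f z - z‖ ^ 2 / 4 ≤ G z') :
    ∃ w ∈ closure S, f w = w := by
  have hR := h.R_pos
  have hsub : closedBall z0 (R / 4) ⊆ ball z0 R := closedBall_subset_ball (by linarith)
  have hcl : closure S ⊆ closedBall z0 (R / 4) := closure_minimal hS isClosed_closedBall
  have hK : IsCompact (closure S) :=
    (isCompact_closedBall z0 (R / 4)).of_isClosed_subset isClosed_closure hcl
  have hX : ContinuousOn (fun z => ‖f z - z‖) (ball z0 R) := by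
    refine ContinuousOn.norm (LipschitzOnWith.continuousOn (K := 1) ?_)
    refine LipschitzOnWith.of_dist_le_mul fun z hz z' hz' => ?_
    rw [dist_eq_norm, dist_eq_norm]
    have := h.lip z hz z' hz'
    simp only [NNReal.coe_one]
    linarith [norm_nonneg (z - z')]
  obtain ⟨w, hw, hmin⟩ := hK.exists_isMinOn hne.closure (hX.mono (hcl.trans hsub))
  refine ⟨w, hw, ?_⟩
  by_contra hc
  have hp : 0 < ‖f w - w‖ := norm_pos_iff.2 (sub_ne_zero.2 hc)
  have hbdd : BddAbove (G '' S) :=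
    ((isCompact_closedBall z0 (R / 4)).bddAbove_image (hG.mono hsub)).mono (image_mono hS)
  obtain ⟨_, ⟨z, hz, rfl⟩, hlt⟩ := exists_lt_of_lt_csSup (hne.image G)
    (show sSup (G '' S) - ‖f w - w‖ ^ 2 / 4 < sSup (G '' S) by nlinarith)
  obtain ⟨z', hz', h1⟩ := hstep z hz
  have h2 := le_csSup hbdd (mem_image_of_mem G hz')
  have h3 : ‖f w - w‖ ≤ ‖f z - z‖ := hmin (subset_closure hz)
  have h4 := pow_le_pow_left₀ hp.le h3 2
  linarith

end

end LocWindX

theorem Near.exists_turn_ne {f : ℂ → ℂ} {H : ℂ → ℝ} {z0 : ℂ} {R : ℝ} (h : Near f H z0 R)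
    {y : ℂ} {k : ℕ} (hk : 0 < k) (hper : f^[k] y = y) (horb : ∀ i, f^[i] y ∈ ball z0 (R / 4))
    (hy : f y ≠ y) : ∃ w ∈ closedBall z0 (R / 2), f w = w ∧ turn f y k w ≠ 0 := by
  by_contra hcon
  push Not at hcon
  have hR := h.R_pos
  have hsub : closedBall z0 (R / 4) ⊆ ball z0 R := closedBall_subset_ball (by linarith)
  have hsub2 : closedBall z0 (R / 4) ⊆ closedBall z0 (R / 2) :=
    closedBall_subset_closedBall (by linarith)
  have hmono : ∀ {a b m : ℂ} {t : ℝ}, a ∉ Gam f y k → b ∉ Gam f y k → m ∈ ball z0 R →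
      m ∈ segment ℝ a b → 0 < t → t ≤ 1 → b - a = -(I * t * (f m - m)) →
      turn f y k b ≤ turn f y k a := by
    intro a b m t ha hb hm hmab ht0 ht1 hab
    have h1 := turn_sub hper a b
    have h2 : ∑ i ∈ Finset.range k, quad (f^[i] y) (f^[i + 1] y) a b ≤ 0 :=
      Finset.sum_nonpos fun i hi =>
        (quad_step h hk hper horb hy ha hb hm hmab ht0 ht1 hab (Finset.mem_range.1 hi)).1
    linarith
  have hend : ∀ S : Set ℂ, S ⊆ closedBall z0 (R / 4) → (∀ z ∈ S, turn f y k z ≠ 0) →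
      ∀ w ∈ closure S, f w ≠ w := by
    intro S hS hS' w hw hfw
    have hw4 : w ∈ closedBall z0 (R / 4) := closure_minimal hS isClosed_closedBall hw
    have hwG : w ∉ Gam f y k := not_mem_Gam.2 fun i _ hi => by
      have := cross h hk hper horb hy hi (hsub hw4) (by simp)
      simp [hfw] at this
    obtain ⟨ε, hε, hl⟩ := turn_loc hper hwG
    obtain ⟨z, hz, hd⟩ := Metric.mem_closure_iff.1 hw ε hε
    exact hS' z hz ((hl z (mem_ball'.2 hd)).trans (hcon w (hsub2 hw4) hfw))
  have hpos : ∀ b, b ∉ Gam f y k → 0 ≤ turn f y k b := by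
    intro b hb
    by_contra hneg
    push Not at hneg
    have hS : {z | z ∉ Gam f y k ∧ turn f y k z < 0} ⊆ closedBall z0 (R / 4) := by
      intro z hz
      by_contra hc
      exact hz.2.ne (turn_far hper horb hc)
    obtain ⟨w, hw, hfw⟩ := descend h h.H_cont hS ⟨b, hb, hneg⟩ (fun z hz => by
      obtain ⟨t, ht, hn⟩ := avoid h hk hper horb hy (hsub (hS hz)) (lo := -1) (hi := -1 / 2)
        le_rfl (by norm_num) (by norm_num)
      have e : z + I * t * (f z - z) = z - I * ((-t : ℝ) : ℂ) * (f z - z) := by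
        push_cast; ring
      rw [e] at hn
      refine ⟨_, ⟨hn, lt_of_le_of_lt (hmono (m := z) (t := -t) hz.1 hn (hsub (hS hz))
        (left_mem_segment ℝ _ _) (by linarith [ht.2]) (by linarith [ht.1]) (by ring)) hz.2⟩, ?_⟩
      have := h.up z (hsub2 (hS hz)) (-t) ⟨by linarith [ht.2], by linarith [ht.1]⟩
      nlinarith [ht.2, sq_nonneg ‖f z - z‖])
    exact hend _ hS (fun z hz => hz.2.ne) w hw hfw
  have hneg : ∀ a, a ∉ Gam f y k → turn f y k a ≤ 0 := by
    intro a ha
    by_contra hneg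
    push Not at hneg
    have hS : {z | z ∉ Gam f y k ∧ 0 < turn f y k z} ⊆ closedBall z0 (R / 4) := by
      intro z hz
      by_contra hc
      exact hz.2.ne' (turn_far hper horb hc)
    obtain ⟨w, hw, hfw⟩ := descend h (G := fun z => -H z) h.H_cont.neg hS ⟨a, ha, hneg⟩
      (fun z hz => by
        obtain ⟨t, ht, hn⟩ := avoid h hk hper horb hy (hsub (hS hz)) (lo := 1 / 2) (hi := 1)
          (by norm_num) (by norm_num) le_rfl
        refine ⟨_, ⟨hn, lt_of_lt_of_le hz.2 (hmono (m := z) (t := t) hn hz.1 (hsub (hS hz))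
          (right_mem_segment ℝ _ _) (by linarith [ht.1]) ht.2 (by ring))⟩, ?_⟩
        have := h.down z (hsub2 (hS hz)) t ⟨by linarith [ht.1], ht.2⟩
        nlinarith [ht.1, sq_nonneg ‖f z - z‖])
    exact hend _ hS (fun z hz => hz.2.ne') w hw hfw
  set m : ℂ := y + (1 / 2 : ℝ) • (f y - y) with hm
  have hmseg : m ∈ segment ℝ (f^[0] y) (f^[0 + 1] y) := by
    rw [segment_eq_image']
    exact ⟨1 / 2, ⟨by norm_num, by norm_num⟩, by simp [hm]⟩
  have hmb : m ∈ ball z0 R := hsub (ball_subset_closedBall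
    ((convex_ball z0 (R / 4)).segment_subset (horb _) (horb _) hmseg))
  obtain ⟨s, hs, ha⟩ := avoid h hk hper horb hy hmb (lo := 1 / 4) (hi := 1 / 2)
    (by norm_num) (by norm_num) (by norm_num)
  obtain ⟨t, ht, hb⟩ := avoid h hk hper horb hy hmb (lo := -1 / 2) (hi := -1 / 4)
    (by norm_num) (by norm_num) (by norm_num)
  have hst : 0 < s - t := by linarith [hs.1, ht.2]
  have hab : (m + I * t * (f m - m)) - (m + I * s * (f m - m))
      = -(I * ((s - t : ℝ) : ℂ) * (f m - m)) := by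
    push_cast; ring
  have hmab : m ∈ segment ℝ (m + I * s * (f m - m)) (m + I * t * (f m - m)) := by
    rw [segment_eq_image']
    refine ⟨s / (s - t), ⟨div_nonneg (by linarith [hs.1]) hst.le,
      (div_le_one hst).2 (by linarith [ht.2])⟩, ?_⟩
    have hc : ((s - t : ℝ) : ℂ) ≠ 0 := ofReal_ne_zero.2 hst.ne'
    simp only
    rw [hab, real_smul, ofReal_div]
    field_simp
    ring
  have hq := fun i (hi : i < k) => quad_step h hk hper horb hy ha hb hmb hmab hst
    (by linarith [hs.2, ht.1]) hab hi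
  have hP : f^[0] y ∉ segment ℝ (m + I * s * (f m - m)) (m + I * t * (f m - m)) := by
    intro hc
    have h2 := cross h hk hper horb hy hmseg hmb (by simp)
    have h3 := not_fixed hk hper hy 0
    rw [segment_eq_image'] at hc
    obtain ⟨r, -, hr⟩ := hc
    simp only [hab, Function.iterate_zero, id, zero_add, Function.iterate_one] at hr h2 h3
    generalize f m - m = B at hr h2
    rw [hm] at hr
    generalize f y - y = A at hr h2 h3
    have e1 := congrArg re hr
    have e2 := congrArg im hr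
    simp at e1 e2
    have : A.re * B.re + A.im * B.im = 0 := by
      linear_combination 2 * B.re * e1 + 2 * B.im * e2
    linarith
  have hlt : ∑ i ∈ Finset.range k, quad (f^[i] y) (f^[i + 1] y) (m + I * s * (f m - m))
      (m + I * t * (f m - m)) < ∑ _i ∈ Finset.range k, (0 : ℝ) :=
    Finset.sum_lt_sum (fun i hi => (hq i (Finset.mem_range.1 hi)).1)
      ⟨0, Finset.mem_range.2 hk, (hq 0 hk).2 (Set.not_disjoint_iff.2 ⟨m, hmab, hmseg⟩) hP⟩
  rw [← turn_sub hper, Finset.sum_const_zero] at hlt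
  linarith [hpos _ hb, hneg _ ha]

end Pool.Agent.GeoFin
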