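import Mathlib
import Pool.Agent.P.MP_365c00_gt.LocWind
import Pool.Agent.P.MP_365c00_gt.LocRho
import Pool.Agent.P.MP_365c00_gt.Area

/-!
The planar theorem (paper sec. 4).
-/

open Set Filter Topology Metric

namespace Pool.Agent.GeoFin

namespace LocX

open Complex

theorem ineq (X Y e : ℂ) (h1 : ‖Y - X‖ ≤ 1 / 10 * ‖X‖) (h2 : ‖e‖ ≤ 1 / 10 * ‖X‖) :
    ‖X‖ ^ 2 / 2 ≤ Y.im * (X.im + e.re) + Y.re * X.re := by
  have hX := norm_nonneg X
  have h3 : ‖Y‖ ≤ 11 / 10 * ‖X‖ := by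
    have := norm_add_le (Y - X) X
    rw [sub_add_cancel] at this
    linarith
  have h4 : |Y.im * e.re| ≤ 11 / 10 * ‖X‖ * (1 / 10 * ‖X‖) := by
    rw [abs_mul]
    exact mul_le_mul ((abs_im_le_norm Y).trans h3) ((abs_re_le_norm e).trans h2) (abs_nonneg _)
      (by positivity)
  have h5 : |((Y - X) * (starRingEnd ℂ) X).re| ≤ 1 / 10 * ‖X‖ * ‖X‖ := by
    refine (abs_re_le_norm _).trans ?_
    rw [norm_mul, norm_conj]
    exact mul_le_mul_of_nonneg_right h1 hX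
  have h6 : ‖X‖ ^ 2 = X.re * X.re + X.im * X.im := by
    rw [Complex.sq_norm, normSq_apply]
  simp only [mul_re, sub_re, sub_im, conj_re, conj_im] at h5
  have h7 := (abs_le.1 h4).1
  have h8 := (abs_le.1 h5).1
  nlinarith

theorem near_of {F : ℂ → ℂ} {T : ℂ → ℝ} {z0 : ℂ} {R : ℝ} (hR : 0 < R) (hfix : F z0 = z0)
    {D : ℂ → ℂ →L[ℝ] ℂ} {E : ℂ → ℂ →L[ℝ] ℝ} (hF : ∀ w ∈ ball z0 R, HasFDerivAt F (D w) w)
    (hT : ∀ w ∈ ball z0 R, HasFDerivAt T (E w) w)
    (hd : ∀ w ∈ ball z0 R, ‖D w - ContinuousLinearMap.id ℝ ℂ‖ ≤ 1 / 10)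
    (hex : ∀ w ∈ ball z0 R, ∀ ξ, E w ξ = (F w).im * (D w ξ).re - w.im * ξ.re) :
    Near F (fun w => T w - w.im * ((F w).re - w.re)) z0 R := by
  have lip : ∀ z ∈ ball z0 R, ∀ z' ∈ ball z0 R,
      ‖(F z - z) - (F z' - z')‖ ≤ 1 / 10 * ‖z - z'‖ := fun z hz z' hz' =>
    (convex_ball z0 R).norm_image_sub_le_of_norm_hasFDerivWithin_le (f := fun w => F w - w)
      (fun w hw => ((hF w hw).fun_sub (hasFDerivAt_id w)).hasFDerivWithinAt) hd hz' hz
  have hH : ∀ w ∈ ball z0 R, ∃ G : ℂ →L[ℝ] ℝ,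
      HasFDerivAt (fun w => T w - w.im * ((F w).re - w.re)) G w ∧
      ∀ ξ, G ξ = (F w - w).im * (D w ξ).re - (F w - w).re * ξ.im := by
    intro w hw
    refine ⟨_, (hT w hw).fun_sub ((imCLM.hasFDerivAt (x := w)).fun_mul
      ((reCLM.hasFDerivAt.comp w (hF w hw)).fun_sub (reCLM.hasFDerivAt (x := w)))), fun ξ => ?_⟩
    simp [hex w hw]
    ring
  have main : ∀ c : ℝ, c * c = 1 → ∀ z ∈ closedBall z0 (R / 2), ∀ h ∈ Icc (0 : ℝ) 1,
      c * (T z - z.im * ((F z).re - z.re)) + h * ‖F z - z‖ ^ 2 / 2 ≤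
        c * (T (z + h • (c • (-I * (F z - z)))) - (z + h • (c • (-I * (F z - z)))).im *
          ((F (z + h • (c • (-I * (F z - z))))).re - (z + h • (c • (-I * (F z - z)))).re)) := by
    intro c hc z hz h hh
    have hc1 : |c| = 1 := by
      rcases mul_self_eq_one_iff.1 hc with h | h <;> simp [h]
    have hz1 : ‖z - z0‖ ≤ R / 2 := by rwa [mem_closedBall, dist_eq_norm] at hz
    have hzb : z ∈ ball z0 R := by rw [mem_ball, dist_eq_norm]; linarith
    set X := F z - z with hX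
    have hXn : ‖X‖ ≤ 1 / 10 * ‖z - z0‖ := by
      have := lip z hzb z0 (mem_ball_self hR)
      rwa [hfix, sub_self, sub_zero] at this
    have hn : ∀ t ∈ Icc (0 : ℝ) 1, ‖t • (c • (-I * X))‖ ≤ ‖X‖ := by
      intro t ht
      rw [norm_smul, norm_smul, norm_mul, norm_neg, norm_I, one_mul, Real.norm_eq_abs c, hc1,
        one_mul, Real.norm_of_nonneg ht.1]
      exact mul_le_of_le_one_left (norm_nonneg _) ht.2
    have hm : ∀ t ∈ Icc (0 : ℝ) 1, z + t • (c • (-I * X)) ∈ ball z0 R := by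
      intro t ht
      rw [mem_ball, dist_eq_norm, add_sub_right_comm]
      have := norm_add_le (z - z0) (t • (c • (-I * X)))
      linarith [hn t ht]
    have hder : ∀ t ∈ Icc (0 : ℝ) 1, ∃ d : ℝ, 0 ≤ d ∧ HasDerivAt (fun t : ℝ =>
        c * (T (z + t • (c • (-I * X))) - (z + t • (c • (-I * X))).im *
          ((F (z + t • (c • (-I * X)))).re - (z + t • (c • (-I * X))).re)) -
          t * ‖X‖ ^ 2 / 2) d t := by
      intro t ht
      obtain ⟨G, hG, hG'⟩ := hH _ (hm t ht)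
      have h1 : HasDerivAt (fun t : ℝ => z + t • (c • (-I * X))) (c • (-I * X)) t := by
        simpa using ((hasDerivAt_id' t).smul_const (c • (-I * X))).const_add z
      refine ⟨_, ?_, ((hG.comp_hasDerivAt t h1).const_mul c).fun_sub
        (((hasDerivAt_id' t).mul_const (‖X‖ ^ 2)).div_const 2)⟩
      set m := z + t • (c • (-I * X)) with hmd
      have h2 := ineq X (F m - m) ((D m - ContinuousLinearMap.id ℝ ℂ) (-I * X))
        ((lip m (hm t ht) z hzb).trans (by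
          rw [hmd, add_sub_cancel_left]; linarith [hn t ht]))
        (((D m - ContinuousLinearMap.id ℝ ℂ).le_opNorm _).trans (by
          rw [norm_mul, norm_neg, norm_I, one_mul]
          exact mul_le_mul_of_nonneg_right (hd m (hm t ht)) (norm_nonneg _)))
      rw [map_smul, smul_eq_mul, ← mul_assoc, hc, one_mul, hG']
      have h3 : X.im + ((D m - ContinuousLinearMap.id ℝ ℂ) (-I * X)).re = (D m (-I * X)).re := by
        simp
      have h4 : (-I * X).im = -X.re := by simp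
      rw [h3] at h2
      rw [h4]
      linarith
    choose! d hd0 hdd using hder
    have hmono := monotoneOn_of_deriv_nonneg (convex_Icc (0 : ℝ) 1)
      (fun t ht => (hdd t ht).continuousAt.continuousWithinAt)
      (fun t ht => (hdd t (interior_subset ht)).differentiableAt.differentiableWithinAt)
      (fun t ht => by rw [(hdd t (interior_subset ht)).deriv]; exact hd0 t (interior_subset ht))
      (left_mem_Icc.2 zero_le_one) hh hh.1
    simp only [zero_smul, add_zero, zero_mul, zero_div, sub_zero] at hmono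
    linarith
  refine ⟨hR, hfix, lip, fun w hw => ?_, fun z hz h hh => ?_, fun z hz h hh => ?_⟩
  · obtain ⟨G, hG, -⟩ := hH w hw
    exact hG.continuousAt.continuousWithinAt
  · have h1 := main 1 (by norm_num) z hz h hh
    have e : z + h • ((1 : ℝ) • (-I * (F z - z))) = z - I * h * (F z - z) := by
      simp only [real_smul]; push_cast; ring
    rw [e] at h1
    linarith
  · have h1 := main (-1) (by norm_num) z hz h hh
    have e : z + h • ((-1 : ℝ) • (-I * (F z - z))) = z + I * h * (F z - z) := by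
      simp only [real_smul]; push_cast; ring
    rw [e] at h1
    linarith

theorem exists_LM {l : ℝ} (hl : 0 < l) : ∃ (L : ℂ →L[ℝ] ℝ × ℝ) (M : ℝ × ℝ →L[ℝ] ℂ),
    (∀ w, L w = (l * w.re, w.im / l)) ∧ (∀ z, (M z).re = z.1 / l) ∧ (∀ z, (M z).im = l * z.2) ∧
      (∀ w, M (L w) = w) ∧ ∀ z, L (M z) = z := by
  refine ⟨(l • reCLM).prod (l⁻¹ • imCLM),
    (equivRealProdCLM.symm : ℝ × ℝ →L[ℝ] ℂ).comp
      ((l⁻¹ • ContinuousLinearMap.fst ℝ ℝ ℝ).prod (l • ContinuousLinearMap.snd ℝ ℝ ℝ)),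
    fun w => ?_, fun z => ?_, fun z => ?_, fun w => ?_, fun z => ?_⟩
  · simp [div_eq_inv_mul]
  · rw [div_eq_inv_mul]; simp [equivRealProdCLM_symm_apply]
  · simp [equivRealProdCLM_symm_apply]
  · apply Complex.ext <;> simp [equivRealProdCLM_symm_apply, hl.ne']
  · apply Prod.ext <;> simp [equivRealProdCLM_symm_apply, hl.ne']

theorem line {g : ℝ × ℝ → ℝ × ℝ} {s : ℝ} (hg : DifferentiableAt ℝ g (0, s))
    (hacc : ∃ᶠ t in 𝓝[≠] s, g (0, t) = (0, t)) : fderiv ℝ g (0, s) (0, 1) = (0, 1) := by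
  have h1 : HasDerivAt (fun t : ℝ => ((0, t) : ℝ × ℝ)) (0, 1) s :=
    (hasDerivAt_const s 0).prodMk (hasDerivAt_id' s)
  have h2 := (hg.hasFDerivAt.comp_hasDerivAt s h1).fun_sub h1
  by_contra h
  refine hacc ?_
  filter_upwards [h2.eventually_ne (c := 0) (sub_ne_zero.2 h)] with t ht
  exact fun h' => ht (sub_eq_zero.2 h')

theorem fixed {f : ℝ × ℝ → ℝ × ℝ} {T : ℝ × ℝ → ℝ} {U : Set (ℝ × ℝ)} {η0 r0 : ℝ} (hU : IsOpen U)
    (h0 : (0, η0) ∈ U) (hf : ContDiffOn ℝ 2 f U) (hT : ContDiffOn ℝ 2 T U)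
    (hex : ∀ z ∈ U, ∀ ξ : ℝ × ℝ, fderiv ℝ T z ξ = (f z).2 * (fderiv ℝ f z ξ).1 - z.2 * ξ.1)
    (hfix : f (0, η0) = (0, η0)) (hacc : ∃ᶠ s in 𝓝[≠] η0, f (0, s) = (0, s)) (hr : 0 < r0)
    (heq : ∀ s, |s - η0| < r0 → ∀ d > 0, ∃ η > 0, ∀ s', |s' - s| < η →
      ∀ i, dist (f^[i] (0, s')) (f^[i] (0, s)) < d)
    (hdense : ∀ s, |s - η0| < r0 → ∀ η > 0, ∃ s', |s' - s| < η ∧
      ∃ k > 0, f^[k] (0, s') = (0, s')) :
    ∃ ρ > 0, ∀ s, |s - η0| < ρ → ∀ k > 0, f^[k] (0, s) = (0, s) → f (0, s) = (0, s) := by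
  have hfd : ∀ z ∈ U, DifferentiableAt ℝ f z := fun z hz =>
    (hf.contDiffAt (hU.mem_nhds hz)).differentiableAt (by norm_num)
  have hTd : ∀ z ∈ U, DifferentiableAt ℝ T z := fun z hz =>
    (hT.contDiffAt (hU.mem_nhds hz)).differentiableAt (by norm_num)
  have hA2 := line (hfd _ h0) hacc
  have hA1 : (fderiv ℝ f (0, η0) (1, 0)).1 = 1 := by
    have := det_of_exact hU hf hT hex h0
    rw [det_eq, hA2] at this
    simpa using this
  obtain ⟨σ, hσ⟩ : ∃ σ, σ = (fderiv ℝ f (0, η0) (1, 0)).2 := ⟨_, rfl⟩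
  have hA : ∀ ξ : ℝ × ℝ, fderiv ℝ f (0, η0) ξ = (ξ.1, σ * ξ.1 + ξ.2) := by
    intro ξ
    have e : ξ = ξ.1 • ((1, 0) : ℝ × ℝ) + ξ.2 • ((0, 1) : ℝ × ℝ) := by simp
    conv_lhs => rw [e, map_add, map_smul, map_smul, hA2]
    apply Prod.ext <;> simp [hA1, hσ, mul_comm]
  obtain ⟨l, hl, hlσ⟩ : ∃ l : ℝ, 0 < l ∧ |σ| * (l * l) ≤ 1 / 20 := by
    have h1 : 0 < |σ| + 1 := by positivity
    refine ⟨1 / (20 * (|σ| + 1)), by positivity, ?_⟩
    have h2 : |σ| * (1 / (20 * (|σ| + 1))) ≤ 1 / 20 := by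
      rw [mul_one_div, div_le_div_iff₀ (by positivity) (by norm_num)]; linarith
    have h3 : 1 / (20 * (|σ| + 1)) ≤ 1 := by
      rw [div_le_one (by positivity)]; linarith [abs_nonneg σ]
    rw [← mul_assoc]
    exact (mul_le_of_le_one_right (by positivity) h3).trans h2
  obtain ⟨L, M, hL, hM1, hM2, hML, hLM⟩ := exists_LM hl
  set z0 := M (0, η0) with hz0
  set F : ℂ → ℂ := fun w => M (f (L w)) with hF
  set D : ℂ → ℂ →L[ℝ] ℂ := fun w => M.comp ((fderiv ℝ f (L w)).comp L) with hD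
  have hLz : L z0 = (0, η0) := hLM _
  have hD0 : ‖D z0 - ContinuousLinearMap.id ℝ ℂ‖ ≤ 1 / 20 := by
    refine ContinuousLinearMap.opNorm_le_bound _ (by norm_num) fun w => ?_
    have e : (D z0 - ContinuousLinearMap.id ℝ ℂ) w = ((σ * (l * l) * w.re : ℝ) : ℂ) * I := by
      have e1 : D z0 w = M (l * w.re, σ * (l * w.re) + w.im / l) := by
        simp only [hD, ContinuousLinearMap.comp_apply, hLz, hA]
        simp only [hL]
      rw [ContinuousLinearMap.sub_apply, e1]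
      apply Complex.ext
      · simp [hM1, hl.ne']
      · simp [hM2]
        field_simp
        ring
    rw [e, norm_mul, norm_I, mul_one, norm_real, Real.norm_eq_abs, abs_mul, abs_mul,
      abs_of_pos (mul_pos hl hl)]
    exact mul_le_mul hlσ (abs_re_le_norm w) (abs_nonneg _) (by norm_num)
  have hDc : ContinuousAt D z0 := by
    have h1 : ContinuousAt (fderiv ℝ f) (L z0) := by
      rw [hLz]
      exact ((hf.contDiffAt (hU.mem_nhds h0)).fderiv_right (m := 1) (by norm_num)).continuousAt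
    exact continuousAt_const.clm_comp ((h1.comp L.continuous.continuousAt).clm_comp
      continuousAt_const)
  obtain ⟨R, hR, hRb⟩ : ∃ R > 0, ∀ w ∈ ball z0 R, L w ∈ U ∧
      ‖D w - ContinuousLinearMap.id ℝ ℂ‖ ≤ 1 / 10 := by
    have h1 : ∀ᶠ w in 𝓝 z0, L w ∈ U :=
      L.continuous.continuousAt.eventually_mem (by rw [hLz]; exact hU.mem_nhds h0)
    have h2 : ∀ᶠ w in 𝓝 z0, ‖D w - ContinuousLinearMap.id ℝ ℂ‖ < 1 / 10 :=
      (hDc.sub continuousAt_const).norm.eventually (gt_mem_nhds (hD0.trans_lt (by norm_num)))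
    obtain ⟨R, hR, h⟩ := Metric.eventually_nhds_iff_ball.1 (h1.and h2)
    exact ⟨R, hR, fun w hw => ⟨(h w hw).1, (h w hw).2.le⟩⟩
  have hN := near_of (F := F) (T := fun w => T (L w)) (D := D)
    (E := fun w => (fderiv ℝ T (L w)).comp L) hR (by simp only [hF, hLz, hfix]; rfl)
    (fun w hw => M.hasFDerivAt.comp w ((hfd _ (hRb w hw).1).hasFDerivAt.comp w L.hasFDerivAt))
    (fun w hw => (hTd _ (hRb w hw).1).hasFDerivAt.comp w L.hasFDerivAt) (fun w hw => (hRb w hw).2)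
    (fun w hw ξ => by
      simp only [hF, hD, ContinuousLinearMap.comp_apply, hex _ (hRb w hw).1, hM1, hM2]
      simp only [hL]
      field_simp)
  have hit : ∀ i w, F^[i] w = M (f^[i] (L w)) := by
    intro i
    induction i with
    | zero => intro w; exact (hML w).symm
    | succ i ih =>
      intro w
      rw [Function.iterate_succ_apply', Function.iterate_succ_apply', ih, hF]
      simp only [hLM]
  have hLs : ∀ s : ℝ, L (z0 + s * I) = (0, η0 + s / l) := by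
    intro s
    rw [map_add, hLz, hL]
    simp
  have hMd : ∀ d > 0, ∃ d' > 0, ∀ a b, dist a b < d' → dist (M a) (M b) < d := fun d hd => by
    obtain ⟨d', h, h'⟩ := Metric.uniformContinuous_iff.1 M.uniformContinuous d hd
    exact ⟨d', h, fun a b hab => h' hab⟩
  have hMi : ∀ a b, M a = M b → a = b := fun a b h => by rw [← hLM a, h, hLM]
  have hMs : ∀ s : ℝ, M (0, η0 + s / l) = z0 + s * I := fun s => by rw [← hLs, hML]
  obtain ⟨d0, hd0, hd0'⟩ := hMd (R / 4) (by positivity)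
  obtain ⟨η1, hη1, hη1'⟩ := heq η0 (by simpa using hr) d0 hd0
  set ρ := min η1 r0 with hρ
  have hρ0 : 0 < ρ := lt_min hη1 hr
  have hI : ∀ s : ℝ, s ∈ Ioo (-(l * ρ)) (l * ρ) ↔ |η0 + s / l - η0| < ρ := by
    intro s
    rw [add_sub_cancel_left, abs_div, abs_of_pos hl, div_lt_iff₀ hl, abs_lt, mul_comm, mem_Ioo]
  have hsub : ∀ s s' : ℝ, |η0 + s' / l - (η0 + s / l)| = |s' - s| / l := by
    intro s s'
    rw [add_sub_add_left_eq_sub, ← sub_div, abs_div, abs_of_pos hl]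
  have hsur : ∀ t : ℝ, ∃ s : ℝ, t = η0 + s / l := fun t => ⟨(t - η0) * l, by field_simp; ring⟩
  have horb : ∀ s ∈ Ioo (-(l * ρ)) (l * ρ), ∀ i, F^[i] (z0 + s * I) ∈ ball z0 (R / 4) := by
    intro s hs i
    rw [hit, hLs, mem_ball]
    refine hd0' _ _ ?_
    have := hη1' _ (((hI s).1 hs).trans_le (min_le_left _ _)) i
    rwa [Function.iterate_fixed hfix] at this
  refine ⟨ρ, hρ0, fun t ht k hk hper => ?_⟩
  obtain ⟨s, rfl⟩ := hsur t
  have hs := (hI s).2 ht
  by_contra hne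
  have hper' : F^[k] (z0 + s * I) = z0 + s * I := by rw [hit, hLs, hper, hMs]
  have hy : F (z0 + s * I) ≠ z0 + s * I := fun h => hne (hMi _ _ (by
    rw [hMs, ← h, hF]; simp only [hLs]))
  obtain ⟨w, hw, hfw, hturn⟩ := hN.exists_turn_ne hk hper' (horb s hs) hy
  refine hturn (hN.turn_eq_zero horb (fun a ha d hd => ?_) (fun a ha η hη => ?_) ?_ hs hk hper' hy
    (closedBall_subset_ball (by linarith) hw) hfw)
  · obtain ⟨d', hd', h1⟩ := hMd d hd
    obtain ⟨η, hη, h2⟩ := heq _ (((hI a).1 ha).trans_le (min_le_right _ _)) d' hd'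
    refine ⟨l * η, by positivity, fun a' _ h i => ?_⟩
    rw [hit, hit, hLs, hLs]
    refine h1 _ _ (h2 _ ?_ i)
    rw [hsub, div_lt_iff₀ hl, mul_comm]
    exact h
  · have h1 := (hI a).1 ha
    obtain ⟨t', h2, k', hk', h3⟩ := hdense _ (h1.trans_le (min_le_right _ _))
      (min (η / l) (ρ - |η0 + a / l - η0|)) (lt_min (by positivity) (by linarith))
    obtain ⟨a', rfl⟩ := hsur t'
    refine ⟨a', (hI a').2 ?_, ?_, k', hk', by rw [hit, hLs, h3, hMs]⟩
    · have h4 := h2.trans_le (min_le_right _ _)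
      have h5 := abs_sub_le (η0 + a' / l) (η0 + a / l) η0
      linarith
    · have h4 := h2.trans_le (min_le_left _ _)
      rwa [hsub, div_lt_div_iff_of_pos_right hl] at h4
  · have h1 : ∀ᶠ t in 𝓝[≠] η0, |t - η0| < ρ ∧ t ≠ η0 := by
      refine Eventually.and (Eventually.filter_mono nhdsWithin_le_nhds ?_) self_mem_nhdsWithin
      filter_upwards [ball_mem_nhds η0 hρ0] with t ht
      rwa [mem_ball, Real.dist_eq] at ht
    obtain ⟨t', h2, h3, h4⟩ := (hacc.and_eventually h1).exists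
    obtain ⟨a', rfl⟩ := hsur t'
    refine ⟨a', (hI a').2 h3, fun h => h4 (by simp [h]), ?_⟩
    rw [hF]
    simp only [hLs, h2, hMs]

end LocX

theorem planar {f : ℝ × ℝ → ℝ × ℝ} {T : ℝ × ℝ → ℝ} {U : Set (ℝ × ℝ)} {η0 r0 : ℝ} (hU : IsOpen U)
    (h0 : (0, η0) ∈ U) (hf : ContDiffOn ℝ 2 f U) (hT : ContDiffOn ℝ 2 T U)
    (hex : ∀ z ∈ U, ∀ ξ : ℝ × ℝ, fderiv ℝ T z ξ = (f z).2 * (fderiv ℝ f z ξ).1 - z.2 * ξ.1)
    (hfix : f (0, η0) = (0, η0)) (hacc : ∃ᶠ s in 𝓝[≠] η0, f (0, s) = (0, s)) (hr : 0 < r0)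
    (heq : ∀ s, |s - η0| < r0 → ∀ d > 0, ∃ η > 0, ∀ s', |s' - s| < η →
      ∀ i, dist (f^[i] (0, s')) (f^[i] (0, s)) < d)
    (hdense : ∀ s, |s - η0| < r0 → ∀ η > 0, ∃ s', |s' - s| < η ∧
      ∃ k > 0, f^[k] (0, s') = (0, s')) :
    ∀ᶠ s in 𝓝 η0, f (0, s) = (0, s) ∧ T (0, s) = T (0, η0) := by
  obtain ⟨ρ, hρ, hper⟩ := LocX.fixed hU h0 hf hT hex hfix hacc hr heq hdense
  have hc : Continuous fun t : ℝ => ((0, t) : ℝ × ℝ) := by fun_prop
  obtain ⟨r, hr0, hb⟩ := Metric.eventually_nhds_iff_ball.1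
    ((hc.continuousAt.eventually_mem (hU.mem_nhds h0)).and
      (Eventually.and (p := fun t => t ∈ ball η0 ρ) (q := fun t => t ∈ ball η0 r0)
        (ball_mem_nhds η0 hρ) (ball_mem_nhds η0 hr)))
  have hfd : ∀ z ∈ U, DifferentiableAt ℝ f z := fun z hz =>
    (hf.contDiffAt (hU.mem_nhds hz)).differentiableAt (by norm_num)
  have hTd : ∀ z ∈ U, DifferentiableAt ℝ T z := fun z hz =>
    (hT.contDiffAt (hU.mem_nhds hz)).differentiableAt (by norm_num)
  have h1 : ∀ s ∈ ball η0 r, f (0, s) = (0, s) := by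
    intro s hs
    obtain ⟨hsU, hsρ, hsr⟩ := hb s hs
    have h2 : ∃ᶠ t in 𝓝 s, f (0, t) = (0, t) := by
      rw [frequently_iff]
      intro V hV
      obtain ⟨η, hη, hηV⟩ := Metric.mem_nhds_iff.1 (inter_mem hV (isOpen_ball.mem_nhds hsρ))
      obtain ⟨t, ht, k, hk, hp⟩ := hdense s (by rwa [mem_ball, Real.dist_eq] at hsr) η hη
      have h3 := hηV (show t ∈ ball s η by rwa [mem_ball, Real.dist_eq])
      exact ⟨t, h3.1, hper t (by have := h3.2; rwa [mem_ball, Real.dist_eq] at this) k hk hp⟩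
    exact tendsto_nhds_unique_of_frequently_eq
      (ContinuousAt.comp (f := fun t : ℝ => ((0, t) : ℝ × ℝ)) (hfd _ hsU).continuousAt
        hc.continuousAt) hc.continuousAt h2
  have h2 : ∀ s ∈ ball η0 r, HasDerivAt (fun t : ℝ => T (0, t)) 0 s := by
    intro s hs
    have hsU := (hb s hs).1
    have h3 : HasDerivAt (fun t : ℝ => ((0, t) : ℝ × ℝ)) (0, 1) s :=
      (hasDerivAt_const s 0).prodMk (hasDerivAt_id' s)
    have h4 := (hTd _ hsU).hasFDerivAt.comp_hasDerivAt s h3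
    have h5 : ∀ᶠ t in 𝓝[≠] s, f (0, t) = (0, t) :=
      Eventually.filter_mono nhdsWithin_le_nhds
        (by filter_upwards [isOpen_ball.mem_nhds hs] with t ht using h1 t ht)
    rw [hex _ hsU, LocX.line (hfd _ hsU) h5.frequently] at h4
    exact h4.congr_deriv (by simp)
  filter_upwards [ball_mem_nhds η0 hr0] with s hs
  exact ⟨h1 s hs, isOpen_ball.is_const_of_deriv_eq_zero (convex_ball η0 r).isPreconnected
    (fun t ht => (h2 t ht).differentiableAt.differentiableWithinAt)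
    (fun t ht => (h2 t ht).deriv) hs (mem_ball_self hr0)⟩

end Pool.Agent.GeoFin
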