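import Mathlib
import Pool.Agent.P.MP_365c00_gt.Chain
import Pool.Agent.P.MP_365c00_gt.Loc

/-!
All geodesics through a good rich point have a common period (paper sec. 5, first half).
-/

open Set Filter Topology Metric

namespace Pool.Agent.GeoFin

variable {M Y : Type*} [TopologicalSpace M] [TopologicalSpace Y]

namespace PeriodX

variable {S : Sys M Y}

theorem Z_mem (b : Box S) {z : ℝ × ℝ} (hz : z ∈ b.D) :
    b.Z z ∈ b.N ∧ b.τ (b.Z z) = 0 ∧ b.ζ (b.Z z) = z := by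
  have h0 : |(0 : ℝ)| < b.c := by rw [abs_zero]; exact b.c_pos
  have h1 := b.mem_N z hz 0 h0
  have h2 := b.τ_ζ hz h0
  rw [S.φ_zero] at h1 h2
  exact ⟨h1, by rw [h2.1, neg_zero], h2.2⟩

theorem Z_inj (b : Box S) : InjOn b.Z b.D := fun z hz z' hz' h =>
  (b.uniq z hz z' hz' 0 (by rw [abs_zero]; linarith [b.c_pos]) (by rw [S.φ_zero, h])).2

theorem nhds_coord (b : Box S) {z : ℝ × ℝ} (hz : z ∈ b.D) {V : Set ℝ} (hV : V ∈ 𝓝 z.2) :
    {u | u ∈ b.N ∧ (b.ζ u).2 ∈ V} ∈ 𝓝 (b.Z z) := by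
  obtain ⟨h1, -, h3⟩ := Z_mem b hz
  have hN := b.N_open.mem_nhds h1
  have hc : ContinuousAt (fun u => (b.ζ u).2) (b.Z z) := (b.ζ_cont.continuousAt hN).snd
  refine inter_mem hN (hc.preimage_mem_nhds ?_)
  rwa [h3]

theorem fibre_coord (A : Atl S) (v : Y) {u : Y} (hu : u ∈ (A.box v).N)
    (h : S.ev u 0 = S.ev v 0) : (0, ((A.box v).ζ u).2) ∈ (A.box v).D ∧
      (A.box v).Z (0, ((A.box v).ζ u).2) = u := by
  have h1 := (A.box v).φ_τ u hu
  rw [A.fib_τ v u hu h, S.φ_zero] at h1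
  have h2 := (A.box v).ζ_mem u hu
  have h3 : ((A.box v).ζ u).1 = 0 := (A.fib v _ h2).1 (by rw [← h1, h])
  have h4 : ((0 : ℝ), ((A.box v).ζ u).2) = (A.box v).ζ u := Prod.ext h3.symm rfl
  rw [h4]
  exact ⟨h2, h1.symm⟩

theorem cancel_iter {α : Type*} {f : α → α} {Ω : Set α} (hf : InjOn f Ω) {z : α}
    (hz : ∀ j, f^[j] z ∈ Ω) {k : ℕ} : ∀ i, f^[i] z = f^[i + k] z → z = f^[k] z := by
  intro i
  induction i with
  | zero => intro h; rwa [zero_add] at h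
  | succ i ih =>
    intro h
    rw [add_right_comm, Function.iterate_succ_apply', Function.iterate_succ_apply'] at h
    exact ih (hf (hz _) (hz _) h)

theorem dist_vert (s s' : ℝ) : dist ((0 : ℝ), s) ((0 : ℝ), s') = |s - s'| := by
  rw [Prod.dist_eq, dist_self, Real.dist_eq, max_eq_right (abs_nonneg _)]

end PeriodX

open PeriodX

variable [T2Space M] [T2Space Y] {S : Sys M Y}

/-- (PropP) -/
theorem Atl.fix_nhds (A : Atl S) {p : M} (hg : S.Good p) (hr : S.Rich p) {v : Y}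
    (hv : S.ev v 0 = p) {τ : ℝ} (hτ : 0 < τ)
    (hacc : ∀ U ∈ 𝓝 v, ∀ ε > 0, ∃ u ∈ U, u ≠ v ∧ S.ev u 0 = p ∧ ∃ σ, |σ - τ| < ε ∧ S.φ σ u = u) :
    ∀ᶠ u in 𝓝 v, S.ev u 0 = p → S.φ τ u = u := by
  have hfix : S.φ τ v = v := by
    by_contra hne
    have ho : {x : ℝ × Y | S.φ x.1 x.2 ≠ x.2} ∈ 𝓝 (τ, v) :=
      (isOpen_ne_fun S.φ_cont continuous_snd).mem_nhds hne
    obtain ⟨V, hV, U, hU, hs⟩ := mem_nhds_prod_iff.1 ho
    obtain ⟨ε, hε, hb⟩ := Metric.mem_nhds_iff.1 hV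
    obtain ⟨u, hu, -, -, σ, hσ, he⟩ := hacc U hU ε hε
    exact hs (mk_mem_prod (hb (a := σ) hσ) hu) he
  have hD := A.ctr_mem v
  have hZ := A.ctr v
  have hsm := A.hol_smooth v v τ
  have hTsm := A.holT_smooth v v τ
  have hex := A.exact v v τ
  have hfib := A.fib v
  have hco := fun u => fibre_coord A v (u := u)
  rw [hv] at hfib hco
  set b := A.box v with hb
  set η0 := A.η0 v with hη0
  set f := hol b b τ with hf
  set T := holT b b τ with hT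
  set U := holDom b b τ with hU
  have hUo : IsOpen U := holDom_open b b τ
  obtain ⟨hN0, hτ0, hζ0⟩ := Z_mem b hD
  have hz0 : ((0 : ℝ), η0) ∈ U := ⟨hD, by rw [hZ, hfix, ← hZ]; exact hN0⟩
  have hf0 : f (0, η0) = (0, η0) := by
    show b.ζ (S.φ τ (b.Z (0, η0))) = _
    rw [hZ, hfix, ← hZ]; exact hζ0
  have hT0 : T (0, η0) = τ := by
    show τ + b.τ (S.φ τ (b.Z (0, η0))) = _
    rw [hZ, hfix, ← hZ, hτ0, add_zero]
  have hacc' : ∃ᶠ s in 𝓝[≠] η0, f (0, s) = (0, s) := by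
    refine (accPt_iff_frequently_nhdsNE (C := {s | f (0, s) = (0, s)})).1
      (accPt_iff_nhds.2 fun V hV => ?_)
    have h1 := nhds_coord b hD hV
    rw [hZ] at h1
    obtain ⟨u, ⟨hu, huV⟩, hne, hp, σ, hσ, he⟩ := hacc _ h1 b.c b.c_pos
    obtain ⟨h2, h3⟩ := hco u hu hp
    refine ⟨(b.ζ u).2, ⟨huV, ?_⟩, fun h => hne ?_⟩
    · show b.ζ (S.φ τ (b.Z (0, (b.ζ u).2))) = _
      have h4 : S.φ τ (b.Z (0, (b.ζ u).2)) = S.φ (τ - σ) (b.Z (0, (b.ζ u).2)) := by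
        rw [h3]
        conv_rhs => rw [← he, ← S.φ_add, sub_add_cancel]
      rw [h4]
      exact (b.τ_ζ h2 (by rwa [abs_sub_comm])).2
    · rw [← h3, h, hZ]
  obtain ⟨R, hR, hRD⟩ := nhds_basis_closedBall.mem_iff.1 (b.D_open.mem_nhds hD)
  have hUn := hUo.mem_nhds hz0
  obtain ⟨V, hV, hinj⟩ := injOn_nhds_of_det (g := f) (z := (0, η0))
    ((hsm.contDiffAt hUn).of_le (by norm_num))
    (by rw [det_of_exact hUo hsm hTsm hex hz0]; exact one_ne_zero)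
  have h1 : f ⁻¹' closedBall (0, η0) R ∈ 𝓝 ((0 : ℝ), η0) :=
    (hsm.continuousOn.continuousAt hUn).preimage_mem_nhds
      (by rw [hf0]; exact closedBall_mem_nhds _ hR)
  have h2 : T ⁻¹' Ici (τ / 2) ∈ 𝓝 ((0 : ℝ), η0) :=
    (hTsm.continuousOn.continuousAt hUn).preimage_mem_nhds
      (by rw [hT0]; exact Ici_mem_nhds (by linarith))
  obtain ⟨ρ, hρ, hρs⟩ := Metric.mem_nhds_iff.1 (inter_mem (inter_mem hUn hV) (inter_mem h1 h2))
  have hΩU : ball ((0 : ℝ), η0) ρ ⊆ U := fun z hz => (hρs hz).1.1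
  have hΩD : ball ((0 : ℝ), η0) ρ ⊆ b.D := fun z hz => (hΩU hz).1
  let C : Chain A.box :=
    { w := fun _ => v
      fin := by simp
      K := fun _ => closedBall (0, η0) R
      K_cpt := fun _ => isCompact_closedBall _ _
      K_sub := fun _ => hRD
      Ω := fun _ => ball (0, η0) ρ
      Ω_sub := fun _ => hΩD
      g := fun _ => f
      g_cont := fun _ => hsm.continuousOn.mono hΩU
      g_maps := fun _ z hz => (hρs hz).2.1
      a0 := τ / 2
      a0_pos := half_pos hτ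
      g_time := fun _ z hz => ⟨T z, (hρs hz).2.2, Z_hol b b τ (hΩU hz)⟩ }
  have hit : ∀ j z, C.it j z = f^[j] z := by
    intro j z
    induction j with
    | zero => rfl
    | succ j ih => rw [C.it_succ, ih, Function.iterate_succ_apply']
  have hst : ∀ s, |s - η0| < ρ / 2 → (∀ j, dist (f^[j] (0, s)) (0, η0) < ρ / 2) → ∀ d > 0,
      ∃ η > 0, η ≤ ρ / 2 ∧ ∀ s', |s' - s| < η → ∀ i, dist (f^[i] (0, s')) (f^[i] (0, s)) < d := by
    intro s hs ho d hd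
    have hm : ∀ s' ∈ Icc (s - ρ / 2) (s + ρ / 2), ((0 : ℝ), s') ∈ b.D := by
      intro s' hs'
      refine hΩD ?_
      rw [mem_ball, dist_vert, abs_lt]
      rw [abs_lt] at hs
      constructor <;> linarith [hs'.1, hs'.2, hs.1, hs.2]
    have arc : C.Arc p (fun s' => b.Z (0, s')) (fun s' => (0, s')) s (ρ / 2) (ρ / 2) :=
      { r_pos := half_pos hρ
        d_pos := half_pos hρ
        inj := fun a ha a' ha' h => (Prod.ext_iff.1 (Z_inj b (hm a ha) (hm a' ha') h)).2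
        base := fun a ha => (hfib _ (hm a ha)).2 rfl
        cont := by fun_prop
        maps := hm
        time := ⟨0, fun a _ => ⟨0, by rw [abs_zero], (S.φ_zero _).symm⟩⟩
        ball_sub := fun j z hz => by
          rw [hit] at hz
          show dist z (0, η0) < ρ
          linarith [dist_triangle z (f^[j] (0, s)) (0, η0), ho j, mem_ball.1 hz] }
    obtain ⟨η, hη, hle, h⟩ := arc.stable hg hd
    refine ⟨η, hη, hle, fun s' hs' i => ?_⟩
    have := h s' hs' i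
    rwa [hit, hit] at this
  obtain ⟨r0, hr0, hr0le, horb⟩ := hst η0 (by rw [sub_self, abs_zero]; exact half_pos hρ)
    (fun j => by rw [Function.iterate_fixed hf0, dist_self]; exact half_pos hρ) _ (half_pos hρ)
  have horb' : ∀ s, |s - η0| < r0 → ∀ j, dist (f^[j] (0, s)) (0, η0) < ρ / 2 := by
    intro s hs j
    have := horb s hs j
    rwa [Function.iterate_fixed hf0] at this
  have hΩo : ∀ s, |s - η0| < r0 → ∀ j, f^[j] (0, s) ∈ ball ((0 : ℝ), η0) ρ :=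
    fun s hs j => mem_ball.2 ((horb' s hs j).trans (half_lt_self hρ))
  have hpl := planar (r0 := r0) hUo hz0 hsm hTsm hex hf0 hacc' hr0 ?_ ?_
  · have h3 : {s | ((0 : ℝ), s) ∈ U} ∈ 𝓝 η0 :=
      (by fun_prop : ContinuousAt (fun s : ℝ => ((0 : ℝ), s)) η0).preimage_mem_nhds hUn
    have h4 := nhds_coord b hD (inter_mem hpl h3)
    rw [hZ] at h4
    filter_upwards [h4] with u hu hp
    obtain ⟨-, h5⟩ := hco u hu.1 hp
    obtain ⟨⟨h6, h7⟩, h8⟩ := hu.2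
    have h9 : b.Z (f (0, (b.ζ u).2)) = S.φ (T (0, (b.ζ u).2)) (b.Z (0, (b.ζ u).2)) :=
      Z_hol b b τ h8
    rw [h6, h7, hT0, h5] at h9
    exact h9.symm
  · intro s hs d hd
    obtain ⟨η, hη, -, h⟩ := hst s (hs.trans_le hr0le) (horb' s hs) d hd
    exact ⟨η, hη, h⟩
  · intro s hs η hη
    have hsD : ((0 : ℝ), s) ∈ b.D := hΩD (hΩo s hs 0)
    have hV' : ball s η ∩ ball η0 r0 ∈ 𝓝 s :=
      inter_mem (ball_mem_nhds _ hη) (isOpen_ball.mem_nhds hs)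
    have hne := hr _ ((hfib _ hsD).2 rfl) _ (nhds_coord b hsD hV')
    obtain ⟨u, ⟨hu, hu1, hu2⟩, hp, hper⟩ : {u | u ∈ {u | u ∈ b.N ∧ (b.ζ u).2 ∈ ball s η ∩ ball η0 r0}
        ∧ S.ev u 0 = p ∧ S.Per u}.Nonempty := by
      rw [nonempty_iff_ne_empty]
      intro he
      rw [he] at hne
      exact hne countable_empty
    obtain ⟨-, h5⟩ := hco u hu hp
    have ho := hΩo _ hu2
    have hmem : ∀ j, f^[j] (0, (b.ζ u).2) ∈ {z | z ∈ b.D ∧ ∃ t, S.φ t u = b.Z z} := by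
      intro j
      refine ⟨hΩD (ho j), ?_⟩
      induction j with
      | zero => exact ⟨0, by rw [S.φ_zero]; exact h5.symm⟩
      | succ j ih =>
        obtain ⟨t, ht⟩ := ih
        refine ⟨T (f^[j] (0, (b.ζ u).2)) + t, ?_⟩
        rw [Function.iterate_succ_apply', S.φ_add, ht]
        exact (Z_hol b b τ (hΩU (ho j))).symm
    obtain ⟨i, j, hij, he⟩ := Finite.exists_lt_map_eq_of_forall_mem hmem (b.finite_of_per hper)
    obtain ⟨k, rfl⟩ := Nat.exists_eq_add_of_lt hij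
    rw [add_assoc] at he
    exact ⟨(b.ζ u).2, hu1, k + 1, k.succ_pos,
      (cancel_iter (hinj.mono fun z hz => (hρs hz).1.2) ho i he).symm⟩

theorem Atl.fix_fibre [CompactSpace Y] (A : Atl S) {p : M} (hg : S.Good p) (hr : S.Rich p)
    {τ : ℝ} (hτ : 0 < τ) (hinf : {u | S.ev u 0 = p ∧ S.φ τ u = u}.Infinite) :
    ∀ u, S.ev u 0 = p → S.φ τ u = u := by
  intro u hu
  by_contra hne
  set F := {u | S.ev u 0 = p ∧ S.φ τ u = u} with hF
  have hG : ∀ v, S.ev v 0 = p → v ∈ derivedSet F →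
      v ∈ {v | ∀ᶠ u in 𝓝 v, S.ev u 0 = p → S.φ τ u = u} := by
    intro v hv ha
    refine A.fix_nhds hg hr hv hτ fun U hU ε hε => ?_
    obtain ⟨y, ⟨hy, hy1, hy2⟩, hy3⟩ := accPt_iff_nhds.1 ha U hU
    exact ⟨y, hy, hy3, hy1, τ, by rwa [sub_self, abs_zero], hy2⟩
  obtain ⟨v, hv⟩ := hinf.exists_accPt_principal
  have hvp : S.ev v 0 = p := by
    have hc : IsClosed {u | S.ev u 0 = p} := isClosed_eq S.continuous_π continuous_const
    exact hc.closure_subset (closure_mono (fun y hy => hy.1) hv.clusterPt.mem_closure)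
  obtain ⟨w, hw, hw1, hw2⟩ := S.fib_conn p _ _ isOpen_setOfPred_eventually_nhds
    (isClosed_derivedSet F).isOpen_compl
    (fun y hy => (em (y ∈ derivedSet F)).imp (hG y hy) id) ⟨v, hvp, hG v hvp hv⟩
    ⟨u, hu, fun h => hne ((hG u hu h).self_of_nhds hu)⟩
  refine hw2 (accPt_iff_nhds.2 fun U hU => ?_)
  by_contra hc
  refine hr w hw _ (inter_mem hU hw1) ((countable_singleton w).mono fun y hy => ?_)
  by_contra hy'
  exact hc ⟨y, ⟨hy.1.1, hy.2.1, hy.1.2 hy.2.1⟩, hy'⟩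

theorem Atl.exists_period [CompactSpace Y] (A : Atl S) {p : M} (hg : S.Good p) (hr : S.Rich p) :
    ∃ τ > 0, ∀ u, S.ev u 0 = p → S.φ τ u = u := by
  obtain ⟨v0, hv0⟩ := S.fib_ne p
  obtain ⟨k, hk⟩ : ∃ k : ℕ,
      {u | S.ev u 0 = p ∧ ∃ σ ∈ Icc (1 : ℝ) k, S.φ σ u = u}.Infinite := by
    by_contra hc
    have hc' : ∀ k : ℕ, {u | S.ev u 0 = p ∧ ∃ σ ∈ Icc (1 : ℝ) k, S.φ σ u = u}.Countable :=
      fun k => (not_infinite.1 fun h => hc ⟨k, h⟩).countable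
    refine hr v0 hv0 univ univ_mem ((countable_iUnion hc').mono ?_)
    rintro u ⟨-, hu, σ, hσ, he⟩
    obtain ⟨m, hm⟩ := exists_nat_ge (1 / σ)
    obtain ⟨k, hk⟩ := exists_nat_ge (m * σ)
    exact mem_iUnion.2 ⟨k, hu, m * σ, ⟨(div_le_iff₀ hσ).1 hm, hk⟩, S.φ_nat_mul he m⟩
  obtain ⟨v, hv⟩ := hk.exists_accPt_principal
  have hvp : S.ev v 0 = p := by
    have hc : IsClosed {u | S.ev u 0 = p} := isClosed_eq S.continuous_π continuous_const
    exact hc.closure_subset (closure_mono (fun y hy => hy.1) hv.clusterPt.mem_closure)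
  obtain ⟨τ, hτ, hacc⟩ : ∃ τ ∈ Icc (1 : ℝ) k, ∀ U ∈ 𝓝 v, ∀ ε > 0,
      ∃ u ∈ U, u ≠ v ∧ S.ev u 0 = p ∧ ∃ σ, |σ - τ| < ε ∧ S.φ σ u = u := by
    by_contra hc
    have h1 : ∀ᶠ u in 𝓝 v, ∀ σ ∈ Icc (1 : ℝ) k, u ≠ v → S.ev u 0 = p → S.φ σ u ≠ u := by
      refine isCompact_Icc.eventually_forall_of_forall_eventually fun τ hτ => ?_
      by_contra h2
      refine hc ⟨τ, hτ, fun U hU ε hε => ?_⟩
      by_contra h3
      refine h2 ?_
      filter_upwards [prod_mem_nhds hU (ball_mem_nhds τ hε)] with z hz h4 h5 h6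
      exact h3 ⟨z.1, hz.1, h4, h5, z.2, hz.2, h6⟩
    obtain ⟨y, ⟨hy, hy1, σ, hσ, hy2⟩, hy3⟩ := accPt_iff_nhds.1 hv _ h1
    exact hy σ hσ hy3 hy1 hy2
  have hτ0 : 0 < τ := zero_lt_one.trans_le hτ.1
  have h1 := A.fix_nhds hg hr hvp hτ0 hacc
  refine ⟨τ, hτ0, A.fix_fibre hg hr hτ0 fun hfin => ?_⟩
  refine hr v hvp _ h1 (hfin.countable.mono ?_)
  exact fun y hy => ⟨hy.2.1, hy.1 hy.2.1⟩

end Pool.Agent.GeoFin
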