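import Mathlib
import Pool.Agent.P.MP_365c00_gt.Dense
import Pool.Agent.P.MP_365c00_gt.Period

/-!
The common period (paper sec. 5, second half).
-/

open Set Filter Topology Metric

namespace Pool.Agent.GeoFin

variable {M Y : Type*} [TopologicalSpace M] [TopologicalSpace Y] [T2Space M] [T2Space Y]
  {S : Sys M Y}

/-- (J) -/
theorem Atl.join (A : Atl S) (x : M) : ∃ O ∈ 𝓝 x, ∃ Q : Set M, IsOpen Q ∧ Q.Nonempty ∧
    ∀ p ∈ O, ∀ q ∈ Q, ∃ u t, S.ev u 0 = p ∧ S.ev u t = q := by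
  obtain ⟨w, rfl⟩ := S.fib_ne x
  obtain ⟨O, hO, r, hr, e, hc, hb, hi, h0⟩ := S.sec w
  have hD := A.ctr_mem w
  have hZ := A.ctr w
  have hco := fun u => PeriodX.fibre_coord A w (u := u)
  have hτ := A.fib_τ w
  set b := A.box w with hb'
  obtain ⟨hN, -, -⟩ := PeriodX.Z_mem b hD
  rw [hZ] at hN
  have hca : ∀ s ∈ Ioo (-r) r, ContinuousAt (fun y : M × ℝ => e y.1 y.2) (S.ev w 0, s) :=
    fun s hs => hc.continuousAt (prod_mem_nhds hO (Icc_mem_nhds hs.1 hs.2))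
  have h1 : {s | e (S.ev w 0) s ∈ b.N} ∈ 𝓝 (0 : ℝ) := by
    have h2 : ContinuousAt (fun s : ℝ => e (S.ev w 0) s) 0 :=
      (hca 0 ⟨by linarith, hr⟩).comp (f := fun s : ℝ => (S.ev w 0, s)) (by fun_prop)
    exact h2.preimage_mem_nhds (by rw [h0]; exact b.N_open.mem_nhds hN)
  obtain ⟨r1, hr1, hs1⟩ := nhds_basis_closedBall.mem_iff.1
    (inter_mem h1 (Ioo_mem_nhds (by linarith : -r < 0) hr))
  have hs2 : ∀ s ∈ Icc 0 r1, e (S.ev w 0) s ∈ b.N ∧ s ∈ Ioo (-r) r := fun s hs =>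
    hs1 (by rw [mem_closedBall, Real.dist_eq, sub_zero, abs_of_nonneg hs.1]; exact hs.2)
  have hl : (0 : ℝ) ∈ Icc 0 r1 := ⟨le_rfl, hr1.le⟩
  have hrr : r1 ∈ Icc 0 r1 := ⟨hr1.le, le_rfl⟩
  have hx := mem_of_mem_nhds hO
  have hZe : ∀ s ∈ Icc 0 r1, b.Z (b.ζ (e (S.ev w 0) s)) = e (S.ev w 0) s := by
    intro s hs
    rw [← b.φ_τ _ (hs2 s hs).1,
      hτ _ (hs2 s hs).1 (hb _ hx s (Ioo_subset_Icc_self (hs2 s hs).2)), S.φ_zero]
  obtain ⟨V, hV, V', hV', Q, hQ, hQn, hsw⟩ := b.sweep _ (b.ζ_mem _ (hs2 0 hl).1) _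
    (b.ζ_mem _ (hs2 r1 hrr).1) (fun h => hr1.ne (hi (Ioo_subset_Icc_self (hs2 0 hl).2)
      (Ioo_subset_Icc_self (hs2 r1 hrr).2) (by rw [← hZe 0 hl, ← hZe r1 hrr, h])))
  have hζ : ∀ s ∈ Icc 0 r1, ContinuousAt (fun q => b.ζ (e q s)) (S.ev w 0) := by
    intro s hs
    have h2 : ContinuousAt (fun q : M => e q s) (S.ev w 0) :=
      (hca s (hs2 s hs).2).comp (f := fun q : M => (q, s)) (by fun_prop)
    exact (b.ζ_cont.continuousAt (b.N_open.mem_nhds (hs2 s hs).1)).comp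
      (f := fun q : M => e q s) h2
  have h3 : ∀ᶠ q in 𝓝 (S.ev w 0), ∀ s ∈ Icc 0 r1, e q s ∈ b.N :=
    isCompact_Icc.eventually_forall_of_forall_eventually fun s hs =>
      (hca s (hs2 s hs).2).preimage_mem_nhds (b.N_open.mem_nhds (hs2 s hs).1)
  refine ⟨_, inter_mem (inter_mem hO h3) (inter_mem ((hζ 0 hl).preimage_mem_nhds hV)
    ((hζ r1 hrr).preimage_mem_nhds hV')), Q, hQ, hQn, fun p hp q hq => ?_⟩
  obtain ⟨⟨hpO, hpN⟩, hpV, hpV'⟩ := hp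
  have h4 : ContinuousOn (fun s => e p s) (Icc 0 r1) :=
    hc.comp (f := fun s : ℝ => (p, s)) (by fun_prop)
      fun s hs => mk_mem_prod hpO (Ioo_subset_Icc_self (hs2 s hs).2)
  obtain ⟨s, hs, t, -, he⟩ := hsw (fun s => b.ζ (e p s)) 0 r1 hr1.le
    (b.ζ_cont.comp h4 hpN) (fun s hs => b.ζ_mem _ (hpN s hs)) hpV hpV' q hq
  have hs' := Ioo_subset_Icc_self hs
  rw [← b.φ_τ _ (hpN s hs'), S.ev_φ] at he
  exact ⟨e p s, _, hb p hpO s (Ioo_subset_Icc_self (hs2 s hs').2), he⟩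

theorem Sys.isClosed_fixed (S : Sys M Y) (τ : ℝ) :
    IsClosed {q | ∀ u, S.ev u 0 = q → S.φ τ u = u} := by
  refine isClosed_of_closure_subset fun q hq u hu => ?_
  by_contra hne
  subst hu
  obtain ⟨O, hO, r, hr, e, hc, hb, -, h0⟩ := S.sec u
  have h1 : ContinuousAt (fun q : M => e q 0) (S.ev u 0) :=
    (hc.continuousAt (prod_mem_nhds hO (Icc_mem_nhds (by linarith) hr))).comp
      (f := fun q : M => (q, (0 : ℝ))) (by fun_prop)
  have h2 : {y | S.φ τ y ≠ y} ∈ 𝓝 (e (S.ev u 0) 0) := by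
    rw [h0]
    exact (isOpen_ne_fun (S.continuous_φ τ) continuous_id).mem_nhds hne
  obtain ⟨q, ⟨hq1, hq2⟩, hq3⟩ := mem_closure_iff_nhds.1 hq _
    (inter_mem hO (h1.preimage_mem_nhds h2))
  exact hq2 (hq3 _ (hb q hq1 0 ⟨by linarith, hr.le⟩))

namespace GlobX

omit [T2Space M] [T2Space Y] in
theorem fix_φ {τ : ℝ} {u : Y} (h : S.φ τ u = u) (t : ℝ) : S.φ τ (S.φ t u) = S.φ t u := by
  rw [← S.φ_add, add_comm, S.φ_add, h]

omit [T2Space M] [T2Space Y] in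
theorem meets {G O : Set M} (hG : G ∈ S.ae) (hO : IsOpen O) (hn : O.Nonempty) :
    (O ∩ G)ᶜ ∉ S.ae := fun h =>
  S.open_pos O hO hn (mem_of_superset (inter_mem h hG) fun _ hx hx' => hx.1 ⟨hx', hx.2⟩)

omit [T2Space M] [T2Space Y] in
theorem nonempty_of {B : Set M} (h : Bᶜ ∉ S.ae) : B.Nonempty := by
  rw [nonempty_iff_ne_empty]
  rintro rfl
  exact h (by rw [compl_empty]; exact univ_mem)

omit [T2Space M] [T2Space Y] in
theorem sub_of_dense {G O C : Set M} (hG : G ∈ S.ae) (hO : IsOpen O) (hC : IsClosed C)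
    (h : ∀ x ∈ O, x ∈ G → x ∈ C) : O ⊆ C := by
  intro x hx
  by_contra hc
  obtain ⟨y, hy, hy'⟩ := nonempty_of (meets hG (hO.inter hC.isOpen_compl) ⟨x, hx, hc⟩)
  exact hy.2 (h y hy.1 hy')

theorem mem_of_nonnull [CompactSpace Y] (A : Atl S) {q : M} (hg : S.Good q) (hr : S.Rich q)
    {τ : ℝ} (hτ : 0 < τ) {B : Set M} (hB : Bᶜ ∉ S.ae)
    (h : ∀ p ∈ B, ∃ u, S.ev u 0 = q ∧ S.φ τ u = u ∧ p ∈ range (S.ev u)) :
    ∀ u, S.ev u 0 = q → S.φ τ u = u := by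
  refine A.fix_fibre hg hr hτ fun hfin => hB ?_
  refine mem_of_superset ((biInter_mem hfin).2 fun u _ => S.null_range u) fun p hp hpB => ?_
  obtain ⟨u, h1, h2, h3⟩ := h p hpB
  exact mem_iInter₂.1 hp u ⟨h1, h2⟩ h3

end GlobX

open GlobX in
theorem Atl.common_period [CompactSpace M] [ConnectedSpace M] [CompactSpace Y]
    [SecondCountableTopology Y] (A : Atl S) (h : ∀ᶠ p in S.ae, S.Good p) :
    ∃ τ > 0, ∀ u, S.φ τ u = u := by
  have hG : {p | S.Good p ∧ S.Rich p} ∈ S.ae := A.rich h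
  obtain ⟨p0, -, hg0, hr0⟩ := nonempty_of (meets hG isOpen_univ univ_nonempty)
  obtain ⟨t0, ht0, hp0⟩ := A.exists_period hg0 hr0
  obtain ⟨τ, hτ, hC⟩ : ∃ τ > 0, {q | ∀ u, S.ev u 0 = q → S.φ τ u = u}ᶜ ∉ S.ae := by
    by_contra hc
    have hc' : ∀ m : ℕ, {q | ∀ u, S.ev u 0 = q → S.φ ((m + 1 : ℕ) * t0) u = u}ᶜ ∈ S.ae := by
      intro m
      by_contra h1
      exact hc ⟨_, by positivity, h1⟩
    obtain ⟨O, hO, Q, hQ, hQn, hj⟩ := A.join p0
    refine meets hG hQ hQn (mem_of_superset (countable_iInter_mem.2 hc') fun q hq hq' => ?_)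
    obtain ⟨u, t, hu, hut⟩ := hj p0 (mem_of_mem_nhds hO) q hq'.1
    obtain ⟨tq, htq, hpq⟩ := A.exists_period hq'.2.1 hq'.2.2
    obtain ⟨m, n, hm, -, hmn⟩ := S.period_ratio ht0 htq (fix_φ (hp0 u hu) t)
      (hpq _ (by rw [S.ev_φ_zero, hut]))
    obtain ⟨k, rfl⟩ := Nat.exists_eq_succ_of_ne_zero hm.ne'
    refine mem_iInter.1 hq k fun y hy => ?_
    rw [hmn]
    exact S.φ_nat_mul (hpq y hy) n
  have hCc := S.isClosed_fixed τ
  set C := {q | ∀ u, S.ev u 0 = q → S.φ τ u = u} with hCd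
  let W : Set M := {x | ∀ V ∈ 𝓝 x, (C ∩ V)ᶜ ∉ S.ae}
  have hWn : W.Nonempty := by
    by_contra hc
    have h1 : (C ∩ univ)ᶜ ∈ S.ae := by
      refine isCompact_univ.induction_on (p := fun V => (C ∩ V)ᶜ ∈ S.ae) ?_ ?_ ?_ ?_
      · rw [inter_empty, compl_empty]; exact univ_mem
      · exact fun s t hst ht => mem_of_superset ht fun x hx hx' => hx ⟨hx'.1, hst hx'.2⟩
      · exact fun s t hs ht => mem_of_superset (inter_mem hs ht) fun x hx hx' =>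
          hx'.2.elim (fun h => hx.1 ⟨hx'.1, h⟩) fun h => hx.2 ⟨hx'.1, h⟩
      · intro x _
        by_contra h2
        exact hc ⟨x, fun V hV h3 => h2 ⟨V, mem_nhdsWithin_of_mem_nhds hV, h3⟩⟩
    rw [inter_univ] at h1
    exact hC h1
  have hWc : IsClosed W := by
    refine isClosed_of_closure_subset fun x hx V hV => ?_
    obtain ⟨y, hy, hy'⟩ := mem_closure_iff_nhds.1 hx _ (interior_mem_nhds.2 hV)
    exact hy' V (mem_interior_iff_mem_nhds.1 hy)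
  have hWC : ∀ x ∈ W, C ∈ 𝓝 x := by
    intro x hx
    obtain ⟨O, hO, Q, hQ, hQn, hj⟩ := A.join x
    have h1 : Q ⊆ C := by
      refine sub_of_dense hG hQ hCc fun q hq hq' => ?_
      refine mem_of_nonnull A hq'.1 hq'.2 hτ (hx O hO) fun p hp => ?_
      obtain ⟨u, t, hu, hut⟩ := hj p hp.2 q hq
      exact ⟨S.φ t u, by rw [S.ev_φ_zero, hut], fix_φ (hp.1 u hu) t,
        -t, by rw [S.ev_φ, neg_add_cancel, hu]⟩
    have h2 : interior O ⊆ C := by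
      refine sub_of_dense hG isOpen_interior hCc fun p hp hp' => ?_
      refine mem_of_nonnull A hp'.1 hp'.2 hτ (S.open_pos Q hQ hQn) fun q hq => ?_
      obtain ⟨u, t, hu, hut⟩ := hj p (interior_subset hp) q hq
      refine ⟨u, hu, ?_, t, hut⟩
      have h3 := fix_φ (h1 hq (S.φ t u) (by rw [S.ev_φ_zero, hut])) (-t)
      rwa [← S.φ_add (-t) t u, neg_add_cancel, S.φ_zero] at h3
    exact mem_of_superset (interior_mem_nhds.2 hO) h2
  have hWo : IsOpen W := by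
    refine isOpen_iff_mem_nhds.2 fun x hx => ?_
    refine mem_of_superset (interior_mem_nhds.2 (hWC x hx)) fun y hy V hV h1 => ?_
    refine S.open_pos (interior C ∩ interior V) (isOpen_interior.inter isOpen_interior)
      ⟨y, hy, mem_interior_iff_mem_nhds.2 hV⟩ (mem_of_superset h1 fun z hz hz' => ?_)
    exact hz ⟨interior_subset hz'.1, interior_subset hz'.2⟩
  have hW : W = univ := IsClopen.eq_univ ⟨hWc, hWo⟩ hWn
  exact ⟨τ, hτ, fun u => mem_of_mem_nhds (hWC (S.ev u 0) (hW ▸ mem_univ _)) u rfl⟩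

end Pool.Agent.GeoFin
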