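import Mathlib
import Pool.Agent.P.MP_365c00_gt.BoxC

/-!
Existence of boxes.
-/

open Set Filter Topology Metric
open scoped Manifold ContDiff

namespace Pool.Agent.GeoFin

namespace PreExX

theorem frame {V0 : E} (h : V0 ≠ 0) : ∃ (e2 : E) (l1 l2 : E →L[ℝ] ℝ), l1 V0 = 1 ∧ l1 e2 = 0 ∧
    l2 V0 = 0 ∧ l2 e2 = 1 ∧ ∀ v : E, v = l1 v • V0 + l2 v • e2 := by
  have hn : V0 0 ^ 2 + V0 1 ^ 2 ≠ 0 := fun h0 => h (by
    ext i
    fin_cases i
    · show V0 0 = 0
      nlinarith [sq_nonneg (V0 0), sq_nonneg (V0 1)]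
    · show V0 1 = 0
      nlinarith [sq_nonneg (V0 0), sq_nonneg (V0 1)])
  refine ⟨!₂[-V0 1, V0 0],
    (V0 0 / (V0 0 ^ 2 + V0 1 ^ 2)) • EuclideanSpace.proj 0 +
      (V0 1 / (V0 0 ^ 2 + V0 1 ^ 2)) • EuclideanSpace.proj 1,
    (-V0 1 / (V0 0 ^ 2 + V0 1 ^ 2)) • EuclideanSpace.proj 0 +
      (V0 0 / (V0 0 ^ 2 + V0 1 ^ 2)) • EuclideanSpace.proj 1, ?_, ?_, ?_, ?_, fun v => ?_⟩
  · simp; field_simp
  · simp; field_simp; ring
  · simp; field_simp; ring
  · simp; field_simp; ring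
  · ext i
    fin_cases i
    · simp; field_simp; ring
    · simp; field_simp; ring

theorem expand (B : E →L[ℝ] E →L[ℝ] ℝ) (hB : ∀ u w, B u w = B w u) (e1 e2 : E) (a b : ℝ) :
    B (a • e1 + b • e2) (a • e1 + b • e2) =
      a ^ 2 * B e1 e1 + 2 * a * b * B e1 e2 + b ^ 2 * B e2 e2 ∧
    B (a • e1 + b • e2) e2 = a * B e1 e2 + b * B e2 e2 := by
  simp only [map_add, map_smul, add_apply, smul_apply, smul_eq_mul, hB e2 e1, and_true]
  ring

end PreExX

open PreExX

variable {M : Type*} [TopologicalSpace M] [ChartedSpace E M] [IsManifold (𝓡 2) ∞ M]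
  [T2Space M] [CompactSpace M] [Nonempty M]

theorem exists_preBox {g : Met M} (w : UG g) : Nonempty (PreBox w) := by
  set x : M := w.1 0 with hxd
  have hx : w.1 0 ∈ (κ x).source := mem_extChartAt_source x
  set a0 : E := κ x x with ha0
  have ha0t : a0 ∈ (κ x).target := (κ x).map_source hx
  set e1 : E := vel x w.1 0 with he1
  obtain ⟨e2, l1, l2, h11, h12, h21, h22, hdec⟩ := frame (V0 := e1) (w.vel_ne 0 hx)
  have he2 : e2 ≠ 0 := fun h => by simp [h] at h22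
  let pt : ℝ × ℝ → E := fun z => a0 + z.1 • e2
  have hpt : ContDiff ℝ ∞ pt := contDiff_const.add (contDiff_fst.smul contDiff_const)
  let p : ℝ × ℝ → ℝ := fun z => G g x (pt z) e1 e1
  let q : ℝ × ℝ → ℝ := fun z => G g x (pt z) e1 e2
  let r : ℝ × ℝ → ℝ := fun z => G g x (pt z) e2 e2
  let D1 : Set (ℝ × ℝ) := pt ⁻¹' (κ x).target
  have hD1 : IsOpen D1 := (target_open x).preimage hpt.continuous
  have hG : ∀ u v : E, ContDiffOn ℝ ∞ (fun z => G g x (pt z) u v) D1 := fun u v =>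
    (((G_smooth g x).comp hpt.contDiffOn fun _ h => h).clm_apply contDiffOn_const).clm_apply
      contDiffOn_const
  have hr : ∀ z ∈ D1, 0 < r z := fun z hz => G_pos g x hz he2
  have hΔ : ∀ z ∈ D1, 0 < p z * r z - q z ^ 2 := fun z hz => by
    have h1 : r z • e1 + (-q z) • e2 ≠ 0 := fun h => by
      have := congrArg l1 h
      simp only [map_add, map_smul, h11, h12, smul_eq_mul, map_zero] at this
      linarith [hr z hz]
    have h2 := G_pos g x hz h1
    rw [(expand _ (G_symm g x _) e1 e2 _ _).1] at h2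
    have h3 : 0 < r z * (p z * r z - q z ^ 2) := by
      convert h2 using 1
      simp only [p, q, r]
      ring
    exact (mul_pos_iff_of_pos_left (hr z hz)).1 h3
  let D0 : Set (ℝ × ℝ) := D1 ∩ (fun z => r z - z.2 ^ 2) ⁻¹' Ioi 0
  have hrs : ContDiffOn ℝ ∞ (fun z : ℝ × ℝ => r z - z.2 ^ 2) D1 :=
    (hG e2 e2).sub (contDiff_snd.pow 2).contDiffOn
  have hD0 : IsOpen D0 := hrs.continuousOn.isOpen_inter_preimage hD1 isOpen_Ioi
  let al : ℝ × ℝ → ℝ := fun z => √((r z - z.2 ^ 2) / (p z * r z - q z ^ 2))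
  let be : ℝ × ℝ → ℝ := fun z => (z.2 - al z * q z) / r z
  let V : ℝ × ℝ → E := fun z => al z • e1 + be z • e2
  have hal0 : ∀ z ∈ D0, 0 < (r z - z.2 ^ 2) / (p z * r z - q z ^ 2) := fun z hz =>
    div_pos hz.2 (hΔ z hz.1)
  have hal : ContDiffOn ℝ ∞ al D0 :=
    ((hrs.mono inter_subset_left).div ((((hG e1 e1).mul (hG e2 e2)).sub
      ((hG e1 e2).pow 2)).mono inter_subset_left) fun z hz => (hΔ z hz.1).ne').sqrt
      fun z hz => (hal0 z hz).ne'
  have hbe : ContDiffOn ℝ ∞ be D0 :=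
    (contDiff_snd.contDiffOn.sub (hal.mul ((hG e1 e2).mono inter_subset_left))).div
      ((hG e2 e2).mono inter_subset_left) fun z hz => (hr z hz.1).ne'
  have hV : ContDiffOn ℝ ∞ V D0 := (hal.smul contDiffOn_const).add (hbe.smul contDiffOn_const)
  have hal2 : ∀ z ∈ D0, al z ^ 2 * (p z * r z - q z ^ 2) = r z - z.2 ^ 2 := fun z hz => by
    rw [Real.sq_sqrt (hal0 z hz).le, div_mul_cancel₀ _ (hΔ z hz.1).ne']
  have hbe1 : ∀ z ∈ D0, al z * q z + be z * r z = z.2 := fun z hz => by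
    simp only [be]
    rw [div_mul_cancel₀ _ (hr z hz.1).ne']
    ring
  have hmom : ∀ z ∈ D0, G g x (pt z) (V z) e2 = z.2 := fun z hz =>
    ((expand _ (G_symm g x _) e1 e2 _ _).2).trans (hbe1 z hz)
  have hunit : ∀ z ∈ D0, G g x (pt z) (V z) (V z) = 1 := fun z hz => by
    rw [(expand _ (G_symm g x _) e1 e2 _ _).1]
    apply mul_left_cancel₀ (hr z hz.1).ne'
    have h1 := hal2 z hz
    have h2 := hbe1 z hz
    show r z * (al z ^ 2 * p z + 2 * al z * be z * q z + be z ^ 2 * r z) = r z * 1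
    rw [← h2] at h1
    linear_combination h1
  have huniq : ∀ z ∈ D0, ∀ U : E, G g x (pt z) U U = 1 → G g x (pt z) U e2 = z.2 → 0 < l1 U →
      U = V z := fun z hz U h1 h2 h3 => by
    rw [hdec U, (expand _ (G_symm g x _) e1 e2 _ _).1] at h1
    rw [hdec U, (expand _ (G_symm g x _) e1 e2 _ _).2] at h2
    change l1 U ^ 2 * p z + 2 * l1 U * l2 U * q z + l2 U ^ 2 * r z = 1 at h1
    change l1 U * q z + l2 U * r z = z.2 at h2
    have h4 : l1 U ^ 2 * (p z * r z - q z ^ 2) = r z - z.2 ^ 2 := by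
      rw [← h2]
      linear_combination r z * h1
    have h5 : l1 U = al z := by
      have h6 : l1 U ^ 2 = al z ^ 2 := mul_right_cancel₀ (hΔ z hz.1).ne' (h4.trans (hal2 z hz).symm)
      exact (pow_left_inj₀ h3.le (Real.sqrt_nonneg _) two_ne_zero).1 h6
    have h7 : l2 U = be z := by
      apply mul_right_cancel₀ (hr z hz.1).ne'
      have := hbe1 z hz
      rw [h5] at h2
      linarith
    rw [hdec U, h5, h7]
  set η0 : ℝ := G g x a0 e1 e2 with hη0
  have hpt0 : pt (0, η0) = a0 := by simp [pt]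
  have hu0 : G g x a0 e1 e1 = 1 := w.unit 0 hx
  have hz1 : ((0, η0) : ℝ × ℝ) ∈ D1 := by
    show pt (0, η0) ∈ (κ x).target
    rw [hpt0]
    exact ha0t
  have hz0 : ((0, η0) : ℝ × ℝ) ∈ D0 := by
    refine ⟨hz1, ?_⟩
    have := hΔ _ hz1
    simp only [p, q, r, hpt0, hu0, one_mul] at this
    show 0 < G g x (pt (0, η0)) e2 e2 - η0 ^ 2
    rw [hpt0]
    exact this
  have hV0 : V (0, η0) = e1 :=
    (huniq _ hz0 e1 (by rw [hpt0]; exact hu0) (by rw [hpt0]) (by rw [h11]; exact one_pos)).symm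
  have hVne : ∀ z ∈ D0, V z ≠ 0 := fun z hz h => by simpa [h] using hunit z hz
  let Z : ℝ × ℝ → UG g := fun z => mk g x (pt z, V z)
  have hZ : ContinuousOn Z D0 := (mk_cont g x).comp
    (hpt.continuous.continuousOn.prodMk hV.continuousOn) fun z hz => ⟨hz.1, hVne z hz⟩
  have hZ0 : Z (0, η0) = w := by
    have := mk_jet w hx one_pos
    rw [one_smul] at this
    simp only [Z, hpt0, hV0]
    exact this
  have hc : ContinuousAt (fun y : (ℝ × ℝ) × ℝ => (Z y.1, y.2)) ((0, η0), 0) :=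
    ((hZ.continuousAt (hD0.mem_nhds hz0)).comp_of_eq continuousAt_fst rfl).prodMk continuousAt_snd
  have hS : IsOpen {z : UG g × ℝ | z.1.1 z.2 ∈ (κ x).source} :=
    (source_open x).preimage (ev_cont g)
  have hS' : IsOpen ({z : UG g × ℝ | z.1.1 z.2 ∈ (κ x).source} ∩
      (fun z : UG g × ℝ => l1 (vel x z.1.1 z.2)) ⁻¹' Ioi (1 / 2)) :=
    (l1.continuous.comp_continuousOn (vel_cont g x)).isOpen_inter_preimage hS isOpen_Ioi
  have hn := hc.preimage_mem_nhds (hS'.mem_nhds (by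
    simp only [hZ0]
    refine ⟨hx, ?_⟩
    show 1 / 2 < l1 e1
    rw [h11]
    norm_num))
  obtain ⟨A, hA, B, hB, hAB⟩ := mem_nhds_prod_iff.1 hn
  obtain ⟨ρ, hρ, hρB⟩ := Metric.mem_nhds_iff.1 hB
  have hm := min_le_right (1 / 4) (ρ / 3)
  refine ⟨{
    e1 := e1, e2 := e2, l1 := l1, l2 := l2, D := D0 ∩ interior A, c := min (1 / 4) (ρ / 3),
    V := V, η0 := η0, l1_e1 := h11, l1_e2 := h12, l2_e1 := h21, l2_e2 := h22, decomp := hdec,
    D_open := hD0.inter isOpen_interior, c_pos := by positivity, c_le := min_le_left _ _,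
    pt_mem := fun z hz => hz.1.1, V_smooth := hV.mono inter_subset_left,
    V_unit := fun z hz => hunit z hz.1, V_mom := fun z hz => hmom z hz.1,
    V_uniq := fun z hz => huniq z hz.1, ctr_mem := ⟨hz0, mem_interior_iff_mem_nhds.2 hA⟩,
    ctr := hV0, stay := fun z hz t ht => ?_ }⟩
  have := hAB (mk_mem_prod (interior_subset hz.2) (hρB (mem_ball_zero_iff.2
    (show ‖t‖ < ρ by rw [Real.norm_eq_abs]; linarith))))
  exact ⟨this.1, le_of_lt this.2⟩

end Pool.Agent.GeoFin
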