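import Mathlib
import Pool.Agent.P.MP_365c00_gt.Space

/-!
Null sets of the surface.
-/

open Set Filter Topology Metric MeasureTheory
open scoped Manifold ContDiff

namespace Pool.Agent.GeoFin

/-- sets whose complement is Lebesgue null in every chart -/
def aeM (M : Type*) [TopologicalSpace M] [ChartedSpace E M] : Filter M where
  sets := {S | ∀ x : M, volume (κ x '' (Sᶜ ∩ (κ x).source)) = 0}
  univ_sets := fun x => by simp
  sets_of_superset := fun h hs x => measure_mono_null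
    (image_mono (inter_subset_inter_left _ (compl_subset_compl.2 hs))) (h x)
  inter_sets := fun h h' x => by
    rw [compl_inter, union_inter_distrib_right, image_union]
    exact measure_union_null (h x) (h' x)

variable {M : Type*} [TopologicalSpace M] [ChartedSpace E M]

theorem compl_mem_aeM {A : Set M} :
    Aᶜ ∈ aeM M ↔ ∀ x : M, volume (κ x '' (A ∩ (κ x).source)) = 0 := by
  show (∀ x : M, volume (κ x '' (Aᶜᶜ ∩ (κ x).source)) = 0) ↔ _
  rw [compl_compl]

theorem aeM_cif : CountableInterFilter (aeM M) := by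
  refine ⟨fun S hS h => ?_⟩
  intro x
  have h0 : volume (⋃ s ∈ S, κ x '' (sᶜ ∩ (κ x).source)) = 0 :=
    (measure_biUnion_null_iff hS).2 fun s hs => h s hs x
  refine measure_mono_null ?_ h0
  rintro _ ⟨q, ⟨hq, hx⟩, rfl⟩
  rw [mem_compl_iff, mem_sInter] at hq
  push Not at hq
  obtain ⟨s, hs, hq⟩ := hq
  exact mem_biUnion hs ⟨q, ⟨hq, hx⟩, rfl⟩

theorem aeM_open_pos (O : Set M) (hO : IsOpen O) (hne : O.Nonempty) : Oᶜ ∉ aeM M := by
  obtain ⟨p, hp⟩ := hne
  rw [compl_mem_aeM]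
  intro h
  have h1 := h p
  have h2 : (κ p '' (O ∩ (κ p).source)).Nonempty := ⟨_, p, ⟨hp, mem_extChartAt_source p⟩, rfl⟩
  rw [inter_comm, PartialEquiv.image_source_inter_eq'] at h1 h2
  exact ((continuousOn_extChartAt_symm p).isOpen_inter_preimage (target_open p) hO).measure_ne_zero
    volume h2 h1

variable [IsManifold (𝓡 2) ∞ M]

/-- a set inside one chart which is null there is null in every chart -/
theorem compl_mem_aeM_of_chart {A : Set M} {x : M} (hA : A ⊆ (κ x).source)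
    (h : volume (κ x '' A) = 0) : Aᶜ ∈ aeM M := by
  rw [compl_mem_aeM]
  intro x'
  have hd : DifferentiableOn ℝ (κ x' ∘ (κ x).symm) (κ x '' (A ∩ (κ x').source)) := by
    rintro _ ⟨q, ⟨hq, hq'⟩, rfl⟩
    refine ((contDiffAt_trans ((κ x).map_source (hA hq)) ?_).differentiableAt
      (by simp)).differentiableWithinAt
    rwa [(κ x).left_inv (hA hq)]
  refine measure_mono_null ?_ (addHaar_image_eq_zero_of_differentiableOn_of_addHaar_eq_zero volume
    hd (measure_mono_null (image_mono inter_subset_left) h))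
  rintro _ ⟨q, hq, rfl⟩
  exact ⟨_, ⟨q, hq, rfl⟩, by rw [Function.comp_apply, (κ x).left_inv (hA hq.1)]⟩

theorem aeM_null_range {γ : ℝ → M} (h : ContMDiff 𝓘(ℝ, ℝ) (𝓡 2) ∞ γ) : (range γ)ᶜ ∈ aeM M := by
  rw [compl_mem_aeM]
  intro x
  have hd : DifferentiableOn ℝ (fun a : E => (κ x ∘ γ) (a 0))
      {a : E | a 1 = 0 ∧ γ (a 0) ∈ (κ x).source} := by
    intro a ha
    have h1 : DifferentiableAt ℝ (κ x ∘ γ) (a 0) :=
      (contDiffAt_chart (n := ⊤) (h (a 0)) ha.2).differentiableAt (by simp)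
    have h2 : DifferentiableAt ℝ (fun a : E => a 0) a := by fun_prop
    exact (h1.comp a h2).differentiableWithinAt
  have h0 : volume {a : E | a 1 = 0 ∧ γ (a 0) ∈ (κ x).source} = 0 := by
    refine measure_mono_null (fun a ha => ?_) (Measure.addHaar_submodule volume
      (LinearMap.ker (EuclideanSpace.projₗ (𝕜 := ℝ) (1 : Fin 2))) fun ht => ?_)
    · exact ha.1
    · have : (EuclideanSpace.single 1 1 : E) ∈
          LinearMap.ker (EuclideanSpace.projₗ (𝕜 := ℝ) (1 : Fin 2)) := by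
        rw [ht]
        trivial
      simp at this
  refine measure_mono_null ?_
    (addHaar_image_eq_zero_of_differentiableOn_of_addHaar_eq_zero volume hd h0)
  rintro _ ⟨_, ⟨⟨t, rfl⟩, hx⟩, rfl⟩
  exact ⟨EuclideanSpace.single 0 t, ⟨by simp, by simpa using hx⟩, by simp⟩

/-- Fubini -/
theorem eventually_of_nullPairs [CompactSpace M] {S : Set (M × M)} (h : NullPairs Sᶜ) :
    ∀ᶠ p in aeM M, ∀ᶠ q in aeM M, (p, q) ∈ S := by
  obtain ⟨t, ht⟩ := isCompact_univ.elim_finite_subcover (fun y : M => (κ y).source) source_open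
    fun y _ => mem_iUnion.2 ⟨y, mem_extChartAt_source y⟩
  intro x
  have h1 : ∀ᵐ a : E, ∀ y ∈ t, volume (Prod.mk a ⁻¹'
      (Prod.map (κ x) (κ y) '' (Sᶜ ∩ (κ x).source ×ˢ (κ y).source))) = 0 := by
    rw [eventually_all_finset]
    intro y _
    exact Measure.measure_ae_null_of_prod_null (h x y)
  refine measure_mono_null ?_ (ae_iff.1 h1)
  rintro _ ⟨p, ⟨hp, hx⟩, rfl⟩ hall
  refine hp ?_
  have h2 : ∀ᶠ q in aeM M, ∀ y ∈ t, q ∉ {q | q ∈ (κ y).source ∧ (p, q) ∉ S} := by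
    rw [eventually_all_finset]
    intro y hy
    refine compl_mem_aeM_of_chart (x := y) (fun q hq => hq.1) (measure_mono_null ?_ (hall y hy))
    rintro _ ⟨q, hq, rfl⟩
    exact ⟨(p, q), ⟨hq.2, hx, hq.1⟩, rfl⟩
  refine h2.mono fun q hq => ?_
  obtain ⟨y, hy, hqy⟩ := mem_iUnion₂.1 (ht (mem_univ q))
  by_contra hS
  exact hq y hy ⟨hqy, hS⟩

namespace NullX

/-- a set which is not null has a point at which it is dense in every cone -/
theorem exists_density {B : Set E} (hB : volume B ≠ 0) : ∃ a ∈ B, ∀ (V : E) (ρ : ℝ), 0 < ρ →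
    ∀ᶠ s in 𝓝[>] (0 : ℝ), volume (B ∩ closedBall (a + s • V) (s * ρ)) ≠ 0 := by
  obtain ⟨a, ha, h⟩ := Measure.exists_mem_of_measure_ne_zero_of_ae hB (ae_all_iff.2 fun K : ℕ =>
    IsUnifLocDoublingMeasure.ae_tendsto_measure_inter_div.{0, 0} (volume : Measure E) B K)
  refine ⟨a, ha, fun V ρ hρ => ?_⟩
  obtain ⟨K, hK⟩ := exists_nat_ge (‖V‖ / ρ)
  have h1 : Tendsto (fun s : ℝ => s * ρ) (𝓝[>] 0) (𝓝[>] 0) := by
    refine tendsto_nhdsWithin_iff.2 ⟨?_, ?_⟩
    · have : Tendsto (fun s : ℝ => s * ρ) (𝓝 0) (𝓝 (0 * ρ)) :=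
        (continuous_id.mul continuous_const).tendsto 0
      rw [zero_mul] at this
      exact this.mono_left nhdsWithin_le_nhds
    · exact eventually_mem_nhdsWithin.mono fun s hs => mul_pos hs hρ
  have h2 := h K (fun s : ℝ => a + s • V) (fun s => s * ρ) h1
    (eventually_mem_nhdsWithin.mono fun s hs => by
      have hs' : 0 < s := hs
      rw [mem_closedBall, dist_self_add_right, norm_smul, Real.norm_of_nonneg hs'.le]
      rw [div_le_iff₀ hρ] at hK
      nlinarith)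
  refine (h2.eventually_ne one_ne_zero).mono fun s hs h0 => hs ?_
  rw [h0, ENNReal.zero_div]

/-- a map tangent to a translation covers cones -/
theorem cone_onto {f : E → E} {a : E} (h0 : f 0 = a)
    (hf : HasStrictFDerivAt f (ContinuousLinearMap.id ℝ E) 0) {N : Set E} (hN : N ∈ 𝓝 0)
    (V : E) {ρ : ℝ} (hρ : 0 < ρ) : ∀ᶠ s in 𝓝[>] (0 : ℝ),
      ∀ b ∈ closedBall (a + s • V) (s * (ρ / 2)), ∃ V' ∈ ball V ρ, s • V' ∈ N ∧ f (s • V') = b := by
  have hV := norm_nonneg V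
  set η : ℝ := ρ / (8 * (‖V‖ + ρ)) with hη
  have hη0 : 0 < η := by positivity
  have hη1 : η * (‖V‖ + ρ) = ρ / 8 := by
    rw [hη]
    field_simp
  have hη2 : η ≤ 1 / 2 := by nlinarith
  have h1 := hf.hasFDerivAt.isLittleO.bound hη0
  have h2 : f '' (N ∩ {W | ‖f W - f 0 - ContinuousLinearMap.id ℝ E (W - 0)‖ ≤ η * ‖W - 0‖}) ∈
      𝓝 a := by
    rw [← h0, ← hf.map_nhds_eq_of_surj (by simp)]
    exact image_mem_map (inter_mem hN h1)
  obtain ⟨δ, hδ, h3⟩ := Metric.mem_nhds_iff.1 h2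
  have h4 : ∀ᶠ s in 𝓝[>] (0 : ℝ), s < δ / (‖V‖ + ρ) :=
    nhdsWithin_le_nhds (gt_mem_nhds (by positivity))
  filter_upwards [h4, self_mem_nhdsWithin] with s hs hs0 b hb
  have hs' : 0 < s := hs0
  rw [lt_div_iff₀ (by positivity)] at hs
  rw [mem_closedBall, dist_eq_norm] at hb
  have hb2 : ‖b - a‖ ≤ s * (‖V‖ + ρ) := by
    have : b - a = (b - (a + s • V)) + s • V := by abel
    rw [this]
    refine (norm_add_le _ _).trans ?_
    rw [norm_smul, Real.norm_of_nonneg hs'.le]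
    nlinarith
  obtain ⟨W, ⟨hW, hW'⟩, rfl⟩ := h3 (show b ∈ ball a δ by rw [mem_ball, dist_eq_norm]; linarith)
  simp only [mem_ofPred_eq, sub_zero, ContinuousLinearMap.id_apply, h0] at hW'
  have e : s • s⁻¹ • W = W := by rw [smul_smul, mul_inv_cancel₀ hs'.ne', one_smul]
  refine ⟨s⁻¹ • W, ?_, by rwa [e], by rw [e]⟩
  have h5 : ‖W‖ ≤ ‖f W - a‖ + ‖f W - a - W‖ := by
    have := norm_sub_le (f W - a) (f W - a - W)
    rwa [sub_sub_cancel] at this
  have h6 : ‖W - s • V‖ ≤ ‖f W - (a + s • V)‖ + ‖f W - a - W‖ := by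
    have := norm_sub_le (f W - (a + s • V)) (f W - a - W)
    rwa [show f W - (a + s • V) - (f W - a - W) = W - s • V by abel] at this
  have h7 : ‖W‖ ≤ 2 * (s * (‖V‖ + ρ)) := by nlinarith [norm_nonneg W]
  have h8 : η * ‖W‖ ≤ s * (ρ / 4) := by
    have := mul_le_mul_of_nonneg_left h7 hη0.le
    nlinarith
  rw [mem_ball, dist_eq_norm, show s⁻¹ • W - V = s⁻¹ • (W - s • V) by
    rw [smul_sub, smul_smul, inv_mul_cancel₀ hs'.ne', one_smul], norm_smul,
    Real.norm_of_nonneg (inv_pos.2 hs').le, inv_mul_lt_iff₀ hs']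
  nlinarith

variable [T2Space M] [CompactSpace M]

/-- homogeneity of geodesics -/
theorem geo_smul (g : Met M) (x : M) {a : E} (ha : a ∈ (κ x).target) (l : ℝ) (V : E) (s : ℝ) :
    geo g x (a, l • V) s = geo g x (a, V) (l * s) := by
  obtain ⟨h1, h2, h3⟩ := geo_spec g x (y := (a, l • V)) ha
  obtain ⟨k1, k2, k3⟩ := geo_spec g x (y := (a, V)) ha
  have hs : (κ x).symm a ∈ (κ x).source := (κ x).map_target ha
  have e : l * 0 + 0 = (0 : ℝ) := by ring
  have := geo_unique h1 (k1.affine l 0) (t0 := 0) (x := x) (by rwa [h2])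
    (by rw [h2, e, k2]) (by
      rw [h3, vel_affine ((isGeodesic_iff g _).1 k1 _) (by rwa [e, k2]), e, k3])
  rw [this]
  dsimp only
  rw [add_zero]

/-- the exponential map is tangent to the translation -/
theorem exp_strict (g : Met M) (x : M) {a : E} (ha : a ∈ (κ x).target) :
    κ x (geo g x (a, 0) 1) = a ∧ (∀ᶠ W in 𝓝 (0 : E), geo g x (a, W) 1 ∈ (κ x).source) ∧
      HasStrictFDerivAt (fun W : E => κ x (geo g x (a, W) 1)) (ContinuousLinearMap.id ℝ E) 0 := by
  have hs : (κ x).symm a ∈ (κ x).source := (κ x).map_target ha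
  have h0 : geo g x (a, 0) 1 = (κ x).symm a := by
    have := geo_smul g x ha 0 0 1
    rw [zero_smul, zero_mul] at this
    rw [this]
    exact (geo_spec g x (y := (a, 0)) ha).2.1
  have hsm := geo_smooth g x (y := (a, 0)) ha 1
  have hin : ContDiff ℝ ∞ fun W : E => (((a, W), 1) : (E × E) × ℝ) := by fun_prop
  have hc : ContDiffAt ℝ ∞ (fun W : E => κ x (geo g x (a, W) 1)) 0 := by
    have := ContDiffAt.comp (f := fun W : E => (((a, W), 1) : (E × E) × ℝ)) (0 : E)
      (contDiffAt_chart (n := ⊤) (x := x) hsm (by rwa [h0])) hin.contDiffAt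
    exact this
  refine ⟨by rw [h0, (κ x).right_inv ha], ?_, ?_⟩
  · have : ContinuousAt (fun W : E => geo g x (a, W) 1) 0 :=
      hsm.continuousAt.comp_of_eq hin.continuous.continuousAt rfl
    exact this.eventually ((source_open x).mem_nhds (by dsimp only; rwa [h0]))
  · have h1 := hc.hasStrictFDerivAt (by simp)
    suffices e : ContinuousLinearMap.id ℝ E = fderiv ℝ (fun W : E => κ x (geo g x (a, W) 1)) 0 by
      rw [e]
      exact h1
    refine ContinuousLinearMap.ext fun V => ?_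
    obtain ⟨k1, k2, k3⟩ := geo_spec g x (y := (a, V)) ha
    have h2 := ((isGeodesic_iff g _).1 k1 0).hasDerivAt (x := x) (by rwa [k2])
    rw [k3] at h2
    have h3 : HasDerivAt (fun t : ℝ => t • V) V 0 := by
      simpa using (hasDerivAt_id (0 : ℝ)).smul_const V
    have h4 := h1.hasFDerivAt.comp_hasDerivAt_of_eq 0 h3 (by simp)
    have e : ((fun W : E => κ x (geo g x (a, W) 1)) ∘ fun t : ℝ => t • V) =
        fun t => κ x (geo g x (a, V) t) := by
      funext t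
      rw [Function.comp_apply, geo_smul g x ha, mul_one]
    rw [e] at h4
    exact h2.unique h4

end NullX

variable [T2Space M] [CompactSpace M] [Nonempty M]

/-- (cone) of paper sec. 3 -/
theorem aeM_cone (g : Met M) (A : Set M) (hA : Aᶜ ∉ aeM M) : ∃ p ∈ A, ∀ v : UG g, v.1 0 = p →
    ∀ U ∈ 𝓝 v, ∀ ε > 0,
      (A ∩ {q | ∃ x ∈ U, x.1 0 = p ∧ ∃ a, |a| < ε ∧ x.1 a = q})ᶜ ∉ aeM M := by
  rw [compl_mem_aeM] at hA
  push Not at hA
  obtain ⟨x, hx⟩ := hA
  obtain ⟨_, ⟨p, ⟨hpA, hp⟩, rfl⟩, hd⟩ := NullX.exists_density hx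
  refine ⟨p, hpA, fun v hv U hU ε hε hn => ?_⟩
  have ha : κ x p ∈ (κ x).target := (κ x).map_source hp
  have hv0 : v.1 0 ∈ (κ x).source := by rwa [hv]
  have hV : vel x v.1 0 ≠ 0 := v.vel_ne 0 hv0
  have hG : G g x (κ x p) (vel x v.1 0) (vel x v.1 0) = 1 := by
    have := v.unit 0 hv0
    rwa [hv] at this
  have hm : mk g x (κ x p, vel x v.1 0) = v := by
    have := mk_jet v hv0 one_pos
    rwa [hv, one_smul] at this
  have c1 : ContinuousAt (fun V : E => mk g x (κ x p, V)) (vel x v.1 0) :=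
    ((mk_cont g x).continuousAt (x := (κ x p, vel x v.1 0))
      (((target_open x).prod isOpen_compl_singleton).mem_nhds ⟨ha, hV⟩)).comp_of_eq
      (by fun_prop) rfl
  have c2 : ContinuousAt (fun V : E => G g x (κ x p) V V) (vel x v.1 0) := by fun_prop
  have e1 : ∀ᶠ V in 𝓝 (vel x v.1 0), mk g x (κ x p, V) ∈ U := 
    c1.eventually (by dsimp only; rwa [hm])
  have e2 : ∀ᶠ V in 𝓝 (vel x v.1 0), G g x (κ x p) V V < 4 :=
    c2.eventually (gt_mem_nhds (by dsimp only; rw [hG]; norm_num))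
  have e3 : ∀ᶠ V in 𝓝 (vel x v.1 0), V ≠ 0 := isOpen_compl_singleton.mem_nhds hV
  obtain ⟨ρ, hρ, hb⟩ := Metric.eventually_nhds_iff_ball.1 (e1.and (e2.and e3))
  obtain ⟨f0, fN, fd⟩ := NullX.exp_strict g x ha
  have e4 : ∀ᶠ s in 𝓝[>] (0 : ℝ), s < ε / 2 := nhdsWithin_le_nhds (gt_mem_nhds (by positivity))
  obtain ⟨s, ⟨h1, h2⟩, h3, h4⟩ := (((hd (vel x v.1 0) (ρ / 2) (by positivity)).and
    (NullX.cone_onto f0 fd fN (vel x v.1 0) hρ)).and (e4.and self_mem_nhdsWithin)).exists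
  have hs : 0 < s := h4
  refine h1 (measure_mono_null ?_ (compl_mem_aeM.1 hn x))
  rintro _ ⟨⟨q, ⟨hqA, hq⟩, rfl⟩, hqb⟩
  obtain ⟨V, hVb, hN, hf⟩ := h2 _ hqb
  obtain ⟨b1, b2, b3⟩ := hb V hVb
  have hr : 0 < √(G g x (κ x p) V V) := Real.sqrt_pos.2 (G_pos g x ha b3)
  have hr2 : √(G g x (κ x p) V V) < 2 := Real.sqrt_lt' two_pos |>.2 (by linarith)
  refine ⟨q, ⟨⟨hqA, mk g x (κ x p, V), b1, ?_, s * √(G g x (κ x p) V V), ?_, ?_⟩, hq⟩, rfl⟩
  · rw [mk_zero g x (y := (κ x p, V)) ha b3]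
    exact (κ x).left_inv hp
  · rw [abs_of_pos (mul_pos hs hr)]
    nlinarith
  · rw [mk_eq g x (y := (κ x p, V)) ha b3, NullX.geo_smul g x ha, ← (κ x).injOn hN hq hf,
      NullX.geo_smul g x ha]
    congr 1
    dsimp only
    field_simp

end Pool.Agent.GeoFin
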