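import Mathlib
import Pool.Agent.P.MP_365c00_gt.BoxC
import Pool.Agent.P.MP_365c00_gt.Null

/-!
Two measure statements: (b7) of paper sec. 3 and Sard in paper sec. 6.
-/

open Set Filter Topology Metric MeasureTheory
open scoped Manifold ContDiff

namespace Pool.Agent.GeoFin

variable {M : Type*} [TopologicalSpace M] [ChartedSpace E M] [IsManifold (𝓡 2) ∞ M]
  [T2Space M] [CompactSpace M] [Nonempty M]

namespace SardX

/-- slope of the initial velocity -/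
noncomputable def slp {g : Met M} (x : M) (m1 m2 : E →L[ℝ] ℝ) (u : UG g) : ℝ :=
  m2 (vel x u.1 0) / m1 (vel x u.1 0)

theorem mk_slp {g : Met M} {x : M} {e f : E} {m1 m2 : E →L[ℝ] ℝ}
    (hd : ∀ v, v = m1 v • e + m2 v • f) (u : UG g) (hx : u.1 0 ∈ (κ x).source)
    (h : 0 < m1 (vel x u.1 0)) : mk g x (κ x (u.1 0), e + slp x m1 m2 u • f) = u := by
  have := mk_jet u hx (inv_pos.2 h)
  rwa [hd (vel x u.1 0), ← hd (vel x u.1 0), show (m1 (vel x u.1 0))⁻¹ • vel x u.1 0 =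
    e + slp x m1 m2 u • f by
      nth_rewrite 2 [hd (vel x u.1 0)]
      rw [smul_add, smul_smul, smul_smul, inv_mul_cancel₀ h.ne', one_smul, slp,
        div_eq_inv_mul]] at this

omit [T2Space M] [CompactSpace M] [Nonempty M] in
theorem ev0_cont (g : Met M) : Continuous fun u : UG g => u.1 0 :=
  (ev_cont g).comp (continuous_id.prodMk continuous_const)

theorem vel0_cont {g : Met M} {x : M} {u : UG g} (hx : u.1 0 ∈ (κ x).source) :
    ContinuousAt (fun u : UG g => vel x u.1 0) u :=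
  ContinuousAt.comp (f := fun u : UG g => (u, (0 : ℝ)))
    ((vel_cont g x).continuousAt (((source_open x).preimage (ev_cont g)).mem_nhds hx))
    (continuous_id.prodMk continuous_const).continuousAt

theorem slp_cont {g : Met M} {x : M} (m1 m2 : E →L[ℝ] ℝ) {u : UG g} (hx : u.1 0 ∈ (κ x).source)
    (h : 0 < m1 (vel x u.1 0)) : ContinuousAt (slp x m1 m2) u :=
  (m2.continuous.continuousAt.comp (vel0_cont hx)).div
    (m1.continuous.continuousAt.comp (vel0_cont hx)) h.ne'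

theorem null_preimage (L : E ≃L[ℝ] ℝ × ℝ) {T : Set (ℝ × ℝ)} (h : volume T = 0) :
    volume (L ⁻¹' T) = 0 := by
  have := L.isAddHaarMeasure_map (volume : Measure E)
  exact le_zero_iff.1 ((Measure.le_map_apply L.continuous.measurable.aemeasurable T).trans
    (Measure.absolutelyContinuous_isAddHaarMeasure (Measure.map L volume) volume h).le)

/-- endpoints of the geodesic arc with initial point, slope and time -/
noncomputable def ends (g : Met M) (x y : M) (e f : E) (p : E × E) : E × E :=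
  (p.1, κ y ((mk g x (p.1, e + p.2 0 • f)).1 (p.2 1)))

theorem ends_smooth (g : Met M) (x y : M) {e f : E} (hne : ∀ s : ℝ, e + s • f ≠ 0) {p : E × E}
    (h1 : p.1 ∈ (κ x).target) (h2 : (mk g x (p.1, e + p.2 0 • f)).1 (p.2 1) ∈ (κ y).source) :
    ContDiffAt ℝ ∞ (ends g x y e f) p := by
  have a1 := contDiffAt_chart (mk_smooth g x (y := (p.1, e + p.2 0 • f)) h1 (hne _) (p.2 1)) h2
  have a2 : ContDiff ℝ ∞ fun p : E × E => ((p.1, e + p.2 0 • f), p.2 1) := by fun_prop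
  exact contDiffAt_fst.prodMk (ContDiffAt.comp (f := fun p : E × E => ((p.1, e + p.2 0 • f), p.2 1))
    p a1 a2.contDiffAt)

theorem null_dir (g : Met M) (x y : M) {e f : E} {m1 m2 : E →L[ℝ] ℝ}
    (hd : ∀ v, v = m1 v • e + m2 v • f) (he : m1 e = 1) (hf : m1 f = 0) :
    volume (Prod.map (κ x) (κ y) '' {z : M × M | z ∈ (κ x).source ×ˢ (κ y).source ∧
      ∃ (u : UG g) (t : ℝ), u.1 0 = z.1 ∧ u.1 t = z.2 ∧ 0 < m1 (vel x u.1 0) ∧
      ¬ ∀ᶠ x in 𝓝 (u, t), x.1.1 0 = z.1 → x.1.1 x.2 = z.2 → x = (u, t)}) = 0 := by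
  have hne : ∀ s : ℝ, e + s • f ≠ 0 := fun s h => by simpa [he, hf] using congrArg m1 h
  have : (volume : Measure (E × E)).IsAddHaarMeasure := Measure.prod.instIsAddHaarMeasure _ _
  refine measure_mono_null ?_ (addHaar_image_eq_zero_of_det_fderivWithin_eq_zero volume
    (s := {p | (p.1 ∈ (κ x).target ∧ (mk g x (p.1, e + p.2 0 • f)).1 (p.2 1) ∈ (κ y).source) ∧
      (fderiv ℝ (ends g x y e f) p).det = 0}) (f := ends g x y e f)
    (f' := fderiv ℝ (ends g x y e f))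
    (fun p hp => ((ends_smooth g x y hne hp.1.1 hp.1.2).differentiableAt
      (by simp)).hasFDerivAt.hasFDerivWithinAt) fun p hp => hp.2)
  rintro _ ⟨⟨p, q⟩, ⟨⟨hp, hq⟩, u, t, rfl, rfl, hu, hn⟩, rfl⟩
  let P : UG g × ℝ → E × E := fun v => (κ x (v.1.1 0), !₂[slp x m1 m2 v.1, v.2])
  have hP : ∀ v : UG g × ℝ, v.1.1 0 ∈ (κ x).source → 0 < m1 (vel x v.1.1 0) →
      mk g x ((P v).1, e + (P v).2 0 • f) = v.1 := fun v h1 h2 => mk_slp hd v.1 h1 h2
  have hE : ∀ v : UG g × ℝ, v.1.1 0 ∈ (κ x).source → 0 < m1 (vel x v.1.1 0) →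
      ends g x y e f (P v) = (κ x (v.1.1 0), κ y (v.1.1 v.2)) := fun v h1 h2 => by
    rw [ends, hP v h1 h2]; rfl
  have hU : (P (u, t)).1 ∈ (κ x).target ∧
      (mk g x ((P (u, t)).1, e + (P (u, t)).2 0 • f)).1 ((P (u, t)).2 1) ∈ (κ y).source :=
    ⟨(κ x).map_source hp, by rw [hP _ hp hu]; exact hq⟩
  refine ⟨P (u, t), ⟨hU, by_contra fun hdet => hn ?_⟩, hE _ hp hu⟩
  have hs := (ends_smooth g x y hne hU.1 hU.2).hasStrictFDerivAt (by simp)
  rw [← ContinuousLinearMap.coe_toContinuousLinearEquivOfDetNeZero _ hdet] at hs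
  have c0 : ContinuousAt (fun v : UG g × ℝ => v.1.1 0) (u, t) :=
    ((ev0_cont g).comp continuous_fst).continuousAt
  have c1 : ContinuousAt P (u, t) := by
    refine (ContinuousAt.comp (f := fun v : UG g × ℝ => v.1.1 0) (continuousAt_extChartAt' hp)
      c0).prodMk ?_
    have c2 : ContinuousAt (fun v : UG g × ℝ => (slp x m1 m2 v.1, v.2)) (u, t) :=
      (ContinuousAt.comp (f := Prod.fst) (slp_cont m1 m2 hp hu) continuousAt_fst).prodMk
        continuousAt_snd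
    exact ContinuousAt.comp (g := fun a : ℝ × ℝ => (!₂[a.1, a.2] : E)) (by fun_prop) c2
  have c3 : ContinuousAt (fun v : UG g × ℝ => m1 (vel x v.1.1 0)) (u, t) :=
    m1.continuous.continuousAt.comp
      (ContinuousAt.comp (f := Prod.fst) (vel0_cont hp) continuousAt_fst)
  filter_upwards [c1.eventually hs.eventually_left_inverse, c3.eventually (lt_mem_nhds hu)]
    with v h1 h2 h3 h4
  have h5 : v.1.1 0 ∈ (κ x).source := h3 ▸ hp
  rw [hE v h5 h2, h3, h4, ← hE (u, t) hp hu, hs.localInverse_apply_image] at h1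
  refine Prod.ext ?_ ?_
  · rw [← hP v h5 h2, ← h1, hP _ hp hu]
  · exact (congrArg (fun p : E × E => p.2 1) h1).symm

end SardX

open SardX

theorem PreBox.null_arc {g : Met M} {w : UG g} (b : PreBox w) (A : Set (ℝ × ℝ))
    (hA : volume A = 0) :
    {p | ∃ (e : ℝ → UG g) (r : ℝ), 0 < r ∧ ContinuousOn e (Icc 0 r) ∧ InjOn e (Icc 0 r) ∧
      ∀ s ∈ Icc 0 r, (e s).1 0 = p ∧ e s ∈ b.N ∧ b.ζ (e s) ∈ A}ᶜ ∈ aeM M := by
  have hN : ∀ u ∈ b.N, (b.Z (b.ζ u)).1 (-b.τ u) = u.1 0 ∧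
      vel (w.1 0) (b.Z (b.ζ u)).1 (-b.τ u) = vel (w.1 0) u.1 0 := fun u hu => by
    rw [← (b.hit_spec hu).2.2, shift_apply, vel_shift, neg_add_cancel]
    exact ⟨rfl, rfl⟩
  have hS : ∀ u ∈ b.N, u.1 0 ∈ (κ (w.1 0)).source ∧ 0 < b.l1 (vel (w.1 0) u.1 0) := fun u hu => by
    have := b.Z_stay (b.hit_spec hu).1 (t := -b.τ u)
      (by rw [abs_neg]; linarith [(b.hit_spec hu).2.1, b.c_pos])
    rw [(hN u hu).1, (hN u hu).2] at this
    exact ⟨this.1, by linarith [this.2]⟩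
  let Γ : (ℝ × ℝ) × ℝ → E := κ (w.1 0) ∘ fun y => (b.Z y.1).1 y.2
  have hΓ : ∀ y ∈ b.D ×ˢ Ioo (-b.c) b.c, ContDiffAt ℝ ∞ Γ y ∧
      fderiv ℝ Γ y (0, 1) = vel (w.1 0) (b.Z y.1).1 y.2 ∧ 0 < b.l1 (fderiv ℝ Γ y (0, 1)) :=
    fun y hy => by
    have h1 := b.Z_stay hy.1 (t := y.2) (abs_le.2 ⟨by linarith [hy.2.1, b.c_pos],
      by linarith [hy.2.2, b.c_pos]⟩)
    have h2 : ContDiffAt ℝ ∞ Γ y := contDiffAt_chart (b.Z_smooth hy.1 y.2) h1.1
    have h3 : HasDerivAt (fun t : ℝ => (y.1, t)) (0, 1) y.2 :=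
      (hasDerivAt_const _ _).prodMk (hasDerivAt_id _)
    have h4 := ((h2.differentiableAt (by simp)).hasFDerivAt.comp_hasDerivAt y.2 h3).deriv
    have h5 : fderiv ℝ Γ y (0, 1) = vel (w.1 0) (b.Z y.1).1 y.2 := h4.symm
    exact ⟨h2, h5, by rw [h5]; linarith [h1.2]⟩
  let Ψ : (ℝ × ℝ) × ℝ → (ℝ × ℝ) × ℝ := fun y =>
    ((b.l1 (Γ y), b.l2 (Γ y)), b.l2 (fderiv ℝ Γ y (0, 1)) / b.l1 (fderiv ℝ Γ y (0, 1)))
  have hΨ : volume (Ψ '' ((A ∩ b.D) ×ˢ Ioo (-b.c) b.c)) = 0 := by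
    have : (volume : Measure (ℝ × ℝ)).IsAddHaarMeasure := Measure.prod.instIsAddHaarMeasure _ _
    have : (volume : Measure ((ℝ × ℝ) × ℝ)).IsAddHaarMeasure :=
      Measure.prod.instIsAddHaarMeasure _ _
    refine addHaar_image_eq_zero_of_differentiableOn_of_addHaar_eq_zero volume
      (fun y hy => DifferentiableAt.differentiableWithinAt ?_) ?_
    · obtain ⟨h1, -, h3⟩ := hΓ y ⟨hy.1.2, hy.2⟩
      have d1 := h1.differentiableAt (by simp)
      have d2 : DifferentiableAt ℝ (fun y => fderiv ℝ Γ y (0, 1)) y :=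
        ((h1.fderiv_right (m := 1) (by norm_cast)).differentiableAt (by simp)).clm_apply
          (differentiableAt_const _)
      simp only [Ψ, div_eq_mul_inv]
      exact ((b.l1.differentiableAt.comp y d1).prodMk (b.l2.differentiableAt.comp y d1)).prodMk
        ((b.l2.differentiableAt.comp y d2).mul ((differentiableAt_inv h3.ne').comp y
          (b.l1.differentiableAt.comp y d2)))
    · rw [Measure.volume_eq_prod, Measure.prod_prod, measure_mono_null inter_subset_left hA,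
        zero_mul]
  let L : E ≃L[ℝ] ℝ × ℝ := ContinuousLinearEquiv.equivOfInverse (b.l1.prod b.l2)
    ((ContinuousLinearMap.fst ℝ ℝ ℝ).smulRight b.e1 + (ContinuousLinearMap.snd ℝ ℝ ℝ).smulRight b.e2)
    (fun v => by simpa using (b.decomp v).symm)
    (fun a => by simp [b.l1_e1, b.l1_e2, b.l2_e1, b.l2_e2])
  refine compl_mem_aeM_of_chart (x := w.1 0) ?_ (measure_mono_null ?_
    (null_preimage L (Measure.measure_ae_null_of_prod_null hΨ)))
  · rintro p ⟨e, r, hr, -, -, he⟩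
    obtain ⟨rfl, h, -⟩ := he 0 ⟨le_rfl, hr.le⟩
    exact (hS _ h).1
  rintro _ ⟨p, ⟨e, r, hr, hc, hi, he⟩, rfl⟩ h0
  have h1 : ContinuousOn (fun s => slp (w.1 0) b.l1 b.l2 (e s)) (uIcc 0 r) := by
    rw [uIcc_of_le hr.le]
    exact fun s hs => (slp_cont _ _ (hS _ (he s hs).2.1).1
      (hS _ (he s hs).2.1).2).comp_continuousWithinAt (hc s hs)
  have h2 : slp (w.1 0) b.l1 b.l2 (e 0) ≠ slp (w.1 0) b.l1 b.l2 (e r) := fun h => by
    have a0 := he 0 ⟨le_rfl, hr.le⟩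
    have a1 := he r ⟨hr.le, le_rfl⟩
    refine hr.ne (hi ⟨le_rfl, hr.le⟩ ⟨hr.le, le_rfl⟩ ?_)
    rw [← mk_slp b.decomp (e 0) (hS _ a0.2.1).1 (hS _ a0.2.1).2, h, a0.1, ← a1.1,
      mk_slp b.decomp (e r) (hS _ a1.2.1).1 (hS _ a1.2.1).2]
  have h3 := measure_mono_null ((intermediate_value_uIcc h1).trans ?_) h0
  · rw [Real.volume_interval, ENNReal.ofReal_eq_zero, abs_nonpos_iff, sub_eq_zero] at h3
    exact h2 h3.symm
  rintro _ ⟨s, hs, rfl⟩
  rw [uIcc_of_le hr.le] at hs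
  obtain ⟨a1, a2, a3⟩ := he s hs
  have a4 := b.hit_spec a2
  have a5 : -b.τ (e s) ∈ Ioo (-b.c) b.c :=
    ⟨by linarith [(abs_lt.1 a4.2.1).2], by linarith [(abs_lt.1 a4.2.1).1]⟩
  refine ⟨(b.ζ (e s), -b.τ (e s)), ⟨⟨a3, a4.1⟩, a5⟩, ?_⟩
  simp only [Ψ, (hΓ (b.ζ (e s), -b.τ (e s)) ⟨a4.1, a5⟩).2.1, (hN _ a2).2]
  simp only [Γ, Function.comp, (hN _ a2).1, a1]
  rfl

/-- for almost every pair of points the geodesic arcs joining them are isolated -/
theorem nullPairs_not_isolated (g : Met M) :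
    NullPairs {z : M × M | ∃ (u : UG g) (t : ℝ), u.1 0 = z.1 ∧ u.1 t = z.2 ∧
      ¬ ∀ᶠ x in 𝓝 (u, t), x.1.1 0 = z.1 → x.1.1 x.2 = z.2 → x = (u, t)} := by
  intro x y
  have key : ∀ (i : Fin 2) (σ : ℝ), σ * σ = 1 → _ := fun i σ hσ =>
    null_dir g x y (e := EuclideanSpace.single i σ) (f := EuclideanSpace.single (i + 1) 1)
      (m1 := σ • EuclideanSpace.proj i) (m2 := EuclideanSpace.proj (i + 1))
      (fun v => by
        ext j
        fin_cases i <;> fin_cases j <;> simp <;> linear_combination (-v _) * hσ)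
      (by simp [hσ]) (by fin_cases i <;> simp)
  refine measure_mono_null ?_ (measure_union_null
    (measure_union_null (key 0 1 (by norm_num)) (key 0 (-1) (by norm_num)))
    (measure_union_null (key 1 1 (by norm_num)) (key 1 (-1) (by norm_num))))
  rintro _ ⟨z, ⟨⟨u, t, h0, h1, hn⟩, hz⟩, rfl⟩
  have hv := u.vel_ne 0 (x := x) (h0 ▸ hz.1)
  rcases lt_trichotomy (vel x u.1 0 0) 0 with h | h | h
  · exact Or.inl (Or.inr ⟨z, ⟨hz, u, t, h0, h1, by simpa using h, hn⟩, rfl⟩)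
  · rcases lt_trichotomy (vel x u.1 0 1) 0 with h' | h' | h'
    · exact Or.inr (Or.inr ⟨z, ⟨hz, u, t, h0, h1, by simpa using h', hn⟩, rfl⟩)
    · exact absurd (by ext j; fin_cases j; exacts [h, h']) hv
    · exact Or.inr (Or.inl ⟨z, ⟨hz, u, t, h0, h1, by simpa using h', hn⟩, rfl⟩)
  · exact Or.inl (Or.inl ⟨z, ⟨hz, u, t, h0, h1, by simpa using h, hn⟩, rfl⟩)

end Pool.Agent.GeoFin
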