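import Mathlib
import Pool.Agent.P.MP_365c00_gt.Glob
import Pool.Agent.P.MP_365c00_gt.Exact
import Pool.Agent.P.MP_365c00_gt.Sard
import Pool.Agent.P.MP_365c00_gt.PreEx

/-!
Assembly.
-/

open Set Filter Topology Metric MeasureTheory
open scoped Manifold ContDiff

namespace Pool.Agent.GeoFin

variable {M : Type*} [TopologicalSpace M] [ChartedSpace E M] [IsManifold (𝓡 2) ∞ M]
  [T2Space M] [CompactSpace M] [Nonempty M]

/-- the geodesic system of a Riemannian surface -/
noncomputable def sys (g : Met M) : Sys M (UG g) where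
  ev u := u.1
  φ := shift
  ae := aeM M
  cif := aeM_cif
  ev_cont := ev_cont g
  φ_cont := shift_cont g
  ev_φ := shift_apply
  ev_inj := fun _ _ h => Subtype.ext (DFunLike.coe_injective h)
  locinj := UG.locinj
  dir := fun u u' T ε hε h => u.dir u' T ε hε h
  open_pos := aeM_open_pos
  null_range := fun u => aeM_null_range u.2.1.1
  fib_conn := fib_conn g
  fib_ne := fib_ne g
  sec := exists_sec
  cone := aeM_cone g

/-- the box of a prebox -/
noncomputable def PreBox.box {g : Met M} {w : UG g} (b : PreBox w) : Box (sys g) where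
  D := b.D
  Z := b.Z
  N := b.N
  τ := b.τ
  ζ := b.ζ
  c := b.c
  c_pos := b.c_pos
  D_open := b.D_open
  N_open := b.N_open
  Z_cont := b.Z_cont
  τ_cont := b.τ_cont
  ζ_cont := b.ζ_cont
  ζ_mem := fun _ h => (b.hit_spec h).1
  τ_lt := fun _ h => (b.hit_spec h).2.1
  φ_τ := fun _ h => (b.hit_spec h).2.2
  mem_N := fun _ hz _ ht => b.mem_N hz ht
  uniq := fun _ hz _ hz' _ ht h => b.uniq hz hz' ht h
  sweep := fun _ hz _ hz' h => b.sweep hz hz' h
  null_arc := b.null_arc

/-- the atlas of boxes -/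
noncomputable def atl (g : Met M) : Atl (sys g) where
  box w := (exists_preBox w).some.box
  η0 w := (exists_preBox w).some.η0
  c_le w := (exists_preBox w).some.c_le
  ctr_mem w := (exists_preBox w).some.ctr_mem
  ctr w := (exists_preBox w).some.Z_ctr
  fib w _ hz := (exists_preBox w).some.fib hz
  fib_τ w _ hu h := (exists_preBox w).some.fib_τ hu h
  hol_smooth w w' a := (exists_preBox w).some.hol_smooth (exists_preBox w').some a
  holT_smooth w w' a := (exists_preBox w).some.time_smooth (exists_preBox w').some a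
  exact w w' a _ hz ξ := (exists_preBox w).some.exact (exists_preBox w').some a hz.1 hz.2 ξ

theorem mem_finPairs (g : Met M) (p q : M) : (p, q) ∈ finPairs g ↔ (sys g).Fin p q := by
  have key : ∀ (u : UG g) {t : ℝ}, 0 < t →
      (fun s => u.1 (t * s + 0)) '' Icc 0 1 = u.1 '' Icc 0 t := by
    intro u t ht
    ext y
    constructor
    · rintro ⟨s, hs, rfl⟩
      exact ⟨t * s + 0, ⟨by nlinarith [hs.1], by nlinarith [hs.2]⟩, rfl⟩
    · rintro ⟨s, hs, rfl⟩
      refine ⟨s / t, ⟨div_nonneg hs.1 ht.le, (div_le_one ht).2 hs.2⟩, ?_⟩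
      simp only [add_zero]
      rw [mul_div_cancel₀ _ ht.ne']
  refine iff_of_eq (congrArg Set.Finite (Set.ext fun S => ⟨?_, ?_⟩))
  · rintro ⟨γ, hγ, ⟨s, -, hs⟩, h0, h1, rfl⟩
    obtain ⟨u, l, hl, hu⟩ := exists_unit hγ hs
    refine ⟨u, l, hl, ?_, ?_, ?_⟩
    · exact (by simpa using (hu 0).symm : u.1 0 = γ 0).trans h0
    · exact (by simpa using (hu 1).symm : u.1 l = γ 1).trans h1
    · rw [show γ = fun s => u.1 (l * s + 0) from funext fun s => by rw [hu, add_zero]]
      exact key u hl
  · rintro ⟨u, t, ht, h0, h1, rfl⟩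
    change u.1 0 = p at h0
    change u.1 t = q at h1
    refine ⟨fun s => u.1 (t * s + 0), u.2.1.affine t 0, ?_, by simpa using h0, by simpa using h1,
      (key u ht).symm⟩
    obtain ⟨ε, hε, hi⟩ := u.locinj
    have hm : 0 < min (ε / 2) t := lt_min (by linarith) ht
    have hm1 := min_le_left (ε / 2) t
    refine ⟨min (ε / 2) t / t, ⟨by positivity, (div_le_one ht).2 (min_le_right _ _)⟩, fun h => ?_⟩
    simp only [add_zero, mul_zero] at h
    rw [mul_div_cancel₀ _ ht.ne'] at h
    exact hm.ne' (hi ⟨by linarith, by linarith⟩ ⟨by linarith, hε⟩ h)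

omit [Nonempty M] in
theorem main [ConnectedSpace M] (g : Met M) : NullPairs (finPairs g)ᶜ ↔
    ∃ τ > 0, ∀ γ : ℝ → M, IsGeodesic g γ → UnitSpeed g γ → Function.Periodic γ τ := by
  have : SecondCountableTopology M := ChartedSpace.secondCountable_of_sigmaCompact E M
  have : SecondCountableTopology C(ℝ, M) := inferInstance
  have : SecondCountableTopology (UG g) := TopologicalSpace.Subtype.secondCountableTopology _
  constructor
  · intro h
    have h1 : ∀ᶠ p in (sys g).ae, (sys g).Good p :=
      (eventually_of_nullPairs h).mono fun p hp => hp.mono fun q hq => (mem_finPairs g p q).1 hq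
    obtain ⟨τ, hτ, hp⟩ := (atl g).common_period h1
    refine ⟨τ, hτ, fun γ hγ hu s => ?_⟩
    have := shift_apply τ (⟨⟨γ, hγ.1.continuous⟩, hγ, hu⟩ : UG g) s
    rw [show shift τ (⟨⟨γ, hγ.1.continuous⟩, hγ, hu⟩ : UG g) = _ from hp _] at this
    exact this.symm
  · rintro ⟨τ, hτ, hp⟩ x y
    refine measure_mono_null (image_mono (inter_subset_inter_left _ fun z hz => ?_))
      (nullPairs_not_isolated g x y)
    by_contra hn
    refine hz ((mem_finPairs g z.1 z.2).2 ((sys g).fin_of_discrete hτ (fun u => ?_)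
      fun u t h0 h1 => ?_))
    · exact (sys g).ev_inj (funext fun s => (shift_apply τ u s).trans (hp _ u.2.1 u.2.2 s))
    · by_contra hc
      exact hn ⟨u, t, h0, h1, hc⟩

end Pool.Agent.GeoFin
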