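import Mathlib
import Pool.Agent.P.MP_365c00_gt.DefsG
import Pool.Agent.P.MP_365c00_gt.Main

open scoped Manifold ContDiff

namespace Pool.Agent.P.MP_365c00_gt.VariantSurfaces

open Pool.Agent.GeoPairs

/-- On a closed connected smooth Riemannian surface, almost every pair of points is joined by only
finitely many geometrically distinct geodesics iff all unit speed geodesics have a common
period. -/
theorem result {M : Type} [TopologicalSpace M] [T2Space M] [CompactSpace M] [ConnectedSpace M]
    [ChartedSpace E M] [IsManifold 𝓘(ℝ, E) ∞ M] (g : Met E M) :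
    NullPairs E (finPairs g)ᶜ ↔
      ∃ τ : ℝ, 0 < τ ∧ ∀ γ : ℝ → M, IsGeodesic g γ → UnitSpeed g γ → Function.Periodic γ τ :=
  Pool.Agent.GeoFin.main (M := M) g

end Pool.Agent.P.MP_365c00_gt.VariantSurfaces
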