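import Mathlib

/-!
Calculus lemmas for the common period theorem: Cartan averaging, finite order maps of the form
identity plus rank one, complements of codimension two zero sets.
-/

open Set Filter Topology Metric Function

namespace Pool.Agent.Wads

variable {Y : Type} [NormedAddCommGroup Y] [NormedSpace ℝ Y] [FiniteDimensional ℝ Y]

/-- Cartan averaging -/
theorem cartan {f : Y → Y} {y0 : Y} (hf : HasStrictFDerivAt f (ContinuousLinearMap.id ℝ Y) y0)
    (h0 : f y0 = y0) {p : ℕ} (hp : 0 < p) : ∀ᶠ y in 𝓝 y0, f^[p] y = y → f y = y := by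
  have hc : CompleteSpace Y := FiniteDimensional.complete ℝ Y
  have hp' : (p : ℝ) ≠ 0 := by positivity
  have h1 : ∀ k : ℕ, HasStrictFDerivAt f^[k] (ContinuousLinearMap.id ℝ Y) y0 := fun k => by
    have := hf.iterate h0 k
    rwa [← ContinuousLinearMap.one_def, one_pow, ContinuousLinearMap.one_def] at this
  have h2 : HasStrictFDerivAt (fun y => (p : ℝ)⁻¹ • ∑ k ∈ Finset.range p, f^[k] y)
      ((ContinuousLinearEquiv.refl ℝ Y : Y ≃L[ℝ] Y) : Y →L[ℝ] Y) y0 := by
    have h3 := (HasStrictFDerivAt.fun_sum (u := Finset.range p) fun k _ => h1 k).const_smul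
      (p : ℝ)⁻¹
    refine h3.congr_fderiv ?_
    rw [Finset.sum_const, Finset.card_range, ← Nat.cast_smul_eq_nsmul ℝ, inv_smul_smul₀ hp']
    rfl
  have h4 := (h2.toOpenPartialHomeomorph _).open_source.mem_nhds
    h2.mem_toOpenPartialHomeomorph_source
  have h5 : Tendsto f (𝓝 y0) (𝓝 y0) := by
    have := hf.continuousAt.tendsto
    rwa [h0] at this
  filter_upwards [h4, h5.eventually h4] with y a b hy
  refine (h2.toOpenPartialHomeomorph _).injOn b a ?_
  simp only [HasStrictFDerivAt.toOpenPartialHomeomorph_coe]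
  congr 1
  have e := Finset.sum_range_succ' (fun k => f^[k] y) p
  rw [Finset.sum_range_succ, hy] at e
  simp only [iterate_succ_apply, iterate_zero_apply] at e
  exact (add_right_cancel e).symm

omit [FiniteDimensional ℝ Y] in
theorem fderiv_eq_id {f : Y → Y} {y0 : Y} (hf : ContDiffAt ℝ 1 f y0)
    (h : ∃ᶠ y in 𝓝 y0, ∀ᶠ z in 𝓝 y, f z = z) : fderiv ℝ f y0 = ContinuousLinearMap.id ℝ Y := by
  refine tendsto_nhds_unique_of_frequently_eq (hf.continuousAt_fderiv one_ne_zero)
    tendsto_const_nhds (h.mono fun y hy => ?_)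
  have : f =ᶠ[𝓝 y] id := hy
  rw [this.fderiv_eq, fderiv_id]

omit [FiniteDimensional ℝ Y] in
theorem sq_eq_one {A : Y →L[ℝ] Y} {p : ℕ} (hp : 0 < p) (hA : A ^ p = 1) {v : Y}
    (hv : ∀ w, ∃ c : ℝ, A w - w = c • v) : A ^ 2 = 1 := by
  obtain ⟨m, hm⟩ := hv v
  have h1 : A v = (1 + m) • v := by rw [add_smul, one_smul, ← hm]; abel
  have h2 : ∀ k : ℕ, (A ^ k) v = (1 + m) ^ k • v := fun k => by
    induction k with
    | zero => simp
    | succ k ih => rw [pow_succ', mul_apply_eq_comp, ih, map_smul, h1, smul_smul,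
        pow_succ]
  ext w
  obtain ⟨c, hc⟩ := hv w
  have h3 : A w = w + c • v := by rw [← hc]; abel
  by_cases h0 : v = 0
  · rw [h0, smul_zero, add_zero] at h3
    simp [sq, h3]
  have h4 : (1 + m) ^ p = 1 := by
    have := h2 p
    rw [hA, one_apply_eq_self] at this
    exact smul_left_injective ℝ h0 (by simpa using this.symm)
  rcases (pow_eq_one_iff_of_ne_zero hp.ne').1 h4 with h5 | ⟨h5, -⟩
  · have h6 : ∀ k : ℕ, (A ^ k) w = w + ((k : ℝ) * c) • v := fun k => by
      induction k with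
      | zero => simp
      | succ k ih =>
        rw [pow_succ', mul_apply_eq_comp, ih, map_add, map_smul, h1, h3, h5, one_smul]
        push_cast
        rw [add_mul, one_mul, add_smul]
        abel
    have h7 := h6 p
    rw [hA, one_apply_eq_self, left_eq_add, smul_eq_zero] at h7
    have h8 : c = 0 := by
      have : (p : ℝ) ≠ 0 := by positivity
      simpa [this, h0] using h7
    rw [h6 2, h8]
    simp
  · rw [sq, mul_apply_eq_comp, h3, map_add, map_smul, h1, h3, h5]
    simp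

theorem codim_two {F : Type} [NormedAddCommGroup F] [NormedSpace ℝ F] [FiniteDimensional ℝ F]
    (hF : 1 < Module.rank ℝ F) {f : Y → F} {f' : Y →L[ℝ] F} {y0 : Y}
    (hf : HasStrictFDerivAt f f' y0) (hf' : f'.range = ⊤) (h0 : f y0 = 0) {N : Set Y}
    (hN : N ∈ 𝓝 y0) : ∃ P ⊆ N, IsPreconnected P ∧ (∀ y ∈ P, f y ≠ 0) ∧ closure P ∈ 𝓝 y0 := by
  have hc : CompleteSpace Y := FiniteDimensional.complete ℝ Y
  have hnt : Nontrivial F := rank_pos_iff_nontrivial.1 (zero_lt_one.trans hF)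
  set Ψ := hf.implicitToOpenPartialHomeomorph f f' hf' with hΨ
  have hs : y0 ∈ Ψ.source := hf.mem_implicitToOpenPartialHomeomorph_source hf'
  have h1 : Ψ y0 = (0, 0) := by
    rw [hΨ, hf.implicitToOpenPartialHomeomorph_self hf', h0]
  have ht : (0, 0) ∈ Ψ.target := h1 ▸ Ψ.map_source hs
  have h2 : Ψ.symm (0, 0) = y0 := by rw [← h1, Ψ.left_inv hs]
  have h3 : Ψ.target ∩ Ψ.symm ⁻¹' N ∈ 𝓝 ((0, 0) : F × f'.ker) :=
    inter_mem (Ψ.open_target.mem_nhds ht) ((Ψ.continuousAt_symm ht).preimage_mem_nhds (h2 ▸ hN))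
  obtain ⟨r, hr, hb⟩ := Metric.mem_nhds_iff.1 h3
  rw [← ball_prod_same] at hb
  set e := OpenPartialHomeomorph.univBall (E := F) (0 : F) r with he
  have he1 : e.source = univ := OpenPartialHomeomorph.univBall_source _ _
  have he2 : e.target = ball 0 r := OpenPartialHomeomorph.univBall_target _ hr
  have he3 : Continuous e := OpenPartialHomeomorph.continuous_univBall _ _
  have he4 : e 0 = 0 := OpenPartialHomeomorph.univBall_apply_zero _ _
  have he5 : e '' {0}ᶜ ⊆ ball 0 r := by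
    rintro _ ⟨v, -, rfl⟩
    exact he2 ▸ e.map_source (he1 ▸ mem_univ v)
  have hQ : (e '' {0}ᶜ) ×ˢ ball (0 : f'.ker) r ⊆ Ψ.target ∩ Ψ.symm ⁻¹' N :=
    (prod_mono he5 Subset.rfl).trans hb
  refine ⟨Ψ.symm '' ((e '' {0}ᶜ) ×ˢ ball 0 r), ?_, ?_, ?_, ?_⟩
  · rintro _ ⟨q, hq, rfl⟩
    exact (hQ hq).2
  · refine IsPreconnected.image (IsPreconnected.prod ?_ (convex_ball _ _).isPreconnected) _
      (Ψ.continuousOn_symm.mono fun q hq => (hQ hq).1)
    exact (isConnected_compl_singleton_of_one_lt_rank hF 0).isPreconnected.image _ he3.continuousOn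
  · rintro _ ⟨q, hq, rfl⟩ h
    have h4 : (Ψ (Ψ.symm q)).1 = f (Ψ.symm q) := hf.implicitToOpenPartialHomeomorph_fst hf' _
    rw [Ψ.right_inv (hQ hq).1, h] at h4
    obtain ⟨v, hv, hv'⟩ := hq.1
    exact hv (e.injOn (he1 ▸ mem_univ _) (he1 ▸ mem_univ _) ((hv'.trans h4).trans he4.symm))
  · have h5 : Ψ.symm '' (ball 0 r ×ˢ ball 0 r) ∈ 𝓝 y0 := by
      rw [← h2]
      exact Ψ.symm.image_mem_nhds ht (prod_mem_nhds (ball_mem_nhds _ hr) (ball_mem_nhds _ hr))
    refine mem_of_superset h5 ?_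
    rintro _ ⟨q, hq, rfl⟩
    refine mem_closure_image (Ψ.continuousAt_symm (hb hq).1) ?_
    rw [closure_prod_eq]
    refine ⟨?_, subset_closure hq.2⟩
    have h6 : q.1 ∈ e '' closure {0}ᶜ := by
      rw [(dense_compl_singleton (0 : F)).closure_eq, ← he1, e.image_source_eq_target, he2]
      exact hq.1
    exact image_closure_subset_closure_image he3 h6

/-- at a fixed point whose linearisation has finite order, either the square is tangent to the
identity or the fixed point set does not separate -/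
theorem dichotomy {R : Y → Y} {A : Y →L[ℝ] Y} {y0 : Y} (hR : HasStrictFDerivAt R A y0)
    (h0 : R y0 = y0) {p : ℕ} (hp : 0 < p) (hA : A ^ p = 1) {N : Set Y} (hN : N ∈ 𝓝 y0) :
    A ^ 2 = 1 ∨ ∃ P ⊆ N, IsPreconnected P ∧ (∀ y ∈ P, R y ≠ y) ∧ closure P ∈ 𝓝 y0 := by
  set D : Y →L[ℝ] Y := A - ContinuousLinearMap.id ℝ Y with hD
  by_cases h : Module.rank ℝ D.range ≤ 1
  · obtain ⟨v, hv⟩ := rank_le_one_iff.1 h
    refine Or.inl (sq_eq_one hp hA (v := v) fun w => ?_)
    obtain ⟨c, hc⟩ := hv ⟨D w, w, rfl⟩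
    exact ⟨c, (congrArg Subtype.val hc).symm⟩
  · obtain ⟨π, hπ⟩ := Submodule.ClosedComplemented.of_finiteDimensional D.range
    have h1 : HasStrictFDerivAt (fun y => π (R y - y)) (π.comp D) y0 :=
      π.hasStrictFDerivAt.comp y0 (hR.sub (hasStrictFDerivAt_id y0))
    obtain ⟨P, a, b, c, d⟩ := codim_two (not_le.1 h) h1 (by
      refine eq_top_iff.2 fun v _ => ?_
      obtain ⟨w, hw⟩ := v.2
      exact ⟨w, (congrArg π hw).trans (hπ v)⟩) (by rw [h0, sub_self, map_zero]) hN
    exact Or.inr ⟨P, a, b, fun y hy e => c y hy (by rw [e, sub_self, map_zero]), d⟩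

end Pool.Agent.Wads
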