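import Mathlib
import Pool.Agent.P.MP_365c00_gt.WA

/-!
A flow all of whose orbits are closed and which preserves a one-form that is one on its
generator has a common period.
-/

open Set Filter Topology Metric Function

namespace Pool.Agent.Wads

/-- the flow read in a chart -/
noncomputable def loc {X Y : Type} [TopologicalSpace X] [TopologicalSpace Y] (φ : ℝ → X → X)
    (c : OpenPartialHomeomorph X Y) (z : Y × ℝ) : Y := c (φ z.2 (c.symm z.1))

/-- flows with closed orbits and an invariant one-form -/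
structure Fl (X Y : Type) [TopologicalSpace X] [NormedAddCommGroup Y] [NormedSpace ℝ Y] where
  φ : ℝ → X → X
  cont : Continuous fun z : ℝ × X => φ z.1 z.2
  zero : ∀ x, φ 0 x = x
  add : ∀ s t x, φ (s + t) x = φ s (φ t x)
  per : ∀ x, ∃ τ, 0 < τ ∧ φ τ x = x
  ch : X → OpenPartialHomeomorph X Y
  mem : ∀ x, x ∈ (ch x).source
  good : ∀ x, ∀ y ∈ (ch x).target, ∀ s, φ s ((ch x).symm y) = (ch x).symm y →
    ContDiffAt ℝ 1 (loc φ (ch x)) (y, s) ∧
      ∃ l : Y →L[ℝ] ℝ, ∀ w r, l (fderiv ℝ (loc φ (ch x)) (y, s) (w, r)) = l w + r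

namespace Fl

variable {X Y : Type} [TopologicalSpace X] [T2Space X] [NormedAddCommGroup Y] [NormedSpace ℝ Y]
  [FiniteDimensional ℝ Y] (S : Fl X Y)

/-- periods of a point -/
def sub (x : X) : AddSubgroup ℝ where
  carrier := {t | S.φ t x = x}
  zero_mem' := S.zero x
  add_mem' := fun {a b} ha hb => by
    have ha' : S.φ a x = x := ha
    have hb' : S.φ b x = x := hb
    exact (S.add a b x).trans (by rw [hb', ha'])
  neg_mem' := fun {a} ha => by
    have ha' : S.φ a x = x := ha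
    have := S.add (-a) a x
    rw [neg_add_cancel, S.zero, ha'] at this
    exact this.symm

omit [T2Space X] [FiniteDimensional ℝ Y] in
theorem zmul {x : X} {t : ℝ} (h : S.φ t x = x) (k : ℤ) : S.φ (k * t) x = x := by
  have := (S.sub x).zsmul_mem (x := t) h k
  rwa [zsmul_eq_mul] at this

omit [T2Space X] [FiniteDimensional ℝ Y] in
theorem cont1 (t : ℝ) : Continuous (S.φ t) := S.cont.comp (Continuous.prodMk_right t)

omit [FiniteDimensional ℝ Y] in
theorem fix_closed (t : ℝ) : IsClosed {x | S.φ t x = x} := isClosed_eq (S.cont1 t) continuous_id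

omit [FiniteDimensional ℝ Y] in
theorem cyc (x : X) : ∃ a : ℝ, 0 < a ∧ ∀ t, S.φ t x = x ↔ ∃ k : ℤ, t = k * a := by
  rcases (S.sub x).dense_or_cyclic with h | ⟨a, h⟩
  · exfalso
    have h1 : ∀ t, S.φ t x = x := fun t =>
      (isClosed_eq (S.cont.comp (Continuous.prodMk_left x)) continuous_const).closure_subset (h t)
    have h2 := (S.ch x).left_inv (S.mem x)
    obtain ⟨h3, l, hl⟩ := S.good x _ ((S.ch x).map_source (S.mem x)) 0 (S.zero _)
    have h4 := (h3.differentiableAt one_ne_zero).hasFDerivAt.comp_hasDerivAt (0 : ℝ)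
      ((hasDerivAt_const (0 : ℝ) (S.ch x x)).prodMk (hasDerivAt_id (0 : ℝ)))
    have h5 : (loc S.φ (S.ch x) ∘ Prod.mk (S.ch x x)) = fun _ => S.ch x x := by
      funext s
      simp only [comp_apply, loc, h2, h1]
    rw [h5] at h4
    have h6 := hl 0 1
    rw [h4.unique (hasDerivAt_const _ _)] at h6
    simp at h6
  · have h1 : ∀ t, S.φ t x = x ↔ ∃ k : ℤ, t = k * a := fun t => by
      have : t ∈ S.sub x ↔ ∃ k : ℤ, k • a = t := by rw [h, AddSubgroup.mem_closure_singleton]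
      simp only [zsmul_eq_mul] at this
      exact this.trans (exists_congr fun _ => eq_comm)
    obtain ⟨τ, h2, h3⟩ := S.per x
    obtain ⟨k, hk⟩ := (h1 τ).1 h3
    rcases lt_trichotomy a 0 with h4 | h4 | h4
    · refine ⟨-a, neg_pos.2 h4, fun t => (h1 t).trans ⟨?_, ?_⟩⟩ <;>
        exact fun ⟨k, hk⟩ => ⟨-k, by rw [hk]; push_cast; ring⟩
    · rw [h4, mul_zero] at hk
      exact absurd hk h2.ne'
    · exact ⟨a, h4, h1⟩

omit [FiniteDimensional ℝ Y] in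
theorem comm {x : X} {s t : ℝ} (hs : S.φ s x = x) (ht : S.φ t x = x) (h0 : 0 < t) :
    ∃ p : ℕ, 0 < p ∧ ∃ q : ℤ, p * s = q * t := by
  obtain ⟨a, ha, h⟩ := S.cyc x
  obtain ⟨k, rfl⟩ := (h s).1 hs
  obtain ⟨m, rfl⟩ := (h t).1 ht
  have hm : 0 < m := by exact_mod_cast (mul_pos_iff_of_pos_right ha).1 h0
  refine ⟨m.toNat, by omega, k, ?_⟩
  rw [← Int.cast_natCast, Int.toNat_of_nonneg hm.le]
  ring

omit [FiniteDimensional ℝ Y] in
theorem per_closed {K : Set ℝ} (hK : IsCompact K) : IsClosed {x | ∃ τ ∈ K, S.φ τ x = x} := by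
  rw [← isOpen_compl_iff, isOpen_iff_mem_nhds]
  intro x hx
  have : ∀ᶠ x' in 𝓝 x, ∀ τ ∈ K, S.φ τ x' ≠ x' := by
    refine hK.eventually_forall_of_forall_eventually fun τ hτ => ?_
    exact (isClosed_eq (S.cont.comp continuous_swap) continuous_fst).isOpen_compl.mem_nhds
      fun h => hx ⟨τ, hτ, h⟩
  exact this.mono fun x' h ⟨τ, a, b⟩ => h τ a b

omit [FiniteDimensional ℝ Y] in
theorem near (x0 : X) {a : ℝ} (ha : 0 < a) (b : ℝ) : ∃ τ0, 0 < τ0 ∧ S.φ τ0 x0 = x0 ∧ ∀ δ, 0 < δ →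
    ∀ᶠ x in 𝓝 x0, (∃ τ ∈ Icc a b, S.φ τ x = x) → ∃ τ, |τ - τ0| < δ ∧ S.φ τ x = x := by
  obtain ⟨a0, h0, h⟩ := S.cyc x0
  refine ⟨(⌈b / a0⌉₊.factorial : ℝ) * a0, by positivity, (h _).2 ⟨⌈b / a0⌉₊.factorial, by simp⟩,
    fun δ hδ => ?_⟩
  set τ0 := (⌈b / a0⌉₊.factorial : ℝ) * a0 with hτ0
  have hK : IsCompact (Icc a b ∩ ⋂ m : ℤ, {τ : ℝ | δ ≤ |m * τ - τ0|}) :=
    isCompact_Icc.inter_right (isClosed_iInter fun m => isClosed_le continuous_const (by fun_prop))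
  have h1 : x0 ∈ {x | ∃ τ ∈ Icc a b ∩ ⋂ m : ℤ, {τ : ℝ | δ ≤ |m * τ - τ0|}, S.φ τ x = x}ᶜ := by
    rintro ⟨τ, ⟨h1, h2⟩, h3⟩
    obtain ⟨k, rfl⟩ := (h τ).1 h3
    have hk : 0 < k := by exact_mod_cast (mul_pos_iff_of_pos_right h0).1 (ha.trans_le h1.1)
    obtain ⟨j, rfl⟩ := Int.eq_ofNat_of_zero_le hk.le
    have hj : j ≤ ⌈b / a0⌉₊ := by
      have h4 : (j : ℝ) ≤ b / a0 := by
        rw [le_div_iff₀ h0]
        simpa using h1.2
      exact_mod_cast h4.trans (Nat.le_ceil _)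
    obtain ⟨m, hm⟩ := Nat.dvd_factorial (by exact_mod_cast hk) hj
    have h5 : δ ≤ |((m : ℤ) : ℝ) * (((j : ℤ) : ℝ) * a0) - τ0| := mem_iInter.1 h2 (m : ℤ)
    rw [hτ0, hm] at h5
    push_cast at h5
    rw [show (m : ℝ) * (j * a0) - j * m * a0 = 0 by ring, abs_zero] at h5
    exact absurd h5 (not_le.2 hδ)
  filter_upwards [(S.per_closed hK).isOpen_compl.mem_nhds h1] with x hx ⟨τ, h2, h3⟩
  by_contra hn
  refine hx ⟨τ, ⟨h2, mem_iInter.2 fun m => ?_⟩, h3⟩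
  exact not_lt.1 fun h4 => hn ⟨_, h4, S.zmul h3 m⟩

omit [T2Space X] [FiniteDimensional ℝ Y] in
theorem fv (x : X) {y : Y} (hy : y ∈ (S.ch x).target) {ρ : Y → ℝ}
    (h : ∀ᶠ z in 𝓝 y, DifferentiableAt ℝ ρ z ∧ S.φ (ρ z) ((S.ch x).symm z) = (S.ch x).symm z) :
    ∀ᶠ x' in 𝓝 ((S.ch x).symm y), S.φ (ρ y) x' = x' := by
  have h1 : ∀ᶠ z in 𝓝 y, z ∈ (S.ch x).target := (S.ch x).open_target.mem_nhds hy
  have h2 : ∀ᶠ z in 𝓝 y, DifferentiableAt ℝ ρ z ∧ fderiv ℝ ρ z = 0 := by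
    filter_upwards [(h.and h1).eventually_nhds] with z hz
    obtain ⟨⟨a, b⟩, c⟩ := hz.self_of_nhds
    obtain ⟨d, l, hl⟩ := S.good x z c _ b
    refine ⟨a, ContinuousLinearMap.ext fun w => ?_⟩
    have e := HasFDerivAt.comp z (f := fun z => (z, ρ z))
      (d.differentiableAt one_ne_zero).hasFDerivAt ((hasFDerivAt_id z).prodMk a.hasFDerivAt)
    have e2 : (id : Y → Y) =ᶠ[𝓝 z] loc S.φ (S.ch x) ∘ fun z => (z, ρ z) := by
      filter_upwards [hz] with u hu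
      simp only [comp_apply, loc, hu.1.2, (S.ch x).right_inv hu.2, id]
    have e3 := congrArg (fun L : Y →L[ℝ] Y => l (L w))
      ((e.congr_of_eventuallyEq e2).unique (hasFDerivAt_id z))
    have e4 := hl w (fderiv ℝ ρ z w)
    simp only [ContinuousLinearMap.comp_apply, ContinuousLinearMap.prod_apply,
      ContinuousLinearMap.id_apply] at e3
    rw [e3] at e4
    simpa using e4
  obtain ⟨r, hr, hb⟩ := Metric.eventually_nhds_iff_ball.1 h2
  have h3 : ∀ᶠ z in 𝓝 y, S.φ (ρ y) ((S.ch x).symm z) = (S.ch x).symm z := by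
    filter_upwards [h, ball_mem_nhds y hr] with z a b
    rw [← isOpen_ball.is_const_of_fderiv_eq_zero (𝕜 := ℝ) (convex_ball y r).isPreconnected
      (fun u hu => (hb u hu).1.differentiableWithinAt) (fun u hu => (hb u hu).2) b
      (mem_ball_self hr)]
    exact a.2
  have h4 := (S.ch x).map_target hy
  have h5 : Tendsto (S.ch x) (𝓝 ((S.ch x).symm y)) (𝓝 y) := by
    have := ((S.ch x).continuousAt h4).tendsto
    rwa [(S.ch x).right_inv hy] at this
  filter_upwards [h5.eventually h3, (S.ch x).open_source.mem_nhds h4] with x' a b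
  rwa [(S.ch x).left_inv b] at a

omit [T2Space X] in
/-- the return time -/
theorem ret (x : X) {y0 : Y} (hy : y0 ∈ (S.ch x).target) {τ0 : ℝ} (h0 : 0 < τ0)
    (h : S.φ τ0 ((S.ch x).symm y0) = (S.ch x).symm y0) : ∃ (σ : Y → ℝ) (l : Y →L[ℝ] ℝ) (δ : ℝ),
      0 < δ ∧ δ < τ0 ∧ ∀ᶠ y in 𝓝 y0, y ∈ (S.ch x).target ∧ ContDiffAt ℝ 1 σ y ∧
        |σ y - τ0| < δ ∧ l (loc S.φ (S.ch x) (y, σ y)) = l y ∧
        ∀ s, |s - τ0| < δ → l (loc S.φ (S.ch x) (y, s)) = l y → σ y = s := by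
  have hc : CompleteSpace Y := FiniteDimensional.complete ℝ Y
  obtain ⟨d, l, hl⟩ := S.good x y0 hy _ h
  have h1 : ContDiffAt ℝ 1 (fun z : Y × ℝ => l (loc S.φ (S.ch x) z) - l z.1) (y0, τ0) :=
    (l.contDiff.contDiffAt.comp _ d).sub (l.contDiff.contDiffAt.comp _ contDiffAt_fst)
  have h2 : HasFDerivAt (fun z : Y × ℝ => l (loc S.φ (S.ch x) z) - l z.1) _ (y0, τ0) :=
    (l.hasFDerivAt.comp _ (d.differentiableAt one_ne_zero).hasFDerivAt).sub
      (l.hasFDerivAt.comp _ hasFDerivAt_fst)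
  have hinv : (fderiv ℝ (fun z : Y × ℝ => l (loc S.φ (S.ch x) z) - l z.1) (y0, τ0) ∘L
      ContinuousLinearMap.inr ℝ Y ℝ).IsInvertible := by
    refine ⟨ContinuousLinearEquiv.refl ℝ ℝ, ?_⟩
    rw [h2.fderiv]
    ext
    simp [hl]
  have h3 : l (loc S.φ (S.ch x) (y0, τ0)) - l y0 = 0 := by
    simp only [loc, h, (S.ch x).right_inv hy, sub_self]
  have h4 := h1.eventually_apply_eq_iff_implicitFunction one_ne_zero hinv
  have h5 := h1.contDiffAt_implicitFunction one_ne_zero hinv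
  have h6 := h1.implicitFunction_apply_self one_ne_zero hinv
  have h7 := h1.eventually_apply_implicitFunction one_ne_zero hinv
  generalize h1.implicitFunction one_ne_zero hinv = σ at h4 h5 h6 h7
  simp only [h3, sub_eq_zero] at h4 h5 h6 h7
  rw [nhds_prod_eq] at h4
  obtain ⟨U, hU, V, hV, hUV⟩ := mem_prod_iff.1 h4
  obtain ⟨δ, hδ, hb⟩ := Metric.mem_nhds_iff.1 (inter_mem hV (Ioi_mem_nhds h0))
  have h8 : δ / 2 < τ0 := by
    have : (0 : ℝ) < τ0 - δ / 2 := (hb (a := τ0 - δ / 2) (by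
      rw [mem_ball, Real.dist_eq, abs_lt]; constructor <;> linarith)).2
    linarith
  refine ⟨σ, l, δ / 2, by positivity, h8, ?_⟩
  have h9 : ∀ᶠ y in 𝓝 y0, σ y ∈ ball τ0 (δ / 2) :=
    h5.continuousAt.eventually_mem (h6 ▸ ball_mem_nhds _ (by positivity))
  filter_upwards [(S.ch x).open_target.mem_nhds hy, h5.eventually (by simp), h9, h7, hU]
    with y a b c d e
  refine ⟨a, b, c, d, fun s hs hl => ?_⟩
  exact (hUV (a := (y, s)) ⟨e, (hb (show dist s τ0 < δ by rw [Real.dist_eq]; linarith)).1⟩).1 hl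

omit [T2Space X] [FiniteDimensional ℝ Y] in
theorem iter (x : X) {y : Y} (hy : y ∈ (S.ch x).target) {σ : Y → ℝ} (hσ : ContinuousAt σ y)
    (h : S.φ (σ y) ((S.ch x).symm y) = (S.ch x).symm y) {R : Y → Y}
    (hR : R = fun z => loc S.φ (S.ch x) (z, σ z)) (k : ℕ) :
    Tendsto R^[k] (𝓝 y) (𝓝 y) ∧ ∀ᶠ z in 𝓝 y, (S.ch x).symm (R^[k] z) =
      S.φ (∑ j ∈ Finset.range k, σ (R^[j] z)) ((S.ch x).symm z) := by
  have h1 : Tendsto (fun z => S.φ (σ z) ((S.ch x).symm z)) (𝓝 y) (𝓝 ((S.ch x).symm y)) := by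
    have : ContinuousAt (fun z => S.φ (σ z) ((S.ch x).symm z)) y :=
      S.cont.continuousAt.comp (f := fun z => (σ z, (S.ch x).symm z))
        (hσ.prodMk ((S.ch x).continuousAt_symm hy))
    have h2 := this.tendsto
    rwa [h] at h2
  have h4 := (S.ch x).map_target hy
  have h5 : Tendsto R (𝓝 y) (𝓝 y) := by
    have := ((S.ch x).continuousAt h4).tendsto
    rw [(S.ch x).right_inv hy] at this
    rw [hR]
    exact this.comp h1
  have h6 : ∀ᶠ z in 𝓝 y, (S.ch x).symm (R z) = S.φ (σ z) ((S.ch x).symm z) := by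
    filter_upwards [h1.eventually ((S.ch x).open_source.mem_nhds h4)] with z hz
    rw [hR]
    exact (S.ch x).left_inv hz
  refine ⟨h5.iterate k, ?_⟩
  induction k with
  | zero => simp [S.zero]
  | succ k ih =>
    filter_upwards [ih, (h5.iterate k).eventually h6] with z a b
    rw [iterate_succ_apply', b, a, ← S.add, Finset.sum_range_succ, add_comm]

/-- points near which `τ` is a period -/
def O (τ : ℝ) : Set X := {x | ∀ᶠ x' in 𝓝 x, S.φ τ x' = x'}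

/-- points with a local common period -/
def Gd : Set X := {x | ∃ τ, 0 < τ ∧ x ∈ S.O τ}

omit [T2Space X] [FiniteDimensional ℝ Y] in
theorem O_open (τ : ℝ) : IsOpen (S.O τ) := isOpen_setOfPred_eventually_nhds

omit [T2Space X] [FiniteDimensional ℝ Y] in
theorem Gd_open : IsOpen S.Gd :=
  isOpen_iff_mem_nhds.2 fun _ ⟨τ, a, b⟩ =>
    mem_of_superset ((S.O_open τ).mem_nhds b) fun _ h => ⟨τ, a, h⟩

theorem ret2 (x0 : X) {a : ℝ} (ha : 0 < a) (b : ℝ) : ∃ (σ : Y → ℝ) (l : Y →L[ℝ] ℝ) (δ τ0 : ℝ),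
    0 < δ ∧ δ < τ0 ∧ ∀ᶠ y in 𝓝 (S.ch x0 x0), (y ∈ (S.ch x0).target ∧ ContDiffAt ℝ 1 σ y ∧
      |σ y - τ0| < δ ∧ l (loc S.φ (S.ch x0) (y, σ y)) = l y ∧
      ∀ s, |s - τ0| < δ → l (loc S.φ (S.ch x0) (y, s)) = l y → σ y = s) ∧
      ((∃ τ ∈ Icc a b, S.φ τ ((S.ch x0).symm y) = (S.ch x0).symm y) →
        S.φ (σ y) ((S.ch x0).symm y) = (S.ch x0).symm y) := by
  obtain ⟨τ0, h0, h1, h2⟩ := S.near x0 ha b
  have hy := (S.ch x0).map_source (S.mem x0)
  have h3 := (S.ch x0).left_inv (S.mem x0)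
  obtain ⟨σ, l, δ, h4, h5, h6⟩ := S.ret x0 hy h0 (by rw [h3, h1])
  refine ⟨σ, l, δ, τ0, h4, h5, ?_⟩
  filter_upwards [h6, ((S.ch x0).tendsto_symm (S.mem x0)).eventually (h2 δ h4)] with y c d
  refine ⟨c, fun e => ?_⟩
  obtain ⟨τ, e1, e2⟩ := d e
  rwa [c.2.2.2.2 τ e1 (by simp only [loc, e2, (S.ch x0).right_inv c.1])]

theorem mem_Gd {x0 : X} {a b : ℝ} (ha : 0 < a) (h : ∀ᶠ x in 𝓝 x0, ∃ τ ∈ Icc a b, S.φ τ x = x) :
    x0 ∈ S.Gd := by
  obtain ⟨σ, l, δ, τ0, h1, h2, h3⟩ := S.ret2 x0 ha b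
  have h4 := S.fv x0 ((S.ch x0).map_source (S.mem x0)) (ρ := σ) (by
    filter_upwards [h3, ((S.ch x0).tendsto_symm (S.mem x0)).eventually h] with y c d
    exact ⟨c.1.2.1.differentiableAt one_ne_zero, c.2 d⟩)
  rw [(S.ch x0).left_inv (S.mem x0)] at h4
  exact ⟨_, by linarith [(abs_lt.1 h3.self_of_nhds.1.2.2.1).1], h4⟩

theorem O_closed {x : X} {τ : ℝ} (hx : x ∈ S.Gd) (h : x ∈ closure (S.O τ)) : x ∈ S.O τ := by
  obtain ⟨τ', h0, h1⟩ := hx
  have h2 : S.φ τ x = x :=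
    (S.fix_closed τ).closure_subset (closure_mono (fun z hz => hz.self_of_nhds) h)
  obtain ⟨p, hp, q, hq⟩ := S.comm h2 h1.self_of_nhds h0
  have hy := (S.ch x).map_source (S.mem x)
  have h3 := (S.ch x).left_inv (S.mem x)
  have h4 : S.φ τ ((S.ch x).symm (S.ch x x)) = (S.ch x).symm (S.ch x x) := by rw [h3, h2]
  obtain ⟨R, hR⟩ : ∃ R : Y → Y, R = fun z => loc S.φ (S.ch x) (z, τ) := ⟨_, rfl⟩
  have h5 : ContDiffAt ℝ 1 R (S.ch x x) := by
    rw [hR]
    exact ContDiffAt.comp (f := fun z => (z, τ)) _ (S.good x _ hy _ h4).1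
      (contDiffAt_id.prodMk contDiffAt_const)
  have h6 : R (S.ch x x) = S.ch x x := by simp only [hR, loc, h3, h2]
  have h7 : ∃ᶠ y in 𝓝 (S.ch x x), ∀ᶠ z in 𝓝 y, R z = z := by
    refine ((S.ch x).continuousAt (S.mem x)).tendsto.frequently
      (((mem_closure_iff_frequently.1 h).and_eventually
        ((S.ch x).open_source.mem_nhds (S.mem x))).mono fun x' ⟨a, b⟩ => ?_)
    filter_upwards [((S.ch x).tendsto_symm b).eventually a,
      (S.ch x).open_target.mem_nhds ((S.ch x).map_source b)] with z c d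
    simp only [hR, loc, c, (S.ch x).right_inv d]
  have h8 := h5.hasStrictFDerivAt one_ne_zero
  rw [fderiv_eq_id h5 h7] at h8
  have i1 := S.iter x hy (σ := fun _ => τ) continuousAt_const h4 hR
  have h9 := S.fv x hy (ρ := fun _ => τ) (by
    filter_upwards [cartan h8 h6 hp, (i1 p).2, (i1 1).2,
      (i1 p).1.eventually ((S.ch x).open_target.mem_nhds hy), (S.ch x).open_target.mem_nhds hy,
      ((S.ch x).tendsto_symm (S.mem x)).eventually h1] with z a b c d e f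
    refine ⟨differentiableAt_const _, ?_⟩
    rw [Finset.sum_const, Finset.card_range, nsmul_eq_mul, hq, S.zmul f] at b
    rw [Finset.sum_range_one, iterate_one, a ((S.ch x).symm.injOn d e b)] at c
    exact c.symm)
  rwa [h3] at h9

theorem spread {U : Set X} (hU : IsPreconnected U) (h : U ⊆ S.Gd) {x : X} {τ : ℝ} (hx : x ∈ U)
    (hτ : x ∈ S.O τ) : U ⊆ S.O τ :=
  hU.subset_of_closure_inter_subset (S.O_open τ) ⟨x, hx, hτ⟩ fun _ hz => S.O_closed (h hz.2) hz.1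

omit [T2Space X] [FiniteDimensional ℝ Y] in
theorem cover (x : X) : ∃ n : ℕ, ∃ τ ∈ Icc (1 : ℝ) n, S.φ τ x = x := by
  obtain ⟨τ, h0, h⟩ := S.per x
  refine ⟨⌈(⌈1 / τ⌉ : ℝ) * τ⌉₊, _, ⟨?_, Nat.le_ceil _⟩, S.zmul h _⟩
  rw [← div_le_iff₀ h0]
  exact Int.le_ceil _

variable [LocallyCompactSpace X]

theorem Gd_dense : Dense S.Gd := by
  refine (dense_iUnion_interior_of_closed (f := fun n : ℕ => {x | ∃ τ ∈ Icc (1 : ℝ) n, S.φ τ x = x})
    (fun n => S.per_closed isCompact_Icc) (eq_univ_of_forall fun x => mem_iUnion.2 (S.cover x))).mono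
    (iUnion_subset fun n x hx => S.mem_Gd one_pos (mem_interior_iff_mem_nhds.1 hx))

omit [LocallyCompactSpace X] in
theorem step (x : X) {W : Set Y} (hW : IsOpen W) (hWc : IsPreconnected W) {σ : Y → ℝ}
    {l : Y →L[ℝ] ℝ} {δ τ0 : ℝ}
    (h : ∀ y ∈ W, y ∈ (S.ch x).target ∧ ContDiffAt ℝ 1 σ y ∧
      |σ y - τ0| < δ ∧ l (loc S.φ (S.ch x) (y, σ y)) = l y ∧
      ∀ s, |s - τ0| < δ → l (loc S.φ (S.ch x) (y, s)) = l y → σ y = s)
    (hB : ∀ y ∈ W, (S.ch x).symm y ∉ S.Gd → S.φ (σ y) ((S.ch x).symm y) = (S.ch x).symm y)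
    {y0 : Y} (hy0 : y0 ∈ W) (hb : (S.ch x).symm y0 ∉ S.Gd) {y : Y} (hy : y ∈ W)
    (hg : (S.ch x).symm y ∈ S.Gd) :
    ∃ τ ∈ Icc (2 * (τ0 - δ)) (2 * (τ0 + δ)), S.φ τ ((S.ch x).symm y) = (S.ch x).symm y := by
  have hc : ContinuousOn (S.ch x).symm W := (S.ch x).continuousOn_symm.mono fun z hz => (h z hz).1
  have hT : IsOpen (W ∩ (S.ch x).symm ⁻¹' S.Gd) := hc.isOpen_inter_preimage hW S.Gd_open
  obtain ⟨U, hU⟩ : ∃ U, U = connectedComponentIn (W ∩ (S.ch x).symm ⁻¹' S.Gd) y := ⟨_, rfl⟩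
  have u1 : IsOpen U := hU ▸ hT.connectedComponentIn
  have u2 : IsPreconnected U := hU ▸ isPreconnected_connectedComponentIn
  have u3 : U ⊆ W ∩ (S.ch x).symm ⁻¹' S.Gd := hU ▸ connectedComponentIn_subset _ _
  have u4 : y ∈ U := hU ▸ mem_connectedComponentIn ⟨hy, hg⟩
  have sp : ∀ P ⊆ W ∩ (S.ch x).symm ⁻¹' S.Gd, IsPreconnected P → ∀ z ∈ P, ∀ τ,
      (S.ch x).symm z ∈ S.O τ → ∀ z' ∈ closure P ∩ W,
        S.φ τ ((S.ch x).symm z') = (S.ch x).symm z' := by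
    intro P p1 p2 z hz τ hτ z' hz'
    have p3 := S.spread (p2.image _ (hc.mono fun u hu => (p1 hu).1))
      (image_subset_iff.2 fun u hu => (p1 hu).2) (mem_image_of_mem _ hz) hτ
    exact (S.fix_closed τ).closure_subset (closure_mono (fun u hu => (p3 hu).self_of_nhds)
      (mem_closure_image (hc.continuousAt (hW.mem_nhds hz'.2)) hz'.1))
  obtain ⟨y1, ⟨b1, b2⟩, b3⟩ := not_subset.1 fun hh : closure U ∩ W ⊆ U =>
    hb (u3 (hWc.subset_of_closure_inter_subset u1 ⟨y, hy, u4⟩ hh hy0)).2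
  have b4 : (S.ch x).symm y1 ∉ S.Gd := fun hh => b3 (by
    have k1 : y1 ∈ W ∩ (S.ch x).symm ⁻¹' S.Gd := ⟨b2, hh⟩
    have k2 := (u2.subset_closure (subset_insert y1 U) (insert_subset b1 subset_closure)
      ).subset_connectedComponentIn (mem_insert_of_mem _ u4) (insert_subset k1 u3)
      (mem_insert _ _)
    rwa [← hU] at k2)
  obtain ⟨τ', t1, t2⟩ := hg
  have t3 := sp U u3 u2 y u4 τ' t2
  have b5 := hB y1 b2 b4
  obtain ⟨p, hp, q, hq⟩ := S.comm b5 (t3 y1 ⟨b1, b2⟩) t1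
  obtain ⟨R, hR⟩ : ∃ R : Y → Y, R = fun z => loc S.φ (S.ch x) (z, σ z) := ⟨_, rfl⟩
  have ht := (h y1 b2).1
  have r1 : ContDiffAt ℝ 1 R y1 := by
    rw [hR]
    exact ContDiffAt.comp (f := fun z => (z, σ z)) _ (S.good x _ ht _ b5).1
      (contDiffAt_id.prodMk (h y1 b2).2.1)
  have r2 : R y1 = y1 := by simp only [hR, loc, b5, (S.ch x).right_inv ht]
  have i1 := S.iter x ht (h y1 b2).2.1.continuousAt b5 hR
  have r3 : ∀ k : ℕ, ∀ᶠ z in 𝓝 y1, R^[k] z ∈ W := fun k => (i1 k).1.eventually (hW.mem_nhds b2)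
  have r4 : ∀ k : ℕ, ∀ᶠ z in 𝓝 y1, l (R^[k] z) = l z := fun k => by
    induction k with
    | zero => simp
    | succ k ih =>
      filter_upwards [ih, r3 k] with z a b
      rw [iterate_succ_apply', ← a]
      have := (h _ b).2.2.2.1
      rwa [← congrFun hR] at this
  have r5 : ∀ᶠ z in 𝓝 y1, z ∈ U → R^[p] z = z := by
    obtain ⟨k, rfl⟩ := Nat.exists_eq_succ_of_ne_zero hp.ne'
    have c1 : Tendsto (fun z => q * τ' - ∑ j ∈ Finset.range k, σ (R^[j] z) - τ0) (𝓝 y1)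
        (𝓝 (q * τ' - ∑ _j ∈ Finset.range k, σ y1 - τ0)) :=
      (tendsto_const_nhds.sub (tendsto_finsetSum _ fun j _ =>
        (h y1 b2).2.1.continuousAt.tendsto.comp (i1 j).1)).sub tendsto_const_nhds
    have c2 : q * τ' - ∑ _j ∈ Finset.range k, σ y1 = σ y1 := by
      rw [Finset.sum_const, Finset.card_range, nsmul_eq_mul, ← hq]
      push_cast
      ring
    rw [c2] at c1
    filter_upwards [c1.abs.eventually_lt_const (h y1 b2).2.2.1, (i1 k).2, r3 k, r4 k]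
      with z a b c d e
    have c3 : loc S.φ (S.ch x) (R^[k] z, q * τ' - ∑ j ∈ Finset.range k, σ (R^[j] z)) = z := by
      simp only [loc]
      rw [b, ← S.add, sub_add_cancel, S.zmul (t3 z ⟨subset_closure e, (u3 e).1⟩),
        (S.ch x).right_inv (h z (u3 e).1).1]
    rw [iterate_succ_apply', congrFun hR, (h _ c).2.2.2.2 _ a (by rw [c3, d]), c3]
  have r6 : ∀ k : ℕ, ContDiffAt ℝ 1 R^[k] y1 := fun k => by
    induction k with
    | zero => exact contDiffAt_id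
    | succ k ih => exact ContDiffAt.comp y1 (r2.symm ▸ ih) r1
  have r7 := r1.hasStrictFDerivAt one_ne_zero
  have fr := mem_closure_iff_frequently.1 b1
  have r8 : fderiv ℝ R y1 ^ p = 1 := by
    rw [← (r7.iterate r2 p).hasFDerivAt.fderiv]
    refine fderiv_eq_id (r6 p) ((fr.and_eventually r5.eventually_nhds).mono fun z a => ?_)
    filter_upwards [a.2, u1.mem_nhds a.1] with u c d using c d
  rcases dichotomy r7 r2 hp r8 (hW.mem_nhds b2) with h2 | ⟨P, p1, p2, p3, p4⟩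
  · have h3 := r7.iterate r2 2
    rw [h2] at h3
    have h4 : ∀ᶠ z in 𝓝 y1, z ∈ U → DifferentiableAt ℝ (fun z => σ z + σ (R z)) z ∧
        S.φ (σ z + σ (R z)) ((S.ch x).symm z) = (S.ch x).symm z := by
      filter_upwards [cartan h3 (iterate_fixed r2 2) hp, r5, (i1 2).2, r3 1,
        r1.eventually (by simp)] with z a b c d e f
      refine ⟨((h z (u3 f).1).2.1.differentiableAt one_ne_zero).add
        (((h _ d).2.1.differentiableAt one_ne_zero).comp z (e.differentiableAt one_ne_zero)), ?_⟩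
      rw [a (by rw [← iterate_mul, mul_comm, iterate_mul]; exact iterate_fixed (b f) 2)] at c
      simpa [Finset.sum_range_succ] using c.symm
    obtain ⟨z, a, b, c⟩ := (fr.and_eventually (h4.eventually_nhds.and (r3 1))).exists
    have h5 := S.fv x (h z (u3 a).1).1 (ρ := fun z => σ z + σ (R z)) (by
      filter_upwards [b, u1.mem_nhds a] with u c d using c d)
    have h6 := abs_lt.1 (h z (u3 a).1).2.2.1
    have h7 : _ < σ (R z) - τ0 ∧ σ (R z) - τ0 < _ := abs_lt.1 (h _ c).2.2.1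
    exact ⟨_, ⟨by linarith [h6.1, h7.1], by linarith [h6.2, h7.2]⟩,
      sp U u3 u2 z a _ h5 y ⟨subset_closure u4, hy⟩⟩
  · exfalso
    have p5 : P ⊆ W ∩ (S.ch x).symm ⁻¹' S.Gd := fun z hz => ⟨p1 hz, by
      by_contra hn
      refine p3 z hz ?_
      simp only [hR, loc, hB z (p1 hz) hn, (S.ch x).right_inv (h z (p1 hz)).1]⟩
    obtain ⟨z, hz⟩ := closure_nonempty_iff.1 (nonempty_of_mem p4)
    obtain ⟨τ, t4, t5⟩ := (p5 hz).2
    refine b4 ⟨τ, t4, S.fv x ht (ρ := fun _ => τ) ?_⟩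
    filter_upwards [p4, hW.mem_nhds b2] with u a b
    exact ⟨differentiableAt_const _, sp P p5 p2 z hz τ t5 u ⟨a, b⟩⟩

theorem all (x : X) : x ∈ S.Gd := by
  by_contra hx
  have hB : IsClosed S.Gdᶜ := S.Gd_open.isClosed_compl
  have := hB.locallyCompactSpace
  have : Nonempty (S.Gdᶜ : Set X) := ⟨⟨x, hx⟩⟩
  obtain ⟨n, x0, h0⟩ := nonempty_interior_of_iUnion_of_closed
    (f := fun n : ℕ => (Subtype.val : (S.Gdᶜ : Set X) → X) ⁻¹' {x | ∃ τ ∈ Icc (1 : ℝ) n, S.φ τ x = x})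
    (fun n => (S.per_closed isCompact_Icc).preimage continuous_subtype_val)
    (eq_univ_of_forall fun x => mem_iUnion.2 (S.cover x))
  obtain ⟨V, hV, hV'⟩ := (mem_nhds_subtype _ _ _).1 (mem_interior_iff_mem_nhds.1 h0)
  obtain ⟨x0, hx0⟩ := x0
  obtain ⟨σ, l, δ, τ0, h1, h2, h3⟩ := S.ret2 x0 one_pos n
  obtain ⟨r, hr, hb⟩ := Metric.eventually_nhds_iff_ball.1
    (h3.and (((S.ch x0).tendsto_symm (S.mem x0)).eventually hV))
  have h4 := fun y => S.step x0 isOpen_ball (convex_ball _ r).isPreconnected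
    (fun y hy => (hb y hy).1.1) (fun y hy hn => (hb y hy).1.2 (hV' (a := ⟨_, hn⟩) (hb y hy).2))
    (mem_ball_self hr) (by rwa [(S.ch x0).left_inv (S.mem x0)]) (y := y)
  refine hx0 (S.mem_Gd (a := 2 * (τ0 - δ)) (b := 2 * (τ0 + δ)) (by linarith) ?_)
  have h5 : IsOpen ((S.ch x0).source ∩ S.ch x0 ⁻¹' ball (S.ch x0 x0) r) :=
    (S.ch x0).isOpen_inter_preimage isOpen_ball
  filter_upwards [h5.mem_nhds ⟨S.mem x0, mem_ball_self hr⟩] with z hz
  refine (S.per_closed isCompact_Icc).closure_subset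
    (closure_mono ?_ (S.Gd_dense.open_subset_closure_inter h5 hz))
  rintro u ⟨⟨a, b⟩, c⟩
  have := h4 _ b (by rwa [(S.ch x0).left_inv a])
  rwa [(S.ch x0).left_inv a] at this

theorem common [PreconnectedSpace X] : ∃ τ, 0 < τ ∧ ∀ x, S.φ τ x = x := by
  rcases isEmpty_or_nonempty X with h | ⟨⟨x⟩⟩
  · exact ⟨1, one_pos, fun x => h.elim x⟩
  obtain ⟨τ, a, b⟩ := S.all x
  exact ⟨τ, a, fun z => (S.spread isPreconnected_univ (fun u _ => S.all u) (mem_univ x) b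
    (mem_univ z)).self_of_nhds⟩

end Fl

end Pool.Agent.Wads
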