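import Mathlib
import Pool.Agent.K.MP_365c00_gt.C0
import Pool.Agent.P.MP_365c00_gt.WB

/-!
If every unit speed geodesic is closed then they have a common period.
-/

set_option linter.unusedSectionVars false

open Set Filter Topology Metric Function
open scoped Manifold ContDiff

namespace Pool.Agent.GeoN

variable {E : Type} [NormedAddCommGroup E] [InnerProductSpace ℝ E] [FiniteDimensional ℝ E]
  {M : Type} [TopologicalSpace M] [ChartedSpace E M] [IsManifold 𝓘(ℝ, E) ∞ M]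
  [T2Space M] [CompactSpace M]

theorem wc_vel {γ : ℝ → M} (h : MDifferentiableAt 𝓘(ℝ, ℝ) 𝓘(ℝ, E) γ 0) :
    (mfderiv 𝓘(ℝ, ℝ) 𝓘(ℝ, E) γ 0 (1 : ℝ) : E) = vel E (γ 0) γ 0 := by
  rw [h.mfderiv]
  simp only [writtenInExtChartAt, extChartAt_model_space_eq_id, PartialEquiv.refl_symm,
    PartialEquiv.refl_coe, comp_id, modelWithCornersSelf_coe, range_id, id, fderivWithin_univ]
  rfl

theorem wc_ivp (g : Met E M) (p : M) (v : E) : ∃! γ : ℝ → M, IsGeodesic g γ ∧ γ 0 = p ∧
    (mfderiv 𝓘(ℝ, ℝ) 𝓘(ℝ, E) γ 0 (1 : ℝ) : E) = v := by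
  obtain ⟨h1, h2, h3⟩ := geo_spec g p (y := (κ E p p, v)) (mem_extChartAt_target p)
  have h4 : geo g p (κ E p p, v) 0 = p := h2.trans (extChartAt_to_inv p)
  refine ⟨geo g p (κ E p p, v), ⟨h1, h4, ?_⟩, fun γ ⟨a, b, c⟩ => ?_⟩
  · rw [wc_vel (h1.1.mdifferentiableAt (by simp)), h4, h3]
  · rw [wc_vel (a.1.mdifferentiableAt (by simp)), b] at c
    exact geo_unique a h1 (t0 := 0) (x := p) (b ▸ mem_extChartAt_source _) (b.trans h4.symm)
      (c.trans h3.symm)

theorem wc_extend {g : Met E M} {γ : ℝ → M} {a b : ℝ} (hab : a < b)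
    (hc : ContinuousOn γ (Icc a b)) (hs : ∀ t ∈ Ioo a b, ContMDiffAt 𝓘(ℝ, ℝ) 𝓘(ℝ, E) ∞ γ t)
    (h : ∀ (x : M), ∀ t ∈ Ioo a b, γ t ∈ (κ E x).source → ∀ w : E, HasDerivAt
      (fun s => coef g x (κ E x (γ s)) (deriv (κ E x ∘ γ) s) w)
      (1 / 2 * fderiv ℝ (fun a => coef g x a (deriv (κ E x ∘ γ) t)
        (deriv (κ E x ∘ γ) t)) (κ E x (γ t)) w) t) :
    ∃ η : ℝ → M, IsGeodesic g η ∧ ∀ t ∈ Icc a b, η t = γ t := by
  have hg : ∀ t ∈ Ioo a b, GeoAt g γ t := by
    intro t ht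
    refine ⟨mem_of_superset (isOpen_Ioo.mem_nhds ht) hs, fun x hx => ?_⟩
    have h1 := contDiffAt_chart (n := ⊤) (hs t ht) hx
    have h2 := (ChartX.G_diff g x ((κ E x).map_source hx)).differentiableAt (by simp)
    have h3 : HasDerivAt (vel E x γ) (deriv (vel E x γ) t) t := ChartX.hasDerivAt_deriv h1
    have e : deriv (vel E x γ) t = acc g x (κ E x (γ t), vel E x γ t) := by
      refine ChartX.G_inj g x ((κ E x).map_source hx) fun w => ?_
      have h4 := ChartX.hasDerivAt_bil (c := κ E x ∘ γ) h2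
        (h1.differentiableAt (by simp)).hasDerivAt h3 (hasDerivAt_const t w)
      rw [map_zero, add_zero] at h4
      have h5 := h4.unique (h x t ht hx w)
      rw [acc_spec g x ((κ E x).map_source hx), ← ChartX.fderiv_bil h2]
      exact eq_sub_of_add_eq' h5
    exact e ▸ h3
  have hm : (a + b) / 2 ∈ Ioo a b := ⟨by linarith, by linarith⟩
  generalize (a + b) / 2 = m at hm
  have hx : γ m ∈ (κ E (γ m)).source := mem_extChartAt_source _
  obtain ⟨h1, h2, h3⟩ := geo_spec g (γ m) (y := (κ E (γ m) (γ m), vel E (γ m) γ m))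
    (mem_extChartAt_target _)
  have h4 := h1.affine 1 (-m)
  have h5 : geo g (γ m) (κ E (γ m) (γ m), vel E (γ m) γ m) (1 * m + -m) = γ m := by
    rw [one_mul, add_neg_cancel, h2]
    exact extChartAt_to_inv _
  have h6 := geo_unique_on hm hg (fun t _ => (isGeodesic_iff _ _).1 h4 t) hx h5.symm (by
    rw [ChartX.vel_aff, one_smul, one_mul, add_neg_cancel, h3])
  refine ⟨_, h4, fun t ht => ?_⟩
  exact (h6.symm.of_subset_closure h4.1.continuous.continuousOn hc Ioo_subset_Icc_self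
    (by rw [closure_Ioo hab.ne]) ht)

omit [T2Space M] [CompactSpace M] [IsManifold 𝓘(ℝ, E) ∞ M] in
theorem wc_seg {γ : ℝ → M} {a b : ℝ} (hs : ∀ t ∈ Icc a b, ∃ δ : ℝ → M,
    ContMDiff 𝓘(ℝ, ℝ) 𝓘(ℝ, E) ∞ δ ∧ ∃ ε : ℝ, 0 < ε ∧ ∀ s ∈ Icc a b, |s - t| < ε → γ s = δ s) :
    ContinuousOn γ (Icc a b) ∧ ∀ t ∈ Ioo a b, ContMDiffAt 𝓘(ℝ, ℝ) 𝓘(ℝ, E) ∞ γ t := by
  refine ⟨fun t ht => ?_, fun t ht => ?_⟩
  · obtain ⟨δ, h1, ε, h2, h3⟩ := hs t ht
    refine h1.continuous.continuousWithinAt.congr_of_eventuallyEq ?_ (h3 t ht (by simpa using h2))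
    filter_upwards [self_mem_nhdsWithin, mem_nhdsWithin_of_mem_nhds (ball_mem_nhds t h2)]
      with s c d using h3 s c d
  · obtain ⟨δ, h1, ε, h2, h3⟩ := hs t (Ioo_subset_Icc_self ht)
    refine (h1 t).congr_of_eventuallyEq ?_
    filter_upwards [Icc_mem_nhds ht.1 ht.2, ball_mem_nhds t h2] with s c d using h3 s c d

omit [T2Space M] [CompactSpace M] in
theorem wc_scale {g : Met E M} (h : ∀ γ : ℝ → M, IsGeodesic g γ → UnitSpeed g γ →
    ∃ τ : ℝ, 0 < τ ∧ Periodic γ τ) {γ : ℝ → M} (h1 : IsGeodesic g γ) :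
    ∃ τ : ℝ, 0 < τ ∧ Periodic γ τ := by
  by_cases h0 : ∀ s, γ s = γ 0
  · exact ⟨1, one_pos, fun t => (h0 _).trans (h0 _).symm⟩
  obtain ⟨s, hs⟩ := not_forall.1 h0
  obtain ⟨u, l, hl, e⟩ := exists_unit h1 hs
  obtain ⟨τ, a, b⟩ := h u.1 u.2.1 u.2.2
  exact ⟨τ / l, by positivity, fun t => by rw [e, e, mul_add, mul_div_cancel₀ _ hl.ne', b]⟩

omit [T2Space M] [CompactSpace M] [IsManifold 𝓘(ℝ, E) ∞ M] in
theorem wc_not_null [MeasurableSpace E] [BorelSpace E] (x : M) {S : Set (M × M)}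
    (h : MeasureTheory.volume (Prod.map (κ E x) (κ E x) ''
      (Sᶜ ∩ (κ E x).source ×ˢ (κ E x).source)) = 0)
    (h' : MeasureTheory.volume (Prod.map (κ E x) (κ E x) ''
      (S ∩ (κ E x).source ×ˢ (κ E x).source)) = 0) : False := by
  have : (MeasureTheory.volume : MeasureTheory.Measure (E × E)).IsAddHaarMeasure :=
    MeasureTheory.Measure.prod.instIsAddHaarMeasure _ _
  refine ((target_open x).prod (target_open x)).measure_ne_zero
    (MeasureTheory.volume : MeasureTheory.Measure (E × E))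
    ⟨(κ E x x, κ E x x), mem_extChartAt_target x, mem_extChartAt_target x⟩
    (MeasureTheory.measure_mono_null ?_ (MeasureTheory.measure_union_null h h'))
  rw [← image_union, ← union_inter_distrib_right, compl_union_self, univ_inter]
  exact fun z hz => ⟨((κ E x).symm z.1, (κ E x).symm z.2),
    ⟨(κ E x).map_target hz.1, (κ E x).map_target hz.2⟩,
    Prod.ext ((κ E x).right_inv hz.1) ((κ E x).right_inv hz.2)⟩

variable [Nonempty M] [Nontrivial E]

theorem wc_G (g : Met E M) (x : M) {y : E × E} (hy : y.1 ∈ (κ E x).target) :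
    ContDiffAt ℝ ∞ (fun z : E × E => G g x z.1 z.2 z.2) y :=
  ((((G_smooth g x).contDiffAt ((target_open x).mem_nhds hy)).comp y contDiffAt_fst).clm_apply
    contDiffAt_snd).clm_apply contDiffAt_snd

/-- charts of the space of nonconstant geodesics -/
noncomputable def wch (g : Met E M) (x : M) : OpenPartialHomeomorph (UG g × ℝ) (E × E) where
  toFun z := (κ E x (z.1.1 0), Real.exp z.2 • vel E x z.1.1 0)
  invFun y := (mk g x y, Real.log (√(G g x y.1 y.2 y.2)))
  source := {z | z.1.1 0 ∈ (κ E x).source}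
  target := (κ E x).target ×ˢ {0}ᶜ
  map_source' z hz := ⟨(κ E x).map_source hz, smul_ne_zero (Real.exp_pos _).ne' (z.1.vel_ne 0 hz)⟩
  map_target' y hy := by
    have : (mk g x y).1 0 ∈ (κ E x).source := by
      rw [mk_zero g x hy.1 hy.2]
      exact (κ E x).map_target hy.1
    exact this
  left_inv' z hz := by
    refine Prod.ext (mk_jet z.1 hz (Real.exp_pos _)) ?_
    simp only [map_smul, smul_apply, smul_eq_mul]
    rw [z.1.unit 0 hz, mul_one, Real.sqrt_mul_self (Real.exp_pos _).le, Real.log_exp]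
  right_inv' y hy := by
    have h := Real.sqrt_pos.2 (G_pos g x hy.1 hy.2)
    refine Prod.ext ?_ ?_
    · simp only
      rw [mk_zero g x hy.1 hy.2, (κ E x).right_inv hy.1]
    · simp only
      rw [vel_mk g x hy.1 hy.2, Real.exp_log h, smul_inv_smul₀ h.ne']
  open_source := (source_open x).preimage
    ((ev_cont g).comp (continuous_fst.prodMk continuous_const))
  open_target := (target_open x).prod isOpen_compl_singleton
  continuousOn_toFun := fun z hz => by
    refine ContinuousAt.continuousWithinAt (ContinuousAt.prodMk ?_ (ContinuousAt.smul ?_ ?_))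
    · exact ContinuousAt.comp (f := fun z : UG g × ℝ => z.1.1 0) (continuousAt_extChartAt' hz)
        ((ev_cont g).comp (continuous_fst.prodMk continuous_const)).continuousAt
    · exact (Real.continuous_exp.comp continuous_snd).continuousAt
    · exact ContinuousAt.comp (f := fun z : UG g × ℝ => z.1) (SpaceX.vel_cont_zero g x hz)
        continuousAt_fst
  continuousOn_invFun := (mk_cont g x).prodMk fun y hy =>
    ((wc_G g x hy.1).continuousAt.sqrt.log
      (Real.sqrt_pos.2 (G_pos g x hy.1 hy.2)).ne').continuousWithinAt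

theorem wc_good (g : Met E M) (x : M) {y : E × E} (hy : y ∈ (wch g x).target) {s : ℝ}
    (h : shift s (mk g x y) = mk g x y) :
    ContDiffAt ℝ 1 (Wads.loc (fun s z => (shift s z.1, z.2)) (wch g x)) (y, s) ∧
      ∃ l : E × E →L[ℝ] ℝ, ∀ w r, l (fderiv ℝ (Wads.loc (fun s z => (shift s z.1, z.2)) (wch g x))
        (y, s) (w, r)) = l w + r := by
  have hy1 : y.1 ∈ (κ E x).target := hy.1
  have hy2 : y.2 ≠ 0 := hy.2
  have hD : IsOpen ((κ E x).target ×ˢ ({0}ᶜ : Set E)) := (wch g x).open_target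
  let Γ : E × E → ℝ → M := fun z => (mk g x z).1
  have h0 : Γ y 0 ∈ (κ E x).source := (wch g x).map_target hy
  have e0 : Γ y s = Γ y 0 := by
    have := shift_apply s (mk g x y) 0
    rw [h, zero_add] at this
    exact this.symm
  have e1 : vel E x (Γ y) s = vel E x (Γ y) 0 := by
    have := vel_shift s (mk g x y) x 0
    rw [h, zero_add] at this
    exact this.symm
  have hc : ContDiffAt ℝ ∞ (κ E x ∘ VarX.fam Γ) (y, s) :=
    contDiffAt_chart (n := ⊤) (mk_smooth g x hy1 hy2 s) (e0 ▸ h0 : Γ y s ∈ _)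
  have hc1 : ContDiffAt ℝ 1 (κ E x ∘ VarX.fam Γ) (y, s) := hc.of_le (by simp)
  have hd := hc1.differentiableAt one_ne_zero
  have e2 : Wads.loc (fun s z => (shift s z.1, z.2)) (wch g x) =ᶠ[𝓝 (y, s)] fun z =>
      ((κ E x ∘ VarX.fam Γ) z, Real.exp (Real.log (√(G g x z.1.1 z.1.2 z.1.2))) •
        fderiv ℝ (κ E x ∘ VarX.fam Γ) z (0, 1)) := by
    filter_upwards [hc1.eventually (by simp)] with z hz
    rw [VarX.fam_vel (hz.differentiableAt one_ne_zero)]
    refine Prod.ext ?_ ?_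
    · exact congrArg (κ E x) ((shift_apply z.2 (mk g x z.1) 0).trans (by rw [zero_add]; rfl))
    · exact congrArg (Real.exp (Real.log (√(G g x z.1.1 z.1.2 z.1.2))) • ·)
        ((vel_shift z.2 (mk g x z.1) x 0).trans (by rw [zero_add]))
  have hpos := G_pos g x hy1 hy2
  have h2 : ContDiffAt ℝ 1 (fun z : (E × E) × ℝ =>
      Real.exp (Real.log (√(G g x z.1.1 z.1.2 z.1.2))) •
        fderiv ℝ (κ E x ∘ VarX.fam Γ) z (0, 1)) (y, s) := by
    refine ContDiffAt.smul (ContDiffAt.of_le (n := ∞) ?_ (by simp))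
      ((hc.fderiv_right ChartX.one_add_one_le).clm_apply contDiffAt_const)
    exact ContDiffAt.comp (f := Prod.fst) (y, s)
      (((wc_G g x hy1).sqrt hpos.ne').log (Real.sqrt_pos.2 hpos).ne').exp contDiffAt_fst
  refine ⟨(hc1.prodMk h2).congr_of_eventuallyEq e2,
    (G g x (κ E x (Γ y 0)) (vel E x (Γ y) 0)).comp (ContinuousLinearMap.fst ℝ E E), fun w r => ?_⟩
  rw [e2.fderiv_eq, (hd.hasFDerivAt.prodMk (h2.differentiableAt one_ne_zero).hasFDerivAt).fderiv]
  have fv := first_variation (g := g) (Γ := Γ) hD (fun z _ => (mk g x z).2.1)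
    (fun z hz t => mk_smooth g x hz.1 hz.2 t) hy w (t := 0) (t' := s) h0 (e0 ▸ h0)
  have e3 : (fun z => energy g (Γ z) 0) = fun _ => 1 := funext fun z => (mk g x z).2.2 0
  have e4 : (fun z => κ E x (Γ z 0)) =ᶠ[𝓝 y] Prod.fst := by
    filter_upwards [hD.mem_nhds hy] with z hz
    exact congrArg Prod.fst ((wch g x).right_inv hz)
  rw [e3, e4.fderiv_eq, e0, e1, fderiv_fst] at fv
  have e5 : ((w, r) : (E × E) × ℝ) = (w, 0) + r • (0, 1) := by simp
  have e6 : fderiv ℝ (κ E x ∘ VarX.fam Γ) (y, s) (w, r) =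
      fderiv ℝ (fun z => κ E x (Γ z s)) y w + r • vel E x (Γ y) 0 := by
    rw [e5, map_add, map_smul, VarX.fderiv_fst hd, VarX.fam_vel hd, e1]
    rfl
  simp only [ContinuousLinearMap.comp_apply, ContinuousLinearMap.prod_apply,
    ContinuousLinearMap.coe_fst']
  rw [e6, map_add, map_smul, fv, (mk g x y).unit 0 h0]
  simp

theorem wc_main [ConnectedSpace M] (hE : 2 ≤ Module.finrank ℝ E) (g : Met E M)
    (h : ∀ u : UG g, ∃ τ, 0 < τ ∧ Periodic u.1 τ) : ∃ τ, 0 < τ ∧ ∀ u : UG g, Periodic u.1 τ := by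
  have := ug_conn hE g
  have ext : ∀ u v : UG g, (∀ t, u.1 t = v.1 t) → u = v := fun u v e =>
    Subtype.ext (ContinuousMap.ext e)
  let S : Wads.Fl (UG g × ℝ) (E × E) :=
    { φ := fun s z => (shift s z.1, z.2)
      cont := ((shift_cont g).comp (continuous_fst.prodMk continuous_snd.fst)).prodMk
        continuous_snd.snd
      zero := fun z => Prod.ext (ext _ _ fun t => by rw [shift_apply, add_zero]) rfl
      add := fun s t z => Prod.ext (ext _ _ fun a => by
        rw [shift_apply, shift_apply, shift_apply, add_assoc]) rfl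
      per := fun z => (h z.1).imp fun τ a => ⟨a.1, Prod.ext (ext _ _ fun t =>
        (shift_apply _ _ _).trans (a.2 t)) rfl⟩
      ch := fun z => wch g (z.1.1 0)
      mem := fun z => mem_extChartAt_source _
      good := fun z y hy s e => wc_good g _ hy (congrArg Prod.fst e) }
  obtain ⟨τ, a, b⟩ := S.common
  refine ⟨τ, a, fun u t => ?_⟩
  have e : shift τ u = u := congrArg Prod.fst (b (u, 0))
  rw [← shift_apply, e]

end Pool.Agent.GeoN
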