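import Mathlib
import Pool.Agent.P.MP_365c00_gt.BMain
import Pool.Agent.P.MP_365c00_gt.BConv

/-! Index of geodesics, null sets, orientability: definitions. -/

set_option linter.unusedSectionVars false
set_option linter.unusedVariables false

open Set Filter Topology Metric Function MeasureTheory
open scoped Manifold ContDiff
open Pool.Agent.GeoN

namespace Pool.Agent.Fu

variable {E : Type} [NormedAddCommGroup E] [InnerProductSpace ℝ E] [FiniteDimensional ℝ E]
  {M : Type} [TopologicalSpace M] [ChartedSpace E M] [IsManifold 𝓘(ℝ, E) ∞ M]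
  [T2Space M] [CompactSpace M] [Nonempty M] [Nontrivial E] {g : Met E M}

/-- the differential of the exponential map along `u` at the time `l`, in the charts at the two
end points -/
noncomputable def Jac (g : Met E M) (u : UG g) (l : ℝ) : E →L[ℝ] E :=
  fderiv ℝ (fun V => κ E (u.1 l) (geo g (u.1 0) (κ E (u.1 0) (u.1 0), V) l)) (vel E (u.1 0) u.1 0)

/-- the end points are not conjugate -/
def NdJ (g : Met E M) (u : UG g) (l : ℝ) : Prop := Injective (Jac g u l)

/-- all normal Jacobi fields that vanish at `0` vanish at `P` -/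
def FlatJ (g : Met E M) (u : UG g) (P : ℝ) : Prop :=
  ∀ ξ, ∃ c : ℝ, Jac g u P ξ = c • vel E (u.1 P) u.1 P

/-- the energy of the short geodesic, traversed in the time `b - a`, in the charts at `u a`
and `u b` -/
noncomputable def Sq (sh : Short g) (u : UG g) (a b : ℝ) (w : E × E) : ℝ :=
  sh.S ((κ E (u.1 a)).symm w.1, (κ E (u.1 b)).symm w.2) / (b - a)

/-- its second derivative -/
noncomputable def Bq (sh : Short g) (u : UG g) (a b : ℝ) : (E × E) →L[ℝ] (E × E) →L[ℝ] ℝ :=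
  fderiv ℝ (fderiv ℝ (Sq sh u a b)) (κ E (u.1 a) (u.1 a), κ E (u.1 b) (u.1 b))

/-- the index form of broken geodesics for the partition `t 0 < ... < t k` -/
noncomputable def Qf (sh : Short g) (u : UG g) (k : ℕ) (t : ℕ → ℝ) (v w : ℕ → E) : ℝ :=
  ∑ j ∈ Finset.range k, Bq sh u (t j) (t (j + 1)) (v j, v (j + 1)) (w j, w (j + 1))

variable (E) in
/-- variations of the inner corners -/
def Vk (k : ℕ) : Submodule ℝ (ℕ → E) where
  carrier := {v | v 0 = 0 ∧ ∀ j, k ≤ j → v j = 0}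
  add_mem' := fun {a b} ha hb => ⟨by simp [ha.1, hb.1], fun j hj => by simp [ha.2 j hj, hb.2 j hj]⟩
  zero_mem' := ⟨rfl, fun _ _ => rfl⟩
  smul_mem' := fun c {a} ha => ⟨by simp [ha.1], fun j hj => by simp [ha.2 j hj]⟩

/-- partitions of `[0, l]` with mesh less than `a` -/
def Part (a l : ℝ) (k : ℕ) (t : ℕ → ℝ) : Prop :=
  0 < k ∧ t 0 = 0 ∧ t k = l ∧ ∀ j < k, t j < t (j + 1) ∧ t (j + 1) - t j < a

/-- the index of a form on a subspace -/
noncomputable def nI {W : Type} [AddCommGroup W] [Module ℝ W] (Q : W → W → ℝ)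
    (V : Submodule ℝ W) : ℕ :=
  sSup {r | ∃ N : Submodule ℝ W, N ≤ V ∧ Module.finrank ℝ N = r ∧ ∀ v ∈ N, v ≠ 0 → Q v v < 0}

/-- the index of the geodesic `u` on `[0, l]` -/
noncomputable def idx (sh : Short g) (a : ℝ) (u : UG g) (l : ℝ) : ℕ :=
  nI (Qf sh u (⌊2 * l / a⌋₊ + 1) fun j => j * (l / (⌊2 * l / a⌋₊ + 1 : ℕ))) (Vk E (⌊2 * l / a⌋₊ + 1))

/-- all long geodesics from `x` to `y` lie on finitely many closed geodesics -/
def FinU (g : Met E M) (x y : M) : Prop :=
  ∃ (L : ℝ) (U : Set (UG g)), U.Finite ∧ (∀ u ∈ U, ∃ P > 0, Periodic u.1 P) ∧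
    ∀ (u : UG g) (l : ℝ), 0 < l → L < l → u.1 0 = x → u.1 l = y → u ∈ U

variable (E) in
/-- null sets of pairs of points -/
def NP [MeasurableSpace (E × E)] (μ : Measure (E × E)) (S : Set (M × M)) : Prop :=
  ∀ x y : M, μ (Prod.map (κ E x) (κ E y) '' (S ∩ (κ E x).source ×ˢ (κ E y).source)) = 0

/-- null sets of geodesic arcs -/
def NT (g : Met E M) [MeasurableSpace (E × E)] (μ : Measure (E × E)) (S : Set (UG g × ℝ)) : Prop :=
  ∀ x : M, μ {y | y.1 ∈ (κ E x).target ∧ y.2 ≠ 0 ∧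
    (GeoN.mk g x y, √(G g x y.1 y.2 y.2)) ∈ S} = 0

variable (E M) in
/-- the preferred charts can be oriented in a locally consistent way -/
def OriL : Prop :=
  ∃ s : M → ℝ, ∀ x, ∀ᶠ p in 𝓝 x,
    0 < s x * s p * (fderiv ℝ (κ E p ∘ (κ E x).symm) (κ E x p)).det

/-- all unit speed geodesics have a common period -/
def Bes (g : Met E M) : Prop := ∃ τ : ℝ, 0 < τ ∧ ∀ u : UG g, Periodic u.1 τ

/-- the function `d` is the Riemannian distance on short scales -/
structure SMd (sh : Short g) (d : M → M → ℝ) (a : ℝ) : Prop where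
  pos : 0 < a
  le : a ^ 2 ≤ sh.ε
  mem : ∀ x y, d x y < a → (x, y) ∈ sh.D ∧ sh.S (x, y) = d x y ^ 2
  near : ∀ z ∈ sh.D, sh.S z < a ^ 2 → d z.1 z.2 < a

end Pool.Agent.Fu
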