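import Mathlib
import Pool.Agent.P.MP_365c00_gt.ZM0

/-! Geodesic arcs in charts: definitions and basic facts. -/

set_option linter.unusedSectionVars false
set_option linter.unusedVariables false

open Set Filter Topology Metric Function MeasureTheory
open scoped Manifold ContDiff
open Pool.Agent.GeoN

namespace Pool.Agent.Fu

variable {E : Type} [NormedAddCommGroup E] [InnerProductSpace ℝ E] [FiniteDimensional ℝ E]
  {M : Type} [TopologicalSpace M] [ChartedSpace E M] [IsManifold 𝓘(ℝ, E) ∞ M]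
  [T2Space M] [CompactSpace M] [Nonempty M] [Nontrivial E] {g : Met E M}

variable (E) in
/-- nonzero tangent vectors in the chart at `x` -/
def TT (x : M) : Set (E × E) := {y | y.1 ∈ (κ E x).target ∧ y.2 ≠ 0}

/-- the length of a tangent vector -/
noncomputable def ln (g : Met E M) (x : M) (y : E × E) : ℝ := √(G g x y.1 y.2 y.2)

/-- the arc with a given initial jet -/
noncomputable def arc (g : Met E M) (x : M) (y : E × E) : UG g × ℝ := (GeoN.mk g x y, ln g x y)

/-- the initial jet of an arc -/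
noncomputable def jet (x : M) (w : UG g × ℝ) : E × E :=
  (κ E x (w.1.1 0), w.2 • vel E x w.1.1 0)

/-- the end points of an arc -/
def Psi (w : UG g × ℝ) : M × M := (w.1.1 0, w.1.1 w.2)

/-- jets whose geodesic is in the chart at `x'` at the time `t` -/
def DD (g : Met E M) (x x' : M) (t : ℝ) : Set (E × E) :=
  {y | y ∈ TT E x ∧ geo g x y t ∈ (κ E x').source}

/-- the end point map in charts -/
noncomputable def FF (g : Met E M) (x x' : M) (y : E × E) : E × E := (y.1, κ E x' (geo g x y 1))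

/-- the differential of the exponential map in charts -/
noncomputable def JC (g : Met E M) (x x' : M) (y : E × E) (t : ℝ) : E →L[ℝ] E :=
  fderiv ℝ (fun V => κ E x' (geo g x (y.1, V) t)) y.2

theorem TT_open (x : M) : IsOpen (TT E x) :=
  (target_open x).prod (isOpen_compl_singleton (x := (0 : E)))

theorem ln_pos {x : M} {y : E × E} (hy : y ∈ TT E x) : 0 < ln g x y :=
  Real.sqrt_pos.2 (G_pos g x hy.1 hy.2)

theorem ln_smooth {x : M} {y : E × E} (hy : y ∈ TT E x) : ContDiffAt ℝ ∞ (ln g x) y := by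
  have h1 : ContDiffAt ℝ ∞ (fun z : E × E => G g x z.1) y :=
    (ChartX.G_diff g x hy.1).comp y contDiffAt_fst
  exact ((h1.clm_apply contDiffAt_snd).clm_apply contDiffAt_snd).sqrt (G_pos g x hy.1 hy.2).ne'

theorem arc_cont {x : M} {y : E × E} (hy : y ∈ TT E x) : ContinuousAt (arc g x) y :=
  ((mk_cont g x).continuousAt ((TT_open x).mem_nhds hy)).prodMk (ln_smooth hy).continuousAt

theorem jet_cont {x : M} {w : UG g × ℝ} (hw : w.1.1 0 ∈ (κ E x).source) :
    ContinuousAt (jet x : UG g × ℝ → E × E) w := by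
  have h0 : Continuous fun v : UG g × ℝ => (v.1, (0 : ℝ)) := by fun_prop
  have h1 : Continuous fun v : UG g × ℝ => v.1.1 0 := (ev_cont g).comp h0
  have h2 : ContinuousAt (fun z : UG g × ℝ => vel E x z.1.1 z.2) (w.1, 0) :=
    (vel_cont g x).continuousAt (((source_open x).preimage (ev_cont g)).mem_nhds hw)
  exact (ContinuousAt.comp (f := fun v : UG g × ℝ => v.1.1 0) (continuousAt_extChartAt' hw)
    h1.continuousAt).prodMk (continuousAt_snd.smul
      (ContinuousAt.comp (f := fun v : UG g × ℝ => (v.1, (0 : ℝ))) h2 h0.continuousAt))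

theorem jet_mem {x : M} {w : UG g × ℝ} (hw : w.1.1 0 ∈ (κ E x).source) (hl : 0 < w.2) :
    jet x w ∈ TT E x :=
  ⟨(κ E x).map_source hw, smul_ne_zero hl.ne' (w.1.vel_ne 0 hw)⟩

theorem arc_jet {x : M} {w : UG g × ℝ} (hw : w.1.1 0 ∈ (κ E x).source) (hl : 0 < w.2) :
    arc g x (jet x w) = w := by
  refine Prod.ext (mk_jet w.1 hw hl) ?_
  simp only [arc, ln, jet, map_smul, smul_apply, smul_eq_mul]
  rw [w.1.unit 0 hw, mul_one, Real.sqrt_mul_self hl.le]

theorem arc_zero {x : M} {y : E × E} (hy : y ∈ TT E x) :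
    (arc g x y).1.1 0 = (κ E x).symm y.1 := mk_zero g x hy.1 hy.2

theorem arc_src {x : M} {y : E × E} (hy : y ∈ TT E x) :
    (arc g x y).1.1 0 ∈ (κ E x).source := by
  rw [arc_zero hy]
  exact (κ E x).map_target hy.1

theorem jet_arc {x : M} {y : E × E} (hy : y ∈ TT E x) : jet x (arc g x y) = y := by
  refine Prod.ext ?_ ?_
  · change κ E x ((arc g x y).1.1 0) = y.1
    rw [arc_zero hy, (κ E x).right_inv hy.1]
  · change ln g x y • vel E x (GeoN.mk g x y).1 0 = y.2
    rw [vel_mk g x hy.1 hy.2]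
    exact smul_inv_smul₀ (ln_pos hy).ne' _

theorem geo_arc {x : M} {y : E × E} (hy : y ∈ TT E x) (t : ℝ) :
    geo g x y t = (arc g x y).1.1 (ln g x y * t) := by
  change geo g x y t = (GeoN.mk g x y).1 (ln g x y * t)
  rw [mk_eq g x hy.1 hy.2, ← geo_smul g x hy.1]
  exact congrArg (fun V => geo g x (y.1, V) t) (smul_inv_smul₀ (ln_pos hy).ne' _).symm

theorem vel_arc {x : M} {y : E × E} (hy : y ∈ TT E x) (x' : M) (t : ℝ) :
    vel E x' (geo g x y) t = ln g x y • vel E x' (arc g x y).1.1 (ln g x y * t) := by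
  have e : geo g x y = fun s => (arc g x y).1.1 (ln g x y * s + 0) :=
    funext fun s => by rw [add_zero, geo_arc hy]
  rw [e, ChartX.vel_aff, add_zero]

theorem geo_chart {x x' : M} {y : E × E} {t : ℝ} (hy : y.1 ∈ (κ E x).target)
    (ht : geo g x y t ∈ (κ E x').source) :
    ContDiffAt ℝ ∞ (fun z : (E × E) × ℝ => κ E x' (geo g x z.1 z.2)) (y, t) :=
  contDiffAt_chart (n := ⊤) (geo_smooth g x hy t) ht

theorem vel_chart {x x' : M} {y : E × E} {t : ℝ} (hy : y.1 ∈ (κ E x).target)
    (ht : geo g x y t ∈ (κ E x').source) :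
    ContDiffAt ℝ ∞ (fun z : (E × E) × ℝ => vel E x' (geo g x z.1) z.2) (y, t) :=
  vel_smooth (g := g) (D := {z : E × E | z.1 ∈ (κ E x).target})
    ((target_open x).preimage continuous_fst) (fun z hz s => geo_smooth g x hz s) hy ht

theorem DD_open (x x' : M) (t : ℝ) : IsOpen (DD g x x' t) := by
  refine isOpen_iff_mem_nhds.2 fun y hy => ?_
  have h1 : ContinuousAt (fun z : E × E => geo g x z t) y :=
    ContinuousAt.comp (f := fun z : E × E => (z, t)) (geo_smooth g x hy.1.1 t).continuousAt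
      (continuousAt_id.prodMk continuousAt_const)
  exact inter_mem ((TT_open x).mem_nhds hy.1) (h1.eventually_mem ((source_open x').mem_nhds hy.2))

theorem FF_smooth {x x' : M} {y : E × E} (hy : y ∈ DD g x x' 1) :
    ContDiffAt ℝ ∞ (FF g x x') y :=
  contDiffAt_fst.prodMk (ContDiffAt.comp (f := fun z : E × E => (z, (1 : ℝ))) y
    (geo_chart hy.1.1 hy.2) (contDiffAt_id.prodMk contDiffAt_const))

theorem FF_arc {x : M} {y : E × E} (hy : y ∈ TT E x) (x' : M) :
    FF g x x' y = Prod.map (κ E x) (κ E x') (Psi (arc g x y)) := by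
  refine Prod.ext ?_ ?_
  · change y.1 = κ E x ((arc g x y).1.1 0)
    rw [arc_zero hy, (κ E x).right_inv hy.1]
  · change κ E x' (geo g x y 1) = κ E x' ((arc g x y).1.1 (ln g x y))
    rw [geo_arc hy, mul_one]

theorem jet_DD {x x' : M} {w : UG g × ℝ} (hw : w.1.1 0 ∈ (κ E x).source)
    (hw' : w.1.1 w.2 ∈ (κ E x').source) (hl : 0 < w.2) : jet x w ∈ DD g x x' 1 := by
  refine ⟨jet_mem hw hl, ?_⟩
  have e : ln g x (jet x w) = w.2 := congrArg Prod.snd (arc_jet hw hl)
  rw [geo_arc (jet_mem hw hl), e, arc_jet hw hl, mul_one]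
  exact hw'

theorem Psi_src {x x' : M} {y : E × E} (hy : y ∈ DD g x x' 1) :
    Psi (arc g x y) ∈ (κ E x).source ×ˢ (κ E x').source := by
  refine ⟨arc_src hy.1, ?_⟩
  have h1 := hy.2
  rw [geo_arc hy.1, mul_one] at h1
  exact h1

theorem Psi_cont : Continuous (Psi : UG g × ℝ → M × M) :=
  ((ev_cont g).comp (f := fun v : UG g × ℝ => (v.1, (0 : ℝ))) (by fun_prop)).prodMk (ev_cont g)

theorem za_shift_zero (u : UG g) : shift 0 u = u :=
  Subtype.ext (ContinuousMap.ext fun s => by rw [shift_apply, add_zero])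

theorem za_ext {u v : UG g} {x : M} {s t : ℝ} (hx : u.1 s ∈ (κ E x).source) (h0 : u.1 s = v.1 t)
    (h1 : vel E x u.1 s = vel E x v.1 t) (r : ℝ) : u.1 (r + s) = v.1 (r + t) := by
  have h2 := geo_unique (shift s u).2.1 (shift t v).2.1 (t0 := 0) (x := x)
    (by rwa [shift_apply, zero_add]) (by rw [shift_apply, shift_apply, zero_add, zero_add, h0])
    (by rw [vel_shift, vel_shift, zero_add, zero_add, h1])
  rw [← shift_apply, ← shift_apply, h2]

variable (E M) in
theorem za_cover : ∃ t : Finset M, ∀ p : M, ∃ x ∈ t, p ∈ (κ E x).source := by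
  obtain ⟨t, ht⟩ := CompactSpace.elim_nhds_subcover (fun x : M => (κ E x).source)
    fun x => extChartAt_source_mem_nhds x
  refine ⟨t, fun p => ?_⟩
  obtain ⟨x, hx, hp⟩ := mem_iUnion₂.1 (ht.ge (mem_univ p))
  exact ⟨x, hx, hp⟩

end Pool.Agent.Fu
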