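import Mathlib
import Pool.Agent.P.MP_365c00_gt.ZA1

/-! Jacobi maps in arbitrary charts, and the differential of the length. -/

set_option linter.unusedSectionVars false
set_option linter.unusedVariables false

open Set Filter Topology Metric Function MeasureTheory
open scoped Manifold ContDiff
open Pool.Agent.GeoN

namespace Pool.Agent.Fu

variable {E : Type} [NormedAddCommGroup E] [InnerProductSpace ℝ E] [FiniteDimensional ℝ E]
  {M : Type} [TopologicalSpace M] [ChartedSpace E M] [IsManifold 𝓘(ℝ, E) ∞ M]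
  [T2Space M] [CompactSpace M] [Nonempty M] [Nontrivial E] {g : Met E M}

theorem za2_bij (g : Met E M) {x x' : M} {a : E} (ha : a ∈ (κ E x).target)
    (ha' : (κ E x).symm a ∈ (κ E x').source) :
    Bijective (fderiv ℝ (κ E x' ∘ (κ E x).symm) a) := by
  have hi : Function.Injective (fderiv ℝ (κ E x' ∘ (κ E x).symm) a : E →ₗ[ℝ] E) := by
    rw [injective_iff_map_eq_zero]
    intro u hu
    by_contra hne
    have h3 := G_pos g x ha hne
    have hu' : fderiv ℝ (κ E x' ∘ (κ E x).symm) a u = 0 := hu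
    rw [G_trans g ha ha', hu', map_zero] at h3
    exact lt_irrefl _ h3
  exact ⟨hi, LinearMap.injective_iff_surjective.1 hi⟩

theorem za2_chg (g : Met E M) {x p : M} {a : E} (ha : a ∈ (κ E x).target)
    (ha' : (κ E x).symm a ∈ (κ E p).source) (V : E) :
    geo g x (a, V) = geo g p (κ E p ((κ E x).symm a), fderiv ℝ (κ E p ∘ (κ E x).symm) a V) := by
  obtain ⟨h1, h2, h3⟩ := geo_spec g x (y := (a, V)) ha
  have h2' : geo g x (a, V) 0 = (κ E x).symm a := h2
  have h3' : vel E x (geo g x (a, V)) 0 = V := h3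
  have hx : geo g x (a, V) 0 ∈ (κ E x).source := by rw [h2']; exact (κ E x).map_target ha
  have hp : geo g x (a, V) 0 ∈ (κ E p).source := by rw [h2']; exact ha'
  have h4 := geo_jet h1 hp
  rw [vel_trans ((isGeodesic_iff g _).1 h1 0) hx hp, h3', h2', (κ E x).right_inv ha] at h4
  exact h4.symm

theorem za2_fib {x x' : M} {a V : E} {t : ℝ} (ha : a ∈ (κ E x).target)
    (ht : geo g x (a, V) t ∈ (κ E x').source) :
    DifferentiableAt ℝ (fun W => κ E x' (geo g x (a, W) t)) V := by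
  have h1 := (geo_chart (g := g) (y := (a, V)) ha ht).differentiableAt (by simp)
  have h2 : DifferentiableAt ℝ (fun W : E => (((a, W), t) : (E × E) × ℝ)) V := by fun_prop
  have h3 := h1.comp V h2
  exact h3

theorem za2_end {x x' : M} {y : E × E} {t : ℝ} (ha : y.1 ∈ (κ E x).target)
    (ht : geo g x y t ∈ (κ E x').source) :
    DifferentiableAt ℝ (fun z => κ E x' (geo g x z t)) y := by
  have h1 := (geo_chart (g := g) ha ht).differentiableAt (by simp)
  have h2 : DifferentiableAt ℝ (fun z : E × E => ((z, t) : (E × E) × ℝ)) y := by fun_prop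
  have h3 := h1.comp y h2
  exact h3

theorem za2_ev {x x' : M} {a V : E} {t : ℝ} (ha : a ∈ (κ E x).target)
    (ht : geo g x (a, V) t ∈ (κ E x').source) :
    ∀ᶠ W in 𝓝 V, geo g x (a, W) t ∈ (κ E x').source := by
  have h1 := (geo_smooth g x (y := (a, V)) ha t).continuousAt
  have h2 : ContinuousAt (fun W : E => (((a, W), t) : (E × E) × ℝ)) V := by fun_prop
  have h3 : ContinuousAt (fun W : E => geo g x (a, W) t) V := h1.comp_of_eq h2 rfl
  exact h3.preimage_mem_nhds ((source_open x').mem_nhds ht)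

theorem za2_jet {x : M} {y : E × E} (hy : y ∈ TT E x) :
    κ E x ((arc g x y).1.1 0) = y.1 ∧ ln g x y • vel E x (arc g x y).1.1 0 = y.2 :=
  ⟨congrArg Prod.fst (jet_arc (g := g) hy), congrArg Prod.snd (jet_arc (g := g) hy)⟩

theorem za2_main {x x' : M} {y : E × E} {t l : ℝ} {u : UG g} (ha : y.1 ∈ (κ E x).target)
    (hl : 0 < l) (hx : u.1 0 ∈ (κ E x).source) (h1 : κ E x (u.1 0) = y.1)
    (h2 : l • vel E x u.1 0 = y.2) (hq : geo g x y t = u.1 (l * t))
    (hq' : u.1 (l * t) ∈ (κ E x').source) :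
    ∃ A B : E →L[ℝ] E, Bijective A ∧ Bijective B ∧
      (∀ ξ, Jac g u (l * t) (A ξ) = B (JC g x x' y t ξ)) ∧
      B (vel E x' u.1 (l * t)) = vel E (u.1 (l * t)) u.1 (l * t) := by
  obtain ⟨a, V⟩ := y
  simp only at ha h1 h2
  have hp : (κ E x).symm a = u.1 0 := by rw [← h1, (κ E x).left_inv hx]
  have hpp : u.1 0 ∈ (κ E (u.1 0)).source := mem_extChartAt_source _
  have hqq : u.1 (l * t) ∈ (κ E (u.1 (l * t))).source := mem_extChartAt_source _
  have ha' : (κ E x).symm a ∈ (κ E (u.1 0)).source := by rw [hp]; exact hpp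
  have hb : κ E x' (u.1 (l * t)) ∈ (κ E x').target := (κ E x').map_source hq'
  have hb' : (κ E x').symm (κ E x' (u.1 (l * t))) ∈ (κ E (u.1 (l * t))).source := by
    rw [(κ E x').left_inv hq']; exact hqq
  have hD := za2_bij g ha ha'
  have hB := za2_bij g hb hb'
  have hchg := za2_chg g ha ha'
  rw [hp] at hchg
  have hv := vel_trans (u.geoAt 0) hx hpp
  rw [h1] at hv
  have hψ := (contDiffAt_trans hb hb').differentiableAt (by simp)
  have hv' := vel_trans (u.geoAt (l * t)) hq' hqq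
  generalize fderiv ℝ (κ E (u.1 0) ∘ (κ E x).symm) a = D at hD hchg hv
  have hA : Bijective (l⁻¹ • D) := by
    have h3 : Bijective (fun w : E => l⁻¹ • w) := MulAction.bijective (Units.mk0 l⁻¹ (inv_ne_zero hl.ne'))
    exact h3.comp hD
  have hAV : (l⁻¹ • D) V = vel E (u.1 0) u.1 0 := by
    rw [hv, ← h2, smul_apply, map_smul, smul_smul, inv_mul_cancel₀ hl.ne',
      one_smul]
  have hk : ∀ W, geo g x (a, W) t =
      geo g (u.1 0) (κ E (u.1 0) (u.1 0), (l⁻¹ • D) W) (l * t) := by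
    intro W
    rw [← geo_smul g (u.1 0) ((κ E (u.1 0)).map_source hpp), hchg, smul_apply,
      smul_smul, mul_inv_cancel₀ hl.ne', one_smul]
  refine ⟨l⁻¹ • D, _, hA, hB, fun ξ => ?_, hv'.symm⟩
  generalize l⁻¹ • D = A at hAV hk
  have hs : geo g x (a, V) t ∈ (κ E x').source := by rw [hq]; exact hq'
  have hF : DifferentiableAt ℝ (fun W => κ E (u.1 (l * t))
      (geo g (u.1 0) (κ E (u.1 0) (u.1 0), W) (l * t))) (A V) :=
    za2_fib ((κ E (u.1 0)).map_source hpp) (by rw [← hk, hq]; exact hqq)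
  have hC := za2_fib ha hs
  have e1 := hF.hasFDerivAt.comp V A.hasFDerivAt
  have hψ' : HasFDerivAt (κ E (u.1 (l * t)) ∘ (κ E x').symm)
      (fderiv ℝ (κ E (u.1 (l * t)) ∘ (κ E x').symm) (κ E x' (u.1 (l * t))))
      (κ E x' (geo g x (a, V) t)) := by
    rw [hq]; exact hψ.hasFDerivAt
  have e2 := hψ'.comp V hC.hasFDerivAt
  have e3 : ((fun W => κ E (u.1 (l * t))
      (geo g (u.1 0) (κ E (u.1 0) (u.1 0), W) (l * t))) ∘ A) =ᶠ[𝓝 V]
      (κ E (u.1 (l * t)) ∘ (κ E x').symm) ∘ fun W => κ E x' (geo g x (a, W) t) := by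
    filter_upwards [za2_ev ha hs] with W hW
    simp only [Function.comp_apply]
    rw [← hk, (κ E x').left_inv hW]
  have e4 := (e2.congr_of_eventuallyEq e3).unique e1
  have e5 := congrArg (fun L : E →L[ℝ] E => L ξ) e4
  simp only [ContinuousLinearMap.comp_apply] at e5
  rw [hAV] at e5
  exact e5.symm

theorem jac_rel {x x' : M} {y : E × E} {t : ℝ} (hy : y ∈ DD g x x' t) :
    ∃ A B : E →L[ℝ] E, Bijective A ∧ Bijective B ∧
      (∀ ξ, Jac g (arc g x y).1 (ln g x y * t) (A ξ) = B (JC g x x' y t ξ)) ∧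
      B (vel E x' (arc g x y).1.1 (ln g x y * t)) =
        vel E ((arc g x y).1.1 (ln g x y * t)) (arc g x y).1.1 (ln g x y * t) := by
  obtain ⟨h1, h2⟩ := za2_jet (g := g) hy.1
  exact za2_main hy.1.1 (ln_pos hy.1) (arc_src hy.1) h1 h2 (geo_arc hy.1 t)
    (by rw [← geo_arc hy.1 t]; exact hy.2)

theorem fderiv_FF {x x' : M} {y : E × E} (hy : y ∈ DD g x x' 1) (η : E × E) :
    fderiv ℝ (FF g x x') y η = (η.1, fderiv ℝ (fun z => κ E x' (geo g x z 1)) y η) := by
  have h1 := (hasFDerivAt_fst (𝕜 := ℝ) (p := y)).prodMk (za2_end hy.1.1 hy.2).hasFDerivAt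
  have h2 : fderiv ℝ (FF g x x') y = _ := h1.fderiv
  rw [h2]
  rfl

theorem nd_iff {x x' : M} {y : E × E} (hy : y ∈ DD g x x' 1) :
    Injective (fderiv ℝ (FF g x x') y) ↔ NdJ g (arc g x y).1 (arc g x y).2 := by
  have hJ : ∀ ξ, fderiv ℝ (fun z => κ E x' (geo g x z 1)) y (0, ξ) = JC g x x' y 1 ξ := by
    intro ξ
    have h1 := (za2_end (g := g) (y := (y.1, y.2)) hy.1.1 hy.2).hasFDerivAt
    have h2 : HasFDerivAt (fun W : E => ((y.1, W) : E × E)) (ContinuousLinearMap.inr ℝ E E) y.2 :=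
      hasFDerivAt_prodMk_right y.1 y.2
    have h3 := (h1.comp y.2 h2).fderiv
    have h4 : JC g x x' y 1 = _ := h3
    rw [h4]
    rfl
  obtain ⟨A, B, hA, hB, h1, -⟩ := jac_rel hy
  rw [mul_one] at h1
  have h2 : Injective (fderiv ℝ (FF g x x') y) ↔ Injective (JC g x x' y 1) := by
    rw [injective_iff_map_eq_zero, injective_iff_map_eq_zero]
    constructor
    · intro h ξ hξ
      have h3 := h (0, ξ) (by rw [fderiv_FF hy, hJ, hξ]; rfl)
      exact congrArg Prod.snd h3
    · rintro h ⟨η, ξ⟩ hξ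
      rw [fderiv_FF hy] at hξ
      have h3 : η = 0 := congrArg Prod.fst hξ
      subst h3
      have h4 : fderiv ℝ (fun z => κ E x' (geo g x z 1)) y (0, ξ) = 0 := congrArg Prod.snd hξ
      rw [hJ] at h4
      rw [h ξ h4]
      rfl
  rw [h2]
  have h3 : (Jac g (arc g x y).1 (ln g x y)) ∘ A = B ∘ JC g x x' y 1 := funext h1
  change _ ↔ Injective (Jac g (arc g x y).1 (ln g x y))
  rw [← Injective.of_comp_iff' (Jac g (arc g x y).1 (ln g x y)) hA, h3, hB.1.of_comp_iff]

theorem flat_of_chart {x x' : M} {y : E × E} {t : ℝ} (hy : y ∈ DD g x x' t)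
    (hf : ∀ ξ, ∃ c : ℝ, JC g x x' y t ξ = c • vel E x' (geo g x y) t) :
    FlatJ g (arc g x y).1 (ln g x y * t) := by
  obtain ⟨A, B, hA, hB, h1, h2⟩ := jac_rel hy
  intro ξ
  obtain ⟨η, rfl⟩ := hA.2 ξ
  obtain ⟨c, hc⟩ := hf η
  refine ⟨c * ln g x y, ?_⟩
  rw [h1, hc, vel_arc hy.1, smul_smul, map_smul, h2]

/-- the first variation of the length -/
theorem dlen {x x' : M} {y : E × E} (hy : y ∈ DD g x x' 1) (η : E × E) :
    fderiv ℝ (ln g x) y η =
      G g x' (FF g x x' y).2 (vel E x' (arc g x y).1.1 (ln g x y)) (fderiv ℝ (FF g x x') y η).2 -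
        G g x y.1 (vel E x (arc g x y).1.1 0) η.1 := by
  have hD : IsOpen {z : E × E | z.1 ∈ (κ E x).target} := (target_open x).preimage continuous_fst
  have ha : y.1 ∈ (κ E x).target := hy.1.1
  have h0 : geo g x y 0 = (κ E x).symm y.1 := (geo_spec g x ha).2.1
  have hx : geo g x y 0 ∈ (κ E x).source := by rw [h0]; exact (κ E x).map_target ha
  have h1 := first_variation (g := g) (Γ := geo g x) hD (fun z hz => (geo_spec g x hz).1)
    (fun z hz t => geo_smooth g x hz t) (z := y) ha η (t := 0) (t' := 1) hx hy.2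
  have e1 : (fun z => κ E x (geo g x z 0)) =ᶠ[𝓝 y] Prod.fst := by
    filter_upwards [hD.mem_nhds ha] with z hz
    rw [(geo_spec g x hz).2.1, (κ E x).right_inv hz]
  have e2 : (fun z => energy g (geo g x z) 0) =ᶠ[𝓝 y] fun z => ln g x z * ln g x z := by
    filter_upwards [hD.mem_nhds ha] with z hz
    have h2 := energy_nonneg g (geo g x z) 0
    rw [energy_geo g x hz] at h2 ⊢
    exact (Real.mul_self_sqrt h2).symm
  have hd := ((ln_smooth (g := g) hy.1).differentiableAt (by simp)).hasFDerivAt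
  have e3 := ((hd.mul hd).congr_of_eventuallyEq e2).fderiv
  rw [e1.fderiv_eq, e3, fderiv_fst, vel_arc hy.1, vel_arc hy.1, h0, (κ E x).right_inv ha,
    mul_one, mul_zero] at h1
  rw [fderiv_FF hy]
  have hl := ln_pos (g := g) hy.1
  simp only [map_smul, smul_apply, add_apply, smul_eq_mul,
    ContinuousLinearMap.coe_fst'] at h1
  change _ = G g x' (κ E x' (geo g x y 1)) _ (fderiv ℝ (fun z => κ E x' (geo g x z 1)) y η) - _
  apply mul_left_cancel₀ hl.ne'
  linarith

end Pool.Agent.Fu
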