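import Mathlib
import Pool.Agent.P.MP_365c00_gt.BFlat

/-! Null sets in a finite dimensional space. -/

set_option linter.unusedSectionVars false
set_option linter.unusedVariables false

open Set Filter Topology Metric Function MeasureTheory
open scoped Manifold ContDiff
open Pool.Agent.GeoN

namespace Pool.Agent.Fu

variable {W W' : Type} [NormedAddCommGroup W] [NormedSpace ℝ W] [FiniteDimensional ℝ W]
  [NormedAddCommGroup W'] [NormedSpace ℝ W']

theorem za_inj_det (L : W →L[ℝ] W) : Injective L ↔ L.det ≠ 0 := by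
  have h1 : L.det = 0 ↔ LinearMap.ker (L : W →ₗ[ℝ] W) ≠ ⊥ := LinearMap.det_eq_zero_iff_ker_ne_bot
  rw [Ne, h1, not_not, LinearMap.ker_eq_bot]
  rfl

/-- a local inverse -/
theorem loc_inv {F : W → W} {y0 : W} (hF : ContDiffAt ℝ ∞ F y0)
    (hi : Injective (fderiv ℝ F y0)) {N : Set W} (hN : N ∈ 𝓝 y0) :
    ∃ (b : W → W) (O : Set W), IsOpen O ∧ F y0 ∈ O ∧ (∀ z ∈ O, DifferentiableAt ℝ b z ∧
      b z ∈ N ∧ F (b z) = z) ∧ ∀ᶠ y in 𝓝 y0, F y ∈ O ∧ b (F y) = y := by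
  have : CompleteSpace W := FiniteDimensional.complete ℝ W
  have h1 : ContDiffAt ℝ 1 F y0 := hF.of_le (by exact_mod_cast le_top)
  let e : W ≃L[ℝ] W :=
    (LinearEquiv.ofInjectiveEndo (fderiv ℝ F y0 : W →ₗ[ℝ] W) hi).toContinuousLinearEquiv
  have he : (e : W →L[ℝ] W) = fderiv ℝ F y0 := by
    ext v
    rfl
  have h2 : HasFDerivAt F (e : W →L[ℝ] W) y0 := by
    rw [he]
    exact (h1.differentiableAt one_ne_zero).hasFDerivAt
  have h3 := h1.hasStrictFDerivAt' h2 one_ne_zero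
  have h4 : ∀ᶠ z in 𝓝 (F y0), DifferentiableAt ℝ (h1.localInverse h2 one_ne_zero) z ∧
      h1.localInverse h2 one_ne_zero z ∈ N ∧ F (h1.localInverse h2 one_ne_zero z) = z := by
    have h5 := (h1.to_localInverse h2 one_ne_zero).eventually (by simp)
    filter_upwards [h5, h3.localInverse_tendsto hN, h3.eventually_right_inverse] with z a b c
    exact ⟨a.differentiableAt one_ne_zero, b, c⟩
  obtain ⟨O, hO, hO1, hO2⟩ := _root_.mem_nhds_iff.1 h4
  refine ⟨_, O, hO1, hO2, fun z hz => hO hz, ?_⟩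
  filter_upwards [h1.continuousAt.eventually (hO1.mem_nhds hO2), h3.eventually_left_inverse]
    with y a b
  exact ⟨a, b⟩

theorem inj_ev {F : W → W} {y0 : W} (hF : ContDiffAt ℝ ∞ F y0)
    (hi : Injective (fderiv ℝ F y0)) : ∀ᶠ y in 𝓝 y0, Injective (fderiv ℝ F y) := by
  have h1 : ContinuousAt (fderiv ℝ F) y0 := hF.continuousAt_fderiv (by simp)
  have h2 : ContinuousAt (fun y => (fderiv ℝ F y).det) y0 :=
    ContinuousLinearMap.continuous_det.continuousAt.comp h1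
  filter_upwards [h2.eventually_ne ((za_inj_det _).1 hi)] with y hy
  exact (za_inj_det _).2 hy

variable [MeasurableSpace W] [BorelSpace W] {μ : Measure W} [μ.IsAddHaarMeasure]

theorem null_push {F : W → W} {A : Set W} (hF : ∀ y ∈ A, DifferentiableAt ℝ F y) (hA : μ A = 0) :
    μ (F '' A) = 0 :=
  addHaar_image_eq_zero_of_differentiableOn_of_addHaar_eq_zero μ
    (fun y hy => (hF y hy).differentiableWithinAt) hA

theorem null_pull {F : W → W} {A B : Set W} (hF : ∀ y ∈ A, ContDiffAt ℝ ∞ F y)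
    (hi : ∀ y ∈ A, Injective (fderiv ℝ F y)) (hB : μ B = 0) (hA : ∀ y ∈ A, F y ∈ B) :
    μ A = 0 := by
  refine measure_null_of_locally_null A fun x hx => ?_
  obtain ⟨b, O, -, -, h1, h2⟩ := loc_inv (hF x hx) (hi x hx) univ_mem
  refine ⟨b '' (B ∩ O), ?_, null_push (fun z hz => (h1 z hz.2).1)
    (measure_mono_null inter_subset_left hB)⟩
  filter_upwards [mem_nhdsWithin_of_mem_nhds h2, self_mem_nhdsWithin] with y hy hyA
  exact ⟨F y, ⟨hA y hyA, hy.1⟩, hy.2⟩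

theorem null_sard {F : W → W} {A : Set W} (hF : ∀ y ∈ A, DifferentiableAt ℝ F y)
    (hi : ∀ y ∈ A, ¬ Injective (fderiv ℝ F y)) : μ (F '' A) = 0 :=
  addHaar_image_eq_zero_of_det_fderivWithin_eq_zero μ (f' := fderiv ℝ F)
    (fun y hy => (hF y hy).hasFDerivAt.hasFDerivWithinAt)
    (fun y hy => not_not.1 fun h => hi y hy ((za_inj_det _).2 h))

theorem null_cover {X : Type} [TopologicalSpace X] [SecondCountableTopology X] {Q : Set X}
    (p : X → W) (hQ : ∀ z ∈ Q, ∃ N ∈ 𝓝 z, μ (p '' (N ∩ Q)) = 0) : μ (p '' Q) = 0 := by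
  choose! N hN h0 using hQ
  obtain ⟨t, ht, htc, hc⟩ := TopologicalSpace.countable_cover_nhdsWithin
    (f := N) (s := Q) fun z hz => mem_nhdsWithin_of_mem_nhds (hN z hz)
  refine measure_mono_null (t := ⋃ z ∈ t, p '' (N z ∩ Q)) ?_
    ((measure_biUnion_null_iff htc).2 fun z hz => h0 z (ht hz))
  rintro _ ⟨y, hy, rfl⟩
  obtain ⟨z, hz, hyz⟩ := mem_iUnion₂.1 (hc hy)
  exact mem_iUnion₂.2 ⟨z, hz, y, ⟨hyz, hy⟩, rfl⟩

theorem null_zero {X : W → W'} {O : Set W} (hO : IsOpen O)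
    (hX : ∀ z ∈ O, DifferentiableAt ℝ X z) :
    μ {z | z ∈ O ∧ X z = 0 ∧ fderiv ℝ X z ≠ 0} = 0 := by
  have h1 : IsOpen (O ∩ X ⁻¹' {0}ᶜ) :=
    ContinuousOn.isOpen_inter_preimage (fun z hz => (hX z hz).continuousAt.continuousWithinAt) hO
      isOpen_compl_singleton
  have h2 : MeasurableSet (O \ (O ∩ X ⁻¹' {0}ᶜ)) := hO.measurableSet.diff h1.measurableSet
  have h3 : ∀ z ∈ O \ (O ∩ X ⁻¹' {0}ᶜ), X z = 0 := fun z hz => by
    by_contra h
    exact hz.2 ⟨hz.1, h⟩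
  have h4 := bFlat_ae μ h2 (fun z hz => hX z hz.1) h3
  rw [ae_restrict_iff' h2, ae_iff] at h4
  refine measure_mono_null (fun z hz => ?_) h4
  intro h
  exact hz.2.2 (h ⟨hz.1, fun h5 => h5.2 hz.2.1⟩)

end Pool.Agent.Fu
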