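import Mathlib
import Pool.Agent.P.MP_365c00_gt.ZA1
import Pool.Agent.P.MP_365c00_gt.ZA3

/-! The calculus of null sets of pairs and of arcs. -/

set_option linter.unusedSectionVars false
set_option linter.unusedVariables false

open Set Filter Topology Metric Function MeasureTheory
open scoped Manifold ContDiff
open Pool.Agent.GeoN

namespace Pool.Agent.Fu

variable {E : Type} [NormedAddCommGroup E] [InnerProductSpace ℝ E] [FiniteDimensional ℝ E]
  {M : Type} [TopologicalSpace M] [ChartedSpace E M] [IsManifold 𝓘(ℝ, E) ∞ M]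
  [T2Space M] [CompactSpace M] [Nonempty M] [Nontrivial E] {g : Met E M}

variable [MeasurableSpace (E × E)] [BorelSpace (E × E)] {μ : Measure (E × E)}
  [μ.IsAddHaarMeasure]

theorem nt_iff {A : Set (UG g × ℝ)} :
    NT g μ A ↔ ∀ x : M, μ {y | y ∈ TT E x ∧ arc g x y ∈ A} = 0 := by
  simp only [NT, TT, arc, ln, mem_ofPred_eq, and_assoc]
theorem NP.mono {A B : Set (M × M)} (hB : NP E μ B) (hAB : A ⊆ B) : NP E μ A := fun x y =>
  measure_mono_null (image_mono (inter_subset_inter_left _ hAB)) (hB x y)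
theorem NP.union {A B : Set (M × M)} (hA : NP E μ A) (hB : NP E μ B) : NP E μ (A ∪ B) := fun x y => by
  rw [union_inter_distrib_right, image_union]
  exact measure_union_null (hA x y) (hB x y)
theorem NP.iUnion {ι : Type} [Countable ι] {A : ι → Set (M × M)} (hA : ∀ i, NP E μ (A i)) :
    NP E μ (⋃ i, A i) := fun x y => by
  rw [iUnion_inter, image_iUnion]
  exact measure_iUnion_null fun i => hA i x y
theorem NT.mono {A B : Set (UG g × ℝ)} (hB : NT g μ B) (hAB : ∀ w ∈ A, 0 < w.2 → w ∈ B) :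
    NT g μ A := by
  rw [nt_iff] at hB ⊢
  refine fun x => measure_mono_null ?_ (hB x)
  exact fun y hy => ⟨hy.1, hAB _ hy.2 (ln_pos hy.1)⟩
theorem NT.union {A B : Set (UG g × ℝ)} (hA : NT g μ A) (hB : NT g μ B) : NT g μ (A ∪ B) := by
  rw [nt_iff] at hA hB ⊢
  exact fun x => measure_mono_null
    (fun y hy => hy.2.elim (fun h => Or.inl ⟨hy.1, h⟩) fun h => Or.inr ⟨hy.1, h⟩)
    (measure_union_null (hA x) (hB x))
theorem NT.iUnion {ι : Type} [Countable ι] {A : ι → Set (UG g × ℝ)} (hA : ∀ i, NT g μ (A i)) :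
    NT g μ (⋃ i, A i) := by
  simp only [nt_iff] at hA ⊢
  refine fun x => measure_mono_null (fun y hy => ?_) (measure_iUnion_null fun i => hA i x)
  obtain ⟨i, hi⟩ := mem_iUnion.1 hy.2
  exact mem_iUnion.2 ⟨i, hy.1, hi⟩
theorem np_diag : NP E μ {z : M × M | z.1 = z.2} := fun x y => by
  have hA : μ {w : E × E | w.2 = 0 ∧ w.1 ∈ (κ E x).target ∧ (κ E x).symm w.1 ∈ (κ E y).source} =
      0 := by
    refine measure_mono_null (fun w hw => hw.1) (Measure.addHaar_submodule μ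
      (LinearMap.ker (LinearMap.snd ℝ E E)) fun e => ?_)
    obtain ⟨v, hv⟩ := exists_ne (0 : E)
    have h1 : ((0, v) : E × E) ∈ LinearMap.ker (LinearMap.snd ℝ E E) := e ▸ Submodule.mem_top
    exact hv h1
  have hD := addHaar_image_eq_zero_of_differentiableOn_of_addHaar_eq_zero μ
    (f := fun w : E × E => (w.1, (κ E y ∘ (κ E x).symm) w.1)) (fun w hw =>
      (differentiableAt_fst.prodMk (((contDiffAt_trans hw.2.1 hw.2.2).differentiableAt
        (by simp)).comp w differentiableAt_fst)).differentiableWithinAt) hA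
  refine measure_mono_null ?_ hD
  rintro _ ⟨⟨a, b⟩, ⟨h1, h2, h3⟩, rfl⟩
  obtain rfl : a = b := h1
  refine ⟨(κ E x a, 0), ⟨rfl, (κ E x).map_source h2, ?_⟩, ?_⟩
  · rw [(κ E x).left_inv h2]
    exact h3
  · simp only [Function.comp_apply, Prod.map_apply, (κ E x).left_inv h2]
theorem NP.dense {A : Set (M × M)} (hA : NP E μ A) : Dense Aᶜ := by
  rw [← interior_eq_empty_iff_dense_compl, eq_empty_iff_forall_notMem]
  rintro ⟨p, q⟩ hz
  have h1 : A ∩ (κ E p).source ×ˢ (κ E q).source ∈ 𝓝 (p, q) :=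
    inter_mem (mem_interior_iff_mem_nhds.1 hz)
      (prod_mem_nhds (extChartAt_source_mem_nhds p) (extChartAt_source_mem_nhds q))
  obtain ⟨U, hU, V, hV, hUV⟩ := mem_nhds_prod_iff.1 h1
  have h2 : (κ E p '' U) ×ˢ (κ E q '' V) ∈ 𝓝 (κ E p p, κ E q q) :=
    prod_mem_nhds (extChartAt_image_nhds_mem_nhds_of_boundaryless hU)
      (extChartAt_image_nhds_mem_nhds_of_boundaryless hV)
  refine (Measure.measure_pos_of_mem_nhds μ h2).ne' (measure_mono_null ?_ (hA p q))
  rintro ⟨_, _⟩ ⟨⟨a, ha, rfl⟩, ⟨b, hb, rfl⟩⟩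
  exact ⟨(a, b), hUV ⟨ha, hb⟩, rfl⟩
theorem NT.not_open {A : Set (UG g × ℝ)} (hA : NT g μ A) {O : Set (UG g × ℝ)} (hO : IsOpen O)
    {w : UG g × ℝ} (hw : w ∈ O) (hl : 0 < w.2) : ∃ v ∈ O, 0 < v.2 ∧ v ∉ A := by
  by_contra! hn
  have hx : w.1.1 0 ∈ (κ E (w.1.1 0)).source := mem_extChartAt_source _
  have hj := jet_mem hx hl
  have h1 : {y | y ∈ TT E (w.1.1 0) ∧ arc g (w.1.1 0) y ∈ O} ∈ 𝓝 (jet (w.1.1 0) w) :=
    inter_mem ((TT_open _).mem_nhds hj)
      ((arc_cont hj).preimage_mem_nhds (hO.mem_nhds (by rwa [arc_jet hx hl])))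
  refine (Measure.measure_pos_of_mem_nhds μ h1).ne'
    (measure_mono_null (fun y hy => ?_) (nt_iff.1 hA (w.1.1 0)))
  exact ⟨hy.1, hn _ hy.2 (ln_pos hy.1)⟩

end Pool.Agent.Fu
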