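import Mathlib
import Pool.Agent.P.MP_365c00_gt.ZA2
import Pool.Agent.P.MP_365c00_gt.ZA4

/-! Null sets: push forward, pull back, reparametrisation. -/

set_option linter.unusedSectionVars false
set_option linter.unusedVariables false

open Set Filter Topology Metric Function MeasureTheory
open scoped Manifold ContDiff
open Pool.Agent.GeoN

namespace Pool.Agent.Fu

variable {E : Type} [NormedAddCommGroup E] [InnerProductSpace ℝ E] [FiniteDimensional ℝ E]
  {M : Type} [TopologicalSpace M] [ChartedSpace E M] [IsManifold 𝓘(ℝ, E) ∞ M]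
  [T2Space M] [CompactSpace M] [Nonempty M] [Nontrivial E] {g : Met E M}

variable [MeasurableSpace (E × E)] [BorelSpace (E × E)] {μ : Measure (E × E)}
  [μ.IsAddHaarMeasure]

theorem za4b_sub {A : Set (UG g × ℝ)} (x x' : M) :
    Prod.map (κ E x) (κ E x') '' ({z | ∃ w ∈ A, 0 < w.2 ∧ Psi w = z} ∩
      (κ E x).source ×ˢ (κ E x').source) ⊆
      FF g x x' '' ({y | y ∈ TT E x ∧ arc g x y ∈ A} ∩ DD g x x' 1) := by
  rintro _ ⟨_, ⟨⟨w, hw, hl, rfl⟩, h1, h2⟩, rfl⟩
  have hy := jet_mem (x := x) h1 hl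
  refine ⟨jet x w, ⟨⟨hy, ?_⟩, jet_DD h1 h2 hl⟩, ?_⟩
  · rw [arc_jet h1 hl]
    exact hw
  · rw [FF_arc hy, arc_jet h1 hl]

theorem za4b_diff {x x' : M} {y : E × E} (hy : y ∈ DD g x x' 1) :
    DifferentiableAt ℝ (FF g x x') y := (FF_smooth hy).differentiableAt (by simp)

theorem za4b_R {x x' : M} {t : ℝ} (c : ℝ) {y : E × E} (hy : y ∈ DD g x' x t) :
    DifferentiableAt ℝ
      (fun y : E × E => (κ E x (geo g x' y t), c • vel E x (geo g x' y) t)) y := by
  have h0 : DifferentiableAt ℝ (fun y : E × E => (y, t)) y :=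
    differentiableAt_id.prodMk (differentiableAt_const t)
  have h1 := ((geo_chart hy.1.1 hy.2).differentiableAt (by simp)).comp y h0
  have h2 := ((vel_chart hy.1.1 hy.2).differentiableAt (by simp)).comp y h0
  exact h1.prodMk (h2.const_smul c)

theorem NT.push {A : Set (UG g × ℝ)} (hA : NT g μ A) :
    NP E μ {z | ∃ w ∈ A, 0 < w.2 ∧ Psi w = z} := by
  intro x x'
  exact measure_mono_null (za4b_sub x x') (null_push (fun y hy => za4b_diff hy.2)
    (measure_mono_null inter_subset_left (nt_iff.1 hA x)))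

theorem NP.pull {A : Set (M × M)} (hA : NP E μ A) :
    NT g μ {w | NdJ g w.1 w.2 ∧ Psi w ∈ A} := by
  refine nt_iff.2 fun x => ?_
  obtain ⟨t, ht⟩ := za_cover E M
  have hs : {y | y ∈ TT E x ∧ arc g x y ∈ {w : UG g × ℝ | NdJ g w.1 w.2 ∧ Psi w ∈ A}} ⊆
      ⋃ x' ∈ (t : Set M), ({y | y ∈ TT E x ∧
        arc g x y ∈ {w : UG g × ℝ | NdJ g w.1 w.2 ∧ Psi w ∈ A}} ∩ DD g x x' 1) := by
    intro y hy
    obtain ⟨x', hx', hp⟩ := ht (geo g x y 1)
    exact mem_biUnion hx' ⟨hy, hy.1, hp⟩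
  refine measure_mono_null hs ((measure_biUnion_null_iff t.countable_toSet).2 fun x' _ => ?_)
  refine null_pull (F := FF g x x') (fun y hy => FF_smooth hy.2)
    (fun y hy => (nd_iff hy.2).2 hy.1.2.1) (hA x x') fun y hy => ?_
  rw [FF_arc hy.1.1]
  exact mem_image_of_mem _ ⟨hy.1.2.2, Psi_src hy.2⟩

theorem np_sard : NP E μ {z | ∃ w : UG g × ℝ, 0 < w.2 ∧ ¬ NdJ g w.1 w.2 ∧ Psi w = z} := by
  intro x x'
  have h := za4b_sub (g := g) (A := {w | ¬ NdJ g w.1 w.2}) x x'
  refine measure_mono_null (Subset.trans (image_mono (inter_subset_inter_left _ ?_)) h)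
    (null_sard (fun y hy => za4b_diff hy.2) fun y hy hi => hy.1.2 ((nd_iff hy.2).1 hi))
  rintro z ⟨w, h1, h2, h3⟩
  exact ⟨w, h2, h1, h3⟩

theorem NT.rep {A : Set (UG g × ℝ)} (hA : NT g μ A) (α : ℝ) {β : ℝ} (hβ : 0 < β) :
    NT g μ {w | (shift (α * w.2) w.1, β * w.2) ∈ A} := by
  refine nt_iff.2 fun x => ?_
  obtain ⟨t, ht⟩ := za_cover E M
  have hs : {y | y ∈ TT E x ∧
      arc g x y ∈ {w : UG g × ℝ | (shift (α * w.2) w.1, β * w.2) ∈ A}} ⊆
      ⋃ x' ∈ (t : Set M), (fun y : E × E => (κ E x (geo g x' y (-(α / β))),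
        β⁻¹ • vel E x (geo g x' y) (-(α / β)))) ''
          ({y | y ∈ TT E x' ∧ arc g x' y ∈ A} ∩ DD g x' x (-(α / β))) := by
    rintro y ⟨hy, hyA⟩
    have hl : 0 < (arc g x y).2 := ln_pos hy
    have h0 := arc_src (g := g) hy
    have hj := jet_arc (g := g) hy
    generalize arc g x y = w at hyA hl h0 hj
    set w' : UG g × ℝ := (shift (α * w.2) w.1, β * w.2) with hw'
    obtain ⟨x', hx', hp⟩ := ht (w'.1.1 0)
    have hl' : 0 < w'.2 := mul_pos hβ hl
    have hy' := jet_mem (x := x') hp hl'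
    have ha := arc_jet (x := x') hp hl'
    have hln : ln g x' (jet x' w') = β * w.2 := congrArg Prod.snd ha
    have ht0 : β * w.2 * -(α / β) + α * w.2 = 0 := by
      field_simp
      ring
    have hg : geo g x' (jet x' w') (-(α / β)) = w.1.1 0 := by
      rw [geo_arc hy', ha, hln, hw', shift_apply, ht0]
    have hv : β⁻¹ • vel E x (geo g x' (jet x' w')) (-(α / β)) = w.2 • vel E x w.1.1 0 := by
      rw [vel_arc hy', ha, hln, hw', vel_shift, ht0, smul_smul, ← mul_assoc,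
        inv_mul_cancel₀ hβ.ne', one_mul]
    refine mem_biUnion hx' ⟨jet x' w', ⟨⟨hy', ?_⟩, hy', ?_⟩, ?_⟩
    · rw [ha]
      exact hyA
    · rw [hg]
      exact h0
    · simp only [hg, hv]
      exact hj
  refine measure_mono_null hs ((measure_biUnion_null_iff t.countable_toSet).2 fun x' _ => ?_)
  exact null_push (fun y hy => za4b_R _ hy.2)
    (measure_mono_null inter_subset_left (nt_iff.1 hA x'))

theorem nt_of_short {p : UG g → Prop} {r : ℝ} (hr : 0 < r)
    (hA : NT g μ {w | p w.1 ∧ w.2 < r}) : NT g μ {w | p w.1} := by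
  have h := NT.iUnion fun n : ℕ => hA.rep 0 (β := 1 / ((n : ℝ) + 1)) (by positivity)
  refine h.mono fun w hw hl => ?_
  obtain ⟨n, hn⟩ := exists_nat_gt (w.2 / r)
  refine mem_iUnion.2 ⟨n, ?_, ?_⟩
  · simp only [zero_mul, za_shift_zero]
    exact hw
  · have h1 : (0 : ℝ) < (n : ℝ) + 1 := by positivity
    rw [div_lt_iff₀ hr] at hn
    change 1 / ((n : ℝ) + 1) * w.2 < r
    rw [one_div, inv_mul_lt_iff₀ h1]
    nlinarith


end Pool.Agent.Fu
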