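import Mathlib


/-! Sequences for the action of a cyclic group on a complex: definitions. -/

set_option linter.unusedSectionVars false
set_option linter.unusedVariables false

open Set TensorProduct

namespace Pool.Agent.Fu

variable {F : Type} [Field F] {P P' : Type} [AddCommGroup P] [Module F P] [AddCommGroup P']
  [Module F P']

/-- a differential module with an action of a cyclic group of order `q` -/
structure GC (F : Type) [Field F] (q : ℕ) (P : Type) [AddCommGroup P] [Module F P] where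
  d : P →ₗ[F] P
  s : Module.End F P
  dd : ∀ c, d (d c) = 0
  ds : ∀ c, d (s c) = s (d c)
  pow : s ^ q = 1

variable {q : ℕ}

/-- the alternating operators of the periodic resolution -/
noncomputable def GC.T (G : GC F q P) (j : ℕ) : Module.End F P :=
  if Even j then G.s - 1 else ∑ i ∈ Finset.range q, G.s ^ i

/-- invariant subcomplexes -/
def GC.St (G : GC F q P) (A : Submodule F P) : Prop :=
  (∀ c ∈ A, G.d c ∈ A) ∧ ∀ c ∈ A, G.s c ∈ A

/-- homotopy invariant cycles up to the order `R` -/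
def GC.Seq (G : GC F q P) (A B : Submodule F P) (R : ℕ) (x : ℕ → P) : Prop :=
  (∀ j ≤ R, x j ∈ A) ∧ G.d (x 0) ∈ B ∧ ∀ j < R, G.d (x (j + 1)) - G.T j (x j) ∈ B

/-- `h` is a null homotopy up to the order `R` -/
def GC.NulBy (G : GC F q P) (A B : Submodule F P) (R : ℕ) (x h : ℕ → P) : Prop :=
  (∀ j ≤ R, h j ∈ A) ∧ x 0 - G.d (h 0) ∈ B ∧
    ∀ j < R, x (j + 1) - G.d (h (j + 1)) - G.T j (h j) ∈ B

/-- null up to the order `R` -/
def GC.Nul (G : GC F q P) (A B : Submodule F P) (R : ℕ) (x : ℕ → P) : Prop :=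
  ∃ h, G.NulBy A B R x h

/-- the sequence with one term, at the place `m` -/
noncomputable def sq (m : ℕ) (g : P) : ℕ → P := fun j => if j = m then g else 0

/-- `f` induces an isomorphism of the relative homology groups -/
def QI (d : P →ₗ[F] P) (d' : P' →ₗ[F] P') (f : P →ₗ[F] P') (A B : Submodule F P)
    (A' B' : Submodule F P') : Prop :=
  (∀ c ∈ A, d c ∈ B → f c ∈ A'.map d' ⊔ B' → c ∈ A.map d ⊔ B) ∧
    ∀ c' ∈ A', d' c' ∈ B' → ∃ c ∈ A, d c ∈ B ∧ f c - c' ∈ A'.map d' ⊔ B'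

/-- `f` is an equivariant chain map of pairs -/
structure EqMap (G : GC F q P) (G' : GC F q P') (f : P →ₗ[F] P') (A B : Submodule F P)
    (A' B' : Submodule F P') : Prop where
  d : ∀ c ∈ A, G'.d (f c) = f (G.d c)
  s : ∀ c ∈ A, G'.s (f c) = f (G.s c)
  A : ∀ c ∈ A, f c ∈ A'
  B : ∀ c ∈ B, f c ∈ B'

/-- relative cycles of degree `k` in `(A, B)` are null in `(A', B')` -/
def Van (d : P →ₗ[F] P) (H : ℕ → Submodule F P) (k : ℕ) (A B A' B' : Submodule F P) : Prop :=
  ∀ c ∈ A, c ∈ H k → d c ∈ B → ∃ h ∈ A', h ∈ H (k + 1) ∧ c - d h ∈ B'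

/-- a grading that is compatible with the structure -/
def GC.Gr (G : GC F q P) (H : ℕ → Submodule F P) : Prop :=
  (∀ k, ∀ c ∈ H (k + 1), G.d c ∈ H k) ∧ ∀ k, ∀ c ∈ H k, G.s c ∈ H k

/-- the submodule is induced from the trivial group, compatibly with the submodule `B` -/
def GC.Ind (G : GC F q P) (A B : Submodule F P) : Prop :=
  ∃ p : P →ₗ[F] P, (∀ c ∈ A, p c ∈ A) ∧ (∀ c ∈ A, c ∈ B → p c ∈ B) ∧
    (∀ c ∈ A, G.d (p c) = p (G.d c)) ∧
    ∀ c ∈ A, ∑ i ∈ Finset.range q, (G.s ^ i) (p ((G.s ^ (q - i)) c)) = c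

end Pool.Agent.Fu
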