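import Mathlib
import Pool.Agent.P.MP_365c00_gt.ZG0

/-! Sequences: functoriality and reflection along quasi-isomorphisms. -/

set_option linter.unusedSectionVars false
set_option linter.unusedVariables false

open Set TensorProduct

namespace Pool.Agent.Fu

variable {F : Type} [Field F] {P P' : Type} [AddCommGroup P] [Module F P] [AddCommGroup P']
  [Module F P']

variable {q : ℕ} {G : GC F q P} {G' : GC F q P'} {A B : Submodule F P} {A' B' : Submodule F P'}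

theorem zg1_d_pow (G : GC F q P) (i : ℕ) (c : P) : G.d ((G.s ^ i) c) = (G.s ^ i) (G.d c) := by
  induction i with
  | zero => rfl
  | succ i ih => rw [pow_succ', Module.End.mul_apply, Module.End.mul_apply, G.ds, ih]

theorem zg1_pow_mem (G : GC F q P) (h : ∀ c ∈ A, G.s c ∈ A) (i : ℕ) {c : P} (hc : c ∈ A) :
    (G.s ^ i) c ∈ A := by
  induction i with
  | zero => exact hc
  | succ i ih => rw [pow_succ', Module.End.mul_apply]; exact h _ ih

theorem zg1_even (G : GC F q P) {j : ℕ} (hj : Even j) (c : P) : G.T j c = G.s c - c := by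
  rw [GC.T, if_pos hj]
  rfl

theorem zg1_odd (G : GC F q P) {j : ℕ} (hj : ¬ Even j) (c : P) :
    G.T j c = ∑ i ∈ Finset.range q, (G.s ^ i) c := by
  rw [GC.T, if_neg hj, LinearMap.sum_apply]

theorem zg1_T_mem (G : GC F q P) (h : ∀ c ∈ A, G.s c ∈ A) (j : ℕ) {c : P} (hc : c ∈ A) :
    G.T j c ∈ A := by
  by_cases hj : Even j
  · rw [zg1_even G hj]
    exact A.sub_mem (h c hc) hc
  · rw [zg1_odd G hj]
    exact A.sum_mem fun i _ => zg1_pow_mem G h i hc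

theorem zg1_mem {d : P →ₗ[F] P} {c : P} : c ∈ A.map d ⊔ B ↔ ∃ a ∈ A, c - d a ∈ B := by
  rw [Submodule.mem_sup]
  constructor
  · rintro ⟨_, ⟨a, ha, rfl⟩, b, hb, rfl⟩
    exact ⟨a, ha, by rwa [add_sub_cancel_left]⟩
  · rintro ⟨a, ha, hb⟩
    exact ⟨_, ⟨a, ha, rfl⟩, _, hb, add_sub_cancel _ _⟩

theorem zg1_of_eq {x y : P} (h : x ∈ B) (e : y = x) : y ∈ B := e ▸ h

theorem zg1_sq {S : P → Prop} (m j : ℕ) {g : P} (h : S g) (h0 : S 0) : S (sq m g j) := by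
  unfold sq
  split_ifs
  exacts [h, h0]

theorem GC.d_T (G : GC F q P) (j : ℕ) (c : P) : G.d (G.T j c) = G.T j (G.d c) := by
  by_cases hj : Even j
  · rw [zg1_even G hj, zg1_even G hj, map_sub, G.ds]
  · rw [zg1_odd G hj, zg1_odd G hj, map_sum]
    exact Finset.sum_congr rfl fun i _ => zg1_d_pow G i c
theorem GC.T_T (G : GC F q P) (j : ℕ) (c : P) : G.T (j + 1) (G.T j c) = 0 := by
  rw [← Module.End.mul_apply]
  by_cases hj : Even j
  · rw [GC.T, GC.T, if_pos hj, if_neg (by rwa [Nat.even_add_one, not_not]), geom_sum_mul, G.pow,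
      sub_self, LinearMap.zero_apply]
  · rw [GC.T, GC.T, if_neg hj, if_pos (Nat.even_add_one.2 hj), mul_geom_sum, G.pow,
      sub_self, LinearMap.zero_apply]
theorem GC.T_add_even (G : GC F q P) (j : ℕ) {m : ℕ} (hm : Even m) : G.T (j + m) = G.T j := by
  have e : Even (j + m) ↔ Even j := by rw [Nat.even_add]; exact ⟨fun h => h.2 hm, fun h => iff_of_true h hm⟩
  simp only [GC.T, e]
theorem GC.T_fix (G : GC F q P) [CharP F q] (j : ℕ) {c : P} (h : G.s c = c) : G.T j c = 0 := by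
  by_cases hj : Even j
  · rw [zg1_even G hj, h, sub_self]
  · have h1 : ∀ i, (G.s ^ i) c = c := fun i => by
      induction i with
      | zero => rfl
      | succ i ih => rw [pow_succ', Module.End.mul_apply, ih, h]
    rw [zg1_odd G hj]
    simp only [h1, Finset.sum_const, Finset.card_range]
    rw [← Nat.cast_smul_eq_nsmul F, CharP.cast_eq_zero, zero_smul]
theorem GC.St.T (h : G.St A) (j : ℕ) {c : P} (hc : c ∈ A) : G.T j c ∈ A := zg1_T_mem G h.2 j hc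
theorem GC.St.sup (h : G.St A) (h' : G.St B) : G.St (A ⊔ B) := by
  constructor <;> intro c hc <;> obtain ⟨a, ha, b, hb, rfl⟩ := Submodule.mem_sup.1 hc <;>
    rw [map_add]
  · exact Submodule.add_mem_sup (h.1 a ha) (h'.1 b hb)
  · exact Submodule.add_mem_sup (h.2 a ha) (h'.2 b hb)
theorem GC.St.inf (h : G.St A) (h' : G.St B) : G.St (A ⊓ B) :=
  ⟨fun c hc => ⟨h.1 c hc.1, h'.1 c hc.2⟩, fun c hc => ⟨h.2 c hc.1, h'.2 c hc.2⟩⟩
theorem GC.Gr.T {H : ℕ → Submodule F P} (h : G.Gr H) (j : ℕ) {k : ℕ} {c : P} (hc : c ∈ H k) :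
    G.T j c ∈ H k := zg1_T_mem G (h.2 k) j hc
theorem EqMap.T {f : P →ₗ[F] P'} (h : EqMap G G' f A B A' B') (hA : G.St A) (j : ℕ) {c : P}
    (hc : c ∈ A) : G'.T j (f c) = f (G.T j c) := by
  by_cases hj : Even j
  · rw [zg1_even G hj, zg1_even G' hj, map_sub, h.s c hc]
  · rw [zg1_odd G hj, zg1_odd G' hj, map_sum]
    have h1 : ∀ i, (G'.s ^ i) (f c) = f ((G.s ^ i) c) := fun i => by
      induction i with
      | zero => rfl
      | succ i ih =>
        rw [pow_succ', pow_succ', Module.End.mul_apply, Module.End.mul_apply, ih,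
          h.s _ (zg1_pow_mem G hA.2 i hc)]
    exact Finset.sum_congr rfl fun i _ => h1 i

theorem GC.seq_sq [CharP F q] {g : P} (hg : g ∈ A) (hd : G.d g ∈ B) (hs : G.s g = g) (m R : ℕ) :
    G.Seq A B R (sq m g) := by
  have h1 : ∀ j, G.d (sq m g j) ∈ B := fun j =>
    zg1_sq (S := fun c => G.d c ∈ B) m j hd (by rw [map_zero]; exact B.zero_mem)
  refine ⟨fun j _ => zg1_sq (S := fun c => c ∈ A) m j hg A.zero_mem, h1 0, fun j _ => ?_⟩
  rw [G.T_fix j (zg1_sq (S := fun c => G.s c = c) m j hs (map_zero _)), sub_zero]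
  exact h1 _
theorem GC.Seq.map {f : P →ₗ[F] P'} (h : EqMap G G' f A B A' B') (hA : G.St A) {R : ℕ}
    {x : ℕ → P} (hx : G.Seq A B R x) : G'.Seq A' B' R fun j => f (x j) := by
  refine ⟨fun j hj => h.A _ (hx.1 j hj), ?_, fun j hj => ?_⟩
  · rw [h.d _ (hx.1 0 (Nat.zero_le _))]
    exact h.B _ hx.2.1
  · rw [h.d _ (hx.1 _ hj), h.T hA j (hx.1 j hj.le), ← map_sub]
    exact h.B _ (hx.2.2 j hj)
theorem GC.Nul.map {f : P →ₗ[F] P'} (h : EqMap G G' f A B A' B') (hA : G.St A) {R : ℕ}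
    {x : ℕ → P} (hx : G.Nul A B R x) : G'.Nul A' B' R fun j => f (x j) := by
  obtain ⟨k, h1, h2, h3⟩ := hx
  refine ⟨fun j => f (k j), fun j hj => h.A _ (h1 j hj), ?_, fun j hj => ?_⟩
  · rw [h.d _ (h1 0 (Nat.zero_le _)), ← map_sub]
    exact h.B _ h2
  · rw [h.d _ (h1 _ hj), h.T hA j (h1 j hj.le), ← map_sub, ← map_sub]
    exact h.B _ (h3 j hj)
theorem GC.Nul.mono {A1 B1 : Submodule F P} {R R1 : ℕ} {x : ℕ → P} (hx : G.Nul A B R x)
    (hA : A ≤ A1) (hB : B ≤ B1) (hR : R1 ≤ R) : G.Nul A1 B1 R1 x := by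
  obtain ⟨k, h1, h2, h3⟩ := hx
  exact ⟨k, fun j hj => hA (h1 j (hj.trans hR)), hB h2, fun j hj => hB (h3 j (hj.trans_le hR))⟩
theorem GC.Nul.congr {R : ℕ} {x y : ℕ → P} (hx : G.Nul A B R x) (h : ∀ j ≤ R, x j - y j ∈ B) :
    G.Nul A B R y := by
  obtain ⟨k, h1, h2, h3⟩ := hx
  exact ⟨k, h1, zg1_of_eq (B.sub_mem h2 (h 0 (Nat.zero_le _))) (by abel),
    fun j hj => zg1_of_eq (B.sub_mem (h3 j hj) (h (j + 1) hj)) (by abel)⟩
theorem GC.Nul.add {R : ℕ} {x y : ℕ → P} (hx : G.Nul A B R x) (hy : G.Nul A B R y) :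
    G.Nul A B R fun j => x j + y j := by
  obtain ⟨k, h1, h2, h3⟩ := hx
  obtain ⟨l, g1, g2, g3⟩ := hy
  exact ⟨fun j => k j + l j, fun j hj => A.add_mem (h1 j hj) (g1 j hj),
    zg1_of_eq (B.add_mem h2 g2) (by simp only [map_add]; abel),
    fun j hj => zg1_of_eq (B.add_mem (h3 j hj) (g3 j hj)) (by simp only [map_add]; abel)⟩
theorem GC.Nul.smul {R : ℕ} {x : ℕ → P} (hx : G.Nul A B R x) (r : F) :
    G.Nul A B R fun j => r • x j := by
  obtain ⟨k, h1, h2, h3⟩ := hx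
  exact ⟨fun j => r • k j, fun j hj => A.smul_mem r (h1 j hj),
    zg1_of_eq (B.smul_mem r h2) (by simp only [map_smul, smul_sub]),
    fun j hj => zg1_of_eq (B.smul_mem r (h3 j hj)) (by simp only [map_smul, smul_sub])⟩
theorem GC.Nul.shift {R m : ℕ} (hm : Even m) {g : P} (hx : G.Nul A B R (sq 0 g)) :
    G.Nul A B (R + m) (sq m g) := by
  obtain ⟨k, h1, h2, h3⟩ := hx
  have h2' : g - G.d (k 0) ∈ B := h2
  refine ⟨fun j => if m ≤ j then k (j - m) else 0, fun j hj => ?_, ?_, fun j hj => ?_⟩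
  · dsimp only
    split_ifs
    exacts [h1 _ (by omega), A.zero_mem]
  · rcases Nat.eq_zero_or_pos m with rfl | h0
    · exact h2
    · simp only [sq, if_neg h0.ne, if_neg (not_le.2 h0), map_zero, sub_zero]
      exact B.zero_mem
  · rcases lt_trichotomy (j + 1) m with h0 | h0 | h0
    · simp only [sq, if_neg h0.ne, if_neg (not_le.2 h0), if_neg (show ¬ m ≤ j by omega), map_zero,
        sub_zero]
      exact B.zero_mem
    · subst h0
      simp only [sq, if_true, le_refl, Nat.sub_self, if_neg (Nat.not_succ_le_self j), map_zero,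
        sub_zero]
      exact h2'
    · obtain ⟨i, rfl⟩ : ∃ i, j = i + m := ⟨j - m, by omega⟩
      have h4 := h3 i (by omega)
      simp only [sq, if_neg (Nat.succ_ne_zero i)] at h4
      simp only [sq, if_neg h0.ne', if_pos h0.le, if_pos (Nat.le_add_left m i), Nat.add_sub_cancel,
        show i + m + 1 - m = i + 1 by omega, G.T_add_even i hm]
      exact h4
/-- an invariant primitive -/
theorem GC.nul_sq [CharP F q] {g h : P} (hh : h ∈ A) (hs : G.s h = h) (hd : g - G.d h ∈ B)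
    (R : ℕ) : G.Nul A B R (sq 0 g) := by
  refine ⟨sq 0 h, fun j _ => zg1_sq (S := fun c => c ∈ A) 0 j hh A.zero_mem, hd, fun j _ => ?_⟩
  rw [G.T_fix j (zg1_sq (S := fun c => G.s c = c) 0 j hs (map_zero _))]
  simp only [sq, if_neg (Nat.succ_ne_zero j), map_zero, sub_zero]
  exact B.zero_mem
theorem sq_map (f : P →ₗ[F] P') (m : ℕ) (g : P) : (fun j => f (sq m g j)) = sq m (f g) := by
  funext j
  unfold sq
  split_ifs
  exacts [rfl, map_zero f]

theorem zg1_step {f : P →ₗ[F] P'} (h : EqMap G G' f A B A' B') (hq : QI G.d G'.d f A B A' B')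
    {y : P} (hy : y ∈ A) (hd : G.d y ∈ B) {w : P'} (hw : w ∈ A') (e : f y - G'.d w ∈ B') :
    ∃ u ∈ A, ∃ k ∈ A', y - G.d u ∈ B ∧ f u - w - G'.d k ∈ B' := by
  obtain ⟨u, hu, h1⟩ := zg1_mem.1 (hq.1 y hy hd (zg1_mem.2 ⟨w, hw, e⟩))
  obtain ⟨c, hc, h2, h3⟩ := hq.2 (w - f u) (A'.sub_mem hw (h.A u hu))
    (zg1_of_eq (B'.sub_mem (h.B _ h1) e) (by simp only [map_sub, h.d u hu]; abel))
  obtain ⟨k, hk, h4⟩ := zg1_mem.1 h3
  exact ⟨u + c, A.add_mem hu hc, k, hk, zg1_of_eq (B.sub_mem h1 h2) (by rw [map_add]; abel),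
    zg1_of_eq h4 (by rw [map_add]; abel)⟩

/-- an equivariant quasi-isomorphism reflects null sequences -/
theorem GC.Nul.reflect {f : P →ₗ[F] P'} (h : EqMap G G' f A B A' B') (hq : QI G.d G'.d f A B A' B')
    (hA : G.St A) (hB : G.St B) (hA' : G'.St A') (hB' : G'.St B') (hBA : B ≤ A) (hBA' : B' ≤ A')
    {R : ℕ} {x : ℕ → P} (hx : G.Seq A B R x) (hn : G'.Nul A' B' R fun j => f (x j)) :
    G.Nul A B R x := by
  obtain ⟨l, l1, l2, l3⟩ := hn
  have key : ∀ r ≤ R, ∃ k : ℕ → P, ∃ w ∈ A', G.NulBy A B r x k ∧ G.T r (x r - G.d (k r)) ∈ B ∧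
      G'.T r (f (k r) - l r - G'.d w) ∈ B' := by
    intro r
    induction r with
    | zero =>
      intro hr
      obtain ⟨u, hu, w, hw, a1, a2⟩ := zg1_step h hq (hx.1 0 hr) hx.2.1 (l1 0 hr) l2
      exact ⟨fun _ => u, w, hw, ⟨fun _ _ => hu, a1, fun j hj => absurd hj (Nat.not_lt_zero j)⟩,
        hB.T 0 a1, hB'.T 0 a2⟩
    | succ r ih =>
      intro hr
      obtain ⟨k, w, hw, ⟨k1, k2, k3⟩, b1, b2⟩ := ih (Nat.le_of_succ_le hr)
      have hk := k1 r le_rfl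
      obtain ⟨u, hu, w', hw', a1, a2⟩ := zg1_step h hq (y := x (r + 1) - G.T r (k r))
        (A.sub_mem (hx.1 _ hr) (hA.T r hk))
        (zg1_of_eq (B.add_mem (hx.2.2 r hr) b1) (by simp only [map_sub, G.d_T]; abel))
        (w := l (r + 1) - G'.T r w) (A'.sub_mem (l1 _ hr) (hA'.T r hw))
        (zg1_of_eq (B'.sub_mem (l3 r hr) b2)
          (by simp only [map_sub, G'.d_T, h.T hA r hk]; abel))
      refine ⟨Function.update k (r + 1) u, w', hw', ⟨fun j hj => ?_, ?_, fun j hj => ?_⟩, ?_, ?_⟩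
      · rcases hj.eq_or_lt with rfl | hj
        · rwa [Function.update_self]
        · rw [Function.update_of_ne hj.ne]
          exact k1 j (Nat.le_of_lt_succ hj)
      · rwa [Function.update_of_ne (Nat.succ_ne_zero r).symm]
      · rw [Function.update_of_ne hj.ne]
        rcases (Nat.le_of_lt_succ hj).eq_or_lt with rfl | hj'
        · rw [Function.update_self]
          exact zg1_of_eq a1 (by abel)
        · rw [Function.update_of_ne (Nat.succ_lt_succ hj').ne]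
          exact k3 j hj'
      · rw [Function.update_self]
        exact zg1_of_eq (hB.T (r + 1) a1) (by simp only [map_sub, G.T_T, sub_zero])
      · rw [Function.update_self]
        exact zg1_of_eq (hB'.T (r + 1) a2) (by simp only [map_sub, G'.T_T, sub_zero])
  obtain ⟨k, -, -, hk, -⟩ := key R le_rfl
  exact ⟨k, hk⟩

/-- five lemma for a triple -/
theorem QI.five {d : P →ₗ[F] P} {d' : P' →ₗ[F] P'} {f : P →ₗ[F] P'} {A0 A1 A2 : Submodule F P}
    {B0 B1 B2 : Submodule F P'} (hdd : ∀ c, d (d c) = 0) (hdd' : ∀ c, d' (d' c) = 0)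
    (h01 : A0 ≤ A1) (h12 : A1 ≤ A2) (k01 : B0 ≤ B1) (k12 : B1 ≤ B2)
    (s0 : ∀ c ∈ A0, d c ∈ A0) (s1 : ∀ c ∈ A1, d c ∈ A1) (s2 : ∀ c ∈ A2, d c ∈ A2)
    (t0 : ∀ c ∈ B0, d' c ∈ B0) (t1 : ∀ c ∈ B1, d' c ∈ B1) (t2 : ∀ c ∈ B2, d' c ∈ B2)
    (f0 : ∀ c ∈ A0, f c ∈ B0) (f1 : ∀ c ∈ A1, f c ∈ B1) (f2 : ∀ c ∈ A2, f c ∈ B2)
    (hf : ∀ c ∈ A2, d' (f c) = f (d c))
    (q1 : QI d d' f A1 A0 B1 B0) (q2 : QI d d' f A2 A1 B2 B1) : QI d d' f A2 A0 B2 B0 := by
  constructor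
  · intro c hc hdc hfc
    obtain ⟨b2, hb2, e1⟩ := zg1_mem.1 hfc
    obtain ⟨a2, ha2, e2⟩ := zg1_mem.1 (q2.1 c hc (h01 hdc) (zg1_mem.2 ⟨b2, hb2, k01 e1⟩))
    obtain ⟨e, he, hde, e3⟩ := q2.2 (b2 - f a2) (B2.sub_mem hb2 (f2 _ ha2))
      (zg1_of_eq (B1.sub_mem (f1 _ e2) (k01 e1)) (by simp only [map_sub, hf a2 ha2]; abel))
    obtain ⟨b, hb, e4⟩ := zg1_mem.1 e3
    obtain ⟨a1, ha1, e5⟩ := zg1_mem.1 (q1.1 (c - d a2 - d e) (A1.sub_mem e2 hde)
      (zg1_of_eq hdc (by simp only [map_sub, hdd, sub_zero]))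
      (zg1_mem.2 ⟨-_, B1.neg_mem e4, zg1_of_eq e1
        (by simp only [map_sub, map_neg, hf a2 ha2, hf e he, hdd']; abel)⟩))
    exact zg1_mem.2 ⟨a2 + e + a1, A2.add_mem (A2.add_mem ha2 he) (h12 ha1),
      zg1_of_eq e5 (by simp only [map_add]; abel)⟩
  · intro c' hc' hdc
    obtain ⟨c, hc, h1, e1⟩ := q2.2 c' hc' (k01 hdc)
    obtain ⟨b2, hb2, e2⟩ := zg1_mem.1 e1
    obtain ⟨a1, ha1, e3⟩ := zg1_mem.1 (q1.1 (d c) h1 (zg1_of_eq A0.zero_mem (hdd c))
      (zg1_mem.2 ⟨_, e2, zg1_of_eq hdc (by simp only [map_sub, hf c hc, hdd']; abel)⟩))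
    obtain ⟨e, he, hde, e4⟩ := q1.2 (f c - c' - d' b2 - f a1) (B1.sub_mem e2 (f1 _ ha1))
      (zg1_of_eq (B0.sub_mem (f0 _ e3) hdc)
        (by simp only [map_sub, hf c hc, hf a1 (h12 ha1), hdd']; abel))
    obtain ⟨b1, hb1, e5⟩ := zg1_mem.1 e4
    exact ⟨c - a1 - e, A2.sub_mem (A2.sub_mem hc (h12 ha1)) (h12 he),
      zg1_of_eq (A0.sub_mem e3 hde) (by simp only [map_sub]),
      zg1_mem.2 ⟨b2 - b1, B2.sub_mem hb2 (k12 hb1),
        zg1_of_eq (B0.neg_mem e5) (by simp only [map_sub]; abel)⟩⟩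

end Pool.Agent.Fu
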