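import Mathlib
import Pool.Agent.P.MP_365c00_gt.ZG1

/-! Sequences: obstruction arguments and induced complexes. -/

set_option linter.unusedSectionVars false
set_option linter.unusedVariables false

open Set TensorProduct

namespace Pool.Agent.Fu

variable {F : Type} [Field F] {P P' : Type} [AddCommGroup P] [Module F P] [AddCommGroup P']
  [Module F P']

variable {q : ℕ} {G : GC F q P} {A B : Submodule F P} {H : ℕ → Submodule F P}

theorem GC.zg2_cyc (hB : G.St B) {r : ℕ} {x h : ℕ → P}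
    (h1 : G.d (x (r + 1)) - G.T r (x r) ∈ B) (hn : G.NulBy A B r x h) :
    G.d (x (r + 1) - G.T r (h r)) ∈ B := by
  have h2 : G.T r (x r - G.d (h r)) ∈ B := by
    rcases r with _ | r
    · exact hB.T 0 hn.2.1
    · have h3 := hB.T (r + 1) (hn.2.2 r (Nat.lt_succ_self r))
      rwa [map_sub, G.T_T, sub_zero] at h3
  have e : G.d (x (r + 1) - G.T r (h r)) =
      (G.d (x (r + 1)) - G.T r (x r)) + G.T r (x r - G.d (h r)) := by
    rw [map_sub, map_sub, G.d_T]; abel
  rw [e]
  exact B.add_mem h1 h2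

theorem GC.zg2_ext {r : ℕ} {x h : ℕ → P} (hn : G.NulBy A B r x h) {h' : P} (hA : h' ∈ A)
    (hb : x (r + 1) - G.d h' - G.T r (h r) ∈ B) :
    G.NulBy A B (r + 1) x (Function.update h (r + 1) h') := by
  refine ⟨fun j hj => ?_, ?_, fun j hj => ?_⟩
  · rcases Nat.lt_or_eq_of_le hj with hj | rfl
    · rw [Function.update_of_ne (by omega)]; exact hn.1 j (by omega)
    · rw [Function.update_self]; exact hA
  · rw [Function.update_of_ne (by omega)]; exact hn.2.1
  · rcases Nat.lt_or_eq_of_le (Nat.le_of_lt_succ hj) with hj | rfl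
    · rw [Function.update_of_ne (by omega), Function.update_of_ne (by omega)]
      exact hn.2.2 j hj
    · rw [Function.update_self, Function.update_of_ne (by omega)]; exact hb

theorem zg2_deg {E : ℕ → Submodule F P} {r : ℕ} {h : ℕ → P} (hh : ∀ j ≤ r, h j ∈ E j) {h' : P}
    (hA : h' ∈ E (r + 1)) : ∀ j ≤ r + 1, Function.update h (r + 1) h' j ∈ E j := by
  intro j hj
  rcases Nat.lt_or_eq_of_le hj with hj | rfl
  · rw [Function.update_of_ne (by omega)]; exact hh j (by omega)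
  · rw [Function.update_self]; exact hA

theorem GC.zg2_congr {r : ℕ} {x y h : ℕ → P} (hn : G.NulBy A B r x h)
    (e : ∀ j ≤ r, y j = x j) : G.NulBy A B r y h :=
  ⟨hn.1, by rw [e 0 (Nat.zero_le r)]; exact hn.2.1,
    fun j hj => by rw [e (j + 1) hj]; exact hn.2.2 j hj⟩

theorem GC.zg2_mono {A1 B1 : Submodule F P} {r : ℕ} {x h : ℕ → P} (hn : G.NulBy A B r x h)
    (hA : A ≤ A1) (hB : B ≤ B1) : G.NulBy A1 B1 r x h :=
  ⟨fun j hj => hA (hn.1 j hj), hB hn.2.1, fun j hj => hB (hn.2.2 j hj)⟩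

theorem GC.zg2_pow (hA : G.St A) (i : ℕ) {c : P} (hc : c ∈ A) : (G.s ^ i) c ∈ A := by
  induction i with
  | zero => simpa using hc
  | succ i ih => rw [pow_succ', Module.End.mul_apply]; exact hA.2 _ ih

theorem GC.zg2_dpow (G : GC F q P) (i : ℕ) (c : P) : G.d ((G.s ^ i) c) = (G.s ^ i) (G.d c) := by
  induction i with
  | zero => simp
  | succ i ih => rw [pow_succ', Module.End.mul_apply, Module.End.mul_apply, G.ds, ih]

theorem GC.zg2_St (m : ℕ) (A : ℕ → Submodule F P) (hA : ∀ i, G.St (A i)) :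
    G.St (⨆ j < m, A j) := by
  constructor
  · have : (⨆ j < m, A j) ≤ (⨆ j < m, A j).comap G.d :=
      iSup₂_le fun j hj c hc => (le_iSup₂_of_le (f := fun j (_ : j < m) => A j) j hj le_rfl :
        A j ≤ ⨆ j < m, A j) ((hA j).1 c hc)
    exact fun c hc => this hc
  · have : (⨆ j < m, A j) ≤ (⨆ j < m, A j).comap G.s :=
      iSup₂_le fun j hj c hc => (le_iSup₂_of_le (f := fun j (_ : j < m) => A j) j hj le_rfl :
        A j ≤ ⨆ j < m, A j) ((hA j).2 c hc)
    exact fun c hc => this hc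

/-- no obstruction: a sequence with null first term is null -/
theorem GC.nul_of_van (hH : G.Gr H) (hA : G.St A) (hB : G.St B) {D R : ℕ} {x : ℕ → P}
    (hx : G.Seq A B R x) (hd : ∀ j ≤ R, x j ∈ H (D + j))
    (h0 : ∃ h ∈ A, h ∈ H (D + 1) ∧ x 0 - G.d h ∈ B)
    (hv : ∀ j, 1 ≤ j → j ≤ R → Van G.d H (D + j) A B A B) :
    ∃ h, G.NulBy A B R x h ∧ ∀ j ≤ R, h j ∈ H (D + j + 1) := by
  have key : ∀ r ≤ R, ∃ h, G.NulBy A B r x h ∧ ∀ j ≤ r, h j ∈ H (D + j + 1) := by
    intro r
    induction r with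
    | zero =>
      intro _
      obtain ⟨h, h1, h2, h3⟩ := h0
      refine ⟨fun _ => h, ⟨fun _ _ => h1, h3, fun j hj => absurd hj (Nat.not_lt_zero j)⟩,
        fun j hj => ?_⟩
      obtain rfl : j = 0 := by omega
      exact h2
    | succ r ih =>
      intro hr
      obtain ⟨h, hn, hh⟩ := ih (by omega)
      obtain ⟨h', a1, a2, a3⟩ := hv (r + 1) (by omega) hr (x (r + 1) - G.T r (h r))
        (A.sub_mem (hx.1 _ hr) (hA.T r (hn.1 r le_rfl)))
        ((H _).sub_mem (hd _ hr) (hH.T r (hh r le_rfl)))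
        (GC.zg2_cyc hB (hx.2.2 r hr) hn)
      refine ⟨_, GC.zg2_ext hn a1 ?_, zg2_deg (E := fun j => H (D + j + 1)) hh a2⟩
      rwa [sub_right_comm] at a3
  exact key R le_rfl

/-- one obstruction, at the even place `m` -/
theorem GC.nul_sub_sq [CharP F q] (hH : G.Gr H) (hA : G.St A) (hB : G.St B) {D R m : ℕ}
    (hm : Even m) {x : ℕ → P} (hx : G.Seq A B R x) (hd : ∀ j ≤ R, x j ∈ H (D + j)) {g : P}
    (hg : g ∈ A) (hgH : g ∈ H (D + m)) (hgd : G.d g ∈ B) (hgs : G.s g = g)
    (hv : ∀ j ≤ R, j ≠ m → Van G.d H (D + j) A B A B)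
    (hs : ∀ c ∈ A, c ∈ H (D + m) → G.d c ∈ B →
      ∃ r : F, ∃ h ∈ A, h ∈ H (D + m + 1) ∧ c - r • g - G.d h ∈ B) :
    ∃ r : F, G.Nul A B R fun j => x j - r • sq m g j := by
  have hsq := GC.seq_sq hg hgd hgs m R
  have key : ∀ r ≤ R, ∃ (ρ : F) (h : ℕ → P), G.NulBy A B r (fun j => x j - ρ • sq m g j) h ∧
      ∀ j ≤ r, h j ∈ H (D + j + 1) := by
    intro r
    induction r with
    | zero =>
      intro hR
      have : ∃ (ρ : F) (h : P), h ∈ A ∧ h ∈ H (D + 0 + 1) ∧ x 0 - ρ • sq m g 0 - G.d h ∈ B := by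
        by_cases e : m = 0
        · subst e
          obtain ⟨ρ, h, h1, h2, h3⟩ := hs (x 0) (hx.1 0 hR) (hd 0 hR) hx.2.1
          exact ⟨ρ, h, h1, h2, by simpa [sq] using h3⟩
        · obtain ⟨h, h1, h2, h3⟩ := hv 0 hR (Ne.symm e) (x 0) (hx.1 0 hR) (hd 0 hR) hx.2.1
          exact ⟨0, h, h1, h2, by simpa using h3⟩
      obtain ⟨ρ, h, h1, h2, h3⟩ := this
      refine ⟨ρ, fun _ => h, ⟨fun _ _ => h1, h3, fun j hj => absurd hj (Nat.not_lt_zero j)⟩,
        fun j hj => ?_⟩
      obtain rfl : j = 0 := by omega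
      exact h2
    | succ r ih =>
      intro hr
      obtain ⟨ρ, h, hn, hh⟩ := ih (by omega)
      have cA : x (r + 1) - G.T r (h r) ∈ A := A.sub_mem (hx.1 _ hr) (hA.T r (hn.1 r le_rfl))
      have cH : x (r + 1) - G.T r (h r) ∈ H (D + (r + 1)) :=
        (H _).sub_mem (hd _ hr) (hH.T r (hh r le_rfl))
      by_cases e : r + 1 = m
      · subst e
        have z : ∀ j ≤ r, sq (r + 1) g j = 0 := fun j hj => if_neg (by omega)
        have hn' : G.NulBy A B r x h := GC.zg2_congr hn fun j hj => by simp [z j hj]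
        obtain ⟨ρ', h', a1, a2, a3⟩ := hs _ cA cH (GC.zg2_cyc hB (hx.2.2 r hr) hn')
        have hn'' : G.NulBy A B r (fun j => x j - ρ' • sq (r + 1) g j) h :=
          GC.zg2_congr hn' fun j hj => by simp [z j hj]
        refine ⟨ρ', _, GC.zg2_ext hn'' a1 ?_, zg2_deg (E := fun j => H (D + j + 1)) hh a2⟩
        have e1 : sq (r + 1) g (r + 1) = g := if_pos rfl
        have e2 : x (r + 1) - ρ' • sq (r + 1) g (r + 1) - G.d h' - G.T r (h r) =
            x (r + 1) - G.T r (h r) - ρ' • g - G.d h' := by rw [e1]; abel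
        rw [e2]; exact a3
      · have z : sq m g (r + 1) = 0 := if_neg e
        have h1 : G.d (x (r + 1) - ρ • sq m g (r + 1)) - G.T r (x r - ρ • sq m g r) ∈ B := by
          have e2 : G.d (x (r + 1) - ρ • sq m g (r + 1)) - G.T r (x r - ρ • sq m g r) =
              (G.d (x (r + 1)) - G.T r (x r)) -
                ρ • (G.d (sq m g (r + 1)) - G.T r (sq m g r)) := by
            simp only [map_sub, map_smul, smul_sub]; abel
          rw [e2]
          exact B.sub_mem (hx.2.2 r hr) (B.smul_mem ρ (hsq.2.2 r hr))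
        have h2 := GC.zg2_cyc (x := fun j => x j - ρ • sq m g j) hB h1 hn
        simp only [z, smul_zero, sub_zero] at h2
        obtain ⟨h', a1, a2, a3⟩ := hv (r + 1) hr e _ cA cH h2
        refine ⟨ρ, _, GC.zg2_ext hn a1 ?_, zg2_deg (E := fun j => H (D + j + 1)) hh a2⟩
        simp only [z, smul_zero, sub_zero]
        rwa [sub_right_comm] at a3
  obtain ⟨ρ, h, hn, -⟩ := key R le_rfl
  exact ⟨ρ, h, hn⟩

/-- continuation of a low representative beyond the order `r` -/
theorem GC.tail (hH : G.Gr H) {A B : ℝ → Submodule F P} (hAm : Monotone A) (hBm : Monotone B)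
    (hA : ∀ t, G.St (A t)) (hB : ∀ t, G.St (B t)) {D r R : ℕ} (hrR : r ≤ R) {lo top η : ℝ}
    (hη : 0 ≤ η) (hlt : lo + η ≤ top) {x l h : ℕ → P} (hx : G.Seq (A top) (B top) R x)
    (hxd : ∀ j ≤ R, x j ∈ H (D + j)) (hl : G.Seq (A lo) (B lo) r l)
    (hld : ∀ j ≤ r, l j ∈ H (D + j)) (hh : G.NulBy (A top) (B top) r (fun j => x j - l j) h)
    (hhd : ∀ j ≤ r, h j ∈ H (D + j + 1))
    (hv : ∀ (i : ℕ) (t : ℝ), r + i ≤ R → t ≤ top + i * η →
      Van G.d H (D + r + i) (A t) (B t) (A (t + η)) (B (t + η))) :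
    G.Nul (A (top + (R - r : ℕ) * η)) (B (top + (R - r : ℕ) * η) ⊔ A (lo + (R - r : ℕ) * η)) R x := by
  have key : ∀ i : ℕ, r + i ≤ R → ∃ l h : ℕ → P,
      G.Seq (A (lo + i * η)) (B (lo + i * η)) (r + i) l ∧ (∀ j ≤ r + i, l j ∈ H (D + j)) ∧
      G.NulBy (A (top + i * η)) (B (top + i * η)) (r + i) (fun j => x j - l j) h ∧
      ∀ j ≤ r + i, h j ∈ H (D + j + 1) := by
    intro i
    induction i with
    | zero =>
      intro _
      refine ⟨l, h, ?_, hld, ?_, hhd⟩
      · simpa using hl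
      · simpa using hh
    | succ i ih =>
      intro hi
      obtain ⟨l, h, b1, b2, b3, b4⟩ := ih (by omega)
      have i0 : (0 : ℝ) ≤ i * η := by positivity
      have c1 : G.d (G.T (r + i) (l (r + i))) ∈ B (lo + i * η) := by
        rw [G.d_T]
        rcases hm : r + i with _ | m
        · exact (hB _).T 0 b1.2.1
        · have h3 := (hB _).T (m + 1) (b1.2.2 m (by omega))
          rwa [map_sub, G.T_T, sub_zero] at h3
      obtain ⟨l', a1, a2, a3⟩ := hv i (lo + i * η) (by omega) (by linarith) _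
        ((hA _).T (r + i) (b1.1 _ le_rfl))
        (by rw [add_assoc]; exact hH.T (r + i) (b2 _ le_rfl)) c1
      have a4 : G.d l' - G.T (r + i) (l (r + i)) ∈ B (lo + i * η + η) := by
        rw [← neg_sub]; exact (B _).neg_mem a3
      have a2' : l' ∈ H (D + (r + i + 1)) := by rw [← add_assoc, ← add_assoc]; exact a2
      have u1 : Function.update l (r + i + 1) l' (r + i + 1) = l' := Function.update_self ..
      have u2 : ∀ j ≤ r + i, Function.update l (r + i + 1) l' j = l j := fun j hj =>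
        Function.update_of_ne (by omega) ..
      have b3' : G.NulBy (A (top + i * η)) (B (top + i * η)) (r + i)
          (fun j => x j - Function.update l (r + i + 1) l' j) h :=
        GC.zg2_congr b3 fun j hj => by rw [u2 j hj]
      have h1 : G.d (x (r + i + 1) - Function.update l (r + i + 1) l' (r + i + 1)) -
          G.T (r + i) (x (r + i) - Function.update l (r + i + 1) l' (r + i)) ∈ B (top + i * η) := by
        rw [u1, u2 _ le_rfl]
        have e2 : G.d (x (r + i + 1) - l') - G.T (r + i) (x (r + i) - l (r + i)) =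
            (G.d (x (r + i + 1)) - G.T (r + i) (x (r + i))) -
              (G.d l' - G.T (r + i) (l (r + i))) := by
          simp only [map_sub]; abel
        rw [e2]
        exact (B _).sub_mem (hBm (by linarith) (hx.2.2 _ (by omega))) (hBm (by linarith) a4)
      have h2 := GC.zg2_cyc (x := fun j => x j - Function.update l (r + i + 1) l' j) (hB _) h1 b3'
      have e0 : ((i + 1 : ℕ) : ℝ) * η = i * η + η := by push_cast; ring
      obtain ⟨h', d1, d2, d3⟩ := hv (i + 1) (top + i * η) hi (by rw [e0]; linarith) _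
        ((A _).sub_mem ((A _).sub_mem (hAm (by linarith) (hx.1 _ hi))
          (by rw [u1]; exact hAm (by linarith) a1)) ((hA _).T (r + i) (b3.1 _ le_rfl)))
        (by
          rw [add_assoc]
          exact (H _).sub_mem ((H _).sub_mem (hxd _ hi) (by rw [u1]; exact a2'))
            (hH.T (r + i) (b4 _ le_rfl))) h2
      rw [e0, ← add_assoc lo, ← add_assoc top]
      refine ⟨Function.update l (r + i + 1) l', Function.update h (r + i + 1) h', ⟨?_, ?_, ?_⟩,
        zg2_deg (E := fun j => H (D + j)) b2 a2', ?_,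
        zg2_deg (E := fun j => H (D + j + 1)) b4 (by rw [add_assoc D r] at d2; exact d2)⟩
      · exact zg2_deg (E := fun _ => A (lo + i * η + η))
          (fun j hj => hAm (by linarith) (b1.1 j hj)) a1
      · rw [u2 0 (Nat.zero_le _)]; exact hBm (by linarith) b1.2.1
      · intro j hj
        have hj' : j < r + i ∨ j = r + i := by omega
        rcases hj' with hj | rfl
        · rw [u2 _ hj, u2 _ hj.le]; exact hBm (by linarith) (b1.2.2 j hj)
        · rw [u1, u2 _ le_rfl]; exact a4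
      · refine GC.zg2_ext (GC.zg2_mono b3' (hAm (by linarith)) (hBm (by linarith))) d1 ?_
        rwa [sub_right_comm] at d3
  obtain ⟨l, h, b1, -, b3, -⟩ := key (R - r) (by omega)
  rw [Nat.add_sub_cancel' hrR] at b1 b3
  refine GC.Nul.congr (x := fun j => x j - l j) ⟨h, GC.zg2_mono b3 le_rfl le_sup_left⟩
    fun j hj => ?_
  rw [sub_sub_cancel_left]
  exact Submodule.neg_mem _ (Submodule.mem_sup_right (b1.1 j hj))

/-- a piece of a sequence, without initial condition -/
def GC.Seq' (G : GC F q P) (A B : Submodule F P) (R : ℕ) (x : ℕ → P) : Prop :=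
  (∀ j ≤ R, x j ∈ A) ∧ ∀ j < R, G.d (x (j + 1)) - G.T j (x j) ∈ B

theorem GC.Ind.pair (h : G.Ind A B) (hA : G.St A) (hB : G.St B) :
    ∃ k k' : P →ₗ[F] P, ∀ c ∈ A, k c ∈ A ∧ k' c ∈ A ∧ (c ∈ B → k c ∈ B ∧ k' c ∈ B) ∧
      G.d (k c) = k (G.d c) ∧ G.d (k' c) = k' (G.d c) ∧ G.T 1 (k c) + k' (G.T 0 c) = c ∧
      G.T 0 (k' c) + k (G.T 1 c) = c := by
  obtain ⟨p, p1, p2, p3, p4⟩ := h
  have T0 : G.T 0 = G.s - 1 := if_pos Even.zero
  have T1 : G.T 1 = ∑ i ∈ Finset.range q, G.s ^ i := if_neg Nat.not_even_one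
  have hk : ∀ c, (∑ i ∈ Finset.range q,
      (∑ j ∈ Finset.range i, G.s ^ j) ∘ₗ p ∘ₗ (G.s ^ (q - i)) : P →ₗ[F] P) c =
      ∑ i ∈ Finset.range q, ∑ j ∈ Finset.range i, (G.s ^ j) (p ((G.s ^ (q - i)) c)) := by
    intro c
    simp only [LinearMap.sum_apply, LinearMap.comp_apply]
  refine ⟨p ∘ₗ G.s, ∑ i ∈ Finset.range q,
    (∑ j ∈ Finset.range i, G.s ^ j) ∘ₗ p ∘ₗ (G.s ^ (q - i)), fun c hc => ?_⟩
  simp only [hk, LinearMap.comp_apply]
  refine ⟨p1 _ (hA.2 c hc), ?_, fun hb => ⟨p2 _ (hA.2 c hc) (hB.2 c hb), ?_⟩, ?_, ?_, ?_, ?_⟩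
  · exact A.sum_mem fun i _ => A.sum_mem fun j _ =>
      GC.zg2_pow hA j (p1 _ (GC.zg2_pow hA _ hc))
  · exact B.sum_mem fun i _ => B.sum_mem fun j _ =>
      GC.zg2_pow hB j (p2 _ (GC.zg2_pow hA _ hc) (GC.zg2_pow hB _ hb))
  · rw [p3 _ (hA.2 c hc), G.ds]
  · rw [map_sum]
    refine Finset.sum_congr rfl fun i _ => ?_
    rw [map_sum]
    refine Finset.sum_congr rfl fun j _ => ?_
    rw [G.zg2_dpow, p3 _ (GC.zg2_pow hA _ hc), G.zg2_dpow]
  · have key : ∀ n ≤ q, ∑ i ∈ Finset.range n, ∑ j ∈ Finset.range i,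
        (G.s ^ j) (p ((G.s ^ (q - i)) (G.T 0 c))) +
        ∑ j ∈ Finset.range n, (G.s ^ j) (p ((G.s ^ (q - n)) (G.s c))) =
        ∑ i ∈ Finset.range n, (G.s ^ i) (p ((G.s ^ (q - i)) c)) := by
      intro n
      induction n with
      | zero => intro _; simp
      | succ n ih =>
        intro hn
        have e1 : (G.s ^ (q - (n + 1))) (G.s c) = (G.s ^ (q - n)) c := by
          rw [← Module.End.mul_apply, ← pow_succ]
          congr 2; omega
        have e2 : ∑ j ∈ Finset.range n, (G.s ^ j) (p ((G.s ^ (q - n)) (G.T 0 c))) =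
            ∑ j ∈ Finset.range n, (G.s ^ j) (p ((G.s ^ (q - n)) (G.s c))) -
            ∑ j ∈ Finset.range n, (G.s ^ j) (p ((G.s ^ (q - n)) c)) := by
          rw [← Finset.sum_sub_distrib]
          refine Finset.sum_congr rfl fun j _ => ?_
          rw [T0, LinearMap.sub_apply, Module.End.one_apply, map_sub, map_sub, map_sub]
        rw [Finset.sum_range_succ, Finset.sum_range_succ, Finset.sum_range_succ, ← ih (by omega),
          e1, e2]
        abel
    have h1 := key q le_rfl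
    rw [p4 c hc, Nat.sub_self, pow_zero, Module.End.one_apply] at h1
    rw [T1, LinearMap.sum_apply, add_comm]
    exact h1
  · have e1 : ∀ (i : ℕ) (y : P), G.T 0 (∑ j ∈ Finset.range i, (G.s ^ j) y) = (G.s ^ i) y - y := by
      intro i y
      rw [← LinearMap.sum_apply, ← Module.End.mul_apply, T0, mul_geom_sum, LinearMap.sub_apply,
        Module.End.one_apply]
    have e2 : G.s (G.T 1 c) = ∑ i ∈ Finset.range q, (G.s ^ (q - i)) c := by
      rw [T1, LinearMap.sum_apply, map_sum, ← Finset.sum_range_reflect]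
      refine Finset.sum_congr rfl fun i hi => ?_
      rw [← Module.End.mul_apply, ← pow_succ']
      have := Finset.mem_range.1 hi
      congr 2; omega
    rw [map_sum, e2, map_sum]
    simp only [e1]
    rw [Finset.sum_sub_distrib, p4 c hc, sub_add_cancel]

/-- in an induced complex a piece of a sequence is null, with one more term at the left -/
theorem GC.Ind.nul (h : G.Ind A B) (hA : G.St A) (hB : G.St B) {R : ℕ} {x : ℕ → P}
    (hx : G.Seq' A B (R + 1) x) :
    ∃ k : ℕ → P, (∀ j ≤ R + 1, k j ∈ A) ∧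
      ∀ j ≤ R, x j - G.d (k (j + 1)) - G.T (j + 1) (k j) ∈ B := by
  obtain ⟨k, k', hk⟩ := h.pair hA hB
  have Te : ∀ j, Even j → G.T j = G.T 0 := fun j hj => by
    unfold GC.T; rw [if_pos hj, if_pos Even.zero]
  have To : ∀ j, ¬ Even j → G.T j = G.T 1 := fun j hj => by
    unfold GC.T; rw [if_neg hj, if_neg Nat.not_even_one]
  refine ⟨fun j => if Even j then k (x j) else k' (x j), fun j hj => ?_, fun j hj => ?_⟩
  · show (if Even j then k (x j) else k' (x j)) ∈ A
    split_ifs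
    · exact (hk _ (hx.1 j hj)).1
    · exact (hk _ (hx.1 j hj)).2.1
  · have a0 := hx.1 j (by omega)
    have a1 := hx.1 (j + 1) (by omega)
    have a2 := hx.2 j (by omega)
    have a3 : G.d (x (j + 1)) - G.T j (x j) ∈ A := A.sub_mem (hA.1 _ a1) (hA.T j a0)
    obtain ⟨b1, b2⟩ := (hk _ a3).2.2.1 a2
    by_cases e : Even j
    · have e' : ¬ Even (j + 1) := by rw [Nat.even_add_one]; exact fun h => h e
      simp only [if_pos e, if_neg e']
      rw [To _ e', (hk _ a1).2.2.2.2.1]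
      rw [Te _ e, map_sub] at b2
      have b3 := (hk _ a0).2.2.2.2.2.1
      have e3 : x j - k' (G.d (x (j + 1))) - G.T 1 (k (x j)) =
          -(k' (G.d (x (j + 1))) - k' (G.T 0 (x j))) := by
        rw [← sub_eq_iff_eq_add'.2 b3.symm]; abel
      rw [e3]; exact B.neg_mem b2
    · have e' : Even (j + 1) := by rw [Nat.even_add_one]; exact e
      simp only [if_neg e, if_pos e']
      rw [Te _ e', (hk _ a1).2.2.2.1]
      rw [To _ e, map_sub] at b1
      have b3 := (hk _ a0).2.2.2.2.2.2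
      have e3 : x j - k (G.d (x (j + 1))) - G.T 0 (k' (x j)) =
          -(k (G.d (x (j + 1))) - k (G.T 1 (x j))) := by
        rw [← sub_eq_iff_eq_add'.2 b3.symm]; abel
      rw [e3]; exact B.neg_mem b1

/-- a sum of `m` induced complexes -/
theorem GC.nil (m : ℕ) (A : ℕ → Submodule F P) (hA : ∀ i, G.St (A i)) (hB : G.St B)
    (hI : ∀ i < m, G.Ind (A i) ((⨆ j < i, A j) ⊔ B)) {x : ℕ → P}
    (hx : G.Seq' (⨆ j < m, A j) B m x) :
    ∃ a ∈ ⨆ j < m, A j, ∃ b ∈ ⨆ j < m, A j, x 0 - G.d a - G.T 1 b ∈ B := by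
  induction m generalizing x with
  | zero =>
    have h0 := hx.1 0 le_rfl
    have e : (⨆ j < 0, A j) = ⊥ := by simp
    rw [e, Submodule.mem_bot] at h0
    exact ⟨0, Submodule.zero_mem _, 0, Submodule.zero_mem _, by simp [h0]⟩
  | succ m ih =>
    have hS := GC.zg2_St m A hA
    have e : (⨆ j < m + 1, A j) = (⨆ j < m, A j) ⊔ A m := Nat.iSup_lt_succ A m
    rw [e] at hx ⊢
    set S := ⨆ j < m, A j with hSd
    have h1 : ∀ j, ∃ y, j ≤ m + 1 → y ∈ A m ∧ x j - y ∈ S := by
      intro j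
      by_cases hj : j ≤ m + 1
      · obtain ⟨z, hz, y, hy, e⟩ := Submodule.mem_sup.1 (hx.1 j hj)
        exact ⟨y, fun _ => ⟨hy, by rw [← e, add_sub_cancel_right]; exact hz⟩⟩
      · exact ⟨0, fun h => absurd h hj⟩
    choose y hy using h1
    have hy' : G.Seq' (A m) (S ⊔ B) (m + 1) y := by
      refine ⟨fun j hj => (hy j hj).1, fun j hj => ?_⟩
      have e2 : G.d (y (j + 1)) - G.T j (y j) =
          -(G.d (x (j + 1) - y (j + 1)) - G.T j (x j - y j)) + (G.d (x (j + 1)) - G.T j (x j)) := by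
        simp only [map_sub]; abel
      rw [e2]
      exact Submodule.add_mem_sup (S.neg_mem (S.sub_mem (hS.1 _ (hy _ hj).2)
        (hS.T j (hy _ hj.le).2))) (hx.2 j hj)
    obtain ⟨k, k1, k2⟩ := (hI m (Nat.lt_succ_self m)).nul (hA m) (hS.sup hB) hy'
    have h2 : ∀ j, ∃ b, j ≤ m → b ∈ B ∧ x j - G.d (k (j + 1)) - G.T (j + 1) (k j) - b ∈ S := by
      intro j
      by_cases hj : j ≤ m
      · obtain ⟨z, hz, b, hb, e⟩ := Submodule.mem_sup.1 (k2 j hj)
        refine ⟨b, fun _ => ⟨hb, ?_⟩⟩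
        have e2 : x j - G.d (k (j + 1)) - G.T (j + 1) (k j) - b = (x j - y j) + z := by
          rw [eq_sub_of_add_eq e]; abel
        rw [e2]
        exact S.add_mem (hy j (by omega)).2 hz
      · exact ⟨0, fun h => absurd h hj⟩
    choose b hb using h2
    have hx' : G.Seq' S B m fun j => x j - G.d (k (j + 1)) - G.T (j + 1) (k j) - b j := by
      refine ⟨fun j hj => (hb j hj).2, fun j hj => ?_⟩
      have t2 : G.T (j + 1 + 1) = G.T j := G.T_add_even j even_two
      have t3 : G.T j (G.T (j + 1) (k j)) = 0 := by rw [← t2]; exact G.T_T _ _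
      have e2 : G.d (x (j + 1) - G.d (k (j + 1 + 1)) - G.T (j + 1 + 1) (k (j + 1)) - b (j + 1)) -
          G.T j (x j - G.d (k (j + 1)) - G.T (j + 1) (k j) - b j) =
          (G.d (x (j + 1)) - G.T j (x j)) - G.d (b (j + 1)) + G.T j (b j) := by
        simp only [map_sub, G.dd, G.d_T, t2, t3]; abel
      rw [e2]
      exact B.add_mem (B.sub_mem (hx.2 j (by omega)) (hB.1 _ (hb _ hj).1)) (hB.T j (hb _ hj.le).1)
    obtain ⟨a, ha, c, hc, h3⟩ := ih (fun i hi => hI i (by omega)) hx'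
    refine ⟨a + k 1, Submodule.add_mem_sup ha (k1 1 (by omega)), c + k 0,
      Submodule.add_mem_sup hc (k1 0 (by omega)), ?_⟩
    have e2 : x 0 - G.d (a + k 1) - G.T 1 (c + k 0) =
        (x 0 - G.d (k (0 + 1)) - G.T (0 + 1) (k 0) - b 0 - G.d a - G.T 1 c) + b 0 := by
      simp only [map_add, zero_add]; abel
    rw [e2]
    exact B.add_mem h3 (hb 0 (Nat.zero_le m)).1

end Pool.Agent.Fu
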