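import Mathlib
import Pool.Agent.P.MP_365c00_gt.ZC0

/-! The basic operators on cubical chains: definitions and defining equations. -/

set_option linter.unusedSectionVars false
set_option linter.unusedVariables false

open Set Topology unitInterval TensorProduct

namespace Pool.Agent.Fu

variable {F : Type} [Field F]

/-- recursion data for the boundary -/
noncomputable def bdA (F : Type) [Field F] : Alg F where
  T X := Ch F X × Ch F X
  acg X := inferInstance
  mod X := inferInstance
  tm f := (map f).prodMap (map f)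
  p x := (pt x, 0)
  u X := (unc ∘ₗ LinearMap.fst F _ _).prod
    ((map (ev X 1) - map (ev X 0)) ∘ₗ LinearMap.fst F _ _ - unc ∘ₗ LinearMap.snd F _ _)
  tm_p f x := by simp
  tm_u f t := by simp [map_unc, map_map, ev_post]
  u_cst X _ t := by
    refine Prod.ext ?_ ?_
    · exact unc_cst t.1
    · simp [map_map, ev_cst, unc_cst]; rfl
  u_flp X _ t := by
    refine Prod.ext ?_ ?_
    · simpa using unc_flp t.1
    · simp [map_unc, map_map, ev_flp, postev_flp, unc_flp]
      abel

/-- recursion data for the sign operator -/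
noncomputable def omA (F : Type) [Field F] : Alg F where
  T X := Ch F X
  acg X := inferInstance
  mod X := inferInstance
  tm f := map f
  p x := pt x
  u X := - unc
  tm_p f x := by simp
  tm_u f t := by simp [map_unc]
  u_cst X _ t := by simp [unc_cst]; rfl
  u_flp X _ t := by simp [unc_flp]

/-- recursion data for the augmentation -/
noncomputable def epsA (F : Type) [Field F] : Alg F where
  T X := F
  acg X := inferInstance
  mod X := inferInstance
  tm f := LinearMap.id
  p x := 1
  u X := 0
  tm_p f x := rfl
  tm_u f t := rfl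
  u_cst X _ t := rfl
  u_flp X _ t := by simp

/-- recursion data for the homogeneous components -/
noncomputable def dgA (F : Type) [Field F] : Alg F where
  T X := ℕ → Ch F X
  acg X := inferInstance
  mod X := inferInstance
  tm f := LinearMap.pi fun k => map f ∘ₗ LinearMap.proj k
  p x k := if k = 0 then pt x else 0
  u X := LinearMap.pi fun k => match k with
    | 0 => 0
    | k + 1 => unc ∘ₗ LinearMap.proj k
  tm_p f x := by
    funext k
    by_cases h : k = 0 <;> simp [h]
  tm_u f t := by
    funext k
    cases k <;> simp [map_unc]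
  u_cst X _ t := by
    funext k
    cases k
    · rfl
    · exact unc_cst _
  u_flp X _ t := by
    funext k
    rcases k with _ | _ | k
    · exact neg_zero.symm
    · show unc 0 = - unc 0
      simp
    · exact unc_flp _

/-- the paths in `A` -/
def hat {X : Type} [TopologicalSpace X] (A : Set X) : Set C(I, X) := {g | ∀ s, g s ∈ A}

theorem flp_hat {X : Type} [TopologicalSpace X] (A : Set X) :
    flp X ⁻¹' hat (hat A) = hat (hat A) := by
  ext g
  exact ⟨fun h s t => h t s, fun h s t => h t s⟩

/-- recursion data for the support projections -/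
noncomputable def prA (F : Type) [Field F] : Alg F where
  T X := Set X → Ch F X
  acg X := inferInstance
  mod X := inferInstance
  tm f := LinearMap.pi fun B => map f ∘ₗ LinearMap.proj (f ⁻¹' B)
  p x A := by classical exact if x ∈ A then pt x else 0
  u X := LinearMap.pi fun A => unc ∘ₗ LinearMap.proj (hat A)
  tm_p f x := by
    funext B
    by_cases h : f x ∈ B <;> simp [h]
  tm_u f t := by
    funext B
    exact map_unc f _
  u_cst X _ t := by
    funext A
    exact unc_cst _
  u_flp X _ t := by
    funext A
    show unc (unc (map (flp X) (t (flp X ⁻¹' hat (hat A))))) = - unc (unc (t (hat (hat A))))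
    rw [flp_hat, unc_flp]

/-- a path in `A` as a path of the subspace -/
def toSub {X : Type} [TopologicalSpace X] (A : Set X) : C(hat A, C(I, A)) :=
  ⟨fun g => ⟨fun s => ⟨g.1 s, g.2 s⟩, g.1.continuous.subtype_mk _⟩,
    ContinuousMap.continuous_of_continuous_uncurry _
      ((continuous_eval.comp ((continuous_subtype_val.comp continuous_fst).prodMk
        continuous_snd)).subtype_mk _)⟩

/-- restriction of a map to a preimage -/
def subMap {X Y : Type} [TopologicalSpace X] [TopologicalSpace Y] (f : C(X, Y)) (B : Set Y) :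
    C(f ⁻¹' B, B) :=
  ⟨fun x => ⟨f x.1, x.2⟩, (f.continuous.comp continuous_subtype_val).subtype_mk _⟩

/-- recursion data for the restriction to a subspace -/
noncomputable def rsA (F : Type) [Field F] : Alg F where
  T X := (A : Set X) → Ch F A
  acg X := inferInstance
  mod X := inferInstance
  tm f := LinearMap.pi fun B => map (subMap f B) ∘ₗ
    LinearMap.proj (φ := fun A : Set _ => Ch F A) (f ⁻¹' B)
  p x A := by classical exact if h : x ∈ A then pt ⟨x, h⟩ else 0
  u X := LinearMap.pi fun A => unc ∘ₗ map (toSub A) ∘ₗ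
    LinearMap.proj (φ := fun A : Set _ => Ch F A) (hat A)
  tm_p f x := by
    funext B
    by_cases h : f x ∈ B
    · simp [h]; rfl
    · simp [h]
  tm_u f t := by
    funext B
    show map (subMap f B) (unc (map (toSub _) (t _))) =
      unc (map (toSub B) (map (subMap (post f) (hat B)) (t _)))
    rw [map_unc, map_map, map_map]
    rfl
  u_cst X _ t := by
    funext A
    show unc (map (toSub A) (map (subMap (cst X) (hat A)) (t _))) = 0
    rw [map_map]
    have : (toSub A).comp (subMap (cst X) (hat A)) = (cst A).comp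
      ⟨fun x => ⟨x.1, x.2 0⟩, continuous_subtype_val.subtype_mk _⟩ := rfl
    rw [this, ← map_map, unc_cst]
  u_flp X _ t := by
    funext A
    show unc (map (toSub A) (unc (map (toSub (hat A)) (map (subMap (flp X) (hat (hat A)))
      (t (flp X ⁻¹' hat (hat A))))))) =
      - unc (map (toSub A) (unc (map (toSub (hat A)) (t (hat (hat A))))))
    have key : ∀ (S : Set C(I, C(I, X))) (h : S = hat (hat A)) (φ : C(S, hat (hat A)))
        (hφ : ∀ g, (φ g).1 = flp X g.1),
        unc (map (toSub A) (unc (map (toSub (hat A)) (map φ (t S))))) =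
          - unc (map (toSub A) (unc (map (toSub (hat A)) (t (hat (hat A)))))) := by
      rintro S rfl φ hφ
      rw [map_unc, map_unc, map_map, map_map, map_map, ← unc_flp, map_map]
      congr 4
      ext g s r
      exact congrArg (fun k : C(I, C(I, X)) => k s r) (hφ g)
    exact key _ (flp_hat A) _ fun g => rfl

/-- a pair of a path and a point as a path in the product -/
def prL (X Y : Type) [TopologicalSpace X] [TopologicalSpace Y] : C(C(I, X) × Y, C(I, X × Y)) :=
  ContinuousMap.curry ⟨fun z : (C(I, X) × Y) × I => (z.1.1 z.2, z.1.2), by fun_prop⟩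

/-- a pair of a point and a path as a path in the product -/
def prR (X Y : Type) [TopologicalSpace X] [TopologicalSpace Y] : C(X × C(I, Y), C(I, X × Y)) :=
  ContinuousMap.curry ⟨fun z : (X × C(I, Y)) × I => (z.1.1, z.1.2 z.2), by fun_prop⟩

/-- recursion data for the cross product -/
noncomputable def crA (F : Type) [Field F] (Y : Type) [TopologicalSpace Y] : Alg F where
  T X := Ch F Y →ₗ[F] Ch F (X × Y)
  acg X := inferInstance
  mod X := inferInstance
  tm f := LinearMap.llcomp F _ _ _ (map (f.prodMap (ContinuousMap.id Y)))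
  p x := map ⟨fun y => (x, y), by fun_prop⟩
  u X := LinearMap.llcomp F _ _ _ (unc ∘ₗ map (prL X Y))
  tm_p f x := by
    ext b
    simp only [LinearMap.llcomp_apply, map_map]
    rfl
  tm_u f t := by
    ext b
    simp only [LinearMap.llcomp_apply, LinearMap.comp_apply, map_map, map_unc]
    rfl
  u_cst X _ t := by
    ext b
    simp only [LinearMap.llcomp_apply, LinearMap.comp_apply, map_map]
    have : (prL X Y).comp ((cst X).prodMap (ContinuousMap.id Y)) = cst (X × Y) := rfl
    rw [this, unc_cst]
    rfl
  u_flp X _ t := by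
    ext b
    simp only [LinearMap.llcomp_apply, LinearMap.comp_apply, map_map, map_unc,
      LinearMap.neg_apply]
    rw [← unc_flp, map_map]
    rfl

section
variable {X Y Z : Type} [TopologicalSpace X] [TopologicalSpace Y] [TopologicalSpace Z]

/-- the boundary -/
noncomputable def bd : Ch F X →ₗ[F] Ch F X := LinearMap.snd F _ _ ∘ₗ (bdA F).lift X
/-- the sign operator: `(-1) ^ k` in degree `k` -/
noncomputable def om : Ch F X →ₗ[F] Ch F X := (omA F).lift X
/-- the augmentation -/
noncomputable def eps : Ch F X →ₗ[F] F := (epsA F).lift X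
/-- the component of degree `k` -/
noncomputable def dg (k : ℕ) : Ch F X →ₗ[F] Ch F X :=
  LinearMap.proj (φ := fun _ : ℕ => Ch F X) k ∘ₗ (dgA F).lift X
/-- the part carried by cubes in `A` -/
noncomputable def prj (A : Set X) : Ch F X →ₗ[F] Ch F X :=
  LinearMap.proj (φ := fun _ : Set X => Ch F X) A ∘ₗ (prA F).lift X
/-- the part carried by cubes in `A`, as a chain of the subspace -/
noncomputable def res (A : Set X) : Ch F X →ₗ[F] Ch F A :=
  LinearMap.proj (φ := fun A : Set X => Ch F A) A ∘ₗ (rsA F).lift X
/-- the cross product -/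
noncomputable def cross : Ch F X →ₗ[F] Ch F Y →ₗ[F] Ch F (X × Y) := (crA F Y).lift X

theorem bdA_fst (c : Ch F X) : ((bdA F).lift X c).1 = c := by
  induction X, c using ind with
  | h0 => rw [map_zero]; rfl
  | hadd X a b ha hb => rw [map_add]; exact congrArg₂ (· + ·) ha hb
  | hsm X r a ha => rw [map_smul]; exact congrArg (r • ·) ha
  | hpt => rw [Alg.lift_pt]; rfl
  | hunc X a ha => rw [Alg.lift_unc]; exact congrArg unc ha

@[simp] theorem bd_pt (x : X) : bd (pt x : Ch F X) = 0 := congrArg Prod.snd ((bdA F).lift_pt x)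
theorem bd_unc (c : Ch F C(I, X)) :
    bd (unc c) = map (ev X 1) c - map (ev X 0) c - unc (bd c) := by
  refine (congrArg Prod.snd ((bdA F).lift_unc c)).trans ?_
  show map (ev X 1) ((bdA F).lift _ c).1 - map (ev X 0) ((bdA F).lift _ c).1 - _ = _
  rw [bdA_fst]
  rfl
theorem bd_map (f : C(X, Y)) (c : Ch F X) : bd (map f c) = map f (bd c) :=
  congrArg Prod.snd ((bdA F).lift_map f c)

@[simp] theorem om_pt (x : X) : om (pt x : Ch F X) = pt x := (omA F).lift_pt x
theorem om_unc (c : Ch F C(I, X)) : om (unc c) = - unc (om c) := (omA F).lift_unc c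
theorem om_map (f : C(X, Y)) (c : Ch F X) : om (map f c) = map f (om c) := (omA F).lift_map f c

@[simp] theorem eps_pt (x : X) : eps (pt x : Ch F X) = 1 := (epsA F).lift_pt x
@[simp] theorem eps_unc (c : Ch F C(I, X)) : eps (unc c) = 0 := (epsA F).lift_unc c
@[simp] theorem eps_map (f : C(X, Y)) (c : Ch F X) : eps (map f c) = eps c :=
  (epsA F).lift_map f c

@[simp] theorem dg_zero_pt (x : X) : dg 0 (pt x : Ch F X) = pt x :=
  congrFun ((dgA F).lift_pt x) 0
@[simp] theorem dg_succ_pt (k : ℕ) (x : X) : dg (k + 1) (pt x : Ch F X) = 0 :=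
  congrFun ((dgA F).lift_pt x) (k + 1)
@[simp] theorem dg_zero_unc (c : Ch F C(I, X)) : dg 0 (unc c) = 0 :=
  congrFun ((dgA F).lift_unc c) 0
theorem dg_succ_unc (k : ℕ) (c : Ch F C(I, X)) : dg (k + 1) (unc c) = unc (dg k c) :=
  congrFun ((dgA F).lift_unc c) (k + 1)
theorem dg_map (k : ℕ) (f : C(X, Y)) (c : Ch F X) : dg k (map f c) = map f (dg k c) :=
  congrFun ((dgA F).lift_map f c) k

theorem prj_pt_mem {A : Set X} {x : X} (h : x ∈ A) : prj A (pt x : Ch F X) = pt x :=
  (congrFun ((prA F).lift_pt x) A).trans (if_pos h)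
theorem prj_pt_not {A : Set X} {x : X} (h : x ∉ A) : prj A (pt x : Ch F X) = 0 :=
  (congrFun ((prA F).lift_pt x) A).trans (if_neg h)
theorem prj_unc (A : Set X) (c : Ch F C(I, X)) : prj A (unc c) = unc (prj (hat A) c) :=
  congrFun ((prA F).lift_unc c) A
theorem prj_map (f : C(X, Y)) (B : Set Y) (c : Ch F X) :
    prj B (map f c) = map f (prj (f ⁻¹' B) c) := congrFun ((prA F).lift_map f c) B

theorem res_pt_mem {A : Set X} {x : X} (h : x ∈ A) : res A (pt x : Ch F X) = pt ⟨x, h⟩ :=
  (congrFun ((rsA F).lift_pt x) A).trans (dif_pos h)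
theorem res_pt_not {A : Set X} {x : X} (h : x ∉ A) : res A (pt x : Ch F X) = 0 :=
  (congrFun ((rsA F).lift_pt x) A).trans (dif_neg h)
theorem res_unc (A : Set X) (c : Ch F C(I, X)) :
    res A (unc c) = unc (map (toSub A) (res (hat A) c)) := congrFun ((rsA F).lift_unc c) A
theorem res_map (f : C(X, Y)) (B : Set Y) (c : Ch F X) :
    res B (map f c) = map (subMap f B) (res (f ⁻¹' B) c) := congrFun ((rsA F).lift_map f c) B

theorem cross_pt (x : X) (b : Ch F Y) :
    cross (pt x : Ch F X) b = map ⟨fun y => (x, y), by fun_prop⟩ b :=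
  LinearMap.congr_fun ((crA F Y).lift_pt x) b
theorem cross_unc (a : Ch F C(I, X)) (b : Ch F Y) :
    cross (unc a) b = unc (map (prL X Y) (cross a b)) :=
  LinearMap.congr_fun ((crA F Y).lift_unc a) b
theorem cross_map_left (f : C(X, Z)) (a : Ch F X) (b : Ch F Y) :
    cross (map f a) b = map (f.prodMap (ContinuousMap.id Y)) (cross a b) :=
  LinearMap.congr_fun ((crA F Y).lift_map f a) b

end

end Pool.Agent.Fu
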