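import Mathlib
import Pool.Agent.P.MP_365c00_gt.ZC1

/-! Supports, degrees, maps that are continuous on a subset only. -/

set_option linter.unusedSectionVars false
set_option linter.unusedVariables false

open Set Topology unitInterval TensorProduct

namespace Pool.Agent.Fu

variable {F : Type} [Field F]

/-- the range of a cube -/
def rg : (n : ℕ) → {X : Type} → [TopologicalSpace X] → Cb n X → Set X
  | 0, X, _, c => @singleton X (Set X) _ c
  | n + 1, X, _, c => ⋃ g ∈ rg n (X := C(I, X)) c, range g

theorem rg_map (n : ℕ) : ∀ {X Y : Type} [TopologicalSpace X] [TopologicalSpace Y] (f : C(X, Y))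
    (c : Cb n X), rg n (cbMap n f c) = f '' rg n c := by
  induction n with
  | zero => intro X Y _ _ f c; exact (image_singleton (f := f) (a := c)).symm
  | succ n ih =>
    intro X Y _ _ f c
    show (⋃ g ∈ rg n (cbMap n (post f) c), range g) = f '' ⋃ g ∈ rg n (X := C(I, X)) c, range g
    rw [ih, biUnion_image, image_iUnion₂]
    exact iUnion₂_congr fun g _ => range_comp f g

section
variable {X Y Z : Type} [TopologicalSpace X] [TopologicalSpace Y] [TopologicalSpace Z]

/-- vanishing formal sums of cubes with a common range -/
def Gd (F : Type) [Field F] (X : Type) [TopologicalSpace X] : Set (Pre F X) :=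
  {a | (∃ S : Set X, ∀ c ∈ a.support, rg c.1 c.2 = S) ∧ mkC F X a = 0}

theorem gd_punc {a : Pre F C(I, X)} (h : a ∈ Gd F C(I, X)) : punc F X a ∈ Gd F X := by
  classical
  obtain ⟨⟨S, hS⟩, h0⟩ := h
  refine ⟨⟨⋃ g ∈ S, range g, fun c hc => ?_⟩, by rw [← unc_mk, h0, map_zero]⟩
  obtain ⟨c', hc', rfl⟩ := Finset.mem_image.1 (Finsupp.mapDomain_support hc)
  rw [← hS c' hc']
  rfl

theorem relN_le (n : ℕ) : ∀ (X : Type) [TopologicalSpace X],
    RelN F n X ≤ Submodule.span F (Gd F X) := by
  classical
  induction n with
  | zero =>
    intro X _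
    refine sup_le ?_ ?_
    · rintro _ ⟨a, rfl⟩
      induction a using Finsupp.induction_linear with
      | zero => simp
      | add a b ha hb => rw [map_add]; exact add_mem ha hb
      | single c r =>
        refine Submodule.subset_span ⟨?_, mkC_rel (n := 0) (Submodule.mem_sup_left ⟨_, rfl⟩)⟩
        rw [LinearMap.comp_apply, pmap_single, punc_single]
        exact ⟨_, fun c' hc' => by rw [Finset.mem_singleton.1 (Finsupp.support_single_subset hc')]⟩
    · rintro _ ⟨a, rfl⟩
      induction a using Finsupp.induction_linear with
      | zero => simp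
      | add a b ha hb => rw [map_add]; exact add_mem ha hb
      | single c r =>
        refine Submodule.subset_span ⟨?_, mkC_rel (n := 0) (Submodule.mem_sup_right ⟨_, rfl⟩)⟩
        simp only [LinearMap.comp_apply, LinearMap.add_apply, LinearMap.id_apply, map_add,
          pmap_single, punc_single]
        refine ⟨rg (c.1 + 1 + 1) (X := X) c.2, fun c' hc' => ?_⟩
        rcases Finset.mem_union.1 (Finsupp.support_add hc') with h | h <;>
          rw [Finset.mem_singleton.1 (Finsupp.support_single_subset h)]
        show (⋃ g ∈ (⋃ k ∈ rg c.1 (cbMap c.1 (flp X) c.2), range k), range g) =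
          ⋃ g ∈ (⋃ k ∈ rg c.1 (X := C(I, C(I, X))) c.2, range k), range g
        rw [rg_map]
        ext x
        simp only [mem_iUnion, mem_range, mem_image, exists_prop]
        constructor
        · rintro ⟨_, ⟨_, ⟨k, hk, rfl⟩, s, rfl⟩, t, rfl⟩
          exact ⟨_, ⟨k, hk, t, rfl⟩, s, rfl⟩
        · rintro ⟨_, ⟨k, hk, s, rfl⟩, t, rfl⟩
          exact ⟨_, ⟨_, ⟨k, hk, rfl⟩, t, rfl⟩, s, rfl⟩
  | succ n ih =>
    rintro X _ _ ⟨a, ha, rfl⟩
    have := ih _ ha
    clear ha
    induction this using Submodule.span_induction with
    | mem a h => exact Submodule.subset_span (gd_punc h)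
    | zero => simp
    | add a b _ _ ha hb => rw [map_add]; exact add_mem ha hb
    | smul r a _ ha => rw [map_smul]; exact Submodule.smul_mem _ r ha

/-- the chain map of a map that is continuous on `A`, on the part carried by `A` -/
noncomputable def pm (A : Set X) (f : X → Y) : Ch F X →ₗ[F] Ch F Y := by
  classical exact if h : ContinuousOn f A then map ⟨A.domRestrict f, h.domRestrict⟩ ∘ₗ res A else 0

/-- the map on chains induced by an arbitrary map; cubes on which it is not continuous go to zero -/
noncomputable def mp (f : X → Y) : Ch F X →ₗ[F] Ch F Y :=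
  liftC (Finsupp.linearCombination F fun c => pm (rg c.1 c.2) f (cube c)) fun n c hc => by
    have := relN_le n X hc
    clear hc
    induction this using Submodule.span_induction with
    | mem a h =>
      obtain ⟨⟨S, hS⟩, h0⟩ := h
      have : Finsupp.linearCombination F (fun c => pm (F := F) (rg c.1 c.2) f (cube c)) a =
          pm S f (mkC F X a) := by
        conv_rhs => rw [← a.sum_single]
        rw [Finsupp.linearCombination_apply, Finsupp.sum, Finsupp.sum, map_sum, map_sum]
        refine Finset.sum_congr rfl fun c hc => ?_
        rw [hS c hc, ← map_smul, cube, ← map_smul, Finsupp.smul_single_one]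
      rw [this, h0, map_zero]
    | zero => simp
    | add a b _ _ ha hb => rw [map_add, ha, hb, add_zero]
    | smul r a _ ha => rw [map_smul, ha, smul_zero]

theorem mp_cube (f : X → Y) (c : Σ n, Cb n X) :
    mp f (cube c : Ch F X) = pm (rg c.1 c.2) f (cube c) := by
  simp only [mp, cube, liftC_mk, Finsupp.linearCombination_single, one_smul]

variable (F) in
/-- chains in `A` -/
noncomputable def CC (A : Set X) : Submodule F (Ch F X) := LinearMap.eqLocus (prj A) LinearMap.id

variable (F X) in
/-- chains of degree `k` -/
noncomputable def HD (k : ℕ) : Submodule F (Ch F X) := LinearMap.eqLocus (dg k) LinearMap.id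

variable (F) in
/-- boundaries of chains in `A` -/
noncomputable def BB (A : Set X) : Submodule F (Ch F X) := (CC F A).map bd

variable (F) in
/-- relative cycles -/
noncomputable def ZZ (A B : Set X) : Submodule F (Ch F X) := CC F A ⊓ (CC F B).comap bd

variable (F) in
/-- relative boundaries -/
noncomputable def NN (A B : Set X) : Submodule F (Ch F X) := BB F A ⊔ CC F B

/-- the inclusion of a subspace -/
def incl (A : Set X) : C(A, X) := ⟨Subtype.val, continuous_subtype_val⟩

end

/-- recursion data for the diagonal approximation -/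
noncomputable def cpA (F : Type) [Field F] : Alg F where
  T X := Ch F X ⊗[F] Ch F X
  acg X := inferInstance
  mod X := inferInstance
  tm f := TensorProduct.map (map f) (map f)
  p x := pt x ⊗ₜ pt x
  u X := TensorProduct.map unc (map (ev X 0)) + TensorProduct.map (om ∘ₗ map (ev X 1)) unc
  tm_p f x := by simp
  tm_u f t := by
    induction t using TensorProduct.induction_on with
    | zero => simp
    | add a b ha hb => simp only [map_add, ha, hb]
    | tmul a b => simp [map_unc, map_map, ev_post, om_map]
  u_cst X _ t := by
    induction t using TensorProduct.induction_on with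
    | zero => simp; rfl
    | add a b ha hb => simp only [map_add, ha, hb]; exact add_zero _
    | tmul a b => simp [unc_cst]; rfl
  u_flp X _ t := by
    induction t using TensorProduct.induction_on with
    | zero => simp
    | add a b ha hb => simp only [map_add, ha, hb, neg_add]
    | tmul a b =>
      have e1 : (ev X 0).comp ((ev C(I, X) 0).comp (flp X)) = (ev X 0).comp (ev C(I, X) 0) := rfl
      have e2 : (ev X 1).comp ((ev C(I, X) 1).comp (flp X)) = (ev X 1).comp (ev C(I, X) 1) := rfl
      simp only [LinearMap.add_apply, TensorProduct.map_tmul, map_add, LinearMap.comp_apply,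
        unc_flp, map_unc, om_unc, om_map, map_map, ev_flp, postev_flp, neg_tmul, tmul_neg]
      have e3 : (ev X 0).comp (post (ev X 0)) = (ev X 0).comp (ev C(I, X) 0) := rfl
      have e4 : (ev X 1).comp (post (ev X 1)) = (ev X 1).comp (ev C(I, X) 1) := rfl
      rw [e3, e4]
      abel

/-- a path in the square, depending on a parameter -/
abbrev Pc : Type := C(I × I, I × I)

/-- the reparametrisation of a pair of paths along a path in the square -/
def opM (a : Pc) (Z : Type) [TopologicalSpace Z] :
    C(C(I, C(I, Z) × C(I, Z)), C(I, C(I, Z × Z))) :=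
  ContinuousMap.curry (ContinuousMap.curry
    ⟨fun w : (C(I, C(I, Z) × C(I, Z)) × I) × I =>
      ((w.1.1 w.2).1 (a (w.2, w.1.2)).1, (w.1.1 w.2).2 (a (w.2, w.1.2)).2), by fun_prop⟩)

/-- recursion data for the operator given by two paths in the square -/
noncomputable def opA (F : Type) [Field F] (a b : Pc) : Alg F where
  T Z := Ch F C(I, Z × Z)
  acg X := inferInstance
  mod X := inferInstance
  tm f := map (post (f.prodMap f))
  p z := pt (cst _ (z, z))
  u Z := unc ∘ₗ (map (opM a Z) + map (opM b Z))
  tm_p f x := by simp; rfl
  tm_u f t := by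
    simp only [LinearMap.comp_apply, LinearMap.add_apply, map_add, map_unc, map_map]
    rfl
  u_cst X _ t := by
    have e : ∀ a : Pc, (opM a X).comp (post ((cst X).prodMap (cst X))) = cst _ := fun a => rfl
    simp only [LinearMap.comp_apply, LinearMap.add_apply, map_add, map_map, e, unc_cst]
    exact add_zero _
  u_flp X _ t := by
    have e : ∀ a b : Pc, (post (opM a X)).comp ((opM b C(I, X)).comp
        (post ((flp X).prodMap (flp X)))) =
        (flp _).comp ((post (opM b X)).comp (opM a C(I, X))) := fun a b => rfl
    simp only [LinearMap.comp_apply, LinearMap.add_apply, map_add, map_unc, map_map, e]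
    simp only [← map_map (flp _), unc_flp]
    abel

/-- the first half of the interval -/
noncomputable def hl : C(I, I) :=
  ⟨fun s => ⟨s / 2, by constructor <;> linarith [s.2.1, s.2.2]⟩, by fun_prop⟩
/-- the second half of the interval -/
noncomputable def hr : C(I, I) :=
  ⟨fun s => ⟨(1 + s) / 2, by constructor <;> linarith [s.2.1, s.2.2]⟩, by fun_prop⟩

/-- reparametrisation of paths -/
def prec (φ : C(I, I)) (X : Type) [TopologicalSpace X] : C(C(I, X), C(I, X)) :=
  ⟨fun g => g.comp φ, ContinuousMap.continuous_precomp φ⟩

/-- recursion data for the subdivision -/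
noncomputable def sdA (F : Type) [Field F] : Alg F where
  T X := Ch F X
  acg X := inferInstance
  mod X := inferInstance
  tm f := map f
  p x := pt x
  u X := unc ∘ₗ (map (prec hl X) + map (prec hr X))
  tm_p f x := by simp
  tm_u f t := by
    simp only [LinearMap.comp_apply, LinearMap.add_apply, map_add, map_unc, map_map]
    rfl
  u_cst X _ t := by
    have e : ∀ a : C(I, I), (prec a X).comp (cst X) = cst _ := fun a => rfl
    simp only [LinearMap.comp_apply, LinearMap.add_apply, map_add, map_map, e, unc_cst]
    exact add_zero _
  u_flp X _ t := by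
    have e : ∀ a b : C(I, I), (post (prec a X)).comp ((prec b C(I, X)).comp (flp X)) =
        (flp _).comp ((post (prec b X)).comp (prec a C(I, X))) := fun a b => rfl
    simp only [LinearMap.comp_apply, LinearMap.add_apply, map_add, map_unc, map_map, e]
    simp only [← map_map (flp _), unc_flp]
    abel

section
variable {X Y Z : Type} [TopologicalSpace X] [TopologicalSpace Y] [TopologicalSpace Z]

/-- the diagonal approximation -/
noncomputable def diagC : Ch F X →ₗ[F] Ch F X ⊗[F] Ch F X := (cpA F).lift X
/-- the splitting of a chain of a product -/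
noncomputable def cop : Ch F (X × Y) →ₗ[F] Ch F X ⊗[F] Ch F Y :=
  TensorProduct.map (map ContinuousMap.fst) (map ContinuousMap.snd) ∘ₗ diagC
/-- the cross product on the tensor product -/
noncomputable def kap : Ch F X ⊗[F] Ch F Y →ₗ[F] Ch F (X × Y) := TensorProduct.lift cross
/-- the boundary on the tensor product -/
noncomputable def tbd : Ch F X ⊗[F] Ch F Y →ₗ[F] Ch F X ⊗[F] Ch F Y :=
  TensorProduct.map bd LinearMap.id + TensorProduct.map om bd
/-- the operator given by two paths in the square -/
noncomputable def opr (a b : Pc) : Ch F X →ₗ[F] Ch F C(I, X × X) := (opA F a b).lift X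
/-- the subdivision -/
noncomputable def sd : Ch F X →ₗ[F] Ch F X := (sdA F).lift X

theorem diagC_pt (x : X) : diagC (pt x : Ch F X) = pt x ⊗ₜ pt x := (cpA F).lift_pt x
theorem diagC_unc (c : Ch F C(I, X)) : diagC (unc c) =
    TensorProduct.map unc (map (ev X 0)) (diagC c) +
      TensorProduct.map (om ∘ₗ map (ev X 1)) unc (diagC c) := (cpA F).lift_unc c
theorem diagC_map (f : C(X, Y)) (c : Ch F X) :
    diagC (map f c) = TensorProduct.map (map f) (map f) (diagC c) := (cpA F).lift_map f c

theorem opr_pt (a b : Pc) (x : X) : opr a b (pt x : Ch F X) = pt (cst _ (x, x)) :=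
  (opA F a b).lift_pt x
theorem opr_unc (a b : Pc) (c : Ch F C(I, X)) : opr a b (unc c) =
    unc (map (opM a X) (opr a b c)) + unc (map (opM b X) (opr a b c)) :=
  ((opA F a b).lift_unc c).trans (map_add unc _ _)
theorem opr_map (a b : Pc) (f : C(X, Y)) (c : Ch F X) :
    opr a b (map f c) = map (post (f.prodMap f)) (opr a b c) := (opA F a b).lift_map f c

@[simp] theorem sd_pt (x : X) : sd (pt x : Ch F X) = pt x := (sdA F).lift_pt x
theorem sd_unc (c : Ch F C(I, X)) :
    sd (unc c) = unc (map (prec hl X) (sd c)) + unc (map (prec hr X) (sd c)) :=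
  ((sdA F).lift_unc c).trans (map_add unc _ _)
theorem sd_map (f : C(X, Y)) (c : Ch F X) : sd (map f c) = map f (sd c) := (sdA F).lift_map f c

/-- the span of the tensors of two submodules -/
noncomputable def TS {P Q : Type} [AddCommGroup P] [Module F P] [AddCommGroup Q] [Module F Q]
    (A : Submodule F P) (B : Submodule F Q) : Submodule F (P ⊗[F] Q) :=
  Submodule.span F {w | ∃ a ∈ A, ∃ b ∈ B, w = a ⊗ₜ b}

end

end Pool.Agent.Fu
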