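import Mathlib
import Pool.Agent.P.MP_365c00_gt.ZC2

/-! Identities between the basic operators. -/

set_option linter.unusedSectionVars false
set_option linter.unusedVariables false

open Set Topology unitInterval TensorProduct

namespace Pool.Agent.Fu

variable {F : Type} [Field F] {X Y Z : Type} [TopologicalSpace X] [TopologicalSpace Y]
  [TopologicalSpace Z]

theorem bd_bd (c : Ch F X) : bd (bd c) = 0 := by
  induction X, c using ind with
  | h0 => simp
  | hadd X a b ha hb => simp [ha, hb]
  | hsm X r a ha => simp [ha]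
  | hpt X x => simp
  | hunc X a ha =>
    rw [bd_unc, map_sub, map_sub, bd_map, bd_map, bd_unc, ha, map_zero]
    abel

theorem om_om (c : Ch F X) : om (om c) = c := by
  induction X, c using ind with
  | h0 => simp
  | hadd X a b ha hb => simp [ha, hb]
  | hsm X r a ha => simp [ha]
  | hpt X x => simp
  | hunc X a ha => rw [om_unc, map_neg, om_unc, ha, neg_neg]

theorem om_bd (c : Ch F X) : om (bd c) = - bd (om c) := by
  induction X, c using ind with
  | h0 => simp
  | hadd X a b ha hb => simp only [map_add, ha, hb]; abel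
  | hsm X r a ha => simp [ha]
  | hpt X x => simp
  | hunc X a ha =>
    rw [bd_unc, map_sub, map_sub, om_map, om_map, om_unc, ha, om_unc, map_neg, map_neg, bd_unc]
    abel

theorem eps_bd (c : Ch F X) : eps (bd c) = 0 := by
  induction X, c using ind with
  | h0 => simp
  | hadd X a b ha hb => simp [ha, hb]
  | hsm X r a ha => simp [ha]
  | hpt X x => simp
  | hunc X a ha => rw [bd_unc]; simp

theorem eps_om (c : Ch F X) : eps (om c) = eps c := by
  induction X, c using ind with
  | h0 => simp
  | hadd X a b ha hb => simp [ha, hb]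
  | hsm X r a ha => simp [ha]
  | hpt X x => simp
  | hunc X a ha => rw [om_unc]; simp

theorem dg_dg (j k : ℕ) (c : Ch F X) : dg j (dg k c) = if j = k then dg k c else 0 := by
  induction X, c using ind generalizing j k with
  | h0 => simp
  | hadd X a b ha hb => rw [map_add, map_add, ha, hb]; split_ifs <;> simp
  | hsm X r a ha => rw [map_smul, map_smul, ha]; split_ifs <;> simp
  | hpt X x => cases j <;> cases k <;> simp
  | hunc X a ha =>
    cases k with
    | zero => simp
    | succ k =>
      cases j with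
      | zero => rw [dg_succ_unc]; simp
      | succ j =>
        rw [dg_succ_unc, dg_succ_unc, ha]
        by_cases h : j = k <;> simp [h]

theorem zc3_bd_dg_zero (c : Ch F X) : bd (dg 0 c) = 0 := by
  induction X, c using ind with
  | h0 => simp
  | hadd X a b ha hb => simp [ha, hb]
  | hsm X r a ha => simp [ha]
  | hpt X x => simp
  | hunc X a ha => simp

theorem dg_bd (k : ℕ) (c : Ch F X) : dg k (bd c) = bd (dg (k + 1) c) := by
  induction X, c using ind generalizing k with
  | h0 => simp
  | hadd X a b ha hb => simp [ha, hb]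
  | hsm X r a ha => simp [ha]
  | hpt X x => simp
  | hunc X a ha =>
    rw [bd_unc, dg_succ_unc, bd_unc, map_sub, map_sub, dg_map, dg_map]
    cases k with
    | zero => rw [dg_zero_unc, zc3_bd_dg_zero, map_zero]
    | succ k => rw [dg_succ_unc, ha]

theorem bd_dg_zero (c : Ch F X) : bd (dg 0 c) = 0 := zc3_bd_dg_zero c

theorem dg_om (k : ℕ) (c : Ch F X) : dg k (om c) = om (dg k c) := by
  induction X, c using ind generalizing k with
  | h0 => simp
  | hadd X a b ha hb => simp [ha, hb]
  | hsm X r a ha => simp [ha]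
  | hpt X x => cases k <;> simp
  | hunc X a ha =>
    rw [om_unc, map_neg]
    cases k with
    | zero => simp
    | succ k => rw [dg_succ_unc, dg_succ_unc, om_unc, ha]

theorem om_dg (k : ℕ) (c : Ch F X) : om (dg k c) = (-1 : F) ^ k • dg k c := by
  induction X, c using ind generalizing k with
  | h0 => simp
  | hadd X a b ha hb => simp [ha, hb]
  | hsm X r a ha => rw [map_smul, map_smul, ha, smul_comm]
  | hpt X x => cases k <;> simp
  | hunc X a ha =>
    cases k with
    | zero => simp
    | succ k => rw [dg_succ_unc, om_unc, ha, map_smul, pow_succ, mul_neg_one, neg_smul]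

theorem eps_dg_zero (c : Ch F X) : eps (dg 0 c) = eps c := by
  induction X, c using ind with
  | h0 => simp
  | hadd X a b ha hb => simp [ha, hb]
  | hsm X r a ha => simp [ha]
  | hpt X x => simp
  | hunc X a ha => simp

theorem eps_dg_succ (k : ℕ) (c : Ch F X) : eps (dg (k + 1) c) = 0 := by
  induction X, c using ind with
  | h0 => simp
  | hadd X a b ha hb => simp [ha, hb]
  | hsm X r a ha => simp [ha]
  | hpt X x => simp
  | hunc X a ha => rw [dg_succ_unc, eps_unc]

theorem exists_sum_dg (c : Ch F X) :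
    ∃ n, ∀ m, n ≤ m → ∑ k ∈ Finset.range m, dg k c = c := by
  induction X, c using ind with
  | h0 => exact ⟨0, fun m _ => by simp⟩
  | hadd X a b ha hb =>
    obtain ⟨n, hn⟩ := ha
    obtain ⟨n', hn'⟩ := hb
    refine ⟨max n n', fun m hm => ?_⟩
    simp only [map_add, Finset.sum_add_distrib]
    rw [hn m (le_trans (le_max_left _ _) hm), hn' m (le_trans (le_max_right _ _) hm)]
  | hsm X r a ha =>
    obtain ⟨n, hn⟩ := ha
    refine ⟨n, fun m hm => ?_⟩
    simp only [map_smul]
    rw [← Finset.smul_sum, hn m hm]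
  | hpt X x =>
    refine ⟨1, fun m hm => ?_⟩
    obtain ⟨m, rfl⟩ : ∃ m', m = m' + 1 := ⟨m - 1, by omega⟩
    rw [Finset.sum_range_succ']
    simp
  | hunc X a ha =>
    obtain ⟨n, hn⟩ := ha
    refine ⟨n + 1, fun m hm => ?_⟩
    obtain ⟨m, rfl⟩ : ∃ m', m = m' + 1 := ⟨m - 1, by omega⟩
    rw [Finset.sum_range_succ', dg_zero_unc, add_zero]
    simp only [dg_succ_unc]
    rw [← map_sum, hn m (by omega)]

theorem dg_sd (k : ℕ) (c : Ch F X) : dg k (sd c) = sd (dg k c) := by
  induction X, c using ind generalizing k with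
  | h0 => simp
  | hadd X a b ha hb => simp [ha, hb]
  | hsm X r a ha => simp [ha]
  | hpt X x => cases k <;> simp
  | hunc X a ha =>
    rw [sd_unc, map_add]
    cases k with
    | zero => simp
    | succ k => rw [dg_succ_unc, dg_succ_unc, dg_succ_unc, sd_unc, dg_map, dg_map, ha]

theorem map_const (y : Y) (c : Ch F X) : map (ContinuousMap.const X y) c = eps c • pt y := by
  refine ind (P := fun X _ c => ∀ (Y : Type) [TopologicalSpace Y] (y : Y),
    map (ContinuousMap.const X y) c = eps c • pt y) ?_ ?_ ?_ ?_ ?_ X c Y y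
  · intro X _ Y _ y; simp
  · intro X _ a b ha hb Y _ y; rw [map_add, map_add, ha, hb, add_smul]
  · intro X _ r a ha Y _ y; rw [map_smul, map_smul, ha, smul_smul, smul_eq_mul]
  · intro X _ x Y _ y; simp
  · intro X _ a ha Y _ y
    have e : post (ContinuousMap.const X y) =
        (cst Y).comp (ContinuousMap.const C(I, X) y) := by
      ext; rfl
    rw [map_unc, e, ← map_map, unc_cst, eps_unc, zero_smul]


theorem mem_HD {k : ℕ} {c : Ch F X} : c ∈ HD F X k ↔ dg k c = c := Iff.rfl
theorem dg_mem_HD (k : ℕ) (c : Ch F X) : dg k c ∈ HD F X k := by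
  rw [mem_HD, dg_dg, if_pos rfl]

theorem dg_of_ne {j k : ℕ} {c : Ch F X} (h : c ∈ HD F X k) (hjk : j ≠ k) : dg j c = 0 := by
  rw [← mem_HD.1 h, dg_dg, if_neg hjk]

theorem pt_mem_HD (x : X) : (pt x : Ch F X) ∈ HD F X 0 := mem_HD.2 (dg_zero_pt x)

theorem unc_mem_HD {k : ℕ} {c : Ch F C(I, X)} (h : c ∈ HD F _ k) : unc c ∈ HD F X (k + 1) := by
  rw [mem_HD, dg_succ_unc, mem_HD.1 h]

theorem map_mem_HD {k : ℕ} (f : C(X, Y)) {c : Ch F X} (h : c ∈ HD F X k) :
    map f c ∈ HD F Y k := by
  rw [mem_HD, dg_map, mem_HD.1 h]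

theorem bd_mem_HD {k : ℕ} {c : Ch F X} (h : c ∈ HD F X (k + 1)) : bd c ∈ HD F X k := by
  rw [mem_HD, dg_bd, mem_HD.1 h]

theorem bd_of_HD_zero {c : Ch F X} (h : c ∈ HD F X 0) : bd c = 0 := by
  rw [← mem_HD.1 h, bd_dg_zero]

theorem om_of_HD {k : ℕ} {c : Ch F X} (h : c ∈ HD F X k) : om c = (-1 : F) ^ k • c := by
  have := om_dg k c
  rwa [mem_HD.1 h] at this

theorem om_of_even {k : ℕ} {c : Ch F X} (h : c ∈ HD F X k) (hk : Even k) : om c = c := by
  rw [om_of_HD h, hk.neg_one_pow, one_smul]

theorem sd_mem_HD {k : ℕ} {c : Ch F X} (h : c ∈ HD F X k) : sd c ∈ HD F X k := by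
  rw [mem_HD, dg_sd, mem_HD.1 h]

theorem zc3_cube (n : ℕ) : ∀ (X : Type) [TopologicalSpace X] (c : Cb n X),
    (cube ⟨n, c⟩ : Ch F X) ∈ HD F X n := by
  induction n with
  | zero => intro X _ c; exact pt_mem_HD (X := X) c
  | succ n ih =>
    intro X _ c
    rw [cube_succ n (X := X) c]
    exact unc_mem_HD (ih C(I, X) c)

theorem cube_mem_HD (c : Σ n, Cb n X) : (cube c : Ch F X) ∈ HD F X c.1 := zc3_cube c.1 X c.2

/-- a submodule that contains all homogeneous components of a chain contains the chain -/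
theorem mem_of_dg {P : Type} [AddCommGroup P] [Module F P] (L : Ch F X →ₗ[F] P)
    (S : Submodule F P) {c : Ch F X} (h : ∀ k, L (dg k c) ∈ S) : L c ∈ S := by
  obtain ⟨n, hn⟩ := exists_sum_dg c
  rw [← hn n le_rfl, map_sum]
  exact S.sum_mem fun k _ => h k

end Pool.Agent.Fu
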