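import Mathlib
import Pool.Agent.P.MP_365c00_gt.ZC3

/-! Supports of chains. -/

set_option linter.unusedSectionVars false
set_option linter.unusedVariables false

open Set Topology unitInterval TensorProduct

namespace Pool.Agent.Fu

variable {F : Type} [Field F] {X Y Z : Type} [TopologicalSpace X] [TopologicalSpace Y]
  [TopologicalSpace Z]

theorem zc4_hat_inter (A B : Set X) : hat (A ∩ B) = hat A ∩ hat B := by
  ext g
  exact ⟨fun h => ⟨fun s => (h s).1, fun s => (h s).2⟩, fun h s => ⟨h.1 s, h.2 s⟩⟩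

theorem zc4_hat_univ : hat (univ : Set X) = univ := by
  ext g
  exact ⟨fun _ => trivial, fun _ _ => trivial⟩

theorem zc4_hat_empty : hat (∅ : Set X) = ∅ := by
  ext g
  exact ⟨fun h => h 0, fun h => h.elim⟩

theorem mem_CC {A : Set X} {c : Ch F X} : c ∈ CC F A ↔ prj A c = c := Iff.rfl

theorem prj_prj (A B : Set X) (c : Ch F X) : prj A (prj B c) = prj (A ∩ B) c := by
  refine ind (F := F) (P := fun X _ c => ∀ A B : Set X, prj A (prj B c) = prj (A ∩ B) c)
    ?_ ?_ ?_ ?_ ?_ X c A B
  · intro X _ A B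
    simp only [map_zero]
  · intro X _ a b ha hb A B
    simp only [map_add, ha, hb]
  · intro X _ r a ha A B
    simp only [map_smul, ha]
  · intro X _ x A B
    by_cases hB : x ∈ B
    · rw [prj_pt_mem hB]
      by_cases hA : x ∈ A
      · rw [prj_pt_mem hA, prj_pt_mem (A := A ∩ B) ⟨hA, hB⟩]
      · rw [prj_pt_not hA, prj_pt_not (A := A ∩ B) fun h => hA h.1]
    · rw [prj_pt_not hB, map_zero, prj_pt_not (A := A ∩ B) fun h => hB h.2]
  · intro X _ a ha A B
    rw [prj_unc, prj_unc, prj_unc, ha, zc4_hat_inter]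

theorem prj_univ (c : Ch F X) : prj univ c = c := by
  refine ind (F := F) (P := fun X _ c => prj univ c = c) ?_ ?_ ?_ ?_ ?_ X c
  · intro X _
    exact map_zero _
  · intro X _ a b ha hb
    rw [map_add, ha, hb]
  · intro X _ r a ha
    rw [map_smul, ha]
  · intro X _ x
    exact prj_pt_mem (mem_univ x)
  · intro X _ a ha
    rw [prj_unc, zc4_hat_univ, ha]

theorem prj_empty (c : Ch F X) : prj ∅ c = 0 := by
  refine ind (F := F) (P := fun X _ c => prj ∅ c = 0) ?_ ?_ ?_ ?_ ?_ X c
  · intro X _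
    exact map_zero _
  · intro X _ a b ha hb
    rw [map_add, ha, hb, add_zero]
  · intro X _ r a ha
    rw [map_smul, ha, smul_zero]
  · intro X _ x
    exact prj_pt_not (notMem_empty x)
  · intro X _ a ha
    rw [prj_unc, zc4_hat_empty, ha, map_zero]

theorem prj_mem_CC (A : Set X) (c : Ch F X) : prj A c ∈ CC F A := by
  rw [mem_CC, prj_prj, inter_self]

theorem CC_mono {A B : Set X} (h : A ⊆ B) : CC F A ≤ CC F B := by
  intro c hc
  rw [mem_CC] at hc ⊢
  rw [← hc, prj_prj, inter_eq_self_of_subset_right h]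

theorem CC_inter (A B : Set X) : CC F (A ∩ B) = CC F A ⊓ CC F B := by
  refine le_antisymm (le_inf (CC_mono inter_subset_left) (CC_mono inter_subset_right)) ?_
  intro c hc
  have h1 : prj A c = c := hc.1
  have h2 : prj B c = c := hc.2
  rw [mem_CC, ← prj_prj, h2, h1]

theorem CC_univ : CC F (univ : Set X) = ⊤ :=
  eq_top_iff.2 fun c _ => mem_CC.2 (prj_univ c)

theorem CC_empty : CC F (∅ : Set X) = ⊥ :=
  eq_bot_iff.2 fun c hc => by
    have h : prj ∅ c = c := hc
    rw [prj_empty] at h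
    rw [← h]
    exact Submodule.zero_mem _

theorem mem_CC_univ (c : Ch F X) : c ∈ CC F univ := mem_CC.2 (prj_univ c)

theorem prj_mem_inter (A : Set X) {B : Set X} {c : Ch F X} (h : c ∈ CC F B) :
    prj A c ∈ CC F (A ∩ B) := by
  have h' : prj B c = c := h
  rw [← h', prj_prj]
  exact prj_mem_CC _ _

theorem prj_dg (A : Set X) (k : ℕ) (c : Ch F X) : prj A (dg k c) = dg k (prj A c) := by
  refine ind (F := F) (P := fun X _ c => ∀ (A : Set X) (k : ℕ), prj A (dg k c) = dg k (prj A c))
    ?_ ?_ ?_ ?_ ?_ X c A k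
  · intro X _ A k
    simp only [map_zero]
  · intro X _ a b ha hb A k
    simp only [map_add, ha, hb]
  · intro X _ r a ha A k
    simp only [map_smul, ha]
  · intro X _ x A k
    by_cases hA : x ∈ A
    · rw [prj_pt_mem hA]
      cases k with
      | zero => rw [dg_zero_pt, prj_pt_mem hA]
      | succ k => rw [dg_succ_pt, map_zero]
    · rw [prj_pt_not hA, map_zero]
      cases k with
      | zero => rw [dg_zero_pt, prj_pt_not hA]
      | succ k => rw [dg_succ_pt, map_zero]
  · intro X _ a ha A k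
    rw [prj_unc]
    cases k with
    | zero => rw [dg_zero_unc, dg_zero_unc, map_zero]
    | succ k => rw [dg_succ_unc, dg_succ_unc, prj_unc, ha]

theorem prj_om (A : Set X) (c : Ch F X) : prj A (om c) = om (prj A c) := by
  refine ind (F := F) (P := fun X _ c => ∀ A : Set X, prj A (om c) = om (prj A c))
    ?_ ?_ ?_ ?_ ?_ X c A
  · intro X _ A
    simp only [map_zero]
  · intro X _ a b ha hb A
    simp only [map_add, ha, hb]
  · intro X _ r a ha A
    simp only [map_smul, ha]
  · intro X _ x A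
    rw [om_pt]
    by_cases hA : x ∈ A
    · rw [prj_pt_mem hA, om_pt]
    · rw [prj_pt_not hA, map_zero]
  · intro X _ a ha A
    rw [om_unc, map_neg, prj_unc, prj_unc, om_unc, ha]

theorem zc4_rg_succ (n : ℕ) (A : Set X) (c : Cb n C(I, X)) :
    rg (n + 1) (X := X) c ⊆ A ↔ rg n c ⊆ hat A := by
  show (⋃ g ∈ rg n (X := C(I, X)) c, range g) ⊆ A ↔ _
  constructor
  · intro h g hg s
    exact h (mem_iUnion₂.2 ⟨g, hg, s, rfl⟩)
  · intro h x hx
    obtain ⟨g, hg, s, rfl⟩ := mem_iUnion₂.1 hx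
    exact h hg s

theorem zc4_prj_cube_pos (n : ℕ) : ∀ (X : Type) [TopologicalSpace X] (A : Set X) (c : Cb n X),
    rg n c ⊆ A → prj A (cube ⟨n, c⟩ : Ch F X) = cube ⟨n, c⟩ := by
  induction n with
  | zero =>
    intro X _ A c h
    exact prj_pt_mem (X := X) (A := A) (x := c) (h rfl)
  | succ n ih =>
    intro X _ A c h
    rw [cube_succ n c, prj_unc, ih _ _ c ((zc4_rg_succ n A c).1 h)]

theorem zc4_prj_cube_neg (n : ℕ) : ∀ (X : Type) [TopologicalSpace X] (A : Set X) (c : Cb n X),
    ¬ rg n c ⊆ A → prj A (cube ⟨n, c⟩ : Ch F X) = 0 := by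
  induction n with
  | zero =>
    intro X _ A c h
    refine prj_pt_not (X := X) (A := A) (x := c) fun hc => h ?_
    intro y hy
    have e : y = c := hy
    rw [e]
    exact hc
  | succ n ih =>
    intro X _ A c h
    rw [cube_succ n c, prj_unc, ih _ _ c fun h' => h ((zc4_rg_succ n A c).2 h'), map_zero]

open Classical in
theorem prj_cube (A : Set X) (c : Σ n, Cb n X) :
    prj A (cube c : Ch F X) = if rg c.1 c.2 ⊆ A then cube c else 0 := by
  by_cases h : rg c.1 c.2 ⊆ A
  · rw [if_pos h]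
    exact zc4_prj_cube_pos c.1 X A c.2 h
  · rw [if_neg h]
    exact zc4_prj_cube_neg c.1 X A c.2 h

theorem pt_mem_CC {A : Set X} {x : X} (h : x ∈ A) : (pt x : Ch F X) ∈ CC F A :=
  mem_CC.2 (prj_pt_mem h)

theorem unc_mem_CC {A : Set X} {c : Ch F C(I, X)} (h : c ∈ CC F (hat A)) : unc c ∈ CC F A := by
  have h' : prj (hat A) c = c := h
  rw [mem_CC, prj_unc, h']

theorem map_mem_CC {f : C(X, Y)} {A : Set X} {B : Set Y} (hf : MapsTo f A B) {c : Ch F X}
    (h : c ∈ CC F A) : map f c ∈ CC F B := by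
  have h' : prj (f ⁻¹' B) c = c := CC_mono (F := F) (A := A) (B := f ⁻¹' B) hf h
  rw [mem_CC, prj_map, h']

/-- induction on chains with support -/
theorem CC_ind {P : (X : Type) → [TopologicalSpace X] → Set X → Ch F X → Prop}
    (h0 : ∀ (X : Type) [TopologicalSpace X] A, P X A 0)
    (hadd : ∀ (X : Type) [TopologicalSpace X] A a b, P X A a → P X A b → P X A (a + b))
    (hsm : ∀ (X : Type) [TopologicalSpace X] A (r : F) a, P X A a → P X A (r • a))
    (hpt : ∀ (X : Type) [TopologicalSpace X] A x, x ∈ A → P X A (pt x))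
    (hunc : ∀ (X : Type) [TopologicalSpace X] A a, a ∈ CC F (hat A) → P C(I, X) (hat A) a →
      P X A (unc a))
    (X : Type) [TopologicalSpace X] (A : Set X) (c : Ch F X) (hc : c ∈ CC F A) : P X A c := by
  have key : ∀ A : Set X, P X A (prj A c) := by
    refine ind (F := F) (P := fun X _ c => ∀ A : Set X, P X A (prj A c)) ?_ ?_ ?_ ?_ ?_ X c
    · intro X _ A
      rw [map_zero]
      exact h0 X A
    · intro X _ a b ha hb A
      rw [map_add]
      exact hadd X A _ _ (ha A) (hb A)
    · intro X _ r a ha A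
      rw [map_smul]
      exact hsm X A r _ (ha A)
    · intro X _ x A
      by_cases hA : x ∈ A
      · rw [prj_pt_mem hA]
        exact hpt X A x hA
      · rw [prj_pt_not hA]
        exact h0 X A
    · intro X _ a ha A
      rw [prj_unc]
      exact hunc X A _ (prj_mem_CC _ _) (ha _)
  have h' : prj A c = c := hc
  rw [← h']
  exact key A

/-- chains in `A` are spanned by cubes in `A` -/
theorem CC_span {A : Set X} {P : Ch F X → Prop} (h0 : P 0)
    (hadd : ∀ a b, P a → P b → P (a + b)) (hsm : ∀ (r : F) a, P a → P (r • a))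
    (hc : ∀ c : Σ n, Cb n X, rg c.1 c.2 ⊆ A → P (cube c)) {c : Ch F X} (h : c ∈ CC F A) : P c := by
  have key : P (prj A c) := by
    refine span_ind (F := F) (P := fun c => P (prj A c)) ?_ ?_ ?_ ?_ c
    · rw [map_zero]
      exact h0
    · intro a b ha hb
      rw [map_add]
      exact hadd _ _ ha hb
    · intro r a ha
      rw [map_smul]
      exact hsm r _ ha
    · intro d
      by_cases hd : rg d.1 d.2 ⊆ A
      · have e : prj A (cube d : Ch F X) = cube d := zc4_prj_cube_pos d.1 X A d.2 hd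
        rw [e]
        exact hc d hd
      · have e : prj A (cube d : Ch F X) = 0 := zc4_prj_cube_neg d.1 X A d.2 hd
        rw [e]
        exact h0
  have h' : prj A c = c := h
  rw [← h']
  exact key

theorem cube_mem_CC (c : Σ n, Cb n X) : (cube c : Ch F X) ∈ CC F (rg c.1 c.2) :=
  mem_CC.2 (zc4_prj_cube_pos c.1 X _ c.2 subset_rfl)

theorem map_incl_res (A : Set X) (c : Ch F X) : map (incl A) (res A c) = prj A c := by
  refine ind (F := F) (P := fun X _ c => ∀ A : Set X, map (incl A) (res A c) = prj A c)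
    ?_ ?_ ?_ ?_ ?_ X c A
  · intro X _ A
    simp only [map_zero]
  · intro X _ a b ha hb A
    simp only [map_add, ha, hb]
  · intro X _ r a ha A
    simp only [map_smul, ha]
  · intro X _ x A
    by_cases hA : x ∈ A
    · rw [res_pt_mem hA, prj_pt_mem hA, map_pt]
      rfl
    · rw [res_pt_not hA, prj_pt_not hA, map_zero]
  · intro X _ a ha A
    have e : (post (incl A)).comp (toSub A) = incl (hat A) := rfl
    rw [res_unc, prj_unc, map_unc, map_map, e, ha]

theorem res_map_incl (A : Set X) (c : Ch F A) : res A (map (incl A) c) = c := by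
  have e : subMap (incl A) A = incl (incl A ⁻¹' A) := rfl
  have e2 : (incl A ⁻¹' A : Set A) = univ := eq_univ_of_forall fun x => x.2
  rw [res_map, e, map_incl_res, e2, prj_univ]

theorem mem_CC_iff {A : Set X} {c : Ch F X} : c ∈ CC F A ↔ ∃ b : Ch F A, map (incl A) b = c := by
  constructor
  · intro h
    exact ⟨res A c, (map_incl_res A c).trans h⟩
  · rintro ⟨b, rfl⟩
    exact map_mem_CC (A := univ) (fun x _ => x.2) (mem_CC_univ b)

theorem bd_mem_CC {A : Set X} {c : Ch F X} (h : c ∈ CC F A) : bd c ∈ CC F A := by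
  obtain ⟨b, rfl⟩ := mem_CC_iff.1 h
  exact mem_CC_iff.2 ⟨bd b, (bd_map _ b).symm⟩

theorem om_mem_CC {A : Set X} {c : Ch F X} (h : c ∈ CC F A) : om c ∈ CC F A := by
  obtain ⟨b, rfl⟩ := mem_CC_iff.1 h
  exact mem_CC_iff.2 ⟨om b, (om_map _ b).symm⟩

theorem dg_mem_CC {A : Set X} (k : ℕ) {c : Ch F X} (h : c ∈ CC F A) : dg k c ∈ CC F A := by
  obtain ⟨b, rfl⟩ := mem_CC_iff.1 h
  exact mem_CC_iff.2 ⟨dg k b, (dg_map k _ b).symm⟩

theorem sd_mem_CC {A : Set X} {c : Ch F X} (h : c ∈ CC F A) : sd c ∈ CC F A := by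
  obtain ⟨b, rfl⟩ := mem_CC_iff.1 h
  exact mem_CC_iff.2 ⟨sd b, (sd_map _ b).symm⟩

theorem CC_inf_sup (A B B' : Set X) :
    CC F A ⊓ (CC F B ⊔ CC F B') = CC F (A ∩ B) ⊔ CC F (A ∩ B') := by
  refine le_antisymm ?_ ?_
  · intro c hc
    have h1 : prj A c = c := hc.1
    obtain ⟨a, ha, b, hb, rfl⟩ := Submodule.mem_sup.1 hc.2
    rw [← h1, map_add]
    exact Submodule.add_mem_sup (prj_mem_inter A ha) (prj_mem_inter A hb)
  · refine sup_le (le_inf (CC_mono inter_subset_left) ?_) (le_inf (CC_mono inter_subset_left) ?_)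
    · exact (CC_mono inter_subset_right).trans le_sup_left
    · exact (CC_mono inter_subset_right).trans le_sup_right

theorem prj_mem_iSup {ι : Type} (A : Set X) (U : ι → Set X) {c : Ch F X}
    (h : c ∈ ⨆ i, CC F (U i)) : prj A c ∈ ⨆ i, CC F (A ∩ U i) := by
  have key : (⨆ i, CC F (U i)) ≤ (⨆ i, CC F (A ∩ U i)).comap (prj A) :=
    iSup_le fun i d hd => Submodule.mem_iSup_of_mem i (prj_mem_inter A hd)
  exact key h

end Pool.Agent.Fu
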