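import Mathlib
import Pool.Agent.P.MP_365c00_gt.ZC4

/-! Compact supports, disjoint open sets, relative cycles and boundaries. -/

set_option linter.unusedSectionVars false
set_option linter.unusedVariables false

open Set Topology unitInterval TensorProduct

namespace Pool.Agent.Fu

variable {F : Type} [Field F] {X Y Z : Type} [TopologicalSpace X] [TopologicalSpace Y]
  [TopologicalSpace Z]

theorem zc5_rg (n : ℕ) : ∀ (X : Type) [TopologicalSpace X] (c : Cb n X),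
    IsCompact (rg n c) ∧ (rg n c).Nonempty ∧ IsPreconnected (rg n c) := by
  induction n with
  | zero =>
    intro X _ c
    exact ⟨isCompact_singleton (X := X) (x := c), singleton_nonempty (α := X) c,
      isPreconnected_singleton (α := X) (x := c)⟩
  | succ n ih =>
    intro X _ c
    obtain ⟨h1, h2, h3⟩ := ih C(I, X) c
    have e : rg (n + 1) c =
        (fun p : C(I, X) × I => p.1 p.2) '' (rg n (X := C(I, X)) c ×ˢ (univ : Set I)) := by
      show (⋃ g ∈ rg n (X := C(I, X)) c, range g) = _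
      ext x
      simp only [mem_iUnion, mem_range, mem_image, mem_prod, mem_univ, and_true, exists_prop,
        Prod.exists]
      constructor
      · rintro ⟨g, hg, s, rfl⟩
        exact ⟨g, s, hg, rfl⟩
      · rintro ⟨g, s, hg, rfl⟩
        exact ⟨g, hg, s, rfl⟩
    have hc : Continuous fun p : C(I, X) × I => p.1 p.2 := continuous_eval
    rw [e]
    exact ⟨(h1.prod isCompact_univ).image hc, (h2.prod univ_nonempty).image _,
      (h3.prod isPreconnected_univ).image _ hc.continuousOn⟩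

theorem zc5_cube_in {A : Set X} {c : Σ n, Cb n X} (h : rg c.1 c.2 ⊆ A) :
    prj A (cube c : Ch F X) = cube c := by
  rw [prj_cube, if_pos h]

theorem zc5_cube_out {A B : Set X} (hd : Disjoint A B) {c : Σ n, Cb n X} (h : rg c.1 c.2 ⊆ A) :
    prj B (cube c : Ch F X) = 0 := by
  rw [prj_cube, if_neg]
  intro h'
  obtain ⟨x, hx⟩ := (zc5_rg c.1 X c.2).2.1
  exact Set.disjoint_left.1 hd (h hx) (h' hx)

theorem zc5_rest {ι : Type} {U : ι → Set X} (hU : ∀ i, IsOpen (U i))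
    (hd : Pairwise (Function.onFun Disjoint U)) (i : ι) :
    ∃ V, IsOpen V ∧ Disjoint (U i) V ∧ ⋃ j, U j ⊆ U i ∪ V := by
  refine ⟨⋃ j ∈ {j | j ≠ i}, U j, isOpen_biUnion fun j _ => hU j, ?_, ?_⟩
  · rw [disjoint_iUnion₂_right]
    exact fun j hj => hd (Ne.symm hj)
  · refine iUnion_subset fun j => ?_
    by_cases hj : j = i
    · rw [hj]
      exact subset_union_left
    · exact (subset_biUnion_of_mem (u := U) (show j ∈ {j | j ≠ i} from hj)).trans
        subset_union_right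

theorem exists_compact {A : Set X} {c : Ch F X} (h : c ∈ CC F A) :
    ∃ K, IsCompact K ∧ K ⊆ A ∧ c ∈ CC F K := by
  refine CC_span (P := fun c => ∃ K, IsCompact K ∧ K ⊆ A ∧ c ∈ CC F K)
    ⟨∅, isCompact_empty, empty_subset _, zero_mem _⟩ ?_ ?_ ?_ h
  · rintro a b ⟨K, h1, h2, h3⟩ ⟨L, h4, h5, h6⟩
    exact ⟨K ∪ L, h1.union h4, union_subset h2 h5,
      add_mem (CC_mono subset_union_left h3) (CC_mono subset_union_right h6)⟩
  · rintro r a ⟨K, h1, h2, h3⟩
    exact ⟨K, h1, h2, Submodule.smul_mem _ r h3⟩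
  · intro c hc
    exact ⟨_, (zc5_rg c.1 X c.2).1, hc, cube_mem_CC c⟩

/-- a chain on which a continuous function is below `t` stays below a smaller level -/
theorem exists_level {A : Set X} {f : X → ℝ} (hf : ContinuousOn f A) {t : ℝ} {c : Ch F X}
    (h : c ∈ CC F {x | x ∈ A ∧ f x < t}) : ∃ s < t, c ∈ CC F {x | x ∈ A ∧ f x < s} := by
  obtain ⟨K, h1, h2, h3⟩ := exists_compact h
  rcases K.eq_empty_or_nonempty with rfl | hK
  · exact ⟨t - 1, by linarith, CC_mono (empty_subset _) h3⟩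
  · obtain ⟨x₀, hx₀, hm⟩ := h1.exists_isMaxOn hK (hf.mono fun x hx => (h2 hx).1)
    have h4 : f x₀ < t := (h2 hx₀).2
    refine ⟨(f x₀ + t) / 2, by linarith, CC_mono (fun x hx => ?_) h3⟩
    have h5 : f x ≤ f x₀ := hm hx
    exact ⟨(h2 hx).1, by linarith⟩

theorem exists_level_top {A : Set X} {f : X → ℝ} (hf : ContinuousOn f A) {c : Ch F X}
    (h : c ∈ CC F A) : ∃ s, c ∈ CC F {x | x ∈ A ∧ f x < s} := by
  obtain ⟨K, h1, h2, h3⟩ := exists_compact h
  obtain ⟨M, hM⟩ := h1.bddAbove_image (hf.mono h2)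
  refine ⟨M + 1, CC_mono (fun x hx => ?_) h3⟩
  have h5 : f x ≤ M := hM (mem_image_of_mem f hx)
  exact ⟨h2 hx, by linarith⟩

theorem prj_disj {U V : Set X} (hU : IsOpen U) (hV : IsOpen V) (hd : Disjoint U V) {c : Ch F X}
    (h : c ∈ CC F (U ∪ V)) : prj U c + prj V c = c := by
  refine CC_span (P := fun c => prj U c + prj V c = c) (by simp) ?_ ?_ ?_ h
  · intro a b ha hb
    rw [map_add, map_add, add_add_add_comm, ha, hb]
  · intro r a ha
    rw [map_smul, map_smul, ← smul_add, ha]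
  · intro c hc
    rcases (zc5_rg c.1 X c.2).2.2.subset_or_subset hU hV hd hc with h1 | h1
    · rw [zc5_cube_in h1, zc5_cube_out hd h1, add_zero]
    · rw [zc5_cube_in h1, zc5_cube_out hd.symm h1, zero_add]

theorem bd_prj_disj {U V : Set X} (hU : IsOpen U) (hV : IsOpen V) (hd : Disjoint U V)
    {c : Ch F X} (h : c ∈ CC F (U ∪ V)) : bd (prj U c) = prj U (bd c) := by
  have h1 : prj U (bd (prj U c)) = bd (prj U c) := bd_mem_CC (prj_mem_CC U c)
  have h2 : prj U (bd (prj V c)) = 0 := by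
    have h3 := prj_mem_inter U (bd_mem_CC (prj_mem_CC V c))
    rwa [Set.disjoint_iff_inter_eq_empty.1 hd, CC_empty, Submodule.mem_bot] at h3
  calc bd (prj U c) = prj U (bd (prj U c + prj V c)) := by rw [map_add, map_add, h1, h2, add_zero]
    _ = prj U (bd c) := by rw [prj_disj hU hV hd h]

theorem sum_prj_disj {ι : Type} [Fintype ι] {U : ι → Set X} (hU : ∀ i, IsOpen (U i))
    (hd : Pairwise (Function.onFun Disjoint U)) {c : Ch F X} (h : c ∈ CC F (⋃ i, U i)) :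
    ∑ i, prj (U i) c = c ∧ ∀ i, bd (prj (U i) c) = prj (U i) (bd c) := by
  refine ⟨?_, fun i => ?_⟩
  · refine CC_span (P := fun c => ∑ i, prj (U i) c = c) (by simp) ?_ ?_ ?_ h
    · intro a b ha hb
      simp only [map_add, Finset.sum_add_distrib, ha, hb]
    · intro r a ha
      simp only [map_smul, ← Finset.smul_sum, ha]
    · intro c hc
      obtain ⟨x, hx⟩ := (zc5_rg c.1 X c.2).2.1
      obtain ⟨i, hi⟩ := mem_iUnion.1 (hc hx)
      obtain ⟨V, hV, hdV, hs⟩ := zc5_rest hU hd i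
      have h1 : rg c.1 c.2 ⊆ U i :=
        ((zc5_rg c.1 X c.2).2.2.subset_or_subset (hU i) hV hdV (hc.trans hs)).resolve_right
          fun h2 => Set.disjoint_left.1 hdV hi (h2 hx)
      rw [Finset.sum_eq_single i, zc5_cube_in h1]
      · exact fun j _ hj => zc5_cube_out (hd (Ne.symm hj)) h1
      · exact fun hi => absurd (Finset.mem_univ i) hi
  · obtain ⟨V, hV, hdV, hs⟩ := zc5_rest hU hd i
    exact bd_prj_disj (hU i) hV hdV (CC_mono hs h)

theorem mem_ZZ {A B : Set X} {c : Ch F X} : c ∈ ZZ F A B ↔ c ∈ CC F A ∧ bd c ∈ CC F B := Iff.rfl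
theorem mem_BB {A : Set X} {c : Ch F X} : c ∈ BB F A ↔ ∃ h ∈ CC F A, bd h = c := Iff.rfl
theorem mem_NN {A B : Set X} {c : Ch F X} :
    c ∈ NN F A B ↔ ∃ h ∈ CC F A, c - bd h ∈ CC F B := by
  constructor
  · intro hc
    obtain ⟨y, ⟨h, hh, rfl⟩, z, hz, rfl⟩ := Submodule.mem_sup.1 hc
    exact ⟨h, hh, by rwa [add_sub_cancel_left]⟩
  · rintro ⟨h, hh, hz⟩
    exact Submodule.mem_sup.2 ⟨bd h, ⟨h, hh, rfl⟩, _, hz, add_sub_cancel _ _⟩
theorem BB_mono {A A' : Set X} (h : A ⊆ A') : BB F A ≤ BB F A' := Submodule.map_mono (CC_mono h)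
theorem ZZ_mono {A A' B B' : Set X} (h : A ⊆ A') (h' : B ⊆ B') : ZZ F A B ≤ ZZ F A' B' := fun _ hc =>
  ⟨CC_mono h hc.1, CC_mono h' hc.2⟩
theorem NN_mono {A A' B B' : Set X} (h : A ⊆ A') (h' : B ⊆ B') : NN F A B ≤ NN F A' B' :=
  sup_le_sup (BB_mono h) (CC_mono h')
theorem NN_empty (A : Set X) : NN F A ∅ = BB F A := by
  rw [NN, CC_empty, sup_bot_eq]
theorem mem_ZZ_empty {A : Set X} {c : Ch F X} : c ∈ ZZ F A ∅ ↔ c ∈ CC F A ∧ bd c = 0 := by
  rw [mem_ZZ, CC_empty, Submodule.mem_bot]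
theorem BB_le_NN (A B : Set X) : BB F A ≤ NN F A B := le_sup_left
theorem CC_le_NN (A B : Set X) : CC F B ≤ NN F A B := le_sup_right
theorem NN_le_ZZ {A B : Set X} (h : B ⊆ A) : NN F A B ≤ ZZ F A B := by
  refine sup_le ?_ fun c hc => ⟨CC_mono h hc, bd_mem_CC hc⟩
  rintro _ ⟨y, hy, rfl⟩
  refine mem_ZZ.2 ⟨bd_mem_CC hy, ?_⟩
  rw [bd_bd]
  exact zero_mem _
theorem dg_mem_BB {A : Set X} (k : ℕ) {c : Ch F X} (h : c ∈ BB F A) : dg k c ∈ BB F A := by
  obtain ⟨y, hy, rfl⟩ := h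
  exact ⟨dg (k + 1) y, dg_mem_CC _ hy, (dg_bd k y).symm⟩
theorem dg_mem_ZZ {A B : Set X} (k : ℕ) {c : Ch F X} (h : c ∈ ZZ F A B) : dg k c ∈ ZZ F A B := by
  refine mem_ZZ.2 ⟨dg_mem_CC k h.1, ?_⟩
  cases k with
  | zero =>
    rw [bd_dg_zero]
    exact zero_mem _
  | succ k =>
    rw [← dg_bd]
    exact dg_mem_CC k (mem_ZZ.1 h).2
theorem dg_mem_NN {A B : Set X} (k : ℕ) {c : Ch F X} (h : c ∈ NN F A B) : dg k c ∈ NN F A B := by
  obtain ⟨y, hy, hz⟩ := mem_NN.1 h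
  refine mem_NN.2 ⟨dg (k + 1) y, dg_mem_CC _ hy, ?_⟩
  rw [← dg_bd, ← map_sub]
  exact dg_mem_CC k hz
theorem om_mem_NN {A B : Set X} {c : Ch F X} (h : c ∈ NN F A B) : om c ∈ NN F A B := by
  obtain ⟨y, hy, hz⟩ := mem_NN.1 h
  refine mem_NN.2 ⟨-om y, neg_mem (om_mem_CC hy), ?_⟩
  rw [map_neg, ← om_bd, ← map_sub]
  exact om_mem_CC hz
theorem om_mem_ZZ {A B : Set X} {c : Ch F X} (h : c ∈ ZZ F A B) : om c ∈ ZZ F A B := by
  refine mem_ZZ.2 ⟨om_mem_CC h.1, ?_⟩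
  have h1 : bd (om c) = -om (bd c) := by rw [om_bd, neg_neg]
  rw [h1]
  exact neg_mem (om_mem_CC (mem_ZZ.1 h).2)
/-- homogeneous primitives -/
theorem NN_HD {A B : Set X} {k : ℕ} {c : Ch F X} (hk : c ∈ HD F X k) (h : c ∈ NN F A B) :
    ∃ h ∈ CC F A, h ∈ HD F X (k + 1) ∧ c - bd h ∈ CC F B := by
  obtain ⟨y, hy, hz⟩ := mem_NN.1 h
  refine ⟨dg (k + 1) y, dg_mem_CC _ hy, dg_mem_HD _ y, ?_⟩
  have h1 := dg_mem_CC k hz
  rwa [map_sub, mem_HD.1 hk, dg_bd] at h1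
/-- if all relative cycles of all degrees are null, every relative cycle is -/
theorem NN_of_dg {A B A' B' : Set X} {c : Ch F X} (h : c ∈ ZZ F A B)
    (H : ∀ k, ∀ z ∈ ZZ F A B, z ∈ HD F X k → z ∈ NN F A' B') : c ∈ NN F A' B' :=
  mem_of_dg LinearMap.id (NN F A' B') fun k => H k _ (dg_mem_ZZ k h) (dg_mem_HD k c)
/-- exact sequence of a triple, in the form used for vanishing -/
theorem NN_trans {A B C A' C' : Set X} (hA : A ⊆ A') (hB : B ⊆ A') {k : ℕ} {c : Ch F X}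
    (hc : c ∈ ZZ F A C) (hk : c ∈ HD F X k) (h1 : c ∈ NN F A' B)
    (h2 : ∀ z ∈ ZZ F B C, z ∈ HD F X k → z ∈ NN F A' C') : c ∈ NN F A' C' := by
  obtain ⟨y, hy, hyk, hz⟩ := NN_HD hk h1
  have h3 : c - bd y ∈ ZZ F B C := by
    refine mem_ZZ.2 ⟨hz, ?_⟩
    rw [map_sub, bd_bd, sub_zero]
    exact (mem_ZZ.1 hc).2
  have h4 := add_mem (h2 _ h3 (sub_mem hk (bd_mem_HD hyk))) (BB_le_NN A' C' ⟨y, hy, rfl⟩)
  rwa [sub_add_cancel] at h4
theorem pt_not_mem_BB (A : Set X) (x : X) : (pt x : Ch F X) ∉ BB F A := by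
  rintro ⟨y, -, hy⟩
  have h1 := eps_bd y
  rw [hy, eps_pt] at h1
  exact one_ne_zero h1
/-- a cocycle that detects a given chain -/
theorem exists_dual {P : Type} [AddCommGroup P] [Module F P] {S : Submodule F P} {c : P}
    (h : c ∉ S) : ∃ l : P →ₗ[F] F, l c = 1 ∧ ∀ z ∈ S, l z = 0 := by
  obtain ⟨l, h1, h2⟩ := Submodule.exists_dual_map_eq_bot_of_notMem h inferInstance
  refine ⟨(l c)⁻¹ • l, ?_, fun z hz => ?_⟩
  · rw [LinearMap.smul_apply, smul_eq_mul, inv_mul_cancel₀ h1]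
  · have h3 : l z ∈ S.map l := Submodule.mem_map_of_mem hz
    rw [h2, Submodule.mem_bot] at h3
    rw [LinearMap.smul_apply, h3, smul_zero]

end Pool.Agent.Fu
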