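import Mathlib
import Pool.Agent.P.MP_365c00_gt.ZC5

/-! Maps that are continuous on a subset. -/

set_option linter.unusedSectionVars false
set_option linter.unusedVariables false

open Set Topology unitInterval TensorProduct

namespace Pool.Agent.Fu

variable {F : Type} [Field F] {X Y Z : Type} [TopologicalSpace X] [TopologicalSpace Y]
  [TopologicalSpace Z]

theorem zc6_pm_pos {f : X → Y} {A : Set X} (hf : ContinuousOn f A) (c : Ch F X) :
    pm A f c = map ⟨A.domRestrict f, hf.domRestrict⟩ (res A c) := by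
  unfold pm
  rw [dif_pos hf]
  rfl

theorem zc6_pm_neg {f : X → Y} {A : Set X} (hf : ¬ ContinuousOn f A) (c : Ch F X) :
    pm A f c = 0 := by
  unfold pm
  rw [dif_neg hf]
  rfl

theorem mp_eq {f : X → Y} {A : Set X} (hf : ContinuousOn f A) {c : Ch F X} (h : c ∈ CC F A) :
    mp f c = map ⟨A.domRestrict f, hf.domRestrict⟩ (res A c) := by
  refine CC_span (P := fun c => mp f c = map ⟨A.domRestrict f, hf.domRestrict⟩ (res A c))
    ?_ ?_ ?_ ?_ h
  · simp
  · intro a b ha hb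
    simp only [map_add, ha, hb]
  · intro r a ha
    simp only [map_smul, ha]
  · intro c hc
    rw [mp_cube, zc6_pm_pos (hf.mono hc)]
    obtain ⟨b, hb⟩ := mem_CC_iff.1 (cube_mem_CC (F := F) c)
    rw [← hb, res_map_incl]
    have e : incl (rg c.1 c.2) = (incl A).comp ⟨Set.inclusion hc, continuous_inclusion hc⟩ := rfl
    rw [e, ← map_map, res_map_incl, map_map]
    rfl

theorem zc6_incl {f : X → Y} {A : Set X} (hf : ContinuousOn f A) (b : Ch F A) :
    mp f (map (incl A) b) = map ⟨A.domRestrict f, hf.domRestrict⟩ b := by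
  rw [mp_eq hf (mem_CC_iff.2 ⟨b, rfl⟩), res_map_incl]

theorem zc6_res_dg (X : Type) [TopologicalSpace X] (c : Ch F X) :
    ∀ (A : Set X) (k : ℕ), dg k (res A c) = res A (dg k c) := by
  induction X, c using ind with
  | h0 => intro A k; simp
  | hadd X a b ha hb => intro A k; simp only [map_add, ha, hb]
  | hsm X r a ha => intro A k; simp only [map_smul, ha]
  | hpt X x =>
    intro A k
    by_cases hx : x ∈ A
    · cases k with
      | zero => rw [res_pt_mem hx, dg_zero_pt, dg_zero_pt, res_pt_mem hx]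
      | succ k => rw [res_pt_mem hx, dg_succ_pt, dg_succ_pt, map_zero]
    · cases k with
      | zero => rw [dg_zero_pt, res_pt_not hx, map_zero]
      | succ k => rw [res_pt_not hx, dg_succ_pt, map_zero, map_zero]
  | hunc X a ha =>
    intro A k
    cases k with
    | zero => rw [res_unc, dg_zero_unc, dg_zero_unc, map_zero]
    | succ k => rw [res_unc, dg_succ_unc, dg_succ_unc, res_unc, dg_map, ha]

theorem zc6_cube_HD (f : X → Y) (c : Σ n, Cb n X) : mp f (cube c : Ch F X) ∈ HD F Y c.1 := by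
  rw [mp_cube]
  by_cases hf : ContinuousOn f (rg c.1 c.2)
  · rw [zc6_pm_pos hf]
    refine map_mem_HD _ (mem_HD.2 ?_)
    rw [zc6_res_dg, mem_HD.1 (cube_mem_HD c)]
  · rw [zc6_pm_neg hf]
    exact zero_mem _

theorem mp_coe (f : C(X, Y)) (c : Ch F X) : mp f c = map f c := by
  obtain ⟨b, rfl⟩ := mem_CC_iff.1 (mem_CC_univ c)
  rw [zc6_incl f.continuous.continuousOn, map_map]
  rfl
theorem mp_of_cont {f : X → Y} (hf : Continuous f) (c : Ch F X) : mp f c = map ⟨f, hf⟩ c :=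
  mp_coe ⟨f, hf⟩ c
theorem mp_id (c : Ch F X) : mp id c = c :=
  (mp_coe (ContinuousMap.id X) c).trans (map_id' c)
@[simp] theorem mp_pt (f : X → Y) (x : X) : mp f (pt x : Ch F X) = pt (f x) := by
  have hx : x ∈ ({x} : Set X) := rfl
  rw [mp_eq (continuousOn_singleton f x) (pt_mem_CC hx), res_pt_mem hx, map_pt]
  rfl
theorem mp_congr {f g : X → Y} {A : Set X} (hfg : EqOn f g A) {c : Ch F X} (h : c ∈ CC F A) :
    mp f c = mp g c := by
  refine CC_span (P := fun c => mp f c = mp g c) ?_ ?_ ?_ ?_ h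
  · simp
  · intro a b ha hb
    simp only [map_add, ha, hb]
  · intro r a ha
    simp only [map_smul, ha]
  · intro c hc
    rw [mp_cube, mp_cube]
    have he : EqOn f g (rg c.1 c.2) := hfg.mono hc
    by_cases hf : ContinuousOn f (rg c.1 c.2)
    · have hg : ContinuousOn g (rg c.1 c.2) := hf.congr he.symm
      rw [zc6_pm_pos hf, zc6_pm_pos hg]
      have e : (⟨(rg c.1 c.2).domRestrict f, hf.domRestrict⟩ : C(rg c.1 c.2, Y)) =
          ⟨(rg c.1 c.2).domRestrict g, hg.domRestrict⟩ := ContinuousMap.ext fun x => he x.2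
      rw [e]
    · rw [zc6_pm_neg hf, zc6_pm_neg fun hg => hf (hg.congr he)]
theorem mp_eq_self {f : X → X} {A : Set X} (hf : ∀ x ∈ A, f x = x) {c : Ch F X}
    (h : c ∈ CC F A) : mp f c = c :=
  (mp_congr (g := id) hf h).trans (mp_id c)
theorem mp_mem_CC {f : X → Y} {A : Set X} {B : Set Y} (hf : MapsTo f A B) {c : Ch F X}
    (h : c ∈ CC F A) : mp f c ∈ CC F B := by
  refine CC_span (P := fun c => mp f c ∈ CC F B) ?_ ?_ ?_ ?_ h
  · simp
  · intro a b ha hb
    rw [map_add]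
    exact add_mem ha hb
  · intro r a ha
    rw [map_smul]
    exact Submodule.smul_mem _ r ha
  · intro c hc
    rw [mp_cube]
    by_cases hf' : ContinuousOn f (rg c.1 c.2)
    · rw [zc6_pm_pos hf']
      exact map_mem_CC (A := univ) (fun x _ => hf (hc x.2)) (mem_CC_univ _)
    · rw [zc6_pm_neg hf']
      exact zero_mem _
theorem dg_mp (k : ℕ) (f : X → Y) (c : Ch F X) : dg k (mp f c) = mp f (dg k c) := by
  refine span_ind (P := fun c => dg k (mp f c) = mp f (dg k c)) ?_ ?_ ?_ ?_ c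
  · simp
  · intro a b ha hb
    simp only [map_add, ha, hb]
  · intro r a ha
    simp only [map_smul, ha]
  · intro c
    by_cases hk : k = c.1
    · rw [hk, mem_HD.1 (zc6_cube_HD f c), mem_HD.1 (cube_mem_HD c)]
    · rw [dg_of_ne (zc6_cube_HD f c) hk, dg_of_ne (cube_mem_HD c) hk, map_zero]
theorem mp_mem_HD {k : ℕ} (f : X → Y) {c : Ch F X} (h : c ∈ HD F X k) : mp f c ∈ HD F Y k := by
  rw [mem_HD, dg_mp, mem_HD.1 h]
theorem om_mp (f : X → Y) (c : Ch F X) : om (mp f c) = mp f (om c) := by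
  refine span_ind (P := fun c => om (mp f c) = mp f (om c)) ?_ ?_ ?_ ?_ c
  · simp
  · intro a b ha hb
    simp only [map_add, ha, hb]
  · intro r a ha
    simp only [map_smul, ha]
  · intro c
    rw [om_of_HD (zc6_cube_HD f c), om_of_HD (cube_mem_HD c), map_smul]
theorem bd_mp {f : X → Y} {A : Set X} (hf : ContinuousOn f A) {c : Ch F X} (h : c ∈ CC F A) :
    bd (mp f c) = mp f (bd c) := by
  obtain ⟨b, rfl⟩ := mem_CC_iff.1 h
  rw [zc6_incl hf, bd_map, bd_map, zc6_incl hf]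
theorem eps_mp {f : X → Y} {A : Set X} (hf : ContinuousOn f A) {c : Ch F X} (h : c ∈ CC F A) :
    eps (mp f c) = eps c := by
  obtain ⟨b, rfl⟩ := mem_CC_iff.1 h
  rw [zc6_incl hf, eps_map, eps_map]
theorem sd_mp {f : X → Y} {A : Set X} (hf : ContinuousOn f A) {c : Ch F X} (h : c ∈ CC F A) :
    sd (mp f c) = mp f (sd c) := by
  obtain ⟨b, rfl⟩ := mem_CC_iff.1 h
  rw [zc6_incl hf, sd_map, sd_map, zc6_incl hf]
theorem mp_mp {f : X → Y} {g : Y → Z} {A : Set X} {B : Set Y} (hf : ContinuousOn f A)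
    (hg : ContinuousOn g B) (hAB : MapsTo f A B) {c : Ch F X} (h : c ∈ CC F A) :
    mp g (mp f c) = mp (g ∘ f) c := by
  obtain ⟨b, rfl⟩ := mem_CC_iff.1 h
  rw [zc6_incl hf, zc6_incl (hg.comp hf hAB)]
  have e : (⟨A.domRestrict f, hf.domRestrict⟩ : C(A, Y)) = (incl B).comp
      ⟨fun x => ⟨f x.1, hAB x.2⟩, hf.domRestrict.subtype_mk _⟩ := rfl
  rw [e, ← map_map, zc6_incl hg, map_map]
  rfl
theorem mp_map (f : C(X, Y)) (g : Y → Z) {B : Set Y} (hg : ContinuousOn g B) {c : Ch F X}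
    (h : c ∈ CC F (f ⁻¹' B)) : mp g (map f c) = mp (g ∘ f) c := by
  rw [← mp_coe]
  exact mp_mp f.continuous.continuousOn hg (fun x hx => hx) h
theorem map_mp {f : X → Y} (g : C(Y, Z)) {A : Set X} (hf : ContinuousOn f A) {c : Ch F X}
    (h : c ∈ CC F A) : map g (mp f c) = mp (g ∘ f) c := by
  rw [← mp_coe]
  exact mp_mp (B := univ) hf g.continuous.continuousOn (fun x _ => mem_univ _) h
theorem mp_mem_BB {f : X → Y} {A : Set X} {A' : Set Y} (hf : ContinuousOn f A)
    (hA : MapsTo f A A') {c : Ch F X} (h : c ∈ BB F A) : mp f c ∈ BB F A' := by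
  obtain ⟨b, hb, rfl⟩ := mem_BB.1 h
  exact mem_BB.2 ⟨mp f b, mp_mem_CC hA hb, bd_mp hf hb⟩
theorem mp_mem_ZZ {f : X → Y} {A B : Set X} {A' B' : Set Y} (hf : ContinuousOn f A)
    (hA : MapsTo f A A') (hB : MapsTo f (A ∩ B) B') {c : Ch F X} (h : c ∈ ZZ F A B) :
    mp f c ∈ ZZ F A' B' := by
  obtain ⟨h1, h2⟩ := mem_ZZ.1 h
  refine mem_ZZ.2 ⟨mp_mem_CC hA h1, ?_⟩
  rw [bd_mp hf h1]
  refine mp_mem_CC hB ?_
  rw [CC_inter]
  exact ⟨bd_mem_CC h1, h2⟩
theorem mp_mem_NN {f : X → Y} {A B : Set X} {A' B' : Set Y} (hf : ContinuousOn f A)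
    (hA : MapsTo f A A') (hB : MapsTo f B B') {c : Ch F X} (h : c ∈ NN F A B) :
    mp f c ∈ NN F A' B' := by
  obtain ⟨a, ha, b, hb, rfl⟩ := Submodule.mem_sup.1 h
  rw [map_add]
  exact Submodule.add_mem_sup (mp_mem_BB hf hA ha) (mp_mem_CC hB hb)
theorem mp_const (y : Y) (c : Ch F X) : mp (fun _ => y) c = eps c • pt y :=
  (mp_coe (ContinuousMap.const X y) c).trans (map_const y c)

end Pool.Agent.Fu
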