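import Mathlib
import Pool.Agent.P.MP_365c00_gt.ZC6

/-! The cross product and homotopies. -/

set_option linter.unusedSectionVars false
set_option linter.unusedVariables false

open Set Topology unitInterval TensorProduct

namespace Pool.Agent.Fu

variable {F : Type} [Field F] {X Y Z : Type} [TopologicalSpace X] [TopologicalSpace Y]
  [TopologicalSpace Z]

theorem cross_map_right (g : C(Y, Z)) (a : Ch F X) (b : Ch F Y) :
    cross a (map g b) = map ((ContinuousMap.id X).prodMap g) (cross a b) := by
  induction X, a using ind with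
  | h0 => simp
  | hadd X a a' ha ha' => simp only [map_add, LinearMap.add_apply, ha, ha']
  | hsm X r a ha => simp only [map_smul, LinearMap.smul_apply, ha]
  | hpt X x => simp only [cross_pt, map_map]; rfl
  | hunc X a ha => simp only [cross_unc, ha, map_unc, map_map]; rfl

theorem cross_map {X' Y' : Type} [TopologicalSpace X'] [TopologicalSpace Y'] (f : C(X, X'))
    (g : C(Y, Y')) (a : Ch F X) (b : Ch F Y) :
    cross (map f a) (map g b) = map (f.prodMap g) (cross a b) := by
  rw [cross_map_left, cross_map_right, map_map]; rfl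

theorem bd_cross (a : Ch F X) (b : Ch F Y) :
    bd (cross a b) = cross (bd a) b + cross (om a) (bd b) := by
  induction X, a using ind with
  | h0 => simp
  | hadd X a a' ha ha' => simp only [map_add, LinearMap.add_apply, ha, ha']; abel
  | hsm X r a ha => simp only [map_smul, LinearMap.smul_apply, ha]; rw [smul_add]
  | hpt X x => simp only [cross_pt, bd_map, bd_pt, om_pt, map_zero, LinearMap.zero_apply, zero_add]
  | hunc X a ha =>
    have e : ∀ s : I, (ev (X × Y) s).comp (prL X Y) = (ev X s).prodMap (ContinuousMap.id Y) :=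
      fun s => rfl
    simp only [cross_unc, bd_unc, bd_map, ha, om_unc, map_map, e, map_sub, map_add, map_neg,
      LinearMap.sub_apply, LinearMap.neg_apply, cross_map_left]
    abel

theorem om_cross (a : Ch F X) (b : Ch F Y) : om (cross a b) = cross (om a) (om b) := by
  induction X, a using ind with
  | h0 => simp
  | hadd X a a' ha ha' => simp only [map_add, LinearMap.add_apply, ha, ha']
  | hsm X r a ha => simp only [map_smul, LinearMap.smul_apply, ha]
  | hpt X x => simp only [cross_pt, om_map, om_pt]
  | hunc X a ha => simp only [cross_unc, om_unc, om_map, ha, map_neg, LinearMap.neg_apply]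

theorem eps_cross (a : Ch F X) (b : Ch F Y) : eps (cross a b) = eps a * eps b := by
  induction X, a using ind with
  | h0 => simp
  | hadd X a a' ha ha' => simp only [map_add, LinearMap.add_apply, ha, ha']; ring
  | hsm X r a ha => simp only [map_smul, LinearMap.smul_apply, ha]; simp only [smul_eq_mul, mul_assoc]
  | hpt X x => simp only [cross_pt, eps_map, eps_pt, one_mul]
  | hunc X a ha => simp only [cross_unc, eps_unc, zero_mul]

theorem cross_pt_right (a : Ch F X) (y : Y) :
    cross a (pt y : Ch F Y) = map ⟨fun x => (x, y), by fun_prop⟩ a := by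
  induction X, a using ind with
  | h0 => simp
  | hadd X a a' ha ha' => simp only [map_add, LinearMap.add_apply, ha, ha']
  | hsm X r a ha => simp only [map_smul, LinearMap.smul_apply, ha]
  | hpt X x => simp only [cross_pt, map_pt]; rfl
  | hunc X a ha => simp only [cross_unc, ha, map_unc, map_map]; rfl

theorem cross_unc_right (a : Ch F X) (b : Ch F C(I, Y)) :
    cross a (unc b) = unc (map (prR X Y) (cross (om a) b)) := by
  induction X, a using ind with
  | h0 => simp
  | hadd X a a' ha ha' => simp only [map_add, LinearMap.add_apply, ha, ha']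
  | hsm X r a ha => simp only [map_smul, LinearMap.smul_apply, ha]
  | hpt X x => simp only [cross_pt, om_pt, map_unc, map_map]; rfl
  | hunc X a ha =>
    have e : (post (prL X Y)).comp (prR C(I, X) Y) =
        (flp (X × Y)).comp ((post (prR X Y)).comp (prL X C(I, Y))) := rfl
    simp only [cross_unc, ha, om_unc, map_unc, map_map, map_neg, LinearMap.neg_apply, e]
    rw [← map_map (flp _), unc_flp]

theorem cross_assoc (a : Ch F X) (b : Ch F Y) (c : Ch F Z) :
    map ⟨Homeomorph.prodAssoc X Y Z, (Homeomorph.prodAssoc X Y Z).continuous⟩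
      (cross (cross a b) c) = cross a (cross b c) := by
  induction X, a using ind with
  | h0 => simp
  | hadd X a a' ha ha' => simp only [map_add, LinearMap.add_apply, ha, ha']
  | hsm X r a ha => simp only [map_smul, LinearMap.smul_apply, ha]
  | hpt X x => simp only [cross_pt, cross_map_left, map_map]; rfl
  | hunc X a ha => simp only [cross_unc, cross_map_left, ← ha, map_unc, map_map]; rfl

theorem cross_swap {j k : ℕ} {a : Ch F X} {b : Ch F Y} (ha : a ∈ HD F X j) (hb : b ∈ HD F Y k) :
    map ⟨Prod.swap, continuous_swap⟩ (cross a b) = (-1 : F) ^ (j * k) • cross b a := by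
  have key : ∀ j, map ⟨Prod.swap, continuous_swap⟩ (cross (dg j a) b) =
      (-1 : F) ^ (j * k) • cross b (dg j a) := by
    clear ha
    induction X, a using ind with
    | h0 => simp
    | hadd X a a' ha ha' => intro j; simp only [map_add, LinearMap.add_apply, ha, ha', smul_add]
    | hsm X r a ha => intro j; simp only [map_smul, LinearMap.smul_apply, ha]; rw [smul_comm]
    | hpt X x =>
      intro j
      cases j with
      | zero =>
        simp only [dg_zero_pt, cross_pt, cross_pt_right, map_map, zero_mul, pow_zero, one_smul]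
        rfl
      | succ j => simp
    | hunc X a ha =>
      intro j
      cases j with
      | zero => simp
      | succ j =>
        have e : (post ⟨Prod.swap, continuous_swap⟩).comp (prL X Y) =
          (prR Y X).comp ⟨Prod.swap, continuous_swap⟩ := rfl
        rw [dg_succ_unc, cross_unc, cross_unc_right, map_unc, map_map, e, ← map_map, ha,
          om_of_HD hb]
        simp only [map_smul, LinearMap.smul_apply, smul_smul]
        congr 1
        rw [add_mul, one_mul, pow_add, mul_assoc, ← mul_pow]
        simp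
  have := key j
  rwa [mem_HD.1 ha] at this

theorem cross_mem_HD {j k : ℕ} {a : Ch F X} {b : Ch F Y} (ha : a ∈ HD F X j)
    (hb : b ∈ HD F Y k) : cross a b ∈ HD F (X × Y) (j + k) := by
  have key : ∀ j, cross (dg j a) b ∈ HD F (X × Y) (j + k) := by
    clear ha
    induction X, a using ind with
    | h0 => simp
    | hadd X a a' ha ha' =>
      intro j; simp only [map_add, LinearMap.add_apply]; exact add_mem (ha j) (ha' j)
    | hsm X r a ha =>
      intro j; simp only [map_smul, LinearMap.smul_apply]; exact Submodule.smul_mem _ r (ha j)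
    | hpt X x =>
      intro j
      cases j with
      | zero => rw [dg_zero_pt, cross_pt, zero_add]; exact map_mem_HD _ hb
      | succ j => simp
    | hunc X a ha =>
      intro j
      cases j with
      | zero => simp
      | succ j =>
        rw [dg_succ_unc, cross_unc, add_right_comm]
        exact unc_mem_HD (map_mem_HD _ (ha j))
  have := key j
  rwa [mem_HD.1 ha] at this

theorem cross_mem_CC {A : Set X} {B : Set Y} {a : Ch F X} {b : Ch F Y} (ha : a ∈ CC F A)
    (hb : b ∈ CC F B) : cross a b ∈ CC F (A ×ˢ B) := by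
  obtain ⟨a, rfl⟩ := mem_CC_iff.1 ha
  obtain ⟨b, rfl⟩ := mem_CC_iff.1 hb
  rw [cross_map]
  exact map_mem_CC (A := univ) (fun z _ => mk_mem_prod z.1.2 z.2.2) (mem_CC_univ _)

theorem cross_mp {X' Y' : Type} [TopologicalSpace X'] [TopologicalSpace Y'] {f : X → X'}
    {g : Y → Y'} {A : Set X} {B : Set Y} (hf : ContinuousOn f A) (hg : ContinuousOn g B)
    {a : Ch F X} {b : Ch F Y} (ha : a ∈ CC F A) (hb : b ∈ CC F B) :
    cross (mp f a) (mp g b) = mp (Prod.map f g) (cross a b) := by
  rw [mp_eq hf ha, mp_eq hg hb, cross_map]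
  obtain ⟨a, rfl⟩ := mem_CC_iff.1 ha
  obtain ⟨b, rfl⟩ := mem_CC_iff.1 hb
  have hsub : (univ : Set (A × B)) ⊆ (incl A).prodMap (incl B) ⁻¹' (A ×ˢ B) :=
    fun z _ => mk_mem_prod z.1.2 z.2.2
  rw [res_map_incl, res_map_incl, cross_map, mp_map _ _ (hf.prodMap hg)
    (CC_mono hsub (mem_CC_univ _)), ← mp_coe]
  rfl

theorem cross_mem_ZZ {A A' : Set X} {B B' : Set Y} {a : Ch F X} {b : Ch F Y}
    (ha : a ∈ ZZ F A A') (hb : b ∈ ZZ F B B') :
    cross a b ∈ ZZ F (A ×ˢ B) (A' ×ˢ B ∪ A ×ˢ B') := by
  refine mem_ZZ.2 ⟨cross_mem_CC ha.1 hb.1, ?_⟩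
  rw [bd_cross]
  exact add_mem (CC_mono subset_union_left (cross_mem_CC (mem_ZZ.1 ha).2 hb.1))
    (CC_mono subset_union_right (cross_mem_CC (om_mem_CC ha.1) (mem_ZZ.1 hb).2))

theorem cross_NN_left {A A' : Set X} {B B' : Set Y} {a : Ch F X} {b : Ch F Y}
    (ha : a ∈ NN F A A') (hb : b ∈ ZZ F B B') :
    cross a b ∈ NN F (A ×ˢ B) (A' ×ˢ B ∪ A ×ˢ B') := by
  obtain ⟨h, hh, hc⟩ := mem_NN.1 ha
  refine mem_NN.2 ⟨cross h b, cross_mem_CC hh hb.1, ?_⟩
  have e : cross a b - bd (cross h b) = cross (a - bd h) b - cross (om h) (bd b) := by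
    rw [bd_cross, map_sub, LinearMap.sub_apply]; abel
  rw [e]
  exact sub_mem (CC_mono subset_union_left (cross_mem_CC hc hb.1))
    (CC_mono subset_union_right (cross_mem_CC (om_mem_CC hh) (mem_ZZ.1 hb).2))

theorem cross_NN_right {A A' : Set X} {B B' : Set Y} {a : Ch F X} {b : Ch F Y}
    (ha : a ∈ ZZ F A A') (hb : b ∈ NN F B B') :
    cross a b ∈ NN F (A ×ˢ B) (A' ×ˢ B ∪ A ×ˢ B') := by
  obtain ⟨h, hh, hc⟩ := mem_NN.1 hb
  refine mem_NN.2 ⟨cross (om a) h, cross_mem_CC (om_mem_CC ha.1) hh, ?_⟩
  have e : cross a b - bd (cross (om a) h) = cross a (b - bd h) - cross (bd (om a)) h := by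
    rw [bd_cross, om_om, map_sub]; abel
  rw [e]
  exact sub_mem (CC_mono subset_union_right (cross_mem_CC ha.1 hc))
    (CC_mono subset_union_left (cross_mem_CC (mem_ZZ.1 (om_mem_ZZ ha)).2 hh))


end Pool.Agent.Fu
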