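import Mathlib
import Pool.Agent.P.MP_365c00_gt.ZC7

/-! Prisms. -/

set_option linter.unusedSectionVars false
set_option linter.unusedVariables false

open Set Topology unitInterval TensorProduct

namespace Pool.Agent.Fu

variable {F : Type} [Field F] {X Y Z : Type} [TopologicalSpace X] [TopologicalSpace Y]
  [TopologicalSpace Z]

variable (F) in
/-- the unit interval as a chain -/
noncomputable def iota : Ch F ℝ := unc (pt (⟨Subtype.val, continuous_subtype_val⟩ : C(I, ℝ)))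

/-- the prism of a homotopy -/
noncomputable def prism (H : ℝ × X → Y) : Ch F X →ₗ[F] Ch F Y := mp H ∘ₗ cross (iota F)

theorem bd_iota : bd (iota F) = pt 1 - pt 0 := by
  unfold iota
  rw [bd_unc, map_pt, map_pt, bd_pt, map_zero, sub_zero]
  rfl
theorem iota_mem_CC : iota F ∈ CC F (Icc (0 : ℝ) 1) :=
  unc_mem_CC (pt_mem_CC fun s => s.2)
theorem iota_mem_HD : iota F ∈ HD F ℝ 1 := unc_mem_HD (pt_mem_HD _)

theorem om_iota : om (iota F) = - iota F := by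
  unfold iota
  rw [om_unc, om_pt]

theorem mp_cross_pt {H : ℝ × X → Y} {A : Set X} (hH : ContinuousOn H (Icc 0 1 ×ˢ A)) {u : ℝ}
    (hu : u ∈ Icc (0 : ℝ) 1) {c : Ch F X} (h : c ∈ CC F A) :
    mp H (cross (pt u : Ch F ℝ) c) = mp (fun x => H (u, x)) c := by
  have hs : A ⊆ (⟨fun y => (u, y), by fun_prop⟩ : C(X, ℝ × X)) ⁻¹' (Icc (0 : ℝ) 1 ×ˢ A) :=
    fun x hx => ⟨hu, hx⟩
  rw [cross_pt, mp_map _ H hH (CC_mono hs h)]
  rfl

theorem prism_apply (H : ℝ × X → Y) (c : Ch F X) : prism H c = mp H (cross (iota F) c) := rfl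

theorem bd_prism {H : ℝ × X → Y} {A : Set X} (hH : ContinuousOn H (Icc 0 1 ×ˢ A)) {c : Ch F X}
    (h : c ∈ CC F A) :
    bd (prism H c) + prism H (bd c) = mp (fun x => H (1, x)) c - mp (fun x => H (0, x)) c := by
  rw [prism_apply, prism_apply, bd_mp hH (cross_mem_CC iota_mem_CC h), bd_cross, bd_iota, om_iota,
    map_sub, map_neg, LinearMap.sub_apply, LinearMap.neg_apply, map_add, map_neg, map_sub,
    mp_cross_pt hH ⟨zero_le_one, le_rfl⟩ h, mp_cross_pt hH ⟨le_rfl, zero_le_one⟩ h]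
  abel
theorem prism_mem_CC {H : ℝ × X → Y} {A : Set X} {B : Set Y} (hH : MapsTo H (Icc 0 1 ×ˢ A) B)
    {c : Ch F X} (h : c ∈ CC F A) : prism H c ∈ CC F B :=
  mp_mem_CC hH (cross_mem_CC iota_mem_CC h)
theorem prism_mem_HD (H : ℝ × X → Y) {k : ℕ} {c : Ch F X} (h : c ∈ HD F X k) :
    prism H c ∈ HD F Y (k + 1) := by
  rw [add_comm k 1]
  exact mp_mem_HD H (cross_mem_HD iota_mem_HD h)
/-- the prism of an equivariant homotopy is equivariant -/
theorem prism_equiv {H : ℝ × X → Y} {A : Set X} (hH : ContinuousOn H (Icc 0 1 ×ˢ A))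
    (s : C(X, X)) (s' : C(Y, Y)) (hs : MapsTo s A A)
    (he : ∀ u ∈ Icc (0 : ℝ) 1, ∀ x ∈ A, H (u, s x) = s' (H (u, x))) {c : Ch F X}
    (h : c ∈ CC F A) : prism H (map s c) = map s' (prism H c) := by
  have hc := cross_mem_CC (iota_mem_CC (F := F)) h
  have hm : Icc (0 : ℝ) 1 ×ˢ A ⊆ ((ContinuousMap.id ℝ).prodMap s) ⁻¹' (Icc (0 : ℝ) 1 ×ˢ A) :=
    fun w hw => ⟨hw.1, hs hw.2⟩
  rw [prism_apply, prism_apply, cross_map_right, map_mp s' hH hc, mp_map _ H hH (CC_mono hm hc)]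
  exact mp_congr (fun w hw => he w.1 hw.1 w.2 hw.2) hc

/-- homotopic maps of pairs -/
theorem htp_NN {H : ℝ × X → Y} {A B : Set X} {A' B' : Set Y} {f g : X → Y}
    (hH : ContinuousOn H (Icc 0 1 ×ˢ A)) (hA : MapsTo H (Icc 0 1 ×ˢ A) A')
    (hB : MapsTo H (Icc 0 1 ×ˢ (A ∩ B)) B') (h0 : ∀ x ∈ A, H (0, x) = f x)
    (h1 : ∀ x ∈ A, H (1, x) = g x) {c : Ch F X} (h : c ∈ ZZ F A B) :
    mp g c - mp f c ∈ NN F A' B' := by
  obtain ⟨hc, hb⟩ := mem_ZZ.1 h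
  have hb' : bd c ∈ CC F (A ∩ B) := by
    rw [CC_inter]
    exact ⟨bd_mem_CC hc, hb⟩
  rw [← mp_congr (f := fun x => H (1, x)) h1 hc, ← mp_congr (f := fun x => H (0, x)) h0 hc,
    ← bd_prism hH hc]
  exact add_mem (BB_le_NN _ _ (mem_BB.2 ⟨_, prism_mem_CC hA hc, rfl⟩))
    (CC_le_NN _ _ (prism_mem_CC hB hb'))

/-- a map homotopic to the identity -/
theorem htp_id_NN {H : ℝ × X → X} {A B A' B' : Set X} {g : X → X}
    (hH : ContinuousOn H (Icc 0 1 ×ˢ A)) (hA : MapsTo H (Icc 0 1 ×ˢ A) A')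
    (hB : MapsTo H (Icc 0 1 ×ˢ (A ∩ B)) B') (h0 : ∀ x ∈ A, H (0, x) = x)
    (h1 : ∀ x ∈ A, H (1, x) = g x) {c : Ch F X} (h : c ∈ ZZ F A B) :
    mp g c - c ∈ NN F A' B' := by
  have := htp_NN (f := id) hH hA hB h0 h1 h
  rwa [mp_id] at this

/-- cycles in a star shaped set -/
theorem star_BB {W : Type} [NormedAddCommGroup W] [NormedSpace ℝ W] {A : Set W} {a : W}
    (hA : StarConvex ℝ a A) {c : Ch F W} (h : c ∈ CC F A) (hc : bd c = 0) :
    c - eps c • pt a ∈ BB F A := by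
  have := htp_NN (F := F) (H := fun w : ℝ × W => (1 - w.1) • a + w.1 • w.2) (A := A) (B := ∅)
    (A' := A) (B' := ∅) (f := fun _ => a) (g := id) (by fun_prop)
    (fun w hw => hA hw.2 (sub_nonneg.2 hw.1.2) hw.1.1 (sub_add_cancel _ _))
    (fun w hw => hw.2.2.elim) (fun x _ => by simp) (fun x _ => by simp) (mem_ZZ_empty.2 ⟨h, hc⟩)
  rwa [mp_id, mp_const, NN_empty] at this

/-- homotopies can be composed: the relation used for path spaces.  `R x y` is what is known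
about the track of the point `x` -/
def Htp (A : Set X) (R : X → Y → Prop) (f g : X → Y) : Prop :=
  ∃ H : ℝ × X → Y, ContinuousOn H (Icc 0 1 ×ˢ A) ∧ (∀ x ∈ A, H (0, x) = f x) ∧
    (∀ x ∈ A, H (1, x) = g x) ∧ ∀ u ∈ Icc (0 : ℝ) 1, ∀ x ∈ A, R x (H (u, x))

theorem Htp.refl {A : Set X} {R : X → Y → Prop} {f : X → Y} (hf : ContinuousOn f A)
    (h : ∀ x ∈ A, R x (f x)) : Htp A R f f :=
  ⟨fun w => f w.2, hf.comp continuous_snd.continuousOn fun w hw => hw.2, fun _ _ => rfl,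
    fun _ _ => rfl, fun _ _ x hx => h x hx⟩
theorem Htp.symm {A : Set X} {R : X → Y → Prop} {f g : X → Y} (h : Htp A R f g) : Htp A R g f := by
  obtain ⟨H, hH, h0, h1, hR⟩ := h
  have hm : ∀ u ∈ Icc (0 : ℝ) 1, 1 - u ∈ Icc (0 : ℝ) 1 := fun u hu =>
    ⟨by linarith [hu.2], by linarith [hu.1]⟩
  refine ⟨fun w => H (1 - w.1, w.2), hH.comp (by fun_prop) fun w hw => ⟨hm _ hw.1, hw.2⟩,
    fun x hx => ?_, fun x hx => ?_, fun u hu x hx => hR _ (hm u hu) x hx⟩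
  · simpa using h1 x hx
  · simpa using h0 x hx
theorem Htp.trans {A : Set X} {R : X → Y → Prop} {f g k : X → Y} (h : Htp A R f g)
    (h' : Htp A R g k) : Htp A R f k := by
  obtain ⟨H, hH, h0, h1, hR⟩ := h
  obtain ⟨G, hG, g0, g1, gR⟩ := h'
  have ha : ∀ u ∈ Icc (0 : ℝ) 1, min (2 * u) 1 ∈ Icc (0 : ℝ) 1 := fun u hu =>
    ⟨le_min (by linarith [hu.1]) zero_le_one, min_le_right _ _⟩
  have hb : ∀ u ∈ Icc (0 : ℝ) 1, max (2 * u - 1) 0 ∈ Icc (0 : ℝ) 1 := fun u hu =>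
    ⟨le_max_right _ _, max_le (by linarith [hu.2]) zero_le_one⟩
  have c1 : ContinuousOn (fun w : ℝ × X => H (min (2 * w.1) 1, w.2)) (Icc 0 1 ×ˢ A) :=
    hH.comp (by fun_prop) fun w hw => ⟨ha _ hw.1, hw.2⟩
  have c2 : ContinuousOn (fun w : ℝ × X => G (max (2 * w.1 - 1) 0, w.2)) (Icc 0 1 ×ˢ A) :=
    hG.comp (by fun_prop) fun w hw => ⟨hb _ hw.1, hw.2⟩
  refine ⟨fun w => if w.1 ≤ 1 / 2 then H (min (2 * w.1) 1, w.2) else G (max (2 * w.1 - 1) 0, w.2),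
    ?_, fun x hx => ?_, fun x hx => ?_, fun u hu x hx => ?_⟩
  · rw [continuousOn_iff_continuous_domRestrict] at c1 c2 ⊢
    refine Continuous.if_le (f := fun w : (Icc (0 : ℝ) 1 ×ˢ A : Set (ℝ × X)) => w.1.1)
      (g := fun _ => (1 / 2 : ℝ)) c1 c2 (by fun_prop) continuous_const fun w hw => ?_
    have e1 : min (2 * w.1.1) 1 = 1 := by rw [hw]; norm_num
    have e2 : max (2 * w.1.1 - 1) 0 = 0 := by rw [hw]; norm_num
    show H (min (2 * w.1.1) 1, w.1.2) = G (max (2 * w.1.1 - 1) 0, w.1.2)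
    rw [e1, e2, h1 _ w.2.2, g0 _ w.2.2]
  · have e1 : min (2 * (0 : ℝ)) 1 = 0 := by norm_num
    show (if (0 : ℝ) ≤ 1 / 2 then H (min (2 * 0) 1, x) else G (max (2 * 0 - 1) 0, x)) = f x
    rw [if_pos (by norm_num), e1, h0 x hx]
  · have e2 : max (2 * (1 : ℝ) - 1) 0 = 1 := by norm_num
    show (if (1 : ℝ) ≤ 1 / 2 then H (min (2 * 1) 1, x) else G (max (2 * 1 - 1) 0, x)) = k x
    rw [if_neg (by norm_num), e2, g1 x hx]
  · show R x (if u ≤ 1 / 2 then H (min (2 * u) 1, x) else G (max (2 * u - 1) 0, x))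
    split_ifs
    · exact hR _ (ha u hu) x hx
    · exact gR _ (hb u hu) x hx
theorem Htp.mono {A A' : Set X} {R R' : X → Y → Prop} {f g : X → Y} (h : Htp A R f g)
    (hA : A' ⊆ A) (hR : ∀ x ∈ A', ∀ y, R x y → R' x y) : Htp A' R' f g := by
  obtain ⟨H, hH, h0, h1, hT⟩ := h
  exact ⟨H, hH.mono (prod_mono subset_rfl hA), fun x hx => h0 x (hA hx), fun x hx => h1 x (hA hx),
    fun u hu x hx => hR x hx _ (hT u hu x (hA hx))⟩
theorem Htp.congr {A : Set X} {R : X → Y → Prop} {f g f' g' : X → Y} (h : Htp A R f g)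
    (hf : EqOn f f' A) (hg : EqOn g g' A) : Htp A R f' g' := by
  obtain ⟨H, hH, h0, h1, hT⟩ := h
  exact ⟨H, hH, fun x hx => (h0 x hx).trans (hf hx), fun x hx => (h1 x hx).trans (hg hx), hT⟩
theorem Htp.cont_left {A : Set X} {R : X → Y → Prop} {f g : X → Y} (h : Htp A R f g) :
    ContinuousOn f A ∧ ∀ x ∈ A, R x (f x) := by
  obtain ⟨H, hH, h0, h1, hT⟩ := h
  have hu : (0 : ℝ) ∈ Icc (0 : ℝ) 1 := ⟨le_rfl, zero_le_one⟩
  have c : ContinuousOn (fun x : X => H (0, x)) A :=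
    hH.comp (by fun_prop) fun x hx => ⟨hu, hx⟩
  exact ⟨c.congr fun x hx => (h0 x hx).symm, fun x hx => h0 x hx ▸ hT 0 hu x hx⟩
theorem Htp.cont_right {A : Set X} {R : X → Y → Prop} {f g : X → Y} (h : Htp A R f g) :
    ContinuousOn g A ∧ ∀ x ∈ A, R x (g x) := h.symm.cont_left
/-- precomposition -/
theorem Htp.comp {A : Set X} {R : X → Y → Prop} {f g : X → Y} (h : Htp A R f g) {B : Set Z}
    {k : Z → X} (hk : ContinuousOn k B) (hB : MapsTo k B A) :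
    Htp B (fun z y => R (k z) y) (f ∘ k) (g ∘ k) := by
  obtain ⟨H, hH, h0, h1, hT⟩ := h
  exact ⟨fun w => H (w.1, k w.2), hH.comp (continuous_fst.continuousOn.prodMk
      (hk.comp continuous_snd.continuousOn fun w hw => hw.2)) fun w hw => ⟨hw.1, hB hw.2⟩,
    fun z hz => h0 _ (hB hz), fun z hz => h1 _ (hB hz), fun u hu z hz => hT u hu _ (hB hz)⟩
/-- postcomposition with a map that may depend on the point -/
theorem Htp.post {A : Set X} {R : X → Y → Prop} {f g : X → Y} (h : Htp A R f g)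
    {k : X × Y → Z} (hk : ContinuousOn k {w | w.1 ∈ A ∧ R w.1 w.2}) {R' : X → Z → Prop}
    (hR : ∀ x ∈ A, ∀ y, R x y → R' x (k (x, y))) :
    Htp A R' (fun x => k (x, f x)) (fun x => k (x, g x)) := by
  obtain ⟨H, hH, h0, h1, hT⟩ := h
  refine ⟨fun w => k (w.2, H w), hk.comp (continuous_snd.continuousOn.prodMk hH)
      fun w hw => ⟨hw.2, hT w.1 hw.1 w.2 hw.2⟩, fun x hx => ?_, fun x hx => ?_,
    fun u hu x hx => hR x hx _ (hT u hu x hx)⟩
  · show k (x, H (0, x)) = k (x, f x)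
    rw [h0 x hx]
  · show k (x, H (1, x)) = k (x, g x)
    rw [h1 x hx]
theorem Htp.NN {A : Set X} {R : X → Y → Prop} {f g : X → Y} (h : Htp A R f g) {A0 B0 : Set X}
    {A' B' : Set Y} (hA0 : A0 ⊆ A) (hA : ∀ x ∈ A0, ∀ y, R x y → y ∈ A')
    (hB : ∀ x ∈ A0 ∩ B0, ∀ y, R x y → y ∈ B') {c : Ch F X} (hc : c ∈ ZZ F A0 B0) :
    mp g c - mp f c ∈ NN F A' B' := by
  obtain ⟨H, hH, h0, h1, hT⟩ := h
  exact htp_NN (hH.mono (prod_mono subset_rfl hA0))
    (fun w hw => hA _ hw.2 _ (hT w.1 hw.1 w.2 (hA0 hw.2)))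
    (fun w hw => hB _ hw.2 _ (hT w.1 hw.1 w.2 (hA0 hw.2.1)))
    (fun x hx => h0 x (hA0 hx)) (fun x hx => h1 x (hA0 hx)) hc

end Pool.Agent.Fu
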