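import Mathlib
import Pool.Agent.P.MP_365c00_gt.ZC8

/-! Splitting of chains of a product, slant products. -/

set_option linter.unusedSectionVars false
set_option linter.unusedVariables false

open Set Topology unitInterval TensorProduct

namespace Pool.Agent.Fu

variable {F : Type} [Field F] {X Y Z : Type} [TopologicalSpace X] [TopologicalSpace Y]
  [TopologicalSpace Z]

theorem tbd_tmul (a : Ch F X) (b : Ch F Y) : tbd (a ⊗ₜ[F] b) = bd a ⊗ₜ b + om a ⊗ₜ bd b := by
  simp only [tbd, LinearMap.add_apply, TensorProduct.map_tmul, LinearMap.id_apply]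
theorem zc9_tbd_U (w : Ch F C(I, X) ⊗[F] Ch F C(I, X)) :
    tbd (TensorProduct.map unc (map (ev X 0)) w + TensorProduct.map (om ∘ₗ map (ev X 1)) unc w) =
      TensorProduct.map (map (ev X 1)) (map (ev X 1)) w -
        TensorProduct.map (map (ev X 0)) (map (ev X 0)) w -
        (TensorProduct.map unc (map (ev X 0)) (tbd w) +
          TensorProduct.map (om ∘ₗ map (ev X 1)) unc (tbd w)) := by
  induction w using TensorProduct.induction_on with
  | zero => simp
  | add a b ha hb =>
    simp only [map_add] at ha hb ⊢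
    rw [add_add_add_comm, ha, hb]
    abel
  | tmul a b =>
    simp only [map_add, TensorProduct.map_tmul, tbd_tmul, LinearMap.comp_apply, bd_unc, om_unc,
      bd_map, om_map, om_om, om_bd, map_neg, neg_tmul, sub_tmul, tmul_sub]
    abel
theorem tbd_diagC (c : Ch F X) : tbd (diagC c) = diagC (bd c) := by
  induction X, c using ind with
  | h0 => simp
  | hadd X a b ha hb => simp only [map_add, ha, hb]
  | hsm X r a ha => simp only [map_smul, ha]
  | hpt X x => simp [diagC_pt, tbd_tmul]
  | hunc X a ha =>
    rw [diagC_unc, zc9_tbd_U, bd_unc, map_sub, map_sub, diagC_map, diagC_map, diagC_unc, ha]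
theorem zc9_tbd_map {X' Y' : Type} [TopologicalSpace X'] [TopologicalSpace Y'] (f : C(X, X'))
    (g : C(Y, Y')) (w : Ch F X ⊗[F] Ch F Y) :
    tbd (TensorProduct.map (map f) (map g) w) = TensorProduct.map (map f) (map g) (tbd w) := by
  induction w using TensorProduct.induction_on with
  | zero => simp
  | add a b ha hb => simp only [map_add, ha, hb]
  | tmul a b => simp only [map_add, TensorProduct.map_tmul, tbd_tmul, bd_map, om_map]
theorem zc9_cop (c : Ch F (X × Y)) :
    cop c = TensorProduct.map (map ContinuousMap.fst) (map ContinuousMap.snd) (diagC c) := rfl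
theorem tbd_cop (c : Ch F (X × Y)) : tbd (cop c) = cop (bd c) := by
  rw [zc9_cop, zc9_tbd_map, tbd_diagC, zc9_cop]
theorem kap_tmul (a : Ch F X) (b : Ch F Y) : kap (a ⊗ₜ[F] b) = cross a b :=
  TensorProduct.lift.tmul a b
theorem bd_kap (w : Ch F X ⊗[F] Ch F Y) : bd (kap w) = kap (tbd w) := by
  induction w using TensorProduct.induction_on with
  | zero => simp
  | add a b ha hb => simp only [map_add, ha, hb]
  | tmul a b => simp only [map_add, tbd_tmul, kap_tmul, bd_cross]
theorem cop_map {X' Y' : Type} [TopologicalSpace X'] [TopologicalSpace Y'] (f : C(X, X'))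
    (g : C(Y, Y')) (c : Ch F (X × Y)) :
    cop (map (f.prodMap g) c) = TensorProduct.map (map f) (map g) (cop c) := by
  rw [zc9_cop, zc9_cop, diagC_map]
  induction diagC c using TensorProduct.induction_on with
  | zero => simp
  | add a b ha hb => simp only [map_add, ha, hb]
  | tmul a b =>
    simp only [TensorProduct.map_tmul, map_map]
    rfl
theorem counit_left (c : Ch F X) :
    TensorProduct.lid F _ (TensorProduct.map eps LinearMap.id (diagC c)) = c := by
  induction X, c using ind with
  | h0 => simp
  | hadd X a b ha hb => simp only [map_add, ha, hb]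
  | hsm X r a ha => simp only [map_smul, ha]
  | hpt X x => simp [diagC_pt]
  | hunc X a ha =>
    have key : ∀ w : Ch F C(I, X) ⊗[F] Ch F C(I, X),
        TensorProduct.lid F _ (TensorProduct.map eps LinearMap.id
          (TensorProduct.map unc (map (ev X 0)) w +
            TensorProduct.map (om ∘ₗ map (ev X 1)) unc w)) =
          unc (TensorProduct.lid F _ (TensorProduct.map eps LinearMap.id w)) := by
      intro w
      induction w using TensorProduct.induction_on with
      | zero => simp
      | add a b ha hb =>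
        simp only [map_add] at ha hb ⊢
        rw [add_add_add_comm, ha, hb]
      | tmul a b => simp [eps_om]
    rw [diagC_unc, key, ha]
theorem zc9_cop_unc (z : Ch F (C(I, X) × Y)) :
    cop (unc (map (prL X Y) z)) = TensorProduct.map unc LinearMap.id (cop z) := by
  rw [zc9_cop, zc9_cop, diagC_unc, diagC_map]
  induction diagC z using TensorProduct.induction_on with
  | zero => simp
  | add a b ha hb =>
    simp only [map_add] at ha hb ⊢
    rw [add_add_add_comm, ha, hb]
  | tmul a b =>
    have e1 : (post (ContinuousMap.fst : C(X × Y, X))).comp (prL X Y) = ContinuousMap.fst := rfl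
    have e2 : (ContinuousMap.snd : C(X × Y, Y)).comp ((ev (X × Y) 0).comp (prL X Y)) =
        ContinuousMap.snd := rfl
    have e3 : (post (ContinuousMap.snd : C(X × Y, Y))).comp (prL X Y) =
        (cst Y).comp ContinuousMap.snd := rfl
    simp only [map_add, TensorProduct.map_tmul, LinearMap.comp_apply, map_unc, map_map, e1, e2, e3,
      LinearMap.id_apply]
    rw [← map_map (cst Y), unc_cst, tmul_zero, add_zero]
theorem cop_cross (a : Ch F X) (b : Ch F Y) : cop (cross a b) = a ⊗ₜ b := by
  induction X, a using ind with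
  | h0 => simp
  | hadd X a a' ha ha' => simp only [map_add, LinearMap.add_apply, ha, ha', add_tmul]
  | hsm X r a ha => simp only [map_smul, LinearMap.smul_apply, ha, smul_tmul']
  | hpt X x =>
    rw [cross_pt, zc9_cop, diagC_map]
    conv_rhs => rw [← counit_left b]
    induction diagC b using TensorProduct.induction_on with
    | zero => simp
    | add a b ha hb => simp only [map_add, ha, hb, tmul_add]
    | tmul u v =>
      have e1 : (ContinuousMap.fst : C(X × Y, X)).comp ⟨fun y => (x, y), by fun_prop⟩ =
          ContinuousMap.const Y x := rfl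
      have e2 : (ContinuousMap.snd : C(X × Y, Y)).comp ⟨fun y => (x, y), by fun_prop⟩ =
          ContinuousMap.id Y := rfl
      simp only [TensorProduct.map_tmul, map_map, e1, e2, map_const, map_id', LinearMap.id_apply,
        TensorProduct.lid_tmul, smul_tmul]
  | hunc X a ha => rw [cross_unc, zc9_cop_unc, ha, TensorProduct.map_tmul, LinearMap.id_apply]
theorem cop_kap (w : Ch F X ⊗[F] Ch F Y) : cop (kap w) = w := by
  induction w using TensorProduct.induction_on with
  | zero => simp
  | add a b ha hb => simp only [map_add, ha, hb]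
  | tmul a b => rw [kap_tmul, cop_cross]
theorem cop_mem {A : Set X} {B : Set Y} {c : Ch F (X × Y)} (h : c ∈ CC F (A ×ˢ B)) :
    cop c ∈ TS (CC F A) (CC F B) := by
  obtain ⟨b, rfl⟩ := mem_CC_iff.1 h
  let e : C((A ×ˢ B : Set (X × Y)), A × B) :=
    ⟨fun z => (⟨z.1.1, z.2.1⟩, ⟨z.1.2, z.2.2⟩), by fun_prop⟩
  have he : incl (A ×ˢ B) = ((incl A).prodMap (incl B)).comp e := rfl
  rw [he, ← map_map, cop_map]
  induction cop (map e b) using TensorProduct.induction_on with
  | zero => simp
  | add a b ha hb => rw [map_add]; exact add_mem ha hb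
  | tmul u v =>
    exact Submodule.subset_span ⟨_, mem_CC_iff.2 ⟨u, rfl⟩, _, mem_CC_iff.2 ⟨v, rfl⟩,
      TensorProduct.map_tmul _ _ _ _⟩
theorem zc9_TS {P Q R : Type} [AddCommGroup P] [Module F P] [AddCommGroup Q] [Module F Q]
    [AddCommGroup R] [Module F R] {A : Submodule F P} {B : Submodule F Q} (L : P ⊗[F] Q →ₗ[F] R)
    (S : Submodule F R) (hL : ∀ a ∈ A, ∀ b ∈ B, L (a ⊗ₜ b) ∈ S) {w : P ⊗[F] Q}
    (h : w ∈ TS A B) : L w ∈ S := by
  have : TS A B ≤ S.comap L := by
    refine Submodule.span_le.2 ?_
    rintro _ ⟨a, ha, b, hb, rfl⟩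
    exact hL a ha b hb
  exact this h
theorem kap_mem {A : Set X} {B : Set Y} {w : Ch F X ⊗[F] Ch F Y} (h : w ∈ TS (CC F A) (CC F B)) :
    kap w ∈ CC F (A ×ˢ B) :=
  zc9_TS kap _ (fun a ha b hb => by rw [kap_tmul]; exact cross_mem_CC ha hb) h
theorem zc9_diag_dg (c : Ch F X) : ∀ k i j : ℕ, i + j ≠ k →
    TensorProduct.map (dg i) (dg j) (diagC (dg k c)) = 0 := by
  induction X, c using ind with
  | h0 => simp
  | hadd X a b ha hb => intro k i j h; simp only [map_add, ha k i j h, hb k i j h, add_zero]
  | hsm X r a ha => intro k i j h; simp only [map_smul, ha k i j h, smul_zero]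
  | hpt X x =>
    intro k i j h
    cases k with
    | succ k => simp
    | zero =>
      rw [dg_zero_pt, diagC_pt, TensorProduct.map_tmul]
      cases i with
      | succ i => simp
      | zero =>
        cases j with
        | succ j => simp
        | zero => exact absurd rfl h
  | hunc X a ha =>
    intro k i j h
    cases k with
    | zero => simp
    | succ k =>
      rw [dg_succ_unc, diagC_unc, map_add]
      have h1 : TensorProduct.map (dg i) (dg j)
          (TensorProduct.map unc (map (ev X 0)) (diagC (dg k a))) = 0 := by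
        cases i with
        | zero =>
          induction diagC (dg k a) using TensorProduct.induction_on with
          | zero => simp
          | add u v hu hv => simp only [map_add, hu, hv, add_zero]
          | tmul u v => simp
        | succ i =>
          have : ∀ w : Ch F C(I, X) ⊗[F] Ch F C(I, X), TensorProduct.map (dg (i + 1)) (dg j)
              (TensorProduct.map unc (map (ev X 0)) w) =
              TensorProduct.map unc (map (ev X 0)) (TensorProduct.map (dg i) (dg j) w) := by
            intro w
            induction w using TensorProduct.induction_on with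
            | zero => simp
            | add u v hu hv => simp only [map_add, hu, hv]
            | tmul u v => simp only [TensorProduct.map_tmul, dg_succ_unc, dg_map]
          rw [this, ha k i j (by omega), map_zero]
      have h2 : TensorProduct.map (dg i) (dg j)
          (TensorProduct.map (om ∘ₗ map (ev X 1)) unc (diagC (dg k a))) = 0 := by
        cases j with
        | zero =>
          induction diagC (dg k a) using TensorProduct.induction_on with
          | zero => simp
          | add u v hu hv => simp only [map_add, hu, hv, add_zero]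
          | tmul u v => simp
        | succ j =>
          have : ∀ w : Ch F C(I, X) ⊗[F] Ch F C(I, X), TensorProduct.map (dg i) (dg (j + 1))
              (TensorProduct.map (om ∘ₗ map (ev X 1)) unc w) =
              TensorProduct.map (om ∘ₗ map (ev X 1)) unc (TensorProduct.map (dg i) (dg j) w) := by
            intro w
            induction w using TensorProduct.induction_on with
            | zero => simp
            | add u v hu hv => simp only [map_add, hu, hv]
            | tmul u v =>
              simp only [TensorProduct.map_tmul, LinearMap.comp_apply, dg_succ_unc, dg_om, dg_map]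
          rw [this, ha k i j (by omega), map_zero]
      rw [h1, h2, add_zero]
/-- the splitting respects the total degree -/
theorem cop_dg {k i j : ℕ} {c : Ch F (X × Y)} (h : c ∈ HD F _ k) (hij : i + j ≠ k) :
    TensorProduct.map (dg i) (dg j) (cop c) = 0 := by
  have : ∀ w : Ch F (X × Y) ⊗[F] Ch F (X × Y), TensorProduct.map (dg i) (dg j)
      (TensorProduct.map (map ContinuousMap.fst) (map ContinuousMap.snd) w) =
      TensorProduct.map (map ContinuousMap.fst) (map ContinuousMap.snd)
        (TensorProduct.map (dg i) (dg j) w) := by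
    intro w
    induction w using TensorProduct.induction_on with
    | zero => simp
    | add u v hu hv => simp only [map_add, hu, hv]
    | tmul u v => simp only [TensorProduct.map_tmul, dg_map]
  rw [zc9_cop, this, ← mem_HD.1 h, zc9_diag_dg c k i j hij, map_zero]

/-- slant product with a functional on the first factor -/
noncomputable def sl (l : Ch F X →ₗ[F] F) : Ch F (X × Y) →ₗ[F] Ch F Y :=
  (TensorProduct.lid F _).toLinearMap ∘ₗ TensorProduct.map l LinearMap.id ∘ₗ cop

/-- slant product with a functional on the second factor -/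
noncomputable def sr (l : Ch F Y →ₗ[F] F) : Ch F (X × Y) →ₗ[F] Ch F X :=
  (TensorProduct.rid F _).toLinearMap ∘ₗ TensorProduct.map LinearMap.id l ∘ₗ cop

theorem zc9_sl (l : Ch F X →ₗ[F] F) (c : Ch F (X × Y)) :
    sl l c = TensorProduct.lid F _ (TensorProduct.map l LinearMap.id (cop c)) := rfl
theorem zc9_sr (l : Ch F Y →ₗ[F] F) (c : Ch F (X × Y)) :
    sr l c = TensorProduct.rid F _ (TensorProduct.map LinearMap.id l (cop c)) := rfl

theorem sl_cross (l : Ch F X →ₗ[F] F) (a : Ch F X) (b : Ch F Y) : sl l (cross a b) = l a • b := by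
  simp [zc9_sl, cop_cross]
theorem sr_cross (l : Ch F Y →ₗ[F] F) (a : Ch F X) (b : Ch F Y) : sr l (cross a b) = l b • a := by
  simp [zc9_sr, cop_cross]
theorem sl_sr (l : Ch F X →ₗ[F] F) (m : Ch F Y →ₗ[F] F) (c : Ch F (X × Y)) :
    m (sl l c) = l (sr m c) := by
  rw [zc9_sl, zc9_sr]
  induction cop c using TensorProduct.induction_on with
  | zero => simp
  | add u v hu hv => simp only [map_add, hu, hv]
  | tmul u v => simp [mul_comm]
theorem sl_mem (l : Ch F X →ₗ[F] F) {A : Set X} {B : Set Y} {c : Ch F (X × Y)}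
    (h : c ∈ CC F (A ×ˢ B)) : sl l c ∈ CC F B :=
  zc9_TS ((TensorProduct.lid F _).toLinearMap ∘ₗ TensorProduct.map l LinearMap.id) _
    (fun a ha b hb => by simpa using Submodule.smul_mem _ (l a) hb) (cop_mem h)
theorem sr_mem (l : Ch F Y →ₗ[F] F) {A : Set X} {B : Set Y} {c : Ch F (X × Y)}
    (h : c ∈ CC F (A ×ˢ B)) : sr l c ∈ CC F A :=
  zc9_TS ((TensorProduct.rid F _).toLinearMap ∘ₗ TensorProduct.map LinearMap.id l) _
    (fun a ha b hb => by simpa using Submodule.smul_mem _ (l b) ha) (cop_mem h)
theorem sl_zero {l : Ch F X →ₗ[F] F} {A : Set X} {B : Set Y} (hl : ∀ a ∈ CC F A, l a = 0)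
    {c : Ch F (X × Y)} (h : c ∈ CC F (A ×ˢ B)) : sl l c = 0 :=
  (Submodule.mem_bot F).1 <|
    zc9_TS ((TensorProduct.lid F _).toLinearMap ∘ₗ TensorProduct.map l LinearMap.id) ⊥
      (fun a ha b hb => by simp [hl a ha]) (cop_mem h)
theorem sr_zero {l : Ch F Y →ₗ[F] F} {A : Set X} {B : Set Y} (hl : ∀ b ∈ CC F B, l b = 0)
    {c : Ch F (X × Y)} (h : c ∈ CC F (A ×ˢ B)) : sr l c = 0 :=
  (Submodule.mem_bot F).1 <|
    zc9_TS ((TensorProduct.rid F _).toLinearMap ∘ₗ TensorProduct.map LinearMap.id l) ⊥
      (fun a ha b hb => by simp [hl b hb]) (cop_mem h)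
theorem sl_bd (l : Ch F X →ₗ[F] F) (c : Ch F (X × Y)) :
    sl l (bd c) = sl (l ∘ₗ bd) c + bd (sl (l ∘ₗ om) c) := by
  rw [zc9_sl, zc9_sl, zc9_sl, ← tbd_cop]
  induction cop c using TensorProduct.induction_on with
  | zero => simp
  | add u v hu hv => simp only [map_add, hu, hv]; abel
  | tmul u v => simp [tbd_tmul]
theorem sr_bd {l : Ch F Y →ₗ[F] F} {A : Set X} {B : Set Y} (hl : ∀ b ∈ CC F B, l (bd b) = 0)
    {c : Ch F (X × Y)} (h : c ∈ CC F (A ×ˢ B)) : sr l (bd c) = bd (sr l c) := by
  rw [zc9_sr, zc9_sr, ← tbd_cop, ← sub_eq_zero]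
  exact (Submodule.mem_bot F).1 <|
    zc9_TS (((TensorProduct.rid F _).toLinearMap ∘ₗ TensorProduct.map LinearMap.id l) ∘ₗ tbd -
      bd ∘ₗ ((TensorProduct.rid F _).toLinearMap ∘ₗ TensorProduct.map LinearMap.id l)) ⊥
      (fun a ha b hb => by simp [tbd_tmul, hl b hb]) (cop_mem h)
theorem zc9_HD {j : ℕ} {x : Ch F X} (h : ∀ m, m ≠ j → dg m x = 0) : x ∈ HD F X j := by
  obtain ⟨n, hn⟩ := exists_sum_dg x
  have := hn (max n (j + 1)) (le_max_left _ _)
  rw [Finset.sum_eq_single j (fun m _ hm => h m hm)
    (fun hj => absurd (Finset.mem_range.2 (lt_max_of_lt_right j.lt_succ_self)) hj)] at this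
  exact this
theorem zc9_dg_sl (l : Ch F X →ₗ[F] F) (i m : ℕ) (c : Ch F (X × Y)) :
    dg m (sl (l ∘ₗ dg i) c) = TensorProduct.lid F _ (TensorProduct.map l LinearMap.id
      (TensorProduct.map (dg i) (dg m) (cop c))) := by
  rw [zc9_sl]
  induction cop c using TensorProduct.induction_on with
  | zero => simp
  | add u v hu hv => simp only [map_add, hu, hv]
  | tmul u v => simp
theorem zc9_dg_sr (l : Ch F Y →ₗ[F] F) (j m : ℕ) (c : Ch F (X × Y)) :
    dg m (sr (l ∘ₗ dg j) c) = TensorProduct.rid F _ (TensorProduct.map LinearMap.id l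
      (TensorProduct.map (dg m) (dg j) (cop c))) := by
  rw [zc9_sr]
  induction cop c using TensorProduct.induction_on with
  | zero => simp
  | add u v hu hv => simp only [map_add, hu, hv]
  | tmul u v => simp
theorem sl_HD (l : Ch F X →ₗ[F] F) {i j : ℕ} {c : Ch F (X × Y)} (h : c ∈ HD F _ (i + j)) :
    sl (l ∘ₗ dg i) c ∈ HD F Y j :=
  zc9_HD fun m hm => by rw [zc9_dg_sl, cop_dg h (by omega), map_zero, map_zero]
theorem sl_HD_lt (l : Ch F X →ₗ[F] F) {i k : ℕ} {c : Ch F (X × Y)} (h : c ∈ HD F _ k)
    (hik : k < i) : sl (l ∘ₗ dg i) c = 0 := by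
  have h0 : ∀ m, dg m (sl (l ∘ₗ dg i) c) = 0 := fun m => by
    rw [zc9_dg_sl, cop_dg h (by omega), map_zero, map_zero]
  rw [← mem_HD.1 (zc9_HD (j := 0) fun m _ => h0 m), h0]
theorem sr_HD (l : Ch F Y →ₗ[F] F) {i j : ℕ} {c : Ch F (X × Y)} (h : c ∈ HD F _ (i + j)) :
    sr (l ∘ₗ dg j) c ∈ HD F X i :=
  zc9_HD fun m hm => by rw [zc9_dg_sr, cop_dg h (by omega), map_zero, map_zero]
theorem sl_sum (l : Ch F X →ₗ[F] F) (c : Ch F (X × Y)) :
    ∃ n, sl l c = ∑ i ∈ Finset.range n, sl (l ∘ₗ dg i) c := by
  have key : ∀ w : Ch F X ⊗[F] Ch F Y, ∃ n, ∀ m, n ≤ m →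
      TensorProduct.lid F _ (TensorProduct.map l LinearMap.id w) =
        ∑ i ∈ Finset.range m,
          TensorProduct.lid F _ (TensorProduct.map (l ∘ₗ dg i) LinearMap.id w) := by
    intro w
    induction w using TensorProduct.induction_on with
    | zero => exact ⟨0, fun m _ => by simp⟩
    | add u v hu hv =>
      obtain ⟨n, hn⟩ := hu
      obtain ⟨n', hn'⟩ := hv
      refine ⟨max n n', fun m hm => ?_⟩
      simp only [map_add, Finset.sum_add_distrib]
      rw [hn m (le_of_max_le_left hm), hn' m (le_of_max_le_right hm)]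
    | tmul u v =>
      obtain ⟨n, hn⟩ := exists_sum_dg u
      refine ⟨n, fun m hm => ?_⟩
      simp only [TensorProduct.map_tmul, LinearMap.comp_apply, LinearMap.id_apply,
        TensorProduct.lid_tmul]
      rw [← Finset.sum_smul, ← map_sum, hn m hm]
  obtain ⟨n, hn⟩ := key (cop c)
  exact ⟨n, hn n le_rfl⟩

end Pool.Agent.Fu
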