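import Mathlib
import Pool.Agent.P.MP_365c00_gt.ZC9

/-! The two natural homotopies: Eilenberg-Zilber and subdivision. -/

set_option linter.unusedSectionVars false
set_option linter.unusedVariables false

open Set Topology unitInterval TensorProduct

namespace Pool.Agent.Fu

variable {F : Type} [Field F] {X Y Z : Type} [TopologicalSpace X] [TopologicalSpace Y]
  [TopologicalSpace Z]

/-- the two paths join from corner to corner -/
def Glue (a b : Pc) : Prop :=
  ∀ u, a (u, 0) = (0, 0) ∧ a (u, 1) = b (u, 0) ∧ b (u, 1) = (1, 1)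

theorem bd_opr {a b : Pc} (h : Glue a b) (c : Ch F X) : bd (opr a b c) = opr a b (bd c) := by
  induction X, c using ind with
  | h0 => simp
  | hadd X x y hx hy => simp only [map_add, hx, hy]
  | hsm X r x hx => simp only [map_smul, hx]
  | hpt X x => rw [opr_pt, bd_pt, bd_pt, map_zero]
  | hunc X x hx =>
    have e1 : (ev _ 1).comp (opM a X) = (ev _ 0).comp (opM b X) := by
      ext1 g
      ext1 u
      show ((g u).1 (a (u, 1)).1, (g u).2 (a (u, 1)).2) =
        ((g u).1 (b (u, 0)).1, (g u).2 (b (u, 0)).2)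
      rw [(h u).2.1]
    have e2 : (ev _ 0).comp (opM a X) = post ((ev X 0).prodMap (ev X 0)) := by
      ext1 g
      ext1 u
      show ((g u).1 (a (u, 0)).1, (g u).2 (a (u, 0)).2) = ((g u).1 0, (g u).2 0)
      rw [(h u).1]
    have e3 : (ev _ 1).comp (opM b X) = post ((ev X 1).prodMap (ev X 1)) := by
      ext1 g
      ext1 u
      show ((g u).1 (b (u, 1)).1, (g u).2 (b (u, 1)).2) = ((g u).1 1, (g u).2 1)
      rw [(h u).2.2]
    rw [opr_unc, map_add, bd_unc, bd_unc, bd_unc, map_sub, map_sub, opr_unc, opr_map, opr_map,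
      bd_map, bd_map, hx, map_map, map_map, map_map, map_map, e1, e2, e3]
    abel

theorem ZC10_dg_opr (a b : Pc) (c : Ch F X) : ∀ k, dg k (opr a b c) = opr a b (dg k c) := by
  induction X, c using ind with
  | h0 => simp
  | hadd X x y hx hy => intro k; simp only [map_add, hx, hy]
  | hsm X r x hx => intro k; simp only [map_smul, hx]
  | hpt X x =>
    intro k
    cases k with
    | zero => rw [dg_zero_pt, opr_pt, dg_zero_pt]
    | succ k => rw [dg_succ_pt, opr_pt, dg_succ_pt, map_zero]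
  | hunc X x hx =>
    intro k
    cases k with
    | zero => rw [dg_zero_unc, opr_unc, map_add, dg_zero_unc, dg_zero_unc, map_zero, add_zero]
    | succ k =>
      rw [dg_succ_unc, opr_unc, opr_unc, map_add, dg_succ_unc, dg_succ_unc, dg_map, dg_map, hx]

theorem opr_mem_HD (a b : Pc) {k : ℕ} {c : Ch F X} (h : c ∈ HD F X k) : opr a b c ∈ HD F _ k := by
  rw [mem_HD, ZC10_dg_opr, mem_HD.1 h]

theorem opr_mem_CC (a b : Pc) {A : Set X} {c : Ch F X} (h : c ∈ CC F A) :
    opr a b c ∈ CC F (hat (A ×ˢ A)) := by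
  refine CC_ind (F := F) (P := fun X _ A c => opr a b c ∈ CC F (hat (A ×ˢ A)))
    ?_ ?_ ?_ ?_ ?_ X A c h
  · intro X _ A
    rw [map_zero]
    exact zero_mem _
  · intro X _ A x y hx hy
    rw [map_add]
    exact add_mem hx hy
  · intro X _ A r x hx
    rw [map_smul]
    exact Submodule.smul_mem _ r hx
  · intro X _ A x hx
    rw [opr_pt]
    exact pt_mem_CC fun _ => ⟨hx, hx⟩
  · intro X _ A x _ hx
    have e : ∀ a : Pc, MapsTo (opM a X) (hat (hat A ×ˢ hat A)) (hat (hat (A ×ˢ A))) :=
      fun a g hg s u => ⟨(hg u).1 _, (hg u).2 _⟩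
    rw [opr_unc]
    exact add_mem (unc_mem_CC (map_mem_CC (e a) hx)) (unc_mem_CC (map_mem_CC (e b) hx))

/-- a pair of paths, read along the path of the family `a` at the parameter `u` -/
def ZC10_pair (a : Pc) (u : I) (X : Type) [TopologicalSpace X] :
    C(C(I, X) × C(I, X), C(I, X × X)) :=
  ContinuousMap.curry ⟨fun w : (C(I, X) × C(I, X)) × I =>
    (w.1.1 (a (u, w.2)).1, w.1.2 (a (u, w.2)).2), by fun_prop⟩

theorem ZC10_ev_unc (a b : Pc) (u : I) (c : Ch F C(I, X)) :
    map (ev _ u) (opr a b (unc c)) =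
      unc (map (ZC10_pair a u X) (map (ev _ u) (opr a b c))) +
        unc (map (ZC10_pair b u X) (map (ev _ u) (opr a b c))) := by
  have e : ∀ a : Pc, (post (ev _ u)).comp (opM a X) = (ZC10_pair a u X).comp (ev _ u) :=
    fun a => rfl
  rw [opr_unc, map_add, map_unc, map_unc, map_map, map_map, map_map, map_map, e, e]

/-- at a parameter where the first path is the diagonal and the second is constant -/
theorem ev_opr_diag {a b : Pc} {u : I} (ha : ∀ s, a (u, s) = (s, s)) (hb : ∀ s, b (u, s) = (1, 1))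
    (c : Ch F X) : map (ev _ u) (opr a b c) = map ⟨fun x => (x, x), by fun_prop⟩ c := by
  induction X, c using ind with
  | h0 => simp
  | hadd X x y hx hy => simp only [map_add, hx, hy]
  | hsm X r x hx => simp only [map_smul, hx]
  | hpt X x => rw [opr_pt, map_pt, map_pt]; rfl
  | hunc X x hx =>
    have e1 : (ZC10_pair a u X).comp ⟨fun x => (x, x), by fun_prop⟩ =
        post ⟨fun x => (x, x), by fun_prop⟩ := by
      ext1 g
      ext1 s
      show (g (a (u, s)).1, g (a (u, s)).2) = (g s, g s)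
      rw [ha]
    have e2 : (ZC10_pair b u X).comp ⟨fun x => (x, x), by fun_prop⟩ =
        (cst _).comp ⟨fun g => (g 1, g 1), by fun_prop⟩ := by
      ext1 g
      ext1 s
      show (g (b (u, s)).1, g (b (u, s)).2) = (g 1, g 1)
      rw [hb]
    rw [ZC10_ev_unc, hx, map_map, map_map, e1, e2, ← map_map (cst _), unc_cst, add_zero, map_unc]

theorem ev_opr_ez {a b : Pc} {u : I} (ha : ∀ s, a (u, s) = (s, 0)) (hb : ∀ s, b (u, s) = (1, s))
    (c : Ch F X) : map (ev _ u) (opr a b c) = kap (diagC c) := by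
  induction X, c using ind with
  | h0 => simp
  | hadd X x y hx hy => simp only [map_add, hx, hy]
  | hsm X r x hx => simp only [map_smul, hx]
  | hpt X x => rw [opr_pt, map_pt, diagC_pt, kap_tmul, cross_pt, map_pt]; rfl
  | hunc X x hx =>
    have e1 : ZC10_pair a u X = (prL X X).comp ((ContinuousMap.id _).prodMap (ev X 0)) := by
      ext1 g
      ext1 s
      show (g.1 (a (u, s)).1, g.2 (a (u, s)).2) = (g.1 s, g.2 0)
      rw [ha]
    have e2 : ZC10_pair b u X = (prR X X).comp ((ev X 1).prodMap (ContinuousMap.id _)) := by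
      ext1 g
      ext1 s
      show (g.1 (b (u, s)).1, g.2 (b (u, s)).2) = (g.1 1, g.2 s)
      rw [hb]
    rw [ZC10_ev_unc, hx, diagC_unc, e1, e2]
    generalize diagC x = w
    induction w using TensorProduct.induction_on with
    | zero => simp
    | add p q hp hq =>
      simp only [map_add] at hp hq ⊢
      rw [add_add_add_comm, hp, hq, add_add_add_comm]
    | tmul p q =>
      rw [TensorProduct.map_tmul, TensorProduct.map_tmul, map_add, kap_tmul, kap_tmul, kap_tmul,
        cross_unc, cross_unc_right, LinearMap.comp_apply, om_om, cross_map_right, cross_map_left,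
        map_map, map_map]

theorem ev_opr_sd {a b : Pc} {u : I} (ha : ∀ s, (a (u, s)).1 = hl s) (hb : ∀ s, (b (u, s)).1 = hr s)
    (c : Ch F X) : map ContinuousMap.fst (map (ev _ u) (opr a b c)) = sd c := by
  induction X, c using ind with
  | h0 => simp
  | hadd X x y hx hy => simp only [map_add, hx, hy]
  | hsm X r x hx => simp only [map_smul, hx]
  | hpt X x => rw [opr_pt, map_pt, map_pt, sd_pt]; rfl
  | hunc X x hx =>
    have e1 : (post ContinuousMap.fst).comp (ZC10_pair a u X) =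
        (prec hl X).comp ContinuousMap.fst := by
      ext1 g
      ext1 s
      show g.1 (a (u, s)).1 = g.1 (hl s)
      rw [ha]
    have e2 : (post ContinuousMap.fst).comp (ZC10_pair b u X) =
        (prec hr X).comp ContinuousMap.fst := by
      ext1 g
      ext1 s
      show g.1 (b (u, s)).1 = g.1 (hr s)
      rw [hb]
    rw [ZC10_ev_unc, map_add, map_unc, map_unc, map_map (post _), map_map (post _), e1, e2,
      ← map_map (prec hl X), ← map_map (prec hr X), hx, sd_unc]

/-- the product on the interval -/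
def ZC10_mu : C(I × I, I) :=
  ⟨fun w => w.1 * w.2, Continuous.subtype_mk
    ((continuous_subtype_val.comp continuous_fst).mul
      (continuous_subtype_val.comp continuous_snd)) _⟩

/-- the reflected product on the interval -/
def ZC10_nu : C(I × I, I) :=
  ⟨fun w => σ (ZC10_mu (σ w.1, σ w.2)), continuous_symm.comp (ZC10_mu.continuous.comp
    ((continuous_symm.comp continuous_fst).prodMk (continuous_symm.comp continuous_snd)))⟩

theorem ZC10_mu_apply (u s : I) : ZC10_mu (u, s) = u * s := rfl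
theorem ZC10_nu_apply (u s : I) : ZC10_nu (u, s) = σ (σ u * σ s) := rfl

theorem ZC10_kap_map {X' Y' : Type} [TopologicalSpace X'] [TopologicalSpace Y'] (f : C(X, X'))
    (g : C(Y, Y')) (w : Ch F X ⊗[F] Ch F Y) :
    kap (TensorProduct.map (map f) (map g) w) = map (f.prodMap g) (kap w) := by
  induction w using TensorProduct.induction_on with
  | zero => simp
  | add p q hp hq => simp only [map_add, hp, hq]
  | tmul p q => rw [TensorProduct.map_tmul, kap_tmul, kap_tmul, cross_map]

theorem ZC10_htp {a b : Pc} (h : Glue a b) (q : C(X × X, Y)) (c : Ch F X) :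
    map q (map (ev _ 1) (opr a b c)) - map q (map (ev _ 0) (opr a b c)) =
      bd (map q (unc (opr a b c))) + map q (unc (opr a b (bd c))) := by
  rw [bd_map, bd_unc, bd_opr h, map_sub, map_sub, sub_add_cancel]

/-- the family of paths for the subdivision -/
theorem ZC10_sd_paths : ∃ a b : Pc, Glue a b ∧ (∀ s, a (1, s) = (s, s)) ∧
    (∀ s, b (1, s) = (1, 1)) ∧ (∀ s, (a (0, s)).1 = hl s) ∧ ∀ s, (b (0, s)).1 = hr s := by
  have h1 : hr 1 = 1 := Subtype.ext (by show (1 + ((1 : I) : ℝ)) / 2 = 1; norm_num)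
  let m : C(I × I, I × I) := hr.prodMap (ContinuousMap.id I)
  refine ⟨(ZC10_mu.comp m).prodMk (ZC10_mu.comp m), (ZC10_nu.comp m).prodMk (ZC10_nu.comp m),
    fun u => ⟨?_, ?_, ?_⟩, fun s => ?_, fun s => ?_, fun s => ?_, fun s => ?_⟩
  · show (hr u * 0, hr u * 0) = ((0 : I), (0 : I))
    rw [mul_zero]
  · show (hr u * 1, hr u * 1) = (σ (σ (hr u) * σ 0), σ (σ (hr u) * σ 0))
    rw [symm_zero, mul_one, mul_one, symm_symm]
  · show (σ (σ (hr u) * σ 1), σ (σ (hr u) * σ 1)) = ((1 : I), (1 : I))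
    rw [symm_one, mul_zero, symm_zero]
  · show (hr 1 * s, hr 1 * s) = (s, s)
    rw [h1, one_mul]
  · show (σ (σ (hr 1) * σ s), σ (σ (hr 1) * σ s)) = ((1 : I), (1 : I))
    rw [h1, symm_one, zero_mul, symm_zero]
  · refine Subtype.ext ?_
    show (1 + ((0 : I) : ℝ)) / 2 * (s : ℝ) = s / 2
    rw [Set.Icc.coe_zero]
    ring
  · refine Subtype.ext ?_
    show 1 - (1 - (1 + ((0 : I) : ℝ)) / 2) * (1 - (s : ℝ)) = (1 + s) / 2
    rw [Set.Icc.coe_zero]
    ring


/-- the Eilenberg-Zilber homotopy -/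
theorem exists_ez (F : Type) [Field F] (X Y : Type) [TopologicalSpace X] [TopologicalSpace Y] :
    ∃ K : Ch F (X × Y) →ₗ[F] Ch F (X × Y), (∀ c, c - kap (cop c) = bd (K c) + K (bd c)) ∧
      ∀ (A : Set X) (B : Set Y), ∀ c ∈ CC F (A ×ˢ B), K c ∈ CC F (A ×ˢ B) := by
  let a : Pc := ContinuousMap.snd.prodMk ZC10_mu
  let b : Pc := (ContinuousMap.const _ 1).prodMk ZC10_nu
  have h : Glue a b := by
    refine fun u => ⟨?_, ?_, ?_⟩
    · show ((0 : I), u * 0) = ((0 : I), (0 : I))
      rw [mul_zero]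
    · show ((1 : I), u * 1) = ((1 : I), σ (σ u * σ 0))
      rw [symm_zero, mul_one, mul_one, symm_symm]
    · show ((1 : I), σ (σ u * σ 1)) = ((1 : I), (1 : I))
      rw [symm_one, mul_zero, symm_zero]
  have a1 : ∀ s, a (1, s) = (s, s) := fun s => by
    show (s, 1 * s) = (s, s)
    rw [one_mul]
  have b1 : ∀ s, b (1, s) = (1, 1) := fun s => by
    show ((1 : I), σ (σ 1 * σ s)) = ((1 : I), (1 : I))
    rw [symm_one, zero_mul, symm_zero]
  have a0 : ∀ s, a (0, s) = (s, 0) := fun s => by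
    show (s, 0 * s) = (s, (0 : I))
    rw [zero_mul]
  have b0 : ∀ s, b (0, s) = (1, s) := fun s => by
    show ((1 : I), σ (σ 0 * σ s)) = ((1 : I), s)
    rw [symm_zero, one_mul, symm_symm]
  let q : C((X × Y) × (X × Y), X × Y) := ContinuousMap.fst.prodMap ContinuousMap.snd
  refine ⟨map q ∘ₗ unc ∘ₗ opr a b, fun c => ?_, fun A B c hc => ?_⟩
  · have e : q.comp ⟨fun x => (x, x), by fun_prop⟩ = ContinuousMap.id _ := rfl
    have h1 := ZC10_htp h q c
    rw [ev_opr_diag a1 b1, ev_opr_ez a0 b0, map_map, e, map_id', ← ZC10_kap_map] at h1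
    exact h1
  · exact map_mem_CC (A := (A ×ˢ B) ×ˢ (A ×ˢ B)) (B := A ×ˢ B)
      (fun w hw => mem_prod.2 ⟨hw.1.1, hw.2.2⟩)
      (unc_mem_CC (opr_mem_CC a b hc))

theorem bd_sd (c : Ch F X) : bd (sd c) = sd (bd c) := by
  obtain ⟨a, b, h, -, -, a0, b0⟩ := ZC10_sd_paths
  rw [← ev_opr_sd a0 b0, ← ev_opr_sd a0 b0, bd_map, bd_map, bd_opr h]

theorem exists_sd_htp (F : Type) [Field F] (X : Type) [TopologicalSpace X] :
    ∃ K : Ch F X →ₗ[F] Ch F X, (∀ c, c - sd c = bd (K c) + K (bd c)) ∧
      (∀ (A : Set X), ∀ c ∈ CC F A, K c ∈ CC F A) ∧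
      ∀ k, ∀ c ∈ HD F X k, K c ∈ HD F X (k + 1) := by
  obtain ⟨a, b, h, a1, b1, a0, b0⟩ := ZC10_sd_paths
  refine ⟨map ContinuousMap.fst ∘ₗ unc ∘ₗ opr a b, fun c => ?_, fun A c hc => ?_,
    fun k c hc => ?_⟩
  · have e : (ContinuousMap.fst : C(X × X, X)).comp ⟨fun x => (x, x), by fun_prop⟩ =
        ContinuousMap.id _ := rfl
    have h1 := ZC10_htp h ContinuousMap.fst c
    rw [ev_opr_diag a1 b1, ev_opr_sd a0 b0, map_map, e, map_id'] at h1
    exact h1
  · exact map_mem_CC (A := A ×ˢ A) (fun w hw => hw.1) (unc_mem_CC (opr_mem_CC a b hc))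
  · exact map_mem_HD _ (unc_mem_HD (opr_mem_HD a b hc))

end Pool.Agent.Fu
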