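import Mathlib
import Pool.Agent.P.MP_365c00_gt.ZC10

/-! Small chains. -/

set_option linter.unusedSectionVars false
set_option linter.unusedVariables false

open Set Topology unitInterval TensorProduct

namespace Pool.Agent.Fu

variable {F : Type} [Field F] {X Y Z : Type} [TopologicalSpace X] [TopologicalSpace Y]
  [TopologicalSpace Z]

theorem sd_pow_succ (m : ℕ) (c : Ch F X) :
    (sd ^ (m + 1) : Module.End F (Ch F X)) c = sd ((sd ^ m : Module.End F (Ch F X)) c) := by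
  rw [pow_succ']; rfl

theorem sd_pow_succ' (m : ℕ) (c : Ch F X) :
    (sd ^ (m + 1) : Module.End F (Ch F X)) c = (sd ^ m : Module.End F (Ch F X)) (sd c) := by
  rw [pow_succ]; rfl

theorem bd_sd_pow (m : ℕ) (c : Ch F X) :
    bd ((sd ^ m : Module.End F (Ch F X)) c) = (sd ^ m : Module.End F (Ch F X)) (bd c) := by
  induction m with
  | zero => rfl
  | succ m ih => rw [sd_pow_succ, sd_pow_succ, bd_sd, ih]
theorem sd_pow_map (m : ℕ) (f : C(X, Y)) (c : Ch F X) :
    (sd ^ m : Module.End F (Ch F Y)) (map f c) = map f ((sd ^ m : Module.End F (Ch F X)) c) := by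
  induction m with
  | zero => rfl
  | succ m ih => rw [sd_pow_succ, sd_pow_succ, ih, sd_map]
theorem sd_pow_mem_CC (m : ℕ) {A : Set X} {c : Ch F X} (h : c ∈ CC F A) :
    (sd ^ m : Module.End F (Ch F X)) c ∈ CC F A := by
  induction m with
  | zero => exact h
  | succ m ih => rw [sd_pow_succ]; exact sd_mem_CC ih
theorem sd_pow_mem_HD (m : ℕ) {k : ℕ} {c : Ch F X} (h : c ∈ HD F X k) :
    (sd ^ m : Module.End F (Ch F X)) c ∈ HD F X k := by
  induction m with
  | zero => exact h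
  | succ m ih => rw [sd_pow_succ]; exact sd_mem_HD ih

theorem exists_sd_pow_htp (F : Type) [Field F] (X : Type) [TopologicalSpace X] (m : ℕ) :
    ∃ K : Ch F X →ₗ[F] Ch F X,
      (∀ c, c - (sd ^ m : Module.End F (Ch F X)) c = bd (K c) + K (bd c)) ∧
      (∀ (A : Set X), ∀ c ∈ CC F A, K c ∈ CC F A) ∧
      ∀ k, ∀ c ∈ HD F X k, K c ∈ HD F X (k + 1) := by
  obtain ⟨K, h1, h2, h3⟩ := exists_sd_htp F X
  induction m with
  | zero => exact ⟨0, fun c => by simp, fun A c _ => zero_mem _, fun k c _ => zero_mem _⟩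
  | succ m ih =>
    obtain ⟨L, l1, l2, l3⟩ := ih
    refine ⟨L + K ∘ₗ (sd ^ m : Module.End F (Ch F X)), fun c => ?_,
      fun A c hc => add_mem (l2 A c hc) (h2 A _ (sd_pow_mem_CC m hc)),
      fun k c hc => add_mem (l3 k c hc) (h3 k _ (sd_pow_mem_HD m hc))⟩
    have e1 := l1 c
    have e2 := h1 ((sd ^ m : Module.End F (Ch F X)) c)
    rw [bd_sd_pow] at e2
    simp only [LinearMap.add_apply, LinearMap.comp_apply, map_add]
    rw [sd_pow_succ, add_add_add_comm, ← e1, ← e2, sub_add_sub_cancel]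

theorem sd_pow_pt (m : ℕ) (x : X) : (sd ^ m : Module.End F (Ch F X)) (pt x) = pt x := by
  induction m with
  | zero => rfl
  | succ m ih => rw [sd_pow_succ, ih, sd_pt]

theorem dist_hl (s t : I) : dist (hl s) (hl t) = dist s t / 2 := by
  show dist ((s : ℝ) / 2) ((t : ℝ) / 2) = dist (s : ℝ) (t : ℝ) / 2
  rw [Real.dist_eq, Real.dist_eq, ← sub_div, abs_div, abs_two]

theorem dist_hr (s t : I) : dist (hr s) (hr t) = dist s t / 2 := by
  show dist ((1 + s : ℝ) / 2) ((1 + t : ℝ) / 2) = dist (s : ℝ) (t : ℝ) / 2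
  rw [Real.dist_eq, Real.dist_eq, ← sub_div, abs_div, abs_two, add_sub_add_left_eq_sub]

theorem sd_pow_unc (S : Submodule F (Ch F X)) (m : ℕ) : ∀ c : Ch F C(I, X),
    (∀ φ : C(I, I), (∀ s t, dist (φ s) (φ t) ≤ (1 / 2 : ℝ) ^ m) →
      unc (map (prec φ X) ((sd ^ m : Module.End F (Ch F C(I, X))) c)) ∈ S) →
    (sd ^ m : Module.End F (Ch F X)) (unc c) ∈ S := by
  induction m with
  | zero =>
    intro c h
    have := h (ContinuousMap.id I) fun s t => by
      show dist (s : ℝ) (t : ℝ) ≤ _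
      rw [pow_zero, Real.dist_eq, abs_le]
      constructor <;> linarith [s.2.1, s.2.2, t.2.1, t.2.2]
    have e : prec (ContinuousMap.id I) X = ContinuousMap.id _ := rfl
    rw [e, map_id'] at this
    exact this
  | succ m ih =>
    intro c h
    have key : ∀ ψ : C(I, I), (∀ s t, dist (ψ s) (ψ t) = dist s t / 2) →
        (sd ^ m : Module.End F (Ch F X)) (unc (map (prec ψ X) (sd c))) ∈ S := by
      intro ψ hψ
      refine ih _ fun φ hφ => ?_
      have e : (prec φ X).comp (prec ψ X) = prec (ψ.comp φ) X := rfl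
      rw [sd_pow_map, map_map, e, ← sd_pow_succ']
      refine h _ fun s t => ?_
      rw [ContinuousMap.comp_apply, ContinuousMap.comp_apply, hψ, pow_succ]
      linarith [hφ s t]
    rw [sd_pow_succ', sd_unc, map_add]
    exact add_mem (key _ dist_hl) (key _ dist_hr)

/-- near a path in the union of the open sets, short pieces of all paths lie in one of the sets -/
theorem exists_tube {ι : Type} {U : ι → Set X} (hU : ∀ i, IsOpen (U i)) (g : C(I, X))
    (hg : ∀ s, g s ∈ ⋃ i, U i) :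
    ∃ (n : ℕ) (W : Set C(I, X)), IsOpen W ∧ g ∈ W ∧
      ∀ s, ∃ i, ∀ k ∈ W, MapsTo k (Metric.closedBall s ((1 / 2 : ℝ) ^ n)) (U i) := by
  obtain ⟨δ, hδ, h⟩ := lebesgue_number_lemma_of_metric (s := (univ : Set I))
    (c := fun i => g ⁻¹' U i) isCompact_univ (fun i => (hU i).preimage g.continuous)
    (fun s _ => by simpa using hg s)
  obtain ⟨n, hn⟩ := exists_pow_lt_of_lt_one (show 0 < δ / 2 by positivity)
    (show (1 / 2 : ℝ) < 1 by norm_num)
  have hr : (0 : ℝ) < (1 / 2) ^ n := by positivity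
  obtain ⟨t, -, ht, hc⟩ := finite_cover_balls_of_compact (isCompact_univ (X := I)) hr
  choose j hj using fun s => h s (mem_univ s)
  refine ⟨n, ⋂ s ∈ t, {k : C(I, X) | MapsTo k (Metric.closedBall s (2 * (1 / 2 : ℝ) ^ n)) (U (j s))},
    ht.isOpen_biInter fun s _ => ContinuousMap.isOpen_setOfPred_mapsTo
      Metric.isClosed_closedBall.isCompact (hU _), ?_, fun s => ?_⟩
  · exact mem_iInter₂.2 fun s _ x hx => hj s (Metric.closedBall_subset_ball (by linarith) hx)
  · obtain ⟨s0, h0, hs⟩ := mem_iUnion₂.1 (hc (mem_univ s))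
    refine ⟨j s0, fun k hk x hx => mem_iInter₂.1 hk s0 h0 ?_⟩
    rw [Metric.mem_closedBall] at hx ⊢
    rw [Metric.mem_ball] at hs
    linarith [dist_triangle x s s0]

theorem small_aux (X : Type) [TopologicalSpace X] (c : Ch F X) :
    ∀ (ι : Type) (U : ι → Set X) (A : Set X), (∀ i, IsOpen (U i)) → A ⊆ ⋃ i, U i →
      ∃ m0, ∀ m, m0 ≤ m → (sd ^ m : Module.End F (Ch F X)) (prj A c) ∈ ⨆ i, CC F (A ∩ U i) := by
  induction X, c using ind with
  | h0 => exact fun ι U A _ _ => ⟨0, fun m _ => by simp⟩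
  | hadd X a b ha hb =>
    intro ι U A hU hA
    obtain ⟨m1, h1⟩ := ha ι U A hU hA
    obtain ⟨m2, h2⟩ := hb ι U A hU hA
    refine ⟨max m1 m2, fun m hm => ?_⟩
    rw [map_add, map_add]
    exact add_mem (h1 m (le_of_max_le_left hm)) (h2 m (le_of_max_le_right hm))
  | hsm X r a ha =>
    intro ι U A hU hA
    obtain ⟨m1, h1⟩ := ha ι U A hU hA
    refine ⟨m1, fun m hm => ?_⟩
    rw [map_smul, map_smul]
    exact Submodule.smul_mem _ r (h1 m hm)
  | hpt X x =>
    intro ι U A hU hA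
    refine ⟨0, fun m _ => ?_⟩
    by_cases hx : x ∈ A
    · obtain ⟨i, hi⟩ := mem_iUnion.1 (hA hx)
      rw [prj_pt_mem hx, sd_pow_pt]
      exact Submodule.mem_iSup_of_mem i (pt_mem_CC ⟨hx, hi⟩)
    · rw [prj_pt_not hx, map_zero]
      exact zero_mem _
  | hunc X a ha =>
    intro ι U A hU hA
    obtain ⟨K, hK, hKA, hc⟩ := exists_compact (prj_mem_CC (hat A) a)
    have e : prj (hat A) a = prj K a := by
      rw [← mem_CC.1 hc, prj_prj, inter_eq_left.2 hKA]
    let J : ℕ → Type := fun n => {W : Set C(I, X) // IsOpen W ∧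
      ∀ s, ∃ i, ∀ k ∈ W, MapsTo k (Metric.closedBall s ((1 / 2 : ℝ) ^ n)) (U i)}
    have hmono : Monotone fun n => ⋃ W : J n, W.1 := by
      intro n n' hn g hg
      obtain ⟨W, hW⟩ := mem_iUnion.1 hg
      refine mem_iUnion.2 ⟨⟨W.1, W.2.1, fun s => ?_⟩, hW⟩
      obtain ⟨i, hi⟩ := W.2.2 s
      exact ⟨i, fun k hk => (hi k hk).mono_left (Metric.closedBall_subset_closedBall
        (pow_le_pow_of_le_one (by norm_num) (by norm_num) hn))⟩
    obtain ⟨N, hN⟩ := hK.elim_directed_cover (fun n => ⋃ W : J n, W.1)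
      (fun n => isOpen_iUnion fun W => W.2.1)
      (fun g hg => by
        obtain ⟨n, W, h1, h2, h3⟩ := exists_tube hU g fun s => hA (hKA hg s)
        exact mem_iUnion.2 ⟨n, mem_iUnion.2 ⟨⟨W, h1, h3⟩, h2⟩⟩) hmono.directed_le
    obtain ⟨m0, h0⟩ := ha (J N) (fun W => W.1) K (fun W => W.2.1) hN
    refine ⟨max m0 N, fun m hm => ?_⟩
    rw [prj_unc, e]
    refine sd_pow_unc _ m _ fun φ hφ => ?_
    have hle : (⨆ W : J N, CC F (K ∩ W.1)) ≤
        (⨆ i, CC F (A ∩ U i)).comap (unc ∘ₗ map (prec φ X)) := by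
      refine iSup_le fun W b hb => ?_
      obtain ⟨i, hi⟩ := W.2.2 (φ 0)
      refine Submodule.mem_iSup_of_mem i (unc_mem_CC (map_mem_CC (fun g hg t => ?_) hb))
      exact ⟨hKA hg.1 (φ t), hi g hg.2 ((hφ t 0).trans
        (pow_le_pow_of_le_one (by norm_num) (by norm_num) (le_of_max_le_right hm)))⟩
    exact hle (h0 m (le_of_max_le_left hm))

/-- iterated subdivision makes a chain small -/
theorem small {ι : Type} {U : ι → Set X} (hU : ∀ i, IsOpen (U i)) {A : Set X}
    (hA : A ⊆ ⋃ i, U i) {c : Ch F X} (h : c ∈ CC F A) :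
    ∃ m0, ∀ m, m0 ≤ m → (sd ^ m : Module.End F (Ch F X)) c ∈ ⨆ i, CC F (A ∩ U i) := by
  have := small_aux X c ι U A hU hA
  rwa [mem_CC.1 h] at this

theorem small_two {U V : Set X} (hU : IsOpen U) (hV : IsOpen V) {A : Set X} (hA : A ⊆ U ∪ V)
    {c : Ch F X} (h : c ∈ CC F A) :
    ∃ m0, ∀ m, m0 ≤ m → (sd ^ m : Module.End F (Ch F X)) c ∈ CC F (A ∩ U) ⊔ CC F (A ∩ V) := by
  obtain ⟨m0, h0⟩ := small (U := fun b : Bool => cond b U V) (by rintro (_ | _) <;> assumption)
    (fun x hx => (hA hx).elim (fun h => mem_iUnion.2 ⟨true, h⟩) fun h => mem_iUnion.2 ⟨false, h⟩) h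
  refine ⟨m0, fun m hm => ?_⟩
  have := h0 m hm
  rwa [iSup_bool_eq] at this

end Pool.Agent.Fu
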