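import Mathlib
import Pool.Agent.P.MP_365c00_gt.ZC11
import Pool.Agent.P.MP_365c00_gt.ZG0

/-! Excision and the Mayer-Vietoris step. -/

set_option linter.unusedSectionVars false
set_option linter.unusedVariables false

open Set Topology unitInterval TensorProduct

namespace Pool.Agent.Fu

variable {F : Type} [Field F] {X Y Z : Type} [TopologicalSpace X] [TopologicalSpace Y]
  [TopologicalSpace Z]

/-- the Mayer-Vietoris step -/
theorem mv {A U V : Set X} (hU : IsOpen U) (hV : IsOpen V) {m n1 n2 : Ch F X}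
    (hm : m ∈ CC F (A ∩ (U ∪ V))) (h1 : n1 ∈ CC F (A ∩ U)) (h2 : n2 ∈ CC F (A ∩ V))
    (hd : bd m = n2 - n1) :
    ∃ m1 ∈ CC F (A ∩ U), ∃ m2 ∈ CC F (A ∩ V), ∃ c ∈ CC F (A ∩ (U ∪ V)), m = m1 + m2 + bd c := by
  obtain ⟨k, hk⟩ := small_two hU hV (A := A ∩ (U ∪ V)) inter_subset_right hm
  obtain ⟨a, ha, b, hb, hab⟩ := Submodule.mem_sup.1 (hk k le_rfl)
  obtain ⟨K, hK, hKC, -⟩ := exists_sd_pow_htp F X k
  have ha' : a ∈ CC F (A ∩ U) := CC_mono (inter_subset_inter_left U inter_subset_left) ha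
  have hb' : b ∈ CC F (A ∩ V) := CC_mono (inter_subset_inter_left V inter_subset_left) hb
  refine ⟨a - K n1, Submodule.sub_mem _ ha' (hKC _ _ h1), b + K n2,
    Submodule.add_mem _ hb' (hKC _ _ h2), K m, hKC _ _ hm, ?_⟩
  have e := hK m
  rw [← hab, hd, map_sub, sub_eq_iff_eq_add] at e
  calc m = bd (K m) + (K n2 - K n1) + (a + b) := e
    _ = _ := by abel

theorem exc_surj {A B U V : Set X} (hU : IsOpen U) (hV : IsOpen V) (hA : A ⊆ U ∪ V)
    (hB : A ∩ V ⊆ B) {c : Ch F X} (h : c ∈ ZZ F A B) :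
    ∃ c' ∈ ZZ F (A ∩ U) (B ∩ U), c - c' ∈ NN F A (A ∩ B) ∧
      ∀ k, c ∈ HD F X k → c' ∈ HD F X k := by
  obtain ⟨hc, hdc⟩ := mem_ZZ.1 h
  obtain ⟨k, hk⟩ := small_two hU hV hA hc
  obtain ⟨a, ha, b, hb, hab⟩ := Submodule.mem_sup.1 (hk k le_rfl)
  obtain ⟨K, hK, hKC, -⟩ := exists_sd_pow_htp F X k
  set z := (sd ^ k : Module.End F (Ch F X)) c with hz
  have h1 : z - prj (A ∩ U) z ∈ CC F (A ∩ V) := by
    have e : z - prj (A ∩ U) z = b - prj (A ∩ U) b := by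
      rw [← hab, map_add, mem_CC.1 ha]; abel
    rw [e]
    exact Submodule.sub_mem _ hb (CC_mono inter_subset_right (prj_mem_inter _ hb))
  have h2 : prj (A ∩ U) z ∈ CC F (A ∩ U) := prj_mem_CC _ _
  have h3 : bd (prj (A ∩ U) z) ∈ CC F B := by
    have e : bd (prj (A ∩ U) z) = bd z - bd (z - prj (A ∩ U) z) := by
      rw [map_sub]; abel
    rw [e]
    refine Submodule.sub_mem _ ?_ (CC_mono hB (bd_mem_CC h1))
    rw [hz, bd_sd_pow]
    exact sd_pow_mem_CC k hdc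
  have h4 : bd c ∈ CC F (A ∩ B) := by
    rw [CC_inter]; exact ⟨bd_mem_CC hc, hdc⟩
  refine ⟨prj (A ∩ U) z, mem_ZZ.2 ⟨h2, ?_⟩, mem_NN.2 ⟨K c, hKC _ _ hc, ?_⟩, fun j hj => ?_⟩
  · rw [CC_inter]
    exact ⟨h3, CC_mono inter_subset_right (bd_mem_CC h2)⟩
  · have e : c - prj (A ∩ U) z - bd (K c) = K (bd c) + (z - prj (A ∩ U) z) := by
      have e1 := hK c
      rw [← hz] at e1
      calc c - prj (A ∩ U) z - bd (K c) = (c - z) - bd (K c) + (z - prj (A ∩ U) z) := by abel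
        _ = _ := by rw [e1]; abel
    rw [e]
    exact Submodule.add_mem _ (hKC _ _ h4) (CC_mono (subset_inter inter_subset_left hB) h1)
  · have e : dg j z = z := mem_HD.1 (sd_pow_mem_HD k hj)
    rw [mem_HD, ← prj_dg, e]

theorem exc_inj {A B U V : Set X} (hU : IsOpen U) (hV : IsOpen V) (hA : A ⊆ U ∪ V)
    (hB : A ∩ V ⊆ B) {c : Ch F X} (h : c ∈ ZZ F (A ∩ U) B) (hn : c ∈ NN F A B) :
    c ∈ NN F (A ∩ U) (B ∩ U) := by
  obtain ⟨hc, hdc⟩ := mem_ZZ.1 h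
  obtain ⟨g, hg, hb⟩ := mem_NN.1 hn
  obtain ⟨k, hk⟩ := small_two hU hV hA hg
  obtain ⟨g1, h1, g2, h2, h12⟩ := Submodule.mem_sup.1 (hk k le_rfl)
  obtain ⟨K, hK, hKC, -⟩ := exists_sd_pow_htp F X k
  have h3 : K c + g1 ∈ CC F (A ∩ U) := Submodule.add_mem _ (hKC _ _ hc) h1
  refine mem_NN.2 ⟨K c + g1, h3, ?_⟩
  rw [CC_inter]
  refine ⟨?_, CC_mono inter_subset_right (Submodule.sub_mem _ hc (bd_mem_CC h3))⟩
  have e : c - bd (K c + g1) =
      K (bd c) + bd g2 + (sd ^ k : Module.End F (Ch F X)) (c - bd g) := by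
    have e1 := hK c
    rw [sub_eq_iff_eq_add] at e1
    rw [map_sub, ← bd_sd_pow, ← h12, map_add, map_add]
    calc c - (bd (K c) + bd g1) =
        bd (K c) + K (bd c) + (sd ^ k : Module.End F (Ch F X)) c - (bd (K c) + bd g1) := by
          rw [← e1]
      _ = _ := by abel
  show c - bd (K c + g1) ∈ CC F B
  rw [e]
  exact Submodule.add_mem _ (Submodule.add_mem _ (hKC _ _ hdc) (CC_mono hB (bd_mem_CC h2)))
    (sd_pow_mem_CC k hb)

theorem QI_exc {A B U V : Set X} (hU : IsOpen U) (hV : IsOpen V) (hA : A ⊆ U ∪ V)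
    (hB : A ∩ V ⊆ B) (hBA : B ⊆ A) :
    QI bd bd LinearMap.id (CC F (A ∩ U)) (CC F (B ∩ U)) (CC F A) (CC F B) := by
  refine ⟨fun c hc hd hn => ?_, fun c hc hd => ?_⟩
  · exact exc_inj hU hV hA hB (mem_ZZ.2 ⟨hc, CC_mono inter_subset_left hd⟩) hn
  · obtain ⟨c', h1, h2, -⟩ := exc_surj hU hV hA hB (mem_ZZ.2 ⟨hc, hd⟩)
    refine ⟨c', (mem_ZZ.1 h1).1, (mem_ZZ.1 h1).2, ?_⟩
    have h3 : c - c' ∈ NN F A B := NN_mono Subset.rfl inter_subset_right h2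
    have h4 := Submodule.neg_mem _ h3
    rw [neg_sub] at h4
    exact h4

/-- a relative boundary whose boundary is small is a boundary up to a small chain -/
theorem NN_small_gen {A B : Set X} (hBA : B ⊆ A) {S : Submodule F (Ch F X)}
    (hS : ∀ K : Ch F X →ₗ[F] Ch F X, (∀ (A : Set X), ∀ c ∈ CC F A, K c ∈ CC F A) →
      ∀ c ∈ S, K c ∈ S)
    (hsm : ∀ b ∈ CC F B, ∃ m, (sd ^ m : Module.End F (Ch F X)) b ∈ S)
    {c : Ch F X} (hc : bd c ∈ S) (hn : c ∈ NN F A B) : c ∈ BB F A ⊔ S := by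
  obtain ⟨g, hg, hb⟩ := mem_NN.1 hn
  obtain ⟨k, hk⟩ := hsm _ hb
  obtain ⟨K, hK, hKC, -⟩ := exists_sd_pow_htp F X k
  have e0 : bd (c - bd g) = bd c := by rw [map_sub, bd_bd, sub_zero]
  have e1 := hK (c - bd g)
  rw [e0, sub_eq_iff_eq_add] at e1
  have e : c = bd (g + K (c - bd g)) +
      (K (bd c) + (sd ^ k : Module.End F (Ch F X)) (c - bd g)) := by
    rw [map_add]
    calc c = bd g + (c - bd g) := by abel
      _ = bd g + (bd (K (c - bd g)) + K (bd c) +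
          (sd ^ k : Module.End F (Ch F X)) (c - bd g)) := by rw [← e1]
      _ = _ := by abel
  rw [e]
  exact Submodule.add_mem_sup
    (mem_BB.2 ⟨_, Submodule.add_mem _ hg (CC_mono hBA (hKC _ _ hb)), rfl⟩)
    (Submodule.add_mem _ (hS K hKC _ hc) hk)

/-- a relative cycle is homologous to one with small boundary -/
theorem ZZ_small_gen {A B : Set X} {S : Submodule F (Ch F X)}
    (hsm : ∀ b ∈ CC F B, ∃ m, (sd ^ m : Module.End F (Ch F X)) b ∈ S)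
    {c : Ch F X} (hc : c ∈ ZZ F A B) :
    ∃ c' ∈ CC F A, bd c' ∈ S ∧ c - c' ∈ NN F A (A ∩ B) ∧ ∀ k, c ∈ HD F X k → c' ∈ HD F X k := by
  obtain ⟨h1, h2⟩ := mem_ZZ.1 hc
  obtain ⟨k, hk⟩ := hsm _ h2
  obtain ⟨K, hK, hKC, -⟩ := exists_sd_pow_htp F X k
  have h4 : bd c ∈ CC F (A ∩ B) := by
    rw [CC_inter]; exact ⟨bd_mem_CC h1, h2⟩
  refine ⟨_, sd_pow_mem_CC k h1, by rw [bd_sd_pow]; exact hk,
    mem_NN.2 ⟨K c, hKC _ _ h1, ?_⟩, fun j hj => sd_pow_mem_HD k hj⟩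
  rw [hK c, add_sub_cancel_left]
  exact hKC _ _ h4

/-- the chains of a union of relatively open sets may be replaced by sums -/
theorem QI_small {ι : Type} {U : ι → Set X} (hU : ∀ i, IsOpen (U i)) {A B : Set X} (hBA : B ⊆ A)
    (hB : B ⊆ ⋃ i, U i) :
    QI bd bd LinearMap.id (CC F A) (⨆ i, CC F (B ∩ U i)) (CC F A) (CC F B) := by
  have hsm : ∀ b ∈ CC F B, ∃ m, (sd ^ m : Module.End F (Ch F X)) b ∈ ⨆ i, CC F (B ∩ U i) :=
    fun b hb => by
      obtain ⟨m, hm⟩ := small hU hB hb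
      exact ⟨m, hm m le_rfl⟩
  refine ⟨fun c hc hd hn => ?_, fun c hc hd => ?_⟩
  · refine NN_small_gen hBA (fun K hK => ?_) hsm hd hn
    exact iSup_le (a := Submodule.comap K (⨆ i, CC F (B ∩ U i))) fun i c hc =>
      Submodule.mem_iSup_of_mem i (hK _ _ hc)
  · obtain ⟨c', h0, h1, h2, -⟩ := ZZ_small_gen hsm (mem_ZZ.2 ⟨hc, hd⟩)
    refine ⟨c', h0, h1, ?_⟩
    have h3 : c - c' ∈ NN F A B := NN_mono Subset.rfl inter_subset_right h2
    have h4 := Submodule.neg_mem _ h3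
    rw [neg_sub] at h4
    exact h4

theorem NN_small_two {A B U V : Set X} (hU : IsOpen U) (hV : IsOpen V) (hBA : B ⊆ A)
    (hB : B ⊆ U ∪ V) {c : Ch F X} (hc : bd c ∈ CC F (B ∩ U) ⊔ CC F (B ∩ V)) (hn : c ∈ NN F A B) :
    c ∈ BB F A ⊔ (CC F (B ∩ U) ⊔ CC F (B ∩ V)) := by
  refine NN_small_gen hBA (fun K hK c hc => ?_) (fun b hb => ?_) hc hn
  · obtain ⟨a, ha, b, hb, rfl⟩ := Submodule.mem_sup.1 hc
    rw [map_add]
    exact Submodule.add_mem_sup (hK _ _ ha) (hK _ _ hb)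
  · obtain ⟨m, hm⟩ := small_two hU hV hB hb
    exact ⟨m, hm m le_rfl⟩

theorem ZZ_small_two {A B U V : Set X} (hU : IsOpen U) (hV : IsOpen V) (hB : B ⊆ U ∪ V)
    {c : Ch F X} (hc : c ∈ ZZ F A B) :
    ∃ c' ∈ CC F A, bd c' ∈ CC F (B ∩ U) ⊔ CC F (B ∩ V) ∧ c - c' ∈ NN F A (A ∩ B) ∧
      ∀ k, c ∈ HD F X k → c' ∈ HD F X k := by
  refine ZZ_small_gen (fun b hb => ?_) hc
  obtain ⟨m, hm⟩ := small_two hU hV hB hb
  exact ⟨m, hm m le_rfl⟩

theorem map_pow_iterate (s : C(X, X)) (n : ℕ) (c : Ch F X) :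
    ((map s : Module.End F (Ch F X)) ^ n) c = map ⟨s^[n], s.continuous.iterate n⟩ c := by
  induction n generalizing c with
  | zero => exact (map_id' c).symm
  | succ n ih => rw [pow_succ, Module.End.mul_apply, ih, map_map]; rfl

/-- the complex of chains with the action of a periodic map -/
noncomputable def gc (F : Type) [Field F] {q : ℕ} (s : C(X, X)) (hs : ∀ x, s^[q] x = x) :
    GC F q (Ch F X) where
  d := bd
  s := map s
  dd := bd_bd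
  ds := bd_map s
  pow := by
    refine LinearMap.ext fun c => ?_
    have e : (⟨s^[q], s.continuous.iterate q⟩ : C(X, X)) = ContinuousMap.id X :=
      ContinuousMap.ext hs
    rw [map_pow_iterate, e, map_id']
    rfl

theorem gc_st {q : ℕ} {s : C(X, X)} (hs : ∀ x, s^[q] x = x) {A : Set X} (hA : MapsTo s A A) :
    (gc F s hs).St (CC F A) :=
  ⟨fun _ hc => bd_mem_CC hc, fun _ hc => map_mem_CC hA hc⟩
theorem gc_gr {q : ℕ} {s : C(X, X)} (hs : ∀ x, s^[q] x = x) : (gc F s hs).Gr (HD F X) :=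
  ⟨fun _ _ hc => bd_mem_HD hc, fun _ _ hc => map_mem_HD s hc⟩
theorem gc_eqMap {q : ℕ} {s : C(X, X)} (hs : ∀ x, s^[q] x = x) {s' : C(Y, Y)}
    (hs' : ∀ x, s'^[q] x = x) {f : X → Y} {A B : Set X} {A' B' : Set Y} (hf : ContinuousOn f A)
    (hA : MapsTo s A A) (he : ∀ x ∈ A, f (s x) = s' (f x)) (h1 : MapsTo f A A')
    (h2 : MapsTo f B B') :
    EqMap (gc F s hs) (gc F s' hs') (mp f) (CC F A) (CC F B) (CC F A') (CC F B') where
  d c hc := bd_mp hf hc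
  s c hc := by
    show map s' (mp f c) = mp f (map s c)
    rw [map_mp s' hf hc, mp_map s f hf (CC_mono (fun x hx => hA hx) hc)]
    exact mp_congr (fun x hx => (he x hx).symm) hc
  A c hc := mp_mem_CC h1 hc
  B c hc := mp_mem_CC h2 hc
theorem van_of_NN {A B A' B' : Set X} {k : ℕ}
    (h : ∀ c ∈ ZZ F A B, c ∈ HD F X k → c ∈ NN F A' B') :
    Van bd (HD F X) k (CC F A) (CC F B) (CC F A') (CC F B') :=
  fun c hc hk hd => NN_HD hk (h c (mem_ZZ.2 ⟨hc, hd⟩) hk)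

end Pool.Agent.Fu
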