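import Mathlib
import Pool.Agent.P.MP_365c00_gt.ZC12

/-! The theorem of Kuenneth over a field, in the form of a detection principle. -/

set_option linter.unusedSectionVars false
set_option linter.unusedVariables false

open Set Topology unitInterval TensorProduct

namespace Pool.Agent.Fu

variable {F : Type} [Field F] {X Y Z : Type} [TopologicalSpace X] [TopologicalSpace Y]
  [TopologicalSpace Z]

section Alg

variable {P Q : Type} [AddCommGroup P] [Module F P] [AddCommGroup Q] [Module F Q]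

theorem zk_ginv (φ : P →ₗ[F] Q) : ∃ g : Q →ₗ[F] P, ∀ u, φ (g (φ u)) = φ u := by
  obtain ⟨r, hr⟩ := φ.rangeRestrict.exists_rightInverse_of_surjective φ.range_rangeRestrict
  obtain ⟨g, hg⟩ := LinearMap.exists_extend r
  refine ⟨g, fun u => ?_⟩
  have h1 : g (φ u) = r ⟨φ u, LinearMap.mem_range_self φ u⟩ :=
    LinearMap.congr_fun hg ⟨φ u, LinearMap.mem_range_self φ u⟩
  rw [h1]
  exact congrArg Subtype.val (LinearMap.congr_fun hr ⟨φ u, LinearMap.mem_range_self φ u⟩)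

theorem zk_tmul {A : Submodule F P} {B : Submodule F Q} {a : P} {b : Q} (ha : a ∈ A) (hb : b ∈ B) :
    a ⊗ₜ[F] b ∈ TS A B :=
  Submodule.subset_span ⟨a, ha, b, hb, rfl⟩

theorem zk_TS_ind {R : Type} [AddCommGroup R] [Module F R] {A : Submodule F P} {B : Submodule F Q}
    (L : P ⊗[F] Q →ₗ[F] R) (T : Submodule F R) (h : ∀ a ∈ A, ∀ b ∈ B, L (a ⊗ₜ b) ∈ T)
    {z : P ⊗[F] Q} (hz : z ∈ TS A B) : L z ∈ T := by
  have : TS A B ≤ T.comap L := by
    refine Submodule.span_le.2 ?_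
    rintro _ ⟨a, ha, b, hb, rfl⟩
    exact h a ha b hb
  exact this hz

theorem zk_detect (R : Submodule F Q) (y : P ⊗[F] Q)
    (h : ∀ l : P →ₗ[F] F, TensorProduct.lid F Q (TensorProduct.map l LinearMap.id y) ∈ R) :
    y ∈ TS (⊤ : Submodule F P) R := by
  classical
  let b := Module.Basis.ofVectorSpace F P
  have hc : ∀ (y : P ⊗[F] Q) i, TensorProduct.equivFinsuppOfBasisLeft b y i =
      TensorProduct.lid F Q (TensorProduct.map (b.coord i) LinearMap.id y) := by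
    intro y i
    induction y using TensorProduct.induction_on with
    | zero => simp
    | tmul a q => simp
    | add x y hx hy => simp only [map_add, Finsupp.add_apply, hx, hy]
  rw [← (TensorProduct.equivFinsuppOfBasisLeft b).symm_apply_apply y,
    TensorProduct.equivFinsuppOfBasisLeft_symm_apply]
  refine Submodule.sum_mem _ fun i _ => zk_tmul Submodule.mem_top ?_
  rw [hc]
  exact h _

/-- a contraction that anticommutes with the sign -/
theorem zk_contr (h2 : (2 : F) ≠ 0) (d w : P →ₗ[F] P) (hww : ∀ a, w (w a) = a)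
    (hwd : ∀ a, w (d a) = - d (w a)) {A A' : Submodule F P} (sA : ∀ a ∈ A, d a ∈ A ∧ w a ∈ A)
    (sA' : ∀ a ∈ A', d a ∈ A' ∧ w a ∈ A') :
    ∃ s : P →ₗ[F] P, (∀ x, s x ∈ A) ∧ (∀ x ∈ A', s x = 0) ∧ (∀ x, w (s x) = - s (w x)) ∧
      ∀ a ∈ A, d a - d (s (d a)) ∈ A' := by
  obtain ⟨g, hg⟩ := zk_ginv (A'.mkQ ∘ₗ d ∘ₗ A.subtype)
  let s : P →ₗ[F] P := A.subtype ∘ₗ g ∘ₗ A'.mkQ
  have s1 : ∀ x, s x ∈ A := fun x => (g (A'.mkQ x)).2
  have s2 : ∀ x ∈ A', s x = 0 := fun x hx => by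
    have : A'.mkQ x = 0 := (Submodule.Quotient.mk_eq_zero _).2 hx
    simp only [s, LinearMap.comp_apply, this, map_zero]
  have s3 : ∀ a ∈ A, d a - d (s (d a)) ∈ A' := fun a ha =>
    (Submodule.Quotient.eq _).1 (hg ⟨a, ha⟩).symm
  have hh : (2 : F)⁻¹ + (2 : F)⁻¹ = 1 := by field_simp; norm_num
  refine ⟨(2 : F)⁻¹ • (s - w ∘ₗ s ∘ₗ w), fun x => ?_, fun x hx => ?_, fun x => ?_, fun a ha => ?_⟩
  · exact A.smul_mem _ (A.sub_mem (s1 x) (sA _ (s1 _)).2)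
  · simp only [LinearMap.smul_apply, LinearMap.sub_apply, LinearMap.comp_apply, s2 x hx,
      s2 _ (sA' x hx).2, map_zero, sub_zero, smul_zero]
  · simp only [LinearMap.smul_apply, LinearMap.sub_apply, LinearMap.comp_apply, map_smul, map_sub,
      hww]
    rw [← smul_neg, neg_sub]
  · have e1 := s3 a ha
    have e2 := (sA' _ (s3 _ (sA a ha).2)).2
    have e3 : d a - d (((2 : F)⁻¹ • (s - w ∘ₗ s ∘ₗ w)) (d a)) =
        (2 : F)⁻¹ • ((d a - d (s (d a))) - w (d (w a) - d (s (d (w a))))) := by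
      simp only [LinearMap.smul_apply, LinearMap.sub_apply, LinearMap.comp_apply, map_smul, map_sub,
        hwd, hww, map_neg]
      have e4 : d a = (2 : F)⁻¹ • (d a + d a) := by rw [smul_add, ← add_smul, hh, one_smul]
      nth_rewrite 1 [e4]
      rw [← smul_sub]
      congr 1
      abel
    rw [e3]
    exact A'.smul_mem _ (A'.sub_mem e1 e2)

end Alg

/-- the algebraic statement -/
theorem ku_alg (h2 : (2 : F) ≠ 0) {P Q : Type} [AddCommGroup P] [Module F P] [AddCommGroup Q]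
    [Module F Q] (d w : P →ₗ[F] P) (e : Q →ₗ[F] Q) (hdd : ∀ a, d (d a) = 0)
    (hww : ∀ a, w (w a) = a) (hwd : ∀ a, w (d a) = - d (w a)) {A A' : Submodule F P}
    {B0 B0' B1 B1' : Submodule F Q} (hA' : A' ≤ A) (sA : ∀ a ∈ A, d a ∈ A ∧ w a ∈ A)
    (sA' : ∀ a ∈ A', d a ∈ A' ∧ w a ∈ A') (h01 : B0 ≤ B1) (h01' : B0' ≤ B1')
    (sB : ∀ b ∈ B0, e b ∈ B0) {z : P ⊗[F] Q} (hz : z ∈ TS A B0)
    (hd : (TensorProduct.map d LinearMap.id + TensorProduct.map w e :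
      P ⊗[F] Q →ₗ[F] P ⊗[F] Q) z ∈ TS A' B0 ⊔ TS A B0')
    (hl : ∀ l : P →ₗ[F] F, (∀ a ∈ A, l (d a) = 0) → (∀ a ∈ A', l a = 0) →
      TensorProduct.lid F Q (TensorProduct.map l LinearMap.id z) ∈ B1.map e ⊔ B1') :
    z ∈ (TS A B1).map (TensorProduct.map d LinearMap.id + TensorProduct.map w e :
      P ⊗[F] Q →ₗ[F] P ⊗[F] Q) ⊔
      (TS A' B1 ⊔ TS A B1') := by
  obtain ⟨s, s1, s2, s3, s4⟩ := zk_contr h2 d w hww hwd sA sA'
  set D : P ⊗[F] Q →ₗ[F] P ⊗[F] Q := TensorProduct.map d LinearMap.id + TensorProduct.map w e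
    with hD
  set T := (TS A B1).map D ⊔ (TS A' B1 ⊔ TS A B1') with hT
  have T1 : ∀ x ∈ TS A B1, D x ∈ T := fun x hx =>
    Submodule.mem_sup_left (Submodule.mem_map_of_mem hx)
  have T2 : ∀ x ∈ TS A' B1, x ∈ T := fun x hx => Submodule.mem_sup_right (Submodule.mem_sup_left hx)
  have T3 : ∀ x ∈ TS A B1', x ∈ T := fun x hx =>
    Submodule.mem_sup_right (Submodule.mem_sup_right hx)
  let S : P ⊗[F] Q →ₗ[F] P ⊗[F] Q := TensorProduct.map s LinearMap.id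
  let π : P →ₗ[F] P := LinearMap.id - d ∘ₗ s - s ∘ₗ d
  have hπ : ∀ x, π x = x - d (s x) - s (d x) := fun x => rfl
  have dec : ∀ y : P ⊗[F] Q, y = TensorProduct.map π LinearMap.id y + D (S y) + S (D y) := by
    intro y
    induction y using TensorProduct.induction_on with
    | zero => simp
    | tmul a q =>
      simp only [hD, S, LinearMap.add_apply, TensorProduct.map_tmul, LinearMap.id_apply, map_add,
        hπ, s3, TensorProduct.sub_tmul, TensorProduct.neg_tmul]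
      abel
    | add x y hx hy =>
      simp only [map_add]
      nth_rewrite 1 [hx, hy]
      abel
  let Zs : Submodule F P := A ⊓ A'.comap d
  have p1 : ∀ a ∈ A, π a ∈ Zs := fun a ha => by
    refine ⟨A.sub_mem (A.sub_mem ha (sA _ (s1 a)).1) (s1 _), ?_⟩
    show d (π a) ∈ A'
    rw [hπ, map_sub, map_sub, hdd, sub_zero]
    exact s4 a ha
  have p2 : ∀ a ∈ A, π (d a) ∈ A' := fun a ha => by
    rw [hπ, hdd, map_zero, sub_zero]
    exact s4 a ha
  have p3 : ∀ a ∈ A', π a ∈ A' := fun a ha => by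
    rw [hπ, s2 a ha, s2 _ (sA' a ha).1, map_zero, sub_zero, sub_zero]
    exact ha
  obtain ⟨g, hg⟩ := zk_ginv (A'.mkQ ∘ₗ Zs.subtype)
  let sg : (P ⧸ A') →ₗ[F] P := Zs.subtype ∘ₗ g
  let y : (P ⧸ A') ⊗[F] Q := TensorProduct.map (A'.mkQ ∘ₗ π) LinearMap.id z
  have hy : y ∈ TS (⊤ : Submodule F (P ⧸ A')) (B1.map e ⊔ B1') := by
    refine zk_detect _ y fun l => ?_
    have := hl (l ∘ₗ A'.mkQ ∘ₗ π) (fun a ha => by
      have : A'.mkQ (π (d a)) = 0 := (Submodule.Quotient.mk_eq_zero _).2 (p2 a ha)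
      simp only [LinearMap.comp_apply, this, map_zero]) (fun a ha => by
      have : A'.mkQ (π a) = 0 := (Submodule.Quotient.mk_eq_zero _).2 (p3 a ha)
      simp only [LinearMap.comp_apply, this, map_zero])
    have e1 : TensorProduct.map l LinearMap.id y =
        TensorProduct.map (l ∘ₗ A'.mkQ ∘ₗ π) LinearMap.id z := by
      simp only [y]
      rw [← LinearMap.comp_apply, ← TensorProduct.map_comp, LinearMap.id_comp]
    rw [e1]
    exact this
  have q1 : TensorProduct.map sg LinearMap.id y ∈ T := by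
    refine zk_TS_ind _ T (fun v _ b hb => ?_) hy
    obtain ⟨_, ⟨b1, hb1, rfl⟩, b', hb', rfl⟩ := Submodule.mem_sup.1 hb
    have hZ : sg v ∈ Zs := (g v).2
    rw [TensorProduct.map_tmul, LinearMap.id_apply, TensorProduct.tmul_add]
    refine T.add_mem ?_ (T3 _ (zk_tmul hZ.1 hb'))
    have e1 : sg v ⊗ₜ[F] e b1 = D (w (sg v) ⊗ₜ b1) + w (d (sg v)) ⊗ₜ b1 := by
      simp only [hD, LinearMap.add_apply, TensorProduct.map_tmul, LinearMap.id_apply, hww, hwd,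
        TensorProduct.neg_tmul]
      abel
    rw [e1]
    exact T.add_mem (T1 _ (zk_tmul (sA _ hZ.1).2 hb1)) (T2 _ (zk_tmul (sA' _ hZ.2).2 hb1))
  have q2 : (TensorProduct.map π LinearMap.id -
      TensorProduct.map sg LinearMap.id ∘ₗ TensorProduct.map (A'.mkQ ∘ₗ π) LinearMap.id :
        P ⊗[F] Q →ₗ[F] P ⊗[F] Q) z ∈ T := by
    refine zk_TS_ind _ T (fun a ha b hb => ?_) hz
    simp only [LinearMap.sub_apply, LinearMap.comp_apply, TensorProduct.map_tmul,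
      LinearMap.id_apply]
    rw [← TensorProduct.sub_tmul]
    refine T2 _ (zk_tmul ?_ (h01 hb))
    exact (Submodule.Quotient.eq _).1 (hg ⟨π a, p1 a ha⟩).symm
  have q3 : TensorProduct.map π LinearMap.id z ∈ T := by
    have := T.add_mem q2 q1
    simp only [LinearMap.sub_apply, LinearMap.comp_apply, y, sub_add_cancel] at this
    exact this
  have q4 : D (S z) ∈ T :=
    T1 _ (zk_TS_ind S _ (fun a ha b hb => zk_tmul (s1 a) (h01 hb)) hz)
  have q5 : S (D z) ∈ T := by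
    obtain ⟨x, hx, x', hx', h⟩ := Submodule.mem_sup.1 hd
    rw [← h, map_add]
    refine T.add_mem (zk_TS_ind S _ (fun a ha b hb => ?_) hx)
      (zk_TS_ind S _ (fun a ha b hb => T3 _ (zk_tmul (s1 a) (h01' hb))) hx')
    simp only [S, TensorProduct.map_tmul, s2 a ha, TensorProduct.zero_tmul]
    exact T.zero_mem
  rw [dec z]
  exact T.add_mem (T.add_mem q3 q4) q5

/-- a relative cycle of a product is null if all its slant products are -/
theorem ku (h2 : (2 : F) ≠ 0) {A A' : Set X} {B0 B0' B1 B1' : Set Y} (hA : A' ⊆ A)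
    (h0 : B0' ⊆ B0) (h01 : B0 ⊆ B1) (h01' : B0' ⊆ B1') {c : Ch F (X × Y)}
    (hc : c ∈ CC F (A ×ˢ B0)) (hd : bd c ∈ CC F (A' ×ˢ B0) ⊔ CC F (A ×ˢ B0'))
    (hl : ∀ l : Ch F X →ₗ[F] F, (∀ a ∈ NN F A A', l a = 0) → sl l c ∈ NN F B1 B1') :
    c ∈ BB F (A ×ˢ B1) ⊔ (CC F (A' ×ˢ B1) ⊔ CC F (A ×ˢ B1')) := by
  have h1 := ku_alg h2 (bd : Ch F X →ₗ[F] Ch F X) om (bd : Ch F Y →ₗ[F] Ch F Y) bd_bd om_om om_bd
    (A := CC F A) (A' := CC F A') (B0 := CC F B0) (B0' := CC F B0') (B1 := CC F B1)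
    (B1' := CC F B1') (CC_mono hA) (fun a ha => ⟨bd_mem_CC ha, om_mem_CC ha⟩)
    (fun a ha => ⟨bd_mem_CC ha, om_mem_CC ha⟩) (CC_mono h01) (CC_mono h01')
    (fun b hb => bd_mem_CC hb) (cop_mem hc) (by
      change tbd (cop c) ∈ _
      rw [tbd_cop]
      obtain ⟨x, hx, x', hx', h⟩ := Submodule.mem_sup.1 hd
      rw [← h, map_add]
      exact Submodule.add_mem_sup (cop_mem hx) (cop_mem hx')) (fun l l1 l2 => by
      refine hl l fun a ha => ?_
      obtain ⟨_, ⟨u, hu, rfl⟩, v, hv, rfl⟩ := Submodule.mem_sup.1 ha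
      rw [map_add, l1 u hu, l2 v hv, add_zero])
  obtain ⟨K, K1, K2⟩ := exists_ez F X Y
  have e1 : c = kap (cop c) + (bd (K c) + K (bd c)) := by rw [← K1, add_sub_cancel]
  rw [e1]
  refine Submodule.add_mem _ ?_ (Submodule.add_mem_sup ?_ ?_)
  · obtain ⟨_, ⟨u, hu, rfl⟩, v, hv, h⟩ := Submodule.mem_sup.1 h1
    obtain ⟨v1, hv1, v2, hv2, rfl⟩ := Submodule.mem_sup.1 hv
    rw [← h, map_add, map_add]
    refine Submodule.add_mem_sup ?_ (Submodule.add_mem_sup (kap_mem hv1) (kap_mem hv2))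
    exact ⟨kap u, kap_mem hu, bd_kap u⟩
  · exact ⟨K c, CC_mono (prod_mono subset_rfl h01) (K2 _ _ c hc), rfl⟩
  · obtain ⟨x, hx, x', hx', h⟩ := Submodule.mem_sup.1 hd
    rw [← h, map_add]
    exact Submodule.add_mem_sup (CC_mono (prod_mono subset_rfl h01) (K2 _ _ x hx))
      (CC_mono (prod_mono subset_rfl h01') (K2 _ _ x' hx'))

theorem zk_sl_rel {A A' : Set X} {B B' : Set Y} {c : Ch F (X × Y)}
    (hc : c ∈ CC F (A' ×ˢ B) ⊔ CC F (A ×ˢ B')) {l : Ch F X →ₗ[F] F}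
    (hl : ∀ a ∈ CC F A', l a = 0) : sl l c ∈ CC F B' := by
  obtain ⟨x, hx, x', hx', rfl⟩ := Submodule.mem_sup.1 hc
  rw [map_add, sl_zero hl hx, zero_add]
  exact sl_mem l hx'

theorem zk_sl_congr {A : Set X} {B : Set Y} {c : Ch F (X × Y)} (hc : c ∈ CC F (A ×ˢ B))
    {l m : Ch F X →ₗ[F] F} (h : ∀ a ∈ CC F A, l a = m a) : sl l c = sl m c := by
  have e1 : sl ((l - m) + m) c = sl (l - m) c + sl m c := by
    simp only [sl, LinearMap.comp_apply, TensorProduct.map_add_left, LinearMap.add_apply, map_add]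
  rw [sub_add_cancel, sl_zero (l := l - m) (A := A) (B := B) (fun a ha => by
    rw [LinearMap.sub_apply, h a ha, sub_self]) hc, zero_add] at e1
  exact e1

theorem sl_mem_ZZ {A A' : Set X} {B B' : Set Y} {c : Ch F (X × Y)}
    (hc : c ∈ CC F (A ×ˢ B)) (hd : bd c ∈ CC F (A' ×ˢ B) ⊔ CC F (A ×ˢ B'))
    {l : Ch F X →ₗ[F] F} (hl : ∀ a ∈ NN F A A', l a = 0) : sl l c ∈ ZZ F B B' := by
  refine mem_ZZ.2 ⟨sl_mem l hc, ?_⟩
  have e1 := sl_bd (l ∘ₗ om) c
  have e2 : (l ∘ₗ om) ∘ₗ om = l := LinearMap.ext fun a => congrArg l (om_om a)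
  have e3 : sl ((l ∘ₗ om) ∘ₗ bd) c = 0 := by
    refine sl_zero (fun a ha => ?_) hc
    rw [LinearMap.comp_apply, LinearMap.comp_apply, om_bd, map_neg,
      hl _ (BB_le_NN A A' ⟨om a, om_mem_CC ha, rfl⟩), neg_zero]
  rw [e2, e3, zero_add] at e1
  rw [← e1]
  exact zk_sl_rel hd fun a ha => hl _ (CC_le_NN A A' (om_mem_CC ha))

/-- a functional that vanishes on relative cycles has null slant products -/
theorem sl_mem_NN {A A' : Set X} {B B' : Set Y} (hA : A' ⊆ A) {c : Ch F (X × Y)}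
    (hc : c ∈ CC F (A ×ˢ B)) (hd : bd c ∈ CC F (A' ×ˢ B) ⊔ CC F (A ×ˢ B'))
    {l : Ch F X →ₗ[F] F} (hl : ∀ a ∈ ZZ F A A', l a = 0) : sl l c ∈ NN F B B' := by
  obtain ⟨g, hg⟩ := zk_ginv ((CC F A').mkQ ∘ₗ bd ∘ₗ (CC F A).subtype)
  let m : Ch F X →ₗ[F] F := l ∘ₗ (CC F A).subtype ∘ₗ g ∘ₗ (CC F A').mkQ
  have m1 : ∀ a ∈ CC F A', m a = 0 := fun a ha => by
    have : (CC F A').mkQ a = 0 := (Submodule.Quotient.mk_eq_zero _).2 ha
    simp only [m, LinearMap.comp_apply, this, map_zero]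
  have m2 : ∀ a ∈ CC F A, l a = (m ∘ₗ bd) a := fun a ha => by
    have h1 : bd a - bd ((g ((CC F A').mkQ (bd a)) : CC F A) : Ch F X) ∈ CC F A' :=
      (Submodule.Quotient.eq _).1 (hg ⟨a, ha⟩).symm
    rw [← map_sub] at h1
    have h2 := hl _ (mem_ZZ.2 ⟨(CC F A).sub_mem ha (g ((CC F A').mkQ (bd a))).2, h1⟩)
    rw [map_sub, sub_eq_zero] at h2
    exact h2
  have e1 := sl_bd m c
  rw [← zk_sl_congr hc m2] at e1
  rw [← sub_eq_iff_eq_add.2 e1]
  exact Submodule.sub_mem _ (CC_le_NN B B' (zk_sl_rel hd m1))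
    (BB_le_NN B B' ⟨_, sl_mem _ hc, rfl⟩)

/-- slant products of null chains are null -/
theorem sl_NN_of_null {A A' : Set X} {B B' : Set Y} {c : Ch F (X × Y)}
    (hc : c ∈ BB F (A ×ˢ B) ⊔ (CC F (A' ×ˢ B) ⊔ CC F (A ×ˢ B')))
    {l : Ch F X →ₗ[F] F} (hl : ∀ a ∈ NN F A A', l a = 0) : sl l c ∈ NN F B B' := by
  obtain ⟨_, ⟨h, hh, rfl⟩, v, hv, rfl⟩ := Submodule.mem_sup.1 hc
  rw [map_add, sl_bd, sl_zero (l := l ∘ₗ bd)
    (fun a ha => hl _ (BB_le_NN A A' ⟨a, ha, rfl⟩)) hh, zero_add]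
  exact Submodule.add_mem_sup ⟨_, sl_mem _ hh, rfl⟩
    (zk_sl_rel hv fun a ha => hl _ (CC_le_NN A A' ha))

theorem sr_mem_ZZ {A A' : Set X} {B : Set Y} {c : Ch F (X × Y)} (hc : c ∈ ZZ F (A ×ˢ B) (A' ×ˢ B))
    {l : Ch F Y →ₗ[F] F} (hl : ∀ b ∈ BB F B, l b = 0) : sr l c ∈ ZZ F A A' := by
  obtain ⟨h1, h2⟩ := mem_ZZ.1 hc
  refine mem_ZZ.2 ⟨sr_mem l h1, ?_⟩
  rw [← sr_bd (fun b hb => hl _ ⟨b, hb, rfl⟩) h1]
  exact sr_mem l h2

theorem sr_mem_NN {A A' : Set X} {B : Set Y} {c : Ch F (X × Y)} (hc : c ∈ NN F (A ×ˢ B) (A' ×ˢ B))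
    {l : Ch F Y →ₗ[F] F} (hl : ∀ b ∈ BB F B, l b = 0) : sr l c ∈ NN F A A' := by
  obtain ⟨_, ⟨h, hh, rfl⟩, v, hv, rfl⟩ := Submodule.mem_sup.1 hc
  rw [map_add, sr_bd (fun b hb => hl _ ⟨b, hb, rfl⟩) hh]
  exact Submodule.add_mem_sup ⟨_, sr_mem l hh, rfl⟩ (sr_mem l hv)

end Pool.Agent.Fu
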