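import Mathlib
import Pool.Agent.P.MP_365c00_gt.ZM2
import Pool.Agent.P.MP_365c00_gt.BMove

/-! Index theory: auxiliary definitions. -/

set_option linter.unusedSectionVars false
set_option linter.unusedVariables false

open Set Filter Topology Metric Function MeasureTheory
open scoped Manifold ContDiff
open Pool.Agent.GeoN

namespace Pool.Agent.Fu

variable {E : Type} [NormedAddCommGroup E] [InnerProductSpace ℝ E] [FiniteDimensional ℝ E]
  {M : Type} [MetricSpace M] [ChartedSpace E M] [IsManifold 𝓘(ℝ, E) ∞ M]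
  [CompactSpace M] [Nonempty M] [Nontrivial E] {g : Met E M}

variable {sh : Short g} {a : ℝ}

/-- the index form as a bilinear map -/
noncomputable def Ql (sh : Short g) (u : UG g) (k : ℕ) (t : ℕ → ℝ) :
    (ℕ → E) →ₗ[ℝ] (ℕ → E) →ₗ[ℝ] ℝ :=
  LinearMap.mk₂ ℝ (Qf sh u k t)
    (fun v v' w => by
      simp only [Qf, ← Finset.sum_add_distrib]
      refine Finset.sum_congr rfl fun j _ => ?_
      rw [← ContinuousLinearMap.add_apply, ← map_add]
      rfl)
    (fun c v w => by
      simp only [Qf, smul_eq_mul, Finset.mul_sum]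
      refine Finset.sum_congr rfl fun j _ => ?_
      rw [← smul_eq_mul, ← ContinuousLinearMap.smul_apply, ← map_smul]
      rfl)
    (fun v w w' => by
      simp only [Qf, ← Finset.sum_add_distrib]
      refine Finset.sum_congr rfl fun j _ => ?_
      rw [← map_add]
      rfl)
    (fun c v w => by
      simp only [Qf, smul_eq_mul, Finset.mul_sum]
      refine Finset.sum_congr rfl fun j _ => ?_
      rw [← smul_eq_mul, ← map_smul]
      rfl)

theorem Ql_apply (u : UG g) (k : ℕ) (t : ℕ → ℝ) (v w : ℕ → E) :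
    Ql sh u k t v w = Qf sh u k t v w := rfl

theorem Qf_eq_Ql (u : UG g) (k : ℕ) (t : ℕ → ℝ) :
    Qf sh u k t = fun v w => Ql sh u k t v w := rfl

theorem mem_Vk {k : ℕ} {v : ℕ → E} : v ∈ Vk E k ↔ v 0 = 0 ∧ ∀ j, k ≤ j → v j = 0 := Iff.rfl

/-- the energy of the short geodesic in the charts at `x` and `y` -/
noncomputable def Sc (sh : Short g) (x y : M) (w : E × E) : ℝ :=
  sh.S ((κ E x).symm w.1, (κ E y).symm w.2)

/-- its domain -/
def Dc (sh : Short g) (x y : M) : Set (E × E) :=
  {w | w.1 ∈ (κ E x).target ∧ w.2 ∈ (κ E y).target ∧ ((κ E x).symm w.1, (κ E y).symm w.2) ∈ sh.D}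

/-- the coordinate of `u s` in its own chart -/
noncomputable def bp (u : UG g) (s : ℝ) : E := κ E (u.1 s) (u.1 s)

/-- the velocity of `u` at the time `s` in the chart at `u s` -/
noncomputable def tv (u : UG g) (s : ℝ) : E := vel E (u.1 s) u.1 s

/-- the metric at `u s` in the chart at `u s` -/
noncomputable def gt (u : UG g) (s : ℝ) : E →L[ℝ] E →L[ℝ] ℝ := G g (u.1 s) (bp u s)

theorem Sq_eq (u : UG g) (s t : ℝ) :
    Sq sh u s t = fun w => Sc sh (u.1 s) (u.1 t) w / (t - s) := rfl

theorem Bq_eq (u : UG g) (s t : ℝ) :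
    Bq sh u s t = fderiv ℝ (fderiv ℝ (Sq sh u s t)) (bp u s, bp u t) := rfl

theorem gt_tv (u : UG g) (s : ℝ) : gt u s (tv u s) (tv u s) = 1 :=
  u.unit s (mem_extChartAt_source _)

/-- insertion of a term after the place `i` -/
def insN {α : Type} (t : ℕ → α) (i : ℕ) (x : α) (j : ℕ) : α :=
  if j ≤ i then t j else if j = i + 1 then x else t (j - 1)

/-- joining a partition of `[0, P]` with `k` pieces and a partition of `[0, l]` -/
def ctp (k : ℕ) (P : ℝ) (t t' : ℕ → ℝ) (j : ℕ) : ℝ := if j < k then t j else t' (j - k) + P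

theorem Bq_shift' (u : UG g) (r s t : ℝ) :
    Bq sh (shift r u) s t = Bq sh u (s + r) (t + r) := by
  unfold Bq Sq
  simp only [shift_apply, add_sub_add_right_eq_sub]

end Pool.Agent.Fu
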