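import Mathlib
import Pool.Agent.P.MP_365c00_gt.ZI0

/-! Index theory: linear algebra. -/

set_option linter.unusedSectionVars false
set_option linter.unusedVariables false

open Set Filter Topology Metric Function MeasureTheory
open scoped Manifold ContDiff
open Pool.Agent.GeoN

namespace Pool.Agent.Fu

variable {E : Type} [NormedAddCommGroup E] [InnerProductSpace ℝ E] [FiniteDimensional ℝ E]
  {M : Type} [MetricSpace M] [ChartedSpace E M] [IsManifold 𝓘(ℝ, E) ∞ M]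
  [CompactSpace M] [Nonempty M] [Nontrivial E] {g : Met E M}

variable {sh : Short g} {a : ℝ}

section alg
variable {W W' : Type} [AddCommGroup W] [Module ℝ W] [AddCommGroup W'] [Module ℝ W']

theorem zi1_bdd (Q : W → W → ℝ) (V : Submodule ℝ W) [FiniteDimensional ℝ V] :
    BddAbove {r | ∃ N : Submodule ℝ W, N ≤ V ∧ Module.finrank ℝ N = r ∧
      ∀ v ∈ N, v ≠ 0 → Q v v < 0} := by
  refine ⟨Module.finrank ℝ V, ?_⟩
  rintro r ⟨N, hN, rfl, -⟩
  exact Submodule.finrank_mono hN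

theorem zi1_inj (L : W →ₗ[ℝ] W') {N : Submodule ℝ W} (h : ∀ v ∈ N, L v = 0 → v = 0) :
    Module.finrank ℝ (N.map L) = Module.finrank ℝ N := by
  have h1 : Injective (L.domRestrict N) := by
    rw [injective_iff_map_eq_zero]
    exact fun v hv => Subtype.ext (h v v.2 hv)
  rw [← LinearMap.finrank_range_of_inj h1, LinearMap.range_domRestrict]

theorem nI_spec (Q : W → W → ℝ) (V : Submodule ℝ W) [FiniteDimensional ℝ V] :
    ∃ N : Submodule ℝ W, N ≤ V ∧ Module.finrank ℝ N = nI Q V ∧ ∀ v ∈ N, v ≠ 0 → Q v v < 0 :=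
  Nat.sSup_mem (s := {r | ∃ N : Submodule ℝ W, N ≤ V ∧ Module.finrank ℝ N = r ∧
      ∀ v ∈ N, v ≠ 0 → Q v v < 0})
    ⟨0, ⊥, bot_le, finrank_bot ℝ W, fun v hv h0 => absurd ((Submodule.mem_bot ℝ).1 hv) h0⟩
    (zi1_bdd Q V)

theorem le_nI {Q : W → W → ℝ} {V N : Submodule ℝ W} [FiniteDimensional ℝ V] (h : N ≤ V)
    (hn : ∀ v ∈ N, v ≠ 0 → Q v v < 0) : Module.finrank ℝ N ≤ nI Q V :=
  le_csSup (zi1_bdd Q V) ⟨N, h, rfl, hn⟩

theorem nI_le (Q : W → W → ℝ) (V : Submodule ℝ W) [FiniteDimensional ℝ V] :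
    nI Q V ≤ Module.finrank ℝ V := by
  obtain ⟨N, hN, hr, -⟩ := nI_spec Q V
  rw [← hr]
  exact Submodule.finrank_mono hN

theorem nI_map {Q : W → W → ℝ} {Q' : W' → W' → ℝ} {V : Submodule ℝ W} {V' : Submodule ℝ W'}
    [FiniteDimensional ℝ V] [FiniteDimensional ℝ V'] (L : W →ₗ[ℝ] W') (h0 : 0 ≤ Q' 0 0)
    (hL : ∀ v ∈ V, L v ∈ V') (h : ∀ v ∈ V, Q' (L v) (L v) ≤ Q v v) : nI Q V ≤ nI Q' V' := by
  obtain ⟨N, hN, hr, hneg⟩ := nI_spec Q V
  have hinj : ∀ v ∈ N, L v = 0 → v = 0 := by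
    intro v hv h1
    by_contra h2
    have h3 := h v (hN hv)
    rw [h1] at h3
    linarith [hneg v hv h2]
  rw [← hr, ← zi1_inj L hinj]
  refine le_nI ?_ ?_
  · rintro _ ⟨v, hv, rfl⟩
    exact hL v (hN hv)
  · rintro _ ⟨v, hv, rfl⟩ h1
    refine (h v (hN hv)).trans_lt (hneg v hv ?_)
    rintro rfl
    exact h1 (map_zero L)

theorem zi1_perp {B : W →ₗ[ℝ] W →ₗ[ℝ] ℝ} {V N : Submodule ℝ W} [FiniteDimensional ℝ V]
    (hs : ∀ v w, B v w = B w v) (hN : N ≤ V)
    (hr : Module.finrank ℝ N = nI (fun v w => B v w) V) (h : ∀ v ∈ N, v ≠ 0 → B v v < 0)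
    {v : W} (hv : v ∈ V) (hp : ∀ n ∈ N, B n v = 0) : 0 ≤ B v v := by
  by_contra hc
  have hc : B v v < 0 := not_le.1 hc
  have hvN : v ∉ N := fun hm => hc.ne (hp v hm)
  have hle : N ⊔ Submodule.span ℝ {v} ≤ V :=
    sup_le hN ((Submodule.span_singleton_le_iff_mem v V).2 hv)
  have : FiniteDimensional ℝ (N ⊔ Submodule.span ℝ {v} : Submodule ℝ W) :=
    Submodule.finiteDimensional_of_le hle
  have hlt : N < N ⊔ Submodule.span ℝ {v} := by
    refine lt_of_le_of_ne le_sup_left fun e => hvN ?_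
    rw [e]
    exact Submodule.mem_sup_right (Submodule.mem_span_singleton_self v)
  have h1 := Submodule.finrank_lt_finrank_of_lt hlt
  have h2 : Module.finrank ℝ (N ⊔ Submodule.span ℝ {v} : Submodule ℝ W) ≤
      nI (fun v w => B v w) V := by
    refine le_nI hle fun x hx hx0 => ?_
    obtain ⟨n, hn, y, hy, rfl⟩ := Submodule.mem_sup.1 hx
    obtain ⟨c, rfl⟩ := Submodule.mem_span_singleton.1 hy
    have e : B (n + c • v) (n + c • v) = B n n + c ^ 2 * B v v := by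
      simp only [map_add, map_smul, LinearMap.add_apply, LinearMap.smul_apply, smul_eq_mul,
        hs v n, hp n hn]
      ring
    show B (n + c • v) (n + c • v) < 0
    rw [e]
    by_cases hn0 : n = 0
    · have hc0 : c ≠ 0 := by
        rintro rfl
        exact hx0 (by simp [hn0])
      have : c ^ 2 * B v v < 0 := mul_neg_of_pos_of_neg (by positivity) hc
      simpa [hn0] using this
    · have : c ^ 2 * B v v ≤ 0 := mul_nonpos_of_nonneg_of_nonpos (sq_nonneg c) hc.le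
      linarith [h n hn hn0]
  omega

/-- the form is nonnegative on a subspace of codimension at most the index -/
theorem nI_fun (B : W →ₗ[ℝ] W →ₗ[ℝ] ℝ) (V : Submodule ℝ W) [FiniteDimensional ℝ V]
    (hs : ∀ v w, B v w = B w v) :
    ∃ φ : W →ₗ[ℝ] (Fin (nI (fun v w => B v w) V) → ℝ), ∀ v ∈ V, φ v = 0 → 0 ≤ B v v := by
  obtain ⟨N, hN, hr, hneg⟩ := nI_spec (fun v w => B v w) V
  have : FiniteDimensional ℝ N := Submodule.finiteDimensional_of_le hN
  let e := Module.finBasisOfFinrankEq ℝ N hr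
  refine ⟨LinearMap.pi fun i => B (e i), fun v hv h0 => zi1_perp hs hN hr hneg hv fun n hn => ?_⟩
  have h1 : (B.flip v).domRestrict N = 0 := by
    refine e.ext fun i => ?_
    simpa using congrFun h0 i
  simpa using LinearMap.congr_fun h1 ⟨n, hn⟩

/-- the orthogonal complement of a maximal negative subspace of a nondegenerate form -/
theorem nI_compl {B : W →ₗ[ℝ] W →ₗ[ℝ] ℝ} {V N : Submodule ℝ W} [FiniteDimensional ℝ V]
    (hs : ∀ v w, B v w = B w v) (hn : ∀ v ∈ V, (∀ w ∈ V, B v w = 0) → v = 0) (hN : N ≤ V)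
    (hr : Module.finrank ℝ N = nI (fun v w => B v w) V) (h : ∀ v ∈ N, v ≠ 0 → B v v < 0) :
    ∃ N' : Submodule ℝ W, N' ≤ V ∧ N ⊓ N' = ⊥ ∧ N ⊔ N' = V ∧ (∀ v ∈ N', v ≠ 0 → 0 < B v v) ∧
      ∀ v ∈ N, ∀ w ∈ N', B v w = 0 := by
  have : FiniteDimensional ℝ N := Submodule.finiteDimensional_of_le hN
  let ψ : W →ₗ[ℝ] Module.Dual ℝ N := (B.domRestrict N).flip
  have hψ : ∀ (w : W) (n : N), ψ w n = B n w := fun w n => rfl
  have hmem : ∀ w, w ∈ V ⊓ LinearMap.ker ψ ↔ w ∈ V ∧ ∀ n ∈ N, B n w = 0 := by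
    intro w
    rw [Submodule.mem_inf, LinearMap.mem_ker]
    refine and_congr_right fun _ => ⟨fun h1 n hn => ?_, fun h1 => ?_⟩
    · rw [← hψ w ⟨n, hn⟩, h1]
      rfl
    · exact LinearMap.ext fun n => h1 n n.2
  have hinj : Injective (ψ.domRestrict N) := by
    rw [injective_iff_map_eq_zero]
    intro n h1
    by_contra h2
    have h3 : B n n = 0 := LinearMap.congr_fun h1 n
    exact (h n n.2 fun e => h2 (Subtype.ext e)).ne h3
  have hsurj : Surjective (ψ.domRestrict N) :=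
    (LinearMap.injective_iff_surjective_of_finrank_eq_finrank
      (Subspace.dual_finrank_eq (K := ℝ) (V := N)).symm).1 hinj
  have hdec : ∀ w ∈ V, ∃ n ∈ N, w - n ∈ V ⊓ LinearMap.ker ψ := by
    intro w hw
    obtain ⟨n, hn⟩ := hsurj (ψ w)
    refine ⟨n, n.2, V.sub_mem hw (hN n.2), ?_⟩
    have hn' : ψ n = ψ w := hn
    show ψ (w - n) = 0
    rw [map_sub, hn', sub_self]
  have hnn : ∀ w ∈ V ⊓ LinearMap.ker ψ, 0 ≤ B w w := fun w hw =>
    zi1_perp hs hN hr h ((hmem w).1 hw).1 ((hmem w).1 hw).2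
  refine ⟨V ⊓ LinearMap.ker ψ, inf_le_left, ?_, ?_, ?_, fun v hv w hw => ((hmem w).1 hw).2 v hv⟩
  · rw [eq_bot_iff]
    rintro v ⟨hv, hv'⟩
    by_contra h0
    exact (h v hv fun e => h0 ((Submodule.mem_bot ℝ).2 e)).ne (((hmem v).1 hv').2 v hv)
  · refine le_antisymm (sup_le hN inf_le_left) fun w hw => ?_
    obtain ⟨n, hn, h1⟩ := hdec w hw
    exact Submodule.mem_sup.2 ⟨n, hn, w - n, h1, by abel⟩
  · intro v hv h0
    refine (hnn v hv).lt_of_ne fun e => h0 (hn v ((hmem v).1 hv).1 fun w hw => ?_)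
    obtain ⟨n, hn, h1⟩ := hdec w hw
    have h2 : B v (w - n) = 0 := by
      by_contra h3
      have h4 := hnn ((-(B (w - n) (w - n) + 1) / (2 * B v (w - n))) • v + (w - n))
        (Submodule.add_mem _ (Submodule.smul_mem _ _ hv) h1)
      have h5 : (-(B (w - n) (w - n) + 1) / (2 * B v (w - n))) * (2 * B v (w - n)) =
          -(B (w - n) (w - n) + 1) := div_mul_cancel₀ _ (mul_ne_zero two_ne_zero h3)
      generalize -(B (w - n) (w - n) + 1) / (2 * B v (w - n)) = r at h4 h5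
      generalize w - n = x at h4 h5
      simp only [map_add, map_smul, LinearMap.add_apply, LinearMap.smul_apply, smul_eq_mul,
        hs x v, ← e] at h4
      linarith
    have h3 : B v n = 0 := by
      rw [hs]
      exact ((hmem v).1 hv).2 n hn
    rw [map_sub, h3, sub_zero] at h2
    exact h2

/-- negative semidefinite subspaces of a nondegenerate form -/
theorem nI_semi {B : W →ₗ[ℝ] W →ₗ[ℝ] ℝ} {V S : Submodule ℝ W} [FiniteDimensional ℝ V]
    (hs : ∀ v w, B v w = B w v) (hn : ∀ v ∈ V, (∀ w ∈ V, B v w = 0) → v = 0) (hS : S ≤ V)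
    (h : ∀ v ∈ S, B v v ≤ 0) : Module.finrank ℝ S ≤ nI (fun v w => B v w) V := by
  obtain ⟨N, hN, hr, hneg⟩ := nI_spec (fun v w => B v w) V
  obtain ⟨N', h1, h2, h3, h4, -⟩ := nI_compl hs hn hN hr hneg
  have : FiniteDimensional ℝ N := Submodule.finiteDimensional_of_le hN
  have : FiniteDimensional ℝ N' := Submodule.finiteDimensional_of_le h1
  have : FiniteDimensional ℝ S := Submodule.finiteDimensional_of_le hS
  have h5 : S ⊓ N' = ⊥ := by
    rw [eq_bot_iff]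
    rintro v ⟨hv, hv'⟩
    by_contra h0
    exact absurd (h4 v hv' fun e => h0 ((Submodule.mem_bot ℝ).2 e)) (not_lt.2 (h v hv))
  have h6 := Submodule.finrank_sup_add_finrank_inf_eq S N'
  have h7 := Submodule.finrank_sup_add_finrank_inf_eq N N'
  rw [h5, finrank_bot] at h6
  rw [h2, h3, finrank_bot] at h7
  have h8 : Module.finrank ℝ (S ⊔ N' : Submodule ℝ W) ≤ Module.finrank ℝ V :=
    Submodule.finrank_mono (sup_le hS h1)
  omega

/-- the same for the image of an injective linear map -/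
theorem nI_semi_map {B : W →ₗ[ℝ] W →ₗ[ℝ] ℝ} {V : Submodule ℝ W} [FiniteDimensional ℝ V]
    (hs : ∀ v w, B v w = B w v) (hn : ∀ v ∈ V, (∀ w ∈ V, B v w = 0) → v = 0) (L : W' →ₗ[ℝ] W)
    (hL : Injective L) (hV : ∀ x, L x ∈ V) (h : ∀ x, B (L x) (L x) ≤ 0) :
    Module.finrank ℝ W' ≤ nI (fun v w => B v w) V := by
  rw [← LinearMap.finrank_range_of_inj hL]
  refine nI_semi hs hn ?_ ?_
  · rintro _ ⟨x, rfl⟩
    exact hV x
  · rintro _ ⟨x, rfl⟩
    exact h x

/-- a bound for the index by a linear map whose kernel carries no negative vector -/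
theorem nI_le_of_fun {Q : W → W → ℝ} {V : Submodule ℝ W} [FiniteDimensional ℝ V]
    [FiniteDimensional ℝ W'] (φ : W →ₗ[ℝ] W') (h : ∀ v ∈ V, φ v = 0 → 0 ≤ Q v v) :
    nI Q V ≤ Module.finrank ℝ W' := by
  obtain ⟨N, hN, hr, hneg⟩ := nI_spec Q V
  have hinj : ∀ v ∈ N, φ v = 0 → v = 0 := by
    intro v hv h1
    by_contra h2
    exact absurd (hneg v hv h2) (not_lt.2 (h v (hN hv) h1))
  rw [← hr, ← zi1_inj φ hinj]
  exact Submodule.finrank_le _

end alg

/-- the inner corners -/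
def zi1_emb (k : ℕ) : Vk E k →ₗ[ℝ] (Fin (k - 1) → E) where
  toFun v i := v.1 (i + 1)
  map_add' _ _ := rfl
  map_smul' _ _ := rfl

theorem zi1_emb_inj (k : ℕ) : Injective (zi1_emb (E := E) k) := by
  rw [injective_iff_map_eq_zero]
  intro v hv
  refine Subtype.ext (funext fun j => ?_)
  rcases j with _ | j
  · exact v.2.1
  · by_cases hj : j < k - 1
    · exact congrFun hv ⟨j, hj⟩
    · exact v.2.2 _ (by omega)

instance Vk_fd (k : ℕ) : FiniteDimensional ℝ (Vk E k) :=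
  Module.Finite.of_injective _ (zi1_emb_inj k)

theorem Vk_rank (k : ℕ) : Module.finrank ℝ (Vk E k) ≤ (k - 1) * Module.finrank ℝ E := by
  have h := LinearMap.finrank_le_finrank_of_injective (zi1_emb_inj (E := E) k)
  rw [Module.finrank_pi_fintype] at h
  simpa using h

theorem part_std {a l : ℝ} (ha : 0 < a) (hl : 0 < l) :
    Part a l (⌊2 * l / a⌋₊ + 1) fun j => j * (l / (⌊2 * l / a⌋₊ + 1 : ℕ)) := by
  have hk : (0 : ℝ) < (⌊2 * l / a⌋₊ + 1 : ℕ) := by positivity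
  have h1 : 2 * l / a < (⌊2 * l / a⌋₊ + 1 : ℕ) := by
    push_cast
    exact Nat.lt_floor_add_one _
  have h2 : 0 < l / (⌊2 * l / a⌋₊ + 1 : ℕ) := div_pos hl hk
  have h3 : l / (⌊2 * l / a⌋₊ + 1 : ℕ) < a := by
    rw [div_lt_iff₀ ha] at h1
    rw [div_lt_iff₀ hk]
    linarith
  refine ⟨Nat.succ_pos _, by simp, mul_div_cancel₀ l hk.ne', fun j _ => ?_⟩
  generalize l / (⌊2 * l / a⌋₊ + 1 : ℕ) = x at h2 h3
  simp only [Nat.cast_add, Nat.cast_one]
  constructor <;> linarith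

theorem Part.lt {l : ℝ} {k : ℕ} {t : ℕ → ℝ} (ht : Part a l k t) {i j : ℕ} (hij : i < j)
    (hj : j ≤ k) : t i < t j := by
  induction j, hij using Nat.le_induction with
  | base => exact (ht.2.2.2 i hj).1
  | succ j hij ih => exact (ih (by omega)).trans (ht.2.2.2 j hj).1

theorem Part.pos {l : ℝ} {k : ℕ} {t : ℕ → ℝ} (ht : Part a l k t) : 0 < l := by
  have h := ht.lt ht.1 le_rfl
  rwa [ht.2.1, ht.2.2.1] at h

theorem idx_le' (h : SMd sh dist a) (u : UG g) {l : ℝ} (hl : 0 < l) :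
    (idx sh a u l : ℝ) ≤ 2 * Module.finrank ℝ E / a * l := by
  have h1 : idx sh a u l ≤ ⌊2 * l / a⌋₊ * Module.finrank ℝ E :=
    (nI_le _ _).trans (by simpa using Vk_rank (E := E) (⌊2 * l / a⌋₊ + 1))
  have h2 : (⌊2 * l / a⌋₊ : ℝ) ≤ 2 * l / a := Nat.floor_le (by have := h.pos; positivity)
  calc (idx sh a u l : ℝ) ≤ (⌊2 * l / a⌋₊ : ℝ) * Module.finrank ℝ E := by exact_mod_cast h1
    _ ≤ 2 * l / a * Module.finrank ℝ E := mul_le_mul_of_nonneg_right h2 (Nat.cast_nonneg _)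
    _ = 2 * Module.finrank ℝ E / a * l := by ring

end Pool.Agent.Fu
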