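import Mathlib
import Pool.Agent.P.MP_365c00_gt.ZI0

/-! Index theory: first and second derivatives of the energy of short geodesics. -/

set_option linter.unusedSectionVars false
set_option linter.unusedVariables false

open Set Filter Topology Metric Function MeasureTheory
open scoped Manifold ContDiff
open Pool.Agent.GeoN

namespace Pool.Agent.Fu

variable {E : Type} [NormedAddCommGroup E] [InnerProductSpace ℝ E] [FiniteDimensional ℝ E]
  {M : Type} [MetricSpace M] [ChartedSpace E M] [IsManifold 𝓘(ℝ, E) ∞ M]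
  [CompactSpace M] [Nonempty M] [Nontrivial E] {g : Met E M}

variable {sh : Short g} {a : ℝ}

theorem Dc_open (sh : Short g) (x y : M) : IsOpen (Dc sh x y) := by
  have := (((continuousOn_extChartAt_symm (I := 𝓘(ℝ, E)) x).prodMap
    (continuousOn_extChartAt_symm (I := 𝓘(ℝ, E)) y)).isOpen_inter_preimage
    ((target_open x).prod (target_open y)) sh.D_open)
  exact (bm_open (Set.ext fun w => and_assoc.symm)).2 this

theorem Sc_smooth {x y : M} {w : E × E} (hw : w ∈ Dc sh x y) : ContDiffAt ℝ ∞ (Sc sh x y) w := by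
  exact energy_smooth (Dc_open sh x y) (fun w hw => sh.geo _ hw.2.2)
    (fun w hw => sh.smooth x y w hw.1 hw.2.1 hw.2.2) hw

theorem Sc_fderiv {x y : M} {w : E × E} (hw : w ∈ Dc sh x y) (ξ : E × E) :
    fderiv ℝ (Sc sh x y) w ξ =
      2 * G g y w.2 (vel E y (sh.σ ((κ E x).symm w.1, (κ E y).symm w.2)) 1) ξ.2 -
        2 * G g x w.1 (vel E x (sh.σ ((κ E x).symm w.1, (κ E y).symm w.2)) 0) ξ.1 := by
  have ho := Dc_open sh x y
  have := first_variation ho (fun w hw => sh.geo _ hw.2.2)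
    (fun w hw => sh.smooth x y w hw.1 hw.2.1 hw.2.2) hw ξ (t := 0) (t' := 1) (x := x) (x' := y)
    (by simp only [sh.zero _ hw.2.2]; exact (κ E x).map_target hw.1)
    (by simp only [sh.one _ hw.2.2]; exact (κ E y).map_target hw.2.1)
  have e0 : (fun w : E × E => κ E x (sh.σ ((κ E x).symm w.1, (κ E y).symm w.2) 0)) =ᶠ[𝓝 w]
      Prod.fst := by
    filter_upwards [ho.mem_nhds hw] with w hw
    rw [sh.zero _ hw.2.2, (κ E x).right_inv hw.1]
  have e1 : (fun w : E × E => κ E y (sh.σ ((κ E x).symm w.1, (κ E y).symm w.2) 1)) =ᶠ[𝓝 w]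
      Prod.snd := by
    filter_upwards [ho.mem_nhds hw] with w hw
    rw [sh.one _ hw.2.2, (κ E y).right_inv hw.2.1]
  rw [e0.fderiv_eq, e1.fderiv_eq, fderiv_fst, fderiv_snd, sh.zero _ hw.2.2, sh.one _ hw.2.2,
    (κ E x).right_inv hw.1, (κ E y).right_inv hw.2.1] at this
  simp only [ContinuousLinearMap.coe_fst', ContinuousLinearMap.coe_snd'] at this
  unfold Sc Short.S
  linarith

/-- the short geodesic between two near points of a geodesic -/
theorem sigma_geo {γ : ℝ → M} (hγ : IsGeodesic g γ) {s t : ℝ}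
    (he : (t - s) ^ 2 * energy g γ 0 < sh.ε) :
    (γ s, γ t) ∈ sh.D ∧ sh.σ (γ s, γ t) = (fun r => γ ((t - s) * r + s)) ∧
      sh.S (γ s, γ t) = (t - s) ^ 2 * energy g γ 0 := by
  have e : energy g (fun r => γ ((t - s) * r + s)) 0 = (t - s) ^ 2 * energy g γ 0 := by
    rw [energy_affine hγ, energy_const hγ _ 0]
  have h := sh.uniq _ (hγ.affine (t - s) s) (e ▸ he)
  simp only [mul_zero, zero_add, mul_one, sub_add_cancel] at h
  exact ⟨h.1, h.2, by rw [Short.S, h.2, e]⟩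

theorem Sc_geo {γ : ℝ → M} (hγ : IsGeodesic g γ) {s t : ℝ}
    (he : (t - s) ^ 2 * energy g γ 0 < sh.ε) {x y : M} (hx : γ s ∈ (κ E x).source)
    (hy : γ t ∈ (κ E y).source) :
    (κ E x (γ s), κ E y (γ t)) ∈ Dc sh x y ∧ ∀ ξ : E × E,
      fderiv ℝ (Sc sh x y) (κ E x (γ s), κ E y (γ t)) ξ =
        2 * (t - s) * (G g y (κ E y (γ t)) (vel E y γ t) ξ.2 -
          G g x (κ E x (γ s)) (vel E x γ s) ξ.1) := by
  obtain ⟨h1, h2, -⟩ := sigma_geo hγ he
  have hw : (κ E x (γ s), κ E y (γ t)) ∈ Dc sh x y :=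
    ⟨(κ E x).map_source hx, (κ E y).map_source hy, by
      simpa only [(κ E x).left_inv hx, (κ E y).left_inv hy] using h1⟩
  refine ⟨hw, fun ξ => ?_⟩
  rw [Sc_fderiv hw]
  simp only [(κ E x).left_inv hx, (κ E y).left_inv hy, h2, ChartX.vel_aff, mul_zero, zero_add,
    mul_one, sub_add_cancel, map_smul, smul_apply, smul_eq_mul]
  ring

theorem zi2_en (h : SMd sh dist a) (u : UG g) {s t : ℝ} (hst : |t - s| < a) :
    (t - s) ^ 2 * energy g u.1 0 < sh.ε := by
  rw [show energy g u.1 0 = 1 from u.2.2 0, mul_one]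
  exact (sq_lt_sq' (abs_lt.1 hst).1 (abs_lt.1 hst).2).trans_le h.le

theorem bp_mem (h : SMd sh dist a) (u : UG g) {s t : ℝ} (hst : |t - s| < a) :
    (bp u s, bp u t) ∈ Dc sh (u.1 s) (u.1 t) := by
  exact (Sc_geo u.2.1 (zi2_en h u hst) (mem_extChartAt_source _) (mem_extChartAt_source _)).1

theorem Sq_smooth (h : SMd sh dist a) (u : UG g) {s t : ℝ} (hst : |t - s| < a) :
    ContDiffAt ℝ ∞ (Sq sh u s t) (bp u s, bp u t) := by
  exact (Sc_smooth (bp_mem h u hst)).div_const _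

theorem Sq_fderiv (u : UG g) {s t : ℝ} {w : E × E} (hw : w ∈ Dc sh (u.1 s) (u.1 t)) (ξ : E × E) :
    fderiv ℝ (Sq sh u s t) w ξ = fderiv ℝ (Sc sh (u.1 s) (u.1 t)) w ξ / (t - s) := by
  have := ((Sc_smooth hw).differentiableAt (by simp)).hasFDerivAt.mul_const (t - s)⁻¹
  rw [Sq_eq]
  simp only [div_eq_mul_inv]
  rw [this.fderiv, smul_apply, smul_eq_mul, mul_comm]

/-- the first derivative at the base point -/
theorem Sq_fderiv_bp (h : SMd sh dist a) (u : UG g) {s t : ℝ} (h0 : s < t) (hst : t - s < a)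
    (ξ : E × E) : fderiv ℝ (Sq sh u s t) (bp u s, bp u t) ξ =
      2 * (gt u t (tv u t) ξ.2 - gt u s (tv u s) ξ.1) := by
  have h1 : |t - s| < a := by rwa [abs_of_pos (sub_pos.2 h0)]
  rw [Sq_fderiv u (bp_mem h u h1)]
  have := (Sc_geo u.2.1 (zi2_en h u h1) (mem_extChartAt_source (I := 𝓘(ℝ, E)) _)
    (mem_extChartAt_source (I := 𝓘(ℝ, E)) _)).2 ξ
  rw [div_eq_iff (sub_pos.2 h0).ne']
  exact this.trans (by unfold gt tv bp; ring)

theorem Sq_bp (h : SMd sh dist a) (u : UG g) {s t : ℝ} (h0 : s < t) (hst : t - s < a) :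
    Sq sh u s t (bp u s, bp u t) = t - s := by
  have h1 : |t - s| < a := by rwa [abs_of_pos (sub_pos.2 h0)]
  have := (sigma_geo u.2.1 (zi2_en h u h1)).2.2
  rw [show energy g u.1 0 = 1 from u.2.2 0, mul_one] at this
  unfold Sq bp
  rw [extChartAt_to_inv, extChartAt_to_inv, this, pow_two, mul_div_assoc, div_self (sub_pos.2 h0).ne',
    mul_one]

theorem Bq_symm (h : SMd sh dist a) (u : UG g) {s t : ℝ} (hst : |t - s| < a) (v w : E × E) :
    Bq sh u s t v w = Bq sh u s t w v := by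
  exact ((Sq_smooth h u hst).isSymmSndFDerivAt (by simpa using ChartX.two_le)).eq v w

/-- differentiating the first derivative along a family -/
theorem Bq_has (h : SMd sh dist a) (u : UG g) {s t : ℝ} (hst : |t - s| < a) {c : ℝ → E × E}
    {c' : E × E} (hc : HasDerivAt c c' 0) (h0 : c 0 = (bp u s, bp u t)) (ξ : E × E) :
    HasDerivAt (fun r => fderiv ℝ (Sq sh u s t) (c r) ξ) (Bq sh u s t c' ξ) 0 := by
  have h1 : ContDiffAt ℝ 1 (fderiv ℝ (Sq sh u s t)) (c 0) :=
    h0 ▸ (Sq_smooth h u hst).fderiv_right ChartX.one_add_one_le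
  have h2 := ((h1.differentiableAt (by norm_num)).hasFDerivAt.comp_hasDerivAt 0 hc).clm_apply
    (hasDerivAt_const 0 ξ)
  rw [map_zero, add_zero, h0] at h2
  exact h2

theorem Qf_symm' (h : SMd sh dist a) (u : UG g) {l : ℝ} {k : ℕ} {t : ℕ → ℝ} (ht : Part a l k t)
    (v w : ℕ → E) : Qf sh u k t v w = Qf sh u k t w v := by
  refine Finset.sum_congr rfl fun j hj => Bq_symm h u ?_ _ _
  have := ht.2.2.2 j (Finset.mem_range.1 hj)
  rw [abs_of_pos (sub_pos.2 this.1)]
  exact this.2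

end Pool.Agent.Fu
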