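import Mathlib
import Pool.Agent.P.MP_365c00_gt.ZI2

/-! Index theory: subdivision of a short geodesic. -/

set_option linter.unusedSectionVars false
set_option linter.unusedVariables false

open Set Filter Topology Metric Function MeasureTheory
open scoped Manifold ContDiff
open Pool.Agent.GeoN

namespace Pool.Agent.Fu

variable {E : Type} [NormedAddCommGroup E] [InnerProductSpace ℝ E] [FiniteDimensional ℝ E]
  {M : Type} [MetricSpace M] [ChartedSpace E M] [IsManifold 𝓘(ℝ, E) ∞ M]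
  [CompactSpace M] [Nonempty M] [Nontrivial E] {g : Met E M}

variable {sh : Short g} {a : ℝ}

section calc1
variable {P P' : Type} [NormedAddCommGroup P] [NormedSpace ℝ P] [NormedAddCommGroup P']
  [NormedSpace ℝ P']

theorem zi3_ev {F : Type} [NormedAddCommGroup F] [NormedSpace ℝ F] {φ : P → F} {z : P}
    (hφ : ContDiffAt ℝ 2 φ z) : ∀ᶠ y in 𝓝 z, DifferentiableAt ℝ φ y :=
  (hφ.eventually (by simp)).mono fun _ hy => hy.differentiableAt (by simp)

theorem zi3_d {F : Type} [NormedAddCommGroup F] [NormedSpace ℝ F] {φ : P → F} {z : P}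
    (hφ : ContDiffAt ℝ 2 φ z) : HasFDerivAt (fderiv ℝ φ) (fderiv ℝ (fderiv ℝ φ) z) z :=
  ((hφ.fderiv_right (m := 1) (by norm_num)).differentiableAt (by simp)).hasFDerivAt

theorem zi3_gen {φ : P' → ℝ} {Ψ : P → P'} {z : P} (hφ : ContDiffAt ℝ 2 φ (Ψ z))
    (hΨ : ContDiffAt ℝ 2 Ψ z) (v w : P) :
    fderiv ℝ (fderiv ℝ (φ ∘ Ψ)) z v w = fderiv ℝ φ (Ψ z) (fderiv ℝ (fderiv ℝ Ψ) z v w) +
      fderiv ℝ (fderiv ℝ φ) (Ψ z) (fderiv ℝ Ψ z v) (fderiv ℝ Ψ z w) := by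
  have e : fderiv ℝ (φ ∘ Ψ) =ᶠ[𝓝 z] fun y => (fderiv ℝ φ (Ψ y)).comp (fderiv ℝ Ψ y) := by
    filter_upwards [zi3_ev hΨ, hΨ.continuousAt.eventually (zi3_ev hφ)] with y h1 h2
    exact fderiv_comp y h2 h1
  have h1 := ((zi3_d hφ).comp z (zi3_ev hΨ).self_of_nhds.hasFDerivAt).clm_comp (zi3_d hΨ)
  rw [e.fderiv_eq]
  erw [h1.fderiv]
  simp

theorem hess_nonneg {φ : P → ℝ} {z : P} (hφ : ContDiffAt ℝ 2 φ z) (hm : IsLocalMin φ z) (v : P) :
    0 ≤ fderiv ℝ (fderiv ℝ φ) z v v := by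
  by_contra hn
  let c : ℝ → P := fun r => z + r • v
  have c0 : c 0 = z := by simp [c]
  have hc : ∀ r, HasDerivAt c v r := fun r => by
    have := ((hasDerivAt_id r).smul_const v).const_add z
    rwa [one_smul] at this
  have ct : Tendsto c (𝓝 0) (𝓝 z) := c0 ▸ (hc 0).continuousAt
  have e : deriv (φ ∘ c) =ᶠ[𝓝 0] fun r => fderiv ℝ φ (c r) v := by
    filter_upwards [ct.eventually (zi3_ev hφ)] with r hr
    exact (hr.hasFDerivAt.comp_hasDerivAt r (hc r)).deriv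
  have h2 : HasDerivAt (fun r => fderiv ℝ φ (c r) v) (fderiv ℝ (fderiv ℝ φ) z v v) 0 := by
    have := ((zi3_d hφ).comp_hasDerivAt_of_eq 0 (hc 0) c0.symm).clm_apply (hasDerivAt_const 0 v)
    simpa using this
  have h3 : deriv (deriv (φ ∘ c)) 0 = fderiv ℝ (fderiv ℝ φ) z v v := by
    rw [e.deriv_eq, h2.deriv]
  have hmin : IsLocalMin (φ ∘ c) 0 :=
    IsLocalMin.comp_continuous (c0.symm ▸ hm) (hc 0).continuousAt
  have hmax : IsLocalMax (φ ∘ c) 0 := isLocalMax_of_deriv_deriv_neg (h3 ▸ not_le.1 hn)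
    hmin.deriv_eq_zero (ContinuousAt.comp (c0.symm ▸ hφ.continuousAt) (hc 0).continuousAt)
  have h4 := (eventuallyEq_of_isMinFilter_of_isMaxFilter hmin hmax).deriv.deriv_eq
  rw [h3] at h4
  exact hn (le_of_eq (by simp [h4]))

theorem hess_comp {φ : P' → ℝ} {Ψ : P → P'} {z : P} (hφ : ContDiffAt ℝ 2 φ (Ψ z))
    (hΨ : ContDiffAt ℝ 2 Ψ z) (h0 : fderiv ℝ φ (Ψ z) = 0) (v w : P) :
    fderiv ℝ (fderiv ℝ (φ ∘ Ψ)) z v w =
      fderiv ℝ (fderiv ℝ φ) (Ψ z) (fderiv ℝ Ψ z v) (fderiv ℝ Ψ z w) := by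
  rw [zi3_gen hφ hΨ, h0]; simp

theorem hess_lin {φ : P' → ℝ} (L : P →L[ℝ] P') {z : P} (hφ : ContDiffAt ℝ 2 φ (L z)) (v w : P) :
    fderiv ℝ (fderiv ℝ (φ ∘ L)) z v w = fderiv ℝ (fderiv ℝ φ) (L z) (L v) (L w) := by
  have e : fderiv ℝ (⇑L) = fun _ => L := funext fun _ => L.fderiv
  rw [zi3_gen hφ L.contDiff.contDiffAt, e]; simp

theorem hess_add {φ ψ : P → ℝ} {z : P} (hφ : ContDiffAt ℝ 2 φ z) (hψ : ContDiffAt ℝ 2 ψ z) :
    fderiv ℝ (fderiv ℝ (fun y => φ y + ψ y)) z =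
      fderiv ℝ (fderiv ℝ φ) z + fderiv ℝ (fderiv ℝ ψ) z := by
  have e : fderiv ℝ (fun y => φ y + ψ y) =ᶠ[𝓝 z] fun y => fderiv ℝ φ y + fderiv ℝ ψ y := by
    filter_upwards [zi3_ev hφ, zi3_ev hψ] with y h1 h2
    exact fderiv_fun_add h1 h2
  rw [e.fderiv_eq]
  exact ((zi3_d hφ).add (zi3_d hψ)).fderiv

theorem hess_sub {φ ψ : P → ℝ} {z : P} (hφ : ContDiffAt ℝ 2 φ z) (hψ : ContDiffAt ℝ 2 ψ z) :
    fderiv ℝ (fderiv ℝ (fun y => φ y - ψ y)) z =
      fderiv ℝ (fderiv ℝ φ) z - fderiv ℝ (fderiv ℝ ψ) z := by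
  have e : fderiv ℝ (fun y => φ y - ψ y) =ᶠ[𝓝 z] fun y => fderiv ℝ φ y - fderiv ℝ ψ y := by
    filter_upwards [zi3_ev hφ, zi3_ev hψ] with y h1 h2
    exact fderiv_fun_sub h1 h2
  rw [e.fderiv_eq]
  exact ((zi3_d hφ).sub (zi3_d hψ)).fderiv

end calc1

theorem zi3_le : (2 : WithTop ℕ∞) ≤ ∞ := by
  exact WithTop.coe_le_coe.2 (le_top (a := (2 : ℕ∞)))

theorem zi3_he (h : SMd sh dist a) (u : UG g) {s t : ℝ} (h0 : s < t) (hst : t - s < a) :
    (t - s) ^ 2 * energy g u.1 0 < sh.ε := by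
  have e : energy g u.1 0 = 1 := u.2.2 0
  rw [e, mul_one]
  exact (pow_lt_pow_left₀ hst (by linarith) two_ne_zero).trans_le h.le

theorem zi3_near (h : SMd sh dist a) (u : UG g) {s t : ℝ} (h0 : s < t) (hst : t - s < a) :
    ∀ᶠ w in 𝓝 (bp u s, bp u t), Sq sh u s t w =
      dist ((κ E (u.1 s)).symm w.1) ((κ E (u.1 t)).symm w.2) ^ 2 / (t - s) := by
  have ha : |t - s| < a := by rwa [abs_of_pos (by linarith)]
  have hp : 0 < t - s := by linarith
  have h1 : Sq sh u s t (bp u s, bp u t) < a ^ 2 / (t - s) := by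
    rw [Sq_bp h u h0 hst, lt_div_iff₀ hp]; nlinarith
  filter_upwards [(Dc_open sh _ _).mem_nhds (bp_mem h u ha),
    (Sq_smooth h u ha).continuousAt.eventually (gt_mem_nhds h1)] with w hw h2
  have h3 := h.near _ hw.2.2 ((div_lt_div_iff_of_pos_right hp).1 h2)
  rw [← (h.mem _ _ h3).2]; rfl

def zi3p (E : Type) [NormedAddCommGroup E] [NormedSpace ℝ E] : E × E × E →L[ℝ] E × E :=
  (ContinuousLinearMap.fst ℝ E (E × E)).prod
    ((ContinuousLinearMap.fst ℝ E E).comp (ContinuousLinearMap.snd ℝ E (E × E)))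

def zi3q (E : Type) [NormedAddCommGroup E] [NormedSpace ℝ E] : E × E × E →L[ℝ] E × E :=
  (ContinuousLinearMap.fst ℝ E (E × E)).prod
    ((ContinuousLinearMap.snd ℝ E E).comp (ContinuousLinearMap.snd ℝ E (E × E)))

noncomputable def zi3F (sh : Short g) (u : UG g) (s m t : ℝ) (w : E × E × E) : ℝ :=
  (Sq sh u s m ∘ zi3p E) w + (Sq sh u m t ∘ ContinuousLinearMap.snd ℝ E (E × E)) w -
    (Sq sh u s t ∘ zi3q E) w

theorem zi3_main (h : SMd sh dist a) (u : UG g) {s m t : ℝ} (hsm : s < m) (hmt : m < t)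
    (hst : t - s < a) : ContDiffAt ℝ 2 (zi3F sh u s m t) (bp u s, bp u m, bp u t) ∧
      IsLocalMin (zi3F sh u s m t) (bp u s, bp u m, bp u t) ∧ ∀ x y z : E,
      fderiv ℝ (fderiv ℝ (zi3F sh u s m t)) (bp u s, bp u m, bp u t) (x, y, z) (x, y, z) =
        Bq sh u s m (x, y) (x, y) + Bq sh u m t (y, z) (y, z) - Bq sh u s t (x, z) (x, z) := by
  have sm : ∀ {s t : ℝ}, s < t → t - s < a → ContDiffAt ℝ 2 (Sq sh u s t) (bp u s, bp u t) :=
    fun h0 h1 => (Sq_smooth h u (by rwa [abs_of_pos (by linarith)])).of_le zi3_le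
  have s1 := sm hsm (by linarith)
  have s2 := sm hmt (by linarith)
  have s3 := sm (hsm.trans hmt) hst
  have t1 : ContDiffAt ℝ 2 (Sq sh u s m ∘ zi3p E) (bp u s, bp u m, bp u t) :=
    ContDiffAt.comp _ s1 (zi3p E).contDiff.contDiffAt
  have t2 : ContDiffAt ℝ 2 (Sq sh u m t ∘ ContinuousLinearMap.snd ℝ E (E × E))
      (bp u s, bp u m, bp u t) :=
    ContDiffAt.comp _ s2 (ContinuousLinearMap.snd ℝ E (E × E)).contDiff.contDiffAt
  have t3 : ContDiffAt ℝ 2 (Sq sh u s t ∘ zi3q E) (bp u s, bp u m, bp u t) :=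
    ContDiffAt.comp _ s3 (zi3q E).contDiff.contDiffAt
  refine ⟨(t1.add t2).sub t3, ?_, fun x y z => ?_⟩
  · have e0 : zi3F sh u s m t (bp u s, bp u m, bp u t) = 0 := by
      show Sq sh u s m (bp u s, bp u m) + Sq sh u m t (bp u m, bp u t) -
        Sq sh u s t (bp u s, bp u t) = 0
      rw [Sq_bp h u hsm (by linarith), Sq_bp h u hmt (by linarith), Sq_bp h u (hsm.trans hmt) hst]
      ring
    have c1 : Tendsto (zi3p E) (𝓝 (bp u s, bp u m, bp u t)) (𝓝 (bp u s, bp u m)) :=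
      (zi3p E).continuous.tendsto _
    have c2 : Tendsto (ContinuousLinearMap.snd ℝ E (E × E)) (𝓝 (bp u s, bp u m, bp u t))
        (𝓝 (bp u m, bp u t)) := (ContinuousLinearMap.snd ℝ E (E × E)).continuous.tendsto _
    have c3 : Tendsto (zi3q E) (𝓝 (bp u s, bp u m, bp u t)) (𝓝 (bp u s, bp u t)) :=
      (zi3q E).continuous.tendsto _
    filter_upwards [c1.eventually (zi3_near h u hsm (by linarith)),
      c2.eventually (zi3_near h u hmt (by linarith)),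
      c3.eventually (zi3_near h u (hsm.trans hmt) hst)] with w k1 k2 k3
    rw [e0, zi3F, comp_apply, comp_apply, comp_apply, k1, k2, k3]
    show 0 ≤ dist ((κ E (u.1 s)).symm w.1) ((κ E (u.1 m)).symm w.2.1) ^ 2 / (m - s) +
      dist ((κ E (u.1 m)).symm w.2.1) ((κ E (u.1 t)).symm w.2.2) ^ 2 / (t - m) -
      dist ((κ E (u.1 s)).symm w.1) ((κ E (u.1 t)).symm w.2.2) ^ 2 / (t - s)
    have tr := pow_le_pow_left₀ dist_nonneg (dist_triangle ((κ E (u.1 s)).symm w.1)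
      ((κ E (u.1 m)).symm w.2.1) ((κ E (u.1 t)).symm w.2.2)) 2
    generalize dist ((κ E (u.1 s)).symm w.1) ((κ E (u.1 m)).symm w.2.1) = p at tr ⊢
    generalize dist ((κ E (u.1 m)).symm w.2.1) ((κ E (u.1 t)).symm w.2.2) = q at tr ⊢
    have a1 : 0 < m - s := by linarith
    have a2 : 0 < t - m := by linarith
    have a3 : 0 < t - s := by linarith
    have e : p ^ 2 / (m - s) + q ^ 2 / (t - m) - (p + q) ^ 2 / (t - s) =
        (p * (t - m) - q * (m - s)) ^ 2 / ((m - s) * (t - m) * (t - s)) := by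
      field_simp; ring
    have k : 0 ≤ (p * (t - m) - q * (m - s)) ^ 2 / ((m - s) * (t - m) * (t - s)) := by positivity
    have := div_le_div_of_nonneg_right tr a3.le
    linarith
  · unfold zi3F
    rw [hess_sub (t1.add t2) t3, hess_add t1 t2]
    simp only [sub_apply, add_apply]
    rw [hess_lin (zi3p E) s1, hess_lin (ContinuousLinearMap.snd ℝ E (E × E)) s2,
      hess_lin (zi3q E) s3]
    rfl

theorem Bq_sub (h : SMd sh dist a) (u : UG g) {s m t : ℝ} (hsm : s < m) (hmt : m < t)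
    (hst : t - s < a) (x y z : E) :
    Bq sh u s t (x, z) (x, z) ≤ Bq sh u s m (x, y) (x, y) + Bq sh u m t (y, z) (y, z) := by
  obtain ⟨h1, h2, h3⟩ := zi3_main h u hsm hmt hst
  have := hess_nonneg h1 h2 (x, y, z)
  rw [h3] at this
  linarith

theorem Bq_mid (h : SMd sh dist a) (u : UG g) {s m t : ℝ} (hsm : s < m) (hmt : m < t)
    (hst : t - s < a) : ∃ μ : E × E →ₗ[ℝ] E, ∀ x z : E,
      Bq sh u s m (x, μ (x, z)) (x, μ (x, z)) + Bq sh u m t (μ (x, z), z) (μ (x, z), z) =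
        Bq sh u s t (x, z) (x, z) := by
  obtain ⟨h1, h2, h3⟩ := zi3_main h u hsm hmt hst
  have a1 : 0 < m - s := by linarith
  have a2 : 0 < t - m := by linarith
  have a3 : 0 < t - s := by linarith
  have ha : |t - s| < a := by rwa [abs_of_pos a3]
  have hb := bp_mem h u ha
  set r := (m - s) / (t - s) with hr
  have r0 : 0 < r := div_pos a1 a3
  have r1 : r < 1 := (div_lt_one a3).2 (by linarith)
  let Γ : E × E → M := fun w => sh.σ ((κ E (u.1 s)).symm w.1, (κ E (u.1 t)).symm w.2) r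
  have g0 : Γ (bp u s, bp u t) = u.1 m := by
    simp only [Γ, bp]
    rw [(κ E _).left_inv (mem_extChartAt_source _), (κ E _).left_inv (mem_extChartAt_source _),
      (sigma_geo u.2.1 (zi3_he h u (hsm.trans hmt) hst)).2.1]
    show u.1 ((t - s) * r + s) = u.1 m
    rw [hr, mul_div_cancel₀ _ a3.ne', sub_add_cancel]
  have gs : ContMDiffAt 𝓘(ℝ, E × E) 𝓘(ℝ, E) ∞ Γ (bp u s, bp u t) :=
    (sh.smooth _ _ _ hb.1 hb.2.1 hb.2.2 r).comp (f := fun w : E × E => (w, r)) _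
      (contDiffAt_id.prodMk contDiffAt_const).contMDiffAt
  have gm : Γ (bp u s, bp u t) ∈ (κ E (u.1 m)).source := g0 ▸ mem_extChartAt_source _
  have ns : ContDiffAt ℝ 2 (κ E (u.1 m) ∘ Γ) (bp u s, bp u t) :=
    (contDiffAt_chart (n := ⊤) gs gm).of_le zi3_le
  let Ψ : E × E → E × E × E := fun w => (w.1, (κ E (u.1 m) ∘ Γ) w, w.2)
  have p0 : Ψ (bp u s, bp u t) = (bp u s, bp u m, bp u t) := by
    simp only [Ψ, comp_apply, g0]; rfl
  have ps : ContDiffAt ℝ 2 Ψ (bp u s, bp u t) := contDiffAt_fst.prodMk (ns.prodMk contDiffAt_snd)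
  have pd := (hasFDerivAt_fst.prodMk ((ns.differentiableAt (by simp)).hasFDerivAt.prodMk
    hasFDerivAt_snd)).fderiv
  have ez : zi3F sh u s m t ∘ Ψ =ᶠ[𝓝 (bp u s, bp u t)] fun _ => 0 := by
    filter_upwards [(Dc_open sh _ _).mem_nhds hb,
      gs.continuousAt.eventually ((source_open _).mem_nhds gm)] with w hw hm
    have hγ := sh.geo _ hw.2.2
    have hl := sh.lt _ hw.2.2
    have hn := energy_nonneg g (sh.σ ((κ E (u.1 s)).symm w.1, (κ E (u.1 t)).symm w.2)) 0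
    have k1 := (sigma_geo hγ (s := 0) (t := r) ((mul_le_of_le_one_left hn
      (by nlinarith)).trans_lt hl)).2.2
    have k2 := (sigma_geo hγ (s := r) (t := 1) ((mul_le_of_le_one_left hn
      (by nlinarith)).trans_lt hl)).2.2
    rw [sh.zero _ hw.2.2] at k1
    rw [sh.one _ hw.2.2] at k2
    show sh.S (_, (κ E (u.1 m)).symm (κ E (u.1 m) (Γ w))) / (m - s) +
      sh.S ((κ E (u.1 m)).symm (κ E (u.1 m) (Γ w)), _) / (t - m) - sh.S _ / (t - s) = 0
    rw [(κ E _).left_inv hm]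
    erw [k1, k2]
    show _ - energy g (sh.σ ((κ E (u.1 s)).symm w.1, (κ E (u.1 t)).symm w.2)) 0 / (t - s) = 0
    rw [hr]
    field_simp
    ring
  refine ⟨(fderiv ℝ (κ E (u.1 m) ∘ Γ) (bp u s, bp u t) : E × E →L[ℝ] E), fun x z => ?_⟩
  have k := hess_comp (p0.symm ▸ h1) ps (p0.symm ▸ h2.fderiv_eq_zero) (x, z) (x, z)
  have pd' : fderiv ℝ Ψ (bp u s, bp u t) (x, z) =
      (x, fderiv ℝ (κ E (u.1 m) ∘ Γ) (bp u s, bp u t) (x, z), z) := by
    erw [pd]; rfl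
  rw [ez.fderiv.fderiv_eq, p0, pd', h3] at k
  simp only [fderiv_fun_const, Pi.zero_apply, zero_apply, fderiv_zero] at k
  exact sub_eq_zero.1 k.symm

end Pool.Agent.Fu
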