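import Mathlib
import Pool.Agent.P.MP_365c00_gt.ZI1
import Pool.Agent.P.MP_365c00_gt.ZI3

/-! Index theory: independence of the partition. -/

set_option linter.unusedSectionVars false
set_option linter.unusedVariables false

open Set Filter Topology Metric Function MeasureTheory
open scoped Manifold ContDiff
open Pool.Agent.GeoN

namespace Pool.Agent.Fu

variable {E : Type} [NormedAddCommGroup E] [InnerProductSpace ℝ E] [FiniteDimensional ℝ E]
  {M : Type} [MetricSpace M] [ChartedSpace E M] [IsManifold 𝓘(ℝ, E) ∞ M]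
  [CompactSpace M] [Nonempty M] [Nontrivial E] {g : Met E M}

variable {sh : Short g} {a : ℝ}

theorem zi5_le {α : Type} (t : ℕ → α) {i j : ℕ} (x : α) (h : j ≤ i) : insN t i x j = t j := by
  simp [insN, h]

theorem zi5_mid {α : Type} (t : ℕ → α) (i : ℕ) (x : α) : insN t i x (i + 1) = x := by
  simp [insN]

theorem zi5_gt {α : Type} (t : ℕ → α) {i j : ℕ} (x : α) (h : i < j) : insN t i x (j + 1) = t j := by
  have h1 : ¬j + 1 ≤ i := by omega
  have h2 : j ≠ i := by omega
  simp [insN, h1, h2]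

theorem Part.insN {l : ℝ} {k : ℕ} {t : ℕ → ℝ} (ht : Part a l k t) {i : ℕ} (hi : i < k) {m : ℝ}
    (h1 : t i < m) (h2 : m < t (i + 1)) : Part a l (k + 1) (insN t i m) := by
  obtain ⟨hk, h0, hl, hs⟩ := ht
  refine ⟨by omega, by rw [zi5_le _ _ (Nat.zero_le i), h0], by rw [zi5_gt _ _ hi, hl], fun j hj => ?_⟩
  have hsi := hs i hi
  rcases lt_trichotomy j i with hji | rfl | hji
  · rw [zi5_le _ _ hji.le, zi5_le _ _ (show j + 1 ≤ i from hji)]
    exact hs j (by omega)
  · rw [zi5_le _ _ le_rfl, zi5_mid]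
    exact ⟨h1, by linarith [hsi.2]⟩
  · obtain ⟨j, rfl⟩ : ∃ j', j = j' + 1 := ⟨j - 1, by omega⟩
    rw [zi5_gt _ _ hji]
    rcases (show i ≤ j by omega).eq_or_lt with rfl | hij
    · rw [zi5_mid]
      exact ⟨h2, by linarith [hsi.2]⟩
    · rw [zi5_gt _ _ hij]
      exact hs j (by omega)

theorem Qf_ins (u : UG g) {k : ℕ} (t : ℕ → ℝ) {i : ℕ} (hi : i < k) (m : ℝ) (v : ℕ → E) (y : E) :
    Qf sh u (k + 1) (insN t i m) (insN v i y) (insN v i y) =
      Qf sh u k t v v - Bq sh u (t i) (t (i + 1)) (v i, v (i + 1)) (v i, v (i + 1)) +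
        (Bq sh u (t i) m (v i, y) (v i, y) + Bq sh u m (t (i + 1)) (y, v (i + 1)) (y, v (i + 1))) := by
  induction k, (show i + 1 ≤ k from hi) using Nat.le_induction with
  | base =>
    unfold Qf
    rw [Finset.sum_range_succ, Finset.sum_range_succ, Finset.sum_range_succ,
      Finset.sum_congr rfl fun j hj => by
        have hj' : j + 1 ≤ i := Finset.mem_range.mp hj
        rw [zi5_le t m hj', zi5_le v y hj', zi5_le t m (show j ≤ i by omega),
          zi5_le v y (show j ≤ i by omega)]]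
    rw [zi5_le t m le_rfl, zi5_le v y le_rfl, zi5_mid, zi5_mid, zi5_gt t m (Nat.lt_succ_self i),
      zi5_gt v y (Nat.lt_succ_self i)]
    ring
  | succ k hk ih =>
    have ih' := ih hk
    unfold Qf at ih' ⊢
    rw [Finset.sum_range_succ, ih', Finset.sum_range_succ _ k, zi5_gt t m hk, zi5_gt v y hk,
      zi5_gt t m hi, zi5_gt v y hi]
    ring

theorem zi5_zero (u : UG g) (k : ℕ) (t : ℕ → ℝ) : 0 ≤ Qf sh u k t 0 0 := by
  rw [← Ql_apply, map_zero]

theorem nI_ins (h : SMd sh dist a) (u : UG g) {l : ℝ} {k : ℕ} {t : ℕ → ℝ} (ht : Part a l k t)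
    {i : ℕ} (hi : i < k) {m : ℝ} (h1 : t i < m) (h2 : m < t (i + 1)) :
    nI (Qf sh u (k + 1) (insN t i m)) (Vk E (k + 1)) = nI (Qf sh u k t) (Vk E k) := by
  have hs := (ht.2.2.2 i hi).2
  refine le_antisymm ?_ ?_
  · refine nI_map (LinearMap.funLeft ℝ E fun j => if j ≤ i then j else j + 1) (zi5_zero u k t)
      (fun v hv => ⟨?_, fun j hj => ?_⟩) fun v hv => ?_
    · simpa [LinearMap.funLeft_apply] using hv.1
    · rw [LinearMap.funLeft_apply, if_neg (by omega)]
      exact hv.2 _ (by omega)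
    · generalize hw : (LinearMap.funLeft ℝ E fun j => if j ≤ i then j else j + 1) v = w
      have e : v = insN w i (v (i + 1)) := by
        funext j
        rcases le_or_gt j i with hj | hj
        · rw [zi5_le _ _ hj, ← hw, LinearMap.funLeft_apply, if_pos hj]
        · obtain ⟨j, rfl⟩ : ∃ j', j = j' + 1 := ⟨j - 1, by omega⟩
          rcases (show i ≤ j by omega).eq_or_lt with rfl | hij
          · rw [zi5_mid]
          · rw [zi5_gt _ _ hij, ← hw, LinearMap.funLeft_apply, if_neg (by omega)]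
      have e1 := Qf_ins (sh := sh) u t hi m w (v (i + 1))
      rw [← e] at e1
      have e2 := Bq_sub h u h1 h2 hs (w i) (v (i + 1)) (w (i + 1))
      linarith
  · obtain ⟨μ, hμ⟩ := Bq_mid h u h1 h2 hs
    obtain ⟨L, hL⟩ : ∃ L : (ℕ → E) →ₗ[ℝ] (ℕ → E), ∀ v, L v = insN v i (μ (v i, v (i + 1))) := by
      refine ⟨LinearMap.pi (insN (fun j => LinearMap.proj j) i
        (μ ∘ₗ (LinearMap.proj i).prod (LinearMap.proj (i + 1)))), fun v => ?_⟩
      funext j
      rw [LinearMap.pi_apply]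
      unfold insN
      split_ifs <;> rfl
    refine nI_map L (zi5_zero u _ _) (fun v hv => ⟨?_, fun j hj => ?_⟩) fun v hv => ?_
    · rw [hL, zi5_le _ _ (Nat.zero_le i)]
      exact hv.1
    · obtain ⟨j, rfl⟩ : ∃ j', j = j' + 1 := ⟨j - 1, by omega⟩
      rw [hL, zi5_gt _ _ (by omega)]
      exact hv.2 _ (by omega)
    · rw [hL, Qf_ins u t hi, hμ]
      linarith

theorem zi5_image {α : Type} (t : ℕ → α) {i k : ℕ} (hi : i < k) (x : α) :
    insN t i x '' Iic (k + 1) = insert x (t '' Iic k) := by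
  ext y
  constructor
  · rintro ⟨j, hj, rfl⟩
    have hj' : j ≤ k + 1 := hj
    rcases le_or_gt j i with h1 | h1
    · exact Or.inr ⟨j, show j ≤ k by omega, (zi5_le _ _ h1).symm⟩
    · obtain ⟨j, rfl⟩ : ∃ j', j = j' + 1 := ⟨j - 1, by omega⟩
      rcases (show i ≤ j by omega).eq_or_lt with rfl | hij
      · exact Or.inl (zi5_mid _ _ _)
      · exact Or.inr ⟨j, show j ≤ k by omega, (zi5_gt _ _ hij).symm⟩
  · rintro (rfl | ⟨j, hj, rfl⟩)
    · exact ⟨i + 1, show i + 1 ≤ k + 1 by omega, zi5_mid _ _ _⟩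
    · have hj' : j ≤ k := hj
      rcases le_or_gt j i with h1 | h1
      · exact ⟨j, show j ≤ k + 1 by omega, zi5_le _ _ h1⟩
      · exact ⟨j + 1, show j + 1 ≤ k + 1 by omega, zi5_gt _ _ h1⟩

/-- refinement by a finite set -/
theorem nI_refine (h : SMd sh dist a) (u : UG g) {l : ℝ} {k : ℕ} {t : ℕ → ℝ} (ht : Part a l k t)
    (A : Finset ℝ) (hA : ∀ x ∈ A, x ∈ Icc 0 l) : ∃ (k' : ℕ) (t' : ℕ → ℝ), Part a l k' t' ∧
      t' '' Iic k' = t '' Iic k ∪ A ∧
      nI (Qf sh u k' t') (Vk E k') = nI (Qf sh u k t) (Vk E k) := by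
  classical
  induction A using Finset.induction_on with
  | empty => exact ⟨k, t, ht, by simp, rfl⟩
  | insert x A hx ih =>
    obtain ⟨k', t', ht', e, hn⟩ := ih fun y hy => hA y (Finset.mem_insert_of_mem hy)
    have hx0 := hA x (Finset.mem_insert_self _ _)
    by_cases hm : x ∈ t' '' Iic k'
    · refine ⟨k', t', ht', ?_, hn⟩
      rw [Finset.coe_insert, union_insert, ← e, insert_eq_of_mem hm]
    · have hk : x < t' k' := by
        refine lt_of_le_of_ne (by rw [ht'.2.2.1]; exact hx0.2) fun h0 => hm ⟨k', self_mem_Iic, h0.symm⟩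
      have hex : ∃ j, x < t' j := ⟨k', hk⟩
      have f1 : Nat.find hex ≤ k' := Nat.find_min' hex hk
      have f2 := Nat.find_spec hex
      have f3 : Nat.find hex ≠ 0 := by
        intro h0
        rw [h0, ht'.2.1] at f2
        exact absurd hx0.1 (not_le.mpr f2)
      obtain ⟨i, hi⟩ : ∃ i, Nat.find hex = i + 1 := ⟨Nat.find hex - 1, by omega⟩
      have f4 : ¬x < t' i := Nat.find_min hex (by omega)
      have f5 : t' i < x :=
        lt_of_le_of_ne (not_lt.mp f4) fun h0 => hm ⟨i, show i ≤ k' by omega, h0⟩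
      rw [hi] at f1 f2
      refine ⟨k' + 1, insN t' i x, ht'.insN f1 f5 f2, ?_, (nI_ins h u ht' f1 f5 f2).trans hn⟩
      rw [zi5_image t' f1, e, Finset.coe_insert, union_insert]

theorem zi5_mono {l : ℝ} {k : ℕ} {t : ℕ → ℝ} (ht : Part a l k t) {i j : ℕ} (hij : i ≤ j)
    (hj : j ≤ k) : t i ≤ t j := by
  rcases hij.eq_or_lt with rfl | h
  · exact le_rfl
  · exact (ht.lt h hj).le

theorem zi5_step {l : ℝ} {k k' : ℕ} {t t' : ℕ → ℝ} (ht : Part a l k t) (ht' : Part a l k' t')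
    (e : t '' Iic k ⊆ t' '' Iic k') {j : ℕ} (hj : j ≤ k) (ih : ∀ i < j, t i = t' i) :
    t' j ≤ t j := by
  obtain ⟨i, hi, hi'⟩ := e ⟨j, hj, rfl⟩
  rcases le_or_gt j i with h | h
  · exact hi' ▸ zi5_mono ht' h hi
  · exact absurd ((ih i h).trans hi') (ht.lt h hj).ne

theorem Part.uniq {l : ℝ} {k k' : ℕ} {t t' : ℕ → ℝ} (ht : Part a l k t) (ht' : Part a l k' t')
    (e : t '' Iic k = t' '' Iic k') : k = k' ∧ ∀ j ≤ k, t j = t' j := by
  have key : ∀ j, j ≤ k → j ≤ k' → t j = t' j := by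
    intro j
    induction j using Nat.strong_induction_on with
    | _ j ih =>
      intro hj hj'
      have ih' : ∀ i < j, t i = t' i := fun i hi => ih i hi (by omega) (by omega)
      exact le_antisymm (zi5_step ht' ht e.symm.subset hj' fun i hi => (ih' i hi).symm)
        (zi5_step ht ht' e.subset hj ih')
  have hk : k = k' := by
    rcases lt_trichotomy k k' with h | h | h
    · have := ht'.lt h le_rfl
      rw [← key k le_rfl h.le, ht.2.2.1, ht'.2.2.1] at this
      exact absurd this (lt_irrefl _)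
    · exact h
    · have := ht.lt h le_rfl
      rw [key k' h.le le_rfl, ht.2.2.1, ht'.2.2.1] at this
      exact absurd this (lt_irrefl _)
  exact ⟨hk, fun j hj => key j hj (hk ▸ hj)⟩

theorem zi5_two (h : SMd sh dist a) (u : UG g) {l : ℝ} {k k' : ℕ} {t t' : ℕ → ℝ}
    (ht : Part a l k t) (ht' : Part a l k' t') :
    nI (Qf sh u k t) (Vk E k) = nI (Qf sh u k' t') (Vk E k') := by
  classical
  have hm : ∀ {k : ℕ} {t : ℕ → ℝ}, Part a l k t → ∀ x ∈ (Finset.Iic k).image t, x ∈ Icc 0 l := by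
    intro k t ht x hx
    obtain ⟨j, hj, rfl⟩ := Finset.mem_image.mp hx
    have hj' := Finset.mem_Iic.mp hj
    exact ⟨ht.2.1 ▸ zi5_mono ht (Nat.zero_le j) hj', ht.2.2.1 ▸ zi5_mono ht hj' le_rfl⟩
  obtain ⟨k1, t1, p1, e1, n1⟩ := nI_refine h u ht _ (hm ht')
  obtain ⟨k2, t2, p2, e2, n2⟩ := nI_refine h u ht' _ (hm ht)
  rw [Finset.coe_image, Finset.coe_Iic] at e1 e2
  obtain ⟨rfl, e⟩ := p1.uniq p2 (by rw [e1, e2, union_comm])
  rw [← n1, ← n2]
  congr 1
  funext v w
  refine Finset.sum_congr rfl fun j hj => ?_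
  have hj' := Finset.mem_range.mp hj
  rw [e j hj'.le, e (j + 1) hj']

theorem idx_part' (h : SMd sh dist a) (u : UG g) {l : ℝ} {k : ℕ} {t : ℕ → ℝ} (ht : Part a l k t) :
    idx sh a u l = nI (Qf sh u k t) (Vk E k) :=
  zi5_two h u (part_std h.pos ht.pos) ht

end Pool.Agent.Fu
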