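import Mathlib
import Pool.Agent.P.MP_365c00_gt.ZI2

/-! Index theory: Jacobi fields. -/

set_option linter.unusedSectionVars false
set_option linter.unusedVariables false

open Set Filter Topology Metric Function MeasureTheory
open scoped Manifold ContDiff
open Pool.Agent.GeoN

namespace Pool.Agent.Fu

variable {E : Type} [NormedAddCommGroup E] [InnerProductSpace ℝ E] [FiniteDimensional ℝ E]
  {M : Type} [MetricSpace M] [ChartedSpace E M] [IsManifold 𝓘(ℝ, E) ∞ M]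
  [CompactSpace M] [Nonempty M] [Nontrivial E] {g : Met E M}

variable {sh : Short g} {a : ℝ}

theorem ZI4_tgt (u : UG g) (s : ℝ) : bp u s ∈ (κ E (u.1 s)).target := mem_extChartAt_target _

theorem ZI4_symm (u : UG g) (s : ℝ) : (κ E (u.1 s)).symm (bp u s) = u.1 s := extChartAt_to_inv _

theorem ZI4_jet (u : UG g) : geo g (u.1 0) (bp u 0, tv u 0) = u.1 :=
  geo_jet u.2.1 (mem_extChartAt_source _)

theorem ZI4_exp {x y : M} {c V : E} (hc : c ∈ (κ E x).target) {l : ℝ}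
    (hy : geo g x (c, V) l ∈ (κ E y).source) :
    ContDiffAt ℝ ∞ (fun W : E => κ E y (geo g x (c, W) l)) V := by
  have hin : ContDiff ℝ ∞ fun W : E => (((c, W), l) : (E × E) × ℝ) := by fun_prop
  exact ContDiffAt.comp (f := fun W : E => (((c, W), l) : (E × E) × ℝ)) V
    (contDiffAt_chart (n := ⊤) (x := y) (geo_smooth g x (y := (c, V)) hc l) hy) hin.contDiffAt

theorem ZI4_line (V ξ : E) : HasDerivAt (fun r : ℝ => V + r • ξ) ξ 0 := by
  simpa using ((hasDerivAt_id (0 : ℝ)).smul_const ξ).const_add V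

theorem Jac_zero (u : UG g) : Jac g u 0 = 0 := by
  have e : (fun V => κ E (u.1 0) (geo g (u.1 0) (κ E (u.1 0) (u.1 0), V) 0)) =
      fun _ => κ E (u.1 0) (u.1 0) := by
    funext V
    rw [(geo_spec g (u.1 0) (y := (κ E (u.1 0) (u.1 0), V)) (mem_extChartAt_target _)).2.1]
    exact congrArg _ (extChartAt_to_inv _)
  unfold Jac
  rw [e]
  exact fderiv_const_apply _

/-- the curve of end points -/
theorem jac_has (u : UG g) (l : ℝ) (ξ : E) :
    HasDerivAt (fun r : ℝ => κ E (u.1 l) (geo g (u.1 0) (bp u 0, tv u 0 + r • ξ) l))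
      (Jac g u l ξ) 0 := by
  have h1 := ZI4_exp (g := g) (y := u.1 l) (V := tv u 0) (ZI4_tgt u 0) (l := l)
    (by rw [ZI4_jet]; exact mem_extChartAt_source _)
  exact (h1.differentiableAt (by simp)).hasFDerivAt.comp_hasDerivAt_of_eq 0 (ZI4_line (tv u 0) ξ)
    (by simp)

/-- the family of geodesics -/
theorem ZI4_fam (u : UG g) (ξ : E) (r : ℝ) :
    IsGeodesic g (geo g (u.1 0) (bp u 0, tv u 0 + r • ξ)) ∧
      geo g (u.1 0) (bp u 0, tv u 0 + r • ξ) 0 = u.1 0 ∧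
      vel E (u.1 0) (geo g (u.1 0) (bp u 0, tv u 0 + r • ξ)) 0 = tv u 0 + r • ξ := by
  obtain ⟨h1, h2, h3⟩ := geo_spec g (u.1 0) (y := (bp u 0, tv u 0 + r • ξ)) (ZI4_tgt u 0)
  exact ⟨h1, h2.trans (ZI4_symm u 0), h3⟩

theorem ZI4_en (h : SMd sh dist a) (u : UG g) (ξ : E) {d : ℝ} (hd : |d| < a) :
    ∀ᶠ r : ℝ in 𝓝 0, d ^ 2 * energy g (geo g (u.1 0) (bp u 0, tv u 0 + r • ξ)) 0 < sh.ε := by
  have e : ∀ r : ℝ, energy g (geo g (u.1 0) (bp u 0, tv u 0 + r • ξ)) 0 =
      gt u 0 (tv u 0 + r • ξ) (tv u 0 + r • ξ) := fun r =>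
    energy_geo g (u.1 0) (y := (bp u 0, tv u 0 + r • ξ)) (ZI4_tgt u 0)
  simp only [e]
  have hc : Continuous fun r : ℝ => d ^ 2 * gt u 0 (tv u 0 + r • ξ) (tv u 0 + r • ξ) := by
    fun_prop
  refine hc.continuousAt.eventually_lt continuousAt_const ?_
  simp only [zero_smul, add_zero, gt_tv, mul_one]
  have := h.le
  have h2 : d ^ 2 < a ^ 2 := sq_lt_sq' (by linarith [neg_abs_le d]) (by linarith [le_abs_self d])
  linarith

theorem ZI4_src (u : UG g) (ξ : E) (l : ℝ) :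
    ∀ᶠ r : ℝ in 𝓝 0, geo g (u.1 0) (bp u 0, tv u 0 + r • ξ) l ∈ (κ E (u.1 l)).source := by
  have h1 := (geo_smooth g (u.1 0) (y := (bp u 0, tv u 0)) (ZI4_tgt u 0) l).continuousAt
  have h2 : ContinuousAt (fun r : ℝ => (((bp u 0, tv u 0 + r • ξ), l) : (E × E) × ℝ)) 0 := by
    fun_prop
  have h3 := ContinuousAt.comp_of_eq h1 h2 (by simp)
  refine h3.eventually (p := fun z => z ∈ (κ E (u.1 l)).source) ((source_open _).mem_nhds ?_)
  simp only [Function.comp_apply, zero_smul, add_zero, ZI4_jet]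
  exact mem_extChartAt_source _

/-- the initial velocity of the short geodesic -/
noncomputable def ZI4_lam (sh : Short g) (u : UG g) (s t : ℝ) (y : E) : E :=
  vel E (u.1 s) (sh.σ ((κ E (u.1 s)).symm (bp u s), (κ E (u.1 t)).symm y)) 0

theorem ZI4_lam_smooth (h : SMd sh dist a) (u : UG g) {s t : ℝ} (hst : |t - s| < a) :
    ContDiffAt ℝ ∞ (ZI4_lam sh u s t) (bp u t) := by
  have hm := bp_mem h u hst
  have h1 := vel_smooth (g := g) (Γ := fun w : E × E =>
      sh.σ ((κ E (u.1 s)).symm w.1, (κ E (u.1 t)).symm w.2)) (Dc_open sh (u.1 s) (u.1 t))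
    (fun w hw r => sh.smooth _ _ w hw.1 hw.2.1 hw.2.2 r) hm (t := 0) (x := u.1 s)
    (by
      have e := sh.zero _ hm.2.2
      simp only at e ⊢
      rw [e]
      exact (κ E (u.1 s)).map_target hm.1)
  have hin : ContDiff ℝ ∞ fun y : E => (((bp u s, y), 0) : (E × E) × ℝ) := by fun_prop
  exact ContDiffAt.comp (f := fun y : E => (((bp u s, y), 0) : (E × E) × ℝ)) (bp u t) h1
    hin.contDiffAt

theorem nd_short' (h : SMd sh dist a) (u : UG g) {l : ℝ} (h0 : 0 < l) (hl : l < a) :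
    NdJ g u l := by
  have hd : |l - 0| < a := by rwa [sub_zero, abs_of_pos h0]
  have hΛ := ((ZI4_lam_smooth h u hd).differentiableAt (by simp)).hasFDerivAt
  unfold NdJ
  rw [injective_iff_map_eq_zero]
  intro ξ hξ
  have h1 := hΛ.comp_hasDerivAt_of_eq 0 (jac_has u l ξ)
    (by simp only [zero_smul, add_zero, ZI4_jet]; rfl)
  have h2 : HasDerivAt (fun r : ℝ => l • (tv u 0 + r • ξ)) (l • ξ) 0 :=
    (ZI4_line (tv u 0) ξ).const_smul l
  have e : (ZI4_lam sh u 0 l ∘ fun r : ℝ =>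
      κ E (u.1 l) (geo g (u.1 0) (bp u 0, tv u 0 + r • ξ) l)) =ᶠ[𝓝 0]
      fun r : ℝ => l • (tv u 0 + r • ξ) := by
    filter_upwards [ZI4_en h u ξ hd, ZI4_src u ξ l] with r a1 a2
    obtain ⟨b1, b2, b3⟩ := ZI4_fam u ξ r
    have b4 := (sigma_geo b1 a1).2.1
    rw [b2] at b4
    simp only [Function.comp_apply, ZI4_lam, ZI4_symm, (κ E (u.1 l)).left_inv a2, b4]
    rw [ChartX.vel_aff, mul_zero, add_zero, b3, sub_zero]
  have h3 := (h1.congr_of_eventuallyEq e.symm).unique h2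
  rw [hξ, map_zero] at h3
  exact (smul_eq_zero.1 h3.symm).resolve_left h0.ne'

theorem jac_surj (h : SMd sh dist a) (u : UG g) {l : ℝ} (h0 : 0 < l) (hl : l < a) :
    Surjective (Jac g u l) :=
  (LinearMap.injective_iff_surjective (f := (Jac g u l : E →ₗ[ℝ] E))).1 (nd_short' h u h0 hl)

/-- the discrete Jacobi equation -/
theorem jac_eq (h : SMd sh dist a) (u : UG g) {s m t : ℝ} (hsm : s < m) (hmt : m < t)
    (h1 : m - s < a) (h2 : t - m < a) (ξ ζ : E) :
    Bq sh u s m (Jac g u s ξ, Jac g u m ξ) (0, ζ) +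
      Bq sh u m t (Jac g u m ξ, Jac g u t ξ) (ζ, 0) = 0 := by
  have d1 : |m - s| < a := by rwa [abs_of_pos (sub_pos.2 hsm)]
  have d2 : |t - m| < a := by rwa [abs_of_pos (sub_pos.2 hmt)]
  have k1 := Bq_has h u d1 ((jac_has u s ξ).prodMk (jac_has u m ξ))
    (by simp only [zero_smul, add_zero, ZI4_jet]; rfl) (0, ζ)
  have k2 := Bq_has h u d2 ((jac_has u m ξ).prodMk (jac_has u t ξ))
    (by simp only [zero_smul, add_zero, ZI4_jet]; rfl) (ζ, 0)
  have k3 := k1.add k2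
  refine k3.unique ((hasDerivAt_const (0 : ℝ) (0 : ℝ)).congr_of_eventuallyEq ?_)
  filter_upwards [ZI4_en h u ξ d1, ZI4_en h u ξ d2, ZI4_src u ξ s, ZI4_src u ξ m,
    ZI4_src u ξ t] with r a1 a2 a3 a4 a5
  have b1 := (ZI4_fam u ξ r).1
  obtain ⟨c1, c2⟩ := Sc_geo b1 a1 a3 a4
  obtain ⟨c3, c4⟩ := Sc_geo b1 a2 a4 a5
  simp only [Pi.add_apply]
  rw [Sq_fderiv u c1, Sq_fderiv u c3, c2, c4]
  have n1 : m - s ≠ 0 := (sub_pos.2 hsm).ne'
  have n2 : t - m ≠ 0 := (sub_pos.2 hmt).ne'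
  simp only [map_zero]
  field_simp
  ring

/-- the mixed second derivative is nondegenerate -/
theorem cross_nd (h : SMd sh dist a) (u : UG g) {s t : ℝ} (h0 : s < t) (hst : t - s < a) {w : E}
    (hw : ∀ v, Bq sh u s t (0, w) (v, 0) = 0) : w = 0 := by
  have hd : |t - s| < a := by rwa [abs_of_pos (sub_pos.2 h0)]
  have hn : t - s ≠ 0 := (sub_pos.2 h0).ne'
  have hΛ := ((ZI4_lam_smooth h u hd).differentiableAt (by simp)).hasFDerivAt
  have hl := ZI4_line (bp u t) w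
  have hΛ' := hΛ.comp_hasDerivAt_of_eq 0 hl (by simp)
  have hc : HasDerivAt (fun r : ℝ => ((bp u s, bp u t + r • w) : E × E)) (0, w) 0 :=
    (hasDerivAt_const (0 : ℝ) (bp u s)).prodMk hl
  have hD : ∀ᶠ r : ℝ in 𝓝 0, ((bp u s, bp u t + r • w) : E × E) ∈ Dc sh (u.1 s) (u.1 t) :=
    hc.continuousAt.eventually (p := fun z => z ∈ Dc sh (u.1 s) (u.1 t))
      ((Dc_open sh _ _).mem_nhds (by simpa using bp_mem h u hd))
  have h1 : fderiv ℝ (ZI4_lam sh u s t) (bp u t) w = 0 := by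
    refine ChartX.G_inj g (u.1 s) (ZI4_tgt u s) fun v => ?_
    have k1 := Bq_has h u hd hc (by simp) (v, 0)
    rw [hw v] at k1
    have k2 : HasDerivAt (fun r : ℝ => -2 * gt u s (ZI4_lam sh u s t (bp u t + r • w)) v / (t - s))
        (-2 * gt u s (fderiv ℝ (ZI4_lam sh u s t) (bp u t) w) v / (t - s)) 0 := by
      have := (((gt u s).flip v).hasFDerivAt.comp_hasDerivAt 0 hΛ').const_mul (-2)
      exact this.div_const (t - s)
    have k3 := k1.unique (k2.congr_of_eventuallyEq (by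
      filter_upwards [hD] with r hr
      rw [Sq_fderiv u hr, Sc_fderiv hr]
      simp only [map_zero, mul_zero, zero_sub, neg_mul]
      rfl))
    have k4 := k3.symm
    rw [div_eq_zero_iff] at k4
    have k5 := k4.resolve_right hn
    simp only [map_zero, zero_apply]
    change gt u s _ v = 0
    linarith
  have hm := bp_mem h u hd
  have key : ∀ y, ((bp u s, y) : E × E) ∈ Dc sh (u.1 s) (u.1 t) →
      geo g (u.1 s) (bp u s, ZI4_lam sh u s t y) 1 = (κ E (u.1 t)).symm y := by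
    intro y hy
    have g1 := sh.geo _ hy.2.2
    have g0 := sh.zero _ hy.2.2
    have := geo_jet g1 (x := u.1 s) (by rw [g0]; exact (κ E (u.1 s)).map_target hy.1)
    rw [g0, (κ E (u.1 s)).right_inv hy.1] at this
    exact (congrFun this 1).trans (sh.one _ hy.2.2)
  have h2 := ZI4_exp (g := g) (y := u.1 t) (V := ZI4_lam sh u s t (bp u t)) (ZI4_tgt u s) (l := 1)
    (by rw [key _ hm]; exact (κ E (u.1 t)).map_target (ZI4_tgt u t))
  have h3 := (h2.differentiableAt (by simp)).hasFDerivAt.comp_hasDerivAt_of_eq 0 hΛ' (by simp)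
  rw [h1, map_zero] at h3
  refine hl.unique (h3.congr_of_eventuallyEq ?_)
  filter_upwards [hD] with r hr
  simp only [Function.comp_apply]
  rw [key _ hr, (κ E (u.1 t)).right_inv hr.2.1]

theorem flat_rank {u : UG g} {P : ℝ} (hf : FlatJ g u P) :
    Module.finrank ℝ E - 1 ≤ Module.finrank ℝ (LinearMap.ker (Jac g u P : E →ₗ[ℝ] E)) := by
  have h1 := LinearMap.finrank_range_add_finrank_ker (Jac g u P : E →ₗ[ℝ] E)
  have h2 : LinearMap.range (Jac g u P : E →ₗ[ℝ] E) ≤ Submodule.span ℝ {vel E (u.1 P) u.1 P} := by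
    rintro _ ⟨ξ, rfl⟩
    obtain ⟨c, hc⟩ := hf ξ
    exact Submodule.mem_span_singleton.2 ⟨c, hc.symm⟩
  have h3 := Submodule.finrank_mono h2
  rw [finrank_span_singleton (u.vel_ne P (mem_extChartAt_source _))] at h3
  omega

end Pool.Agent.Fu
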