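import Mathlib
import Pool.Agent.P.MP_365c00_gt.ZI1
import Pool.Agent.P.MP_365c00_gt.ZI4

/-! Index theory: the kernel of the index form. -/

set_option linter.unusedSectionVars false
set_option linter.unusedVariables false

open Set Filter Topology Metric Function MeasureTheory
open scoped Manifold ContDiff
open Pool.Agent.GeoN

namespace Pool.Agent.Fu

variable {E : Type} [NormedAddCommGroup E] [InnerProductSpace ℝ E] [FiniteDimensional ℝ E]
  {M : Type} [MetricSpace M] [ChartedSpace E M] [IsManifold 𝓘(ℝ, E) ∞ M]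
  [CompactSpace M] [Nonempty M] [Nontrivial E] {g : Met E M}

variable {sh : Short g} {a : ℝ}

/-- the index form against a variation, node by node -/
theorem Qf_nodes (u : UG g) {k : ℕ} (t : ℕ → ℝ) (v : ℕ → E) {w : ℕ → E} (hw : w ∈ Vk E k) :
    Qf sh u k t v w = ∑ j ∈ Finset.range (k - 1),
      (Bq sh u (t j) (t (j + 1)) (v j, v (j + 1)) (0, w (j + 1)) +
        Bq sh u (t (j + 1)) (t (j + 2)) (v (j + 1), v (j + 2)) (w (j + 1), 0)) := by
  obtain ⟨hw0, hwk⟩ := mem_Vk.1 hw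
  rcases k with _ | n
  · simp [Qf]
  · have e : ∀ j, Bq sh u (t j) (t (j + 1)) (v j, v (j + 1)) (w j, w (j + 1)) =
        Bq sh u (t j) (t (j + 1)) (v j, v (j + 1)) (0, w (j + 1)) +
          Bq sh u (t j) (t (j + 1)) (v j, v (j + 1)) (w j, 0) := by
      intro j
      rw [← map_add]
      simp
    have z : ((0 : E), (0 : E)) = 0 := rfl
    simp only [Qf, e, Finset.sum_add_distrib, Nat.add_sub_cancel]
    congr 1
    · rw [Finset.sum_range_succ, hwk (n + 1) le_rfl, z, map_zero, add_zero]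
    · rw [Finset.sum_range_succ', hw0, z, map_zero, add_zero]

theorem ZI6_node (u : UG g) {k : ℕ} {t : ℕ → ℝ} {v : ℕ → E}
    (h0 : ∀ w ∈ Vk E k, Qf sh u k t v w = 0) {j : ℕ} (hj : j + 1 < k) (y : E) :
    Bq sh u (t j) (t (j + 1)) (v j, v (j + 1)) (0, y) +
      Bq sh u (t (j + 1)) (t (j + 2)) (v (j + 1), v (j + 2)) (y, 0) = 0 := by
  have hw : (Pi.single (j + 1) y : ℕ → E) ∈ Vk E k := by
    refine mem_Vk.2 ⟨Pi.single_eq_of_ne (by omega) _, fun i hi => Pi.single_eq_of_ne (by omega) _⟩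
  have h1 := h0 _ hw
  rw [Qf_nodes u t v hw, Finset.sum_eq_single j] at h1
  · simpa using h1
  · intro i _ hij
    have z : ((0 : E), (0 : E)) = 0 := rfl
    rw [Pi.single_eq_of_ne (by omega), z, map_zero, map_zero, add_zero]
  · intro hn
    exact absurd (Finset.mem_range.2 (by omega)) hn

theorem ZI6_one {l : ℝ} {k : ℕ} {t : ℕ → ℝ} (ht : Part a l k t) : 0 < t 1 ∧ t 1 < a := by
  obtain ⟨hk, h0, _, h⟩ := ht
  have := h 0 hk
  rw [h0] at this
  simpa using this

theorem nd_part' (h : SMd sh dist a) (u : UG g) {l : ℝ} {k : ℕ} {t : ℕ → ℝ} (ht : Part a l k t)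
    (hn : NdJ g u l) {v : ℕ → E} (hv : v ∈ Vk E k) (h0 : ∀ w ∈ Vk E k, Qf sh u k t v w = 0) :
    v = 0 := by
  obtain ⟨hv0, hvk⟩ := mem_Vk.1 hv
  obtain ⟨ξ, hξ⟩ := jac_surj h u (ZI6_one ht).1 (ZI6_one ht).2 (v 1)
  obtain ⟨hk, ht0, htk, hp⟩ := ht
  have key : ∀ j, j + 1 ≤ k → Jac g u (t j) ξ = v j ∧ Jac g u (t (j + 1)) ξ = v (j + 1) := by
    intro j
    induction j with
    | zero =>
      intro _
      refine ⟨?_, hξ⟩
      rw [ht0, Jac_zero, hv0]
      rfl
    | succ j ih =>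
      intro hj
      obtain ⟨e0, e1⟩ := ih (by omega)
      refine ⟨e1, ?_⟩
      have p0 := hp j (by omega)
      have p1 := hp (j + 1) (by omega)
      have : Jac g u (t (j + 2)) ξ - v (j + 2) = 0 := by
        refine cross_nd h u p1.1 p1.2 fun y => ?_
        have n1 := ZI6_node u h0 (j := j) (by omega) y
        have n2 := jac_eq h u p0.1 p1.1 p0.2 p1.2 ξ y
        rw [e0, e1] at n2
        have e : ((0 : E), Jac g u (t (j + 2)) ξ - v (j + 2)) =
            (v (j + 1), Jac g u (t (j + 2)) ξ) - (v (j + 1), v (j + 2)) := by simp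
        rw [e, map_sub, sub_apply]
        linarith
      exact sub_eq_zero.1 this
  have all : ∀ j ≤ k, Jac g u (t j) ξ = v j := by
    intro j hj
    rcases j with _ | j
    · exact (key 0 hk).1
    · exact (key j hj).2
  have hx : ξ = 0 := by
    apply hn
    rw [map_zero, ← htk, all k le_rfl, hvk k le_rfl]
  funext j
  by_cases hj : j ≤ k
  · rw [← all j hj, hx, map_zero]
    rfl
  · exact hvk j (by omega)

/-- Jacobi fields that vanish at both ends lie in the kernel -/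
theorem ker_part (h : SMd sh dist a) (u : UG g) {l : ℝ} {k : ℕ} {t : ℕ → ℝ} (ht : Part a l k t) :
    ∃ L : LinearMap.ker (Jac g u l : E →ₗ[ℝ] E) →ₗ[ℝ] (ℕ → E), Injective L ∧
      ∀ ξ, L ξ ∈ Vk E k ∧ ∀ w ∈ Vk E k, Qf sh u k t (L ξ) w = 0 := by
  have h1 := ZI6_one ht
  obtain ⟨hk, ht0, htk, hp⟩ := ht
  let L : LinearMap.ker (Jac g u l : E →ₗ[ℝ] E) →ₗ[ℝ] (ℕ → E) :=
    { toFun := fun ξ j => if j < k then Jac g u (t j) ξ.1 else 0
      map_add' := fun ξ η => by
        funext j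
        by_cases hj : j < k <;> simp [hj]
      map_smul' := fun c ξ => by
        funext j
        by_cases hj : j < k <;> simp [hj] }
  have hL : ∀ ξ j, j ≤ k → L ξ j = Jac g u (t j) ξ.1 := by
    intro ξ j hj
    show (if j < k then Jac g u (t j) ξ.1 else 0) = _
    split_ifs with h'
    · rfl
    · have : j = k := by omega
      rw [this, htk]
      exact (LinearMap.mem_ker.1 ξ.2).symm
  refine ⟨L, ?_, fun ξ => ⟨mem_Vk.2 ⟨?_, fun j hj => ?_⟩, fun w hw => ?_⟩⟩
  · rw [injective_iff_map_eq_zero]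
    intro ξ hξ
    apply Subtype.ext
    apply nd_short' h u h1.1 h1.2
    rw [← hL ξ 1 hk, hξ]
    simp
  · rw [hL ξ 0 (Nat.zero_le _), ht0, Jac_zero]
    rfl
  · show (if j < k then Jac g u (t j) ξ.1 else 0) = _
    rw [if_neg (by omega)]
  · rw [Qf_nodes u t _ hw]
    refine Finset.sum_eq_zero fun j hj => ?_
    have hj' := Finset.mem_range.1 hj
    have p0 := hp j (by omega)
    have p1 := hp (j + 1) (by omega)
    rw [hL ξ j (by omega), hL ξ (j + 1) (by omega), hL ξ (j + 2) (by omega)]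
    exact jac_eq h u p0.1 p1.1 p0.2 p1.2 ξ.1 _

end Pool.Agent.Fu
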