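import Mathlib
import Pool.Agent.P.MP_365c00_gt.ZI5
import Pool.Agent.P.MP_365c00_gt.ZI6

/-! Index theory: joining partitions, the lower bound. -/

set_option linter.unusedSectionVars false
set_option linter.unusedVariables false

open Set Filter Topology Metric Function MeasureTheory
open scoped Manifold ContDiff
open Pool.Agent.GeoN

namespace Pool.Agent.Fu

variable {E : Type} [NormedAddCommGroup E] [InnerProductSpace ℝ E] [FiniteDimensional ℝ E]
  {M : Type} [MetricSpace M] [ChartedSpace E M] [IsManifold 𝓘(ℝ, E) ∞ M]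
  [CompactSpace M] [Nonempty M] [Nontrivial E] {g : Met E M}

variable {sh : Short g} {a : ℝ}

theorem zi7_hi (k : ℕ) (P : ℝ) (t t' : ℕ → ℝ) (j : ℕ) : ctp k P t t' (k + j) = t' j + P := by
  rw [ctp, if_neg (by omega), Nat.add_sub_cancel_left]

theorem zi7_lo {P l : ℝ} {k k' : ℕ} {t t' : ℕ → ℝ} (ht : Part a P k t) (ht' : Part a l k' t')
    {j : ℕ} (hj : j ≤ k) : ctp k P t t' j = t j := by
  rcases hj.eq_or_lt with rfl | hj
  · rw [ctp, if_neg (lt_irrefl _), Nat.sub_self, ht'.2.1, zero_add, ht.2.2.1]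
  · rw [ctp, if_pos hj]

theorem zi7_zero (u : UG g) (k : ℕ) (t : ℕ → ℝ) : Qf sh u k t 0 0 = 0 := by
  rw [← Ql_apply, map_zero]

theorem zi7_congr (u : UG g) {k : ℕ} (t : ℕ → ℝ) {v w : ℕ → E} (h : ∀ j ≤ k, v j = w j) :
    Qf sh u k t v v = Qf sh u k t w w := by
  refine Finset.sum_congr rfl fun j hj => ?_
  have q := Finset.mem_range.1 hj
  rw [h j q.le, h (j + 1) q]

theorem Part.ctp {P l : ℝ} {k k' : ℕ} {t t' : ℕ → ℝ} (ht : Part a P k t) (ht' : Part a l k' t') :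
    Part a (l + P) (k + k') (ctp k P t t') := by
  refine ⟨Nat.add_pos_left ht.1 _, (zi7_lo ht ht' (Nat.zero_le k)).trans ht.2.1,
    by rw [zi7_hi, ht'.2.2.1], fun j hj => ?_⟩
  rcases lt_or_ge j k with h | h
  · rw [zi7_lo ht ht' h.le, zi7_lo ht ht' h]
    exact ht.2.2.2 j h
  · obtain ⟨i, rfl⟩ := Nat.exists_eq_add_of_le h
    rw [add_assoc, zi7_hi, zi7_hi, add_sub_add_right_eq_sub, add_lt_add_iff_right]
    exact ht'.2.2.2 i (by omega)

theorem Qf_ctp (u : UG g) {P l : ℝ} {k k' : ℕ} {t t' : ℕ → ℝ} (ht : Part a P k t)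
    (ht' : Part a l k' t') (v w : ℕ → E) :
    Qf sh u (k + k') (ctp k P t t') v w = Qf sh u k t v w +
      Qf sh (shift P u) k' t' (fun j => v (k + j)) (fun j => w (k + j)) := by
  unfold Qf
  rw [Finset.sum_range_add]
  congr 1
  · refine Finset.sum_congr rfl fun j hj => ?_
    have h := Finset.mem_range.1 hj
    rw [zi7_lo ht ht' h.le, zi7_lo ht ht' h]
  · refine Finset.sum_congr rfl fun j _ => ?_
    rw [add_assoc, zi7_hi, zi7_hi, Bq_shift']

theorem idx_mono' (h : SMd sh dist a) (u : UG g) {l l' : ℝ} (h0 : 0 < l) (hl : l ≤ l') :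
    idx sh a u l ≤ idx sh a u l' := by
  rcases hl.eq_or_lt with rfl | hl
  · exact le_rfl
  have ht := part_std h.pos h0
  have ht' := part_std h.pos (sub_pos.2 hl)
  have e := idx_part' h u (ht.ctp ht')
  rw [sub_add_cancel] at e
  rw [e, idx_part' h u ht]
  refine nI_map LinearMap.id (zi7_zero u _ _).ge
    (fun v hv => ⟨hv.1, fun j hj => hv.2 j (le_of_add_le_left hj)⟩) fun v hv => ?_
  have e0 : (fun j => v (⌊2 * l / a⌋₊ + 1 + j)) = 0 := funext fun j => hv.2 _ (Nat.le_add_right _ _)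
  rw [LinearMap.id_apply, Qf_ctp u ht ht', e0, zi7_zero, add_zero]

/-- the lower bound -/
theorem idx_lower (h : SMd sh dist a) (u : UG g) {P l : ℝ} (hP : 0 < P) (hl : 0 < l)
    (hn : NdJ g u (l + P)) :
    idx sh a (shift P u) l + (idx sh a u P +
      Module.finrank ℝ (LinearMap.ker (Jac g u P : E →ₗ[ℝ] E))) ≤ idx sh a u (l + P) := by
  obtain ⟨k, t, ht⟩ : ∃ k t, Part a P k t := ⟨_, _, part_std h.pos hP⟩
  obtain ⟨k', t', ht'⟩ : ∃ k t, Part a l k t := ⟨_, _, part_std h.pos hl⟩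
  rw [idx_part' h u ht, idx_part' h (shift P u) ht', idx_part' h u (ht.ctp ht')]
  obtain ⟨N1, v1, r1, n1⟩ := nI_spec (Qf sh u k t) (Vk E k)
  obtain ⟨N2, v2, r2, n2⟩ := nI_spec (Qf sh (shift P u) k' t') (Vk E k')
  obtain ⟨L, hL, hL'⟩ := ker_part h u ht
  have := Submodule.finiteDimensional_of_le v1
  have := Submodule.finiteDimensional_of_le v2
  obtain ⟨S, hS⟩ : ∃ S : (ℕ → E) →ₗ[ℝ] (ℕ → E), ∀ v j, S v j = if j < k then 0 else v (j - k) :=
    ⟨LinearMap.pi fun j => if j < k then 0 else LinearMap.proj (j - k), fun v j => by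
      rw [LinearMap.pi_apply]
      split_ifs <;> rfl⟩
  obtain ⟨Φ, hΦ⟩ : ∃ Φ : (N2 × N1 × LinearMap.ker (Jac g u P : E →ₗ[ℝ] E)) →ₗ[ℝ] (ℕ → E),
      ∀ x, Φ x = S x.1 + (x.2.1 + L x.2.2) :=
    ⟨(S ∘ₗ N2.subtype).coprod (N1.subtype.coprod L), fun x => rfl⟩
  have hw : ∀ x : N2 × N1 × LinearMap.ker (Jac g u P : E →ₗ[ℝ] E),
      (x.2.1 : ℕ → E) + L x.2.2 ∈ Vk E k := fun x => add_mem (v1 x.2.1.2) (hL' _).1
  have hhi : ∀ x, (fun j => Φ x (k + j)) = x.1 := fun x => funext fun j => by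
    rw [hΦ, Pi.add_apply, (hw x).2 _ (Nat.le_add_right _ _), add_zero, hS,
      if_neg (by omega), Nat.add_sub_cancel_left]
  have hlo : ∀ x, ∀ j ≤ k, Φ x j = ((x.2.1 : ℕ → E) + L x.2.2) j := fun x j hj => by
    rw [hΦ, Pi.add_apply, hS]
    split_ifs with q
    · rw [zero_add]
    · rw [show j - k = 0 by omega, (v2 x.1.2).1, zero_add]
  have hQ : ∀ (n : N1) ξ, Qf sh u k t (n + L ξ) (n + L ξ) = Qf sh u k t n n := fun n ξ => by
    have q1 := (hL' ξ).2 n (v1 n.2)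
    have q2 := (hL' ξ).2 _ (hL' ξ).1
    have q3 := (Qf_symm' h u ht n (L ξ)).trans q1
    simp only [← Ql_apply] at q1 q2 q3 ⊢
    simp only [map_add, LinearMap.add_apply, q1, q2, q3, add_zero]
  have neg : ∀ {w : UG g} {m : ℕ} {s : ℕ → ℝ} {N : Submodule ℝ (ℕ → E)},
      (∀ v ∈ N, v ≠ 0 → Qf sh w m s v v < 0) → ∀ v ∈ N, Qf sh w m s v v ≤ 0 := by
    intro w m s N hN v hv
    by_cases q : v = 0
    · rw [q, zi7_zero]
    · exact (hN v hv q).le
  have key := nI_semi_map (B := Ql sh u (k + k') (ctp k P t t')) (V := Vk E (k + k'))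
    (Qf_symm' h u (ht.ctp ht')) (fun v hv q => nd_part' h u (ht.ctp ht') hn hv q) Φ
    ((injective_iff_map_eq_zero Φ).2 fun x hx => by
      have a1 : (x.1 : ℕ → E) = 0 := by
        rw [← hhi x, hx]
        rfl
      have a2 : (x.2.1 : ℕ → E) + L x.2.2 = 0 := by
        rwa [hΦ, a1, map_zero, zero_add] at hx
      have a3 : (x.2.1 : ℕ → E) = 0 := by
        by_contra q
        have := n1 _ x.2.1.2 q
        rw [← hQ _ x.2.2, a2, zi7_zero] at this
        exact lt_irrefl _ this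
      rw [a3, zero_add] at a2
      exact Prod.ext (Subtype.ext a1) (Prod.ext (Subtype.ext a3) (hL (a2.trans (map_zero L).symm))))
    (fun x => ⟨(hlo x 0 (Nat.zero_le k)).trans (hw x).1, fun j hj => by
      obtain ⟨i, rfl⟩ := Nat.exists_eq_add_of_le (le_of_add_le_left hj)
      exact (congrFun (hhi x) i).trans ((v2 x.1.2).2 i (by omega))⟩)
    (fun x => by
      rw [Ql_apply, Qf_ctp u ht ht', hhi, zi7_congr u t (hlo x), hQ]
      exact add_nonpos (neg n1 _ x.2.1.2) (neg n2 _ x.1.2))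
  rwa [Module.finrank_prod, Module.finrank_prod, r1, r2] at key

end Pool.Agent.Fu
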