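import Mathlib
import Pool.Agent.P.MP_365c00_gt.ZI7

/-! Index theory: tangential fields. -/

set_option linter.unusedSectionVars false
set_option linter.unusedVariables false

open Set Filter Topology Metric Function MeasureTheory
open scoped Manifold ContDiff
open Pool.Agent.GeoN

namespace Pool.Agent.Fu

variable {E : Type} [NormedAddCommGroup E] [InnerProductSpace ℝ E] [FiniteDimensional ℝ E]
  {M : Type} [MetricSpace M] [ChartedSpace E M] [IsManifold 𝓘(ℝ, E) ∞ M]
  [CompactSpace M] [Nonempty M] [Nontrivial E] {g : Met E M}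

variable {sh : Short g} {a : ℝ}

/-- the momentum of `u` in the chart at `u s` -/
noncomputable def zi8_F (u : UG g) (s : ℝ) (w : E) (r : ℝ) : ℝ :=
  G g (u.1 s) (κ E (u.1 s) (u.1 r)) (vel E (u.1 s) u.1 r) w

theorem zi8_F_has (u : UG g) (s : ℝ) (w : E) :
    HasDerivAt (zi8_F u s w) (deriv (zi8_F u s w) s) s :=
  (u.2.1.2 (u.1 s) s (mem_extChartAt_source _) w).differentiableAt.hasDerivAt

theorem zi8_aff (s α : ℝ) : HasDerivAt (fun r : ℝ => s + α * r) α 0 := by
  simpa using ((hasDerivAt_id (0 : ℝ)).const_mul α).const_add s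

theorem zi8_curve (u : UG g) (s α : ℝ) :
    HasDerivAt (fun r : ℝ => κ E (u.1 s) (u.1 (s + α * r))) (α • tv u s) 0 := by
  have h1 : HasDerivAt (fun r => κ E (u.1 s) (u.1 r)) (tv u s) (s + α * 0) := by
    rw [mul_zero, add_zero]
    exact (u.geoAt s).hasDerivAt (mem_extChartAt_source _)
  exact h1.scomp (0 : ℝ) (zi8_aff s α)

theorem zi8_Fc (u : UG g) (s α : ℝ) (w : E) :
    HasDerivAt (fun r : ℝ => zi8_F u s w (s + α * r)) (deriv (zi8_F u s w) s * α) 0 := by
  have h1 : HasDerivAt (zi8_F u s w) (deriv (zi8_F u s w) s) (s + α * 0) := by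
    rw [mul_zero, add_zero]
    exact zi8_F_has u s w
  exact h1.comp (0 : ℝ) (zi8_aff s α)

theorem zi8_src (u : UG g) (s α : ℝ) :
    ∀ᶠ r in 𝓝 (0 : ℝ), u.1 (s + α * r) ∈ (κ E (u.1 s)).source := by
  have hc : Continuous fun r : ℝ => u.1 (s + α * r) := by fun_prop
  refine hc.continuousAt.preimage_mem_nhds ((source_open _).mem_nhds ?_)
  rw [mul_zero, add_zero]
  exact mem_extChartAt_source _

/-- the tangential directions -/
theorem Bq_tan (h : SMd sh dist a) (u : UG g) : ∃ c : ℝ → E → ℝ, (∀ s, c s 0 = 0) ∧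
    ∀ s t α β : ℝ, s < t → t - s < a → ∀ v w : E,
      Bq sh u s t (α • tv u s, β • tv u t) (v, w) =
        2 * (β - α) / (t - s) * (gt u t (tv u t) w - gt u s (tv u s) v) +
          2 * (β * c t w - α * c s v) := by
  refine ⟨fun s w => deriv (zi8_F u s w) s, fun s => ?_, fun s t α β hst hlt v w => ?_⟩
  · have : zi8_F u s 0 = fun _ => 0 := funext fun r => by simp [zi8_F]
    simp [this]
  have habs : |t - s| < a := by rw [abs_of_pos (by linarith)]; exact hlt
  have hc := (zi8_curve u s α).prodMk (zi8_curve u t β)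
  have h1 := Bq_has h u habs hc (by simp [bp]) (v, w)
  have hen : energy g u.1 0 = 1 := u.2.2 0
  have hε : ∀ᶠ r in 𝓝 (0 : ℝ), ((t + β * r) - (s + α * r)) ^ 2 * energy g u.1 0 < sh.ε := by
    have hc : Continuous fun r : ℝ => ((t + β * r) - (s + α * r)) ^ 2 * energy g u.1 0 := by
      fun_prop
    refine hc.continuousAt.eventually_lt continuousAt_const ?_
    have := h.le
    simp only [mul_zero, add_zero, hen, mul_one]
    nlinarith
  have h2 : (fun r => fderiv ℝ (Sq sh u s t)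
      (κ E (u.1 s) (u.1 (s + α * r)), κ E (u.1 t) (u.1 (t + β * r))) (v, w)) =ᶠ[𝓝 0]
      fun r => 2 * ((t + β * r) - (s + α * r)) *
        (zi8_F u t w (t + β * r) - zi8_F u s v (s + α * r)) / (t - s) := by
    filter_upwards [hε, zi8_src u s α, zi8_src u t β] with r e1 e2 e3
    obtain ⟨m1, m2⟩ := Sc_geo (sh := sh) u.2.1 e1 e2 e3
    rw [Sq_fderiv u m1, m2]
    rfl
  have h3 := ((((zi8_aff t β).sub (zi8_aff s α)).const_mul 2).mul
    ((zi8_Fc u t β w).sub (zi8_Fc u s α v))).div_const (t - s)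
  have h4 := h1.unique (h3.congr_of_eventuallyEq h2)
  rw [h4]
  have e1 : zi8_F u t w t = gt u t (tv u t) w := rfl
  have e2 : zi8_F u s v s = gt u s (tv u s) v := rfl
  have hne : t - s ≠ 0 := by linarith
  simp only [Pi.sub_apply, mul_zero, add_zero, e1, e2]
  field_simp



/-- the tangential field with a peak at the time `P` -/
theorem tent (h : SMd sh dist a) (u : UG g) {P l : ℝ} {k k' : ℕ} {t t' : ℕ → ℝ}
    (ht : Part a P k t) (ht' : Part a l k' t') : ∃ X ∈ Vk E (k + k'), X k = tv u P ∧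
      ∀ w ∈ Vk E (k + k'), Qf sh u (k + k') (ctp k P t t') X w =
        2 * (1 / P + 1 / l) * gt u P (tv u P) (w k) := by
  obtain ⟨c, c0, hc⟩ := Bq_tan h u
  have hP := ht.pos
  have hl := ht'.pos
  have hT := ht.ctp ht'
  obtain ⟨θ, hθ⟩ : ∃ θ : ℕ → ℝ, ∀ j, θ j =
      if j ≤ k then t j / P else if j ≤ k + k' then (l - t' (j - k)) / l else 0 := ⟨_, fun _ => rfl⟩
  have T1 : ∀ j ≤ k, ctp k P t t' j = t j := by
    intro j hj
    unfold ctp
    split_ifs with h1
    · rfl
    · have : j = k := by omega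
      rw [this, Nat.sub_self, ht'.2.1, ht.2.2.1, zero_add]
  have T2 : ∀ j, ctp k P t t' (k + j) = t' j + P := by
    intro j
    unfold ctp
    rw [if_neg (by omega), Nat.add_sub_cancel_left]
  have θ1 : ∀ j ≤ k, θ j = t j / P := fun j hj => by rw [hθ, if_pos hj]
  have θ2 : ∀ j ≤ k', θ (k + j) = (l - t' j) / l := by
    intro j hj
    rw [hθ]
    split_ifs with h1 h2
    · have : j = 0 := by omega
      rw [this, add_zero, ht.2.2.1, ht'.2.1, sub_zero, div_self hP.ne', div_self hl.ne']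
    · rw [Nat.add_sub_cancel_left]
    · omega
  have Tk : ctp k P t t' k = P := by rw [T1 k le_rfl, ht.2.2.1]
  refine ⟨fun j => θ j • tv u (ctp k P t t' j), ⟨?_, fun j hj => ?_⟩, ?_, fun w hw => ?_⟩
  · show θ 0 • _ = 0
    rw [θ1 0 (Nat.zero_le _), ht.2.1, zero_div, zero_smul]
  · show θ j • _ = 0
    have : θ j = 0 := by
      rcases hj.eq_or_lt with e | e
      · rw [← e, θ2 k' le_rfl, ht'.2.2.1, sub_self, zero_div]
      · rw [hθ, if_neg (by omega), if_neg (by omega)]
    rw [this, zero_smul]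
  · show θ k • tv u (ctp k P t t' k) = _
    rw [θ1 k le_rfl, Tk, ht.2.2.1, div_self hP.ne', one_smul]
  obtain ⟨A, hA⟩ : ∃ A : ℕ → ℝ, ∀ j, A j =
      gt u (ctp k P t t' j) (tv u (ctp k P t t' j)) (w j) := ⟨_, fun _ => rfl⟩
  obtain ⟨C, hC⟩ : ∃ C : ℕ → ℝ, ∀ j, C j = θ j * c (ctp k P t t' j) (w j) := ⟨_, fun _ => rfl⟩
  have key : ∀ j ∈ Finset.range (k + k'), Bq sh u (ctp k P t t' j) (ctp k P t t' (j + 1))
      (θ j • tv u (ctp k P t t' j), θ (j + 1) • tv u (ctp k P t t' (j + 1))) (w j, w (j + 1)) =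
      2 * (θ (j + 1) - θ j) / (ctp k P t t' (j + 1) - ctp k P t t' j) * (A (j + 1) - A j) +
        2 * (C (j + 1) - C j) := by
    intro j hj
    obtain ⟨h1, h2⟩ := hT.2.2.2 j (Finset.mem_range.1 hj)
    rw [hc _ _ _ _ h1 h2, hA, hA, hC, hC]
  have s1 : ∀ j ∈ Finset.range k,
      2 * (θ (j + 1) - θ j) / (ctp k P t t' (j + 1) - ctp k P t t' j) * (A (j + 1) - A j) =
        2 / P * (A (j + 1) - A j) := by
    intro j hj
    have hj' := Finset.mem_range.1 hj
    have h1 : t (j + 1) - t j ≠ 0 := by linarith [(ht.2.2.2 j hj').1]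
    rw [θ1 _ hj', θ1 _ hj'.le, T1 _ hj', T1 _ hj'.le]
    field_simp
  have s2 : ∀ j ∈ Finset.range k',
      2 * (θ (k + j + 1) - θ (k + j)) / (ctp k P t t' (k + j + 1) - ctp k P t t' (k + j)) *
        (A (k + j + 1) - A (k + j)) = -(2 / l) * (A (k + (j + 1)) - A (k + j)) := by
    intro j hj
    have hj' := Finset.mem_range.1 hj
    have h1 : t' (j + 1) - t' j ≠ 0 := by linarith [(ht'.2.2.2 j hj').1]
    rw [add_assoc, θ2 _ hj', θ2 _ hj'.le, T2, T2, add_sub_add_right_eq_sub]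
    field_simp
    ring
  have A0 : A 0 = 0 := by rw [hA, hw.1, map_zero]
  have A1 : A (k + k') = 0 := by rw [hA, hw.2 _ le_rfl, map_zero]
  have C0 : C 0 = 0 := by rw [hC, hw.1, c0, mul_zero]
  have C1 : C (k + k') = 0 := by rw [hC, hw.2 _ le_rfl, c0, mul_zero]
  unfold Qf
  rw [Finset.sum_congr rfl key, Finset.sum_add_distrib, ← Finset.mul_sum, Finset.sum_range_sub,
    Finset.sum_range_add, Finset.sum_congr rfl s1, Finset.sum_congr rfl s2, ← Finset.mul_sum,
    ← Finset.mul_sum, Finset.sum_range_sub, Finset.sum_range_sub (fun j => A (k + j)), A0, A1,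
    C0, C1, add_zero, hA, Tk]
  ring

end Pool.Agent.Fu
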