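import Mathlib
import Pool.Agent.P.MP_365c00_gt.ZI8

/-! Index theory: the upper bound. -/

set_option linter.unusedSectionVars false
set_option linter.unusedVariables false

open Set Filter Topology Metric Function MeasureTheory
open scoped Manifold ContDiff
open Pool.Agent.GeoN

namespace Pool.Agent.Fu

variable {E : Type} [NormedAddCommGroup E] [InnerProductSpace ℝ E] [FiniteDimensional ℝ E]
  {M : Type} [MetricSpace M] [ChartedSpace E M] [IsManifold 𝓘(ℝ, E) ∞ M]
  [CompactSpace M] [Nonempty M] [Nontrivial E] {g : Met E M}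

variable {sh : Short g} {a : ℝ}

theorem zi9_congr (u : UG g) (k : ℕ) (t : ℕ → ℝ) {v w : ℕ → E} (e : ∀ j ≤ k, v j = w j) :
    Qf sh u k t v v = Qf sh u k t w w := by
  refine Finset.sum_congr rfl fun j hj => ?_
  have h1 := Finset.mem_range.1 hj
  rw [e j h1.le, e (j + 1) h1]

theorem idx_upper (h : SMd sh dist a) (u : UG g) {P l : ℝ} (hP : 0 < P) (hl : 0 < l) :
    idx sh a u (l + P) ≤ idx sh a (shift P u) l + (idx sh a u P + (Module.finrank ℝ E - 1)) := by
  obtain ⟨k, t, ht⟩ : ∃ k t, Part a P k t := ⟨_, _, part_std h.pos hP⟩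
  obtain ⟨k', t', ht'⟩ : ∃ k t, Part a l k t := ⟨_, _, part_std h.pos hl⟩
  rw [idx_part' h u (ht.ctp ht'), idx_part' h u ht, idx_part' h (shift P u) ht']
  obtain ⟨X, hX, hXk, hXQ⟩ := tent h u ht ht'
  obtain ⟨φ1, h1⟩ := nI_fun (Ql sh u k t) (Vk E k) (Qf_symm' h u ht)
  obtain ⟨φ2, h2⟩ := nI_fun (Ql sh (shift P u) k' t') (Vk E k') (Qf_symm' h _ ht')
  have hτ : tv u P ≠ 0 := fun e => by simpa [e] using gt_tv u P
  let ev : (ℕ → E) →ₗ[ℝ] E := LinearMap.proj k
  let R : (ℕ → E) →ₗ[ℝ] (ℕ → E) :=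
    LinearMap.id - ((gt u P (tv u P)).toLinearMap ∘ₗ ev).smulRight X
  let p1 : (ℕ → E) →ₗ[ℝ] (ℕ → E) := LinearMap.pi fun j => if j < k then LinearMap.proj j else 0
  let p2 : (ℕ → E) →ₗ[ℝ] (ℕ → E) := LinearMap.pi fun j => LinearMap.proj (k + j)
  have hp1 : ∀ w j, p1 w j = if j < k then w j else 0 := by
    intro w j
    simp only [p1, LinearMap.pi_apply]
    split_ifs <;> rfl
  refine (nI_le_of_fun ((φ2 ∘ₗ p2 ∘ₗ R).prod ((φ1 ∘ₗ p1 ∘ₗ R).prod
    ((Submodule.span ℝ {tv u P}).mkQ ∘ₗ ev))) fun v hv h0 => ?_).trans ?_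
  · have e2 : φ2 (p2 (R v)) = 0 := congrArg Prod.fst h0
    have e1 : φ1 (p1 (R v)) = 0 := congrArg (fun z => z.2.1) h0
    have e0 : (Submodule.span ℝ {tv u P}).mkQ (v k) = 0 := congrArg (fun z => z.2.2) h0
    obtain ⟨c, hc⟩ := Submodule.mem_span_singleton.1 ((Submodule.Quotient.mk_eq_zero _).1 e0)
    have eR : R v = v - c • X := by
      show v - gt u P (tv u P) (v k) • X = _
      rw [← hc, map_smul, gt_tv, smul_eq_mul, mul_one]
    rw [eR] at e1 e2
    have hw : v - c • X ∈ Vk E (k + k') := sub_mem hv (Submodule.smul_mem _ c hX)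
    have hwk : (v - c • X) k = 0 := by
      rw [Pi.sub_apply, Pi.smul_apply, hXk, hc, sub_self]
    obtain ⟨w, rfl⟩ : ∃ w, v = w + c • X := ⟨v - c • X, (sub_add_cancel _ _).symm⟩
    rw [add_sub_cancel_right] at e1 e2 hw hwk
    have a1 : 0 ≤ Qf sh u k t w w := by
      have h3 := h1 (p1 w) ⟨by rw [hp1, if_pos ht.1, hw.1], fun j hj => by
        rw [hp1, if_neg (not_lt.2 hj)]⟩ e1
      rwa [Ql_apply, zi9_congr u k t (w := w) fun j hj => by
        rw [hp1]
        split_ifs with h4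
        · rfl
        · rw [le_antisymm hj (not_lt.1 h4), hwk]] at h3
    have a2 : 0 ≤ Qf sh (shift P u) k' t' (fun j => w (k + j)) (fun j => w (k + j)) :=
      h2 (p2 w) ⟨hwk, fun j hj => hw.2 (k + j) (Nat.add_le_add_left hj k)⟩ e2
    have a3 : 0 ≤ Ql sh u (k + k') (ctp k P t t') w w := by
      rw [Ql_apply, Qf_ctp u ht ht']
      exact add_nonneg a1 a2
    have a4 : Ql sh u (k + k') (ctp k P t t') X w = 0 := by
      rw [Ql_apply, hXQ w hw, hwk, map_zero, mul_zero]
    have a5 : Ql sh u (k + k') (ctp k P t t') w X = 0 := by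
      rw [Ql_apply, Qf_symm' h u (ht.ctp ht'), ← Ql_apply, a4]
    have a6 : 0 ≤ Ql sh u (k + k') (ctp k P t t') X X := by
      rw [Ql_apply, hXQ X hX, hXk, gt_tv]
      positivity
    rw [← Ql_apply]
    simp only [map_add, map_smul, LinearMap.add_apply, LinearMap.smul_apply, smul_eq_mul, a4, a5,
      mul_zero, add_zero, zero_add]
    rw [← mul_assoc]
    exact add_nonneg a3 (mul_nonneg (mul_self_nonneg c) a6)
  · have h3 := Submodule.finrank_quotient_add_finrank (Submodule.span ℝ {tv u P})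
    rw [finrank_span_singleton hτ] at h3
    rw [Module.finrank_prod, Module.finrank_prod, Module.finrank_fin_fun, Module.finrank_fin_fun,
      ← h3, Nat.add_sub_cancel]
    exact le_rfl

end Pool.Agent.Fu
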