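import Mathlib
import Pool.Agent.P.MP_365c00_gt.ZI9

/-! Index theory: the results. -/

set_option linter.unusedSectionVars false
set_option linter.unusedVariables false

open Set Filter Topology Metric Function MeasureTheory
open scoped Manifold ContDiff
open Pool.Agent.GeoN

namespace Pool.Agent.Fu

variable {E : Type} [NormedAddCommGroup E] [InnerProductSpace ℝ E] [FiniteDimensional ℝ E]
  {M : Type} [MetricSpace M] [ChartedSpace E M] [IsManifold 𝓘(ℝ, E) ∞ M]
  [CompactSpace M] [Nonempty M] [Nontrivial E] {g : Met E M}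

variable {sh : Short g} {a : ℝ}

theorem idx_le (h : SMd sh dist a) (u : UG g) {l : ℝ} (hl : 0 < l) :
    (idx sh a u l : ℝ) ≤ 2 * Module.finrank ℝ E / a * l := idx_le' h u hl
theorem Bq_shift (u : UG g) (r s t : ℝ) : Bq sh (shift r u) s t = Bq sh u (s + r) (t + r) := Bq_shift' u r s t
theorem Qf_symm (h : SMd sh dist a) (u : UG g) {l : ℝ} {k : ℕ} {t : ℕ → ℝ} (ht : Part a l k t)
    (v w : ℕ → E) : Qf sh u k t v w = Qf sh u k t w v := Qf_symm' h u ht v w
theorem idx_part (h : SMd sh dist a) (u : UG g) {l : ℝ} {k : ℕ} {t : ℕ → ℝ} (ht : Part a l k t) :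
    idx sh a u l = nI (Qf sh u k t) (Vk E k) := idx_part' h u ht
theorem nd_part (h : SMd sh dist a) (u : UG g) {l : ℝ} {k : ℕ} {t : ℕ → ℝ} (ht : Part a l k t)
    (hn : NdJ g u l) {v : ℕ → E} (hv : v ∈ Vk E k) (h0 : ∀ w ∈ Vk E k, Qf sh u k t v w = 0) :
    v = 0 := nd_part' h u ht hn hv h0
theorem nd_short (h : SMd sh dist a) (u : UG g) {l : ℝ} (h0 : 0 < l) (hl : l < a) : NdJ g u l :=
  nd_short' h u h0 hl
theorem idx_mono (h : SMd sh dist a) (u : UG g) {l l' : ℝ} (h0 : 0 < l) (hl : l ≤ l') :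
    idx sh a u l ≤ idx sh a u l' := idx_mono' h u h0 hl
theorem idx_add (h : SMd sh dist a) (u : UG g) {P l : ℝ} (hP : 0 < P) (hp : Periodic u.1 P)
    (hf : FlatJ g u P) (hl : 0 < l) (hn : NdJ g u (l + P)) :
    idx sh a u (l + P) = idx sh a u l + (idx sh a u P + (Module.finrank ℝ E - 1)) := by
  have e : shift P u = u := Subtype.ext (ContinuousMap.ext fun s => by rw [shift_apply, hp s])
  have h1 := idx_lower h u hP hl hn
  have h2 := idx_upper h u hP hl
  have h3 := flat_rank hf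
  rw [e] at h1 h2
  omega

end Pool.Agent.Fu
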