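import Mathlib
import Pool.Agent.P.MP_365c00_gt.ZP0

/-! Abstract geodesics, Morse theory and the properties of the powers: definitions. -/

set_option linter.unusedSectionVars false
set_option linter.unusedVariables false

open Set Topology Filter Metric

namespace Pool.Agent.Fu

variable {F : Type} [Field F] {M : Type} [MetricSpace M] {Z : Type} [TopologicalSpace Z]

/-- a system of geodesics with an index -/
structure GD (M : Type) [MetricSpace M] extends GS M where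
  G : Type
  ev : G → ℝ → M
  sh : ℝ → G → G
  ev_sh : ∀ t u s, ev (sh t u) s = ev u (s + t)
  ext : ∀ u v, ev u = ev v → u = v
  ind : G → ℝ → ℕ
  Nd : G → ℝ → Prop
  C0 : ℝ
  C0_pos : 0 < C0
  aC0 : a * C0 ≤ 1
  ind_le : ∀ u l, 0 < l → (ind u l : ℝ) ≤ C0 * l
  dist_ev : ∀ u s t, |s - t| < a → dist (ev u s) (ev u t) = |s - t|
  uniq : ∀ u v l, 0 < l → l < a → ev u 0 = ev v 0 → ev u l = ev v l → u = v
  ex : ∀ x y, x ≠ y → dist x y < a → ∃ u, ev u 0 = x ∧ ev u (dist x y) = y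

namespace GD
variable (D : GD M)

/-- geodesics from `x` to `y` with their lengths -/
def J (x y : M) : Set (D.G × ℝ) := {w | 0 < w.2 ∧ D.ev w.1 0 = x ∧ D.ev w.1 w.2 = y}

/-- regular pairs -/
def Reg (x y : M) : Prop :=
  x ≠ y ∧ (∀ w ∈ D.J x y, D.Nd w.1 w.2) ∧ (∀ w ∈ D.J x y, ∀ w' ∈ D.J x y, w.2 = w'.2 → w = w') ∧
    ∀ L : ℝ, {w | w ∈ D.J x y ∧ w.2 ≤ L}.Finite

/-- no geodesic has its length in `[b, c)` -/
def Gap (x y : M) (b c : ℝ) : Prop := ∀ w ∈ D.J x y, w.2 < b ∨ c ≤ w.2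

/-- `l` is the only possible length in `[l - r, l + r]` -/
def Iso (x y : M) (l r : ℝ) : Prop := ∀ w ∈ D.J x y, |w.2 - l| ≤ r → w.2 = l

/-- stability of isolated geodesics -/
def ST : Prop := ∀ x y, D.Reg x y → ∀ w ∈ D.J x y, ∃ δ0 > 0, ∀ δ ∈ Ioo 0 δ0,
  ∀ v ∈ D.J (D.ev w.1 δ) y, |v.2 - w.2| ≤ 5 * δ → v.2 = w.2 - δ

/-- a period along which the index is shifted by `m` -/
def FP (u : D.G) (P : ℝ) (m : ℕ) : Prop :=
  0 < P ∧ Function.Periodic (D.ev u) P ∧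
    (∀ l, 0 < l → D.Nd u (l + P) → D.ind u (l + P) = D.ind u l + m) ∧
    ∀ l, 0 < l → l ≤ P → D.ind u l + 2 ≤ m

/-- all long geodesics lie on finitely many closed geodesics -/
def Fin0 (x y : M) : Prop :=
  D.Reg x y ∧ ∃ (L : ℝ) (U : Set D.G), U.Finite ∧ (∀ u ∈ U, ∃ P m, D.FP u P m) ∧
    ∀ w ∈ D.J x y, L < w.2 → w.1 ∈ U

/-- pairs of class `m` -/
def Per (τ : ℝ) (m : ℕ) (x y : M) : Prop :=
  D.Reg x y ∧ ∀ w ∈ D.J x y, Function.Periodic (D.ev w.1) (m * τ) ∧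
    D.ind w.1 (w.2 + m * τ) = D.ind w.1 w.2 + m ∧ (w.2 < m * τ → D.ind w.1 w.2 + 2 ≤ m)

/-- pairs of some class -/
def PerS (τ : ℝ) (x y : M) : Prop := ∃ m, 0 < m ∧ D.Per τ m x y

/-- good pairs -/
def Good (τ : ℝ) (x y : M) : Prop :=
  D.PerS τ x y ∧ ∀ w ∈ D.J x y, ∀ δ0 > 0, ∃ δ ∈ Ioo 0 δ0,
    D.PerS τ x (D.ev w.1 δ) ∧ D.PerS τ (D.ev w.1 δ) y

/-- what is used of the hypothesis of the theorem and of the negation of its conclusion -/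
structure DN (τ : ℝ) : Prop where
  pos : 0 < τ
  st : D.ST
  dense : Dense {z : M × M | D.Good τ z.1 z.2}
  gap : ∀ m0 : ℕ, 0 < m0 → ∃ (x y : M) (m : ℕ), 0 < m ∧ D.Per τ m x y ∧ dist x y < D.a / 16 ∧
    ∀ w ∈ D.J x y, ∀ k : ℤ, w.2 + 2 * m0 * τ ≠ dist x y + k * (m * τ)

/-- Morse theory for the path spaces -/
structure MT (F : Type) [Field F] : Prop where
  mt0 : ∀ x y b c, x ≠ y → D.Gap x y b c →
    ZZ F (Om x y c) (Om x y b) ≤ NN F (Om x y c) (Om x y b)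
  mt1 : ∀ x y, D.Reg x y → ∀ w ∈ D.J x y, ∀ c, w.2 < c → (∀ v ∈ D.J x y, v.2 ≤ w.2 ∨ c ≤ v.2) →
    ∃ g ∈ ZZ F (Omc x y w.2) (Om x y w.2), g ∈ HD F _ (D.ind w.1 w.2) ∧
      g ∉ NN F (Om x y c) (Om x y w.2) ∧
      ∀ z ∈ ZZ F (Om x y c) (Om x y w.2), ∃ r : F, z - r • g ∈ NN F (Om x y c) (Om x y w.2)
  mt2 : ∀ x y z, D.Reg x y → D.Reg y z → D.Reg x z → ∀ u l1 l2, (u, l1) ∈ D.J x y →
    (D.sh l1 u, l2) ∈ D.J y z → D.ind u (l1 + l2) = D.ind u l1 + D.ind (D.sh l1 u) l2 →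
    ∀ c, l1 + l2 < c → (∀ v ∈ D.J x z, v.2 ≤ l1 + l2 ∨ c ≤ v.2) →
    ∃ g1 ∈ ZZ F (Omc x y l1) (Om x y l1), ∃ g2 ∈ ZZ F (Omc y z l2) (Om y z l2),
      mul g1 g2 ∉ NN F (Om x z c) (Om x z (l1 + l2))

end GD

/-- the properties of the family of classes `x p` and of its powers -/
structure PW (F : Type) [Field F] (S : GS M) (C0 τ θ η A s : ℝ) (D : ℕ) (x : M → Ch F (Mo M)) :
    Prop where
  even : Even D
  cyc : ∀ p, x p ∈ ZZ F (Pa p p) ∅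
  deg : ∀ p, x p ∈ HD F _ D
  conj : ∀ p p' : M, dist p p' < S.a / 8 → mp (S.wh p' p') (x p) - x p' ∈ BB F (Pa p' p')
  low : ∀ (p : M) (n : ℕ), ∃ z ∈ ZZ F (Om p p ((n + 1) * (D * τ) + 4 * s)) ∅,
    z ∈ HD F _ ((n + 1) * D) ∧ z - pwr n (x p) ∈ BB F (Pa p p)
  fine : ∀ (p : M) (n k : ℕ) (t : ℝ), t ≤ (n + 1) * (D * τ) + S.a / 8 → ∀ z ∈ ZZ F (Om p p t) ∅,
    z ∈ HD F _ k → ((n + 1) * D < k ∨ (k = (n + 1) * D ∧ z ∈ BB F (Pa p p))) →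
    z ∈ BB F (Om p p (t + 12 * s))
  coarse : ∀ (p : M) (n k : ℕ) (b : ℝ), 0 ≤ b → (n + 1) * D + C0 * (b + θ) < k →
    ∀ z ∈ ZZ F (Om p p ((n + 1) * (D * τ) + b)) ∅, z ∈ HD F _ k →
    z ∈ BB F (Om p p ((n + 1) * (D * τ) + b + θ))
  strip : ∀ (p : M) (k : ℕ) (t : ℝ), t / τ + A < k → ∀ z ∈ ZZ F (Om p p t) ∅, z ∈ HD F _ k →
    z ∈ BB F (Om p p (t + η))
  det : ∃ p, x p ∉ NN F (Pa p p) (Om p p (D * τ + s))

end Pool.Agent.Fu
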