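import Mathlib
import Pool.Agent.P.MP_365c00_gt.ZI
import Pool.Agent.P.MP_365c00_gt.ZQ0

/-! The system of geodesics of a Riemannian manifold. -/

set_option linter.unusedSectionVars false
set_option linter.unusedVariables false

open Set Filter Topology Metric Function MeasureTheory
open scoped Manifold ContDiff
open Pool.Agent.GeoN

namespace Pool.Agent.Fu

variable {E : Type} [NormedAddCommGroup E] [InnerProductSpace ℝ E] [FiniteDimensional ℝ E]
  {M : Type} [MetricSpace M] [ChartedSpace E M] [IsManifold 𝓘(ℝ, E) ∞ M]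
  [CompactSpace M] [Nonempty M] [Nontrivial E] {g : Met E M}

variable {sh : Short g} {a : ℝ}

theorem rk_pos : (1 : ℝ) ≤ Module.finrank ℝ E := by
  exact_mod_cast Module.finrank_pos

theorem small_le (h : SMd sh dist a) : a / (2 * Module.finrank ℝ E) ≤ a :=
  div_le_self h.pos.le (by linarith [rk_pos (E := E)])

/-- the system of geodesics -/
noncomputable def geoD (h : SMd sh dist a) (S : GS M) (hS : S.a = a / (2 * Module.finrank ℝ E)) :
    GD M where
  toGS := S
  G := UG g
  ev u := u.1
  sh := shift
  ev_sh := shift_apply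
  ext u v e := Subtype.ext (DFunLike.coe_injective e)
  ind := idx sh a
  Nd := NdJ g
  C0 := 2 * Module.finrank ℝ E / a
  C0_pos := div_pos (by linarith [rk_pos (E := E)]) h.pos
  aC0 := by
    have h1 := h.pos.ne'
    have h2 : (Module.finrank ℝ E : ℝ) ≠ 0 := by linarith [rk_pos (E := E)]
    rw [hS]
    field_simp
    exact le_rfl
  ind_le u l hl := idx_le h u hl
  dist_ev u s t hst := h.dist_ug u (hst.trans_le (hS ▸ small_le h))
  uniq u v l h0 hl := h.uniq_ug h0 (hl.trans_le (hS ▸ small_le h))
  ex x y hne hd := h.ex_ug hne (hd.trans_le (hS ▸ small_le h))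

end Pool.Agent.Fu
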