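import Mathlib
import Pool.Agent.P.MP_365c00_gt.ZA2
import Pool.Agent.P.MP_365c00_gt.ZA3
import Pool.Agent.P.MP_365c00_gt.ZM3

/-! Nondegenerate arcs: openness, stability, finiteness. -/

set_option linter.unusedSectionVars false
set_option linter.unusedVariables false

open Set Filter Topology Metric Function MeasureTheory
open scoped Manifold ContDiff
open Pool.Agent.GeoN

namespace Pool.Agent.Fu

variable {E : Type} [NormedAddCommGroup E] [InnerProductSpace ℝ E] [FiniteDimensional ℝ E]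
  {M : Type} [MetricSpace M] [ChartedSpace E M] [IsManifold 𝓘(ℝ, E) ∞ M]
  [CompactSpace M] [Nonempty M] [Nontrivial E] {g : Met E M}

theorem za5_ev {x : M} {w : UG g × ℝ} (hw : w.1.1 0 ∈ (κ E x).source) (hl : 0 < w.2) :
    ∀ᶠ v in 𝓝 w, v.1.1 0 ∈ (κ E x).source ∧ 0 < v.2 := by
  have h1 : Continuous fun v : UG g × ℝ => v.1.1 0 := continuous_fst.comp Psi_cont
  exact (h1.continuousAt.eventually ((source_open x).mem_nhds hw)).and
    (continuous_snd.continuousAt.eventually (lt_mem_nhds hl))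

theorem za5_inj {x x' : M} {w : UG g × ℝ} (hw : w.1.1 0 ∈ (κ E x).source)
    (hw' : w.1.1 w.2 ∈ (κ E x').source) (hl : 0 < w.2) (hn : NdJ g w.1 w.2) :
    Injective (fderiv ℝ (FF g x x') (jet x w)) :=
  (nd_iff (jet_DD hw hw' hl)).2 (by rw [arc_jet hw hl]; exact hn)

theorem nd_ev {w : UG g × ℝ} (hl : 0 < w.2) (hn : NdJ g w.1 w.2) :
    ∀ᶠ v in 𝓝 w, NdJ g v.1 v.2 := by
  have hw : w.1.1 0 ∈ (κ E (w.1.1 0)).source := mem_extChartAt_source _
  have hw' : w.1.1 w.2 ∈ (κ E (w.1.1 w.2)).source := mem_extChartAt_source _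
  have hD := jet_DD hw hw' hl
  have h1 := inj_ev (FF_smooth hD) (za5_inj hw hw' hl hn)
  have h2 : ∀ᶠ y in 𝓝 (jet (w.1.1 0) w), y ∈ DD g (w.1.1 0) (w.1.1 w.2) 1 :=
    (DD_open _ _ _).mem_nhds hD
  filter_upwards [(jet_cont hw).eventually (h1.and h2), za5_ev hw hl] with v hv hv'
  have h3 := (nd_iff hv.2).1 hv.1
  rwa [arc_jet hv'.1 hv'.2] at h3

theorem psi_inj {w : UG g × ℝ} (hl : 0 < w.2) (hn : NdJ g w.1 w.2) :
    ∃ N : Set (UG g × ℝ), IsOpen N ∧ w ∈ N ∧ InjOn Psi N := by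
  have hw : w.1.1 0 ∈ (κ E (w.1.1 0)).source := mem_extChartAt_source _
  have hw' : w.1.1 w.2 ∈ (κ E (w.1.1 w.2)).source := mem_extChartAt_source _
  have hD := jet_DD hw hw' hl
  obtain ⟨b, O, -, -, -, hb⟩ := loc_inv (FF_smooth hD) (za5_inj hw hw' hl hn) univ_mem
  obtain ⟨N, hN, hNo, hNw⟩ :=
    eventually_nhds_iff.1 (((jet_cont hw).eventually hb).and (za5_ev hw hl))
  refine ⟨N, hNo, hNw, fun v hv v' hv' e => ?_⟩
  obtain ⟨⟨-, h1⟩, h2, h3⟩ := hN v hv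
  obtain ⟨⟨-, h1'⟩, h2', h3'⟩ := hN v' hv'
  rw [FF_arc (jet_mem h2 h3), arc_jet h2 h3] at h1
  rw [FF_arc (jet_mem h2' h3'), arc_jet h2' h3', ← e, h1] at h1'
  rw [← arc_jet h2 h3, h1', arc_jet h2' h3']

variable {sh : Short g} {a : ℝ} (h : SMd sh dist a) (S : GS M)
  (hS : S.a = a / (2 * Module.finrank ℝ E))

theorem geo_st : (geoD h S hS).ST := by
  intro x y hR w hw
  change UG g × ℝ at w
  have hl : 0 < w.2 := hw.1
  have h0 : w.1.1 0 = x := hw.2.1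
  have h1 : w.1.1 w.2 = y := hw.2.2
  obtain ⟨N, hNo, hNw, hNi⟩ := psi_inj hl (hR.2.1 w hw)
  have hK : IsCompact ((univ : Set (UG g)) ×ˢ Icc (w.2 / 2) (2 * w.2)) :=
    isCompact_univ.prod isCompact_Icc
  have hC : IsClosed {z : ℝ × (UG g × ℝ) | z.2.1.1 0 = w.1.1 z.1 ∧ z.2.1.1 z.2.2 = y ∧
      |z.2.2 - w.2| ≤ 5 * z.1} :=
    (isClosed_eq ((continuous_fst.comp Psi_cont).comp continuous_snd)
      (w.1.1.continuous.comp continuous_fst)).inter
      ((isClosed_eq ((ev_cont g).comp continuous_snd) continuous_const).inter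
        (isClosed_le (f := fun z : ℝ × (UG g × ℝ) => |z.2.2 - w.2|)
          (g := fun z : ℝ × (UG g × ℝ) => 5 * z.1) (by fun_prop) (by fun_prop)))
  have E1 : ∀ᶠ δ in 𝓝 (0 : ℝ), ∀ v ∈ (univ : Set (UG g)) ×ˢ Icc (w.2 / 2) (2 * w.2),
      (v.1.1 0 = w.1.1 δ ∧ v.1.1 v.2 = y ∧ |v.2 - w.2| ≤ 5 * δ) → v ∈ N := by
    refine hK.eventually_forall_of_forall_eventually
      (P := fun (δ : ℝ) (v : UG g × ℝ) =>
        (v.1.1 0 = w.1.1 δ ∧ v.1.1 v.2 = y ∧ |v.2 - w.2| ≤ 5 * δ) → v ∈ N) fun v _ => ?_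
    by_cases hv : v.1.1 0 = w.1.1 0 ∧ v.1.1 v.2 = y ∧ |v.2 - w.2| ≤ 5 * (0 : ℝ)
    · have e : v.2 = w.2 := by
        have := hv.2.2
        rw [mul_zero, abs_nonpos_iff] at this
        linarith
      have hvJ : v ∈ (geoD h S hS).J x y := ⟨by change 0 < v.2; rwa [e], hv.1.trans h0, hv.2.1⟩
      have e' : v = w := hR.2.2.1 v hvJ w hw e
      have h2 : ∀ᶠ z : ℝ × (UG g × ℝ) in 𝓝 (0, v), z.2 ∈ N :=
        continuous_snd.continuousAt.eventually (hNo.mem_nhds (e' ▸ hNw))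
      exact h2.mono fun z hz _ => hz
    · have h2 := hC.isOpen_compl.mem_nhds (x := ((0 : ℝ), v)) hv
      exact Eventually.mono h2 fun z hz hz' => absurd hz' hz
  have E2 : ∀ᶠ δ in 𝓝 (0 : ℝ), (shift δ w.1, w.2 - δ) ∈ N := by
    have hc : Continuous fun δ : ℝ => (shift δ w.1, w.2 - δ) :=
      ((shift_cont g).comp (continuous_id.prodMk continuous_const)).prodMk (by fun_prop)
    refine hc.continuousAt.eventually (hNo.mem_nhds ?_)
    change (shift 0 w.1, w.2 - 0) ∈ N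
    rw [za_shift_zero, sub_zero]
    exact hNw
  have E3 : ∀ᶠ δ in 𝓝 (0 : ℝ), δ < w.2 / 10 := gt_mem_nhds (by linarith)
  obtain ⟨δ0, hδ0, hb⟩ := Metric.eventually_nhds_iff.1 (E1.and (E2.and E3))
  refine ⟨δ0, hδ0, fun δ hδ v hv hd => ?_⟩
  change UG g × ℝ at v
  obtain ⟨b1, b2, b3⟩ := hb (y := δ) (by rw [Real.dist_eq, sub_zero, abs_of_pos hδ.1]; exact hδ.2)
  have hd' : |v.2 - w.2| ≤ 5 * δ := hd
  have hv0 : v.1.1 0 = w.1.1 δ := hv.2.1
  have hv1 : v.1.1 v.2 = y := hv.2.2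
  have hd2 := abs_le.1 hd'
  have hvN := b1 v ⟨mem_univ _, by linarith [hd2.1], by linarith [hd2.2]⟩ ⟨hv0, hv1, hd'⟩
  have e : Psi v = Psi (shift δ w.1, w.2 - δ) := by
    refine Prod.ext ?_ ?_
    · change v.1.1 0 = (shift δ w.1).1 0
      rw [shift_apply, zero_add, hv0]
    · change v.1.1 v.2 = (shift δ w.1).1 (w.2 - δ)
      rw [shift_apply, sub_add_cancel, hv1, h1]
  exact congrArg Prod.snd (hNi hvN b2 e)

theorem geo_fin {x y : M} (hne : x ≠ y) (hn : ∀ w ∈ (geoD h S hS).J x y, NdJ g w.1 w.2) (L : ℝ) :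
    {w | w ∈ (geoD h S hS).J x y ∧ w.2 ≤ L}.Finite := by
  set A : Set (UG g × ℝ) := {w | (w.1.1 0 = x ∧ w.1.1 w.2 = y) ∧ w.2 ∈ Icc (dist x y) L} with hA
  have hd : 0 < dist x y := dist_pos.2 hne
  have hcl : IsClosed A :=
    ((isClosed_eq (continuous_fst.comp Psi_cont) continuous_const).inter
      (isClosed_eq (ev_cont g) continuous_const)).inter (isClosed_Icc.preimage continuous_snd)
  have hK : IsCompact A :=
    ((isCompact_univ (X := UG g)).prod (isCompact_Icc (a := dist x y) (b := L))).of_isClosed_subset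
      hcl fun w hw => ⟨mem_univ _, hw.2⟩
  have hex : ∀ w ∈ A, ∃ N : Set (UG g × ℝ), IsOpen N ∧ w ∈ N ∧ InjOn Psi N := fun w hw =>
    psi_inj (hd.trans_le hw.2.1) (hn w ⟨hd.trans_le hw.2.1, hw.1.1, hw.1.2⟩)
  choose! N hNo hNw hNi using hex
  obtain ⟨t, ht, hc⟩ := hK.elim_nhds_subcover N fun w hw => (hNo w hw).mem_nhds (hNw w hw)
  have hfin : A.Finite := by
    refine t.finite_toSet.subset fun w hw => ?_
    obtain ⟨v, hv, hwv⟩ := mem_iUnion₂.1 (hc hw)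
    have hvA := ht v hv
    have e : w = v := hNi v hvA hwv (hNw v hvA)
      (Prod.ext (hw.1.1.trans hvA.1.1.symm) (hw.1.2.trans hvA.1.2.symm))
    rw [e]
    exact hv
  refine hfin.subset fun w hw => ?_
  change UG g × ℝ at w
  have hl : 0 < w.2 := hw.1.1
  have h0 : w.1.1 0 = x := hw.1.2.1
  have h1 : w.1.1 w.2 = y := hw.1.2.2
  refine ⟨⟨h0, h1⟩, ?_, hw.2⟩
  have h2 := h.lip w.1 0 w.2
  rwa [h0, h1, zero_sub, abs_neg, abs_of_pos hl] at h2

end Pool.Agent.Fu
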