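import Mathlib
import Pool.Agent.P.MP_365c00_gt.ZA2
import Pool.Agent.P.MP_365c00_gt.ZA3

/-! Generic differences of lengths. -/

set_option linter.unusedSectionVars false
set_option linter.unusedVariables false

open Set Filter Topology Metric Function MeasureTheory
open scoped Manifold ContDiff
open Pool.Agent.GeoN

namespace Pool.Agent.Fu

variable {E : Type} [NormedAddCommGroup E] [InnerProductSpace ℝ E] [FiniteDimensional ℝ E]
  {M : Type} [TopologicalSpace M] [ChartedSpace E M] [IsManifold 𝓘(ℝ, E) ∞ M]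
  [T2Space M] [CompactSpace M] [Nonempty M] [Nontrivial E] {g : Met E M}

/-- the differential of the length in the end point coordinates -/
theorem za6_d {x x' : M} {b : E × E → E × E} {O : Set (E × E)} (hO : IsOpen O)
    (hb : ∀ z ∈ O, DifferentiableAt ℝ b z ∧ b z ∈ DD g x x' 1 ∧ FF g x x' (b z) = z)
    {z : E × E} (hz : z ∈ O) :
    DifferentiableAt ℝ (fun z => ln g x (b z)) z ∧ ∀ ξ : E × E,
      fderiv ℝ (fun z => ln g x (b z)) z ξ =
        G g x' z.2 (vel E x' (arc g x (b z)).1.1 (ln g x (b z))) ξ.2 -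
          G g x z.1 (vel E x (arc g x (b z)).1.1 0) ξ.1 := by
  obtain ⟨h1, h2, h3⟩ := hb z hz
  have hl : DifferentiableAt ℝ (ln g x) (b z) := (ln_smooth h2.1).differentiableAt (by simp)
  have hF : DifferentiableAt ℝ (FF g x x') (b z) := (FF_smooth h2).differentiableAt (by simp)
  refine ⟨hl.comp z h1, fun ξ => ?_⟩
  have e1 : fderiv ℝ (fun z => ln g x (b z)) z ξ = fderiv ℝ (ln g x) (b z) (fderiv ℝ b z ξ) := by
    rw [fderiv_fun_comp z hl h1]
    rfl
  have e2 : fderiv ℝ (FF g x x') (b z) (fderiv ℝ b z ξ) = ξ := by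
    have e : (fun z => FF g x x' (b z)) =ᶠ[𝓝 z] id := by
      filter_upwards [hO.mem_nhds hz] with v hv using (hb v hv).2.2
    have e' := e.fderiv_eq (𝕜 := ℝ)
    rw [fderiv_fun_comp z hF h1, fderiv_id] at e'
    exact congrArg (fun L : (E × E) →L[ℝ] (E × E) => L ξ) e'
  have e3 : (fderiv ℝ b z ξ).1 = ξ.1 := by
    have := fderiv_FF h2 (fderiv ℝ b z ξ)
    rw [e2] at this
    exact (congrArg Prod.fst this).symm
  have e4 : (b z).1 = z.1 := (congrArg Prod.fst h3 : (FF g x x' (b z)).1 = z.1)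
  rw [e1, dlen h2, e2, e3, h3, e4]

/-- equal velocities at both ends give one closed geodesic -/
theorem za6_key {x x' : M} {y y' z : E × E} (hy : y ∈ DD g x x' 1) (hy' : y' ∈ DD g x x' 1)
    (e : FF g x x' y = z) (e' : FF g x x' y' = z) {c : ℝ} (hc : ln g x y - ln g x y' = c)
    (h : ∀ ξ : E × E, G g x' z.2 (vel E x' (arc g x y).1.1 (ln g x y)) ξ.2 -
        G g x z.1 (vel E x (arc g x y).1.1 0) ξ.1 =
      G g x' z.2 (vel E x' (arc g x y').1.1 (ln g x y')) ξ.2 -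
        G g x z.1 (vel E x (arc g x y').1.1 0) ξ.1) :
    (arc g x y).1 = (arc g x y').1 ∧ Periodic (arc g x y).1.1 c := by
  have s := Psi_src hy
  have s' := Psi_src hy'
  rw [FF_arc hy.1] at e
  rw [FF_arc hy'.1] at e'
  have a1 : κ E x ((arc g x y).1.1 0) = z.1 := congrArg Prod.fst e
  have a2 : κ E x' ((arc g x y).1.1 (ln g x y)) = z.2 := congrArg Prod.snd e
  have b1 : κ E x ((arc g x y').1.1 0) = z.1 := congrArg Prod.fst e'
  have b2 : κ E x' ((arc g x y').1.1 (ln g x y')) = z.2 := congrArg Prod.snd e'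
  have s1 : (arc g x y).1.1 0 ∈ (κ E x).source := s.1
  have s2 : (arc g x y).1.1 (ln g x y) ∈ (κ E x').source := s.2
  have t1 : (arc g x y').1.1 0 ∈ (κ E x).source := s'.1
  have t2 : (arc g x y').1.1 (ln g x y') ∈ (κ E x').source := s'.2
  have p1 := (κ E x).injOn s1 t1 (a1.trans b1.symm)
  have p2 := (κ E x').injOn s2 t2 (a2.trans b2.symm)
  have v1 : vel E x (arc g x y).1.1 0 = vel E x (arc g x y').1.1 0 := by
    refine ChartX.G_inj g x (a := z.1) (a1 ▸ (κ E x).map_source s1) fun w => ?_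
    have := h (w, 0)
    simp only [map_zero, zero_sub, neg_inj] at this
    exact this
  have v2 : vel E x' (arc g x y).1.1 (ln g x y) = vel E x' (arc g x y').1.1 (ln g x y') := by
    refine ChartX.G_inj g x' (a := z.2) (a2 ▸ (κ E x').map_source s2) fun w => ?_
    have := h (0, w)
    simp only [map_zero, sub_zero] at this
    exact this
  have hu : (arc g x y).1 = (arc g x y').1 := by
    refine Subtype.ext (ContinuousMap.ext fun r => ?_)
    have := za_ext s1 p1 v1 r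
    rwa [add_zero] at this
  refine ⟨hu, fun r => ?_⟩
  have := za_ext s2 p2 v2 (r - ln g x y')
  rw [← hu, sub_add_cancel] at this
  rw [← this, ← hc]
  congr 1
  ring

variable [MeasurableSpace (E × E)] [BorelSpace (E × E)] {μ : Measure (E × E)}
  [μ.IsAddHaarMeasure]

theorem np_gen (c : ℝ) : NP E μ {z | ∃ w v : UG g × ℝ, 0 < w.2 ∧ 0 < v.2 ∧ NdJ g w.1 w.2 ∧
    NdJ g v.1 v.2 ∧ Psi w = z ∧ Psi v = z ∧ w.2 - v.2 = c ∧
    ¬ (w.1 = v.1 ∧ Periodic w.1.1 c)} := by
  intro x x'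
  let Q : Set ((E × E) × (E × E)) := {q | q.1 ∈ DD g x x' 1 ∧ q.2 ∈ DD g x x' 1 ∧
    Injective (fderiv ℝ (FF g x x') q.1) ∧ Injective (fderiv ℝ (FF g x x') q.2) ∧
    FF g x x' q.2 = FF g x x' q.1 ∧ ln g x q.1 - ln g x q.2 = c ∧
    ¬ ((arc g x q.1).1 = (arc g x q.2).1 ∧ Periodic (arc g x q.1).1.1 c)}
  have hQ : μ ((fun q : (E × E) × (E × E) => FF g x x' q.1) '' Q) = 0 := by
    refine null_cover _ ?_
    rintro ⟨y0, y0'⟩ ⟨d1, d2, i1, i2, -, -, -⟩
    obtain ⟨b, O, hO, -, hb, hev⟩ := loc_inv (FF_smooth d1) i1 ((DD_open x x' 1).mem_nhds d1)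
    obtain ⟨b', O', hO', -, hb', hev'⟩ := loc_inv (FF_smooth d2) i2 ((DD_open x x' 1).mem_nhds d2)
    refine ⟨_, prod_mem_nhds hev hev', measure_mono_null ?_
      (null_zero (μ := μ) (X := fun z => ln g x (b z) - ln g x (b' z) - c) (hO.inter hO')
        fun z hz => ((za6_d hO hb hz.1).1.sub (za6_d hO' hb' hz.2).1).sub_const c)⟩
    rintro _ ⟨⟨y, y'⟩, ⟨⟨⟨m1, m2⟩, m3, m4⟩, e1, e2, -, -, e5, e6, e7⟩, rfl⟩
    simp only at m1 m2 m3 m4 e1 e2 e5 e6 e7 ⊢
    rw [e5] at m3 m4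
    refine ⟨⟨m1, m3⟩, ?_, fun h0 => e7 (za6_key e1 e2 rfl e5 e6 fun ξ => ?_)⟩
    · show ln g x (b _) - ln g x (b' _) - c = 0
      rw [m2, m4, e6, sub_self]
    · obtain ⟨k1, k2⟩ := za6_d hO hb m1
      obtain ⟨k3, k4⟩ := za6_d hO' hb' m3
      rw [fderiv_sub_const, fderiv_fun_sub k1 k3] at h0
      have h1 := congrArg (fun L : (E × E) →L[ℝ] ℝ => L ξ) h0
      simp only [sub_apply, zero_apply] at h1
      rw [k2, k4, m2, m4] at h1
      exact sub_eq_zero.1 h1
  refine measure_mono_null ?_ hQ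
  rintro _ ⟨z, ⟨⟨w, v, w0, v0, nw, nv, pw, pv, hc, hn⟩, z1, z2⟩, rfl⟩
  have w1 : w.1.1 0 ∈ (κ E x).source := by rw [← pw] at z1; exact z1
  have w2 : w.1.1 w.2 ∈ (κ E x').source := by rw [← pw] at z2; exact z2
  have v1 : v.1.1 0 ∈ (κ E x).source := by rw [← pv] at z1; exact z1
  have v2 : v.1.1 v.2 ∈ (κ E x').source := by rw [← pv] at z2; exact z2
  have dw := jet_DD w1 w2 w0
  have dv := jet_DD v1 v2 v0
  have aw := arc_jet w1 w0
  have av := arc_jet v1 v0
  have fw : FF g x x' (jet x w) = Prod.map (κ E x) (κ E x') z := by rw [FF_arc dw.1, aw, pw]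
  have fv : FF g x x' (jet x v) = Prod.map (κ E x) (κ E x') z := by rw [FF_arc dv.1, av, pv]
  have lw : ln g x (jet x w) = w.2 := congrArg Prod.snd aw
  have lv : ln g x (jet x v) = v.2 := congrArg Prod.snd av
  refine ⟨(jet x w, jet x v), ⟨dw, dv, (nd_iff dw).2 ?_, (nd_iff dv).2 ?_, fv.trans fw.symm, ?_, ?_⟩,
    fw⟩
  · rw [aw]
    exact nw
  · rw [av]
    exact nv
  · show ln g x (jet x w) - ln g x (jet x v) = c
    rw [lw, lv, hc]
  · show ¬ ((arc g x (jet x w)).1 = (arc g x (jet x v)).1 ∧ Periodic (arc g x (jet x w)).1.1 c)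
    rw [aw, av]
    exact hn

end Pool.Agent.Fu
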