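import Mathlib
import Pool.Agent.P.MP_365c00_gt.ZA2
import Pool.Agent.P.MP_365c00_gt.ZA3

/-! Almost every closed geodesic is flat. -/

set_option linter.unusedSectionVars false
set_option linter.unusedVariables false

open Set Filter Topology Metric Function MeasureTheory
open scoped Manifold ContDiff
open Pool.Agent.GeoN

namespace Pool.Agent.Fu

variable {E : Type} [NormedAddCommGroup E] [InnerProductSpace ℝ E] [FiniteDimensional ℝ E]
  {M : Type} [TopologicalSpace M] [ChartedSpace E M] [IsManifold 𝓘(ℝ, E) ∞ M]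
  [T2Space M] [CompactSpace M] [Nonempty M] [Nontrivial E] {g : Met E M}

theorem za7_per {x : M} {y : E × E} (hy : y ∈ TT E x) {τ : ℝ} (hp : Periodic (geo g x y) τ) :
    geo g x y τ ∈ (κ E x).source ∧ κ E x (geo g x y τ) = y.1 ∧ vel E x (geo g x y) τ = y.2 := by
  obtain ⟨-, h0, h1⟩ := geo_spec g x hy.1
  have pτ : geo g x y τ = (κ E x).symm y.1 := by
    rw [← h0]
    simpa using hp 0
  refine ⟨pτ ▸ (κ E x).map_target hy.1, by rw [pτ, (κ E x).right_inv hy.1], ?_⟩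
  have h2 := ChartX.vel_aff (E := E) x (geo g x y) 1 τ 0
  have h3 : (fun s => geo g x y (1 * s + τ)) = geo g x y := funext fun s => by
    rw [one_mul, hp s]
  rw [h3, one_smul, mul_zero, zero_add] at h2
  rw [← h2, h1]

theorem za7_loc {x : M} {y0 : E × E} (hy : y0 ∈ TT E x) {τ0 : ℝ}
    (hp : Periodic (geo g x y0) τ0) :
    ∃ N ∈ 𝓝 (y0, τ0), ∃ (O : Set (E × E)) (T : E × E → ℝ), IsOpen O ∧
      (∀ y ∈ O, y ∈ DD g x x (T y) ∧ DifferentiableAt ℝ T y) ∧
      ∀ z ∈ N, z.1 ∈ O ∧ (Periodic (geo g x z.1) z.2 → z.2 = T z.1) := by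
  obtain ⟨a1, a2, a3⟩ := za7_per hy hp
  set l : E →L[ℝ] ℝ := innerSL ℝ y0.2 with hl
  have l0 : 0 < l (vel E x (geo g x y0) τ0) := by
    rw [a3, hl, innerSL_apply_apply]
    exact real_inner_self_pos.2 hy.2
  have h1 : ∀ᶠ z : (E × E) × ℝ in 𝓝 (y0, τ0), z.1 ∈ TT E x :=
    continuousAt_fst.eventually ((TT_open x).mem_nhds hy)
  have h2 : ∀ᶠ z : (E × E) × ℝ in 𝓝 (y0, τ0), geo g x z.1 z.2 ∈ (κ E x).source :=
    (geo_smooth g x hy.1 τ0).continuousAt.eventually ((source_open x).mem_nhds a1)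
  have h3 : ∀ᶠ z : (E × E) × ℝ in 𝓝 (y0, τ0), 0 < l (vel E x (geo g x z.1) z.2) :=
    (l.continuous.continuousAt.comp (vel_chart hy.1 a1).continuousAt).eventually (lt_mem_nhds l0)
  obtain ⟨c, hc, h⟩ := Metric.eventually_nhds_iff_ball.1 (h1.and (h2.and h3))
  have g1 : ∀ w ∈ ball y0 c, ∀ s ∈ ball τ0 c, w ∈ TT E x ∧ geo g x w s ∈ (κ E x).source ∧
      0 < l (vel E x (geo g x w) s) := fun w hw s hs => h (w, s) (by
    rw [← ball_prod_same]
    exact ⟨hw, hs⟩)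
  have der : ∀ w ∈ TT E x, ∀ s, geo g x w s ∈ (κ E x).source →
      HasDerivAt (fun s => l (κ E x (geo g x w s)) - l w.1) (l (vel E x (geo g x w) s)) s :=
    fun w hw s hs => (l.hasFDerivAt.comp_hasDerivAt s
      (((isGeodesic_iff g _).1 (geo_spec g x hw.1).1 s).hasDerivAt hs)).sub_const (l w.1)
  obtain ⟨r, hr, hrc, T, hT, hT0, hT'⟩ := bbox_ift
    (Φ := fun z : (E × E) × ℝ => l (κ E x (geo g x z.1 z.2)) - l z.1.1)
    (Φ' := fun z => l (vel E x (geo g x z.1) z.2)) (w0 := y0) (τ := τ0) hc one_pos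
    (by simp only [a2, sub_self]) fun w hw s hs => by
      obtain ⟨b1, b2, b3⟩ := g1 w hw s hs
      exact ⟨(l.contDiff.contDiffAt.comp _ (geo_chart b1.1 b2)).sub
        (l.contDiff.contDiffAt.comp _ (contDiffAt_fst.comp _ contDiffAt_fst)), der w b1 s b2, b3⟩
  refine ⟨ball y0 r ×ˢ ball τ0 c, prod_mem_nhds (ball_mem_nhds _ hr) (ball_mem_nhds _ hc),
    ball y0 r, T, isOpen_ball, fun y hy' => ⟨?_, ?_⟩, fun z hz => ⟨hz.1, fun hq => ?_⟩⟩
  · obtain ⟨b1, b2, -⟩ := g1 y (ball_subset_ball hrc hy') _ (hT' y hy').2.1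
    exact ⟨b1, b2⟩
  · exact (hT.contDiffAt (isOpen_ball.mem_nhds hy')).differentiableAt (by simp)
  · have hw := ball_subset_ball hrc hz.1
    have mono : StrictMonoOn (fun s => l (κ E x (geo g x z.1 s)) - l z.1.1) (ball τ0 c) :=
      bbox_mono (f' := fun s => l (vel E x (geo g x z.1) s)) fun s hs => by
        obtain ⟨b1, b2, b3⟩ := g1 z.1 hw s hs
        exact ⟨der z.1 b1 s b2, b3⟩
    refine mono.injOn hz.2 (hT' z.1 hz.1).2.1 (Eq.trans ?_ (hT' z.1 hz.1).2.2.symm)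
    simp only [(za7_per (g1 z.1 hw z.2 hz.2).1 hq).2.1, sub_self]

theorem za7_der {x : M} {y : E × E} {T : E × E → ℝ} (hy : y ∈ DD g x x (T y))
    (hT : DifferentiableAt ℝ T y) :
    HasFDerivAt (fun z : E × E => κ E x (geo g x z (T z)) - z.1)
      ((fderiv ℝ (fun z : (E × E) × ℝ => κ E x (geo g x z.1 z.2)) (y, T y)).comp
        ((ContinuousLinearMap.id ℝ (E × E)).prod (fderiv ℝ T y)) -
          ContinuousLinearMap.fst ℝ E E) y := by
  have hc := ((geo_chart hy.1.1 hy.2).differentiableAt (by simp)).hasFDerivAt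
  exact (HasFDerivAt.comp y (f := fun z : E × E => (z, T z)) hc
    ((hasFDerivAt_id y).prodMk hT.hasFDerivAt)).sub hasFDerivAt_fst

theorem za7_flat {x : M} {y : E × E} {T : E × E → ℝ} (hy : y ∈ DD g x x (T y))
    (hT : DifferentiableAt ℝ T y)
    (h0 : fderiv ℝ (fun z : E × E => κ E x (geo g x z (T z)) - z.1) y = 0) :
    FlatJ g (arc g x y).1 (ln g x y * T y) := by
  refine flat_of_chart hy fun ξ => ⟨-fderiv ℝ T y (0, ξ), ?_⟩
  have hc := (geo_chart hy.1.1 hy.2).differentiableAt (by simp)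
  have h1 := congrArg (fun L : (E × E) →L[ℝ] E => L (0, ξ)) ((za7_der hy hT).fderiv.symm.trans h0)
  have h2 : fderiv ℝ (fun z : (E × E) × ℝ => κ E x (geo g x z.1 z.2)) (y, T y) (0, 1) =
      vel E x (geo g x y) (T y) := VarX.fderiv_snd hc
  have h3 : JC g x x y (T y) ξ =
      fderiv ℝ (fun z : (E × E) × ℝ => κ E x (geo g x z.1 z.2)) (y, T y) ((0, ξ), 0) := by
    have h4 := HasFDerivAt.comp y.2 (f := fun V : E => ((y.1, V), T y)) hc.hasFDerivAt
      (((hasFDerivAt_const y.1 y.2).prodMk (hasFDerivAt_id y.2)).prodMk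
        (hasFDerivAt_const (T y) y.2))
    rw [JC, HasFDerivAt.fderiv (f := fun V => κ E x (geo g x (y.1, V) (T y))) h4]
    simp
  have h5 : (((0, ξ), fderiv ℝ T y (0, ξ)) : (E × E) × ℝ) =
      ((0, ξ), 0) + fderiv ℝ T y (0, ξ) • ((0, 1) : (E × E) × ℝ) := by
    simp
  simp only [_root_.sub_apply, ContinuousLinearMap.comp_apply,
    ContinuousLinearMap.prod_apply, ContinuousLinearMap.id_apply, ContinuousLinearMap.coe_fst',
    sub_zero, _root_.zero_apply] at h1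
  rw [h5, map_add, map_smul, h2, ← h3] at h1
  rw [neg_smul]
  exact eq_neg_of_add_eq_zero_left h1

variable [MeasurableSpace (E × E)] [BorelSpace (E × E)] {μ : Measure (E × E)}
  [μ.IsAddHaarMeasure]

theorem nt_flat : NT g μ {w | ∃ P > 0, Periodic w.1.1 P ∧ ¬ FlatJ g w.1 P} := by
  intro x
  have key := null_cover (μ := μ) (Q := {z : (E × E) × ℝ | z.1 ∈ TT E x ∧
      Periodic (geo g x z.1) z.2 ∧ ¬ FlatJ g (arc g x z.1).1 (ln g x z.1 * z.2)}) Prod.fst
    fun z hz => by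
      obtain ⟨N, hN, O, T, hO, h1, h2⟩ := za7_loc hz.1 hz.2.1
      refine ⟨N, hN, measure_mono_null ?_ (null_zero (μ := μ)
        (X := fun z : E × E => κ E x (geo g x z (T z)) - z.1) hO
        fun y hy => (za7_der (h1 y hy).1 (h1 y hy).2).differentiableAt)⟩
      rintro _ ⟨w, ⟨hw, b1, b2, b3⟩, rfl⟩
      obtain ⟨c1, c2⟩ := h2 w hw
      have c3 := c2 b2
      refine ⟨c1, ?_, fun h0 => b3 ?_⟩
      · show κ E x (geo g x w.1 (T w.1)) - w.1.1 = 0
        rw [← c3, (za7_per b1 b2).2.1, sub_self]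
      · rw [c3]
        exact za7_flat (h1 _ c1).1 (h1 _ c1).2 h0
  refine measure_mono_null ?_ key
  rintro y ⟨a1, a2, P, -, a3, a4⟩
  have hy : y ∈ TT E x := ⟨a1, a2⟩
  have hl := (ln_pos (g := g) hy).ne'
  have e : ln g x y * (P / ln g x y) = P := mul_div_cancel₀ P hl
  refine ⟨(y, P / ln g x y), ⟨hy, fun s => ?_, ?_⟩, rfl⟩
  · show geo g x y (s + P / ln g x y) = geo g x y s
    rw [geo_arc hy, geo_arc hy, mul_add, e]
    exact a3 _
  · show ¬ FlatJ g (arc g x y).1 (ln g x y * (P / ln g x y))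
    rw [e]
    exact a4

end Pool.Agent.Fu
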