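import Mathlib
import Pool.Agent.P.MP_365c00_gt.ZP1

/-! Moore paths: continuity, homotopies of families. -/

set_option linter.unusedSectionVars false
set_option linter.unusedVariables false

open Set Topology Filter Metric

namespace Pool.Agent.Fu

variable {F : Type} [Field F] {M : Type} [MetricSpace M] {Z : Type} [TopologicalSpace Z]

theorem st_cont : Continuous (st : Mo M → M) := by
  unfold st; fun_prop
theorem en_cont : Continuous (en : Mo M → M) := by
  unfold en; fun_prop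
theorem triv_cont : Continuous (triv : M → Mo M) := by
  unfold triv
  exact ContinuousMap.continuous_const'.prodMk continuous_const
theorem seg_cont : Continuous fun z : Mo M × ℝ × ℝ => seg z.1 z.2.1 z.2.2 := by
  unfold seg
  refine Continuous.prodMk ?_ (by fun_prop)
  refine ContinuousMap.continuous_of_continuous_uncurry _ ?_
  show Continuous fun p : (Mo M × ℝ × ℝ) × ℝ =>
    p.1.1.1 (p.1.2.1 + cl (p.1.2.2 - p.1.2.1) p.2)
  unfold cl
  fun_prop
theorem cat_cont : ContinuousOn (fun z : Mo M × Mo M => cat z.1 z.2)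
    {z | IsP z.1 ∧ IsP z.2 ∧ en z.1 = st z.2} := by
  rw [continuousOn_iff_continuous_domRestrict]
  refine Continuous.prodMk ?_ (by fun_prop)
  refine ContinuousMap.continuous_of_continuous_uncurry _ ?_
  have h : Continuous fun p : {z : Mo M × Mo M | IsP z.1 ∧ IsP z.2 ∧ en z.1 = st z.2} × ℝ =>
      if p.2 ≤ p.1.1.1.2 then p.1.1.1.1 p.2 else p.1.1.2.1 (p.2 - p.1.1.1.2) := by
    refine Continuous.if_le (by fun_prop) (by fun_prop) (by fun_prop) (by fun_prop) ?_
    intro p hp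
    rw [hp, sub_self]
    exact p.1.2.2.2
  refine h.congr fun p => ?_
  have h1 : p.1.1.1 ∈ Pa (st p.1.1.1) (en p.1.1.1) := p.1.2.1.mem
  have h2 : p.1.1.2 ∈ Pa (en p.1.1.1) (en p.1.1.2) := ⟨p.1.2.2.1, p.1.2.2.2.symm, rfl⟩
  show _ = (cat p.1.1.1 p.1.1.2).1 p.2
  split_ifs with hp
  · exact (cat_left h1 h2 hp).symm
  · exact (cat_right h1 h2 (le_of_not_ge hp)).symm
theorem cut_cont (n i : ℕ) : Continuous fun ω : Mo M => cut n ω i := by
  have h : Continuous fun ω : Mo M =>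
      ((ω, (i : ℝ) * (ω.2 / ((n : ℝ) + 1)), ((i : ℝ) + 1) * (ω.2 / ((n : ℝ) + 1))) :
        Mo M × ℝ × ℝ) := by fun_prop
  exact seg_cont.comp h
theorem ContinuousOn.cat' {A : Set Z} {f g : Z → Mo M} {x y w : Z → M} (hf : ContinuousOn f A)
    (hg : ContinuousOn g A) (h1 : ∀ z ∈ A, f z ∈ Pa (x z) (y z))
    (h2 : ∀ z ∈ A, g z ∈ Pa (y z) (w z)) : ContinuousOn (fun z => cat (f z) (g z)) A :=
  cat_cont.comp (hf.prodMk hg) fun z hz =>
    ⟨(h1 z hz).1, (h2 z hz).1, (h1 z hz).2.2.trans (h2 z hz).2.1.symm⟩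
theorem ContinuousOn.seg' {A : Set Z} {f : Z → Mo M} {a b : Z → ℝ} (hf : ContinuousOn f A)
    (ha : ContinuousOn a A) (hb : ContinuousOn b A) :
    ContinuousOn (fun z => seg (f z) (a z) (b z)) A :=
  seg_cont.comp_continuousOn (hf.prodMk (ha.prodMk hb))
theorem ContinuousOn.evp {A : Set Z} {f : Z → Mo M} {a : Z → ℝ} (hf : ContinuousOn f A)
    (ha : ContinuousOn a A) : ContinuousOn (fun z => (f z).1 (a z)) A := by
  have h : Continuous fun p : Mo M × ℝ => p.1.1 p.2 := by fun_prop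
  exact h.comp_continuousOn (hf.prodMk ha)

variable {A : Set Z} {x y w : Z → M} {t t' : Z → ℝ} {f g k f' g' : Z → Mo M}

theorem HP.refl (hf : ContinuousOn f A) (h : ∀ z ∈ A, f z ∈ Pa (x z) (y z) ∧ (f z).2 ≤ t z) :
    HP A x y t f f := Htp.refl hf h
theorem HP.symm (h : HP A x y t f g) : HP A x y t g f := Htp.symm h
theorem HP.trans (h : HP A x y t f g) (h' : HP A x y t g k) : HP A x y t f k := Htp.trans h h'
theorem HP.mono (h : HP A x y t f g) (ht : ∀ z ∈ A, t z ≤ t' z) : HP A x y t' f g :=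
  Htp.mono h subset_rfl fun z hz _ hω => ⟨hω.1, hω.2.trans (ht z hz)⟩
theorem HP.congr (h : HP A x y t f g) (hf : EqOn f f' A) (hg : EqOn g g' A) : HP A x y t f' g' := Htp.congr h hf hg
theorem HP.cat (h : HP A x y t f g) (h' : HP A y w t' f' g') :
    HP A x w (fun z => t z + t' z) (fun z => cat (f z) (f' z)) fun z => cat (g z) (g' z) := by
  obtain ⟨H, hH, h0, h1, hR⟩ := h
  obtain ⟨G, hG, g0, g1, gR⟩ := h'
  refine ⟨fun p => Fu.cat (H p) (G p), ?_, fun z hz => ?_, fun z hz => ?_, fun u hu z hz => ?_⟩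
  · exact ContinuousOn.cat' (x := fun p => x p.2) (y := fun p => y p.2) (w := fun p => w p.2)
      hH hG (fun p hp => (hR p.1 hp.1 p.2 hp.2).1) fun p hp => (gR p.1 hp.1 p.2 hp.2).1
  · show Fu.cat (H (0, z)) (G (0, z)) = _
    rw [h0 z hz, g0 z hz]
  · show Fu.cat (H (1, z)) (G (1, z)) = _
    rw [h1 z hz, g1 z hz]
  · exact ⟨cat_mem (hR u hu z hz).1 (gR u hu z hz).1, add_le_add (hR u hu z hz).2 (gR u hu z hz).2⟩

namespace GS
variable (S : GS M)

theorem sg_cont (hx : ContinuousOn x A) (hy : ContinuousOn y A)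
    (h : ∀ z ∈ A, dist (x z) (y z) < S.a) : ContinuousOn (fun z => S.sg (x z) (y z)) A :=
  S.cont.comp (hx.prodMk hy) h
theorem wh_cont (hx : ContinuousOn x A) (hy : ContinuousOn y A) (hf : ContinuousOn f A)
    (h : ∀ z ∈ A, IsP (f z) ∧ dist (x z) (st (f z)) < S.a ∧ dist (en (f z)) (y z) < S.a) :
    ContinuousOn (fun z => S.wh (x z) (y z) (f z)) A := by
  have h1 := st_cont.comp_continuousOn hf
  have h2 := en_cont.comp_continuousOn hf
  refine ContinuousOn.cat' (x := x) (y := fun z => en (f z)) (w := y) ?_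
    (S.sg_cont h2 hy fun z hz => (h z hz).2.2) (fun z hz => ?_) fun z hz => ?_
  · exact ContinuousOn.cat' (x := x) (y := fun z => st (f z)) (w := fun z => en (f z))
      (S.sg_cont hx h1 fun z hz => (h z hz).2.1) hf (fun z hz => S.mem _ _ (h z hz).2.1)
      fun z hz => (h z hz).1.mem
  · exact cat_mem (S.mem _ _ (h z hz).2.1) (h z hz).1.mem
  · exact S.mem _ _ (h z hz).2.2
theorem brk_cont (n : ℕ) {c : Z → ℕ → M} (hc : ContinuousOn c A)
    (h : ∀ z ∈ A, ∀ j < n, dist (c z j) (c z (j + 1)) < S.a) :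
    ContinuousOn (fun z => S.brk n (c z)) A := by
  have hj : ∀ j, ContinuousOn (fun z => c z j) A := fun j =>
    (continuous_apply j).comp_continuousOn hc
  induction n with
  | zero => exact triv_cont.comp_continuousOn (hj 0)
  | succ n ih =>
    have h' : ∀ z ∈ A, ∀ j < n, dist (c z j) (c z (j + 1)) < S.a := fun z hz j hj' =>
      h z hz j (Nat.lt_succ_of_lt hj')
    exact ContinuousOn.cat' (x := fun z => c z 0) (y := fun z => c z n) (w := fun z => c z (n + 1))
      (ih h') (S.sg_cont (hj n) (hj (n + 1)) fun z hz => h z hz n (Nat.lt_succ_self n))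
      (fun z hz => (S.brk_mem n (h' z hz)).1) fun z hz => S.mem _ _ (h z hz n (Nat.lt_succ_self n))

/-- a family of short paths is homotopic to the family of short geodesics -/
theorem hp_short (hf : ContinuousOn f A)
    (h : ∀ z ∈ A, f z ∈ Pa (x z) (y z) ∧ (f z).2 < S.a) :
    HP A x y (fun z => (f z).2) f fun z => S.sg (x z) (y z) := by
  have hF : ContinuousOn (fun p : ℝ × Z => f p.2) (Icc 0 1 ×ˢ A) :=
    hf.comp continuous_snd.continuousOn fun p hp => hp.2
  have hL : ContinuousOn (fun p : ℝ × Z => (f p.2).2) (Icc 0 1 ×ˢ A) :=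
    continuous_snd.comp_continuousOn hF
  have hu : ContinuousOn (fun p : ℝ × Z => p.1 * (f p.2).2) (Icc 0 1 ×ˢ A) :=
    continuous_fst.continuousOn.mul hL
  have hle : ∀ u ∈ Icc (0 : ℝ) 1, ∀ z ∈ A, u * (f z).2 ≤ (f z).2 := fun u hu z hz =>
    mul_le_of_le_one_left (h z hz).1.1.1 hu.2
  have hd : ∀ u ∈ Icc (0 : ℝ) 1, ∀ z ∈ A,
      dist (st (f z)) ((f z).1 (u * (f z).2)) ≤ u * (f z).2 := fun u hu z hz => by
    have h1 := (h z hz).1.1.2.1 0 (u * (f z).2)
    rwa [zero_sub, abs_neg, abs_of_nonneg (mul_nonneg hu.1 (h z hz).1.1.1)] at h1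
  have hs : ∀ u ∈ Icc (0 : ℝ) 1, ∀ z ∈ A,
      dist (st (f z)) ((f z).1 (u * (f z).2)) < S.a := fun u hu z hz =>
    ((hd u hu z hz).trans (hle u hu z hz)).trans_lt (h z hz).2
  refine ⟨fun p => cat (S.sg (st (f p.2)) ((f p.2).1 (p.1 * (f p.2).2)))
    (seg (f p.2) (p.1 * (f p.2).2) (f p.2).2), ?_, fun z hz => ?_, fun z hz => ?_,
    fun u hu z hz => ?_⟩
  · exact ContinuousOn.cat' (x := fun p : ℝ × Z => st (f p.2))
      (y := fun p : ℝ × Z => (f p.2).1 (p.1 * (f p.2).2)) (w := fun p : ℝ × Z => en (f p.2))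
      (S.sg_cont (st_cont.comp_continuousOn hF) (ContinuousOn.evp hF hu)
        fun p hp => hs p.1 hp.1 p.2 hp.2)
      (ContinuousOn.seg' hF hu hL) (fun p hp => S.mem _ _ (hs p.1 hp.1 p.2 hp.2))
      fun p hp => seg_mem (h p.2 hp.2).1.1 (hle p.1 hp.1 p.2 hp.2)
  · show cat (S.sg (st (f z)) ((f z).1 (0 * (f z).2))) (seg (f z) (0 * (f z).2) (f z).2) = f z
    rw [zero_mul, seg_full (h z hz).1.1]
    show cat (S.sg (st (f z)) (st (f z))) (f z) = f z
    rw [S.sg_self]
    exact triv_cat (h z hz).1.1.mem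
  · show cat (S.sg (st (f z)) ((f z).1 (1 * (f z).2))) (seg (f z) (1 * (f z).2) (f z).2) =
      S.sg (x z) (y z)
    rw [one_mul, seg_self]
    show cat (S.sg (st (f z)) (en (f z))) (triv (en (f z))) = S.sg (x z) (y z)
    rw [cat_triv (S.mem _ _ ((h z hz).1.1.dist_le.trans_lt (h z hz).2)), (h z hz).1.2.1,
      (h z hz).1.2.2]
  · refine ⟨?_, ?_⟩
    · have h1 := cat_mem (S.mem _ _ (hs u hu z hz)) (seg_mem (h z hz).1.1 (hle u hu z hz))
      rw [← (h z hz).1.2.1, ← (h z hz).1.2.2]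
      exact h1
    · show (S.sg (st (f z)) ((f z).1 (u * (f z).2))).2 + ((f z).2 - u * (f z).2) ≤ (f z).2
      rw [S.dur _ _ (hs u hu z hz)]
      linarith [hd u hu z hz]

/-- two short geodesics in a row -/
theorem hp_two (hx : ContinuousOn x A) (hy : ContinuousOn y A) (hw : ContinuousOn w A)
    (h : ∀ z ∈ A, dist (x z) (y z) + dist (y z) (w z) < S.a) :
    HP A x w (fun z => dist (x z) (y z) + dist (y z) (w z))
      (fun z => cat (S.sg (x z) (y z)) (S.sg (y z) (w z))) fun z => S.sg (x z) (w z) := by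
  have d1 : ∀ z ∈ A, dist (x z) (y z) < S.a := fun z hz => by
    linarith [h z hz, dist_nonneg (x := y z) (y := w z)]
  have d2 : ∀ z ∈ A, dist (y z) (w z) < S.a := fun z hz => by
    linarith [h z hz, dist_nonneg (x := x z) (y := y z)]
  have e : ∀ z ∈ A, (cat (S.sg (x z) (y z)) (S.sg (y z) (w z))).2 =
      dist (x z) (y z) + dist (y z) (w z) := fun z hz => by
    rw [cat_dur, S.dur _ _ (d1 z hz), S.dur _ _ (d2 z hz)]
  refine HP.mono (S.hp_short (x := x) (y := w) (ContinuousOn.cat' (S.sg_cont hx hy d1)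
    (S.sg_cont hy hw d2) (fun z hz => S.mem _ _ (d1 z hz)) fun z hz => S.mem _ _ (d2 z hz))
    fun z hz => ⟨cat_mem (S.mem _ _ (d1 z hz)) (S.mem _ _ (d2 z hz)), ?_⟩) fun z hz => (e z hz).le
  rw [e z hz]
  exact h z hz

/-- moving the end points twice -/
theorem hp_wh_wh {x' y' : Z → M} (hx : ContinuousOn x A) (hy : ContinuousOn y A)
    (hx' : ContinuousOn x' A) (hy' : ContinuousOn y' A) (hf : ContinuousOn f A)
    (h : ∀ z ∈ A, IsP (f z) ∧ dist (x' z) (x z) + dist (x z) (st (f z)) < S.a ∧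
      dist (en (f z)) (y z) + dist (y z) (y' z) < S.a) :
    HP A x' y' (fun z => (f z).2 + (dist (x' z) (x z) + dist (x z) (st (f z)) +
        (dist (en (f z)) (y z) + dist (y z) (y' z))))
      (fun z => S.wh (x' z) (y' z) (S.wh (x z) (y z) (f z))) fun z => S.wh (x' z) (y' z) (f z) := by
  have c1 := st_cont.comp_continuousOn hf
  have c2 := en_cont.comp_continuousOn hf
  have d1 : ∀ z ∈ A, dist (x' z) (x z) < S.a := fun z hz => by
    linarith [(h z hz).2.1, dist_nonneg (x := x z) (y := st (f z))]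
  have d2 : ∀ z ∈ A, dist (x z) (st (f z)) < S.a := fun z hz => by
    linarith [(h z hz).2.1, dist_nonneg (x := x' z) (y := x z)]
  have d3 : ∀ z ∈ A, dist (en (f z)) (y z) < S.a := fun z hz => by
    linarith [(h z hz).2.2, dist_nonneg (x := y z) (y := y' z)]
  have d4 : ∀ z ∈ A, dist (y z) (y' z) < S.a := fun z hz => by
    linarith [(h z hz).2.2, dist_nonneg (x := en (f z)) (y := y z)]
  have H1 := S.hp_two hx' hx c1 fun z hz => (h z hz).2.1
  have H3 := S.hp_two c2 hy hy' fun z hz => (h z hz).2.2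
  have H2 : HP A (fun z => st (f z)) (fun z => en (f z)) (fun z => (f z).2) f f :=
    HP.refl hf fun z hz => ⟨(h z hz).1.mem, le_rfl⟩
  refine HP.congr (HP.mono ((H1.cat H2).cat H3) fun z hz => le_of_eq ?_) (fun z hz => ?_)
    fun z hz => rfl
  · show _ = (f z).2 + (dist (x' z) (x z) + dist (x z) (st (f z)) +
      (dist (en (f z)) (y z) + dist (y z) (y' z)))
    simp only [Function.comp_apply]
    ring
  · have m := (S.wh_mem (h z hz).1.mem (d2 z hz) (d3 z hz)).1
    have m1 := S.mem _ _ (d1 z hz)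
    have m2 := S.mem _ _ (d2 z hz)
    have m3 := S.mem _ _ (d3 z hz)
    have m4 := S.mem _ _ (d4 z hz)
    have m0 := (h z hz).1.mem
    show cat (cat (cat (S.sg (x' z) (x z)) (S.sg (x z) (st (f z)))) (f z))
        (cat (S.sg (en (f z)) (y z)) (S.sg (y z) (y' z))) =
      cat (cat (S.sg (x' z) (st (S.wh (x z) (y z) (f z)))) (S.wh (x z) (y z) (f z)))
        (S.sg (en (S.wh (x z) (y z) (f z))) (y' z))
    rw [m.2.1, m.2.2]
    unfold wh
    rw [← cat_assoc m1 (cat_mem m2 m0) m3, ← cat_assoc m1 m2 m0,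
      cat_assoc (cat_mem (cat_mem m1 m2) m0) m3 m4]

/-- moving the end points of two composable paths -/
theorem hp_wh_cat (hx : ContinuousOn x A) (hy : ContinuousOn y A) (hw : ContinuousOn w A)
    (hf : ContinuousOn f A) (hg : ContinuousOn g A)
    (h : ∀ z ∈ A, IsP (f z) ∧ IsP (g z) ∧ en (f z) = st (g z) ∧ dist (x z) (st (f z)) < S.a ∧
      2 * dist (en (f z)) (y z) < S.a ∧ dist (en (g z)) (w z) < S.a) :
    HP A x w (fun z => (f z).2 + (g z).2 + (dist (x z) (st (f z)) + 2 * dist (en (f z)) (y z) +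
        dist (en (g z)) (w z)))
      (fun z => cat (S.wh (x z) (y z) (f z)) (S.wh (y z) (w z) (g z)))
      fun z => S.wh (x z) (w z) (cat (f z) (g z)) := by
  have c1 := st_cont.comp_continuousOn hf
  have c2 := en_cont.comp_continuousOn hf
  have c3 := en_cont.comp_continuousOn hg
  have d1 : ∀ z ∈ A, dist (x z) (st (f z)) < S.a := fun z hz => (h z hz).2.2.2.1
  have d2 : ∀ z ∈ A, dist (en (f z)) (y z) < S.a := fun z hz => by
    linarith [(h z hz).2.2.2.2.1, dist_nonneg (x := en (f z)) (y := y z)]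
  have d3 : ∀ z ∈ A, dist (y z) (en (f z)) < S.a := fun z hz => by
    rw [dist_comm]; exact d2 z hz
  have d4 : ∀ z ∈ A, dist (en (g z)) (w z) < S.a := fun z hz => (h z hz).2.2.2.2.2
  have mg : ∀ z ∈ A, g z ∈ Pa (en (f z)) (en (g z)) := fun z hz =>
    ⟨(h z hz).2.1, (h z hz).2.2.1.symm, rfl⟩
  have H1 : HP A x (fun z => st (f z)) (fun z => dist (x z) (st (f z)))
      (fun z => S.sg (x z) (st (f z))) fun z => S.sg (x z) (st (f z)) :=
    HP.refl (S.sg_cont hx c1 d1) fun z hz => ⟨S.mem _ _ (d1 z hz), (S.dur _ _ (d1 z hz)).le⟩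
  have H2 : HP A (fun z => st (f z)) (fun z => en (f z)) (fun z => (f z).2) f f :=
    HP.refl hf fun z hz => ⟨(h z hz).1.mem, le_rfl⟩
  have H3 := S.hp_two c2 hy c2 fun z hz => by
    show dist (en (f z)) (y z) + dist (y z) (en (f z)) < S.a
    rw [dist_comm (y z)]
    linarith [(h z hz).2.2.2.2.1]
  have H4 : HP A (fun z => en (f z)) (fun z => en (g z)) (fun z => (g z).2) g g :=
    HP.refl hg fun z hz => ⟨mg z hz, le_rfl⟩
  have H5 : HP A (fun z => en (g z)) w (fun z => dist (en (g z)) (w z))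
      (fun z => S.sg (en (g z)) (w z)) fun z => S.sg (en (g z)) (w z) :=
    HP.refl (S.sg_cont c3 hw d4) fun z hz => ⟨S.mem _ _ (d4 z hz), (S.dur _ _ (d4 z hz)).le⟩
  refine HP.congr (HP.mono ((((H1.cat H2).cat H3).cat H4).cat H5) fun z hz => le_of_eq ?_)
    (fun z hz => ?_) fun z hz => ?_
  · show _ = (f z).2 + (g z).2 + (dist (x z) (st (f z)) + 2 * dist (en (f z)) (y z) +
      dist (en (g z)) (w z))
    simp only [Function.comp_apply]
    rw [dist_comm (y z)]
    ring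
  · have m1 := S.mem _ _ (d1 z hz)
    have m2 := S.mem _ _ (d2 z hz)
    have m3 := S.mem _ _ (d3 z hz)
    have m4 := S.mem _ _ (d4 z hz)
    have m0 := (h z hz).1.mem
    show cat (cat (cat (cat (S.sg (x z) (st (f z))) (f z))
        (cat (S.sg (en (f z)) (y z)) (S.sg (y z) (en (f z))))) (g z)) (S.sg (en (g z)) (w z)) =
      cat (cat (cat (S.sg (x z) (st (f z))) (f z)) (S.sg (en (f z)) (y z)))
        (cat (cat (S.sg (y z) (st (g z))) (g z)) (S.sg (en (g z)) (w z)))
    rw [← (h z hz).2.2.1, ← cat_assoc (cat_mem (cat_mem m1 m0) m2) (cat_mem m3 (mg z hz)) m4,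
      ← cat_assoc (cat_mem (cat_mem m1 m0) m2) m3 (mg z hz), ← cat_assoc (cat_mem m1 m0) m2 m3]
  · have m1 := S.mem _ _ (d1 z hz)
    have m0 := (h z hz).1.mem
    have m := cat_mem m0 (mg z hz)
    show cat (cat (cat (cat (S.sg (x z) (st (f z))) (f z)) (S.sg (en (f z)) (en (f z)))) (g z))
        (S.sg (en (g z)) (w z)) =
      cat (cat (S.sg (x z) (st (cat (f z) (g z)))) (cat (f z) (g z)))
        (S.sg (en (cat (f z) (g z))) (w z))
    rw [m.2.1, m.2.2, S.sg_self, cat_triv (cat_mem m1 m0), cat_assoc m1 m0 (mg z hz)]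

end GS

end Pool.Agent.Fu
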