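import Mathlib
import Pool.Agent.P.MP_365c00_gt.ZP2

/-! Products and change of end points on chains. -/

set_option linter.unusedSectionVars false
set_option linter.unusedVariables false

open Set Topology Filter Metric

namespace Pool.Agent.Fu

variable {F : Type} [Field F] {M : Type} [MetricSpace M] {Z : Type} [TopologicalSpace Z]

variable {x y z w x' y' z' : M} {A A' B B' C C' : Set (Mo M)} {a b c : Ch F (Mo M)}

theorem mul_apply (a b : Ch F (Mo M)) :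
    mul a b = mp (fun z : Mo M × Mo M => cat z.1 z.2) (cross a b) := rfl
theorem cat_contOn (hA : A ⊆ Pa x y) (hB : B ⊆ Pa y z) :
    ContinuousOn (fun z : Mo M × Mo M => cat z.1 z.2) (A ×ˢ B) := by
  refine cat_cont.mono fun q hq => ?_
  obtain ⟨h1, -, h2⟩ := hA hq.1
  obtain ⟨h3, h4, -⟩ := hB hq.2
  exact ⟨h1, h3, h2.trans h4.symm⟩
theorem mul_mem_HD {j k : ℕ} (ha : a ∈ HD F _ j) (hb : b ∈ HD F _ k) : mul a b ∈ HD F _ (j + k) := by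
  exact mp_mem_HD _ (cross_mem_HD ha hb)
theorem mul_mem_CC (h : ∀ α ∈ A, ∀ β ∈ B, cat α β ∈ C) (ha : a ∈ CC F A) (hb : b ∈ CC F B) :
    mul a b ∈ CC F C := by
  exact mp_mem_CC (fun q hq => h q.1 hq.1 q.2 hq.2) (cross_mem_CC ha hb)
theorem bd_mul (ha : a ∈ CC F (Pa x y)) (hb : b ∈ CC F (Pa y z)) :
    bd (mul a b) = mul (bd a) b + mul (om a) (bd b) := by
  rw [mul_apply, bd_mp (cat_contOn subset_rfl subset_rfl) (cross_mem_CC ha hb), bd_cross, map_add]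
  rfl
theorem mul_assoc' (ha : a ∈ CC F (Pa x y)) (hb : b ∈ CC F (Pa y z)) (hc : c ∈ CC F (Pa z w)) :
    mul (mul a b) c = mul a (mul b c) := by
  have h1 := cat_contOn (subset_refl (Pa x y)) (subset_refl (Pa y z))
  have h2 := cat_contOn (subset_refl (Pa y z)) (subset_refl (Pa z w))
  have h3 := cat_contOn (subset_refl (Pa x z)) (subset_refl (Pa z w))
  have h4 := cat_contOn (subset_refl (Pa x y)) (subset_refl (Pa y w))
  have e1 := cross_mp h1 continuousOn_id (cross_mem_CC ha hb) hc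
  have e2 := cross_mp continuousOn_id h2 ha (cross_mem_CC hb hc)
  rw [mp_id] at e1 e2
  have hm := cross_mem_CC (cross_mem_CC ha hb) hc
  have h5 : ContinuousOn ((fun z : Mo M × Mo M => cat z.1 z.2) ∘
      Prod.map id fun z : Mo M × Mo M => cat z.1 z.2) (Pa x y ×ˢ Pa y z ×ˢ Pa z w) :=
    h4.comp (continuousOn_id.prodMap h2) fun q hq => ⟨hq.1, cat_mem hq.2.1 hq.2.2⟩
  rw [mul_apply (mul a b), mul_apply a (mul b c), mul_apply a b, mul_apply b c, e1, e2,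
    mp_mp (h1.prodMap continuousOn_id) h3 (fun q hq => ⟨cat_mem hq.1.1 hq.1.2, hq.2⟩) hm,
    mp_mp (continuousOn_id.prodMap h2) h4 (fun q hq => ⟨hq.1, cat_mem hq.2.1 hq.2.2⟩)
      (cross_mem_CC ha (cross_mem_CC hb hc)), ← cross_assoc,
    mp_map _ _ h5]
  · exact mp_congr (fun q hq => cat_assoc hq.1.1 hq.1.2 hq.2) hm
  · refine CC_mono ?_ hm
    exact fun q hq => ⟨hq.1.1, hq.1.2, hq.2⟩
theorem mul_pt_left {γ : Mo M} (hγ : γ ∈ Pa x y) (hb : b ∈ CC F (Pa y z)) :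
    mul (pt γ) b = mp (cat γ) b := by
  rw [mul_apply, cross_pt, mp_map _ _ (cat_contOn (subset_refl (Pa x y)) (subset_refl (Pa y z)))]
  · rfl
  · refine CC_mono ?_ hb
    exact fun q hq => ⟨hγ, hq⟩
theorem mul_pt_right {γ : Mo M} (ha : a ∈ CC F (Pa x y)) (hγ : γ ∈ Pa y z) :
    mul a (pt γ) = mp (fun α => cat α γ) a := by
  rw [mul_apply, cross_pt_right,
    mp_map _ _ (cat_contOn (subset_refl (Pa x y)) (subset_refl (Pa y z)))]
  · rfl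
  · refine CC_mono ?_ ha
    exact fun q hq => ⟨hq, hγ⟩
theorem mul_mem_ZZ (hA : A ⊆ Pa x y) (hB : B ⊆ Pa y z) (h : ∀ α ∈ A, ∀ β ∈ B, cat α β ∈ C)
    (h1 : ∀ α ∈ A ∩ A', ∀ β ∈ B, cat α β ∈ C') (h2 : ∀ α ∈ A, ∀ β ∈ B ∩ B', cat α β ∈ C')
    (ha : a ∈ ZZ F A A') (hb : b ∈ ZZ F B B') : mul a b ∈ ZZ F C C' := by
  refine mp_mem_ZZ (cat_contOn hA hB) (fun q hq => h q.1 hq.1 q.2 hq.2) ?_ (cross_mem_ZZ ha hb)
  rintro q ⟨hq, hq' | hq'⟩
  · exact h1 q.1 ⟨hq.1, hq'.1⟩ q.2 hq.2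
  · exact h2 q.1 hq.1 q.2 ⟨hq.2, hq'.2⟩
theorem zp3_ZZ (hb : b ∈ ZZ F B B') : b ∈ ZZ F B (B ∩ B') := by
  refine ⟨hb.1, ?_⟩
  show bd b ∈ CC F (B ∩ B')
  rw [CC_inter]
  exact ⟨bd_mem_CC hb.1, hb.2⟩
theorem mul_NN_left (hA : A ⊆ Pa x y) (hB : B ⊆ Pa y z) (hA' : A' ⊆ A)
    (h : ∀ α ∈ A, ∀ β ∈ B, cat α β ∈ C)
    (h1 : ∀ α ∈ A', ∀ β ∈ B, cat α β ∈ C') (h2 : ∀ α ∈ A, ∀ β ∈ B ∩ B', cat α β ∈ C')
    (ha : a ∈ NN F A A') (hb : b ∈ ZZ F B B') : mul a b ∈ NN F C C' := by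
  refine mp_mem_NN (cat_contOn hA hB) (fun q hq => h q.1 hq.1 q.2 hq.2) ?_
    (cross_NN_left ha (zp3_ZZ hb))
  rintro q (hq | hq)
  · exact h1 q.1 hq.1 q.2 hq.2
  · exact h2 q.1 hq.1 q.2 hq.2
theorem mul_NN_right (hA : A ⊆ Pa x y) (hB : B ⊆ Pa y z) (hB' : B' ⊆ B)
    (h : ∀ α ∈ A, ∀ β ∈ B, cat α β ∈ C)
    (h1 : ∀ α ∈ A ∩ A', ∀ β ∈ B, cat α β ∈ C') (h2 : ∀ α ∈ A, ∀ β ∈ B', cat α β ∈ C')
    (ha : a ∈ ZZ F A A') (hb : b ∈ NN F B B') : mul a b ∈ NN F C C' := by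
  refine mp_mem_NN (cat_contOn hA hB) (fun q hq => h q.1 hq.1 q.2 hq.2) ?_
    (cross_NN_right (zp3_ZZ ha) hb)
  rintro q (hq | hq)
  · exact h1 q.1 hq.1 q.2 hq.2
  · exact h2 q.1 hq.1 q.2 hq.2

theorem zp3_Om {s t r : ℝ} {α β : Mo M} (hα : α ∈ Om x y s) (hβ : β ∈ Om y z t) (h : s + t ≤ r) :
    cat α β ∈ Om x z r :=
  ⟨cat_mem hα.1 hβ.1, (add_lt_add hα.2 hβ.2).trans_le h⟩
/-- the versions with levels -/
theorem mul_Om_ZZ {s s' t t' r r' : ℝ} (ha : a ∈ ZZ F (Om x y s) (Om x y s'))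
    (hb : b ∈ ZZ F (Om y z t) (Om y z t')) (h : s + t ≤ r) (h1 : s' + t ≤ r') (h2 : s + t' ≤ r') :
    mul a b ∈ ZZ F (Om x z r) (Om x z r') := by
  exact mul_mem_ZZ (Om_sub _ _ _) (Om_sub _ _ _) (fun _ p _ q => zp3_Om p q h)
    (fun _ p _ q => zp3_Om p.2 q h1) (fun _ p _ q => zp3_Om p q.2 h2) ha hb
theorem mul_Om_left {s s' t t' r r' : ℝ} (hs : s' ≤ s) (ha : a ∈ NN F (Om x y s) (Om x y s'))
    (hb : b ∈ ZZ F (Om y z t) (Om y z t')) (h : s + t ≤ r) (h1 : s' + t ≤ r') (h2 : s + t' ≤ r') :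
    mul a b ∈ NN F (Om x z r) (Om x z r') := by
  exact mul_NN_left (Om_sub _ _ _) (Om_sub _ _ _) (Om_mono _ _ hs) (fun _ p _ q => zp3_Om p q h)
    (fun _ p _ q => zp3_Om p q h1) (fun _ p _ q => zp3_Om p q.2 h2) ha hb
theorem mul_Om_right {s s' t t' r r' : ℝ} (ht : t' ≤ t) (ha : a ∈ ZZ F (Om x y s) (Om x y s'))
    (hb : b ∈ NN F (Om y z t) (Om y z t')) (h : s + t ≤ r) (h1 : s' + t ≤ r') (h2 : s + t' ≤ r') :
    mul a b ∈ NN F (Om x z r) (Om x z r') := by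
  exact mul_NN_right (Om_sub _ _ _) (Om_sub _ _ _) (Om_mono _ _ ht) (fun _ p _ q => zp3_Om p q h)
    (fun _ p _ q => zp3_Om p.2 q h1) (fun _ p _ q => zp3_Om p q h2) ha hb
/-- cycles -/
theorem mul_cyc {s t : ℝ} (ha : a ∈ ZZ F (Om x y s) ∅) (hb : b ∈ ZZ F (Om y z t) ∅) :
    mul a b ∈ ZZ F (Om x z (s + t)) ∅ := by
  exact mul_mem_ZZ (Om_sub _ _ _) (Om_sub _ _ _) (fun _ p _ q => zp3_Om p q le_rfl)
    (fun _ p _ _ => p.2.elim) (fun _ _ _ q => q.2.elim) ha hb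
theorem mul_BB_left {s t : ℝ} (ha : a ∈ BB F (Om x y s)) (hb : b ∈ ZZ F (Om y z t) ∅) :
    mul a b ∈ BB F (Om x z (s + t)) := by
  rw [← NN_empty] at ha ⊢
  exact mul_NN_left (Om_sub _ _ _) (Om_sub _ _ _) (empty_subset _)
    (fun _ p _ q => zp3_Om p q le_rfl) (fun _ p _ _ => p.elim) (fun _ _ _ q => q.2.elim) ha hb
theorem mul_BB_right {s t : ℝ} (ha : a ∈ ZZ F (Om x y s) ∅) (hb : b ∈ BB F (Om y z t)) :
    mul a b ∈ BB F (Om x z (s + t)) := by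
  rw [← NN_empty] at hb ⊢
  exact mul_NN_right (Om_sub _ _ _) (Om_sub _ _ _) (empty_subset _)
    (fun _ p _ q => zp3_Om p q le_rfl) (fun _ p _ _ => p.2.elim) (fun _ _ _ q => q.elim) ha hb
/-- a cycle times a relative cycle -/
theorem mul_cyc_ZZ {s t t' : ℝ} (ha : a ∈ ZZ F (Om x y s) ∅)
    (hb : b ∈ ZZ F (Om y z t) (Om y z t')) : mul a b ∈ ZZ F (Om x z (s + t)) (Om x z (s + t')) := by
  exact mul_mem_ZZ (Om_sub _ _ _) (Om_sub _ _ _) (fun _ p _ q => zp3_Om p q le_rfl)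
    (fun _ p _ _ => p.2.elim) (fun _ p _ q => zp3_Om p q.2 le_rfl) ha hb
theorem mul_cyc_NN {s t t' : ℝ} (ht : t' ≤ t) (ha : a ∈ ZZ F (Om x y s) ∅)
    (hb : b ∈ NN F (Om y z t) (Om y z t')) : mul a b ∈ NN F (Om x z (s + t)) (Om x z (s + t')) := by
  exact mul_NN_right (Om_sub _ _ _) (Om_sub _ _ _) (Om_mono _ _ ht)
    (fun _ p _ q => zp3_Om p q le_rfl) (fun _ p _ _ => p.2.elim)
    (fun _ p _ q => zp3_Om p q le_rfl) ha hb
theorem mul_BB_ZZ {s t t' : ℝ} (ha : a ∈ BB F (Om x y s))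
    (hb : b ∈ ZZ F (Om y z t) (Om y z t')) : mul a b ∈ NN F (Om x z (s + t)) (Om x z (s + t')) := by
  rw [← NN_empty] at ha
  exact mul_NN_left (Om_sub _ _ _) (Om_sub _ _ _) (empty_subset _)
    (fun _ p _ q => zp3_Om p q le_rfl) (fun _ p _ _ => p.elim)
    (fun _ p _ q => zp3_Om p q.2 le_rfl) ha hb
theorem mul_Pa (ha : a ∈ ZZ F (Pa x y) ∅) (hb : b ∈ ZZ F (Pa y z) ∅) : mul a b ∈ ZZ F (Pa x z) ∅ := by
  exact mul_mem_ZZ subset_rfl subset_rfl (fun _ p _ q => cat_mem p q)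
    (fun _ p _ _ => p.2.elim) (fun _ _ _ q => q.2.elim) ha hb
theorem mul_Pa_left (ha : a ∈ BB F (Pa x y)) (hb : b ∈ ZZ F (Pa y z) ∅) : mul a b ∈ BB F (Pa x z) := by
  rw [← NN_empty] at ha ⊢
  exact mul_NN_left subset_rfl subset_rfl (empty_subset _) (fun _ p _ q => cat_mem p q)
    (fun _ p _ _ => p.elim) (fun _ _ _ q => q.2.elim) ha hb
theorem mul_Pa_right (ha : a ∈ ZZ F (Pa x y) ∅) (hb : b ∈ BB F (Pa y z)) :
    mul a b ∈ BB F (Pa x z) := by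
  rw [← NN_empty] at hb ⊢
  exact mul_NN_right subset_rfl subset_rfl (empty_subset _) (fun _ p _ q => cat_mem p q)
    (fun _ p _ _ => p.2.elim) (fun _ _ _ q => q.elim) ha hb
theorem exists_Om (ha : a ∈ CC F (Pa x y)) : ∃ t, a ∈ CC F (Om x y t) := by
  exact exists_level_top continuous_snd.continuousOn ha
theorem exists_Om_lt {t : ℝ} (ha : a ∈ CC F (Om x y t)) : ∃ s < t, a ∈ CC F (Om x y s) := by
  exact exists_level (A := Pa x y) continuous_snd.continuousOn ha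
theorem BB_Pa_iff : a ∈ BB F (Pa x y) ↔ ∃ t, a ∈ BB F (Om x y t) := by
  constructor
  · rintro ⟨h, hh, rfl⟩
    obtain ⟨t, ht⟩ := exists_Om hh
    exact ⟨t, h, ht, rfl⟩
  · rintro ⟨t, ht⟩
    exact BB_mono (Om_sub _ _ _) ht

theorem pwr_mem (n : ℕ) (ha : a ∈ ZZ F (Pa x x) ∅) : pwr n a ∈ ZZ F (Pa x x) ∅ := by
  induction n with
  | zero => exact ha
  | succ n ih => exact mul_Pa ih ha
theorem pwr_HD (n : ℕ) {k : ℕ} (ha : a ∈ HD F _ k) : pwr n a ∈ HD F _ ((n + 1) * k) := by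
  induction n with
  | zero =>
    rw [zero_add, one_mul]
    exact ha
  | succ n ih =>
    rw [add_mul (n + 1), one_mul]
    exact mul_mem_HD ih ha
theorem pwr_add (m n : ℕ) (ha : a ∈ ZZ F (Pa x x) ∅) :
    pwr (m + n + 1) a = mul (pwr m a) (pwr n a) := by
  induction n with
  | zero => rfl
  | succ n ih =>
    show mul (pwr (m + n + 1) a) a = mul (pwr m a) (mul (pwr n a) a)
    rw [ih, mul_assoc' (pwr_mem m ha).1 (pwr_mem n ha).1 ha.1]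
theorem pwr_pwr (m n : ℕ) (ha : a ∈ ZZ F (Pa x x) ∅) :
    pwr m (pwr n a) = pwr (m * (n + 1) + n) a := by
  induction m with
  | zero =>
    rw [zero_mul, zero_add]
    rfl
  | succ m ih =>
    have e : (m + 1) * (n + 1) + n = m * (n + 1) + n + n + 1 := by ring
    rw [e, pwr_add _ _ ha, ← ih]
    rfl
theorem pwr_smul (n : ℕ) (r : F) (a : Ch F (Mo M)) : pwr n (r • a) = r ^ (n + 1) • pwr n a := by
  induction n with
  | zero =>
    rw [zero_add, pow_one]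
    rfl
  | succ n ih =>
    show mul (pwr n (r • a)) (r • a) = r ^ (n + 1 + 1) • mul (pwr n a) a
    rw [ih, map_smul, map_smul, LinearMap.smul_apply, smul_smul, ← pow_succ']
theorem pwr_congr (n : ℕ) (ha : a ∈ ZZ F (Pa x x) ∅) (hb : b ∈ ZZ F (Pa x x) ∅)
    (h : a - b ∈ BB F (Pa x x)) : pwr n a - pwr n b ∈ BB F (Pa x x) := by
  induction n with
  | zero => exact h
  | succ n ih =>
    have e : pwr (n + 1) a - pwr (n + 1) b =
        mul (pwr n a - pwr n b) a + mul (pwr n b) (a - b) := by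
      show mul (pwr n a) a - mul (pwr n b) b = _
      rw [map_sub, map_sub, LinearMap.sub_apply]
      abel
    rw [e]
    exact Submodule.add_mem _ (mul_Pa_left ih ha) (mul_Pa_right (pwr_mem n hb) h)

end Pool.Agent.Fu
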