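import Mathlib
import Pool.Agent.P.MP_365c00_gt.ZP3

/-! Change of end points on chains. -/

set_option linter.unusedSectionVars false
set_option linter.unusedVariables false

open Set Topology Filter Metric

namespace Pool.Agent.Fu

variable {F : Type} [Field F] {M : Type} [MetricSpace M] {Z : Type} [TopologicalSpace Z]

variable {x y z x' y' z' x'' y'' : M} {a b : Ch F (Mo M)} (S : GS M)

namespace GS

theorem wh_contOn (hx : dist x' x < S.a) (hy : dist y y' < S.a) :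
    ContinuousOn (S.wh x' y') (Pa x y) :=
  S.wh_cont (A := Pa x y) (x := fun _ => x') (y := fun _ => y') (f := fun γ => γ)
    continuousOn_const continuousOn_const continuousOn_id
    fun γ h => ⟨h.1, by rw [h.2.1]; exact hx, by rw [h.2.2]; exact hy⟩

theorem zp4_Pa (hx : dist x' x < S.a) (hy : dist y y' < S.a) :
    MapsTo (S.wh x' y') (Pa x y) (Pa x' y') := fun γ h => (S.wh_mem h hx hy).1

theorem zp4_Om (hx : dist x' x < S.a) (hy : dist y y' < S.a) {t r : ℝ}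
    (h : t + (dist x' x + dist y y') ≤ r) : MapsTo (S.wh x' y') (Om x y t) (Om x' y' r) :=
  fun γ hγ => ⟨(S.wh_mem hγ.1 hx hy).1, by
    rw [(S.wh_mem hγ.1 hx hy).2]
    linarith [hγ.2]⟩

theorem zp4_ww (hx : dist x'' x' + dist x' x < S.a) (hy : dist y y' + dist y' y'' < S.a)
    {A B A' B' : Set (Mo M)} (hA0 : A ⊆ Pa x y)
    (hA : ∀ γ ∈ A, ∀ ω ∈ Pa x'' y'',
      ω.2 ≤ γ.2 + (dist x'' x' + dist x' x + (dist y y' + dist y' y'')) → ω ∈ A')
    (hB : ∀ γ ∈ A ∩ B, ∀ ω ∈ Pa x'' y'',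
      ω.2 ≤ γ.2 + (dist x'' x' + dist x' x + (dist y y' + dist y' y'')) → ω ∈ B')
    (ha : a ∈ ZZ F A B) :
    mp (S.wh x'' y'') (mp (S.wh x' y') a) - mp (S.wh x'' y'') a ∈ NN F A' B' := by
  have d1 : dist x' x < S.a := by linarith [dist_nonneg (x := x'') (y := x')]
  have d2 : dist x'' x' < S.a := by linarith [dist_nonneg (x := x') (y := x)]
  have d3 : dist y y' < S.a := by linarith [dist_nonneg (x := y') (y := y'')]
  have d4 : dist y' y'' < S.a := by linarith [dist_nonneg (x := y) (y := y')]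
  have H := S.hp_wh_wh (A := Pa x y) (x := fun _ => x') (y := fun _ => y') (x' := fun _ => x'')
    (y' := fun _ => y'') (f := fun γ => γ) continuousOn_const continuousOn_const
    continuousOn_const continuousOn_const continuousOn_id
    fun γ h => ⟨h.1, by rw [h.2.1]; exact hx, by rw [h.2.2]; exact hy⟩
  rw [mp_mp ((S.wh_contOn d1 d3).mono hA0) (S.wh_contOn d2 d4)
    ((S.zp4_Pa d1 d3).mono_left hA0) (mem_ZZ.1 ha).1]
  refine Htp.NN H.symm hA0 (fun γ h ω hω => hA γ h ω hω.1 ?_) (fun γ h ω hω => hB γ h ω hω.1 ?_) ha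
  · have := hω.2
    simp only [(hA0 h).2.1, (hA0 h).2.2] at this
    exact this
  · have := hω.2
    simp only [(hA0 h.1).2.1, (hA0 h.1).2.2] at this
    exact this

theorem zp4_mul (hx : dist x' x < S.a) (hy : 2 * dist y y' < S.a) (hz : dist z z' < S.a)
    {A B B0 C C' : Set (Mo M)} (hA0 : A ⊆ Pa x y) (hB0 : B ⊆ Pa y z)
    (hC : ∀ α ∈ A, ∀ β ∈ B, ∀ ω ∈ Pa x' z',
      ω.2 ≤ α.2 + β.2 + (dist x' x + 2 * dist y y' + dist z z') → ω ∈ C)
    (hC' : ∀ α ∈ A, ∀ β ∈ B ∩ B0, ∀ ω ∈ Pa x' z',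
      ω.2 ≤ α.2 + β.2 + (dist x' x + 2 * dist y y' + dist z z') → ω ∈ C')
    (ha : a ∈ ZZ F A ∅) (hb : b ∈ ZZ F B B0) :
    mul (mp (S.wh x' y') a) (mp (S.wh y' z') b) - mp (S.wh x' z') (mul a b) ∈ NN F C C' := by
  have d1 : dist y y' < S.a := by linarith [dist_nonneg (x := y) (y := y')]
  have d2 : dist y' y < S.a := by rwa [dist_comm]
  have H := S.hp_wh_cat (A := Pa x y ×ˢ Pa y z) (x := fun _ => x') (y := fun _ => y')
    (w := fun _ => z') (f := fun q : Mo M × Mo M => q.1) (g := fun q => q.2)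
    continuousOn_const continuousOn_const continuousOn_const continuousOn_fst continuousOn_snd
    fun q h => ⟨h.1.1, h.2.1, by rw [h.1.2.2, h.2.2.1], by rw [h.1.2.1]; exact hx,
      by rw [h.1.2.2]; exact hy, by rw [h.2.2.2]; exact hz⟩
  have ha' : a ∈ CC F (Pa x y) := CC_mono hA0 (mem_ZZ.1 ha).1
  have hb' : b ∈ CC F (Pa y z) := CC_mono hB0 (mem_ZZ.1 hb).1
  have hab := cross_mem_CC ha' hb'
  rw [mul_apply, mul_apply, cross_mp (S.wh_contOn hx d1) (S.wh_contOn d2 hz) ha' hb',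
    mp_mp ((S.wh_contOn hx d1).prodMap (S.wh_contOn d2 hz))
      (cat_contOn (subset_refl (Pa x' y')) (subset_refl (Pa y' z')))
      ((S.zp4_Pa hx d1).prodMap (S.zp4_Pa d2 hz)) hab,
    mp_mp (cat_contOn (subset_refl (Pa x y)) (subset_refl (Pa y z))) (S.wh_contOn hx hz)
      (fun q h => cat_mem h.1 h.2) hab]
  refine Htp.NN H.symm (prod_mono hA0 hB0) (fun q h ω hω => hC _ h.1 _ h.2 ω hω.1 ?_)
    (fun q h ω hω => hC' _ h.1.1 _ ⟨h.1.2, ?_⟩ ω hω.1 ?_) (cross_mem_ZZ ha hb)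
  · have := hω.2
    simp only [(hA0 h.1).2.1, (hA0 h.1).2.2, (hB0 h.2).2.2] at this
    exact this
  · rcases h.2 with h2 | h2
    · exact absurd h2.1 (notMem_empty _)
    · exact h2.2
  · have := hω.2
    simp only [(hA0 h.1.1).2.1, (hA0 h.1.1).2.2, (hB0 h.1.2).2.2] at this
    exact this

theorem wh_ZZ (hx : dist x' x < S.a) (hy : dist y y' < S.a) {t t' r r' : ℝ}
    (h : t + (dist x' x + dist y y') ≤ r) (h' : t' + (dist x' x + dist y y') ≤ r')
    (ha : a ∈ ZZ F (Om x y t) (Om x y t')) : mp (S.wh x' y') a ∈ ZZ F (Om x' y' r) (Om x' y' r') :=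
  mp_mem_ZZ ((S.wh_contOn hx hy).mono (Om_sub x y t)) (S.zp4_Om hx hy h)
    ((S.zp4_Om hx hy h').mono_left inter_subset_right) ha
theorem wh_NN (hx : dist x' x < S.a) (hy : dist y y' < S.a) {t t' r r' : ℝ} (ht : t' ≤ t)
    (h : t + (dist x' x + dist y y') ≤ r) (h' : t' + (dist x' x + dist y y') ≤ r')
    (ha : a ∈ NN F (Om x y t) (Om x y t')) : mp (S.wh x' y') a ∈ NN F (Om x' y' r) (Om x' y' r') :=
  mp_mem_NN ((S.wh_contOn hx hy).mono (Om_sub x y t)) (S.zp4_Om hx hy h) (S.zp4_Om hx hy h') ha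
theorem wh_cyc (hx : dist x' x < S.a) (hy : dist y y' < S.a) {t r : ℝ}
    (h : t + (dist x' x + dist y y') ≤ r) (ha : a ∈ ZZ F (Om x y t) ∅) :
    mp (S.wh x' y') a ∈ ZZ F (Om x' y' r) ∅ :=
  mp_mem_ZZ ((S.wh_contOn hx hy).mono (Om_sub x y t)) (S.zp4_Om hx hy h)
    (fun _ h => h.2) ha
theorem wh_BB (hx : dist x' x < S.a) (hy : dist y y' < S.a) {t r : ℝ}
    (h : t + (dist x' x + dist y y') ≤ r) (ha : a ∈ BB F (Om x y t)) :
    mp (S.wh x' y') a ∈ BB F (Om x' y' r) :=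
  mp_mem_BB ((S.wh_contOn hx hy).mono (Om_sub x y t)) (S.zp4_Om hx hy h) ha
theorem wh_Pa (hx : dist x' x < S.a) (hy : dist y y' < S.a) (ha : a ∈ ZZ F (Pa x y) ∅) :
    mp (S.wh x' y') a ∈ ZZ F (Pa x' y') ∅ :=
  mp_mem_ZZ (S.wh_contOn hx hy) (S.zp4_Pa hx hy) (fun _ h => h.2) ha
theorem wh_BB_Pa (hx : dist x' x < S.a) (hy : dist y y' < S.a) (ha : a ∈ BB F (Pa x y)) :
    mp (S.wh x' y') a ∈ BB F (Pa x' y') :=
  mp_mem_BB (S.wh_contOn hx hy) (S.zp4_Pa hx hy) ha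
theorem mp_wh_self (ha : a ∈ CC F (Pa x y)) : mp (S.wh x y) a = a :=
  mp_eq_self (fun _ h => S.wh_self h) ha
/-- there and back -/
theorem wh_back (hx : 2 * dist x' x < S.a) (hy : 2 * dist y y' < S.a) {t t' r r' : ℝ}
    (h : t + 2 * (dist x' x + dist y y') ≤ r) (h' : t' + 2 * (dist x' x + dist y y') ≤ r')
    (ha : a ∈ ZZ F (Om x y t) (Om x y t')) :
    mp (S.wh x y) (mp (S.wh x' y') a) - a ∈ NN F (Om x y r) (Om x y r') := by
  have e1 := dist_comm x x'
  have e2 := dist_comm y' y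
  have := S.zp4_ww (x'' := x) (y'' := y) (x' := x') (y' := y') (by linarith) (by linarith)
    (Om_sub x y t) (A' := Om x y r) (B' := Om x y r')
    (fun γ hγ ω hω hl => ⟨hω, by linarith [hγ.2]⟩)
    (fun γ hγ ω hω hl => ⟨hω, by linarith [hγ.2.2]⟩) ha
  rwa [S.mp_wh_self (CC_mono (Om_sub x y t) (mem_ZZ.1 ha).1)] at this
theorem wh_back_cyc (hx : 2 * dist x' x < S.a) (hy : 2 * dist y y' < S.a) {t r : ℝ}
    (h : t + 2 * (dist x' x + dist y y') ≤ r) (ha : a ∈ ZZ F (Om x y t) ∅) :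
    mp (S.wh x y) (mp (S.wh x' y') a) - a ∈ BB F (Om x y r) := by
  have e1 := dist_comm x x'
  have e2 := dist_comm y' y
  have := S.zp4_ww (x'' := x) (y'' := y) (x' := x') (y' := y') (by linarith) (by linarith)
    (Om_sub x y t) (A' := Om x y r) (B' := ∅)
    (fun γ hγ ω hω hl => ⟨hω, by linarith [hγ.2]⟩) (fun γ hγ ω hω hl => hγ.2) ha
  rwa [S.mp_wh_self (CC_mono (Om_sub x y t) (mem_ZZ.1 ha).1), NN_empty] at this
/-- a cycle that bounds near by bounds -/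
theorem BB_of_wh (hx : 2 * dist x' x < S.a) (hy : 2 * dist y y' < S.a) {t t' r : ℝ}
    (h : t + 2 * (dist x' x + dist y y') ≤ r) (h' : t' + (dist x' x + dist y y') ≤ r)
    (ha : a ∈ ZZ F (Om x y t) ∅) (hb : mp (S.wh x' y') a ∈ BB F (Om x' y' t')) :
    a ∈ BB F (Om x y r) := by
  have e1 := dist_comm x x'
  have e2 := dist_comm y' y
  have n1 := dist_nonneg (x := x') (y := x)
  have n2 := dist_nonneg (x := y) (y := y')
  have h1 := S.wh_back_cyc hx hy h ha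
  have h2 := S.wh_BB (x := x') (y := y') (x' := x) (y' := y) (r := r) (by linarith) (by linarith)
    (by linarith) hb
  have := Submodule.sub_mem _ h2 h1
  rwa [sub_sub_cancel] at this
theorem BB_of_wh_Pa (hx : 2 * dist x' x < S.a) (hy : 2 * dist y y' < S.a)
    (ha : a ∈ ZZ F (Pa x y) ∅) (hb : mp (S.wh x' y') a ∈ BB F (Pa x' y')) : a ∈ BB F (Pa x y) := by
  have e1 := dist_comm x x'
  have e2 := dist_comm y' y
  have n1 := dist_nonneg (x := x') (y := x)
  have n2 := dist_nonneg (x := y) (y := y')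
  have h1 := S.zp4_ww (x'' := x) (y'' := y) (x' := x') (y' := y') (by linarith) (by linarith)
    (subset_refl (Pa x y)) (A' := Pa x y) (B' := ∅)
    (fun γ hγ ω hω hl => hω) (fun γ hγ ω hω hl => hγ.2) ha
  rw [S.mp_wh_self (mem_ZZ.1 ha).1, NN_empty] at h1
  have h2 := S.wh_BB_Pa (x := x') (y := y') (x' := x) (y' := y) (by linarith) (by linarith) hb
  have := Submodule.sub_mem _ h2 h1
  rwa [sub_sub_cancel] at this
theorem wh_wh_Pa (hx : dist x'' x' + dist x' x < S.a) (hy : dist y y' + dist y' y'' < S.a)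
    (ha : a ∈ ZZ F (Pa x y) ∅) :
    mp (S.wh x'' y'') (mp (S.wh x' y') a) - mp (S.wh x'' y'') a ∈ BB F (Pa x'' y'') := by
  rw [← NN_empty]
  exact S.zp4_ww hx hy (subset_refl _) (fun γ hγ ω hω hl => hω) (fun γ hγ ω hω hl => hγ.2) ha
/-- compatibility with products -/
theorem wh_mul (hx : dist x' x < S.a) (hy : 2 * dist y y' < S.a) (hz : dist z z' < S.a)
    {s t t' r r' : ℝ} (h : s + t + (dist x' x + 2 * dist y y' + dist z z') ≤ r)
    (h' : s + t' + (dist x' x + 2 * dist y y' + dist z z') ≤ r')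
    (ha : a ∈ ZZ F (Om x y s) ∅) (hb : b ∈ ZZ F (Om y z t) (Om y z t')) :
    mul (mp (S.wh x' y') a) (mp (S.wh y' z') b) - mp (S.wh x' z') (mul a b) ∈
      NN F (Om x' z' r) (Om x' z' r') :=
  S.zp4_mul hx hy hz (Om_sub x y s) (Om_sub y z t)
    (fun α hα β hβ ω hω hl => ⟨hω, by linarith [hα.2, hβ.2]⟩)
    (fun α hα β hβ ω hω hl => ⟨hω, by linarith [hα.2, hβ.2.2]⟩) ha hb
theorem wh_mul_Pa (hx : dist x' x < S.a) (hy : 2 * dist y y' < S.a) (hz : dist z z' < S.a)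
    (ha : a ∈ ZZ F (Pa x y) ∅) (hb : b ∈ ZZ F (Pa y z) ∅) :
    mul (mp (S.wh x' y') a) (mp (S.wh y' z') b) - mp (S.wh x' z') (mul a b) ∈ BB F (Pa x' z') := by
  rw [← NN_empty]
  exact S.zp4_mul hx hy hz (subset_refl _) (subset_refl _) (fun α hα β hβ ω hω hl => hω)
    (fun α hα β hβ ω hω hl => hβ.2) ha hb
theorem wh_pwr (hx : 2 * dist x x' < S.a) (n : ℕ) (ha : a ∈ ZZ F (Pa x x) ∅) :
    pwr n (mp (S.wh x' x') a) - mp (S.wh x' x') (pwr n a) ∈ BB F (Pa x' x') := by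
  have d1 : dist x x' < S.a := by linarith [dist_nonneg (x := x) (y := x')]
  have d2 : dist x' x < S.a := by rwa [dist_comm]
  induction n with
  | zero => simp only [pwr, sub_self, Submodule.zero_mem]
  | succ n ih =>
    have h1 := mul_Pa_left ih (S.wh_Pa d2 d1 ha)
    have h2 := S.wh_mul_Pa d2 hx d1 (pwr_mem n ha) ha
    have := Submodule.add_mem _ h1 h2
    rw [map_sub, LinearMap.sub_apply, sub_add_sub_cancel] at this
    exact this

end GS

end Pool.Agent.Fu
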