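import Mathlib
import Pool.Agent.P.MP_365c00_gt.ZQ0
import Pool.Agent.P.MP_365c00_gt.ZP4

/-! Lengths and indices of the geodesics of a pair; the Morse principles. -/

set_option linter.unusedSectionVars false
set_option linter.unusedVariables false

open Set Topology Filter Metric

namespace Pool.Agent.Fu

variable {F : Type} [Field F] {M : Type} [MetricSpace M] {Z : Type} [TopologicalSpace Z]

namespace GD
variable {D : GD M} {x y : M} {τ : ℝ} {m k : ℕ} {w : D.G × ℝ}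

theorem zq1_small {α : Type} {S : Set α} (hS : S.Finite) (f : α → ℝ) (h : ∀ s ∈ S, 0 < f s) :
    ∃ γ > 0, ∀ s ∈ S, γ < f s := by
  rcases S.eq_empty_or_nonempty with rfl | hne
  · exact ⟨1, one_pos, fun s hs => hs.elim⟩
  · obtain ⟨s0, h0, hm⟩ := Set.exists_min_image S f hS hne
    have := h s0 h0
    exact ⟨f s0 / 2, by linarith, fun s hs => by linarith [hm s hs]⟩

theorem abs_eq {u : D.G} {l : ℝ} (h0 : D.ev u 0 = x) (h1 : D.ev u l = y) (hl : |l| < D.a) :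
    |l| = dist x y := by
  have e : |(0 : ℝ) - l| = |l| := by rw [zero_sub, abs_neg]
  rw [← h0, ← h1, D.dist_ev u 0 l (by rwa [e]), e]
theorem J_short (h : w ∈ D.J x y) (hl : w.2 < D.a) : w.2 = dist x y := by
  have e : |w.2| = w.2 := abs_of_pos h.1
  rw [← e]
  exact abs_eq h.2.1 h.2.2 (by rwa [e])
theorem J_ge (h : w ∈ D.J x y) (hd : dist x y < D.a) : dist x y ≤ w.2 := by
  rcases lt_or_ge w.2 D.a with hl | hl
  · exact (J_short h hl).ge
  · linarith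
theorem ind_short (u : D.G) {l : ℝ} (h0 : 0 < l) (hl : l < D.a) : D.ind u l = 0 := by
  have h1 := D.ind_le u l h0
  have h2 := D.aC0
  have h3 := D.C0_pos
  have h4 : (D.ind u l : ℝ) < 1 := by nlinarith
  have h5 : D.ind u l < 1 := by exact_mod_cast h4
  omega
theorem chord (hne : x ≠ y) (hd : dist x y < D.a) : ∃ u, (u, dist x y) ∈ D.J x y := by
  obtain ⟨u, h0, h1⟩ := D.ex x y hne hd
  exact ⟨u, dist_pos.2 hne, h0, h1⟩
theorem Reg.iso (h : D.Reg x y) (L : ℝ) :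
    ∃ γ > 0, ∀ w ∈ D.J x y, w.2 ≤ L → γ ≤ w.2 ∧ D.Iso x y w.2 γ := by
  have hS := h.2.2.2 (L + 1)
  obtain ⟨γ1, p1, q1⟩ := zq1_small hS (fun w => w.2) fun w hw => hw.1.1
  obtain ⟨γ2, p2, q2⟩ := zq1_small ((hS.prod hS).subset
    (t := {p | p ∈ {w | w ∈ D.J x y ∧ w.2 ≤ L + 1} ×ˢ {w | w ∈ D.J x y ∧ w.2 ≤ L + 1} ∧
      p.1.2 ≠ p.2.2}) fun p hp => hp.1) (fun p => |p.1.2 - p.2.2|)
    fun p hp => abs_pos.2 (sub_ne_zero.2 hp.2)
  refine ⟨min 1 (min γ1 γ2), lt_min one_pos (lt_min p1 p2), fun w hw hL => ⟨?_, ?_⟩⟩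
  · have := q1 w ⟨hw, by linarith⟩
    exact ((min_le_right _ _).trans (min_le_left _ _)).trans this.le
  · intro v hv hd
    by_contra hne
    have h1 : |v.2 - w.2| ≤ 1 := hd.trans (min_le_left _ _)
    have h2 : |v.2 - w.2| ≤ γ2 := hd.trans ((min_le_right _ _).trans (min_le_right _ _))
    have h3 := q2 (v, w) ⟨⟨⟨hv, by linarith [(abs_le.1 h1).2]⟩, ⟨hw, by linarith⟩⟩, hne⟩
    exact absurd h3 (not_lt.2 h2)
theorem Per.add (hτ : 0 < τ) (h : D.Per τ m x y) (hw : w ∈ D.J x y) :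
    (w.1, w.2 + m * τ) ∈ D.J x y := by
  have h0 : 0 ≤ (m : ℝ) * τ := by positivity
  refine ⟨by have := hw.1; simp only; linarith, hw.2.1, ?_⟩
  exact ((h.2 w hw).1 w.2).trans hw.2.2
theorem Per.ne (h : D.Per τ m x y) (hw : w ∈ D.J x y) : w.2 ≠ m * τ := by
  intro e
  have h1 := (h.2 w hw).1.eq
  rw [← e, hw.2.2, hw.2.1] at h1
  exact h.1.1 h1.symm
theorem Per.sub (h : D.Per τ m x y) (hw : w ∈ D.J x y) (hl : m * τ ≤ w.2) :
    (w.1, w.2 - m * τ) ∈ D.J x y ∧ D.ind w.1 w.2 = D.ind w.1 (w.2 - m * τ) + m := by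
  have h1 : (w.1, w.2 - m * τ) ∈ D.J x y :=
    ⟨sub_pos.2 (lt_of_le_of_ne hl (h.ne hw).symm), hw.2.1,
      ((h.2 w hw).1.sub_eq w.2).trans hw.2.2⟩
  refine ⟨h1, ?_⟩
  have h2 := (h.2 _ h1).2.1
  simp only [sub_add_cancel] at h2
  exact h2
theorem Per.mul (hτ : 0 < τ) (hm : 0 < m) (h : D.Per τ m x y) (hk : 0 < k) :
    D.Per τ (k * m) x y := by
  have h1 : ∀ k : ℕ, ∀ w ∈ D.J x y,
      D.ind w.1 (w.2 + (k * m : ℕ) * τ) = D.ind w.1 w.2 + k * m := by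
    intro k
    induction k with
    | zero => intro w hw; simp
    | succ k ih =>
      intro w hw
      have e1 := ih _ (h.add hτ hw)
      have e2 := (h.2 w hw).2.1
      have e3 : w.2 + ((k + 1) * m : ℕ) * τ = w.2 + m * τ + (k * m : ℕ) * τ := by
        push_cast; ring
      simp only at e1
      rw [e3, e1, e2]
      ring
  have h2 : ∀ k : ℕ, ∀ w ∈ D.J x y, w.2 < (k * m : ℕ) * τ → D.ind w.1 w.2 + 2 ≤ k * m := by
    intro k
    induction k with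
    | zero =>
      intro w hw hl
      have := hw.1
      simp only [zero_mul, Nat.cast_zero] at hl
      linarith
    | succ k ih =>
      intro w hw hl
      rcases lt_or_ge w.2 (m * τ) with h3 | h3
      · have := (h.2 w hw).2.2 h3
        rw [add_mul, one_mul]
        omega
      · obtain ⟨e1, e2⟩ := h.sub hw h3
        have e3 := ih _ e1 (by push_cast at hl ⊢; linarith)
        simp only at e3
        rw [add_mul, one_mul]
        omega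
  refine ⟨h.1, fun w hw => ⟨?_, h1 k w hw, h2 k w hw⟩⟩
  have := (h.2 w hw).1.nat_mul k
  have e : ((k * m : ℕ) : ℝ) * τ = k * (m * τ) := by push_cast; ring
  rwa [e]
theorem Per.dvd (hτ : 0 < τ) (hm : 0 < m) (h : D.Per τ m x y) (hk : 0 < k) (hd : m ∣ k) :
    D.Per τ k x y := by
  obtain ⟨j, rfl⟩ := hd
  rw [mul_comm]
  exact h.mul hτ hm (Nat.pos_of_mul_pos_left hk)
theorem Per.window (h : D.Per τ m x y) (hw : w ∈ D.J x y) (h0 : m * τ ≤ w.2)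
    (h1 : w.2 < m * τ + D.a) : w.2 = m * τ + dist x y ∧ D.ind w.1 w.2 = m := by
  obtain ⟨e1, e2⟩ := h.sub hw h0
  have h2 : w.2 - m * τ < D.a := by linarith
  have e3 := J_short e1 h2
  refine ⟨by simp only at e3; linarith, ?_⟩
  rw [e2, ind_short w.1 e1.1 h2, zero_add]
theorem Per.iso (hτ : 0 < τ) (h : D.Per τ m x y) {l r : ℝ} (hr : r ≤ l) (hi : D.Iso x y l r) :
    D.Iso x y (m * τ + l) r := by
  intro v hv hd
  have h1 := abs_le.1 hd
  obtain ⟨e1, -⟩ := h.sub hv (by linarith [h1.1])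
  have e2 := hi _ e1 (abs_le.2 ⟨by simp only; linarith [h1.1], by simp only; linarith [h1.2]⟩)
  simp only at e2
  linarith
theorem Per.zq1_red (hτ : 0 < τ) (hm : 0 < m) (h : D.Per τ m x y) (hw : w ∈ D.J x y) :
    ∃ (j : ℕ) (l : ℝ), (w.1, l) ∈ D.J x y ∧ l ≤ m * τ ∧ w.2 = l + j * (m * τ) ∧
      D.ind w.1 w.2 = D.ind w.1 l + j * m := by
  have hP : 0 < (m : ℝ) * τ := by positivity
  have key : ∀ n : ℕ, ∀ w ∈ D.J x y, w.2 < n * (m * τ) →
      ∃ (j : ℕ) (l : ℝ), (w.1, l) ∈ D.J x y ∧ l ≤ m * τ ∧ w.2 = l + j * (m * τ) ∧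
        D.ind w.1 w.2 = D.ind w.1 l + j * m := by
    intro n
    induction n with
    | zero =>
      intro w hw hl
      have := hw.1
      simp only [Nat.cast_zero, zero_mul] at hl
      linarith
    | succ n ih =>
      intro w hw hl
      rcases lt_or_ge w.2 (m * τ) with h3 | h3
      · exact ⟨0, w.2, hw, h3.le, by simp, by simp⟩
      · obtain ⟨e1, e2⟩ := h.sub hw h3
        obtain ⟨j, l, f1, f2, f3, f4⟩ := ih _ e1 (by push_cast at hl ⊢; linarith)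
        simp only at f1 f3 f4
        refine ⟨j + 1, l, f1, f2, by push_cast; linarith, ?_⟩
        rw [e2, f4]
        ring
  obtain ⟨n, hn⟩ := exists_nat_gt (w.2 / (m * τ))
  exact key n w hw ((div_lt_iff₀ hP).1 hn)
theorem Per.ind_le (hτ : 0 < τ) (hm : 0 < m) (h : D.Per τ m x y) (hw : w ∈ D.J x y) :
    (D.ind w.1 w.2 : ℝ) ≤ w.2 / τ + D.C0 * (m * τ) := by
  obtain ⟨j, l, f1, f2, f3, f4⟩ := h.zq1_red hτ hm hw
  have h0 : 0 < l := f1.1
  have h1 := D.ind_le w.1 l h0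
  have h2 := D.C0_pos
  have h3 : D.C0 * l ≤ D.C0 * (m * τ) := mul_le_mul_of_nonneg_left f2 h2.le
  have h4 : (j : ℝ) * m ≤ w.2 / τ := by
    rw [le_div_iff₀ hτ, f3]
    linarith
  rw [f4]
  push_cast
  linarith
theorem Per.gap_unif (hτ : 0 < τ) (hm : 0 < m) (h : D.Per τ m x y) {c : ℝ}
    (hc : ∀ w ∈ D.J x y, ∀ k : ℤ, w.2 + c ≠ k * (m * τ)) :
    ∃ w0 > 0, ∀ w ∈ D.J x y, ∀ k : ℤ, w0 < |w.2 + c - k * (m * τ)| := by
  have hP : 0 < (m : ℝ) * τ := by positivity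
  generalize hPe : (m : ℝ) * τ = P at hP hc
  have fl : ∀ t : ℝ, (⌊t / P⌋ : ℝ) * P ≤ t ∧ t < (⌊t / P⌋ + 1 : ℝ) * P := fun t =>
    ⟨(le_div_iff₀ hP).1 (Int.floor_le _), (div_lt_iff₀ hP).1 (Int.lt_floor_add_one _)⟩
  obtain ⟨γ, p, q⟩ := zq1_small (h.1.2.2.2 P)
    (fun w => min (w.2 + c - ⌊(w.2 + c) / P⌋ * P) ((⌊(w.2 + c) / P⌋ + 1) * P - (w.2 + c)))
    fun w hw => lt_min (sub_pos.2 (lt_of_le_of_ne (fl _).1 (hc w hw.1 _).symm)) (sub_pos.2 (fl _).2)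
  refine ⟨γ, p, fun w hw k => ?_⟩
  obtain ⟨j, l, f1, f2, f3, -⟩ := h.zq1_red hτ hm hw
  rw [hPe] at f2 f3
  have q1 := lt_min_iff.1 (q (w.1, l) ⟨f1, f2⟩)
  simp only at q1
  generalize ⌊(l + c) / P⌋ = n at q1
  rw [f3]
  rcases le_or_gt (k - j) n with hk | hk
  · have h1 : ((k : ℝ) - j) ≤ n := by exact_mod_cast hk
    have h2 := mul_le_mul_of_nonneg_right h1 hP.le
    exact lt_of_lt_of_le (by linarith [q1.1]) (le_abs_self _)
  · have h1 : (n : ℝ) + 1 ≤ (k : ℝ) - j := by exact_mod_cast hk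
    have h2 := mul_le_mul_of_nonneg_right h1 hP.le
    exact lt_of_lt_of_le (by linarith [q1.2]) (neg_le_abs _)

variable {b b' c c' : ℝ} {z : Ch F (Mo M)}

theorem MT.gap_inj (hM : D.MT F) (hne : x ≠ y) (hg : D.Gap x y c c') (hb : b ≤ c)
    (hz : z ∈ ZZ F (Om x y c) (Om x y b)) (h : z ∈ NN F (Om x y c') (Om x y b)) :
    z ∈ NN F (Om x y c) (Om x y b) := by
  obtain ⟨u, hu, hn⟩ := mem_NN.1 h
  have h1 : bd u ∈ CC F (Om x y c) := by
    have := sub_mem (mem_ZZ.1 hz).1 (CC_mono (Om_mono x y hb) hn)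
    rwa [sub_sub_cancel] at this
  obtain ⟨v, hv, hn'⟩ := mem_NN.1 (hM.mt0 x y c c' hne hg (mem_ZZ.2 ⟨hu, h1⟩))
  refine mem_NN.2 ⟨u - bd v, hn', ?_⟩
  rwa [map_sub, bd_bd, sub_zero]
theorem MT.gap_low (hM : D.MT F) (hne : x ≠ y) (hg : D.Gap x y b' b) (hb : b ≤ c)
    (hz : z ∈ ZZ F (Om x y c) (Om x y b')) (h : z ∈ NN F (Om x y c) (Om x y b)) :
    z ∈ NN F (Om x y c) (Om x y b') := by
  obtain ⟨u, hu, hn⟩ := mem_NN.1 h
  have h1 : z - bd u ∈ ZZ F (Om x y b) (Om x y b') := by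
    refine mem_ZZ.2 ⟨hn, ?_⟩
    rw [map_sub, bd_bd, sub_zero]
    exact (mem_ZZ.1 hz).2
  have h2 := NN_mono (Om_mono x y hb) subset_rfl (hM.mt0 x y b' b hne hg h1)
  have h3 : bd u ∈ NN F (Om x y c) (Om x y b') := BB_le_NN _ _ (mem_BB.2 ⟨u, hu, rfl⟩)
  have := add_mem h2 h3
  rwa [sub_add_cancel] at this
theorem MT.gap_push (hM : D.MT F) (hne : x ≠ y) (hg : D.Gap x y b' b)
    (hz : bd z ∈ CC F (Om x y b)) (hd : z ∈ HD F _ k) :
    ∃ l ∈ CC F (Om x y b), l ∈ HD F _ k ∧ bd (z - l) ∈ CC F (Om x y b') := by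
  have h1 : bd z ∈ ZZ F (Om x y b) (Om x y b') :=
    mem_ZZ.2 ⟨hz, by rw [bd_bd]; exact zero_mem _⟩
  obtain ⟨u, hu, hn⟩ := mem_NN.1 (hM.mt0 x y b' b hne hg h1)
  refine ⟨dg k u, dg_mem_CC k hu, dg_mem_HD k u, ?_⟩
  have h2 : z - u ∈ ZZ F univ (Om x y b') := mem_ZZ.2 ⟨mem_CC_univ _, by rwa [map_sub]⟩
  have h3 := (mem_ZZ.1 (dg_mem_ZZ k h2)).2
  rwa [map_sub, mem_HD.1 hd] at h3
/-- a window with one geodesic -/
theorem MT.gen_win (hM : D.MT F) (h : D.Reg x y) (hw : w ∈ D.J x y) (hb : b ≤ w.2) (hc : w.2 < c)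
    (hv : ∀ v ∈ D.J x y, v.2 < b ∨ v.2 = w.2 ∨ c ≤ v.2) :
    ∃ g ∈ ZZ F (Omc x y w.2) (Om x y b), g ∈ HD F _ (D.ind w.1 w.2) ∧
      g ∉ NN F (Om x y c) (Om x y w.2) ∧
      ∀ z ∈ ZZ F (Om x y c) (Om x y b), ∃ r : F, z - r • g ∈ NN F (Om x y c) (Om x y b) := by
  obtain ⟨g, g1, g2, g3, g4⟩ := hM.mt1 x y h w hw c hc fun v hv' => by
    rcases hv v hv' with e | e | e
    · exact Or.inl (by linarith)
    · exact Or.inl e.le
    · exact Or.inr e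
  have hg : D.Gap x y b w.2 := fun v hv' => by
    rcases hv v hv' with e | e | e
    · exact Or.inl e
    · exact Or.inr e.ge
    · exact Or.inr (by linarith)
  obtain ⟨l, l1, l2, l3⟩ := hM.gap_push h.1 hg (mem_ZZ.1 g1).2 g2
  have k1 : g - l ∈ ZZ F (Omc x y w.2) (Om x y b) :=
    mem_ZZ.2 ⟨sub_mem (mem_ZZ.1 g1).1 (CC_mono (Om_sub_Omc x y _) l1), l3⟩
  have l4 : l ∈ NN F (Om x y c) (Om x y w.2) := CC_le_NN _ _ l1
  refine ⟨g - l, k1, sub_mem g2 l2, fun hn => g3 ?_, fun z hz => ?_⟩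
  · have := add_mem hn l4
    rwa [sub_add_cancel] at this
  · obtain ⟨r, hr⟩ := g4 z (ZZ_mono subset_rfl (Om_mono x y hb) hz)
    refine ⟨r, hM.gap_low h.1 hg hc.le
      (sub_mem hz (Submodule.smul_mem _ r (ZZ_mono (Omc_sub_Om x y hc) subset_rfl k1))) ?_⟩
    have := add_mem hr (Submodule.smul_mem _ r l4)
    have e : z - r • g + r • l = z - r • (g - l) := by rw [smul_sub]; abel
    rwa [e] at this
theorem MT.rel (hM : D.MT F) (h : D.Reg x y)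
    (hv : ∀ v ∈ D.J x y, b ≤ v.2 → v.2 < c → D.ind v.1 v.2 ≠ k)
    (hz : z ∈ ZZ F (Om x y c) (Om x y b)) (hd : z ∈ HD F _ k) :
    z ∈ NN F (Om x y c) (Om x y b) := by
  have fin : ∀ c : ℝ, {v | v ∈ D.J x y ∧ b ≤ v.2 ∧ v.2 < c}.Finite := fun c =>
    (h.2.2.2 c).subset fun v hv => ⟨hv.1, hv.2.2.le⟩
  have key : ∀ n : ℕ, ∀ c : ℝ, {v | v ∈ D.J x y ∧ b ≤ v.2 ∧ v.2 < c}.ncard < n →
      (∀ v ∈ D.J x y, b ≤ v.2 → v.2 < c → D.ind v.1 v.2 ≠ k) →
      ∀ z ∈ ZZ F (Om x y c) (Om x y b), z ∈ HD F _ k → z ∈ NN F (Om x y c) (Om x y b) := by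
    intro n
    induction n with
    | zero => intro c hn; omega
    | succ n ih =>
      intro c hn hv z hz hd
      rcases {v | v ∈ D.J x y ∧ b ≤ v.2 ∧ v.2 < c}.eq_empty_or_nonempty with he | he
      · refine hM.mt0 x y b c h.1 (fun v hv' => ?_) hz
        by_contra hcon
        push Not at hcon
        exact (eq_empty_iff_forall_notMem.1 he) v ⟨hv', hcon.1, hcon.2⟩
      · obtain ⟨w, ⟨w1, w2, w3⟩, hmax⟩ := Set.exists_max_image _ (fun v : D.G × ℝ => v.2) (fin c) he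
        obtain ⟨g, g1, g2, g3, g4⟩ := hM.mt1 x y h w w1 c w3 fun v hv' => by
          rcases lt_or_ge v.2 b with e | e
          · exact Or.inl (by linarith)
          · rcases lt_or_ge v.2 c with e' | e'
            · exact Or.inl (hmax v ⟨hv', e, e'⟩)
            · exact Or.inr e'
        obtain ⟨r, hr⟩ := g4 z (ZZ_mono subset_rfl (Om_mono x y w2) hz)
        have h1 := dg_mem_NN k hr
        rw [map_sub, map_smul, mem_HD.1 hd, dg_of_ne g2 (hv w w1 w2 w3).symm, smul_zero,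
          sub_zero] at h1
        refine NN_trans subset_rfl (Om_mono x y w3.le) hz hd h1 fun z' hz' hd' => ?_
        refine NN_mono (Om_mono x y w3.le) subset_rfl (ih w.2 ?_
          (fun v a1 a2 a3 => hv v a1 a2 (a3.trans w3)) z' hz' hd')
        refine lt_of_lt_of_le (Set.ncard_lt_ncard ?_ (fin c)) (Nat.lt_succ_iff.1 hn)
        refine Set.ssubset_iff_subset_ne.2 ⟨fun v a => ⟨a.1, a.2.1, a.2.2.trans w3⟩, fun a => ?_⟩
        have a' : w ∈ {v | v ∈ D.J x y ∧ b ≤ v.2 ∧ v.2 < w.2} := by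
          rw [a]
          exact ⟨w1, w2, w3⟩
        exact lt_irrefl _ a'.2.2
  exact key _ c (Nat.lt_succ_self _) hv z hz hd
theorem MT.abs (hM : D.MT F) (h : D.Reg x y) (hv : ∀ v ∈ D.J x y, v.2 < c → D.ind v.1 v.2 ≠ k)
    (hz : z ∈ ZZ F (Om x y c) ∅) (hd : z ∈ HD F _ k) : z ∈ BB F (Om x y c) := by
  have e : Om x y 0 = ∅ := Om_empty dist_nonneg
  rw [← NN_empty, ← e]
  exact hM.rel h (fun v a1 _ a3 => hv v a1 a3) (by rwa [e]) hd

end GD

end Pool.Agent.Fu
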