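import Mathlib
import Pool.Agent.P.MP_365c00_gt.ZQ1

/-! Transfer, products of generators, the class of the closed short geodesic. -/

set_option linter.unusedSectionVars false
set_option linter.unusedVariables false

open Set Topology Filter Metric

namespace Pool.Agent.Fu

variable {F : Type} [Field F] {M : Type} [MetricSpace M] {Z : Type} [TopologicalSpace Z]

namespace GD
variable {D : GD M} {x y z x' y' : M} {τ : ℝ} {m k : ℕ} {w : D.G × ℝ}

/-- an isolated geodesic persists -/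
theorem MT.tr (hM : D.MT F) (h : D.Reg x y) (h' : D.Reg x' y') (hx : 2 * dist x' x < D.a)
    (hy : 2 * dist y y' < D.a) (hw : w ∈ D.J x y) {r : ℝ} (hr : dist x' x + dist y y' < r)
    (hi : D.Iso x y w.2 (2 * r)) :
    ∃ v ∈ D.J x' y', D.ind v.1 v.2 = D.ind w.1 w.2 ∧ |v.2 - w.2| ≤ r := by
  by_contra hcon
  have n1 := dist_nonneg (x := x') (y := x)
  have n2 := dist_nonneg (x := y) (y := y')
  have e1 := dist_comm x x'
  have e2 := dist_comm y' y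
  obtain ⟨g, g1, g2, g3, -⟩ := hM.gen_win (b := w.2 - 2 * r) (c := w.2 + 2 * r) h hw (by linarith)
    (by linarith) fun v hv => by
      by_cases h1 : v.2 < w.2 - 2 * r
      · exact Or.inl h1
      by_cases h2 : w.2 + 2 * r ≤ v.2
      · exact Or.inr (Or.inr h2)
      exact Or.inr (Or.inl (hi v hv (abs_le.2 ⟨by linarith, by linarith⟩)))
  have g4 : g ∈ ZZ F (Om x y (w.2 + (r - (dist x' x + dist y y')))) (Om x y (w.2 - 2 * r)) :=
    ZZ_mono (Omc_sub_Om x y (by linarith)) (subset_refl _) g1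
  have g5 : mp (D.wh x' y') g ∈ ZZ F (Om x' y' (w.2 + r)) (Om x' y' (w.2 - r)) :=
    D.toGS.wh_ZZ (by linarith) (by linarith) (by linarith) (by linarith) g4
  have g6 := hM.rel h' (k := D.ind w.1 w.2) (fun v hv b1 b2 e =>
    hcon ⟨v, hv, e, abs_le.2 ⟨by linarith, by linarith⟩⟩) g5 (mp_mem_HD _ g2)
  have g7 : mp (D.wh x y) (mp (D.wh x' y') g) ∈ NN F (Om x y (w.2 + 2 * r)) (Om x y w.2) :=
    D.toGS.wh_NN (by linarith) (by linarith) (by linarith) (by linarith) (by linarith) g6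
  have g8 : mp (D.wh x y) (mp (D.wh x' y') g) - g ∈ NN F (Om x y (w.2 + 2 * r)) (Om x y w.2) :=
    D.toGS.wh_back hx hy (by linarith) (by linarith) g4
  have g9 := sub_mem g7 g8
  rw [sub_sub_cancel] at g9
  exact g3 g9

theorem zq2_ratio (hM : D.MT F) (h : D.Reg x y) {u : D.G} {l ε : ℝ} (hu : (u, l) ∈ D.J x y)
    (hε : 0 < ε) (hi : D.Iso x y l ε) {c g : Ch F (Mo M)}
    (hc : c ∈ ZZ F (Om x y (l + ε)) (Om x y (l - ε)))
    (hn : c ∉ NN F (Om x y (l + ε)) (Om x y l)) (hg : g ∈ ZZ F (Omc x y l) (Om x y l)) :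
    ∃ (t : F) (n n' : Ch F (Mo M)), n ∈ CC F (Om x y l) ∧ g - n ∈ CC F (Omc x y l) ∧
      g - n ∈ ZZ F (Om x y (l + ε)) (Om x y (l - ε)) ∧
      n' ∈ NN F (Om x y (l + ε)) (Om x y (l - ε)) ∧ g - n = t • c + n' := by
  have hgap : D.Gap x y (l - ε) l := fun v hv => by
    by_cases h1 : v.2 < l - ε
    · exact Or.inl h1
    by_cases h2 : l ≤ v.2
    · exact Or.inr h2
    exact Or.inr (hi v hv (abs_le.2 ⟨by linarith, by linarith⟩)).ge
  have b1 : bd g ∈ ZZ F (Om x y l) (Om x y (l - ε)) :=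
    mem_ZZ.2 ⟨(mem_ZZ.1 hg).2, by rw [bd_bd]; exact zero_mem _⟩
  obtain ⟨n, n1, n2⟩ := mem_NN.1 (hM.mt0 x y _ _ h.1 hgap b1)
  have c1 : g - n ∈ CC F (Omc x y l) := sub_mem (mem_ZZ.1 hg).1 (CC_mono (Om_sub_Omc x y l) n1)
  have c2 : g - n ∈ ZZ F (Om x y (l + ε)) (Om x y (l - ε)) :=
    mem_ZZ.2 ⟨CC_mono (Omc_sub_Om x y (by linarith)) c1, by rw [map_sub]; exact n2⟩
  obtain ⟨G, -, -, -, G4⟩ := hM.gen_win (w := (u, l)) (b := l - ε) (c := l + ε) h hu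
    (by simp only; linarith) (by simp only; linarith) fun v hv => by
      by_cases h1 : v.2 < l - ε
      · exact Or.inl h1
      by_cases h2 : l + ε ≤ v.2
      · exact Or.inr (Or.inr h2)
      exact Or.inr (Or.inl (hi v hv (abs_le.2 ⟨by linarith, by linarith⟩)))
  obtain ⟨a, ha⟩ := G4 _ c2
  obtain ⟨b, hb⟩ := G4 _ hc
  have b0 : b ≠ 0 := by
    rintro rfl
    rw [zero_smul, sub_zero] at hb
    exact hn (NN_mono (subset_refl _) (Om_mono x y (by linarith)) hb)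
  refine ⟨a / b, n, g - n - a • G - (a / b) • (c - b • G), n1, c1, c2,
    sub_mem ha (Submodule.smul_mem _ _ hb), ?_⟩
  rw [smul_sub, smul_smul, div_mul_cancel₀ _ b0]
  abel

theorem MT.prod (hM : D.MT F) (h1 : D.Reg x y) (h2 : D.Reg y z) (h3 : D.Reg x z) {u : D.G}
    {l1 l2 ε c : ℝ} (hu1 : (u, l1) ∈ D.J x y) (hu2 : (D.sh l1 u, l2) ∈ D.J y z)
    (hi : D.ind u (l1 + l2) = D.ind u l1 + D.ind (D.sh l1 u) l2) (hε : 0 < ε)
    (i1 : D.Iso x y l1 ε) (i2 : D.Iso y z l2 ε) (hc : l1 + l2 + 2 * ε ≤ c)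
    (i3 : ∀ v ∈ D.J x z, v.2 ≤ l1 + l2 ∨ c ≤ v.2) {c1 c2 : Ch F (Mo M)}
    (z1 : c1 ∈ ZZ F (Om x y (l1 + ε)) (Om x y (l1 - ε)))
    (z2 : c2 ∈ ZZ F (Om y z (l2 + ε)) (Om y z (l2 - ε)))
    (n1 : c1 ∉ NN F (Om x y (l1 + ε)) (Om x y l1)) (n2 : c2 ∉ NN F (Om y z (l2 + ε)) (Om y z l2)) :
    mul c1 c2 ∉ NN F (Om x z c) (Om x z (l1 + l2)) := by
  intro hcon
  obtain ⟨g1, a1, g2, a2, a3⟩ := hM.mt2 x y z h1 h2 h3 u l1 l2 hu1 hu2 hi c (by linarith) i3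
  obtain ⟨t1, p1, q1, p11, p12, p13, p14, p15⟩ := zq2_ratio hM h1 hu1 hε i1 z1 n1 a1
  obtain ⟨t2, p2, q2, p21, p22, p23, p24, p25⟩ := zq2_ratio hM h2 hu2 hε i2 z2 n2 a2
  have m1 : mul q1 (g2 - p2) ∈ NN F (Om x z c) (Om x z (l1 + l2)) :=
    mul_Om_left (by linarith) p14 p23 (by linarith) (by linarith) (by linarith)
  have m2 : mul c1 q2 ∈ NN F (Om x z c) (Om x z (l1 + l2)) :=
    mul_Om_right (by linarith) z1 p24 (by linarith) (by linarith) (by linarith)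
  have m3 : mul p1 g2 ∈ CC F (Om x z (l1 + l2)) :=
    mul_mem_CC (fun α hα β hβ => ⟨cat_mem hα.1 hβ.1, by
      rw [cat_dur]; linarith [hα.2, hβ.2]⟩) p11 (mem_ZZ.1 a2).1
  have m4 : mul (g1 - p1) p2 ∈ CC F (Om x z (l1 + l2)) :=
    mul_mem_CC (fun α hα β hβ => ⟨cat_mem hα.1 hβ.1, by
      rw [cat_dur]; linarith [hα.2, hβ.2]⟩) p12 p21
  have e1 : mul (g1 - p1) (g2 - p2) =
      t1 • (t2 • mul c1 c2 + mul c1 q2) + mul q1 (g2 - p2) := by
    rw [p15, map_add, LinearMap.add_apply, map_smul, LinearMap.smul_apply]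
    congr 2
    rw [p25, map_add, map_smul]
  have e2 : mul g1 g2 = mul (g1 - p1) (g2 - p2) + mul (g1 - p1) p2 + mul p1 g2 := by
    simp only [map_sub, LinearMap.sub_apply]
    abel
  apply a3
  rw [e2, e1]
  exact add_mem (add_mem (add_mem (Submodule.smul_mem _ _
    (add_mem (Submodule.smul_mem _ _ hcon) m2)) m1) (CC_le_NN _ _ m4)) (CC_le_NN _ _ m3)

theorem MT.van (hM : D.MT F) (h : D.Per τ m x y) {b : ℝ} (hb : b ≤ D.a)
    (hk : m < k ∨ (m ≤ k + 1 ∧ b ≤ dist x y)) {c : Ch F (Mo M)}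
    (hc : c ∈ ZZ F (Om x y (m * τ + b)) ∅) (hd : c ∈ HD F _ k) : c ∈ BB F (Om x y (m * τ + b)) :=
  hM.abs h.1 (fun v hv hl e => by
    by_cases h1 : v.2 < m * τ
    · have := (h.2 v hv).2.2 h1
      omega
    · obtain ⟨w1, w2⟩ := h.window hv (not_lt.1 h1) (by linarith)
      rcases hk with hk | hk
      · omega
      · linarith [hk.2]) hc hd

/-- `c` is the class of the short geodesic prolonged by one period -/
structure Top (F : Type) [Field F] (D : GD M) (τ : ℝ) (m : ℕ) (x y : M) (c : Ch F (Mo M)) :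
    Prop where
  zz : c ∈ ZZ F (Omc x y (m * τ + dist x y)) ∅
  hd : c ∈ HD F _ m
  ne : ∀ b, b ≤ D.a → c ∉ NN F (Om x y (m * τ + b)) (Om x y (m * τ + dist x y))
  span : ∀ b, dist x y < b → b ≤ D.a → ∀ z ∈ ZZ F (Om x y (m * τ + b)) ∅, z ∈ HD F _ m →
    ∃ r : F, z - r • c ∈ BB F (Om x y (m * τ + b))

theorem MT.one (hM : D.MT F) (hτ : 0 < τ) (hm : 0 < m) (h : D.Per τ m x y) (hd : dist x y < D.a) :
    ∃ c, Top F D τ m x y c := by
  obtain ⟨u, hu⟩ := chord h.1.1 hd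
  have e0 := dist_nonneg (x := x) (y := y)
  have hw : (u, m * τ + dist x y) ∈ D.J x y := by
    have := h.add hτ hu
    rwa [add_comm] at this
  have hi : D.ind u (m * τ + dist x y) = m :=
    (h.window hw (by simp only; linarith) (by simp only; linarith)).2
  have hv : ∀ v ∈ D.J x y, v.2 ≤ m * τ + dist x y ∨ m * τ + D.a ≤ v.2 := fun v hv => by
    by_cases h1 : v.2 < m * τ
    · exact Or.inl (by linarith)
    by_cases h2 : m * τ + D.a ≤ v.2
    · exact Or.inr h2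
    exact Or.inl (h.window hv (not_lt.1 h1) (not_le.1 h2)).1.le
  obtain ⟨g, g1, g2, g3, g4⟩ := hM.mt1 x y h.1 _ hw (m * τ + D.a) (by simp only; linarith) hv
  simp only [hi] at g1 g2 g3 g4
  obtain ⟨k, rfl⟩ : ∃ k, m = k + 1 := ⟨m - 1, by omega⟩
  have b1 : bd g ∈ ZZ F (Om x y ((k + 1 : ℕ) * τ + dist x y)) ∅ :=
    mem_ZZ_empty.2 ⟨(mem_ZZ.1 g1).2, bd_bd g⟩
  obtain ⟨l0, l1, l2⟩ := mem_BB.1 (hM.van h hd.le (Or.inr ⟨le_rfl, le_rfl⟩) b1 (bd_mem_HD g2))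
  have l3 : dg (k + 1) l0 ∈ CC F (Om x y ((k + 1 : ℕ) * τ + dist x y)) := dg_mem_CC _ l1
  have l4 : bd (dg (k + 1) l0) = bd g := by
    rw [← dg_bd, l2, mem_HD.1 (bd_mem_HD g2)]
  have c1 : g - dg (k + 1) l0 ∈ ZZ F (Omc x y ((k + 1 : ℕ) * τ + dist x y)) ∅ :=
    mem_ZZ_empty.2 ⟨sub_mem (mem_ZZ.1 g1).1 (CC_mono (Om_sub_Omc x y _) l3), by
      rw [map_sub, l4, sub_self]⟩
  have c2 : g - dg (k + 1) l0 ∈ HD F _ (k + 1) := sub_mem g2 (dg_mem_HD _ _)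
  refine ⟨g - dg (k + 1) l0, c1, c2, fun b hb hn => g3 ?_, fun b hb1 hb2 z hz hz' => ?_⟩
  · have := add_mem (NN_mono (Om_mono x y (by linarith : ((k + 1 : ℕ) : ℝ) * τ + b ≤
      (k + 1 : ℕ) * τ + D.a)) (subset_refl _) hn) (CC_le_NN _ _ l3)
    rwa [sub_add_cancel] at this
  · obtain ⟨r, hr⟩ := g4 z (ZZ_mono (Om_mono x y (by linarith)) (empty_subset _) hz)
    refine ⟨r, ?_⟩
    have d1 : z - r • (g - dg (k + 1) l0) ∈ NN F (Om x y ((k + 1 : ℕ) * τ + D.a))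
        (Om x y ((k + 1 : ℕ) * τ + dist x y)) := by
      have := add_mem hr (CC_le_NN _ _ (Submodule.smul_mem _ r l3))
      rw [smul_sub, ← sub_add]
      exact this
    have d2 : z - r • (g - dg (k + 1) l0) ∈ ZZ F (Om x y ((k + 1 : ℕ) * τ + b)) ∅ :=
      sub_mem hz (Submodule.smul_mem _ r
        (ZZ_mono (Omc_sub_Om x y (by linarith)) (subset_refl _) c1))
    have d3 : z - r • (g - dg (k + 1) l0) ∈ HD F _ (k + 1) :=
      sub_mem hz' (Submodule.smul_mem _ r c2)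
    have hgap : D.Gap x y ((k + 1 : ℕ) * τ + b) ((k + 1 : ℕ) * τ + D.a) := fun v hv' =>
      (hv v hv').imp (fun h1 => by linarith) id
    have d4 := hM.gap_inj h.1.1 hgap (by linarith)
      (ZZ_mono (subset_refl _) (empty_subset _) d2) d1
    obtain ⟨p, p1, p2, p3⟩ := NN_HD d3 d4
    have d5 := hM.van h hd.le (Or.inr ⟨Nat.le_succ _, le_rfl⟩) (mem_ZZ_empty.2 ⟨p3, by
      rw [map_sub, bd_bd, sub_zero]; exact (mem_ZZ_empty.1 d2).2⟩) (sub_mem d3 (bd_mem_HD p2))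
    have d6 := add_mem (BB_mono (Om_mono x y (by linarith : ((k + 1 : ℕ) : ℝ) * τ + dist x y ≤
      (k + 1 : ℕ) * τ + b)) d5) (mem_BB.2 ⟨p, p1, rfl⟩)
    rwa [sub_add_cancel] at d6

theorem zq2_iso (h : D.Per τ m x y) {ε : ℝ} (h1 : ε ≤ dist x y) (h2 : dist x y + ε < D.a) :
    D.Iso x y (m * τ + dist x y) ε := fun v hv hl => by
  rw [abs_le] at hl
  exact (h.window hv (by linarith [hl.1]) (by linarith [hl.2])).1

/-- three points on a short geodesic -/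
theorem MT.col (hM : D.MT F) (hτ : 0 < τ) {m1 m2 : ℕ} {u : D.G} {d1 d2 : ℝ} (p1 : 0 < d1)
    (p2 : 0 < d2) (hd : d1 + d2 < D.a) (hx : D.ev u 0 = x) (hy : D.ev u d1 = y)
    (hz : D.ev u (d1 + d2) = z) (h1 : D.Per τ m1 x y) (h2 : D.Per τ m2 y z)
    (h3 : D.Per τ (m1 + m2) x z) {c1 c2 c3 : Ch F (Mo M)} (t1 : Top F D τ m1 x y c1)
    (t2 : Top F D τ m2 y z c2) (t3 : Top F D τ (m1 + m2) x z c3) :
    ∃ r : F, r ≠ 0 ∧ mul c1 c2 - r • c3 ∈ BB F (Om x z ((m1 + m2 : ℕ) * τ + D.a)) := by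
  have e1 : dist x y = d1 := by
    rw [← abs_eq hx hy (by rw [abs_of_pos p1]; linarith), abs_of_pos p1]
  have e3 : dist x z = d1 + d2 := by
    rw [← abs_eq hx hz (by rw [abs_of_pos (by linarith)]; exact hd), abs_of_pos (by linarith)]
  have s0 : D.ev (D.sh d1 u) 0 = y := by rw [D.ev_sh, zero_add, hy]
  have s1 : D.ev (D.sh d1 u) d2 = z := by rw [D.ev_sh, add_comm, hz]
  have e2 : dist y z = d2 := by
    rw [← abs_eq s0 s1 (by rw [abs_of_pos p2]; linarith), abs_of_pos p2]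
  have j1 : (u, d1) ∈ D.J x y := ⟨p1, hx, hy⟩
  have j2 : (D.sh d1 u, d2) ∈ D.J y z := ⟨p2, s0, s1⟩
  have j3 : (u, d1 + d2) ∈ D.J x z := ⟨add_pos p1 p2, hx, hz⟩
  have es : D.sh (m1 * τ + d1) u = D.sh d1 u := by
    refine D.ext _ _ (funext fun s => ?_)
    have := (h1.2 _ j1).1 (s + d1)
    rw [D.ev_sh, D.ev_sh, ← this]
    congr 1
    ring
  have k1 : (u, m1 * τ + d1) ∈ D.J x y := by
    have := h1.add hτ j1
    rwa [add_comm] at this
  have k2 : (D.sh (m1 * τ + d1) u, m2 * τ + d2) ∈ D.J y z := by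
    have := h2.add hτ j2
    rwa [add_comm, ← es] at this
  have el : m1 * τ + d1 + (m2 * τ + d2) = (m1 + m2 : ℕ) * τ + (d1 + d2) := by
    push_cast; ring
  have k3 : (u, m1 * τ + d1 + (m2 * τ + d2)) ∈ D.J x z := by
    rw [el, add_comm]
    exact h3.add hτ j3
  have i1 := (h1.window k1 (by simp only; linarith) (by simp only; linarith)).2
  have i2 := (h2.window k2 (by simp only; linarith) (by simp only; linarith)).2
  have i3 := (h3.window k3 (by simp only; linarith) (by simp only; linarith)).2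
  simp only at i1 i2 i3
  obtain ⟨ε, ε0, ε1, ε2, ε3⟩ : ∃ ε : ℝ, 0 < ε ∧ ε ≤ d1 ∧ ε ≤ d2 ∧ d1 + d2 + 2 * ε ≤ D.a :=
    ⟨min (min d1 d2) ((D.a - d1 - d2) / 2), lt_min (lt_min p1 p2) (by linarith),
      (min_le_left _ _).trans (min_le_left _ _), (min_le_left _ _).trans (min_le_right _ _), by
        linarith [min_le_right (min d1 d2) ((D.a - d1 - d2) / 2)]⟩
  have o1 := zq2_iso h1 (ε := ε) (by linarith) (by linarith)
  have o2 := zq2_iso h2 (ε := ε) (by linarith) (by linarith)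
  have z1 := t1.zz
  have z2 := t2.zz
  have n1 := t1.ne (d1 + ε) (by linarith)
  have n2 := t2.ne (d2 + ε) (by linarith)
  rw [e1] at o1 z1 n1
  rw [e2] at o2 z2 n2
  rw [← add_assoc] at n1 n2
  have y1 : c1 ∈ ZZ F (Om x y (m1 * τ + d1 + ε)) ∅ :=
    ZZ_mono (Omc_sub_Om x y (by linarith)) (subset_refl _) z1
  have y2 : c2 ∈ ZZ F (Om y z (m2 * τ + d2 + ε)) ∅ :=
    ZZ_mono (Omc_sub_Om y z (by linarith)) (subset_refl _) z2
  have hp := hM.prod h1.1 h2.1 h3.1 k1 k2 (by rw [i1, i2, i3]) ε0 o1 o2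
    (c := (m1 + m2 : ℕ) * τ + D.a) (by linarith) (fun v hv => by
      by_cases a1 : v.2 < (m1 + m2 : ℕ) * τ
      · exact Or.inl (by linarith)
      by_cases a2 : (m1 + m2 : ℕ) * τ + D.a ≤ v.2
      · exact Or.inr a2
      exact Or.inl (by rw [(h3.window hv (not_lt.1 a1) (not_le.1 a2)).1, e3, el]))
    (ZZ_mono (subset_refl _) (empty_subset _) y1) (ZZ_mono (subset_refl _) (empty_subset _) y2)
    n1 n2
  obtain ⟨r, hr⟩ := t3.span D.a (by linarith) le_rfl (mul c1 c2)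
    (ZZ_mono (Om_mono x z (by linarith)) (subset_refl _) (mul_cyc y1 y2)) (mul_mem_HD t1.hd t2.hd)
  refine ⟨r, ?_, hr⟩
  rintro rfl
  rw [zero_smul, sub_zero] at hr
  exact hp (BB_le_NN _ _ hr)

end GD

end Pool.Agent.Fu
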