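import Mathlib
import Pool.Agent.P.MP_365c00_gt.ZQ2

/-! Closed short geodesics persist, with the same mean index. -/

set_option linter.unusedSectionVars false
set_option linter.unusedVariables false

open Set Topology Filter Metric

namespace Pool.Agent.Fu

variable {F : Type} [Field F] {M : Type} [MetricSpace M] {Z : Type} [TopologicalSpace Z]

/-- simultaneous approximation -/
theorem dirichlet {ι : Type} {U : Set ι} (hU : U.Finite) (P : ι → ℝ) (hP : ∀ i ∈ U, 0 < P i)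
    {P0 ε : ℝ} (h0 : 0 < P0) (hε : 0 < ε) (L : ℝ) :
    ∃ k : ℕ, 0 < k ∧ L < k * P0 ∧ ∀ i ∈ U, ∃ j : ℕ, |k * P0 - j * P i| < ε := by
  induction U, hU using Set.Finite.induction_on generalizing ε with
  | empty =>
    obtain ⟨k, hk⟩ := exists_nat_gt (max (L / P0) 0)
    refine ⟨k, by exact_mod_cast (le_max_right _ _).trans_lt hk, ?_, fun i hi => hi.elim⟩
    exact (div_lt_iff₀ h0).1 ((le_max_left _ _).trans_lt hk)
  | @insert a U ha hU ih =>
    have hPa : 0 < P a := hP a (mem_insert _ _)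
    obtain ⟨n, hn⟩ := exists_nat_gt (P a / ε)
    have hn0 : (0 : ℝ) < n := (div_pos hPa hε).trans hn
    obtain ⟨k0, hk0, hL, hj⟩ := ih (fun i hi => hP i (mem_insert_of_mem _ hi)) (div_pos hε hn0)
    obtain ⟨k, hk, hkn, hr⟩ := Real.exists_nat_abs_mul_sub_round_le (k0 * P0 / P a)
      (show 0 < n by exact_mod_cast hn0)
    have hk1 : (1 : ℝ) ≤ k := by exact_mod_cast hk
    have hkn' : (k : ℝ) ≤ n := by exact_mod_cast hkn
    have hk0' : (0 : ℝ) < k0 * P0 := mul_pos (by exact_mod_cast hk0) h0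
    refine ⟨k * k0, Nat.mul_pos hk hk0, ?_, ?_⟩
    · push_cast
      nlinarith
    · rintro i (rfl | hi)
      · have h1 : 0 ≤ round ((k : ℝ) * (k0 * P0 / P i)) := by
          rw [round_eq]
          exact Int.floor_nonneg.2 (by positivity)
        obtain ⟨j, hj⟩ := Int.eq_ofNat_of_zero_le h1
        refine ⟨j, ?_⟩
        rw [hj, Int.cast_natCast] at hr
        have h2 : ((k * k0 : ℕ) : ℝ) * P0 - j * P i = (k * (k0 * P0 / P i) - j) * P i := by
          push_cast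
          field_simp
        rw [h2, abs_mul, abs_of_pos hPa]
        have h3 := mul_le_mul_of_nonneg_right hr hPa.le
        refine h3.trans_lt ?_
        rw [div_lt_iff₀ hε] at hn
        rw [one_div, inv_mul_lt_iff₀ (by positivity)]
        nlinarith
      · obtain ⟨j, hj⟩ := hj i hi
        refine ⟨k * j, ?_⟩
        have h2 : ((k * k0 : ℕ) : ℝ) * P0 - ((k * j : ℕ) : ℝ) * P i = k * (k0 * P0 - j * P i) := by
          push_cast
          ring
        rw [h2, abs_mul, abs_of_pos (by linarith : (0 : ℝ) < k)]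
        rw [lt_div_iff₀ hn0] at hj
        nlinarith [abs_nonneg (k0 * P0 - j * P i)]

namespace GD
variable {D : GD M} {x y x' y' : M}

theorem zq7a_mem {u : D.G} {P l : ℝ} (hP : 0 < P) (hp : Function.Periodic (D.ev u) P)
    (hw : (u, l) ∈ D.J x y) (k : ℕ) : (u, l + k * P) ∈ D.J x y := by
  obtain ⟨h0, h1, h2⟩ := hw
  refine ⟨add_pos_of_pos_of_nonneg h0 (by positivity), h1, ?_⟩
  exact (hp.nat_mul k l).trans h2

theorem zq7a_id {u : D.G} {v : D.G × ℝ} {Q : ℝ} (hp : Function.Periodic (D.ev v.1) Q)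
    (hv : v ∈ D.J x y) (hu : (u, dist x y) ∈ D.J x y) (j : ℕ) (h0 : 0 < v.2 - j * Q)
    (h1 : v.2 - j * Q < D.a) : v.1 = u ∧ v.2 = dist x y + j * Q := by
  have h2 : D.ev v.1 (v.2 - j * Q) = y := ((hp.nat_mul j).sub_eq v.2).trans hv.2.2
  have h3 : v.2 - j * Q = dist x y := J_short (w := (v.1, v.2 - j * Q)) ⟨h0, hv.2.1, h2⟩ h1
  refine ⟨D.uniq _ _ _ h0 h1 (hv.2.1.trans hu.2.1.symm) ?_, by linarith⟩
  rw [h2, h3]
  exact hu.2.2.symm

theorem FP.iter {u : D.G} {P l : ℝ} {m : ℕ} (h : D.FP u P m) (hr : D.Reg x y)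
    (hw : (u, l) ∈ D.J x y) (k : ℕ) :
    (u, l + k * P) ∈ D.J x y ∧ D.ind u (l + k * P) = D.ind u l + k * m := by
  refine ⟨zq7a_mem h.1 h.2.1 hw k, ?_⟩
  induction k with
  | zero => simp
  | succ k ih =>
    have h1 := zq7a_mem h.1 h.2.1 hw k
    have h2 := zq7a_mem h.1 h.2.1 hw (k + 1)
    have e : l + ((k + 1 : ℕ) : ℝ) * P = l + k * P + P := by
      push_cast
      ring
    rw [e] at h2 ⊢
    rw [h.2.2.1 _ h1.1 (hr.2.1 _ h2), ih]
    ring

theorem Fin0.fp (h : D.Fin0 x y) {u : D.G} {l P : ℝ} (hw : (u, l) ∈ D.J x y) (hP : 0 < P)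
    (hp : Function.Periodic (D.ev u) P) : ∃ P' m, D.FP u P' m := by
  obtain ⟨-, L, U, -, hU, hL⟩ := h
  obtain ⟨k, hk⟩ := exists_nat_gt (L / P)
  rw [div_lt_iff₀ hP] at hk
  exact hU u (hL _ (zq7a_mem hP hp hw k) (lt_add_of_pos_of_lt hw.1 hk))

theorem MT.near (hM : D.MT F) (h : D.Fin0 x y) (h' : D.Fin0 x' y') (hd : dist x y < D.a / 8)
    (hd' : dist x' y' < D.a / 8) (hn : dist x' x + dist y y' < dist x y / 4) {u u' : D.G}
    (hu : (u, dist x y) ∈ D.J x y) (hu' : (u', dist x' y') ∈ D.J x' y') {P : ℝ} {m : ℕ}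
    (hf : D.FP u P m) : ∃ m' : ℕ, D.FP u' (m' * (P / m)) m' := by
  obtain ⟨hr, L, U, hU, hF, hL⟩ := h
  obtain ⟨hr', L', U', hU', hF', hL'⟩ := h'
  have hex : ∀ v : D.G, ∃ (Q : ℝ) (n : ℕ), v ∈ U ∪ U' → D.FP v Q n := fun v => by
    by_cases hv : v ∈ U ∪ U'
    · obtain ⟨Q, n, hq⟩ : ∃ Q n, D.FP v Q n := hv.elim (hF v) (hF' v)
      exact ⟨Q, n, fun _ => hq⟩
    · exact ⟨0, 0, fun h => absurd h hv⟩
  choose Q n hQ using hex
  have he : 0 < dist x y := hu.1
  have ha := D.a_pos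
  have d1 : 0 ≤ dist x' x := dist_nonneg
  have d2 : 0 ≤ dist y y' := dist_nonneg
  have key : ∀ ε : ℝ, 0 < ε → ε ≤ dist x y / 3 → u' ∈ U ∪ U' ∧
      ∃ k j : ℕ, 0 < k ∧ j * n u' = k * m ∧ |k * P - j * Q u'| < ε := by
    intro ε hε hε'
    obtain ⟨k, hk, hkL, hj⟩ := dirichlet (hU.union hU') Q (fun i hi => (hQ i hi).1) hf.1 hε
      (max L L')
    have hkL1 : L < k * P := (le_max_left _ _).trans_lt hkL
    have hkL2 : L' < k * P := (le_max_right _ _).trans_lt hkL
    obtain ⟨hw, hi⟩ := hf.iter hr hu k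
    rw [ind_short u he (by linarith), zero_add] at hi
    have hiso : D.Iso x y (u, dist x y + k * P).2 (2 * (dist x y / 3)) := by
      intro v hv hvl
      simp only at hvl ⊢
      obtain ⟨b1, b2⟩ := abs_le.1 hvl
      have hvU : v.1 ∈ U ∪ U' := Or.inl (hL v hv (by linarith))
      obtain ⟨j, hj⟩ := hj _ hvU
      obtain ⟨c1, c2⟩ := abs_lt.1 hj
      obtain ⟨e1, -⟩ := zq7a_id (hQ _ hvU).2.1 hv hu j (by linarith) (by linarith)
      have e2 := D.dist_ev u v.2 (dist x y + k * P) (hvl.trans_lt (by linarith))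
      have e3 : D.ev u v.2 = y := e1 ▸ hv.2.2
      have e4 : D.ev u (dist x y + k * P) = y := hw.2.2
      rw [e3, e4, dist_self] at e2
      exact sub_eq_zero.1 (abs_eq_zero.1 e2.symm)
    obtain ⟨v, hv, hvi, hvl⟩ := hM.tr hr hr' (by linarith) (by linarith) hw
      (r := dist x y / 3) (by linarith) hiso
    simp only at hvi hvl
    obtain ⟨b1, b2⟩ := abs_le.1 hvl
    have hvU : v.1 ∈ U ∪ U' := Or.inr (hL' v hv (by linarith))
    obtain ⟨j, hj⟩ := hj _ hvU
    obtain ⟨c1, c2⟩ := abs_lt.1 hj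
    obtain ⟨e1, e2⟩ := zq7a_id (hQ _ hvU).2.1 hv hu' j (by linarith) (by linarith)
    rw [e1] at hvU hj hvi e2
    obtain ⟨-, hi'⟩ := (hQ _ hvU).iter hr' hu' j
    rw [ind_short u' hu'.1 (by simp only; linarith), zero_add, ← e2, hvi, hi] at hi'
    exact ⟨hvU, k, j, hk, hi'.symm, hj⟩
  have hU0 := (key _ (by linarith) le_rfl).1
  have hq := hQ _ hU0
  have hm : (0 : ℝ) < m := by
    have := hf.2.2.2 P hf.1 le_rfl
    exact_mod_cast (show 0 < m by omega)
  have hn' : (0 : ℝ) < n u' := by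
    have := hq.2.2.2 _ hq.1 le_rfl
    exact_mod_cast (show 0 < n u' by omega)
  have hz : |P * n u' - m * Q u'| ≤ 0 := by
    refine le_of_forall_pos_le_add fun ε hε => ?_
    obtain ⟨-, k, j, hk, e1, e2⟩ := key (min (ε / n u') (dist x y / 3))
      (lt_min (div_pos hε hn') (by linarith)) (min_le_right _ _)
    have e3 := e2.trans_le (min_le_left _ _)
    rw [lt_div_iff₀ hn'] at e3
    have e4 : (j : ℝ) * n u' = k * m := by exact_mod_cast e1
    have hk1 : (1 : ℝ) ≤ k := by exact_mod_cast hk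
    have e5 : (k * P - j * Q u') * n u' = k * (P * n u' - m * Q u') := by
      linear_combination (-Q u') * e4
    have e6 : |k * P - j * Q u'| * n u' = k * |P * n u' - m * Q u'| := by
      rw [← abs_of_pos hn', ← abs_mul, abs_of_pos hn', e5, abs_mul,
        abs_of_pos (by linarith : (0 : ℝ) < k)]
    nlinarith [abs_nonneg (P * n u' - m * Q u')]
  have e : (n u' : ℝ) * (P / m) = Q u' := by
    have := sub_eq_zero.1 (abs_nonpos_iff.1 hz)
    field_simp
    linarith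
  exact ⟨n u', e ▸ hq⟩

end GD

end Pool.Agent.Fu
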