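import Mathlib
import Pool.Agent.P.MP_365c00_gt.ZQ7a

/-! All closed short geodesics have the same mean index. -/

set_option linter.unusedSectionVars false
set_option linter.unusedVariables false

open Set Topology Filter Metric

namespace Pool.Agent.Fu

variable {F : Type} [Field F] {M : Type} [MetricSpace M] {Z : Type} [TopologicalSpace Z]

theorem zq7_two {D : GD M} {u : D.G} {P : ℝ} {m : ℕ} (h : D.FP u P m) : (0 : ℝ) < m := by
  have := h.2.2.2 P h.1 le_rfl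
  exact_mod_cast (by omega : 0 < m)

/-- the property passes between close pairs -/
theorem zq7_loc {D : GD M} (hM : D.MT F) {τ : ℝ} {z p q : M × M}
    (hp : p ∈ ball z (dist z.1 z.2 / 100)) (hq : q ∈ ball z (dist z.1 z.2 / 100))
    (fp : D.Fin0 p.1 p.2) (fq : D.Fin0 q.1 q.2) (dp : dist p.1 p.2 < D.a / 8)
    (dq : dist q.1 q.2 < D.a / 8) {u : D.G} (hu : (u, dist p.1 p.2) ∈ D.J p.1 p.2) {m : ℕ}
    (hf : D.FP u (m * τ) m) (v : D.G) (h0 : D.ev v 0 = q.1) (h1 : D.ev v (dist q.1 q.2) = q.2) :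
    ∃ m : ℕ, D.FP v (m * τ) m := by
  rw [mem_ball, Prod.dist_eq, max_lt_iff] at hp hq
  have t1 := dist_triangle_right q.1 p.1 z.1
  have t2 := dist_triangle_right p.2 q.2 z.2
  have t3 := dist_triangle4 z.1 p.1 p.2 z.2
  rw [dist_comm z.1 p.1] at t3
  have t4 : 0 ≤ dist z.1 z.2 := dist_nonneg
  have hv : (v, dist q.1 q.2) ∈ D.J q.1 q.2 := ⟨dist_pos.2 fq.1.1, h0, h1⟩
  obtain ⟨m', hm'⟩ := hM.near fp fq dp dq (by linarith [hp.1, hp.2, hq.1, hq.2]) hu hv hf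
  rw [mul_div_cancel_left₀ τ (zq7_two hf).ne'] at hm'
  exact ⟨m', hm'⟩

theorem part1 (D : GD M) (hM : D.MT F) (hd : Dense {z : M × M | D.Fin0 z.1 z.2})
    (hc : IsPreconnected {z : M × M | 0 < dist z.1 z.2 ∧ dist z.1 z.2 < D.a / 8})
    (h0 : ∃ x y, D.Fin0 x y ∧ dist x y < D.a / 8 ∧ ∃ u, D.ev u 0 = x ∧ D.ev u (dist x y) = y ∧
      ∃ P > 0, Function.Periodic (D.ev u) P) :
    ∃ τ > 0, ∀ x y, D.Fin0 x y → dist x y < D.a / 8 → ∀ u, D.ev u 0 = x →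
      D.ev u (dist x y) = y → ∃ m : ℕ, D.FP u (m * τ) m := by
  obtain ⟨x0, y0, f0, d0, u0, a0, b0, P0, hP0, hp0⟩ := h0
  have r0 : 0 < dist x0 y0 := dist_pos.2 f0.1.1
  have j0 : (u0, dist x0 y0) ∈ D.J x0 y0 := ⟨r0, a0, b0⟩
  obtain ⟨P, m0, hf0⟩ := f0.fp j0 hP0 hp0
  have hm0 := zq7_two hf0
  have hf1 : D.FP u0 (m0 * (P / m0)) m0 := by rwa [mul_div_cancel₀ P hm0.ne']
  refine ⟨P / m0, div_pos hf0.1 hm0, ?_⟩
  generalize P / m0 = τ at hf1
  let T : Set (M × M) := {q | D.Fin0 q.1 q.2 → dist q.1 q.2 < D.a / 8 → ∀ v, D.ev v 0 = q.1 →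
    D.ev v (dist q.1 q.2) = q.2 → ∃ m : ℕ, D.FP v (m * τ) m}
  have key : ∀ z p : M × M, 0 < dist z.1 z.2 → p ∈ ball z (dist z.1 z.2 / 100) →
      D.Fin0 p.1 p.2 → dist p.1 p.2 < D.a / 8 → ∀ (u : D.G) (m : ℕ),
      (u, dist p.1 p.2) ∈ D.J p.1 p.2 → D.FP u (m * τ) m → z ∈ interior T := by
    intro z p hz hp fp dp u m hu hf
    refine mem_interior.2 ⟨ball z (dist z.1 z.2 / 100), ?_, isOpen_ball,
      mem_ball_self (by positivity)⟩
    intro q hq fq dq v h0 h1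
    exact zq7_loc hM hp hq fp fq dp dq hu hf v h0 h1
  have hs := hc.subset_of_closure_inter_subset (isOpen_interior (s := T))
    ⟨(x0, y0), ⟨r0, d0⟩, key (x0, y0) (x0, y0) r0 (mem_ball_self (by positivity)) f0 d0 u0 m0 j0 hf1⟩
    (by
      rintro z ⟨hz, z1, z2⟩
      have ho : IsOpen (ball z (dist z.1 z.2 / 100) ∩ {q : M × M | dist q.1 q.2 < D.a / 8}) :=
        isOpen_ball.inter (isOpen_lt continuous_dist continuous_const)
      have hn := mem_closure_iff.1 hz _ ho ⟨mem_ball_self (by positivity), z2⟩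
      obtain ⟨p, ⟨⟨p1, p2⟩, p3⟩, fp⟩ := hd.inter_open_nonempty _ (ho.inter isOpen_interior) hn
      have p2' : dist p.1 p.2 < D.a / 8 := p2
      have fp' : D.Fin0 p.1 p.2 := fp
      have ha := D.a_pos
      obtain ⟨u, u0, u1⟩ := D.ex p.1 p.2 fp'.1.1 (by linarith)
      obtain ⟨m, hm⟩ := interior_subset p3 fp' p2' u u0 u1
      exact key z p z1 p1 fp' p2' u m ⟨dist_pos.2 fp'.1.1, u0, u1⟩ hm)
  intro x y f d
  exact interior_subset (hs (show (x, y) ∈ _ from ⟨dist_pos.2 f.1.1, d⟩)) f d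

end Pool.Agent.Fu
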