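import Mathlib
import Pool.Agent.P.MP_365c00_gt.ZK
import Pool.Agent.P.MP_365c00_gt.ZG2

/-! Local homology of Euclidean spaces, orientations: definitions. -/

set_option linter.unusedSectionVars false
set_option linter.unusedVariables false

open Set Topology unitInterval TensorProduct

namespace Pool.Agent.Fu

variable {F : Type} [Field F] {X Y Z : Type} [TopologicalSpace X] [TopologicalSpace Y]
  [TopologicalSpace Z]

/-- `o` generates the local homology of `B` at `c`, which is concentrated in degree `k` -/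
structure Gen (F : Type) [Field F] (k : ℕ) (B : Set X) (c : X) (o : Ch F X) : Prop where
  zz : o ∈ ZZ F B (B \ {c})
  hd : o ∈ HD F X k
  ne : o ∉ NN F B (B \ {c})
  span : ∀ z ∈ ZZ F B (B \ {c}), ∃ r : F, z - r • o ∈ NN F B (B \ {c})

/-- `B` is homeomorphic to an open subset of the Euclidean space of dimension `e` -/
def Euc (e : ℕ) (B : Set X) : Prop :=
  ∃ (φ : X → Fin e → ℝ) (ψ : (Fin e → ℝ) → X) (V : Set (Fin e → ℝ)), IsOpen V ∧
    ContinuousOn φ B ∧ ContinuousOn ψ V ∧ MapsTo φ B V ∧ MapsTo ψ V B ∧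
    (∀ x ∈ B, ψ (φ x) = x) ∧ ∀ v ∈ V, φ (ψ v) = v

/-- the homology of `B` along compact sets is that of a manifold of dimension `e` -/
def EH (F : Type) [Field F] (e : ℕ) (B : Set X) : Prop :=
  ∀ K, IsCompact K → K ⊆ B → ∀ k, ∀ z ∈ ZZ F B (B \ K), z ∈ HD F X k →
    (e < k ∨ (k = e ∧ ∀ c ∈ K, z ∈ NN F B (B \ {c}))) → z ∈ NN F B (B \ K)

/-- an orientation -/
structure OR (F : Type) [Field F] (e : ℕ) (X : Type) [TopologicalSpace X] where
  o : X → Ch F X
  gen : ∀ c, Gen F e univ c (o c)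
  loc : ∀ c0, ∃ U ∈ nhds c0, ∃ z ∈ ZZ F univ Uᶜ, z ∈ HD F X e ∧
    ∀ c ∈ U, z - o c ∈ NN F univ (univ \ {c})

/-- finite disjoint unions of small compact sets -/
def Elem (Sm : Set X → Prop) (K : Set X) : Prop :=
  ∃ (n : ℕ) (P : ℕ → Set X), (∀ i, IsCompact (P i) ∧ Sm (P i)) ∧
    (∀ i j, i ≠ j → Disjoint (P i) (P j)) ∧ K = ⋃ i < n, P i

/-- unions of `J` elementary sets -/
def Cov (Sm : Set X → Prop) (J : ℕ) (C : Set X) : Prop :=
  ∃ K : ℕ → Set X, (∀ j, Elem Sm (K j)) ∧ C = ⋃ j < J, K j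

end Pool.Agent.Fu
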