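import Mathlib
import Pool.Agent.P.MP_365c00_gt.ZI0
import Pool.Agent.P.MP_365c00_gt.ZE0

/-! Morse theory: definitions. -/

set_option linter.unusedSectionVars false
set_option linter.unusedVariables false

open Set Filter Topology Metric Function
open scoped Manifold ContDiff
open Pool.Agent.GeoN

namespace Pool.Agent.Fu

section abstract
variable {X : Type} [TopologicalSpace X]

/-- the part of `W` below the level `b` -/
def Sub (W : Set X) (f : X → ℝ) (b : ℝ) : Set X := {x | x ∈ W ∧ f x < b}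

/-- near `z` the points of `W` can be moved so that `f` decreases -/
def Mv (W : Set X) (f : X → ℝ) (z : X) : Prop :=
  ∃ N ∈ 𝓝 z, ∃ m : X × ℝ → X, ContinuousOn m ((N ∩ W) ×ˢ Icc 0 1) ∧
    ∀ y ∈ N ∩ W, m (y, 0) = y ∧ ∀ s ∈ Ioc (0 : ℝ) 1, m (y, s) ∈ W ∧ f (m (y, s)) < f y

/-- `y'` is `y` or lies lower -/
def Dn (W : Set X) (f : X → ℝ) (y y' : X) : Prop := y' ∈ W ∧ (y' = y ∨ f y' < f y)

/-- `g` generates the relative homology of `(A, B)` -/
def GnR (F : Type) [Field F] (A B : Set X) (g : Ch F X) : Prop :=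
  g ∈ ZZ F A B ∧ g ∉ NN F A B ∧ ∀ z ∈ ZZ F A B, ∃ r : F, z - r • g ∈ NN F A B

end abstract

section metric
variable {M : Type} [MetricSpace M]

/-- sequences of corners -/
def Wk (x y : M) (k : ℕ) : Set (ℕ → M) := {c | c 0 = x ∧ ∀ j, k ≤ j → c j = y}

/-- the energy of a broken geodesic -/
noncomputable def Eb (k : ℕ) (t : ℕ → ℝ) (c : ℕ → M) : ℝ :=
  ∑ j ∈ Finset.range k, dist (c j) (c (j + 1)) ^ 2 / (t (j + 1) - t j)

/-- the energy on the scale of lengths -/
noncomputable def fE (k : ℕ) (t : ℕ → ℝ) (c : ℕ → M) : ℝ := √(t k * Eb k t c)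

/-- sampling a path -/
noncomputable def nod (k : ℕ) (t : ℕ → ℝ) (γ : Mo M) (j : ℕ) : M :=
  γ.1 (γ.2 * (t (min j k) / t k))

end metric

variable {E : Type} [NormedAddCommGroup E] [InnerProductSpace ℝ E] [FiniteDimensional ℝ E]
  {M : Type} [MetricSpace M] [ChartedSpace E M] [IsManifold 𝓘(ℝ, E) ∞ M]
  [CompactSpace M] [Nonempty M] [Nontrivial E] {g : Met E M}

/-- the corners on a geodesic -/
def nds (u : UG g) (k : ℕ) (t : ℕ → ℝ) (j : ℕ) : M := u.1 (t (min j k))

/-- the chart of the space of corners at `y` -/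
noncomputable def Th (y : ℕ → M) (v : ℕ → E) (j : ℕ) : M :=
  (κ E (y j)).symm (κ E (y j) (y j) + v j)

variable (E) in
/-- its inverse -/
noncomputable def Xi (k : ℕ) (y c : ℕ → M) (j : ℕ) : E :=
  if j < k then κ E (y j) (c j) - κ E (y j) (y j) else 0

variable (E) in
/-- the domain of the inverse -/
def Xd (k : ℕ) (y : ℕ → M) : Set (ℕ → M) := {c | ∀ j < k, c j ∈ (κ E (y j)).source}

variable (E) in
/-- the domain of the chart -/
def Td (k : ℕ) (y : ℕ → M) : Set (ℕ → E) :=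
  {v | ∀ j < k, κ E (y j) (y j) + v j ∈ (κ E (y j)).target}

end Pool.Agent.Fu
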