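import Mathlib
import Pool.Agent.P.MP_365c00_gt.ZR0

/-! Morse theory: deformations. -/

set_option linter.unusedSectionVars false
set_option linter.unusedVariables false

open Set Filter Topology Metric Function

namespace Pool.Agent.Fu

variable {X : Type} [TopologicalSpace X] [CompactSpace X] [T2Space X] {W : Set X} {f : X → ℝ}

theorem Dn.le {x y : X} (h : Dn W f x y) : f y ≤ f x :=
  h.2.elim (fun e => by rw [e]) le_of_lt

theorem Dn.trans' {x y z : X} (h : Dn W f x y) (h' : Dn W f y z) : Dn W f x z := by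
  refine ⟨h'.1, ?_⟩
  rcases h.2 with e | e
  · exact e ▸ h'.2
  · exact Or.inr (h'.le.trans_lt e)

/-- composing deformations -/
theorem Htp.comp_id {R R' R'' : X → X → Prop} {P P' : X → X} (h : Htp W R id P)
    (h' : Htp W R' id P') (hW : ∀ x ∈ W, ∀ y, R x y → y ∈ W ∧ R'' x y)
    (hR : ∀ x ∈ W, ∀ y z, R x y → R' y z → R'' x z) : Htp W R'' id (P' ∘ P) :=
  (h.mono subset_rfl fun x hx y r => (hW x hx y r).2).trans
    ((h'.comp h.cont_right.1 fun x hx => (hW x hx _ (h.cont_right.2 x hx)).1).mono subset_rfl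
      fun x hx z r => hR x hx _ z (h.cont_right.2 x hx) r)

/-- one local step -/
theorem am_local (hW : IsClosed W) {β : X → ℝ} (hβ : Continuous β) {z : X} (hz : Mv W f z) :
    ∃ N ∈ 𝓝 z, ∀ ε > 0, ∃ P, Htp W (fun y y' => Dn W f y y' ∧ |β y' - β y| ≤ ε) id P ∧
      ∀ y ∈ N ∩ W, f (P y) < f y := by
  classical
  obtain ⟨N, hN, m, hm, h⟩ := hz
  obtain ⟨K, hK, hKc, hKN⟩ := exists_mem_nhds_isClosed_subset (interior_mem_nhds.2 hN)
  obtain ⟨ρ, h0, h1, h01⟩ := exists_continuous_zero_one_of_isClosed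
    (isOpen_interior (s := K)).isClosed_compl (isClosed_singleton (x := z))
    (disjoint_singleton_right.2 fun hz => hz (mem_interior_iff_mem_nhds.2 hK))
  have hρ : ∀ y, y ∉ K → ρ y = 0 := fun y hy => h0 fun h' => hy (interior_subset h')
  have KN : K ⊆ N := hKN.trans interior_subset
  refine ⟨{y | 0 < ρ y}, (isOpen_lt continuous_const ρ.continuous).mem_nhds
    (show 0 < ρ z from (h1 rfl).symm ▸ one_pos), fun ε hε => ?_⟩
  obtain ⟨δ, δ0, δ1, hδ⟩ : ∃ δ : ℝ, 0 < δ ∧ δ ≤ 1 ∧ ∀ y ∈ K ∩ W, ∀ s ∈ Icc 0 δ,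
      |β (m (y, s)) - β y| ≤ ε := by
    have c1 : ContinuousOn (fun q : X × ℝ => |β (m q) - β q.1|) ((K ∩ W) ×ˢ Icc 0 1) :=
      ((hβ.comp_continuousOn (hm.mono (prod_mono (inter_subset_inter_left _ KN) subset_rfl))).sub
        (hβ.comp continuous_fst).continuousOn).abs
    have c2 : IsCompact ((K ∩ W) ×ˢ Icc (0 : ℝ) 1 ∩
        (fun q : X × ℝ => |β (m q) - β q.1|) ⁻¹' Ici ε) :=
      ((hKc.inter hW).isCompact.prod isCompact_Icc).of_isClosed_subset
        (c1.preimage_isClosed_of_isClosed ((hKc.inter hW).prod isClosed_Icc) isClosed_Ici)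
        inter_subset_left
    obtain ⟨η, η0, hη⟩ := c2.exists_forall_le' (f := Prod.snd) (a := 0)
      continuous_snd.continuousOn fun q hq => hq.1.2.1.lt_of_ne fun e => by
        have h3 : ε ≤ |β (m q) - β q.1| := hq.2
        rw [show q = (q.1, 0) from Prod.ext rfl e.symm, (h _ ⟨KN hq.1.1.1, hq.1.1.2⟩).1,
          sub_self, abs_zero] at h3
        exact h3.not_gt hε
    refine ⟨min (η / 2) 1, by positivity, min_le_right _ _, fun y hy s hs => ?_⟩
    by_contra! hc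
    have := hη (y, s) ⟨⟨hy, hs.1, hs.2.trans (min_le_right _ _)⟩, hc.le⟩
    linarith [hs.2.trans (min_le_left _ _)]
  have hs : ∀ u ∈ Icc (0 : ℝ) 1, ∀ y, u * (δ * ρ y) ∈ Icc 0 δ := fun u hu y =>
    ⟨mul_nonneg hu.1 (mul_nonneg δ0.le (h01 y).1), (mul_le_of_le_one_left
      (mul_nonneg δ0.le (h01 y).1) hu.2).trans (mul_le_of_le_one_right δ0.le (h01 y).2)⟩
  obtain ⟨H, hH⟩ : ∃ H : ℝ × X → X,
      ∀ p, H p = if p.2 ∈ N then m (p.2, p.1 * (δ * ρ p.2)) else p.2 := ⟨_, fun _ => rfl⟩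
  have hz : ∀ u y, y ∈ W → u * (δ * ρ y) = 0 → H (u, y) = y := fun u y hy e => by
    rw [hH]
    split_ifs with hn
    · rw [e]
      exact (h y ⟨hn, hy⟩).1
    · rfl
  have hp : ∀ u y, u * (δ * ρ y) ≠ 0 → y ∈ K ∧ H (u, y) = m (y, u * (δ * ρ y)) := fun u y e => by
    have hy : y ∈ K := by_contra fun hy => e (by rw [hρ y hy, mul_zero, mul_zero])
    exact ⟨hy, by rw [hH, if_pos (KN hy)]⟩
  refine ⟨fun y => H (1, y), ⟨H, fun p hp => ?_, fun y hy => hz 0 y hy (zero_mul _),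
    fun _ _ => rfl, fun u hu y hy => ?_⟩, fun y hy => ?_⟩
  · by_cases hk : p.2 ∈ K
    · have ho : {q : ℝ × X | q.2 ∈ interior N} ∈ 𝓝 p :=
        (isOpen_interior.preimage continuous_snd).mem_nhds (hKN hk)
      rw [← continuousWithinAt_inter ho]
      refine ContinuousOn.continuousWithinAt ?_ ⟨hp, hKN hk⟩
      refine (hm.comp (f := fun q : ℝ × X => (q.2, q.1 * (δ * ρ q.2))) (by fun_prop)
        fun q hq => ⟨⟨interior_subset hq.2, hq.1.2⟩, (hs _ hq.1.1 _).1,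
          (hs _ hq.1.1 _).2.trans δ1⟩).congr fun q hq => ?_
      rw [hH, if_pos (interior_subset hq.2)]
      rfl
    · have ho : {q : ℝ × X | q.2 ∈ Kᶜ} ∈ 𝓝 p :=
        (hKc.isOpen_compl.preimage continuous_snd).mem_nhds hk
      rw [← continuousWithinAt_inter ho]
      refine ContinuousOn.continuousWithinAt ?_ ⟨hp, hk⟩
      exact continuous_snd.continuousOn.congr fun q hq =>
        hz q.1 q.2 hq.1.2 (by rw [hρ _ hq.2, mul_zero, mul_zero])
  · by_cases e : u * (δ * ρ y) = 0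
    · rw [hz u y hy e]
      exact ⟨⟨hy, Or.inl rfl⟩, by simpa using hε.le⟩
    · obtain ⟨k1, k2⟩ := hp u y e
      obtain ⟨k3, k4⟩ := (h y ⟨KN k1, hy⟩).2 _
        ⟨(hs u hu y).1.lt_of_ne' e, (hs u hu y).2.trans δ1⟩
      rw [k2]
      exact ⟨⟨k3, Or.inr k4⟩, hδ y ⟨k1, hy⟩ _ (hs u hu y)⟩
  · have e : 0 < 1 * (δ * ρ y) := mul_pos one_pos (mul_pos δ0 hy.1)
    obtain ⟨k1, k2⟩ := hp 1 y e.ne'
    exact (congrArg f k2).trans_lt
      ((h y ⟨KN k1, hy.2⟩).2 _ ⟨e, (hs 1 ⟨zero_le_one, le_rfl⟩ y).2.trans δ1⟩).2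

/-- a small deformation which lowers `f` on a compact set -/
theorem am_step (hW : IsClosed W) (hf : Continuous f) {β : X → ℝ} (hβ : Continuous β) {C : Set X}
    (hC : IsCompact C) (hCW : C ⊆ W) (h : ∀ z ∈ C, Mv W f z) {ε : ℝ} (hε : 0 < ε) :
    ∃ η > 0, ∃ P, Htp W (fun y y' => Dn W f y y' ∧ |β y' - β y| ≤ ε) id P ∧
      ∀ y ∈ C, f (P y) ≤ f y - η := by
  obtain ⟨P, h1, h2⟩ := hC.induction_on (p := fun t => ∀ ε > 0, ∃ P,
      Htp W (fun y y' => Dn W f y y' ∧ |β y' - β y| ≤ ε) id P ∧ ∀ y ∈ t ∩ W, f (P y) < f y)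
    (fun ε hε => ⟨id, Htp.refl continuousOn_id fun x hx => ⟨⟨hx, Or.inl rfl⟩, by simpa using hε.le⟩,
      fun y hy => hy.1.elim⟩)
    (fun s t hst H ε hε => (H ε hε).imp fun P hP => ⟨hP.1, fun y hy => hP.2 y ⟨hst hy.1, hy.2⟩⟩)
    (fun s t H H' ε hε => by
      obtain ⟨P, p1, p2⟩ := H _ (half_pos hε)
      obtain ⟨P', q1, q2⟩ := H' _ (half_pos hε)
      refine ⟨P' ∘ P, p1.comp_id q1 (fun x _ y r => ⟨r.1.1, r.1, r.2.trans (half_le_self hε.le)⟩)
        fun x _ y z r r' => ⟨r.1.trans' r'.1, ?_⟩, fun y hy => ?_⟩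
      · linarith [abs_sub_le (β z) (β y) (β x), r.2, r'.2]
      · have d := (p1.cont_right.2 y hy.2).1
        have d' := (q1.cont_right.2 _ d.1).1.le
        rcases hy.1 with k | k
        · exact d'.trans_lt (p2 y ⟨k, hy.2⟩)
        · rcases d.2 with e | e
          · rw [comp_apply, e]
            exact q2 y ⟨k, hy.2⟩
          · exact d'.trans_lt e)
    (fun z hz => (am_local hW hβ (h z hz)).imp fun N hN =>
      ⟨mem_nhdsWithin_of_mem_nhds hN.1, hN.2⟩) ε hε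
  obtain ⟨η, η0, hη⟩ := hC.exists_forall_le' (f := fun y => f y - f (P y)) (a := 0)
    (hf.continuousOn.sub (hf.comp_continuousOn (h1.cont_right.1.mono hCW)))
    fun y hy => sub_pos.2 (h2 y ⟨hy, hCW hy⟩)
  exact ⟨η, η0, P, h1, fun y hy => by linarith [hη y hy]⟩

/-- pushing down through regular levels -/
theorem am_push (hW : IsClosed W) (hf : Continuous f) {b c : ℝ}
    (h : ∀ z ∈ W, b ≤ f z → f z ≤ c → Mv W f z) :
    ∃ Ψ, Htp W (Dn W f) id Ψ ∧ ∀ y ∈ W, f y ≤ c → f (Ψ y) < b := by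
  obtain ⟨η, η0, P, p1, p2⟩ := am_step hW hf (β := fun _ => 0) continuous_const
    (C := W ∩ f ⁻¹' Icc b c) (hW.inter (isClosed_Icc.preimage hf)).isCompact inter_subset_left
    (fun z hz => h z hz.1 hz.2.1 hz.2.2) one_pos
  have key : ∀ n : ℕ, ∃ Ψ, Htp W (Dn W f) id Ψ ∧
      ∀ y ∈ W, f y ≤ c → f (Ψ y) < b ∨ f (Ψ y) ≤ c - n * η := fun n => by
    induction n with
    | zero => exact ⟨id, Htp.refl continuousOn_id fun x hx => ⟨hx, Or.inl rfl⟩,
        fun y _ hy => Or.inr (by simpa using hy)⟩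
    | succ n ih =>
      obtain ⟨Ψ, q1, q2⟩ := ih
      refine ⟨P ∘ Ψ, q1.comp_id p1 (fun x _ y r => ⟨r.1, r⟩) fun x _ y z r r' => r.trans' r'.1,
        fun y hy hc => ?_⟩
      have d := q1.cont_right.2 y hy
      rcases lt_or_ge (f (Ψ y)) b with k | k
      · exact Or.inl ((p1.cont_right.2 _ d.1).1.le.trans_lt k)
      · have k1 := p2 _ ⟨d.1, k, d.le.trans hc⟩
        have k2 := (q2 y hy hc).resolve_left k.not_gt
        right
        push_cast
        rw [comp_apply]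
        linarith
  obtain ⟨n, hn⟩ := exists_nat_gt ((c - b) / η)
  rw [div_lt_iff₀ η0] at hn
  obtain ⟨Ψ, q1, q2⟩ := key n
  exact ⟨Ψ, q1, fun y hy hc => (q2 y hy hc).elim id fun k => by linarith⟩

/-- pushing down to a critical level -/
theorem am_crit (hW : IsClosed W) (hf : Continuous f) {y0 : X} {U : Set X} (hU : IsOpen U)
    (h0 : y0 ∈ U) {c : ℝ} (h : ∀ z ∈ W, z ≠ y0 → f y0 ≤ f z → f z ≤ c → Mv W f z) :
    ∃ Φ, Htp W (Dn W f) id Φ ∧ ∀ y ∈ W, f y ≤ c → f (Φ y) < f y0 ∨ Φ y ∈ U := by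
  obtain ⟨β, b0, b1, -⟩ := exists_continuous_zero_one_of_isClosed (isClosed_singleton (x := y0))
    hU.isClosed_compl (disjoint_singleton_left.2 fun hz => hz h0)
  obtain ⟨η, η0, P, p1, p2⟩ := am_step hW hf β.continuous
    (C := W ∩ f ⁻¹' Icc (f y0) c ∩ β ⁻¹' Ici (1 / 2))
    ((hW.inter (isClosed_Icc.preimage hf)).inter (isClosed_Ici.preimage β.continuous)).isCompact
    (fun z hz => hz.1.1) (fun z hz => h z hz.1.1 (fun e => by
      have k : 1 / 2 ≤ β z := hz.2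
      rw [b0 e] at k
      norm_num at k) hz.1.2.1 hz.1.2.2) one_half_pos
  obtain ⟨Ψ, q1, q2⟩ := am_push hW hf (b := f y0 + η) (c := c) fun z hz k1 k2 =>
    h z hz (fun e => by rw [e] at k1; linarith) (by linarith) k2
  refine ⟨P ∘ Ψ, q1.comp_id p1 (fun x _ y r => ⟨r.1, r⟩) fun x _ y z r r' => r.trans' r'.1,
    fun y hy hc => ?_⟩
  have d := q1.cont_right.2 y hy
  have d' := p1.cont_right.2 _ d.1
  rcases lt_or_ge (f (Ψ y)) (f y0) with k | k
  · exact Or.inl (d'.1.le.trans_lt k)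
  rcases lt_or_ge (β (Ψ y)) (1 / 2) with k' | k'
  · refine Or.inr (by_contra fun hn => ?_)
    have e : β (P (Ψ y)) = 1 := b1 hn
    linarith [(abs_le.1 d'.2).2]
  · have k1 := p2 _ ⟨⟨d.1, k, d.le.trans hc⟩, k'⟩
    have k2 := q2 y hy hc
    exact Or.inl (by rw [comp_apply]; linarith)

end Pool.Agent.Fu
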