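import Mathlib
import Pool.Agent.P.MP_365c00_gt.ZR2

/-! Morse theory: the two abstract theorems. -/

set_option linter.unusedSectionVars false
set_option linter.unusedVariables false

open Set Filter Topology Metric Function

namespace Pool.Agent.Fu

variable {F : Type} [Field F] {X : Type} [TopologicalSpace X] [CompactSpace X] [T2Space X]
  {W : Set X} {f : X → ℝ}

theorem zr3_sub {a : ℝ} {x y : X} (hx : x ∈ Sub W f a) (h : Dn W f x y) : y ∈ Sub W f a :=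
  ⟨h.1, h.le.trans_lt hx.2⟩

theorem am_zero (hW : IsClosed W) (hf : Continuous f) {b c : ℝ}
    (h : ∀ z ∈ W, b ≤ f z → f z < c → Mv W f z) :
    ZZ F (Sub W f c) (Sub W f b) ≤ NN F (Sub W f c) (Sub W f b) := by
  intro z hz
  obtain ⟨s, hs, hzs⟩ := exists_level (A := W) hf.continuousOn hz.1
  obtain ⟨Ψ, hΨ, hlow⟩ := am_push hW hf (b := b) (c := s)
    (fun y hy h1 h2 => h y hy h1 (h2.trans_lt hs))
  have h1 : mp Ψ z - mp id z ∈ NN F (Sub W f c) (Sub W f b) :=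
    hΨ.NN (A0 := Sub W f c) (B0 := Sub W f b) (fun x hx => hx.1)
      (fun x hx y hy => zr3_sub hx hy) (fun x hx y hy => zr3_sub hx.2 hy) hz
  rw [mp_id] at h1
  have h2 : mp Ψ z ∈ CC F (Sub W f b) :=
    mp_mem_CC (A := Sub W f s) (B := Sub W f b)
      (fun y hy => And.intro (hΨ.cont_right.2 y hy.1).1 (hlow y hy.1 hy.2.le)) hzs
  have h3 := Submodule.sub_mem _ (CC_le_NN (Sub W f c) _ h2) h1
  rwa [sub_sub_cancel] at h3

theorem am_one (hW : IsClosed W) (hf : Continuous f) {y0 : X} (hy : y0 ∈ W) {U : Set X}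
    (hU : IsOpen U) (h0 : y0 ∈ U) {c : ℝ} (hc : f y0 < c)
    (h : ∀ z ∈ W, z ≠ y0 → f y0 ≤ f z → f z < c → Mv W f z) {g : Ch F X}
    (hg : GnR F (Sub W f c ∩ U) (Sub W f (f y0) ∩ U) g)
    (hs : g ∈ CC F (Sub W f (f y0) ∪ {y0})) : GnR F (Sub W f c) (Sub W f (f y0)) g := by
  have hV : IsOpen {x | f x < f y0} := isOpen_lt hf continuous_const
  have e : (Sub W f c ∩ (U ∪ {x | f x < f y0})) ∩ U = Sub W f c ∩ U := by
    ext x
    exact ⟨fun hx => ⟨hx.1.1, hx.2⟩, fun hx => ⟨⟨hx.1, Or.inl hx.2⟩, hx.2⟩⟩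
  have hB : (Sub W f c ∩ (U ∪ {x | f x < f y0})) ∩ {x | f x < f y0} ⊆ Sub W f (f y0) :=
    fun x hx => ⟨hx.1.1.1, hx.2⟩
  have crit : ∀ s < c, ∃ Φ, Htp W (Dn W f) id Φ ∧ ContinuousOn Φ (Sub W f s) ∧
      MapsTo Φ (Sub W f s) (Sub W f c ∩ (U ∪ {x | f x < f y0})) ∧
      MapsTo Φ (Sub W f (f y0)) (Sub W f (f y0)) := by
    intro s hsc
    obtain ⟨Φ, hΦ, hlow⟩ := am_crit hW hf hU h0 (c := s)
      (fun y hy h1 h2 h3 => h y hy h1 h2 (h3.trans_lt hsc))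
    refine ⟨Φ, hΦ, hΦ.cont_right.1.mono fun x hx => hx.1, fun x hx => ⟨?_, ?_⟩,
      fun x hx => zr3_sub hx (hΦ.cont_right.2 x hx.1)⟩
    · exact zr3_sub ⟨hx.1, hx.2.trans hsc⟩ (hΦ.cont_right.2 x hx.1)
    · exact (hlow x hx.1 hx.2.le).symm
  refine ⟨ZZ_mono inter_subset_left inter_subset_left hg.1, fun hn => hg.2.1 ?_, fun z hz => ?_⟩
  · obtain ⟨k, hk, hgk⟩ := mem_NN.1 hn
    obtain ⟨s, hsc, hks⟩ := exists_level (A := W) hf.continuousOn hk
    obtain ⟨Φ, hΦ, c1, c2, c3⟩ := crit s hsc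
    have h1 : mp Φ g ∈ NN F (Sub W f c ∩ (U ∪ {x | f x < f y0})) (Sub W f (f y0)) :=
      mp_mem_NN c1 c2 c3 (mem_NN.2 ⟨k, hks, hgk⟩)
    have h2 : mp Φ g - mp id g ∈ NN F (Sub W f c ∩ (U ∪ {x | f x < f y0})) (Sub W f (f y0)) := by
      refine hΦ.NN (A0 := Sub W f (f y0) ∪ {y0}) (B0 := Sub W f (f y0)) ?_ ?_
        (fun x hx y hy => zr3_sub hx.2 hy) ⟨hs, CC_mono inter_subset_left hg.1.2⟩
      · rintro x (hx | rfl)
        · exact hx.1
        · exact hy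
      · rintro x (hx | rfl) y hxy
        · have h3 := zr3_sub hx hxy
          exact ⟨⟨h3.1, h3.2.trans hc⟩, Or.inr h3.2⟩
        · refine ⟨⟨hxy.1, hxy.le.trans_lt hc⟩, ?_⟩
          rcases hxy.2 with h3 | h3
          · exact Or.inl (h3 ▸ h0)
          · exact Or.inr h3
    rw [mp_id] at h2
    have h3 := Submodule.sub_mem _ h1 h2
    rw [sub_sub_cancel] at h3
    have h4 := exc_inj hU hV inter_subset_right hB
      (by rw [e]; exact ZZ_mono subset_rfl inter_subset_left hg.1) h3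
    rwa [e] at h4
  · obtain ⟨s, hsc, hzs⟩ := exists_level (A := W) hf.continuousOn hz.1
    obtain ⟨Φ, hΦ, c1, c2, c3⟩ := crit s hsc
    have h1 : mp Φ z - mp id z ∈ NN F (Sub W f c) (Sub W f (f y0)) :=
      hΦ.NN (A0 := Sub W f c) (B0 := Sub W f (f y0)) (fun x hx => hx.1)
        (fun x hx y hy => zr3_sub hx hy) (fun x hx y hy => zr3_sub hx.2 hy) hz
    rw [mp_id] at h1
    have h2 : mp Φ z ∈ ZZ F (Sub W f c ∩ (U ∪ {x | f x < f y0})) (Sub W f (f y0)) :=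
      mp_mem_ZZ c1 c2 (fun x hx => c3 hx.2) ⟨hzs, hz.2⟩
    obtain ⟨z', k1, k2, -⟩ := exc_surj hU hV inter_subset_right hB h2
    rw [e] at k1
    obtain ⟨r, hr⟩ := hg.2.2 z' k1
    refine ⟨r, ?_⟩
    have h3 := Submodule.add_mem _
      (Submodule.sub_mem _ (NN_mono inter_subset_left inter_subset_right k2) h1)
      (NN_mono inter_subset_left inter_subset_left hr)
    have e2 : mp Φ z - z' - (mp Φ z - z) + (z' - r • g) = z - r • g := by abel
    rwa [e2] at h3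

end Pool.Agent.Fu
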