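import Mathlib
import Pool.Agent.P.MP_365c00_gt.ZE0

/-! Generators of local homology. -/

set_option linter.unusedSectionVars false
set_option linter.unusedVariables false

open Set Topology unitInterval TensorProduct

namespace Pool.Agent.Fu

variable {F : Type} [Field F] {X Y Z : Type} [TopologicalSpace X] [TopologicalSpace Y]
  [TopologicalSpace Z]

variable {k k' : ℕ} {A : Set X} {B : Set Y} {c : X} {o o' : Ch F X}

theorem Gen.van (h : Gen F k A c o) {j : ℕ} (hj : j ≠ k) {z : Ch F X} (hz : z ∈ ZZ F A (A \ {c}))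
    (hd : z ∈ HD F X j) : z ∈ NN F A (A \ {c}) := by
  obtain ⟨r, hr⟩ := h.span z hz
  have h1 := dg_mem_NN j hr
  rwa [map_sub, map_smul, mem_HD.1 hd, dg_of_ne h.hd hj, smul_zero, sub_zero] at h1

theorem Gen.congr (h : Gen F k A c o) (h1 : o' ∈ ZZ F A (A \ {c})) (h2 : o' ∈ HD F X k)
    (h3 : o - o' ∈ NN F A (A \ {c})) : Gen F k A c o' := by
  refine ⟨h1, h2, fun hn => h.ne ?_, fun z hz => ?_⟩
  · have h4 := add_mem h3 hn
    rwa [sub_add_cancel] at h4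
  · obtain ⟨r, hr⟩ := h.span z hz
    refine ⟨r, ?_⟩
    have h4 := add_mem hr (Submodule.smul_mem _ r h3)
    rwa [smul_sub, sub_add_sub_cancel] at h4

theorem Gen.smul (h : Gen F k A c o) {r : F} (hr : r ≠ 0) : Gen F k A c (r • o) := by
  refine ⟨Submodule.smul_mem _ r h.zz, Submodule.smul_mem _ r h.hd, fun hn => h.ne ?_,
    fun z hz => ?_⟩
  · have h4 := Submodule.smul_mem _ r⁻¹ hn
    rwa [smul_smul, inv_mul_cancel₀ hr, one_smul] at h4
  · obtain ⟨s, hs⟩ := h.span z hz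
    refine ⟨s * r⁻¹, ?_⟩
    rwa [smul_smul, mul_assoc, inv_mul_cancel₀ hr, mul_one]

theorem Gen.of_ne (h : Gen F k A c o) (h1 : o' ∈ ZZ F A (A \ {c})) (h2 : o' ∈ HD F X k)
    (h3 : o' ∉ NN F A (A \ {c})) : Gen F k A c o' := by
  obtain ⟨r, hr⟩ := h.span o' h1
  have hr0 : r ≠ 0 := by
    rintro rfl
    rw [zero_smul, sub_zero] at hr
    exact h3 hr
  refine (h.smul hr0).congr h1 h2 ?_
  have h4 := neg_mem hr
  rwa [neg_sub] at h4

theorem ze1_cover {U : Set X} (hc : c ∈ U) : A ⊆ U ∪ {c}ᶜ := by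
  intro x _
  by_cases hx : x = c
  · exact Or.inl (hx ▸ hc)
  · exact Or.inr hx

theorem Gen.small [T1Space X] (h : Gen F k A c o) {U : Set X} (hU : IsOpen U) (hc : c ∈ U) :
    ∃ o' ∈ CC F (A ∩ U), Gen F k A c o' ∧ o - o' ∈ NN F A (A \ {c}) := by
  obtain ⟨o', h1, h2, h3⟩ := exc_surj hU isOpen_compl_singleton (ze1_cover hc)
    (fun x hx => hx) h.zz
  have h4 : o - o' ∈ NN F A (A \ {c}) := NN_mono subset_rfl inter_subset_right h2
  exact ⟨o', (mem_ZZ.1 h1).1,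
    h.congr (ZZ_mono inter_subset_left inter_subset_left h1) (h3 k h.hd) h4, h4⟩

theorem Gen.restrict [T1Space X] {U : Set X} (hU : IsOpen U) (hc : c ∈ U) (ho : o ∈ CC F (A ∩ U)) :
    Gen F k A c o ↔ Gen F k (A ∩ U) c o := by
  have e1 : (A ∩ U) \ {c} ⊆ A \ {c} := fun x hx => ⟨hx.1.1, hx.2⟩
  have e2 : (A \ {c}) ∩ U ⊆ (A ∩ U) \ {c} := fun x hx => ⟨⟨hx.1.1, hx.2⟩, hx.1.2⟩
  constructor
  · intro h
    refine ⟨mem_ZZ.2 ⟨ho, ?_⟩, h.hd, fun hn => h.ne (NN_mono inter_subset_left e1 hn),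
      fun z hz => ?_⟩
    · have h1 : bd o ∈ CC F ((A ∩ U) ∩ (A \ {c})) := by
        rw [CC_inter]
        exact ⟨bd_mem_CC ho, (mem_ZZ.1 h.zz).2⟩
      have e3 : (A ∩ U) ∩ (A \ {c}) ⊆ (A ∩ U) \ {c} := fun x hx => ⟨hx.1, hx.2.2⟩
      exact CC_mono e3 h1
    · obtain ⟨r, hr⟩ := h.span z (ZZ_mono inter_subset_left e1 hz)
      refine ⟨r, NN_mono subset_rfl e2 (exc_inj hU isOpen_compl_singleton (ze1_cover hc)
        (fun x hx => hx) ?_ hr)⟩
      exact sub_mem (ZZ_mono subset_rfl e1 hz)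
        (Submodule.smul_mem _ r (mem_ZZ.2 ⟨ho, (mem_ZZ.1 h.zz).2⟩))
  · intro h
    refine ⟨ZZ_mono inter_subset_left e1 h.zz, h.hd, fun hn => h.ne ?_, fun z hz => ?_⟩
    · exact NN_mono subset_rfl e2 (exc_inj hU isOpen_compl_singleton (ze1_cover hc)
        (fun x hx => hx) (ZZ_mono subset_rfl e1 h.zz) hn)
    · obtain ⟨z', h1, h2, -⟩ := exc_surj hU isOpen_compl_singleton (ze1_cover hc)
        (fun x hx => hx) hz
      obtain ⟨r, hr⟩ := h.span z' (ZZ_mono subset_rfl e2 h1)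
      refine ⟨r, ?_⟩
      have h4 := add_mem (NN_mono subset_rfl inter_subset_right h2)
        (NN_mono inter_subset_left e1 hr)
      rwa [sub_add_sub_cancel] at h4

/-- homeomorphisms of subsets -/
theorem Gen.equiv (h : Gen F k A c o) (hc : c ∈ A) {φ : X → Y} {ψ : Y → X} (hφ : ContinuousOn φ A)
    (hψ : ContinuousOn ψ B) (h1 : MapsTo φ A B) (h2 : MapsTo ψ B A) (h3 : ∀ x ∈ A, ψ (φ x) = x)
    (h4 : ∀ y ∈ B, φ (ψ y) = y) : Gen F k B (φ c) (mp φ o) := by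
  have e1 : MapsTo φ (A \ {c}) (B \ {φ c}) := by
    intro x hx
    refine ⟨h1 hx.1, fun he => hx.2 ?_⟩
    have he' : φ x = φ c := he
    show x = c
    rw [← h3 x hx.1, he', h3 c hc]
  have e2 : MapsTo ψ (B \ {φ c}) (A \ {c}) := by
    intro y hy
    refine ⟨h2 hy.1, fun he => hy.2 ?_⟩
    have he' : ψ y = c := he
    show y = φ c
    rw [← h4 y hy.1, he']
  have ho : o ∈ CC F A := (mem_ZZ.1 h.zz).1
  refine ⟨mp_mem_ZZ hφ h1 (e1.mono_left inter_subset_right) h.zz, mp_mem_HD φ h.hd,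
    fun hn => h.ne ?_, fun z hz => ?_⟩
  · have h5 := mp_mem_NN hψ h2 e2 hn
    rwa [mp_mp hφ hψ h1 ho, mp_eq_self (f := ψ ∘ φ) h3 ho] at h5
  · obtain ⟨r, hr⟩ := h.span _ (mp_mem_ZZ hψ h2 (e2.mono_left inter_subset_right) hz)
    refine ⟨r, ?_⟩
    have h5 := mp_mem_NN hφ h1 e1 hr
    have hz' : z ∈ CC F B := (mem_ZZ.1 hz).1
    rwa [map_sub, map_smul, mp_mp hψ hφ h2 hz', mp_eq_self (f := φ ∘ ψ) h4 hz'] at h5

/-- local homeomorphisms -/
theorem Gen.transfer [T1Space X] [T1Space Y] (h : Gen F k A c o) {U : Set X} {V : Set Y}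
    (hU : IsOpen U) (hV : IsOpen V) (hc : c ∈ A ∩ U) (ho : o ∈ CC F (A ∩ U)) {φ : X → Y} {ψ : Y → X}
    (hφ : ContinuousOn φ (A ∩ U)) (hψ : ContinuousOn ψ (B ∩ V)) (h1 : MapsTo φ (A ∩ U) (B ∩ V))
    (h2 : MapsTo ψ (B ∩ V) (A ∩ U)) (h3 : ∀ x ∈ A ∩ U, ψ (φ x) = x)
    (h4 : ∀ y ∈ B ∩ V, φ (ψ y) = y) : Gen F k B (φ c) (mp φ o) :=
  (Gen.restrict hV (h1 hc).2 (mp_mem_CC h1 ho)).2
    (((Gen.restrict hU hc.2 ho).1 h).equiv hc hφ hψ h1 h2 h3 h4)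

theorem gen_point (c : X) : Gen F 0 {c} c (pt c) := by
  refine ⟨mem_ZZ.2 ⟨pt_mem_CC rfl, by rw [bd_pt]; exact zero_mem _⟩, pt_mem_HD c, ?_,
    fun z hz => ⟨eps z, ?_⟩⟩
  · rw [Set.sdiff_self, NN_empty]
    exact pt_not_mem_BB _ _
  · have h1 : mp (fun _ => c) z = z :=
      mp_eq_self (A := {c}) (fun x hx => (mem_singleton_iff.1 hx).symm) (mem_ZZ.1 hz).1
    rw [← mp_const, h1, sub_self]
    exact zero_mem _

theorem gen_real : ∃ o, Gen F 1 (univ : Set ℝ) 0 o := by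
  let f : C(ℝ, ℝ) := ⟨fun x => 2 * x - 1, by fun_prop⟩
  have hb : bd (map f (iota F)) = pt 1 - pt (-1) := by
    rw [bd_map, bd_iota, map_sub, map_pt, map_pt]
    have e1 : f 1 = 1 := by show (2 : ℝ) * 1 - 1 = 1; norm_num
    have e2 : f 0 = -1 := by show (2 : ℝ) * 0 - 1 = -1; norm_num
    rw [e1, e2]
  have hs : (univ : Set ℝ) \ {0} = Ioi 0 ∪ Iio 0 := by
    ext x
    simp only [mem_sdiff, mem_univ, mem_singleton_iff, true_and, mem_union, mem_Ioi, mem_Iio]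
    exact ⟨fun h => (lt_or_gt_of_ne h).symm, fun h => h.elim ne_of_gt ne_of_lt⟩
  have hd : Disjoint (Ioi (0 : ℝ)) (Iio 0) := by
    rw [Set.disjoint_left]
    intro x h1 h2
    exact lt_asymm (mem_Ioi.1 h1) (mem_Iio.1 h2)
  have p1 : (1 : ℝ) ∈ Ioi (0 : ℝ) := by norm_num
  have p2 : (-1 : ℝ) ∈ Iio (0 : ℝ) := by norm_num
  have p3 : (-1 : ℝ) ∉ Ioi (0 : ℝ) := by norm_num
  refine ⟨map f (iota F), mem_ZZ.2 ⟨mem_CC_univ _, ?_⟩, map_mem_HD f iota_mem_HD,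
    fun hn => ?_, fun z hz => ?_⟩
  · rw [hb, hs]
    exact sub_mem (pt_mem_CC (Or.inl p1)) (pt_mem_CC (Or.inr p2))
  · obtain ⟨g, -, hg⟩ := mem_NN.1 hn
    rw [hs] at hg
    have h1 := bd_prj_disj isOpen_Ioi isOpen_Iio hd hg
    rw [map_sub bd, bd_bd, sub_zero, hb, map_sub _ (pt (1 : ℝ)), prj_pt_mem p1, prj_pt_not p3,
      sub_zero] at h1
    exact pt_not_mem_BB univ (1 : ℝ) (mem_BB.2 ⟨_, mem_CC_univ _, h1⟩)
  · have hw := (mem_ZZ.1 hz).2
    rw [hs] at hw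
    have h1 := prj_disj isOpen_Ioi isOpen_Iio hd hw
    have h2 := bd_prj_disj isOpen_Ioi isOpen_Iio hd hw
    have h3 := bd_prj_disj isOpen_Iio isOpen_Ioi hd.symm (by rwa [union_comm] at hw)
    rw [bd_bd, map_zero] at h2 h3
    obtain ⟨a1, ha1, hb1⟩ := mem_BB.1
      (star_BB ((convex_Ioi (0 : ℝ)).starConvex p1) (prj_mem_CC _ (bd z)) h2)
    obtain ⟨a2, ha2, hb2⟩ := mem_BB.1
      (star_BB ((convex_Iio (0 : ℝ)).starConvex p2) (prj_mem_CC _ (bd z)) h3)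
    have h4 : eps (prj (Iio (0 : ℝ)) (bd z)) = - eps (prj (Ioi (0 : ℝ)) (bd z)) := by
      rw [eq_neg_iff_add_eq_zero, add_comm, ← map_add, h1, eps_bd]
    rw [h4] at hb2
    generalize eps (prj (Ioi (0 : ℝ)) (bd z)) = r at hb1 hb2
    refine ⟨r, ?_⟩
    have h5 : bd (z - r • map f (iota F) - a1 - a2) = 0 := by
      rw [map_sub, map_sub, map_sub, map_smul, hb, hb1, hb2]
      generalize prj (Ioi (0 : ℝ)) (bd z) = w1 at h1 ⊢
      generalize prj (Iio (0 : ℝ)) (bd z) = w2 at h1 ⊢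
      rw [← h1, smul_sub, neg_smul]
      abel
    have h6 := star_BB (starConvex_univ (1 : ℝ)) (mem_CC_univ _) h5
    generalize eps (z - r • map f (iota F) - a1 - a2) = s at h6
    have h7 : s • pt (1 : ℝ) + a1 + a2 ∈ CC F ((univ : Set ℝ) \ {0}) := by
      rw [hs]
      exact add_mem (add_mem (Submodule.smul_mem _ _ (pt_mem_CC (Or.inl p1)))
        (CC_mono subset_union_left ha1)) (CC_mono subset_union_right ha2)
    have h8 := add_mem (BB_le_NN _ _ h6) (CC_le_NN univ _ h7)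
    have h9 : z - r • map f (iota F) - a1 - a2 - s • pt (1 : ℝ) + (s • pt (1 : ℝ) + a1 + a2) =
        z - r • map f (iota F) := by abel
    rwa [h9] at h8

theorem ze1_sl_lin (l m : Ch F X →ₗ[F] F) (r : F) (w : Ch F (X × Y)) :
    sl (l + r • m) w = sl l w + r • sl m w := by
  rw [zc9_sl, zc9_sl, zc9_sl, TensorProduct.map_add_left, TensorProduct.map_smul_left,
    LinearMap.add_apply, LinearMap.smul_apply, map_add, map_smul]

theorem Gen.prod [T1Space X] [T1Space Y] (h2 : (2 : F) ≠ 0) (h : Gen F k A c o) {c' : Y}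
    {p : Ch F Y} (h' : Gen F k' B c' p) : Gen F (k + k') (A ×ˢ B) (c, c') (cross o p) := by
  have hU : IsOpen (({c}ᶜ : Set X) ×ˢ (univ : Set Y)) := isOpen_compl_singleton.prod isOpen_univ
  have hV : IsOpen ((univ : Set X) ×ˢ ({c'}ᶜ : Set Y)) := isOpen_univ.prod isOpen_compl_singleton
  have e0 : (A ×ˢ B) \ {(c, c')} ⊆ ({c}ᶜ : Set X) ×ˢ (univ : Set Y) ∪ univ ×ˢ ({c'}ᶜ : Set Y) := by
    rintro ⟨x, y⟩ hx
    by_cases h1 : x = c
    · refine Or.inr ⟨trivial, fun h3 => hx.2 ?_⟩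
      have h3' : y = c' := h3
      rw [h1, h3']
      rfl
    · exact Or.inl ⟨h1, trivial⟩
  have e1 : ((A ×ˢ B) \ {(c, c')}) ∩ ({c}ᶜ : Set X) ×ˢ (univ : Set Y) = (A \ {c}) ×ˢ B := by
    ext ⟨x, y⟩
    constructor
    · intro hx
      exact ⟨⟨hx.1.1.1, hx.2.1⟩, hx.1.1.2⟩
    · intro hx
      exact ⟨⟨⟨hx.1.1, hx.2⟩, fun h3 => hx.1.2 (congrArg Prod.fst h3)⟩, hx.1.2, trivial⟩
  have e2 : ((A ×ˢ B) \ {(c, c')}) ∩ (univ : Set X) ×ˢ ({c'}ᶜ : Set Y) = A ×ˢ (B \ {c'}) := by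
    ext ⟨x, y⟩
    constructor
    · intro hx
      exact ⟨hx.1.1.1, hx.1.1.2, hx.2.2⟩
    · intro hx
      exact ⟨⟨⟨hx.1, hx.2.1⟩, fun h3 => hx.2.2 (congrArg Prod.snd h3)⟩, trivial, hx.2.2⟩
  have e3 : (A \ {c}) ×ˢ B ⊆ (A ×ˢ B) \ {(c, c')} := e1 ▸ inter_subset_left
  have e4 : A ×ˢ (B \ {c'}) ⊆ (A ×ˢ B) \ {(c, c')} := e2 ▸ inter_subset_left
  obtain ⟨l0, hl1, hl0⟩ := exists_dual h.ne
  obtain ⟨ho1, ho2⟩ := mem_ZZ.1 h.zz
  obtain ⟨hp1, hp2⟩ := mem_ZZ.1 h'.zz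
  have hbd : bd (cross o p) ∈ CC F ((A \ {c}) ×ˢ B) ⊔ CC F (A ×ˢ (B \ {c'})) := by
    rw [bd_cross]
    exact Submodule.add_mem_sup (cross_mem_CC ho2 hp1) (cross_mem_CC (om_mem_CC ho1) hp2)
  refine ⟨ZZ_mono subset_rfl (union_subset e3 e4) (cross_mem_ZZ h.zz h'.zz),
    cross_mem_HD h.hd h'.hd, fun hn => h'.ne ?_, fun z hz => ?_⟩
  · have h3 := NN_small_two hU hV Set.sdiff_subset e0 (by rwa [e1, e2]) hn
    rw [e1, e2] at h3
    have h4 := sl_NN_of_null h3 hl0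
    rwa [sl_cross, hl1, one_smul] at h4
  · obtain ⟨z', hz1, hz2, hz3, -⟩ := ZZ_small_two hU hV e0 hz
    rw [e1, e2] at hz2
    obtain ⟨r, hr⟩ := h'.span _ (sl_mem_ZZ hz1 hz2 hl0)
    refine ⟨r, ?_⟩
    have hw1 : z' - r • cross o p ∈ CC F (A ×ˢ B) :=
      sub_mem hz1 (Submodule.smul_mem _ r (cross_mem_CC ho1 hp1))
    have hw2 : bd (z' - r • cross o p) ∈ CC F ((A \ {c}) ×ˢ B) ⊔ CC F (A ×ˢ (B \ {c'})) := by
      rw [map_sub, map_smul]
      exact sub_mem hz2 (Submodule.smul_mem _ r hbd)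
    have h5 := ku h2 Set.sdiff_subset Set.sdiff_subset subset_rfl subset_rfl hw1 hw2 (fun l hl => by
      have h6 : l = (l - l o • l0) + l o • l0 := (sub_add_cancel _ _).symm
      rw [h6, ze1_sl_lin]
      refine add_mem (sl_mem_NN Set.sdiff_subset hw1 hw2 fun a ha => ?_)
        (Submodule.smul_mem _ _ ?_)
      · obtain ⟨s, hs⟩ := h.span a ha
        have h7 := hl _ hs
        have h8 := hl0 _ hs
        rw [map_sub, map_smul, sub_eq_zero] at h7 h8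
        rw [LinearMap.sub_apply, LinearMap.smul_apply, h7, h8, hl1]
        simp [mul_comm]
      · rwa [map_sub, map_smul, sl_cross, hl1, one_smul])
    have h8 : BB F (A ×ˢ B) ⊔ (CC F ((A \ {c}) ×ˢ B) ⊔ CC F (A ×ˢ (B \ {c'}))) ≤
        NN F (A ×ˢ B) ((A ×ˢ B) \ {(c, c')}) :=
      sup_le (BB_le_NN _ _) (sup_le ((CC_mono e3).trans (CC_le_NN _ _))
        ((CC_mono e4).trans (CC_le_NN _ _)))
    have h6 := h8 h5
    have h7 := add_mem (NN_mono subset_rfl inter_subset_right hz3) h6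
    rwa [sub_add_sub_cancel] at h7

theorem ze1_homeo (e : X ≃ₜ Y) (h : Gen F k univ c o) : Gen F k univ (e c) (mp e o) :=
  h.equiv (mem_univ _) (ψ := e.symm) e.continuous.continuousOn e.symm.continuous.continuousOn
    (mapsTo_univ _ _) (mapsTo_univ _ _) (fun x _ => e.symm_apply_apply x)
    (fun y _ => e.apply_symm_apply y)

theorem ze1_pi (h2 : (2 : F) ≠ 0) (n : ℕ) : ∃ o, Gen F n (univ : Set (Fin n → ℝ)) 0 o := by
  induction n with
  | zero =>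
    have e : (univ : Set (Fin 0 → ℝ)) = {0} := by
      ext x
      simp [Subsingleton.elim x 0]
    exact ⟨_, e ▸ gen_point 0⟩
  | succ n ih =>
    obtain ⟨p, hp⟩ := ih
    obtain ⟨o, ho⟩ := gen_real (F := F)
    have h3 := ho.prod h2 hp
    rw [univ_prod_univ, add_comm] at h3
    have h4 := h3.equiv (B := (univ : Set (Fin (n + 1) → ℝ))) (mem_univ _)
      (φ := fun w => Fin.cons w.1 w.2) (ψ := fun v => (v 0, Fin.tail v))
      (Continuous.continuousOn (by fun_prop)) (Continuous.continuousOn (by unfold Fin.tail; fun_prop))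
      (mapsTo_univ _ _) (mapsTo_univ _ _) (fun x _ => by simp) (fun y _ => by simp)
    have e : (Fin.cons (0 : ℝ) (0 : Fin n → ℝ) : Fin (n + 1) → ℝ) = 0 := by
      funext i
      refine Fin.cases ?_ (fun j => ?_) i <;> simp
    exact ⟨_, e ▸ h4⟩

theorem exists_gen (h2 : (2 : F) ≠ 0) (W : Type) [NormedAddCommGroup W] [NormedSpace ℝ W]
    [FiniteDimensional ℝ W] : ∃ o, Gen F (Module.finrank ℝ W) (univ : Set W) 0 o := by
  obtain ⟨o, ho⟩ := ze1_pi h2 (Module.finrank ℝ W)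
  let e : (Fin (Module.finrank ℝ W) → ℝ) ≃L[ℝ] W :=
    ContinuousLinearEquiv.ofFinrankEq (by simp)
  have h3 := ze1_homeo e.toHomeomorph ho
  have e0 : e.toHomeomorph 0 = 0 := map_zero e
  exact ⟨_, e0 ▸ h3⟩

end Pool.Agent.Fu
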