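import Mathlib
import Pool.Agent.P.MP_365c00_gt.ZR0
import Pool.Agent.P.MP_365c00_gt.ZE1

/-! Morse theory: homotopy equivalences of pairs and the local model. -/

set_option linter.unusedSectionVars false
set_option linter.unusedVariables false

open Set Filter Topology Metric Function

namespace Pool.Agent.Fu

variable {F : Type} [Field F] {X Y : Type} [TopologicalSpace X] [TopologicalSpace Y]

/-- a homotopy equivalence of pairs is an isomorphism on relative homology -/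
theorem QI_htp {A B : Set X} {A' B' : Set Y} {f : X → Y} {k : Y → X} (hB : B ⊆ A) (hB' : B' ⊆ A')
    (hf : ContinuousOn f A) (hk : ContinuousOn k A') (f1 : MapsTo f A A') (f2 : MapsTo f B B')
    (k1 : MapsTo k A' A) (k2 : MapsTo k B' B)
    (h1 : Htp A (fun x x' => x' ∈ A ∧ (x ∈ B → x' ∈ B)) id (k ∘ f))
    (h2 : Htp A' (fun y y' => y' ∈ A' ∧ (y ∈ B' → y' ∈ B')) id (f ∘ k)) :
    QI (F := F) bd bd (mp f) (CC F A) (CC F B) (CC F A') (CC F B') := by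
  refine ⟨fun c hc hb hn => ?_, fun c hc hb => ?_⟩
  · have hn' : mp f c ∈ NN F A' B' := hn
    have h3 := mp_mem_NN hk k1 k2 hn'
    rw [mp_mp hf hk f1 hc] at h3
    have h4 := h1.NN (A0 := A) (B0 := B) (A' := A) (B' := B) subset_rfl (fun x _ y hy => hy.1)
      (fun x hx y hy => hy.2 hx.2) (mem_ZZ.2 ⟨hc, hb⟩)
    rw [mp_id] at h4
    have h5 := sub_mem h3 h4
    rwa [sub_sub_cancel] at h5
  · have hz : c ∈ ZZ F A' B' := mem_ZZ.2 ⟨hc, hb⟩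
    have h3 := mem_ZZ.1 (mp_mem_ZZ hk k1 (k2.mono_left inter_subset_right) hz)
    have h4 := h2.NN (A0 := A') (B0 := B') (A' := A') (B' := B') subset_rfl (fun x _ y hy => hy.1)
      (fun x hx y hy => hy.2 hx.2) hz
    rw [mp_id, ← mp_mp hk hf k1 hc] at h4
    exact ⟨mp k c, h3.1, h3.2, h4⟩

theorem GnR.map {A B : Set X} {A' B' : Set Y} {f : X → Y} (hB : B ⊆ A) (hf : ContinuousOn f A)
    (f1 : MapsTo f A A') (f2 : MapsTo f B B')
    (hq : QI (F := F) bd bd (mp f) (CC F A) (CC F B) (CC F A') (CC F B')) {g : Ch F X}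
    (h : GnR F A B g) : GnR F A' B' (mp f g) := by
  obtain ⟨hz, hn, hs⟩ := h
  refine ⟨mp_mem_ZZ hf f1 (f2.mono_left inter_subset_right) hz,
    fun hm => hn (hq.1 g (mem_ZZ.1 hz).1 (mem_ZZ.1 hz).2 hm), fun z hz' => ?_⟩
  obtain ⟨c, hc, hb, hm⟩ := hq.2 z (mem_ZZ.1 hz').1 (mem_ZZ.1 hz').2
  have hm' : mp f c - z ∈ NN F A' B' := hm
  obtain ⟨r, hr⟩ := hs c (mem_ZZ.2 ⟨hc, hb⟩)
  have h3 := mp_mem_NN hf f1 f2 hr
  rw [map_sub, map_smul] at h3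
  have h4 := sub_mem h3 hm'
  rw [sub_sub_sub_cancel_left] at h4
  exact ⟨r, h4⟩

theorem QI_zero {A B : Set X} {A' B' : Set Y} {f : X → Y} (hB : B ⊆ A) (hf : ContinuousOn f A)
    (f1 : MapsTo f A A') (f2 : MapsTo f B B')
    (hq : QI (F := F) bd bd (mp f) (CC F A) (CC F B) (CC F A') (CC F B'))
    (h : ZZ F A B ≤ NN F A B) : ZZ F A' B' ≤ NN F A' B' := by
  intro z hz
  obtain ⟨c, hc, hb, hm⟩ := hq.2 z (mem_ZZ.1 hz).1 (mem_ZZ.1 hz).2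
  have hm' : mp f c - z ∈ NN F A' B' := hm
  have h4 := sub_mem (mp_mem_NN hf f1 f2 (h (mem_ZZ.2 ⟨hc, hb⟩))) hm'
  rwa [sub_sub_cancel] at h4

/-- the local model at a nondegenerate critical point -/
theorem gn_model {P P' : Type} [NormedAddCommGroup P] [NormedSpace ℝ P] [NormedAddCommGroup P']
    [NormedSpace ℝ P'] {Θ : P × P' → X} {Ξ : X → P × P'} {B L : Set X} {ρ : ℝ} (hρ : 0 < ρ)
    (hL : L ⊆ B) (hΘ : ContinuousOn Θ (ball 0 ρ)) (hΞ : ContinuousOn Ξ B)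
    (m1 : MapsTo Θ (ball 0 ρ) B) (m2 : MapsTo Ξ B (ball 0 ρ))
    (i1 : ∀ p ∈ ball 0 ρ, Ξ (Θ p) = p) (i2 : ∀ x ∈ B, Θ (Ξ x) = x)
    (c1 : ∀ w ∈ ball (0 : P) ρ, w ≠ 0 → Θ (w, 0) ∈ L) (c2 : ∀ w' ∈ ball (0 : P') ρ, Θ (0, w') ∉ L)
    (c3 : ∀ p ∈ ball (0 : P × P') ρ, Θ p ∈ L → ∀ s ∈ Icc (0 : ℝ) 1, Θ (p.1, s • p.2) ∈ L)
    {r : ℕ} {o : Ch F P} (ho : Gen F r univ 0 o) (hc : o ∈ CC F (ball 0 ρ)) :
    GnR F B L (mp (fun w => Θ (w, 0)) o) := by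
  have b0 : ∀ p ∈ ball (0 : P × P') ρ, ∀ s ∈ Icc (0 : ℝ) 1,
      (p.1, s • p.2) ∈ ball (0 : P × P') ρ := by
    intro p hp s hs
    rw [mem_ball_zero_iff, Prod.norm_def, max_lt_iff] at hp ⊢
    refine ⟨hp.1, lt_of_le_of_lt ?_ hp.2⟩
    change ‖s • p.2‖ ≤ ‖p.2‖
    rw [norm_smul, Real.norm_of_nonneg hs.1]
    exact mul_le_of_le_one_left (norm_nonneg _) hs.2
  have b1 : ∀ w ∈ ball (0 : P) ρ, ((w, 0) : P × P') ∈ ball (0 : P × P') ρ := by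
    intro w hw
    rw [mem_ball_zero_iff] at hw
    rw [mem_ball_zero_iff, Prod.norm_def, max_lt_iff]
    exact ⟨hw, by simpa using hρ⟩
  have b2 : ∀ p ∈ ball (0 : P × P') ρ, p.1 ∈ ball (0 : P) ρ ∧ p.2 ∈ ball (0 : P') ρ := by
    intro p hp
    rw [mem_ball_zero_iff, Prod.norm_def, max_lt_iff] at hp
    exact ⟨mem_ball_zero_iff.2 hp.1, mem_ball_zero_iff.2 hp.2⟩
  have hs : ∀ u ∈ Icc (0 : ℝ) 1, 1 - u ∈ Icc (0 : ℝ) 1 := fun u hu =>
    ⟨by linarith [hu.2], by linarith [hu.1]⟩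
  have hg := (Gen.restrict (A := univ) isOpen_ball (mem_ball_self hρ)
    (by rwa [univ_inter])).1 ho
  rw [univ_inter] at hg
  have hf : ContinuousOn (fun w : P => Θ (w, 0)) (ball 0 ρ) := hΘ.comp (by fun_prop) b1
  have f1 : MapsTo (fun w : P => Θ (w, 0)) (ball 0 ρ) B := fun w hw => m1 (b1 w hw)
  have f2 : MapsTo (fun w : P => Θ (w, 0)) (ball 0 ρ \ {0}) L := fun w hw => c1 w hw.1 hw.2
  refine GnR.map sdiff_subset hf f1 f2 ?_ ⟨hg.zz, hg.ne, hg.span⟩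
  refine QI_htp (k := fun x => (Ξ x).1) sdiff_subset hL hf
    (continuous_fst.comp_continuousOn hΞ) f1 f2 (fun x hx => (b2 _ (m2 hx)).1) ?_ ?_ ?_
  · intro x hx
    refine ⟨(b2 _ (m2 (hL hx))).1, fun h0 => c2 _ (b2 _ (m2 (hL hx))).2 ?_⟩
    have h1 : (Ξ x).1 = 0 := h0
    rw [← h1, Prod.mk.eta, i2 x (hL hx)]
    exact hx
  · refine (Htp.refl continuousOn_id fun x hx => ⟨hx, id⟩).congr (fun _ _ => rfl) fun w hw => ?_
    change w = (Ξ (Θ (w, 0))).1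
    rw [i1 _ (b1 w hw)]
  · have hΞ' : ContinuousOn (fun w : ℝ × X => Ξ w.2) (Icc 0 1 ×ˢ B) :=
      hΞ.comp continuous_snd.continuousOn fun w hw => hw.2
    refine ⟨fun w => Θ ((Ξ w.2).1, (1 - w.1) • (Ξ w.2).2), ?_, fun x hx => ?_, fun x hx => ?_,
      fun u hu x hx => ⟨m1 (b0 _ (m2 hx) _ (hs u hu)), fun hx' => ?_⟩⟩
    · exact hΘ.comp (hΞ'.fst.prodMk
        ((continuousOn_const.sub continuous_fst.continuousOn).smul hΞ'.snd))
        fun w hw => b0 _ (m2 hw.2) _ (hs _ hw.1)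
    · simpa using i2 x hx
    · simp
    · exact c3 _ (m2 hx) (by rwa [i2 x hx]) _ (hs u hu)

end Pool.Agent.Fu
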