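import Mathlib
import Pool.Agent.P.MP_365c00_gt.ZR0
import Pool.Agent.P.MP_365c00_gt.ZI1
import Pool.Agent.P.MP_365c00_gt.ZP2

/-! Morse theory: broken geodesics and sampled paths. -/

set_option linter.unusedSectionVars false
set_option linter.unusedVariables false

open Set Filter Topology Metric Function

namespace Pool.Agent.Fu

variable {M : Type} [MetricSpace M] {δ l : ℝ} {k : ℕ} {t : ℕ → ℝ} {x y : M}

theorem Part.mono' {δ' : ℝ} (ht : Part δ l k t) (h : δ ≤ δ') : Part δ' l k t :=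
  ⟨ht.1, ht.2.1, ht.2.2.1, fun j hj => ⟨(ht.2.2.2 j hj).1, (ht.2.2.2 j hj).2.trans_le h⟩⟩

theorem Wk_closed (x y : M) (k : ℕ) : IsClosed (Wk x y k) := by
  have e : Wk x y k = {c | c 0 = x} ∩ ⋂ j, ⋂ (_ : k ≤ j), {c : ℕ → M | c j = y} := by
    ext c
    simp [Wk]
  rw [e]
  exact (isClosed_eq (continuous_apply 0) continuous_const).inter
    (isClosed_iInter fun j => isClosed_iInter fun _ =>
      isClosed_eq (continuous_apply j) continuous_const)

theorem Eb_cont (k : ℕ) (t : ℕ → ℝ) : Continuous (Eb (M := M) k t) := by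
  unfold Eb
  fun_prop

theorem fE_cont (k : ℕ) (t : ℕ → ℝ) : Continuous (fE (M := M) k t) :=
  (continuous_const.mul (Eb_cont k t)).sqrt

theorem Eb_nonneg (ht : Part δ l k t) (c : ℕ → M) : 0 ≤ Eb k t c :=
  Finset.sum_nonneg fun j hj =>
    div_nonneg (sq_nonneg _) (sub_pos.2 (ht.2.2.2 j (Finset.mem_range.1 hj)).1).le

theorem zr4_sum (ht : Part δ l k t) : ∑ j ∈ Finset.range k, (t (j + 1) - t j) = l := by
  rw [Finset.sum_range_sub, ht.2.1, ht.2.2.1, sub_zero]

theorem zr4_fE (ht : Part δ l k t) (c : ℕ → M) : fE k t c = √(l * Eb k t c) := by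
  rw [fE, ht.2.2.1]

theorem zr4_sq (ht : Part δ l k t) (c : ℕ → M) : fE k t c ^ 2 = l * Eb k t c := by
  rw [zr4_fE ht, Real.sq_sqrt (mul_nonneg ht.pos.le (Eb_nonneg ht c))]

theorem fE_lt_iff (ht : Part δ l k t) (c c' : ℕ → M) :
    fE k t c < fE k t c' ↔ Eb k t c < Eb k t c' := by
  rw [zr4_fE ht, zr4_fE ht, Real.sqrt_lt_sqrt_iff (mul_nonneg ht.pos.le (Eb_nonneg ht c)),
    mul_lt_mul_iff_right₀ ht.pos]

/-- Cauchy-Schwarz -/
theorem sum_le_fE (ht : Part δ l k t) (c : ℕ → M) :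
    ∑ j ∈ Finset.range k, dist (c j) (c (j + 1)) ≤ fE k t c := by
  have h := Finset.sq_sum_div_le_sum_sq_div (Finset.range k) (fun j => dist (c j) (c (j + 1)))
    (g := fun j => t (j + 1) - t j) fun j hj => sub_pos.2 (ht.2.2.2 j (Finset.mem_range.1 hj)).1
  rw [zr4_sum ht, div_le_iff₀ ht.pos, mul_comm] at h
  rw [zr4_fE ht]
  exact Real.le_sqrt_of_sq_le h

theorem step_lt (ht : Part δ l k t) {a b : ℝ} (ha : 0 < a) (hb : b ^ 2 * δ ≤ a ^ 2 * l)
    {c : ℕ → M} (hc : fE k t c < b) : ∀ j < k, dist (c j) (c (j + 1)) < a := by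
  intro j hj
  have hl := ht.pos
  obtain ⟨h1, h2⟩ := ht.2.2.2 j hj
  have h0 : 0 ≤ fE k t c := Real.sqrt_nonneg _
  have h3 : l * Eb k t c < b ^ 2 := by
    rw [← zr4_sq ht]
    exact pow_lt_pow_left₀ hc h0 two_ne_zero
  have h4 : dist (c j) (c (j + 1)) ^ 2 / (t (j + 1) - t j) ≤ Eb k t c :=
    Finset.single_le_sum (f := fun j => dist (c j) (c (j + 1)) ^ 2 / (t (j + 1) - t j))
      (fun j hj => div_nonneg (sq_nonneg _)
        (sub_pos.2 (ht.2.2.2 j (Finset.mem_range.1 hj)).1).le) (Finset.mem_range.2 hj)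
  rw [div_le_iff₀ (sub_pos.2 h1)] at h4
  have h5 : 0 < b ^ 2 := pow_pos (h0.trans_lt hc) 2
  have h6 := mul_le_mul_of_nonneg_right h4 hl.le
  have h7 := mul_lt_mul_of_pos_right h3 (sub_pos.2 h1)
  have h8 := mul_lt_mul_of_pos_left h2 h5
  have h9 : dist (c j) (c (j + 1)) ^ 2 * l < a ^ 2 * l := by linarith
  exact lt_of_pow_lt_pow_left₀ 2 ha.le (lt_of_mul_lt_mul_right h9 hl.le)

theorem brk_le (S : GS M) (ht : Part δ l k t) {c : ℕ → M} (hc : c ∈ Wk x y k)
    (h : ∀ j < k, dist (c j) (c (j + 1)) < S.a) :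
    S.brk k c ∈ Pa x y ∧ (S.brk k c).2 ≤ fE k t c := by
  obtain ⟨h1, h2⟩ := S.brk_mem k h
  rw [hc.1, hc.2 k le_rfl] at h1
  exact ⟨h1, h2 ▸ sum_le_fE ht c⟩

theorem nod_cont (k : ℕ) (t : ℕ → ℝ) : Continuous (nod (M := M) k t) := by
  refine continuous_pi fun j => ?_
  unfold nod
  fun_prop

theorem zr4_key (ht : Part δ l k t) {u D : ℝ} (h0 : 0 ≤ u) (h1 : u ≤ 1) {c c' : ℕ → M}
    (h : ∀ j < k, dist (c' j) (c' (j + 1)) ≤
      (1 - u) * dist (c j) (c (j + 1)) + u * (D * ((t (j + 1) - t j) / l))) :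
    l * Eb k t c' ≤ (1 - u) * (l * Eb k t c) + u * D ^ 2 := by
  have hl := ht.pos
  have h2 : Eb k t c' ≤ (1 - u) * Eb k t c + u * (D / l) ^ 2 * l := by
    rw [← zr4_sum ht, Eb, Eb, Finset.mul_sum, Finset.mul_sum, ← Finset.sum_add_distrib,
      zr4_sum ht]
    refine Finset.sum_le_sum fun j hj => ?_
    have hj' := Finset.mem_range.1 hj
    have h3 := sub_pos.2 (ht.2.2.2 j hj').1
    have h4 := pow_le_pow_left₀ dist_nonneg (h j hj') 2
    have h5 : 0 ≤ u * (1 - u) * (dist (c j) (c (j + 1)) - D * ((t (j + 1) - t j) / l)) ^ 2 :=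
      mul_nonneg (mul_nonneg h0 (sub_nonneg.2 h1)) (sq_nonneg _)
    have e : (1 - u) * (dist (c j) (c (j + 1)) ^ 2 / (t (j + 1) - t j)) +
        u * (D / l) ^ 2 * (t (j + 1) - t j) = ((1 - u) * dist (c j) (c (j + 1)) ^ 2 +
          u * (D * ((t (j + 1) - t j) / l)) ^ 2) / (t (j + 1) - t j) := by
      field_simp
    rw [e]
    exact div_le_div_of_nonneg_right (by nlinarith) h3.le
  have e : l * (u * (D / l) ^ 2 * l) = u * D ^ 2 := by field_simp
  have := mul_le_mul_of_nonneg_left h2 hl.le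
  rw [mul_add, e] at this
  linarith

theorem nod_mem (ht : Part δ l k t) {γ : Mo M} (h : γ ∈ Pa x y) :
    nod k t γ ∈ Wk x y k ∧ fE k t (nod k t γ) ≤ γ.2 := by
  have hl := ht.pos
  refine ⟨⟨?_, fun j hj => ?_⟩, ?_⟩
  · rw [nod, Nat.zero_min, ht.2.1, zero_div, mul_zero]
    exact h.2.1
  · rw [nod, min_eq_right hj, ht.2.2.1, div_self hl.ne', mul_one]
    exact h.2.2
  · have := zr4_key ht (u := 1) (D := γ.2) zero_le_one le_rfl (c := nod k t γ) (c' := nod k t γ)
      fun j hj => by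
        rw [sub_self, zero_mul, zero_add, one_mul, nod, nod, min_eq_left hj.le,
          min_eq_left (Nat.succ_le_of_lt hj), ht.2.2.1]
        refine (h.1.2.1 _ _).trans (le_of_eq ?_)
        rw [abs_sub_comm, ← mul_sub, ← sub_div, abs_of_nonneg
          (mul_nonneg h.1.1 (div_nonneg (sub_pos.2 (ht.2.2.2 j hj).1).le hl.le))]
    rw [zr4_fE ht]
    exact Real.sqrt_le_iff.2 ⟨h.1.1, by linarith⟩

/-- sampling the broken geodesic is homotopic to the identity -/
theorem htp_nod_brk (S : GS M) (ht : Part δ l k t) {b : ℝ} (hb : b ^ 2 * δ ≤ S.a ^ 2 * l) :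
    Htp (Sub (Wk x y k) (fE k t) b) (fun c c' => c' ∈ Wk x y k ∧ fE k t c' ≤ fE k t c) id
      (nod k t ∘ S.brk k) := by
  have hl := ht.pos
  have hs : ∀ c ∈ Sub (Wk x y k) (fE k t) b, ∀ j < k, dist (c j) (c (j + 1)) < S.a :=
    fun c hc => step_lt ht S.a_pos hb hc.2
  have hc : ContinuousOn (fun z : ℝ × (ℕ → M) => S.brk k z.2)
      (Icc 0 1 ×ˢ Sub (Wk x y k) (fE k t) b) :=
    S.brk_cont k continuousOn_snd fun z hz => hs _ hz.2
  refine ⟨fun z j => (S.brk k z.2).1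
    ((1 - z.1) * ∑ i ∈ Finset.range (min j k), dist (z.2 i) (z.2 (i + 1)) +
      z.1 * ((S.brk k z.2).2 * (t (min j k) / t k))),
    continuousOn_pi.2 fun j => ContinuousOn.evp hc (ContinuousOn.add (by fun_prop)
      (continuousOn_fst.mul (hc.snd.mul continuousOn_const))), fun c h => ?_, fun c h => ?_,
    fun u hu c h => ?_⟩
  · funext j
    simp only [sub_zero, one_mul, zero_mul, add_zero, id]
    rw [S.brk_corner k (hs c h) (min_le_right j k)]
    rcases le_total j k with e | e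
    · rw [min_eq_left e]
    · rw [min_eq_right e, h.1.2 k le_rfl, h.1.2 j e]
  · funext j
    simp only [sub_self, one_mul, zero_mul, zero_add, comp_apply, nod]
  · obtain ⟨h1, h2⟩ := brk_le S ht h.1 (hs c h)
    have h3 := (S.brk_mem k (hs c h)).2
    refine ⟨⟨?_, fun j hj => ?_⟩, ?_⟩
    · simp only [Nat.zero_min, Finset.range_zero, Finset.sum_empty, ht.2.1, zero_div, mul_zero,
        add_zero]
      exact h1.2.1
    · simp only [min_eq_right hj, ht.2.2.1, div_self hl.ne', mul_one, ← h3]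
      rw [← add_mul, sub_add_cancel, one_mul]
      exact h1.2.2
    · rw [zr4_fE ht, zr4_fE ht]
      refine Real.sqrt_le_sqrt ((zr4_key ht (D := (S.brk k c).2) hu.1 hu.2 (c := c)
        fun j hj => ?_).trans ?_)
      · simp only [min_eq_left hj.le, min_eq_left (Nat.succ_le_of_lt hj), ht.2.2.1,
          Finset.sum_range_succ]
        refine (h1.1.2.1 _ _).trans (le_of_eq ?_)
        have h4 : 0 ≤ (1 - u) * dist (c j) (c (j + 1)) +
            u * ((S.brk k c).2 * ((t (j + 1) - t j) / l)) :=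
          add_nonneg (mul_nonneg (sub_nonneg.2 hu.2) dist_nonneg) (mul_nonneg hu.1
            (mul_nonneg h1.1.1 (div_nonneg (sub_pos.2 (ht.2.2.2 j hj).1).le hl.le)))
        rw [abs_sub_comm, ← abs_of_nonneg h4]
        congr 1
        ring
      · have h4 := pow_le_pow_left₀ h1.1.1 h2 2
        rw [zr4_sq ht] at h4
        have := mul_le_mul_of_nonneg_left h4 hu.1
        linarith

end Pool.Agent.Fu
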