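import Mathlib
import Pool.Agent.P.MP_365c00_gt.ZR1
import Pool.Agent.P.MP_365c00_gt.ZR4

/-! Morse theory: the finite dimensional approximation. -/

set_option linter.unusedSectionVars false
set_option linter.unusedVariables false

open Set Filter Topology Metric Function

namespace Pool.Agent.Fu

variable {F : Type} [Field F] {M : Type} [MetricSpace M] {δ l : ℝ} {k : ℕ} {t : ℕ → ℝ} {x y : M}

theorem zr5_le (ht : Part δ l k t) {i j : ℕ} (hij : i ≤ j) (hj : j ≤ k) : t i ≤ t j := by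
  rcases hij.eq_or_lt with rfl | h
  · exact le_rfl
  · exact (ht.lt h hj).le

theorem zr5_mono (ht : Part δ l k t) {i j : ℕ} (hij : i ≤ j) (hj : j ≤ k) {g : ℝ} (hg : 0 ≤ g) :
    g * (t i / t k) ≤ g * (t j / t k) :=
  mul_le_mul_of_nonneg_left
    (div_le_div_of_nonneg_right (zr5_le ht hij hj) (ht.2.2.1.symm ▸ ht.pos.le)) hg

theorem zr5_short (ht : Part δ l k t) {a b g : ℝ} (ha : 0 < a) (hb : b ^ 2 * δ ≤ a ^ 2 * l)
    (hg : 0 ≤ g) (hgb : g < b) {j : ℕ} (hj : j < k) :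
    g * (t (j + 1) / t k) - g * (t j / t k) < a := by
  have hl := ht.pos
  obtain ⟨h1, h2⟩ := ht.2.2.2 j hj
  have h3 : t (j + 1) ≤ l := ht.2.2.1 ▸ zr5_le ht hj le_rfl
  have h4 : 0 ≤ t j := ht.2.1 ▸ zr5_le ht (Nat.zero_le j) hj.le
  rw [ht.2.2.1, ← mul_sub, ← sub_div, ← mul_div_assoc, div_lt_iff₀ hl]
  obtain ⟨d, hd⟩ : ∃ d, d = t (j + 1) - t j := ⟨_, rfl⟩
  rw [← hd] at h2 ⊢
  have d0 : 0 < d := by linarith
  have dl : d ≤ l := by linarith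
  have h5 : g ^ 2 < b ^ 2 := pow_lt_pow_left₀ hgb hg two_ne_zero
  have h6 : g ^ 2 * d < a ^ 2 * l :=
    (mul_lt_mul'' h5 h2 (sq_nonneg g) d0.le).trans_le hb
  refine lt_of_pow_lt_pow_left₀ 2 (mul_pos ha hl).le ?_
  calc (g * d) ^ 2 = g ^ 2 * d * d := by ring
    _ ≤ g ^ 2 * d * l := mul_le_mul_of_nonneg_left dl (by positivity)
    _ < a ^ 2 * l * l := mul_lt_mul_of_pos_right h6 hl
    _ = (a * l) ^ 2 := by ring

theorem zr5_ind (S : GS M) (ht : Part δ l k t) {b : ℝ} (hb : b ^ 2 * δ ≤ S.a ^ 2 * l) :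
    ∀ j ≤ k, HP (Om x y b) (fun _ => x) (fun γ => γ.1 (γ.2 * (t j / t k)))
      (fun γ => γ.2 * (t j / t k)) (fun γ => seg γ 0 (γ.2 * (t j / t k)))
      fun γ => S.brk j (nod k t γ) := by
  intro j
  induction j with
  | zero =>
    intro _
    have e : ∀ γ : Mo M, γ.2 * (t 0 / t k) = 0 := fun γ => by rw [ht.2.1, zero_div, mul_zero]
    refine (HP.refl (f := fun γ : Mo M => seg γ 0 (γ.2 * (t 0 / t k)))
      (ContinuousOn.seg' continuousOn_id continuousOn_const (by fun_prop))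
      fun γ hγ => ⟨?_, (sub_zero _).le⟩).congr (fun _ _ => rfl) fun γ _ => ?_
    · have := seg_mem hγ.1.1 (e γ).ge
      rwa [show γ.1 0 = x from hγ.1.2.1] at this
    · show seg γ 0 _ = triv (γ.1 (γ.2 * (t (min 0 k) / t k)))
      rw [Nat.zero_min, e, seg_self]
  | succ j ih =>
    intro hj
    have h0 : ∀ γ ∈ Om x y b, 0 ≤ γ.2 * (t j / t k) := fun γ hγ => by
      have := zr5_mono ht (Nat.zero_le j) (Nat.le_of_succ_le hj) hγ.1.1.1
      rwa [ht.2.1, zero_div, mul_zero] at this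
    have h1 : ∀ γ ∈ Om x y b, γ.2 * (t j / t k) ≤ γ.2 * (t (j + 1) / t k) := fun γ hγ =>
      zr5_mono ht (Nat.le_succ j) hj hγ.1.1.1
    have h2 := S.hp_short (A := Om x y b)
      (f := fun γ : Mo M => seg γ (γ.2 * (t j / t k)) (γ.2 * (t (j + 1) / t k)))
      (x := fun γ : Mo M => γ.1 (γ.2 * (t j / t k)))
      (y := fun γ : Mo M => γ.1 (γ.2 * (t (j + 1) / t k)))
      (ContinuousOn.seg' continuousOn_id (by fun_prop) (by fun_prop)) fun γ hγ =>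
        ⟨seg_mem hγ.1.1 (h1 γ hγ), zr5_short ht S.a_pos hb hγ.1.1.1 hγ.2 hj⟩
    refine (((ih (Nat.le_of_succ_le hj)).cat h2).mono fun γ _ => ?_).congr
      (fun γ hγ => cat_seg hγ.1.1 (h0 γ hγ) (h1 γ hγ)) fun γ _ => ?_
    · rw [seg_dur]
      linarith
    · show _ = cat (S.brk j (nod k t γ)) (S.sg (γ.1 (γ.2 * (t (min j k) / t k)))
        (γ.1 (γ.2 * (t (min (j + 1) k) / t k))))
      rw [min_eq_left hj, min_eq_left (Nat.le_of_succ_le hj)]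

/-- breaking the sampled path is homotopic to the identity -/
theorem htp_brk_nod (S : GS M) (ht : Part δ l k t) {b : ℝ} (hb : b ^ 2 * δ ≤ S.a ^ 2 * l) :
    Htp (Om x y b) (fun γ γ' => γ' ∈ Pa x y ∧ γ'.2 ≤ γ.2) id (S.brk k ∘ nod k t) := by
  have e : ∀ γ : Mo M, γ.2 * (t k / t k) = γ.2 := fun γ => by
    rw [div_self (ht.2.2.1.symm ▸ ht.pos.ne'), mul_one]
  have h := zr5_ind (x := x) (y := y) S ht hb k le_rfl
  simp only [e] at h
  refine (Htp.mono h subset_rfl fun γ hγ ω hω => ⟨?_, hω.2⟩).congr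
    (fun γ hγ => seg_full hγ.1.1) fun _ _ => rfl
  have h1 : ω ∈ Pa x (γ.1 γ.2) := hω.1
  rwa [show γ.1 γ.2 = y from hγ.1.2.2] at h1

theorem brk_contOn (S : GS M) (ht : Part δ l k t) {c : ℝ} (hc : c ^ 2 * δ ≤ S.a ^ 2 * l) :
    ContinuousOn (S.brk k) (Sub (Wk x y k) (fE k t) c) :=
  S.brk_cont k (c := id) continuousOn_id fun _ hz => step_lt ht S.a_pos hc hz.2

theorem brk_maps (S : GS M) (ht : Part δ l k t) {b c : ℝ} (hc : c ^ 2 * δ ≤ S.a ^ 2 * l)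
    (hb : b ≤ c) : MapsTo (S.brk k) (Sub (Wk x y k) (fE k t) b) (Om x y b) := fun _ hz =>
  have h := brk_le S ht hz.1 (step_lt ht S.a_pos hc (hz.2.trans_le hb))
  ⟨h.1, h.2.trans_lt hz.2⟩

theorem QI_brk (S : GS M) (ht : Part δ l k t) {b c : ℝ} (hc : c ^ 2 * δ ≤ S.a ^ 2 * l)
    (hb : b ≤ c) :
    QI (F := F) bd bd (mp (S.brk k)) (CC F (Sub (Wk x y k) (fE k t) c))
      (CC F (Sub (Wk x y k) (fE k t) b)) (CC F (Om x y c)) (CC F (Om x y b)) := by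
  have hn : ∀ r, MapsTo (nod k t) (Om x y r) (Sub (Wk x y k) (fE k t) r) := fun r γ hγ =>
    ⟨(nod_mem ht hγ.1).1, (nod_mem ht hγ.1).2.trans_lt hγ.2⟩
  exact QI_htp (k := nod k t) (fun _ hz => ⟨hz.1, hz.2.trans_le hb⟩) (Om_mono x y hb)
    (brk_contOn S ht hc) (nod_cont k t).continuousOn (brk_maps S ht hc le_rfl)
    (brk_maps S ht hc hb) (hn c) (hn b)
    ((htp_nod_brk S ht hc).mono subset_rfl fun z hz z' h =>
      ⟨⟨h.1, h.2.trans_lt hz.2⟩, fun hz' => ⟨h.1, h.2.trans_lt hz'.2⟩⟩)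
    ((htp_brk_nod S ht hc).mono subset_rfl fun z hz z' h =>
      ⟨⟨h.1, h.2.trans_lt hz.2⟩, fun hz' => ⟨h.1, h.2.trans_lt hz'.2⟩⟩)

end Pool.Agent.Fu
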