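import Mathlib
import Pool.Agent.P.MP_365c00_gt.ZR0
import Pool.Agent.P.MP_365c00_gt.ZI1

/-! Morse theory: calculus and linear algebra. -/

set_option linter.unusedSectionVars false
set_option linter.unusedVariables false

open Set Filter Topology Metric Function
open scoped Manifold ContDiff
open Pool.Agent.GeoN

namespace Pool.Agent.Fu

variable {E : Type} [NormedAddCommGroup E] [InnerProductSpace ℝ E] [FiniteDimensional ℝ E]
  {M : Type} [MetricSpace M] [ChartedSpace E M] [IsManifold 𝓘(ℝ, E) ∞ M]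
  [CompactSpace M] [Nonempty M] [Nontrivial E] {g : Met E M}

variable {sh : Short g} {a : ℝ}

section
variable {P P' : Type} [NormedAddCommGroup P] [NormedSpace ℝ P] [FiniteDimensional ℝ P]
  [NormedAddCommGroup P'] [NormedSpace ℝ P'] [FiniteDimensional ℝ P']

theorem zr6_ball {φ : P → ℝ} (hφ : ContDiffAt ℝ 2 φ 0) (L : P' →L[ℝ] P) (c : ℝ)
    (h : ∀ w, w ≠ 0 → 0 < c * fderiv ℝ (fderiv ℝ φ) 0 (L w) (L w)) :
    ∃ r > 0, ∀ q : P, ‖q‖ < r → DifferentiableAt ℝ φ q ∧ DifferentiableAt ℝ (fderiv ℝ φ) q ∧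
      ∀ w, w ≠ 0 → 0 < c * fderiv ℝ (fderiv ℝ φ) q (L w) (L w) := by
  have h1 : ContDiffAt ℝ 1 (fderiv ℝ φ) 0 := hφ.fderiv_right (by norm_num)
  have h2 : ContinuousAt (fderiv ℝ (fderiv ℝ φ)) 0 :=
    (h1.fderiv_right (m := 0) (by norm_num)).continuousAt
  have h3 : ∀ᶠ q in 𝓝 (0 : P), ∀ w ∈ sphere (0 : P') 1,
      0 < c * fderiv ℝ (fderiv ℝ φ) q (L w) (L w) := by
    refine (isCompact_sphere _ _).eventually_forall_of_forall_eventually fun w hw => ?_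
    have hL : ContinuousAt (fun z : P × P' => L z.2) (0, w) := by fun_prop
    have hD : ContinuousAt (fun z : P × P' => fderiv ℝ (fderiv ℝ φ) z.1) (0, w) :=
      ContinuousAt.comp (f := Prod.fst) h2 continuousAt_fst
    have hc : ContinuousAt (fun z : P × P' => c * fderiv ℝ (fderiv ℝ φ) z.1 (L z.2) (L z.2))
        (0, w) := continuousAt_const.mul ((hD.clm_apply hL).clm_apply hL)
    refine hc.eventually (lt_mem_nhds (h w ?_))
    rintro rfl
    simp at hw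
  obtain ⟨r, hr, h4⟩ := Metric.eventually_nhds_iff.1
    ((hφ.eventually (by simp)).and ((h1.eventually (by simp)).and h3))
  refine ⟨r, hr, fun q hq => ?_⟩
  obtain ⟨a1, a2, a3⟩ := h4 (y := q) (by rwa [dist_zero_right])
  refine ⟨a1.differentiableAt (by simp), a2.differentiableAt (by simp), fun w hw => ?_⟩
  have hn : 0 < ‖w‖ := norm_pos_iff.2 hw
  have a4 := a3 (‖w‖⁻¹ • w) (by simp [norm_smul, hn.ne'])
  simp only [map_smul, _root_.smul_apply, smul_eq_mul] at a4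
  have a5 : 0 < ‖w‖⁻¹ * ‖w‖⁻¹ := by positivity
  refine (mul_pos_iff_of_pos_left a5).1 ?_
  linarith

theorem zr6_line {φ : P → ℝ} {p v : P} {s : ℝ} (h1 : DifferentiableAt ℝ φ (p + s • v))
    (h2 : DifferentiableAt ℝ (fderiv ℝ φ) (p + s • v)) :
    HasDerivAt (fun s : ℝ => φ (p + s • v)) (fderiv ℝ φ (p + s • v) v) s ∧
      HasDerivAt (fun s : ℝ => fderiv ℝ φ (p + s • v) v)
        (fderiv ℝ (fderiv ℝ φ) (p + s • v) v v) s := by
  have hl : HasDerivAt (fun s : ℝ => p + s • v) v s := by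
    simpa using ((hasDerivAt_id s).smul_const v).const_add p
  refine ⟨h1.hasFDerivAt.comp_hasDerivAt s hl, ?_⟩
  simpa using (h2.hasFDerivAt.comp_hasDerivAt s hl).clm_apply (hasDerivAt_const s v)

theorem zr6_min {φ : P → ℝ} (hφ : ContDiffAt ℝ 2 φ 0) (h0 : fderiv ℝ φ 0 = 0) (L : P' →L[ℝ] P)
    (c : ℝ) (h : ∀ w, w ≠ 0 → 0 < c * fderiv ℝ (fderiv ℝ φ) 0 (L w) (L w)) :
    ∀ᶠ w in 𝓝 (0 : P'), w ≠ 0 → c * φ 0 < c * φ (L w) := by
  obtain ⟨r, hr, hb⟩ := zr6_ball hφ L c h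
  have hL : ∀ᶠ w in 𝓝 (0 : P'), ‖L w‖ < r :=
    L.continuous.norm.continuousAt.eventually (gt_mem_nhds (by simpa using hr))
  filter_upwards [hL] with w hw hw0
  have hs : ∀ s ∈ Icc (0 : ℝ) 1, ‖0 + s • L w‖ < r := by
    intro s hs
    rw [zero_add, norm_smul, Real.norm_of_nonneg hs.1]
    exact (mul_le_of_le_one_left (norm_nonneg _) hs.2).trans_lt hw
  have hd := fun s hs' => zr6_line (hb _ (hs s hs')).1 (hb _ (hs s hs')).2.1
  obtain ⟨x, hx, e1⟩ := exists_hasDerivAt_eq_slope _ _ zero_lt_one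
    (fun s hs' => (hd s hs').1.continuousAt.continuousWithinAt)
    (fun s hs' => (hd s (Ioo_subset_Icc_self hs')).1)
  have sub : Icc 0 x ⊆ Icc (0 : ℝ) 1 := Icc_subset_Icc_right hx.2.le
  obtain ⟨y, hy, e2⟩ := exists_hasDerivAt_eq_slope _ _ hx.1
    (fun s hs' => (hd s (sub hs')).2.continuousAt.continuousWithinAt)
    (fun s hs' => (hd s (sub (Ioo_subset_Icc_self hs'))).2)
  have e3 := (hb _ (hs y (sub (Ioo_subset_Icc_self hy)))).2.2 w hw0
  rw [e2, e1] at e3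
  simp only [zero_smul, add_zero, one_smul, zero_add, h0, _root_.zero_apply, sub_zero,
    div_one] at e3
  rw [← mul_div_assoc] at e3
  have := (div_pos_iff_of_pos_right hx.1).1 e3
  linarith

/-- strict local maximum -/
theorem cc_neg {φ : P → ℝ} (hφ : ContDiffAt ℝ 2 φ 0) (h0 : fderiv ℝ φ 0 = 0)
    (h : ∀ w, w ≠ 0 → fderiv ℝ (fderiv ℝ φ) 0 w w < 0) :
    ∀ᶠ w in 𝓝 (0 : P), w ≠ 0 → φ w < φ 0 := by
  filter_upwards [zr6_min hφ h0 (ContinuousLinearMap.id ℝ P) (-1) fun w hw => by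
    simpa using h w hw] with w h1 hw
  simpa using h1 hw

/-- convexity in the second variable -/
theorem cc_pos {φ : P × P' → ℝ} (hφ : ContDiffAt ℝ 2 φ 0) (h0 : fderiv ℝ φ 0 = 0)
    (h : ∀ w : P', w ≠ 0 → 0 < fderiv ℝ (fderiv ℝ φ) 0 (0, w) (0, w)) :
    ∀ᶠ p in 𝓝 (0 : P × P'), φ 0 ≤ φ (0, p.2) ∧
      ∀ s ∈ Icc (0 : ℝ) 1, φ (p.1, s • p.2) ≤ max (φ (p.1, 0)) (φ p) := by
  have h' : ∀ w : P', w ≠ 0 → 0 < 1 * fderiv ℝ (fderiv ℝ φ) 0
      (ContinuousLinearMap.inr ℝ P P' w) (ContinuousLinearMap.inr ℝ P P' w) := fun w hw => by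
    rw [one_mul]
    exact h w hw
  obtain ⟨r, hr, hb⟩ := zr6_ball hφ _ 1 h'
  have ht : Tendsto Prod.snd (𝓝 (0 : P × P')) (𝓝 0) := continuous_snd.tendsto _
  filter_upwards [ht.eventually (zr6_min hφ h0 _ 1 h'), ball_mem_nhds 0 hr] with p h1 h2
  rw [mem_ball_zero_iff] at h2
  constructor
  · by_cases hp : p.2 = 0
    · rw [hp]
      exact le_rfl
    · simpa using (h1 hp).le
  · have e : ∀ s : ℝ, (p.1, (0 : P')) + s • ((0 : P), p.2) = (p.1, s • p.2) := fun s => by simp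
    have hs : ∀ s ∈ Icc (0 : ℝ) 1, ‖(p.1, (0 : P')) + s • ((0 : P), p.2)‖ < r := by
      intro s hs
      rw [e, Prod.norm_mk, norm_smul, Real.norm_of_nonneg hs.1]
      exact max_lt ((norm_fst_le p).trans_lt h2)
        (((mul_le_of_le_one_left (norm_nonneg _) hs.2).trans (norm_snd_le p)).trans_lt h2)
    have hd := fun s hs' => zr6_line (hb _ (hs s hs')).1 (hb _ (hs s hs')).2.1
    have hc : ConvexOn ℝ (Icc (0 : ℝ) 1) fun s : ℝ => φ ((p.1, (0 : P')) + s • ((0 : P), p.2)) := by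
      refine convexOn_of_hasDerivWithinAt2_nonneg (convex_Icc _ _)
        (fun s hs' => (hd s hs').1.continuousAt.continuousWithinAt)
        (fun s hs' => (hd s (interior_subset hs')).1.hasDerivWithinAt)
        (fun s hs' => (hd s (interior_subset hs')).2.hasDerivWithinAt) fun s hs' => ?_
      by_cases hp : p.2 = 0
      · have : ((0 : P), p.2) = 0 := by rw [hp]; rfl
        rw [this, map_zero]
      · simpa using ((hb _ (hs s (interior_subset hs'))).2.2 p.2 hp).le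
    intro s hs'
    have := hc.le_on_segment (left_mem_Icc.2 zero_le_one) (right_mem_Icc.2 zero_le_one)
      (z := s) (by rwa [segment_eq_Icc zero_le_one])
    simp only [e] at this
    simpa only [zero_smul, one_smul] using this

end

theorem zr6_par (N : Submodule ℝ (ℕ → E)) [FiniteDimensional ℝ N] {r : ℕ}
    (hr : Module.finrank ℝ N = r) : ∃ ν : (Fin r → ℝ) →L[ℝ] (ℕ → E), Injective ν ∧
      (∀ w, ν w ∈ N) ∧ ∀ v ∈ N, ∃ w, ν w = v := by
  let b := (Module.finBasisOfFinrankEq ℝ N hr).equivFun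
  refine ⟨LinearMap.toContinuousLinearMap (N.subtype ∘ₗ b.symm.toLinearMap),
    N.injective_subtype.comp b.symm.injective, fun w => (b.symm w).2, fun v hv => ⟨b ⟨v, hv⟩, ?_⟩⟩
  exact congrArg Subtype.val (b.symm_apply_apply ⟨v, hv⟩)

/-- a maximal negative subspace -/
theorem la_neg (Q : (ℕ → E) →ₗ[ℝ] (ℕ → E) →ₗ[ℝ] ℝ) (k : ℕ) :
    ∃ ν : (Fin (nI (fun v w => Q v w) (Vk E k)) → ℝ) →L[ℝ] (ℕ → E),
      (∀ w, ν w ∈ Vk E k) ∧ ∀ w, w ≠ 0 → Q (ν w) (ν w) < 0 := by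
  obtain ⟨N, h1, h2, h3⟩ := nI_spec (fun v w => Q v w) (Vk E k)
  have := Submodule.finiteDimensional_of_le h1
  obtain ⟨ν, a1, a2, -⟩ := zr6_par N h2
  exact ⟨ν, fun w => h1 (a2 w), fun w hw => h3 _ (a2 w) ((map_ne_zero_iff ν a1).2 hw)⟩

/-- its complement -/
theorem la_compl {Q : (ℕ → E) →ₗ[ℝ] (ℕ → E) →ₗ[ℝ] ℝ} {k : ℕ} (hs : ∀ v w, Q v w = Q w v)
    (hn : ∀ v ∈ Vk E k, (∀ w ∈ Vk E k, Q v w = 0) → v = 0) {P : Type} [NormedAddCommGroup P]
    [NormedSpace ℝ P] [FiniteDimensional ℝ P] (ν : P →L[ℝ] (ℕ → E)) (h1 : ∀ w, ν w ∈ Vk E k)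
    (h2 : ∀ w, w ≠ 0 → Q (ν w) (ν w) < 0)
    (hr : Module.finrank ℝ P = nI (fun v w => Q v w) (Vk E k)) :
    ∃ (r : ℕ) (e : P × (Fin r → ℝ) →L[ℝ] (ℕ → E)) (μ : (ℕ → E) →L[ℝ] P × (Fin r → ℝ)),
      (∀ p, e p ∈ Vk E k) ∧ (∀ w, e (w, 0) = ν w) ∧
      (∀ w, w ≠ 0 → 0 < Q (e (0, w)) (e (0, w))) ∧ (∀ p, μ (e p) = p) ∧
      ∀ v ∈ Vk E k, e (μ v) = v := by
  have hi : Injective ν := by
    refine (injective_iff_map_eq_zero ν).2 fun w hw => ?_
    by_contra h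
    have := h2 w h
    rw [hw, map_zero] at this
    exact lt_irrefl _ this
  obtain ⟨N', b1, b2, b3, b4, -⟩ := nI_compl (N := LinearMap.range (ν : P →ₗ[ℝ] (ℕ → E))) hs hn
    (by rintro _ ⟨w, rfl⟩; exact h1 w) ((LinearMap.finrank_range_of_inj hi).trans hr) (by
      rintro _ ⟨w, rfl⟩ hw
      exact h2 w ((map_ne_zero_iff ν hi).1 hw))
  have := Submodule.finiteDimensional_of_le b1
  obtain ⟨ν', a1, a2, a3⟩ := zr6_par N' rfl
  have he : ∀ p, ν.coprod ν' p ∈ Vk E k := fun p => add_mem (h1 p.1) (b1 (a2 p.2))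
  have hk : LinearMap.ker (ν.coprod ν').toLinearMap = ⊥ := by
    refine LinearMap.ker_eq_bot'.2 fun p hp => ?_
    have e : ν p.1 + ν' p.2 = 0 := hp
    have m : ν p.1 ∈ LinearMap.range (ν : P →ₗ[ℝ] (ℕ → E)) ⊓ N' :=
      ⟨⟨p.1, rfl⟩, by rw [eq_neg_of_add_eq_zero_left e]; exact neg_mem (a2 p.2)⟩
    rw [b2, Submodule.mem_bot] at m
    rw [m, zero_add] at e
    exact Prod.ext ((map_eq_zero_iff ν hi).1 m) ((map_eq_zero_iff ν' a1).1 e)
  obtain ⟨μ, hμ⟩ := LinearMap.exists_leftInverse_of_injective _ hk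
  let ext : (Fin k → E) →ₗ[ℝ] (ℕ → E) :=
    LinearMap.pi fun j => if h : j < k then LinearMap.proj ⟨j, h⟩ else 0
  let res : (ℕ → E) →L[ℝ] (Fin k → E) :=
    ContinuousLinearMap.pi fun i => ContinuousLinearMap.proj (i : ℕ)
  have er : ∀ v ∈ Vk E k, ext (res v) = v := by
    intro v hv
    funext j
    by_cases h : j < k
    · simp [ext, res, h]
    · simp [ext, res, h, hv.2 j (not_lt.1 h)]
  have hl : ∀ p, (LinearMap.toContinuousLinearMap (μ ∘ₗ ext) ∘L res) (ν.coprod ν' p) = p := by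
    intro p
    change μ (ext (res (ν.coprod ν' p))) = p
    rw [er _ (he p)]
    exact LinearMap.congr_fun hμ p
  refine ⟨_, ν.coprod ν', LinearMap.toContinuousLinearMap (μ ∘ₗ ext) ∘L res, he, fun w => by simp,
    fun w hw => ?_, hl, fun v hv => ?_⟩
  · simpa using b4 _ (a2 w) ((map_ne_zero_iff ν' a1).2 hw)
  · rw [← b3] at hv
    obtain ⟨_, ⟨x, rfl⟩, y, hy, rfl⟩ := Submodule.mem_sup.1 hv
    obtain ⟨w, rfl⟩ := a3 y hy
    exact congrArg (ν.coprod ν') (hl (x, w))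

end Pool.Agent.Fu
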