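import Mathlib
import Pool.Agent.P.MP_365c00_gt.ZR4
import Pool.Agent.P.MP_365c00_gt.ZI2

/-! Morse theory: a broken geodesic with a corner can be shortened. -/

set_option linter.unusedSectionVars false
set_option linter.unusedVariables false

open Set Filter Topology Metric Function
open scoped Manifold ContDiff
open Pool.Agent.GeoN

namespace Pool.Agent.Fu

variable {E : Type} [NormedAddCommGroup E] [InnerProductSpace ℝ E] [FiniteDimensional ℝ E]
  {M : Type} [MetricSpace M] [ChartedSpace E M] [IsManifold 𝓘(ℝ, E) ∞ M]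
  [CompactSpace M] [Nonempty M] [Nontrivial E] {g : Met E M}

variable {sh : Short g} {a : ℝ}

/-- cutting a corner, with weights -/
theorem corner_w {x' x x'' : M} (h1 : (x', x) ∈ sh.D) (h2 : (x, x'') ∈ sh.D) {α β : ℝ}
    (hne : α • vel E x (sh.σ (x', x)) 1 ≠ β • vel E x (sh.σ (x, x'')) 0) :
    ∃ ξ : E, ∀ᶠ z : M × M × M in 𝓝 (x', x, x''), z.2.1 ∈ (κ E x).source ∧ ∀ s ∈ Icc (0 : ℝ) 1,
      κ E x z.2.1 + s • ξ ∈ (κ E x).target ∧ (z.1, (κ E x).symm (κ E x z.2.1 + s • ξ)) ∈ sh.D ∧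
      ((κ E x).symm (κ E x z.2.1 + s • ξ), z.2.2) ∈ sh.D ∧ (0 < s →
        α * sh.S (z.1, (κ E x).symm (κ E x z.2.1 + s • ξ)) +
          β * sh.S ((κ E x).symm (κ E x z.2.1 + s • ξ), z.2.2) <
        α * sh.S (z.1, z.2.1) + β * sh.S z.2) := by
  obtain ⟨a1, a2, a3⟩ := bm_pair sh h1
  obtain ⟨b1, b2, b3⟩ := bm_pair sh h2
  let L : (E × E × E) →L[ℝ] E × E :=
    (ContinuousLinearMap.id ℝ E).prodMap (ContinuousLinearMap.fst ℝ E E)
  let v0 : E × E × E := (κ E x' x', κ E x x, κ E x'' x'')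
  have c1 := ((contDiffAt_const (c := α)).mul
    (ContDiffAt.comp v0 (f := L) a2 L.contDiff.contDiffAt)).add
    ((contDiffAt_const (c := β)).mul (ContDiffAt.comp v0 (f := Prod.snd) b2 contDiffAt_snd))
  have c2 := ((HasFDerivAt.comp v0 (f := L) (a2.differentiableAt (by simp)).hasFDerivAt
    L.hasFDerivAt).const_mul α).fun_add ((HasFDerivAt.comp v0 (f := Prod.snd)
      (b2.differentiableAt (by simp)).hasFDerivAt hasFDerivAt_snd).const_mul β)
  obtain ⟨η, hη⟩ := bm_desc
    (u := (0, β • vel E x (sh.σ (x, x'')) 0 - α • vel E x (sh.σ (x', x)) 1, 0))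
    (c1.of_le (by simp)) (by
      have := G_pos g x (mem_extChartAt_target x) (sub_ne_zero.2 hne.symm)
      rw [map_sub (G g x _), sub_apply, map_smul (G g x _), map_smul (G g x _), smul_apply,
        smul_apply, smul_eq_mul, smul_eq_mul] at this
      rw [c2.fderiv]
      simp only [add_apply, smul_apply, smul_eq_mul, ContinuousLinearMap.comp_apply, a3, b3, L,
        ContinuousLinearMap.coe_prodMap', Prod.map, ContinuousLinearMap.coe_fst',
        ContinuousLinearMap.coe_snd', map_zero]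
      linarith) ((L.continuous.continuousAt.eventually a1).and
        (continuous_snd.continuousAt.eventually b1))
  refine ⟨η • (β • vel E x (sh.σ (x, x'')) 0 - α • vel E x (sh.σ (x', x)) 1), ?_⟩
  have d : ContinuousAt (fun z : M × M × M => (κ E x' z.1, κ E x z.2.1, κ E x'' z.2.2))
      (x', x, x'') := (continuousAt_extChartAt x').prodMap'
        ((continuousAt_extChartAt x).prodMap' (continuousAt_extChartAt x''))
  filter_upwards [d.eventually hη, prod_mem_nhds (extChartAt_source_mem_nhds (I := 𝓘(ℝ, E)) x')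
    (prod_mem_nhds (extChartAt_source_mem_nhds (I := 𝓘(ℝ, E)) x)
      (extChartAt_source_mem_nhds (I := 𝓘(ℝ, E)) x''))] with z hz hs
  refine ⟨hs.2.1, fun s h => ?_⟩
  obtain ⟨⟨⟨-, f1, f2⟩, -, -, f3⟩, f4⟩ := hz s h
  simp only [L, ContinuousLinearMap.coe_prodMap', Prod.map, ContinuousLinearMap.coe_fst',
    ContinuousLinearMap.coe_id', id, Prod.smul_mk, Prod.mk_add_mk, smul_zero, add_zero,
    Function.comp_apply, (κ E x').left_inv hs.1, (κ E x).left_inv hs.2.1,
    (κ E x'').left_inv hs.2.2] at f1 f2 f3 f4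
  exact ⟨f1, f2, f3, f4⟩

/-- on `D` the distance is at most the length of the short geodesic -/
theorem SMd.sq_le (h : SMd sh dist a) {z : M × M} (hz : z ∈ sh.D) : dist z.1 z.2 ^ 2 ≤ sh.S z := by
  rcases lt_or_ge (sh.S z) (a ^ 2) with h1 | h1
  · exact (h.mem z.1 z.2 (h.near z hz h1)).2.ge
  · have he : 0 < energy g (sh.σ z) 0 := lt_of_lt_of_le (pow_pos h.pos 2) h1
    obtain ⟨u, hu⟩ := exists_unit_sqrt (sh.geo z hz) he
    have h2 := h.lip u (√(energy g (sh.σ z) 0) * 0) (√(energy g (sh.σ z) 0) * 1)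
    rw [← hu, ← hu, sh.zero z hz, sh.one z hz, mul_zero, mul_one, zero_sub, abs_neg,
      abs_of_nonneg (Real.sqrt_nonneg _)] at h2
    have h3 := pow_le_pow_left₀ dist_nonneg h2 2
    rwa [Real.sq_sqrt he.le] at h3

/-- a corner gives a move -/
theorem mv_corner (h : SMd sh dist a) {δ l : ℝ} {k : ℕ} {t : ℕ → ℝ} (ht : Part δ l k t) {x y : M}
    {z : ℕ → M} (hz : z ∈ Wk x y k) (hs : ∀ j < k, dist (z j) (z (j + 1)) < a) {j : ℕ}
    (hj : j + 1 < k)
    (hne : (t (j + 1) - t j)⁻¹ • vel E (z (j + 1)) (sh.σ (z j, z (j + 1))) 1 ≠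
      (t (j + 2) - t (j + 1))⁻¹ • vel E (z (j + 1)) (sh.σ (z (j + 1), z (j + 2))) 0) :
    Mv (Wk x y k) (fE k t) z := by
  have s1 := hs j (by omega)
  have s2 := hs (j + 1) hj
  obtain ⟨ξ, hξ⟩ := corner_w (h.mem _ _ s1).1 (h.mem _ _ s2).1 hne
  have c : ContinuousAt (fun c : ℕ → M => (c j, c (j + 1), c (j + 2))) z :=
    ((continuous_apply j).prodMk ((continuous_apply (j + 1)).prodMk
      (continuous_apply (j + 2)))).continuousAt
  have o1 : ∀ᶠ c : ℕ → M in 𝓝 z, dist (c j) (c (j + 1)) < a :=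
    ((continuous_apply j).dist (continuous_apply (j + 1))).continuousAt.eventually_lt
      continuousAt_const s1
  have o2 : ∀ᶠ c : ℕ → M in 𝓝 z, dist (c (j + 1)) (c (j + 2)) < a :=
    ((continuous_apply (j + 1)).dist (continuous_apply (j + 2))).continuousAt.eventually_lt
      continuousAt_const s2
  have p1 : 0 < t (j + 1) - t j := sub_pos.2 (ht.2.2.2 j (by omega)).1
  have p2 : 0 < t (j + 2) - t (j + 1) := sub_pos.2 (ht.2.2.2 (j + 1) hj).1
  refine ⟨_, inter_mem (c.eventually hξ) (inter_mem o1 o2),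
    fun w => update w.1 (j + 1)
      ((κ E (z (j + 1))).symm (κ E (z (j + 1)) (w.1 (j + 1)) + w.2 • ξ)), ?_,
    fun c ⟨⟨⟨h1, h2⟩, h3, h4⟩, h5⟩ => ⟨?_, fun s hs => ?_⟩⟩
  · refine continuousOn_pi.2 fun i => ?_
    rcases eq_or_ne i (j + 1) with rfl | hi
    · simp only [update_self]
      exact (continuousOn_extChartAt_symm _).comp (((continuousOn_extChartAt _).comp
        ((continuous_apply (j + 1)).comp continuous_fst).continuousOn fun w hw => hw.1.1.1.1).add
        (continuous_snd.smul continuous_const).continuousOn) fun w hw => (hw.1.1.1.2 _ hw.2).1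
    · simp only [update_of_ne hi]
      exact ((continuous_apply i).comp continuous_fst).continuousOn
  · simp only [zero_smul, add_zero, (κ E (z (j + 1))).left_inv h1, update_eq_self]
  obtain ⟨-, d1, d2, d3⟩ := h2 s (Ioc_subset_Icc_self hs)
  simp only at d1 d2 d3 ⊢
  generalize (κ E (z (j + 1))).symm (κ E (z (j + 1)) (c (j + 1)) + s • ξ) = u at d1 d2 d3
  refine ⟨⟨?_, fun i hi => ?_⟩, (fE_lt_iff ht _ _).2 ?_⟩
  · rw [update_of_ne (by omega)]
    exact h5.1
  · rw [update_of_ne (by omega)]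
    exact h5.2 i hi
  · have e0 : update c (j + 1) u j = c j := update_of_ne (by omega) _ _
    have e2 : update c (j + 1) u (j + 1 + 1) = c (j + 2) := update_of_ne (by omega) _ _
    have q1 := h.sq_le d1
    have q2 := h.sq_le d2
    have q3 := (h.mem _ _ h3).2
    have q4 := (h.mem _ _ h4).2
    have q5 := d3 hs.1
    simp only at q1 q2
    rw [q3, q4] at q5
    have r1 := mul_le_mul_of_nonneg_left q1 (inv_pos.2 p1).le
    have r2 := mul_le_mul_of_nonneg_left q2 (inv_pos.2 p2).le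
    rw [← sub_neg, Eb, Eb, ← Finset.sum_sub_distrib, Finset.sum_eq_add_of_mem j
      (j + 1) (Finset.mem_range.2 (by omega)) (Finset.mem_range.2 hj) (by omega)
      fun i _ hi => by
        rw [update_of_ne hi.2, update_of_ne (show i + 1 ≠ j + 1 from fun e => hi.1 (by omega)),
          sub_self],
      e0, e2, update_self]
    simp only [div_eq_inv_mul]
    change _ + ((t (j + 2) - t (j + 1))⁻¹ * _ - (t (j + 2) - t (j + 1))⁻¹ *
      dist (c (j + 1)) (c (j + 2)) ^ 2) < 0
    linarith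

end Pool.Agent.Fu
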