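import Mathlib
import Pool.Agent.P.MP_365c00_gt.ZR7

/-! Morse theory: the critical points are the geodesics. -/

set_option linter.unusedSectionVars false
set_option linter.unusedVariables false

open Set Filter Topology Metric Function
open scoped Manifold ContDiff
open Pool.Agent.GeoN

namespace Pool.Agent.Fu

variable {E : Type} [NormedAddCommGroup E] [InnerProductSpace ℝ E] [FiniteDimensional ℝ E]
  {M : Type} [MetricSpace M] [ChartedSpace E M] [IsManifold 𝓘(ℝ, E) ∞ M]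
  [CompactSpace M] [Nonempty M] [Nontrivial E] {g : Met E M}

variable {sh : Short g} {a : ℝ}

theorem geo_of_no_corner (h : SMd sh dist a) {δ l : ℝ} {k : ℕ} {t : ℕ → ℝ} (ht : Part δ l k t)
    {x y : M} (hxy : x ≠ y) {z : ℕ → M} (hz : z ∈ Wk x y k)
    (hs : ∀ j < k, dist (z j) (z (j + 1)) < a)
    (he : ∀ j, j + 1 < k → (t (j + 1) - t j)⁻¹ • vel E (z (j + 1)) (sh.σ (z j, z (j + 1))) 1 =
      (t (j + 2) - t (j + 1))⁻¹ • vel E (z (j + 1)) (sh.σ (z (j + 1), z (j + 2))) 0) :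
    ∃ (u : UG g) (L : ℝ), 0 < L ∧ u.1 0 = x ∧ u.1 L = y ∧ fE k t z = L ∧
      ∀ j ≤ k, z j = u.1 (L * (t j / l)) := by
  have hl := ht.pos
  obtain ⟨hk, ht0, htk, hp⟩ := ht
  have hD : ∀ j < k, (z j, z (j + 1)) ∈ sh.D := fun j hj => (h.mem _ _ (hs j hj)).1
  have hne : ∀ j < k, t (j + 1) - t j ≠ 0 := fun j hj => (sub_pos.2 (hp j hj).1).ne'
  obtain ⟨γ, hγ, e0⟩ : ∃ γ : ℝ → M, IsGeodesic g γ ∧
      sh.σ (z 0, z (0 + 1)) = fun r => γ ((t (0 + 1) - t 0) * r + t 0) := by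
    refine ⟨_, (sh.geo _ (hD 0 hk)).affine (t (0 + 1) - t 0)⁻¹ 0, funext fun r => ?_⟩
    have := hne 0 hk
    refine congrArg _ ?_
    rw [ht0] at this ⊢
    field_simp
    ring
  have e : ∀ j < k, sh.σ (z j, z (j + 1)) = fun r => γ ((t (j + 1) - t j) * r + t j) := by
    intro j hj
    induction j with
    | zero => exact e0
    | succ j ih =>
      have hj' : j < k := by omega
      have i1 := ih hj'
      have a1 : (t (j + 1) - t j) * 1 + t j = t (j + 1) := by ring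
      have a2 : γ (t (j + 1)) = z (j + 1) := by
        have := sh.one _ (hD j hj')
        rw [i1] at this
        simpa only [a1] using this
      refine geo_unique (sh.geo _ (hD _ hj)) (hγ.affine _ _) (t0 := 0) (x := z (j + 1))
        (by rw [sh.zero _ (hD _ hj)]; exact mem_extChartAt_source _)
        (by simp only [mul_zero, zero_add, sh.zero _ (hD _ hj), a2]) ?_
      have a3 := he j hj
      rw [i1, ChartX.vel_aff, a1, inv_smul_smul₀ (hne j hj')] at a3
      rw [ChartX.vel_aff, mul_zero, zero_add, a3]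
      exact (smul_inv_smul₀ (hne _ hj) _).symm
  have hz' : ∀ j ≤ k, z j = γ (t j) := by
    intro j hj
    cases j with
    | zero =>
      have := sh.zero _ (hD 0 hk)
      rw [e 0 hk] at this
      simpa only [mul_zero, zero_add] using this.symm
    | succ j =>
      have := sh.one _ (hD j hj)
      rw [e j hj] at this
      simpa only [mul_one, sub_add_cancel] using this.symm
  have gx : γ 0 = x := by rw [← ht0, ← hz' 0 hk.le, hz.1]
  have gy : γ l = y := by rw [← htk, ← hz' k le_rfl, hz.2 k le_rfl]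
  have hen : 0 < energy g γ 0 := energy_pos hγ (s := l) (by rw [gx, gy]; exact hxy.symm)
  obtain ⟨u, hu⟩ := exists_unit_sqrt hγ hen
  refine ⟨u, √(energy g γ 0) * l, mul_pos (Real.sqrt_pos.2 hen) hl, ?_, ?_, ?_, fun j hj => ?_⟩
  · rw [← gx, hu, mul_zero]
  · rw [← gy, hu]
  · have b : Eb k t z = ∑ j ∈ Finset.range k, energy g γ 0 * (t (j + 1) - t j) := by
      refine Finset.sum_congr rfl fun j hj => ?_
      have hj := Finset.mem_range.1 hj
      have := hne j hj
      rw [← (h.mem _ _ (hs j hj)).2, Short.S, e j hj, energy_affine hγ, energy_const hγ _ 0]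
      field_simp
    rw [fE, b, ← Finset.mul_sum, Finset.sum_range_sub, htk, ht0, sub_zero,
      show l * (energy g γ 0 * l) = energy g γ 0 * l ^ 2 by ring, Real.sqrt_mul hen.le,
      Real.sqrt_sq hl.le]
  · rw [hz' j hj, hu]
    refine congrArg _ ?_
    field_simp

theorem mv_or (h : SMd sh dist a) {δ l : ℝ} {k : ℕ} {t : ℕ → ℝ} (ht : Part δ l k t)
    {x y : M} (hxy : x ≠ y) {z : ℕ → M} (hz : z ∈ Wk x y k)
    (hs : ∀ j < k, dist (z j) (z (j + 1)) < a) :
    Mv (Wk x y k) (fE k t) z ∨ ∃ (u : UG g) (L : ℝ), 0 < L ∧ u.1 0 = x ∧ u.1 L = y ∧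
      fE k t z = L ∧ ∀ j ≤ k, z j = u.1 (L * (t j / l)) := by
  by_contra! hc
  obtain ⟨u, L, h1, h2, h3, h4, h5⟩ := geo_of_no_corner h ht hxy hz hs fun j hj =>
    by_contra fun hne => hc.1 (mv_corner h ht hz hs hj hne)
  obtain ⟨j, hj, hne⟩ := hc.2 u L h1 h2 h3 h4
  exact hne (h5 j hj)

theorem nds_mem {l : ℝ} {k : ℕ} {t : ℕ → ℝ} (ht : Part a l k t) (u : UG g) :
    nds u k t ∈ Wk (u.1 0) (u.1 l) k := by
  refine ⟨?_, fun j hj => ?_⟩
  · rw [nds, Nat.zero_min, ht.2.1]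
  · rw [nds, min_eq_right hj, ht.2.2.1]

theorem nds_step (h : SMd sh dist a) {l : ℝ} {k : ℕ} {t : ℕ → ℝ} (ht : Part a l k t) (u : UG g) :
    ∀ j < k, dist (nds u k t j) (nds u k t (j + 1)) = t (j + 1) - t j := by
  intro j hj
  obtain ⟨h1, h2⟩ := ht.2.2.2 j hj
  have e : |t j - t (j + 1)| = t (j + 1) - t j := by
    rw [abs_sub_comm, abs_of_pos (sub_pos.2 h1)]
  rw [nds, nds, min_eq_left hj.le, min_eq_left (Nat.succ_le_of_lt hj),
    h.dist_ug u (by rwa [e]), e]

theorem nds_fE (h : SMd sh dist a) {l : ℝ} {k : ℕ} {t : ℕ → ℝ} (ht : Part a l k t) (u : UG g) :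
    fE k t (nds u k t) = l := by
  have b : Eb k t (nds u k t) = ∑ j ∈ Finset.range k, (t (j + 1) - t j) := by
    refine Finset.sum_congr rfl fun j hj => ?_
    have hj := Finset.mem_range.1 hj
    have := (sub_pos.2 (ht.2.2.2 j hj).1).ne'
    rw [nds_step h ht u j hj]
    field_simp
  rw [fE, b, Finset.sum_range_sub, ht.2.2.1, ht.2.1, sub_zero, Real.sqrt_mul_self ht.pos.le]

variable {k : ℕ} {x y : M} {y0 : ℕ → M}

theorem zr8_Th {y0 : ℕ → M} {v : ℕ → E} {j : ℕ} (h : v j = 0) : Th y0 v j = y0 j := by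
  rw [Th, h, add_zero]
  exact extChartAt_to_inv _

theorem Th_zero (y0 : ℕ → M) : Th y0 (0 : ℕ → E) = y0 := funext fun _ => zr8_Th rfl

theorem Th_mem (hy : y0 ∈ Wk x y k) {v : ℕ → E} (hv : v ∈ Vk E k) : Th y0 v ∈ Wk x y k :=
  ⟨(zr8_Th hv.1).trans hy.1, fun j hj => (zr8_Th (hv.2 j hj)).trans (hy.2 j hj)⟩

theorem Td_open (k : ℕ) (y0 : ℕ → M) : IsOpen (Td E k y0) := by
  have : Td E k y0 = ⋂ j ∈ Iio k,
      (fun v : ℕ → E => κ E (y0 j) (y0 j) + v j) ⁻¹' (κ E (y0 j)).target := by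
    ext v
    simp only [Td, mem_ofPred_eq, mem_iInter, mem_Iio, mem_preimage]
  rw [this]
  exact (finite_Iio k).isOpen_biInter fun j _ =>
    (isOpen_extChartAt_target _).preimage (continuous_const.add (continuous_apply j))

theorem Td_zero (k : ℕ) (y0 : ℕ → M) : 0 ∈ Td E k y0 := fun j _ => by
  rw [Pi.zero_apply, add_zero]
  exact mem_extChartAt_target _

theorem Xd_open (k : ℕ) (y0 : ℕ → M) : IsOpen (Xd E k y0) := by
  have : Xd E k y0 = ⋂ j ∈ Iio k, (fun c : ℕ → M => c j) ⁻¹' (κ E (y0 j)).source := by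
    ext v
    simp only [Xd, mem_ofPred_eq, mem_iInter, mem_Iio, mem_preimage]
  rw [this]
  exact (finite_Iio k).isOpen_biInter fun j _ =>
    (isOpen_extChartAt_source _).preimage (continuous_apply j)

theorem Th_cont (k : ℕ) (y0 : ℕ → M) :
    ContinuousOn (Th y0) (Td E k y0 ∩ (Vk E k : Set (ℕ → E))) := by
  refine continuousOn_pi.2 fun j => ?_
  rcases lt_or_ge j k with hj | hj
  · exact (continuousOn_extChartAt_symm _).comp
      (continuous_const.add (continuous_apply j)).continuousOn fun v hv => hv.1 j hj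
  · exact continuousOn_const.congr fun v hv => zr8_Th (hv.2.2 j hj)

theorem Xi_cont (k : ℕ) (y0 : ℕ → M) : ContinuousOn (Xi E k y0) (Xd E k y0) := by
  refine continuousOn_pi.2 fun j => ?_
  unfold Xi
  split_ifs with hj
  · exact ((continuousOn_extChartAt _).comp (continuous_apply j).continuousOn
      fun c (hc : c ∈ Xd E k y0) => hc j hj).sub continuousOn_const
  · exact continuousOn_const

theorem Xi_Th {v : ℕ → E} (hv : v ∈ Vk E k) (hd : v ∈ Td E k y0) :
    Th y0 v ∈ Xd E k y0 ∧ Xi E k y0 (Th y0 v) = v := by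
  refine ⟨fun j hj => (κ E (y0 j)).map_target (hd j hj), funext fun j => ?_⟩
  unfold Xi
  split_ifs with hj
  · rw [Th, (κ E (y0 j)).right_inv (hd j hj), add_sub_cancel_left]
  · exact (hv.2 j (not_lt.1 hj)).symm

theorem Th_Xi (hy : y0 ∈ Wk x y k) {c : ℕ → M} (hc : c ∈ Wk x y k) (hd : c ∈ Xd E k y0) :
    Xi E k y0 c ∈ Vk E k ∧ Xi E k y0 c ∈ Td E k y0 ∧ Th y0 (Xi E k y0 c) = c := by
  refine ⟨⟨?_, fun j hj => if_neg (not_lt.2 hj)⟩, fun j hj => ?_, funext fun j => ?_⟩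
  · unfold Xi
    split_ifs
    · rw [hc.1, hy.1, sub_self]
    · rfl
  · rw [Xi, if_pos hj, add_sub_cancel]
    exact (κ E (y0 j)).map_source (hd j hj)
  · rcases lt_or_ge j k with hj | hj
    · rw [Th, Xi, if_pos hj, add_sub_cancel, (κ E (y0 j)).left_inv (hd j hj)]
    · rw [zr8_Th (v := Xi E k y0 c) (if_neg (not_lt.2 hj)), hc.2 j hj, hy.2 j hj]

end Pool.Agent.Fu
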