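import Mathlib
import Pool.Agent.P.MP_365c00_gt.ZR8
import Pool.Agent.P.MP_365c00_gt.ZI3

/-! Morse theory: the energy in the chart. -/

set_option linter.unusedSectionVars false
set_option linter.unusedVariables false

open Set Filter Topology Metric Function
open scoped Manifold ContDiff
open Pool.Agent.GeoN

namespace Pool.Agent.Fu

variable {E : Type} [NormedAddCommGroup E] [InnerProductSpace ℝ E] [FiniteDimensional ℝ E]
  {M : Type} [MetricSpace M] [ChartedSpace E M] [IsManifold 𝓘(ℝ, E) ∞ M]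
  [CompactSpace M] [Nonempty M] [Nontrivial E] {g : Met E M}

variable {sh : Short g} {a : ℝ}

section zr9calc
variable {P Q : Type} [NormedAddCommGroup P] [NormedSpace ℝ P] [NormedAddCommGroup Q]
  [NormedSpace ℝ Q]

theorem zr9_aff {φ : Q → ℝ} {b : Q} (L : P →L[ℝ] Q) (hφ : ContDiffAt ℝ 2 φ b) :
    ContDiffAt ℝ 2 (fun p => φ (b + L p)) 0 ∧
      (∀ v, fderiv ℝ (fun p => φ (b + L p)) 0 v = fderiv ℝ φ b (L v)) ∧
      ∀ v w, fderiv ℝ (fderiv ℝ (fun p => φ (b + L p))) 0 v w =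
        fderiv ℝ (fderiv ℝ φ) b (L v) (L w) := by
  have hφ' : ContDiffAt ℝ 2 φ (b + L 0) := by simpa using hφ
  have hψ : ContDiffAt ℝ 2 (fun y => φ (b + y)) (L 0) :=
    ContDiffAt.comp (g := φ) (f := fun y => b + y) (L 0) hφ' (contDiffAt_const.add contDiffAt_id)
  have hd : fderiv ℝ (fun y => φ (b + y)) = fun y => fderiv ℝ φ (b + y) := by
    funext y; exact fderiv_comp_add_left b
  refine ⟨ContDiffAt.comp (g := fun y => φ (b + y)) (f := L) 0 hψ L.contDiff.contDiffAt, ?_, ?_⟩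
  · intro v
    have h1 : HasFDerivAt (fun y => φ (b + y)) (fderiv ℝ (fun y => φ (b + y)) (L 0)) (L 0) :=
      (hψ.differentiableAt (by simp)).hasFDerivAt
    have h2 := (h1.comp (0 : P) L.hasFDerivAt).fderiv
    have h3 : (fun p => φ (b + L p)) = (fun y => φ (b + y)) ∘ L := rfl
    rw [h3, h2, hd]
    simp
  · intro v w
    have h3 : (fun p => φ (b + L p)) = (fun y => φ (b + y)) ∘ L := rfl
    rw [h3, hess_lin L hψ v w, hd, fderiv_comp_add_left (f := fderiv ℝ φ) b]
    simp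

theorem zr9_sum (f : ℕ → P → ℝ) (z : P) (k : ℕ) (hf : ∀ j < k, ContDiffAt ℝ 2 (f j) z) :
    ContDiffAt ℝ 2 (fun p => ∑ j ∈ Finset.range k, f j p) z ∧
      (∀ v, fderiv ℝ (fun p => ∑ j ∈ Finset.range k, f j p) z v =
        ∑ j ∈ Finset.range k, fderiv ℝ (f j) z v) ∧
      ∀ v w, fderiv ℝ (fderiv ℝ (fun p => ∑ j ∈ Finset.range k, f j p)) z v w =
        ∑ j ∈ Finset.range k, fderiv ℝ (fderiv ℝ (f j)) z v w := by
  induction k with
  | zero =>
    refine ⟨by simpa using contDiffAt_const, by simp, ?_⟩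
    intro v w
    simp
  | succ k ih =>
    obtain ⟨h1, h2, h3⟩ := ih fun j hj => hf j (Nat.lt_succ_of_lt hj)
    have hk := hf k (Nat.lt_succ_self k)
    simp only [Finset.sum_range_succ]
    refine ⟨h1.add hk, ?_, ?_⟩
    · intro v
      rw [fderiv_fun_add (h1.differentiableAt (by simp)) (hk.differentiableAt (by simp)),
        add_apply, h2]
    · intro v w
      rw [hess_add h1 hk, add_apply, add_apply, h3]

end zr9calc

theorem zr9_cont (y : ℕ → M) {P : Type} [NormedAddCommGroup P] [NormedSpace ℝ P]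
    (e : P →L[ℝ] (ℕ → E)) (j : ℕ) :
    ContinuousAt (fun p => Th y (e p) j) 0 ∧ Th y (e 0) j = y j := by
  refine ⟨?_, by rw [map_zero, Th_zero]⟩
  have h1 : ContinuousAt (fun p : P => κ E (y j) (y j) + e p j) 0 :=
    (continuous_const.add ((continuous_apply j).comp e.continuous)).continuousAt
  have h2 : ContinuousAt (κ E (y j)).symm (κ E (y j) (y j) + e 0 j) := by
    simpa using continuousAt_extChartAt_symm (I := 𝓘(ℝ, E)) (y j)
  exact ContinuousAt.comp (g := (κ E (y j)).symm)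
    (f := fun p : P => κ E (y j) (y j) + e p j) h2 h1

theorem Eb_chart (h : SMd sh dist a) {l : ℝ} {k : ℕ} {t : ℕ → ℝ} (ht : Part a l k t) (u : UG g)
    {P : Type} [NormedAddCommGroup P] [NormedSpace ℝ P] (e : P →L[ℝ] (ℕ → E))
    (he : ∀ p, e p ∈ Vk E k) :
    ContDiffAt ℝ 2 (fun p => Eb k t (Th (nds u k t) (e p))) 0 ∧
      fderiv ℝ (fun p => Eb k t (Th (nds u k t) (e p))) 0 = 0 ∧
      ∀ p q, fderiv ℝ (fderiv ℝ fun p => Eb k t (Th (nds u k t) (e p))) 0 p q =
        Qf sh u k t (e p) (e q) := by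
  let L : ℕ → P →L[ℝ] (E × E) := fun j =>
    ((ContinuousLinearMap.proj j).comp e).prod ((ContinuousLinearMap.proj (j + 1)).comp e)
  have hL : ∀ j p, L j p = (e p j, e p (j + 1)) := fun _ _ => rfl
  let f : ℕ → P → ℝ := fun j p =>
    Sq sh u (t j) (t (j + 1)) ((bp u (t j), bp u (t (j + 1))) + L j p)
  have hstep := ht.2.2.2
  have hsm : ∀ j < k, ContDiffAt ℝ 2 (Sq sh u (t j) (t (j + 1)))
      (bp u (t j), bp u (t (j + 1))) := fun j hj =>
    (Sq_smooth h u (by rw [abs_of_pos (sub_pos.2 (hstep j hj).1)]; exact (hstep j hj).2)).of_le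
      (WithTop.coe_le_coe.2 (le_top : (2 : ℕ∞) ≤ ⊤))
  have hf := fun j hj => zr9_aff (L j) (hsm j hj)
  have hev : ∀ j < k, ∀ᶠ p in 𝓝 (0 : P),
      dist (Th (nds u k t) (e p) j) (Th (nds u k t) (e p) (j + 1)) < a := by
    intro j hj
    have h1 := zr9_cont (nds u k t) e j
    have h2 := zr9_cont (nds u k t) e (j + 1)
    have h3 := h1.1.dist h2.1
    refine h3.eventually (gt_mem_nhds ?_)
    show dist (Th (nds u k t) (e 0) j) (Th (nds u k t) (e 0) (j + 1)) < a
    rw [h1.2, h2.2, nds_step h ht u j hj]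
    exact (hstep j hj).2
  have hall : ∀ᶠ p in 𝓝 (0 : P), ∀ j ∈ Finset.range k,
      dist (Th (nds u k t) (e p) j) (Th (nds u k t) (e p) (j + 1)) < a :=
    (Finset.range k).eventually_all.2 fun j hj => hev j (Finset.mem_range.1 hj)
  have heq : (fun p => Eb k t (Th (nds u k t) (e p))) =ᶠ[𝓝 0]
      fun p => ∑ j ∈ Finset.range k, f j p := by
    filter_upwards [hall] with p hp
    unfold Eb
    refine Finset.sum_congr rfl fun j hj => ?_
    have hj' := Finset.mem_range.1 hj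
    rw [← (h.mem _ _ (hp j hj)).2]
    have m1 : min j k = j := min_eq_left hj'.le
    have m2 : min (j + 1) k = j + 1 := min_eq_left hj'
    simp only [f, hL, Sq, Th, nds, m1, m2, bp, Prod.mk_add_mk]
  obtain ⟨s1, s2, s3⟩ := zr9_sum f 0 k fun j hj => (hf j hj).1
  refine ⟨s1.congr_of_eventuallyEq heq, ?_, ?_⟩
  · rw [heq.fderiv_eq]
    ext v
    rw [s2 v]
    have h1 : ∀ j ∈ Finset.range k, fderiv ℝ (f j) 0 v =
        2 * gt u (t (j + 1)) (tv u (t (j + 1))) (e v (j + 1)) -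
          2 * gt u (t j) (tv u (t j)) (e v j) := by
      intro j hj
      have hj' := Finset.mem_range.1 hj
      rw [(hf j hj').2.1 v, Sq_fderiv_bp h u (hstep j hj').1 (hstep j hj').2, hL]
      ring
    rw [Finset.sum_congr rfl h1,
      Finset.sum_range_sub (fun j => 2 * gt u (t j) (tv u (t j)) (e v j)) k,
      (mem_Vk.1 (he v)).1, (mem_Vk.1 (he v)).2 k le_rfl]
    simp
  · intro p q
    rw [heq.fderiv.fderiv_eq, s3 p q]
    unfold Qf
    refine Finset.sum_congr rfl fun j hj => ?_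
    rw [(hf j (Finset.mem_range.1 hj)).2.2 p q, Bq_eq, hL, hL]

end Pool.Agent.Fu
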