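import Mathlib
import Pool.Agent.P.MP_365c00_gt.ZR3
import Pool.Agent.P.MP_365c00_gt.ZR5
import Pool.Agent.P.MP_365c00_gt.ZR6
import Pool.Agent.P.MP_365c00_gt.ZR9
import Pool.Agent.P.MP_365c00_gt.ZI

/-! Morse theory: passing a nondegenerate critical level. -/

set_option linter.unusedSectionVars false
set_option linter.unusedVariables false

open Set Filter Topology Metric Function
open scoped Manifold ContDiff
open Pool.Agent.GeoN

namespace Pool.Agent.Fu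

variable {E : Type} [NormedAddCommGroup E] [InnerProductSpace ℝ E] [FiniteDimensional ℝ E]
  {M : Type} [MetricSpace M] [ChartedSpace E M] [IsManifold 𝓘(ℝ, E) ∞ M]
  [CompactSpace M] [Nonempty M] [Nontrivial E] {g : Met E M}

variable {sh : Short g} {a : ℝ} {F : Type} [Field F] {δ l : ℝ} {k : ℕ} {t : ℕ → ℝ}
  {P : Type} [NormedAddCommGroup P] [NormedSpace ℝ P]

theorem th_dom (k : ℕ) (y0 : ℕ → M) (e : P →L[ℝ] (ℕ → E)) :
    ∀ᶠ p in 𝓝 (0 : P), e p ∈ Td E k y0 :=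
  e.continuous.continuousAt.eventually_mem
    ((Td_open k y0).mem_nhds (by rw [map_zero]; exact Td_zero k y0))

theorem th_contOn (y0 : ℕ → M) (e : P →L[ℝ] (ℕ → E)) (he : ∀ p, e p ∈ Vk E k) {A : Set P}
    (hA : ∀ p ∈ A, e p ∈ Td E k y0) : ContinuousOn (fun p => Th y0 (e p)) A :=
  (Th_cont k y0).comp e.continuous.continuousOn fun p hp => ⟨hA p hp, he p⟩

theorem th_tendsto (y0 : ℕ → M) (e : P →L[ℝ] (ℕ → E)) (he : ∀ p, e p ∈ Vk E k) :
    Tendsto (fun p => Th y0 (e p)) (𝓝 0) (𝓝 y0) := by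
  have h := (th_contOn y0 e he (A := {p | e p ∈ Td E k y0}) fun _ hp => hp).continuousAt
    (th_dom k y0 e)
  rwa [ContinuousAt, map_zero, Th_zero] at h

variable [FiniteDimensional ℝ P]

theorem neg_ev (h : SMd sh dist a) (ht : Part a l k t) (u : UG g) (ν : P →L[ℝ] (ℕ → E))
    (h1 : ∀ w, ν w ∈ Vk E k) (h2 : ∀ w, w ≠ 0 → Qf sh u k t (ν w) (ν w) < 0) :
    ∀ᶠ w in 𝓝 (0 : P), w ≠ 0 → fE k t (Th (nds u k t) (ν w)) < l := by
  obtain ⟨d1, d2, d3⟩ := Eb_chart h ht u ν h1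
  filter_upwards [cc_neg d1 d2 fun w hw => (d3 w w).trans_lt (h2 w hw)] with w hw h0
  have := hw h0
  rw [map_zero, Th_zero] at this
  exact ((fE_lt_iff ht _ _).2 this).trans_eq (nds_fE h ht u)

/-- the descending cell -/
theorem neg_ball (h : SMd sh dist a) (S : GS M) (ht : Part δ l k t) (hδ : δ ≤ S.a) (hS : S.a ≤ a)
    (u : UG g) (ν : P →L[ℝ] (ℕ → E)) (h1 : ∀ w, ν w ∈ Vk E k)
    (h2 : ∀ w, w ≠ 0 → Qf sh u k t (ν w) (ν w) < 0) :
    ∃ ρ > 0, ContinuousOn (fun w => S.brk k (Th (nds u k t) (ν w))) (ball 0 ρ) ∧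
      ∀ w ∈ ball (0 : P) ρ,
        (∀ j < k, dist (Th (nds u k t) (ν w) j) (Th (nds u k t) (ν w) (j + 1)) < S.a) ∧
        S.brk k (Th (nds u k t) (ν w)) ∈ Omc (u.1 0) (u.1 l) l ∧
        (w ≠ 0 → S.brk k (Th (nds u k t) (ν w)) ∈ Om (u.1 0) (u.1 l) l) := by
  have ta := ht.mono' (hδ.trans hS)
  have e1 : ∀ᶠ c in 𝓝 (nds u k t), ∀ j ∈ Finset.range k, dist (c j) (c (j + 1)) < S.a :=
    (Finset.eventually_all _).2 fun j hj =>
      (((continuous_apply j).dist (continuous_apply (j + 1))).tendsto _).eventually_lt_const (by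
        rw [nds_step h ta u j (Finset.mem_range.1 hj)]
        exact (ht.2.2.2 j (Finset.mem_range.1 hj)).2.trans_le hδ)
  obtain ⟨ρ, hρ, hb⟩ := Metric.eventually_nhds_iff_ball.1 ((th_dom k (nds u k t) ν).and
    (((th_tendsto _ ν h1).eventually e1).and (neg_ev h ta u ν h1 h2)))
  have hs := fun w hw j hj => (hb w hw).2.1 j (Finset.mem_range.2 hj)
  refine ⟨ρ, hρ, S.brk_cont k (th_contOn _ ν h1 fun p hp => (hb p hp).1) hs, fun w hw => ?_⟩
  obtain ⟨b1, b2⟩ := brk_le S ht (Th_mem (nds_mem ta u) (h1 w)) (hs w hw)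
  refine ⟨hs w hw, ⟨b1, b2.trans ?_⟩, fun h0 => ⟨b1, b2.trans_lt ((hb w hw).2.2 h0)⟩⟩
  rcases eq_or_ne w 0 with rfl | h0
  · rw [map_zero, Th_zero, nds_fE h ta u]
  · exact ((hb w hw).2.2 h0).le

theorem neg_ZZ {G : P → Mo M} {ρ : ℝ} {A B : Set (Mo M)} (hG : ContinuousOn G (ball 0 ρ))
    (h : ∀ w ∈ ball (0 : P) ρ, G w ∈ A ∧ (w ≠ 0 → G w ∈ B)) {r : ℕ} {o : Ch F P}
    (ho : Gen F r univ 0 o) (hc : o ∈ CC F (ball 0 ρ)) : mp G o ∈ ZZ F A B :=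
  mp_mem_ZZ (B := univ \ {0}) hG (fun w hw => (h w hw).1) (fun w hw => (h w hw.1).2 hw.2.2)
    (mem_ZZ.2 ⟨hc, (mem_ZZ.1 ho.zz).2⟩)

theorem mt_main (h : SMd sh dist a) (S : GS M) (ht : Part δ l k t) (hδ : δ ≤ S.a) (hS : S.a ≤ a)
    {c : ℝ} (hc : c ^ 2 * δ ≤ S.a ^ 2 * l) (u : UG g) (hxy : u.1 0 ≠ u.1 l) (hn : NdJ g u l)
    (hl : l < c) (hu : ∀ (v : UG g) (L : ℝ), 0 < L → v.1 0 = u.1 0 → v.1 L = u.1 l → l ≤ L →
      L < c → v = u ∧ L = l) (ν : P →L[ℝ] (ℕ → E)) (h1 : ∀ w, ν w ∈ Vk E k)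
    (h2 : ∀ w, w ≠ 0 → Qf sh u k t (ν w) (ν w) < 0) (hr : Module.finrank ℝ P = idx sh a u l) :
    ∃ ρ > 0, ∀ (r : ℕ) (o : Ch F P), Gen F r univ 0 o → o ∈ CC F (ball 0 ρ) →
      GnR F (Om (u.1 0) (u.1 l) c) (Om (u.1 0) (u.1 l) l)
        (mp (fun w => S.brk k (Th (nds u k t) (ν w))) o) := by
  have ta := ht.mono' (hδ.trans hS)
  obtain ⟨r', e, μ, e1, e2, e3, e4, e5⟩ := la_compl (Q := Ql sh u k t) (Qf_symm h u ta)
    (fun v hv h0 => nd_part h u ta hn hv h0) ν h1 h2 (hr.trans (idx_part h u ta))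
  obtain ⟨d1, d2, d3⟩ := Eb_chart h ta u e e1
  have f0 := nds_fE h ta u
  have y0 := nds_mem ta u
  obtain ⟨ρ, hρ, hb⟩ := Metric.eventually_nhds_iff_ball.1 ((th_dom k (nds u k t) e).and
    ((((fE_cont k t).tendsto _).comp (th_tendsto _ e e1)).eventually_lt_const (f0.trans_lt hl) |>.and
      ((cc_pos d1 d2 fun w hw => (e3 w hw).trans_eq (d3 _ _).symm).and
        (continuous_fst.continuousAt.eventually (neg_ev h ta u ν h1 h2)))))
  refine ⟨ρ, hρ, fun r o ho hoc => ?_⟩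
  have cΘ := th_contOn (nds u k t) e e1 fun p hp => (hb p hp).1
  have cΞ : ContinuousOn (fun z => μ (Xi E k (nds u k t) z)) (Xd E k (nds u k t)) :=
    μ.continuous.comp_continuousOn (Xi_cont k _)
  have hU := cΞ.isOpen_inter_preimage (Xd_open k _) (isOpen_ball (x := 0) (ε := ρ))
  generalize hUe : Xd E k (nds u k t) ∩ (fun z => μ (Xi E k (nds u k t) z)) ⁻¹' ball 0 ρ = U at hU
  have i1 : ∀ p ∈ ball 0 ρ, μ (Xi E k (nds u k t) (Th (nds u k t) (e p))) = p := fun p hp => by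
    rw [(Xi_Th (e1 p) (hb p hp).1).2, e4]
  have mU : ∀ p ∈ ball 0 ρ, Th (nds u k t) (e p) ∈ U := fun p hp =>
    hUe ▸ ⟨(Xi_Th (e1 p) (hb p hp).1).1, mem_preimage.2 (by rwa [i1 p hp])⟩
  have hz : Th (nds u k t) (e 0) = nds u k t := by rw [map_zero, Th_zero]
  have b1 : ∀ w ∈ ball (0 : P) ρ, (w, (0 : Fin r' → ℝ)) ∈ ball 0 ρ := fun w hw => by
    rw [← Prod.mk_zero_zero, ← ball_prod_same]
    exact ⟨hw, mem_ball_self hρ⟩
  have c1 : ∀ w ∈ ball (0 : P) ρ, w ≠ 0 →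
      fE k t (Th (nds u k t) (e (w, 0))) < fE k t (nds u k t) := fun w hw h0 => by
    rw [e2, f0]
    exact (hb _ (b1 w hw)).2.2.2 h0
  have c2 : ∀ p ∈ ball (0 : P × (Fin r' → ℝ)) ρ,
      ¬fE k t (Th (nds u k t) (e (0, p.2))) < fE k t (nds u k t) := fun p hp hlt => by
    have := (hb p hp).2.2.1.1
    rw [hz] at this
    exact ((fE_lt_iff ht _ _).1 hlt).not_ge this
  have hm := gn_model (F := F) (Θ := fun p => Th (nds u k t) (e p))
    (B := Sub (Wk (u.1 0) (u.1 l) k) (fE k t) c ∩ U)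
    (L := Sub (Wk (u.1 0) (u.1 l) k) (fE k t) (fE k t (nds u k t)) ∩ U) hρ
    (fun z hz => ⟨⟨hz.1.1, hz.1.2.trans (f0.trans_lt hl)⟩, hz.2⟩) cΘ
    (cΞ.mono fun z hz => (hUe ▸ hz.2 :).1)
    (fun p hp => ⟨⟨Th_mem y0 (e1 p), (hb p hp).2.1⟩, mU p hp⟩) (fun z hz => (hUe ▸ hz.2 :).2) i1
    (fun z hz => by
      obtain ⟨k1, -, k3⟩ := Th_Xi (E := E) y0 hz.1.1 (hUe ▸ hz.2 :).1
      simp only [e5 _ k1, k3])
    (fun w hw h0 => ⟨⟨Th_mem y0 (e1 _), c1 w hw h0⟩, mU _ (b1 w hw)⟩)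
    (fun w hw hL => c2 (0, w) (by
      rw [← Prod.mk_zero_zero, ← ball_prod_same]
      exact ⟨mem_ball_self hρ, hw⟩) hL.1.2)
    (fun p hp hL s hs => by
      have hp' := hp
      rw [← Prod.mk_zero_zero, ← ball_prod_same] at hp'
      refine ⟨⟨Th_mem y0 (e1 _), (fE_lt_iff ht _ _).2 (((hb p hp).2.2.1.2 s hs).trans_lt
        (max_lt ((fE_lt_iff ht _ _).1 (c1 _ hp'.1 fun h0 => c2 p hp ?_))
          ((fE_lt_iff ht _ _).1 hL.1.2)))⟩, mU _ ?_⟩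
      · rw [← h0]
        exact hL.1.2
      · rw [← Prod.mk_zero_zero, ← ball_prod_same]
        refine ⟨hp'.1, ?_⟩
        have := (convex_ball (0 : Fin r' → ℝ) ρ).smul_mem_of_zero_mem (mem_ball_self hρ) hp'.2 hs
        exact this) ho hoc
  have ha := am_one (Wk_closed _ _ k) (fE_cont k t) y0 hU (hz ▸ mU 0 (mem_ball_self hρ))
    (f0.trans_lt hl) (fun z hz hne k1 k2 => by
      refine (mv_or h ht hxy hz fun j hj =>
        (step_lt ht S.a_pos hc k2 j hj).trans_le hS).resolve_right ?_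
      rintro ⟨v, L, p1, p2, p3, p4, p5⟩
      obtain ⟨rfl, rfl⟩ := hu v L p1 p2 p3 (by linarith) (by linarith)
      refine hne (funext fun j => ?_)
      rcases le_total j k with hj | hj
      · rw [p5 j hj, nds, min_eq_left hj, mul_div_cancel₀ _ p1.ne']
      · rw [hz.2 j hj, y0.2 j hj]) hm
    (mp_mem_CC (fun w hw => by
      rcases eq_or_ne w 0 with rfl | h0
      · exact Or.inr hz
      · exact Or.inl ⟨Th_mem y0 (e1 _), c1 w hw h0⟩) hoc)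
  rw [f0] at ha
  have hf := ha.map (fun z hz => And.intro hz.1 (hz.2.trans hl)) (brk_contOn S ht hc)
    (brk_maps S ht hc le_rfl) (brk_maps S ht hc hl.le) (QI_brk S ht hc hl.le)
  rw [mp_mp (f := fun w => Th (nds u k t) (e (w, 0))) (cΘ.comp (by fun_prop) b1)
    (brk_contOn S ht hc)
    (fun w hw => ⟨Th_mem y0 (e1 _), (hb _ (b1 w hw)).2.1⟩) hoc] at hf
  simpa only [Function.comp_def, e2] using hf

end Pool.Agent.Fu
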