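import Mathlib
import Pool.Agent.P.MP_365c00_gt.ZM3
import Pool.Agent.P.MP_365c00_gt.ZR10
import Pool.Agent.P.MP_365c00_gt.ZP3

/-! Morse theory for the path spaces of a Riemannian manifold. -/

set_option linter.unusedSectionVars false
set_option linter.unusedVariables false

open Set Filter Topology Metric Function MeasureTheory
open scoped Manifold ContDiff
open Pool.Agent.GeoN

namespace Pool.Agent.Fu

variable {E : Type} [NormedAddCommGroup E] [InnerProductSpace ℝ E] [FiniteDimensional ℝ E]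
  {M : Type} [MetricSpace M] [ChartedSpace E M] [IsManifold 𝓘(ℝ, E) ∞ M]
  [CompactSpace M] [Nonempty M] [Nontrivial E] {g : Met E M}

theorem zr_mesh {b l : ℝ} (hb : 0 < b) (hl : 0 < l) (c : ℝ) :
    ∃ δ > 0, δ ≤ b ∧ c ^ 2 * δ ≤ b ^ 2 * l := by
  refine ⟨min b (b ^ 2 * l / (c ^ 2 + 1)), by positivity, min_le_left _ _, ?_⟩
  have h := (le_div_iff₀ (by positivity)).1 (min_le_right b (b ^ 2 * l / (c ^ 2 + 1)))
  have h0 : 0 < min b (b ^ 2 * l / (c ^ 2 + 1)) := by positivity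
  linarith

theorem zr_mt0 {sh : Short g} {a : ℝ} (h : SMd sh dist a) (S : GS M) (hS : S.a ≤ a) (F : Type)
    [Field F] {x y : M} (hxy : x ≠ y) {b c : ℝ}
    (hg : ∀ (u : UG g) (l : ℝ), 0 < l → u.1 0 = x → u.1 l = y → l < b ∨ c ≤ l) :
    ZZ F (Om x y c) (Om x y b) ≤ NN F (Om x y c) (Om x y b) := by
  rcases le_total c b with hb | hb
  · exact fun z hz => CC_le_NN _ _ (CC_mono (Om_mono x y hb) (mem_ZZ.1 hz).1)
  obtain ⟨δ, h0, h1, h2⟩ := zr_mesh S.a_pos one_pos c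
  have ht := part_std h0 one_pos
  refine QI_zero (fun z hz => And.intro hz.1 (hz.2.trans_le hb)) (brk_contOn S ht h2)
    (brk_maps S ht h2 le_rfl) (brk_maps S ht h2 hb) (QI_brk S ht h2 hb)
    (am_zero (Wk_closed _ _ _) (fE_cont _ _) fun z hz k1 k2 => ?_)
  refine (mv_or h ht hxy hz fun j hj =>
    (step_lt ht S.a_pos h2 k2 j hj).trans_le hS).resolve_right ?_
  rintro ⟨v, L, p1, p2, p3, p4, -⟩
  rcases hg v L p1 p2 p3 with k | k <;> linarith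

theorem zr_neg {sh : Short g} {a : ℝ} (h : SMd sh dist a) (u : UG g) {l : ℝ} {k : ℕ} {t : ℕ → ℝ}
    (ht : Part a l k t) : ∃ ν : (Fin (idx sh a u l) → ℝ) →L[ℝ] (ℕ → E),
      (∀ w, ν w ∈ Vk E k) ∧ ∀ w, w ≠ 0 → Qf sh u k t (ν w) (ν w) < 0 := by
  rw [idx_part h u ht]
  exact la_neg (Ql sh u k t) k

theorem zr_gen {F : Type} [Field F] (h2 : (2 : F) ≠ 0) (r : ℕ) {ρ : ℝ} (hρ : 0 < ρ) :
    ∃ o : Ch F (Fin r → ℝ), Gen F r univ 0 o ∧ o ∈ CC F (ball 0 ρ) := by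
  obtain ⟨o, ho⟩ := exists_gen h2 (Fin r → ℝ)
  rw [Module.finrank_fin_fun] at ho
  obtain ⟨o', k1, k2, -⟩ := ho.small isOpen_ball (mem_ball_self hρ)
  exact ⟨o', k2, by rwa [univ_inter] at k1⟩

/-- joining two families of variations -/
theorem zr_join {P P' : Type} [NormedAddCommGroup P] [NormedSpace ℝ P] [NormedAddCommGroup P']
    [NormedSpace ℝ P'] {k k' : ℕ} (ν : P →L[ℝ] (ℕ → E)) (ν' : P' →L[ℝ] (ℕ → E))
    (h : ∀ w, ν w ∈ Vk E k) (h' : ∀ w, ν' w ∈ Vk E k') :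
    ∃ μ : P × P' →L[ℝ] (ℕ → E), (∀ w, μ w ∈ Vk E (k + k')) ∧ (∀ w, ∀ j ≤ k, μ w j = ν w.1 j) ∧
      ∀ w j, μ w (k + j) = ν' w.2 j := by
  obtain ⟨μ, hμ⟩ : ∃ μ : P × P' →L[ℝ] (ℕ → E), ∀ w j,
      μ w j = if j < k then ν w.1 j else ν' w.2 (j - k) :=
    ⟨ContinuousLinearMap.pi fun j => if j < k then
      (ContinuousLinearMap.proj j).comp (ν.comp (ContinuousLinearMap.fst ℝ P P')) else
      (ContinuousLinearMap.proj (j - k)).comp (ν'.comp (ContinuousLinearMap.snd ℝ P P')),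
      fun w j => by
        rw [ContinuousLinearMap.pi_apply]
        split_ifs <;> rfl⟩
  have e1 : ∀ w, ∀ j ≤ k, μ w j = ν w.1 j := fun w j hj => by
    rw [hμ]
    split_ifs with hk
    · rfl
    · rw [Nat.sub_eq_zero_of_le hj, (h' _).1, (h _).2 j (not_lt.1 hk)]
  refine ⟨μ, fun w => ⟨(e1 w 0 k.zero_le).trans (h _).1, fun j hj => ?_⟩, e1, fun w j => ?_⟩
  · rw [hμ, if_neg (by omega), (h' _).2 _ (by omega)]
  · rw [hμ, if_neg (by omega), Nat.add_sub_cancel_left]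

theorem zr_th {y y' : ℕ → M} {v v' : ℕ → E} {j j' : ℕ} (h : y j = y' j') (h' : v j = v' j') :
    Th y v j = Th y' v' j' := by
  rw [Th, Th, h, h']

theorem zr_zero {sh : Short g} (u : UG g) (k : ℕ) (t : ℕ → ℝ) : Qf sh u k t 0 0 = 0 :=
  (Ql sh u k t 0).map_zero

theorem zr_mt1 {sh : Short g} {a : ℝ} (h : SMd sh dist a) (S : GS M) (hSa : S.a ≤ a) {F : Type}
    [Field F] (h2 : (2 : F) ≠ 0) (u : UG g) {l c : ℝ} (hl : 0 < l) (hxy : u.1 0 ≠ u.1 l)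
    (hn : NdJ g u l) (hc : l < c) (hu : ∀ (v : UG g) (L : ℝ), 0 < L → v.1 0 = u.1 0 →
      v.1 L = u.1 l → l ≤ L → L < c → v = u ∧ L = l) :
    ∃ o ∈ ZZ F (Omc (u.1 0) (u.1 l) l) (Om (u.1 0) (u.1 l) l), o ∈ HD F _ (idx sh a u l) ∧
      GnR F (Om (u.1 0) (u.1 l) c) (Om (u.1 0) (u.1 l) l) o := by
  obtain ⟨δ, h0, h1, h3⟩ := zr_mesh S.a_pos hl c
  obtain ⟨k, t, ht⟩ : ∃ k t, Part δ l k t := ⟨_, _, part_std h0 hl⟩
  obtain ⟨ν, n1, n2⟩ := zr_neg h u (ht.mono' (h1.trans hSa))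
  obtain ⟨ρ, hρ, k1⟩ := mt_main (F := F) h S ht h1 hSa h3 u hxy hn hc hu ν n1 n2
    (Module.finrank_fin_fun ℝ)
  obtain ⟨ρ', hρ', k2, k3⟩ := neg_ball h S ht h1 hSa u ν n1 n2
  obtain ⟨o, o1, o2⟩ := zr_gen h2 (idx sh a u l) (lt_min hρ hρ')
  exact ⟨_, neg_ZZ k2 (fun w hw => (k3 w hw).2) o1
    (CC_mono (ball_subset_ball (min_le_right _ _)) o2), mp_mem_HD _ o1.hd,
    k1 _ o o1 (CC_mono (ball_subset_ball (min_le_left _ _)) o2)⟩

theorem zr_nds {δ l l' : ℝ} {k k' : ℕ} {t t' : ℕ → ℝ} (ht : Part δ l k t) (ht' : Part δ l' k' t')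
    (u : UG g) : (∀ j ≤ k, nds u (k + k') (ctp k l t t') j = nds u k t j) ∧
      ∀ j ≤ k', nds u (k + k') (ctp k l t t') (k + j) = nds (shift l u) k' t' j := by
  refine ⟨fun j hj => ?_, fun j hj => ?_⟩
  · rw [nds, nds, min_eq_left hj, min_eq_left (hj.trans (Nat.le_add_right k k')), ctp]
    split_ifs with hk
    · rfl
    · rw [Nat.sub_eq_zero_of_le hj, ht'.2.1, zero_add, le_antisymm hj (not_lt.1 hk), ht.2.2.1]
  · rw [nds, nds, min_eq_left hj, min_eq_left (Nat.add_le_add_left hj k), ctp,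
      if_neg (by omega), Nat.add_sub_cancel_left, shift_apply]

theorem zr_mul {F : Type} [Field F] {P P' : Type} [TopologicalSpace P] [TopologicalSpace P']
    {A : Set P} {A' : Set P'} {G : P → Mo M} {G' : P' → Mo M} {K : P × P' → Mo M} {x y z : M}
    (hG : ContinuousOn G A) (hG' : ContinuousOn G' A') (h : ∀ w ∈ A, G w ∈ Pa x y)
    (h' : ∀ w ∈ A', G' w ∈ Pa y z) (hK : ∀ w ∈ A ×ˢ A', K w = cat (G w.1) (G' w.2))
    {o : Ch F P} {o' : Ch F P'} (ho : o ∈ CC F A) (ho' : o' ∈ CC F A') :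
    mul (mp G o) (mp G' o') = mp K (cross o o') := by
  rw [mul_apply, cross_mp hG hG' ho ho', mp_mp (hG.prodMap hG')
    (cat_contOn (x := x) (y := y) (z := z) subset_rfl subset_rfl)
    (fun w hw => ⟨h _ hw.1, h' _ hw.2⟩) (cross_mem_CC ho ho')]
  exact (mp_congr hK (cross_mem_CC ho ho')).symm

theorem zr_mt2 {sh : Short g} {a : ℝ} (h : SMd sh dist a) (S : GS M) (hSa : S.a ≤ a) {F : Type}
    [Field F] (h2 : (2 : F) ≠ 0) (u : UG g) {l l' c : ℝ} (hl : 0 < l) (hl' : 0 < l')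
    (hxy : u.1 0 ≠ u.1 (l' + l)) (hn : NdJ g u (l' + l)) (hc : l' + l < c)
    (hu : ∀ (v : UG g) (L : ℝ), 0 < L → v.1 0 = u.1 0 →
      v.1 L = u.1 (l' + l) → l' + l ≤ L → L < c → v = u ∧ L = l' + l)
    (hi : idx sh a u (l' + l) = idx sh a u l + idx sh a (shift l u) l') :
    ∃ g1 ∈ ZZ F (Omc (u.1 0) (u.1 l) l) (Om (u.1 0) (u.1 l) l),
      ∃ g2 ∈ ZZ F (Omc (u.1 l) (u.1 (l' + l)) l') (Om (u.1 l) (u.1 (l' + l)) l'),
        mul g1 g2 ∉ NN F (Om (u.1 0) (u.1 (l' + l)) c) (Om (u.1 0) (u.1 (l' + l)) (l' + l)) := by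
  obtain ⟨δ, h0, h1, h3⟩ := zr_mesh S.a_pos (add_pos hl' hl) c
  obtain ⟨k, t, ht⟩ : ∃ k t, Part δ l k t := ⟨_, _, part_std h0 hl⟩
  obtain ⟨k', t', ht'⟩ : ∃ k t, Part δ l' k t := ⟨_, _, part_std h0 hl'⟩
  obtain ⟨ν, n1, n2⟩ := zr_neg h u (ht.mono' (h1.trans hSa))
  obtain ⟨ν', n1', n2'⟩ := zr_neg h (shift l u) (ht'.mono' (h1.trans hSa))
  obtain ⟨μ, m1, m2, m3⟩ := zr_join ν ν' n1 n1'
  have m4 : ∀ w, w ≠ 0 → Qf sh u (k + k') (ctp k l t t') (μ w) (μ w) < 0 := fun w hw => by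
    have e1 : Qf sh u k t (μ w) (μ w) = Qf sh u k t (ν w.1) (ν w.1) :=
      Finset.sum_congr rfl fun j hj => by
        have := Finset.mem_range.1 hj
        rw [m2 w j this.le, m2 w (j + 1) this]
    rw [Qf_ctp u ht ht', e1, show (fun j => μ w (k + j)) = ν' w.2 from funext (m3 w)]
    by_cases a1 : w.1 = 0
    · have a2 : w.2 ≠ 0 := fun a2 => hw (Prod.ext a1 a2)
      rw [a1, map_zero, zr_zero, zero_add]
      exact n2' _ a2
    by_cases a2 : w.2 = 0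
    · rw [a2, map_zero, zr_zero, add_zero]
      exact n2 _ a1
    exact add_neg (n2 _ a1) (n2' _ a2)
  obtain ⟨ρ, hρ, k1⟩ := mt_main (F := F) h S (ht.ctp ht') h1 hSa h3 u hxy hn hc hu μ m1 m4 (by
    rw [Module.finrank_prod, Module.finrank_fin_fun, Module.finrank_fin_fun, hi])
  obtain ⟨ρ0, hρ0, -, k0⟩ := neg_ball h S (ht.ctp ht') h1 hSa u μ m1 m4
  obtain ⟨ρ1, hρ1, k2, k3⟩ := neg_ball h S ht h1 hSa u ν n1 n2
  obtain ⟨ρ2, hρ2, k4, k5⟩ := neg_ball h S ht' h1 hSa (shift l u) ν' n1' n2'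
  rw [shift_apply, shift_apply, zero_add] at k5
  obtain ⟨r, hr, r1, r2, r3, r4⟩ : ∃ r > 0, r ≤ ρ ∧ r ≤ ρ0 ∧ r ≤ ρ1 ∧ r ≤ ρ2 :=
    ⟨min (min ρ ρ0) (min ρ1 ρ2), by positivity, by simp⟩
  obtain ⟨o, o1, o2⟩ := zr_gen h2 (idx sh a u l) hr
  obtain ⟨o', o1', o2'⟩ := zr_gen h2 (idx sh a (shift l u) l') hr
  refine ⟨_, neg_ZZ k2 (fun w hw => (k3 w hw).2) o1 (CC_mono (ball_subset_ball r3) o2), _,
    neg_ZZ k4 (fun w hw => (k5 w hw).2) o1' (CC_mono (ball_subset_ball r4) o2'), ?_⟩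
  have o4 := cross_mem_CC o2 o2'
  rw [ball_prod_same] at o4
  have o5 := o1.prod h2 o1'
  rw [univ_prod_univ] at o5
  rw [zr_mul (K := fun w => S.brk (k + k') (Th (nds u (k + k') (ctp k l t t')) (μ w)))
    (k2.mono (ball_subset_ball r3)) (k4.mono (ball_subset_ball r4))
    (fun w hw => (k3 w (ball_subset_ball r3 hw)).2.1.1)
    (fun w hw => (k5 w (ball_subset_ball r4 hw)).2.1.1) (fun w hw => ?_) o2 o2']
  · exact (k1 _ _ o5 (CC_mono (ball_subset_ball r1) o4)).2.1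
  rw [ball_prod_same] at hw
  exact (S.brk_add k k' (k0 w (ball_subset_ball r2 hw)).1).trans (congrArg₂ cat
    (S.brk_congr k fun j hj => zr_th ((zr_nds ht ht' u).1 j hj) (m2 w j hj))
    (S.brk_congr k' fun j hj => zr_th ((zr_nds ht ht' u).2 j hj) (m3 w j)))

theorem geo_mt {sh : Short g} {a : ℝ} (h : SMd sh dist a) (S : GS M)
    (hS : S.a = a / (2 * Module.finrank ℝ E)) (F : Type) [Field F] (h2 : (2 : F) ≠ 0) :
    (geoD h S hS).MT F := by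
  have hSa : S.a ≤ a := hS ▸ small_le h
  have uq : ∀ {x y : M} {u : UG g} {l c : ℝ}, (geoD h S hS).Reg x y →
      (u, l) ∈ (geoD h S hS).J x y → (∀ v ∈ (geoD h S hS).J x y, v.2 ≤ l ∨ c ≤ v.2) →
      ∀ (v : UG g) (L : ℝ), 0 < L → v.1 0 = u.1 0 → v.1 L = u.1 l → l ≤ L → L < c →
        v = u ∧ L = l := fun {x y u l c} hr hw hg v L p1 p2 p3 p4 p5 => by
    have hv : (v, L) ∈ (geoD h S hS).J x y := ⟨p1, p2.trans hw.2.1, p3.trans hw.2.2⟩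
    exact Prod.ext_iff.1 (hr.2.2.1 _ hv _ hw (le_antisymm ((hg _ hv).resolve_right p5.not_ge) p4))
  refine ⟨fun x y b c hxy hg => zr_mt0 h S hSa F hxy fun u l p1 p2 p3 => hg (u, l) ⟨p1, p2, p3⟩,
    ?_, ?_⟩
  · rintro x y hr ⟨u, l⟩ hw c hc hg
    have hu := uq hr hw hg
    have hn := hr.2.1 _ hw
    have hxy := hr.1
    obtain ⟨hl, rfl, rfl⟩ := hw
    obtain ⟨o, o1, o2, -, o3⟩ := zr_mt1 h S hSa h2 u hl hxy hn hc hu
    exact ⟨o, o1, o2, o3⟩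
  · intro x y z r1 r2 r3 u l1 l2 w1 w2 hi c hc hg
    have ez : (geoD h S hS).ev u (l2 + l1) = z := ((geoD h S hS).ev_sh l1 u l2).symm.trans w2.2.2
    have hw : (u, l2 + l1) ∈ (geoD h S hS).J x z := ⟨add_pos w2.1 w1.1, w1.2.1, ez⟩
    rw [add_comm l1 l2] at hi hc hg ⊢
    have hu := uq r3 hw hg
    have hn := r3.2.1 _ hw
    have hxy := r3.1
    obtain ⟨hl, rfl, rfl⟩ := w1
    subst ez
    exact zr_mt2 h S hSa h2 u hl w2.1 hxy hn hc hu hi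

end Pool.Agent.Fu
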