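import Mathlib
import Pool.Agent.P.MP_365c00_gt.ZA4b
import Pool.Agent.P.MP_365c00_gt.ZA5
import Pool.Agent.P.MP_365c00_gt.ZA6
import Pool.Agent.P.MP_365c00_gt.ZA7
import Pool.Agent.P.MP_365c00_gt.ZA8a
import Pool.Agent.P.MP_365c00_gt.ZR
import Pool.Agent.P.MP_365c00_gt.ZQ7

/-! Almost every pair has a class. -/

set_option linter.unusedSectionVars false
set_option linter.unusedVariables false

open Set Filter Topology Metric Function MeasureTheory
open scoped Manifold ContDiff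
open Pool.Agent.GeoN

namespace Pool.Agent.Fu

variable {E : Type} [NormedAddCommGroup E] [InnerProductSpace ℝ E] [FiniteDimensional ℝ E]
  {M : Type} [MetricSpace M] [ChartedSpace E M] [IsManifold 𝓘(ℝ, E) ∞ M]
  [CompactSpace M] [Nonempty M] [Nontrivial E] {g : Met E M}

variable [MeasurableSpace (E × E)] [BorelSpace (E × E)] {μ : Measure (E × E)}
  [μ.IsAddHaarMeasure]

variable {sh : Short g} {a : ℝ} (h : SMd sh dist a) (S : GS M)
  (hS : S.a = a / (2 * Module.finrank ℝ E))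

theorem ae_reg : NP E μ {z : M × M | ¬ (geoD h S hS).Reg z.1 z.2} := by
  refine ((np_diag.union (np_sard (g := g))).union (np_gen (g := g) 0)).mono ?_
  rintro ⟨x, y⟩ hz
  by_contra hn
  simp only [mem_union, not_or] at hn
  obtain ⟨⟨h1, h2⟩, h3⟩ := hn
  have nd : ∀ w ∈ (geoD h S hS).J x y, NdJ g w.1 w.2 := by
    intro w hw
    by_contra hnd
    exact h2 ⟨w, hw.1, hnd, Prod.ext hw.2.1 hw.2.2⟩
  refine hz ⟨h1, nd, fun w hw v hv e => ?_, geo_fin h S hS h1 nd⟩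
  by_contra hne
  refine h3 ⟨w, v, hw.1, hv.1, nd w hw, nd v hv, Prod.ext hw.2.1 hw.2.2, Prod.ext hv.2.1 hv.2.2,
    sub_eq_zero.2 e, fun hc => hne (Prod.ext hc.1 e)⟩

theorem ae_fin0 (hE : 3 ≤ Module.finrank ℝ E) (hf : NP E μ {z : M × M | ¬ FinU g z.1 z.2}) :
    NP E μ {z : M × M | ¬ (geoD h S hS).Fin0 z.1 z.2} := by
  refine (((ae_reg h S hS).union hf).union (nt_flat (g := g)).push).mono ?_
  rintro ⟨x, y⟩ hz
  by_contra hn
  simp only [mem_union, not_or] at hn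
  obtain ⟨⟨h1, h2⟩, h3⟩ := hn
  have h1' : (geoD h S hS).Reg x y := not_not.1 h1
  obtain ⟨L, U, hU, hP, hL⟩ : FinU g x y := not_not.1 h2
  refine hz ⟨h1', L, {u | u ∈ U ∧ ∃ l, (u, l) ∈ (geoD h S hS).J x y},
    hU.subset fun u hu => hu.1, ?_, fun w hw hl => ⟨hL w.1 w.2 hw.1 hl hw.2.1 hw.2.2, w.2, hw⟩⟩
  rintro u ⟨hu, l, hw⟩
  obtain ⟨P, hP0, hp⟩ := hP u hu
  have hfl : FlatJ g u P := by
    by_contra hfl
    exact h3 ⟨(u, l), ⟨P, hP0, hp, hfl⟩, hw.1, Prod.ext hw.2.1 hw.2.2⟩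
  refine ⟨P, idx sh a u P + (Module.finrank ℝ E - 1), hP0, hp,
    fun r hr hn => idx_add h u hP0 hp hfl hr hn, fun r hr hrP => ?_⟩
  have := idx_mono h u hr hrP
  change idx sh a u r + 2 ≤ _
  omega

include h hS in
theorem za8_le : S.a / 8 < a := by
  have h1 := small_le h
  have h2 := S.a_pos
  rw [← hS] at h1
  linarith

include h hS in
theorem za8_dist (u : UG g) {l : ℝ} (h0 : 0 < l) (hl : l < S.a / 8) : dist (u.1 0) (u.1 l) = l := by
  have e : |0 - l| = l := by rw [zero_sub, abs_neg, abs_of_pos h0]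
  have := h.dist_ug u (s := 0) (t := l) (by rw [e]; exact hl.trans (za8_le h S hS))
  rwa [e] at this

include h hS in
theorem za8_step {p : UG g → Prop} {A : Set (M × M)} (hA : NP E μ A)
    (hp : ∀ u l, p u → 0 < l → l < S.a / 8 → (u.1 0, u.1 l) ∈ A) :
    NP E μ {z | ∃ w ∈ {w : UG g × ℝ | p w.1}, 0 < w.2 ∧ Psi w = z} := by
  have ha := S.a_pos
  refine NT.push (nt_of_short (r := S.a / 8) (by linarith) ((hA.pull (g := g)).mono ?_))
  rintro w ⟨h1, h2⟩ h3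
  exact ⟨nd_short h w.1 h3 (h2.trans (za8_le h S hS)), hp w.1 w.2 h1 h3 h2⟩

theorem ex_start [ConnectedSpace M] (hf : NP E μ {z : M × M | ¬ FinU g z.1 z.2})
    (h0 : NP E μ {z : M × M | ¬ (geoD h S hS).Fin0 z.1 z.2}) :
    ∃ x y, (geoD h S hS).Fin0 x y ∧ dist x y < S.a / 8 ∧ ∃ u : UG g, u.1 0 = x ∧
      u.1 (dist x y) = y ∧ ∃ P > 0, Periodic u.1 P := by
  by_contra hn
  have h1 := za8_step h S hS (p := fun u => ∃ P > 0, Periodic u.1 P) h0 fun u l hu hl hl' hF => by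
    have e := za8_dist h S hS u hl hl'
    exact hn ⟨u.1 0, u.1 l, hF, by rwa [e], u, rfl, by rw [e], hu⟩
  obtain ⟨⟨x, y⟩, hz⟩ := (hf.union h1).dense.nonempty
  simp only [mem_compl_iff, mem_union, not_or] at hz
  obtain ⟨L, U, -, hP, hL⟩ : FinU g x y := not_not.1 hz.1
  obtain ⟨γ, g1, g2, g3, g4⟩ := serre g x y ((max L 0) ^ 2)
  have he : 0 < energy g γ 0 := (sq_nonneg _).trans_lt g4
  obtain ⟨u, hu⟩ := exists_unit_sqrt g1 he
  have hl : 0 < √(energy g γ 0) := Real.sqrt_pos.2 he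
  have hl' : L < √(energy g γ 0) := (le_max_left L 0).trans_lt (Real.lt_sqrt_of_sq_lt g4)
  have e0 : u.1 0 = x := by rw [← g2, hu 0, mul_zero]
  have e1 : u.1 √(energy g γ 0) = y := by rw [← g3, hu 1, mul_one]
  exact hz.2 ⟨(u, √(energy g γ 0)), hP u (hL u _ hl hl' e0 e1), hl, Prod.ext e0 e1⟩

theorem ae_pers [ConnectedSpace M] (hE : 3 ≤ Module.finrank ℝ E)
    (hf : NP E μ {z : M × M | ¬ FinU g z.1 z.2}) :
    ∃ τ > 0, NP E μ {z : M × M | ¬ (geoD h S hS).PerS τ z.1 z.2} := by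
  have h0 := ae_fin0 h S hS hE hf
  have hd : Dense {z : M × M | (geoD h S hS).Fin0 z.1 z.2} :=
    h0.dense.mono fun z hz => not_not.1 hz
  obtain ⟨τ, hτ, hm⟩ := part1 (geoD h S hS) (geo_mt h S hS ℚ two_ne_zero) hd
    (h.conn (by omega) (za8_le h S hS).le) (ex_start h S hS hf h0)
  have h1 := za8_step h S hS (p := fun u => ¬∃ m : ℕ, (geoD h S hS).FP u (m * τ) m) h0
    fun u l hu hl hl' hF => by
      have e := za8_dist h S hS u hl hl'
      exact hu (hm (u.1 0) (u.1 l) hF (by rwa [e]) u rfl (by rw [e]; rfl))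
  refine ⟨τ, hτ, (h0.union h1).mono ?_⟩
  rintro ⟨x, y⟩ hz
  by_contra hn
  simp only [mem_union, not_or] at hn
  refine hz ((geoD h S hS).pers_of_nice hτ (not_not.1 hn.1) fun w hw => ?_)
  by_contra hc
  exact hn.2 ⟨w, hc, hw.1, Prod.ext hw.2.1 hw.2.2⟩

end Pool.Agent.Fu
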