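import Mathlib
import Pool.Agent.P.MP_365c00_gt.ZA4b
import Pool.Agent.P.MP_365c00_gt.ZA5
import Pool.Agent.P.MP_365c00_gt.ZA6

/-! Good pairs, and pairs with a gap. -/

set_option linter.unusedSectionVars false
set_option linter.unusedVariables false

open Set Filter Topology Metric Function MeasureTheory
open scoped Manifold ContDiff
open Pool.Agent.GeoN

namespace Pool.Agent.Fu

variable {E : Type} [NormedAddCommGroup E] [InnerProductSpace ℝ E] [FiniteDimensional ℝ E]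
  {M : Type} [MetricSpace M] [ChartedSpace E M] [IsManifold 𝓘(ℝ, E) ∞ M]
  [CompactSpace M] [Nonempty M] [Nontrivial E] {g : Met E M}

variable [MeasurableSpace (E × E)] [BorelSpace (E × E)] {μ : Measure (E × E)}
  [μ.IsAddHaarMeasure]

variable {sh : Short g} {a : ℝ} (h : SMd sh dist a) (S : GS M)
  (hS : S.a = a / (2 * Module.finrank ℝ E))

theorem za9_seq {u : UG g} {l r : ℝ} (hl : 0 < l) (hr : 0 < r) (hn : NdJ g u l) :
    ∃ n : ℕ, 1 / ((n : ℝ) + 1) / 2 * l < r ∧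
      NdJ g (shift (1 / ((n : ℝ) + 1) / 2 * l) u) ((1 - 1 / ((n : ℝ) + 1) / 2) * l) := by
  have t0 : Tendsto (fun n : ℕ => 1 / ((n : ℝ) + 1) / 2) atTop (𝓝 0) := by
    simpa using (tendsto_one_div_add_atTop_nhds_zero_nat (𝕜 := ℝ)).div_const 2
  have c1 : Continuous fun β : ℝ => β * l := by fun_prop
  have c2 : Continuous fun β : ℝ => (shift (β * l) u, (1 - β) * l) :=
    ((shift_cont g).comp (c1.prodMk continuous_const)).prodMk (by fun_prop)
  have t1 := (c1.tendsto 0).comp t0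
  have t2 := (c2.tendsto 0).comp t0
  rw [zero_mul] at t1
  rw [zero_mul, za_shift_zero, sub_zero, one_mul] at t2
  exact ((t1.eventually (gt_mem_nhds hr)).and (t2.eventually (nd_ev (w := (u, l)) hl hn))).exists

theorem ae_good {τ : ℝ} (hp : NP E μ {z : M × M | ¬ (geoD h S hS).PerS τ z.1 z.2}) :
    NP E μ {z : M × M | ¬ (geoD h S hS).Good τ z.1 z.2} := by
  have hA := NP.pull (g := g) hp
  have b0 : ∀ n : ℕ, 0 < 1 / ((n : ℝ) + 1) / 2 := fun n => by positivity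
  have b1 : ∀ n : ℕ, 0 < 1 - 1 / ((n : ℝ) + 1) / 2 := fun n => by
    have h1 : 1 / ((n : ℝ) + 1) ≤ 1 := by
      rw [div_le_one (by positivity)]
      linarith [Nat.cast_nonneg (α := ℝ) n]
    linarith
  have hB := NT.iUnion fun n : ℕ =>
    (hA.rep 0 (b0 n)).union (hA.rep (1 / ((n : ℝ) + 1) / 2) (b1 n))
  refine (hp.union hB.push).mono fun z hz => ?_
  by_cases h1 : (geoD h S hS).PerS τ z.1 z.2
  swap
  · exact Or.inl h1
  right
  have h2 : ¬ ∀ w ∈ (geoD h S hS).J z.1 z.2, ∀ δ0 > 0, ∃ δ ∈ Ioo 0 δ0,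
      (geoD h S hS).PerS τ z.1 ((geoD h S hS).ev w.1 δ) ∧
        (geoD h S hS).PerS τ ((geoD h S hS).ev w.1 δ) z.2 := fun h3 => hz ⟨h1, h3⟩
  push Not at h2
  obtain ⟨⟨u, l⟩, hw, δ0, h0, h2⟩ := h2
  obtain ⟨m, hm, hP⟩ := h1
  have hl : 0 < l := hw.1
  have e0 : u.1 0 = z.1 := hw.2.1
  have e1 : u.1 l = z.2 := hw.2.2
  have hn : NdJ g u l := hP.1.2.1 (u, l) hw
  obtain ⟨n, n1, n2⟩ := za9_seq hl (lt_min h0 h.pos) hn
  have n0 : 0 < 1 / ((n : ℝ) + 1) / 2 * l := mul_pos (b0 n) hl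
  refine ⟨(u, l), mem_iUnion.2 ⟨n, ?_⟩, hl, Prod.ext e0 e1⟩
  generalize 1 / ((n : ℝ) + 1) / 2 = β at n0 n1 n2
  have h3 := h2 (β * l) ⟨n0, n1.trans_le (min_le_left _ _)⟩
  by_cases h4 : (geoD h S hS).PerS τ z.1 (u.1 (β * l))
  · right
    refine ⟨n2, fun h5 => h3 h4 ?_⟩
    have f0 : (shift (β * l) u).1 0 = u.1 (β * l) := by rw [shift_apply, zero_add]
    have f1 : (shift (β * l) u).1 ((1 - β) * l) = z.2 := by
      rw [shift_apply, ← e1]
      congr 1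
      ring
    change (geoD h S hS).PerS τ ((shift (β * l) u).1 0) ((shift (β * l) u).1 ((1 - β) * l)) at h5
    rw [f0, f1] at h5
    exact h5
  · left
    refine ⟨nd_short h _ n0 (n1.trans_le (min_le_right _ _)), fun h5 => h4 ?_⟩
    change (geoD h S hS).PerS τ ((shift (0 * l) u).1 0) ((shift (0 * l) u).1 (β * l)) at h5
    rw [zero_mul, za_shift_zero, e0] at h5
    exact h5

theorem ex_gap {τ : ℝ} (hτ : 0 < τ) (hp : NP E μ {z : M × M | ¬ (geoD h S hS).PerS τ z.1 z.2})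
    (hb : ¬ Bes g) {m0 : ℕ} (hm : 0 < m0) :
    ∃ (x y : M) (m : ℕ), 0 < m ∧ (geoD h S hS).Per τ m x y ∧ dist x y < S.a / 16 ∧
      ∀ w ∈ (geoD h S hS).J x y, ∀ k : ℤ, w.2 + 2 * m0 * τ ≠ dist x y + k * (m * τ) := by
  have ha := S.a_pos
  have ha' : S.a ≤ a := hS ▸ small_le h
  obtain ⟨u0, hu0⟩ : ∃ u : UG g, ¬ Periodic u.1 (2 * m0 * τ) := by
    by_contra hc
    push Not at hc
    exact hb ⟨_, by positivity, hc⟩
  have hN := NP.pull (g := g) (hp.union (NP.iUnion fun j : ℤ => np_gen (g := g) (μ := μ) (j * τ)))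
  have hO : IsOpen ({u : UG g | Periodic u.1 (2 * m0 * τ)}ᶜ ×ˢ Iio (S.a / 16)) :=
    (per_closed g _).isOpen_compl.prod isOpen_Iio
  obtain ⟨⟨u, l⟩, ⟨hu, hl'⟩, hl, hv⟩ := hN.not_open hO (w := (u0, S.a / 32))
    ⟨hu0, show S.a / 32 < S.a / 16 by linarith⟩ (show 0 < S.a / 32 by linarith)
  replace hl : 0 < l := hl
  replace hl' : l < S.a / 16 := hl'
  have hn : NdJ g u l := nd_short h u hl (by linarith)
  have h1 : (geoD h S hS).PerS τ (u.1 0) (u.1 l) := by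
    by_contra hc
    exact hv ⟨hn, Or.inl hc⟩
  have e : |(0 : ℝ) - l| = l := by rw [zero_sub, abs_neg, abs_of_pos hl]
  have hd : dist (u.1 0) (u.1 l) = l := by
    rw [h.dist_ug u (by rw [e]; linarith), e]
  obtain ⟨m, hm', hP⟩ := h1
  refine ⟨u.1 0, u.1 l, m, hm', hP, by rwa [hd], fun w hw k hk => ?_⟩
  rw [hd] at hk
  have h2 : w.1 = u ∧ Periodic (w.1 : UG g).1 (((k * m - 2 * m0 : ℤ) : ℝ) * τ) := by
    by_contra hc
    refine hv ⟨hn, Or.inr (mem_iUnion.2 ⟨k * m - 2 * m0, w, (u, l), hw.1, hl, hP.1.2.1 w hw, hn,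
      Prod.ext hw.2.1 hw.2.2, rfl, ?_, hc⟩)⟩
    push_cast
    linarith
  have h3 : Periodic (w.1 : UG g).1 (m * τ) := (hP.2 w hw).1
  have h4 := (h3.int_mul k).sub_period h2.2
  have e2 : (k : ℝ) * (m * τ) - ((k * m - 2 * m0 : ℤ) : ℝ) * τ = 2 * m0 * τ := by
    push_cast
    ring
  rw [e2, h2.1] at h4
  exact hu h4

end Pool.Agent.Fu
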