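import Mathlib
import Pool.Agent.P.MP_365c00_gt.ZA8
import Pool.Agent.P.MP_365c00_gt.ZA9

/-! Almost every pair is good. -/

set_option linter.unusedSectionVars false
set_option linter.unusedVariables false

open Set Filter Topology Metric Function MeasureTheory
open scoped Manifold ContDiff
open Pool.Agent.GeoN

namespace Pool.Agent.Fu

variable {E : Type} [NormedAddCommGroup E] [InnerProductSpace ℝ E] [FiniteDimensional ℝ E]
  {M : Type} [MetricSpace M] [ChartedSpace E M] [IsManifold 𝓘(ℝ, E) ∞ M]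
  [CompactSpace M] [Nonempty M] [Nontrivial E] {g : Met E M}

theorem geo_dn [ConnectedSpace M] [MeasurableSpace (E × E)] [BorelSpace (E × E)]
    (μ : Measure (E × E)) [μ.IsAddHaarMeasure] (hE : 3 ≤ Module.finrank ℝ E) {sh : Short g} {a : ℝ}
    (h : SMd sh dist a) (S : GS M) (hS : S.a = a / (2 * Module.finrank ℝ E))
    (hf : NP E μ {z : M × M | ¬ FinU g z.1 z.2}) (hb : ¬ Bes g) : ∃ τ, (geoD h S hS).DN τ := by
  obtain ⟨τ, hτ, hp⟩ := ae_pers h S hS hE hf
  refine ⟨τ, hτ, geo_st h S hS, ?_, fun m0 hm => ex_gap h S hS hτ hp hb hm⟩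
  have h1 := (ae_good h S hS hp).dense
  simpa only [compl_ofPred, not_not] using h1

end Pool.Agent.Fu
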