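import Mathlib
import Pool.Agent.P.MP_365c00_gt.ZM0

/-! Finitely many images. -/

set_option linter.unusedSectionVars false
set_option linter.unusedVariables false

open Set Filter Topology Metric Function MeasureTheory
open scoped Manifold ContDiff
open Pool.Agent.GeoN

namespace Pool.Agent.Fu

variable {E : Type} [NormedAddCommGroup E] [InnerProductSpace ℝ E] [FiniteDimensional ℝ E]
  {M : Type} [TopologicalSpace M] [ChartedSpace E M] [IsManifold 𝓘(ℝ, E) ∞ M]
  [T2Space M] [CompactSpace M] [Nonempty M] [Nontrivial E] {g : Met E M}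

theorem za0_fin (u : UG g) (l : ℝ) (x : M) : {r ∈ Icc 0 l | u.1 r = x}.Finite := by
  by_contra hinf
  obtain ⟨r, -, hr⟩ := Set.Infinite.exists_accPt_of_subset_isCompact hinf isCompact_Icc
    (sep_subset _ _)
  rw [accPt_iff_frequently] at hr
  have h1 : u.1 r = x := tendsto_nhds_unique_of_frequently_eq (u.1.continuous.tendsto r)
    tendsto_const_nhds (hr.mono fun s hs => hs.2.2)
  obtain ⟨ε, hε, hi⟩ := (shift r u).locinj
  obtain ⟨s, hs, hs'⟩ := (hr.and_eventually
    (Ioo_mem_nhds (show r - ε < r by linarith) (show r < r + ε by linarith))).exists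
  have h2 : s - r = 0 := hi ⟨by linarith [hs'.1], by linarith [hs'.2]⟩
    ⟨by linarith, hε⟩ (by rw [shift_apply, shift_apply, sub_add_cancel, zero_add, h1, hs.2.2])
  exact hs.1 (sub_eq_zero.1 h2)

theorem za0_one (g : Met E M) (x : M) (S : Set M) :
    ∃ (L : ℝ) (U : Set (UG g)), U.Finite ∧ (∀ u ∈ U, ∃ P > 0, Periodic u.1 P) ∧
      ∀ (u : UG g) (l : ℝ), 0 < l → L < l → u.1 0 = x → u.1 '' Icc 0 l = S → u ∈ U := by
  by_cases h : ∃ (u : UG g) (l : ℝ), 0 < l ∧ u.1 0 = x ∧ u.1 '' Icc 0 l = S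
  swap
  · exact ⟨0, ∅, finite_empty, fun _ hu => hu.elim, fun u l h1 _ h2 h3 => h ⟨u, l, h1, h2, h3⟩⟩
  obtain ⟨v, L, hL, h0, hS⟩ := h
  refine ⟨L, {u | (∃ P > 0, Periodic u.1 P) ∧ ∃ r ∈ {r ∈ Icc 0 L | v.1 r = x},
    (∀ s, u.1 s = v.1 (r + s)) ∨ ∀ s, u.1 s = v.1 (r - s)}, ?_, fun u hu => hu.1,
    fun u l h1 h2 h3 h4 => ⟨?_, ?_⟩⟩
  · have hs : ∀ f : ℝ → M, {u : UG g | ∀ s, u.1 s = f s}.Finite := fun f =>
      Set.Subsingleton.finite fun a ha b hb =>
        Subtype.ext (ContinuousMap.ext fun s => (ha s).trans (hb s).symm)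
    refine ((za0_fin v L x).biUnion fun r _ =>
      (hs fun s => v.1 (r + s)).union (hs fun s => v.1 (r - s))).subset ?_
    rintro u ⟨-, r, hr, hu⟩
    exact mem_biUnion hr hu
  · rcases bimg_core v u hL h1 (h0.trans h3.symm) (hS.trans h4.symm) with ⟨π, hπ, -, hp⟩ | ⟨e, -⟩
    · exact ⟨π, hπ.1, hp⟩
    · exact absurd e h2.ne
  · obtain ⟨r, hr, hu⟩ := u.dir v L l h1 (h4.trans hS.symm).le
    refine ⟨r, ⟨hr, ?_⟩, hu⟩
    rcases hu with hu | hu
    · rw [← h3, hu, add_zero]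
    · rw [← h3, hu, sub_zero]

theorem finU_of_finite {x y : M} (hne : x ≠ y) (h : (images g (x, y)).Finite) : FinU g x y := by
  choose L U hU hP hm using za0_one g x
  obtain ⟨B, hB⟩ := (h.image L).bddAbove
  refine ⟨B, ⋃ S ∈ images g (x, y), U S, h.biUnion fun S _ => hU S, fun u hu => ?_,
    fun u l h1 h2 h3 h4 => ?_⟩
  · obtain ⟨S, -, hS⟩ := mem_iUnion₂.1 hu
    exact hP S u hS
  · have hS : u.1 '' Icc 0 l ∈ images g (x, y) := by
      refine ⟨fun t => u.1 (l * t + 0), (u.energy_scale l 0).1, ⟨1, ⟨zero_le_one, le_rfl⟩, ?_⟩, ?_,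
        ?_, ?_⟩
      · simp only [mul_one, mul_zero, add_zero, h3, h4]
        exact hne.symm
      · simp only [mul_zero, add_zero, h3]
      · simp only [mul_one, add_zero, h4]
      · rw [(bimg_scale (f := u.1) h1 fun t => by rw [add_zero]).1 1, mul_one]
    exact mem_biUnion hS (hm _ u l h1 ((hB (mem_image_of_mem L hS)).trans_lt h2) h3 rfl)

theorem np_finU [MeasurableSpace (E × E)] [BorelSpace (E × E)] (μ : Measure (E × E))
    [μ.IsAddHaarMeasure] (h : NP E μ {z : M × M | (images g z).Finite}ᶜ) :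
    NP E μ {z : M × M | ¬ FinU g z.1 z.2} := fun x y => by
  have hA : μ {w : E × E | w.2 = 0 ∧ w.1 ∈ (κ E x).target ∧ (κ E x).symm w.1 ∈ (κ E y).source} =
      0 := by
    refine measure_mono_null (fun w hw => hw.1) (Measure.addHaar_submodule μ
      (LinearMap.ker (LinearMap.snd ℝ E E)) fun e => ?_)
    obtain ⟨v, hv⟩ := exists_ne (0 : E)
    have h1 : ((0, v) : E × E) ∈ LinearMap.ker (LinearMap.snd ℝ E E) := e ▸ Submodule.mem_top
    exact hv h1
  have hD := addHaar_image_eq_zero_of_differentiableOn_of_addHaar_eq_zero μ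
    (f := fun w : E × E => (w.1, (κ E y ∘ (κ E x).symm) w.1)) (fun w hw =>
      (differentiableAt_fst.prodMk (((contDiffAt_trans hw.2.1 hw.2.2).differentiableAt
        (by simp)).comp w differentiableAt_fst)).differentiableWithinAt) hA
  refine measure_mono_null ?_ (measure_union_null (h x y) hD)
  rintro _ ⟨⟨a, b⟩, ⟨h1, h2, h3⟩, rfl⟩
  by_cases hab : a = b
  · subst hab
    refine Or.inr ⟨(κ E x a, 0), ⟨rfl, (κ E x).map_source h2, ?_⟩, ?_⟩
    · rw [(κ E x).left_inv h2]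
      exact h3
    · simp only [Function.comp_apply, Prod.map_apply, (κ E x).left_inv h2]
  · exact Or.inl ⟨(a, b), ⟨fun hf => h1 (finU_of_finite hab hf), h2, h3⟩, rfl⟩

end Pool.Agent.Fu
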