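import Mathlib
import Pool.Agent.P.MP_365c00_gt.ZP0
import Pool.Agent.P.MP_365c00_gt.ZE0

/-! Words, cyclic words, products of several chains: definitions. -/

set_option linter.unusedSectionVars false
set_option linter.unusedVariables false

open Set Topology

namespace Pool.Agent.Fu

variable {F : Type} [Field F] {X Y : Type} [TopologicalSpace X] [TopologicalSpace Y] {q : ℕ}

/-- the letters: absorbed, cut, homotopy between the two -/
inductive Lt
  | O | I | S
  deriving DecidableEq

/-- formal sums of words -/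
abbrev FW (F : Type) [Field F] : Type := List Lt →₀ F

/-- a word as a formal sum -/
noncomputable def wd (w : List Lt) : FW F := Finsupp.single w 1

/-- prepending a letter -/
noncomputable def cns (x : Lt) : FW F →ₗ[F] FW F := Finsupp.lmapDomain F F (List.cons x)

/-- the boundary of a word -/
noncomputable def dw : List Lt → FW F
  | [] => 0
  | .O :: w => cns .O (dw w)
  | .I :: w => cns .I (dw w)
  | .S :: w => wd (.O :: w) - wd (.I :: w) - cns .S (dw w)

/-- replacing the letter `O` at the place `i` by `S` -/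
noncomputable def pw : ℕ → List Lt → FW F
  | _, [] => 0
  | 0, .O :: w => wd (.S :: w)
  | 0, .I :: _ => 0
  | 0, .S :: _ => 0
  | i + 1, .O :: w => cns .O (pw i w)
  | i + 1, .I :: w => cns .I (pw i w)
  | i + 1, .S :: w => - cns .S (pw i w)

/-- replacing the letter at the place `i` by `I` -/
noncomputable def rw : ℕ → List Lt → FW F
  | _, [] => wd []
  | 0, .O :: w => wd (.I :: w)
  | 0, .I :: w => wd (.I :: w)
  | 0, .S :: _ => 0
  | i + 1, x :: w => cns x (rw i w)

/-- rotation of a word at the place `k` -/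
noncomputable def rot (k : ℕ) (w : List Lt) : FW F :=
  (-1 : F) ^ ((w.take k).count .S * (w.drop (k + 1)).count .S) •
    wd (w.drop (k + 1) ++ .I :: w.take k)

/-- linear extension -/
noncomputable def lin {α P : Type} [AddCommGroup P] [Module F P] (f : α → P) : (α →₀ F) →ₗ[F] P :=
  Finsupp.linearCombination F f

/-- joining sequences, as a continuous map -/
def appC (X : Type) [TopologicalSpace X] (k : ℕ) : C((ℕ → X) × (ℕ → X), ℕ → X) :=
  ⟨app k, continuous_pi fun i => by
    unfold app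
    split_ifs <;> fun_prop⟩

/-- the product of chains of sequences -/
noncomputable def mu (k : ℕ) : Ch F (ℕ → X) →ₗ[F] Ch F (ℕ → X) →ₗ[F] Ch F (ℕ → X) :=
  (cross (F := F) (X := ℕ → X) (Y := ℕ → X)).compr₂ (map (appC X k))

/-- the product of the values of `a` on the blocks between the letters `I` -/
noncomputable def zx (a : List Lt → Ch F (ℕ → X)) : List Lt → List Lt → Ch F (ℕ → X)
  | u, [] => a u
  | u, .I :: w => mu (u.length + 1) (a u) (zx a [] w)
  | u, .O :: w => zx a (u ++ [.O]) w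
  | u, .S :: w => zx a (u ++ [.S]) w

/-- the chain of a word -/
noncomputable def Zw (a : List Lt → Ch F (ℕ → X)) (w : List Lt) : Ch F (ℕ → X) := zx a [] w

/-- the level of a word -/
def lev (T c1 c3 : ℝ) (w : List Lt) : ℝ :=
  (w.length + 1) * T + c1 * (w.count .I + 1) + c3 * w.count .S

/-- placing a sequence on the cyclic group, starting at `b` -/
def cyc (X : Type) [TopologicalSpace X] (b : ZMod q) : C(ℕ → X, ZMod q → X) :=
  ⟨fun y c => y (c - b).val, by fun_prop⟩

/-- the cyclic shift -/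
def shf (X : Type) [TopologicalSpace X] (q : ℕ) : C(ZMod q → X, ZMod q → X) :=
  ⟨fun x c => x (c - 1), by fun_prop⟩

theorem shf_iter (k : ℕ) (x : ZMod q → X) (c : ZMod q) : (shf X q)^[k] x c = x (c - k) := by
  induction k generalizing c with
  | zero => simp
  | succ k ih =>
    rw [Function.iterate_succ_apply']
    show (shf X q)^[k] x (c - 1) = _
    rw [ih]
    congr 1
    push_cast
    ring

theorem shf_per (x : ZMod q → X) : (shf X q)^[q] x = x := by
  funext c
  rw [shf_iter]
  simp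

variable (F X q) in
/-- chains of cyclic tuples with the action of the shift -/
noncomputable def gcy : GC F q (Ch F (ZMod q → X)) := gc F (shf X q) shf_per

/-- constant sequences -/
def csC (X : Type) [TopologicalSpace X] : C(X, ℕ → X) := ⟨fun x _ => x, by fun_prop⟩
/-- the first term -/
def ev0 (X : Type) [TopologicalSpace X] : C(ℕ → X, X) := ⟨fun y => y 0, by fun_prop⟩

/-- the product of `n + 1` chains -/
noncomputable def tpr : ℕ → (ℕ → Ch F X) → Ch F (ℕ → X)
  | 0, b => map (csC X) (b 0)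
  | n + 1, b => mu 1 (map (csC X) (b 0)) (tpr n fun i => b (i + 1))

/-- the cyclic product of `q` chains -/
noncomputable def cpr (q : ℕ) (b : ℕ → Ch F X) : Ch F (ZMod q → X) :=
  map (cyc X 0) (tpr (q - 1) b)

/-- formal cyclic words: the set of cuts and the list of homotopy letters -/
abbrev FC (F : Type) [Field F] (q : ℕ) : Type := (Finset (ZMod q) × List (ZMod q)) →₀ F

/-- prepending a homotopy letter -/
noncomputable def pre (a : ZMod q) : FC F q →ₗ[F] FC F q :=
  Finsupp.lmapDomain F F fun z => (z.1, a :: z.2)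

/-- adding a cut -/
noncomputable def ins (a : ZMod q) : FC F q →ₗ[F] FC F q :=
  Finsupp.lmapDomain F F fun z => (insert a z.1, z.2)

/-- the boundary of a formal cyclic word -/
noncomputable def df (I : Finset (ZMod q)) : List (ZMod q) → FC F q
  | [] => 0
  | a :: l => Finsupp.single (I, l) 1 - Finsupp.single (insert a I, l) 1 - pre a (df I l)

/-- the boundary -/
noncomputable def dF : FC F q →ₗ[F] FC F q := lin fun z => df z.1 z.2

/-- the shift -/
noncomputable def sF : FC F q →ₗ[F] FC F q :=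
  Finsupp.lmapDomain F F fun z => (z.1.image (· + 1), z.2.map (· + 1))

/-- cutting a cyclic word at `b` -/
noncomputable def phi (b : ZMod q) (I : Finset (ZMod q)) : List (ZMod q) → FW F
  | [] => wd ((List.range (q - 1)).map fun j => if b + j + 1 ∈ I then .I else .O)
  | a :: l => lin (pw (a - b - 1).val) (phi b I l)

/-- the hypotheses for the construction of the chains of words -/
structure WS (F : Type) [Field F] (Y : ℕ → ℝ → Set (ℕ → X)) (far : ℕ → Set (ℕ → X))
    (R : ℕ → Ch F (ℕ → X) → Prop) (T c1 c3 : ℝ) (e q : ℕ) : Prop where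
  mono : ∀ n, Monotone (Y n)
  app : ∀ n n' t t', ∀ x ∈ Y n t, ∀ x' ∈ Y n' t', app (n + 1) (x, x') ∈ Y (n + n' + 1) (t + t')
  farl : ∀ n n' x x', x ∈ far n → Fu.app (n + 1) (x, x') ∈ far (n + n' + 1)
  farr : ∀ n n' x x', x' ∈ far n' → Fu.app (n + 1) (x, x') ∈ far (n + n' + 1)
  even : Even e
  c1_nonneg : 0 ≤ c1
  c13 : c1 ≤ c3
  mul : ∀ n n' t t', ∀ a ∈ ZZ F (Y n t) (Y n t ∩ far n), ∀ b ∈ ZZ F (Y n' t') (Y n' t' ∩ far n'),
    R n a → R n' b → R (n + n' + 1) (mu (n + 1) a b)
  ex : ∀ n < q, ∃ z ∈ ZZ F (Y n ((n + 1) * T + c1)) (Y n ((n + 1) * T + c1) ∩ far n),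
    z ∈ HD F _ ((n + 1) * e) ∧ R n z
  inj : ∀ n < q, ∀ z ∈ ZZ F (Y n ((n + 1) * T + 2 * c1)) (Y n ((n + 1) * T + 2 * c1) ∩ far n),
    ∀ z' ∈ ZZ F (Y n ((n + 1) * T + 2 * c1)) (Y n ((n + 1) * T + 2 * c1) ∩ far n),
    z ∈ HD F _ ((n + 1) * e) → z' ∈ HD F _ ((n + 1) * e) → R n z → R n z' →
    z - z' ∈ NN F (Y n ((n + 1) * T + c1 + c3)) (Y n ((n + 1) * T + c1 + c3) ∩ far n)
  van : ∀ n < q, ∀ k : ℕ, 0 < k → ∀ z ∈ ZZ F (Y n ((n + 1) * T + 2 * c1 + c3 * k))
    (Y n ((n + 1) * T + 2 * c1 + c3 * k) ∩ far n), z ∈ HD F _ ((n + 1) * e + k) →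
    z ∈ NN F (Y n ((n + 1) * T + c1 + c3 * (k + 1))) (Y n ((n + 1) * T + c1 + c3 * (k + 1)) ∩ far n)

/-- the properties of the chain of the word `w` -/
def WP (Y : ℕ → ℝ → Set (ℕ → X)) (far : ℕ → Set (ℕ → X)) (T c1 c3 : ℝ) (e : ℕ)
    (a : List Lt → Ch F (ℕ → X)) (w : List Lt) : Prop :=
  Zw a w ∈ CC F (Y w.length (lev T c1 c3 w)) ∧ Zw a w ∈ HD F _ ((w.length + 1) * e + w.count .S) ∧
    bd (Zw a w) - lin (Zw a) (dw (F := F) w) ∈ CC F (Y w.length (lev T c1 c3 w) ∩ far w.length)

end Pool.Agent.Fu
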