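import Mathlib
import Pool.Agent.P.MP_365c00_gt.ZW0

/-! Products of two cyclic spaces: definitions. -/

set_option linter.unusedSectionVars false
set_option linter.unusedVariables false

open Set Topology

namespace Pool.Agent.Fu

variable {F : Type} [Field F] {X Y : Type} [TopologicalSpace X] [TopologicalSpace Y] {q : ℕ}

variable {W : Type} [TopologicalSpace W]

theorem shf2_per (z : (ZMod q → W) × (ZMod q → X)) :
    ((shf W q).prodMap (shf X q))^[q] z = z := by
  have : ∀ (k : ℕ) (z : (ZMod q → W) × (ZMod q → X)), ((shf W q).prodMap (shf X q))^[k] z =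
      ((shf W q)^[k] z.1, (shf X q)^[k] z.2) := by
    intro k
    induction k with
    | zero => intro z; rfl
    | succ k ih => intro z; rw [Function.iterate_succ_apply, ih]; rfl
  rw [this, shf_per, shf_per]

variable (F W X q) in
/-- chains of pairs of cyclic tuples with the action of the shift -/
noncomputable def gcy2 : GC F q (Ch F ((ZMod q → W) × (ZMod q → X))) :=
  gc F ((shf W q).prodMap (shf X q)) shf2_per

variable (F) in
/-- the span of the products of homogeneous chains -/
noncomputable def PS (U : Set Y) (A : ZMod q → Set X) : Submodule F (Ch F (Y × (ZMod q → X))) :=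
  Submodule.span F {c | ∃ a ∈ CC F U, ∃ b : ℕ → Ch F X,
    (∀ i < q, b i ∈ CC F (A (i : ZMod q)) ∧ ∃ k, b i ∈ HD F X k) ∧ c = cross a (cpr q b)}

/-- a cyclic tuple of pairs as a pair of cyclic tuples -/
def unz (X Y : Type) [TopologicalSpace X] [TopologicalSpace Y] (q : ℕ) :
    C(ZMod q → X × Y, (ZMod q → X) × (ZMod q → Y)) :=
  ⟨fun x => (fun c => (x c).1, fun c => (x c).2), by fun_prop⟩

end Pool.Agent.Fu
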