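import Mathlib
import Pool.Agent.P.MP_365c00_gt.ZW0

/-! The product of chains of sequences. -/

set_option linter.unusedSectionVars false
set_option linter.unusedVariables false

open Set Topology

namespace Pool.Agent.Fu

variable {F : Type} [Field F] {X Y : Type} [TopologicalSpace X] [TopologicalSpace Y] {q : ℕ}

variable {A A' B B' C C' : Set (ℕ → X)} {a b c : Ch F (ℕ → X)} {k : ℕ}

theorem mu_apply (k : ℕ) (a b : Ch F (ℕ → X)) : mu k a b = map (appC X k) (cross a b) := rfl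

theorem bd_mu (k : ℕ) (a b : Ch F (ℕ → X)) :
    bd (mu k a b) = mu k (bd a) b + mu k (om a) (bd b) := by
  rw [mu_apply, bd_map, bd_cross, map_add, mu_apply, mu_apply]

theorem om_mu (k : ℕ) (a b : Ch F (ℕ → X)) : om (mu k a b) = mu k (om a) (om b) := by
  rw [mu_apply, om_map, om_cross, mu_apply]

theorem mu_assoc (k k' : ℕ) (a b c : Ch F (ℕ → X)) :
    mu k a (mu k' b c) = mu (k + k') (mu k a b) c := by
  simp only [mu_apply]
  rw [cross_map_right, cross_map_left, ← cross_assoc]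
  simp only [map_map]
  congr 2
  ext ⟨⟨x, y⟩, z⟩ i
  show app k (x, app k' (y, z)) i = app (k + k') (app k (x, y), z) i
  simp only [app]
  by_cases h1 : i < k
  · rw [if_pos h1, if_pos (by omega : i < k + k'), if_pos h1]
  · by_cases h2 : i < k + k'
    · rw [if_neg h1, if_pos h2, if_neg h1, if_pos (by omega)]
    · rw [if_neg h1, if_neg h2, if_neg (by omega), Nat.sub_sub]

theorem mu_HD {i j : ℕ} (ha : a ∈ HD F _ i) (hb : b ∈ HD F _ j) : mu k a b ∈ HD F _ (i + j) :=
  map_mem_HD _ (cross_mem_HD ha hb)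

theorem mu_CC (h : ∀ x ∈ A, ∀ y ∈ B, app k (x, y) ∈ C) (ha : a ∈ CC F A) (hb : b ∈ CC F B) :
    mu k a b ∈ CC F C :=
  map_mem_CC (fun z hz => h z.1 hz.1 z.2 hz.2) (cross_mem_CC ha hb)

theorem zw2_ZZ (ha : a ∈ ZZ F A A') : a ∈ ZZ F A (A ∩ A') := by
  refine mem_ZZ.2 ⟨ha.1, ?_⟩
  rw [CC_inter]
  exact ⟨bd_mem_CC ha.1, ha.2⟩

theorem zw2_maps (h1 : ∀ x ∈ A ∩ A', ∀ y ∈ B, app k (x, y) ∈ C')
    (h2 : ∀ x ∈ A, ∀ y ∈ B ∩ B', app k (x, y) ∈ C') :
    MapsTo (appC X k) ((A ∩ A') ×ˢ B ∪ A ×ˢ (B ∩ B')) C' := by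
  rintro z (hz | hz)
  · exact h1 z.1 hz.1 z.2 hz.2
  · exact h2 z.1 hz.1 z.2 hz.2

theorem mu_ZZ (h : ∀ x ∈ A, ∀ y ∈ B, app k (x, y) ∈ C)
    (h1 : ∀ x ∈ A ∩ A', ∀ y ∈ B, app k (x, y) ∈ C') (h2 : ∀ x ∈ A, ∀ y ∈ B ∩ B', app k (x, y) ∈ C')
    (ha : a ∈ ZZ F A A') (hb : b ∈ ZZ F B B') : mu k a b ∈ ZZ F C C' := by
  refine mem_ZZ.2 ⟨mu_CC h ha.1 hb.1, ?_⟩
  rw [bd_mu]
  exact add_mem (mu_CC h1 (zw2_ZZ ha).2 hb.1) (mu_CC h2 (om_mem_CC ha.1) (zw2_ZZ hb).2)

theorem mu_NN_left (h : ∀ x ∈ A, ∀ y ∈ B, app k (x, y) ∈ C)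
    (h1 : ∀ x ∈ A ∩ A', ∀ y ∈ B, app k (x, y) ∈ C') (h2 : ∀ x ∈ A, ∀ y ∈ B ∩ B', app k (x, y) ∈ C')
    (ha : a ∈ NN F A (A ∩ A')) (hb : b ∈ ZZ F B B') : mu k a b ∈ NN F C C' := by
  rw [mu_apply, ← mp_coe]
  exact mp_mem_NN (appC X k).continuous.continuousOn (fun z hz => h z.1 hz.1 z.2 hz.2)
    (zw2_maps h1 h2) (cross_NN_left ha (zw2_ZZ hb))

theorem mu_NN_right (h : ∀ x ∈ A, ∀ y ∈ B, app k (x, y) ∈ C)
    (h1 : ∀ x ∈ A ∩ A', ∀ y ∈ B, app k (x, y) ∈ C') (h2 : ∀ x ∈ A, ∀ y ∈ B ∩ B', app k (x, y) ∈ C')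
    (ha : a ∈ ZZ F A A') (hb : b ∈ NN F B (B ∩ B')) : mu k a b ∈ NN F C C' := by
  rw [mu_apply, ← mp_coe]
  exact mp_mem_NN (appC X k).continuous.continuousOn (fun z hz => h z.1 hz.1 z.2 hz.2)
    (zw2_maps h1 h2) (cross_NN_right (zw2_ZZ ha) hb)

theorem mu_sub_NN (h : ∀ x ∈ A, ∀ y ∈ B, app k (x, y) ∈ C)
    (h1 : ∀ x ∈ A ∩ A', ∀ y ∈ B, app k (x, y) ∈ C') (h2 : ∀ x ∈ A, ∀ y ∈ B ∩ B', app k (x, y) ∈ C')
    {a' b' : Ch F (ℕ → X)} (ha : a ∈ ZZ F A A') (hb' : b' ∈ ZZ F B B')
    (haa : a - a' ∈ NN F A (A ∩ A')) (hbb : b - b' ∈ NN F B (B ∩ B')) :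
    mu k a b - mu k a' b' ∈ NN F C C' := by
  have e : mu k a b - mu k a' b' = mu k a (b - b') + mu k (a - a') b' := by
    simp only [map_sub, LinearMap.sub_apply]
    abel
  rw [e]
  exact add_mem (mu_NN_right h h1 h2 ha hbb) (mu_NN_left h h1 h2 haa hb')

theorem zw2_atom (a : List Lt → Ch F (ℕ → X)) (w : List Lt) (h : Lt.I ∉ w) (u : List Lt) :
    zx a u w = a (u ++ w) := by
  induction w generalizing u with
  | nil => rw [zx, List.append_nil]
  | cons x w ih =>
    have h' : Lt.I ∉ w := fun h1 => h (List.mem_cons_of_mem _ h1)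
    cases x with
    | O => rw [zx, ih h', List.append_assoc, List.singleton_append]
    | I => exact absurd List.mem_cons_self h
    | S => rw [zx, ih h', List.append_assoc, List.singleton_append]

theorem zw2_append (a : List Lt → Ch F (ℕ → X)) (w w' u : List Lt) :
    zx a u (w ++ Lt.I :: w') = mu (u.length + w.length + 1) (zx a u w) (zx a [] w') := by
  induction w generalizing u with
  | nil => rw [List.nil_append, zx, zx, List.length_nil, add_zero]
  | cons x w ih =>
    cases x with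
    | O =>
      rw [List.cons_append, zx, zx, ih, List.length_append, List.length_singleton,
        List.length_cons, add_assoc u.length, add_comm 1]
    | I =>
      rw [List.cons_append, zx, zx, ih, mu_assoc, List.length_nil, List.length_cons,
        show u.length + 1 + (0 + w.length + 1) = u.length + (w.length + 1) + 1 by omega]
    | S =>
      rw [List.cons_append, zx, zx, ih, List.length_append, List.length_singleton,
        List.length_cons, add_assoc u.length, add_comm 1]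

theorem zw2_congr {a a' : List Lt → Ch F (ℕ → X)} {m : ℕ}
    (h : ∀ u : List Lt, u.count Lt.S ≤ m → a' u = a u) (w u : List Lt)
    (hw : u.count Lt.S + w.count Lt.S ≤ m) : zx a' u w = zx a u w := by
  induction w generalizing u with
  | nil => rw [zx, zx, h u (by omega)]
  | cons x w ih =>
    cases x with
    | O => rw [zx, zx, ih _ (by simpa using hw)]
    | I =>
      have h1 : u.count Lt.S + w.count Lt.S ≤ m := by simpa using hw
      rw [zx, zx, h u (by omega), ih [] (by simp only [List.count_nil]; omega)]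
    | S =>
      have h1 : u.count Lt.S + (w.count Lt.S + 1) ≤ m := by simpa using hw
      rw [zx, zx, ih _ (by simp only [List.count_append, List.count_singleton_self]; omega)]

theorem Zw_atom (a : List Lt → Ch F (ℕ → X)) {w : List Lt} (h : Lt.I ∉ w) : Zw a w = a w := by
  rw [Zw, zw2_atom a w h, List.nil_append]

theorem Zw_append (a : List Lt → Ch F (ℕ → X)) (w w' : List Lt) :
    Zw a (w ++ Lt.I :: w') = mu (w.length + 1) (Zw a w) (Zw a w') := by
  rw [Zw, zw2_append, List.length_nil, zero_add]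
  rfl

theorem Zw_congr {a a' : List Lt → Ch F (ℕ → X)} {m : ℕ}
    (h : ∀ u : List Lt, u.count Lt.S ≤ m → a' u = a u) {w : List Lt} (hw : w.count Lt.S ≤ m) :
    Zw a' w = Zw a w :=
  zw2_congr h w [] (by simpa using hw)

theorem shf_cyc (b : ZMod q) (z : Ch F (ℕ → X)) :
    map (shf X q) (map (cyc X b) z) = map (cyc X (b + 1)) z := by
  rw [map_map]
  congr 2
  ext y c
  show y (c - 1 - b).val = y (c - (b + 1)).val
  congr 2
  ring

theorem cyc_app [NeZero q] (b : ZMod q) {k k' : ℕ} (hk : k + k' = q) (x y : ℕ → X) :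
    cyc X b (app k (x, y)) = cyc X (b + (k : ZMod q)) (app k' (y, x)) := by
  funext c
  show app k (x, y) (c - b).val = app k' (y, x) (c - (b + (k : ZMod q))).val
  have hi : (c - b).val < q := ZMod.val_lt _
  have e : c - (b + (k : ZMod q)) = ((c - b).val : ZMod q) - k := by
    rw [ZMod.natCast_zmod_val]
    ring
  rw [e]
  generalize (c - b).val = i at hi
  simp only [app]
  by_cases h : i < k
  · have e1 : (i : ZMod q) - k = ((i + k' : ℕ) : ZMod q) := by
      have : ((k + k' : ℕ) : ZMod q) = 0 := by rw [hk, ZMod.natCast_self]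
      push_cast at this ⊢
      linear_combination -this
    rw [e1, ZMod.val_cast_of_lt (by omega), if_pos h, if_neg (by omega), Nat.add_sub_cancel]
  · have e1 : (i : ZMod q) - k = ((i - k : ℕ) : ZMod q) := by
      rw [Nat.cast_sub (by omega)]
    rw [e1, ZMod.val_cast_of_lt (by omega), if_neg h, if_pos (by omega)]

theorem cyc_mu [NeZero q] (b0 : ZMod q) {k k' i j : ℕ} (hk : k + k' = q) (ha : a ∈ HD F _ i)
    (hb : b ∈ HD F _ j) :
    map (cyc X b0) (mu k a b) = (-1 : F) ^ (i * j) • map (cyc X (b0 + (k : ZMod q))) (mu k' b a) := by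
  have e : (cyc X (b0 + (k : ZMod q))).comp (appC X k') =
      ((cyc X b0).comp (appC X k)).comp ⟨Prod.swap, continuous_swap⟩ := by
    ext1 ⟨y, x⟩
    exact (cyc_app b0 hk x y).symm
  rw [mu_apply, mu_apply, map_map, map_map, e, ← map_map _ _ (cross b a), cross_swap hb ha,
    map_smul, smul_smul, mul_comm j i, ← mul_pow, neg_one_mul, neg_neg, one_pow, one_smul]

/-- truncation of a sequence -/
def zw2_tau (X : Type) [TopologicalSpace X] (n : ℕ) : C(ℕ → X, ℕ → X) :=
  ⟨fun y i => y (min i n), by fun_prop⟩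

theorem zw2_rep (a : List Lt → Ch F (ℕ → X)) (n : ℕ) :
    map (zw2_tau X n) (Zw a (List.replicate n Lt.I)) = tpr n fun _ => map (ev0 X) (a []) := by
  induction n with
  | zero =>
    rw [tpr, map_map, List.replicate_zero, Zw, zx]
    congr 2
    ext y i
    show y (min i 0) = y 0
    rw [Nat.min_zero]
  | succ n ih =>
    rw [tpr, ← ih, List.replicate_succ, Zw, zx, map_map, mu_apply, mu_apply, cross_map, map_map,
      map_map]
    congr 2
    ext ⟨x, y⟩ i
    show app 1 (x, y) (min i (n + 1)) = app 1 (fun _ => x 0, fun j => y (min j n)) i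
    simp only [app]
    by_cases h : i < 1
    · rw [if_pos h, if_pos (by omega)]
      congr 1
      omega
    · rw [if_neg h, if_neg (by omega)]
      congr 1
      omega

theorem Zw_rep [NeZero q] (a : List Lt → Ch F (ℕ → X)) :
    map (cyc X (0 : ZMod q)) (Zw a (List.replicate (q - 1) Lt.I)) =
      cpr q fun _ => map (ev0 X) (a []) := by
  rw [cpr, ← zw2_rep, map_map]
  congr 2
  ext y c
  show y (c - 0).val = y (min (c - 0).val (q - 1))
  have hi : (c - 0).val < q := ZMod.val_lt _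
  rw [min_eq_left (by omega)]

end Pool.Agent.Fu
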