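import Mathlib
import Pool.Agent.P.MP_365c00_gt.ZD1

/-! Cyclic products of several chains. -/

set_option linter.unusedSectionVars false
set_option linter.unusedVariables false

open Set Topology

namespace Pool.Agent.Fu

variable {F : Type} [Field F] {X Y : Type} [TopologicalSpace X] [TopologicalSpace Y] {q : ℕ}

variable {n : ℕ} {b b' : ℕ → Ch F X}

variable [NeZero q]

theorem zd1b_q : q - 1 + 1 = q := Nat.sub_add_cancel (Nat.one_le_iff_ne_zero.2 (NeZero.ne q))

theorem zd1b_lt {i : ℕ} (hi : i ≤ q - 1) : i < q := by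
  have := zd1b_q (q := q)
  omega

theorem cpr_congr (h : ∀ i < q, b i = b' i) : cpr q b = cpr q b' :=
  congrArg (map (cyc X 0)) (tpr_congr fun i hi => h i (zd1b_lt hi))

theorem cpr_CC {A : ZMod q → Set X} (h : ∀ i < q, b i ∈ CC F (A (i : ZMod q))) :
    cpr q b ∈ CC F (Set.pi univ A) := by
  refine map_mem_CC ?_ (tpr_CC (A := fun i => A (i : ZMod q)) fun i hi => h i (zd1b_lt hi))
  intro y hy c _
  show y (c - 0).val ∈ A c
  have h1 := hy.1 c.val (by have := ZMod.val_lt c; omega)
  rw [ZMod.natCast_zmod_val] at h1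
  rwa [sub_zero]

theorem cpr_HD {k : ℕ} (h : ∀ i < q, b i ∈ HD F X k) : cpr q b ∈ HD F _ (q * k) := by
  have h1 := tpr_HD (k := fun _ => k) (n := q - 1) fun i hi => h i (zd1b_lt hi)
  rw [Finset.sum_const, Finset.card_range, zd1b_q, smul_eq_mul] at h1
  exact map_mem_HD _ h1

theorem bd_cpr (b : ℕ → Ch F X) : bd (cpr q b) = ∑ i ∈ Finset.range q,
    cpr q fun j => if j < i then om (b j) else if j = i then bd (b j) else b j := by
  unfold cpr
  rw [bd_map, bd_tpr, map_sum, zd1b_q]

theorem zd1b_one {A A' : Set X} {i : ℕ} (hi : i < q) (h : ∀ j < q, b j ∈ CC F A)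
    (h' : b i ∈ CC F A') :
    cpr q b ∈ CC F {x : ZMod q → X | (∀ c, x c ∈ A) ∧ ∃ c, x c ∈ A'} := by
  classical
  refine CC_mono ?_ (cpr_CC (A := fun c => if c = (i : ZMod q) then A ∩ A' else A) ?_)
  · intro x hx
    refine ⟨fun c => ?_, (i : ZMod q), ?_⟩
    · have := hx c (mem_univ _)
      by_cases hc : c = (i : ZMod q)
      · simp only [if_pos hc] at this
        exact this.1
      · simpa only [if_neg hc] using this
    · have := hx (i : ZMod q) (mem_univ _)
      simp only [if_true] at this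
      exact this.2
  · intro j hj
    by_cases hc : (j : ZMod q) = (i : ZMod q)
    · have e : j = i := by
        have := congrArg ZMod.val hc
        rwa [ZMod.val_cast_of_lt hj, ZMod.val_cast_of_lt hi] at this
      simp only [if_pos hc]
      rw [CC_inter]
      exact ⟨h j hj, e ▸ h'⟩
    · simp only [if_neg hc]
      exact h j hj

theorem cpr_ZZ {A A' : Set X} (h : ∀ i < q, b i ∈ ZZ F A A') :
    cpr q b ∈ ZZ F {x : ZMod q → X | ∀ c, x c ∈ A} {x | (∀ c, x c ∈ A) ∧ ∃ c, x c ∈ A'} := by
  refine mem_ZZ.2 ⟨CC_mono (A := Set.pi univ fun _ => A) (fun x hx c => hx c (mem_univ _))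
    (cpr_CC (A := fun _ => A) fun i hi => (mem_ZZ.1 (h i hi)).1), ?_⟩
  rw [bd_cpr]
  refine Submodule.sum_mem _ fun i hi => ?_
  have hi' := Finset.mem_range.1 hi
  refine zd1b_one hi' (fun j hj => ?_) ?_
  · have h1 := (mem_ZZ.1 (h j hj)).1
    split_ifs
    · exact om_mem_CC h1
    · exact bd_mem_CC h1
    · exact h1
  · simp only [lt_irrefl, if_false, if_true]
    exact (mem_ZZ.1 (h i hi')).2

theorem cpr_sub_CC {A A' : Set X} (h : ∀ i < q, b i ∈ CC F A) (h' : ∀ i < q, b' i ∈ CC F A)
    (hs : ∀ i < q, b i - b' i ∈ CC F A') :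
    cpr q b - cpr q b' ∈ CC F {x : ZMod q → X | (∀ c, x c ∈ A) ∧ ∃ c, x c ∈ A'} := by
  have e : cpr q b - cpr q b' = ∑ i ∈ Finset.range q,
      cpr q fun j => if j < i then b' j else if j = i then b j - b' j else b j := by
    unfold cpr
    rw [← map_sub, tpr_sub, map_sum, zd1b_q]
  rw [e]
  refine Submodule.sum_mem _ fun i hi => ?_
  have hi' := Finset.mem_range.1 hi
  refine zd1b_one hi' (fun j hj => ?_) ?_
  · split_ifs
    · exact h' j hj
    · exact Submodule.sub_mem _ (h j hj) (h' j hj)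
    · exact h j hj
  · simp only [lt_irrefl, if_false, if_true]
    exact hs i hi'

theorem cpr_map (f : C(X, Y)) (b : ℕ → Ch F X) :
    map (⟨fun x c => f (x c), by fun_prop⟩ : C(ZMod q → X, ZMod q → Y)) (cpr q b) =
      cpr q fun i => map f (b i) := by
  unfold cpr
  rw [← tpr_map, map_map, map_map]
  rfl

theorem cpr_mp {f : X → Y} {A : Set X} (hf : ContinuousOn f A) (h : ∀ i < q, b i ∈ CC F A) :
    mp (fun (x : ZMod q → X) (c : ZMod q) => f (x c)) (cpr q b) = cpr q fun i => mp f (b i) := by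
  have e : ∀ i < q, b i = map (incl A) (res A (b i)) := fun i hi => by
    rw [map_incl_res, mem_CC.1 (h i hi)]
  have hc : ContinuousOn (fun (x : ZMod q → X) (c : ZMod q) => f (x c)) {x | ∀ c, x c ∈ A} :=
    continuousOn_pi.2 fun c => hf.comp (continuous_apply c).continuousOn fun x hx => hx c
  rw [cpr_congr e, ← cpr_map, mp_map _ _ hc (CC_mono (fun x _ c => (x c).2) (mem_CC_univ _))]
  refine ((mp_coe (⟨fun x c => (⟨A.domRestrict f, hf.domRestrict⟩ : C(A, Y)) (x c), by fun_prop⟩ :
    C(ZMod q → A, ZMod q → Y)) _).trans (cpr_map _ _)).trans (cpr_congr fun i hi => ?_)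
  rw [← zc6_incl hf, ← e i hi]

/-- the product as a linear function of one factor -/
noncomputable def zd1b_lin (n i : ℕ) (b : ℕ → Ch F X) (hi : i ≤ n) : Ch F X →ₗ[F] Ch F (ℕ → X) where
  toFun x := tpr n (Function.update b i x)
  map_add' x y := tpr_update_add n i b hi x y
  map_smul' r x := tpr_update_smul n i b hi r x

theorem PS_mem {U : Set Y} {A : ZMod q → Set X} {a : Ch F Y} (ha : a ∈ CC F U)
    (h : ∀ i < q, b i ∈ CC F (A (i : ZMod q))) : cross a (cpr q b) ∈ PS F U A := by
  have key : ∀ (m : ℕ) (b : ℕ → Ch F X), (∀ i < q, b i ∈ CC F (A (i : ZMod q))) →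
      (∀ i < q, m ≤ i → ∃ k, b i ∈ HD F X k) → cross a (cpr q b) ∈ PS F U A := by
    intro m
    induction m with
    | zero =>
      intro b h1 h2
      exact Submodule.subset_span ⟨a, ha, b, fun i hi => ⟨h1 i hi, h2 i hi (Nat.zero_le _)⟩, rfl⟩
    | succ m ih =>
      intro b h1 h2
      by_cases hm : m < q
      · have hm' : m ≤ q - 1 := by omega
        have h3 := mem_of_dg (cross a ∘ₗ map (cyc X (0 : ZMod q)) ∘ₗ zd1b_lin (q - 1) m b hm')
          (PS F U A) (c := b m) fun k => ih (Function.update b m (dg k (b m))) (fun i hi => by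
            by_cases e : i = m
            · subst e
              rw [Function.update_self]
              exact dg_mem_CC k (h1 i hi)
            · rw [Function.update_of_ne e]
              exact h1 i hi) (fun i hi hmi => by
            by_cases e : i = m
            · subst e
              rw [Function.update_self]
              exact ⟨k, dg_mem_HD k _⟩
            · rw [Function.update_of_ne e]
              exact h2 i hi (by omega))
        have e : cpr q b = cpr q (Function.update b m (b m)) := by rw [Function.update_eq_self]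
        rw [e]
        exact h3
      · exact ih b h1 fun i hi hmi => absurd hi (by omega)
  exact key q b h fun i hi hqi => absurd hi (by omega)

theorem PS_le (U : Set Y) (A : ZMod q → Set X) : PS F U A ≤ CC F (U ×ˢ Set.pi univ A) := by
  refine Submodule.span_le.2 ?_
  rintro _ ⟨a, ha, b, hb, rfl⟩
  exact cross_mem_CC ha (cpr_CC fun i hi => (hb i hi).1)

theorem zd1b_xi (l : Ch F X →ₗ[F] F) (n : ℕ) : ∃ L : Ch F (ℕ → X) →ₗ[F] F,
    ∀ b : ℕ → Ch F X, L (tpr n b) = ∏ i ∈ Finset.range (n + 1), l (b i) := by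
  induction n with
  | zero =>
    refine ⟨l ∘ₗ map (ev0 X), fun b => ?_⟩
    have e : (ev0 X).comp (csC X) = ContinuousMap.id X := rfl
    rw [tpr, LinearMap.comp_apply, map_map, e, map_id', zero_add, Finset.prod_range_one]
  | succ n ih =>
    obtain ⟨L, hL⟩ := ih
    let σ : C(ℕ → X, X × (ℕ → X)) := ⟨fun y => (y 0, fun i => y (i + 1)), by fun_prop⟩
    refine ⟨L ∘ₗ sl l ∘ₗ map σ, fun b => ?_⟩
    have e : (σ.comp (appC X 1)).comp ((csC X).prodMap (ContinuousMap.id (ℕ → X))) =
        ContinuousMap.id _ := by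
      refine ContinuousMap.ext fun z => Prod.ext rfl (funext fun i => ?_)
      show app 1 (csC X z.1, z.2) (i + 1) = z.2 i
      unfold app
      rw [if_neg (by omega)]
      rfl
    rw [tpr, LinearMap.comp_apply, LinearMap.comp_apply, mu_apply, cross_map_left, map_map,
      map_map, e, map_id', sl_cross, map_smul, hL, Finset.prod_range_succ' _ (n + 1), smul_eq_mul,
      mul_comm]

theorem exists_Xi (l : Ch F X →ₗ[F] F) : ∃ L : Ch F (ZMod q → X) →ₗ[F] F,
    ∀ b : ℕ → Ch F X, L (cpr q b) = ∏ i ∈ Finset.range q, l (b i) := by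
  obtain ⟨L, hL⟩ := zd1b_xi l (q - 1)
  let u : C(ZMod q → X, ℕ → X) := ⟨fun x i => x ((min i (q - 1) : ℕ) : ZMod q), by fun_prop⟩
  refine ⟨L ∘ₗ map u, fun b => ?_⟩
  have h1 := tpr_CC (n := q - 1) (b := b) (A := fun _ => univ) fun i _ => mem_CC_univ _
  have h2 : map (u.comp (cyc X (0 : ZMod q))) (tpr (q - 1) b) = tpr (q - 1) b := by
    rw [← mp_coe]
    refine mp_eq_self (fun y hy => funext fun i => ?_) h1
    show y (((min i (q - 1) : ℕ) : ZMod q) - 0).val = y i
    rw [sub_zero, ZMod.val_cast_of_lt (zd1b_lt (min_le_right _ _))]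
    rcases le_total i (q - 1) with h | h
    · rw [min_eq_left h]
    · rw [min_eq_right h, hy.2 i h]
  rw [LinearMap.comp_apply, cpr, map_map, h2, hL, zd1b_q]

end Pool.Agent.Fu
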