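import Mathlib
import Pool.Agent.P.MP_365c00_gt.ZD1b
import Pool.Agent.P.MP_365c00_gt.ZE1

/-! Symmetries of products of several chains. -/

set_option linter.unusedSectionVars false
set_option linter.unusedVariables false

open Set Topology

namespace Pool.Agent.Fu

variable {F : Type} [Field F] {X Y : Type} [TopologicalSpace X] [TopologicalSpace Y] {q : ℕ}

variable {X' Y' : Type} [TopologicalSpace X'] [TopologicalSpace Y']

theorem zd2_assoc {Z : Type} [TopologicalSpace Z] (a : Ch F X) (b : Ch F Y) (c : Ch F Z) :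
    cross (cross a b) c = map (⟨fun z => ((z.1, z.2.1), z.2.2), by fun_prop⟩ :
      C(X × Y × Z, (X × Y) × Z)) (cross a (cross b c)) := by
  rw [← cross_assoc, map_map]
  exact (map_id' _).symm

theorem cross_shuffle {j k : ℕ} (a : Ch F X) {b : Ch F Y} {a' : Ch F X'} (b' : Ch F Y')
    (hb : b ∈ HD F Y j) (ha' : a' ∈ HD F X' k) :
    map (⟨fun z => ((z.1.1, z.2.1), (z.1.2, z.2.2)), by fun_prop⟩ :
      C((X × Y) × (X' × Y'), (X × X') × (Y × Y'))) (cross (cross a b) (cross a' b')) =
      (-1 : F) ^ (j * k) • cross (cross a a') (cross b b') := by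
  rw [zd2_assoc a a', ← cross_assoc a' b b', ← map_smul, ← map_smul, ← map_smul,
    ← LinearMap.smul_apply, ← map_smul, ← cross_swap hb ha', cross_map_left, zd2_assoc b a',
    zd2_assoc a b, map_map, map_map, map_map, cross_map_right, map_map]
  rfl

theorem tpr_succ' (n : ℕ) (b : ℕ → Ch F X) :
    tpr (n + 1) b = mu (n + 1) (tpr n b) (map (csC X) (b (n + 1))) := by
  induction n generalizing b with
  | zero => rfl
  | succ n ih => rw [tpr, ih, mu_assoc, add_comm 1, tpr]

/-- a sequence of pairs as a pair of sequences -/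
def zd2U (X Y : Type) [TopologicalSpace X] [TopologicalSpace Y] :
    C(ℕ → X × Y, (ℕ → X) × (ℕ → Y)) :=
  ⟨fun x => (fun c => (x c).1, fun c => (x c).2), by fun_prop⟩

theorem zd2_zip {a : Ch F X} {b : Ch F Y} {j k : ℕ} (ha : a ∈ HD F X j) (hj : Even j)
    (hb : b ∈ HD F Y k) (n : ℕ) :
    map (zd2U X Y) (tpr n fun _ => cross a b) = cross (tpr n fun _ => a) (tpr n fun _ => b) := by
  have h0 : map (zd2U X Y) (map (csC (X × Y)) (cross a b)) =
      cross (map (csC X) a) (map (csC Y) b) := by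
    rw [cross_map, map_map]
    rfl
  induction n with
  | zero => exact h0
  | succ n ih =>
    have h1 := cross_shuffle (map (csC X) a) (tpr n fun _ => b) (map_mem_HD (csC Y) hb)
      (tpr_HD (n := n) (b := fun _ => a) (k := fun _ => j) fun _ _ => ha)
    rw [Even.neg_one_pow (Even.mul_left (Finset.even_sum _ fun _ _ => hj) _), one_smul, ← h0,
      ← ih, cross_map, map_map] at h1
    rw [tpr, tpr, tpr, mu_apply, mu_apply, mu_apply, cross_map, ← h1, map_map, map_map]
    congr 2
    refine ContinuousMap.ext fun z => Prod.ext (funext fun i => ?_) (funext fun i => ?_)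
    · show (app 1 z i).1 = app 1 (fun c => (z.1 c).1, fun c => (z.2 c).1) i
      unfold app
      split_ifs <;> rfl
    · show (app 1 z i).2 = app 1 (fun c => (z.1 c).2, fun c => (z.2 c).2) i
      unfold app
      split_ifs <;> rfl

theorem zd2_gen [T1Space X] (h2 : (2 : F) ≠ 0) {k : ℕ} {c : X} {o : Ch F X}
    (h : Gen F k univ c o) (n : ℕ) :
    Gen F ((n + 1) * k) {y : ℕ → X | ∀ i, n ≤ i → y i = y n} (fun _ => c) (tpr n fun _ => o) := by
  induction n with
  | zero =>
    have h1 := h.equiv (B := {y : ℕ → X | ∀ i, 0 ≤ i → y i = y 0}) (mem_univ _) (φ := csC X)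
      (ψ := ev0 X) (csC X).continuous.continuousOn (ev0 X).continuous.continuousOn
      (fun _ _ _ _ => rfl) (mapsTo_univ _ _) (fun _ _ => rfl)
      fun y hy => funext fun i => (hy i i.zero_le).symm
    rw [mp_coe] at h1
    rw [zero_add, one_mul]
    exact h1
  | succ n ih =>
    have h1 := (h.prod h2 ih).equiv (B := {y : ℕ → X | ∀ i, n + 1 ≤ i → y i = y (n + 1)})
      ⟨mem_univ _, fun _ _ => rfl⟩
      (φ := (appC X 1).comp ((csC X).prodMap (ContinuousMap.id (ℕ → X))))
      (ψ := fun y => (y 0, fun i => y (i + 1))) (ContinuousMap.continuous _).continuousOn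
      (by fun_prop) (fun z hz i hi => ?_) (fun y hy => ⟨mem_univ _, fun i hi => ?_⟩)
      (fun _ _ => rfl) fun y _ => funext fun i => ?_
    · rw [mp_coe, ← map_map, ← cross_map_left] at h1
      have e : ((appC X 1).comp ((csC X).prodMap (ContinuousMap.id (ℕ → X)))) (c, fun _ => c) =
          fun _ => c := funext fun i => ite_self c
      rw [e] at h1
      rw [add_mul (n + 1), one_mul, add_comm]
      exact h1
    · obtain ⟨i, rfl⟩ : ∃ m, i = m + 1 := ⟨i - 1, by omega⟩
      exact hz.2 i (by omega)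
    · exact hy (i + 1) (by omega)
    · cases i <;> rfl

variable [NeZero q]

theorem cpr_rot {b : ℕ → Ch F X} {k : ℕ → ℕ} (h : ∀ i < q, b i ∈ HD F X (k i)) :
    map (shf X q) (cpr q b) = (-1 : F) ^ ((∑ i ∈ Finset.range (q - 1), k i) * k (q - 1)) •
      cpr q fun i => if i = 0 then b (q - 1) else b (i - 1) := by
  obtain ⟨n, rfl⟩ := Nat.exists_eq_succ_of_ne_zero (NeZero.ne q)
  rw [cpr, cpr, shf_cyc]
  cases n with
  | zero =>
    rw [show ((0 : ZMod (Nat.succ 0)) + 1) = 0 from rfl]
    simp [tpr]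
  | succ n =>
    have e : (0 : ZMod (n + 1).succ) + 1 + ((n + 1 : ℕ) : ZMod (n + 1).succ) = 0 := by
      rw [zero_add, add_comm (1 : ZMod (n + 1).succ), ← Nat.cast_succ, ZMod.natCast_self]
    rw [Nat.succ_sub_one, tpr_succ', cyc_mu (0 + 1) (k := n + 1) (k' := 1) rfl
      (tpr_HD fun i hi => h i (by omega)) (map_mem_HD _ (h (n + 1) (by omega))), e]
    rfl

theorem cpr_fix {a : Ch F X} {k : ℕ} (ha : a ∈ HD F X k) (hk : Even k) :
    map (shf X q) (cpr q fun _ => a) = cpr q fun _ => a := by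
  rw [cpr_rot (k := fun _ => k) fun _ _ => ha, Even.neg_one_pow (hk.mul_left _), one_smul]
  simp only [ite_self]

theorem cpr_zip {a : Ch F X} {b : Ch F Y} {j k : ℕ} (ha : a ∈ HD F X j) (hj : Even j)
    (hb : b ∈ HD F Y k) :
    map (unz X Y q) (cpr q fun _ => cross a b) = cross (cpr q fun _ => a) (cpr q fun _ => b) := by
  rw [cpr, cpr, cpr, cross_map, ← zd2_zip ha hj hb, map_map, map_map]
  rfl

theorem Gen.cpr [T1Space X] (h2 : (2 : F) ≠ 0) {k : ℕ} {c : X} {o : Ch F X}
    (h : Gen F k univ c o) :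
    Gen F (q * k) univ (fun _ : ZMod q => c) (Fu.cpr q fun _ => o) := by
  obtain ⟨n, rfl⟩ := Nat.exists_eq_succ_of_ne_zero (NeZero.ne q)
  have h1 := (zd2_gen h2 h n).equiv (B := univ) (fun _ _ => rfl) (φ := cyc X (0 : ZMod n.succ))
    (ψ := fun x i => x ((min i n : ℕ) : ZMod n.succ)) (ContinuousMap.continuous _).continuousOn
    (by fun_prop) (mapsTo_univ _ _) (fun x _ i hi => ?_) (fun y hy => funext fun i => ?_)
    fun x _ => funext fun a => ?_
  · rw [mp_coe] at h1
    exact h1
  · simp only [min_eq_right hi, min_self]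
  · show y (((min i n : ℕ) : ZMod n.succ) - 0).val = y i
    rw [sub_zero, ZMod.val_natCast, Nat.mod_eq_of_lt (by omega)]
    rcases le_total i n with hi | hi
    · rw [min_eq_left hi]
    · rw [min_eq_right hi, hy i hi]
  · show x ((min (a - 0).val n : ℕ) : ZMod n.succ) = x a
    rw [sub_zero, min_eq_left (Nat.le_of_lt_succ a.val_lt), ZMod.natCast_zmod_val]

end Pool.Agent.Fu
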