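import Mathlib
import Pool.Agent.P.MP_365c00_gt.ZD1b

/-! Projection onto the span of the products. -/

set_option linter.unusedSectionVars false
set_option linter.unusedVariables false

open Set Topology

namespace Pool.Agent.Fu

variable {F : Type} [Field F] {X Y : Type} [TopologicalSpace X] [TopologicalSpace Y] {q : ℕ}

open TensorProduct in
theorem zd3_ten {Z : Type} [TopologicalSpace Z] (ρ : C(Y, Y)) {D K : Ch F Y →ₗ[F] Ch F Y}
    (h : ∀ c, map ρ c - D c = bd (K c) + K (bd c)) (w : Ch F Z ⊗[F] Ch F Y) :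
    Fu.map ((ContinuousMap.id Z).prodMap ρ) (kap w) - kap (TensorProduct.map LinearMap.id D w) =
      bd (kap (TensorProduct.map om K w)) + kap (TensorProduct.map om K (tbd w)) := by
  induction w using TensorProduct.induction_on with
  | zero => simp
  | add a b ha hb =>
    simp only [map_add]
    rw [add_sub_add_comm, ha, hb, add_add_add_comm]
  | tmul a b =>
    rw [tbd_tmul, map_add, map_add]
    simp only [TensorProduct.map_tmul, kap_tmul, LinearMap.id_apply]
    rw [← cross_map_right, ← map_sub, h, map_add, bd_cross, om_om, om_bd, map_neg,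
      LinearMap.neg_apply]
    abel

open TensorProduct in
theorem ez_step {Z : Type} [TopologicalSpace Z] (ρ : C(Y, Y)) {D K : Ch F Y →ₗ[F] Ch F Y}
    (h : ∀ c, map ρ c - D c = bd (K c) + K (bd c)) :
    ∃ K' : Ch F (Z × Y) →ₗ[F] Ch F (Z × Y),
      (∀ c, map ((ContinuousMap.id Z).prodMap ρ) c -
        kap (TensorProduct.map LinearMap.id D (cop c)) = bd (K' c) + K' (bd c)) ∧
      ∀ (U : Set Z) (A A' : Set Y), MapsTo ρ A A' → (∀ c ∈ CC F A, K c ∈ CC F A') →
        ∀ c ∈ CC F (U ×ˢ A), K' c ∈ CC F (U ×ˢ A') := by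
  obtain ⟨E, h1, h2⟩ := exists_ez F Z Y
  refine ⟨Fu.map ((ContinuousMap.id Z).prodMap ρ) ∘ₗ E + kap ∘ₗ TensorProduct.map om K ∘ₗ cop,
    fun c => ?_, fun U A A' hA hK c hc => ?_⟩
  · have t1 := congrArg (Fu.map ((ContinuousMap.id Z).prodMap ρ)) (h1 c)
    have t2 := zd3_ten ρ h (cop c)
    rw [map_sub, map_add, ← bd_map] at t1
    rw [tbd_cop] at t2
    simp only [LinearMap.add_apply, LinearMap.comp_apply, map_add]
    rw [add_add_add_comm, ← t1, ← t2, sub_add_sub_cancel]
  · refine add_mem (map_mem_CC (A := U ×ˢ A) (B := U ×ˢ A') (fun z hz => ⟨hz.1, hA hz.2⟩)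
      (h2 U A c hc)) ?_
    exact zc9_TS (kap ∘ₗ TensorProduct.map om K) _
      (fun a ha b hb => cross_mem_CC (om_mem_CC ha) (hK b hb)) (cop_mem hc)

/-- first term and tail -/
def zd3s (X : Type) [TopologicalSpace X] : C(ℕ → X, X × (ℕ → X)) :=
  ⟨fun y => (y 0, fun i => y (i + 1)), by fun_prop⟩

/-- prepending a term -/
def zd3j (X : Type) [TopologicalSpace X] : C(X × (ℕ → X), ℕ → X) :=
  (appC X 1).comp ((csC X).prodMap (ContinuousMap.id _))

theorem zd3j_zero (z : X × (ℕ → X)) : zd3j X z 0 = z.1 := rfl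

theorem zd3j_succ (z : X × (ℕ → X)) (i : ℕ) : zd3j X z (i + 1) = z.2 i := rfl

theorem zd3_tpr (n : ℕ) (b : ℕ → Ch F X) :
    tpr (n + 1) b = map (zd3j X) (cross (b 0) (tpr n fun i => b (i + 1))) := by
  rw [zd3j, ← map_map, ← cross_map, map_id']
  rfl

theorem zd3_sj (c : Ch F (X × (ℕ → X))) : map (zd3s X) (map (zd3j X) c) = c := by
  have e : (zd3s X).comp (zd3j X) = ContinuousMap.id _ :=
    ContinuousMap.ext fun z => Prod.ext rfl (funext fun i => zd3j_succ z i)
  rw [map_map, e, map_id']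

theorem exists_proj_seq (F : Type) [Field F] (X : Type) [TopologicalSpace X] (n : ℕ) :
    ∃ D K : Ch F (ℕ → X) →ₗ[F] Ch F (ℕ → X),
      (∀ c, map (⟨fun y i => y (min i n), by fun_prop⟩ : C(ℕ → X, ℕ → X)) c - D c =
        bd (K c) + K (bd c)) ∧
      (∀ A : ℕ → Set X, ∀ c ∈ CC F {y : ℕ → X | ∀ i ≤ n, y i ∈ A i},
        K c ∈ CC F {y : ℕ → X | ∀ i ≤ n, y i ∈ A i} ∧
        D c ∈ Submodule.span F {z | ∃ b : ℕ → Ch F X, (∀ i ≤ n, b i ∈ CC F (A i)) ∧ z = tpr n b}) ∧
      ∀ b : ℕ → Ch F X, D (tpr n b) = tpr n b := by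
  induction n with
  | zero =>
    refine ⟨map ⟨fun y i => y (min i 0), by fun_prop⟩, 0, fun c => by simp,
      fun A c hc => ⟨zero_mem _, Submodule.subset_span ⟨fun _ => map (ev0 X) c, fun i hi => ?_, ?_⟩⟩,
      fun b => ?_⟩
    · rw [Nat.le_zero.1 hi]
      exact map_mem_CC (A := {y : ℕ → X | ∀ i ≤ 0, y i ∈ A i}) (fun y hy => hy 0 le_rfl) hc
    · rw [tpr, map_map]
      exact congrArg (fun f => map f c)
        (ContinuousMap.ext fun y => funext fun i => congrArg y (Nat.min_zero i))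
    · rw [tpr, map_map]
      rfl
  | succ n ih =>
    obtain ⟨D, K, h1, h2, h3⟩ := ih
    obtain ⟨K', k1, k2⟩ := ez_step (Z := X) _ h1
    refine ⟨map (zd3j X) ∘ₗ kap ∘ₗ TensorProduct.map LinearMap.id D ∘ₗ cop ∘ₗ map (zd3s X),
      map (zd3j X) ∘ₗ K' ∘ₗ map (zd3s X), fun c => ?_, fun A c hc => ?_, fun b => ?_⟩
    · have t := congrArg (map (zd3j X)) (k1 (map (zd3s X) c))
      rw [map_sub, map_add, ← bd_map, bd_map (zd3s X), map_map, map_map] at t
      simp only [LinearMap.comp_apply]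
      rw [← t]
      refine congrArg (fun f => map f c - _) (ContinuousMap.ext fun y => funext fun i => ?_)
      cases i with
      | zero => exact congrArg y (Nat.zero_min _)
      | succ i => exact congrArg y (Nat.succ_min_succ i n)
    · have t : map (zd3s X) c ∈ CC F (A 0 ×ˢ {y : ℕ → X | ∀ i ≤ n, y i ∈ A (i + 1)}) :=
        map_mem_CC (B := A 0 ×ˢ {y : ℕ → X | ∀ i ≤ n, y i ∈ A (i + 1)})
          (A := {y : ℕ → X | ∀ i ≤ n + 1, y i ∈ A i})
          (fun y hy => ⟨hy 0 (Nat.zero_le _), fun i hi => hy _ (Nat.succ_le_succ hi)⟩) hc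
      refine ⟨map_mem_CC (fun z hz i hi => ?_) (k2 (A 0) _ {y : ℕ → X | ∀ i ≤ n, y i ∈ A (i + 1)}
        (fun y hy i hi => ?_) (fun c hc => (h2 (fun i => A (i + 1)) c hc).1) _ t), ?_⟩
      · cases i with
        | zero => exact hz.1
        | succ i =>
          rw [zd3j_succ]
          exact hz.2 i (Nat.le_of_succ_le_succ hi)
      · show y (min i n) ∈ _
        rw [min_eq_left hi]
        exact hy i hi
      · refine zc9_TS (map (zd3j X) ∘ₗ kap ∘ₗ TensorProduct.map LinearMap.id D) _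
          (fun a ha b hb => ?_) (cop_mem t)
        refine Submodule.mem_comap.1
          ((Submodule.span_le (p := Submodule.comap (map (zd3j X) ∘ₗ cross a) _)).2 ?_
            (h2 (fun i => A (i + 1)) b hb).2)
        rintro _ ⟨b', hb', rfl⟩
        refine Submodule.subset_span ⟨fun i => Nat.casesOn i a b', fun i hi => ?_,
          (zd3_tpr n fun i => Nat.casesOn i a b').symm⟩
        cases i with
        | zero => exact ha
        | succ i => exact hb' i (Nat.le_of_succ_le_succ hi)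
    · simp only [LinearMap.comp_apply]
      rw [zd3_tpr, zd3_sj, cop_cross, TensorProduct.map_tmul, kap_tmul, h3, LinearMap.id_apply]

theorem exists_proj (F : Type) [Field F] (X Y : Type) [TopologicalSpace X] [TopologicalSpace Y]
    (q : ℕ) [NeZero q] :
    ∃ D K : Ch F (Y × (ZMod q → X)) →ₗ[F] Ch F (Y × (ZMod q → X)),
      (∀ c, c - D c = bd (K c) + K (bd c)) ∧
      (∀ (U : Set Y) (A : ZMod q → Set X), ∀ c ∈ CC F (U ×ˢ Set.pi univ A),
        K c ∈ CC F (U ×ˢ Set.pi univ A) ∧ D c ∈ PS F U A) ∧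
      ∀ (a : Ch F Y) (b : ℕ → Ch F X), D (cross a (cpr q b)) = cross a (cpr q b) := by
  have hq := NeZero.pos q
  obtain ⟨D, K, h1, h2, h3⟩ := exists_proj_seq F X (q - 1)
  let u : C(ZMod q → X, ℕ → X) := ⟨fun x i => x (min i (q - 1) : ℕ), by fun_prop⟩
  have hv : ∀ c : ZMod q, (c - 0).val ≤ q - 1 := fun c => Nat.le_sub_one_of_lt (ZMod.val_lt _)
  have hu : ∀ (A : ZMod q → Set X), ∀ c ∈ CC F (Set.pi univ A),
      map u c ∈ CC F {y : ℕ → X | ∀ i ≤ q - 1, y i ∈ A i} := fun A c hc =>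
    map_mem_CC (fun x hx i hi => by
      show x (min i (q - 1) : ℕ) ∈ _
      rw [min_eq_left hi]
      exact hx _ (mem_univ _)) hc
  have h0 : ∀ c : Ch F (ZMod q → X), map (ContinuousMap.id _) c -
      (map (cyc X 0) ∘ₗ D ∘ₗ map u) c = bd ((map (cyc X 0) ∘ₗ K ∘ₗ map u) c) +
        (map (cyc X 0) ∘ₗ K ∘ₗ map u) (bd c) := fun c => by
    have t := congrArg (map (cyc X (0 : ZMod q))) (h1 (map u c))
    rw [map_sub, map_add, ← bd_map, bd_map u, map_map, map_map] at t
    simp only [LinearMap.comp_apply]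
    rw [← t]
    refine congrArg (fun f => map f c - _) (ContinuousMap.ext fun x => funext fun i => ?_)
    show x i = x (min (min (i - 0).val (q - 1)) (q - 1) : ℕ)
    rw [min_eq_left (hv i), min_eq_left (hv i), ZMod.natCast_zmod_val, sub_zero]
  obtain ⟨K', k1, k2⟩ := ez_step (Z := Y) _ h0
  refine ⟨kap ∘ₗ TensorProduct.map LinearMap.id (map (cyc X 0) ∘ₗ D ∘ₗ map u) ∘ₗ cop, K',
    fun c => ?_, fun U A c hc => ⟨k2 U _ _ (fun _ h => h) (fun c hc => ?_) c hc, ?_⟩,
    fun a b => ?_⟩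
  · have e : (ContinuousMap.id Y).prodMap (ContinuousMap.id (ZMod q → X)) = ContinuousMap.id _ :=
      ContinuousMap.ext fun _ => rfl
    have t := k1 c
    rwa [e, map_id'] at t
  · refine map_mem_CC (fun y hy i _ => ?_) (h2 (fun i => A i) _ (hu A c hc)).1
    have := hy _ (hv i)
    show y (i - 0).val ∈ A i
    rw [ZMod.natCast_zmod_val] at this
    rwa [sub_zero] at this ⊢
  · refine zc9_TS (kap ∘ₗ TensorProduct.map LinearMap.id (map (cyc X 0) ∘ₗ D ∘ₗ map u)) _
      (fun a ha b hb => ?_) (cop_mem hc)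
    refine Submodule.mem_comap.1
      ((Submodule.span_le (p := Submodule.comap (cross a ∘ₗ map (cyc X 0)) _)).2 ?_
        (h2 (fun i => A i) _ (hu A b hb)).2)
    rintro _ ⟨b', hb', rfl⟩
    exact PS_mem ha fun i hi => hb' i (Nat.le_sub_one_of_lt hi)
  · have e : map u (cpr q b) = tpr (q - 1) b := by
      rw [cpr, map_map, ← mp_coe]
      refine mp_eq_self (fun y hy => funext fun i => ?_)
        (tpr_CC (A := fun _ => univ) fun i _ => mem_CC_univ _)
      show y (((min i (q - 1) : ℕ) : ZMod q) - 0).val = y i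
      rw [sub_zero, ZMod.val_natCast_of_lt (by omega)]
      rcases le_total i (q - 1) with h | h
      · rw [min_eq_left h]
      · rw [min_eq_right h, hy.2 i h]
    simp only [LinearMap.comp_apply]
    rw [cop_cross, TensorProduct.map_tmul, kap_tmul, LinearMap.id_apply, LinearMap.comp_apply,
      LinearMap.comp_apply, e, h3]
    rfl

end Pool.Agent.Fu
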