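import Mathlib
import Pool.Agent.P.MP_365c00_gt.ZD2
import Pool.Agent.P.MP_365c00_gt.ZD3

/-! Removing the factor of the paths. -/

set_option linter.unusedSectionVars false
set_option linter.unusedVariables false

open Set Topology

namespace Pool.Agent.Fu

variable {F : Type} [Field F] {X Y : Type} [TopologicalSpace X] [TopologicalSpace Y] {q : ℕ}

variable {W : Type} [TopologicalSpace W] [NeZero q]

theorem zd4_ind {T : Type} [AddCommGroup T] [Module F T] {U : Set Y} {A : ZMod q → Set X}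
    (L : Ch F (Y × (ZMod q → X)) →ₗ[F] T) (S : Submodule F T)
    (h : ∀ a ∈ CC F U, ∀ (b : ℕ → Ch F X) (k : ℕ → ℕ), (∀ i < q, b i ∈ CC F (A (i : ZMod q))) →
      (∀ i < q, b i ∈ HD F X (k i)) → L (cross a (cpr q b)) ∈ S) :
    ∀ c ∈ PS F U A, L c ∈ S := by
  have : PS F U A ≤ S.comap L := by
    refine Submodule.span_le.2 ?_
    rintro _ ⟨a, ha, b, hb, rfl⟩
    choose! k hk using fun i hi => (hb i hi).2
    exact h a ha b k (fun i hi => (hb i hi).1) hk
  exact fun c hc => this hc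

theorem zd4_mono {U U' : Set Y} {A A' : ZMod q → Set X} (hU : U ⊆ U') (hA : ∀ c, A c ⊆ A' c) :
    PS F U A ≤ PS F U' A' :=
  fun c hc => zd4_ind LinearMap.id _
    (fun a ha b k hb _ => PS_mem (CC_mono hU ha) fun i hi => CC_mono (hA _) (hb i hi)) c hc

theorem zd4_bd (U : Set Y) (A : ZMod q → Set X) : ∀ c ∈ PS F U A, bd c ∈ PS F U A := by
  refine zd4_ind bd _ fun a ha b k hb _ => ?_
  rw [bd_cross, bd_cpr, map_sum]
  refine add_mem (PS_mem (bd_mem_CC ha) hb)
    (Submodule.sum_mem _ fun i _ => PS_mem (om_mem_CC ha) fun j hj => ?_)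
  split_ifs
  exacts [om_mem_CC (hb j hj), bd_mem_CC (hb j hj), hb j hj]

theorem zd4_shf (s : C(Y, Y)) {U : Set Y} (hU : MapsTo s U U) (A : ZMod q → Set X) :
    ∀ c ∈ PS F U A, map (s.prodMap (shf X q)) c ∈ PS F U fun e => A (e - 1) := by
  refine zd4_ind (map (s.prodMap (shf X q))) _ fun a ha b k hb hk => ?_
  rw [← cross_map, cpr_rot hk, map_smul]
  refine Submodule.smul_mem _ _ (PS_mem (map_mem_CC hU ha) fun j hj => ?_)
  have hq : 1 ≤ q := NeZero.pos q
  split_ifs with h0
  · have := hb (q - 1) (by omega)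
    rw [Nat.cast_sub hq, ZMod.natCast_self, Nat.cast_one] at this
    rw [h0, Nat.cast_zero]
    exact this
  · have := hb (j - 1) (by omega)
    rw [Nat.cast_sub (by omega), Nat.cast_one] at this
    exact this

theorem PS_st {U : Set (ZMod q → W)} (hU : MapsTo (shf W q) U U) (A : Set X) :
    (gcy2 F X q W).St (PS F U fun _ : ZMod q => A) :=
  ⟨zd4_bd _ _, zd4_shf (shf W q) hU fun _ => A⟩

theorem PS_st' (A A' : Set X) :
    (gcy2 F X q W).St (⨆ c : ZMod q, PS F (univ : Set (ZMod q → W))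
      (Function.update (fun _ : ZMod q => A) c A')) := by
  set S := ⨆ c : ZMod q, PS F (univ : Set (ZMod q → W))
      (Function.update (fun _ : ZMod q => A) c A') with hS
  have le : ∀ c : ZMod q, PS F (univ : Set (ZMod q → W))
      (Function.update (fun _ : ZMod q => A) c A') ≤ S := fun c =>
    le_iSup (fun c : ZMod q => PS F (univ : Set (ZMod q → W))
      (Function.update (fun _ : ZMod q => A) c A')) c
  constructor
  · have : S ≤ S.comap bd := iSup_le fun c z hz => le c (zd4_bd _ _ z hz)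
    exact fun z hz => this hz
  · have : S ≤ S.comap (map ((shf W q).prodMap (shf X q))) := iSup_le fun c z hz => by
      refine le (c + 1) (zd4_mono Subset.rfl (fun e => ?_)
        (zd4_shf (shf W q) (mapsTo_univ _ _) _ z hz))
      by_cases h : e = c + 1
      · rw [h, add_sub_cancel_right, Function.update_self, Function.update_self]
      · rw [Function.update_of_ne h, Function.update_of_ne fun e' => h (sub_eq_iff_eq_add.1 e')]
    exact fun z hz => this hz

theorem zd4_rot {b : ℕ → Ch F X} {k : ℕ → ℕ} (h : ∀ i < q, b i ∈ HD F X (k i)) {D : ℕ}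
    (hD : Even D) (l : Ch F X →ₗ[F] F) {L : Ch F (ZMod q → X) →ₗ[F] F}
    (hL : ∀ b : ℕ → Ch F X, L (cpr q b) = ∏ i ∈ Finset.range q, (l ∘ₗ dg D) (b i)) :
    L (map (shf X q) (cpr q b)) = L (cpr q b) := by
  rw [cpr_rot h, map_smul, hL, hL, smul_eq_mul]
  obtain ⟨n, rfl⟩ : ∃ n, q = n + 1 := ⟨q - 1, by have := NeZero.pos q; omega⟩
  rw [Finset.prod_range_succ', Finset.prod_range_succ]
  simp only [Nat.add_sub_cancel, Nat.succ_ne_zero, if_false, if_true]
  by_cases e : D = k n
  · rw [← e, (hD.mul_left _).neg_one_pow, one_mul]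
  · rw [LinearMap.comp_apply, dg_of_ne (h n (Nat.lt_succ_self n)) e, map_zero, mul_zero, mul_zero]

theorem zd4_QI {W' : Set Y} (hW : IsOpen W') (A : Set X) {O : Set X} (hO : IsOpen O) :
    QI bd bd LinearMap.id (PS F (univ : Set Y) fun _ : ZMod q => A)
      ((PS F W' fun _ : ZMod q => A) ⊔
        ⨆ c : ZMod q, PS F (univ : Set Y) (Function.update (fun _ : ZMod q => A) c (A ∩ O)))
      (CC F (univ ×ˢ {x : ZMod q → X | ∀ c, x c ∈ A}))
      (CC F (W' ×ˢ {x : ZMod q → X | ∀ c, x c ∈ A} ∪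
        univ ×ˢ {x : ZMod q → X | (∀ c, x c ∈ A) ∧ ∃ c, x c ∈ O})) := by
  have eP : {x : ZMod q → X | ∀ c, x c ∈ A} = Set.pi univ fun _ => A := by
    ext x
    simp
  set B : Set (Y × (ZMod q → X)) := W' ×ˢ {x : ZMod q → X | ∀ c, x c ∈ A} ∪
    univ ×ˢ {x : ZMod q → X | (∀ c, x c ∈ A) ∧ ∃ c, x c ∈ O} with hB
  set T := (PS F W' fun _ : ZMod q => A) ⊔
    ⨆ c : ZMod q, PS F (univ : Set Y) (Function.update (fun _ : ZMod q => A) c (A ∩ O)) with hT
  let U : Option (ZMod q) → Set (Y × (ZMod q → X)) := fun o =>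
    o.elim (W' ×ˢ univ) fun c => {z | z.2 c ∈ O}
  have hU : ∀ o, IsOpen (U o) := by
    rintro (_ | c)
    · exact hW.prod isOpen_univ
    · exact hO.preimage (by fun_prop : Continuous fun z : Y × (ZMod q → X) => z.2 c)
  have hBA : B ⊆ univ ×ˢ {x : ZMod q → X | ∀ c, x c ∈ A} := by
    rintro z (h | h)
    exacts [⟨mem_univ _, h.2⟩, ⟨mem_univ _, h.2.1⟩]
  have hBU : B ⊆ ⋃ o, U o := by
    rintro z (h | ⟨-, -, c, h⟩)
    exacts [mem_iUnion.2 ⟨none, h.1, mem_univ _⟩, mem_iUnion.2 ⟨some c, h⟩]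
  have e0 : B ∩ U none = W' ×ˢ Set.pi univ fun _ : ZMod q => A := by
    rw [← eP]
    exact Subset.antisymm (fun z hz => ⟨hz.2.1, (hBA hz.1).2⟩)
      fun z hz => ⟨Or.inl hz, hz.1, mem_univ _⟩
  have e1 : ∀ c, B ∩ U (some c) =
      univ ×ˢ Set.pi univ (Function.update (fun _ : ZMod q => A) c (A ∩ O)) := by
    intro c
    refine Subset.antisymm (fun z hz => ⟨mem_univ _, fun e _ => ?_⟩) fun z hz => ?_
    · by_cases h : e = c
      · rw [h, Function.update_self]
        exact ⟨(hBA hz.1).2 c, hz.2⟩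
      · rw [Function.update_of_ne h]
        exact (hBA hz.1).2 e
    · have hc := hz.2 c (mem_univ _)
      rw [Function.update_self] at hc
      refine ⟨Or.inr ⟨mem_univ _, fun e => ?_, c, hc.2⟩, hc.2⟩
      by_cases h : e = c
      · rw [h]
        exact hc.1
      · have := hz.2 e (mem_univ _)
        rwa [Function.update_of_ne h] at this
  obtain ⟨q1, q2⟩ := QI_small (F := F) hU hBA hBU
  obtain ⟨D, K, h1, h2, h3⟩ := exists_proj F X Y q
  set S := ⨆ o, CC F (B ∩ U o) with hS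
  have hTS : T ≤ S := by
    refine sup_le ((PS_le _ _).trans ?_) (iSup_le fun c => (PS_le _ _).trans ?_)
    · rw [← e0]
      exact le_iSup (fun o => CC F (B ∩ U o)) none
    · rw [← e1]
      exact le_iSup (fun o => CC F (B ∩ U o)) (some c)
  have hK : S ≤ (CC F B).comap K := by
    refine iSup_le fun o z hz => CC_mono (inter_subset_left (t := U o)) ?_
    rcases o with _ | c
    · rw [e0] at hz ⊢
      exact (h2 _ _ z hz).1
    · rw [e1] at hz ⊢
      exact (h2 _ _ z hz).1
  have hD : S ≤ T.comap D := by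
    refine iSup_le fun o z hz => ?_
    rcases o with _ | c
    · rw [e0] at hz
      exact Submodule.mem_sup_left (h2 _ _ z hz).2
    · rw [e1] at hz
      exact Submodule.mem_sup_right (Submodule.mem_iSup_of_mem c (h2 _ _ z hz).2)
  have hch : ∀ c, bd (D c) = D (bd c) := fun c => by
    have a1 := congrArg bd (h1 c)
    have a2 := h1 (bd c)
    rw [map_sub, map_add, bd_bd, zero_add] at a1
    rw [bd_bd, map_zero, add_zero, ← a1] at a2
    exact (sub_right_injective a2).symm
  rw [eP] at q1 q2 ⊢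
  refine ⟨fun c hc hd hn => ?_, fun c' hc' hd => ?_⟩
  · obtain ⟨_, ⟨u, hu, rfl⟩, v, hv, e⟩ :=
      Submodule.mem_sup.1 (q1 c (PS_le _ _ hc) (hTS hd) hn)
    have e2 : (D - LinearMap.id : _ →ₗ[F] _) c ∈ (⊥ : Submodule F _) :=
      zd4_ind _ _ (fun a _ b _ _ _ => by
        rw [LinearMap.sub_apply, h3, LinearMap.id_apply, sub_self]
        exact Submodule.zero_mem _) c hc
    rw [Submodule.mem_bot, LinearMap.sub_apply, LinearMap.id_apply, sub_eq_zero] at e2
    rw [← e2, ← e, map_add, ← hch]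
    exact Submodule.add_mem_sup ⟨_, (h2 _ _ u hu).2, rfl⟩ (hD hv)
  · obtain ⟨c, hc, hd', hn⟩ := q2 c' hc' hd
    refine ⟨D c, (h2 _ _ c hc).2, by rw [hch]; exact hD hd', ?_⟩
    have e2 : D c - c' = (c - c') - (bd (K c) + K (bd c)) := by rw [← h1]; abel
    rw [LinearMap.id_apply, e2]
    exact Submodule.sub_mem _ hn (Submodule.add_mem_sup ⟨_, (h2 _ _ c hc).1, rfl⟩ (hK hd'))

theorem tp_nul [CharP F q] {W' : Set (ZMod q → W)} (hW : IsOpen W') (hi : MapsTo (shf W q) W' W')
    {A O : Set X} (hO : IsOpen O) {D : ℕ} (hD : Even D) {w : Ch F X} (hw : w ∈ ZZ F A ∅)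
    (hd : w ∈ HD F X D) (hn : w ∉ NN F A (A ∩ O)) {g : Ch F (ZMod q → W)} (hg : bd g ∈ CC F W')
    (hs : map (shf W q) g = g) {R : ℕ}
    (h : (gcy2 F X q W).Nul (CC F (univ ×ˢ {x : ZMod q → X | ∀ c, x c ∈ A}))
      (CC F (W' ×ˢ {x : ZMod q → X | ∀ c, x c ∈ A} ∪
        univ ×ˢ {x : ZMod q → X | (∀ c, x c ∈ A) ∧ ∃ c, x c ∈ O})) R
      (sq 0 (cross g (cpr q fun _ => w)))) :
    (gcy F W q).Nul ⊤ (CC F W') R (sq 0 g) := by
  have hq := zd4_QI (F := F) (q := q) hW A hO
  have sA := PS_st (F := F) (W := W) (q := q) (mapsTo_univ _ _) A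
  have sB := (PS_st (F := F) hi A).sup (PS_st' A (A ∩ O))
  set PA := PS F (univ : Set (ZMod q → W)) fun _ : ZMod q => A with hPA
  set PB := (PS F W' fun _ : ZMod q => A) ⊔ ⨆ c : ZMod q, PS F (univ : Set (ZMod q → W))
    (Function.update (fun _ : ZMod q => A) c (A ∩ O)) with hPB
  have eP : {x : ZMod q → X | ∀ c, x c ∈ A} = Set.pi univ fun _ => A := by
    ext x
    simp
  have up : ∀ c e : ZMod q, Function.update (fun _ : ZMod q => A) c (A ∩ O) e ⊆ A := fun c e => by
    by_cases h : e = c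
    · rw [h, Function.update_self]
      exact inter_subset_left
    · rw [Function.update_of_ne h]
  have hBA : PB ≤ PA :=
    sup_le (zd4_mono (subset_univ _) fun _ => Subset.rfl)
      (iSup_le fun c => zd4_mono Subset.rfl (up c))
  have hz : bd (cpr q fun _ => w) = 0 := by
    have := (mem_ZZ.1 (cpr_ZZ (q := q) (b := fun _ => w) fun _ _ => hw)).2
    refine (Submodule.mem_bot F).1 (CC_empty (F := F) (X := ZMod q → X) ▸ CC_mono ?_ this)
    rintro x ⟨-, c, hc⟩
    exact hc
  have h1 : (gcy2 F X q W).Nul PA PB R (sq 0 (cross g (cpr q fun _ => w))) := by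
    refine GC.Nul.reflect (f := LinearMap.id) ⟨fun _ _ => rfl, fun _ _ => rfl, fun c hc => ?_,
      fun c hc => ?_⟩ hq sA sB (gc_st _ fun z hz => And.intro (mem_univ _) fun c => hz.2 _)
      (gc_st _ ?_) hBA (CC_mono ?_) (GC.seq_sq ?_ ?_ ?_ 0 R) h
    · rw [eP]
      exact PS_le _ _ hc
    · refine (sup_le ((PS_le _ _).trans (CC_mono ?_))
        (iSup_le fun e => (PS_le _ _).trans (CC_mono ?_)) : PB ≤ _) hc
      · rw [← eP]
        exact subset_union_left
      · intro z hz
        have := hz.2 e (mem_univ _)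
        rw [Function.update_self] at this
        exact Or.inr ⟨mem_univ _, fun c => up e c (hz.2 c (mem_univ _)), e, this.2⟩
    · rintro z (hz | ⟨-, hz, c, hc⟩)
      · exact Or.inl ⟨hi hz.1, fun c => hz.2 _⟩
      · refine Or.inr ⟨mem_univ _, fun c => hz _, c + 1, ?_⟩
        show z.2 (c + 1 - 1) ∈ O
        rwa [add_sub_cancel_right]
    · rintro z (hz | hz)
      exacts [⟨mem_univ _, hz.2⟩, ⟨mem_univ _, hz.2.1⟩]
    · exact PS_mem (mem_CC_univ _) fun _ _ => hw.1
    · show bd _ ∈ _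
      rw [bd_cross, hz, map_zero, add_zero]
      exact Submodule.mem_sup_left (PS_mem hg fun _ _ => hw.1)
    · show map ((shf W q).prodMap (shf X q)) _ = _
      rw [← cross_map, hs, cpr_fix hd hD]
  obtain ⟨l, l1, l2⟩ := exists_dual hn
  obtain ⟨L, hL⟩ := exists_Xi (q := q) (l ∘ₗ dg D)
  have l3 : ∀ z ∈ NN F A (A ∩ O), (l ∘ₗ dg D) z = 0 := fun z hz => l2 _ (dg_mem_NN D hz)
  have hE : EqMap (gcy2 F X q W) (gcy F W q) (sr L) PA PB ⊤ (CC F W') := by
    refine ⟨fun c hc => ?_, fun c hc => ?_, fun _ _ => Submodule.mem_top, fun c hc => ?_⟩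
    · refine sub_eq_zero.1 ((Submodule.mem_bot F).1
        (zd4_ind (bd ∘ₗ sr L - sr L ∘ₗ bd) ⊥ (fun a _ b k hb _ => ?_) c hc))
      have e : L (bd (cpr q b)) = 0 := by
        rw [bd_cpr, map_sum]
        refine Finset.sum_eq_zero fun i hi => ?_
        rw [hL]
        refine Finset.prod_eq_zero hi ?_
        rw [if_neg (lt_irrefl i), if_pos rfl]
        exact l3 _ (BB_le_NN _ _ ⟨_, hb i (Finset.mem_range.1 hi), rfl⟩)
      rw [Submodule.mem_bot, LinearMap.sub_apply, LinearMap.comp_apply, LinearMap.comp_apply,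
        bd_cross, map_add, sr_cross, sr_cross, sr_cross, e, zero_smul, add_zero, map_smul, sub_self]
    · refine sub_eq_zero.1 ((Submodule.mem_bot F).1
        (zd4_ind (map (shf W q) ∘ₗ sr L - sr L ∘ₗ map ((shf W q).prodMap (shf X q))) ⊥
          (fun a _ b k _ hk => ?_) c hc))
      rw [Submodule.mem_bot, LinearMap.sub_apply, LinearMap.comp_apply, LinearMap.comp_apply,
        ← cross_map, sr_cross, sr_cross, zd4_rot hk hD l hL, map_smul, sub_self]
    · refine (sup_le (fun z hz => zd4_ind (sr L) (CC F W') (fun a ha b k _ _ => ?_) z hz)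
        (iSup_le fun e z hz => zd4_ind (sr L) (CC F W') (fun a _ b k hb _ => ?_) z hz) :
          PB ≤ (CC F W').comap (sr L)) hc
      · rw [sr_cross]
        exact Submodule.smul_mem _ _ ha
      · have := hb e.val (ZMod.val_lt e)
        rw [ZMod.natCast_zmod_val, Function.update_self] at this
        rw [sr_cross, hL, Finset.prod_eq_zero (Finset.mem_range.2 (ZMod.val_lt e))
          (l3 _ (CC_le_NN _ _ this)), zero_smul]
        exact Submodule.zero_mem _
  have h2 := GC.Nul.map hE sA h1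
  rw [sq_map, sr_cross, hL, LinearMap.comp_apply, mem_HD.1 hd, l1, Finset.prod_const_one,
    one_smul] at h2
  exact h2

end Pool.Agent.Fu
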