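import Mathlib
import Pool.Agent.P.MP_365c00_gt.ZD0

/-! A cover of the nonconstant tuples by free pieces. -/

set_option linter.unusedSectionVars false
set_option linter.unusedVariables false

open Set Topology

namespace Pool.Agent.Fu

variable {F : Type} [Field F] {X Y : Type} [TopologicalSpace X] [TopologicalSpace Y] {q : ℕ}

/-- the tuples whose values on `S` dominate the other values -/
def zd5a_top (l : X → ℝ) (S : Finset (ZMod q)) : Set (ZMod q → X) :=
  {f | ∀ a ∈ S, ∀ b, b ∉ S → l (f b) < l (f a)}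

theorem zd5a_open [NeZero q] (l : C(X, ℝ)) (S : Finset (ZMod q)) : IsOpen (zd5a_top l S) := by
  have e : zd5a_top l S = ⋂ a, ⋂ b, {f : ZMod q → X | a ∈ S → b ∉ S → l (f b) < l (f a)} := by
    ext f
    simp only [zd5a_top, mem_iInter]
    exact ⟨fun h a b ha hb => h a ha b hb, fun h a ha b hb => h a b ha hb⟩
  rw [e]
  refine isOpen_iInter_of_finite fun a => isOpen_iInter_of_finite fun b => ?_
  by_cases h : a ∈ S ∧ b ∉ S
  · have : {f : ZMod q → X | a ∈ S → b ∉ S → l (f b) < l (f a)} = {f | l (f b) < l (f a)} := by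
      ext f
      exact ⟨fun hf => hf h.1 h.2, fun hf _ _ => hf⟩
    rw [this]
    exact isOpen_lt (by fun_prop) (by fun_prop)
  · have : {f : ZMod q → X | a ∈ S → b ∉ S → l (f b) < l (f a)} = univ :=
      eq_univ_of_forall fun f ha hb => absurd ⟨ha, hb⟩ h
    rw [this]
    exact isOpen_univ

theorem zd5a_eq {l : X → ℝ} {S S' : Finset (ZMod q)} (hc : S.card = S'.card) {f : ZMod q → X}
    (h : f ∈ zd5a_top l S) (h' : f ∈ zd5a_top l S') : S = S' := by
  by_contra hne
  have h1 : ¬ S ⊆ S' := fun hs => hne (Finset.eq_of_subset_of_card_le hs hc.ge)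
  have h2 : ¬ S' ⊆ S := fun hs => hne (Finset.eq_of_subset_of_card_le hs hc.le).symm
  obtain ⟨a, ha, ha'⟩ := Finset.not_subset.1 h1
  obtain ⟨b, hb, hb'⟩ := Finset.not_subset.1 h2
  exact lt_asymm (h a ha b hb') (h' b hb a ha')

/-- one piece -/
def zd5a_U (l : X → ℝ) (m : ℕ) (c : ZMod q) : Set (ZMod q → X) :=
  {f | ∃ S : Finset (ZMod q), S.card = m ∧ ∑ a ∈ S, a = m * c ∧ f ∈ zd5a_top l S}

theorem zd5a_move (l : X → ℝ) (m : ℕ) (c d : ZMod q) {f g : ZMod q → X}
    (hg : ∀ a, g (a + d) = f a) (h : f ∈ zd5a_U l m c) : g ∈ zd5a_U l m (c + d) := by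
  obtain ⟨S, h1, h2, h3⟩ := h
  refine ⟨S.map (Equiv.addRight d).toEmbedding, by rw [Finset.card_map, h1], ?_, ?_⟩
  · rw [Finset.sum_map]
    simp only [Equiv.coe_toEmbedding, Equiv.coe_addRight]
    rw [Finset.sum_add_distrib, h2, Finset.sum_const, h1, nsmul_eq_mul, mul_add]
  · intro a ha b hb
    rw [Finset.mem_map_equiv] at ha hb
    have := h3 _ ha _ hb
    rw [← hg, ← hg] at this
    simpa using this

theorem exists_cover [Fact q.Prime] {κ : ℕ} (lam : Fin κ → C(X, ℝ))
    (hl : ∀ v v' : X, (∀ k, lam k v = lam k v') → v = v') :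
    ∃ U : ℕ → ZMod q → Set (ZMod q → X), (∀ i c, IsOpen (U i c)) ∧
      (∀ i, Pairwise (Function.onFun Disjoint (U i))) ∧
      (∀ i c, shf X q ⁻¹' U i (c + 1) = U i c) ∧
      ∀ f : ZMod q → X, (∀ v, f ≠ fun _ => v) → ∃ i < κ * q, ∃ c, f ∈ U i c := by
  have hq : 0 < q := (Fact.out : q.Prime).pos
  refine ⟨fun i c => if h : i / q < κ ∧ 0 < i % q then zd5a_U (lam ⟨i / q, h.1⟩) (i % q) c else ∅,
    fun i c => ?_, fun i c c' hne => ?_, fun i c => ?_, fun f hf => ?_⟩
  · dsimp only
    split_ifs with h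
    · have e : zd5a_U (lam ⟨i / q, h.1⟩) (i % q) c = ⋃ S : Finset (ZMod q),
          ⋃ _ : S.card = i % q ∧ ∑ a ∈ S, a = (i % q : ℕ) * c, zd5a_top (lam ⟨i / q, h.1⟩) S := by
        ext f
        simp only [zd5a_U, mem_iUnion, exists_prop, and_assoc]
        rfl
      rw [e]
      exact isOpen_iUnion fun S => isOpen_iUnion fun _ => zd5a_open _ S
    · exact isOpen_empty
  · simp only [Function.onFun]
    split_ifs with h
    · rw [Set.disjoint_left]
      rintro f ⟨S, h1, h2, h3⟩ ⟨S', h1', h2', h3'⟩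
      obtain rfl := zd5a_eq (h1.trans h1'.symm) h3 h3'
      have hm : ((i % q : ℕ) : ZMod q) ≠ 0 := by
        rw [Ne, ZMod.natCast_eq_zero_iff]
        exact Nat.not_dvd_of_pos_of_lt h.2 (Nat.mod_lt _ hq)
      exact hne (mul_left_cancel₀ hm (h2.symm.trans h2'))
    · exact disjoint_bot_left
  · dsimp only
    split_ifs with h
    · ext f
      constructor
      · intro hf
        have := zd5a_move _ _ (c + 1) (-1) (g := f) (fun a => by simp [shf, sub_eq_add_neg]) hf
        simpa using this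
      · intro hf
        exact zd5a_move _ _ c 1 (fun a => by simp [shf]) hf
    · rfl
  · obtain ⟨k, b, hb⟩ : ∃ k b, lam k (f b) ≠ lam k (f 0) := by
      by_contra hn
      push Not at hn
      exact hf (f 0) (funext fun b => hl _ _ fun k => hn k b)
    obtain ⟨a0, ha0⟩ := Finite.exists_max fun a => lam k (f a)
    classical
    set S : Finset (ZMod q) := Finset.univ.filter fun a => lam k (f a) = lam k (f a0) with hS
    have hm0 : 0 < S.card := Finset.card_pos.2 ⟨a0, by simp [hS]⟩
    have hm1 : S.card < q := by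
      have : S ≠ Finset.univ := by
        intro h
        have h1 : b ∈ S := h ▸ Finset.mem_univ b
        have h2 : (0 : ZMod q) ∈ S := h ▸ Finset.mem_univ 0
        rw [hS, Finset.mem_filter] at h1 h2
        exact hb (h1.2.trans h2.2.symm)
      simpa [ZMod.card] using (Finset.card_lt_iff_ne_univ S).2 this
    have e1 : (k.val * q + S.card) / q = k.val := by
      rw [mul_comm, Nat.mul_add_div hq, Nat.div_eq_of_lt hm1, add_zero]
    have e2 : (k.val * q + S.card) % q = S.card := by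
      rw [mul_comm, Nat.mul_add_mod, Nat.mod_eq_of_lt hm1]
    have hm : (S.card : ZMod q) ≠ 0 := by
      rw [Ne, ZMod.natCast_eq_zero_iff]
      exact Nat.not_dvd_of_pos_of_lt hm0 hm1
    refine ⟨k.val * q + S.card, ?_, (∑ a ∈ S, a) / S.card, ?_⟩
    · have := Nat.mul_le_mul_right q (Nat.succ_le_of_lt k.2)
      rw [Nat.succ_mul] at this
      omega
    · dsimp only
      rw [dif_pos ⟨by rw [e1]; exact k.2, by rw [e2]; exact hm0⟩]
      simp only [e1, e2]
      refine ⟨S, rfl, by rw [mul_div_cancel₀ _ hm], fun a ha b' hb' => ?_⟩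
      rw [hS, Finset.mem_filter] at ha hb'
      rw [ha.2]
      exact lt_of_le_of_ne (ha0 b') fun h => hb' ⟨Finset.mem_univ _, h⟩

end Pool.Agent.Fu
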