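import Mathlib
import Pool.Agent.P.MP_365c00_gt.ZD5a

/-! Nilpotence over the free part. -/

set_option linter.unusedSectionVars false
set_option linter.unusedVariables false

open Set Topology

namespace Pool.Agent.Fu

variable {F : Type} [Field F] {X Y : Type} [TopologicalSpace X] [TopologicalSpace Y] {q : ℕ}

theorem zd5_keep (V : Set X) {Z : Set X} {c : Ch F X} (h : c ∈ CC F Z) : prj V c ∈ CC F Z :=
  CC_mono inter_subset_right (prj_mem_inter V h)

theorem zd5_iter {s : C(X, X)} {U : ZMod q → Set X} (he : ∀ c, s ⁻¹' U (c + 1) = U c) (k : ℕ) :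
    ∀ c : ZMod q, s^[k] ⁻¹' U (c + k) = U c := by
  induction k with
  | zero => intro c; simp
  | succ k ih =>
    intro c
    rw [Function.iterate_succ', preimage_comp, Nat.cast_succ, ← add_assoc, he, ih]

theorem ind_cover [NeZero q] {s : C(X, X)} (hs : ∀ x, s^[q] x = x) {U : ZMod q → Set X}
    (hU : ∀ c, IsOpen (U c)) (hd : Pairwise (Function.onFun Disjoint U))
    (he : ∀ c, s ⁻¹' U (c + 1) = U c) {A : Set X} {B : Submodule F (Ch F X)}
    (hA : MapsTo s A A) (hB : ∀ c ∈ B, prj (U 0) c ∈ B) :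
    (gc F s hs).Ind (CC F (A ∩ ⋃ c, U c)) B := by
  refine ⟨prj (U 0), fun c hc => zd5_keep _ hc, fun c _ hc => hB c hc, fun c hc => ?_,
    fun c hc => ?_⟩
  · exact (sum_prj_disj hU hd (CC_mono inter_subset_right hc)).2 0
  · have h1 := (sum_prj_disj hU hd (CC_mono inter_subset_right hc)).1
    have h2 : ∀ i ∈ Finset.range q, ((gc F s hs).s ^ i) (prj (U 0) (((gc F s hs).s ^ (q - i)) c)) =
        prj (U (i : ZMod q)) c := by
      intro i hi
      have hi' : i ≤ q := (Finset.mem_range.1 hi).le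
      have e0 : (i : ZMod q) + ((q - i : ℕ) : ZMod q) = 0 := by
        rw [← Nat.cast_add, Nat.add_sub_cancel' hi', ZMod.natCast_self]
      have e1 : s^[q - i] ⁻¹' U 0 = U (i : ZMod q) := by
        rw [← e0]; exact zd5_iter he _ _
      have e2 : prj (U 0) (((gc F s hs).s ^ (q - i)) c) =
          ((gc F s hs).s ^ (q - i)) (prj (U (i : ZMod q)) c) := by
        show prj (U 0) (((map s : Module.End F (Ch F X)) ^ (q - i)) c) =
          ((map s : Module.End F (Ch F X)) ^ (q - i)) (prj (U (i : ZMod q)) c)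
        rw [map_pow_iterate, map_pow_iterate, prj_map, ← e1]
        rfl
      rw [e2, ← Module.End.mul_apply, ← pow_add, Nat.add_sub_cancel' hi', (gc F s hs).pow]
      rfl
    rw [Finset.sum_congr rfl h2]
    refine Eq.trans ?_ h1
    exact Finset.sum_bij' (fun i _ => (i : ZMod q)) (fun c _ => c.val) (fun _ _ => Finset.mem_univ _)
      (fun c _ => Finset.mem_range.2 (ZMod.val_lt c))
      (fun i hi => ZMod.val_cast_of_lt (Finset.mem_range.1 hi))
      (fun c _ => ZMod.natCast_zmod_val c) (fun _ _ => rfl)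

theorem zd5_alg {P : Type} [AddCommGroup P] [Module F P] [CharP F q] (G : GC F q P) (m : ℕ)
    (A : ℕ → Submodule F P) {B : Submodule F P} (hA : ∀ i, G.St (A i)) (hB : G.St B)
    (hI : ∀ i < m, G.Ind (A i) ((⨆ j < i, A j) ⊔ B)) {g : P} (hs : G.s g = g)
    (h : G.Nul ⊤ ((⨆ j < m, A j) ⊔ B) m (sq 0 g)) : ∃ a b, g - G.d a - G.T 1 b ∈ B := by
  obtain ⟨k, -, k0, k1⟩ := h
  let y : ℕ → P := fun j => Nat.casesOn j (g - G.d (k 0))
    fun j => 0 - G.d (k (j + 1)) - G.T j (k j)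
  have y1 : ∀ j, G.d (y (j + 1)) = G.T j (y j) := by
    intro j
    have e1 : G.d (y (j + 1)) = - G.T j (G.d (k j)) := by
      show G.d (0 - G.d (k (j + 1)) - G.T j (k j)) = _
      rw [map_sub, map_sub, map_zero, G.dd, G.d_T, sub_zero, zero_sub]
    rw [e1]
    rcases j with _ | j
    · show _ = G.T 0 (g - G.d (k 0))
      rw [map_sub, G.T_fix 0 hs, zero_sub]
    · show _ = G.T (j + 1) (0 - G.d (k (j + 1)) - G.T j (k j))
      rw [map_sub, map_sub, map_zero, G.T_T, sub_zero, zero_sub]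
  have y2 : ∀ j, ∃ a, j ≤ m → a ∈ (⨆ j < m, A j) ∧ y j - a ∈ B := by
    intro j
    by_cases hj : j ≤ m
    · have h1 : y j ∈ (⨆ j < m, A j) ⊔ B := by
        rcases j with _ | j
        · exact k0
        · exact k1 j hj
      obtain ⟨a, ha, b, hb, e⟩ := Submodule.mem_sup.1 h1
      exact ⟨a, fun _ => ⟨ha, by rw [← e, add_sub_cancel_left]; exact hb⟩⟩
    · exact ⟨0, fun h => absurd h hj⟩
  choose a ha using y2
  have hq : G.Seq' (⨆ j < m, A j) B m a := by
    refine ⟨fun j hj => (ha j hj).1, fun j hj => ?_⟩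
    have e : G.d (a (j + 1)) - G.T j (a j) =
        G.T j (y j - a j) - G.d (y (j + 1) - a (j + 1)) := by
      rw [map_sub, map_sub, y1]; abel
    rw [e]
    exact B.sub_mem (hB.T j (ha j hj.le).2) (hB.1 _ (ha _ hj).2)
  obtain ⟨a', -, b', -, h3⟩ := GC.nil m A hA hB hI hq
  refine ⟨k 0 + a', b', ?_⟩
  have h4 : g - G.d (k 0) - a 0 ∈ B := (ha 0 (Nat.zero_le m)).2
  have e : g - G.d (k 0 + a') - G.T 1 b' =
      (g - G.d (k 0) - a 0) + (a 0 - G.d a' - G.T 1 b') := by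
    rw [map_add]; abel
  rw [e]
  exact B.add_mem h4 h3

theorem free_nil [Fact q.Prime] [CharP F q] {κ : ℕ} (lam : Fin κ → C(X, ℝ))
    (hl : ∀ v v' : X, (∀ k, lam k v = lam k v') → v = v') {W' O : Set (ZMod q → X)}
    (hW : MapsTo (shf X q) W' W') (hO : IsOpen O) (hOi : MapsTo (shf X q) O O)
    (hfix : ∀ v : X, (fun _ => v) ∈ W' → (fun _ => v) ∈ O) {g : Ch F (ZMod q → X)}
    (hg : bd g ∈ CC F (W' ∩ O)) (hs : map (shf X q) g = g) {R : ℕ} (hR : κ * q ≤ R)
    (h : (gcy F X q).Nul ⊤ (CC F W') R (sq 0 g)) :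
    ∃ a b, g - bd a - (gcy F X q).T 1 b ∈ CC F (W' ∩ O) := by
  have : NeZero q := ⟨(Fact.out : q.Prime).ne_zero⟩
  obtain ⟨U, hU, hd, he, hc⟩ := exists_cover (q := q) lam hl
  generalize κ * q = m at hc hR
  let A : ℕ → Submodule F (Ch F (ZMod q → X)) := fun i => CC F (W' ∩ ⋃ c, U i c)
  have hA : ∀ i, (gcy F X q).St (A i) := fun i => by
    refine gc_st shf_per (hW.inter_inter fun f hf => ?_)
    obtain ⟨c, hc⟩ := mem_iUnion.1 hf
    rw [← he i c] at hc
    exact mem_iUnion.2 ⟨c + 1, hc⟩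
  have hB : (gcy F X q).St (CC F (W' ∩ O)) := gc_st shf_per (hW.inter_inter hOi)
  let V : ℕ → Set (ZMod q → X) := fun j => if j < m then ⋃ c, U j c else O
  have V1 : ∀ j < m, V j = ⋃ c, U j c := fun j hj => if_pos hj
  have V2 : ∀ j, ¬ j < m → V j = O := fun j hj => if_neg hj
  have hV : ∀ j, IsOpen (V j) := fun j => by
    by_cases hj : j < m
    · rw [V1 j hj]; exact isOpen_iUnion (hU j)
    · rw [V2 j hj]; exact hO
  have hcov : W' ⊆ ⋃ j, V j := fun f hf => by
    by_cases h0 : ∃ v, f = fun _ => v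
    · obtain ⟨v, rfl⟩ := h0
      exact mem_iUnion.2 ⟨m, by rw [V2 m (lt_irrefl m)]; exact hfix v hf⟩
    · obtain ⟨i, hi, c, h1⟩ := hc f fun v hv => h0 ⟨v, hv⟩
      exact mem_iUnion.2 ⟨i, by rw [V1 i hi]; exact mem_iUnion.2 ⟨c, h1⟩⟩
  have hS : (⨆ j, CC F (W' ∩ V j)) = (⨆ j < m, A j) ⊔ CC F (W' ∩ O) := by
    refine le_antisymm (iSup_le fun j => ?_) (sup_le (iSup₂_le fun j hj => ?_) ?_)
    · by_cases hj : j < m
      · rw [V1 j hj]
        exact le_sup_of_le_left (le_iSup₂_of_le (f := fun j (_ : j < m) => A j) j hj le_rfl)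
      · rw [V2 j hj]
        exact le_sup_right
    · refine le_iSup_of_le j ?_
      rw [V1 j hj]
    · refine le_iSup_of_le m ?_
      rw [V2 m (lt_irrefl m)]
  have hq := QI_small (F := F) hV (subset_univ W') hcov
  rw [hS, CC_univ] at hq
  have hT : (gcy F X q).St ⊤ := ⟨fun _ _ => trivial, fun _ _ => trivial⟩
  have hle : (⨆ j < m, A j) ⊔ CC F (W' ∩ O) ≤ CC F W' :=
    sup_le (iSup₂_le fun j _ => CC_mono inter_subset_left) (CC_mono inter_subset_left)
  have hE : EqMap (gcy F X q) (gcy F X q) LinearMap.id ⊤ ((⨆ j < m, A j) ⊔ CC F (W' ∩ O)) ⊤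
      (CC F W') := ⟨fun _ _ => rfl, fun _ _ => rfl, fun _ _ => trivial, fun c hc => hle hc⟩
  have hn : (gcy F X q).Nul ⊤ ((⨆ j < m, A j) ⊔ CC F (W' ∩ O)) R (sq 0 g) :=
    GC.Nul.reflect hE hq hT ((GC.zg2_St m A hA).sup hB) hT (gc_st shf_per hW) le_top le_top
      (GC.seq_sq Submodule.mem_top (Submodule.mem_sup_right hg) hs 0 R) h
  refine zd5_alg (gcy F X q) m A hA hB (fun i _ => ?_) hs (hn.mono le_rfl le_rfl hR)
  refine ind_cover shf_per (hU i) (hd i) (he i) hW fun c hc => ?_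
  have key : (⨆ j < i, A j) ⊔ CC F (W' ∩ O) ≤
      ((⨆ j < i, A j) ⊔ CC F (W' ∩ O)).comap (prj (U i 0)) := by
    refine sup_le (iSup₂_le fun j hj d hd => ?_) fun d hd => ?_
    · exact Submodule.mem_sup_left ((le_iSup₂_of_le (f := fun j (_ : j < i) => A j) j hj le_rfl :
        A j ≤ ⨆ j < i, A j) (zd5_keep _ hd))
    · exact Submodule.mem_sup_right (zd5_keep _ hd)
  exact key hc

end Pool.Agent.Fu
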