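import Mathlib
import Pool.Agent.P.MP_365c00_gt.ZD2
import Pool.Agent.P.MP_365c00_gt.ZD5

/-! Localisation in a vector space. -/

set_option linter.unusedSectionVars false
set_option linter.unusedVariables false

open Set Topology

namespace Pool.Agent.Fu

variable {F : Type} [Field F] {X Y : Type} [TopologicalSpace X] [TopologicalSpace Y] {q : ℕ}

variable {V E : Type} [NormedAddCommGroup V] [NormedSpace ℝ V] [FiniteDimensional ℝ V]
  [NormedAddCommGroup E] [NormedSpace ℝ E] [FiniteDimensional ℝ E]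

/-- tuples that are not constant or have a nonzero second component -/
def WV (V E : Type) [Zero E] (q : ℕ) : Set (ZMod q → V × E) :=
  {f | (∃ c, (f c).2 ≠ 0) ∨ ∃ c c', (f c).1 ≠ (f c').1}

theorem WV_open [NeZero q] : IsOpen (WV V E q) := by
  have e : WV V E q = (⋃ c, {f | (f c).2 ≠ 0}) ∪ ⋃ c, ⋃ c', {f | (f c).1 ≠ (f c').1} := by
    ext f
    simp only [WV, mem_ofPred_eq, mem_union, mem_iUnion]
  rw [e]
  exact (isOpen_iUnion fun c => isOpen_ne_fun (by fun_prop) continuous_const).union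
    (isOpen_iUnion fun c => isOpen_iUnion fun c' => isOpen_ne_fun (by fun_prop) (by fun_prop))

theorem zd6_inv : MapsTo (shf (V × E) q) {f : ZMod q → V × E | ∃ c, (f c).2 ≠ 0}
    {f : ZMod q → V × E | ∃ c, (f c).2 ≠ 0} := by
  rintro f ⟨c, hc⟩
  refine ⟨c + 1, ?_⟩
  show (f (c + 1 - 1)).2 ≠ 0
  rwa [add_sub_cancel_right]

theorem WV_inv : MapsTo (shf (V × E) q) (WV V E q) (WV V E q) := by
  rintro f (h | ⟨c, c', h⟩)
  · exact Or.inl (zd6_inv h)
  · refine Or.inr ⟨c + 1, c' + 1, ?_⟩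
    show (f (c + 1 - 1)).1 ≠ (f (c' + 1 - 1)).1
    rwa [add_sub_cancel_right, add_sub_cancel_right]

theorem zd6_ZZ (f : C(X, Y)) {B : Set X} {B' : Set Y} (hB : MapsTo f B B') {c : Ch F X}
    (h : c ∈ ZZ F univ B) : map f c ∈ ZZ F univ B' :=
  mem_ZZ.2 ⟨mem_CC_univ _, by rw [bd_map]; exact map_mem_CC hB h.2⟩

theorem zd6_NN (f : C(X, Y)) {B : Set X} {B' : Set Y} (hB : MapsTo f B B') {c : Ch F X}
    (h : c ∈ NN F univ B) : map f c ∈ NN F univ B' := by
  obtain ⟨a, -, ha⟩ := mem_NN.1 h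
  refine mem_NN.2 ⟨map f a, mem_CC_univ _, ?_⟩
  rw [bd_map, ← map_sub]
  exact map_mem_CC hB ha

variable (V E q) in
/-- the second components -/
def zd6_p : C(ZMod q → V × E, ZMod q → E) :=
  ⟨fun x c => (ContinuousMap.snd : C(V × E, E)) (x c), by fun_prop⟩

variable (V E q) in
/-- the section with first components zero -/
def zd6_s : C(ZMod q → E, ZMod q → V × E) := ⟨fun e c => (0, e c), by fun_prop⟩

theorem zd6_htp {z : Ch F (ZMod q → V × E)}
    (hz : z ∈ ZZ F univ {f : ZMod q → V × E | ∃ c, (f c).2 ≠ 0}) :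
    map (zd6_s q V E) (map (zd6_p q V E) z) - z ∈
      NN F univ {f : ZMod q → V × E | ∃ c, (f c).2 ≠ 0} := by
  rw [map_map, ← mp_coe]
  refine htp_id_NN (H := fun w c => ((1 - w.1) • (w.2 c).1, (w.2 c).2))
    (Continuous.continuousOn (by fun_prop)) (mapsTo_univ _ _) (fun w hw => hw.2.2)
    (fun x _ => ?_) (fun x _ => ?_) hz
  · funext c
    simp
  · funext c
    show _ = ((0 : V), (x c).2)
    simp

theorem zd6_g [NeZero q] {o : Ch F (V × E)} (ho : o ∈ ZZ F univ {z : V × E | z.2 ≠ 0}) :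
    (cpr q fun _ => o) ∈ ZZ F univ {f : ZMod q → V × E | ∃ c, (f c).2 ≠ 0} :=
  ZZ_mono (subset_univ _) (fun _ h => h.2) (cpr_ZZ (b := fun _ => o) fun _ _ => ho)

theorem loc_hom [NeZero q] (h2 : (2 : F) ≠ 0) {k : ℕ} {o : Ch F (V × E)}
    (ho : o ∈ ZZ F univ {z : V × E | z.2 ≠ 0}) (hd : o ∈ HD F _ k)
    (hg : Gen F k univ 0 (map ContinuousMap.snd o)) {z : Ch F (ZMod q → V × E)}
    (hz : z ∈ ZZ F univ {f : ZMod q → V × E | ∃ c, (f c).2 ≠ 0}) :
    ∃ r : F, z - r • (cpr q fun _ => o) ∈ NN F univ {f : ZMod q → V × E | ∃ c, (f c).2 ≠ 0} := by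
  have h1 : map (zd6_p q V E) z ∈ ZZ F univ (univ \ {fun _ : ZMod q => (0 : E)}) :=
    by
      refine zd6_ZZ _ ?_ hz
      rintro f ⟨c, hc⟩
      exact ⟨trivial, fun h => hc (congrFun h c)⟩
  obtain ⟨r, hr⟩ := (Gen.cpr (q := q) h2 hg).span _ h1
  have e : (cpr q fun _ => map (ContinuousMap.snd : C(V × E, E)) o) =
      map (zd6_p q V E) (cpr q fun _ => o) := (cpr_map ContinuousMap.snd fun _ => o).symm
  rw [e] at hr
  have h3 := zd6_NN (zd6_s q V E) (B' := {f : ZMod q → V × E | ∃ c, (f c).2 ≠ 0})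
    (fun f hf => not_forall.1 fun h => hf.2 (funext h)) hr
  rw [map_sub, map_smul] at h3
  refine ⟨r, zg1_of_eq (add_mem (sub_mem h3 (zd6_htp hz))
    (Submodule.smul_mem _ r (zd6_htp (zd6_g ho)))) ?_⟩
  rw [smul_sub]
  abel

variable (X q) in
/-- the diagonal -/
def zd6_d : C(X, ZMod q → X) := ⟨fun v _ => v, by fun_prop⟩

variable (V E q) in
/-- the mean of the second components -/
noncomputable def zd6_m [NeZero q] : C(ZMod q → V × E, E) :=
  ⟨fun f => (q : ℝ)⁻¹ • ∑ c, (f c).2, by fun_prop⟩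

theorem zd6_sum [NeZero q] (f : ZMod q → V × E) :
    ∑ c, (shf (V × E) q f c).2 = ∑ c, (f c).2 :=
  Equiv.sum_comp (Equiv.subRight (1 : ZMod q)) fun c => (f c).2

theorem zd6_const [NeZero q] (v : E) : ∑ _c : ZMod q, v = (q : ℝ) • v := by
  rw [Finset.sum_const, Finset.card_univ, ZMod.card, Nat.cast_smul_eq_nsmul]

theorem zd6_T [NeZero q] [CharP F q] (b : Ch F (ZMod q → V × E)) :
    map (zd6_m q V E) ((gcy F (V × E) q).T 1 b) = 0 := by
  have e : (zd6_m q V E).comp (shf (V × E) q) = zd6_m q V E :=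
    ContinuousMap.ext fun f => congrArg ((q : ℝ)⁻¹ • ·) (zd6_sum f)
  have h1 : ∀ i : ℕ, map (zd6_m q V E) (((gcy F (V × E) q).s ^ i) b) = map (zd6_m q V E) b := by
    intro i
    induction i with
    | zero => rfl
    | succ i ih =>
      rw [pow_succ', Module.End.mul_apply, ← ih]
      exact (map_map _ _ _).trans (by rw [e])
  rw [zg1_odd _ Nat.not_even_one, map_sum, Finset.sum_congr rfl fun i _ => h1 i, Finset.sum_const,
    Finset.card_range, ← Nat.cast_smul_eq_nsmul F, CharP.cast_eq_zero, zero_smul]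

theorem loc_false [Fact q.Prime] [CharP F q] (h2 : (2 : F) ≠ 0) {k : ℕ} (hk : Even k)
    {o : Ch F (V × E)} (ho : o ∈ ZZ F univ {z : V × E | z.2 ≠ 0}) (hd : o ∈ HD F _ k)
    (hg : Gen F k univ 0 (map ContinuousMap.snd o)) {R : ℕ}
    (hR : Module.finrank ℝ (V × E) * q ≤ R) :
    ¬ (gcy F (V × E) q).Nul ⊤ (CC F (WV V E q)) R (sq 0 (cpr q fun _ => o)) := by
  intro h
  have hq : q ≠ 0 := (Fact.out : q.Prime).ne_zero
  have hq' : (q : ℝ) ≠ 0 := Nat.cast_ne_zero.2 hq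
  have hm : Even (k * (q - 1)) := hk.mul_right _
  have hs : map (shf (V × E) q) (map (zd6_d (V × E) q) o) = map (zd6_d (V × E) q) o :=
    map_map _ _ _
  have hO : ∀ v : V × E, v.2 ≠ 0 → ∑ _c : ZMod q, v.2 ≠ 0 := fun v hv => by
    rw [zd6_const]
    exact smul_ne_zero hq' hv
  have hx : bd (map (zd6_d (V × E) q) o) ∈ CC F ({f : ZMod q → V × E | ∃ c, (f c).2 ≠ 0} ∩
      {f | ∑ c, (f c).2 ≠ 0}) := by
    rw [bd_map]
    refine map_mem_CC ?_ ho.2
    exact fun v hv => ⟨⟨0, hv⟩, hO v hv⟩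
  have hgH : (cpr q fun _ => o) ∈ HD F _ (k + k * (q - 1)) := by
    have e : k + k * (q - 1) = q * k := by
      obtain ⟨n, rfl⟩ := Nat.exists_eq_succ_of_ne_zero hq
      rw [Nat.succ_sub_one, Nat.succ_mul]
      ring
    rw [e]
    exact cpr_HD (b := fun _ => o) fun _ _ => hd
  obtain ⟨r, hr⟩ := GC.nul_sub_sq (G := gcy F (V × E) q) (A := ⊤)
    (B := CC F {f : ZMod q → V × E | ∃ c, (f c).2 ≠ 0}) (gc_gr _)
    ⟨fun _ _ => trivial, fun _ _ => trivial⟩ (gc_st _ zd6_inv) (D := k) (R := R) hm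
    (GC.seq_sq Submodule.mem_top (CC_mono inter_subset_left hx) hs 0 R)
    (fun j _ => by
      unfold sq
      split_ifs with hj
      · rw [hj]
        exact map_mem_HD _ hd
      · exact zero_mem _)
    (g := cpr q fun _ => o) trivial hgH (zd6_g ho).2 (cpr_fix hd hk)
    (fun j _ hj c _ hc hb => by
      obtain ⟨r, hr⟩ := loc_hom h2 ho hd hg (mem_ZZ.2 ⟨mem_CC_univ c, hb⟩)
      have h1 := dg_mem_NN (k + j) hr
      rw [map_sub, map_smul, mem_HD.1 hc, dg_of_ne hgH (by omega), smul_zero, sub_zero] at h1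
      obtain ⟨a, -, a1, a2⟩ := NN_HD hc h1
      exact ⟨a, trivial, a1, a2⟩)
    (fun c _ hc hb => by
      obtain ⟨r, hr⟩ := loc_hom h2 ho hd hg (mem_ZZ.2 ⟨mem_CC_univ c, hb⟩)
      obtain ⟨a, -, a1, a2⟩ := NN_HD (sub_mem hc (Submodule.smul_mem _ r hgH)) hr
      exact ⟨r, a, trivial, a1, a2⟩)
  have hW : {f : ZMod q → V × E | ∃ c, (f c).2 ≠ 0} ⊆ WV V E q := fun f hf => Or.inl hf
  have h3 : (gcy F (V × E) q).Nul ⊤ (CC F (WV V E q)) R (sq 0 (map (zd6_d (V × E) q) o)) :=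
    ((hr.mono le_rfl (CC_mono hW) le_rfl).add
      (((h.shift hm).mono le_rfl le_rfl (Nat.le_add_right _ _)).smul r)).congr fun j _ => by
        rw [sub_add_cancel, sub_self]
        exact zero_mem _
  obtain ⟨a, b, hab⟩ := free_nil (X := V × E) (O := {f | ∑ c, (f c).2 ≠ 0})
    (fun i => ⟨(Module.finBasis ℝ (V × E)).coord i, LinearMap.continuous_of_finiteDimensional _⟩)
    (fun v v' hv => (Module.finBasis ℝ (V × E)).ext_elem hv) WV_inv
    (isOpen_ne_fun (by fun_prop) continuous_const)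
    (fun f hf => by
      show ∑ c, (shf (V × E) q f c).2 ≠ 0
      rw [zd6_sum]
      exact hf)
    (fun v hv => by
      rcases hv with ⟨c, hc⟩ | ⟨c, c', hc⟩
      exacts [hO v hc, absurd rfl hc])
    (CC_mono (inter_subset_inter_left _ hW) hx) hs hR h3
  have e : (zd6_m q V E).comp (zd6_d (V × E) q) = ContinuousMap.snd :=
    ContinuousMap.ext fun v => by
      show (q : ℝ)⁻¹ • ∑ _c : ZMod q, v.2 = v.2
      rw [zd6_const, smul_smul, inv_mul_cancel₀ hq', one_smul]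
  have h4 := map_mem_CC (f := zd6_m q V E) (B := univ \ {0})
    (fun f hf => ⟨trivial, smul_ne_zero (inv_ne_zero hq') hf.2⟩) hab
  rw [map_sub, map_sub, zd6_T, sub_zero, map_map, e, ← bd_map] at h4
  exact hg.ne (mem_NN.2 ⟨_, mem_CC_univ _, h4⟩)

end Pool.Agent.Fu
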