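import Mathlib
import Pool.Agent.P.MP_365c00_gt.ZE0

/-! Sets that are homeomorphic to open subsets of Euclidean space; colourings. -/

set_option linter.unusedSectionVars false
set_option linter.unusedVariables false

open Set Topology unitInterval TensorProduct

namespace Pool.Agent.Fu

variable {F : Type} [Field F] {X Y Z : Type} [TopologicalSpace X] [TopologicalSpace Y]
  [TopologicalSpace Z]

variable {e e' : ℕ} {A : Set X} {B : Set Y}

theorem euc_of_ZE3 {E : Type} [NormedAddCommGroup E] [NormedSpace ℝ E] [FiniteDimensional ℝ E]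
    (hE : Module.finrank ℝ E = e) (φ : X → E) (ψ : E → X) (V : Set E) (hV : IsOpen V)
    (hφ : ContinuousOn φ A) (hψ : ContinuousOn ψ V) (h1 : MapsTo φ A V) (h2 : MapsTo ψ V A)
    (h3 : ∀ x ∈ A, ψ (φ x) = x) (h4 : ∀ v ∈ V, φ (ψ v) = v) : Euc e A := by
  have hr : Module.finrank ℝ E = Module.finrank ℝ (Fin e → ℝ) := by
    rw [hE, Module.finrank_fin_fun]
  let η : E ≃L[ℝ] (Fin e → ℝ) := ContinuousLinearEquiv.ofFinrankEq hr
  refine ⟨η ∘ φ, ψ ∘ η.symm, η.symm ⁻¹' V, hV.preimage η.symm.continuous,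
    η.continuous.comp_continuousOn hφ,
    hψ.comp η.symm.continuous.continuousOn fun v hv => hv, fun x hx => ?_, fun v hv => h2 hv,
    fun x hx => ?_, fun v hv => ?_⟩
  · show η.symm (η (φ x)) ∈ V
    rw [η.symm_apply_apply]
    exact h1 hx
  · show ψ (η.symm (η (φ x))) = x
    rw [η.symm_apply_apply]
    exact h3 x hx
  · show η (φ (ψ (η.symm v))) = v
    rw [h4 _ hv, η.apply_symm_apply]

theorem euc_univ (e : ℕ) : Euc e (univ : Set (Fin e → ℝ)) :=
  ⟨id, id, univ, isOpen_univ, continuousOn_id, continuousOn_id, mapsTo_univ _ _, mapsTo_univ _ _,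
    fun _ _ => rfl, fun _ _ => rfl⟩
theorem euc_point (x : X) : Euc 0 ({x} : Set X) :=
  ⟨fun _ => 0, fun _ => x, univ, isOpen_univ, continuousOn_const, continuousOn_const,
    mapsTo_univ _ _, fun _ _ => rfl, fun _ hy => (mem_singleton_iff.1 hy).symm,
    fun _ _ => Subsingleton.elim _ _⟩
theorem Euc.inter (h : Euc e A) {U : Set X} (hU : IsOpen U) : Euc e (A ∩ U) := by
  obtain ⟨φ, ψ, V, hV, hφ, hψ, h1, h2, h3, h4⟩ := h
  refine ⟨φ, ψ, V ∩ ψ ⁻¹' U, hψ.isOpen_inter_preimage hV hU, hφ.mono inter_subset_left,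
    hψ.mono inter_subset_left, fun x hx => ⟨h1 hx.1, ?_⟩, fun v hv => ⟨h2 hv.1, hv.2⟩,
    fun x hx => h3 x hx.1, fun v hv => h4 v hv.1⟩
  show ψ (φ x) ∈ U
  rw [h3 x hx.1]
  exact hx.2
theorem Euc.equiv (h : Euc e A) {φ : X → Y} {ψ : Y → X} (hφ : ContinuousOn φ A)
    (hψ : ContinuousOn ψ B) (h1 : MapsTo φ A B) (h2 : MapsTo ψ B A) (h3 : ∀ x ∈ A, ψ (φ x) = x)
    (h4 : ∀ y ∈ B, φ (ψ y) = y) : Euc e B := by
  obtain ⟨φ0, ψ0, V, hV, hφ0, hψ0, k1, k2, k3, k4⟩ := h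
  refine ⟨φ0 ∘ ψ, φ ∘ ψ0, V, hV, hφ0.comp hψ h2, hφ.comp hψ0 k2, k1.comp h2, h1.comp k2,
    fun y hy => ?_, fun v hv => ?_⟩
  · show φ (ψ0 (φ0 (ψ y))) = y
    rw [k3 _ (h2 hy), h4 y hy]
  · show φ0 (ψ (φ (ψ0 v))) = v
    rw [h3 _ (k2 hv), k4 v hv]
theorem Euc.prod (h : Euc e A) (h' : Euc e' B) : Euc (e + e') (A ×ˢ B) := by
  obtain ⟨φ, ψ, V, hV, hφ, hψ, h1, h2, h3, h4⟩ := h
  obtain ⟨φ', ψ', V', hV', hφ', hψ', k1, k2, k3, k4⟩ := h'
  refine euc_of_ZE3 (E := (Fin e → ℝ) × (Fin e' → ℝ)) (by simp) (Prod.map φ φ') (Prod.map ψ ψ')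
    (V ×ˢ V') (hV.prod hV') (hφ.prodMap hφ') (hψ.prodMap hψ') (h1.prodMap k1) (h2.prodMap k2)
    (fun x hx => ?_) (fun v hv => ?_)
  · exact Prod.ext (h3 _ hx.1) (k3 _ hx.2)
  · exact Prod.ext (h4 _ hv.1) (k4 _ hv.2)
theorem Euc.pi (h : Euc e A) (ι : Type) [Fintype ι] :
    Euc (Fintype.card ι * e) (Set.pi univ fun _ : ι => A) := by
  obtain ⟨φ, ψ, V, hV, hφ, hψ, h1, h2, h3, h4⟩ := h
  refine euc_of_ZE3 (E := ι → Fin e → ℝ) (by simp [Module.finrank_pi_fintype])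
    (fun x i => φ (x i)) (fun v i => ψ (v i)) (Set.pi univ fun _ : ι => V)
    (isOpen_set_pi finite_univ fun _ _ => hV) (continuousOn_pi.2 fun i => ?_)
    (continuousOn_pi.2 fun i => ?_) (fun x hx i hi => h1 (hx i hi)) (fun v hv i hi => h2 (hv i hi))
    (fun x hx => funext fun i => h3 _ (hx i (mem_univ i)))
    (fun v hv => funext fun i => h4 _ (hv i (mem_univ i)))
  · exact hφ.comp (continuous_apply i).continuousOn fun x hx => hx i (mem_univ i)
  · exact hψ.comp (continuous_apply i).continuousOn fun v hv => hv i (mem_univ i)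
/-- sequences with `n + 1` free terms -/
theorem Euc.seq (h : Euc e A) (n : ℕ) (x0 : X) :
    Euc ((n + 1) * e) {y : ℕ → X | (∀ i ≤ n, y i ∈ A) ∧ ∀ i, n < i → y i = x0} := by
  have hp := h.pi (Fin (n + 1))
  rw [Fintype.card_fin] at hp
  refine hp.equiv (φ := fun x i => if hi : i < n + 1 then x ⟨i, hi⟩ else x0)
    (ψ := fun y i => y i.val) (Continuous.continuousOn (continuous_pi fun i => ?_))
    (Continuous.continuousOn (continuous_pi fun i => continuous_apply _))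
    (fun x hx => ⟨fun i hi => ?_, fun i hi => ?_⟩)
    (fun y hy i _ => hy.1 i.val (Nat.lt_succ_iff.1 i.2)) (fun x _ => funext fun i => ?_)
    (fun y hy => funext fun i => ?_)
  · by_cases hi : i < n + 1
    · simp only [dif_pos hi]
      exact continuous_apply _
    · simp only [dif_neg hi]
      exact continuous_const
  · have hi' : i < n + 1 := Nat.lt_succ_iff.2 hi
    simp only [dif_pos hi']
    exact hx _ (mem_univ _)
  · have hi' : ¬ i < n + 1 := by omega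
    simp only [dif_neg hi']
  · simp only [dif_pos i.2]
  · by_cases hi : i < n + 1
    · simp only [dif_pos hi]
    · simp only [dif_neg hi]
      exact (hy.2 i (by omega)).symm
theorem euc_radius {M : Type} [MetricSpace M] [CompactSpace M] {d : ℕ}
    (h : ∀ p : M, ∃ U : Set M, IsOpen U ∧ p ∈ U ∧ Euc d U) :
    ∃ r0 > 0, ∀ p : M, ∀ r ≤ r0, Euc d (Metric.ball p r) := by
  choose U hU hp hE using h
  obtain ⟨δ, hδ, hb⟩ := lebesgue_number_lemma_of_metric (s := (univ : Set M)) (c := U)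
    isCompact_univ hU fun p _ => mem_iUnion.2 ⟨p, hp p⟩
  refine ⟨δ, hδ, fun p r hr => ?_⟩
  obtain ⟨q, hq⟩ := hb p (mem_univ p)
  have e1 : U q ∩ Metric.ball p r = Metric.ball p r :=
    inter_eq_right.2 ((Metric.ball_subset_ball hr).trans hq)
  rw [← e1]
  exact (hE q).inter Metric.isOpen_ball

theorem elem_of_ZE3 {Sm : Set X → Prop} (h0 : Sm ∅) {κ : Type} (s : Finset κ) (Q : κ → Set X)
    (hQ : ∀ a ∈ s, IsCompact (Q a) ∧ Sm (Q a))
    (hd : ∀ a ∈ s, ∀ b ∈ s, a ≠ b → Disjoint (Q a) (Q b)) : Elem Sm (⋃ a ∈ s, Q a) := by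
  let ε := s.equivFin
  refine ⟨s.card, fun i => if hi : i < s.card then Q (ε.symm ⟨i, hi⟩) else ∅, fun i => ?_,
    fun i j hij => ?_, ?_⟩
  · by_cases hi : i < s.card
    · simp only [dif_pos hi]
      exact hQ _ (ε.symm ⟨i, hi⟩).2
    · simp only [dif_neg hi]
      exact ⟨isCompact_empty, h0⟩
  · by_cases hi : i < s.card
    · by_cases hj : j < s.card
      · simp only [dif_pos hi, dif_pos hj]
        refine hd _ (ε.symm ⟨i, hi⟩).2 _ (ε.symm ⟨j, hj⟩).2 fun hh => hij ?_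
        exact congrArg Fin.val (ε.symm.injective (Subtype.ext hh))
      · simp only [dif_neg hj]
        exact disjoint_empty _
    · simp only [dif_neg hi]
      exact empty_disjoint _
  · ext x
    simp only [mem_iUnion]
    constructor
    · rintro ⟨a, ha, hx⟩
      refine ⟨(ε ⟨a, ha⟩).val, (ε ⟨a, ha⟩).2, ?_⟩
      simp only [dif_pos (ε ⟨a, ha⟩).2, Fin.eta, Equiv.symm_apply_apply]
      exact hx
    · rintro ⟨i, hi, hx⟩
      simp only [dif_pos hi] at hx
      exact ⟨_, (ε.symm ⟨i, hi⟩).2, hx⟩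

theorem cov_of_ZE3 {Sm : Set X → Prop} (h0 : Sm ∅) {κ : Type} [Fintype κ] {J : ℕ}
    (hJ : Fintype.card κ = J) (K : κ → Set X) (hK : ∀ a, Elem Sm (K a)) :
    Cov Sm J (⋃ a, K a) := by
  let ε := Fintype.equivFinOfCardEq hJ
  refine ⟨fun i => if hi : i < J then K (ε.symm ⟨i, hi⟩) else ∅, fun i => ?_, ?_⟩
  · by_cases hi : i < J
    · simp only [dif_pos hi]
      exact hK _
    · simp only [dif_neg hi]
      exact ⟨0, fun _ => ∅, fun _ => ⟨isCompact_empty, h0⟩, fun _ _ _ => disjoint_empty _, by simp⟩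
  · ext x
    simp only [mem_iUnion]
    constructor
    · rintro ⟨a, hx⟩
      refine ⟨(ε a).val, (ε a).2, ?_⟩
      simp only [dif_pos (ε a).2, Fin.eta, Equiv.symm_apply_apply]
      exact hx
    · rintro ⟨i, hi, hx⟩
      simp only [dif_pos hi] at hx
      exact ⟨_, hx⟩

theorem Elem.sub [T2Space X] {Sm : Set X → Prop} (hS : ∀ K K', Sm K → K' ⊆ K → Sm K') {K L : Set X}
    (h : Elem Sm K) (hL : IsCompact L) (hLK : L ⊆ K) : Elem Sm L := by
  obtain ⟨n, P, hP, hd, rfl⟩ := h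
  refine ⟨n, fun i => P i ∩ L, fun i => ⟨(hP i).1.inter_right hL.isClosed,
    hS _ _ (hP i).2 inter_subset_left⟩,
    fun i j hij => (hd i j hij).mono inter_subset_left inter_subset_left, ?_⟩
  ext x
  simp only [mem_iUnion]
  constructor
  · intro hx
    obtain ⟨i, hi, hxi⟩ := mem_iUnion₂.1 (hLK hx)
    exact ⟨i, hi, hxi, hx⟩
  · rintro ⟨i, _, hx⟩
    exact hx.2
theorem Elem.compact {Sm : Set X → Prop} {K : Set X} (h : Elem Sm K) : IsCompact K := by
  obtain ⟨n, P, hP, _, rfl⟩ := h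
  exact (Set.finite_lt_nat n).isCompact_biUnion fun i _ => (hP i).1
/-- colouring by the parities of a grid -/
theorem exists_cov {M : Type} [MetricSpace M] [CompactSpace M] {N : ℕ} (ι : C(M, Fin N → ℝ))
    (hι : Function.Injective ι) {r : ℝ} (hr : 0 < r) :
    Cov (fun K : Set M => ∀ x ∈ K, ∀ y ∈ K, dist x y < r) (2 ^ N) univ := by
  classical
  have hD : IsCompact {p : M × M | r ≤ dist p.1 p.2} :=
    (isClosed_le continuous_const (continuous_fst.dist continuous_snd)).isCompact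
  obtain ⟨a, ha, hle⟩ := hD.exists_forall_le' (f := fun p : M × M => dist (ι p.1) (ι p.2))
    ((ι.continuous.comp continuous_fst).dist (ι.continuous.comp continuous_snd)).continuousOn
    (a := 0) fun p hp => dist_pos.2 fun hh => by
      have h1 : r ≤ dist p.1 p.2 := hp
      rw [hι hh, dist_self] at h1
      exact absurd hr (not_lt.2 h1)
  obtain ⟨ε, hε, hεa⟩ := exists_between ha
  obtain ⟨R, hR⟩ := (isCompact_range ι.continuous).isBounded.exists_norm_le
  let Q : (Fin N → ℤ) → Set M := fun m =>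
    {x | ∀ i, (m i : ℝ) * ε ≤ ι x i ∧ ι x i ≤ ((m i : ℝ) + 1) * ε}
  let s : Finset (Fin N → ℤ) := Fintype.piFinset fun _ => Finset.Icc ⌊-R / ε⌋ ⌊R / ε⌋
  let col : (Fin N → ℤ) → Fin N → Bool := fun m i => decide (m i % 2 = 0)
  have hc : ∀ i, Continuous fun x => ι x i := fun i => (continuous_apply i).comp ι.continuous
  have h0 : ∀ x ∈ (∅ : Set M), ∀ y ∈ (∅ : Set M), dist x y < r := fun x hx => hx.elim
  have hcov := cov_of_ZE3 (Sm := fun K : Set M => ∀ x ∈ K, ∀ y ∈ K, dist x y < r) h0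
    (κ := Fin N → Bool) (J := 2 ^ N) (by simp)
    (fun b => ⋃ m ∈ s.filter (fun m => col m = b), Q m) fun b => by
      refine elem_of_ZE3 (Sm := fun K : Set M => ∀ x ∈ K, ∀ y ∈ K, dist x y < r) h0 _ Q
        (fun m _ => ⟨?_, fun x hx y hy => ?_⟩) fun m hm m' hm' hne => ?_
      · refine IsClosed.isCompact ?_
        simp only [Q, ofPred_forall, ofPred_and]
        exact isClosed_iInter fun i =>
          (isClosed_le continuous_const (hc i)).inter (isClosed_le (hc i) continuous_const)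
      · by_contra hn
        have h1 := hle (x, y) (not_lt.1 hn)
        have h2 : dist (ι x) (ι y) ≤ ε := by
          refine (dist_pi_le_iff hε.le).2 fun i => ?_
          have e1 := hx i
          have e2 := hy i
          rw [Real.dist_eq, abs_le]
          constructor <;> linarith [e1.1, e1.2, e2.1, e2.2]
        exact absurd (h1.trans h2) (not_le.2 hεa)
      · obtain ⟨i, hi⟩ := Function.ne_iff.1 hne
        have e0 : col m i = col m' i := by
          rw [(Finset.mem_filter.1 hm).2, (Finset.mem_filter.1 hm').2]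
        have e1 : m i % 2 = 0 ↔ m' i % 2 = 0 := decide_eq_decide.1 e0
        have e2 : m i + 2 ≤ m' i ∨ m' i + 2 ≤ m i := by omega
        refine disjoint_left.2 fun x hx hx' => ?_
        have f1 := hx i
        have f2 := hx' i
        rcases e2 with e2 | e2
        · have e3 : (m i : ℝ) + 2 ≤ (m' i : ℝ) := by exact_mod_cast e2
          nlinarith [f1.2, f2.1]
        · have e3 : (m' i : ℝ) + 2 ≤ (m i : ℝ) := by exact_mod_cast e2
          nlinarith [f1.1, f2.2]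
  have hu : (⋃ b : Fin N → Bool, ⋃ m ∈ s.filter (fun m => col m = b), Q m) = univ := by
    refine eq_univ_of_forall fun x => ?_
    refine mem_iUnion.2 ⟨col fun i => ⌊ι x i / ε⌋, mem_iUnion₂.2 ⟨fun i => ⌊ι x i / ε⌋,
      Finset.mem_filter.2 ⟨Fintype.mem_piFinset.2 fun i => ?_, rfl⟩, fun i => ⟨?_, ?_⟩⟩⟩
    · have h1 : |ι x i| ≤ R := (norm_le_pi_norm (ι x) i).trans (hR _ (mem_range_self x))
      rw [abs_le] at h1
      exact Finset.mem_Icc.2 ⟨Int.floor_mono (div_le_div_of_nonneg_right h1.1 hε.le),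
        Int.floor_mono (div_le_div_of_nonneg_right h1.2 hε.le)⟩
    · exact (le_div_iff₀ hε).1 (Int.floor_le _)
    · exact (div_le_iff₀ hε).1 (Int.lt_floor_add_one _).le
  rwa [hu] at hcov
theorem Cov.prod {S : Set X → Prop} {T : Set Y → Prop} {J J' : ℕ} (h : Cov S J univ)
    (h' : Cov T J' univ) :
    Cov (fun K : Set (X × Y) => ∃ P Q, S P ∧ T Q ∧ K ⊆ P ×ˢ Q) (J * J') univ := by
  obtain ⟨K, hK, hu⟩ := h
  obtain ⟨K', hK', hu'⟩ := h'
  have h0 : ∃ P Q, S P ∧ T Q ∧ (∅ : Set (X × Y)) ⊆ P ×ˢ Q := by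
    obtain ⟨_, P, hP, _⟩ := hK 0
    obtain ⟨_, Q, hQ, _⟩ := hK' 0
    exact ⟨P 0, Q 0, (hP 0).2, (hQ 0).2, empty_subset _⟩
  have hcov := cov_of_ZE3 (Sm := fun K : Set (X × Y) => ∃ P Q, S P ∧ T Q ∧ K ⊆ P ×ˢ Q) h0
    (κ := Fin J × Fin J') (J := J * J') (by simp)
    (fun a => K a.1.val ×ˢ K' a.2.val) fun a => by
      obtain ⟨n, P, hP, hd, e1⟩ := hK a.1.val
      obtain ⟨n', Q, hQ, hd', e2⟩ := hK' a.2.val
      have he := elem_of_ZE3 (Sm := fun K : Set (X × Y) => ∃ P Q, S P ∧ T Q ∧ K ⊆ P ×ˢ Q) h0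
        (Finset.range n ×ˢ Finset.range n') (fun b => P b.1 ×ˢ Q b.2)
        (fun b _ => ⟨(hP b.1).1.prod (hQ b.2).1, P b.1, Q b.2, (hP b.1).2, (hQ b.2).2, Subset.rfl⟩)
        fun b _ b' _ hne => by
          refine disjoint_left.2 fun x hx hx' => hne (Prod.ext ?_ ?_)
          · by_contra hn
            exact disjoint_left.1 (hd _ _ hn) hx.1 hx'.1
          · by_contra hn
            exact disjoint_left.1 (hd' _ _ hn) hx.2 hx'.2
      have e3 : (⋃ b ∈ Finset.range n ×ˢ Finset.range n', P b.1 ×ˢ Q b.2) =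
          K a.1.val ×ˢ K' a.2.val := by
        rw [e1, e2]
        ext x
        simp only [mem_iUnion, mem_prod, Finset.mem_product, Finset.mem_range]
        constructor
        · rintro ⟨b, hb, hx⟩
          exact ⟨⟨b.1, hb.1, hx.1⟩, b.2, hb.2, hx.2⟩
        · rintro ⟨⟨i, hi, hx⟩, j, hj, hy⟩
          exact ⟨(i, j), ⟨hi, hj⟩, hx, hy⟩
      rwa [e3] at he
  have e4 : (⋃ a : Fin J × Fin J', K a.1.val ×ˢ K' a.2.val) = univ := by
    refine eq_univ_of_forall fun x => ?_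
    obtain ⟨i, hi, hx⟩ := mem_iUnion₂.1 (hu ▸ mem_univ x.1 : x.1 ∈ ⋃ j < J, K j)
    obtain ⟨j, hj, hy⟩ := mem_iUnion₂.1 (hu' ▸ mem_univ x.2 : x.2 ∈ ⋃ j < J', K' j)
    exact mem_iUnion.2 ⟨(⟨i, hi⟩, ⟨j, hj⟩), hx, hy⟩
  rwa [e4] at hcov
theorem Cov.pull [T2Space Y] {T : Set Y → Prop} {J : ℕ} (h : Cov T J univ) (π : C(X, Y)) {C : Set X}
    (hC : IsCompact C) : Cov (fun K : Set X => K ⊆ C ∧ ∃ Q, T Q ∧ MapsTo π K Q) J C := by
  obtain ⟨K, hK, hu⟩ := h
  refine ⟨fun j => C ∩ π ⁻¹' K j, fun j => ?_, ?_⟩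
  · obtain ⟨n, P, hP, hd, e1⟩ := hK j
    refine ⟨n, fun i => C ∩ π ⁻¹' P i, fun i => ⟨hC.inter_right
      ((hP i).1.isClosed.preimage π.continuous), inter_subset_left, P i, (hP i).2,
      fun x hx => hx.2⟩, fun i k hik => disjoint_left.2 fun x hx hx' =>
        disjoint_left.1 (hd i k hik) hx.2 hx'.2, ?_⟩
    ext x
    simp only [e1, mem_iUnion, mem_inter_iff, mem_preimage]
    constructor
    · rintro ⟨hx, i, hi, hxi⟩
      exact ⟨i, hi, hx, hxi⟩
    · rintro ⟨i, hi, hx, hxi⟩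
      exact ⟨hx, i, hi, hxi⟩
  · ext x
    simp only [mem_iUnion, mem_inter_iff, mem_preimage]
    constructor
    · intro hx
      obtain ⟨j, hj, hy⟩ := mem_iUnion₂.1 (hu ▸ mem_univ (π x) : π x ∈ ⋃ j < J, K j)
      exact ⟨j, hj, hx, hy⟩
    · rintro ⟨_, _, hx, _⟩
      exact hx

end Pool.Agent.Fu
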