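import Mathlib
import Pool.Agent.P.MP_365c00_gt.ZE3

/-! From local to global over a coloured compact set. -/

set_option linter.unusedSectionVars false
set_option linter.unusedVariables false

open Set Topology unitInterval TensorProduct

namespace Pool.Agent.Fu

variable {F : Type} [Field F] {X Y Z : Type} [TopologicalSpace X] [TopologicalSpace Y]
  [TopologicalSpace Z]

/-- the part of `A` that does not lie over `K` -/
def off (A : Set X) (ξ : X → Y) (K : Set Y) : Set X := A ∩ ξ ⁻¹' Kᶜ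

variable [T2Space Y] {A : ℝ → Set X} {ξ : C(X, Y)} {Sm : Set Y → Prop} {Mc : Y → Submodule F (Ch F X)}
  {k J : ℕ} {t β : ℝ} {C : Set Y}

/-- relative cycles of degree `k` and level `t` over small sets that lie in the given submodules
are null at the level `t'` -/
def LocN (F : Type) [Field F] (A : ℝ → Set X) (ξ : X → Y) (Sm : Set Y → Prop)
    (Mc : Y → Submodule F (Ch F X)) (k : ℕ) (t t' : ℝ) : Prop :=
  ∀ K, IsCompact K → Sm K → ∀ z ∈ ZZ F (A t) (off (A t) ξ K), z ∈ HD F X k → (∀ c ∈ K, z ∈ Mc c) →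
    z ∈ NN F (A t') (off (A t') ξ K)

theorem zl1_mono {A0 A1 : Set X} (h : A0 ⊆ A1) {K L : Set Y} (h' : L ⊆ K) :
    off A0 ξ K ⊆ off A1 ξ L := fun _ hx => ⟨h hx.1, fun hy => hx.2 (h' hy)⟩

theorem zl1_inter (A0 : Set X) (K L : Set Y) :
    off A0 ξ (K ∩ L) = A0 ∩ (ξ ⁻¹' Kᶜ ∪ ξ ⁻¹' Lᶜ) := by
  rw [off, compl_inter, preimage_union]

theorem zl1_union {A0 : Set X} {K L : Set Y} {c : Ch F X} (h1 : c ∈ CC F (off A0 ξ K))
    (h2 : c ∈ CC F (off A0 ξ L)) : c ∈ CC F (off A0 ξ (K ∪ L)) := by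
  have h : c ∈ CC F (off A0 ξ K ∩ off A0 ξ L) := by
    rw [CC_inter]
    exact ⟨h1, h2⟩
  refine CC_mono ?_ h
  exact fun x hx => ⟨hx.1.1, fun hy => hy.elim hx.1.2 hx.2.2⟩

theorem zl1_empty {A0 A1 : Set X} (h : A0 ⊆ A1) {K : Set Y} (hK : K = ∅) {c : Ch F X}
    (hc : c ∈ CC F A0) : c ∈ NN F A1 (off A1 ξ K) := by
  refine CC_le_NN _ _ (CC_mono ?_ hc)
  exact fun x hx => ⟨h hx, by simp [hK]⟩

theorem zl1_open {K : Set Y} (hK : IsCompact K) : IsOpen (ξ ⁻¹' Kᶜ) :=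
  hK.isClosed.isOpen_compl.preimage ξ.continuous

theorem zl1_disj {P : ℕ → Set Y} (h : ∀ i j, i ≠ j → Disjoint (P i) (P j)) (n : ℕ) :
    (⋃ i < n, P i) ∩ P n = ∅ := by
  refine eq_empty_of_forall_notMem fun y hy => ?_
  obtain ⟨i, hi, h1⟩ := mem_iUnion₂.1 hy.1
  exact disjoint_left.1 (h i n hi.ne) h1 hy.2

theorem zl1_compact {P : ℕ → Set Y} (h : ∀ i, IsCompact (P i)) (n : ℕ) :
    IsCompact (⋃ i < n, P i) := (finite_lt_nat n).isCompact_biUnion fun i _ => h i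

theorem zl1_sub (P : ℕ → Set Y) {i n : ℕ} (h : i ≤ n) : (⋃ j < i, P j) ⊆ ⋃ j < n, P j :=
  biUnion_subset_biUnion_left fun _ hj => lt_of_lt_of_le hj h

/-- the Mayer-Vietoris step for null chains -/
theorem gl_step {A0 A1 : Set X} (h01 : A0 ⊆ A1) {K L : Set Y} (hK : IsCompact K) (hL : IsCompact L)
    {z : Ch F X} (hz : z ∈ HD F X k) (h1 : z ∈ NN F A0 (off A0 ξ K)) (h2 : z ∈ NN F A0 (off A0 ξ L))
    (h3 : ∀ m ∈ ZZ F A0 (off A0 ξ (K ∩ L)), m ∈ HD F X (k + 1) → m ∈ NN F A1 (off A1 ξ (K ∩ L))) :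
    z ∈ NN F A1 (off A1 ξ (K ∪ L)) := by
  obtain ⟨a, a1, a2, a3⟩ := NN_HD hz h1
  obtain ⟨b, b1, b2, b3⟩ := NN_HD hz h2
  have e : bd (a - b) = (z - bd b) - (z - bd a) := by
    rw [map_sub]
    abel
  obtain ⟨c, -, c2⟩ := mem_NN.1 (h3 (a - b) (mem_ZZ.2 ⟨sub_mem a1 b1, by
    rw [e]
    exact sub_mem (CC_mono (zl1_mono subset_rfl inter_subset_right) b3)
      (CC_mono (zl1_mono subset_rfl inter_subset_left) a3)⟩) (sub_mem a2 b2))
  rw [zl1_inter] at c2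
  have a4 := CC_mono (zl1_mono (ξ := ξ) h01 subset_rfl) a3
  have b4 := CC_mono (zl1_mono (ξ := ξ) h01 subset_rfl) b3
  have e1 : bd (a - b - bd c) = (z - bd b) - (z - bd a) := by rw [map_sub, bd_bd, sub_zero, e]
  obtain ⟨m1, p1, m2, p2, d, -, q⟩ := mv (zl1_open hK) (zl1_open hL) c2 a4 b4 e1
  rw [q, map_add, map_add, bd_bd, add_zero] at e1
  refine mem_NN.2 ⟨a - m1, sub_mem (CC_mono h01 a1) (CC_mono inter_subset_left p1), ?_⟩
  have e2 : z - bd (a - m1) = z - bd a + bd m1 := by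
    rw [map_sub]
    abel
  have e3 : z - bd a + bd m1 = z - bd b - bd m2 := by
    rw [eq_sub_of_add_eq e1]
    abel
  rw [e2]
  exact zl1_union (add_mem a4 (bd_mem_CC p1)) (e3 ▸ sub_mem b4 (bd_mem_CC p2))

/-- the Mayer-Vietoris step for gluing -/
theorem gl_glue {A0 A1 : Set X} (h01 : A0 ⊆ A1) {K L : Set Y} (hK : IsCompact K) (hL : IsCompact L)
    {z1 z2 : Ch F X} (h1 : z1 ∈ ZZ F A0 (off A0 ξ K)) (h2 : z2 ∈ ZZ F A0 (off A0 ξ L))
    (d1 : z1 ∈ HD F X k) (d2 : z2 ∈ HD F X k) (h3 : z1 - z2 ∈ NN F A1 (off A1 ξ (K ∩ L))) :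
    ∃ z ∈ ZZ F A1 (off A1 ξ (K ∪ L)), z ∈ HD F X k ∧ z - z1 ∈ NN F A1 (off A1 ξ K) ∧
      z - z2 ∈ NN F A1 (off A1 ξ L) := by
  obtain ⟨a, a1, a2⟩ := mem_NN.1 h3
  rw [zl1_inter] at a2
  have b1 := CC_mono (zl1_mono (ξ := ξ) h01 subset_rfl) (mem_ZZ.1 h1).2
  have b2 := CC_mono (zl1_mono (ξ := ξ) h01 subset_rfl) (mem_ZZ.1 h2).2
  have e1 : bd (z1 - z2 - bd a) = -bd z2 - -bd z1 := by
    rw [map_sub, bd_bd, map_sub]
    abel
  obtain ⟨m1, p1, m2, p2, d, p3, q⟩ :=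
    mv (zl1_open hK) (zl1_open hL) a2 (neg_mem b1) (neg_mem b2) e1
  rw [q, map_add, map_add, bd_bd, add_zero] at e1
  have e2 : bd z1 - bd m1 = bd z2 + bd m2 := by
    rw [eq_sub_of_add_eq e1]
    abel
  have k1 : dg k z1 = z1 := d1
  have k2 : dg k z2 = z2 := d2
  refine ⟨dg k (z1 - m1), dg_mem_ZZ k (mem_ZZ.2 ⟨sub_mem (CC_mono h01 (mem_ZZ.1 h1).1)
    (CC_mono inter_subset_left p1), ?_⟩), dg_mem_HD k _, ?_, ?_⟩
  · rw [map_sub]
    exact zl1_union (sub_mem b1 (bd_mem_CC p1)) (e2 ▸ add_mem b2 (bd_mem_CC p2))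
  · have e : dg k (z1 - m1) - z1 = dg k (-m1) := by
      rw [map_sub, map_neg, k1]
      abel
    rw [e]
    exact dg_mem_NN k (CC_le_NN _ _ (neg_mem p1))
  · have e : dg k (z1 - m1) - z2 = dg k (z1 - m1 - z2) := by rw [map_sub _ _ z2, k2]
    rw [e]
    refine dg_mem_NN k (mem_NN.2 ⟨a + d, add_mem a1 (CC_mono inter_subset_left p3), ?_⟩)
    have e3 : z1 - m1 - z2 - bd (a + d) = z1 - z2 - bd a - m1 - bd d := by
      rw [map_add]
      abel
    have e4 : m1 + m2 + bd d - m1 - bd d = m2 := by abel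
    rw [e3, q, e4]
    exact p2

theorem zl1_glue {A0 A1 : Set X} (h01 : A0 ⊆ A1) {K L : Set Y} (hK : IsCompact K)
    (hL : IsCompact L) {b : Y → Ch F X} (hM : ∀ c, NN F A1 (off A1 ξ {c}) ≤ Mc c)
    {z1 z2 : Ch F X} (h1 : z1 ∈ ZZ F A0 (off A0 ξ K)) (h2 : z2 ∈ ZZ F A0 (off A0 ξ L))
    (d1 : z1 ∈ HD F X k) (d2 : z2 ∈ HD F X k) (m1 : ∀ c ∈ K, z1 - b c ∈ Mc c)
    (m2 : ∀ c ∈ L, z2 - b c ∈ Mc c) (h3 : z1 - z2 ∈ NN F A1 (off A1 ξ (K ∩ L))) :
    ∃ z ∈ ZZ F A1 (off A1 ξ (K ∪ L)), z ∈ HD F X k ∧ ∀ c ∈ K ∪ L, z - b c ∈ Mc c := by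
  obtain ⟨z, a1, a2, a3, a4⟩ := gl_glue h01 hK hL h1 h2 d1 d2 h3
  refine ⟨z, a1, a2, fun c hc => ?_⟩
  rcases hc with hc | hc
  · rw [← sub_add_sub_cancel z z1]
    exact add_mem (hM c (NN_mono subset_rfl
      (zl1_mono subset_rfl (singleton_subset_iff.2 hc)) a3)) (m1 c hc)
  · rw [← sub_add_sub_cancel z z2]
    exact add_mem (hM c (NN_mono subset_rfl
      (zl1_mono subset_rfl (singleton_subset_iff.2 hc)) a4)) (m2 c hc)

theorem LocN.elem {t t' : ℝ} (ht : A t ⊆ A t') (h : LocN F A ξ Sm Mc k t t') :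
    LocN F A ξ (Elem Sm) Mc k t t' := by
  rintro _ - ⟨n, P, hP, hd, rfl⟩ z hz hk hM
  induction n with
  | zero => exact zl1_empty ht (by simp) (mem_ZZ.1 hz).1
  | succ n ih =>
    rw [biUnion_lt_succ] at hz hM ⊢
    exact gl_step subset_rfl (zl1_compact (fun i => (hP i).1) n) (hP n).1 hk
      (ih (ZZ_mono subset_rfl (zl1_mono subset_rfl subset_union_left) hz)
        fun c hc => hM c (Or.inl hc))
      (h _ (hP n).1 (hP n).2 z (ZZ_mono subset_rfl (zl1_mono subset_rfl subset_union_right) hz) hk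
        fun c hc => hM c (Or.inr hc))
      fun m hm _ => zl1_empty subset_rfl (zl1_disj hd n) (mem_ZZ.1 hm).1

theorem gl_null (hA : Monotone A) (hS : ∀ K K', Sm K → K' ⊆ K → Sm K') (hβ : 0 ≤ β)
    (h1 : LocN F A ξ Sm Mc k t (t + β))
    (h2 : ∀ s, t ≤ s → s ≤ t + J * β → LocN F A ξ Sm (fun _ => ⊤) (k + 1) s (s + β))
    (hC : Cov Sm J C) {z : Ch F X} (hz : z ∈ ZZ F (A t) (off (A t) ξ C)) (hd : z ∈ HD F X k)
    (hM : ∀ c ∈ C, z ∈ Mc c) : z ∈ NN F (A (t + J * β)) (off (A (t + J * β)) ξ C) := by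
  obtain ⟨K, hK, rfl⟩ := hC
  have key : ∀ j : ℕ, j ≤ J → z ∈ NN F (A (t + j * β)) (off (A (t + j * β)) ξ (⋃ i < j, K i)) := by
    intro j
    induction j with
    | zero => exact fun _ => zl1_empty (hA (by simp)) (by simp) (mem_ZZ.1 hz).1
    | succ j ih =>
      intro hj
      have s1 : K j ⊆ ⋃ i < J, K i := subset_biUnion_of_mem (u := K) (show j ∈ {i | i < J} from hj)
      have a1 := h1.elem (hA (by linarith)) _ (hK j).compact (hK j) z
        (ZZ_mono subset_rfl (zl1_mono subset_rfl s1) hz) hd fun c hc => hM c (s1 hc)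
      have e : t + (j + 1 : ℕ) * β = t + j * β + β := by
        push_cast
        ring
      rw [biUnion_lt_succ, e]
      rcases Nat.eq_zero_or_pos j with rfl | h0
      · simpa using a1
      have h3 : (1 : ℝ) ≤ j := by exact_mod_cast h0
      have h4 : (j : ℝ) ≤ J := by exact_mod_cast (Nat.le_succ j).trans hj
      have h5 : A (t + β) ⊆ A (t + j * β) := hA (by nlinarith)
      have h6 : A (t + j * β) ⊆ A (t + j * β + β) := hA (by linarith)
      have c1 := zl1_compact (fun i => (hK i).compact) j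
      have c2 := c1.inter (hK j).compact
      exact gl_step h6 c1 (hK j).compact hd (ih ((Nat.le_succ j).trans hj))
        (NN_mono h5 (zl1_mono h5 subset_rfl) a1) fun m hm hk =>
        (h2 _ (by nlinarith) (by nlinarith)).elem h6 _ c2
          ((hK j).sub hS c2 inter_subset_right) m hm hk fun _ _ => trivial
  exact key J le_rfl

theorem gl_ex (hA : Monotone A) (hS : ∀ K K', Sm K → K' ⊆ K → Sm K') (hβ : 0 ≤ β) {b : Y → Ch F X}
    (hM : ∀ c s, NN F (A s) (off (A s) ξ {c}) ≤ Mc c)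
    (h0 : ∀ K, IsCompact K → Sm K → ∃ z ∈ ZZ F (A t) (off (A t) ξ K), z ∈ HD F X k ∧
      ∀ c ∈ K, z - b c ∈ Mc c)
    (h1 : ∀ s, t ≤ s → s ≤ t + J * β → LocN F A ξ Sm Mc k s (s + β)) (hC : Cov Sm J C) :
    ∃ z ∈ ZZ F (A (t + J * β)) (off (A (t + J * β)) ξ C), z ∈ HD F X k ∧
      ∀ c ∈ C, z - b c ∈ Mc c := by
  obtain ⟨K, hK, rfl⟩ := hC
  have el : ∀ L, Elem Sm L → ∃ z ∈ ZZ F (A t) (off (A t) ξ L), z ∈ HD F X k ∧
      ∀ c ∈ L, z - b c ∈ Mc c := by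
    rintro _ ⟨n, P, hP, hd, rfl⟩
    induction n with
    | zero => exact ⟨0, zero_mem _, zero_mem _, by simp⟩
    | succ n ih =>
      obtain ⟨z1, a1, a2, a3⟩ := ih
      obtain ⟨z2, b1, b2, b3⟩ := h0 _ (hP n).1 (hP n).2
      rw [biUnion_lt_succ]
      exact zl1_glue subset_rfl (zl1_compact (fun i => (hP i).1) n) (hP n).1 (fun c => hM c t)
        a1 b1 a2 b2 a3 b3 (zl1_empty subset_rfl (zl1_disj hd n)
          (sub_mem (mem_ZZ.1 a1).1 (mem_ZZ.1 b1).1))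
  have key : ∀ j : ℕ, j ≤ J → ∃ z ∈ ZZ F (A (t + j * β)) (off (A (t + j * β)) ξ (⋃ i < j, K i)),
      z ∈ HD F X k ∧ ∀ c ∈ ⋃ i < j, K i, z - b c ∈ Mc c := by
    intro j
    induction j with
    | zero => exact fun _ => ⟨0, zero_mem _, zero_mem _, by simp⟩
    | succ j ih =>
      intro hj
      obtain ⟨z1, a1, a2, a3⟩ := ih ((Nat.le_succ j).trans hj)
      obtain ⟨z2, b1, b2, b3⟩ := el _ (hK j)
      have e : t + (j + 1 : ℕ) * β = t + j * β + β := by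
        push_cast
        ring
      have h3 : (0 : ℝ) ≤ j * β := by positivity
      have h4 : (j : ℝ) ≤ J := by exact_mod_cast (Nat.le_succ j).trans hj
      have h5 : A t ⊆ A (t + j * β) := hA (by linarith)
      have h6 : A (t + j * β) ⊆ A (t + j * β + β) := hA (by linarith)
      have c1 := zl1_compact (fun i => (hK i).compact) j
      have c2 := c1.inter (hK j).compact
      have b4 := ZZ_mono h5 (zl1_mono (ξ := ξ) h5 subset_rfl) b1
      rw [biUnion_lt_succ, e]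
      refine zl1_glue h6 c1 (hK j).compact (fun c => hM c _) a1 b4 a2 b2 a3 b3
        ((h1 _ (by linarith) (by nlinarith)).elem h6 _ c2 ((hK j).sub hS c2 inter_subset_right) _
          (sub_mem (ZZ_mono subset_rfl (zl1_mono subset_rfl inter_subset_left) a1)
            (ZZ_mono subset_rfl (zl1_mono subset_rfl inter_subset_right) b4)) (sub_mem a2 b2)
          fun c hc => ?_)
      rw [← sub_sub_sub_cancel_right z1 z2 (b c)]
      exact sub_mem (a3 c hc.1) (b3 c hc.2)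
  exact key J le_rfl

end Pool.Agent.Fu
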