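import Mathlib
import Pool.Agent.P.MP_365c00_gt.ZW0
import Pool.Agent.P.MP_365c00_gt.ZP2
import Pool.Agent.P.MP_365c00_gt.ZQ0

/-! Spaces of tuples of paths: definitions. -/

set_option linter.unusedSectionVars false
set_option linter.unusedVariables false

open Set Topology Filter Metric

namespace Pool.Agent.Fu

variable {F : Type} [Field F] {M : Type} [MetricSpace M] {d q n : ℕ} {S : GS M} {p0 p : M}
  {δ t : ℝ}

/-- the base: a point and a vector -/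
abbrev Bs (M : Type) (d : ℕ) : Type := M × (Fin d → ℝ)

/-- a base point and a path -/
abbrev Pos (M : Type) [TopologicalSpace M] (d : ℕ) : Type := Bs M d × Mo M

/-- the default value -/
def dfl (p0 : M) : Pos M d := ((p0, 0), triv p0)

/-- the base points of a sequence -/
def bs (M : Type) [TopologicalSpace M] (d : ℕ) : C(ℕ → Pos M d, ℕ → Bs M d) :=
  ⟨fun y i => (y i).1, by fun_prop⟩

/-- the paths of a sequence -/
def pth (y : ℕ → Pos M d) (i : ℕ) : Mo M := (y i).2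

/-- base points near the diagonal -/
def Nr (n : ℕ) (r : ℝ) : Set (ℕ → Bs M d) :=
  {c | (∀ i ≤ n, ‖(c i).2‖ < r) ∧ ∀ i ≤ n, ∀ j ≤ n, dist (c i).1 (c j).1 < r}

/-- the closed version -/
def NrC (n : ℕ) (r : ℝ) : Set (ℕ → Bs M d) :=
  {c | (∀ i ≤ n, ‖(c i).2‖ ≤ r) ∧ ∀ i ≤ n, ∀ j ≤ n, dist (c i).1 (c j).1 ≤ r}

/-- sequences with the default tail -/
def Tl (p0 : M) (n : ℕ) : Set (ℕ → Bs M d) := {c | ∀ i, n < i → c i = (p0, 0)}

/-- the compact core of the base -/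
def CB (p0 : M) (δ : ℝ) (n : ℕ) : Set (ℕ → Bs M d) := NrC n (δ / 2) ∩ Tl p0 n

/-- the part of the base near the point `p` -/
def Up (δ : ℝ) (n : ℕ) (p : M) : Set (ℕ → Bs M d) :=
  Nr n δ ∩ {c | ∀ i ≤ n, dist (c i).1 p < 2 * δ}

/-- the same with the default tail -/
def Dm (p0 : M) (δ : ℝ) (n : ℕ) (p : M) : Set (ℕ → Bs M d) := Tl p0 n ∩ Up δ n p

/-- base points that differ from `c` -/
def OfB (n : ℕ) (c : ℕ → Bs M d) : Set (ℕ → Bs M d) := {c' | ∃ i ≤ n, c' i ≠ c i}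

/-- base points close to `c` -/
def Sp (p0 : M) (δ : ℝ) (n : ℕ) (c : ℕ → Bs M d) : Set (ℕ → Bs M d) :=
  Tl p0 n ∩ {c' | ∀ i ≤ n, dist (c' i) (c i) < δ / 8}

/-- far from the diagonal -/
def far (δ : ℝ) (n : ℕ) : Set (ℕ → Pos M d) := {y | bs M d y ∉ NrC n (δ / 2)}

/-- sequences of `n + 1` paths -/
def Yt (p0 : M) (δ : ℝ) (n : ℕ) : Set (ℕ → Pos M d) :=
  {y | (∀ i, n < i → y i = dfl p0) ∧
    (bs M d y ∈ Nr n δ → pth y ∈ Tup n δ δ (y 0).1.1 (y n).1.1)}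

/-- the filtration by the total duration -/
def Ys (p0 : M) (δ : ℝ) (n : ℕ) (t : ℝ) : Set (ℕ → Pos M d) :=
  {y | y ∈ Yt p0 δ n ∧ (bs M d y ∈ Nr n δ → tot n (pth y) < t)}

/-- sequences that do not lie over `c` -/
def Of (n : ℕ) (c : ℕ → Bs M d) : Set (ℕ → Pos M d) := {y | bs M d y ∈ OfB n c}

variable (F) in
/-- chains that are null over `c` -/
noncomputable def Mc (p0 : M) (δ : ℝ) (n : ℕ) (c : ℕ → Bs M d) :
    Submodule F (Ch F (ℕ → Pos M d)) := NN F (Yt p0 δ n) (Yt p0 δ n ∩ Of n c)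

/-- the local trivialisation -/
noncomputable def Gn (S : GS M) (p0 : M) (n : ℕ) (z : (ℕ → Bs M d) × Mo M) (i : ℕ) : Pos M d :=
  if i ≤ n then (z.1 i, cut n (S.wh (z.1 0).1 (z.1 n).1 z.2) i) else dfl p0

/-- a base point as a sequence -/
def one (p0 : M) (d : ℕ) : C(Bs M d, ℕ → Bs M d) :=
  ⟨fun b i => if i = 0 then b else (p0, 0), continuous_pi fun i => by
    split_ifs <;> fun_prop⟩

/-- the product of the local orientation classes -/
noncomputable def oB (p0 : M) (o : Bs M d → Ch F (Bs M d)) :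
    ℕ → (ℕ → Bs M d) → Ch F (ℕ → Bs M d)
  | 0, c => map (one p0 d) (o (c 0))
  | n + 1, c => mu (n + 1) (oB p0 o n c) (map (one p0 d) (o (c (n + 1))))

/-- the local class with the fibre `w` -/
noncomputable def Gw (S : GS M) (p0 : M) (o : Bs M d → Ch F (Bs M d)) (n : ℕ) (c : ℕ → Bs M d)
    (w : Ch F (Mo M)) : Ch F (ℕ → Pos M d) := mp (Gn S p0 n) (cross (oB p0 o n c) w)

/-- the product of the local classes -/
noncomputable def Bt (S : GS M) (p0 : M) (o : Bs M d → Ch F (Bs M d)) (x : M → Ch F (Mo M)) :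
    ℕ → (ℕ → Bs M d) → Ch F (ℕ → Pos M d)
  | 0, c => Gw S p0 o 0 c (x (c 0).1)
  | n + 1, c => mu (n + 1) (Bt S p0 o x n c) (Gw S p0 o 0 (fun _ => c (n + 1)) (x (c (n + 1)).1))

/-- chains with the right local classes -/
def Rn (S : GS M) (p0 : M) (δ : ℝ) (o : Bs M d → Ch F (Bs M d)) (x : M → Ch F (Mo M)) (n : ℕ)
    (z : Ch F (ℕ → Pos M d)) : Prop :=
  ∀ c ∈ NrC n (δ / 2), z - Bt S p0 o x n c ∈ Mc F p0 δ n c

/-- the hypotheses on the scale and on the orientation -/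
structure YH (S : GS M) (δ : ℝ) (O : OR F (d + d) (Bs M d)) : Prop where
  pos : 0 < δ
  le : 16 * δ ≤ S.a
  sm : ∀ b, O.o b ∈ CC F (ball b (δ / 8))
  euc : ∀ p : M, Euc d (ball p (2 * δ))
  rad : ∀ p : M, ∃ z ∈ ZZ F univ (ball ((p, 0) : Bs M d) δ)ᶜ, z ∈ HD F _ (d + d) ∧
    ∀ c ∈ ball ((p, 0) : Bs M d) δ, z - O.o c ∈ NN F univ (univ \ {c})

/-- cyclic base points near the diagonal -/
def NrZ (q : ℕ) (r : ℝ) : Set (ZMod q → Bs M d) :=
  {c | (∀ i, ‖(c i).2‖ < r) ∧ ∀ i j, dist (c i).1 (c j).1 < r}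

/-- the closed version -/
def NrZC (q : ℕ) (r : ℝ) : Set (ZMod q → Bs M d) :=
  {c | (∀ i, ‖(c i).2‖ ≤ r) ∧ ∀ i j, dist (c i).1 (c j).1 ≤ r}

/-- cyclic tuples of paths -/
def Zt (q : ℕ) (δ : ℝ) : Set (ZMod q → Pos M d) :=
  {x | (fun i => (x i).1) ∈ NrZ q δ →
    ∀ i, IsP (x i).2 ∧ dist (en (x i).2) (st (x (i + 1)).2) < 2 * δ}

/-- the filtration by the total duration -/
def Zs (q : ℕ) [NeZero q] (δ t : ℝ) : Set (ZMod q → Pos M d) :=
  {x | x ∈ Zt q δ ∧ ((fun i => (x i).1) ∈ NrZ q δ → ∑ i, (x i).2.2 < t)}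

/-- far from the diagonal -/
def farZ (q : ℕ) (δ : ℝ) : Set (ZMod q → Pos M d) := {x | (fun i => (x i).1) ∉ NrZC q (δ / 2)}

/-- the base points and the first start point -/
def xiZ (M : Type) [MetricSpace M] (d q : ℕ) : C(ZMod q → Pos M d, (ZMod q → Bs M d) × M) :=
  ⟨fun x => (fun i => (x i).1, st (x 0).2), by
    refine Continuous.prodMk (by fun_prop) (st_cont.comp (by fun_prop))⟩

/-- the part of the cyclic base near `p` and `m` -/
def UpZ (q : ℕ) (δ : ℝ) (p m : M) : Set ((ZMod q → Bs M d) × M) :=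
  {z | z.1 ∈ NrZ q δ ∧ (∀ i, dist (z.1 i).1 p < 2 * δ) ∧ dist z.2 m < δ}

/-- the cyclic local trivialisation -/
noncomputable def GZ (S : GS M) (q : ℕ) (z : ((ZMod q → Bs M d) × M) × Mo M) (i : ZMod q) :
    Pos M d := (z.1.1 i, cut (q - 1) (S.wh z.1.2 z.1.2 z.2) i.val)

/-- almost closed paths at the base point -/
def A0 (δ : ℝ) : Set (Pos M d) :=
  {y | ‖y.1.2‖ < δ → IsP y.2 ∧ st y.2 = y.1.1 ∧ dist (en y.2) y.1.1 < δ}

/-- moving a loop to the base point -/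
noncomputable def Gb (S : GS M) (z : Pos M d) : Pos M d := (z.1, S.wh z.1.1 z.1.1 z.2)

/-- cyclic tuples near the point `p` -/
def UZ (q : ℕ) (δ : ℝ) (p : M) : Set (ZMod q → Pos M d) :=
  {x | (fun i => (x i).1) ∈ NrZ q δ ∧ ∀ i, dist (st (x i).2) p < δ}

/-- cyclic tuples off the fixed configurations at `p` -/
def WZ (q : ℕ) (p : M) : Set (ZMod q → Pos M d) :=
  {x | (∃ i, (x i).1.2 ≠ 0 ∨ st (x i).2 ≠ p) ∨ ∃ i j, (x i).1.1 ≠ (x j).1.1}

end Pool.Agent.Fu
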