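import Mathlib
import Pool.Agent.P.MP_365c00_gt.ZY0
import Pool.Agent.P.MP_365c00_gt.ZL1
import Pool.Agent.P.MP_365c00_gt.ZE3
import Pool.Agent.P.MP_365c00_gt.ZE4

/-! Spaces of tuples of paths: the sets. -/

set_option linter.unusedSectionVars false
set_option linter.unusedVariables false

open Set Topology Filter Metric

namespace Pool.Agent.Fu

variable {F : Type} [Field F] {M : Type} [MetricSpace M] {d q n : ℕ} {S : GS M} {p0 p : M}
  {δ t : ℝ}

theorem zy1_open {X : Type} [TopologicalSpace X] (n : ℕ) {P : ℕ → X → Prop}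
    (h : ∀ i, IsOpen {c | P i c}) : IsOpen {c | ∀ i ≤ n, P i c} := by
  have e : {c | ∀ i ≤ n, P i c} = ⋂ i ∈ Iic n, {c | P i c} := by
    ext c
    simp
  rw [e]
  exact (finite_Iic n).isOpen_biInter fun i _ => h i

theorem zy1_closed {X ι : Type} [TopologicalSpace X] {Q : ι → Prop} {P : ι → X → Prop}
    (h : ∀ i, IsClosed {c | P i c}) : IsClosed {c | ∀ i, Q i → P i c} := by
  have e : {c | ∀ i, Q i → P i c} = ⋂ i, ⋂ (_ : Q i), {c | P i c} := by
    ext c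
    simp
  rw [e]
  exact isClosed_iInter fun i => isClosed_iInter fun _ => h i

theorem zy1_l {P : Type} (x x' : ℕ → P) {i : ℕ} (hi : i ≤ n) : app (n + 1) (x, x') i = x i :=
  if_pos (Nat.lt_succ_of_le hi)

theorem zy1_r {P : Type} (n : ℕ) (x x' : ℕ → P) (i : ℕ) :
    app (n + 1) (x, x') (n + 1 + i) = x' i := by
  unfold app
  rw [if_neg (by omega), Nat.add_sub_cancel_left]

theorem Nr_open (n : ℕ) (r : ℝ) : IsOpen (Nr n r : Set (ℕ → Bs M d)) :=
  (zy1_open n fun i => isOpen_lt (by fun_prop) continuous_const).inter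
    (zy1_open n fun i => zy1_open n fun j => isOpen_lt (by fun_prop) continuous_const)

theorem NrC_closed (n : ℕ) (r : ℝ) : IsClosed (NrC n r : Set (ℕ → Bs M d)) :=
  (zy1_closed fun i => isClosed_le (by fun_prop) continuous_const).inter
    (zy1_closed fun i => zy1_closed fun j => isClosed_le (by fun_prop) continuous_const)

theorem NrC_sub (hδ : 0 < δ) (n : ℕ) : (NrC n (δ / 2) : Set (ℕ → Bs M d)) ⊆ Nr n δ :=
  fun c hc => ⟨fun i hi => by linarith [hc.1 i hi], fun i hi j hj => by linarith [hc.2 i hi j hj]⟩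

theorem Up_open (δ : ℝ) (n : ℕ) (p : M) : IsOpen (Up δ n p : Set (ℕ → Bs M d)) :=
  (Nr_open n δ).inter (zy1_open n fun i => isOpen_lt (by fun_prop) continuous_const)

theorem CB_compact [CompactSpace M] (p0 : M) (δ : ℝ) (n : ℕ) :
    IsCompact (CB p0 δ n : Set (ℕ → Bs M d)) := by
  have h1 : IsCompact (Set.pi univ fun _ : ℕ =>
      (univ ×ˢ closedBall 0 (max (δ / 2) 0) : Set (Bs M d))) :=
    isCompact_univ_pi fun _ => isCompact_univ.prod (isCompact_closedBall _ _)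
  refine h1.of_isClosed_subset ((NrC_closed n _).inter
    (zy1_closed fun i => isClosed_eq (by fun_prop) continuous_const)) fun c hc i _ => ⟨trivial, ?_⟩
  rw [mem_closedBall_zero_iff]
  rcases le_or_gt i n with hi | hi
  · exact (hc.1.1 i hi).trans (le_max_left _ _)
  · rw [hc.2 i hi, norm_zero]
    exact le_max_right _ _

theorem Ys_mono (p0 : M) (δ : ℝ) (n : ℕ) : Monotone (Ys p0 δ n : ℝ → Set (ℕ → Pos M d)) :=
  fun _ _ h _ hy => ⟨hy.1, fun h' => (hy.2 h').trans_le h⟩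

theorem Ys_sub (p0 : M) (δ : ℝ) (n : ℕ) (t : ℝ) : (Ys p0 δ n t : Set (ℕ → Pos M d)) ⊆ Yt p0 δ n :=
  fun _ h => h.1

theorem zy1_Nr {n' : ℕ} {x x' : ℕ → Pos M d}
    (h : bs M d (app (n + 1) (x, x')) ∈ Nr (n + n' + 1) δ) :
    bs M d x ∈ Nr n δ ∧ bs M d x' ∈ Nr n' δ ∧ dist (x n).1.1 (x' 0).1.1 < δ := by
  have h1 : ∀ i ≤ n + n' + 1, ‖(app (n + 1) (x, x') i).1.2‖ < δ := h.1
  have h2 : ∀ i ≤ n + n' + 1, ∀ j ≤ n + n' + 1,
      dist (app (n + 1) (x, x') i).1.1 (app (n + 1) (x, x') j).1.1 < δ := h.2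
  refine ⟨⟨fun i hi => ?_, fun i hi j hj => ?_⟩, ⟨fun i hi => ?_, fun i hi j hj => ?_⟩, ?_⟩
  · have := h1 i (by omega)
    rwa [zy1_l x x' hi] at this
  · have := h2 i (by omega) j (by omega)
    rwa [zy1_l x x' hi, zy1_l x x' hj] at this
  · have := h1 (n + 1 + i) (by omega)
    rwa [zy1_r] at this
  · have := h2 (n + 1 + i) (by omega) (n + 1 + j) (by omega)
    rwa [zy1_r, zy1_r] at this
  · have := h2 n (by omega) (n + 1 + 0) (by omega)
    rwa [zy1_l x x' le_rfl, zy1_r] at this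

theorem Yt_app {n' : ℕ} {x x' : ℕ → Pos M d} (h : x ∈ Yt p0 δ n) (h' : x' ∈ Yt p0 δ n') :
    app (n + 1) (x, x') ∈ Yt p0 δ (n + n' + 1) := by
  refine ⟨fun i hi => ?_, fun hN => ?_⟩
  · obtain ⟨j, rfl⟩ : ∃ j, i = n + 1 + j := ⟨i - (n + 1), by omega⟩
    rw [zy1_r]
    exact h'.1 j (by omega)
  · obtain ⟨n1, n2, n3⟩ := zy1_Nr hN
    obtain ⟨a1, a2, a3, a4⟩ := h.2 n1
    obtain ⟨b1, b2, b3, b4⟩ := h'.2 n2
    unfold pth at a1 a2 a3 a4 b1 b2 b3 b4
    refine ⟨fun i hi => ?_, ?_, fun i hi => ?_, ?_⟩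
    · unfold pth
      rcases le_or_gt i n with hn | hn
      · rw [zy1_l x x' hn]
        exact a1 i hn
      · obtain ⟨j, rfl⟩ : ∃ j, i = n + 1 + j := ⟨i - (n + 1), by omega⟩
        rw [zy1_r]
        exact b1 j (by omega)
    · unfold pth
      rw [zy1_l x x' (Nat.zero_le n)]
      exact a2
    · unfold pth
      rcases lt_trichotomy i n with hn | rfl | hn
      · rw [zy1_l x x' hn.le, zy1_l x x' (Nat.succ_le_of_lt hn)]
        exact a3 i hn
      · rw [zy1_l x x' le_rfl, show i + 1 = i + 1 + 0 from rfl, zy1_r, b2]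
        linarith [dist_triangle (en (x i).2) (x i).1.1 (x' 0).1.1]
      · obtain ⟨j, rfl⟩ : ∃ j, i = n + 1 + j := ⟨i - (n + 1), by omega⟩
        rw [zy1_r, add_assoc (n + 1), zy1_r]
        exact b3 j (by omega)
    · unfold pth
      rw [show n + n' + 1 = n + 1 + n' by omega, zy1_r]
      exact b4

theorem Ys_app {n' : ℕ} {t' : ℝ} {x x' : ℕ → Pos M d} (h : x ∈ Ys p0 δ n t)
    (h' : x' ∈ Ys p0 δ n' t') : app (n + 1) (x, x') ∈ Ys p0 δ (n + n' + 1) (t + t') := by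
  refine ⟨Yt_app h.1 h'.1, fun hN => ?_⟩
  obtain ⟨n1, n2, -⟩ := zy1_Nr hN
  have e : tot (n + n' + 1) (pth (app (n + 1) (x, x'))) = tot n (pth x) + tot n' (pth x') := by
    unfold tot pth
    rw [show n + n' + 1 + 1 = n + 1 + (n' + 1) by omega, Finset.sum_range_add]
    congr 1
    · refine Finset.sum_congr rfl fun i hi => ?_
      rw [zy1_l x x' (Nat.lt_succ_iff.1 (Finset.mem_range.1 hi))]
    · refine Finset.sum_congr rfl fun i hi => ?_
      rw [zy1_r]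
  rw [e]
  exact add_lt_add (h.2 n1) (h'.2 n2)

theorem zy1_NrC {n' : ℕ} {r : ℝ} {x x' : ℕ → Pos M d}
    (h : bs M d (app (n + 1) (x, x')) ∈ NrC (n + n' + 1) r) :
    bs M d x ∈ NrC n r ∧ bs M d x' ∈ NrC n' r := by
  have h1 : ∀ i ≤ n + n' + 1, ‖(app (n + 1) (x, x') i).1.2‖ ≤ r := h.1
  have h2 : ∀ i ≤ n + n' + 1, ∀ j ≤ n + n' + 1,
      dist (app (n + 1) (x, x') i).1.1 (app (n + 1) (x, x') j).1.1 ≤ r := h.2
  refine ⟨⟨fun i hi => ?_, fun i hi j hj => ?_⟩, ⟨fun i hi => ?_, fun i hi j hj => ?_⟩⟩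
  · have := h1 i (by omega)
    rwa [zy1_l x x' hi] at this
  · have := h2 i (by omega) j (by omega)
    rwa [zy1_l x x' hi, zy1_l x x' hj] at this
  · have := h1 (n + 1 + i) (by omega)
    rwa [zy1_r] at this
  · have := h2 (n + 1 + i) (by omega) (n + 1 + j) (by omega)
    rwa [zy1_r, zy1_r] at this

theorem far_left (n' : ℕ) {x : ℕ → Pos M d} (x' : ℕ → Pos M d) (h : x ∈ far δ n) :
    app (n + 1) (x, x') ∈ far δ (n + n' + 1) := fun hc => h (zy1_NrC hc).1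

theorem far_right (n : ℕ) {n' : ℕ} (x : ℕ → Pos M d) {x' : ℕ → Pos M d} (h : x' ∈ far δ n') :
    app (n + 1) (x, x') ∈ far δ (n + n' + 1) := fun hc => h (zy1_NrC hc).2

theorem Of_left (n' : ℕ) {c : ℕ → Bs M d} {x : ℕ → Pos M d} (x' : ℕ → Pos M d) (h : x ∈ Of n c) :
    app (n + 1) (x, x') ∈ Of (n + n' + 1) c := by
  obtain ⟨i, hi, hne⟩ := h
  refine ⟨i, by omega, ?_⟩
  change (app (n + 1) (x, x') i).1 ≠ c i
  rw [zy1_l x x' hi]
  exact hne

theorem Of_right (n : ℕ) {n' : ℕ} {c : ℕ → Bs M d} (x : ℕ → Pos M d) {x' : ℕ → Pos M d}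
    (h : x' ∈ Of n' fun i => c (n + 1 + i)) : app (n + 1) (x, x') ∈ Of (n + n' + 1) c := by
  obtain ⟨i, hi, hne⟩ := h
  refine ⟨n + 1 + i, by omega, ?_⟩
  change (app (n + 1) (x, x') (n + 1 + i)).1 ≠ c (n + 1 + i)
  rw [zy1_r]
  exact hne

theorem far_sub_Of {c : ℕ → Bs M d} (hc : c ∈ NrC n (δ / 2)) : far δ n ⊆ Of n c := by
  intro y hy
  by_contra hn
  have e : ∀ i ≤ n, bs M d y i = c i := fun i hi => by
    by_contra h
    exact hn ⟨i, hi, h⟩
  refine hy ⟨fun i hi => ?_, fun i hi j hj => ?_⟩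
  · rw [e i hi]
    exact hc.1 i hi
  · rw [e i hi, e j hj]
    exact hc.2 i hi j hj

theorem NrC_left {n' : ℕ} {r : ℝ} {c : ℕ → Bs M d} (hc : c ∈ NrC (n + n' + 1) r) : c ∈ NrC n r :=
  ⟨fun i hi => hc.1 i (by omega), fun i hi j hj => hc.2 i (by omega) j (by omega)⟩

theorem NrC_right {n' : ℕ} {r : ℝ} {c : ℕ → Bs M d} (hc : c ∈ NrC (n + n' + 1) r) :
    (fun i => c (n + 1 + i)) ∈ NrC n' r :=
  ⟨fun i hi => hc.1 _ (by omega), fun i hi j hj => hc.2 _ (by omega) _ (by omega)⟩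

theorem zy1_Tl {y : ℕ → Pos M d} (h : y ∈ Yt p0 δ n) : bs M d y ∈ Tl p0 n := fun i hi =>
  congrArg Prod.fst (h.1 i hi)

theorem off_CB {A : Set (ℕ → Pos M d)} (hA : A ⊆ Yt p0 δ n) :
    off A (bs M d) (CB p0 δ n) = A ∩ far δ n :=
  Set.ext fun y => ⟨fun h => ⟨h.1, fun h' => h.2 ⟨h', zy1_Tl (hA h.1)⟩⟩,
    fun h => ⟨h.1, fun h' => h.2 h'.1⟩⟩

theorem off_pt {A : Set (ℕ → Pos M d)} (hA : A ⊆ Yt p0 δ n) {c : ℕ → Bs M d} (hc : c ∈ Tl p0 n) :
    off A (bs M d) {c} = A ∩ Of n c := by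
  ext y
  constructor
  · rintro ⟨h1, h2⟩
    refine ⟨h1, ?_⟩
    by_contra hn
    refine h2 (funext fun i => ?_)
    rcases le_or_gt i n with hi | hi
    · by_contra h
      exact hn ⟨i, hi, h⟩
    · exact (zy1_Tl (hA h1) i hi).trans (hc i hi).symm
  · rintro ⟨h1, i, hi, h2⟩
    exact ⟨h1, fun h => h2 (congrFun h i)⟩

theorem Sp_sub (hδ : 0 < δ) {c : ℕ → Bs M d} (hc : c ∈ NrC n (δ / 2))
    (hp : ∀ i ≤ n, dist (c i).1 p < δ) : Sp p0 δ n c ⊆ Dm p0 δ n p := by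
  intro x hx
  have h1 : ∀ i ≤ n, dist (x i).1 (c i).1 < δ / 8 ∧ dist (x i).2 (c i).2 < δ / 8 := fun i hi =>
    max_lt_iff.1 (hx.2 i hi)
  refine ⟨hx.1, ⟨fun i hi => ?_, fun i hi j hj => ?_⟩, fun i hi => ?_⟩
  · have h2 := (h1 i hi).2
    rw [dist_eq_norm] at h2
    linarith [norm_le_insert' (x i).2 (c i).2, hc.1 i hi]
  · linarith [dist_triangle4_right (x i).1 (x j).1 (c i).1 (c j).1, (h1 i hi).1, (h1 j hj).1,
      hc.2 i hi j hj]
  · linarith [dist_triangle (x i).1 (c i).1 p, (h1 i hi).1, hp i hi]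

theorem Sp_app (hδ : 0 < δ) {c x x' : ℕ → Bs M d} (h : x ∈ Sp p0 δ n c)
    (h' : x' ∈ Sp p0 δ 0 fun _ => c (n + 1)) : app (n + 1) (x, x') ∈ Sp p0 δ (n + 1) c := by
  refine ⟨fun i hi => ?_, fun i hi => ?_⟩
  · obtain ⟨j, rfl⟩ : ∃ j, i = n + 1 + j := ⟨i - (n + 1), by omega⟩
    rw [zy1_r]
    exact h'.1 j (by omega)
  · rcases le_or_gt i n with hn | hn
    · rw [zy1_l x x' hn]
      exact h.2 i hn
    · obtain rfl : i = n + 1 + 0 := by omega
      rw [zy1_r]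
      exact h'.2 0 le_rfl

theorem OfB_congr {c c' : ℕ → Bs M d} (h : ∀ i ≤ n, c' i = c i) : OfB n c' = OfB n c :=
  Set.ext fun _ => exists_congr fun i => and_congr_right fun hi => by rw [h i hi]

theorem OfB_open (n : ℕ) (c : ℕ → Bs M d) : IsOpen (OfB n c) := by
  have e : OfB n c = ⋃ i ∈ Iic n, {c' | c' i ≠ c i} := by
    ext x
    simp [OfB]
  rw [e]
  exact isOpen_biUnion fun i _ => isOpen_ne_fun (continuous_apply i) continuous_const

theorem ev0_Yt : MapsTo (ev0 (Pos M d)) (Yt p0 δ 0) (A0 δ) := by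
  intro y hy h
  have h0 : ‖(y 0).1.2‖ < δ := h
  obtain ⟨a1, a2, -, a4⟩ := hy.2 ⟨fun i hi => by
      obtain rfl := Nat.le_zero.1 hi
      exact h0, fun i hi j hj => by
      obtain rfl := Nat.le_zero.1 hi
      obtain rfl := Nat.le_zero.1 hj
      rw [dist_self]
      exact (norm_nonneg _).trans_lt h0⟩
  exact ⟨a1 0 le_rfl, a2, a4⟩

variable [NeZero q]

theorem zy1_openZ {X : Type} [TopologicalSpace X] {P : ZMod q → X → Prop}
    (h : ∀ i, IsOpen {c | P i c}) : IsOpen {c | ∀ i, P i c} := by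
  rw [ofPred_forall]
  exact isOpen_iInter_of_finite h

theorem zy1_closedZ {X : Type} [TopologicalSpace X] {P : ZMod q → X → Prop}
    (h : ∀ i, IsClosed {c | P i c}) : IsClosed {c | ∀ i, P i c} := by
  rw [ofPred_forall]
  exact isClosed_iInter h

theorem NrZ_open (r : ℝ) : IsOpen (NrZ q r : Set (ZMod q → Bs M d)) :=
  (zy1_openZ fun i => isOpen_lt (by fun_prop) continuous_const).inter
    (zy1_openZ fun i => zy1_openZ fun j => isOpen_lt (by fun_prop) continuous_const)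

theorem NrZC_compact [CompactSpace M] (r : ℝ) : IsCompact (NrZC q r : Set (ZMod q → Bs M d)) := by
  have h1 : IsCompact (Set.pi univ fun _ : ZMod q => (univ ×ˢ closedBall 0 r : Set (Bs M d))) :=
    isCompact_univ_pi fun _ => isCompact_univ.prod (isCompact_closedBall _ _)
  exact h1.of_isClosed_subset
    ((zy1_closedZ fun i => isClosed_le (by fun_prop) continuous_const).inter
      (zy1_closedZ fun i => zy1_closedZ fun j => isClosed_le (by fun_prop) continuous_const))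
    fun c hc i _ => ⟨trivial, mem_closedBall_zero_iff.2 (hc.1 i)⟩

theorem UpZ_open (δ : ℝ) (p m : M) : IsOpen (UpZ q δ p m : Set ((ZMod q → Bs M d) × M)) :=
  ((NrZ_open δ).preimage continuous_fst).inter
    ((zy1_openZ fun i => isOpen_lt (by fun_prop) continuous_const).inter
      (isOpen_lt (continuous_snd.dist continuous_const) continuous_const))

theorem Zs_mono (δ : ℝ) : Monotone (Zs q δ : ℝ → Set (ZMod q → Pos M d)) :=
  fun _ _ h _ hy => ⟨hy.1, fun h' => (hy.2 h').trans_le h⟩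

theorem zy1_shf {x : ZMod q → Pos M d} (h : (fun i => (shf (Pos M d) q x i).1) ∈ NrZ q δ) :
    (fun i => (x i).1) ∈ NrZ q δ := by
  have h1 : ∀ i, ‖(x (i - 1)).1.2‖ < δ := h.1
  have h2 : ∀ i j, dist (x (i - 1)).1.1 (x (j - 1)).1.1 < δ := h.2
  refine ⟨fun i => ?_, fun i j => ?_⟩
  · have := h1 (i + 1)
    rwa [add_sub_cancel_right] at this
  · have := h2 (i + 1) (j + 1)
    rwa [add_sub_cancel_right, add_sub_cancel_right] at this

theorem Zt_inv (δ : ℝ) : MapsTo (shf (Pos M d) q) (Zt q δ) (Zt q δ) := by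
  intro x hx h i
  have h1 := hx (zy1_shf h) (i - 1)
  refine ⟨h1.1, ?_⟩
  change dist (en (x (i - 1)).2) (st (x (i + 1 - 1)).2) < 2 * δ
  rw [show i + 1 - 1 = i - 1 + 1 by ring]
  exact h1.2

theorem Zs_inv (δ t : ℝ) : MapsTo (shf (Pos M d) q) (Zs q δ t) (Zs q δ t) := by
  intro x hx
  refine ⟨Zt_inv δ hx.1, fun h => ?_⟩
  have e := (Equiv.subRight (1 : ZMod q)).sum_comp fun i => (x i).2.2
  exact e.trans_lt (hx.2 (zy1_shf h))

theorem farZ_inv (δ : ℝ) : MapsTo (shf (Pos M d) q) (farZ q δ) (farZ q δ) := by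
  intro x hx h
  have h1 : ∀ i, ‖(x (i - 1)).1.2‖ ≤ δ / 2 := h.1
  have h2 : ∀ i j, dist (x (i - 1)).1.1 (x (j - 1)).1.1 ≤ δ / 2 := h.2
  refine hx ⟨fun i => ?_, fun i j => ?_⟩
  · have := h1 (i + 1)
    rwa [add_sub_cancel_right] at this
  · have := h2 (i + 1) (j + 1)
    rwa [add_sub_cancel_right, add_sub_cancel_right] at this

theorem zy1_val (b : ZMod q) {i : ℕ} (hi : i ≤ q - 1) : (b + i - b).val = i := by
  have := NeZero.pos q
  rw [add_sub_cancel_left, ZMod.val_natCast_of_lt (by omega)]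

theorem zy1_sum (f : ℕ → ℝ) : ∑ c : ZMod q, f c.val = ∑ i ∈ Finset.range (q - 1 + 1), f i := by
  obtain ⟨k, rfl⟩ := Nat.exists_eq_succ_of_ne_zero (NeZero.ne q)
  exact Fin.sum_univ_eq_sum_range f (k + 1)

theorem cyc_Ys (b : ZMod q) (t : ℝ) :
    MapsTo (cyc (Pos M d) b) (Ys p0 δ (q - 1) t) (Zs q δ t) := by
  intro y hy
  have hq := NeZero.pos q
  have hN : (fun i => (cyc (Pos M d) b y i).1) ∈ NrZ q δ → bs M d y ∈ Nr (q - 1) δ := fun h => by
    have h1 : ∀ c : ZMod q, ‖(y (c - b).val).1.2‖ < δ := h.1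
    have h2 : ∀ c c' : ZMod q, dist (y (c - b).val).1.1 (y (c' - b).val).1.1 < δ := h.2
    refine ⟨fun i hi => ?_, fun i hi j hj => ?_⟩
    · have := h1 (b + i)
      rwa [zy1_val b hi] at this
    · have := h2 (b + i) (b + j)
      rwa [zy1_val b hi, zy1_val b hj] at this
  refine ⟨fun h c => ?_, fun h => ?_⟩
  · obtain ⟨a1, a2, a3, a4⟩ := hy.1.2 (hN h)
    unfold pth at a1 a2 a3 a4
    have hv := ZMod.val_lt (c - b)
    refine ⟨a1 _ (by omega), ?_⟩
    change dist (en (y (c - b).val).2) (st (y (c + 1 - b).val).2) < 2 * δ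
    have e : c + 1 - b = (((c - b).val + 1 : ℕ) : ZMod q) := by
      push_cast
      rw [ZMod.natCast_zmod_val]
      ring
    rw [e]
    generalize (c - b).val = i at hv
    rcases lt_or_ge (i + 1) q with hi | hi
    · rw [ZMod.val_natCast_of_lt hi]
      exact a3 i (by omega)
    · obtain rfl : i = q - 1 := by omega
      rw [show q - 1 + 1 = q by omega, ZMod.natCast_self, ZMod.val_zero, a2]
      have h3 : dist (y (q - 1)).1.1 (y 0).1.1 < δ := (hN h).2 _ le_rfl _ (Nat.zero_le _)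
      linarith [dist_triangle (en (y (q - 1)).2) (y (q - 1)).1.1 (y 0).1.1]
  · have e := (Equiv.subRight b).sum_comp fun c => (y c.val).2.2
    exact (e.trans (zy1_sum fun i => (y i).2.2)).trans_lt (hy.2 (hN h))

theorem cyc_far (b : ZMod q) : MapsTo (cyc (Pos M d) b) (far δ (q - 1)) (farZ q δ) := by
  intro y hy h
  have h1 : ∀ c : ZMod q, ‖(y (c - b).val).1.2‖ ≤ δ / 2 := h.1
  have h2 : ∀ c c' : ZMod q, dist (y (c - b).val).1.1 (y (c' - b).val).1.1 ≤ δ / 2 := h.2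
  refine hy ⟨fun i hi => ?_, fun i hi j hj => ?_⟩
  · have := h1 (b + i)
    rwa [zy1_val b hi] at this
  · have := h2 (b + i) (b + j)
    rwa [zy1_val b hi, zy1_val b hj] at this

theorem off_CZ (A : Set (ZMod q → Pos M d)) :
    off A (xiZ M d q) (NrZC q (δ / 2) ×ˢ univ) = A ∩ farZ q δ :=
  Set.ext fun x => ⟨fun h => ⟨h.1, fun h' => h.2 ⟨h', trivial⟩⟩, fun h => ⟨h.1, fun h' => h.2 h'.1⟩⟩

theorem exists_YH [CompactSpace M] (h2 : (2 : F) ≠ 0) (S : GS M)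
    (hE : ∀ p : M, ∃ U : Set M, IsOpen U ∧ p ∈ U ∧ Euc d U) (O : OR F d M) :
    ∃ δ0 > 0, ∀ δ, 0 < δ → δ ≤ δ0 → ∃ O' : OR F (d + d) (Bs M d), YH S δ O' := by
  have h1 := or_model (W := Fin d → ℝ) h2
  rw [Module.finrank_fin_fun] at h1
  obtain ⟨O1⟩ := h1
  obtain ⟨O2⟩ := OR.prod h2 O O1
  obtain ⟨r0, p0, q0⟩ := O2.radius (C := univ ×ˢ {0}) (isCompact_univ.prod isCompact_singleton)
  obtain ⟨r1, p1, q1⟩ := euc_radius hE
  have ha := S.a_pos
  refine ⟨min (S.a / 16) (min r0 (r1 / 2)), by positivity, fun δ hδ hl => ?_⟩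
  obtain ⟨l1, l2, l3⟩ : δ ≤ S.a / 16 ∧ δ ≤ r0 ∧ δ ≤ r1 / 2 := by simpa only [le_min_iff] using hl
  choose o k1 k2 k3 using fun b : Bs M d => (O2.gen b).small (U := ball b (δ / 8)) isOpen_ball
    (mem_ball_self (by positivity))
  have key : ∀ z c, z - O2.o c ∈ NN F univ (univ \ {c}) → z - o c ∈ NN F univ (univ \ {c}) :=
    fun z c h => by
      have := add_mem h (k3 c)
      rwa [sub_add_sub_cancel] at this
  refine ⟨⟨o, k2, fun c0 => ?_⟩, hδ, by linarith, fun b => CC_mono inter_subset_right (k1 b),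
    fun p => q1 p _ (by linarith), fun p => ?_⟩
  · obtain ⟨U, hU, z, z1, z2, z3⟩ := O2.loc c0
    exact ⟨U, hU, z, z1, z2, fun c hc => key z c (z3 c hc)⟩
  · obtain ⟨z, z1, z2, z3⟩ := q0 (p, 0) ⟨trivial, rfl⟩
    exact ⟨z, ZZ_mono subset_rfl (compl_subset_compl.2 (ball_subset_ball l2)) z1, z2,
      fun c hc => key z c (z3 c (ball_subset_ball l2 hc))⟩

end Pool.Agent.Fu
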