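import Mathlib
import Pool.Agent.P.MP_365c00_gt.ZY1
import Pool.Agent.P.MP_365c00_gt.ZD2

/-! Excision near the fixed configurations. -/

set_option linter.unusedSectionVars false
set_option linter.unusedVariables false

open Set Topology Filter Metric

namespace Pool.Agent.Fu

variable {F : Type} [Field F] {M : Type} [MetricSpace M] {d q n : ℕ} {S : GS M} {p0 p : M}
  {δ t : ℝ}

variable [NeZero q]

theorem zd7_ball {b : Bs M d} {r : ℝ} (h : b ∈ ball ((p, 0) : Bs M d) r) :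
    dist b.1 p < r ∧ ‖b.2‖ < r := by
  rw [mem_ball, Prod.dist_eq, max_lt_iff, dist_zero_right] at h
  exact h

theorem zd7_Zt {x : ZMod q → Pos M d} (h : ∀ c, x c ∈ A0 δ) : x ∈ Zt q δ := by
  intro hn i
  obtain ⟨h1, -, h3⟩ := h i (hn.1 i)
  refine ⟨h1, ?_⟩
  rw [(h (i + 1) (hn.1 (i + 1))).2.1]
  have h4 : dist (x i).1.1 (x (i + 1)).1.1 < δ := hn.2 i (i + 1)
  linarith [dist_triangle (en (x i).2) (x i).1.1 (x (i + 1)).1.1]

theorem zd7_WZ (hδ : 0 < δ) {x : ZMod q → Pos M d} {c : ZMod q} (h : x c ∈ A0 δ)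
    (hc : (x c).1 ≠ (p, 0)) : x ∈ WZ q p := by
  refine Or.inl ⟨c, ?_⟩
  by_contra hn
  rw [not_or, not_not, not_not] at hn
  have h1 := (h (by rw [hn.1, norm_zero]; exact hδ)).2.1
  exact hc (Prod.ext (h1.symm.trans hn.2) hn.1)

theorem zd7_not {x : ZMod q → Pos M d} (h : x ∉ WZ q p) :
    (∀ i, (x i).1.2 = 0 ∧ st (x i).2 = p) ∧ ∀ i j, (x i).1.1 = (x j).1.1 := by
  refine ⟨fun i => ⟨?_, ?_⟩, fun i j => ?_⟩
  · by_contra hn
    exact h (Or.inl ⟨i, Or.inl hn⟩)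
  · by_contra hn
    exact h (Or.inl ⟨i, Or.inr hn⟩)
  · by_contra hn
    exact h (Or.inr ⟨i, j, hn⟩)

theorem zd7_far (hδ : 0 < δ) (p : M) : (farZ q δ : Set (ZMod q → Pos M d)) ⊆ WZ q p := by
  intro x hx
  by_contra hn
  obtain ⟨h1, h2⟩ := zd7_not hn
  refine hx ⟨fun i => ?_, fun i j => ?_⟩
  · rw [(h1 i).1, norm_zero]
    linarith
  · rw [h2 i j, dist_self]
    linarith

theorem zd7_cov (hδ : 0 < δ) (p : M) (x : ZMod q → Pos M d) : x ∈ UZ q δ p ∪ WZ q p := by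
  by_cases hn : x ∈ WZ q p
  · exact Or.inr hn
  obtain ⟨h1, h2⟩ := zd7_not hn
  refine Or.inl ⟨⟨fun i => ?_, fun i j => ?_⟩, fun i => ?_⟩
  · rw [(h1 i).1, norm_zero]
    exact hδ
  · rw [h2 i j, dist_self]
    exact hδ
  · rw [(h1 i).2, dist_self]
    exact hδ

theorem UZ_open (δ : ℝ) (p : M) : IsOpen (UZ q δ p : Set (ZMod q → Pos M d)) := by
  have h1 : IsOpen {x : ZMod q → Pos M d | (fun i => (x i).1) ∈ NrZ q δ} :=
    (NrZ_open δ).preimage (f := fun (x : ZMod q → Pos M d) i => (x i).1) (by fun_prop)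
  have h2 : IsOpen {x : ZMod q → Pos M d | ∀ i, dist (st (x i).2) p < δ} := by
    rw [ofPred_forall]
    exact isOpen_iInter_of_finite fun i =>
      isOpen_lt ((st_cont.comp (by fun_prop)).dist continuous_const) continuous_const
  exact h1.inter h2

theorem WZ_open (p : M) : IsOpen (WZ q p : Set (ZMod q → Pos M d)) := by
  have h1 : IsOpen {x : ZMod q → Pos M d | ∃ i, (x i).1.2 ≠ 0 ∨ st (x i).2 ≠ p} := by
    rw [ofPred_exists]
    exact isOpen_iUnion fun i => (isOpen_ne_fun (by fun_prop) continuous_const).union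
      (isOpen_ne_fun (st_cont.comp (by fun_prop)) continuous_const)
  have h2 : IsOpen {x : ZMod q → Pos M d | ∃ i j, (x i).1.1 ≠ (x j).1.1} := by
    simp only [ofPred_exists]
    exact isOpen_iUnion fun i => isOpen_iUnion fun j => isOpen_ne_fun (by fun_prop) (by fun_prop)
  exact h1.union h2

theorem UZ_inv (δ : ℝ) (p : M) : MapsTo (shf (Pos M d) q) (UZ q δ p) (UZ q δ p) :=
  fun x hx => ⟨⟨fun i => hx.1.1 (i - 1), fun i j => hx.1.2 (i - 1) (j - 1)⟩, fun i => hx.2 (i - 1)⟩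

theorem WZ_inv (p : M) : MapsTo (shf (Pos M d) q) (WZ q p) (WZ q p) := by
  have e : ∀ (x : ZMod q → Pos M d) (i : ZMod q), shf (Pos M d) q x (i + 1) = x i := fun x i =>
    congrArg x (add_sub_cancel_right i 1)
  rintro x (⟨i, hi⟩ | ⟨i, j, hij⟩)
  · exact Or.inl ⟨i + 1, by rw [e]; exact hi⟩
  · exact Or.inr ⟨i + 1, j + 1, by rw [e, e]; exact hij⟩

theorem Gb_cont (hδ : 0 < δ) (ha : 16 * δ ≤ S.a) :
    ContinuousOn (Gb S : Pos M d → Pos M d) (ball ((p, 0) : Bs M d) (δ / 8) ×ˢ Pa p p) := by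
  refine continuousOn_fst.prodMk (S.wh_cont (by fun_prop) (by fun_prop) continuousOn_snd ?_)
  intro y hy
  have h1 := (zd7_ball hy.1).1
  refine ⟨hy.2.1, ?_, ?_⟩
  · rw [hy.2.2.1]
    linarith
  · rw [hy.2.2.2, dist_comm]
    linarith

theorem Gb_mem (hδ : 0 < δ) (ha : 16 * δ ≤ S.a) {y : Pos M d}
    (hy : y ∈ ball ((p, 0) : Bs M d) (δ / 8) ×ˢ Pa p p) :
    (Gb S y).1 = y.1 ∧ (Gb S y).2 ∈ Pa y.1.1 y.1.1 := by
  have h1 := (zd7_ball hy.1).1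
  exact ⟨rfl, (S.wh_mem hy.2 (by linarith) (by rw [dist_comm]; linarith)).1⟩

theorem det_exc [CharP F q] (hδ : 0 < δ) (ha : 16 * δ ≤ S.a) {o : Ch F (Bs M d)}
    (ho : o ∈ ZZ F univ (univ \ {((p, 0) : Bs M d)})) (hod : o ∈ HD F _ (d + d))
    (hos : o ∈ CC F (ball ((p, 0) : Bs M d) (δ / 8))) {D : ℕ} (hD : Even D) {w : Ch F (Mo M)}
    (hw : w ∈ ZZ F (Pa p p) ∅) (hd : w ∈ HD F _ D) {z : Ch F (Pos M d)}
    (hz : z - mp (Gb S) (cross o w) ∈ CC F (A0 δ ∩ {y : Pos M d | y.1 ≠ (p, 0)})) {lo : ℝ} {R : ℕ}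
    (h : (gcy F (Pos M d) q).Nul (CC F (Zt q δ)) (CC F (Zt q δ ∩ farZ q δ ∪ Zs q δ lo)) R
      (sq 0 (cpr q fun _ => z))) :
    (gcy F (Pos M d) q).Nul (CC F (Zt q δ ∩ UZ q δ p))
      (CC F ((Zt q δ ∩ WZ q p ∪ Zs q δ lo) ∩ UZ q δ p)) R
      (sq 0 (cpr q fun _ => mp (Gb S) (cross o w))) := by
  let A1 : Set (Pos M d) := {y | y.1 ∈ ball ((p, 0) : Bs M d) (δ / 8) ∧ y.2 ∈ Pa y.1.1 y.1.1}
  have h10 : A1 ⊆ A0 δ := fun y hy _ =>
    ⟨hy.2.1, hy.2.2.1, by rw [hy.2.2.2, dist_self]; exact hδ⟩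
  have hb : mp (Gb S) (cross o w) ∈ ZZ F A1 {y : Pos M d | y.1 ≠ (p, 0)} := by
    refine mp_mem_ZZ (Gb_cont hδ ha) (fun y hy => And.intro hy.1 (Gb_mem hδ ha hy).2) ?_
      (cross_mem_ZZ (mem_ZZ.2 ⟨hos, (mem_ZZ.1 ho).2⟩) hw)
    rintro y ⟨-, h1 | h1⟩
    · exact h1.1.2
    · exact h1.2.elim
  have hbd : mp (Gb S) (cross o w) ∈ HD F _ (d + d + D) := mp_mem_HD _ (cross_mem_HD hod hd)
  generalize mp (Gb S) (cross o w) = b at hz hb hbd ⊢
  have hb0 : b ∈ CC F (A0 δ) := CC_mono h10 (mem_ZZ.1 hb).1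
  have hz0 : z ∈ CC F (A0 δ) := by
    have := add_mem (CC_mono inter_subset_left hz) hb0
    rwa [sub_add_cancel] at this
  have hs : (cpr q fun _ => z) - (cpr q fun _ => b) ∈ CC F (Zt q δ ∩ WZ q p ∪ Zs q δ lo) :=
    CC_mono (fun x hx => Or.inl ⟨zd7_Zt hx.1, by
      obtain ⟨c, hc⟩ := hx.2
      exact zd7_WZ hδ hc.1 hc.2⟩) (cpr_sub_CC (fun _ _ => hz0) (fun _ _ => hb0) fun _ _ => hz)
  have h1 : (gcy F (Pos M d) q).Nul (CC F (Zt q δ)) (CC F (Zt q δ ∩ WZ q p ∪ Zs q δ lo)) R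
      (sq 0 (cpr q fun _ => b)) := by
    refine (h.mono le_rfl (CC_mono (union_subset_union_left _
      (inter_subset_inter_right _ (zd7_far hδ p)))) le_rfl).congr fun j _ => ?_
    unfold sq
    split_ifs
    · exact hs
    · rw [sub_zero]
      exact zero_mem _
  have hBA : (Zt q δ ∩ WZ q p ∪ Zs q δ lo : Set (ZMod q → Pos M d)) ⊆ Zt q δ :=
    union_subset inter_subset_left fun x hx => hx.1
  have hBi : MapsTo (shf (Pos M d) q) (Zt q δ ∩ WZ q p ∪ Zs q δ lo)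
      (Zt q δ ∩ WZ q p ∪ Zs q δ lo) :=
    ((Zt_inv δ).inter_inter (WZ_inv p)).union_union (Zs_inv δ lo)
  have hU : ∀ x : ZMod q → Pos M d, (∀ c, x c ∈ A1) → x ∈ UZ q δ p := by
    intro x hx
    refine ⟨⟨fun i => ?_, fun i j => ?_⟩, fun i => ?_⟩
    · linarith [(zd7_ball (hx i).1).2]
    · linarith [(zd7_ball (hx i).1).1, (zd7_ball (hx j).1).1,
        dist_triangle_right (x i).1.1 (x j).1.1 p]
    · rw [(hx i).2.2.1]
      linarith [(zd7_ball (hx i).1).1]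
  have hc := mem_ZZ.1 (cpr_ZZ (q := q) (b := fun _ => b) fun _ _ => hb)
  refine GC.Nul.reflect (G' := gcy F (Pos M d) q) (f := LinearMap.id)
    ⟨fun _ _ => rfl, fun _ _ => rfl, fun _ hc => CC_mono inter_subset_left hc,
      fun _ hc => CC_mono inter_subset_left hc⟩
    (QI_exc (UZ_open δ p) (WZ_open p) (fun x _ => zd7_cov hδ p x) subset_union_left hBA)
    (gc_st _ ((Zt_inv δ).inter_inter (UZ_inv δ p))) (gc_st _ (hBi.inter_inter (UZ_inv δ p)))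
    (gc_st _ (Zt_inv δ)) (gc_st _ hBi) (CC_mono (inter_subset_inter_left _ hBA)) (CC_mono hBA)
    (GC.seq_sq ?_ ?_ ?_ 0 R) h1
  · refine CC_mono (fun x hx => ?_) hc.1
    exact ⟨zd7_Zt fun c => h10 (hx c), hU x hx⟩
  · refine CC_mono (fun x hx => mem_inter
      (Or.inl (mem_inter (zd7_Zt fun c => h10 (hx.1 c)) ?_)) (hU x hx.1)) hc.2
    obtain ⟨c, hc⟩ := hx.2
    exact zd7_WZ hδ (h10 (hx.1 c)) hc
  · exact cpr_fix hbd ((Even.add_self d).add hD)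

end Pool.Agent.Fu
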