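import Mathlib
import Pool.Agent.P.MP_365c00_gt.ZD7
import Pool.Agent.P.MP_365c00_gt.ZD6

/-! Passing to a product of two cyclic spaces. -/

set_option linter.unusedSectionVars false
set_option linter.unusedVariables false

open Set Topology Filter Metric

namespace Pool.Agent.Fu

variable {F : Type} [Field F] {M : Type} [MetricSpace M] {d q n : ℕ} {S : GS M} {p0 p : M}
  {δ t : ℝ}

/-- the map to the product -/
noncomputable def zd8aF (S : GS M) (p : M) {V : Type} (ι : M → V) (φ : M → Fin d → ℝ)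
    (x : ZMod q → Pos M d) :
    (ZMod q → V × ((Fin d → ℝ) × (Fin d → ℝ))) × (ZMod q → Mo M) :=
  (fun c => (ι (x c).1.1, ((x c).1.2, φ (st (x c).2) - φ p)), fun c => S.wh p p (x c).2)

theorem zd8a_near {x : ZMod q → Pos M d} (h1 : x ∈ Zt q δ) (h2 : x ∈ UZ q δ p) (c : ZMod q) :
    IsP (x c).2 ∧ dist p (st (x c).2) < δ ∧ dist (en (x c).2) p < 3 * δ := by
  obtain ⟨a, b⟩ := h1 h2.1 c
  refine ⟨a, by rw [dist_comm]; exact h2.2 c, ?_⟩
  have := dist_triangle (en (x c).2) (st (x (c + 1)).2) p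
  linarith [h2.2 (c + 1)]

theorem zd8a_wh (hδ : 0 < δ) (ha : 16 * δ ≤ S.a) {x : ZMod q → Pos M d} (h1 : x ∈ Zt q δ)
    (h2 : x ∈ UZ q δ p) (c : ZMod q) :
    S.wh p p (x c).2 ∈ Pa p p ∧ (S.wh p p (x c).2).2 ≤ (x c).2.2 + 4 * δ := by
  obtain ⟨a, b, e⟩ := zd8a_near h1 h2 c
  obtain ⟨k1, k2⟩ := GS.wh_mem S (x' := p) (y' := p) (γ := (x c).2) ⟨a, rfl, rfl⟩ (by linarith)
    (by linarith)
  exact ⟨k1, by linarith⟩

theorem zd8a_cont (hδ : 0 < δ) (ha : 16 * δ ≤ S.a) {V : Type} [TopologicalSpace V] (ι : C(M, V))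
    {φ : M → Fin d → ℝ} (hφ : ContinuousOn φ (ball p δ)) :
    ContinuousOn (zd8aF (q := q) S p ι φ) (Zt q δ ∩ UZ q δ p) := by
  refine ContinuousOn.prodMk (continuousOn_pi.2 fun c => ?_) (continuousOn_pi.2 fun c => ?_)
  · refine ContinuousOn.prodMk (Continuous.continuousOn (by fun_prop))
      (ContinuousOn.prodMk (Continuous.continuousOn (by fun_prop))
        (ContinuousOn.sub ?_ continuousOn_const))
    exact hφ.comp (st_cont.comp (f := fun x : ZMod q → Pos M d => (x c).2)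
      (by fun_prop)).continuousOn fun x hx => hx.2.2 c
  · refine GS.wh_cont S continuousOn_const continuousOn_const
      (Continuous.continuousOn (by fun_prop)) fun x hx => ?_
    obtain ⟨a, b, e⟩ := zd8a_near hx.1 hx.2 c
    exact ⟨a, by linarith, by linarith⟩

theorem zd8a_ne (hδ : 0 < δ) {φ : M → Fin d → ℝ} (hi : InjOn φ (ball p δ)) {m : M}
    {v : Fin d → ℝ} (hm : m ∈ ball p δ) (h : v ≠ 0 ∨ m ≠ p) :
    ((v, φ m - φ p) : (Fin d → ℝ) × (Fin d → ℝ)) ≠ 0 := by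
  intro e
  rw [Prod.mk_eq_zero, sub_eq_zero] at e
  exact h.elim (fun k => k e.1) fun k => k (hi hm (mem_ball_self hδ) e.2)

theorem zd8a_maps [NeZero q] (hδ : 0 < δ) (ha : 16 * δ ≤ S.a) {V : Type} {ι : M → V}
    (hι : Function.Injective ι) {φ : M → Fin d → ℝ} (hi : InjOn φ (ball p δ)) {lo l : ℝ}
    (hlo : lo + 4 * δ * q ≤ q * l) :
    MapsTo (zd8aF (q := q) S p ι φ) ((Zt q δ ∩ WZ q p ∪ Zs q δ lo) ∩ UZ q δ p)
      (WV V ((Fin d → ℝ) × (Fin d → ℝ)) q ×ˢ {x : ZMod q → Mo M | ∀ c, x c ∈ Pa p p} ∪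
        univ ×ˢ {x : ZMod q → Mo M | (∀ c, x c ∈ Pa p p) ∧ ∃ c, x c ∈ {γ : Mo M | γ.2 < l}}) := by
  rintro x ⟨⟨h1, h3⟩ | ⟨h1, h3⟩, h2⟩
  · refine Or.inl ⟨?_, fun c => (zd8a_wh hδ ha h1 h2 c).1⟩
    rcases h3 with ⟨i, h3⟩ | ⟨i, j, h3⟩
    · exact Or.inl ⟨i, zd8a_ne hδ hi (h2.2 i) h3⟩
    · exact Or.inr ⟨i, j, fun e => h3 (hι e)⟩
  · refine Or.inr ⟨mem_univ _, fun c => (zd8a_wh hδ ha h1 h2 c).1, ?_⟩
    by_contra hn
    have hl : ∀ c : ZMod q, l ≤ (x c).2.2 + 4 * δ := fun c =>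
      (not_lt.1 fun k => hn ⟨c, k⟩).trans (zd8a_wh hδ ha h1 h2 c).2
    have := Finset.sum_le_sum fun c (_ : c ∈ Finset.univ) => hl c
    rw [Finset.sum_add_distrib, Finset.sum_const, Finset.sum_const, Finset.card_univ, ZMod.card,
      nsmul_eq_mul, nsmul_eq_mul] at this
    linarith [h3 h2.1]

theorem zd8a_ball {b : Bs M d} {r : ℝ} (h : b ∈ ball ((p, 0) : Bs M d) r) :
    dist b.1 p < r ∧ ‖b.2‖ < r := by
  rw [mem_ball, Prod.dist_eq, max_lt_iff, dist_zero_right] at h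
  exact h

theorem zd8a_gb [NeZero q] (hδ : 0 < δ) (ha : 16 * δ ≤ S.a) :
    MapsTo (fun (x : ZMod q → Pos M d) (c : ZMod q) => Gb S (x c))
      {x | ∀ c, x c ∈ ball ((p, 0) : Bs M d) (δ / 8) ×ˢ Pa p p} (Zt q δ ∩ UZ q δ p) := by
  intro x hx
  have h1 := fun c => zd8a_ball (hx c).1
  have h2 := fun c => (Gb_mem hδ ha (hx c)).2
  have h3 : ∀ i j, dist (x i).1.1 (x j).1.1 < δ := fun i j => by
    have := dist_triangle_right (x i).1.1 (x j).1.1 p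
    linarith [(h1 i).1, (h1 j).1]
  refine ⟨fun _ i => ⟨(h2 i).1, ?_⟩, ⟨fun i => ?_, h3⟩, fun i => ?_⟩
  · rw [(h2 i).2.2, (h2 (i + 1)).2.1]
    linarith [h3 i (i + 1)]
  · exact (h1 i).2.trans (by linarith)
  · rw [(h2 i).2.1]
    exact (h1 i).1.trans (by linarith)

theorem zd8a_hp (hδ : 0 < δ) (ha : 16 * δ ≤ S.a) :
    Htp (ball ((p, 0) : Bs M d) (δ / 8) ×ˢ Pa p p) (fun _ ω => ω ∈ Pa p p)
      (fun z : Pos M d => S.wh p p (Gb S z).2) fun z => z.2 := by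
  have := GS.hp_wh_wh S (A := ball ((p, 0) : Bs M d) (δ / 8) ×ˢ Pa p p)
    (x := fun z : Pos M d => z.1.1) (y := fun z => z.1.1) (x' := fun _ => p) (y' := fun _ => p)
    (f := fun z => z.2) (by fun_prop) (by fun_prop) continuousOn_const continuousOn_const
    (by fun_prop) fun z hz => by
      have k := (zd8a_ball hz.1).1
      rw [hz.2.2.1, hz.2.2.2, dist_comm p]
      exact ⟨hz.2.1, by linarith, by linarith⟩
  exact (Htp.mono this subset_rfl fun z _ ω h => h.1).congr (fun z _ => rfl)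
    fun z hz => GS.wh_self S hz.2

theorem det_push [NeZero q] [CharP F q] (hδ : 0 < δ) (ha : 16 * δ ≤ S.a) {V : Type}
    [TopologicalSpace V] (ι : C(M, V)) (hι : Function.Injective ι) {φ : M → Fin d → ℝ}
    (hφ : ContinuousOn φ (ball p δ)) (hi : InjOn φ (ball p δ)) {o : Ch F (Bs M d)}
    (ho : o ∈ ZZ F univ (univ \ {((p, 0) : Bs M d)})) (hod : o ∈ HD F _ (d + d))
    (hos : o ∈ CC F (ball ((p, 0) : Bs M d) (δ / 8))) {D : ℕ} (hD : Even D) {w : Ch F (Mo M)}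
    (hw : w ∈ ZZ F (Pa p p) ∅) (hd : w ∈ HD F _ D) {lo l : ℝ} (hlo : lo + 4 * δ * q ≤ q * l) {R : ℕ}
    (h : (gcy F (Pos M d) q).Nul (CC F (Zt q δ ∩ UZ q δ p))
      (CC F ((Zt q δ ∩ WZ q p ∪ Zs q δ lo) ∩ UZ q δ p)) R
      (sq 0 (cpr q fun _ => mp (Gb S) (cross o w)))) :
    (gcy2 F (Mo M) q (V × ((Fin d → ℝ) × (Fin d → ℝ)))).Nul
      (CC F (univ ×ˢ {x : ZMod q → Mo M | ∀ c, x c ∈ Pa p p}))
      (CC F (WV V ((Fin d → ℝ) × (Fin d → ℝ)) q ×ˢ {x : ZMod q → Mo M | ∀ c, x c ∈ Pa p p} ∪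
        univ ×ˢ {x : ZMod q → Mo M | (∀ c, x c ∈ Pa p p) ∧ ∃ c, x c ∈ {γ : Mo M | γ.2 < l}})) R
      (sq 0 (cross (cpr q fun _ => mp (fun b : Bs M d => (ι b.1, (b.2, φ b.1 - φ p))) o)
        (cpr q fun _ => w))) := by
  set A1 : Set (Pos M d) := ball ((p, 0) : Bs M d) (δ / 8) ×ˢ Pa p p with hA1
  set ψ : Bs M d → V × ((Fin d → ℝ) × (Fin d → ℝ)) := fun b => (ι b.1, (b.2, φ b.1 - φ p)) with hψ
  have hb : ∀ b ∈ ball ((p, 0) : Bs M d) (δ / 8), b.1 ∈ ball p δ := fun b hb =>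
    (zd8a_ball hb).1.trans (by linarith)
  have hψc : ContinuousOn ψ (ball ((p, 0) : Bs M d) (δ / 8)) :=
    ContinuousOn.prodMk (Continuous.continuousOn (by fun_prop)) (continuousOn_snd.prodMk
      ((hφ.comp continuousOn_fst hb).sub continuousOn_const))
  have hz := cross_mem_ZZ (mem_ZZ.2 ⟨hos, ho.2⟩) hw
  have hc0 : cross o w ∈ CC F A1 := hz.1
  have hC := cpr_ZZ (q := q) (b := fun _ => cross o w) fun _ _ => hz
  have hC1 : (cpr q fun _ => cross o w) ∈ CC F {x : ZMod q → Pos M d | ∀ c, x c ∈ A1} := hC.1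
  have hap : ∀ c : ZMod q, ContinuousOn (fun x : ZMod q → Pos M d => x c) {x | ∀ c, x c ∈ A1} :=
    fun c => (continuous_apply c).continuousOn
  have h1 := h.map (gc_eqMap (shf_per (q := q)) (shf2_per (q := q)) (zd8a_cont hδ ha ι hφ)
    ((Zt_inv δ).inter_inter (UZ_inv δ p)) (fun _ _ => rfl)
    (A' := univ ×ˢ {x : ZMod q → Mo M | ∀ c, x c ∈ Pa p p})
    (fun x hx => ⟨mem_univ _, fun c => (zd8a_wh hδ ha hx.1 hx.2 c).1⟩)
    (zd8a_maps hδ ha hι hi hlo)) (gc_st _ ((Zt_inv δ).inter_inter (UZ_inv δ p)))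
  have hgq : ContinuousOn (fun (x : ZMod q → Pos M d) (c : ZMod q) => Gb S (x c))
      {x | ∀ c, x c ∈ A1} :=
    continuousOn_pi.2 fun c => (Gb_cont hδ ha).comp (hap c) fun x hx => hx c
  rw [sq_map, ← cpr_mp (Gb_cont hδ ha) fun _ _ => hc0,
    mp_mp hgq (zd8a_cont hδ ha ι hφ) (zd8a_gb hδ ha) hC1] at h1
  obtain ⟨H0, hH, e0, e1, hR⟩ := zd8a_hp (d := d) (p := p) hδ ha
  let H : ℝ × (ZMod q → Pos M d) →
      (ZMod q → V × ((Fin d → ℝ) × (Fin d → ℝ))) × (ZMod q → Mo M) :=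
    fun z => (fun c => ψ (z.2 c).1, fun c => H0 (z.1, z.2 c))
  have hHc : ContinuousOn H (Icc 0 1 ×ˢ {x | ∀ c, x c ∈ A1}) :=
    ContinuousOn.prodMk
      (continuousOn_pi.2 fun c => hψc.comp (Continuous.continuousOn (by fun_prop))
        fun z hz => (hz.2 c).1)
      (continuousOn_pi.2 fun c => hH.comp (Continuous.continuousOn (by fun_prop))
        fun z hz => ⟨hz.1, hz.2 c⟩)
  have k0 : mp (fun x => H (0, x)) (cpr q fun _ => cross o w) =
      mp (zd8aF S p ι φ ∘ fun (x : ZMod q → Pos M d) (c : ZMod q) => Gb S (x c))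
        (cpr q fun _ => cross o w) := by
    refine mp_congr (fun x hx => ?_) hC1
    refine Prod.ext (funext fun c => ?_) (funext fun c => e0 _ (hx c))
    show ψ (x c).1 = (ι (x c).1.1, ((x c).1.2, φ (st (Gb S (x c)).2) - φ p))
    rw [(Gb_mem hδ ha (hx c)).2.2.1]
  have hψ2 : ContinuousOn (Prod.map ψ id : Pos M d → _) A1 := hψc.prodMap continuousOn_id
  have k1 : mp (fun x => H (1, x)) (cpr q fun _ => cross o w) =
      cross (cpr q fun _ => mp ψ o) (cpr q fun _ => w) := by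
    have e : cross (mp ψ o) w = mp (Prod.map ψ id) (cross o w) := by
      rw [← cross_mp hψc continuousOn_id hos hw.1, mp_id]
    have hq2 : ContinuousOn (fun (x : ZMod q → Pos M d) (c : ZMod q) => Prod.map ψ id (x c))
        {x | ∀ c, x c ∈ A1} := continuousOn_pi.2 fun c => hψ2.comp (hap c) fun x hx => hx c
    rw [← cpr_zip (mp_mem_HD ψ hod) ⟨d, rfl⟩ hd, e, ← cpr_mp hψ2 fun _ _ => hc0,
      map_mp _ hq2 hC1]
    refine mp_congr (fun x hx => ?_) hC1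
    exact Prod.ext rfl (funext fun c => e1 _ (hx c))
  have hfix : map ((shf _ q).prodMap (shf (Mo M) q)) (prism H (cpr q fun _ => cross o w)) =
      prism H (cpr q fun _ => cross o w) := by
    rw [← prism_equiv hHc (shf _ q) _ (fun x hx c => hx _) (fun _ _ _ _ => rfl) hC1,
      cpr_fix (cross_mem_HD hod hd) (Even.add ⟨d, rfl⟩ hD)]
  have hHA : MapsTo H (Icc 0 1 ×ˢ {x | ∀ c, x c ∈ A1})
      (univ ×ˢ {x : ZMod q → Mo M | ∀ c, x c ∈ Pa p p}) :=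
    fun z hz => ⟨mem_univ _, fun c => hR _ hz.1 _ (hz.2 c)⟩
  have h2 := GC.nul_sq (G := gcy2 F (Mo M) q (V × ((Fin d → ℝ) × (Fin d → ℝ))))
    (A := CC F (univ ×ˢ {x : ZMod q → Mo M | ∀ c, x c ∈ Pa p p}))
    (B := CC F (WV V ((Fin d → ℝ) × (Fin d → ℝ)) q ×ˢ {x : ZMod q → Mo M | ∀ c, x c ∈ Pa p p} ∪
        univ ×ˢ {x : ZMod q → Mo M | (∀ c, x c ∈ Pa p p) ∧ ∃ c, x c ∈ {γ : Mo M | γ.2 < l}}))
    (g := mp (fun x => H (1, x)) (cpr q fun _ => cross o w) -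
      mp (fun x => H (0, x)) (cpr q fun _ => cross o w))
    (h := prism H (cpr q fun _ => cross o w))
    (prism_mem_CC hHA hC1) hfix (by
      rw [← bd_prism hHc hC1]
      refine zg1_of_eq (prism_mem_CC (H := H) ?_ hC.2) (add_sub_cancel_left _ _)
      rintro z ⟨hu, hx, c, hc⟩
      refine Or.inl ⟨Or.inl ⟨c, zd8a_ne hδ hi (hb _ (hx c).1) ?_⟩, fun c => hR _ hu _ (hx c)⟩
      rcases hc with hc | hc
      · by_contra hn
        rw [not_or, not_not, not_not] at hn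
        exact hc.1.2 (Prod.ext hn.2 hn.1)
      · exact hc.2.elim) R
  rw [k0, k1] at h2
  refine (h1.add h2).congr fun j _ => zg1_of_eq (Submodule.zero_mem _) ?_
  unfold sq
  split_ifs <;> simp

end Pool.Agent.Fu
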