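import Mathlib
import Pool.Agent.P.MP_365c00_gt.ZD8a
import Pool.Agent.P.MP_365c00_gt.ZD4

/-! The contradiction with the localisation. -/

set_option linter.unusedSectionVars false
set_option linter.unusedVariables false

open Set Topology Filter Metric

namespace Pool.Agent.Fu

variable {F : Type} [Field F] {M : Type} [MetricSpace M] {d q n : ℕ} {S : GS M} {p0 p : M}
  {δ t : ℝ}

theorem det_main [Fact q.Prime] [CharP F q] (h2 : (2 : F) ≠ 0) (hδ : 0 < δ) (ha : 16 * δ ≤ S.a)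
    (hE : Euc d (ball p (2 * δ))) {N : ℕ} (ι : C(M, Fin N → ℝ)) (hι : Function.Injective ι)
    {o : Ch F (Bs M d)} (ho : Gen F (d + d) univ ((p, 0) : Bs M d) o)
    (hos : o ∈ CC F (ball ((p, 0) : Bs M d) (δ / 8))) {D : ℕ} (hD : Even D) {w : Ch F (Mo M)}
    (hw : w ∈ ZZ F (Pa p p) ∅) (hd : w ∈ HD F _ D) {l : ℝ} (hn : w ∉ NN F (Pa p p) (Om p p l))
    {z : Ch F (Pos M d)}
    (hz : z - mp (Gb S) (cross o w) ∈ CC F (A0 δ ∩ {y : Pos M d | y.1 ≠ (p, 0)})) {lo : ℝ}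
    (hlo : lo + 4 * δ * q ≤ q * l) {R : ℕ} (hR : (N + (d + d)) * q ≤ R) :
    ¬ (gcy F (Pos M d) q).Nul (CC F (Zt q δ)) (CC F (Zt q δ ∩ farZ q δ ∪ Zs q δ lo)) R
      (sq 0 (cpr q fun _ => z)) := by
  intro h
  obtain ⟨φ, ψ, V0, hV0, hφ, hψ, m1, m2, l1, l2⟩ := hE
  have hsub : ball p δ ⊆ ball p (2 * δ) := ball_subset_ball (by linarith)
  have hp : p ∈ ball p (2 * δ) := mem_ball_self (by linarith)
  have hinj : InjOn φ (ball p (2 * δ)) := fun x hx y hy e => by rw [← l1 x hx, e, l1 y hy]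
  have h1 := det_exc hδ ha ho.zz ho.hd hos hD hw hd hz h
  have h3 := det_push hδ ha ι hι (hφ.mono hsub) (hinj.mono hsub) ho.zz ho.hd hos hD hw hd hlo h1
  set Ψ : Bs M d → (Fin N → ℝ) × ((Fin d → ℝ) × (Fin d → ℝ)) :=
    fun b => (ι b.1, (b.2, φ b.1 - φ p)) with hΨdef
  set U : Set (Bs M d) := ball p (2 * δ) ×ˢ univ with hU
  have hoU : o ∈ CC F U := by
    refine CC_mono (B := U) ?_ hos
    intro b hb
    refine ⟨?_, mem_univ _⟩
    have h4 : dist b.1 p ≤ dist b ((p, 0) : Bs M d) := by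
      rw [Prod.dist_eq]
      exact le_max_left _ _
    have h5 : dist b ((p, 0) : Bs M d) < δ / 8 := hb
    show dist b.1 p < 2 * δ
    linarith
  have hφ' : ContinuousOn (fun b : Bs M d => (b.2, φ b.1 - φ p)) U :=
    continuousOn_snd.prodMk
      ((hφ.comp continuousOn_fst fun b hb => hb.1).sub continuousOn_const)
  have hΨ : ContinuousOn Ψ U :=
    (ι.continuous.comp continuous_fst).continuousOn.prodMk hφ'
  have ho' : mp Ψ o ∈ ZZ F univ {z : (Fin N → ℝ) × ((Fin d → ℝ) × (Fin d → ℝ)) | z.2 ≠ 0} := by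
    refine mp_mem_ZZ (B := univ \ {((p, 0) : Bs M d)}) hΨ (mapsTo_univ _ _) ?_
      (mem_ZZ.2 ⟨hoU, (mem_ZZ.1 ho.zz).2⟩)
    intro b hb e
    have e1 : b.2 = 0 := congrArg Prod.fst e
    have e2 : φ b.1 - φ p = 0 := congrArg Prod.snd e
    exact hb.2.2 (Prod.ext (hinj hb.1.1 hp (sub_eq_zero.1 e2)) e1)
  have hd' : mp Ψ o ∈ HD F _ (d + d) := mp_mem_HD Ψ ho.hd
  have hg : Gen F (d + d) univ 0 (map ContinuousMap.snd (mp Ψ o)) := by
    rw [map_mp _ hΨ hoU]
    have hc : Continuous fun e : (Fin d → ℝ) × (Fin d → ℝ) => e.2 + φ p := by fun_prop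
    have h4 := ho.transfer (B := univ) (U := U)
      (V := {e : (Fin d → ℝ) × (Fin d → ℝ) | e.2 + φ p ∈ V0}) (isOpen_ball.prod isOpen_univ)
      (hV0.preimage hc) ⟨mem_univ _, hp, mem_univ _⟩ (by rwa [univ_inter])
      (φ := fun b : Bs M d => (b.2, φ b.1 - φ p)) (ψ := fun e => (ψ (e.2 + φ p), e.1))
      (hφ'.mono inter_subset_right)
      ((hψ.comp hc.continuousOn fun e he => he.2).prodMk continuousOn_fst)
      (fun b hb => ⟨mem_univ _, by
        show φ b.1 - φ p + φ p ∈ V0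
        rw [sub_add_cancel]
        exact m1 hb.2.1⟩)
      (fun e he => ⟨mem_univ _, m2 he.2, mem_univ _⟩)
      (fun b hb => by
        show (ψ (φ b.1 - φ p + φ p), b.2) = b
        rw [sub_add_cancel, l1 _ hb.2.1])
      (fun e he => by
        show (e.1, φ (ψ (e.2 + φ p)) - φ p) = e
        rw [l2 _ he.2, add_sub_cancel_right])
    simp only [sub_self] at h4
    exact h4
  have hev : Even (d + d) := ⟨d, rfl⟩
  have hO : IsOpen {γ : Mo M | γ.2 < l} := isOpen_lt continuous_snd continuous_const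
  have hb : bd (cpr q fun _ => mp Ψ o) ∈ CC F (WV (Fin N → ℝ) ((Fin d → ℝ) × (Fin d → ℝ)) q) :=
    CC_mono (fun x hx => Or.inl hx.2) (mem_ZZ.1 (cpr_ZZ (q := q) fun _ _ => ho')).2
  have h5 := tp_nul WV_open WV_inv hO hD hw hd hn hb (cpr_fix hd' hev) h3
  refine loc_false h2 hev ho' hd' hg ?_ h5
  simpa using hR

end Pool.Agent.Fu
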