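import Mathlib
import Pool.Agent.P.MP_365c00_gt.ZW0

/-! Identities for formal words. -/

set_option linter.unusedSectionVars false
set_option linter.unusedVariables false

open Set Topology

namespace Pool.Agent.Fu

variable {F : Type} [Field F] {X Y : Type} [TopologicalSpace X] [TopologicalSpace Y] {q : ℕ}

theorem lin_single {α P : Type} [AddCommGroup P] [Module F P] (f : α → P) (a : α) (r : F) :
    lin f (Finsupp.single a r) = r • f a := by
  exact Finsupp.linearCombination_single F r a

theorem lin_wd {P : Type} [AddCommGroup P] [Module F P] (f : List Lt → P) (w : List Lt) :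
    lin f (wd (F := F) w) = f w := by
  rw [wd, lin_single, one_smul]

theorem lin_mem {α P : Type} [AddCommGroup P] [Module F P] {f : α → P} {s : Set α}
    {N : Submodule F P} (h : ∀ a ∈ s, f a ∈ N) {z : α →₀ F} (hz : z ∈ Finsupp.supported F F s) :
    lin f z ∈ N := by
  rw [Finsupp.supported_eq_span_single] at hz
  refine Submodule.span_induction ?_ ?_ ?_ ?_ hz
  · rintro _ ⟨a, ha, rfl⟩
    rw [lin_single, one_smul]
    exact h a ha
  · rw [map_zero]
    exact zero_mem _
  · intro x y _ _ hx hy
    rw [map_add]
    exact add_mem hx hy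
  · intro r x _ hx
    rw [map_smul]
    exact N.smul_mem r hx

theorem lin_congr {α P : Type} [AddCommGroup P] [Module F P] {f g : α → P} {s : Set α}
    (h : ∀ a ∈ s, f a = g a) {z : α →₀ F} (hz : z ∈ Finsupp.supported F F s) :
    lin f z = lin g z := by
  rw [Finsupp.supported_eq_span_single] at hz
  refine Submodule.span_induction ?_ ?_ ?_ ?_ hz
  · rintro _ ⟨a, ha, rfl⟩
    rw [lin_single, lin_single, h a ha]
  · rw [map_zero, map_zero]
  · intro x y _ _ hx hy
    rw [map_add, map_add, hx, hy]
  · intro r x _ hx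
    rw [map_smul, map_smul, hx]

theorem map_lin {α P Q : Type} [AddCommGroup P] [Module F P] [AddCommGroup Q] [Module F Q]
    (L : P →ₗ[F] Q) (f : α → P) (z : α →₀ F) : L (lin f z) = lin (fun a => L (f a)) z := by
  induction z using Finsupp.induction_linear with
  | zero => simp only [map_zero]
  | add x y hx hy => simp only [map_add, hx, hy]
  | single a r => simp only [lin_single, map_smul]

theorem lin_sub {α P : Type} [AddCommGroup P] [Module F P] (f g : α → P) (z : α →₀ F) :
    lin (fun a => f a - g a) z = lin f z - lin g z := by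
  induction z using Finsupp.induction_linear with
  | zero => simp only [map_zero, sub_self]
  | add x y hx hy =>
    simp only [map_add, hx, hy]
    abel
  | single a r => simp only [lin_single, smul_sub]

theorem lin_wd_self (z : FW F) : lin wd z = z := by
  induction z using Finsupp.induction_linear with
  | zero => simp only [map_zero]
  | add x y hx hy => simp only [map_add, hx, hy]
  | single a r => rw [lin_single, wd, Finsupp.smul_single, smul_eq_mul, mul_one]

theorem zw1_wd (x : Lt) (w : List Lt) : cns x (wd (F := F) w) = wd (x :: w) := by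
  rw [cns, wd, wd, Finsupp.lmapDomain_apply, Finsupp.mapDomain_single]

theorem zw1_ext {P : Type} [AddCommGroup P] [Module F P] (L L' : FW F →ₗ[F] P)
    (h : ∀ w, L (wd w) = L' (wd w)) (z : FW F) : L z = L' z := by
  rw [← lin_wd_self z, map_lin, map_lin]
  exact congrArg (fun f => lin f z) (funext h)

theorem zw1_cns {P : Type} [AddCommGroup P] [Module F P] (f : List Lt → P) (x : Lt)
    (L : FW F →ₗ[F] P) (h : ∀ w, f (x :: w) = L (wd w)) (z : FW F) : lin f (cns x z) = L z :=
  zw1_ext ((lin f).comp (cns x)) L
    (fun w => by rw [LinearMap.comp_apply, zw1_wd, lin_wd, h]) z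

theorem zw1_dO (z : FW F) : lin (dw (F := F)) (cns .O z) = cns .O (lin (dw (F := F)) z) :=
  zw1_cns _ _ ((cns .O).comp (lin dw)) (fun w => by rw [LinearMap.comp_apply, lin_wd, dw]) z

theorem zw1_dI (z : FW F) : lin (dw (F := F)) (cns .I z) = cns .I (lin (dw (F := F)) z) :=
  zw1_cns _ _ ((cns .I).comp (lin dw)) (fun w => by rw [LinearMap.comp_apply, lin_wd, dw]) z

theorem zw1_dS (z : FW F) : lin (dw (F := F)) (cns .S z) =
    cns .O z - cns .I z - cns .S (lin (dw (F := F)) z) :=
  zw1_cns _ _ (cns .O - cns .I - (cns .S).comp (lin dw)) (fun w => by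
    rw [LinearMap.sub_apply, LinearMap.sub_apply, LinearMap.comp_apply, lin_wd, zw1_wd, zw1_wd,
      dw]) z

theorem zw1_p0O (z : FW F) : lin (pw (F := F) 0) (cns .O z) = cns .S z :=
  zw1_cns _ _ _ (fun w => by rw [zw1_wd, pw]) z

theorem zw1_p0I (z : FW F) : lin (pw (F := F) 0) (cns .I z) = 0 :=
  zw1_cns _ _ 0 (fun w => by rw [pw, LinearMap.zero_apply]) z

theorem zw1_p0S (z : FW F) : lin (pw (F := F) 0) (cns .S z) = 0 :=
  zw1_cns _ _ 0 (fun w => by rw [pw, LinearMap.zero_apply]) z

theorem zw1_pO (i : ℕ) (z : FW F) :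
    lin (pw (F := F) (i + 1)) (cns .O z) = cns .O (lin (pw (F := F) i) z) :=
  zw1_cns _ _ ((cns .O).comp (lin (pw i))) (fun w => by rw [LinearMap.comp_apply, lin_wd, pw]) z

theorem zw1_pI (i : ℕ) (z : FW F) :
    lin (pw (F := F) (i + 1)) (cns .I z) = cns .I (lin (pw (F := F) i) z) :=
  zw1_cns _ _ ((cns .I).comp (lin (pw i))) (fun w => by rw [LinearMap.comp_apply, lin_wd, pw]) z

theorem zw1_pS (i : ℕ) (z : FW F) :
    lin (pw (F := F) (i + 1)) (cns .S z) = -cns .S (lin (pw (F := F) i) z) :=
  zw1_cns _ _ (-(cns .S).comp (lin (pw i))) (fun w => by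
    rw [LinearMap.neg_apply, LinearMap.comp_apply, lin_wd, pw]) z

theorem zw1_r0O (z : FW F) : lin (rw (F := F) 0) (cns .O z) = cns .I z :=
  zw1_cns _ _ _ (fun w => by rw [zw1_wd, rw]) z

theorem zw1_r0I (z : FW F) : lin (rw (F := F) 0) (cns .I z) = cns .I z :=
  zw1_cns _ _ _ (fun w => by rw [zw1_wd, rw]) z

theorem zw1_r0S (z : FW F) : lin (rw (F := F) 0) (cns .S z) = 0 :=
  zw1_cns _ _ 0 (fun w => by rw [rw, LinearMap.zero_apply]) z

theorem zw1_r (i : ℕ) (x : Lt) (z : FW F) :
    lin (rw (F := F) (i + 1)) (cns x z) = cns x (lin (rw (F := F) i) z) :=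
  zw1_cns _ _ ((cns x).comp (lin (rw i))) (fun w => by rw [LinearMap.comp_apply, lin_wd, rw]) z

theorem zw1_lin (x : Lt) (z : FW F) : cns x z = lin (fun w => wd (F := F) (x :: w)) z :=
  (zw1_cns wd x (lin fun w => wd (F := F) (x :: w)) (fun w => by rw [lin_wd]) z) ▸
    (lin_wd_self _).symm

theorem zw1_mem {s : Set (List Lt)} {w : List Lt} (h : w ∈ s) :
    wd (F := F) w ∈ Finsupp.supported F F s := Finsupp.single_mem_supported F 1 h

theorem zw1_supp {s t : Set (List Lt)} (x : Lt) (h : ∀ w ∈ s, x :: w ∈ t) {z : FW F}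
    (hz : z ∈ Finsupp.supported F F s) : cns x z ∈ Finsupp.supported F F t := by
  rw [zw1_lin]
  exact lin_mem (fun w hw => zw1_mem (h w hw)) hz

theorem dw_dw (w : List Lt) : lin (dw (F := F)) (dw (F := F) w) = 0 := by
  induction w with
  | nil => exact map_zero _
  | cons x w ih =>
    cases x
    · rw [dw, zw1_dO, ih, map_zero]
    · rw [dw, zw1_dI, ih, map_zero]
    · rw [dw, map_sub, map_sub, lin_wd, lin_wd, zw1_dS, ih, map_zero, dw, dw]
      abel

theorem dw_pw (i : ℕ) (w : List Lt) :
    lin (dw (F := F)) (pw (F := F) i w) = wd w - rw i w - lin (pw (F := F) i) (dw (F := F) w) := by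
  induction w generalizing i with
  | nil => simp only [pw, rw, dw, map_zero, sub_self]
  | cons x w ih =>
    cases i with
    | zero =>
      cases x
      · simp only [pw, rw, dw, lin_wd, zw1_p0O]
      · simp only [pw, rw, dw, map_zero, zw1_p0I, sub_self]
      · simp only [pw, rw, dw, map_zero, map_sub, lin_wd, zw1_p0S, sub_zero, sub_self]
    | succ i =>
      cases x
      · simp only [pw, rw, dw, zw1_dO, zw1_pO, ih, map_sub, zw1_wd]
      · simp only [pw, rw, dw, zw1_dI, zw1_pI, ih, map_sub, zw1_wd]
      · simp only [pw, rw, dw, map_neg, zw1_dS, zw1_pS, ih, map_sub, zw1_wd, lin_wd]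
        abel

theorem rw_pw (i j : ℕ) (w : List Lt) :
    lin (rw (F := F) i) (pw (F := F) j w) = lin (pw (F := F) j) (rw (F := F) i w) := by
  induction w generalizing i j with
  | nil => simp only [pw, rw, map_zero, lin_wd]
  | cons x w ih =>
    cases i <;> cases j <;> cases x <;>
      simp only [pw, rw, map_zero, map_neg, lin_wd, zw1_p0O, zw1_p0I, zw1_p0S, zw1_pO, zw1_pI,
        zw1_pS, zw1_r0O, zw1_r0I, zw1_r0S, zw1_r, ih, neg_zero]

theorem pw_of_le {i : ℕ} {w : List Lt} (h : w.length ≤ i) : pw (F := F) i w = 0 := by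
  induction w generalizing i with
  | nil => rw [pw]
  | cons x w ih =>
    cases i with
    | zero => simp at h
    | succ i =>
      have h1 := ih (Nat.le_of_succ_le_succ h)
      cases x <;> simp only [pw, h1, map_zero, neg_zero]

theorem pw_of_I {i : ℕ} {w : List Lt} (h : w[i]? = some Lt.I) : pw (F := F) i w = 0 := by
  induction w generalizing i with
  | nil => rw [pw]
  | cons x w ih =>
    cases i with
    | zero =>
      obtain rfl : x = Lt.I := by simpa using h
      rw [pw]
    | succ i =>
      have h1 := ih (i := i) (by simpa using h)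
      cases x <;> simp only [pw, h1, map_zero, neg_zero]

theorem rw_of_le {i : ℕ} {w : List Lt} (h : w.length ≤ i) : rw (F := F) i w = wd w := by
  induction w generalizing i with
  | nil => rw [rw]
  | cons x w ih =>
    cases i with
    | zero => simp at h
    | succ i => rw [rw, ih (Nat.le_of_succ_le_succ h), zw1_wd]

theorem rw_of_noS (i : ℕ) {w : List Lt} (h : Lt.S ∉ w) : rw (F := F) i w = wd (w.set i Lt.I) := by
  induction w generalizing i with
  | nil => rw [rw, List.set_nil]
  | cons x w ih =>
    cases i with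
    | zero =>
      cases x
      · rw [rw, List.set_cons_zero]
      · rw [rw, List.set_cons_zero]
      · exact (h List.mem_cons_self).elim
    | succ i => rw [rw, ih i fun h' => h (List.mem_cons_of_mem _ h'), zw1_wd, List.set_cons_succ]

theorem dw_of_noS {w : List Lt} (h : Lt.S ∉ w) : dw (F := F) w = 0 := by
  induction w with
  | nil => rw [dw]
  | cons x w ih =>
    have h1 := ih fun h' => h (List.mem_cons_of_mem _ h')
    cases x
    · rw [dw, h1, map_zero]
    · rw [dw, h1, map_zero]
    · exact (h List.mem_cons_self).elim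

theorem dw_supp (w : List Lt) : dw (F := F) w ∈ Finsupp.supported F F
    {v | v.length = w.length ∧ v.count Lt.S + 1 = w.count Lt.S ∧
      v.count Lt.I ≤ w.count Lt.I + 1} := by
  induction w with
  | nil => exact zero_mem _
  | cons x w ih =>
    cases x
    · rw [dw]
      refine zw1_supp _ (fun v hv => ?_) ih
      simpa using hv
    · rw [dw]
      refine zw1_supp _ (fun v hv => ?_) ih
      simpa using hv
    · rw [dw]
      refine sub_mem (sub_mem (zw1_mem ?_) (zw1_mem ?_)) (zw1_supp _ (fun v hv => ?_) ih)
      · simp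
      · simp
      · simpa using hv

theorem pw_supp (i : ℕ) (w : List Lt) : pw (F := F) i w ∈ Finsupp.supported F F
    {v | v.length = w.length ∧ v.count Lt.S = w.count Lt.S + 1 ∧ v.count Lt.I = w.count Lt.I ∧
      ∀ k : ℕ, w[k]? = some Lt.I → v[k]? = some Lt.I} := by
  have key : ∀ {x y : Lt} {v w : List Lt}, (x = Lt.I → y = Lt.I) →
      (∀ k : ℕ, w[k]? = some Lt.I → v[k]? = some Lt.I) →
      ∀ k : ℕ, (x :: w)[k]? = some Lt.I → (y :: v)[k]? = some Lt.I := by
    intro x y v w h1 h2 k hk
    cases k with
    | zero => simpa using h1 (by simpa using hk)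
    | succ k => simpa using h2 k (by simpa using hk)
  induction w generalizing i with
  | nil =>
    rw [pw]
    exact zero_mem _
  | cons x w ih =>
    have step : cns x (pw (F := F) (i - 1) w) ∈ Finsupp.supported F F
        {v | v.length = (x :: w).length ∧ v.count Lt.S = (x :: w).count Lt.S + 1 ∧
          v.count Lt.I = (x :: w).count Lt.I ∧
          ∀ k : ℕ, (x :: w)[k]? = some Lt.I → v[k]? = some Lt.I} := by
      refine zw1_supp _ (fun v hv => ?_) (ih (i - 1))
      obtain ⟨h1, h2, h3, h4⟩ := hv
      refine ⟨by simp [h1], ?_, ?_, key id h4⟩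
      · rw [List.count_cons, List.count_cons, h2]
        omega
      · rw [List.count_cons, List.count_cons, h3]
    cases i with
    | zero =>
      cases x
      · rw [pw]
        exact zw1_mem ⟨rfl, by simp, by simp, key (fun h => by cases h) fun _ h => h⟩
      · rw [pw]
        exact zero_mem _
      · rw [pw]
        exact zero_mem _
    | succ i =>
      cases x
      · rw [pw]
        exact step
      · rw [pw]
        exact step
      · rw [pw]
        exact neg_mem step

theorem dw_append (w w' : List Lt) : dw (F := F) (w ++ Lt.I :: w') =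
    lin (fun v => wd (F := F) (v ++ Lt.I :: w')) (dw (F := F) w) +
      (-1 : F) ^ w.count Lt.S • lin (fun v => wd (F := F) (w ++ Lt.I :: v)) (dw (F := F) w') := by
  have a1 : ∀ (x : Lt) (z : FW F), lin (fun v => wd (F := F) (v ++ Lt.I :: w')) (cns x z) =
      cns x (lin (fun v => wd (F := F) (v ++ Lt.I :: w')) z) := fun x z =>
    zw1_cns _ _ ((cns x).comp (lin fun v => wd (F := F) (v ++ Lt.I :: w')))
      (fun v => by rw [LinearMap.comp_apply, lin_wd, zw1_wd, List.cons_append]) z
  have a2 : ∀ (x : Lt) (u : List Lt), cns x (lin (fun v => wd (F := F) (u ++ Lt.I :: v))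
      (dw (F := F) w')) = lin (fun v => wd (F := F) (x :: u ++ Lt.I :: v)) (dw (F := F) w') := by
    intro x u
    rw [map_lin]
    simp only [zw1_wd, List.cons_append]
  induction w with
  | nil =>
    rw [List.nil_append, dw, dw, map_zero, zero_add, List.count_nil, pow_zero, one_smul, zw1_lin]
    rfl
  | cons x w ih =>
    cases x
    · rw [List.cons_append, dw, dw, ih, map_add, map_smul, a1, a2,
        List.count_cons_of_ne (by decide)]
    · rw [List.cons_append, dw, dw, ih, map_add, map_smul, a1, a2,
        List.count_cons_of_ne (by decide)]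
    · rw [List.cons_append, dw, dw, ih, map_add, map_smul, map_sub, map_sub, a1, a2, lin_wd, lin_wd,
        List.count_cons_self, pow_succ, mul_neg_one, neg_smul, List.cons_append, List.cons_append]
      abel

theorem dw_one (i j : ℕ) : dw (F := F) (List.replicate i Lt.O ++ Lt.S :: List.replicate j Lt.O) =
    wd (List.replicate (i + j + 1) Lt.O) -
      wd (List.replicate i Lt.O ++ Lt.I :: List.replicate j Lt.O) := by
  induction i with
  | zero =>
    rw [List.replicate_zero, List.nil_append, List.nil_append, dw, dw_of_noS (by simp), map_zero,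
      sub_zero, zero_add, List.replicate_succ]
  | succ i ih =>
    rw [List.replicate_succ, List.cons_append, List.cons_append, dw, ih, map_sub, zw1_wd, zw1_wd,
      show i + 1 + j + 1 = i + j + 1 + 1 by omega, List.replicate_succ (n := i + j + 1)]

theorem atom_zero {w : List Lt} (h : Lt.I ∉ w) (h0 : w.count Lt.S = 0) :
    w = List.replicate w.length Lt.O := by
  refine List.eq_replicate_of_mem fun b hb => ?_
  cases b
  · rfl
  · exact (h hb).elim
  · exact (List.count_eq_zero.1 h0 hb).elim

theorem atom_one {w : List Lt} (h : Lt.I ∉ w) (h1 : w.count Lt.S = 1) :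
    ∃ i j, w = List.replicate i Lt.O ++ Lt.S :: List.replicate j Lt.O := by
  obtain ⟨u, v, rfl⟩ := List.append_of_mem (List.count_pos_iff.1 (h1 ▸ Nat.one_pos : 0 < w.count Lt.S))
  rw [List.count_append, List.count_cons_self] at h1
  have h2 := atom_zero (w := u) (fun h' => h (List.mem_append_left _ h')) (by omega)
  have h3 := atom_zero (w := v)
    (fun h' => h (List.mem_append_right _ (List.mem_cons_of_mem _ h'))) (by omega)
  exact ⟨u.length, v.length, by rw [← h2, ← h3]⟩

end Pool.Agent.Fu
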