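import Mathlib
import Pool.Agent.P.MP_365c00_gt.ZW1
import Pool.Agent.P.MP_365c00_gt.ZW2

/-! Construction of the chains of words. -/

set_option linter.unusedSectionVars false
set_option linter.unusedVariables false

open Set Topology

namespace Pool.Agent.Fu

variable {F : Type} [Field F] {X Y : Type} [TopologicalSpace X] [TopologicalSpace Y] {q : ℕ}

variable {Y' : ℕ → ℝ → Set (ℕ → X)} {far : ℕ → Set (ℕ → X)} {R : ℕ → Ch F (ℕ → X) → Prop}
  {T c1 c3 : ℝ} {e : ℕ}

theorem lev_append (w w' : List Lt) :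
    lev T c1 c3 (w ++ Lt.I :: w') = lev T c1 c3 w + lev T c1 c3 w' := by
  simp only [lev, List.length_append, List.length_cons, List.count_append, List.count_cons_self,
    List.count_cons_of_ne (show Lt.I ≠ Lt.S by decide)]
  push_cast
  ring

theorem WP.append (h : WS F Y' far R T c1 c3 e q) {a : List Lt → Ch F (ℕ → X)} {w w' : List Lt}
    (hw : WP Y' far T c1 c3 e a w) (hw' : WP Y' far T c1 c3 e a w') :
    WP Y' far T c1 c3 e a (w ++ Lt.I :: w') := by
  obtain ⟨h1, h2, h3⟩ := hw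
  obtain ⟨k1, k2, k3⟩ := hw'
  have hl : (w ++ Lt.I :: w').length = w.length + w'.length + 1 := by
    rw [List.length_append, List.length_cons, add_assoc]
  have hs : (w ++ Lt.I :: w').count Lt.S = w.count Lt.S + w'.count Lt.S := by
    rw [List.count_append, List.count_cons_of_ne (show Lt.I ≠ Lt.S by decide)]
  unfold WP
  rw [hl, hs, lev_append, Zw_append]
  refine ⟨mu_CC (fun x hx y hy => h.app _ _ _ _ x hx y hy) h1 k1, ?_, ?_⟩
  · have h4 := mu_HD (k := w.length + 1) h2 k2
    rwa [show (w.length + 1) * e + w.count Lt.S + ((w'.length + 1) * e + w'.count Lt.S) =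
      (w.length + w'.length + 1 + 1) * e + (w.count Lt.S + w'.count Lt.S) by ring] at h4
  · have e1 : lin (Zw a) (lin (fun v => wd (F := F) (v ++ Lt.I :: w')) (dw (F := F) w)) =
        mu (w.length + 1) (lin (Zw a) (dw (F := F) w)) (Zw a w') := by
      rw [map_lin]
      refine (lin_congr (fun v hv => ?_) (dw_supp w)).trans
        (map_lin ((mu (w.length + 1)).flip (Zw a w')) (Zw a) _).symm
      rw [lin_wd, Zw_append, hv.1]
      rfl
    have e2 : lin (Zw a) (lin (fun v => wd (F := F) (w ++ Lt.I :: v)) (dw (F := F) w')) =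
        mu (w.length + 1) (Zw a w) (lin (Zw a) (dw (F := F) w')) := by
      rw [map_lin, map_lin (mu (w.length + 1) (Zw a w))]
      simp only [lin_wd, Zw_append]
    have e3 : om (Zw a w) = (-1 : F) ^ w.count Lt.S • Zw a w := by
      rw [om_of_HD h2, pow_add, Even.neg_one_pow (h.even.mul_left _), one_mul]
    have e4 : bd (mu (w.length + 1) (Zw a w) (Zw a w')) -
        lin (Zw a) (dw (F := F) (w ++ Lt.I :: w')) =
        mu (w.length + 1) (bd (Zw a w) - lin (Zw a) (dw (F := F) w)) (Zw a w') +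
          (-1 : F) ^ w.count Lt.S •
            mu (w.length + 1) (Zw a w) (bd (Zw a w') - lin (Zw a) (dw (F := F) w')) := by
      rw [bd_mu, dw_append, map_add, map_smul, e1, e2, e3]
      simp only [map_sub, map_smul, LinearMap.sub_apply, LinearMap.smul_apply, smul_sub]
      abel
    rw [e4]
    refine add_mem (mu_CC (fun x hx y hy => ?_) h3 k1)
      (Submodule.smul_mem _ _ (mu_CC (fun x hx y hy => ?_) h1 k3))
    · exact ⟨h.app _ _ _ _ x hx.1 y hy, h.farl _ _ x y hx.2⟩
    · exact ⟨h.app _ _ _ _ x hx y hy.1, h.farr _ _ x y hy.2⟩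

theorem WP.of_atoms (h : WS F Y' far R T c1 c3 e q) {a : List Lt → Ch F (ℕ → X)} {m : ℕ}
    (ha : ∀ u : List Lt, Lt.I ∉ u → u.length < q → u.count Lt.S ≤ m → WP Y' far T c1 c3 e a u)
    (w : List Lt) (hl : w.length < q) (hw : w.count Lt.S ≤ m) : WP Y' far T c1 c3 e a w := by
  induction hn : w.length using Nat.strong_induction_on generalizing w with
  | _ n ih =>
    by_cases hI : Lt.I ∈ w
    · obtain ⟨s, t, rfl⟩ := List.append_of_mem hI
      rw [List.length_append, List.length_cons] at hn hl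
      rw [List.count_append, List.count_cons_of_ne (show Lt.I ≠ Lt.S by decide)] at hw
      exact WP.append h (ih s.length (by omega) s (by omega) (by omega) rfl)
        (ih t.length (by omega) t (by omega) (by omega) rfl)
    · exact ha w hI hl hw

theorem zw3_ZZ {a : List Lt → Ch F (ℕ → X)} {w : List Lt} (hw : WP Y' far T c1 c3 e a w)
    (hS : Lt.S ∉ w) : Zw a w ∈ ZZ F (Y' w.length (lev T c1 c3 w))
      (Y' w.length (lev T c1 c3 w) ∩ far w.length) := by
  have h3 := hw.2.2
  rw [dw_of_noS hS, map_zero, sub_zero] at h3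
  exact mem_ZZ.2 ⟨hw.1, h3⟩

theorem zw3_mono (h : WS F Y' far R T c1 c3 e q) (n : ℕ) {t t' : ℝ} (ht : t ≤ t') :
    ZZ F (Y' n t) (Y' n t ∩ far n) ≤ ZZ F (Y' n t') (Y' n t' ∩ far n) :=
  ZZ_mono (h.mono n ht) (inter_subset_inter_left _ (h.mono n ht))

theorem zw3_rep (x : Lt) (hx : x ≠ Lt.O) (n : ℕ) : x ∉ List.replicate n Lt.O := fun h =>
  hx (List.eq_of_mem_replicate h)

/-- the boundary of an atom is a relative cycle -/
theorem zw3_cyc (h : WS F Y' far R T c1 c3 e q) {a : List Lt → Ch F (ℕ → X)} {m : ℕ}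
    (ha : ∀ w : List Lt, w.length < q → w.count Lt.S ≤ m → WP Y' far T c1 c3 e a w)
    {u : List Lt} (hI : Lt.I ∉ u) (hl : u.length < q) (hu : u.count Lt.S = m + 1) :
    lin (Zw a) (dw (F := F) u) ∈ ZZ F (Y' u.length ((u.length + 1) * T + 2 * c1 + c3 * m))
      (Y' u.length ((u.length + 1) * T + 2 * c1 + c3 * m) ∩ far u.length) ∧
    lin (Zw a) (dw (F := F) u) ∈ HD F _ ((u.length + 1) * e + m) := by
  have key : ∀ v ∈ {v : List Lt | v.length = u.length ∧ v.count Lt.S + 1 = u.count Lt.S ∧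
      v.count Lt.I ≤ u.count Lt.I + 1},
      Zw a v ∈ CC F (Y' u.length ((u.length + 1) * T + 2 * c1 + c3 * m)) ∧
      Zw a v ∈ HD F _ ((u.length + 1) * e + m) ∧
      bd (Zw a v) - lin (Zw a) (dw (F := F) v) ∈
        CC F (Y' u.length ((u.length + 1) * T + 2 * c1 + c3 * m) ∩ far u.length) := by
    rintro v ⟨v1, v2, v3⟩
    have v4 : v.count Lt.S = m := by omega
    rw [List.count_eq_zero_of_not_mem hI] at v3
    obtain ⟨k1, k2, k3⟩ := ha v (by omega) v4.le
    have hle : lev T c1 c3 v ≤ (u.length + 1) * T + 2 * c1 + c3 * m := by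
      have v5 : (v.count Lt.I : ℝ) ≤ 1 := by exact_mod_cast v3
      have v6 := mul_le_mul_of_nonneg_left v5 h.c1_nonneg
      rw [lev, v1, v4]
      linarith
    rw [v1] at k1 k2 k3
    rw [v4] at k2
    exact ⟨CC_mono (h.mono _ hle) k1, k2,
      CC_mono (inter_subset_inter_left _ (h.mono _ hle)) k3⟩
  refine ⟨mem_ZZ.2 ⟨lin_mem (fun v hv => (key v hv).1) (dw_supp u), ?_⟩,
    lin_mem (fun v hv => (key v hv).2.1) (dw_supp u)⟩
  have h1 := lin_mem (fun v hv => (key v hv).2.2) (dw_supp (F := F) u)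
  rw [lin_sub, ← map_lin (lin (Zw a)) (dw (F := F)), dw_dw, map_zero, sub_zero,
    ← map_lin bd] at h1
  exact h1

/-- the boundary of an atom is null -/
theorem zw3_nul (h : WS F Y' far R T c1 c3 e q) {a : List Lt → Ch F (ℕ → X)} {m : ℕ}
    (hR : ∀ n < q, R n (a (List.replicate n Lt.O)))
    (ha : ∀ w : List Lt, w.length < q → w.count Lt.S ≤ m → WP Y' far T c1 c3 e a w)
    {u : List Lt} (hI : Lt.I ∉ u) (hl : u.length < q) (hu : u.count Lt.S = m + 1) :
    lin (Zw a) (dw (F := F) u) ∈ NN F (Y' u.length (lev T c1 c3 u))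
      (Y' u.length (lev T c1 c3 u) ∩ far u.length) := by
  have hlev : lev T c1 c3 u = (u.length + 1) * T + c1 + c3 * (m + 1) := by
    rw [lev, hu, List.count_eq_zero_of_not_mem hI]
    push_cast
    ring
  rw [hlev]
  rcases Nat.eq_zero_or_pos m with rfl | hm
  · obtain ⟨i, j, rfl⟩ := atom_one hI hu
    have hS : ∀ n, Lt.S ∉ List.replicate n Lt.O := zw3_rep _ (by decide)
    have hI' : ∀ n, Lt.I ∉ List.replicate n Lt.O := zw3_rep _ (by decide)
    have hn : (List.replicate i Lt.O ++ Lt.S :: List.replicate j Lt.O).length = i + j + 1 := by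
      simp [add_assoc]
    rw [hn] at hl ⊢
    have hw : ∀ n < q, WP Y' far T c1 c3 e a (List.replicate n Lt.O) := fun n hn =>
      ha _ (by rwa [List.length_replicate]) (List.count_eq_zero_of_not_mem (hS n)).le
    have hz : ∀ n < q, a (List.replicate n Lt.O) ∈
        ZZ F (Y' n ((n + 1) * T + c1)) (Y' n ((n + 1) * T + c1) ∩ far n) ∧
        a (List.replicate n Lt.O) ∈ HD F _ ((n + 1) * e) := fun n hn => by
      have h1 := zw3_ZZ (hw n hn) (hS n)
      have h2 := (hw n hn).2.1
      rw [Zw_atom a (hI' n)] at h1 h2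
      rw [lev, List.count_eq_zero_of_not_mem (hS n), List.count_eq_zero_of_not_mem (hI' n),
        List.length_replicate] at h1
      rw [List.count_eq_zero_of_not_mem (hS n), List.length_replicate] at h2
      exact ⟨by simpa using h1, h2⟩
    have hi := hz i (by omega)
    have hj := hz j (by omega)
    rw [dw_one, map_sub, lin_wd, lin_wd, Zw_append, Zw_atom a (hI' _), Zw_atom a (hI' _),
      Zw_atom a (hI' _), List.length_replicate]
    have h5 := h.inj (i + j + 1) hl _ (zw3_mono h _ (by linarith [h.c1_nonneg]) (hz _ hl).1)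
      (mu (i + 1) (a (List.replicate i Lt.O)) (a (List.replicate j Lt.O)))
      (zw3_mono h _ (t := (i + 1) * T + c1 + ((j + 1) * T + c1)) (by push_cast; linarith)
        (mu_ZZ (fun x hx y hy => h.app _ _ _ _ x hx y hy)
          (fun x hx y hy => ⟨h.app _ _ _ _ x hx.1 y hy, h.farl _ _ x y hx.2.2⟩)
          (fun x hx y hy => ⟨h.app _ _ _ _ x hx y hy.1, h.farr _ _ x y hy.2.2⟩) hi.1 hj.1))
      (hz _ hl).2
      (by
        have h6 := mu_HD (k := i + 1) hi.2 hj.2
        rwa [show (i + 1) * e + (j + 1) * e = (i + j + 1 + 1) * e by ring] at h6)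
      (hR _ hl) (h.mul _ _ _ _ _ hi.1 _ hj.1 (hR i (by omega)) (hR j (by omega)))
    simpa using h5
  · obtain ⟨h1, h2⟩ := zw3_cyc h ha hI hl hu
    exact h.van _ hl m hm _ h1 h2

theorem exists_Z (h : WS F Y' far R T c1 c3 e q) {z0 : Ch F (ℕ → X)}
    (h1 : z0 ∈ ZZ F (Y' 0 (T + c1)) (Y' 0 (T + c1) ∩ far 0)) (h2 : z0 ∈ HD F _ e) (h3 : R 0 z0) :
    ∃ a : List Lt → Ch F (ℕ → X), a [] = z0 ∧
      ∀ w : List Lt, w.length < q → WP Y' far T c1 c3 e a w := by
  have key : ∀ m : ℕ, ∃ a : List Lt → Ch F (ℕ → X), a [] = z0 ∧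
      (∀ n < q, R n (a (List.replicate n Lt.O))) ∧
      ∀ u : List Lt, Lt.I ∉ u → u.length < q → u.count Lt.S ≤ m → WP Y' far T c1 c3 e a u := by
    intro m
    induction m with
    | zero =>
      have h4 : ∀ n : ℕ, ∃ z : Ch F (ℕ → X), (n = 0 → z = z0) ∧ (n < q →
          z ∈ ZZ F (Y' n ((n + 1) * T + c1)) (Y' n ((n + 1) * T + c1) ∩ far n) ∧
          z ∈ HD F _ ((n + 1) * e) ∧ R n z) := by
        intro n
        rcases Nat.eq_zero_or_pos n with rfl | hn
        · exact ⟨z0, fun _ => rfl, fun _ => ⟨by simpa using h1, by simpa using h2, h3⟩⟩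
        · by_cases hq : n < q
          · obtain ⟨z, k1, k2, k3⟩ := h.ex n hq
            exact ⟨z, fun h0 => absurd h0 hn.ne', fun _ => ⟨k1, k2, k3⟩⟩
          · exact ⟨0, fun h0 => absurd h0 hn.ne', fun h0 => absurd h0 hq⟩
      choose z hz0 hz using h4
      refine ⟨fun u => z u.length, hz0 0 rfl, fun n hn => ?_, fun u hI hl hu => ?_⟩
      · simp only [List.length_replicate]
        exact (hz n hn).2.2
      · have hu0 : u.count Lt.S = 0 := Nat.le_zero.1 hu
        have hlev : lev T c1 c3 u = (u.length + 1) * T + c1 := by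
          rw [lev, hu0, List.count_eq_zero_of_not_mem hI]
          push_cast
          ring
        obtain ⟨k1, k2, -⟩ := hz _ hl
        unfold WP
        rw [hlev, Zw_atom _ hI, hu0, dw_of_noS (List.count_eq_zero.1 hu0), map_zero, sub_zero]
        exact ⟨(mem_ZZ.1 k1).1, k2, (mem_ZZ.1 k1).2⟩
    | succ m ih =>
      obtain ⟨a, a0, hR, ha⟩ := ih
      have ha' := WP.of_atoms h ha
      have h4 : ∀ u : List Lt, ∃ k : Ch F (ℕ → X), (u.count Lt.S ≤ m → k = a u) ∧
          (Lt.I ∉ u → u.length < q → u.count Lt.S = m + 1 →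
            k ∈ CC F (Y' u.length (lev T c1 c3 u)) ∧ k ∈ HD F _ ((u.length + 1) * e + m + 1) ∧
            lin (Zw a) (dw (F := F) u) - bd k ∈
              CC F (Y' u.length (lev T c1 c3 u) ∩ far u.length)) := by
        intro u
        by_cases hc : Lt.I ∉ u ∧ u.length < q ∧ u.count Lt.S = m + 1
        · obtain ⟨k, k1, k2, k3⟩ := NN_HD (zw3_cyc h ha' hc.1 hc.2.1 hc.2.2).2
            (zw3_nul h hR ha' hc.1 hc.2.1 hc.2.2)
          exact ⟨k, fun h5 => by omega, fun _ _ _ => ⟨k1, k2, k3⟩⟩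
        · exact ⟨a u, fun _ => rfl, fun k1 k2 k3 => absurd ⟨k1, k2, k3⟩ hc⟩
      choose a' hk0 hk using h4
      have hd : ∀ u : List Lt, u.count Lt.S ≤ m + 1 →
          lin (Zw a') (dw (F := F) u) = lin (Zw a) (dw (F := F) u) := fun u hu =>
        lin_congr (fun v hv => Zw_congr hk0 (by have := hv.2.1; omega)) (dw_supp u)
      refine ⟨a', (hk0 [] (Nat.zero_le m)).trans a0, fun n hn => ?_, fun u hI hl hu => ?_⟩
      · rw [hk0 _ ((List.count_eq_zero_of_not_mem (zw3_rep _ (by decide) n)).le.trans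
          (Nat.zero_le m))]
        exact hR n hn
      · unfold WP
        rw [hd u hu]
        rcases hu.lt_or_eq with h5 | h5
        · rw [Zw_congr hk0 (Nat.lt_succ_iff.1 h5)]
          exact ha u hI hl (Nat.lt_succ_iff.1 h5)
        · obtain ⟨k1, k2, k3⟩ := hk u hI hl h5
          rw [Zw_atom _ hI, h5, ← neg_sub]
          exact ⟨k1, k2, neg_mem k3⟩
  obtain ⟨a, a0, -, ha⟩ := key q
  exact ⟨a, a0, fun w hw => WP.of_atoms h ha w hw (List.count_le_length.trans hw.le)⟩

end Pool.Agent.Fu
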