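import Mathlib
import Pool.Agent.P.MP_365c00_gt.ZW1

/-! Rotation of formal words. -/

set_option linter.unusedSectionVars false
set_option linter.unusedVariables false

open Set Topology

namespace Pool.Agent.Fu

variable {F : Type} [Field F] {X Y : Type} [TopologicalSpace X] [TopologicalSpace Y] {q : ℕ}

theorem zw1b_cns (x : Lt) (w : List Lt) : cns x (wd (F := F) w) = wd (x :: w) := by
  unfold cns wd
  rw [Finsupp.lmapDomain_apply, Finsupp.mapDomain_single]

theorem zw1b_pw (u v : List Lt) : pw (F := F) u.length (u ++ Lt.O :: v) =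
    (-1 : F) ^ u.count Lt.S • wd (u ++ Lt.S :: v) := by
  induction u with
  | nil => simp [pw]
  | cons x u ih =>
    cases x
    · rw [List.length_cons, List.cons_append, pw, ih, map_smul, zw1b_cns,
        List.count_cons_of_ne (by decide), List.cons_append]
    · rw [List.length_cons, List.cons_append, pw, ih, map_smul, zw1b_cns,
        List.count_cons_of_ne (by decide), List.cons_append]
    · rw [List.length_cons, List.cons_append, pw, ih, map_smul, zw1b_cns,
        List.count_cons_self, pow_succ, mul_neg_one, neg_smul, List.cons_append]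

theorem zw1b_zero (w : List Lt) : ∀ i : ℕ, w[i]? ≠ some Lt.O → pw (F := F) i w = 0 := by
  induction w with
  | nil => intro i _; rw [pw]
  | cons x w ih =>
    intro i h
    cases i with
    | zero =>
      cases x
      · exact (h rfl).elim
      · rw [pw]
      · rw [pw]
    | succ i =>
      have := ih i (by simpa using h)
      cases x
      · rw [pw, this, map_zero]
      · rw [pw, this, map_zero]
      · rw [pw, this, map_zero, neg_zero]

theorem zw1b_rot (u v : List Lt) : rot (F := F) u.length (u ++ Lt.I :: v) =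
    (-1 : F) ^ (u.count Lt.S * v.count Lt.S) • wd (v ++ Lt.I :: u) := by
  unfold rot
  simp

theorem zw1b_split {w : List Lt} {i : ℕ} {x : Lt} (h : w[i]? = some x) :
    ∃ u v, w = u ++ x :: v ∧ u.length = i := by
  obtain ⟨hi, e⟩ := List.getElem?_eq_some_iff.1 h
  refine ⟨w.take i, w.drop (i + 1), ?_, by simp [hi.le]⟩
  rw [← e, List.getElem_cons_drop, List.take_append_drop]

theorem rot_pw {k i i' : ℕ} {w : List Lt} (hk : w[k]? = some Lt.I)
    (h : (i < k ∧ i' = i + (w.length - k)) ∨ (k < i ∧ i < w.length ∧ i' = i - k - 1) ∨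
      (i = k ∧ w.length ≤ i') ∨ (w.length ≤ i ∧ i' = w.length - k - 1)) :
    lin (rot (F := F) k) (pw (F := F) i w) = lin (pw (F := F) i') (rot (F := F) k w) := by
  obtain ⟨u, v, rfl, rfl⟩ := zw1b_split hk
  have hl : (u ++ Lt.I :: v).length = u.length + (v.length + 1) := by simp
  rw [zw1b_rot, map_smul, lin_wd]
  rcases h with ⟨h1, h2⟩ | ⟨h1, h2, h3⟩ | ⟨h1, h2⟩ | ⟨h1, h2⟩
  · have e : i' = v.length + 1 + i := by omega
    by_cases hO : u[i]? = some Lt.O
    · obtain ⟨a, b, rfl, rfl⟩ := zw1b_split hO
      have e1 : a ++ Lt.O :: b ++ Lt.I :: v = a ++ Lt.O :: (b ++ Lt.I :: v) := by simp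
      have e2 : a ++ Lt.S :: (b ++ Lt.I :: v) = (a ++ Lt.S :: b) ++ Lt.I :: v := by simp
      have e3 : (a ++ Lt.O :: b).length = (a ++ Lt.S :: b).length := by simp
      have e4 : v ++ Lt.I :: (a ++ Lt.O :: b) = (v ++ Lt.I :: a) ++ Lt.O :: b := by simp
      have e5 : i' = (v ++ Lt.I :: a).length := by
        rw [e, List.length_append, List.length_cons]
        omega
      have e6 : (v ++ Lt.I :: a) ++ Lt.S :: b = v ++ Lt.I :: (a ++ Lt.S :: b) := by simp
      rw [e1, zw1b_pw, map_smul, lin_wd, e2, e3, zw1b_rot, e4, e5, zw1b_pw, e6, smul_smul,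
        smul_smul, ← pow_add, ← pow_add]
      congr 2
      simp only [List.count_append, List.count_cons_self, List.count_cons_of_ne
        (show Lt.O ≠ Lt.S by decide), List.count_cons_of_ne (show Lt.I ≠ Lt.S by decide)]
      ring
    · rw [zw1b_zero _ i (by rwa [List.getElem?_append_left h1]), map_zero, zw1b_zero _ i' (by
        rw [List.getElem?_append_right (by omega), show i' - v.length = i + 1 by omega]
        simpa using hO), smul_zero]
  · have e : i = u.length + 1 + i' := by omega
    by_cases hO : v[i']? = some Lt.O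
    · obtain ⟨a, b, rfl, rfl⟩ := zw1b_split hO
      have e1 : u ++ Lt.I :: (a ++ Lt.O :: b) = (u ++ Lt.I :: a) ++ Lt.O :: b := by simp
      have e2 : i = (u ++ Lt.I :: a).length := by
        rw [e, List.length_append, List.length_cons]
        omega
      have e3 : (u ++ Lt.I :: a) ++ Lt.S :: b = u ++ Lt.I :: (a ++ Lt.S :: b) := by simp
      have e4 : a ++ Lt.O :: b ++ Lt.I :: u = a ++ Lt.O :: (b ++ Lt.I :: u) := by simp
      have e5 : a ++ Lt.S :: (b ++ Lt.I :: u) = a ++ Lt.S :: b ++ Lt.I :: u := by simp
      rw [e1, e2, zw1b_pw, map_smul, lin_wd, e3, zw1b_rot, e4, zw1b_pw, e5, smul_smul,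
        smul_smul, ← pow_add, ← pow_add]
      congr 1
      simp only [List.count_append, List.count_cons_self, List.count_cons_of_ne
        (show Lt.O ≠ Lt.S by decide), List.count_cons_of_ne (show Lt.I ≠ Lt.S by decide)]
      rw [show u.count Lt.S + a.count Lt.S + u.count Lt.S * (a.count Lt.S + (b.count Lt.S + 1)) =
        u.count Lt.S * (a.count Lt.S + b.count Lt.S) + a.count Lt.S + 2 * u.count Lt.S by ring,
        pow_add _ _ (2 * _), pow_mul, neg_one_sq, one_pow, mul_one]
    · rw [zw1b_zero _ i (by
        rw [List.getElem?_append_right (by omega), show i - u.length = i' + 1 by omega]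
        simpa using hO), map_zero,
        zw1b_zero _ i' (by rwa [List.getElem?_append_left (by omega)]), smul_zero]
  · rw [pw_of_I (h1 ▸ hk), map_zero, pw_of_le (by
      rw [List.length_append, List.length_cons]
      omega), smul_zero]
  · rw [pw_of_le h1, map_zero, pw_of_I (by
      rw [List.getElem?_append_right (by omega), show i' - v.length = 0 by omega]
      rfl), smul_zero]

end Pool.Agent.Fu
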