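import Mathlib
import Pool.Agent.P.MP_365c00_gt.ZW1

/-! The complex of formal cyclic words. -/

set_option linter.unusedSectionVars false
set_option linter.unusedVariables false

open Set Topology

namespace Pool.Agent.Fu

variable {F : Type} [Field F] {X Y : Type} [TopologicalSpace X] [TopologicalSpace Y] {q : ℕ}

theorem zw4_eq {P : Type} [AddCommGroup P] [Module F P] (L L' : FC F q →ₗ[F] P)
    {s : Set (Finset (ZMod q) × List (ZMod q))}
    (h : ∀ I l, (I, l) ∈ s → L (Finsupp.single (I, l) 1) = L' (Finsupp.single (I, l) 1))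
    {z : FC F q} (hz : z ∈ Finsupp.supported F F s) : L z = L' z := by
  rw [Finsupp.supported_eq_span_single] at hz
  refine LinearMap.eqOn_span ?_ hz
  rintro _ ⟨⟨I, l⟩, hs, rfl⟩
  exact h I l hs

theorem zw4_ext {P : Type} [AddCommGroup P] [Module F P] (L L' : FC F q →ₗ[F] P)
    (h : ∀ I l, L (Finsupp.single (I, l) 1) = L' (Finsupp.single (I, l) 1)) (z : FC F q) :
    L z = L' z :=
  zw4_eq L L' (s := univ) (fun I l _ => h I l) (by rw [Finsupp.supported_univ]; trivial)

theorem zw4_mem {P : Type} [AddCommGroup P] [Module F P] (L : FC F q →ₗ[F] P)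
    {s : Set (Finset (ZMod q) × List (ZMod q))} {N : Submodule F P}
    (h : ∀ I l, (I, l) ∈ s → L (Finsupp.single (I, l) 1) ∈ N)
    {z : FC F q} (hz : z ∈ Finsupp.supported F F s) : L z ∈ N := by
  have h1 : Finsupp.supported F F s ≤ N.comap L := by
    rw [Finsupp.supported_eq_span_single, Submodule.span_le]
    rintro _ ⟨⟨I, l⟩, hs, rfl⟩
    exact h I l hs
  exact h1 hz

theorem zw4_pre (a : ZMod q) (I : Finset (ZMod q)) (l : List (ZMod q)) :
    pre a (Finsupp.single (I, l) (1 : F)) = Finsupp.single (I, a :: l) 1 :=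
  Finsupp.mapDomain_single

theorem zw4_ins (a : ZMod q) (I : Finset (ZMod q)) (l : List (ZMod q)) :
    ins a (Finsupp.single (I, l) (1 : F)) = Finsupp.single (insert a I, l) 1 :=
  Finsupp.mapDomain_single

theorem zw4_sF (I : Finset (ZMod q)) (l : List (ZMod q)) :
    sF (Finsupp.single (I, l) (1 : F)) = Finsupp.single (I.image (· + 1), l.map (· + 1)) 1 :=
  Finsupp.mapDomain_single

theorem zw4_lin {P : Type} [AddCommGroup P] [Module F P]
    (f : Finset (ZMod q) × List (ZMod q) → P) (z : Finset (ZMod q) × List (ZMod q)) :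
    lin f (Finsupp.single z (1 : F)) = f z := by
  rw [lin, Finsupp.linearCombination_single, one_smul]

theorem dF_single (I : Finset (ZMod q)) (l : List (ZMod q)) :
    dF (Finsupp.single (I, l) (1 : F)) = df I l := zw4_lin _ _

theorem dF_pre (a : ZMod q) (z : FC F q) : dF (pre a z) = z - ins a z - pre a (dF z) :=
  zw4_ext (dF ∘ₗ pre a) (LinearMap.id - ins a - pre a ∘ₗ dF) (fun I l => by
    simp only [LinearMap.comp_apply, LinearMap.sub_apply, LinearMap.id_apply, zw4_pre, zw4_ins,
      dF_single, df]) z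

theorem zw4_ins_pre (a b : ZMod q) (z : FC F q) : ins a (pre b z) = pre b (ins a z) :=
  zw4_ext (ins a ∘ₗ pre b) (pre b ∘ₗ ins a) (fun I l => by
    simp only [LinearMap.comp_apply, zw4_pre, zw4_ins]) z

theorem zw4_sF_pre (a : ZMod q) (z : FC F q) : sF (pre a z) = pre (a + 1) (sF z) :=
  zw4_ext (sF ∘ₗ pre a) (pre (a + 1) ∘ₗ sF) (fun I l => by
    simp only [LinearMap.comp_apply, zw4_pre, zw4_sF, List.map_cons]) z

theorem zw4_df_ins (a : ZMod q) (I : Finset (ZMod q)) (l : List (ZMod q)) :
    df (F := F) (insert a I) l = ins a (df I l) := by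
  induction l with
  | nil => simp only [df, map_zero]
  | cons b l ih => simp only [df, map_sub, zw4_ins, zw4_ins_pre, ih, Finset.insert_comm a b]

theorem dF_ins (a : ZMod q) (z : FC F q) : dF (ins a z) = ins a (dF z) :=
  zw4_ext (dF ∘ₗ ins a) (ins a ∘ₗ dF) (fun I l => by
    simp only [LinearMap.comp_apply, zw4_ins, dF_single, zw4_df_ins]) z

theorem df_supp (I : Finset (ZMod q)) (l : List (ZMod q)) :
    df (F := F) I l ∈ Finsupp.supported F F {z | I ⊆ z.1 ∧ z.2.length + 1 = l.length} := by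
  induction l with
  | nil => exact Submodule.zero_mem _
  | cons a l ih =>
    refine Submodule.sub_mem _ (Submodule.sub_mem _
      (Finsupp.single_mem_supported F _ ⟨Finset.Subset.refl _, rfl⟩)
      (Finsupp.single_mem_supported F _ ⟨Finset.subset_insert _ _, rfl⟩))
      (zw4_mem (pre a) (fun J m h => ?_) ih)
    rw [zw4_pre]
    exact Finsupp.single_mem_supported F _ ⟨h.1, congrArg (· + 1) h.2⟩

theorem zw4_dd (z : FC F q) : dF (dF z) = 0 := by
  refine zw4_ext (dF ∘ₗ dF) 0 (fun I l => ?_) z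
  rw [LinearMap.comp_apply, dF_single, LinearMap.zero_apply]
  induction l with
  | nil => exact map_zero _
  | cons a l ih =>
    rw [df, map_sub, map_sub, dF_single, dF_single, dF_pre, ih, map_zero, zw4_df_ins]
    abel

theorem zw4_ds (z : FC F q) : dF (sF z) = sF (dF z) := by
  refine zw4_ext (dF ∘ₗ sF) (sF ∘ₗ dF) (fun I l => ?_) z
  rw [LinearMap.comp_apply, LinearMap.comp_apply, zw4_sF, dF_single, dF_single]
  induction l with
  | nil => exact (map_zero _).symm
  | cons a l ih =>
    simp only [List.map_cons, df, map_sub, zw4_sF, zw4_sF_pre, ih, Finset.image_insert]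

theorem zw4_pow (k : ℕ) (I : Finset (ZMod q)) (l : List (ZMod q)) :
    ((sF : Module.End F (FC F q)) ^ k) (Finsupp.single (I, l) 1) =
      Finsupp.single (I.image (· + (k : ZMod q)), l.map (· + (k : ZMod q))) 1 := by
  induction k with
  | zero => simp
  | succ k ih =>
    rw [pow_succ', Module.End.mul_apply, ih, zw4_sF, Finset.image_image, List.map_map]
    have e : ((fun x : ZMod q => x + 1) ∘ fun x => x + (k : ZMod q)) =
        fun x => x + ((k + 1 : ℕ) : ZMod q) := by
      funext x
      simp only [Function.comp_apply, Nat.cast_succ, add_assoc]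
    rw [e]

variable (F q) in
/-- the complex of formal cyclic words -/
noncomputable def GF : GC F q (FC F q) where
  d := dF
  s := sF
  dd := zw4_dd
  ds := zw4_ds
  pow := LinearMap.ext (zw4_ext _ _ fun I l => by rw [zw4_pow]; simp)

variable [NeZero q]

variable (F q) in
/-- words with a cut -/
noncomputable def AF : Submodule F (FC F q) := Finsupp.supported F F {z | z.1.Nonempty}

variable (F q) in
/-- degenerate words -/
noncomputable def BF : Submodule F (FC F q) :=
  Finsupp.supported F F {z | z.1 = Finset.univ ∧ z.2 ≠ []}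

theorem AF_st : (GF F q).St (AF F q) := by
  refine ⟨fun c hc => zw4_mem dF (fun I l h => ?_) hc, fun c hc => zw4_mem sF (fun I l h => ?_) hc⟩
  · rw [dF_single]
    exact Finsupp.supported_mono (fun z hz => Finset.Nonempty.mono hz.1 h) (df_supp I l)
  · rw [zw4_sF]
    exact Finsupp.single_mem_supported F _ (Finset.Nonempty.image h _)

theorem zw4_df_univ (l : List (ZMod q)) : df (F := F) Finset.univ l = 0 := by
  induction l with
  | nil => rfl
  | cons a l ih =>
    rw [df, ih, map_zero, Finset.insert_eq_of_mem (Finset.mem_univ a), sub_self, sub_zero]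

theorem zw4_image : (Finset.univ : Finset (ZMod q)).image (· + 1) = Finset.univ :=
  Finset.image_univ_of_surjective (add_right_surjective 1)

theorem zw4_BF_st : (GF F q).St (BF F q) := by
  refine ⟨fun c hc => zw4_mem dF (fun I l h => ?_) hc, fun c hc => zw4_mem sF (fun I l h => ?_) hc⟩
  · obtain rfl : I = Finset.univ := h.1
    rw [dF_single, zw4_df_univ]
    exact Submodule.zero_mem _
  · obtain rfl : I = Finset.univ := h.1
    rw [zw4_sF]
    exact Finsupp.single_mem_supported F _ ⟨zw4_image, fun e => h.2 (List.map_eq_nil_iff.mp e)⟩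

/-- the bar boundary on lists -/
noncomputable def zw4_b : List (ZMod q) → FC F q
  | [] => 0
  | a :: l => Finsupp.single (∅, l) 1 - pre a (zw4_b l)

/-- replacing one letter by a cut -/
noncomputable def zw4_u : List (ZMod q) → FC F q
  | [] => 0
  | a :: l => Finsupp.single ({a}, l) 1 - pre a (zw4_u l)

/-- the bar boundary -/
noncomputable def zw4_B : FC F q →ₗ[F] FC F q := lin fun z => zw4_b z.2

/-- the map to words with one cut -/
noncomputable def zw4_U : FC F q →ₗ[F] FC F q := lin fun z => zw4_u z.2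

theorem zw4_B_single (I : Finset (ZMod q)) (l : List (ZMod q)) :
    zw4_B (Finsupp.single (I, l) (1 : F)) = zw4_b l := zw4_lin _ _

theorem zw4_U_single (I : Finset (ZMod q)) (l : List (ZMod q)) :
    zw4_U (Finsupp.single (I, l) (1 : F)) = zw4_u l := zw4_lin _ _

theorem zw4_b_supp (l : List (ZMod q)) :
    zw4_b (F := F) l ∈ Finsupp.supported F F {z | z.1 = ∅} := by
  induction l with
  | nil => exact Submodule.zero_mem _
  | cons a l ih =>
    refine Submodule.sub_mem _ (Finsupp.single_mem_supported F _ rfl)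
      (zw4_mem (pre a) (fun J m h => ?_) ih)
    rw [zw4_pre]
    exact Finsupp.single_mem_supported F _ h

theorem zw4_u_supp (l : List (ZMod q)) :
    zw4_u (F := F) l ∈ Finsupp.supported F F {z | z.1.card = 1 ∧ z.2.length + 1 = l.length} := by
  induction l with
  | nil => exact Submodule.zero_mem _
  | cons a l ih =>
    refine Submodule.sub_mem _ (Finsupp.single_mem_supported F _ ⟨Finset.card_singleton a, rfl⟩)
      (zw4_mem (pre a) (fun J m h => ?_) ih)
    rw [zw4_pre]
    exact Finsupp.single_mem_supported F _ ⟨h.1, congrArg (· + 1) h.2⟩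

theorem zw4_B_pre (a : ZMod q) {z : FC F q} (hz : z ∈ Finsupp.supported F F {z | z.1 = ∅}) :
    zw4_B (pre a z) = z - pre a (zw4_B z) :=
  zw4_eq (zw4_B ∘ₗ pre a) (LinearMap.id - pre a ∘ₗ zw4_B) (fun I l h => by
    obtain rfl : I = ∅ := h
    simp only [LinearMap.comp_apply, LinearMap.sub_apply, LinearMap.id_apply, zw4_pre,
      zw4_B_single, zw4_b]) hz

theorem zw4_B_mem (z : FC F q) : zw4_B z ∈ Finsupp.supported F F {z | z.1 = ∅} := by
  refine zw4_mem (P := FC F q) (zw4_B (F := F) (q := q)) (s := univ) (fun I l _ => ?_) ?_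
  · rw [zw4_B_single]
    exact zw4_b_supp l
  · rw [Finsupp.supported_univ]
    trivial

theorem zw4_BB (z : FC F q) : zw4_B (zw4_B z) = 0 := by
  refine zw4_ext (zw4_B ∘ₗ zw4_B) 0 (fun I l => ?_) z
  rw [LinearMap.comp_apply, zw4_B_single, LinearMap.zero_apply]
  induction l with
  | nil => exact map_zero _
  | cons a l ih =>
    rw [zw4_b, map_sub, zw4_B_single, zw4_B_pre a (zw4_b_supp l), ih, map_zero, sub_zero, sub_self]

theorem zw4_U_eq {z : FC F q} (hz : z ∈ Finsupp.supported F F {z | z.1 = ∅}) :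
    zw4_U z = zw4_B z - dF z := by
  refine zw4_eq zw4_U (zw4_B - dF) (fun I l h => ?_) hz
  obtain rfl : I = ∅ := h
  rw [LinearMap.sub_apply, zw4_U_single, zw4_B_single, dF_single]
  induction l with
  | nil => exact (sub_self _).symm
  | cons a l ih =>
    rw [zw4_u, zw4_b, df, ih, map_sub, LawfulSingleton.insert_empty_eq]
    abel

theorem zw4_dU {z : FC F q} (hz : z ∈ Finsupp.supported F F {z | z.1 = ∅}) :
    dF (zw4_U z) = -zw4_U (zw4_B z) := by
  rw [zw4_U_eq hz, zw4_U_eq (zw4_B_mem z), map_sub, zw4_dd, zw4_BB]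
  abel

theorem zw4_B_sF (z : FC F q) : zw4_B (sF z) = sF (zw4_B z) := by
  refine zw4_ext (zw4_B ∘ₗ sF) (sF ∘ₗ zw4_B) (fun I l => ?_) z
  rw [LinearMap.comp_apply, LinearMap.comp_apply, zw4_sF, zw4_B_single, zw4_B_single]
  induction l with
  | nil => exact (map_zero _).symm
  | cons a l ih =>
    simp only [List.map_cons, zw4_b, map_sub, zw4_sF, zw4_sF_pre, ih, Finset.image_empty]

theorem zw4_U_sF (z : FC F q) : zw4_U (sF z) = sF (zw4_U z) := by
  refine zw4_ext (zw4_U ∘ₗ sF) (sF ∘ₗ zw4_U) (fun I l => ?_) z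
  rw [LinearMap.comp_apply, LinearMap.comp_apply, zw4_sF, zw4_U_single, zw4_U_single]
  induction l with
  | nil => exact (map_zero _).symm
  | cons a l ih =>
    simp only [List.map_cons, zw4_u, map_sub, zw4_sF, zw4_sF_pre, ih, Finset.image_singleton]

theorem zw4_T (L : FC F q →ₗ[F] FC F q) (h : ∀ z, L (sF z) = sF (L z)) (j : ℕ) (z : FC F q) :
    L ((GF F q).T j z) = (GF F q).T j (L z) := by
  by_cases hj : Even j
  · rw [zg1_even _ hj, zg1_even _ hj, map_sub]
    exact congrArg (· - L z) (h z)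
  · rw [zg1_odd _ hj, zg1_odd _ hj, map_sum]
    have key : ∀ k : ℕ, L (((GF F q).s ^ k) z) = ((GF F q).s ^ k) (L z) := fun k => by
      induction k with
      | zero => rfl
      | succ k ih =>
        rw [pow_succ', Module.End.mul_apply, Module.End.mul_apply, ← ih]
        exact h _
    exact Finset.sum_congr rfl fun i _ => key i

/-- the standard cycles of the bar complex -/
noncomputable def zw4_t : ℕ → FC F q
  | 0 => Finsupp.single (∅, [0]) 1
  | j + 1 => pre 0 ((GF F q).T j (zw4_t j))

theorem zw4_T_supp (j k : ℕ) {z : FC F q}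
    (hz : z ∈ Finsupp.supported F F {z | z.1 = ∅ ∧ z.2.length = k}) :
    (GF F q).T j z ∈ Finsupp.supported F F {z | z.1 = ∅ ∧ z.2.length = k} := by
  refine zg1_T_mem _ (fun c hc => zw4_mem sF (fun I l h => ?_) hc) j hz
  obtain rfl : I = ∅ := h.1
  rw [zw4_sF]
  exact Finsupp.single_mem_supported F _ ⟨Finset.image_empty _, (List.length_map _).trans h.2⟩

theorem zw4_t_supp (j : ℕ) :
    zw4_t (F := F) (q := q) j ∈ Finsupp.supported F F {z | z.1 = ∅ ∧ z.2.length = j + 1} := by
  induction j with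
  | zero => exact Finsupp.single_mem_supported F _ ⟨rfl, rfl⟩
  | succ j ih =>
    refine zw4_mem (pre 0) (fun I l h => ?_) (zw4_T_supp j _ ih)
    rw [zw4_pre]
    exact Finsupp.single_mem_supported F _ ⟨h.1, congrArg (· + 1) h.2⟩

theorem zw4_B_t' (j : ℕ) (h : (GF F q).T j (zw4_B (zw4_t j)) = 0) :
    zw4_B (zw4_t (j + 1)) = (GF F q).T j (zw4_t j) := by
  rw [zw4_t, zw4_B_pre 0 (Finsupp.supported_mono (fun z hz => hz.1)
    (zw4_T_supp j _ (zw4_t_supp j))), zw4_T _ zw4_B_sF, h, map_zero, sub_zero]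

theorem zw4_B_t (j : ℕ) : zw4_B (zw4_t (j + 1)) = (GF F q).T j (zw4_t j) := by
  refine zw4_B_t' j ?_
  induction j with
  | zero =>
    rw [zw4_t, zw4_B_single, zw4_b, zw4_b, map_zero, sub_zero, zg1_even _ Even.zero]
    exact sub_eq_zero.mpr (zw4_sF _ _)
  | succ j ih => rw [zw4_B_t' j ih, GC.T_T]

theorem exists_low0 : ∃ l : ℕ → FC F q, l 0 = Finsupp.single ({0}, []) 1 ∧
    (∀ j, l j ∈ Finsupp.supported F F {z | z.1.card = 1 ∧ z.2.length = j}) ∧
    ∀ j, dF (l (j + 1)) = (GF F q).T j (l j) := by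
  refine ⟨fun j => (-1 : F) ^ j • zw4_U (zw4_t j), ?_, fun j => Submodule.smul_mem _ _ ?_,
    fun j => ?_⟩
  · show (-1 : F) ^ 0 • zw4_U (zw4_t 0) = _
    rw [pow_zero, one_smul, zw4_t, zw4_U_single, zw4_u, zw4_u, map_zero, sub_zero]
  · refine zw4_mem (P := FC F q) (zw4_U (F := F) (q := q)) (fun I l h => ?_) (zw4_t_supp j)
    rw [zw4_U_single]
    refine Finsupp.supported_mono ?_ (zw4_u_supp (F := F) l)
    exact fun z hz => And.intro hz.1 (Nat.succ_injective (hz.2.trans h.2))
  · show dF ((-1 : F) ^ (j + 1) • zw4_U (zw4_t (j + 1))) =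
      (GF F q).T j ((-1 : F) ^ j • zw4_U (zw4_t j))
    rw [map_smul, map_smul,
      zw4_dU (Finsupp.supported_mono (fun z hz => hz.1) (zw4_t_supp (j + 1))), zw4_B_t,
      zw4_T _ zw4_U_sF, pow_succ, mul_neg_one, neg_smul_neg]

/-- adding a set of cuts -/
noncomputable def zw4_S (S : Finset (ZMod q)) : FC F q →ₗ[F] FC F q :=
  Finsupp.lmapDomain F F fun z => (S ∪ z.1, z.2)

theorem zw4_S_single (S I : Finset (ZMod q)) (l : List (ZMod q)) :
    zw4_S S (Finsupp.single (I, l) (1 : F)) = Finsupp.single (S ∪ I, l) 1 :=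
  Finsupp.mapDomain_single

theorem zw4_key (k : ℕ) {c : FC F q} (hA : c ∈ AF F q)
    (hk : c ∈ Finsupp.supported F F {z | z.2.length = k}) (hd : dF c ∈ BF F q)
    (S : Finset (ZMod q)) : dF (zw4_S S c) ∈ BF F q ∧ ∃ h ∈ AF F q,
      h ∈ Finsupp.supported F F {z | z.2.length = k + 1} ∧ c - zw4_S S c - dF h ∈ BF F q := by
  induction S using Finset.induction_on with
  | empty =>
    have e : zw4_S ∅ c = c := zw4_ext (zw4_S ∅) LinearMap.id (fun I l => by
      rw [zw4_S_single, Finset.empty_union, LinearMap.id_apply]) c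
    rw [e]
    exact ⟨hd, 0, Submodule.zero_mem _, Submodule.zero_mem _, by
      rw [map_zero, sub_self, sub_self]; exact Submodule.zero_mem _⟩
  | insert a S _ ih =>
    obtain ⟨h1, h, h2, h3, h4⟩ := ih
    have e : zw4_S (insert a S) c = ins a (zw4_S S c) :=
      zw4_ext (zw4_S (insert a S)) (ins a ∘ₗ zw4_S S) (fun I l => by
        rw [LinearMap.comp_apply, zw4_S_single, zw4_S_single, zw4_ins, Finset.insert_union]) c
    rw [e, dF_ins]
    refine ⟨zw4_mem (ins a) (fun I l hz => ?_) h1, h + pre a (zw4_S S c),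
      Submodule.add_mem _ h2 (zw4_mem (pre a ∘ₗ zw4_S S) (fun I l hz => ?_) hA),
      Submodule.add_mem _ h3 (zw4_mem (pre a ∘ₗ zw4_S S) (fun I l hz => ?_) hk), ?_⟩
    · obtain rfl : I = Finset.univ := hz.1
      rw [zw4_ins]
      exact Finsupp.single_mem_supported F _ ⟨Finset.insert_eq_of_mem (Finset.mem_univ a), hz.2⟩
    · rw [LinearMap.comp_apply, zw4_S_single, zw4_pre]
      exact Finsupp.single_mem_supported F _ (Finset.Nonempty.mono Finset.subset_union_right hz)
    · rw [LinearMap.comp_apply, zw4_S_single, zw4_pre]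
      exact Finsupp.single_mem_supported F _ (congrArg (· + 1) hz)
    · have h5 : pre a (dF (zw4_S S c)) ∈ BF F q := by
        refine zw4_mem (pre a) (fun I l hz => ?_) h1
        rw [zw4_pre]
        exact Finsupp.single_mem_supported F _ ⟨hz.1, List.cons_ne_nil _ _⟩
      exact zg1_of_eq (Submodule.add_mem _ h4 h5) (by rw [map_add, dF_pre]; abel)

theorem exists_low (r : ℕ) : ∃ l h : ℕ → FC F q,
    (∀ j, l j ∈ Finsupp.supported F F {z | z.1.card = 1 ∧ z.2.length = j}) ∧ dF (l 0) = 0 ∧
    (∀ j, dF (l (j + 1)) = (GF F q).T j (l j)) ∧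
    (∀ j ≤ r, h j ∈ Finsupp.supported F F {z | z.1.Nonempty ∧ z.2.length = j + 1}) ∧
    (GF F q).NulBy (AF F q) (BF F q) r
      (fun j => sq 0 (Finsupp.single (Finset.univ, []) 1) j - l j) h := by
  obtain ⟨l, l0, l1, l2⟩ := exists_low0 (F := F) (q := q)
  have d0 : dF (l 0) = 0 := by rw [l0, dF_single]; rfl
  have lA : ∀ j, l j ∈ AF F q := fun j =>
    Finsupp.supported_mono (fun z hz => Finset.card_pos.mp (by rw [hz.1]; exact one_pos)) (l1 j)
  have hH : (GF F q).Gr fun k => Finsupp.supported F F {z | z.2.length = k} := by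
    refine ⟨fun k c hc => zw4_mem dF (fun I m h => ?_) hc,
      fun k c hc => zw4_mem sF (fun I m h => ?_) hc⟩
    · rw [dF_single]
      exact Finsupp.supported_mono (fun z hz => Nat.succ_injective (hz.2.trans h)) (df_supp I m)
    · rw [zw4_sF]
      exact Finsupp.single_mem_supported F _ ((List.length_map _).trans h)
  refine (GC.nul_of_van (G := GF F q) hH AF_st zw4_BF_st (D := 0) (R := r)
    (x := fun j => sq 0 (Finsupp.single (Finset.univ, []) 1) j - l j) ?_ ?_ ?_ ?_).elim
      fun h hh => ?_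
  rotate_right
  · obtain ⟨h1, h2⟩ := hh
    refine ⟨l, h, l1, d0, l2, fun j hj => ?_, h1⟩
    have h3 := h2 j hj
    rw [zero_add] at h3
    exact (Finsupp.mem_supported F _).mpr fun z hz =>
      ⟨(Finsupp.mem_supported F _).mp (h1.1 j hj) hz, (Finsupp.mem_supported F _).mp h3 hz⟩
  · refine ⟨fun j _ => Submodule.sub_mem _ (zg1_sq (S := fun c => c ∈ AF F q) 0 j
      (Finsupp.single_mem_supported F _ Finset.univ_nonempty) (Submodule.zero_mem _)) (lA j), ?_,
      fun j _ => ?_⟩
    · show dF (Finsupp.single (Finset.univ, []) 1 - l 0) ∈ BF F q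
      rw [map_sub, d0, dF_single, zw4_df_univ, sub_zero]
      exact Submodule.zero_mem _
    · have e : (GF F q).T j (sq 0 (Finsupp.single (Finset.univ, []) 1) j) = 0 := by
        rcases j with _ | j
        · rw [zg1_even _ Even.zero, sub_eq_zero]
          exact (zw4_sF _ _).trans (by rw [zw4_image]; rfl)
        · exact map_zero _
      show dF (0 - l (j + 1)) - (GF F q).T j (sq 0 (Finsupp.single (Finset.univ, []) 1) j - l j) ∈
        BF F q
      rw [map_sub, map_sub, e, l2, map_zero, sub_self]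
      exact Submodule.zero_mem _
  · intro j _
    rw [zero_add]
    refine Submodule.sub_mem _ ?_ (Finsupp.supported_mono (fun z hz => hz.2) (l1 j))
    rcases j with _ | j
    · exact Finsupp.single_mem_supported F _ rfl
    · exact Submodule.zero_mem _
  · obtain ⟨-, h, h1, h2, h3⟩ := zw4_key 0 (lA 0)
      (Finsupp.supported_mono (fun z hz => hz.2) (l1 0)) (by rw [d0]; exact Submodule.zero_mem _)
      Finset.univ
    refine ⟨-h, Submodule.neg_mem _ h1, Submodule.neg_mem _ h2, ?_⟩
    have e : zw4_S Finset.univ (l 0) = Finsupp.single (Finset.univ, []) 1 := by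
      rw [l0, zw4_S_single, Finset.union_eq_left.mpr (Finset.subset_univ _)]
    rw [e] at h3
    show Finsupp.single (Finset.univ, []) 1 - l 0 - dF (-h) ∈ BF F q
    exact zg1_of_eq (Submodule.neg_mem _ h3) (by rw [map_neg]; abel)
  · intro j hj _ c hc hk hd
    obtain ⟨-, h, h1, h2, h3⟩ := zw4_key (0 + j) hc hk hd Finset.univ
    refine ⟨h, h1, h2, ?_⟩
    have h4 : zw4_S Finset.univ c ∈ BF F q := by
      refine zw4_mem (zw4_S Finset.univ) (fun I m hz => ?_) hk
      rw [zw4_S_single]
      refine Finsupp.single_mem_supported F _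
        ⟨Finset.union_eq_left.mpr (Finset.subset_univ _), fun e => ?_⟩
      have h5 : m.length = 0 + j := hz
      obtain rfl : m = [] := e
      rw [List.length_nil] at h5
      omega
    show c - dF h ∈ BF F q
    exact zg1_of_eq (Submodule.add_mem _ h3 h4) (by abel)

end Pool.Agent.Fu
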