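import Mathlib
import Pool.Agent.P.MP_365c00_gt.ZW4
import Pool.Agent.P.MP_365c00_gt.ZW1b

/-! Cutting formal cyclic words. -/

set_option linter.unusedSectionVars false
set_option linter.unusedVariables false

open Set Topology

namespace Pool.Agent.Fu

variable {F : Type} [Field F] {X Y : Type} [TopologicalSpace X] [TopologicalSpace Y] {q : ℕ}

variable [NeZero q]

theorem zw5_idx (a b : ZMod q) {j : ℕ} (hj : j < q) : b + j + 1 = a ↔ j = (a - b - 1).val := by
  constructor
  · intro h
    have : a - b - 1 = (j : ZMod q) := by rw [← h]; ring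
    rw [this, ZMod.val_natCast_of_lt hj]
  · intro h
    rw [h, ZMod.natCast_zmod_val]; ring

theorem zw5_pos : 0 < q := Nat.pos_of_ne_zero (NeZero.ne q)

theorem zw5_self (b : ZMod q) : (b - b - 1).val = q - 1 := by
  have h0 : 0 < q := zw5_pos
  refine ((zw5_idx b b (j := q - 1) (by omega)).1 ?_).symm
  have : ((q - 1 : ℕ) : ZMod q) + 1 = 0 := by
    have h1 : ((q - 1 + 1 : ℕ) : ZMod q) = 0 := by
      rw [Nat.sub_add_cancel h0]; exact ZMod.natCast_self q
    simpa using h1
  rw [add_assoc, this, add_zero]

theorem zw5_lt {a b : ZMod q} (h : a ≠ b) : (a - b - 1).val < q - 1 := by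
  have h1 : (a - b - 1).val < q := ZMod.val_lt _
  have h2 : (a - b - 1).val ≠ q - 1 := by
    intro h2
    rw [← zw5_self b] at h2
    have := ZMod.val_injective q h2
    apply h
    linear_combination this
  omega

/-- the word without homotopy letters -/
def zw5_bw (b : ZMod q) (I : Finset (ZMod q)) : List Lt :=
  (List.range (q - 1)).map fun j : ℕ => if b + j + 1 ∈ I then Lt.I else Lt.O

theorem zw5_nil (b : ZMod q) (I : Finset (ZMod q)) : phi (F := F) b I [] = wd (zw5_bw b I) := by
  rw [phi, zw5_bw]
  congr 1
  generalize List.range (q - 1) = L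
  induction L with
  | nil => rfl
  | cons x L ih =>
    rw [List.map_cons, ← ih]
    rfl

theorem zw5_cons (a b : ZMod q) (I : Finset (ZMod q)) (l : List (ZMod q)) :
    phi (F := F) b I (a :: l) = lin (pw (F := F) (a - b - 1).val) (phi (F := F) b I l) := rfl

theorem zw5_len (b : ZMod q) (I : Finset (ZMod q)) : (zw5_bw b I).length = q - 1 := by
  simp [zw5_bw]

theorem zw5_get (b : ZMod q) (I : Finset (ZMod q)) (j : ℕ) (hj : j < (zw5_bw b I).length) :
    (zw5_bw b I)[j] = if b + j + 1 ∈ I then Lt.I else Lt.O := by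
  simp [zw5_bw]

theorem zw5_noS (b : ZMod q) (I : Finset (ZMod q)) : Lt.S ∉ zw5_bw b I := by
  intro h
  obtain ⟨j, -, hj⟩ := List.mem_map.1 h
  split_ifs at hj

theorem zw5_count (p : ℕ → Prop) [DecidablePred p] (n : ℕ) :
    ((List.range n).map fun j => if p j then Lt.I else Lt.O).count Lt.I =
      ((Finset.range n).filter p).card := by
  induction n with
  | zero => simp
  | succ n ih =>
    rw [List.range_succ, List.map_append, List.count_append, ih, Finset.range_add_one,
      Finset.filter_insert]
    by_cases h : p n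
    · rw [if_pos h, Finset.card_insert_of_notMem (by simp)]
      simp [h]
    · rw [if_neg h]
      simp [h]

theorem zw5_countI {b : ZMod q} {I : Finset (ZMod q)} (hb : b ∈ I) :
    (zw5_bw b I).count Lt.I + 1 = I.card := by
  rw [← Finset.card_erase_add_one hb]
  congr 1
  rw [zw5_bw, zw5_count (fun j : ℕ => b + j + 1 ∈ I)]
  have h0 : 0 < q := zw5_pos
  refine Finset.card_bij (fun j _ => b + j + 1) ?_ ?_ ?_
  · intro j hj
    rw [Finset.mem_filter, Finset.mem_range] at hj
    refine Finset.mem_erase.2 ⟨fun h => ?_, hj.2⟩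
    have := (zw5_idx b b (j := j) (by omega)).1 h
    rw [zw5_self] at this
    omega
  · intro i hi j hj h
    rw [Finset.mem_filter, Finset.mem_range] at hi hj
    rw [(zw5_idx _ b (j := i) (by omega)).1 h, ← (zw5_idx _ b (j := j) (by omega)).1 rfl]
  · intro a ha
    rw [Finset.mem_erase] at ha
    have h1 := (zw5_idx a b (ZMod.val_lt (a - b - 1))).2 rfl
    exact ⟨(a - b - 1).val, Finset.mem_filter.2 ⟨Finset.mem_range.2 (zw5_lt ha.1), by
      rw [h1]; exact ha.2⟩, h1⟩

theorem zw5_wd_mem {s : Set (List Lt)} {w : List Lt} (h : w ∈ s) :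
    wd (F := F) w ∈ Finsupp.supported F F s := Finsupp.single_mem_supported F 1 h

theorem phi_len (b : ZMod q) (I : Finset (ZMod q)) (l : List (ZMod q)) :
    phi (F := F) b I l ∈ Finsupp.supported F F {w | w.length = q - 1} := by
  induction l with
  | nil => rw [zw5_nil]; exact zw5_wd_mem (zw5_len b I)
  | cons a l ih =>
    rw [zw5_cons]
    refine lin_mem (fun w hw => ?_) ih
    exact Finsupp.supported_mono (fun v hv => hv.1.trans hw) (pw_supp _ w)

theorem rw_phi (a b : ZMod q) (I : Finset (ZMod q)) (l : List (ZMod q)) :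
    lin (rw (F := F) (a - b - 1).val) (phi (F := F) b I l) = phi b (insert a I) l := by
  induction l with
  | nil =>
    rw [zw5_nil, zw5_nil, lin_wd, rw_of_noS _ (zw5_noS b I)]
    congr 1
    refine List.ext_getElem (by simp [zw5_len]) fun j h1 h2 => ?_
    have hj : j < q := by rw [zw5_len] at h2; omega
    rw [List.getElem_set, zw5_get, zw5_get]
    by_cases h : (a - b - 1).val = j
    · rw [if_pos h, if_pos (Finset.mem_insert.2 (Or.inl ((zw5_idx a b hj).2 h.symm)))]
    · rw [if_neg h]
      have h' : ¬ b + j + 1 = a := fun h' => h ((zw5_idx a b hj).1 h').symm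
      simp only [Finset.mem_insert, h', false_or]
  | cons c l ih =>
    rw [zw5_cons, zw5_cons, ← ih, map_lin, map_lin]
    simp only [rw_pw]

theorem zw5_pre (a b : ZMod q) (z : FC F q) :
    lin (fun z : Finset (ZMod q) × List (ZMod q) => phi (F := F) b z.1 z.2) (pre a z) =
      lin (pw (F := F) (a - b - 1).val)
        (lin (fun z : Finset (ZMod q) × List (ZMod q) => phi (F := F) b z.1 z.2) z) := by
  induction z using Finsupp.induction_linear with
  | zero => simp
  | add f g hf hg => simp only [map_add, hf, hg]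
  | single x r =>
    rw [pre, Finsupp.lmapDomain_apply, Finsupp.mapDomain_single, lin_single, lin_single, map_smul,
      zw5_cons]

theorem dw_phi (b : ZMod q) (I : Finset (ZMod q)) (l : List (ZMod q)) :
    lin (dw (F := F)) (phi (F := F) b I l) =
      lin (fun z : Finset (ZMod q) × List (ZMod q) => phi (F := F) b z.1 z.2) (df (F := F) I l) := by
  induction l with
  | nil => rw [zw5_nil, lin_wd, dw_of_noS (zw5_noS b I), df, map_zero]
  | cons a l ih =>
    rw [zw5_cons, df, map_sub, map_sub, lin_single, lin_single, one_smul, one_smul, zw5_pre, ← ih,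
      map_lin]
    simp only [dw_pw]
    rw [lin_sub (fun w => wd w - rw (a - b - 1).val w), lin_sub, lin_wd_self, rw_phi, map_lin]

theorem phi_supp {b : ZMod q} {I : Finset (ZMod q)} (hb : b ∈ I) (l : List (ZMod q)) :
    phi (F := F) b I l ∈ Finsupp.supported F F
      {w | w.length = q - 1 ∧ w.count Lt.S = l.length ∧ w.count Lt.I + 1 = I.card ∧
        ∀ b' ∈ I, b' ≠ b → w[(b' - b - 1).val]? = some Lt.I} := by
  induction l with
  | nil =>
    rw [zw5_nil]
    refine zw5_wd_mem ⟨zw5_len b I, List.count_eq_zero.2 (zw5_noS b I), zw5_countI hb,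
      fun b' hb' hne => ?_⟩
    have h1 : (b' - b - 1).val < (zw5_bw b I).length := by rw [zw5_len]; exact zw5_lt hne
    rw [List.getElem?_eq_getElem h1, zw5_get, (zw5_idx b' b (ZMod.val_lt _)).2 rfl, if_pos hb']
  | cons a l ih =>
    rw [zw5_cons]
    refine lin_mem (fun w hw => ?_) ih
    refine Finsupp.supported_mono (fun v hv => ?_) (pw_supp _ w)
    obtain ⟨h1, h2, h3, h4⟩ := hw
    obtain ⟨k1, k2, k3, k4⟩ := hv
    exact ⟨k1.trans h1, by rw [k2, h2, List.length_cons], by rw [k3, h3],
      fun b' hb' hne => k4 _ (h4 b' hb' hne)⟩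

theorem phi_univ_nil (b : ZMod q) :
    phi (F := F) b Finset.univ [] = wd (List.replicate (q - 1) Lt.I) := by
  rw [zw5_nil]
  congr 1
  simp [zw5_bw]

theorem phi_univ (b : ZMod q) {l : List (ZMod q)} (hl : l ≠ []) :
    phi (F := F) b Finset.univ l = 0 := by
  obtain ⟨a, l, rfl⟩ := List.exists_cons_of_ne_nil hl
  rw [zw5_cons, ← Submodule.mem_bot F]
  refine lin_mem (fun w hw => ?_) (phi_supp (Finset.mem_univ b) l)
  rw [Submodule.mem_bot]
  by_cases h : a = b
  · exact pw_of_le (by rw [h, zw5_self, hw.1])
  · exact pw_of_I (hw.2.2.2 a (Finset.mem_univ a) h)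

theorem phi_shift (b : ZMod q) (I : Finset (ZMod q)) (l : List (ZMod q)) :
    phi (F := F) (b + 1) (I.image (· + 1)) (l.map (· + 1)) = phi b I l := by
  induction l with
  | nil =>
    rw [List.map_nil, zw5_nil, zw5_nil]
    congr 1
    refine List.map_congr_left fun j _ => ?_
    have : b + 1 + j + 1 ∈ I.image (· + 1) ↔ b + j + 1 ∈ I := by
      rw [Finset.mem_image]
      constructor
      · rintro ⟨c, hc, h⟩
        have : b + j + 1 = c := by linear_combination -h
        rwa [this]
      · intro h
        exact ⟨_, h, by ring⟩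
    simp only [this]
  | cons a l ih =>
    rw [List.map_cons, zw5_cons, zw5_cons, ih]
    have : a + 1 - (b + 1) - 1 = a - b - 1 := by ring
    rw [this]

theorem phi_rot {b b' : ZMod q} {I : Finset (ZMod q)} (hb : b ∈ I) (hb' : b' ∈ I) (hne : b' ≠ b)
    (l : List (ZMod q)) :
    phi (F := F) b' I l = lin (rot (F := F) (b' - b - 1).val) (phi (F := F) b I l) := by
  have hk := zw5_lt hne
  have hb1 := (zw5_idx b' b (ZMod.val_lt _)).2 rfl
  induction l with
  | nil =>
    generalize (b' - b - 1).val = k at hk hb1
    have hS : ((zw5_bw b I).take k).count Lt.S = 0 :=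
      List.count_eq_zero.2 fun h => zw5_noS b I (List.mem_of_mem_take h)
    rw [zw5_nil, zw5_nil, lin_wd, rot, hS, zero_mul, pow_zero, one_smul]
    congr 1
    refine List.ext_getElem (by simp [zw5_len]; omega) fun j h1 h2 => ?_
    have hj : j < q - 1 := by rwa [zw5_len] at h1
    have hd : ((zw5_bw b I).drop (k + 1)).length = q - 1 - (k + 1) := by simp [zw5_len]
    rw [zw5_get, List.getElem_append]
    split_ifs with h3 h4 h4
    · rw [List.getElem_drop, zw5_get, if_pos]
      rw [← hb1] at h3
      push_cast
      rwa [← add_assoc, ← add_assoc]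
    · rw [List.getElem_cons]
      split_ifs with h5
      · rfl
      · rw [List.getElem_take, zw5_get, if_pos]
        have e : j + k + 1 = (j - ((zw5_bw b I).drop (k + 1)).length - 1) + q := by omega
        have e' := congrArg (Nat.cast : ℕ → ZMod q) e
        push_cast at e'
        rw [ZMod.natCast_self, add_zero] at e'
        rw [← e']
        have : b + (j + k + 1) + 1 = b' + j + 1 := by rw [← hb1]; ring
        rwa [this]
    · rw [List.getElem_drop, zw5_get, if_neg]
      rw [← hb1] at h3
      push_cast
      rwa [← add_assoc, ← add_assoc]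
    · rw [List.getElem_cons]
      split_ifs with h5
      · exfalso
        apply h3
        have e : j + k + 2 = q := by omega
        have e' := congrArg (Nat.cast : ℕ → ZMod q) e
        push_cast at e'
        rw [ZMod.natCast_self] at e'
        have : b' + j + 1 = b := by rw [← hb1]; linear_combination e'
        rwa [this]
      · rw [List.getElem_take, zw5_get, if_neg]
        have e : j + k + 1 = (j - ((zw5_bw b I).drop (k + 1)).length - 1) + q := by omega
        have e' := congrArg (Nat.cast : ℕ → ZMod q) e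
        push_cast at e'
        rw [ZMod.natCast_self, add_zero] at e'
        rw [← e']
        have : b + (j + k + 1) + 1 = b' + j + 1 := by rw [← hb1]; ring
        rwa [this]
  | cons a l ih =>
    rw [zw5_cons, zw5_cons, ih, map_lin, map_lin]
    refine lin_congr (fun w hw => (rot_pw (hw.2.2.2 b' hb' hne) ?_).symm) (phi_supp hb l)
    rw [hw.1]
    have hi := ZMod.val_lt (a - b - 1)
    have hi' := ZMod.val_lt (a - b' - 1)
    have e : (((a - b' - 1).val + (b' - b - 1).val + 1 : ℕ) : ZMod q) =
        (((a - b - 1).val : ℕ) : ZMod q) := by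
      push_cast
      simp only [ZMod.natCast_zmod_val]
      ring
    rw [ZMod.natCast_eq_natCast_iff', Nat.mod_eq_of_lt hi] at e
    by_cases h : (a - b' - 1).val + (b' - b - 1).val + 1 < q
    · rw [Nat.mod_eq_of_lt h] at e
      omega
    · rw [Nat.mod_eq_sub_mod (by omega), Nat.mod_eq_of_lt (by omega)] at e
      omega

end Pool.Agent.Fu
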