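import Mathlib
import Pool.Agent.P.MP_365c00_gt.ZW3
import Pool.Agent.P.MP_365c00_gt.ZW5

/-! The chains of cyclic words. -/

set_option linter.unusedSectionVars false
set_option linter.unusedVariables false

open Set Topology

namespace Pool.Agent.Fu

variable {F : Type} [Field F] {X Y : Type} [TopologicalSpace X] [TopologicalSpace Y] {q : ℕ}

variable [NeZero q] {Y' : ℕ → ℝ → Set (ℕ → X)} {far : ℕ → Set (ℕ → X)}
  {R : ℕ → Ch F (ℕ → X) → Prop} {T c1 c3 : ℝ} {e : ℕ} {Zc : ℝ → Set (ZMod q → X)}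
  {fZ : Set (ZMod q → X)} {a : List Lt → Ch F (ℕ → X)}

theorem zw6_ind {α P : Type} [AddCommGroup P] [Module F P] {s : Set α} {N : Submodule F P}
    (L : (α →₀ F) →ₗ[F] P) (h : ∀ a ∈ s, L (Finsupp.single a 1) ∈ N) {z : α →₀ F}
    (hz : z ∈ Finsupp.supported F F s) : L z ∈ N := by
  rw [Finsupp.supported_eq_span_single] at hz
  have : Submodule.span F ((fun i => Finsupp.single i (1 : F)) '' s) ≤ N.comap L := by
    rw [Submodule.span_le]
    rintro _ ⟨a, ha, rfl⟩
    exact h a ha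
  exact this hz

theorem zw6_ll {α β P : Type} [AddCommGroup P] [Module F P] (f : β → P) (g : α → β →₀ F)
    (z : α →₀ F) : lin (F := F) f (lin (F := F) g z) = lin (F := F) (fun a => lin (F := F) f (g a)) z :=
  map_lin (P := β →₀ F) (lin f) g z

theorem cyc_rot (he : Even e) (hW : ∀ w : List Lt, w.length < q → WP Y' far T c1 c3 e a w)
    (b : ZMod q) {k : ℕ} {w : List Lt} (hl : w.length = q - 1) (hk : w[k]? = some Lt.I) :
    map (cyc X b) (Zw a w) = map (cyc X (b + (k : ZMod q) + 1)) (lin (Zw a) (rot (F := F) k w)) := by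
  have hq : 0 < q := Nat.pos_of_ne_zero (NeZero.ne q)
  obtain ⟨hk1, hk2⟩ := List.getElem?_eq_some_iff.1 hk
  have hw : w = w.take k ++ Lt.I :: w.drop (k + 1) := by
    rw [← hk2, List.getElem_cons_drop, List.take_append_drop]
  have l1 : (w.take k).length = k := by rw [List.length_take]; omega
  have l2 : (w.drop (k + 1)).length = q - 1 - (k + 1) := by rw [List.length_drop, hl]
  have d1 := (hW (w.take k) (by omega)).2.1
  have d2 := (hW (w.drop (k + 1)) (by omega)).2.1
  have e1 : Zw a w = mu ((w.take k).length + 1) (Zw a (w.take k)) (Zw a (w.drop (k + 1))) := by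
    rw [← Zw_append, ← hw]
  have hs : (w.take k).length + 1 + ((w.drop (k + 1)).length + 1) = q := by omega
  rw [e1, cyc_mu b hs d1 d2, rot, map_smul, lin_wd, Zw_append, map_smul, l1]
  have e2 : b + ((k + 1 : ℕ) : ZMod q) = b + (k : ZMod q) + 1 := by push_cast; ring
  rw [e2]
  congr 1
  generalize (w.take k).count Lt.S = s1
  generalize (w.drop (k + 1)).count Lt.S = s2
  generalize (w.drop (k + 1)).length + 1 = y
  have e3 : ((k + 1) * e + s1) * (y * e + s2) =
      e * ((k + 1) * (y * e + s2) + s1 * y) + s1 * s2 := by ring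
  rw [e3, pow_add, (he.mul_right _).neg_one_pow, one_mul]

theorem cyc_phi (he : Even e) (hW : ∀ w : List Lt, w.length < q → WP Y' far T c1 c3 e a w)
    {b b' : ZMod q} {I : Finset (ZMod q)} (hb : b ∈ I) (hb' : b' ∈ I) (l : List (ZMod q)) :
    map (cyc X b) (lin (Zw a) (phi (F := F) b I l)) =
      map (cyc X b') (lin (Zw a) (phi (F := F) b' I l)) := by
  by_cases hne : b' = b
  · rw [hne]
  rw [phi_rot hb hb' hne l, zw6_ll, map_lin (map (cyc X b')), map_lin (map (cyc X b))]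
  refine lin_congr (fun w hw => ?_) (phi_supp hb l)
  rw [cyc_rot he hW b hw.1 (hw.2.2.2 b' hb' hne)]
  have : b + (((b' - b - 1).val : ℕ) : ZMod q) + 1 = b' := by
    rw [ZMod.natCast_zmod_val]; ring
  rw [this]

theorem exists_Y (he : Even e) (hW : ∀ w : List Lt, w.length < q → WP Y' far T c1 c3 e a w)
    (hc : ∀ (b : ZMod q) t, MapsTo (cyc X b) (Y' (q - 1) t) (Zc t))
    (hf : ∀ b : ZMod q, MapsTo (cyc X b) (far (q - 1)) fZ) :
    ∃ L : FC F q →ₗ[F] Ch F (ZMod q → X),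
      L (Finsupp.single (Finset.univ, []) 1) = cpr q (fun _ => map (ev0 X) (a [])) ∧
      (∀ z ∈ BF F q, L z = 0) ∧ (∀ z ∈ AF F q, map (shf X q) (L z) = L (sF z)) ∧
      ∀ (I : Finset (ZMod q)) (l : List (ZMod q)), I.Nonempty →
        L (Finsupp.single (I, l) 1) ∈ CC F (Zc (q * T + c1 * I.card + c3 * l.length)) ∧
        L (Finsupp.single (I, l) 1) ∈ HD F _ (q * e + l.length) ∧
        bd (L (Finsupp.single (I, l) 1)) - L (df I l) ∈
          CC F (Zc (q * T + c1 * I.card + c3 * l.length) ∩ fZ) := by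
  classical
  have hq : 0 < q := Nat.pos_of_ne_zero (NeZero.ne q)
  let g : Finset (ZMod q) × List (ZMod q) → Ch F (ZMod q → X) := fun z =>
    if h : z.1.Nonempty then map (cyc X h.choose) (lin (Zw a) (phi (F := F) h.choose z.1 z.2))
    else 0
  have hg : ∀ (z : Finset (ZMod q) × List (ZMod q)) (b : ZMod q), b ∈ z.1 →
      g z = map (cyc X b) (lin (Zw a) (phi (F := F) b z.1 z.2)) := fun z b hb => by
    have hne : z.1.Nonempty := ⟨b, hb⟩
    simp only [g, dif_pos hne]
    exact cyc_phi he hW hne.choose_spec hb z.2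
  have hL : ∀ (z : Finset (ZMod q) × List (ZMod q)) (b : ZMod q), b ∈ z.1 →
      lin (F := F) g (Finsupp.single z 1) =
        map (cyc X b) (lin (Zw a) (phi (F := F) b z.1 z.2)) := fun z b hb => by
    rw [lin_single, one_smul, hg z b hb]
  refine ⟨lin g, ?_, fun z hz => ?_, fun z hz => ?_, fun I l hI => ?_⟩
  · rw [hL _ 0 (Finset.mem_univ _), phi_univ_nil, lin_wd, Zw_rep]
  · refine (Submodule.mem_bot F).1 (zw6_ind (N := ⊥) (lin g) (fun z hz => ?_) hz)
    rw [hL z 0 (hz.1 ▸ Finset.mem_univ _), hz.1, phi_univ 0 hz.2, map_zero, map_zero]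
    exact Submodule.zero_mem _
  · refine sub_eq_zero.1 ((Submodule.mem_bot F).1 (zw6_ind (N := ⊥)
      (map (shf X q) ∘ₗ lin g - lin g ∘ₗ sF) (fun z hz => ?_) hz))
    obtain ⟨b, hb⟩ := hz
    have e1 : sF (Finsupp.single z (1 : F)) =
        Finsupp.single (z.1.image (· + 1), z.2.map (· + 1)) 1 := by
      rw [sF, Finsupp.lmapDomain_apply, Finsupp.mapDomain_single]
    rw [LinearMap.sub_apply, LinearMap.comp_apply, LinearMap.comp_apply, e1, hL z b hb,
      hL _ (b + 1) (Finset.mem_image_of_mem _ hb), shf_cyc, phi_shift, sub_self]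
    exact Submodule.zero_mem _
  · obtain ⟨b, hb⟩ := hI
    have hw : ∀ w ∈ {w : List Lt | w.length = q - 1 ∧ w.count Lt.S = l.length ∧
        w.count Lt.I + 1 = I.card ∧ ∀ b' ∈ I, b' ≠ b → w[(b' - b - 1).val]? = some Lt.I},
        Zw a w ∈ CC F (Y' (q - 1) (q * T + c1 * I.card + c3 * l.length)) ∧
        Zw a w ∈ HD F _ (q * e + l.length) ∧
        bd (Zw a w) - lin (Zw a) (dw (F := F) w) ∈
          CC F (Y' (q - 1) (q * T + c1 * I.card + c3 * l.length) ∩ far (q - 1)) := by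
      rintro w ⟨w1, w2, w3, -⟩
      have h0 := hW w (by omega)
      have e0 : w.length + 1 = q := by omega
      have e1 : lev T c1 c3 w = q * T + c1 * I.card + c3 * l.length := by
        have e2 : (w.length : ℝ) + 1 = q := by exact_mod_cast e0
        have e3 : (w.count Lt.I : ℝ) + 1 = I.card := by exact_mod_cast w3
        rw [lev, e2, e3, w2]
      rw [WP, e1, e0, w1, w2] at h0
      exact h0
    rw [hL (I, l) b hb]
    refine ⟨map_mem_CC (hc b _) (lin_mem (fun w h => (hw w h).1) (phi_supp hb l)),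
      map_mem_HD _ (lin_mem (fun w h => (hw w h).2.1) (phi_supp hb l)), ?_⟩
    have e1 : lin (F := F) g (df I l) =
        map (cyc X b) (lin (Zw a) (lin (dw (F := F)) (phi (F := F) b I l))) := by
      rw [dw_phi, zw6_ll, map_lin (map (cyc X b))]
      exact lin_congr (fun z hz => hg z b (hz.1 hb)) (df_supp I l)
    rw [e1, bd_map, ← map_sub, map_lin bd, zw6_ll, ← lin_sub]
    exact map_mem_CC ((hc b _).inter_inter (hf b))
      (lin_mem (fun w h => (hw w h).2.2) (phi_supp hb l))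

theorem exists_seq (h : WS F Y' far R T c1 c3 e q) {z0 : Ch F (ℕ → X)}
    (h1 : z0 ∈ ZZ F (Y' 0 (T + c1)) (Y' 0 (T + c1) ∩ far 0)) (h2 : z0 ∈ HD F _ e) (h3 : R 0 z0)
    (hm : Monotone Zc) (hc : ∀ (b : ZMod q) t, MapsTo (cyc X b) (Y' (q - 1) t) (Zc t))
    (hf : ∀ b : ZMod q, MapsTo (cyc X b) (far (q - 1)) fZ) (r : ℕ) {lo top : ℝ}
    (hlo : q * T + c1 + c3 * r ≤ lo) (htop : q * T + q * c1 + c3 * (r + 1) ≤ top) :
    (cpr q fun _ => map (ev0 X) z0) ∈ ZZ F (Zc top) (Zc top ∩ fZ) ∧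
    ∃ l k : ℕ → Ch F (ZMod q → X), (gcy F X q).Seq (CC F (Zc lo)) (CC F (Zc lo ∩ fZ)) r l ∧
      (∀ j ≤ r, l j ∈ HD F _ (q * e + j)) ∧
      (gcy F X q).NulBy (CC F (Zc top)) (CC F (Zc top ∩ fZ)) r
        (fun j => sq 0 (cpr q fun _ => map (ev0 X) z0) j - l j) k ∧
      ∀ j ≤ r, k j ∈ HD F _ (q * e + j + 1) := by
  obtain ⟨a, ha0, hW⟩ := exists_Z h h1 h2 h3
  obtain ⟨L, hL1, hLB, hLs, hL⟩ := exists_Y h.even hW hc hf
  obtain ⟨l, k, l1, l2, l3, k1, k2, k3, k4⟩ := exists_low (F := F) (q := q) r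
  rw [ha0] at hL1
  rw [← hL1]
  have c1n := h.c1_nonneg
  have c3n : 0 ≤ c3 := h.c1_nonneg.trans h.c13
  have key : ∀ (s : Set (Finset (ZMod q) × List (ZMod q))) (t : ℝ) (j : ℕ),
      (∀ z ∈ s, z.1.Nonempty ∧ z.2.length = j ∧ q * T + c1 * z.1.card + c3 * j ≤ t) →
      ∀ z ∈ Finsupp.supported F F s, L z ∈ CC F (Zc t) ∧ L z ∈ HD F _ (q * e + j) ∧
        bd (L z) - L (dF z) ∈ CC F (Zc t ∩ fZ) := fun s t j hs z hz => by
    refine ⟨zw6_ind L (fun y hy => ?_) hz, zw6_ind L (fun y hy => ?_) hz,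
      zw6_ind (bd ∘ₗ L - L ∘ₗ dF) (fun y hy => ?_) hz⟩
    · obtain ⟨y1, y2, y3⟩ := hs y hy
      have := (hL y.1 y.2 y1).1
      rw [y2] at this
      exact CC_mono (hm y3) this
    · obtain ⟨y1, y2, y3⟩ := hs y hy
      have := (hL y.1 y.2 y1).2.1
      rw [y2] at this
      exact this
    · obtain ⟨y1, y2, y3⟩ := hs y hy
      have := (hL y.1 y.2 y1).2.2
      rw [y2, ← dF_single] at this
      exact CC_mono (inter_subset_inter_left _ (hm y3)) this
  have hT : ∀ j, ∀ z ∈ AF F q, (gcy F X q).T j (L z) = L ((GF F q).T j z) := fun j z hz => by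
    have hs : ∀ y ∈ AF F q, (gcy F X q).s (L y) = L ((GF F q).s y) := hLs
    by_cases hj : Even j
    · rw [zg1_even _ hj, zg1_even _ hj, map_sub, hs z hz]
    · rw [zg1_odd _ hj, zg1_odd _ hj, map_sum]
      have h4 : ∀ i, ((gcy F X q).s ^ i) (L z) = L (((GF F q).s ^ i) z) := fun i => by
        induction i with
        | zero => rfl
        | succ i ih =>
          rw [pow_succ', pow_succ', Module.End.mul_apply, Module.End.mul_apply, ih,
            hs _ (zg1_pow_mem _ AF_st.2 i hz)]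
      exact Finset.sum_congr rfl fun i _ => h4 i
  have hcard : ∀ I : Finset (ZMod q), (I.card : ℝ) ≤ q := fun I => by
    have := Finset.card_le_univ I
    rw [ZMod.card] at this
    exact_mod_cast this
  have hr : (0 : ℝ) ≤ r := Nat.cast_nonneg r
  have kl : ∀ j ≤ r, L (l j) ∈ CC F (Zc lo) ∧ L (l j) ∈ HD F _ (q * e + j) ∧
      bd (L (l j)) - L (dF (l j)) ∈ CC F (Zc lo ∩ fZ) := fun j hj => by
    refine key _ lo j (fun z hz => ⟨Finset.card_pos.1 (by rw [hz.1]; exact Nat.one_pos), hz.2, ?_⟩)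
      _ (l1 j)
    have e1 : (j : ℝ) ≤ r := by exact_mod_cast hj
    have e2 := mul_le_mul_of_nonneg_left e1 c3n
    rw [hz.1, Nat.cast_one]
    linarith
  have kk : ∀ j ≤ r, L (k j) ∈ CC F (Zc top) ∧ L (k j) ∈ HD F _ (q * e + (j + 1)) ∧
      bd (L (k j)) - L (dF (k j)) ∈ CC F (Zc top ∩ fZ) := fun j hj => by
    refine key _ top (j + 1) (fun z hz => ⟨hz.1, hz.2, ?_⟩) _ (k1 j hj)
    have e1 : ((j + 1 : ℕ) : ℝ) ≤ r + 1 := by exact_mod_cast Nat.succ_le_succ hj
    have e2 := mul_le_mul_of_nonneg_left e1 c3n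
    have e3 := mul_le_mul_of_nonneg_left (hcard z.1) c1n
    linarith
  have lA : ∀ j, l j ∈ AF F q := fun j =>
    Finsupp.supported_mono (fun z hz => Finset.card_pos.1 (by rw [hz.1]; exact Nat.one_pos)) (l1 j)
  have hx : ∀ j, sq 0 (L (Finsupp.single (Finset.univ, []) 1)) j - L (l j) =
      L (sq 0 (Finsupp.single (Finset.univ, []) 1) j - l j) := fun j => by
    rw [map_sub]
    congr 1
    unfold sq
    split_ifs
    · rfl
    · rw [map_zero]
  refine ⟨?_, fun j => L (l j), fun j => L (k j), ⟨fun j hj => (kl j hj).1, ?_, fun j hj => ?_⟩,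
    fun j hj => (kl j hj).2.1, ⟨fun j hj => (kk j hj).1, ?_, fun j hj => ?_⟩,
    fun j hj => (kk j hj).2.1⟩
  · have h0 := hL Finset.univ [] Finset.univ_nonempty
    have e1 : q * T + c1 * ((Finset.univ : Finset (ZMod q)).card : ℝ) +
        c3 * (([] : List (ZMod q)).length : ℝ) ≤ top := by
      have e3 := mul_le_mul_of_nonneg_left (hcard Finset.univ) c1n
      have e4 : 0 ≤ c3 * ((r : ℝ) + 1) := mul_nonneg c3n (by linarith)
      rw [List.length_nil, Nat.cast_zero]
      linarith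
    refine ⟨CC_mono (hm e1) h0.1, ?_⟩
    have h5 := h0.2.2
    rw [df, map_zero, sub_zero] at h5
    exact CC_mono (inter_subset_inter_left _ (hm e1)) h5
  · have := (kl 0 (Nat.zero_le _)).2.2
    rw [l2, map_zero, sub_zero] at this
    exact this
  · have := (kl (j + 1) hj).2.2
    rw [l3, ← hT j _ (lA j)] at this
    exact this
  · have h5 := hLB _ k3
    have h6 := (kk 0 (Nat.zero_le _)).2.2
    rw [map_sub, sub_eq_zero] at h5
    show sq 0 (L (Finsupp.single (Finset.univ, []) 1)) 0 - L (l 0) - bd (L (k 0)) ∈ _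
    rw [hx, h5, ← neg_sub]
    exact Submodule.neg_mem _ h6
  · have h5 := hLB _ (k4 j hj)
    have h6 := (kk (j + 1) hj).2.2
    rw [map_sub, map_sub, sub_sub, sub_eq_zero] at h5
    show sq 0 (L (Finsupp.single (Finset.univ, []) 1)) (j + 1) - L (l (j + 1)) - bd (L (k (j + 1))) -
      (gcy F X q).T j (L (k j)) ∈ _
    rw [hx, h5, hT j _ (k2 j hj.le)]
    refine zg1_of_eq (Submodule.neg_mem _ h6) ?_
    show L (dF (k (j + 1))) + _ - _ - _ = _
    abel

end Pool.Agent.Fu
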