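import Mathlib
import Pool.Agent.P.MP_365c00_gt.ZL1
import Pool.Agent.P.MP_365c00_gt.ZE2

/-! Local product models. -/

set_option linter.unusedSectionVars false
set_option linter.unusedVariables false

open Set Topology unitInterval TensorProduct

namespace Pool.Agent.Fu

variable {F : Type} [Field F] {X Y Z : Type} [TopologicalSpace X] [TopologicalSpace Y]
  [TopologicalSpace Z]

/-- over the open set `U` of the base, the filtered space `A` is dominated by the product of `B`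
with the filtered space `O`, with a loss `β` -/
structure FM (A : ℝ → Set X) (At : Set X) (ξ : C(X, Y)) (U B : Set Y) (O : ℝ → Set Z) (Ot : Set Z)
    (f : X → Z) (g : Y × Z → X) (β : ℝ) : Prop where
  monoA : Monotone A
  monoO : Monotone O
  subA : ∀ t, A t ⊆ At
  subO : ∀ t, O t ⊆ Ot
  op : IsOpen U
  base : MapsTo ξ (At ∩ ξ ⁻¹' U) B
  fc : ContinuousOn f (At ∩ ξ ⁻¹' U)
  ft : MapsTo f (At ∩ ξ ⁻¹' U) Ot
  fl : ∀ t, MapsTo f (A t ∩ ξ ⁻¹' U) (O (t + β))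
  gc : ContinuousOn g (B ×ˢ Ot)
  gb : ∀ b ∈ B, ∀ ω ∈ Ot, ξ (g (b, ω)) = b
  gl : ∀ t, MapsTo g (B ×ˢ O t) (A (t + β))
  htp : ∀ t, Htp (A t ∩ ξ ⁻¹' U) (fun x x' => x' ∈ A (t + 2 * β) ∧ ξ x' = ξ x)
    (fun x => g (ξ x, f x)) id

/-- vanishing in a product -/
theorem prod_null [T2Space Y] (h2 : (2 : F) ≠ 0) {e k : ℕ} {B K : Set Y} (hB : EH F e B)
    (hK : IsCompact K) (hKB : K ⊆ B) {O O' Ot : Set Z} (hO : O ⊆ O') (hOt : O ⊆ Ot)
    {z : Ch F (Y × Z)} (hz : z ∈ ZZ F (B ×ˢ O) ((B \ K) ×ˢ O)) (hd : z ∈ HD F _ k) {P : Prop}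
    (hP : P → ∀ c ∈ K, z ∈ NN F (B ×ˢ Ot) ((B \ {c}) ×ˢ Ot))
    (hv : ∀ j, ∀ w ∈ ZZ F O ∅, w ∈ HD F Z j → k ≤ j + e →
      (k = j + e → P → w ∈ BB F Ot) → w ∈ BB F O') :
    z ∈ NN F (B ×ˢ O') ((B \ K) ×ˢ O') := by
  have hbd : bd z ∈ CC F ((B \ K) ×ˢ O) ⊔ CC F (B ×ˢ (∅ : Set Z)) := Submodule.mem_sup_left hz.2
  have key := ku h2 (A := B) (A' := B \ K) (B0 := O) (B0' := ∅) (B1 := O') (B1' := ∅) sdiff_subset
    (empty_subset _) hO subset_rfl hz.1 hbd ?_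
  · rw [prod_empty, CC_empty, sup_bot_eq] at key
    exact key
  intro l hl
  obtain ⟨n, hn⟩ := sl_sum l z
  rw [hn]
  refine Submodule.sum_mem _ fun i _ => ?_
  have hli : ∀ a ∈ NN F B (B \ K), (l ∘ₗ dg i) a = 0 := fun a ha => hl _ (dg_mem_NN i ha)
  rcases lt_or_ge e i with hi | hi
  · refine NN_mono hO subset_rfl (sl_mem_NN sdiff_subset hz.1 hbd fun a ha => ?_)
    exact hl _ (hB K hK hKB i _ (dg_mem_ZZ i ha) (dg_mem_HD i a) (Or.inl hi))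
  rcases lt_or_ge k i with hk | hk
  · rw [sl_HD_lt l hd hk]
    exact Submodule.zero_mem _
  obtain ⟨j, rfl⟩ := Nat.exists_eq_add_of_le hk
  rw [NN_empty]
  refine hv j _ (sl_mem_ZZ hz.1 hbd hli) (sl_HD l hd) (by omega) fun hj hp => ?_
  obtain rfl : i = e := by omega
  by_contra hc
  obtain ⟨m, hm1, hm⟩ := exists_dual hc
  rw [sl_sr] at hm1
  have h1 : sr m z ∈ ZZ F B (B \ K) := sr_mem_ZZ hz fun b hb => hm b (BB_mono hOt hb)
  have h3 : dg i (sr m z) ∈ NN F B (B \ K) :=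
    hB K hK hKB i _ (dg_mem_ZZ i h1) (dg_mem_HD i _)
      (Or.inr ⟨rfl, fun c hc => dg_mem_NN i (sr_mem_NN (hP hp c hc) hm)⟩)
  rw [LinearMap.comp_apply, hl _ h3] at hm1
  exact zero_ne_one hm1

variable [T2Space Y] {A : ℝ → Set X} {At : Set X} {ξ : C(X, Y)} {U B : Set Y} {O : ℝ → Set Z}
  {Ot : Set Z} {f : X → Z} {g : Y × Z → X} {β : ℝ}

theorem FM.null (h : FM A At ξ U B O Ot f g β) (hβ : 0 ≤ β) (h2 : (2 : F) ≠ 0) {e k : ℕ}
    (hB : EH F e B) {K : Set Y} (hK : IsCompact K) (hKB : K ⊆ B ∩ U) {t β' : ℝ} (hβ' : 0 ≤ β')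
    {z : Ch F X} (hz : z ∈ ZZ F (A t) (off (A t) ξ K)) (hd : z ∈ HD F X k) {P : Prop}
    (hP : P → ∀ c ∈ K, z ∈ NN F At (off At ξ {c}))
    (hv : ∀ j, ∀ w ∈ ZZ F (O (t + β)) ∅, w ∈ HD F Z j → k ≤ j + e →
      (k = j + e → P → w ∈ BB F Ot) → w ∈ BB F (O (t + β + β'))) :
    z ∈ NN F (A (t + 2 * β + β')) (off (A (t + 2 * β + β')) ξ K) := by
  have hU : IsOpen (ξ ⁻¹' U) := h.op.preimage ξ.continuous
  have cov : ∀ {S : Set X} {L : Set Y}, L ⊆ K → S ⊆ ξ ⁻¹' U ∪ ξ ⁻¹' Lᶜ := fun {S L} hL x _ => by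
    by_cases hx : ξ x ∈ L
    · exact Or.inl (hKB (hL hx)).2
    · exact Or.inr hx
  obtain ⟨z', hz', hzz, hd'⟩ := exc_surj (V := ξ ⁻¹' Kᶜ) hU
    (hK.isClosed.isOpen_compl.preimage ξ.continuous) (cov subset_rfl) subset_rfl hz
  have sub : A t ∩ ξ ⁻¹' U ⊆ At ∩ ξ ⁻¹' U := inter_subset_inter_left _ (h.subA t)
  have hφ : ContinuousOn (fun x => (ξ x, f x)) (At ∩ ξ ⁻¹' U) :=
    ξ.continuous.continuousOn.prodMk h.fc
  have m1 : MapsTo (fun x => (ξ x, f x)) (A t ∩ ξ ⁻¹' U) (B ×ˢ O (t + β)) := fun x hx =>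
    ⟨h.base (sub hx), h.fl t hx⟩
  have l1 : t ≤ t + 2 * β + β' := by linarith
  have l2 : t + 2 * β ≤ t + 2 * β + β' := by linarith
  have offm : ∀ {s s' : ℝ}, s ≤ s' → off (A s) ξ K ⊆ off (A s') ξ K := fun hs =>
    inter_subset_inter_left _ (h.monoA hs)
  have p1 : mp (fun x => (ξ x, f x)) z' ∈
      NN F (B ×ˢ O (t + β + β')) ((B \ K) ×ˢ O (t + β + β')) := by
    have m2 : MapsTo (fun x => (ξ x, f x)) ((A t ∩ ξ ⁻¹' U) ∩ (off (A t) ξ K ∩ ξ ⁻¹' U))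
        ((B \ K) ×ˢ O (t + β)) := fun x hx => ⟨⟨(m1 hx.1).1, hx.2.1.2⟩, (m1 hx.1).2⟩
    refine prod_null h2 hB hK (hKB.trans inter_subset_left) (h.monoO (by linarith)) (h.subO _)
      (mp_mem_ZZ (hφ.mono sub) m1 m2 hz')
      (mp_mem_HD _ (hd' k hd)) (P := P) (fun hp c hc => ?_) hv
    have hc' : ({c} : Set Y) ⊆ K := singleton_subset_iff.2 hc
    have s1 : off (A t) ξ K ⊆ off At ξ {c} := fun x hx => ⟨h.subA t hx.1, fun hh => hx.2 (hc' hh)⟩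
    have n1 : z' ∈ NN F At (off At ξ {c}) := by
      have := Submodule.sub_mem _ (hP hp c hc)
        (NN_mono (h.subA t) (inter_subset_right.trans s1) hzz)
      rwa [sub_sub_cancel] at this
    have n2 := exc_inj (V := ξ ⁻¹' {c}ᶜ) hU
      (isClosed_singleton.isOpen_compl.preimage ξ.continuous) (cov hc') subset_rfl
      (ZZ_mono sub (inter_subset_left.trans s1) hz') n1
    have m3 : MapsTo (fun x => (ξ x, f x)) (At ∩ ξ ⁻¹' U) (B ×ˢ Ot) := fun x hx =>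
      ⟨h.base hx, h.ft hx⟩
    have m4 : MapsTo (fun x => (ξ x, f x)) (off At ξ {c} ∩ ξ ⁻¹' U) ((B \ {c}) ×ˢ Ot) :=
      fun x hx => ⟨⟨h.base ⟨hx.1.1, hx.2⟩, hx.1.2⟩, h.ft ⟨hx.1.1, hx.2⟩⟩
    exact mp_mem_NN hφ m3 m4 n2
  have e1 : t + β + β' + β = t + 2 * β + β' := by ring
  have gl := h.gl (t + β + β')
  rw [e1] at gl
  have p2 : mp g (mp (fun x => (ξ x, f x)) z') ∈
      NN F (A (t + 2 * β + β')) (off (A (t + 2 * β + β')) ξ K) := by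
    refine mp_mem_NN (h.gc.mono (prod_mono subset_rfl (h.subO _))) gl ?_ p1
    rintro ⟨b, ω⟩ ⟨hb, hω⟩
    refine ⟨gl ⟨hb.1, hω⟩, ?_⟩
    show ξ (g (b, ω)) ∉ K
    rw [h.gb b hb.1 ω (h.subO _ hω)]
    exact hb.2
  rw [mp_mp (hφ.mono sub) (h.gc.mono (prod_mono subset_rfl (h.subO _))) m1 hz'.1] at p2
  have p3 : mp id z' - mp (fun x => g (ξ x, f x)) z' ∈
      NN F (A (t + 2 * β)) (off (A (t + 2 * β)) ξ K) := by
    refine (h.htp t).NN subset_rfl (fun x _ y hy => hy.1) (fun x hx y hy => ?_) hz'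
    refine ⟨hy.1, ?_⟩
    show ξ y ∉ K
    rw [hy.2]
    exact hx.2.1.2
  rw [mp_id] at p3
  have p4 := Submodule.add_mem _ (Submodule.add_mem _
    (NN_mono (h.monoA l1) (inter_subset_right.trans (offm l1)) hzz)
    (NN_mono (h.monoA l2) (offm l2) p3)) p2
  have e2 : z - z' + (z' - mp (fun x => g (ξ x, f x)) z') + mp (g ∘ fun x => (ξ x, f x)) z' = z := by
    have : (g ∘ fun x => (ξ x, f x)) = fun x => g (ξ x, f x) := rfl
    rw [this]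
    abel
  rwa [e2] at p4

end Pool.Agent.Fu
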