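import Mathlib
import Pool.Agent.P.MP_365c00_gt.ZP2

/-! Tuples of paths with small jumps. -/

set_option linter.unusedSectionVars false
set_option linter.unusedVariables false

open Set Topology Filter Metric

namespace Pool.Agent.Fu

variable {F : Type} [Field F] {M : Type} [MetricSpace M] {Z : Type} [TopologicalSpace Z]

variable {n : ℕ} {δ η : ℝ} {x e : M} {γ γ' : ℕ → Mo M}

theorem zp5_le {ω : Mo M} (h : IsP ω) (n i : ℕ) :
    (i : ℝ) * (ω.2 / (n + 1)) ≤ (i + 1) * (ω.2 / (n + 1)) := by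
  have h1 : 0 ≤ ω.2 / (n + 1) := div_nonneg h.1 (by positivity)
  nlinarith

theorem zp5_cut {ω : Mo M} (h : IsP ω) (n i : ℕ) :
    cut n ω i ∈ Pa (ω.1 (i * (ω.2 / (n + 1)))) (ω.1 ((i + 1) * (ω.2 / (n + 1)))) :=
  seg_mem h (zp5_le h n i)

theorem zp5_full (n : ℕ) (L : ℝ) : ((n : ℝ) + 1) * (L / (n + 1)) = L :=
  mul_div_cancel₀ _ (by positivity)

theorem cut_mem {ω : Mo M} (h : ω ∈ Pa x e) (hδ : 0 < δ) (hη : 0 < η) (n : ℕ) :
    cut n ω ∈ Tup n δ η x e ∧ tot n (cut n ω) = ω.2 := by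
  refine ⟨⟨fun i _ => (zp5_cut h.1 n i).1, ?_, fun i _ => ?_, ?_⟩, ?_⟩
  · rw [(zp5_cut h.1 n 0).2.1, Nat.cast_zero, zero_mul]
    exact h.2.1
  · rw [(zp5_cut h.1 n i).2.2, (zp5_cut h.1 n (i + 1)).2.1, Nat.cast_succ, dist_self]
    linarith
  · rw [(zp5_cut h.1 n n).2.2, zp5_full]
    have : ω.1 ω.2 = e := h.2.2
    rw [this, dist_self]
    exact hη
  · have e1 : ∀ i ∈ Finset.range (n + 1), (cut n ω i).2 = ω.2 / (n + 1) := fun i _ => by
      show ((i : ℝ) + 1) * (ω.2 / (n + 1)) - i * (ω.2 / (n + 1)) = _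
      ring
    rw [tot, Finset.sum_congr rfl e1, Finset.sum_const, Finset.card_range, nsmul_eq_mul,
      Nat.cast_succ, zp5_full]
theorem cut_zero {ω : Mo M} (h : IsP ω) : cut 0 ω 0 = ω := by
  have := seg_full h
  simpa [cut] using this
theorem Tup.congr (h : γ ∈ Tup n δ η x e) (he : ∀ i ≤ n, γ' i = γ i) :
    γ' ∈ Tup n δ η x e ∧ tot n γ' = tot n γ := by
  refine ⟨⟨fun i hi => ?_, ?_, fun i hi => ?_, ?_⟩, ?_⟩
  · rw [he i hi]; exact h.1 i hi
  · rw [he 0 (Nat.zero_le n)]; exact h.2.1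
  · rw [he i hi.le, he (i + 1) hi]; exact h.2.2.1 i hi
  · rw [he n le_rfl]; exact h.2.2.2
  · exact Finset.sum_congr rfl fun i hi => by rw [he i (Nat.lt_succ_iff.1 (Finset.mem_range.1 hi))]
theorem tot_cont (n : ℕ) : Continuous (tot n : (ℕ → Mo M) → ℝ) :=
  continuous_finsetSum _ fun i _ => (continuous_apply i).snd

/-- the time at which the piece `i` ends -/
noncomputable def zp5_b (i : ℕ) (γ : ℕ → Mo M) : ℝ :=
  tot i γ + ∑ j ∈ Finset.range i, dist (en (γ j)) (st (γ (j + 1)))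

theorem zp5_b_zero (γ : ℕ → Mo M) : zp5_b 0 γ = (γ 0).2 := by simp [zp5_b, tot]

theorem zp5_b_succ (i : ℕ) (γ : ℕ → Mo M) :
    zp5_b (i + 1) γ = zp5_b i γ + dist (en (γ i)) (st (γ (i + 1))) + (γ (i + 1)).2 := by
  simp only [zp5_b, tot, Finset.sum_range_succ]
  ring

theorem zp5_b_cont (i : ℕ) : Continuous (zp5_b i : (ℕ → Mo M) → ℝ) :=
  (tot_cont i).add (continuous_finsetSum _ fun j _ =>
    (en_cont.comp (continuous_apply j)).dist (st_cont.comp (continuous_apply (j + 1))))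

theorem zp5_b_mono {i : ℕ} : ∀ n, (∀ j ≤ n, IsP (γ j)) → i ≤ n → zp5_b i γ ≤ zp5_b n γ := by
  intro n
  induction n with
  | zero => intro _ hi; rw [Nat.le_zero.1 hi]
  | succ n ih =>
    intro h hi
    rcases Nat.le_succ_iff.1 hi with h1 | rfl
    · have h2 := ih (fun j hj => h j (hj.trans (Nat.le_succ n))) h1
      have h3 := (h (n + 1) le_rfl).1
      have h4 := dist_nonneg (x := en (γ n)) (y := st (γ (n + 1)))
      rw [zp5_b_succ]
      linarith
    · exact le_rfl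

theorem zp5_b_bound (h : ∀ i < n, dist (en (γ i)) (st (γ (i + 1))) < 2 * δ) :
    tot n γ ≤ zp5_b n γ ∧ zp5_b n γ ≤ tot n γ + 2 * δ * n := by
  have h1 : ∑ j ∈ Finset.range n, dist (en (γ j)) (st (γ (j + 1))) ≤
      ∑ _j ∈ Finset.range n, 2 * δ :=
    Finset.sum_le_sum fun j hj => (h j (Finset.mem_range.1 hj)).le
  rw [Finset.sum_const, Finset.card_range, nsmul_eq_mul] at h1
  have h2 : 0 ≤ ∑ j ∈ Finset.range n, dist (en (γ j)) (st (γ (j + 1))) :=
    Finset.sum_nonneg fun _ _ => dist_nonneg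
  unfold zp5_b
  constructor <;> linarith

namespace GS
variable (S : GS M)

theorem fill_congr (he : ∀ i ≤ n, γ' i = γ i) : S.fill n γ' = S.fill n γ := by
  induction n with
  | zero => exact he 0 le_rfl
  | succ n ih =>
    simp only [fill]
    rw [ih fun i hi => he i (hi.trans (Nat.le_succ n)), he n (Nat.le_succ n), he (n + 1) le_rfl]

theorem zp5_fill (hδ : 2 * δ ≤ S.a) : ∀ n, (∀ i ≤ n, IsP (γ i)) →
    (∀ i < n, dist (en (γ i)) (st (γ (i + 1))) < 2 * δ) →
    S.fill n γ ∈ Pa (st (γ 0)) (en (γ n)) ∧ (S.fill n γ).2 = zp5_b n γ ∧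
      ∀ i ≤ n, seg (S.fill n γ) (zp5_b i γ - (γ i).2) (zp5_b i γ) = γ i := by
  intro n
  induction n with
  | zero =>
    intro h _
    refine ⟨(h 0 le_rfl).mem, (zp5_b_zero γ).symm, fun i hi => ?_⟩
    rw [Nat.le_zero.1 hi, zp5_b_zero, sub_self]
    exact seg_full (h 0 le_rfl)
  | succ n ih =>
    intro h h'
    have h0 : ∀ i ≤ n, IsP (γ i) := fun i hi => h i (hi.trans (Nat.le_succ n))
    obtain ⟨h1, h2, h3⟩ := ih h0 fun i hi => h' i (hi.trans (Nat.lt_succ_self n))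
    have hd : dist (en (γ n)) (st (γ (n + 1))) < S.a := (h' n (Nat.lt_succ_self n)).trans_le hδ
    have h4 := S.mem _ _ hd
    have h5 := cat_mem h1 h4
    have h6 := (h (n + 1) le_rfl).mem
    have h7 : (cat (S.fill n γ) (S.sg (en (γ n)) (st (γ (n + 1))))).2 =
        zp5_b n γ + dist (en (γ n)) (st (γ (n + 1))) := by rw [cat_dur, h2, S.dur _ _ hd]
    have e0 : S.fill (n + 1) γ =
        cat (cat (S.fill n γ) (S.sg (en (γ n)) (st (γ (n + 1))))) (γ (n + 1)) := rfl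
    rw [e0]
    refine ⟨cat_mem h5 h6, by rw [cat_dur, h7, zp5_b_succ], fun i hi => ?_⟩
    have h8 : zp5_b i γ - (γ i).2 ≤ zp5_b i γ := sub_le_self _ (h i hi).1
    rcases Nat.le_succ_iff.1 hi with hi' | rfl
    · have h9 := zp5_b_mono n h0 hi'
      rw [seg_cat_left h5 h6 h8 (by rw [h7]; exact h9.trans (le_add_of_nonneg_right dist_nonneg)),
        seg_cat_left h1 h4 h8 (by rw [h2]; exact h9), h3 i hi']
    · rw [seg_cat_right h5 h6 h8 (by rw [h7, zp5_b_succ, add_sub_cancel_right]), h7, zp5_b_succ,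
        add_sub_cancel_right, sub_self, add_sub_cancel_left]
      exact seg_full (h _ le_rfl)

theorem fill_mem (hδ : 2 * δ ≤ S.a) (h : γ ∈ Tup n δ η x e) :
    S.fill n γ ∈ Pa x (en (γ n)) ∧ (S.fill n γ).2 ≤ tot n γ + 2 * δ * n := by
  obtain ⟨h1, h2, -⟩ := S.zp5_fill hδ n h.1 h.2.2.1
  rw [h.2.1] at h1
  exact ⟨h1, h2.trans_le (zp5_b_bound h.2.2.1).2⟩
theorem fill_cut {ω : Mo M} (h : IsP ω) (n : ℕ) : S.fill n (cut n ω) = ω := by
  have h0 : 0 ≤ ω.2 / (n + 1) := div_nonneg h.1 (by positivity)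
  have key : ∀ m : ℕ, S.fill m (cut n ω) = seg ω 0 ((m + 1) * (ω.2 / (n + 1))) := by
    intro m
    induction m with
    | zero =>
      show seg ω (((0 : ℕ) : ℝ) * (ω.2 / (n + 1))) _ = _
      rw [Nat.cast_zero, zero_mul]
    | succ m ih =>
      have h1 : (0 : ℝ) ≤ (m + 1) * (ω.2 / (n + 1)) := mul_nonneg (by positivity) h0
      have h2 := zp5_le h n (m + 1)
      simp only [fill]
      rw [ih, (zp5_cut h n m).2.2, (zp5_cut h n (m + 1)).2.1, cut]
      rw [Nat.cast_succ] at h2 ⊢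
      rw [S.sg_self, cat_triv (seg_mem h h1), cat_seg h h1 h2]
  rw [key, zp5_full, seg_full h]

theorem zp5_fill_cont (hδ : 2 * δ ≤ S.a) {A : Set Z} {c : Z → ℕ → Mo M} (hc : ContinuousOn c A) :
    ∀ n, (∀ z ∈ A, (∀ i ≤ n, IsP (c z i)) ∧
      ∀ i < n, dist (en (c z i)) (st (c z (i + 1))) < 2 * δ) →
    ContinuousOn (fun z => S.fill n (c z)) A := by
  have hci : ∀ i, ContinuousOn (fun z => c z i) A := continuousOn_pi.1 hc
  intro n
  induction n with
  | zero => exact fun _ => hci 0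
  | succ n ih =>
    intro h
    have h0 : ∀ z ∈ A, (∀ i ≤ n, IsP (c z i)) ∧
        ∀ i < n, dist (en (c z i)) (st (c z (i + 1))) < 2 * δ := fun z hz =>
      ⟨fun i hi => (h z hz).1 i (hi.trans (Nat.le_succ n)),
        fun i hi => (h z hz).2 i (hi.trans (Nat.lt_succ_self n))⟩
    have hd : ∀ z ∈ A, dist (en (c z n)) (st (c z (n + 1))) < S.a := fun z hz =>
      ((h z hz).2 n (Nat.lt_succ_self n)).trans_le hδ
    have h1 : ∀ z ∈ A, S.fill n (c z) ∈ Pa (st (c z 0)) (en (c z n)) := fun z hz =>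
      (S.zp5_fill hδ n (h0 z hz).1 (h0 z hz).2).1
    have h2 : ∀ z ∈ A, S.sg (en (c z n)) (st (c z (n + 1))) ∈
        Pa (en (c z n)) (st (c z (n + 1))) := fun z hz => S.mem _ _ (hd z hz)
    have h3 := S.sg_cont (en_cont.comp_continuousOn (hci n))
      (st_cont.comp_continuousOn (hci (n + 1))) hd
    exact ContinuousOn.cat' (ContinuousOn.cat' (ih h0) h3 h1 h2) (hci (n + 1))
      (fun z hz => cat_mem (h1 z hz) (h2 z hz)) fun z hz => ((h z hz).1 (n + 1) le_rfl).mem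

theorem fill_cont (hδ : 2 * δ ≤ S.a) {A : Set Z} {c : Z → ℕ → Mo M} {x e : Z → M}
    (hc : ContinuousOn c A) (h : ∀ z ∈ A, c z ∈ Tup n δ η (x z) (e z)) :
    ContinuousOn (fun z => S.fill n (c z)) A :=
  S.zp5_fill_cont hδ hc n fun z hz => ⟨(h z hz).1, (h z hz).2.2.1⟩

/-- one point of the homotopy -/
theorem zp5_track (hδ : 2 * δ ≤ S.a) (hη : η ≤ S.a) (h : γ ∈ Tup n δ η x e) {Q : Mo M}
    (hQ : Q = S.wh x e (S.fill n γ)) {u : ℝ} (hu : u ∈ Icc (0 : ℝ) 1) {γ' : ℕ → Mo M}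
    (h' : ∀ i ≤ n, γ' i = seg Q ((1 - u) * (i * (Q.2 / (n + 1))) + u * (zp5_b i γ - (γ i).2))
      ((1 - u) * ((i + 1) * (Q.2 / (n + 1))) + u * zp5_b i γ)) :
    γ' ∈ Tup n δ η x e ∧ tot n γ' ≤ tot n γ + (2 * δ * n + η) := by
  obtain ⟨h1, h2, -⟩ := S.zp5_fill hδ n h.1 h.2.2.1
  rw [h.2.1] at h1
  obtain ⟨h3, h4⟩ := S.wh_mem (x' := x) (y' := e) h1 (by rw [dist_self]; exact S.a_pos)
    (h.2.2.2.trans_le hη)
  rw [← hQ] at h3 h4
  rw [dist_self, zero_add, h2] at h4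
  obtain ⟨hu0, hu1⟩ := hu
  have hm : ∀ i ≤ n, γ' i ∈
      Pa (Q.1 ((1 - u) * (i * (Q.2 / (n + 1))) + u * (zp5_b i γ - (γ i).2)))
        (Q.1 ((1 - u) * ((i + 1) * (Q.2 / (n + 1))) + u * zp5_b i γ)) := fun i hi => by
    rw [h' i hi]
    exact seg_mem h3.1 (add_le_add (mul_le_mul_of_nonneg_left (zp5_le h3.1 n i) (by linarith))
      (mul_le_mul_of_nonneg_left (sub_le_self _ (h.1 i hi).1) hu0))
  have hs : ∀ d : ℝ, 0 ≤ d → |-(u * d)| ≤ d := fun d hd => by
    rw [abs_neg, abs_of_nonneg (mul_nonneg hu0 hd)]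
    exact mul_le_of_le_one_left hd hu1
  refine ⟨⟨fun i hi => (hm i hi).1, ?_, fun i hi => ?_, ?_⟩, ?_⟩
  · rw [(hm 0 (Nat.zero_le n)).2.1, zp5_b_zero, Nat.cast_zero, sub_self, zero_mul, mul_zero,
      mul_zero, add_zero]
    exact h3.2.1
  · rw [(hm i hi.le).2.2, (hm (i + 1) hi).2.1]
    refine lt_of_le_of_lt ((h3.1.2.1 _ _).trans ?_) (h.2.2.1 i hi)
    refine le_of_eq_of_le (congrArg abs ?_) (hs _ dist_nonneg)
    rw [zp5_b_succ, Nat.cast_succ]
    ring
  · have e1 : e = Q.1 Q.2 := h3.2.2.symm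
    rw [(hm n le_rfl).2.2, zp5_full]
    refine lt_of_le_of_lt ?_ h.2.2.2
    refine le_of_eq_of_le (congrArg (dist _) e1) ((h3.1.2.1 _ _).trans ?_)
    refine le_of_eq_of_le (congrArg abs ?_) (hs _ dist_nonneg)
    rw [h4]
    ring
  · have e1 : ∀ i ∈ Finset.range (n + 1), (γ' i).2 =
        (1 - u) * (Q.2 / (n + 1)) + u * (γ i).2 := fun i hi => by
      rw [h' i (Nat.lt_succ_iff.1 (Finset.mem_range.1 hi)), seg_dur]
      ring
    have e2 : tot n γ' = (1 - u) * Q.2 + u * tot n γ := by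
      rw [tot, Finset.sum_congr rfl e1, Finset.sum_add_distrib, ← Finset.mul_sum, ← Finset.mul_sum,
        Finset.sum_const, Finset.card_range, nsmul_eq_mul, Nat.cast_succ, zp5_full, tot]
    obtain ⟨h5, h6⟩ := zp5_b_bound h.2.2.1
    have h7 := h.2.2.2
    have h8 := dist_nonneg (x := en (γ n)) (y := e)
    have h9 : u * tot n γ ≤ u * Q.2 := mul_le_mul_of_nonneg_left (by linarith) hu0
    rw [e2]
    linarith

/-- joining the pieces, closing up and cutting again is homotopic to the identity -/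
theorem tup_one (hδ : 2 * δ ≤ S.a) (hη : η ≤ S.a) {A : Set Z} {c : Z → ℕ → Mo M} {x e : Z → M}
    (hc : ContinuousOn c A) (he : ContinuousOn e A)
    (h : ∀ z ∈ A, c z ∈ Tup n δ η (x z) (e z)) :
    Htp A (fun z γ => γ ∈ Tup n δ η (x z) (e z) ∧ tot n γ ≤ tot n (c z) + (2 * δ * n + η) ∧
        ∀ i, n < i → γ i = c z i)
      (fun z i => if i ≤ n then cut n (S.wh (x z) (e z) (S.fill n (c z))) i else c z i) c := by
  have hci : ∀ i, ContinuousOn (fun z => c z i) A := continuousOn_pi.1 hc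
  have hx : ContinuousOn x A :=
    (st_cont.comp_continuousOn (hci 0)).congr fun z hz => (h z hz).2.1.symm
  have hm : ∀ z ∈ A, S.fill n (c z) ∈ Pa (x z) (en (c z n)) := fun z hz =>
    (S.fill_mem hδ (h z hz)).1
  have hQ : ContinuousOn (fun z => S.wh (x z) (e z) (S.fill n (c z))) A := by
    refine S.wh_cont hx he (S.fill_cont hδ hc h) fun z hz => ⟨(hm z hz).1, ?_, ?_⟩
    · rw [(hm z hz).2.1, dist_self]; exact S.a_pos
    · rw [(hm z hz).2.2]; exact (h z hz).2.2.2.trans_le hη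
  generalize hQd : (fun z => S.wh (x z) (e z) (S.fill n (c z))) = Q at hQ
  have hQe : ∀ z, Q z = S.wh (x z) (e z) (S.fill n (c z)) := fun z => (congrFun hQd z).symm
  refine ⟨fun w i => if i ≤ n then seg (Q w.2)
      ((1 - w.1) * (i * ((Q w.2).2 / (n + 1))) + w.1 * (zp5_b i (c w.2) - (c w.2 i).2))
      ((1 - w.1) * ((i + 1) * ((Q w.2).2 / (n + 1))) + w.1 * zp5_b i (c w.2)) else c w.2 i,
    continuousOn_pi.2 fun i => ?_, fun z hz => funext fun i => ?_, fun z hz => funext fun i => ?_,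
    fun u hu z hz => ?_⟩
  · have hsnd : MapsTo Prod.snd (Icc (0 : ℝ) 1 ×ˢ A) A := fun w hw => hw.2
    have a1 : ContinuousOn (fun w : ℝ × Z => Q w.2) (Icc 0 1 ×ˢ A) :=
      hQ.comp continuousOn_snd hsnd
    have a2 : ContinuousOn (fun w : ℝ × Z => c w.2 i) (Icc 0 1 ×ˢ A) :=
      (hci i).comp continuousOn_snd hsnd
    have a3 : ContinuousOn (fun w : ℝ × Z => zp5_b i (c w.2)) (Icc 0 1 ×ˢ A) :=
      (zp5_b_cont i).comp_continuousOn (hc.comp continuousOn_snd hsnd)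
    have a4 : ContinuousOn (fun w : ℝ × Z => (Q w.2).2 / (n + 1)) (Icc 0 1 ×ˢ A) :=
      a1.snd.div_const _
    have a5 : ContinuousOn (fun w : ℝ × Z => 1 - w.1) (Icc 0 1 ×ˢ A) :=
      continuousOn_const.sub continuousOn_fst
    by_cases hi : i ≤ n
    · simp only [if_pos hi]
      exact ContinuousOn.seg' a1
        ((a5.mul (continuousOn_const.mul a4)).add (continuousOn_fst.mul (a3.sub a2.snd)))
        ((a5.mul (continuousOn_const.mul a4)).add (continuousOn_fst.mul a3))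
    · simp only [if_neg hi]
      exact a2
  · simp only [sub_zero, one_mul, zero_mul, add_zero, hQe, cut]
  · by_cases hi : i ≤ n
    · simp only [if_pos hi, sub_self, one_mul, zero_mul, zero_add]
      obtain ⟨-, h2, h3⟩ := S.zp5_fill hδ n (h z hz).1 (h z hz).2.2.1
      have hd := (h z hz).2.2.2.trans_le hη
      rw [hQe, S.wh_right (hm z hz) hd, seg_cat_left (hm z hz) (S.mem _ _ hd)
        (sub_le_self _ ((h z hz).1 i hi).1) (by rw [h2]; exact zp5_b_mono n (h z hz).1 hi),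
        h3 i hi]
    · exact if_neg hi
  · obtain ⟨h1, h2⟩ := S.zp5_track hδ hη (h z hz) (hQe z) hu (γ' := fun i => if i ≤ n then
      seg (Q z) ((1 - u) * (i * ((Q z).2 / (n + 1))) + u * (zp5_b i (c z) - (c z i).2))
        ((1 - u) * ((i + 1) * ((Q z).2 / (n + 1))) + u * zp5_b i (c z)) else c z i)
      fun i hi => if_pos hi
    exact ⟨h1, h2, fun i hi => if_neg (not_le.2 hi)⟩

/-- the same through a base point `p` -/
theorem tup_htp (hδ0 : 0 < δ) (hδ : 2 * δ ≤ S.a) {r : ℝ} (hη : 2 * r + η ≤ S.a) {A : Set Z}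
    {c : Z → ℕ → Mo M} {x e : Z → M} (p : M) (hc : ContinuousOn c A) (he : ContinuousOn e A)
    (h : ∀ z ∈ A, c z ∈ Tup n δ η (x z) (e z) ∧ dist (x z) p < r ∧ dist (e z) p < r) :
    Htp A (fun z γ => γ ∈ Tup n δ η (x z) (e z) ∧ tot n γ ≤ tot n (c z) + (2 * δ * n + η + 4 * r) ∧
        ∀ i, n < i → γ i = c z i)
      (fun z i => if i ≤ n then cut n (S.wh (x z) (e z) (S.wh p p (S.fill n (c z)))) i else c z i)
      c := by
  rcases A.eq_empty_or_nonempty with rfl | ⟨z0, hz0⟩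
  · exact ⟨fun w => c w.2, fun w hw => absurd hw.2 (notMem_empty _),
      fun z hz => absurd hz (notMem_empty _), fun z hz => absurd hz (notMem_empty _),
      fun _ _ z hz => absurd hz (notMem_empty _)⟩
  have hr : 0 < r := dist_nonneg.trans_lt (h z0 hz0).2.1
  have hη0 : 0 < η := dist_nonneg.trans_lt (h z0 hz0).1.2.2.2
  have hci : ∀ i, ContinuousOn (fun z => c z i) A := continuousOn_pi.1 hc
  have hx : ContinuousOn x A :=
    (st_cont.comp_continuousOn (hci 0)).congr fun z hz => (h z hz).1.2.1.symm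
  have hm := fun z hz => S.fill_mem hδ (h z hz).1
  have hb : ∀ z ∈ A, dist (x z) p + dist p (st (S.fill n (c z))) < 2 * r ∧
      dist (en (S.fill n (c z))) p + dist p (e z) < 2 * r + η := fun z hz => by
    obtain ⟨h1, h2, h3⟩ := h z hz
    have h4 := dist_triangle (en (c z n)) (e z) p
    have h5 := h1.2.2.2
    rw [(hm z hz).1.2.1, (hm z hz).1.2.2, dist_comm p, dist_comm p]
    constructor <;> linarith
  have h1 := S.hp_wh_wh (x := fun _ => p) (y := fun _ => p) continuousOn_const continuousOn_const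
    hx he (S.fill_cont hδ hc fun z hz => (h z hz).1) fun z hz =>
      ⟨(hm z hz).1.1, by linarith [(hb z hz).1], (hb z hz).2.trans_le hη⟩
  have h2 := Htp.post h1 (k := fun w i => if i ≤ n then cut n w.2 i else c w.1 i)
    (continuousOn_pi.2 fun i => by
      by_cases hi : i ≤ n
      · simp only [if_pos hi]
        exact ((cut_cont n i).comp continuous_snd).continuousOn
      · simp only [if_neg hi]
        exact (hci i).comp continuousOn_fst fun w hw => hw.1)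
    (R' := fun z γ => γ ∈ Tup n δ η (x z) (e z) ∧
      tot n γ ≤ tot n (c z) + (2 * δ * n + η + 4 * r) ∧ ∀ i, n < i → γ i = c z i)
    fun z hz ω hω => by
      obtain ⟨h3, h4⟩ := cut_mem hω.1 hδ0 hη0 n
      obtain ⟨h5, h6⟩ := Tup.congr (γ' := fun i => if i ≤ n then cut n ω i else c z i) h3
        fun i hi => if_pos hi
      refine ⟨h5, ?_, fun i hi => if_neg (not_le.2 hi)⟩
      have h7 := hω.2
      have h8 := (hm z hz).2
      obtain ⟨h9, h10⟩ := hb z hz
      refine (h6.trans h4).trans_le ?_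
      linarith
  refine h2.trans ((S.tup_one hδ (by linarith) hc he fun z hz => (h z hz).1).mono Subset.rfl ?_)
  exact fun z _ γ hγ => ⟨hγ.1, by linarith [hγ.2.1], hγ.2.2⟩

end GS

end Pool.Agent.Fu
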