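import Mathlib
import Pool.Agent.P.MP_365c00_gt.ZY1
import Pool.Agent.P.MP_365c00_gt.ZL2
import Pool.Agent.P.MP_365c00_gt.ZP5

/-! Local product models for the spaces of tuples of paths. -/

set_option linter.unusedSectionVars false
set_option linter.unusedVariables false

open Set Topology Filter Metric

namespace Pool.Agent.Fu

variable {F : Type} [Field F] {M : Type} [MetricSpace M] {d q n : ℕ} {S : GS M} {p0 p : M}
  {δ t : ℝ}

theorem zy2_wh (hδ : 0 < δ) (ha : 16 * δ ≤ S.a) {c : ℕ → Bs M d} (hc : c ∈ Up δ n p) {ω : Mo M}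
    (hω : ω ∈ Pa p p) : S.wh (c 0).1 (c n).1 ω ∈ Pa (c 0).1 (c n).1 ∧
      (S.wh (c 0).1 (c n).1 ω).2 ≤ ω.2 + 4 * δ := by
  have h0 := hc.2 0 (Nat.zero_le n)
  have h1 := hc.2 n le_rfl
  rw [dist_comm] at h1
  obtain ⟨a, b⟩ := S.wh_mem hω (x' := (c 0).1) (y' := (c n).1) (by linarith) (by linarith)
  exact ⟨a, by rw [b]; linarith⟩

theorem zy2_pth : Continuous (pth : (ℕ → Pos M d) → ℕ → Mo M) :=
  continuous_pi fun i => (continuous_apply i).snd

theorem zy2_fill (hδ : 0 < δ) (ha : 16 * δ ≤ S.a) {y : ℕ → Pos M d} (hy : y ∈ Yt p0 δ n)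
    (hU : bs M d y ∈ Up δ n p) : S.fill n (pth y) ∈ Pa (y 0).1.1 (en (pth y n)) ∧
      (S.fill n (pth y)).2 ≤ tot n (pth y) + 2 * δ * n ∧ dist p (y 0).1.1 < 2 * δ ∧
      dist (en (pth y n)) p < 3 * δ := by
  have T := hy.2 hU.1
  obtain ⟨a, b⟩ := S.fill_mem (by linarith) T
  have h0 : dist (y 0).1.1 p < 2 * δ := hU.2 0 (Nat.zero_le n)
  have h1 : dist (y n).1.1 p < 2 * δ := hU.2 n le_rfl
  have h2 := T.2.2.2
  have h3 := dist_triangle (en (pth y n)) (y n).1.1 p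
  exact ⟨a, b, by rwa [dist_comm], by linarith⟩

theorem Gn_cont (hδ : 0 < δ) (ha : 16 * δ ≤ S.a) :
    ContinuousOn (Gn S p0 n : _ → ℕ → Pos M d) (Dm p0 δ n p ×ˢ Pa p p) := by
  refine continuousOn_pi.2 fun i => ?_
  unfold Gn
  split_ifs with hi
  · have c1 : ∀ j : ℕ, Continuous fun z : (ℕ → Bs M d) × Mo M => z.1 j := fun j =>
      (continuous_apply j).comp continuous_fst
    refine ContinuousOn.prodMk (c1 i).continuousOn ?_
    refine (cut_cont n i).comp_continuousOn (S.wh_cont (c1 0).fst.continuousOn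
      (c1 n).fst.continuousOn continuous_snd.continuousOn fun z hz => ?_)
    have h0 := hz.1.2.2 0 (Nat.zero_le n)
    have h1 := hz.1.2.2 n le_rfl
    rw [dist_comm] at h1
    refine ⟨hz.2.1, ?_, ?_⟩
    · rw [hz.2.2.1]; linarith
    · rw [hz.2.2.2]; linarith
  · exact continuousOn_const

theorem Gn_mem (hδ : 0 < δ) (ha : 16 * δ ≤ S.a) {c : ℕ → Bs M d} (hc : c ∈ Dm p0 δ n p) {ω : Mo M}
    (hω : ω ∈ Pa p p) : Gn S p0 n (c, ω) ∈ Yt p0 δ n ∧ bs M d (Gn S p0 n (c, ω)) = c ∧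
      tot n (pth (Gn S p0 n (c, ω))) ≤ ω.2 + 4 * δ := by
  obtain ⟨a, b⟩ := zy2_wh hδ ha hc.2 hω
  obtain ⟨a1, b1⟩ := cut_mem a hδ hδ n
  have e1 : ∀ i ≤ n, Gn S p0 n (c, ω) i = (c i, cut n (S.wh (c 0).1 (c n).1 ω) i) :=
    fun i hi => if_pos hi
  have e2 : ∀ i, n < i → Gn S p0 n (c, ω) i = dfl p0 := fun i hi => if_neg (not_le.2 hi)
  obtain ⟨a2, b2⟩ := Tup.congr (γ' := pth (Gn S p0 n (c, ω))) a1 fun i hi =>
    congrArg Prod.snd (e1 i hi)
  refine ⟨⟨e2, fun _ => ?_⟩, funext fun i => ?_, by rw [b2, b1]; exact b⟩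
  · rw [e1 0 (Nat.zero_le n), e1 n le_rfl]
    exact a2
  · rcases le_or_gt i n with hi | hi
    · exact congrArg Prod.fst (e1 i hi)
    · exact (congrArg Prod.fst (e2 i hi)).trans (hc.1 i hi).symm

theorem fm_Y (hδ : 0 < δ) (ha : 16 * δ ≤ S.a) {β : ℝ} (hβ : (2 * n + 9) * δ ≤ β) :
    FM (Ys p0 δ n) (Yt p0 δ n) (bs M d) (Up δ n p) (Dm p0 δ n p) (Om p p) (Pa p p)
      (fun y => S.wh p p (S.fill n (pth y))) (Gn S p0 n) β := by
  have hn : 0 ≤ δ * n := mul_nonneg hδ.le (Nat.cast_nonneg n)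
  have hβ' : 2 * (δ * n) + 9 * δ ≤ β := by linarith
  have w : ∀ y : ℕ → Pos M d, y ∈ Yt p0 δ n → bs M d y ∈ Up δ n p →
      S.wh p p (S.fill n (pth y)) ∈ Pa p p ∧
        (S.wh p p (S.fill n (pth y))).2 ≤ tot n (pth y) + β := fun y hy hU => by
    obtain ⟨a, b, c, e⟩ := zy2_fill hδ ha hy hU
    obtain ⟨a1, b1⟩ := S.wh_mem a (x' := p) (y' := p) (by linarith) (by linarith)
    exact ⟨a1, by rw [b1]; linarith⟩
  refine ⟨Ys_mono p0 δ n, fun _ _ h => Om_mono p p h, Ys_sub p0 δ n, Om_sub p p, Up_open δ n p,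
    fun y hy => ⟨fun i hi => congrArg Prod.fst (hy.1.1 i hi), hy.2⟩, ?_,
    fun y hy => (w y hy.1 hy.2).1, fun t y hy => ⟨(w y hy.1.1 hy.2).1, ?_⟩, Gn_cont hδ ha,
    fun b hb ω hω => (Gn_mem hδ ha hb hω).2.1, fun t z hz => ?_, fun t => ?_⟩
  · refine S.wh_cont continuousOn_const continuousOn_const
      (S.fill_cont (δ := δ) (η := δ) (x := fun y => (y 0).1.1) (e := fun y => (y n).1.1)
        (by linarith) zy2_pth.continuousOn fun y hy => hy.1.2 hy.2.1) fun y hy => ?_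
    obtain ⟨a, b, c, e⟩ := zy2_fill hδ ha hy.1 hy.2
    refine ⟨a.1, ?_, ?_⟩
    · rw [a.2.1]; linarith
    · rw [a.2.2]; linarith
  · have h1 := (w y hy.1.1 hy.2).2
    have h2 := hy.1.2 hy.2.1
    show (S.wh p p (S.fill n (pth y))).2 < t + β
    linarith
  · obtain ⟨a, -, b⟩ := Gn_mem (p0 := p0) hδ ha hz.1 hz.2.1
    have h2 : z.2.2 < t := hz.2.2
    refine ⟨a, fun _ => ?_⟩
    show tot n (pth (Gn S p0 n (z.1, z.2))) < t + β
    linarith
  · have c1 : ∀ j : ℕ, Continuous fun z : ℕ → Pos M d => (z j).1 := fun j =>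
      (continuous_apply j).fst
    have H := S.tup_htp (n := n) (η := δ) (r := 2 * δ) hδ (by linarith) (by linarith)
      (A := Ys p0 δ n t ∩ bs M d ⁻¹' Up δ n p) (c := pth) (x := fun y => (y 0).1.1)
      (e := fun y => (y n).1.1) p zy2_pth.continuousOn (c1 n).fst.continuousOn fun y hy =>
        ⟨hy.1.1.2 hy.2.1, hy.2.2 0 (Nat.zero_le n), hy.2.2 n le_rfl⟩
    have ck : Continuous fun (w : (ℕ → Pos M d) × (ℕ → Mo M)) (i : ℕ) =>
        (((w.1 i).1, w.2 i) : Pos M d) := continuous_pi fun i =>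
      ((c1 i).comp continuous_fst).prodMk ((continuous_apply i).comp continuous_snd)
    refine (H.post ck.continuousOn (R' := fun x x' => x' ∈ Ys p0 δ n (t + 2 * β) ∧
      bs M d x' = bs M d x) fun y hy γ hγ => ⟨⟨⟨fun i hi => ?_, fun _ => hγ.1⟩, fun _ => ?_⟩,
        rfl⟩).congr (fun y hy => funext fun i => ?_) fun y _ => rfl
    · show ((y i).1, γ i) = dfl p0
      rw [hγ.2.2 i hi]
      exact hy.1.1.1 i hi
    · have h1 := hγ.2.1
      have h2 := hy.1.2 hy.2.1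
      show tot n γ < t + 2 * β
      linarith
    · rcases le_or_gt i n with hi | hi
      · exact (congrArg (Prod.mk (y i).1) (if_pos hi)).trans (if_pos hi).symm
      · exact ((congrArg (Prod.mk (y i).1) (if_neg (not_le.2 hi))).trans (hy.1.1.1 i hi)).trans
          (if_neg (not_le.2 hi)).symm

theorem euc_Dm (hE : Euc d (ball p (2 * δ))) :
    Euc ((n + 1) * (d + d)) (Dm p0 δ n p : Set (ℕ → Bs M d)) := by
  have h := ((hE.prod (euc_univ d)).seq n ((p0, 0) : Bs M d)).inter (Nr_open n δ)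
  have e : (Dm p0 δ n p : Set (ℕ → Bs M d)) = {y : ℕ → Bs M d |
      (∀ i ≤ n, y i ∈ ball p (2 * δ) ×ˢ (univ : Set (Fin d → ℝ))) ∧
        ∀ i, n < i → y i = (p0, 0)} ∩ Nr n δ :=
    Set.ext fun c => ⟨fun hc => ⟨⟨fun i hi => ⟨hc.2.2 i hi, trivial⟩, hc.1⟩, hc.2.1⟩,
      fun hc => ⟨hc.1.2, hc.2, fun i hi => (hc.1.1 i hi).1⟩⟩
  rw [e]
  exact h

end Pool.Agent.Fu
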