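import Mathlib
import Pool.Agent.P.MP_365c00_gt.ZY2
import Pool.Agent.P.MP_365c00_gt.ZW2

/-! The local classes. -/

set_option linter.unusedSectionVars false
set_option linter.unusedVariables false

open Set Topology Filter Metric

namespace Pool.Agent.Fu

variable {F : Type} [Field F] {M : Type} [MetricSpace M] {d q n : ℕ} {S : GS M} {p0 p : M}
  {δ t : ℝ}

variable {O : OR F (d + d) (Bs M d)} {c : ℕ → Bs M d} {x : M → Ch F (Mo M)} {w : Ch F (Mo M)}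

theorem oB_congr {o : Bs M d → Ch F (Bs M d)} {c' : ℕ → Bs M d} (h : ∀ i ≤ n, c' i = c i) :
    oB p0 o n c' = oB p0 o n c := by
  induction n with
  | zero => rw [oB, oB, h 0 le_rfl]
  | succ n ih => rw [oB, oB, h _ le_rfl, ih fun i hi => h i (hi.trans (Nat.le_succ n))]

theorem oB_HD (O : OR F (d + d) (Bs M d)) (p0 : M) (n : ℕ) (c : ℕ → Bs M d) :
    oB p0 O.o n c ∈ HD F _ ((n + 1) * (d + d)) := by
  induction n with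
  | zero =>
    rw [oB, zero_add, one_mul]
    exact map_mem_HD _ (O.gen _).hd
  | succ n ih =>
    rw [oB, add_mul (n + 1), one_mul]
    exact mu_HD ih (map_mem_HD _ (O.gen _).hd)

theorem zy3_one (hY : YH S δ O) (p0 : M) (c : ℕ → Bs M d) :
    map (one p0 d) (O.o (c 0)) ∈ ZZ F (Sp p0 δ 0 c) (Sp p0 δ 0 c ∩ OfB 0 c) := by
  have h1 : MapsTo (one p0 d) (ball (c 0) (δ / 8)) (Sp p0 δ 0 c) := by
    intro b hb
    refine ⟨fun i hi => if_neg hi.ne', fun i hi => ?_⟩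
    obtain rfl := Nat.le_zero.1 hi
    exact hb
  rw [← mp_coe]
  refine mp_mem_ZZ (A := ball (c 0) (δ / 8)) (B := univ \ {c 0})
    (one p0 d).continuous.continuousOn h1 (fun b hb => ?_)
    (mem_ZZ.2 ⟨hY.sm _, (mem_ZZ.1 (O.gen _).zz).2⟩)
  exact ⟨h1 hb.1, 0, le_rfl, hb.2.2⟩

theorem oB_Sp (hY : YH S δ O) (p0 : M) (n : ℕ) (c : ℕ → Bs M d) :
    oB p0 O.o n c ∈ ZZ F (Sp p0 δ n c) (Sp p0 δ n c ∩ OfB n c) := by
  induction n with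
  | zero => exact zy3_one hY p0 c
  | succ n ih =>
    refine mu_ZZ (fun y hy y' hy' => Sp_app hY.pos hy hy') ?_ ?_ ih
      (zy3_one hY p0 fun _ => c (n + 1))
    · rintro y ⟨hy, -, i, hi, h⟩ y' hy'
      exact ⟨Sp_app hY.pos hy hy', i, hi.trans (Nat.le_succ n), by rwa [zy1_l y y' hi]⟩
    · rintro y hy y' ⟨hy', -, i, hi, h⟩
      obtain rfl := Nat.le_zero.1 hi
      exact ⟨Sp_app hY.pos hy hy', n + 1, le_rfl, fun h1 => h ((zy1_r n y y' 0).symm.trans h1)⟩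

theorem oB_ZZ (hY : YH S δ O) (hc : c ∈ NrC n (δ / 2)) (hp : ∀ i ≤ n, dist (c i).1 p < δ) :
    oB p0 O.o n c ∈ ZZ F (Dm p0 δ n p) (Dm p0 δ n p ∩ OfB n c) :=
  ZZ_mono (Sp_sub hY.pos hc hp) (inter_subset_inter_left _ (Sp_sub hY.pos hc hp))
    (oB_Sp hY p0 n c)

theorem Gn_ZZ (hδ : 0 < δ) (ha : 16 * δ ≤ S.a) {B' : Set (ℕ → Bs M d)} {ob : Ch F (ℕ → Bs M d)}
    (ho : ob ∈ ZZ F (Dm p0 δ n p) B') (hw : w ∈ ZZ F (Om p p t) ∅) :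
    mp (Gn S p0 n) (cross ob w) ∈
      ZZ F (Ys p0 δ n (t + 4 * δ)) (Ys p0 δ n (t + 4 * δ) ∩ bs M d ⁻¹' B') := by
  have h1 : MapsTo (Gn S p0 n) (Dm p0 δ n p ×ˢ Om p p t) (Ys (d := d) p0 δ n (t + 4 * δ)) := by
    rintro ⟨b, ω⟩ ⟨hb, hω⟩
    obtain ⟨k1, -, k3⟩ := Gn_mem hδ ha hb hω.1
    exact ⟨k1, fun _ => k3.trans_lt (by have := hω.2; linarith)⟩
  refine mp_mem_ZZ ((Gn_cont hδ ha).mono (prod_mono subset_rfl (Om_sub p p t))) h1 ?_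
    (cross_mem_ZZ ho hw)
  rintro ⟨b, ω⟩ ⟨hz, h2 | h2⟩
  · refine ⟨h1 hz, ?_⟩
    rw [mem_preimage, (Gn_mem hδ ha hz.1 hz.2.1).2.1]
    exact h2.1
  · exact h2.2.elim

theorem zy3_A (hδ : 0 < δ) (ha : 16 * δ ≤ S.a) :
    MapsTo (Gn S p0 n) (Dm p0 δ n p ×ˢ Pa p p) (Yt (d := d) p0 δ n) :=
  fun _ hz => (Gn_mem hδ ha hz.1 hz.2).1

theorem zy3_B (hδ : 0 < δ) (ha : 16 * δ ≤ S.a) (c : ℕ → Bs M d) :
    MapsTo (Gn S p0 n) ((Dm p0 δ n p ∩ OfB n c) ×ˢ Pa p p ∪ Dm p0 δ n p ×ˢ ∅)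
      (Yt p0 δ n ∩ Of n c) := by
  rintro ⟨b, ω⟩ (h2 | h2)
  · obtain ⟨k1, k2, -⟩ := Gn_mem hδ ha h2.1.1 h2.2
    refine ⟨k1, ?_⟩
    show bs M d (Gn S p0 n (b, ω)) ∈ OfB n c
    rw [k2]
    exact h2.1.2
  · exact h2.2.elim

theorem Gn_NN_left (hδ : 0 < δ) (ha : 16 * δ ≤ S.a) {ob : Ch F (ℕ → Bs M d)}
    (ho : ob ∈ NN F (Dm p0 δ n p) (Dm p0 δ n p ∩ OfB n c)) (hw : w ∈ ZZ F (Pa p p) ∅) :
    mp (Gn S p0 n) (cross ob w) ∈ Mc F p0 δ n c :=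
  mp_mem_NN (Gn_cont hδ ha) (zy3_A hδ ha) (zy3_B hδ ha c) (cross_NN_left ho hw)

theorem Gw_HD (O : OR F (d + d) (Bs M d)) {k : ℕ} (hw : w ∈ HD F _ k) :
    Gw S p0 O.o n c w ∈ HD F _ ((n + 1) * (d + d) + k) :=
  mp_mem_HD _ (cross_mem_HD (oB_HD O p0 n c) hw)

theorem Gw_sub (o : Bs M d → Ch F (Bs M d)) (w w' : Ch F (Mo M)) :
    Gw S p0 o n c (w - w') = Gw S p0 o n c w - Gw S p0 o n c w' := by
  rw [Gw, Gw, Gw, map_sub, map_sub]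

theorem Gw_ZZ (hY : YH S δ O) (hc : c ∈ NrC n (δ / 2)) (hp : ∀ i ≤ n, dist (c i).1 p < δ)
    (hw : w ∈ ZZ F (Pa p p) ∅) : Gw S p0 O.o n c w ∈ ZZ F (Yt p0 δ n) (Yt p0 δ n ∩ Of n c) :=
  mp_mem_ZZ (Gn_cont hY.pos hY.le) (zy3_A hY.pos hY.le)
    (fun _ hz => zy3_B hY.pos hY.le c hz.2) (cross_mem_ZZ (oB_ZZ hY hc hp) hw)

theorem Gw_BB (hY : YH S δ O) (hc : c ∈ NrC n (δ / 2)) (hp : ∀ i ≤ n, dist (c i).1 p < δ)
    (hw : w ∈ BB F (Pa p p)) : Gw S p0 O.o n c w ∈ Mc F p0 δ n c :=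
  mp_mem_NN (Gn_cont hY.pos hY.le) (zy3_A hY.pos hY.le) (zy3_B hY.pos hY.le c)
    (cross_NN_right (oB_ZZ hY hc hp) (BB_le_NN _ _ hw))

theorem Mc_mul {n' : ℕ} {a a' b b' : Ch F (ℕ → Pos M d)}
    (ha : a ∈ ZZ F (Yt p0 δ n) (Yt p0 δ n ∩ Of n c))
    (hb' : b' ∈ ZZ F (Yt p0 δ n') (Yt p0 δ n' ∩ Of n' fun i => c (n + 1 + i)))
    (haa : a - a' ∈ Mc F p0 δ n c) (hbb : b - b' ∈ Mc F p0 δ n' fun i => c (n + 1 + i)) :
    mu (n + 1) a b - mu (n + 1) a' b' ∈ Mc F p0 δ (n + n' + 1) c :=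
  mu_sub_NN (A' := Of n c) (B' := Of n' fun i => c (n + 1 + i))
    (C' := Yt p0 δ (n + n' + 1) ∩ Of (n + n' + 1) c)
    (fun _ hy _ hy' => Yt_app hy hy')
    (fun _ hy y' hy' => ⟨Yt_app hy.1 hy', Of_left n' y' hy.2⟩)
    (fun y hy _ hy' => ⟨Yt_app hy hy'.1, Of_right n y hy'.2⟩)
    (ZZ_mono subset_rfl inter_subset_right ha) (ZZ_mono subset_rfl inter_subset_right hb') haa hbb

theorem Mc_congr {c' : ℕ → Bs M d} (h : ∀ i ≤ n, c' i = c i) :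
    Mc F p0 δ n c' = Mc F p0 δ n c := by
  rw [Mc, Mc, Of, Of, OfB_congr h]

theorem Bt_congr {o : Bs M d → Ch F (Bs M d)} {c' : ℕ → Bs M d} (h : ∀ i ≤ n, c' i = c i) :
    Bt S p0 o x n c' = Bt S p0 o x n c := by
  induction n with
  | zero => rw [Bt, Bt, Gw, Gw, oB_congr h, h 0 le_rfl]
  | succ n ih => rw [Bt, Bt, h _ le_rfl, ih fun i hi => h i (hi.trans (Nat.le_succ n))]

theorem zy3_zero (hY : YH S δ O) (hx : ∀ p, x p ∈ ZZ F (Pa p p) ∅) (hc : c ∈ NrC 0 (δ / 2)) :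
    Gw S p0 O.o 0 c (x (c 0).1) ∈ ZZ F (Yt p0 δ 0) (Yt p0 δ 0 ∩ Of 0 c) :=
  Gw_ZZ hY hc (fun i hi => by
    obtain rfl := Nat.le_zero.1 hi
    rw [dist_self]
    exact hY.pos) (hx _)

theorem Bt_ZZ (hY : YH S δ O) (hx : ∀ p, x p ∈ ZZ F (Pa p p) ∅) (hc : c ∈ NrC n (δ / 2)) :
    Bt S p0 O.o x n c ∈ ZZ F (Yt p0 δ n) (Yt p0 δ n ∩ Of n c) := by
  induction n with
  | zero => exact zy3_zero hY hx hc
  | succ n ih =>
    have h1 : (fun _ : ℕ => c (n + 1)) ∈ NrC 0 (δ / 2) :=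
      ⟨fun _ _ => hc.1 _ le_rfl, fun _ _ _ _ => hc.2 _ le_rfl _ le_rfl⟩
    refine mu_ZZ (fun _ hy _ hy' => Yt_app (n' := 0) hy hy')
      (fun _ hy y' hy' => ⟨Yt_app (n' := 0) hy.1 hy', Of_left 0 y' hy.2.2⟩)
      (fun y hy y' hy' => ⟨Yt_app (n' := 0) hy hy'.1, Of_right (n' := 0) n y ?_⟩)
      (ih (NrC_left (n' := 0) hc)) (zy3_zero hY hx h1)
    obtain ⟨i, hi, h⟩ := hy'.2.2
    obtain rfl := Nat.le_zero.1 hi
    exact ⟨0, le_rfl, h⟩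

theorem Bt_add (o : Bs M d → Ch F (Bs M d)) (n n' : ℕ) (c : ℕ → Bs M d) :
    Bt S p0 o x (n + n' + 1) c =
      mu (n + 1) (Bt S p0 o x n c) (Bt S p0 o x n' fun i => c (n + 1 + i)) := by
  induction n' with
  | zero => rfl
  | succ n' ih =>
    have h1 : n + 1 + (n' + 1) = n + n' + 1 + 1 := by omega
    rw [Bt, Bt, mu_assoc, ← ih, h1]
    rfl

theorem Rn_mul (hY : YH S δ O) (hx : ∀ p, x p ∈ ZZ F (Pa p p) ∅) {n' : ℕ} {t' : ℝ}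
    {a b : Ch F (ℕ → Pos M d)} (ha : a ∈ ZZ F (Ys p0 δ n t) (Ys p0 δ n t ∩ far δ n))
    (hb : b ∈ ZZ F (Ys p0 δ n' t') (Ys p0 δ n' t' ∩ far δ n')) (h1 : Rn S p0 δ O.o x n a)
    (h2 : Rn S p0 δ O.o x n' b) : Rn S p0 δ O.o x (n + n' + 1) (mu (n + 1) a b) := by
  intro c hc
  rw [Bt_add]
  exact Mc_mul (ZZ_mono (Ys_sub p0 δ n t)
    (inter_subset_inter (Ys_sub p0 δ n t) (far_sub_Of (NrC_left hc))) ha)
    (Bt_ZZ hY hx (NrC_right hc)) (h1 c (NrC_left hc)) (h2 _ (NrC_right hc))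

theorem ev0_Gw (hY : YH S δ O) (hw : w ∈ CC F (Pa p p)) :
    map (ev0 (Pos M d)) (Gw S p0 O.o 0 (fun _ => (p, 0)) w) = mp (Gb S) (cross (O.o (p, 0)) w) := by
  have hδ := hY.pos
  have hc : (fun _ : ℕ => ((p, 0) : Bs M d)) ∈ NrC 0 (δ / 2) :=
    ⟨fun _ _ => by simpa using (half_pos hδ).le, fun _ _ _ _ => by simpa using (half_pos hδ).le⟩
  have h1 : MapsTo (one p0 d) (ball ((p, 0) : Bs M d) (δ / 8)) (Dm p0 δ 0 p) := by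
    intro b hb
    refine Sp_sub hδ hc (fun _ _ => by simpa using hδ) ⟨fun i hi => if_neg hi.ne', fun i hi => ?_⟩
    obtain rfl := Nat.le_zero.1 hi
    exact hb
  have h2 := cross_mem_CC (hY.sm (p, 0)) hw
  have h3 : MapsTo ((one p0 d).prodMap (ContinuousMap.id (Mo M)))
      (ball ((p, 0) : Bs M d) (δ / 8) ×ˢ Pa p p) (Dm p0 δ 0 p ×ˢ Pa p p) :=
    fun z hz => ⟨h1 hz.1, hz.2⟩
  rw [Gw, oB, cross_map_left, mp_map _ _ (Gn_cont hδ hY.le) (CC_mono h3 h2),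
    map_mp _ ((Gn_cont hδ hY.le).comp (ContinuousMap.continuous _).continuousOn h3) h2]
  refine mp_congr (fun z hz => ?_) h2
  have h4 := (zy2_wh hδ hY.le (h1 hz.1).2 hz.2).1.1
  exact Prod.ext rfl (cut_zero h4)

end Pool.Agent.Fu
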