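import Mathlib
import Pool.Agent.P.MP_365c00_gt.ZY3

/-! Classes of the base over small compact sets. -/

set_option linter.unusedSectionVars false
set_option linter.unusedVariables false

open Set Topology Filter Metric

namespace Pool.Agent.Fu

variable {F : Type} [Field F] {M : Type} [MetricSpace M] {d q n : ℕ} {S : GS M} {p0 p : M}
  {δ t : ℝ}

variable {O : OR F (d + d) (Bs M d)}

theorem zy3b_ZZ {X Y : Type} [TopologicalSpace X] [TopologicalSpace Y] {f : C(X, Y)}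
    {A B : Set X} {A' B' : Set Y} (h1 : MapsTo f A A') (h2 : MapsTo f B B') {c : Ch F X}
    (hc : c ∈ ZZ F A B) : map f c ∈ ZZ F A' B' := by
  refine mem_ZZ.2 ⟨map_mem_CC h1 (mem_ZZ.1 hc).1, ?_⟩
  rw [bd_map]
  exact map_mem_CC h2 (mem_ZZ.1 hc).2

theorem zy3b_NN {X Y : Type} [TopologicalSpace X] [TopologicalSpace Y] {f : C(X, Y)}
    {A B : Set X} {A' B' : Set Y} (h1 : MapsTo f A A') (h2 : MapsTo f B B') {c : Ch F X}
    (hc : c ∈ NN F A B) : map f c ∈ NN F A' B' := by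
  obtain ⟨g, hg, hb⟩ := mem_NN.1 hc
  refine mem_NN.2 ⟨map f g, map_mem_CC h1 hg, ?_⟩
  rw [bd_map, ← map_sub]
  exact map_mem_CC h2 hb

/-- sequences with a term in the given sets -/
def zy3bW (n : ℕ) (W : ℕ → Set (Bs M d)) : Set (ℕ → Bs M d) := {c | ∃ i ≤ n, c i ∈ W i}

theorem zy3b_one (p0 : M) : MapsTo (one p0 d) univ (Tl p0 0) := by
  intro b _ i hi
  have h : i ≠ 0 := by omega
  simp [one, h]

theorem zy3b_one' (p0 : M) (W : ℕ → Set (Bs M d)) :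
    MapsTo (one p0 d) (W 0) (Tl p0 0 ∩ zy3bW 0 W) := by
  intro b hb
  refine ⟨zy3b_one p0 (mem_univ b), 0, le_rfl, ?_⟩
  simpa [one] using hb

theorem zy3b_app {x y : ℕ → Bs M d} (hy : y ∈ Tl p0 0) : app (n + 1) (x, y) ∈ Tl p0 (n + 1) := by
  intro i hi
  have h : ¬ i < n + 1 := by omega
  simp only [app, h, if_false]
  exact hy _ (by omega)

theorem zy3b_left {W : ℕ → Set (Bs M d)} {x y : ℕ → Bs M d} (hx : x ∈ zy3bW n W) :
    app (n + 1) (x, y) ∈ zy3bW (n + 1) W := by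
  obtain ⟨i, hi, hW⟩ := hx
  refine ⟨i, by omega, ?_⟩
  have h : i < n + 1 := by omega
  simpa only [app, h, if_true] using hW

theorem zy3b_right {W : ℕ → Set (Bs M d)} {x y : ℕ → Bs M d}
    (hy : y ∈ zy3bW 0 fun _ => W (n + 1)) : app (n + 1) (x, y) ∈ zy3bW (n + 1) W := by
  obtain ⟨i, hi, hW⟩ := hy
  have h0 : i = 0 := by omega
  subst h0
  refine ⟨n + 1, le_rfl, ?_⟩
  simpa only [app, lt_irrefl, if_false, Nat.sub_self] using hW

theorem zy3b_oZZ {o : Bs M d → Ch F (Bs M d)} {c : ℕ → Bs M d} {W : ℕ → Set (Bs M d)} :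
    ∀ n, (∀ i ≤ n, o (c i) ∈ ZZ F univ (W i)) →
      oB p0 o n c ∈ ZZ F (Tl p0 n) (Tl p0 n ∩ zy3bW n W) := by
  intro n
  induction n with
  | zero => exact fun h => zy3b_ZZ (zy3b_one p0) (zy3b_one' p0 W) (h 0 le_rfl)
  | succ n ih =>
    intro h
    have h1 := ih fun i hi => h i (by omega)
    have h2 := zy3b_ZZ (zy3b_one p0) (zy3b_one' p0 fun _ => W (n + 1)) (h (n + 1) le_rfl)
    exact mu_ZZ (fun x _ y hy => zy3b_app hy)
      (fun x hx y hy => ⟨zy3b_app hy, zy3b_left hx.2.2⟩)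
      (fun x _ y hy => ⟨zy3b_app hy.1, zy3b_right hy.2.2⟩) h1 h2

theorem zy3b_oNN {o o' : Bs M d → Ch F (Bs M d)} {c c' : ℕ → Bs M d} {W : ℕ → Set (Bs M d)} :
    ∀ n, (∀ i ≤ n, o (c i) ∈ ZZ F univ (W i)) → (∀ i ≤ n, o' (c' i) ∈ ZZ F univ (W i)) →
      (∀ i ≤ n, o (c i) - o' (c' i) ∈ NN F univ (W i)) →
      oB p0 o n c - oB p0 o' n c' ∈ NN F (Tl p0 n) (Tl p0 n ∩ zy3bW n W) := by
  intro n
  induction n with
  | zero =>
    intro _ _ h
    have h1 := zy3b_NN (zy3b_one p0) (zy3b_one' p0 W) (h 0 le_rfl)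
    rw [map_sub] at h1
    exact h1
  | succ n ih =>
    intro h h' hs
    have h1 := zy3b_oZZ (p0 := p0) n fun i hi => h i (by omega)
    have h2 := zy3b_ZZ (zy3b_one p0) (zy3b_one' p0 fun _ => W (n + 1)) (h' (n + 1) le_rfl)
    have h3 := ih (fun i hi => h i (by omega)) (fun i hi => h' i (by omega))
      fun i hi => hs i (by omega)
    have h4 := zy3b_NN (zy3b_one p0) (zy3b_one' p0 fun _ => W (n + 1)) (hs (n + 1) le_rfl)
    rw [map_sub] at h4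
    exact mu_sub_NN (C := Tl p0 (n + 1)) (C' := Tl p0 (n + 1) ∩ zy3bW (n + 1) W)
      (fun x _ y hy => zy3b_app hy)
      (fun x hx y hy => ⟨zy3b_app hy, zy3b_left hx.2.2⟩)
      (fun x _ y hy => ⟨zy3b_app hy.1, zy3b_right hy.2.2⟩) h1 h2
      (NN_mono subset_rfl (subset_inter inter_subset_left subset_rfl) h3)
      (NN_mono subset_rfl (subset_inter inter_subset_left subset_rfl) h4)

theorem zy3b_HD {z : Ch F (Bs M d)} {e : ℕ} (hz : z ∈ HD F _ e) (c : ℕ → Bs M d) :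
    ∀ n, oB p0 (fun _ => z) n c ∈ HD F _ ((n + 1) * e) := by
  intro n
  induction n with
  | zero =>
    rw [zero_add, one_mul]
    exact map_mem_HD _ hz
  | succ n ih =>
    rw [Nat.succ_mul (n + 1) e]
    exact mu_HD ih (map_mem_HD _ hz)

theorem zy3b_eq {c c' : ℕ → Bs M d} (hc : c ∈ Tl p0 n) (hc' : c' ∈ Tl p0 n)
    (h : c' ∉ OfB n c) : c' = c := by
  funext i
  by_cases hi : i ≤ n
  · by_contra hne
    exact h ⟨i, hi, hne⟩
  · rw [hc i (by omega), hc' i (by omega)]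

theorem base_class (hY : YH S δ O) {K : Set (ℕ → Bs M d)} (hK : IsCompact K)
    (hKC : K ⊆ CB p0 δ n) (hp : ∀ c ∈ K, ∀ i ≤ n, dist (c i).1 p < δ) :
    ∃ ob ∈ ZZ F (Dm p0 δ n p) (Dm p0 δ n p \ K), ob ∈ HD F _ ((n + 1) * (d + d)) ∧
      ∀ c ∈ K, ob - oB p0 O.o n c ∈ NN F (Dm p0 δ n p) (Dm p0 δ n p ∩ OfB n c) := by
  have hδ := hY.pos
  obtain ⟨z, hz, hzd, hzo⟩ := hY.rad p
  have hball : ∀ c ∈ K, ∀ i ≤ n, c i ∈ ball ((p, 0) : Bs M d) δ := by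
    intro c hc i hi
    rw [mem_ball, Prod.dist_eq, max_lt_iff]
    refine ⟨hp c hc i hi, ?_⟩
    have h1 := (hKC hc).1.1 i hi
    rw [dist_zero_right]
    linarith
  have hUp : K ⊆ Up δ n p := fun c hc =>
    ⟨NrC_sub hδ n (hKC hc).1, fun i hi => by linarith [hp c hc i hi]⟩
  have h1 : oB p0 (fun _ => z) n (fun _ => ((p, 0) : Bs M d)) ∈
      ZZ F (Tl p0 n) (Tl p0 n ∩ Kᶜ) := by
    refine ZZ_mono subset_rfl ?_
      (zy3b_oZZ (W := fun _ => (ball ((p, 0) : Bs M d) δ)ᶜ) n fun _ _ => hz)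
    rintro c ⟨hc, i, hi, hW⟩
    exact ⟨hc, fun hK' => hW (hball c hK' i hi)⟩
  obtain ⟨ob, ho, hoo, hod⟩ := exc_surj (U := Up δ n p) (V := Kᶜ) (Up_open δ n p)
    hK.isClosed.isOpen_compl
    (fun c _ => by
      by_cases hc : c ∈ K
      · exact Or.inl (hUp hc)
      · exact Or.inr hc) subset_rfl h1
  have ho' : ob ∈ ZZ F (Dm p0 δ n p) (Dm p0 δ n p \ K) := by
    refine ZZ_mono subset_rfl ?_ ho
    exact fun c hc => ⟨⟨hc.1.1, hc.2⟩, hc.1.2⟩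
  refine ⟨ob, ho', hod _ (zy3b_HD hzd _ n), fun c hc => ?_⟩
  have hcT : c ∈ Tl p0 n := (hKC hc).2
  have hOf : ∀ c' ∈ Tl p0 n, c' ∉ K → c' ∈ OfB n c := by
    intro c' hc' hK'
    by_contra hne
    exact hK' (zy3b_eq hcT hc' hne ▸ hc)
  have h2 : oB p0 (fun _ => z) n (fun _ => ((p, 0) : Bs M d)) - oB p0 O.o n c ∈
      NN F (Tl p0 n) (Tl p0 n ∩ OfB n c) := by
    refine NN_mono subset_rfl ?_
      (zy3b_oNN (W := fun i => univ \ {c i}) n (fun i hi => ?_) (fun i _ => (O.gen (c i)).zz)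
        fun i hi => hzo _ (hball c hc i hi))
    · rintro c' ⟨hc', i, hi, hW⟩
      exact ⟨hc', i, hi, hW.2⟩
    · refine ZZ_mono subset_rfl ?_ hz
      refine fun b hb => ⟨mem_univ b, fun hb' => hb ?_⟩
      rw [mem_singleton_iff.1 hb']
      exact hball c hc i hi
  have h3 : ob - oB p0 O.o n c ∈ NN F (Tl p0 n) (Tl p0 n ∩ OfB n c) := by
    have e1 : Tl p0 n ∩ (Tl p0 n ∩ Kᶜ) ⊆ Tl p0 n ∩ OfB n c :=
      fun c' hc' => ⟨hc'.1, hOf c' hc'.1 hc'.2.2⟩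
    have h4 := sub_mem h2 (NN_mono subset_rfl e1 hoo)
    rwa [sub_sub_sub_cancel_left] at h4
  have e2 : Dm p0 δ n p \ K ⊆ Tl p0 n ∩ OfB n c :=
    fun c' hc' => ⟨hc'.1.1, hOf c' hc'.1.1 hc'.2⟩
  have e3 : Dm p0 δ n p ∩ OfB n c ⊆ Tl p0 n ∩ OfB n c := fun c' hc' => ⟨hc'.1.1, hc'.2⟩
  have h5 : ob - oB p0 O.o n c ∈ ZZ F (Tl p0 n ∩ Up δ n p) (Tl p0 n ∩ OfB n c) :=
    sub_mem (ZZ_mono subset_rfl e2 ho')
      (ZZ_mono subset_rfl e3 (oB_ZZ hY (hKC hc).1 (hp c hc)))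
  have h6 := exc_inj (U := Up δ n p) (V := OfB n c) (Up_open δ n p) (OfB_open n c)
    (fun c' hc' => by
      by_cases h : c' ∈ OfB n c
      · exact Or.inr h
      · exact Or.inl (zy3b_eq hcT hc' h ▸ hUp hc)) subset_rfl h5 h3
  refine NN_mono subset_rfl ?_ h6
  exact fun c' hc' => ⟨⟨hc'.1.1, hc'.2⟩, hc'.1.2⟩

end Pool.Agent.Fu
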