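import Mathlib
import Pool.Agent.P.MP_365c00_gt.ZY3
import Pool.Agent.P.MP_365c00_gt.ZD2
import Pool.Agent.P.MP_365c00_gt.ZP3
import Pool.Agent.P.MP_365c00_gt.ZP4

/-! The local classes are powers. -/

set_option linter.unusedSectionVars false
set_option linter.unusedVariables false

open Set Topology Filter Metric

namespace Pool.Agent.Fu

variable {F : Type} [Field F] {M : Type} [MetricSpace M] {d q n : ℕ} {S : GS M} {p0 p : M}
  {δ t : ℝ}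

variable {O : OR F (d + d) (Bs M d)} {c : ℕ → Bs M d} {x : M → Ch F (Mo M)} {w w' : Ch F (Mo M)}

/-- packing base points and paths into one sequence -/
def zy4_pk (p0 : M) (n : ℕ) (b : ℕ → Bs M d) (γ : ℕ → Mo M) (i : ℕ) : Pos M d :=
  if i ≤ n then (b i, γ i) else dfl p0

theorem zy4_congr {b : ℕ → Bs M d} {γ γ' : ℕ → Mo M} (h : ∀ i ≤ n, γ i = γ' i) :
    zy4_pk p0 n b γ = zy4_pk p0 n b γ' := by
  funext i
  unfold zy4_pk
  split_ifs with hi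
  · rw [h i hi]
  · rfl

theorem zy4_mem {b : ℕ → Bs M d} {γ : ℕ → Mo M} (hb : b ∈ Tl p0 n)
    (hγ : γ ∈ Tup n δ δ (b 0).1 (b n).1) :
    zy4_pk p0 n b γ ∈ Yt p0 δ n ∧ bs M d (zy4_pk p0 n b γ) = b := by
  have e : ∀ i ≤ n, zy4_pk p0 n b γ i = (b i, γ i) := fun i hi => if_pos hi
  refine ⟨⟨fun i hi => if_neg (not_le.2 hi), fun _ => ?_⟩, funext fun i => ?_⟩
  · rw [e 0 (Nat.zero_le n), e n le_rfl]
    exact (Tup.congr hγ fun i hi => congrArg Prod.snd (e i hi)).1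
  · change (zy4_pk p0 n b γ i).1 = b i
    by_cases hi : i ≤ n
    · rw [e i hi]
    · rw [hb i (not_le.1 hi)]
      exact congrArg Prod.fst (if_neg hi : zy4_pk p0 n b γ i = dfl p0)

theorem zy4_post {Z : Type} [TopologicalSpace Z] {A : Set Z} {b : Z → ℕ → Bs M d}
    (hb : ContinuousOn b A) (hT : ∀ z ∈ A, b z ∈ Tl p0 n) {g g' : Z → ℕ → Mo M}
    (h : Htp A (fun z γ => γ ∈ Tup n δ δ (b z 0).1 (b z n).1) g g') :
    Htp A (fun z y => y ∈ Yt p0 δ n ∧ bs M d y = b z) (fun z => zy4_pk p0 n (b z) (g z))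
      fun z => zy4_pk p0 n (b z) (g' z) := by
  refine h.post (k := fun u => zy4_pk p0 n (b u.1) u.2) (continuousOn_pi.2 fun i => ?_)
    fun z hz γ hγ => zy4_mem (hT z hz) hγ
  unfold zy4_pk
  split_ifs with hi
  · exact ((continuousOn_pi.1 hb i).comp continuous_fst.continuousOn fun u hu => hu.1).prodMk
      (by fun_prop)
  · exact continuousOn_const

theorem zy4_cut (hδ : 0 < δ) {Z : Type} [TopologicalSpace Z] {A : Set Z} {u v : Z → M} {r : Z → ℝ}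
    {f g : Z → Mo M} (h : HP A u v r f g) (n : ℕ) :
    Htp A (fun z γ => γ ∈ Tup n δ δ (u z) (v z)) (fun z => cut n (f z)) fun z => cut n (g z) :=
  Htp.post h (k := fun z => cut n z.2)
    (continuous_pi fun i => (cut_cont n i).comp continuous_snd).continuousOn
    fun z hz ω hω => (cut_mem hω.1 hδ hδ n).1

theorem zy4_en {ω : Mo M} (h : IsP ω) (n : ℕ) : en (cut n ω n) = en ω := by
  rw [(zp5_cut h n n).2.2, zp5_full]
  rfl

theorem zy4_le {P : Type} (u v : ℕ → P) {i : ℕ} (hi : i ≤ n) : app (n + 1) (u, v) i = u i :=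
  if_pos (Nat.lt_succ_of_le hi)

theorem zy4_gt {P : Type} (u v : ℕ → P) {i : ℕ} (hi : n < i) :
    app (n + 1) (u, v) i = v (i - (n + 1)) := if_neg (by omega)

theorem zy4_last {P : Type} (u v : ℕ → P) : app (n + 1) (u, v) (n + 1) = v 0 := by
  rw [zy4_gt u v n.lt_succ_self, Nat.sub_self]

theorem zy4_nr (hδ : 0 < δ) (hc : c ∈ NrC (n + 1) (δ / 2)) :
    (fun _ => c (n + 1)) ∈ NrC 0 (δ / 2) :=
  ⟨fun _ _ => hc.1 _ le_rfl, fun _ _ _ _ => hc.2 _ le_rfl _ le_rfl⟩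

theorem Gw_wh (hY : YH S δ O) (hc : c ∈ NrC n (δ / 2)) {p' : M} (hp : ∀ i ≤ n, dist (c i).1 p < δ)
    (hp' : ∀ i ≤ n, dist (c i).1 p' < δ) (hw : w ∈ ZZ F (Pa p p) ∅) :
    Gw S p0 O.o n c (mp (S.wh p' p') w) - Gw S p0 O.o n c w ∈ Mc F p0 δ n c := by
  have hδ := hY.pos
  have ha := hY.le
  have ho := oB_Sp hY p0 n c
  have s' := Sp_sub (p0 := p0) hδ hc hp'
  have hd : dist p' p < 2 * δ := by
    have h1 := dist_triangle_left p' p (c 0).1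
    linarith [hp 0 (Nat.zero_le n), hp' 0 (Nat.zero_le n)]
  have hd' : dist p p' < 2 * δ := by rwa [dist_comm]
  have hW := S.wh_contOn (x := p) (y := p) (x' := p') (y' := p') (by linarith) (by linarith)
  have hz := cross_mem_ZZ ho hw
  have e1 : Gw S p0 O.o n c (mp (S.wh p' p') w) =
      mp (Gn S p0 n ∘ Prod.map id (S.wh p' p')) (cross (oB p0 O.o n c) w) := by
    rw [← mp_mp (continuousOn_id.prodMap hW) (Gn_cont (p := p') hδ ha)
      (fun z hz => ⟨s' hz.1, S.zp4_Pa (by linarith) (by linarith) hz.2⟩) (mem_ZZ.1 hz).1,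
      ← cross_mp continuousOn_id hW (mem_ZZ.1 ho).1 (mem_ZZ.1 hw).1, mp_id]
    rfl
  have h1 := S.hp_wh_wh (A := (Sp p0 δ n c ×ˢ Pa p p : Set ((ℕ → Bs M d) × Mo M)))
    (x := fun _ => p') (y := fun _ => p') (x' := fun z => (z.1 0).1) (y' := fun z => (z.1 n).1)
    (f := Prod.snd) continuousOn_const continuousOn_const (by fun_prop) (by fun_prop)
    (by fun_prop) fun z hz => by
      have h2 := (s' hz.1).2.2 0 (Nat.zero_le n)
      have h3 := (s' hz.1).2.2 n le_rfl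
      rw [dist_comm] at h3
      rw [hz.2.2.1, hz.2.2.2]
      exact ⟨hz.2.1, by linarith, by linarith⟩
  have h2 := zy4_post (p0 := p0) (b := Prod.fst) (by fun_prop) (fun z hz => hz.1.1)
    (zy4_cut hδ h1 n)
  rw [e1]
  refine h2.symm.NN (B' := Yt p0 δ n ∩ Of n c) subset_rfl (fun z _ y hy => hy.1)
    (fun z hz y hy => ⟨hy.1, ?_⟩) hz
  change bs M d y ∈ OfB n c
  rw [hy.2]
  rcases hz.2 with h | h
  · exact h.1.2
  · exact h.2.elim

theorem Gn_app_htp (hδ : 0 < δ) (ha : 16 * δ ≤ S.a) :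
    Htp {z : ((ℕ → Bs M d) × Mo M) × ((ℕ → Bs M d) × Mo M) | z.1.1 ∈ Tl p0 n ∧ z.2.1 ∈ Tl p0 0 ∧
        app (n + 1) (z.1.1, z.2.1) ∈ Up δ (n + 1) p ∧ z.1.2 ∈ Pa p p ∧ z.2.2 ∈ Pa p p}
      (fun z y => y ∈ Yt p0 δ (n + 1) ∧ bs M d y = app (n + 1) (z.1.1, z.2.1))
      (fun z => app (n + 1) (Gn S p0 n z.1, Gn S p0 0 z.2))
      fun z => Gn S p0 (n + 1) (app (n + 1) (z.1.1, z.2.1), cat z.1.2 z.2.2) := by
  set A : Set (((ℕ → Bs M d) × Mo M) × ((ℕ → Bs M d) × Mo M)) :=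
    {z | z.1.1 ∈ Tl p0 n ∧ z.2.1 ∈ Tl p0 0 ∧
      app (n + 1) (z.1.1, z.2.1) ∈ Up δ (n + 1) p ∧ z.1.2 ∈ Pa p p ∧ z.2.2 ∈ Pa p p} with hA
  have d0 : ∀ z ∈ A, dist (z.1.1 0).1 p < 2 * δ ∧ dist p (z.1.1 n).1 < 2 * δ ∧
      dist (z.2.1 0).1 p < 2 * δ ∧ dist p (z.2.1 0).1 < 2 * δ ∧
      dist (z.1.1 n).1 (z.2.1 0).1 < δ := by
    intro z hz
    have h1 := hz.2.2.1.2 0 (Nat.zero_le _)
    have h2 := hz.2.2.1.2 n n.le_succ
    have h3 := hz.2.2.1.2 (n + 1) le_rfl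
    have h4 := hz.2.2.1.1.2 n n.le_succ (n + 1) le_rfl
    rw [zy4_le _ _ (Nat.zero_le n)] at h1
    rw [zy4_le _ _ le_rfl] at h2 h4
    rw [zy4_last] at h3 h4
    exact ⟨h1, by rwa [dist_comm], h3, by rwa [dist_comm], h4⟩
  have m1 : ∀ z ∈ A, S.wh (z.1.1 0).1 (z.1.1 n).1 z.1.2 ∈ Pa (z.1.1 0).1 (z.1.1 n).1 :=
    fun z hz => (S.wh_mem hz.2.2.2.1 (by linarith [(d0 z hz).1]) (by linarith [(d0 z hz).2.1])).1
  have m2 : ∀ z ∈ A, S.wh (z.2.1 0).1 (z.2.1 0).1 z.2.2 ∈ Pa (z.2.1 0).1 (z.2.1 0).1 :=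
    fun z hz => (S.wh_mem hz.2.2.2.2 (by linarith [(d0 z hz).2.2.1])
      (by linarith [(d0 z hz).2.2.2.1])).1
  have c1 : ContinuousOn (fun z => S.wh (z.1.1 0).1 (z.1.1 n).1 z.1.2) A :=
    S.wh_cont (by fun_prop) (by fun_prop) (by fun_prop) fun z hz => by
      rw [hz.2.2.2.1.2.1, hz.2.2.2.1.2.2]
      exact ⟨hz.2.2.2.1.1, by linarith [(d0 z hz).1], by linarith [(d0 z hz).2.1]⟩
  have c2 : ContinuousOn (fun z => S.wh (z.2.1 0).1 (z.2.1 0).1 z.2.2) A :=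
    S.wh_cont (by fun_prop) (by fun_prop) (by fun_prop) fun z hz => by
      rw [hz.2.2.2.2.2.1, hz.2.2.2.2.2.2]
      exact ⟨hz.2.2.2.2.1, by linarith [(d0 z hz).2.2.1], by linarith [(d0 z hz).2.2.2.1]⟩
  set γ : ((ℕ → Bs M d) × Mo M) × ((ℕ → Bs M d) × Mo M) → ℕ → Mo M := fun z i =>
    if i ≤ n then cut n (S.wh (z.1.1 0).1 (z.1.1 n).1 z.1.2) i
    else S.wh (z.2.1 0).1 (z.2.1 0).1 z.2.2 with hγ
  have g1 : ∀ z, ∀ i ≤ n, γ z i = cut n (S.wh (z.1.1 0).1 (z.1.1 n).1 z.1.2) i :=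
    fun z i hi => if_pos hi
  have g2 : ∀ z, γ z (n + 1) = S.wh (z.2.1 0).1 (z.2.1 0).1 z.2.2 := fun z => if_neg (by omega)
  have g3 : ∀ z ∈ A, en (γ z n) = (z.1.1 n).1 := fun z hz => by
    rw [g1 z n le_rfl, zy4_en (m1 z hz).1, (m1 z hz).2.2]
  have cγ : ContinuousOn γ A := continuousOn_pi.2 fun i => by
    simp only [hγ]
    split_ifs
    · exact (cut_cont n i).comp_continuousOn c1
    · exact c2
  have mγ : ∀ z ∈ A, γ z ∈ Tup (n + 1) δ δ (z.1.1 0).1 (z.2.1 0).1 := by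
    intro z hz
    have h1 := (Tup.congr (cut_mem (m1 z hz) hδ hδ n).1 (g1 z)).1
    refine ⟨fun i hi => ?_, h1.2.1, fun i hi => ?_, ?_⟩
    · rcases Nat.lt_succ_iff_lt_or_eq.1 (Nat.lt_succ_of_le hi) with h | rfl
      · exact h1.1 i (by omega)
      · rw [g2]
        exact (m2 z hz).1
    · rcases Nat.lt_succ_iff_lt_or_eq.1 hi with h | rfl
      · exact h1.2.2.1 i h
      · rw [g2, g3 z hz, (m2 z hz).2.1]
        linarith [(d0 z hz).2.2.2.2]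
    · rw [g2, (m2 z hz).2.2, dist_self]
      exact hδ
  have t1 := (S.tup_one (x := fun z => (z.1.1 0).1) (e := fun z => (z.2.1 0).1)
    (by linarith) (by linarith) cγ (by fun_prop) mγ).symm.mono subset_rfl fun z _ y hy => hy.1
  have h1 := S.hp_wh_wh (A := A) (x := fun z => (z.1.1 0).1) (y := fun z => (z.1.1 n).1)
    (x' := fun z => (z.1.1 0).1) (y' := fun z => (z.2.1 0).1) (f := fun z => z.1.2)
    (by fun_prop) (by fun_prop) (by fun_prop) (by fun_prop) (by fun_prop) fun z hz => by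
      rw [hz.2.2.2.1.2.1, hz.2.2.2.1.2.2, dist_self]
      exact ⟨hz.2.2.2.1.1, by linarith [(d0 z hz).1],
        by linarith [(d0 z hz).2.1, (d0 z hz).2.2.2.2]⟩
  have t2 := zy4_cut hδ (h1.cat (HP.refl c2 fun z hz => ⟨m2 z hz, le_rfl⟩)) (n + 1)
  have h2 := S.hp_wh_cat (A := A) (x := fun z => (z.1.1 0).1) (y := fun z => (z.2.1 0).1)
    (w := fun z => (z.2.1 0).1) (f := fun z => z.1.2) (g := fun z => z.2.2)
    (by fun_prop) (by fun_prop) (by fun_prop) (by fun_prop) (by fun_prop) fun z hz => by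
      rw [hz.2.2.2.1.2.1, hz.2.2.2.1.2.2, hz.2.2.2.2.2.1, hz.2.2.2.2.2.2]
      exact ⟨hz.2.2.2.1.1, hz.2.2.2.2.1, rfl, by linarith [(d0 z hz).1],
        by linarith [(d0 z hz).2.2.2.1], by linarith [(d0 z hz).2.2.2.1]⟩
  have t3 := t2.trans (zy4_cut hδ h2 (n + 1))
  have cb : ContinuousOn (fun z => app (n + 1) (z.1.1, z.2.1)) A :=
    ((appC (Bs M d) (n + 1)).continuous.comp (by fun_prop)).continuousOn
  have tb : ∀ z ∈ A, app (n + 1) (z.1.1, z.2.1) ∈ Tl p0 (n + 1) := fun z hz i hi => by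
    rw [zy4_gt _ _ (by omega)]
    exact hz.2.1 _ (by omega)
  have eR : ∀ z ∈ A, ∀ y : ℕ → Mo M, y ∈ Tup (n + 1) δ δ (z.1.1 0).1 (z.2.1 0).1 →
      y ∈ Tup (n + 1) δ δ (app (n + 1) (z.1.1, z.2.1) 0).1
        (app (n + 1) (z.1.1, z.2.1) (n + 1)).1 := fun z _ y hy => by
    rwa [zy4_le _ _ (Nat.zero_le n), zy4_last]
  refine (((zy4_post cb tb (t1.mono subset_rfl eR)).congr (fun _ _ => rfl) fun z hz => ?_).trans
    (zy4_post cb tb (t3.mono subset_rfl eR))).congr (fun z hz => ?_) fun z hz => ?_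
  · refine zy4_congr fun i hi => ?_
    have h3 := (S.fill_mem (by linarith) (mγ z hz)).1
    rw [g2, (m2 z hz).2.2] at h3
    rw [if_pos hi, S.wh_self h3, S.wh_right (m1 z hz) (by linarith [(d0 z hz).2.2.2.2]),
      GS.fill, S.fill_congr (g1 z), S.fill_cut (m1 z hz).1, g3 z hz, g2, (m2 z hz).2.1]
  · funext i
    change (if i ≤ n + 1 then (app (n + 1) (z.1.1, z.2.1) i, γ z i) else dfl p0) = _
    rcases lt_trichotomy i (n + 1) with h | rfl | h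
    · have h' : i ≤ n := by omega
      rw [if_pos h.le, zy4_le _ _ h', zy4_le _ _ h', g1 z i h']
      exact (if_pos h').symm
    · rw [if_pos le_rfl, zy4_last, zy4_last, g2, ← cut_zero (m2 z hz).1]
      rfl
    · rw [if_neg (by omega), zy4_gt _ _ (by omega)]
      exact (if_neg (by omega)).symm
  · change _ = zy4_pk p0 (n + 1) _ (cut (n + 1) (S.wh (app (n + 1) (z.1.1, z.2.1) 0).1
      (app (n + 1) (z.1.1, z.2.1) (n + 1)).1 _))
    rw [zy4_le _ _ (Nat.zero_le n), zy4_last]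

theorem Gw_mul (hY : YH S δ O) (hc : c ∈ NrC (n + 1) (δ / 2))
    (hp : ∀ i ≤ n + 1, dist (c i).1 p < δ) {k : ℕ} (hw : w ∈ ZZ F (Pa p p) ∅) (hk : w ∈ HD F _ k)
    (hw' : w' ∈ ZZ F (Pa p p) ∅) :
    mu (n + 1) (Gw S p0 O.o n c w) (Gw S p0 O.o 0 (fun _ => c (n + 1)) w') -
      Gw S p0 O.o (n + 1) c (mul w w') ∈ Mc F p0 δ (n + 1) c := by
  have hδ := hY.pos
  have ha := hY.le
  have ho := oB_Sp hY p0 n c
  have ho' := oB_Sp hY p0 0 fun _ => c (n + 1)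
  have s1 := Sp_sub (p0 := p0) hδ (NrC_left (n' := 0) hc) fun i hi => hp i (by omega)
  have s2 := Sp_sub (p0 := p0) hδ (zy4_nr hδ hc) fun _ _ => hp _ le_rfl
  have s3 := Sp_sub (p0 := p0) hδ hc hp
  have z1 := cross_mem_ZZ ho hw
  have z2 := cross_mem_ZZ ho' hw'
  have hz := cross_mem_ZZ z1 z2
  have c1 := (Gn_cont (p0 := p0) (n := n) (p := p) (d := d) hδ ha).mono (prod_mono s1 subset_rfl)
  have c2 := (Gn_cont (p0 := p0) (n := 0) (p := p) (d := d) hδ ha).mono (prod_mono s2 subset_rfl)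
  have c3 := cat_contOn (A := Pa p p) (B := Pa p p) subset_rfl subset_rfl
  have c4 : ContinuousOn (appC (Bs M d) (n + 1)) (Sp p0 δ n c ×ˢ Sp p0 δ 0 fun _ => c (n + 1)) :=
    (appC (Bs M d) (n + 1)).continuous.continuousOn
  have hs := cross_shuffle (oB p0 O.o n c) w' hk (oB_HD O p0 0 fun _ => c (n + 1))
  rw [Even.neg_one_pow (((Even.add_self d).mul_left _).mul_left _), one_smul] at hs
  have y1 := cross_mem_CC (mem_ZZ.1 ho).1 (mem_ZZ.1 ho').1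
  have y2 := cross_mem_CC (mem_ZZ.1 hw).1 (mem_ZZ.1 hw').1
  have e1 : mu (n + 1) (Gw S p0 O.o n c w) (Gw S p0 O.o 0 (fun _ => c (n + 1)) w') =
      mp (fun z => app (n + 1) (Gn S p0 n z.1, Gn S p0 0 z.2))
        (cross (cross (oB p0 O.o n c) w) (cross (oB p0 O.o 0 fun _ => c (n + 1)) w')) := by
    rw [mu_apply, Gw, Gw, cross_mp c1 c2 (mem_ZZ.1 z1).1 (mem_ZZ.1 z2).1,
      map_mp _ (c1.prodMap c2) (mem_ZZ.1 hz).1]
    rfl
  have e2 : Gw S p0 O.o (n + 1) c (mul w w') =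
      mp (fun z => Gn S p0 (n + 1) (app (n + 1) (z.1.1, z.2.1), cat z.1.2 z.2.2))
        (cross (cross (oB p0 O.o n c) w) (cross (oB p0 O.o 0 fun _ => c (n + 1)) w')) := by
    have e3 : oB p0 O.o (n + 1) c =
        mu (n + 1) (oB p0 O.o n c) (oB p0 O.o 0 fun _ => c (n + 1)) := rfl
    have m3 : MapsTo (Prod.map (appC (Bs M d) (n + 1)) fun z : Mo M × Mo M => cat z.1 z.2)
        ((Sp p0 δ n c ×ˢ Sp p0 δ 0 fun _ => c (n + 1)) ×ˢ (Pa p p ×ˢ Pa p p))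
        (Dm p0 δ (n + 1) p ×ˢ Pa p p) :=
      fun z hz => ⟨s3 (Sp_app hδ hz.1.1 hz.1.2), cat_mem hz.2.1 hz.2.2⟩
    rw [Gw, e3, mu_apply, mul_apply, ← mp_coe, cross_mp c4 c3 y1 y2,
      mp_mp (c4.prodMap c3) (Gn_cont hδ ha) m3 (cross_mem_CC y1 y2), ← hs,
      mp_map _ _ ((Gn_cont hδ ha).comp (c4.prodMap c3) m3)
        (CC_mono (fun z hz => by exact ⟨⟨hz.1.1, hz.2.1⟩, hz.1.2, hz.2.2⟩) (mem_ZZ.1 hz).1)]
    rfl
  rw [e1, e2]
  refine (Gn_app_htp (p := p) hδ ha).symm.NN (B' := Yt p0 δ (n + 1) ∩ Of (n + 1) c)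
    (fun z hz => ⟨hz.1.1.1, hz.2.1.1, (s3 (Sp_app hδ hz.1.1 hz.2.1)).2, hz.1.2, hz.2.2⟩)
    (fun z _ y hy => hy.1) (fun z hz y hy => ⟨hy.1, ?_⟩) hz
  change bs M d y ∈ OfB (n + 1) c
  rw [hy.2]
  rcases hz.2 with ⟨h | h, -⟩ | ⟨-, h | h⟩
  · obtain ⟨i, hi, h⟩ := h.1.2
    exact ⟨i, by omega, by rwa [zy4_le _ _ hi]⟩
  · exact h.2.elim
  · obtain ⟨i, hi, h⟩ := h.1.2
    rw [Nat.le_zero.1 hi] at h
    exact ⟨n + 1, le_rfl, by rwa [zy4_last]⟩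
  · exact h.2.elim

theorem Bt_pwr (hY : YH S δ O) {D : ℕ} (hx : ∀ p, x p ∈ ZZ F (Pa p p) ∅) (hd : ∀ p, x p ∈ HD F _ D)
    (hj : ∀ p p' : M, dist p p' < S.a / 8 → mp (S.wh p' p') (x p) - x p' ∈ BB F (Pa p' p'))
    (hc : c ∈ NrC n (δ / 2)) (hp : ∀ i ≤ n, dist (c i).1 p < δ) :
    Bt S p0 O.o x n c - Gw S p0 O.o n c (pwr n (x p)) ∈ Mc F p0 δ n c := by
  have hδ := hY.pos
  have ha := hY.le
  have base : ∀ c : ℕ → Bs M d, c ∈ NrC 0 (δ / 2) → dist (c 0).1 p < δ →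
      Gw S p0 O.o 0 c (x (c 0).1) - Gw S p0 O.o 0 c (x p) ∈ Mc F p0 δ 0 c := by
    intro c hc h0
    have h1 : ∀ i ≤ 0, dist (c i).1 p < δ := fun i hi => by rwa [Nat.le_zero.1 hi]
    have h2 : ∀ i ≤ 0, dist (c i).1 (c 0).1 < δ := fun i hi => by
      rwa [Nat.le_zero.1 hi, dist_self]
    have h3 := Gw_BB (p0 := p0) hY hc h2 (hj p (c 0).1 (by rw [dist_comm]; linarith))
    rw [Gw_sub] at h3
    have h4 := sub_mem (Gw_wh (p0 := p0) hY hc h1 h2 (hx p)) h3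
    rwa [sub_sub_sub_cancel_left] at h4
  induction n with
  | zero => exact base c hc (hp 0 le_rfl)
  | succ n ih =>
    have hc1 := NrC_left (n' := 0) hc
    have hc2 := zy4_nr hδ hc
    have e : ∀ i ≤ 0, c (n + 1 + i) = c (n + 1) := fun i hi => by rw [Nat.le_zero.1 hi]
    have h1 := Gw_ZZ (p0 := p0) hY hc2 (fun _ _ => hp _ le_rfl) (hx p)
    have h2 := base _ hc2 (hp _ le_rfl)
    rw [← Mc_congr (c' := fun i => c (n + 1 + i)) e] at h2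
    rw [Of, ← OfB_congr (c' := fun i => c (n + 1 + i)) e] at h1
    have h3 := Mc_mul (n' := 0) (Bt_ZZ hY hx hc1) h1 (ih hc1 fun i hi => hp i (by omega)) h2
    have h4 := add_mem h3 (Gw_mul hY hc hp (pwr_mem n (hx p)) (pwr_HD n (hd p)) (hx p))
    rwa [sub_add_sub_cancel] at h4

end Pool.Agent.Fu
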