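import Mathlib
import Pool.Agent.P.MP_365c00_gt.ZY4
import Pool.Agent.P.MP_365c00_gt.ZY3b

/-! Local vanishing and global classes. -/

set_option linter.unusedSectionVars false
set_option linter.unusedVariables false

open Set Topology Filter Metric

namespace Pool.Agent.Fu

variable {F : Type} [Field F] {M : Type} [MetricSpace M] {d q n : ℕ} {S : GS M} {p0 p : M}
  {δ t : ℝ}

variable {O : OR F (d + d) (Bs M d)} {x : M → Ch F (Mo M)} {C0 τ θ η A s : ℝ} {D J : ℕ}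

/-- small subsets of the core -/
def SmY (p0 : M) (δ : ℝ) (n : ℕ) (K : Set (ℕ → Bs M d)) : Prop :=
  K ⊆ CB p0 δ n ∧ ∀ c ∈ K, ∀ c' ∈ K, dist (c 0).1 (c' 0).1 < δ / 2

variable (F) in
/-- chains that are null over the point `c` -/
noncomputable def Mp (p0 : M) (δ : ℝ) (n : ℕ) (c : ℕ → Bs M d) :
    Submodule F (Ch F (ℕ → Pos M d)) := NN F (Yt p0 δ n) (off (Yt p0 δ n) (bs M d) {c})

theorem Mp_eq {c : ℕ → Bs M d} (hc : c ∈ Tl p0 n) : Mp F p0 δ n c = Mc F p0 δ n c := by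
  rw [Mp, Mc, off_pt subset_rfl hc]

theorem cov_Y [CompactSpace M]
    (hJ : Cov (fun K : Set M => ∀ x ∈ K, ∀ y ∈ K, dist x y < δ / 2) J univ) (p0 : M) (n : ℕ) :
    Cov (SmY (d := d) p0 δ n) J (CB p0 δ n) := by
  obtain ⟨K, hK, e⟩ := hJ.pull (⟨fun c => (c 0).1, by fun_prop⟩ : C(ℕ → Bs M d, M))
    (CB_compact p0 δ n)
  refine ⟨K, fun j => ?_, e⟩
  obtain ⟨m, P, h1, h2, h3⟩ := hK j
  refine ⟨m, P, fun i => ⟨(h1 i).1, (h1 i).2.1, fun c hc c' hc' => ?_⟩, h2, h3⟩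
  obtain ⟨Q, q1, q2⟩ := (h1 i).2.2
  exact q1 _ (q2 hc) _ (q2 hc')

theorem zy5_near {K : Set (ℕ → Bs M d)} (hS : SmY p0 δ n K) {c0 : ℕ → Bs M d} (h0 : c0 ∈ K) :
    ∀ c ∈ K, ∀ i ≤ n, dist (c i).1 (c0 0).1 < δ := fun c hc i hi => by
  have h1 := (hS.1 hc).1.2 i hi 0 (Nat.zero_le n)
  have h2 := hS.2 c hc c0 h0
  linarith [dist_triangle (c i).1 (c 0).1 (c0 0).1]

theorem zy5_null (h2 : (2 : F) ≠ 0) (hY : YH S δ O) {β β' : ℝ} (hβ : (2 * n + 9) * δ ≤ β)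
    (hβ' : 0 ≤ β') {k : ℕ} {K : Set (ℕ → Bs M d)} (hK : IsCompact K) (hS : SmY p0 δ n K)
    {z : Ch F (ℕ → Pos M d)} (hz : z ∈ ZZ F (Ys p0 δ n t) (off (Ys p0 δ n t) (bs M d) K))
    (hd : z ∈ HD F _ k) {P : Prop} (hP : P → ∀ c ∈ K, z ∈ Mp F p0 δ n c)
    (hv : ∀ (p : M) j, ∀ w ∈ ZZ F (Om p p (t + β)) ∅, w ∈ HD F _ j → k ≤ j + (n + 1) * (d + d) →
      (k = j + (n + 1) * (d + d) → P → w ∈ BB F (Pa p p)) → w ∈ BB F (Om p p (t + β + β')))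
    {t' : ℝ} (ht : t' = t + 2 * β + β') :
    z ∈ NN F (Ys p0 δ n t') (off (Ys p0 δ n t') (bs M d) K) := by
  have hδ := hY.pos
  have h0 : 0 ≤ β := le_trans (by positivity) hβ
  subst ht
  rcases K.eq_empty_or_nonempty with hK0 | ⟨c0, hc0⟩
  · exact zl1_empty (Ys_mono p0 δ n (by linarith)) hK0 (mem_ZZ.1 hz).1
  have hU : K ⊆ Up δ n (c0 0).1 := fun c hc =>
    ⟨NrC_sub hδ n (hS.1 hc).1, fun i hi => (zy5_near hS hc0 c hc i hi).trans (by linarith)⟩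
  exact (fm_Y (p0 := p0) (p := (c0 0).1) hδ hY.le hβ).null h0 h2
    ((euc_Dm (p0 := p0) (n := n) (hY.euc _)).eh h2) hK
    (fun c hc => ⟨⟨(hS.1 hc).2, hU hc⟩, hU hc⟩) hβ' hz hd hP (hv _)

theorem loc_fine (h2 : (2 : F) ≠ 0) (hY : YH S δ O) (hP : PW F S C0 τ θ η A s D x)
    (hβ : (2 * n + 9) * δ ≤ s) (ht : t + s ≤ (n + 1) * (D * τ) + S.a / 8) :
    LocN F (Ys p0 δ n) (bs M d) (SmY p0 δ n) (Mp F p0 δ n) ((n + 1) * (d + d + D)) t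
      (t + 14 * s) := by
  intro K hK hS z hz hd hM
  have hδ := hY.pos
  have h0 : 0 ≤ s := le_trans (by positivity) hβ
  refine zy5_null h2 hY hβ (β' := 12 * s) (by linarith) hK hS hz hd (P := True) (fun _ => hM)
    (fun p j w hw hj h1 h3 => hP.fine p n j _ ht w hw hj ?_) (by ring)
  have e : (n + 1) * (d + d + D) = (n + 1) * D + (n + 1) * (d + d) := by ring
  rcases lt_or_ge ((n + 1) * D) j with h | h
  · exact Or.inl h
  · exact Or.inr ⟨by omega, h3 (by omega) trivial⟩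

theorem loc_fine' (h2 : (2 : F) ≠ 0) (hY : YH S δ O) (hP : PW F S C0 τ θ η A s D x)
    (hβ : (2 * n + 9) * δ ≤ s) (ht : t + s ≤ (n + 1) * (D * τ) + S.a / 8) {k : ℕ}
    (hk : (n + 1) * (d + d + D) < k) :
    LocN F (Ys p0 δ n) (bs M d) (SmY p0 δ n) (fun _ => ⊤) k t (t + 14 * s) := by
  intro K hK hS z hz hd _
  have hδ := hY.pos
  have h0 : 0 ≤ s := le_trans (by positivity) hβ
  refine zy5_null h2 hY hβ (β' := 12 * s) (by linarith) hK hS hz hd (P := False) False.elim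
    (fun p j w hw hj h1 _ => hP.fine p n j _ ht w hw hj (Or.inl ?_)) (by ring)
  have e : (n + 1) * (d + d + D) = (n + 1) * D + (n + 1) * (d + d) := by ring
  omega

theorem loc_coarse (h2 : (2 : F) ≠ 0) (hY : YH S δ O) (hP : PW F S C0 τ θ η A s D x)
    (hβ : (2 * n + 9) * δ ≤ θ) {b : ℝ} (hb : 0 ≤ b) {k : ℕ}
    (hk : ((n + 1) * (d + d + D) : ℕ) + C0 * (b + 2 * θ) < k) :
    LocN F (Ys p0 δ n) (bs M d) (SmY p0 δ n) (fun _ => ⊤) k ((n + 1) * (D * τ) + b)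
      ((n + 1) * (D * τ) + b + 3 * θ) := by
  intro K hK hS z hz hd _
  have hδ := hY.pos
  have h0 : 0 ≤ θ := le_trans (by positivity) hβ
  refine zy5_null h2 hY hβ h0 hK hS hz hd (P := False) False.elim
    (fun p j w hw hj h1 _ => ?_) (by ring)
  rw [add_assoc _ b θ] at hw ⊢
  refine hP.coarse p n j (b + θ) (by linarith) ?_ w hw hj
  have h3 : (k : ℝ) ≤ j + (n + 1) * (d + d) := by exact_mod_cast h1
  push_cast at hk
  linarith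

theorem loc_ex (hY : YH S δ O) (hP : PW F S C0 τ θ η A s D x) (hβ : 4 * δ ≤ s)
    {K : Set (ℕ → Bs M d)} (hK : IsCompact K) (hS : SmY p0 δ n K) :
    ∃ z ∈ ZZ F (Ys p0 δ n ((n + 1) * (D * τ) + 5 * s))
      (off (Ys p0 δ n ((n + 1) * (D * τ) + 5 * s)) (bs M d) K),
      z ∈ HD F _ ((n + 1) * (d + d + D)) ∧ ∀ c ∈ K, z - Bt S p0 O.o x n c ∈ Mp F p0 δ n c := by
  rcases K.eq_empty_or_nonempty with rfl | ⟨c0, hc0⟩
  · exact ⟨0, zero_mem _, zero_mem _, fun c hc => hc.elim⟩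
  have hp := zy5_near hS hc0
  obtain ⟨ob, o1, o2, o3⟩ := base_class hY hK hS.1 hp
  obtain ⟨w, w1, w2, w3⟩ := hP.low (c0 0).1 n
  have l : (n + 1) * (D * τ) + 4 * s + 4 * δ ≤ (n + 1) * (D * τ) + 5 * s := by linarith
  refine ⟨mp (Gn S p0 n) (cross ob w), ZZ_mono (Ys_mono p0 δ n l) ?_ (Gn_ZZ hY.pos hY.le o1 w1),
    ?_, fun c hc => ?_⟩
  · exact fun y hy => ⟨Ys_mono p0 δ n l hy.1, hy.2.2⟩
  · rw [mul_add (n + 1) (d + d) D]
    exact mp_mem_HD _ (cross_mem_HD o2 w2)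
  · have a1 := Gn_NN_left hY.pos hY.le (o3 c hc) (ZZ_mono (Om_sub _ _ _) subset_rfl w1)
    have a2 := Gw_BB (p0 := p0) hY (hS.1 hc).1 (hp c hc) w3
    have a3 := Bt_pwr (p0 := p0) hY hP.cyc hP.deg hP.conj (hS.1 hc).1 (hp c hc)
    have a4 := sub_mem (add_mem a1 a2) a3
    rw [Gw_sub, map_sub, LinearMap.sub_apply, map_sub] at a4
    rw [Mp_eq (hS.1 hc).2]
    have e : mp (Gn S p0 n) (cross (oB p0 O.o n c) w) = Gw S p0 O.o n c w := rfl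
    rw [e, sub_add_sub_cancel, sub_sub_sub_cancel_right] at a4
    exact a4

theorem glob_ex [CompactSpace M] (h2 : (2 : F) ≠ 0) (hY : YH S δ O) (hP : PW F S C0 τ θ η A s D x)
    (hJ : Cov (fun K : Set M => ∀ x ∈ K, ∀ y ∈ K, dist x y < δ / 2) J univ)
    (hβ : (2 * n + 9) * δ ≤ s) (h1 : (6 + 14 * J) * s ≤ S.a / 8) :
    ∃ z ∈ ZZ F (Ys p0 δ n ((n + 1) * (D * τ) + (5 + 14 * J) * s))
      (Ys p0 δ n ((n + 1) * (D * τ) + (5 + 14 * J) * s) ∩ far δ n),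
      z ∈ HD F _ ((n + 1) * (d + d + D)) ∧ Rn S p0 δ O.o x n z := by
  have hδ := hY.pos
  have h0 : 0 ≤ s := le_trans (by positivity) hβ
  have h4 : 4 * δ ≤ s := le_trans (by nlinarith [(Nat.cast_nonneg n : (0 : ℝ) ≤ n)]) hβ
  obtain ⟨z, z1, z2, z3⟩ := gl_ex (ξ := bs M d) (Mc := Mp F p0 δ n) (β := 14 * s) (Ys_mono p0 δ n)
    (fun K K' h h' => ⟨h'.trans h.1, fun c hc c' hc' => h.2 c (h' hc) c' (h' hc')⟩) (by linarith)
    (fun c u => NN_mono (Ys_sub p0 δ n u) (zl1_mono (Ys_sub p0 δ n u) subset_rfl))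
    (fun K hK hS => loc_ex hY hP h4 hK hS)
    (fun u _ hu => loc_fine h2 hY hP hβ (by linarith)) (cov_Y hJ p0 n)
  have e : (n + 1) * (D * τ) + 5 * s + J * (14 * s) = (n + 1) * (D * τ) + (5 + 14 * J) * s := by
    ring
  rw [e, off_CB (Ys_sub p0 δ n _)] at z1
  refine ⟨z, z1, z2, fun c hc => ?_⟩
  obtain ⟨c', e1, e2⟩ : ∃ c' : ℕ → Bs M d, (∀ i ≤ n, c' i = c i) ∧ c' ∈ Tl p0 n :=
    ⟨fun i => if i ≤ n then c i else (p0, 0), fun i hi => if_pos hi,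
      fun i hi => if_neg (not_le.2 hi)⟩
  have a := z3 c' ⟨⟨fun i hi => by rw [e1 i hi]; exact hc.1 i hi,
    fun i hi j hj => by rw [e1 i hi, e1 j hj]; exact hc.2 i hi j hj⟩, e2⟩
  rwa [Mp_eq e2, Mc_congr e1, Bt_congr e1] at a

end Pool.Agent.Fu
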