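import Mathlib
import Pool.Agent.P.MP_365c00_gt.ZY5

/-! The hypotheses for the chains of words hold. -/

set_option linter.unusedSectionVars false
set_option linter.unusedVariables false

open Set Topology Filter Metric

namespace Pool.Agent.Fu

variable {F : Type} [Field F] {M : Type} [MetricSpace M] {d q n : ℕ} {S : GS M} {p0 p : M}
  {δ t : ℝ}

variable [CompactSpace M] {O : OR F (d + d) (Bs M d)} {x : M → Ch F (Mo M)}
  {C0 τ θ η A s c1 c3 : ℝ} {D J : ℕ}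

theorem zy6_sm (p0 : M) (δ : ℝ) (n : ℕ) (K K' : Set (ℕ → Bs M d)) (h : SmY p0 δ n K)
    (h' : K' ⊆ K) : SmY p0 δ n K' :=
  ⟨h'.trans h.1, fun c hc c' hc' => h.2 c (h' hc) c' (h' hc')⟩

theorem zy6_num {C0 c1 c3 θ u k b : ℝ} (hC : 0 < C0) (h1 : 0 ≤ c1) (hθ : 0 ≤ θ) (hu : 0 ≤ u)
    (hc3 : c3 = c1 + 14 * u) (h3 : C0 * (3 * c1 + 28 * u + 2 * θ) < 1) (hk : 1 ≤ k)
    (hb : b ≤ 2 * c1 + c3 * k + 3 * u) : C0 * (b + 2 * θ) < k := by
  have e1 : b + 2 * θ ≤ (3 * c1 + 28 * u + 2 * θ) * k := by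
    have a1 := mul_le_mul_of_nonneg_left hk h1
    have a2 := mul_le_mul_of_nonneg_left hk hθ
    have a3 := mul_le_mul_of_nonneg_left hk hu
    subst hc3
    nlinarith
  have e2 := mul_le_mul_of_nonneg_left e1 hC.le
  have e3 := mul_lt_mul_of_pos_right h3 (lt_of_lt_of_le one_pos hk)
  nlinarith

theorem ws_inst (h2 : (2 : F) ≠ 0) (hY : YH S δ O) (hP : PW F S C0 τ θ η A s D x)
    (hJ : Cov (fun K : Set M => ∀ x ∈ K, ∀ y ∈ K, dist x y < δ / 2) J univ) (hC : 0 < C0)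
    (hβ : (2 * q + 9) * δ ≤ s) (hs : s ≤ θ) (hc1 : c1 = (5 + 14 * (J + 1)) * s)
    (hc3 : c3 = c1 + 14 * J * θ) (h1 : 2 * c1 + 14 * J * θ + θ ≤ S.a / 8)
    (h3 : C0 * (3 * c1 + 28 * J * θ + 2 * θ) < 1) :
    WS F (Ys p0 δ) (far δ) (Rn S p0 δ O.o x) (D * τ) c1 c3 (d + d + D) q := by
  have hδ := hY.pos
  have hq : (0 : ℝ) ≤ q := Nat.cast_nonneg q
  have hJ0 : (0 : ℝ) ≤ J := Nat.cast_nonneg J
  have hs0 : 0 ≤ s := le_trans (by positivity) hβ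
  have hθ0 : 0 ≤ θ := hs0.trans hs
  have hJs : 0 ≤ (J : ℝ) * s := mul_nonneg hJ0 hs0
  have hJθ : (J : ℝ) * s ≤ J * θ := mul_le_mul_of_nonneg_left hs hJ0
  have hc0 : 0 ≤ c1 := by nlinarith
  have hn : ∀ n < q, (2 * (n : ℝ) + 9) * δ ≤ s := fun n hn => by
    have : (n : ℝ) ≤ q := by exact_mod_cast hn.le
    nlinarith
  refine ⟨fun n => Ys_mono p0 δ n, fun n n' t t' x hx x' hx' => Ys_app hx hx',
    fun n n' x x' h => far_left n' x' h, fun n n' x x' h => far_right n x h,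
    Even.add ⟨d, rfl⟩ hP.even, hc0, by nlinarith,
    fun n n' t t' a ha b hb => Rn_mul hY hP.cyc ha hb, fun n hq => ?_,
    fun n hq z hz z' hz' d1 d2 r1 r2 => ?_, fun n hq k hk z hz hd => ?_⟩
  · obtain ⟨z, a1, a2, a3⟩ := glob_ex (p0 := p0) h2 hY hP hJ (hn n hq) (by nlinarith)
    have hm := Ys_mono (d := d) p0 δ n
      (show (n + 1) * (D * τ) + (5 + 14 * J) * s ≤ (n + 1) * (D * τ) + c1 by nlinarith)
    exact ⟨z, ZZ_mono hm (inter_subset_inter_left _ hm) a1, a2, a3⟩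
  · rw [← off_CB (Ys_sub _ _ _ _)] at hz hz'
    have key := gl_null (β := 14 * s) (Ys_mono p0 δ n) (zy6_sm p0 δ n) (by positivity)
      (loc_fine h2 hY hP (hn n hq) (by nlinarith))
      (fun s' _ hs' => loc_fine' h2 hY hP (hn n hq) (by nlinarith) (Nat.lt_succ_self _))
      (cov_Y hJ p0 n) (sub_mem hz hz') (sub_mem d1 d2) fun c hc => by
        rw [Mp_eq hc.2, ← sub_sub_sub_cancel_right z z' (Bt S p0 O.o x n c)]
        exact sub_mem (r1 c hc.1) (r2 c hc.1)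
    rw [off_CB (Ys_sub _ _ _ _)] at key
    have hm := Ys_mono (d := d) p0 δ n
      (show (n + 1) * (D * τ) + 2 * c1 + J * (14 * s) ≤ (n + 1) * (D * τ) + c1 + c3 by nlinarith)
    exact NN_mono hm (inter_subset_inter_left _ hm) key
  · rw [← off_CB (Ys_sub _ _ _ _)] at hz
    have hk1 : (1 : ℝ) ≤ k := by exact_mod_cast hk
    have hc30 : 0 ≤ c3 * k := mul_nonneg (by nlinarith) (Nat.cast_nonneg k)
    have loc : ∀ j : ℕ, k ≤ j → ∀ s', (n + 1) * (D * τ) + 2 * c1 + c3 * k ≤ s' →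
        s' ≤ (n + 1) * (D * τ) + 2 * c1 + c3 * k + J * (3 * θ) →
        LocN F (Ys p0 δ n) (bs M d) (SmY p0 δ n) (fun _ => ⊤) ((n + 1) * (d + d + D) + j) s'
          (s' + 3 * θ) := fun j hj s' l1 l2 => by
      have hj' : (k : ℝ) ≤ j := by exact_mod_cast hj
      have hlt := zy6_num (b := s' - (n + 1) * (D * τ)) (u := J * θ) (c3 := c3) hC hc0 hθ0
        (hJs.trans hJθ) (by rw [hc3]; ring) (by rw [← mul_assoc]; exact h3) hk1 (by linarith)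
      have := loc_coarse (p0 := p0) (b := s' - (n + 1) * (D * τ))
        (k := (n + 1) * (d + d + D) + j) h2 hY hP ((hn n hq).trans hs) (by linarith)
        (by rw [Nat.cast_add _ j]; linarith)
      rwa [add_sub_cancel] at this
    have key := gl_null (β := 3 * θ) (Ys_mono p0 δ n) (zy6_sm p0 δ n) (by positivity)
      (loc k le_rfl _ le_rfl (by nlinarith)) (loc (k + 1) (Nat.le_succ k))
      (cov_Y hJ p0 n) hz hd fun c hc => Submodule.mem_top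
    rw [off_CB (Ys_sub _ _ _ _)] at key
    have hm := Ys_mono (d := d) p0 δ n
      (show (n + 1) * (D * τ) + 2 * c1 + c3 * k + J * (3 * θ) ≤
        (n + 1) * (D * τ) + c1 + c3 * (k + 1) by nlinarith)
    exact NN_mono hm (inter_subset_inter_left _ hm) key

theorem exists_z0 (h2 : (2 : F) ≠ 0) (hY : YH S δ O) (hP : PW F S C0 τ θ η A s D x)
    (hJ : Cov (fun K : Set M => ∀ x ∈ K, ∀ y ∈ K, dist x y < δ / 2) J univ)
    (hβ : 9 * δ ≤ s) (hc1 : c1 = (5 + 14 * (J + 1)) * s) (h1 : c1 ≤ S.a / 8) {w : Ch F (Mo M)}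
    (hw : w ∈ ZZ F (Om p p (D * τ + 4 * s)) ∅) (hd : w ∈ HD F _ D) (hx : w - x p ∈ BB F (Pa p p)) :
    ∃ z ∈ ZZ F (Ys p0 δ 0 (D * τ + c1)) (Ys p0 δ 0 (D * τ + c1) ∩ far δ 0),
      z ∈ HD F _ (d + d + D) ∧ Rn S p0 δ O.o x 0 z ∧
      map (ev0 (Pos M d)) z - mp (Gb S) (cross (O.o (p, 0)) w) ∈
        CC F (A0 δ ∩ {y : Pos M d | y.1 ≠ (p, 0)}) := by
  have hδ := hY.pos
  have hJ0 : (0 : ℝ) ≤ J := Nat.cast_nonneg J
  have hs0 : 0 ≤ s := le_trans (by positivity) hβ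
  have hJs : 0 ≤ (J : ℝ) * s := mul_nonneg hJ0 hs0
  have hβ' : (2 * ((0 : ℕ) : ℝ) + 9) * δ ≤ s := by simpa using hβ
  obtain ⟨z1, a1, a2, a3⟩ := glob_ex (p0 := p0) (n := 0) h2 hY hP hJ hβ' (by nlinarith)
  have hcc : ∀ i ≤ 0, one p0 d (p, 0) i = (fun _ : ℕ => ((p, 0) : Bs M d)) i := fun i hi => by
    obtain rfl := Nat.le_zero.1 hi
    rfl
  have hc : (fun _ : ℕ => ((p, 0) : Bs M d)) ∈ NrC 0 (δ / 2) :=
    ⟨fun i _ => by simp; positivity, fun i _ j _ => by simp; positivity⟩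
  have hc' : one p0 d (p, 0) ∈ NrC 0 (δ / 2) :=
    ⟨fun i hi => by rw [hcc i hi]; exact hc.1 i hi,
      fun i hi j hj => by rw [hcc i hi, hcc j hj]; exact hc.2 i hi j hj⟩
  have hT : one p0 d (p, 0) ∈ Tl p0 0 := fun i hi => if_neg hi.ne'
  have hp : ∀ i ≤ 0, dist ((fun _ : ℕ => ((p, 0) : Bs M d)) i).1 p < δ := fun i _ => by
    simpa using hδ
  have hB : Gw S p0 O.o 0 (fun _ => (p, 0)) w ∈ _ :=
    Gn_ZZ (p0 := p0) hδ hY.le (oB_ZZ hY hc hp) hw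
  have hm := Ys_mono (d := d) p0 δ 0 (show D * τ + 4 * s + 4 * δ ≤
    (((0 : ℕ) : ℝ) + 1) * (D * τ) + (5 + 14 * J) * s by push_cast; nlinarith)
  have hd1 : z1 - Gw S p0 O.o 0 (fun _ => (p, 0)) w ∈ HD F _ ((0 + 1) * (d + d + D)) := by
    refine sub_mem a2 ?_
    have := Gw_HD (S := S) (p0 := p0) (n := 0) (c := fun _ => (p, 0)) O hd
    simpa using this
  have key := loc_fine (p0 := p0) (n := 0)
    (t := (((0 : ℕ) : ℝ) + 1) * (D * τ) + (5 + 14 * J) * s) h2 hY hP hβ' (by nlinarith)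
    {one p0 d (p, 0)} isCompact_singleton
    ⟨singleton_subset_iff.2 ⟨hc', hT⟩, fun c hc c' hc' => by
      rw [mem_singleton_iff.1 hc, mem_singleton_iff.1 hc', dist_self]
      positivity⟩ (z1 - Gw S p0 O.o 0 (fun _ => (p, 0)) w) (by
      rw [off_pt (Ys_sub _ _ _ _) hT]
      refine sub_mem (ZZ_mono subset_rfl (inter_subset_inter_right _ (far_sub_Of hc')) a1)
        (ZZ_mono hm ?_ hB)
      intro y hy
      refine ⟨hm hy.1, ?_⟩
      show bs M d y ∈ OfB 0 _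
      rw [OfB_congr hcc]
      exact hy.2.2) hd1 fun c hc1 => by
      rw [mem_singleton_iff.1 hc1, Mp_eq hT, Mc_congr hcc]
      have b1 : z1 - Gw S p0 O.o 0 (fun _ => (p, 0)) (x p) ∈ _ := a3 _ hc
      have b2 := Gw_BB (p0 := p0) hY hc hp hx
      rw [Gw_sub] at b2
      rw [← sub_sub_sub_cancel_right z1 _ (Gw S p0 O.o 0 (fun _ => (p, 0)) (x p))]
      exact sub_mem b1 b2
  have e : (((0 : ℕ) : ℝ) + 1) * (D * τ) + (5 + 14 * J) * s + 14 * s = D * τ + c1 := by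
    rw [hc1]
    push_cast
    ring
  rw [e, off_pt (Ys_sub _ _ _ _) hT] at key
  obtain ⟨h, k1, k2, k3⟩ := NN_HD hd1 key
  have hm' := Ys_mono (d := d) p0 δ 0 (show
    (((0 : ℕ) : ℝ) + 1) * (D * τ) + (5 + 14 * J) * s ≤ D * τ + c1 by rw [← e]; linarith)
  refine ⟨z1 - bd h, mem_ZZ.2 ⟨sub_mem (CC_mono hm' a1.1) (bd_mem_CC k1), ?_⟩, ?_,
    fun c hc => ?_, ?_⟩
  · rw [map_sub, bd_bd, sub_zero]
    exact CC_mono (inter_subset_inter_left _ hm') (mem_ZZ.1 a1).2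
  · simpa using sub_mem a2 (bd_mem_HD k2)
  · rw [sub_right_comm]
    exact sub_mem (a3 c hc) (BB_le_NN _ _ (mem_BB.2 ⟨h, CC_mono (Ys_sub _ _ _ _) k1, rfl⟩))
  · rw [← ev0_Gw (p0 := p0) hY (CC_mono (fun y hy => hy.1) (mem_ZZ.1 hw).1), ← map_sub,
      sub_right_comm]
    refine map_mem_CC ?_ k3
    intro y hy
    refine ⟨ev0_Yt hy.1.1, ?_⟩
    obtain ⟨i, hi, hne⟩ := hy.2
    obtain rfl := Nat.le_zero.1 hi
    exact hne

end Pool.Agent.Fu
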