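import Mathlib
import Pool.Agent.P.MP_365c00_gt.ZY1
import Pool.Agent.P.MP_365c00_gt.ZL2
import Pool.Agent.P.MP_365c00_gt.ZP5

/-! Local product models for the cyclic tuples of paths. -/

set_option linter.unusedSectionVars false
set_option linter.unusedVariables false

open Set Topology Filter Metric

namespace Pool.Agent.Fu

variable {F : Type} [Field F] {M : Type} [MetricSpace M] {d q n : ℕ} {S : GS M} {p0 p : M}
  {δ t : ℝ}

variable [NeZero q]

theorem zy2b_sum (γ : ℕ → Mo M) : ∑ i : ZMod q, (γ i.val).2 = tot (q - 1) γ := by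
  obtain ⟨k, rfl⟩ := Nat.exists_eq_succ_of_ne_zero (NeZero.ne q)
  exact Fin.sum_univ_eq_sum_range (fun i => (γ i).2) (k + 1)

theorem zy2b_tot (x : ZMod q → Pos M d) :
    tot (q - 1) (fun i : ℕ => (x (i : ZMod q)).2) = ∑ i, (x i).2.2 := by
  rw [← zy2b_sum]
  simp only [ZMod.natCast_zmod_val]

theorem zy2b_to {x : ZMod q → Pos M d}
    (h : ∀ i, IsP (x i).2 ∧ dist (en (x i).2) (st (x (i + 1)).2) < 2 * δ) :
    (fun i : ℕ => (x (i : ZMod q)).2) ∈ Tup (q - 1) δ (2 * δ) (st (x 0).2) (st (x 0).2) := by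
  refine ⟨fun i _ => (h _).1, by simp only [Nat.cast_zero], fun i _ => ?_, ?_⟩
  · simpa only [Nat.cast_succ] using (h i).2
  · have e : ((q - 1 : ℕ) : ZMod q) + 1 = 0 := by
      rw [← Nat.cast_succ, Nat.succ_eq_add_one,
        Nat.sub_add_cancel (Nat.one_le_iff_ne_zero.2 (NeZero.ne q)), ZMod.natCast_self]
    have := (h ((q - 1 : ℕ) : ZMod q)).2
    rwa [e] at this

theorem zy2b_from {γ : ℕ → Mo M} {e : M} (h : γ ∈ Tup (q - 1) δ (2 * δ) e e) :
    (∀ i : ZMod q, IsP (γ i.val) ∧ dist (en (γ i.val)) (st (γ (i + 1).val)) < 2 * δ) ∧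
      st (γ (0 : ZMod q).val) = e := by
  refine ⟨fun i => ?_, by rw [ZMod.val_zero]; exact h.2.1⟩
  have hi := ZMod.val_lt i
  have e1 : (i + 1).val = (i.val + 1) % q := by
    rw [← ZMod.val_natCast, Nat.cast_succ, ZMod.natCast_zmod_val]
  refine ⟨h.1 _ (by omega), ?_⟩
  rcases lt_or_ge (i.val + 1) q with h1 | h1
  · rw [e1, Nat.mod_eq_of_lt h1]
    exact h.2.2.1 _ (by omega)
  · have e2 : i.val + 1 = q := by omega
    have e3 : i.val = q - 1 := by omega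
    rw [e1, e2, Nat.mod_self, e3, h.2.1]
    exact h.2.2.2

theorem fm_Z (hδ : 0 < δ) (ha : 16 * δ ≤ S.a) (m : M) {β : ℝ} (hβ : (2 * q + 9) * δ ≤ β) :
    FM (Zs q δ) (Zt q δ) (xiZ M d q) (UpZ q δ p m) (UpZ q δ p m) (Om m m) (Pa m m)
      (fun x => S.wh m m (S.fill (q - 1) fun i => (x (i : ZMod q)).2)) (GZ S q) β := by
  have hq : ((q - 1 : ℕ) : ℝ) = q - 1 := by
    rw [Nat.cast_sub (Nat.one_le_iff_ne_zero.2 (NeZero.ne q)), Nat.cast_one]
  have hq0 : (0 : ℝ) ≤ q * δ := by positivity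
  have h2 : 2 * δ ≤ S.a := by linarith
  have cc : Continuous fun (x : ZMod q → Pos M d) (i : ℕ) => (x (i : ZMod q)).2 := by fun_prop
  have ce : Continuous fun x : ZMod q → Pos M d => st (x 0).2 := st_cont.comp (by fun_prop)
  have hT : ∀ x ∈ Zt q δ ∩ xiZ M d q ⁻¹' UpZ q δ p m,
      (fun i : ℕ => (x (i : ZMod q)).2) ∈ Tup (q - 1) δ (2 * δ) (st (x 0).2) (st (x 0).2) ∧
        dist (st (x 0).2) m < δ := fun x hx => ⟨zy2b_to (hx.1 hx.2.1), hx.2.2.2⟩
  have hF : ∀ x ∈ Zt q δ ∩ xiZ M d q ⁻¹' UpZ q δ p m,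
      S.fill (q - 1) (fun i : ℕ => (x (i : ZMod q)).2) ∈
        Pa (st (x 0).2) (en (x ((q - 1 : ℕ) : ZMod q)).2) ∧
      dist m (st (x 0).2) < δ ∧ dist (en (x ((q - 1 : ℕ) : ZMod q)).2) m < 3 * δ := fun x hx => by
    obtain ⟨t1, t2⟩ := hT x hx
    refine ⟨(S.fill_mem h2 t1).1, by rwa [dist_comm], ?_⟩
    have := dist_triangle (en (x ((q - 1 : ℕ) : ZMod q)).2) (st (x 0).2) m
    have h3 : dist (en (x ((q - 1 : ℕ) : ZMod q)).2) (st (x 0).2) < 2 * δ := t1.2.2.2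
    linarith
  have hW : ∀ b ∈ (UpZ q δ p m : Set ((ZMod q → Bs M d) × M)), ∀ ω ∈ Pa m m,
      cut (q - 1) (S.wh b.2 b.2 ω) ∈ Tup (q - 1) δ (2 * δ) b.2 b.2 ∧
        tot (q - 1) (cut (q - 1) (S.wh b.2 b.2 ω)) ≤ ω.2 + 2 * δ := fun b hb ω hω => by
    have d1 : dist b.2 m < δ := hb.2.2
    have d2 : dist m b.2 < δ := by rwa [dist_comm]
    obtain ⟨w1, w2⟩ := S.wh_mem (x' := b.2) (y' := b.2) hω (by linarith) (by linarith)
    obtain ⟨c1, c2⟩ := cut_mem (η := 2 * δ) w1 hδ (by linarith) (q - 1)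
    exact ⟨c1, by rw [c2, w2]; linarith⟩
  refine ⟨Zs_mono δ, fun t t' h => Om_mono m m h, fun t x hx => hx.1, Om_sub m m, UpZ_open δ p m,
    fun x hx => hx.2, ?_, fun x hx => ?_, fun t x hx => ?_, ?_, fun b hb ω hω => ?_,
    fun t z hz => ?_, fun t => ?_⟩
  · refine S.wh_cont continuousOn_const continuousOn_const
      (S.fill_cont h2 cc.continuousOn fun x hx => (hT x hx).1) fun x hx => ?_
    obtain ⟨f1, f2, f3⟩ := hF x hx
    rw [f1.2.1, f1.2.2]
    exact ⟨f1.1, by linarith, by linarith⟩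
  · obtain ⟨f1, f2, f3⟩ := hF x hx
    exact (S.wh_mem f1 (by linarith) (by linarith)).1
  · have hx' : x ∈ Zt q δ ∩ xiZ M d q ⁻¹' UpZ q δ p m := ⟨hx.1.1, hx.2⟩
    obtain ⟨f1, f2, f3⟩ := hF x hx'
    obtain ⟨w1, w2⟩ := S.wh_mem (x' := m) (y' := m) f1 (by linarith) (by linarith)
    refine ⟨w1, ?_⟩
    have f4 := (S.fill_mem h2 (hT x hx').1).2
    have f5 : ∑ i, (x i).2.2 < t := hx.1.2 hx.2.1
    rw [zy2b_tot, hq] at f4
    show (S.wh m m (S.fill (q - 1) fun i : ℕ => (x (i : ZMod q)).2)).2 < t + β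
    rw [w2]
    linarith
  · refine continuousOn_pi.2 fun i => ContinuousOn.prodMk (by fun_prop) ?_
    refine (cut_cont (q - 1) i.val).comp_continuousOn
      (S.wh_cont (by fun_prop) (by fun_prop) (by fun_prop) fun z hz => ?_)
    have d1 : dist z.1.2 m < δ := hz.1.2.2
    have d2 : dist m z.1.2 < δ := by rwa [dist_comm]
    have e1 : st z.2 = m := hz.2.2.1
    have e2 : en z.2 = m := hz.2.2.2
    rw [e1, e2]
    exact ⟨hz.2.1, by linarith, by linarith⟩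
  · exact Prod.ext rfl (zy2b_from (hW b hb ω hω).1).2
  · obtain ⟨w1, w2⟩ := hW z.1 hz.1 z.2 hz.2.1
    refine ⟨fun _ => (zy2b_from w1).1, fun _ => ?_⟩
    have f5 : z.2.2 < t := hz.2.2
    have := zy2b_sum (q := q) (cut (q - 1) (S.wh z.1.2 z.1.2 z.2))
    show ∑ i : ZMod q, (cut (q - 1) (S.wh z.1.2 z.1.2 z.2) i.val).2 < t + β
    rw [this]
    linarith
  · have h0 := S.tup_htp (n := q - 1) (η := 2 * δ) (r := δ) hδ h2 (by linarith)
      (A := Zs q δ t ∩ xiZ M d q ⁻¹' UpZ q δ p m) (x := fun x => st (x 0).2) m cc.continuousOn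
      ce.continuousOn fun x hx => by
        obtain ⟨t1, t2⟩ := hT x ⟨hx.1.1, hx.2⟩
        exact ⟨t1, t2, t2⟩
    have ck : Continuous fun (w : (ZMod q → Pos M d) × (ℕ → Mo M)) (i : ZMod q) =>
        (((w.1 i).1, w.2 i.val) : Pos M d) := by fun_prop
    refine (h0.post ck.continuousOn
      (R' := fun x x' => x' ∈ Zs q δ (t + 2 * β) ∧ xiZ M d q x' = xiZ M d q x)
      fun x hx γ hγ => ?_).congr (fun x hx => ?_) fun x hx => ?_
    · obtain ⟨g1, g2, -⟩ := hγ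
      refine ⟨⟨fun _ => (zy2b_from g1).1, fun _ => ?_⟩, Prod.ext rfl (zy2b_from g1).2⟩
      have f5 : ∑ i, (x i).2.2 < t := hx.1.2 hx.2.1
      rw [zy2b_tot, hq] at g2
      show ∑ i : ZMod q, (γ i.val).2 < t + 2 * β
      rw [zy2b_sum]
      linarith
    · funext i
      refine Prod.ext rfl ?_
      have hi : i.val ≤ q - 1 := Nat.le_sub_one_of_lt (ZMod.val_lt i)
      exact if_pos hi
    · funext i
      show ((x i).1, (x (i.val : ZMod q)).2) = x i
      rw [ZMod.natCast_zmod_val]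

theorem euc_UpZ (hδ : 0 < δ) {m : M} (hE : Euc d (ball p (2 * δ))) (hm : Euc d (ball m (2 * δ))) :
    Euc (q * (d + d) + d) (UpZ q δ p m : Set ((ZMod q → Bs M d) × M)) := by
  have h := ((((hE.prod (euc_univ d)).pi (ZMod q)).prod hm).inter (UpZ_open (q := q) δ p m))
  rw [ZMod.card, inter_eq_right.2] at h
  · exact h
  · intro z hz
    refine ⟨fun i _ => ⟨hz.2.1 i, mem_univ _⟩, ?_⟩
    have : dist z.2 m < δ := hz.2.2
    exact mem_ball.2 (by linarith)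

end Pool.Agent.Fu
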