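import Mathlib
import Pool.Agent.P.MP_365c00_gt.ZY2b

/-! Vanishing in high degrees for the cyclic tuples. -/

set_option linter.unusedSectionVars false
set_option linter.unusedVariables false

open Set Topology Filter Metric

namespace Pool.Agent.Fu

variable {F : Type} [Field F] {M : Type} [MetricSpace M] {d q n : ℕ} {S : GS M} {p0 p : M}
  {δ t : ℝ}

variable [CompactSpace M] {O : OR F (d + d) (Bs M d)} {x : M → Ch F (Mo M)}
  {C0 τ θ η A s : ℝ} {D J : ℕ}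

theorem zy7_loc [NeZero q] (h2 : (2 : F) ≠ 0) (hY : YH S δ O) (hP : PW F S C0 τ θ η A s D x)
    (hβ : (2 * q + 9) * δ ≤ η) (h0 : 0 ≤ η) {k : ℕ} {u : ℝ}
    (hk : (q * (d + d) + d : ℕ) + (u + η) / τ + A < k) :
    LocN F (Zs q δ) (xiZ M d q) (fun K => K ⊆ NrZC q (δ / 2) ×ˢ univ ∧ ∃ Q : Set (M × M),
      (∃ P P', (∀ x ∈ P, ∀ y ∈ P, dist x y < δ / 2) ∧ (∀ x ∈ P', ∀ y ∈ P', dist x y < δ / 2) ∧
        Q ⊆ P ×ˢ P') ∧ MapsTo (fun z => ((z.1 0).1, z.2)) K Q) (fun _ => ⊤) k u (u + 3 * η) := by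
  rintro K hK ⟨hC, Q, ⟨P, P', h1, h1', hQ⟩, hm⟩ z hz hd -
  rcases K.eq_empty_or_nonempty with he | ⟨c, hc⟩
  · exact zl1_empty (Zs_mono δ (by linarith)) he (mem_ZZ.1 hz).1
  have hδ := hY.pos
  have hs : K ⊆ UpZ q δ (c.1 0).1 c.2 := fun y hy => by
    have a1 := (hC hy).1
    have a2 := h1 _ (hQ (hm hy)).1 _ (hQ (hm hc)).1
    have a3 := h1' _ (hQ (hm hy)).2 _ (hQ (hm hc)).2
    refine ⟨⟨fun i => (a1.1 i).trans_lt (by linarith), fun i j => (a1.2 i j).trans_lt (by linarith)⟩,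
      fun i => (dist_triangle _ (y.1 0).1 _).trans_lt ?_, a3.trans (by linarith)⟩
    have a4 := a1.2 i 0
    linarith
  rw [show u + 3 * η = u + 2 * η + η by ring]
  refine (fm_Z hδ hY.le c.2 hβ).null h0 h2 ((euc_UpZ hδ (hY.euc _) (hY.euc _)).eh h2) hK
    (subset_inter hs hs) h0 hz hd (P := False) (fun h => h.elim)
    fun j w hw hj hle _ => hP.strip c.2 j (u + η) ?_ w hw hj
  have a5 : (k : ℝ) ≤ j + (q * (d + d) + d : ℕ) := by exact_mod_cast hle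
  linarith

theorem tail_van [NeZero q] (h2 : (2 : F) ≠ 0) (hY : YH S δ O) (hP : PW F S C0 τ θ η A s D x)
    (hJ : Cov (fun K : Set M => ∀ x ∈ K, ∀ y ∈ K, dist x y < δ / 2) J univ) (hτ : 0 < τ)
    (hβ : (2 * q + 9) * δ ≤ η) {η' : ℝ} (hη : η' = 3 * (J * J : ℕ) * η) {k : ℕ}
    (hk : (q * (d + d) + d : ℕ) + (t + η' + η) / τ + A < k) :
    Van bd (HD F (ZMod q → Pos M d)) k (CC F (Zs q δ t)) (CC F (Zs q δ t ∩ farZ q δ))
      (CC F (Zs q δ (t + η'))) (CC F (Zs q δ (t + η') ∩ farZ q δ)) := by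
  have h0 : 0 ≤ η := le_trans (mul_nonneg (by positivity) hY.pos.le) hβ
  have e : η' = (J * J : ℕ) * (3 * η) := by rw [hη]; ring
  have h1 : 0 ≤ η' := by rw [e]; positivity
  have key : ∀ u, u ≤ t + η' → (q * (d + d) + d : ℕ) + (u + η) / τ + A < k := fun u hu =>
    lt_of_le_of_lt (by gcongr) hk
  refine van_of_NN fun z hz hd => ?_
  rw [← off_CZ] at hz ⊢
  rw [e]
  refine gl_null (Mc := fun _ => ⊤) (Zs_mono δ) ?_ (by linarith)
    (zy7_loc h2 hY hP hβ h0 (key t (by linarith)))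
    (fun u _ hu => zy7_loc h2 hY hP hβ h0 ((key u (e ▸ hu)).trans (by simp)))
    ((hJ.prod hJ).pull ⟨fun z : (ZMod q → Bs M d) × M => ((z.1 0).1, z.2), by fun_prop⟩
      ((NrZC_compact _).prod isCompact_univ)) hz hd fun _ _ => trivial
  rintro K K' ⟨a1, Q, a2, a3⟩ h
  exact ⟨h.trans a1, Q, a2, a3.mono_left h⟩

end Pool.Agent.Fu
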