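import Mathlib
import Pool.Agent.P.MP_365c00_gt.ZW6
import Pool.Agent.P.MP_365c00_gt.ZY6
import Pool.Agent.P.MP_365c00_gt.ZY7
import Pool.Agent.P.MP_365c00_gt.ZD8

/-! The Smith type argument for fixed constants. -/

set_option linter.unusedSectionVars false
set_option linter.unusedVariables false

open Set Topology Filter Metric

namespace Pool.Agent.Fu

variable {F : Type} [Field F] {M : Type} [MetricSpace M] {d q n : ℕ} {S : GS M} {p0 p : M}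
  {δ t : ℝ}

theorem zd9_arith {τ η η' A c1 c3 t : ℝ} {q d D r i : ℕ} (hτ : 0 < τ) (h4 : c3 ≤ τ / 2)
    (h5 : η' ≤ τ / 2) (h7 : η ≤ η') (hr : 2 * (d + A + 2) + 2 * q * c1 / τ < r)
    (ht : t ≤ q * (D * τ) + q * c1 + c3 * (r + 1) + i * η') :
    (q * (d + d) + d : ℕ) + (t + η' + η) / τ + A < (q * (d + d + D) + r + i : ℕ) := by
  have hr0 : (0 : ℝ) ≤ r := Nat.cast_nonneg r
  have hi0 : (0 : ℝ) ≤ i := Nat.cast_nonneg i
  have a1 : c3 * (r + 1) ≤ τ / 2 * (r + 1) := mul_le_mul_of_nonneg_right h4 (by linarith)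
  have a2 : (i : ℝ) * η' ≤ i * (τ / 2) := mul_le_mul_of_nonneg_left h5 hi0
  have a3 : (t + η' + η) / τ ≤ q * D + q * c1 / τ + (r + 1) / 2 + i / 2 + 1 := by
    rw [div_le_iff₀ hτ]
    have e : (q * D + q * c1 / τ + (r + 1) / 2 + i / 2 + 1) * τ =
        q * (D * τ) + q * c1 + τ / 2 * (r + 1) + i * (τ / 2) + τ := by
      field_simp
    rw [e]
    linarith
  have e2 : 2 * q * c1 / τ = 2 * (q * c1 / τ) := by ring
  rw [e2] at hr
  push_cast
  linarith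

theorem core_aux [CompactSpace M] [Fact q.Prime] (hq : 3 ≤ q) {O : OR (ZMod q) (d + d) (Bs M d)}
    (hY : YH S δ O) {x : M → Ch (ZMod q) (Mo M)} {C0 τ θ η A s c1 c3 η' : ℝ} {D N r : ℕ}
    (hP : PW (ZMod q) S C0 τ θ η A s D x) (ι : C(M, Fin N → ℝ)) (hι : Function.Injective ι)
    (hC : 0 < C0) (hτ : 0 < τ) (hβ : (2 * q + 9) * δ ≤ s) (hβ' : (2 * q + 9) * δ ≤ η) (hs : s ≤ θ)
    (hc1 : c1 = (5 + 14 * ((2 ^ N : ℕ) + 1)) * s) (hc3 : c3 = c1 + 14 * (2 ^ N : ℕ) * θ)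
    (hη : η' = 3 * (2 ^ N * 2 ^ N : ℕ) * η) (h1 : 2 * c1 + 14 * (2 ^ N : ℕ) * θ + θ ≤ S.a / 8)
    (h3 : C0 * (3 * c1 + 28 * (2 ^ N : ℕ) * θ + 2 * θ) < 1) (h4 : c3 ≤ τ / 2) (h5 : η' ≤ τ / 2)
    (h6 : η' ≤ s) (hr : 2 * (d + A + 2) + 2 * q * c1 / τ < r)
    (hfin : c1 + c3 * r + ((N + (d + d)) * q : ℕ) * η' + 4 * δ * q ≤ q * s) : False := by
  have : NeZero q := ⟨by omega⟩
  have h2 : (2 : ZMod q) ≠ 0 := fun h => by
    have h' : ((2 : ℕ) : ZMod q) = 0 := by exact_mod_cast h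
    have := Nat.le_of_dvd two_pos ((ZMod.natCast_eq_zero_iff 2 q).1 h')
    omega
  have hδ := hY.pos
  have hq' : (3 : ℝ) ≤ q := by exact_mod_cast hq
  have hJ1 : (1 : ℝ) ≤ ((2 ^ N : ℕ) : ℝ) := by exact_mod_cast Nat.one_le_two_pow
  have hJ2 : (1 : ℝ) ≤ ((2 ^ N * 2 ^ N : ℕ) : ℝ) := by
    exact_mod_cast Nat.mul_pos Nat.one_le_two_pow Nat.one_le_two_pow
  have h9 : 9 * δ ≤ s := by nlinarith
  have hs0 : 0 < s := by linarith
  have hη0 : 0 < η := by nlinarith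
  have hηη : η ≤ η' := by rw [hη]; nlinarith
  have hsc : s ≤ c1 := by rw [hc1]; nlinarith
  have hJθ : 0 ≤ 14 * ((2 ^ N : ℕ) : ℝ) * θ := by
    have : 0 ≤ θ := by linarith
    positivity
  have hcc : c1 ≤ c3 := by rw [hc3]; linarith
  obtain ⟨p, hp⟩ := hP.det
  obtain ⟨w, hw, hwd, hwx⟩ := hP.low p 0
  have e1 : (((0 : ℕ) : ℝ) + 1) * (D * τ) + 4 * s = D * τ + 4 * s := by push_cast; ring
  rw [e1] at hw
  rw [zero_add, one_mul] at hwd
  have hwx' : w - x p ∈ BB (ZMod q) (Pa p p) := hwx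
  have hn : w ∉ NN (ZMod q) (Pa p p) (Om p p (D * τ + s)) := fun h => hp (by
    have := Submodule.sub_mem _ h (BB_le_NN _ (Om p p (D * τ + s)) hwx')
    rwa [sub_sub_cancel] at this)
  have hJ := exists_cov ι hι (half_pos hδ)
  have hW := ws_inst (p0 := p) (q := q) h2 hY hP hJ hC hβ hs hc1 hc3 h1 h3
  obtain ⟨z, z1, z2, z3, z4⟩ := exists_z0 (p0 := p) h2 hY hP hJ h9 hc1 (by linarith) hw hwd hwx'
  obtain ⟨g1, l, k, g2, g3, g4, g5⟩ := exists_seq hW z1 z2 z3 (Zs_mono δ)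
    (fun b t => cyc_Ys b t) (fun b => cyc_far b) r le_rfl le_rfl
  have hzd : map (ev0 (Pos M d)) z ∈ HD (ZMod q) _ (d + d + D) := map_mem_HD _ z2
  have hgd := cpr_HD (q := q) (b := fun _ => map (ev0 (Pos M d)) z) fun _ _ => hzd
  have hfix := cpr_fix (q := q) hzd hW.even
  have key := GC.tail (G := gcy (ZMod q) (Pos M d) q) (H := HD (ZMod q) _) (gc_gr _)
    (A := fun t => CC (ZMod q) (Zs q δ t)) (B := fun t => CC (ZMod q) (Zs q δ t ∩ farZ q δ))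
    (fun _ _ h => CC_mono (Zs_mono δ h))
    (fun _ _ h => CC_mono (inter_subset_inter_left _ (Zs_mono δ h)))
    (fun t => gc_st _ (Zs_inv δ t)) (fun t => gc_st _ ((Zs_inv δ t).inter_inter (farZ_inv δ)))
    (D := q * (d + d + D)) (r := r) (R := r + (N + (d + d)) * q) (Nat.le_add_right _ _)
    (η := η') (by linarith) (by nlinarith) (GC.seq_sq g1.1 g1.2 hfix 0 _)
    (fun j _ => by
      unfold sq
      split_ifs with hj
      · subst hj
        exact hgd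
      · exact zero_mem _) g2 g3 g4 g5
    (fun i t _ ht => tail_van h2 hY hP hJ hτ hβ' hη (zd9_arith hτ h4 h5 hηη hr ht))
  rw [Nat.add_sub_cancel_left] at key
  refine det_main h2 hδ hY.le (hY.euc p) ι hι (O.gen (p, 0)) (hY.sm _) hP.even
    (ZZ_mono (Om_sub _ _ _) Subset.rfl hw) hwd hn z4
    (lo := q * (D * τ) + c1 + c3 * r + ((N + (d + d)) * q : ℕ) * η') (by linarith)
    (Nat.le_add_left _ r) (key.mono (CC_mono fun _ h => h.1) (sup_le ?_ ?_) le_rfl)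
  · exact CC_mono fun _ h => Or.inl ⟨h.1.1, h.2⟩
  · exact CC_mono subset_union_right

end Pool.Agent.Fu
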