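import Mathlib
import Pool.Agent.P.MP_365c00_gt.ZD9

/-! The Smith type argument. -/

set_option linter.unusedSectionVars false
set_option linter.unusedVariables false

open Set Topology Filter Metric

namespace Pool.Agent.Fu

variable {F : Type} [Field F] {M : Type} [MetricSpace M] {Z : Type} [TopologicalSpace Z]

theorem zcore_fin {K1 K3 θ s τ w q B κ η' δ c1 c3 r : ℝ} (hK1 : 0 < K1) (hK3 : 0 < K3)
    (hτ : 0 < τ) (hw : 0 < w) (hws : w ≤ s) (hs : s ≤ θ) (hq : 0 ≤ q) (hB : 0 ≤ B) (hκ : 0 ≤ κ)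
    (hc1 : c1 = K1 * s) (hc3 : c3 ≤ K3 * θ) (hc30 : 0 ≤ c3) (hr : r ≤ B + 2 * q * c1 / τ)
    (h1 : K1 * θ + K3 * θ * B ≤ q * w / 4) (h2 : θ * (8 * K1 * K3) ≤ τ)
    (h3 : η' * (4 * (κ + 1)) ≤ w) (h30 : 0 ≤ η') (h4 : δ ≤ s / 16) :
    c1 + c3 * r + κ * q * η' + 4 * δ * q ≤ q * s := by
  have hs0 : 0 < s := by linarith
  have hqs : 0 ≤ q * s := by positivity
  have a0 : q * w ≤ q * s := mul_le_mul_of_nonneg_left hws hq
  have a1 : c3 * r ≤ c3 * B + c3 * (2 * q * c1 / τ) := by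
    rw [← mul_add]; exact mul_le_mul_of_nonneg_left hr hc30
  have a2 : c3 * B ≤ K3 * θ * B := mul_le_mul_of_nonneg_right hc3 hB
  have a3 : c1 ≤ K1 * θ := by rw [hc1]; exact mul_le_mul_of_nonneg_left hs hK1.le
  have a4 : c3 * (2 * q * c1 / τ) ≤ q * s / 4 := by
    have b1 : 0 ≤ 2 * q * c1 / τ := by rw [hc1]; positivity
    refine (mul_le_mul_of_nonneg_right hc3 b1).trans ?_
    rw [hc1, ← mul_div_assoc, div_le_iff₀ hτ]
    have b2 := mul_le_mul_of_nonneg_left h2 hqs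
    linarith
  have a5 : κ * q * η' ≤ q * s / 4 := by
    have b1 : κ * η' ≤ w / 4 := by linarith
    have b2 := mul_le_mul_of_nonneg_left b1 hq
    linarith
  have a6 : 4 * δ * q ≤ q * s / 4 := by
    have b2 := mul_le_mul_of_nonneg_left h4 hq
    linarith
  linarith

theorem core [CompactSpace M] (S : GS M) {d N : ℕ}
    (hE : ∀ p : M, ∃ U : Set M, IsOpen U ∧ p ∈ U ∧ Euc d U) (ι : C(M, Fin N → ℝ))
    (hι : Function.Injective ι) {C0 τ : ℝ} (hC : 0 < C0) (hτ : 0 < τ) :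
    ∃ θ0 > 0, ∀ θ, 0 < θ → θ ≤ θ0 → ∀ w > 0, ∃ η > 0, ∀ A : ℝ, ∃ Q : ℕ, ∀ (q : ℕ) [Fact q.Prime],
      Q ≤ q → OR (ZMod q) d M → ∀ (n : ℕ) (s : ℝ) (x : M → Ch (ZMod q) (Mo M)), w ≤ s → s ≤ θ →
      PW (ZMod q) S C0 τ θ η A s n x → False := by
  have ha := S.a_pos
  obtain ⟨J, hJ⟩ : ∃ J : ℝ, J = ((2 ^ N : ℕ) : ℝ) := ⟨_, rfl⟩
  have hJ0 : 0 < J := by rw [hJ]; positivity
  obtain ⟨K1, hK1⟩ : ∃ K1 : ℝ, K1 = 5 + 14 * (J + 1) := ⟨_, rfl⟩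
  have hK10 : 0 < K1 := by rw [hK1]; positivity
  obtain ⟨K3, hK3⟩ : ∃ K3 : ℝ, K3 = K1 + 14 * J := ⟨_, rfl⟩
  have hK30 : 0 < K3 := by rw [hK3]; positivity
  obtain ⟨κ, hκ⟩ : ∃ κ : ℝ, κ = ((N + (d + d) : ℕ) : ℝ) := ⟨_, rfl⟩
  have hκ0 : 0 ≤ κ := by rw [hκ]; positivity
  refine ⟨min (min (S.a / (8 * (2 * K1 + 14 * J + 1))) (1 / (2 * C0 * (3 * K1 + 28 * J + 2))))
    (min (τ / (2 * K3)) (τ / (8 * K1 * K3))), by positivity, fun θ hθ hθ0 w hw => ?_⟩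
  simp only [le_min_iff] at hθ0
  obtain ⟨⟨t1, t2⟩, t3, t4⟩ := hθ0
  rw [le_div_iff₀ (by positivity)] at t1 t2 t3 t4
  obtain ⟨η', hη'⟩ : ∃ η' : ℝ, η' = min (τ / 2) (w / (4 * (κ + 1))) := ⟨_, rfl⟩
  have hη0 : 0 < η' := by rw [hη']; positivity
  have e1 : η' ≤ τ / 2 := by rw [hη']; exact min_le_left _ _
  have e2 : η' * (4 * (κ + 1)) ≤ w := by
    rw [← le_div_iff₀ (by positivity), hη']; exact min_le_right _ _
  obtain ⟨η, hη⟩ : ∃ η : ℝ, η = η' / (3 * (J * J)) := ⟨_, rfl⟩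
  have hη1 : 0 < η := by rw [hη]; positivity
  refine ⟨η, hη1, fun A => ?_⟩
  obtain ⟨B, hB⟩ : ∃ B : ℝ, B = 2 * (d + |A| + 2) + 1 := ⟨_, rfl⟩
  have hB0 : 0 ≤ B := by rw [hB]; positivity
  obtain ⟨Q, hQ⟩ := exists_nat_ge ((K1 * θ + K3 * θ * B) * 4 / w)
  refine ⟨max 3 Q, fun q _ hq O n s x hws hs hP => ?_⟩
  have hq3 : 3 ≤ q := (le_max_left _ _).trans hq
  have hqQ : (Q : ℝ) ≤ q := by exact_mod_cast (le_max_right _ _).trans hq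
  have hq0 : (0 : ℝ) ≤ q := Nat.cast_nonneg q
  have hs0 : 0 < s := by linarith
  have h2 : (2 : ZMod q) ≠ 0 := fun h => by
    have := Nat.le_of_dvd two_pos ((ZMod.natCast_eq_zero_iff 2 q).1 (by exact_mod_cast h))
    omega
  obtain ⟨δ0, hδ0, hY⟩ := exists_YH h2 S hE O
  obtain ⟨δ, hδ⟩ : ∃ δ : ℝ, δ = min (min δ0 (s / 16)) (min (s / (2 * q + 9)) (η / (2 * q + 9))) :=
    ⟨_, rfl⟩
  have hδ1 : 0 < δ := by rw [hδ]; positivity
  have hδ2 := hδ.le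
  simp only [le_min_iff] at hδ2
  obtain ⟨⟨d1, d2⟩, d3, d4⟩ := hδ2
  rw [le_div_iff₀ (by positivity)] at d3 d4
  obtain ⟨O', hO'⟩ := hY δ hδ1 d1
  obtain ⟨c1, hc1⟩ : ∃ c1 : ℝ, c1 = K1 * s := ⟨_, rfl⟩
  have hc10 : 0 < c1 := by rw [hc1]; positivity
  have hc11 : c1 ≤ K1 * θ := by rw [hc1]; exact mul_le_mul_of_nonneg_left hs hK10.le
  have hc3 : c1 + 14 * J * θ ≤ K3 * θ := by rw [hK3]; linarith
  have hu : 0 ≤ 2 * q * c1 / τ := by positivity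
  refine core_aux (c1 := c1) (c3 := c1 + 14 * J * θ) (η' := η')
    (r := ⌊max 0 (2 * (d + A + 2) + 2 * q * c1 / τ)⌋₊ + 1) hq3 hO' hP ι hι hC hτ (by linarith)
    (by linarith) hs (by rw [hc1, hK1, hJ]) (by rw [hJ]) ?_ ?_ ?_ (by linarith) e1 ?_ ?_ ?_
  · rw [Nat.cast_mul, ← hJ, hη]
    field_simp
  · rw [← hJ]
    linarith
  · rw [← hJ]
    have : C0 * (3 * c1 + 28 * J * θ + 2 * θ) ≤ C0 * (3 * (K1 * θ) + 28 * J * θ + 2 * θ) :=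
      mul_le_mul_of_nonneg_left (by linarith) hC.le
    linarith
  · nlinarith [mul_nonneg hη0.le hκ0]
  · push_cast
    exact (le_max_right _ _).trans_lt (Nat.lt_floor_add_one _)
  · rw [Nat.cast_mul, ← hκ]
    refine zcore_fin (B := B) hK10 hK30 hτ hw hws hs hq0 hB0 hκ0 hc1 hc3 (by positivity) ?_ ?_ t4
      e2 hη0.le d2
    · have b1 := Nat.floor_le (le_max_left 0 (2 * (d + A + 2) + 2 * q * c1 / τ))
      have b2 : max 0 (2 * (d + A + 2) + 2 * q * c1 / τ) ≤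
          2 * (d + |A| + 2) + 2 * q * c1 / τ :=
        max_le (by positivity) (by linarith [le_abs_self A])
      push_cast
      linarith
    · rw [div_le_iff₀ hw] at hQ
      have := mul_le_mul_of_nonneg_right hqQ hw.le
      linarith

end Pool.Agent.Fu
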