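import Mathlib
import Pool.Agent.P.MP_365c00_gt.ZM0

/-! The truncated Riemannian distance. -/

set_option linter.unusedSectionVars false
set_option linter.unusedVariables false

open Set Filter Topology Metric Function MeasureTheory
open scoped Manifold ContDiff
open Pool.Agent.GeoN

namespace Pool.Agent.Fu

variable {E : Type} [NormedAddCommGroup E] [InnerProductSpace ℝ E] [FiniteDimensional ℝ E]
  {M : Type} [TopologicalSpace M] [ChartedSpace E M] [IsManifold 𝓘(ℝ, E) ∞ M]
  [T2Space M] [CompactSpace M] [Nonempty M] [Nontrivial E] {g : Met E M}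

theorem zm1_symm (sh : Short g) {x y : M} (h : (x, y) ∈ sh.D) :
    (y, x) ∈ sh.D ∧ sh.S (y, x) = sh.S (x, y) := by
  have hg := sh.geo _ h
  have he : energy g (fun s => sh.σ (x, y) (-1 * s + 1)) 0 = sh.S (x, y) := by
    rw [energy_affine hg, energy_const hg _ 0]
    simp [Short.S]
  have h1 := sh.uniq _ (hg.affine (-1) 1) (by rw [he]; exact sh.lt _ h)
  have e0 : sh.σ (x, y) (-1 * 0 + 1) = y := by
    rw [mul_zero, zero_add]; exact sh.one _ h
  have e1 : sh.σ (x, y) (-1 * 1 + 1) = x := by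
    rw [mul_one, neg_add_cancel]; exact sh.zero _ h
  simp only [e0, e1] at h1
  refine ⟨h1.1, ?_⟩
  rw [← he, ← h1.2]
  rfl

theorem zm1_pos (sh : Short g) {x y : M} (h : (x, y) ∈ sh.D) (hne : x ≠ y) : 0 < sh.S (x, y) :=
  energy_pos (sh.geo _ h) (s := 1) (by rw [sh.one _ h, sh.zero _ h]; exact hne.symm)

theorem zm1_cs {p : M} {V W : E} {r L δ : ℝ} (hr : 0 < r) (hL : 0 ≤ L) (hδ : 0 < δ)
    (hV : G g p (κ E p p) V V = r ^ 2) (hW : G g p (κ E p p) W W = L ^ 2) :
    G g p (κ E p p) V W < r * (L + δ) := by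
  have h0 : 0 ≤ G g p (κ E p p) ((L + δ) • V - r • W) ((L + δ) • V - r • W) := by
    by_cases h : (L + δ) • V - r • W = 0
    · rw [h]; simp
    · exact (G_pos g p (mem_extChartAt_target p) h).le
  simp only [map_sub, map_smul, sub_apply, smul_apply,
    smul_eq_mul] at h0
  rw [hV, hW, G_symm g p _ W V] at h0
  by_contra hn
  have h1 : r * (L + δ) * (r * (L + δ)) ≤ r * (L + δ) * G g p (κ E p p) V W :=
    mul_le_mul_of_nonneg_left (not_lt.1 hn) (by positivity)
  have h2 : 0 < r ^ 2 * (δ * (2 * L + δ)) := by positivity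
  nlinarith

theorem zm1_der (sh : Short g) {x : M} {c : ℝ → M} (hc : IsGeodesic g c) {t : ℝ}
    (h : (x, c t) ∈ sh.D) : ∃ V W : E, G g (c t) (κ E (c t) (c t)) V V = sh.S (x, c t) ∧
      G g (c t) (κ E (c t) (c t)) W W = energy g c 0 ∧
      HasDerivAt (fun s => sh.S (x, c s)) (2 * G g (c t) (κ E (c t) (c t)) V W) t := by
  obtain ⟨-, a2, a3⟩ := bm_pair sh h
  have hg := sh.geo _ h
  have hct := (isGeodesic_iff g c).1 hc t
  have hs : c t ∈ (κ E (c t)).source := mem_extChartAt_source _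
  refine ⟨vel E (c t) (sh.σ (x, c t)) 1, vel E (c t) c t, ?_, ?_, ?_⟩
  · have h1 := energy_eq ((isGeodesic_iff g _).1 hg 1) (x := c t) (by rw [sh.one _ h]; exact hs)
    rw [sh.one _ h, energy_const hg 1 0] at h1
    exact h1.symm
  · rw [← energy_eq hct hs, energy_const hc t 0]
  · have h1 : HasDerivAt (fun s => (κ E x x, κ E (c t) (c s))) ((0 : E), vel E (c t) c t) t :=
      (hasDerivAt_const t _).prodMk (hct.hasDerivAt hs)
    have h2 := (a2.differentiableAt (by simp)).hasFDerivAt.comp_hasDerivAt t h1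
    rw [a3] at h2
    simp only [map_zero, mul_zero, sub_zero] at h2
    refine h2.congr_of_eventuallyEq ?_
    filter_upwards [hc.cont.continuousAt.preimage_mem_nhds ((source_open (c t)).mem_nhds hs)]
      with s hs'
    simp only [Function.comp_apply, extChartAt_to_inv, (κ E (c t)).left_inv hs']

theorem zm1_tri (sh : Short g) {x y z : M} (h1 : (x, y) ∈ sh.D) (h2 : (y, z) ∈ sh.D)
    {r L δ : ℝ} (hr : 0 ≤ r) (hL : 0 ≤ L) (hδ : 0 < δ) (e1 : sh.S (x, y) = r ^ 2)
    (e2 : sh.S (y, z) = L ^ 2) (hc : (r + δ + (L + δ)) ^ 2 < sh.ε) :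
    (x, z) ∈ sh.D ∧ sh.S (x, z) ≤ (r + δ + (L + δ)) ^ 2 := by
  have hg := sh.geo _ h2
  set c := sh.σ (y, z) with hcd
  have hcx : Continuous fun t => (x, c t) := continuous_const.prodMk hg.cont
  let B : ℝ → ℝ := fun t => (r + δ + (L + δ) * t) ^ 2
  have hBc : Continuous B := by fun_prop
  have key : Icc (0 : ℝ) 1 ⊆ {t | (x, c t) ∈ sh.D ∧ sh.S (x, c t) ≤ B t} := by
    refine IsClosed.Icc_subset_of_forall_mem_nhdsWithin ?_ ?_ ?_
    · have hK := ((sh.compact_le hc).isClosed.preimage hcx).inter (isClosed_Icc (a := 0) (b := 1))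
      have h3 := hK.isClosed_le (f := fun t => sh.S (x, c t)) (g := B)
        (sh.S_cont.comp hcx.continuousOn fun t ht => ht.1.1) hBc.continuousOn
      have e : {t | (x, c t) ∈ sh.D ∧ sh.S (x, c t) ≤ B t} ∩ Icc (0 : ℝ) 1 =
          {t ∈ (fun t => (x, c t)) ⁻¹' {w | w ∈ sh.D ∧ sh.S w ≤ (r + δ + (L + δ)) ^ 2} ∩
            Icc (0 : ℝ) 1 | sh.S (x, c t) ≤ B t} := by
        ext t
        refine ⟨fun h => ⟨⟨⟨h.1.1, h.1.2.trans ?_⟩, h.2⟩, h.1.2⟩, fun h => ⟨⟨h.1.1.1, h.2⟩, h.1.2⟩⟩
        have h4 : (L + δ) * t ≤ (L + δ) * 1 := mul_le_mul_of_nonneg_left h.2.2 (by positivity)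
        have h5 : 0 ≤ (L + δ) * t := mul_nonneg (by positivity) h.2.1
        exact pow_le_pow_left₀ (by positivity) (by linarith) 2
      rw [e]
      exact h3
    · have e : c 0 = y := sh.zero _ h2
      refine ⟨by rw [e]; exact h1, ?_⟩
      rw [e, e1]
      exact pow_le_pow_left₀ hr (by rw [mul_zero]; linarith) 2
    · rintro t ⟨⟨ht1, ht2⟩, ht3⟩
      obtain ⟨V, W, hV, hW, hd⟩ := zm1_der sh hg ht1
      have hD : ∀ᶠ s in 𝓝[>] t, (x, c s) ∈ sh.D :=
        nhdsWithin_le_nhds (hcx.continuousAt.preimage_mem_nhds (sh.D_open.mem_nhds ht1))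
      have hle : ∀ᶠ s in 𝓝[>] t, sh.S (x, c s) ≤ B s := by
        rcases ht2.lt_or_eq with hlt | heq
        · exact nhdsWithin_le_nhds
            ((hd.continuousAt.eventually_lt hBc.continuousAt hlt).mono fun s hs => hs.le)
        · have h5 : 0 ≤ (L + δ) * t := mul_nonneg (by positivity) ht3.1
          have hρ : 0 < r + δ + (L + δ) * t := by positivity
          have hcs := zm1_cs hρ hL hδ (hV.trans heq) (hW.trans e2)
          have hB : HasDerivAt B (2 * ((r + δ + (L + δ) * t) * (L + δ))) t := by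
            have h6 := (((hasDerivAt_id t).const_mul (L + δ)).const_add (r + δ)).fun_pow 2
            refine h6.congr_deriv ?_
            simp only [id]
            norm_num
            ring
          have h7 := (hasDerivAt_iff_tendsto_slope.1 (hB.sub hd)).mono_left (nhdsGT_le_nhdsNE t)
          filter_upwards [h7.eventually (lt_mem_nhds (by linarith : (0 : ℝ) < _)),
            self_mem_nhdsWithin] with s hs hst
          rw [slope_def_field, Pi.sub_apply, Pi.sub_apply, heq, sub_self, sub_zero] at hs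
          have h8 := (div_pos_iff_of_pos_right (sub_pos.2 hst)).1 hs
          linarith
      exact hD.and hle
  have h9 := key (right_mem_Icc.2 zero_le_one)
  have e : c 1 = z := sh.one _ h2
  simp only [mem_ofPred_eq, e, B, mul_one] at h9
  exact h9

theorem exists_dist (sh : Short g) : ∃ (d : M → M → ℝ) (a : ℝ), (∀ x, d x x = 0) ∧
    (∀ x y, d x y = d y x) ∧ (∀ x y z, d x z ≤ d x y + d y z) ∧
    (∀ s : Set M, IsOpen s ↔ ∀ x ∈ s, ∃ ε > 0, ∀ y, d x y < ε → y ∈ s) ∧
    (∀ x y, d x y = 0 → x = y) ∧ SMd sh d a := by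
  classical
  obtain ⟨a, ha, haε⟩ : ∃ a : ℝ, 0 < a ∧ 16 * a ^ 2 = sh.ε :=
    ⟨√sh.ε / 4, by have := Real.sqrt_pos.2 sh.ε_pos; positivity, by
      rw [div_pow, Real.sq_sqrt sh.ε_pos.le]; ring⟩
  have ha2 : 0 < a ^ 2 := by positivity
  let d : M → M → ℝ := fun x y => if (x, y) ∈ sh.D then min a √(sh.S (x, y)) else a
  have d_in : ∀ x y, (x, y) ∈ sh.D → d x y = min a √(sh.S (x, y)) := fun x y h => if_pos h
  have d_out : ∀ x y, (x, y) ∉ sh.D → d x y = a := fun x y h => if_neg h
  have d_le : ∀ x y, d x y ≤ a := fun x y => by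
    by_cases h : (x, y) ∈ sh.D
    · rw [d_in x y h]; exact min_le_left _ _
    · rw [d_out x y h]
  have d_nn : ∀ x y, 0 ≤ d x y := fun x y => by
    by_cases h : (x, y) ∈ sh.D
    · rw [d_in x y h]; exact le_min ha.le (Real.sqrt_nonneg _)
    · rw [d_out x y h]; exact ha.le
  have d_mem : ∀ x y, d x y < a → (x, y) ∈ sh.D ∧ sh.S (x, y) = d x y ^ 2 := fun x y h => by
    have hD : (x, y) ∈ sh.D := by
      by_contra hn
      exact h.ne (d_out x y hn)
    refine ⟨hD, ?_⟩
    rw [d_in x y hD] at h ⊢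
    rw [min_eq_right ((min_lt_iff.1 h).resolve_left (lt_irrefl a)).le,
      Real.sq_sqrt (sh.S_nonneg _)]
  have d_lt : ∀ x y (r : ℝ), 0 < r → (x, y) ∈ sh.D → sh.S (x, y) < r ^ 2 → d x y < r :=
    fun x y r hr h hS => by
      rw [d_in x y h]
      exact (min_le_right _ _).trans_lt ((Real.sqrt_lt' hr).2 hS)
  refine ⟨d, a, fun x => ?_, fun x y => ?_, fun x y z => ?_, fun s => ⟨fun hs x hx => ?_,
    fun h => ?_⟩, fun x y h => ?_, ha, by linarith, d_mem, fun z hz hS => d_lt _ _ a ha hz hS⟩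
  · rw [d_in x x (sh.diag x), sh.S_diag, Real.sqrt_zero, min_eq_right ha.le]
  · by_cases h : (x, y) ∈ sh.D
    · rw [d_in x y h, d_in y x (zm1_symm sh h).1, (zm1_symm sh h).2]
    · rw [d_out x y h, d_out y x fun h' => h (zm1_symm sh h').1]
  · rcases (d_le x y).lt_or_eq with h1 | h1
    · rcases (d_le y z).lt_or_eq with h2 | h2
      · refine le_of_forall_pos_le_add fun η hη => ?_
        have hδ : 0 < min (η / 2) (a / 2) := lt_min (by linarith) (by linarith)
        have hδ1 := min_le_left (η / 2) (a / 2)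
        have hδ2 := min_le_right (η / 2) (a / 2)
        have n1 := d_nn x y
        have n2 := d_nn y z
        obtain ⟨hD, hS⟩ := zm1_tri sh (d_mem x y h1).1 (d_mem y z h2).1 n1 n2 hδ
          (d_mem x y h1).2 (d_mem y z h2).2 (by
            have h3 : (d x y + min (η / 2) (a / 2) + (d y z + min (η / 2) (a / 2))) ^ 2 ≤
                (3 * a) ^ 2 := pow_le_pow_left₀ (by positivity) (by linarith) 2
            nlinarith)
        rw [d_in x z hD]
        refine (min_le_right _ _).trans ((Real.sqrt_le_iff.2 ⟨by positivity, hS⟩).trans ?_)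
        linarith
      · linarith [d_le x z, d_nn x y]
    · linarith [d_le x z, d_nn y z]
  · have hcx : Continuous fun y : M => (x, y) := continuous_const.prodMk continuous_id
    have hK : IsCompact ((fun y : M => (x, y)) ⁻¹' {w | w ∈ sh.D ∧ sh.S w ≤ a ^ 2} ∩ sᶜ) :=
      (((sh.compact_le (by linarith)).isClosed.preimage hcx).inter hs.isClosed_compl).isCompact
    obtain ⟨b, hb, hbK⟩ := hK.exists_forall_le' (f := fun y => sh.S (x, y)) (a := 0)
      (sh.S_cont.comp hcx.continuousOn fun y hy => hy.1.1)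
      fun y hy => zm1_pos sh hy.1.1 fun e => hy.2 (e ▸ hx)
    refine ⟨min a √b, lt_min ha (Real.sqrt_pos.2 hb), fun y hy => ?_⟩
    by_contra hys
    obtain ⟨h1, h2⟩ := lt_min_iff.1 hy
    obtain ⟨hD, hS⟩ := d_mem x y h1
    have h3 : sh.S (x, y) ≤ a ^ 2 := by
      rw [hS]
      exact pow_le_pow_left₀ (d_nn x y) h1.le 2
    have h4 : b ≤ sh.S (x, y) := hbK y ⟨⟨hD, h3⟩, hys⟩
    have h5 := (Real.lt_sqrt (d_nn x y)).1 h2
    linarith
  · refine isOpen_iff_mem_nhds.2 fun x hx => ?_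
    obtain ⟨r, hr, hrs⟩ := h x hx
    have hcx : Continuous fun y : M => (x, y) := continuous_const.prodMk continuous_id
    have hD := sh.D_open.mem_nhds (sh.diag x)
    have hS : ContinuousAt (fun y => sh.S (x, y)) x :=
      ContinuousAt.comp (f := fun y : M => (x, y)) (sh.S_cont.continuousAt hD) hcx.continuousAt
    filter_upwards [hcx.continuousAt.preimage_mem_nhds hD,
      hS.eventually_lt (continuousAt_const (y := r ^ 2)) (by rw [sh.S_diag]; positivity)]
      with y h1 h2 using hrs y (d_lt x y r hr h1 h2)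
  · obtain ⟨hD, hS⟩ := d_mem x y (by rw [h]; exact ha)
    by_contra hne
    have := zm1_pos sh hD hne
    rw [hS, h] at this
    simp at this

end Pool.Agent.Fu
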