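import Mathlib
import Pool.Agent.P.MP_365c00_gt.ZM0
import Pool.Agent.P.MP_365c00_gt.ZE3
import Pool.Agent.P.MP_365c00_gt.ZE4

/-! Charts, embedding and orientation of a closed manifold. -/

set_option linter.unusedSectionVars false
set_option linter.unusedVariables false

open Set Filter Topology Metric Function MeasureTheory
open scoped Manifold ContDiff
open Pool.Agent.GeoN

namespace Pool.Agent.Fu

section
variable {W : Type} [NormedAddCommGroup W] [NormedSpace ℝ W] [FiniteDimensional ℝ W]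
  {M : Type} [TopologicalSpace M] [T2Space M] {F : Type} [Field F]

theorem zo_map (e : OpenPartialHomeomorph M W) {p : M} (hp : p ∈ e.source) {B : Set W}
    (hB : B ⊆ e.target) (hB' : e p ∉ B) : MapsTo e.symm B (univ \ {p}) := by
  intro y hy
  refine ⟨mem_univ _, fun h => hB' ?_⟩
  have h1 : e.symm y = p := h
  rw [← h1, e.right_inv (hB hy)]
  exact hy

theorem zo_cmp {d : ℕ} {o0 : Ch F W} (h0 : Gen F d univ 0 o0) (e e' : OpenPartialHomeomorph M W)
    {p : M} (hp : p ∈ e.source) (hp' : p ∈ e'.source) {A : W →L[ℝ] W} (hA : 0 < A.det)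
    (hφ : HasFDerivAt (e' ∘ e.symm) A (e p)) {z q : Ch F W}
    (hz : z ∈ ZZ F e.target (e.target \ {e p}))
    (hz' : z - map (tr (e p)) o0 ∈ NN F univ (univ \ {e p}))
    (hq : q ∈ ZZ F (univ ∩ e'.target) (univ \ {e' p}))
    (hq' : map (tr (e' p)) o0 - q ∈ NN F univ (univ \ {e' p})) :
    mp e.symm z - mp e'.symm q ∈ NN F univ (univ \ {p}) := by
  have hc : e p ∈ e.target := e.map_source hp
  have hc' : e' p ∈ e'.target := e'.map_source hp'
  have hUo : IsOpen (e.target ∩ e.symm ⁻¹' e'.source) :=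
    e.symm.continuousOn.isOpen_inter_preimage e.open_target e'.open_source
  have hcU : e p ∈ e.target ∩ e.symm ⁻¹' e'.source :=
    ⟨hc, by rw [mem_preimage, e.left_inv hp]; exact hp'⟩
  have hcont : ContinuousOn (e' ∘ e.symm) (e.target ∩ e.symm ⁻¹' e'.source) :=
    e'.continuousOn.comp (e.symm.continuousOn.mono inter_subset_left) fun y hy => hy.2
  obtain ⟨V, hV, hVU, hdeg⟩ := deg_loc h0 hA hφ (hUo.mem_nhds hcU) hcont
  have e1 : (e' ∘ e.symm) (e p) = e' p := by rw [comp_apply, e.left_inv hp]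
  rw [e1] at hdeg
  have hcV : e p ∈ interior V := mem_interior_iff_mem_nhds.2 hV
  obtain ⟨y, hy, hy', -⟩ := exc_surj (F := F) (A := e.target) (B := e.target \ {e p})
    (U := interior V) (V := {e p}ᶜ) isOpen_interior isOpen_compl_singleton
    (fun w _ => by
      by_cases h : w = e p
      · exact Or.inl (h ▸ hcV)
      · exact Or.inr h)
    (fun w hw => ⟨hw.1, hw.2⟩) hz
  have hyV : y ∈ ZZ F V (V \ {e p}) :=
    ZZ_mono (A := e.target ∩ interior V) (B := e.target \ {e p} ∩ interior V) (A' := V)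
      (B' := V \ {e p}) (fun w hw => interior_subset hw.2)
      (fun w hw => ⟨interior_subset hw.2, hw.1.2⟩) hy
  have h1 : y - map (tr (e p)) o0 ∈ NN F univ (univ \ {e p}) := by
    have h2 : z - y ∈ NN F univ (univ \ {e p}) :=
      NN_mono (B := e.target ∩ (e.target \ {e p})) (B' := univ \ {e p}) (subset_univ _)
        (fun w hw => ⟨mem_univ _, hw.2.2⟩) hy'
    have := sub_mem hz' h2
    rwa [sub_sub_sub_cancel_left] at this
  have h2 := hdeg y hyV h1
  have h3 : mp (e' ∘ e.symm) y - q ∈ NN F univ (univ \ {e' p}) := by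
    have := add_mem h2 hq'
    rwa [sub_add_sub_cancel] at this
  have hm : MapsTo (e' ∘ e.symm) V (univ ∩ e'.target) := fun w hw =>
    ⟨mem_univ _, e'.map_source (hVU hw).2⟩
  have h4 : mp (e' ∘ e.symm) y ∈ ZZ F (univ ∩ e'.target) (univ \ {e' p}) := by
    refine mp_mem_ZZ (hcont.mono hVU) hm ?_ hyV
    refine fun w hw => ⟨mem_univ _, fun h => hw.2.2 ?_⟩
    have h5 : e' (e.symm w) = e' p := h
    have h6 : e.symm w = p := e'.injOn (hVU hw.1).2 hp' h5
    show w = e p
    rw [← h6, e.right_inv (hVU hw.1).1]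
  have h5 := exc_inj (F := F) (A := univ) (B := univ \ {e' p}) (U := e'.target) (V := {e' p}ᶜ)
    e'.open_target isOpen_compl_singleton
    (fun w _ => by
      by_cases h : w = e' p
      · exact Or.inl (h ▸ hc')
      · exact Or.inr h)
    (fun w hw => ⟨hw.1, hw.2⟩) (sub_mem h4 hq) h3
  have h6 : mp e'.symm (mp (e' ∘ e.symm) y - q) ∈ NN F univ (univ \ {p}) :=
    mp_mem_NN (e'.symm.continuousOn.mono inter_subset_right) (mapsTo_univ _ _)
      (zo_map e' hp' inter_subset_right fun h => h.1.2 rfl) h5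
  have h7 : mp e'.symm (mp (e' ∘ e.symm) y) = mp e.symm y := by
    rw [mp_mp (hcont.mono hVU) (e'.symm.continuousOn.mono inter_subset_right) hm hyV.1]
    exact mp_congr (fun w hw => e'.left_inv (hVU hw).2) hyV.1
  have h8 : mp e.symm (z - y) ∈ NN F univ (univ \ {p}) :=
    mp_mem_NN e.symm.continuousOn (mapsTo_univ _ _)
      (zo_map e hp inter_subset_left fun h => h.2.2 rfl) hy'
  rw [map_sub, h7] at h6
  rw [map_sub] at h8
  have := add_mem h8 h6
  rwa [sub_add_sub_cancel] at this

theorem zo_atlas (h2 : (2 : F) ≠ 0) (k : M → OpenPartialHomeomorph M W)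
    (hk : ∀ x, x ∈ (k x).source)
    (hpos : ∀ x, ∀ᶠ p in 𝓝 x, ∃ A : W →L[ℝ] W, 0 < A.det ∧
      HasFDerivAt (k p ∘ (k x).symm) A (k x p)) :
    Nonempty (OR F (Module.finrank ℝ W) M) := by
  obtain ⟨o0, h0⟩ := exists_gen h2 W
  have hs : ∀ p, ∃ q ∈ CC F (univ ∩ (k p).target), Gen F (Module.finrank ℝ W) univ (k p p) q ∧
      map (tr (k p p)) o0 - q ∈ NN F univ (univ \ {k p p}) := fun p =>
    (h0.tr (k p p)).small (k p).open_target ((k p).map_source (hk p))
  choose q hq1 hq2 hq3 using hs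
  refine ⟨⟨fun p => mp (k p).symm (q p), fun p => ?_, fun x => ?_⟩⟩
  · have := (hq2 p).transfer (B := univ) (V := (k p).source) (φ := (k p).symm) (ψ := k p)
      (k p).open_target (k p).open_source ⟨mem_univ _, (k p).map_source (hk p)⟩ (hq1 p)
      ((k p).symm.continuousOn.mono inter_subset_right)
      ((k p).continuousOn.mono inter_subset_right)
      (fun w hw => ⟨mem_univ _, (k p).map_target hw.2⟩)
      (fun w hw => ⟨mem_univ _, (k p).map_source hw.2⟩)
      (fun w hw => (k p).right_inv hw.2) (fun w hw => (k p).left_inv hw.2)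
    rwa [(k p).left_inv (hk p)] at this
  · have hx := hk x
    have hc := (k x).map_source hx
    have hS : ∀ᶠ w in 𝓝 (k x x), w ∈ (k x).target ∧ ∃ A : W →L[ℝ] W, 0 < A.det ∧
        HasFDerivAt (k ((k x).symm w) ∘ (k x).symm) A (k x ((k x).symm w)) := by
      have h1 : Tendsto (k x).symm (𝓝 (k x x)) (𝓝 x) := (k x).tendsto_symm hx
      exact (Filter.Eventually.and ((k x).open_target.mem_nhds hc) (h1.eventually (hpos x)))
    obtain ⟨r, hr, hK⟩ := nhds_basis_closedBall.eventually_iff.1 hS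
    obtain ⟨z, hz1, hz2, hz3⟩ := tr_loc h0 (isCompact_closedBall (k x x) r)
      (convex_closedBall (k x x) r)
    obtain ⟨y, hy1, hy2, hy3⟩ := exc_surj (F := F) (A := univ) (B := (closedBall (k x x) r)ᶜ)
      (U := (k x).target) (V := (closedBall (k x x) r)ᶜ) (k x).open_target
      isClosed_closedBall.isOpen_compl
      (fun w _ => by
        by_cases h : w ∈ closedBall (k x x) r
        · exact Or.inl (hK h).1
        · exact Or.inr h)
      inter_subset_right hz1
    refine ⟨(k x).source ∩ k x ⁻¹' closedBall (k x x) r,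
      inter_mem ((k x).open_source.mem_nhds hx)
        (((k x).continuousAt hx).preimage_mem_nhds (closedBall_mem_nhds _ hr)),
      mp (k x).symm y, ?_, mp_mem_HD _ (hy3 _ hz2), fun p hp => ?_⟩
    · refine mp_mem_ZZ ((k x).symm.continuousOn.mono inter_subset_right) (mapsTo_univ _ _)
        ?_ hy1
      refine fun w hw h => hw.2.1 ?_
      have h1 : k x ((k x).symm w) ∈ closedBall (k x x) r := h.2
      rwa [(k x).right_inv hw.1.2] at h1
    · have hp2 : k x p ∈ closedBall (k x x) r := hp.2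
      obtain ⟨-, A, hA, hφ⟩ := hK hp2
      rw [(k x).left_inv hp.1] at hφ
      refine zo_cmp h0 (k x) (k p) hp.1 (hk p) hA hφ ?_ ?_ ⟨hq1 p, (hq2 p).zz.2⟩ (hq3 p)
      · refine ZZ_mono inter_subset_right ?_ hy1
        refine fun w hw => ⟨hw.2, fun h => hw.1 ?_⟩
        have h1 : w = k x p := h
        rw [h1]
        exact hp2
      · have h1 : z - y ∈ NN F univ (univ \ {k x p}) := by
          refine NN_mono subset_rfl ?_ hy2
          refine fun w hw => ⟨mem_univ _, fun h => hw.2 ?_⟩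
          have h1 : w = k x p := h
          rw [h1]
          exact hp2
        have := sub_mem (hz3 _ hp2) h1
        rwa [sub_sub_sub_cancel_left] at this

end

theorem zo_refl (E : Type) [NormedAddCommGroup E] [InnerProductSpace ℝ E] [FiniteDimensional ℝ E]
    [Nontrivial E] : ∃ R : E ≃L[ℝ] E, (R : E →L[ℝ] E).det = -1 := by
  obtain ⟨v, hv⟩ := exists_ne (0 : E)
  refine ⟨((ℝ ∙ v)ᗮ.reflection).toContinuousLinearEquiv, ?_⟩
  have h := Submodule.det_reflection (ℝ ∙ v)ᗮ
  rw [Submodule.orthogonal_orthogonal, finrank_span_singleton hv, pow_one] at h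
  exact h

variable {E : Type} [NormedAddCommGroup E] [InnerProductSpace ℝ E] [FiniteDimensional ℝ E]
  {M : Type} [MetricSpace M] [ChartedSpace E M] [IsManifold 𝓘(ℝ, E) ∞ M]
  [CompactSpace M] [Nonempty M] [Nontrivial E] {g : Met E M}

theorem loc_euc (p : M) : ∃ U : Set M, IsOpen U ∧ p ∈ U ∧ Euc (Module.finrank ℝ E) U := by
  let L : E ≃L[ℝ] (Fin (Module.finrank ℝ E) → ℝ) :=
    ContinuousLinearEquiv.ofFinrankEq (by simp)
  let e := (chartAt E p).transHomeomorph L.toHomeomorph
  exact ⟨e.source, e.open_source, mem_chart_source E p, e, e.symm, e.target, e.open_target,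
    e.continuousOn, e.symm.continuousOn, e.mapsTo, e.mapsTo_symm, fun x hx => e.left_inv hx,
    fun v hv => e.right_inv hv⟩

theorem exists_emb (g : Met E M) : ∃ (N : ℕ) (ι : C(M, Fin N → ℝ)), Injective ι := by
  obtain ⟨N, ι, C, hι⟩ := exists_lipEmb g
  exact ⟨N, ⟨EuclideanSpace.equiv (Fin N) ℝ ∘ ι,
    (EuclideanSpace.equiv (Fin N) ℝ).continuous.comp hι.1.continuous⟩,
    (EuclideanSpace.equiv (Fin N) ℝ).injective.comp hι.1.injective⟩

theorem exists_or (h : OriL E M) (F : Type) [Field F] (h2 : (2 : F) ≠ 0) :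
    Nonempty (OR F (Module.finrank ℝ E) M) := by
  classical
  obtain ⟨s, hs⟩ := h
  obtain ⟨R, hR⟩ := zo_refl E
  have hne : ∀ x, s x ≠ 0 := fun x hx => by
    have := (hs x).self_of_nhds
    rw [hx] at this
    simp at this
  have hL : ∀ x, ∃ L : E ≃L[ℝ] E, 0 < s x * (L : E →L[ℝ] E).det ∧
      0 < s x * (L.symm : E →L[ℝ] E).det := fun x => by
    have key : ∀ L : E ≃L[ℝ] E, 0 < s x * (L : E →L[ℝ] E).det →
        0 < s x * (L.symm : E →L[ℝ] E).det := fun L hL => by
      rw [ContinuousLinearEquiv.det_coe_symm]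
      have h0 : (L : E →L[ℝ] E).det ≠ 0 := fun h => by simp [h] at hL
      have : s x * ((L : E →L[ℝ] E).det)⁻¹ =
          s x * (L : E →L[ℝ] E).det * (((L : E →L[ℝ] E).det)⁻¹) ^ 2 := by
        field_simp
      rw [this]
      exact mul_pos hL (by positivity)
    rcases lt_or_gt_of_ne (hne x) with h | h
    · have : 0 < s x * (R : E →L[ℝ] E).det := by rw [hR]; linarith
      exact ⟨R, this, key _ this⟩
    · have : 0 < s x * ((ContinuousLinearEquiv.refl ℝ E : E ≃L[ℝ] E) : E →L[ℝ] E).det := by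
        have : ((ContinuousLinearEquiv.refl ℝ E : E ≃L[ℝ] E) : E →L[ℝ] E).det = 1 :=
          LinearMap.det_id
        rw [this]; linarith
      exact ⟨_, this, key _ this⟩
  choose L hL1 hL2 using hL
  refine zo_atlas h2 (fun x => (chartAt E x).transHomeomorph (L x).toHomeomorph)
    (fun x => mem_chart_source E x) fun x => ?_
  filter_upwards [hs x, (source_open (E := E) x).mem_nhds (mem_extChartAt_source x)] with p h1 hp
  have hd : HasFDerivAt (κ E p ∘ (κ E x).symm) (fderiv ℝ (κ E p ∘ (κ E x).symm) (κ E x p))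
      (κ E x p) :=
    ((contDiffAt_trans ((κ E x).map_source hp) (x' := p)
      (by rw [(κ E x).left_inv hp]; exact mem_extChartAt_source p)).differentiableAt
        (by simp)).hasFDerivAt
  generalize fderiv ℝ (κ E p ∘ (κ E x).symm) (κ E x p) = D at h1 hd
  refine ⟨(L p : E →L[ℝ] E).comp (D.comp ((L x).symm : E →L[ℝ] E)), ?_, ?_⟩
  · have e : ((L p : E →L[ℝ] E).comp (D.comp ((L x).symm : E →L[ℝ] E))).det =
        (L p : E →L[ℝ] E).det * (D.det * ((L x).symm : E →L[ℝ] E).det) := by
      rw [← LinearMap.det_comp, ← LinearMap.det_comp]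
      rfl
    rw [e]
    have h3 := mul_pos (mul_pos (hL1 p) (hL2 x)) h1
    have h4 : 0 < (s x * s p) ^ 2 := by
      have := mul_ne_zero (hne x) (hne p)
      positivity
    refine pos_of_mul_pos_left (b := (s x * s p) ^ 2) ?_ h4.le
    refine h3.trans_eq ?_
    ring
  · have a1 : HasFDerivAt (κ E p ∘ (κ E x).symm) D ((L x).symm (L x (κ E x p))) := by
      rw [ContinuousLinearEquiv.symm_apply_apply]
      exact hd
    exact (L p).hasFDerivAt.comp _ (a1.comp _ (L x).symm.hasFDerivAt)

end Pool.Agent.Fu
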