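import Mathlib
import Pool.Agent.P.MP_365c00_gt.ZQ2

/-! Multiplication by the class of a long closed geodesic: one critical level. -/

set_option linter.unusedSectionVars false
set_option linter.unusedVariables false

open Set Topology Filter Metric

namespace Pool.Agent.Fu

variable {F : Type} [Field F] {M : Type} [MetricSpace M] {Z : Type} [TopologicalSpace Z]

namespace GD
variable {D : GD M} {x y : M} {τ : ℝ} {N : ℕ} {w : D.G × ℝ}

theorem zq3_iso_mono {l r r' : ℝ} (h : D.Iso x y l r) (hr : r' ≤ r) : D.Iso x y l r' :=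
  fun v hv h1 => h v hv (h1.trans hr)

theorem zq3_dist {u : D.G} {δ : ℝ} (h0 : D.ev u 0 = x) (hδ : 0 < δ) (hδa : δ < D.a) :
    dist x (D.ev u δ) = δ := by
  have e : |0 - δ| = δ := by rw [zero_sub, abs_neg, abs_of_pos hδ]
  rw [← h0, D.dist_ev u 0 δ (by rw [e]; exact hδa), e]

theorem zq3_win {l r b c : ℝ} (h : D.Iso x y l r) (hb : l - r ≤ b) (hc : c ≤ l + r) :
    ∀ v ∈ D.J x y, v.2 < b ∨ v.2 = l ∨ c ≤ v.2 := by
  intro v hv
  by_cases h1 : v.2 < b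
  · exact Or.inl h1
  by_cases h2 : c ≤ v.2
  · exact Or.inr (Or.inr h2)
  refine Or.inr (Or.inl (h v hv ?_))
  rw [abs_le]
  constructor <;> linarith [not_lt.1 h1, not_le.1 h2]

theorem MT.prd (hM : D.MT F) (hτ : 0 < τ) (h : D.Per τ N x y) (hw : w ∈ D.J x y) {δ γ : ℝ}
    (hδ : 0 < δ) (hδa : 4 * δ < D.a) (hγ : 10 * δ ≤ γ) (hγw : γ ≤ w.2) (hi : D.Iso x y w.2 γ)
    (h1 : D.Per τ N x (D.ev w.1 δ)) (h2 : D.Reg (D.ev w.1 δ) y)
    (hs : ∀ v ∈ D.J (D.ev w.1 δ) y, |v.2 - w.2| ≤ 5 * δ → v.2 = w.2 - δ) {c : Ch F (Mo M)}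
    (hc : Top F D τ N x (D.ev w.1 δ) c) :
    ∃ g ∈ ZZ F (Om x y (w.2 + δ)) (Om x y (w.2 - 4 * δ)),
      mul (mp (D.wh x x) c) g ∉ NN F (Om x y (N * τ + w.2 + γ)) (Om x y (N * τ + w.2)) := by
  obtain ⟨u, l⟩ := w
  simp only at hγw hi h1 h2 hs hc ⊢
  have ha := D.a_pos
  have hw0 : D.ev u 0 = x := hw.2.1
  have hw1 : D.ev u l = y := hw.2.2
  have hd : dist x (D.ev u δ) = δ := zq3_dist hw0 hδ (by linarith)
  have hd' : dist (D.ev u δ) x = δ := by rw [dist_comm, hd]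
  have hJ : (D.sh δ u, l - δ) ∈ D.J (D.ev u δ) y := by
    refine ⟨show 0 < l - δ by linarith, ?_, ?_⟩
    · show D.ev (D.sh δ u) 0 = _
      rw [D.ev_sh, zero_add]
    · show D.ev (D.sh δ u) (l - δ) = _
      rw [D.ev_sh, sub_add_cancel, hw1]
  have hind : D.ind (D.sh δ u) (l - δ) = D.ind u l := by
    obtain ⟨v, hv, e1, e2⟩ := hM.tr h.1 h2 (by rw [hd']; linarith) (by rw [dist_self]; linarith) hw
      (r := 2 * δ) (by rw [hd', dist_self]; linarith) (zq3_iso_mono hi (by linarith))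
    have e3 : v.2 = l - δ := hs v hv (e2.trans (by linarith))
    have e4 := h2.2.2.1 v hv _ hJ e3
    rw [e4] at e1
    exact e1
  have hv : ∀ v ∈ D.J (D.ev u δ) y, v.2 < l - 5 * δ ∨ v.2 = l - δ ∨ l ≤ v.2 := by
    intro v hv
    by_cases q1 : v.2 < l - 5 * δ
    · exact Or.inl q1
    by_cases q2 : l ≤ v.2
    · exact Or.inr (Or.inr q2)
    refine Or.inr (Or.inl (hs v hv ?_))
    rw [abs_le]
    constructor <;> linarith [not_lt.1 q1, not_le.1 q2]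
  obtain ⟨g, gz, -, gn, -⟩ := hM.gen_win h2 hJ (b := l - 5 * δ) (c := l)
    (show l - 5 * δ ≤ l - δ by linarith) (show l - δ < l by linarith) hv
  simp only at gz gn
  have hJ0 : (u, δ) ∈ D.J x (D.ev u δ) := ⟨hδ, hw0, rfl⟩
  have hJ1 : (u, N * τ + δ) ∈ D.J x (D.ev u δ) := by
    have := h1.add hτ hJ0
    simp only at this
    rwa [add_comm] at this
  have hper : Function.Periodic (D.ev u) (N * τ) := (h.2 _ hw).1
  have hsh : D.sh (N * τ + δ) u = D.sh δ u := by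
    refine D.ext _ _ (funext fun s => ?_)
    rw [D.ev_sh, D.ev_sh, show s + (N * τ + δ) = s + δ + N * τ by ring, hper]
  have hsum : N * τ + δ + (l - δ) = N * τ + l := by ring
  have hi3 : D.ind u (N * τ + δ + (l - δ)) =
      D.ind u (N * τ + δ) + D.ind (D.sh (N * τ + δ) u) (l - δ) := by
    have e1 : D.ind u (l + N * τ) = D.ind u l + N := (h.2 _ hw).2.1
    have e2 : D.ind u (δ + N * τ) = D.ind u δ + N := (h1.2 _ hJ0).2.1
    rw [hsh, hind, hsum, add_comm (N * τ) l, e1, add_comm (N * τ) δ, e2,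
      ind_short u hδ (by linarith)]
    ring
  have i1 : D.Iso x (D.ev u δ) (N * τ + δ) (δ / 2) := by
    refine h1.iso hτ (by linarith) fun v hv q => ?_
    rw [J_short hv (by linarith [(abs_le.1 q).2]), hd]
  have i2 : D.Iso (D.ev u δ) y (l - δ) (δ / 2) := by
    intro v hv q
    refine hs v hv ?_
    rw [abs_le] at q ⊢
    constructor <;> linarith [q.1, q.2]
  have i3 : ∀ v ∈ D.J x y, v.2 ≤ N * τ + δ + (l - δ) ∨ N * τ + l + γ ≤ v.2 := by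
    intro v hv
    rw [hsum]
    rcases zq3_win (h.iso hτ hγw hi) (b := N * τ + l - γ) (c := N * τ + l + γ) le_rfl le_rfl v hv
      with q | q | q
    · exact Or.inl (by linarith)
    · exact Or.inl q.le
    · exact Or.inr q
  have cz : ∀ t, N * τ + δ < t → c ∈ ZZ F (Om x (D.ev u δ) t) ∅ := fun t ht =>
    ZZ_mono (Omc_sub_Om _ _ (by rw [hd]; exact ht)) subset_rfl hc.zz
  have key := hM.prod h1.1 h2 h.1 hJ1 (by rw [hsh]; exact hJ) hi3 (ε := δ / 2)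
    (c := N * τ + l + γ) (by linarith) i1 i2 (by linarith) i3 (c1 := c) (c2 := g)
    (ZZ_mono subset_rfl (empty_subset _) (cz _ (by linarith)))
    (ZZ_mono (Omc_sub_Om _ _ (by linarith)) (Om_mono _ _ (by linarith)) gz)
    (by
      have := hc.ne (δ + δ / 2) (by linarith)
      rwa [hd, ← add_assoc] at this)
    (fun q => gn (NN_mono (Om_mono _ _ (by linarith)) subset_rfl q))
  rw [hsum] at key
  have gz' : g ∈ ZZ F (Om (D.ev u δ) y l) (Om (D.ev u δ) y (l - 5 * δ)) :=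
    ZZ_mono (Omc_sub_Om _ _ (by linarith)) subset_rfl gz
  refine ⟨mp (D.wh x y) g, D.toGS.wh_ZZ (by rw [hd]; linarith) (by rw [dist_self]; exact ha)
    (by rw [hd, dist_self]; linarith) (by rw [hd, dist_self]; linarith) gz', fun q => key ?_⟩
  have hm := D.toGS.wh_mul (x := x) (y := D.ev u δ) (z := y) (x' := x) (y' := x) (z' := y)
    (by rw [dist_self]; exact ha) (by rw [hd']; linarith) (by rw [dist_self]; exact ha)
    (s := N * τ + 2 * δ) (r := N * τ + l + γ) (r' := N * τ + l)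
    (by rw [hd', dist_self, dist_self]; linarith) (by rw [hd', dist_self, dist_self]; linarith)
    (cz _ (by linarith)) gz'
  have hP : mul c g ∈ CC F (Pa x y) :=
    mul_mem_CC (fun α hα β hβ => cat_mem hα.1 hβ.1) (mem_ZZ.1 (cz (N * τ + 2 * δ) (by linarith))).1
      (mem_ZZ.1 gz').1
  rw [D.toGS.mp_wh_self hP] at hm
  have := sub_mem q hm
  rwa [sub_sub_cancel] at this

theorem zq3_cyc {p : M} {δ : ℝ} (hd : dist x p = δ) (hδ : 0 < δ) (hδa : δ < D.a)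
    {c : Ch F (Mo M)} (hc : Top F D τ N x p c) :
    mp (D.wh x x) c ∈ ZZ F (Om x x (N * τ + 3 * δ)) ∅ :=
  D.toGS.wh_cyc (x := x) (y := p) (t := N * τ + 2 * δ) (by rw [dist_self]; exact D.a_pos)
    (by rw [dist_comm, hd]; exact hδa) (by rw [dist_self, dist_comm, hd]; linarith)
    (ZZ_mono (Omc_sub_Om _ _ (by rw [hd]; linarith)) subset_rfl hc.zz)

theorem zq3_cmp {p q : M} {δ δ' : ℝ} (hd : dist x p = δ) (hδ : 0 < δ) (hδa : 8 * δ < D.a)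
    (hd' : dist x q = δ') (hδ' : 0 < δ') (hδa' : 8 * δ' < D.a) {c c' : Ch F (Mo M)}
    (hc : Top F D τ N x p c) (hc' : Top F D τ N x q c') :
    ∃ μ : F, mp (D.wh x x) c - μ • mp (D.wh x x) c' ∈ BB F (Om x x (N * τ + (3 * δ + 3 * δ'))) := by
  have ha := D.a_pos
  have e1 := zq3_cyc hd hδ (by linarith) hc
  have e2 : mp (D.wh x q) (mp (D.wh x x) c) ∈ ZZ F (Om x q (N * τ + (3 * δ + 2 * δ'))) ∅ :=
    D.toGS.wh_cyc (by rw [dist_self]; exact ha) (by rw [hd']; linarith)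
      (by rw [dist_self, hd']; linarith) e1
  obtain ⟨μ, hμ⟩ := hc'.span (3 * δ + 2 * δ') (by rw [hd']; linarith) (by linarith) _ e2
    (mp_mem_HD _ (mp_mem_HD _ hc.hd))
  have e3 := D.toGS.wh_BB (x' := x) (y' := x) (r := N * τ + (3 * δ + 3 * δ'))
    (by rw [dist_self]; exact ha) (by rw [dist_comm, hd']; linarith)
    (by rw [dist_self, dist_comm, hd']; linarith) hμ
  have e4 := D.toGS.wh_back_cyc (x' := x) (y' := q) (r := N * τ + (3 * δ + 3 * δ'))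
    (by rw [dist_self]; linarith) (by rw [hd']; linarith)
    (by rw [dist_self, hd']; linarith) e1
  rw [map_sub, map_smul] at e3
  refine ⟨μ, ?_⟩
  have := sub_mem e3 e4
  rwa [sub_sub_sub_cancel_left] at this

theorem MT.mu1 (hM : D.MT F) (hD : D.DN τ) (h : D.Good τ x y) (L : ℝ) {ε : ℝ} (hε : 0 < ε)
    {K : ℕ} (hK : 0 < K) :
    ∃ (N : ℕ) (γ : ℝ) (e : Ch F (Mo M)), 0 < N ∧ K ∣ N ∧ Even N ∧ D.Per τ N x y ∧ 0 < γ ∧ γ ≤ ε ∧
      e ∈ ZZ F (Om x x (N * τ + γ / 4)) ∅ ∧ e ∈ HD F _ N ∧ ∀ w ∈ D.J x y, w.2 ≤ L → γ ≤ w.2 ∧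
        D.Iso x y w.2 γ ∧ ∃ g ∈ ZZ F (Omc x y w.2) (Om x y (w.2 - γ)),
          mul e g ∉ NN F (Om x y (N * τ + w.2 + γ)) (Om x y (N * τ + w.2)) := by
  classical
  have hτ := hD.pos
  have ha := D.a_pos
  obtain ⟨m, hm, hP⟩ := h.1
  obtain ⟨γ0, hγ0, hiso0⟩ := hP.1.iso L
  obtain ⟨γ, hγ, hγε, hiso⟩ : ∃ γ, 0 < γ ∧ γ ≤ ε ∧
      ∀ w ∈ D.J x y, w.2 ≤ L → γ ≤ w.2 ∧ D.Iso x y w.2 γ :=
    ⟨min γ0 ε, lt_min hγ0 hε, min_le_right _ _, fun w hw hl =>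
      ⟨(min_le_left _ _).trans (hiso0 w hw hl).1, zq3_iso_mono (hiso0 w hw hl).2 (min_le_left _ _)⟩⟩
  have hch : ∀ w : D.G × ℝ, ∃ (δ : ℝ) (n : ℕ), 0 < n ∧ (w ∈ D.J x y → 0 < δ ∧ 40 * δ < γ ∧
      8 * δ < D.a ∧ D.Per τ n x (D.ev w.1 δ) ∧ D.Reg (D.ev w.1 δ) y ∧
      ∀ v ∈ D.J (D.ev w.1 δ) y, |v.2 - w.2| ≤ 5 * δ → v.2 = w.2 - δ) := by
    intro w
    by_cases hw : w ∈ D.J x y
    · obtain ⟨δ0, hδ0, hst⟩ := hD.st x y hP.1 w hw
      obtain ⟨δ, hδ, ⟨n, hn, p1⟩, ⟨n', hn', p2⟩⟩ := h.2 w hw (min δ0 (min (γ / 40) (D.a / 8)))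
        (lt_min hδ0 (lt_min (by linarith) (by linarith)))
      have q := hδ.2
      rw [lt_min_iff, lt_min_iff] at q
      exact ⟨δ, n, hn, fun _ => ⟨hδ.1, by linarith [q.2.1], by linarith [q.2.2], p1, p2.1,
        hst δ ⟨hδ.1, q.1⟩⟩⟩
    · exact ⟨0, 1, one_pos, fun q => (hw q).elim⟩
  choose δ n hn hδ using hch
  have hfin := hP.1.2.2.2 L
  obtain ⟨N, hN, hKN, hE, hmN, hnN⟩ : ∃ N : ℕ, 0 < N ∧ K ∣ N ∧ Even N ∧ m ∣ N ∧
      ∀ w ∈ D.J x y, w.2 ≤ L → n w ∣ N := by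
    refine ⟨2 * (K * (m * ∏ w ∈ hfin.toFinset, n w)), ?_, ?_, even_two_mul _, ?_, ?_⟩
    · exact Nat.mul_pos two_pos (Nat.mul_pos hK (Nat.mul_pos hm (Finset.prod_pos fun w _ => hn w)))
    · exact Dvd.dvd.mul_left (dvd_mul_right _ _) _
    · exact Dvd.dvd.mul_left (Dvd.dvd.mul_left (dvd_mul_right _ _) _) _
    · intro w hw hl
      exact Dvd.dvd.mul_left (Dvd.dvd.mul_left (Dvd.dvd.mul_left
        (Finset.dvd_prod_of_mem _ (hfin.mem_toFinset.2 ⟨hw, hl⟩)) _) _) _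
  have hPN : D.Per τ N x y := hP.dvd hτ hm hN hmN
  by_cases hW : ∃ w ∈ D.J x y, w.2 ≤ L
  swap
  · exact ⟨N, γ, 0, hN, hKN, hE, hPN, hγ, hγε, zero_mem _, zero_mem _,
      fun w hw hl => (hW ⟨w, hw, hl⟩).elim⟩
  obtain ⟨w1, hw1, hl1⟩ := hW
  have hdist : ∀ w ∈ D.J x y, dist x (D.ev w.1 (δ w)) = δ w := fun w hw =>
    zq3_dist hw.2.1 (hδ w hw).1 (by linarith [(hδ w hw).1, (hδ w hw).2.2.1])
  have hper : ∀ w ∈ D.J x y, w.2 ≤ L → D.Per τ N x (D.ev w.1 (δ w)) := fun w hw hl =>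
    (hδ w hw).2.2.2.1.dvd hτ (hn w) hN (hnN w hw hl)
  have htop : ∀ w ∈ D.J x y, w.2 ≤ L → ∃ c, Top F D τ N x (D.ev w.1 (δ w)) c := fun w hw hl =>
    hM.one hτ hN (hper w hw hl) (by
      rw [hdist w hw]
      linarith [(hδ w hw).1, (hδ w hw).2.2.1])
  obtain ⟨c1, hc1⟩ := htop w1 hw1 hl1
  obtain ⟨p1, p2, p3, -⟩ := hδ w1 hw1
  refine ⟨N, γ, mp (D.wh x x) c1, hN, hKN, hE, hPN, hγ, hγε,
    ZZ_mono (Om_mono _ _ (by linarith)) subset_rfl (zq3_cyc (hdist w1 hw1) p1 (by linarith) hc1),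
    mp_mem_HD _ hc1.hd, fun w hw hl => ⟨(hiso w hw hl).1, (hiso w hw hl).2, ?_⟩⟩
  obtain ⟨c, hc⟩ := htop w hw hl
  obtain ⟨q1, q2, q3, -, q5, q6⟩ := hδ w hw
  obtain ⟨i1, i2⟩ := hiso w hw hl
  obtain ⟨g, gz, gn⟩ := hM.prd hτ hPN hw q1 (by linarith) (γ := γ) (by linarith) i1 i2
    (hper w hw hl) q5 q6 hc
  obtain ⟨μ, hμ⟩ := zq3_cmp (hdist w hw) q1 q3 (hdist w1 hw1) p1 p3 hc hc1
  obtain ⟨g0, z0, -, n0, -⟩ := hM.gen_win hP.1 hw (b := w.2 - γ) (c := w.2 + δ w) (by linarith)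
    (by linarith) (zq3_win i2 le_rfl (by linarith))
  obtain ⟨G, -, -, -, sp⟩ := hM.gen_win hP.1 hw (b := w.2 - 4 * δ w) (c := w.2 + δ w) (by linarith)
    (by linarith) (zq3_win i2 (by linarith) (by linarith))
  have z0' : g0 ∈ ZZ F (Om x y (w.2 + δ w)) (Om x y (w.2 - γ)) :=
    ZZ_mono (Omc_sub_Om _ _ (by linarith)) subset_rfl z0
  obtain ⟨r, hr⟩ := sp g gz
  obtain ⟨r0, hr0⟩ := sp g0 (ZZ_mono subset_rfl (Om_mono _ _ (by linarith)) z0')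
  have hne : r0 ≠ 0 := by
    rintro rfl
    rw [zero_smul, sub_zero] at hr0
    exact n0 (NN_mono subset_rfl (Om_mono _ _ (by linarith)) hr0)
  have hgg : g - (r / r0) • g0 ∈ NN F (Om x y (w.2 + δ w)) (Om x y (w.2 - 4 * δ w)) := by
    have := sub_mem hr (Submodule.smul_mem _ (r / r0) hr0)
    rwa [smul_sub, smul_smul, div_mul_cancel₀ _ hne, sub_sub_sub_cancel_right] at this
  refine ⟨g0, z0, fun q => gn ?_⟩
  have m1 : mul (mp (D.wh x x) c) (g - (r / r0) • g0) ∈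
      NN F (Om x y (N * τ + w.2 + γ)) (Om x y (N * τ + w.2)) :=
    NN_mono (Om_mono _ _ (by linarith)) (Om_mono _ _ (by linarith))
      (mul_cyc_NN (by linarith) (zq3_cyc (hdist w hw) q1 (by linarith) hc) hgg)
  have m2 : mul (mp (D.wh x x) c - μ • mp (D.wh x x) c1) g0 ∈
      NN F (Om x y (N * τ + w.2 + γ)) (Om x y (N * τ + w.2)) :=
    NN_mono (Om_mono _ _ (by linarith)) (Om_mono _ _ (by linarith)) (mul_BB_ZZ hμ z0')
  rw [map_sub, map_smul] at m1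
  rw [map_sub, map_smul, LinearMap.sub_apply, LinearMap.smul_apply] at m2
  have m3 := add_mem m2 (Submodule.smul_mem _ μ q)
  rw [sub_add_cancel] at m3
  have m4 := add_mem m1 (Submodule.smul_mem _ (r / r0) m3)
  rwa [sub_add_cancel] at m4

end GD

end Pool.Agent.Fu
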