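import Mathlib
import Pool.Agent.P.MP_365c00_gt.ZQ3

/-! Multiplication by the class of a long closed geodesic reflects boundaries. -/

set_option linter.unusedSectionVars false
set_option linter.unusedVariables false

open Set Topology Filter Metric

namespace Pool.Agent.Fu

variable {F : Type} [Field F] {M : Type} [MetricSpace M] {Z : Type} [TopologicalSpace Z]

section
variable {P P' : Type} [AddCommGroup P] [Module F P] [AddCommGroup P'] [Module F P']
  {d : P →ₗ[F] P} {d' : P' →ₗ[F] P'} {f : P →ₗ[F] P'} {A B : Submodule F P} {A' B' : Submodule F P'}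

theorem QI.of_zero (h : ∀ c ∈ A, d c ∈ B → c ∈ A.map d ⊔ B)
    (h' : ∀ c ∈ A', d' c ∈ B' → c ∈ A'.map d' ⊔ B') : QI d d' f A B A' B' := by
  refine ⟨fun c hc hd _ => h c hc hd, fun c' hc hd => ⟨0, A.zero_mem, ?_, ?_⟩⟩
  · rw [map_zero]
    exact B.zero_mem
  · rw [map_zero, zero_sub]
    exact neg_mem (h' c' hc hd)

theorem QI.of_one (hA : ∀ c ∈ A, f c ∈ A') (hB : ∀ c ∈ B, f c ∈ B') (hf : ∀ c ∈ A, d' (f c) = f (d c))
    {g : P} {g' : P'} (hg : g ∈ A) (hd : d g ∈ B)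
    (h : ∀ c ∈ A, d c ∈ B → ∃ r : F, c - r • g ∈ A.map d ⊔ B)
    (h' : ∀ c ∈ A', d' c ∈ B' → ∃ r : F, c - r • g' ∈ A'.map d' ⊔ B')
    (hn : f g ∉ A'.map d' ⊔ B') : QI d d' f A B A' B' := by
  have key : ∀ c ∈ A.map d ⊔ B, f c ∈ A'.map d' ⊔ B' := by
    intro c hc
    obtain ⟨a, ha, hb⟩ := zg1_mem.1 hc
    refine zg1_mem.2 ⟨f a, hA a ha, ?_⟩
    rw [hf a ha, ← map_sub]
    exact hB _ hb
  have unit : ∀ r : F, r • f g ∈ A'.map d' ⊔ B' → r = 0 := by
    intro r hr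
    by_contra h0
    exact hn ((Submodule.smul_mem_iff _ h0).1 hr)
  constructor
  · intro c hc hdc hfc
    obtain ⟨r, hr⟩ := h c hc hdc
    have h1 := key _ hr
    rw [map_sub, map_smul] at h1
    have h2 := Submodule.sub_mem _ hfc h1
    rw [sub_sub_cancel] at h2
    rwa [unit r h2, zero_smul, sub_zero] at hr
  · intro c' hc hdc
    obtain ⟨s, hs⟩ := h' (f g) (hA g hg) (by rw [hf g hg]; exact hB _ hd)
    obtain ⟨r, hr⟩ := h' c' hc hdc
    have hs0 : s ≠ 0 := by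
      rintro rfl
      rw [zero_smul, sub_zero] at hs
      exact hn hs
    refine ⟨(r / s) • g, A.smul_mem _ hg, ?_, ?_⟩
    · rw [map_smul]
      exact B.smul_mem _ hd
    · have h1 := Submodule.sub_mem _ (Submodule.smul_mem _ (r / s) hs) hr
      rw [smul_sub, smul_smul, div_mul_cancel₀ _ hs0, sub_sub_sub_cancel_right] at h1
      rwa [map_smul]
end

theorem zq3b_mul {x y : M} {s t r : ℝ} {e c : Ch F (Mo M)} (he : e ∈ CC F (Om x x s))
    (hc : c ∈ CC F (Om x y t)) (h : s + t ≤ r) : mul e c ∈ CC F (Om x y r) := by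
  refine mul_mem_CC (fun α hα β hβ => ⟨cat_mem hα.1 hβ.1, ?_⟩) he hc
  rw [cat_dur]
  linarith [hα.2, hβ.2]

theorem zq3b_bd {x y : M} {s t : ℝ} {N : ℕ} {e c : Ch F (Mo M)} (he : e ∈ ZZ F (Om x x s) ∅)
    (hd : e ∈ HD F _ N) (hN : Even N) (hc : c ∈ CC F (Om x y t)) :
    bd (mul e c) = mul e (bd c) := by
  rw [bd_mul (CC_mono (Om_sub x x s) he.1) (CC_mono (Om_sub x y t) hc), (mem_ZZ_empty.1 he).2,
    om_of_even hd hN, map_zero, LinearMap.zero_apply, zero_add]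

namespace GD
variable {D : GD M} {x y : M} {τ : ℝ}

/-- crossing one critical level -/
theorem zq3b_step (hM : D.MT F) (hτ : 0 < τ) {N : ℕ} (hN : Even N) (hp : D.Per τ N x y) {γ b : ℝ}
    (hγ : 0 < γ) {e g : Ch F (Mo M)} (he : e ∈ ZZ F (Om x x (N * τ + γ / 4)) ∅)
    (hd : e ∈ HD F _ N) {w : D.G × ℝ} (hw : w ∈ D.J x y) (hb : w.2 < b)
    (hmax : ∀ v ∈ D.J x y, v.2 < b → v.2 ≤ w.2) (hgap : D.Gap x y b (b + γ / 4)) (h1 : γ ≤ w.2)
    (hi : D.Iso x y w.2 γ) (hg : g ∈ ZZ F (Omc x y w.2) (Om x y (w.2 - γ)))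
    (hn : mul e g ∉ NN F (Om x y (N * τ + w.2 + γ)) (Om x y (N * τ + w.2))) :
    QI bd bd (mul e) (CC F (Om x y b)) (CC F (Om x y (w.2 - γ / 2)))
      (CC F (Om x y (N * τ + b + γ / 4))) (CC F (Om x y (N * τ + (w.2 - γ / 2) + γ / 4))) := by
  have win : ∀ v ∈ D.J x y, w.2 - γ / 2 ≤ v.2 → v.2 < b + γ / 4 → v.2 = w.2 := by
    intro v hv k1 k2
    have k3 := hmax v hv ((hgap v hv).resolve_right (not_le.2 k2))
    exact hi v hv (abs_le.2 ⟨by linarith, by linarith⟩)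
  obtain ⟨G, hG, -, -, sG⟩ := hM.gen_win hp.1 hw (b := w.2 - γ / 2) (c := b) (by linarith) hb
    (fun v hv => by
      rcases lt_or_ge v.2 (w.2 - γ / 2) with k1 | k1
      · exact Or.inl k1
      rcases lt_or_ge v.2 b with k2 | k2
      · exact Or.inr (Or.inl (win v hv k1 (by linarith)))
      · exact Or.inr (Or.inr k2))
  obtain ⟨G', -, -, -, sG'⟩ := hM.gen_win hp.1 (hp.add hτ hw)
    (b := N * τ + (w.2 - γ / 2) + γ / 4) (c := N * τ + b + γ / 4)
    (by show _ ≤ w.2 + N * τ; linarith) (by show w.2 + N * τ < _; linarith)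
    (fun v hv => by
      rcases lt_or_ge v.2 (N * τ + (w.2 - γ / 2) + γ / 4) with k1 | k1
      · exact Or.inl k1
      rcases lt_or_ge v.2 (N * τ + b + γ / 4) with k2 | k2
      · have k3 := win _ (hp.sub hv (by linarith)).1 (by show _ ≤ v.2 - N * τ; linarith)
          (by show v.2 - N * τ < _; linarith)
        refine Or.inr (Or.inl ?_)
        show v.2 = w.2 + N * τ
        have k4 : v.2 - N * τ = w.2 := k3
        linarith
      · exact Or.inr (Or.inr k2))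
  refine QI.of_one (g := G) (g' := G') (fun c hc => zq3b_mul he.1 hc (by linarith))
    (fun c hc => zq3b_mul he.1 hc (by linarith)) (fun c hc => zq3b_bd he hd hN hc)
    (CC_mono (Omc_sub_Om x y hb) hG.1) hG.2 (fun c hc hdc => sG c ⟨hc, hdc⟩)
    (fun c hc hdc => sG' c ⟨hc, hdc⟩) fun hGn => hn ?_
  have hGn' : mul e G ∈ NN F (Om x y (N * τ + b + γ / 4))
      (Om x y (N * τ + (w.2 - γ / 2) + γ / 4)) := hGn
  obtain ⟨r, hr⟩ := sG g (ZZ_mono (Omc_sub_Om x y hb) (Om_mono x y (by linarith)) hg)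
  have k1 := mul_cyc_NN (by linarith) he hr
  have k2 : mul e (g - r • G) ∈ NN F (Om x y (N * τ + b + γ / 4)) (Om x y (N * τ + w.2)) :=
    NN_mono (Om_mono x y (by linarith)) (Om_mono x y (by linarith)) k1
  have k3 : mul e G ∈ NN F (Om x y (N * τ + b + γ / 4)) (Om x y (N * τ + w.2)) :=
    NN_mono subset_rfl (Om_mono x y (by linarith)) hGn'
  have k4 := Submodule.add_mem _ k2 (Submodule.smul_mem _ r k3)
  rw [map_sub, map_smul, sub_add_cancel] at k4
  have k5 : g ∈ ZZ F (Om x y (w.2 + γ / 4)) (Om x y (w.2 - γ)) :=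
    ZZ_mono (Omc_sub_Om x y (by linarith)) subset_rfl hg
  have k6 : mul e g ∈ ZZ F (Om x y (N * τ + w.2 + γ / 2)) (Om x y (N * τ + w.2)) :=
    ZZ_mono (Om_mono x y (by linarith)) (Om_mono x y (by linarith)) (mul_cyc_ZZ he k5)
  refine NN_mono (Om_mono x y (by linarith)) subset_rfl
    (hM.gap_inj hp.1.1 (fun v hv => ?_) (by linarith) k6 k4)
  rcases lt_or_ge v.2 (N * τ + w.2 + γ / 2) with j1 | j1
  · exact Or.inl j1
  rcases lt_or_ge v.2 (N * τ + b + γ / 4) with j2 | j2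
  · have j3 := win _ (hp.sub hv (by linarith)).1 (by show _ ≤ v.2 - N * τ; linarith)
      (by show v.2 - N * τ < _; linarith)
    have j4 : v.2 - N * τ = w.2 := j3
    exfalso
    linarith
  · exact Or.inr j2

/-- multiplication is an isomorphism at every level followed by a gap -/
theorem zq3b_all (hM : D.MT F) (hτ : 0 < τ) {N : ℕ} (hN : Even N) (hp : D.Per τ N x y) {γ L : ℝ}
    (hγ : 0 < γ) {e : Ch F (Mo M)} (he : e ∈ ZZ F (Om x x (N * τ + γ / 4)) ∅)
    (hd : e ∈ HD F _ N)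
    (hw : ∀ w ∈ D.J x y, w.2 ≤ L → γ ≤ w.2 ∧
      D.Iso x y w.2 γ ∧ ∃ g ∈ ZZ F (Omc x y w.2) (Om x y (w.2 - γ)),
        mul e g ∉ NN F (Om x y (N * τ + w.2 + γ)) (Om x y (N * τ + w.2))) (n : ℕ) :
    ∀ b, {w | w ∈ D.J x y ∧ w.2 < b}.ncard = n → 0 ≤ b → b ≤ L → D.Gap x y b (b + γ / 4) →
      QI bd bd (mul e) (CC F (Om x y b)) (CC F ∅) (CC F (Om x y (N * τ + b + γ / 4)))
        (CC F (Om x y (N * τ))) := by
  induction n using Nat.strong_induction_on with
  | _ n ih =>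
    intro b hn h0 hL hgap
    have hfin : {w | w ∈ D.J x y ∧ w.2 < b}.Finite :=
      (hp.1.2.2.2 b).subset fun w k => ⟨k.1, k.2.le⟩
    rcases Set.eq_empty_or_nonempty {w | w ∈ D.J x y ∧ w.2 < b} with hE | hE
    · have none : ∀ v ∈ D.J x y, b + γ / 4 ≤ v.2 := fun v hv =>
        (hgap v hv).resolve_left fun k => (Set.eq_empty_iff_forall_notMem.1 hE v) ⟨hv, k⟩
      refine QI.of_zero (fun c hc hdc => ?_) fun c hc hdc => ?_
      · have k1 := hM.mt0 x y 0 b hp.1.1 fun v hv => Or.inr (by linarith [none v hv])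
        rw [Om_empty (x := x) (y := y) (t := 0) dist_nonneg] at k1
        exact k1 ⟨hc, hdc⟩
      · refine hM.mt0 x y (N * τ) (N * τ + b + γ / 4) hp.1.1 (fun v hv => ?_) ⟨hc, hdc⟩
        rcases lt_or_ge v.2 (N * τ) with k1 | k1
        · exact Or.inl k1
        · have k2 : b + γ / 4 ≤ v.2 - N * τ := none _ (hp.sub hv k1).1
          exact Or.inr (by linarith)
    · obtain ⟨w, ⟨hwJ, hwb⟩, hmax⟩ := Set.exists_max_image _ (fun v => v.2) hfin hE
      obtain ⟨k1, k2, g, hg, hgn⟩ := hw w hwJ (by linarith)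
      have q2 := zq3b_step hM hτ hN hp hγ he hd hwJ hwb (fun v hv k => hmax v ⟨hv, k⟩) hgap k1 k2
        hg hgn
      have q1 := ih {v | v ∈ D.J x y ∧ v.2 < w.2 - γ / 2}.ncard (by
        rw [← hn]
        refine Set.ncard_lt_ncard ⟨fun v k => ⟨k.1, by linarith [k.2]⟩, fun k => ?_⟩ hfin
        have := (k ⟨hwJ, hwb⟩).2
        linarith) (w.2 - γ / 2) rfl (by linarith) (by linarith) (fun v hv => by
        rcases lt_or_ge v.2 (w.2 - γ / 2) with j1 | j1
        · exact Or.inl j1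
        rcases lt_or_ge v.2 (w.2 - γ / 2 + γ / 4) with j2 | j2
        · have := k2 v hv (abs_le.2 ⟨by linarith, by linarith⟩)
          exfalso
          linarith
        · exact Or.inr j2)
      refine QI.five bd_bd bd_bd (CC_mono (Set.empty_subset _))
        (CC_mono (Om_mono x y (by linarith))) (CC_mono (Om_mono x y (by linarith)))
        (CC_mono (Om_mono x y (by linarith))) (fun c hc => bd_mem_CC hc)
        (fun c hc => bd_mem_CC hc) (fun c hc => bd_mem_CC hc) (fun c hc => bd_mem_CC hc)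
        (fun c hc => bd_mem_CC hc) (fun c hc => bd_mem_CC hc) (fun c hc => ?_)
        (fun c hc => zq3b_mul he.1 hc (by linarith)) (fun c hc => zq3b_mul he.1 hc (by linarith))
        (fun c hc => zq3b_bd he hd hN hc) q1 q2
      rw [CC_empty, Submodule.mem_bot] at hc
      rw [hc, map_zero]
      exact Submodule.zero_mem _

theorem MT.mu (hM : D.MT F) (hD : D.DN τ) (h : D.Good τ x y) (L : ℝ) {ε : ℝ} (hε : 0 < ε)
    {K : ℕ} (hK : 0 < K) :
    ∃ (N : ℕ) (e : Ch F (Mo M)), 0 < N ∧ K ∣ N ∧ D.Per τ N x y ∧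
      e ∈ ZZ F (Om x x (N * τ + ε)) ∅ ∧ e ∈ HD F _ N ∧ ∀ b, 0 ≤ b → b ≤ L →
        ∀ z ∈ ZZ F (Om x y b) ∅, mul e z ∈ NN F (Om x y (N * τ + b)) (Om x y (N * τ)) →
          z ∈ BB F (Om x y (b + ε)) := by
  obtain ⟨N, γ, e, hN, hKN, hev, hp, hγ, hγε, he, hd, hw⟩ :=
    hM.mu1 hD h (L + 1) (lt_min hε one_pos) hK
  have g1 : γ ≤ ε := hγε.trans (min_le_left _ _)
  have g2 : γ ≤ 1 := hγε.trans (min_le_right _ _)
  refine ⟨N, e, hN, hKN, hp, ZZ_mono (Om_mono x x (by linarith)) subset_rfl he, hd,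
    fun b h0 hb z hz hez => ?_⟩
  obtain ⟨b', k1, k2, hgap⟩ : ∃ b', b ≤ b' ∧ b' ≤ b + γ / 4 ∧ D.Gap x y b' (b' + γ / 4) := by
    by_cases hg : D.Gap x y b (b + γ / 4)
    · exact ⟨b, le_rfl, by linarith, hg⟩
    · refine ⟨b + γ / 4, by linarith, le_rfl, fun v hv => ?_⟩
      simp only [Gap, not_forall, not_or, not_lt, not_le] at hg
      obtain ⟨w, hwJ, j1, j2⟩ := hg
      rcases lt_or_ge v.2 (b + γ / 4) with j3 | j3
      · exact Or.inl j3
      rcases lt_or_ge v.2 (b + γ / 4 + γ / 4) with j4 | j4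
      · have := (hw w hwJ (by linarith)).2.1 v hv (abs_le.2 ⟨by linarith, by linarith⟩)
        exfalso
        linarith
      · exact Or.inr j4
  have q := zq3b_all hM hD.pos hev hp hγ he hd hw _ b' rfl (by linarith) (by linarith) hgap
  have k3 : mul e z ∈ NN F (Om x y (N * τ + b' + γ / 4)) (Om x y (N * τ)) :=
    NN_mono (Om_mono x y (by linarith)) subset_rfl hez
  have k4 : z ∈ NN F (Om x y b') ∅ := q.1 z (CC_mono (Om_mono x y k1) hz.1) hz.2 k3
  rw [NN_empty] at k4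
  exact BB_mono (Om_mono x y (by linarith)) k4

end GD

end Pool.Agent.Fu
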