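import Mathlib
import Pool.Agent.P.MP_365c00_gt.ZQ3b

/-! Nets of pairs of one class; the top classes never die. -/

set_option linter.unusedSectionVars false
set_option linter.unusedVariables false

open Set Topology Filter Metric

namespace Pool.Agent.Fu

variable {F : Type} [Field F] {M : Type} [MetricSpace M] {Z : Type} [TopologicalSpace Z]

namespace GD
variable {D : GD M} {τ : ℝ}

/-- the pairs of class `m` are dense at the scale `θ` -/
def Net (D : GD M) (τ θ : ℝ) (m : ℕ) : Prop :=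
  ∀ p p' : M, ∃ x y, D.Per τ m x y ∧ dist x p < θ / 4 ∧ dist y p' < θ / 4

/-- three points of class `m` on a short geodesic -/
def Tri (D : GD M) (τ : ℝ) (m : ℕ) (x y z : M) : Prop :=
  ∃ u d1 d2, 0 < d1 ∧ 0 < d2 ∧ d1 + d2 < D.a / 16 ∧ D.ev u 0 = x ∧ D.ev u d1 = y ∧
    D.ev u (d1 + d2) = z ∧ D.Per τ m x y ∧ D.Per τ m y z ∧ D.Per τ m x z ∧ D.Good τ x z

theorem exists_net [CompactSpace M] (hD : D.DN τ) {θ : ℝ} (hθ : 0 < θ) :
    ∃ m, 0 < m ∧ D.Net τ θ m := by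
  obtain ⟨t, ht⟩ := isCompact_univ.elim_finite_subcover
    (fun s : {z : M × M | D.Good τ z.1 z.2} => ball (s : M × M) (θ / 4)) (fun _ => isOpen_ball)
    (fun z _ => by
      obtain ⟨s, hs, hs'⟩ := hD.dense.exists_dist_lt z (by positivity : 0 < θ / 4)
      exact mem_iUnion.2 ⟨⟨s, hs⟩, hs'⟩)
  choose k hk hk' using fun s : {z : M × M | D.Good τ z.1 z.2} => s.2.1
  have h0 : 0 < ∏ s ∈ t, k s := Finset.prod_pos fun s _ => hk s
  refine ⟨∏ s ∈ t, k s, h0, fun p p' => ?_⟩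
  obtain ⟨s, hs, hs'⟩ := mem_iUnion₂.1 (ht (mem_univ (p, p')))
  rw [mem_ball, dist_comm, Prod.dist_eq, max_lt_iff] at hs'
  exact ⟨s.1.1, s.1.2, (hk' s).dvd hD.pos (hk s) h0 (Finset.dvd_prod_of_mem k hs), hs'.1, hs'.2⟩

theorem exists_tri [Nonempty M] (hD : D.DN τ) : ∃ m x y z, 0 < m ∧ D.Tri τ m x y z := by
  obtain ⟨p⟩ := ‹Nonempty M›
  have ha := D.a_pos
  obtain ⟨s, hs, hs'⟩ := hD.dense.exists_dist_lt (p, p) (by positivity : 0 < D.a / 32)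
  obtain ⟨x, z⟩ := s
  rw [Prod.dist_eq, max_lt_iff] at hs'
  have hd : dist x z < D.a / 16 := by
    have h1 := dist_triangle_left x z p
    have h2 : dist p x < D.a / 32 := hs'.1
    have h3 : dist p z < D.a / 32 := hs'.2
    linarith
  have hg : D.Good τ x z := hs
  obtain ⟨m0, h0, p0⟩ := hg.1
  obtain ⟨u, hu⟩ := chord (D := D) p0.1.1 (by linarith)
  obtain ⟨δ, hδ, ⟨m1, h1, p1⟩, ⟨m2, h2, p2⟩⟩ := hg.2 _ hu _ hu.1
  have hm : 0 < m0 * m1 * m2 := by positivity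
  have e : δ + (dist x z - δ) = dist x z := by ring
  refine ⟨m0 * m1 * m2, x, D.ev u δ, z, hm, u, δ, dist x z - δ, hδ.1, sub_pos.2 hδ.2,
    by rw [e]; exact hd, hu.2.1, rfl, by rw [e]; exact hu.2.2, ?_, ?_, ?_, hg⟩
  · exact p1.dvd hD.pos h1 hm ((dvd_mul_left _ _).mul_right _)
  · exact p2.dvd hD.pos h2 hm (dvd_mul_left _ _)
  · exact p0.dvd hD.pos h0 hm ((dvd_mul_right _ _).mul_right _)

theorem exists_both [CompactSpace M] [Nonempty M] (hD : D.DN τ) {θ : ℝ} (hθ : 0 < θ) :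
    ∃ m x y z, 0 < m ∧ Even m ∧ D.Net τ θ m ∧ D.Tri τ m x y z := by
  obtain ⟨m1, h1, hn⟩ := exists_net hD hθ
  obtain ⟨m2, x, y, z, h2, u, d1, d2, a1, a2, a3, a4, a5, a6, p1, p2, p3, hg⟩ := exists_tri hD
  have hm : 0 < 2 * m1 * m2 := by positivity
  have hd : m2 ∣ 2 * m1 * m2 := dvd_mul_left _ _
  refine ⟨2 * m1 * m2, x, y, z, hm, (even_two.mul_right _).mul_right _, fun p p' => ?_,
    u, d1, d2, a1, a2, a3, a4, a5, a6, p1.dvd hD.pos h2 hm hd, p2.dvd hD.pos h2 hm hd,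
    p3.dvd hD.pos h2 hm hd, hg⟩
  obtain ⟨a, b, hp, hab⟩ := hn p p'
  exact ⟨a, b, hp.dvd hD.pos h1 hm ((dvd_mul_left _ _).mul_right _), hab⟩

theorem Net.dvd {θ : ℝ} {m k : ℕ} (hτ : 0 < τ) (hm : 0 < m) (h : D.Net τ θ m) (hk : 0 < k)
    (hd : m ∣ k) : D.Net τ θ k := fun p p' => by
  obtain ⟨a, b, hp, hab⟩ := h p p'
  exact ⟨a, b, hp.dvd hτ hm hk hd, hab⟩

theorem MT.never (hM : D.MT F) (hD : D.DN τ) {m : ℕ} (hm : 0 < m) {x y z : M} (h : D.Tri τ m x y z)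
    (n : ℕ) {c : Ch F (Mo M)} (hc : Top F D τ ((n + 1) * m) x y c) : c ∉ BB F (Pa x y) := by
  intro hb
  obtain ⟨u, d1, d2, a1, a2, a3, hx, hy, hz, p1, p2, p3, hg⟩ := h
  have ha := D.a_pos
  have hτ := hD.pos
  obtain ⟨t0, ht0⟩ := BB_Pa_iff.1 hb
  have dyz : dist y z = d2 := by
    have e : |d1 - (d1 + d2)| = d2 := by
      rw [show d1 - (d1 + d2) = -d2 by ring, abs_neg, abs_of_pos a2]
    rw [← hy, ← hz, D.dist_ev u _ _ (by rw [e]; linarith), e]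
  have dxz : dist x z = d1 + d2 := by
    have e : |0 - (d1 + d2)| = d1 + d2 := by
      rw [zero_sub, abs_neg, abs_of_pos (by linarith)]
    rw [← hx, ← hz, D.dist_ev u _ _ (by rw [e]; linarith), e]
  obtain ⟨L, hL1, hL2⟩ : ∃ L : ℝ, D.a ≤ L ∧ t0 - ((n + 1) * m : ℕ) * τ + D.a ≤ L :=
    ⟨max _ _, le_max_left _ _, le_max_right _ _⟩
  obtain ⟨N, e, hN, ⟨k, hk⟩, pN, he, hed, key⟩ :=
    hM.mu hD hg L (ε := D.a / 2) (by positivity) (K := (n + 2) * m) (by positivity)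
  obtain ⟨j, rfl⟩ : ∃ j, k = j + 1 := by
    rcases k with _ | j
    · simp [hk] at hN
    · exact ⟨j, rfl⟩
  have hN' : N = (n + 1) * m + ((n + 2) * j + 1) * m := by rw [hk]; ring
  clear hk
  subst hN'
  have q1 := p1.mul hτ hm (Nat.succ_pos n)
  have q2 := p2.mul hτ hm (Nat.succ_pos ((n + 2) * j))
  obtain ⟨c2, t2⟩ := hM.one hτ (by positivity) q2 (by linarith)
  obtain ⟨c3, t3⟩ := hM.one hτ hN pN (by linarith)
  obtain ⟨r, hr, h1⟩ := hM.col hτ a1 a2 (by linarith) hx hy hz q1 q2 pN hc t2 t3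
  have h2 := mul_BB_left ht0 (ZZ_mono (Omc_sub_Om y z
    (t' := (((n + 2) * j + 1) * m : ℕ) * τ + D.a) (by
      simp only [Nat.succ_eq_add_one]; linarith)) subset_rfl t2.zz)
  have h3 : c3 ∈ BB F (Om x z (((n + 1) * m + ((n + 2) * j + 1) * m : ℕ) * τ + L)) := by
    have h4 := sub_mem (BB_mono (Om_mono x z (t' := ((n + 1) * m + ((n + 2) * j + 1) * m : ℕ) * τ + L)
      (by rw [Nat.cast_add]; linarith)) h2) (BB_mono (Om_mono x z (by linarith)) h1)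
    rw [sub_sub_cancel] at h4
    exact (Submodule.smul_mem_iff _ hr).1 h4
  have hs : D.sg x z ∈ Om x z (D.a / 2) :=
    ⟨D.mem x z (by linarith), by rw [D.dur x z (by linarith)]; linarith⟩
  have z0 : (pt (D.sg x z) : Ch F (Mo M)) ∈ ZZ F (Om x z (D.a / 2)) ∅ :=
    mem_ZZ_empty.2 ⟨pt_mem_CC hs, bd_pt _⟩
  have h5 := mul_cyc he z0
  rw [add_assoc, add_halves] at h5
  have h8 := mul_mem_HD hed (pt_mem_HD (D.sg x z))
  rw [Nat.add_zero] at h8
  obtain ⟨r', h6⟩ := t3.span D.a (by linarith) le_rfl _ h5 h8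
  have h7 := add_mem (BB_mono (Om_mono x z (by linarith)) h6) (Submodule.smul_mem _ r' h3)
  rw [sub_add_cancel] at h7
  exact pt_not_mem_BB _ _ (key L (by linarith) le_rfl _
    (ZZ_mono (Om_mono x z (by linarith)) subset_rfl z0) (BB_le_NN _ _ h7))

end GD

end Pool.Agent.Fu
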