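import Mathlib
import Pool.Agent.P.MP_365c00_gt.ZQ4

/-! The lines spanned by the top classes. -/

set_option linter.unusedSectionVars false
set_option linter.unusedVariables false

open Set Topology Filter Metric

namespace Pool.Agent.Fu

variable {F : Type} [Field F] {M : Type} [MetricSpace M] {Z : Type} [TopologicalSpace Z]

theorem zq4b_back (S : GS M) {x y x' y' : M} {a : Ch F (Mo M)} (hx : 2 * dist x' x < S.a)
    (hy : 2 * dist y y' < S.a) (ha : a ∈ ZZ F (Pa x y) ∅) :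
    mp (S.wh x y) (mp (S.wh x' y') a) - a ∈ BB F (Pa x y) := by
  have e1 := dist_comm x x'
  have e2 := dist_comm y' y
  have := S.wh_wh_Pa (x'' := x) (y'' := y) (x' := x') (y' := y') (by linarith) (by linarith) ha
  rwa [S.mp_wh_self (mem_ZZ.1 ha).1] at this

theorem zq4b_mul {x y z : M} {a a' b b' : Ch F (Mo M)} {r s : F} (ha' : a' ∈ ZZ F (Pa x y) ∅)
    (hb : b ∈ ZZ F (Pa y z) ∅) (h1 : a - r • a' ∈ BB F (Pa x y))
    (h2 : b - s • b' ∈ BB F (Pa y z)) : mul a b - (r * s) • mul a' b' ∈ BB F (Pa x z) := by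
  have e : mul a b - (r * s) • mul a' b' = mul (a - r • a') b + r • mul a' (b - s • b') := by
    simp only [map_sub, map_smul, LinearMap.sub_apply, LinearMap.smul_apply, smul_sub, mul_smul]
    abel
  rw [e]
  exact Submodule.add_mem _ (mul_Pa_left h1 hb) (Submodule.smul_mem _ _ (mul_Pa_right ha' h2))

theorem zq4b_of {P : Type} [AddCommGroup P] [Module F P] {B : Submodule F P} {a b : P} {r : F}
    (h : a - r • b ∈ B) (hb : b ∈ B) : a ∈ B := by
  have := B.add_mem h (B.smul_mem r hb)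
  rwa [sub_add_cancel] at this

theorem zq4b_of' {P : Type} [AddCommGroup P] [Module F P] {B : Submodule F P} {a b : P} {r : F}
    (h : a - r • b ∈ B) (hr : r ≠ 0) (ha : a ∈ B) : b ∈ B := by
  have := B.sub_mem ha h
  rw [sub_sub_cancel] at this
  exact (B.smul_mem_iff hr).1 this

theorem zq4b_cast (n m : ℕ) (τ : ℝ) : (((n + 1) * m : ℕ) : ℝ) * τ = (n + 1) * (m * τ) := by
  push_cast
  ring

namespace GD
variable {D : GD M} {τ θ : ℝ} {m : ℕ}

/-- generators of the low part of the homology of the loop spaces -/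
structure LN (F : Type) [Field F] (D : GD M) (τ θ : ℝ) (m : ℕ) (e : M → ℕ → Ch F (Mo M)) :
    Prop where
  zz : ∀ (p : M) (n : ℕ), e p n ∈ ZZ F (Om p p ((n + 1) * (m * τ) + θ)) ∅
  hd : ∀ p n, e p n ∈ HD F _ ((n + 1) * m)
  span : ∀ (p : M) (n : ℕ), ∀ z ∈ ZZ F (Om p p ((n + 1) * (m * τ) + D.a / 2)) ∅,
    z ∈ HD F _ ((n + 1) * m) → ∃ r : F, z - r • e p n ∈ BB F (Pa p p)

theorem Top.q4pa {x y : M} {c : Ch F (Mo M)} (h : Top F D τ m x y c) : c ∈ ZZ F (Pa x y) ∅ :=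
  ZZ_mono (Omc_sub _ _ _) subset_rfl h.zz

theorem MT.exists_ln (hM : D.MT F) (hτ : 0 < τ) (hm : 0 < m) (h0 : 0 < θ) (h1 : θ ≤ D.a / 100)
    (hN : D.Net τ θ m) : ∃ e, LN F D τ θ m e := by
  have ha := D.a_pos
  have key : ∀ (p : M) (n : ℕ), ∃ e : Ch F (Mo M), e ∈ ZZ F (Om p p ((n + 1) * (m * τ) + θ)) ∅ ∧
      e ∈ HD F _ ((n + 1) * m) ∧ ∀ z ∈ ZZ F (Om p p ((n + 1) * (m * τ) + D.a / 2)) ∅,
        z ∈ HD F _ ((n + 1) * m) → ∃ r : F, z - r • e ∈ BB F (Pa p p) := by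
    intro p n
    obtain ⟨x, y, hP, hx, hy⟩ := hN p p
    have e1 := dist_comm x p
    have e2 := dist_comm y p
    have hd : dist x y < θ / 2 := by linarith [dist_triangle x p y]
    obtain ⟨c, hc⟩ := hM.one hτ (Nat.mul_pos n.succ_pos hm) (hP.mul hτ hm n.succ_pos)
      (by linarith)
    have hz := hc.zz
    have hs := hc.span D.a (by linarith) le_rfl
    rw [zq4b_cast] at hz hs
    refine ⟨mp (D.wh p p) c, D.wh_cyc (t := (n + 1) * (m * τ) + θ / 2) (by linarith) (by linarith)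
      (by linarith) (ZZ_mono (Omc_sub_Om _ _ (by linarith)) subset_rfl hz), mp_mem_HD _ hc.hd,
      fun z hz hd => ?_⟩
    obtain ⟨r, hr⟩ := hs (mp (D.wh x y) z) (D.wh_cyc (by linarith) (by linarith) (by linarith) hz)
      (mp_mem_HD _ hd)
    refine ⟨r, ?_⟩
    have a1 := D.wh_BB_Pa (x' := p) (y' := p) (by linarith) (by linarith)
      (BB_mono (Om_sub _ _ _) hr)
    have a2 := zq4b_back D.toGS (x' := x) (y' := y) (by linarith) (by linarith)
      (ZZ_mono (Om_sub _ _ _) subset_rfl hz)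
    have := Submodule.sub_mem _ a1 a2
    rwa [map_sub, map_smul, sub_sub_sub_cancel_left] at this
  choose e a1 a2 a3 using key
  exact ⟨e, a1, a2, a3⟩

variable {e : M → ℕ → Ch F (Mo M)}

theorem LN.q4pa (h : LN F D τ θ m e) (p : M) (n : ℕ) : e p n ∈ ZZ F (Pa p p) ∅ :=
  ZZ_mono (Om_sub _ _ _) subset_rfl (h.zz p n)

theorem LN.q4top (h : LN F D τ θ m e) {p x y : M} {n : ℕ} {c : Ch F (Mo M)}
    (hc : Top F D τ ((n + 1) * m) x y c) (hx : dist p x < D.a / 8) (hy : dist y p < D.a / 8)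
    (hd : dist x y < D.a / 8) : ∃ r : F, mp (D.wh p p) c - r • e p n ∈ BB F (Pa p p) := by
  have ha := D.a_pos
  have hz := hc.zz
  rw [zq4b_cast] at hz
  exact h.span p n _ (D.wh_cyc (t := (n + 1) * (m * τ) + D.a / 8) (by linarith) (by linarith)
    (by linarith) (ZZ_mono (Omc_sub_Om _ _ (by linarith)) subset_rfl hz)) (mp_mem_HD _ hc.hd)

theorem LN.conj (h : LN F D τ θ m e) (h1 : θ ≤ D.a / 100) {p p' : M} (hp : dist p p' < D.a / 8)
    (n : ℕ) : ∃ r : F, mp (D.wh p' p') (e p n) - r • e p' n ∈ BB F (Pa p' p') := by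
  have ha := D.a_pos
  have e1 := dist_comm p p'
  exact h.span p' n _ (D.wh_cyc (by linarith) (by linarith) (by linarith) (h.zz p n))
    (mp_mem_HD _ (h.hd p n))

/-- a property that passes to near points holds everywhere -/
theorem clopen_ind [ConnectedSpace M] {P : M → Prop} {r : ℝ} (hr : 0 < r)
    (h : ∀ p p', dist p p' < r → P p → P p') {x : M} (hx : P x) (p : M) : P p := by
  have h1 : IsOpen {p | P p} := Metric.isOpen_iff.2 fun q hq =>
    ⟨r, hr, fun q' hq' => h q q' (by rw [dist_comm]; exact hq') hq⟩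
  have h2 : IsClosed {p | P p} := isOpen_compl_iff.1 (Metric.isOpen_iff.2 fun q hq =>
    ⟨r, hr, fun q' hq' hP => hq (h q' q hq' hP)⟩)
  have h3 : {p | P p} = univ := IsClopen.eq_univ ⟨h2, h1⟩ ⟨x, hx⟩
  have : p ∈ {p | P p} := h3 ▸ mem_univ p
  exact this

theorem Tri.q4lt {x y z : M} (hT : D.Tri τ m x y z) :
    dist x y < D.a / 16 ∧ dist y z < D.a / 16 ∧ dist x z < D.a / 16 := by
  obtain ⟨u, d1, d2, p1, p2, hd, rfl, rfl, rfl, -⟩ := hT
  have ha := D.a_pos
  have e1 : |0 - d1| = d1 := by rw [zero_sub, abs_neg, abs_of_pos p1]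
  have e2 : |d1 - (d1 + d2)| = d2 := by rw [sub_add_cancel_left, abs_neg, abs_of_pos p2]
  have e3 : |0 - (d1 + d2)| = d1 + d2 := by rw [zero_sub, abs_neg, abs_of_pos (by linarith)]
  rw [D.dist_ev u _ _ (by linarith), D.dist_ev u _ _ (by linarith), D.dist_ev u _ _ (by linarith)]
  refine ⟨by linarith, by linarith, by linarith⟩

theorem LN.ne [ConnectedSpace M] (hM : D.MT F) (hD : D.DN τ) (hm : 0 < m) (h : LN F D τ θ m e)
    (h1 : θ ≤ D.a / 100) {x y z : M} (hT : D.Tri τ m x y z) (p : M) (n : ℕ) :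
    e p n ∉ BB F (Pa p p) := by
  have ha := D.a_pos
  obtain ⟨d1, -, -⟩ := hT.q4lt
  have e0 := dist_self x
  have e1 := dist_comm x y
  refine clopen_ind (P := fun p => e p n ∉ BB F (Pa p p)) (r := D.a / 8) (x := x) (by linarith)
    (fun p p' hp hP hb => ?_) (fun hb => ?_) p
  · obtain ⟨r, hr⟩ := h.conj h1 hp n
    have e2 := dist_comm p p'
    exact hP (D.BB_of_wh_Pa (by linarith) (by linarith) (h.q4pa p n) (zq4b_of hr hb))
  · have hT' := hT
    obtain ⟨u, -, -, -, -, -, -, -, -, hP, -⟩ := hT'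
    obtain ⟨c, hc⟩ := hM.one hD.pos (Nat.mul_pos n.succ_pos hm) (hP.mul hD.pos hm n.succ_pos)
      (by linarith)
    obtain ⟨r, hr⟩ := h.q4top (p := x) hc (by linarith) (by linarith) (by linarith)
    exact hM.never hD hm hT n hc
      (D.BB_of_wh_Pa (by linarith) (by linarith) hc.q4pa (zq4b_of hr hb))

theorem LN.mul_ne [ConnectedSpace M] (hM : D.MT F) (hD : D.DN τ) (hm : 0 < m) (h : LN F D τ θ m e)
    (h1 : θ ≤ D.a / 100) {x y z : M} (hT : D.Tri τ m x y z) (p : M) (n n' : ℕ) :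
    mul (e p n) (e p n') ∉ BB F (Pa p p) := by
  have ha := D.a_pos
  obtain ⟨d1, d2, d3⟩ := hT.q4lt
  have e0 := dist_self x
  have e1 := dist_comm x y
  have e3 := dist_comm x z
  refine clopen_ind (P := fun p => mul (e p n) (e p n') ∉ BB F (Pa p p)) (r := D.a / 8) (x := x)
    (by linarith) (fun p p' hp hP hb => ?_) (fun hb => ?_) p
  · obtain ⟨r, hr⟩ := h.conj h1 hp n
    obtain ⟨s, hs⟩ := h.conj h1 hp n'
    have e2 := dist_comm p p'
    have a1 := zq4b_of (zq4b_mul (h.q4pa p' n)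
      (D.wh_Pa (by linarith) (by linarith) (h.q4pa p n')) hr hs) hb
    have a2 := D.wh_mul_Pa (x' := p') (y' := p') (z' := p') (by linarith) (by linarith)
      (by linarith) (h.q4pa p n) (h.q4pa p n')
    have a3 := Submodule.sub_mem _ a1 a2
    rw [sub_sub_cancel] at a3
    exact hP (D.BB_of_wh_Pa (by linarith) (by linarith) (mul_Pa (h.q4pa p n) (h.q4pa p n')) a3)
  · have hT' := hT
    obtain ⟨u, l1, l2, p1, p2, hl, ux, uy, uz, P1, P2, P3, -⟩ := hT'
    have en : (n + 1) * m + (n' + 1) * m = (n + n' + 1 + 1) * m := by ring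
    have Q1 := P1.mul hD.pos hm n.succ_pos
    have Q2 := P2.mul hD.pos hm n'.succ_pos
    have Q3 := P3.mul hD.pos hm (n + n' + 1).succ_pos
    obtain ⟨c1, t1⟩ := hM.one hD.pos (Nat.mul_pos n.succ_pos hm) Q1 (by linarith)
    obtain ⟨c2, t2⟩ := hM.one hD.pos (Nat.mul_pos n'.succ_pos hm) Q2 (by linarith)
    obtain ⟨c3, t3⟩ := hM.one hD.pos (Nat.mul_pos (n + n' + 1).succ_pos hm) Q3 (by linarith)
    obtain ⟨r, hr0, hr⟩ := hM.col hD.pos p1 p2 (by linarith) ux uy uz Q1 Q2 (en ▸ Q3) t1 t2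
      (en ▸ t3)
    obtain ⟨r1, s1⟩ := h.q4top (p := x) t1 (by linarith) (by linarith) (by linarith)
    obtain ⟨r2, s2⟩ := h.q4top (p := x) t2 (by linarith) (by linarith) (by linarith)
    have a1 := zq4b_of (zq4b_mul (h.q4pa x n) (D.wh_Pa (by linarith) (by linarith) t2.q4pa) s1 s2) hb
    have a2 := D.wh_mul_Pa (x' := x) (y' := x) (z' := x) (by linarith) (by linarith)
      (by linarith) t1.q4pa t2.q4pa
    have a3 := Submodule.sub_mem _ a1 a2
    rw [sub_sub_cancel] at a3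
    have a4 := D.BB_of_wh_Pa (by linarith) (by linarith) (mul_Pa t1.q4pa t2.q4pa) a3
    have a5 := zq4b_of' (BB_mono (Om_sub _ _ _) hr) hr0 a4
    have hs := t3.span D.a (by linarith) le_rfl
    rw [zq4b_cast] at hs
    obtain ⟨r3, s3⟩ := hs (mp (D.wh x z) (e x (n + n' + 1)))
      (D.wh_cyc (by linarith) (by linarith) (by linarith) (h.zz x _)) (mp_mem_HD _ (h.hd x _))
    exact h.ne hM hD hm h1 hT x _ (D.BB_of_wh_Pa (by linarith) (by linarith) (h.q4pa x _)
      (zq4b_of (BB_mono (Om_sub _ _ _) s3) a5))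

theorem LN.q4pw [ConnectedSpace M] (hM : D.MT F) (hD : D.DN τ) (hm : 0 < m) (h : LN F D τ θ m e)
    (h1 : θ ≤ D.a / 100) {x y z : M} (hT : D.Tri τ m x y z) (p : M) (j : ℕ) :
    ∃ r : F, r ≠ 0 ∧ pwr j (e p 0) - r • e p j ∈ BB F (Pa p p) := by
  have ha := D.a_pos
  induction j with
  | zero => exact ⟨1, one_ne_zero, by simp [pwr]⟩
  | succ j ih =>
    obtain ⟨r, hr0, hr⟩ := ih
    have a1 := zq4b_mul (s := 1) (b' := e p 0) (h.q4pa p j) (h.q4pa p 0) hr (by simp)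
    have en : (j + 1) * m + (0 + 1) * m = (j + 1 + 1) * m := by ring
    obtain ⟨s, hs⟩ := h.span p (j + 1) (mul (e p j) (e p 0))
      (ZZ_mono (Om_mono _ _ (by push_cast; linarith)) subset_rfl (mul_cyc (h.zz p j) (h.zz p 0)))
      (en ▸ mul_mem_HD (h.hd p j) (h.hd p 0))
    have hs0 : s ≠ 0 := by
      rintro rfl
      exact h.mul_ne hM hD hm h1 hT p j 0 (by simpa using hs)
    refine ⟨r * s, mul_ne_zero hr0 hs0, ?_⟩
    have a2 := Submodule.add_mem _ a1 (Submodule.smul_mem _ r hs)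
    rwa [mul_one, smul_sub, sub_add_sub_cancel, ← mul_smul] at a2

/-- the powers are representable at the level `σ` above the multiples of the period -/
def Low (F : Type) [Field F] (τ σ : ℝ) (n : ℕ) (x : M → Ch F (Mo M)) : Prop :=
  ∀ (p : M) (k : ℕ), ∃ z ∈ ZZ F (Om p p ((k + 1) * (n * τ) + σ)) ∅, z ∈ HD F _ ((k + 1) * n) ∧
    z - pwr k (x p) ∈ BB F (Pa p p)

/-- an invariant family with nonzero powers -/
structure FX (F : Type) [Field F] (D : GD M) (τ θ : ℝ) (n : ℕ) (x : M → Ch F (Mo M)) : Prop where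
  pos : 0 < n
  even : Even n
  net : D.Net τ θ n
  cyc : ∀ p, x p ∈ ZZ F (Pa p p) ∅
  deg : ∀ p, x p ∈ HD F _ n
  conj : ∀ p p' : M, dist p p' < D.a / 8 → mp (D.wh p' p') (x p) - x p' ∈ BB F (Pa p' p')
  nz : ∀ p k, pwr k (x p) ∉ BB F (Pa p p)
  low : Low F τ θ n x

theorem MT.exists_fx [ConnectedSpace M] (hM : D.MT F) (hD : D.DN τ) (hm : 0 < m) (he : Even m)
    (h0 : 0 < θ) (h1 : θ ≤ D.a / 100) (hN : D.Net τ θ m) {x y z : M} (hT : D.Tri τ m x y z) {k : ℕ}
    (hF : ∀ r : F, r ≠ 0 → r ^ (k + 1) = 1) : ∃ X, FX F D τ θ ((k + 1) * m) X := by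
  have ha := D.a_pos
  obtain ⟨e, h⟩ := hM.exists_ln hD.pos hm h0 h1 hN
  have hd : ∀ p, e p 0 ∈ HD F _ m := fun p => by simpa using h.hd p 0
  refine ⟨fun p => pwr k (e p 0), Nat.mul_pos k.succ_pos hm, he.mul_left _,
    hN.dvd hD.pos hm (Nat.mul_pos k.succ_pos hm) (Dvd.intro_left _ rfl),
    fun p => pwr_mem k (h.q4pa p 0), fun p => pwr_HD k (hd p), fun p p' hp => ?_, fun p j hb => ?_,
    fun p j => ?_⟩
  · obtain ⟨r, hr⟩ := h.conj h1 hp 0
    have e2 := dist_comm p p'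
    have hr0 : r ≠ 0 := by
      rintro rfl
      exact h.ne hM hD hm h1 hT p 0
        (D.BB_of_wh_Pa (by linarith) (by linarith) (h.q4pa p 0) (by simpa using hr))
    have a1 := D.wh_pwr (x' := p') (by linarith) k (h.q4pa p 0)
    have a2 := pwr_congr k (D.wh_Pa (by linarith) (by linarith) (h.q4pa p 0))
      (Submodule.smul_mem _ r (h.q4pa p' 0)) hr
    rw [pwr_smul, hF r hr0, one_smul] at a2
    have a3 := Submodule.sub_mem _ a2 a1
    rwa [sub_sub_sub_cancel_left] at a3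
  · obtain ⟨r, hr0, hr⟩ := h.q4pw hM hD hm h1 hT p (j * (k + 1) + k)
    rw [pwr_pwr j k (h.q4pa p 0)] at hb
    exact h.ne hM hD hm h1 hT p _ (zq4b_of' hr hr0 hb)
  · obtain ⟨r, hr0, hr⟩ := h.q4pw hM hD hm h1 hT p (j * (k + 1) + k)
    have en : (j * (k + 1) + k + 1) * m = (j + 1) * ((k + 1) * m) := by ring
    refine ⟨r • e p (j * (k + 1) + k), Submodule.smul_mem _ r
      (ZZ_mono (Om_mono _ _ (le_of_eq (by push_cast; ring))) subset_rfl (h.zz p _)),
      Submodule.smul_mem _ r (en ▸ h.hd p _), ?_⟩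
    rw [pwr_pwr j k (h.q4pa p 0), ← neg_sub]
    exact Submodule.neg_mem _ hr

end GD

end Pool.Agent.Fu
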