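import Mathlib
import Pool.Agent.P.MP_365c00_gt.ZQ4b

/-! Properties of an invariant family. -/

set_option linter.unusedSectionVars false
set_option linter.unusedVariables false

open Set Topology Filter Metric

namespace Pool.Agent.Fu

variable {F : Type} [Field F] {M : Type} [MetricSpace M] {Z : Type} [TopologicalSpace Z]

namespace GD
variable {D : GD M} {τ θ σ : ℝ} {n : ℕ} {X : M → Ch F (Mo M)}

theorem Low.mono {σ' : ℝ} (h : Low F τ σ n X) (hσ : σ ≤ σ') : Low F τ σ' n X := by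
  intro p k
  obtain ⟨z, h1, h2, h3⟩ := h p k
  exact ⟨z, ZZ_mono (Om_mono p p (by linarith)) (subset_refl _) h1, h2, h3⟩
theorem Low.pwr (h : Low F τ σ n X) (hc : ∀ p, X p ∈ ZZ F (Pa p p) ∅) (j : ℕ) :
    Low F τ σ ((j + 1) * n) fun p => pwr j (X p) := by
  intro p k
  obtain ⟨z, h1, h2, h3⟩ := h p (k * (j + 1) + j)
  refine ⟨z, ZZ_mono (Om_mono p p (le_of_eq ?_)) (subset_refl _) h1, ?_, ?_⟩
  · push_cast
    ring
  · rwa [show (k + 1) * ((j + 1) * n) = (k * (j + 1) + j + 1) * n by ring]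
  · rwa [pwr_pwr k j (hc p)]
theorem FX.pwr (hτ : 0 < τ) (h : FX F D τ θ n X) (j : ℕ) :
    FX F D τ θ ((j + 1) * n) fun p => pwr j (X p) := by
  have hn := h.pos
  have hp : 0 < (j + 1) * n := by positivity
  refine ⟨hp, h.even.mul_left _, h.net.dvd hτ hn hp (Dvd.intro_left _ rfl),
    fun p => pwr_mem j (h.cyc p), fun p => pwr_HD j (h.deg p), fun p p' hd => ?_,
    fun p k => ?_, h.low.pwr h.cyc j⟩
  · have ha := D.a_pos
    have d1 : dist p p' < D.a := by linarith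
    have d2 : dist p' p < D.a := by rwa [dist_comm]
    have h1 := D.toGS.wh_pwr (x := p) (x' := p') (by linarith) j (h.cyc p)
    have h2 := pwr_congr j (D.toGS.wh_Pa d2 d1 (h.cyc p)) (h.cyc p') (h.conj p p' hd)
    have := Submodule.sub_mem _ h2 h1
    rwa [sub_sub_sub_cancel_left] at this
  · rw [pwr_pwr k j (h.cyc p)]
    exact h.nz p _

theorem mul_congr_zq5 {x y z : M} {a a' b b' : Ch F (Mo M)} (h1 : a - a' ∈ BB F (Pa x y))
    (h2 : b - b' ∈ BB F (Pa y z)) (ha : a' ∈ ZZ F (Pa x y) ∅) (hb : b ∈ ZZ F (Pa y z) ∅) :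
    mul a b - mul a' b' ∈ BB F (Pa x z) := by
  have := Submodule.add_mem _ (mul_Pa_left h1 hb) (mul_Pa_right ha h2)
  rwa [map_sub, LinearMap.sub_apply, map_sub, sub_add_sub_cancel] at this

/-- a gap in the length spectrum of one pair bounds the level from below -/
theorem FX.not_low (hM : D.MT F) (hτ : 0 < τ) (h : FX F D τ θ n X) {x y : M} {m : ℕ} (hm : 0 < m)
    (hp : D.Per τ m x y) (hd : dist x y < D.a / 16)
    (hg : D.Gap x y (n * τ + dist x y - σ) (n * τ + dist x y + σ)) : ¬ Low F τ σ n X := by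
  intro hl
  have ha := D.a_pos
  have hn := h.pos
  have d0 : dist x x < D.a := by rwa [dist_self]
  have d1 : dist x y < D.a := by linarith
  obtain ⟨k, hk⟩ : ∃ k, k + 2 = 2 * m := ⟨2 * m - 2, by omega⟩
  obtain ⟨z0, a1, a2, a3⟩ := hl x 0
  obtain ⟨z1, b1, b2, b3⟩ := hl y k
  have c1 : mp (D.wh x y) z0 ∈ ZZ F (Om x y (n * τ + dist x y + σ)) ∅ :=
    D.toGS.wh_cyc d0 d1 (le_of_eq (by rw [dist_self]; push_cast; ring)) a1
  have c2 : mp (D.wh x y) z0 ∈ HD F _ n := by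
    have := mp_mem_HD (D.wh x y) a2
    rwa [zero_add, one_mul] at this
  obtain ⟨g, g1, g2, g3⟩ :=
    NN_HD c2 (hM.mt0 x y _ _ hp.1.1 hg (ZZ_mono (subset_refl _) (empty_subset _) c1))
  have e1 : mp (D.wh x y) z0 - bd g ∈ ZZ F (Om x y (n * τ + dist x y - σ)) ∅ :=
    mem_ZZ_empty.2 ⟨g3, by rw [map_sub, bd_bd, (mem_ZZ_empty.1 c1).2, sub_zero]⟩
  have e2 : mp (D.wh x y) z0 - bd g ∈ HD F _ n := Submodule.sub_mem _ c2 (bd_mem_HD g2)
  have hP : D.Per τ ((k + 2) * n) x y :=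
    hp.dvd hτ hm (by positivity) ⟨2 * n, by rw [hk]; ring⟩
  have f1 : mul (mp (D.wh x y) z0 - bd g) z1 ∈
      BB F (Om x y (((k + 2) * n : ℕ) * τ + dist x y)) := by
    refine hM.van (k := (k + 2) * n) hP d1.le (Or.inr ⟨Nat.le_succ _, le_rfl⟩) ?_ ?_
    · refine ZZ_mono (Om_mono x y (le_of_eq ?_)) (subset_refl _) (mul_cyc e1 b1)
      push_cast
      ring
    · have := mul_mem_HD e2 b2
      rwa [show n + (k + 1) * n = (k + 2) * n by ring] at this
  have f2 : mp (D.wh x y) z0 - bd g - mp (D.wh x y) (X x) ∈ BB F (Pa x y) := by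
    have t1 := D.toGS.wh_BB_Pa d0 d1 a3
    have t2 : bd g ∈ BB F (Pa x y) := mem_BB.2 ⟨g, CC_mono (Om_sub x y _) g1, rfl⟩
    have := Submodule.sub_mem _ t1 t2
    rwa [map_sub, sub_right_comm] at this
  have f3 : z1 - mp (D.wh y y) (Fu.pwr k (X x)) ∈ BB F (Pa y y) := by
    have := Submodule.sub_mem _ b3 ((h.pwr hτ k).conj x y (by linarith))
    rwa [sub_sub_sub_cancel_right] at this
  have f4 := mul_congr_zq5 f2 f3 (D.toGS.wh_Pa d0 d1 (h.cyc x))
    (ZZ_mono (Om_sub y y _) (subset_refl _) b1)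
  have f5 := D.toGS.wh_mul_Pa (x := x) (y := x) (z := x) (x' := x) (y' := y) (z' := y) d0
    (by linarith) d1 (h.cyc x) (pwr_mem k (h.cyc x))
  have f6 := Submodule.sub_mem _ (BB_mono (Om_sub x y _) f1) (Submodule.add_mem _ f4 f5)
  rw [sub_add_sub_cancel, sub_sub_cancel] at f6
  refine h.nz x (0 + k + 1) ?_
  rw [pwr_add 0 k (h.cyc x)]
  exact D.toGS.BB_of_wh_Pa (x' := x) (y' := y) (by rw [dist_self]; linarith) (by linarith)
    (mul_Pa (h.cyc x) (pwr_mem k (h.cyc x))) f6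

theorem near_zq5 (hM : D.MT F) (h1 : θ ≤ D.a / 100) {p x y : M} (hr : D.Reg x y)
    (hx : dist x p < θ / 4) (hy : dist y p < θ / 4) {k : ℕ} {t : ℝ}
    (hv : ∀ v ∈ D.J x y, v.2 < t + θ / 2 → D.ind v.1 v.2 ≠ k)
    {z : Ch F (Mo M)} (hz : z ∈ ZZ F (Om p p t) ∅) (hd : z ∈ HD F _ k) :
    z ∈ BB F (Om p p (t + θ)) := by
  have ha := D.a_pos
  rw [dist_comm] at hy
  have c1 : mp (D.wh x y) z ∈ ZZ F (Om x y (t + θ / 2)) ∅ :=
    D.toGS.wh_cyc (by linarith) (by linarith) (by linarith) hz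
  exact D.toGS.BB_of_wh (x' := x) (y' := y) (by linarith) (by linarith) (by linarith)
    (by linarith) hz (hM.abs hr hv c1 (mp_mem_HD _ hd))

theorem Net.coarse (hM : D.MT F) (hτ : 0 < τ) (hn : 0 < n) (h1 : θ ≤ D.a / 100) (h : D.Net τ θ n)
    (p : M) (j k : ℕ) (b : ℝ) (hb : 0 ≤ b) (hk : (j + 1) * n + D.C0 * (b + θ) < k)
    {z : Ch F (Mo M)} (hz : z ∈ ZZ F (Om p p ((j + 1) * (n * τ) + b)) ∅) (hd : z ∈ HD F _ k) :
    z ∈ BB F (Om p p ((j + 1) * (n * τ) + b + θ)) := by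
  obtain ⟨x, y, hp, hx, hy⟩ := h p p
  have hθ : 0 < θ := by linarith [dist_nonneg (x := x) (y := p)]
  have hC := D.C0_pos
  have hP := hp.mul hτ hn (Nat.succ_pos j)
  refine near_zq5 hM h1 hp.1 hx hy (fun v hv hl he => ?_) hz hd
  have h0 : 0 ≤ D.C0 * (b + θ) := by positivity
  rcases lt_or_ge v.2 ((j.succ * n : ℕ) * τ) with c | c
  · have t1 : ((D.ind v.1 v.2 + 2 : ℕ) : ℝ) ≤ (j.succ * n : ℕ) := by
      exact_mod_cast (hP.2 v hv).2.2 c
    rw [he] at t1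
    push_cast at t1
    linarith
  · obtain ⟨t1, t2⟩ := hP.sub hv c
    have t3 := D.ind_le v.1 _ t1.1
    have t4 : (k : ℝ) = D.ind v.1 (v.2 - (j.succ * n : ℕ) * τ) + (j.succ * n : ℕ) := by
      rw [← he, t2]
      push_cast
      rfl
    have t5 : D.C0 * (v.2 - (j.succ * n : ℕ) * τ) ≤ D.C0 * (b + θ) := by
      refine mul_le_mul_of_nonneg_left ?_ hC.le
      push_cast
      linarith
    push_cast at t3 t4 t5
    linarith

theorem MT.strip [CompactSpace M] (hD : D.DN τ) {η : ℝ} (hη : 0 < η) :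
    ∃ A : ℝ, ∀ (F : Type) [Field F], D.MT F → ∀ (p : M) (k : ℕ) (t : ℝ), t / τ + A < k →
      ∀ z ∈ ZZ F (Om p p t) ∅, z ∈ HD F _ k → z ∈ BB F (Om p p (t + η)) := by
  have ha := D.a_pos
  have hτ := hD.pos
  have h0 : 0 < min η (D.a / 100) := lt_min hη (by linarith)
  obtain ⟨m, hm, hN⟩ := exists_net hD h0
  refine ⟨D.C0 * (m * τ) + min η (D.a / 100) / τ, fun F _ hM p k t hk z hz hd => ?_⟩
  obtain ⟨x, y, hp, hx, hy⟩ := hN p p
  refine BB_mono (Om_mono p p ?_)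
    (near_zq5 hM (min_le_right _ _) hp.1 hx hy (fun v hv hl he => ?_) hz hd)
  · linarith [min_le_left η (D.a / 100)]
  · have t1 := hp.ind_le hτ hm hv
    have t2 : v.2 / τ ≤ (t + min η (D.a / 100)) / τ :=
      div_le_div_of_nonneg_right (by linarith) hτ.le
    rw [add_div] at t2
    rw [he] at t1
    linarith

end GD

end Pool.Agent.Fu
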