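import Mathlib
import Pool.Agent.P.MP_365c00_gt.ZQ5

/-! Vanishing at a cost proportional to the level of the family. -/

set_option linter.unusedSectionVars false
set_option linter.unusedVariables false

open Set Topology Filter Metric

namespace Pool.Agent.Fu

variable {F : Type} [Field F] {M : Type} [MetricSpace M] {Z : Type} [TopologicalSpace Z]

namespace GD
variable {D : GD M} {τ θ s : ℝ} {n : ℕ} {X : M → Ch F (Mo M)}

theorem zq5b_zz {x y : M} {t t' : ℝ} {a : Ch F (Mo M)} (h : a ∈ ZZ F (Om x y t) ∅) (ht : t ≤ t') :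
    a ∈ ZZ F (Om x y t') ∅ := ZZ_mono (Om_mono x y ht) (subset_refl _) h

theorem zq5b_bb {x y : M} {t t' : ℝ} {a : Ch F (Mo M)} (h : a ∈ BB F (Om x y t)) (ht : t ≤ t') :
    a ∈ BB F (Om x y t') := BB_mono (Om_mono x y ht) h

theorem zq5b_zp {x y : M} {t : ℝ} {a : Ch F (Mo M)} (h : a ∈ ZZ F (Om x y t) ∅) :
    a ∈ ZZ F (Pa x y) ∅ := ZZ_mono (Om_sub x y t) (subset_refl _) h

theorem zq5b_bp {x y : M} {t : ℝ} {a : Ch F (Mo M)} (h : a ∈ BB F (Om x y t)) :
    a ∈ BB F (Pa x y) := BB_mono (Om_sub x y t) h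

/-- the top class of a near pair never dies -/
theorem FX.top_ne (h : FX F D τ θ n X) (h1 : θ ≤ D.a / 100) {x y : M} (hd : dist x y < D.a / 8)
    (j : ℕ) {c : Ch F (Mo M)} (hc : Top F D τ ((j + 1) * n) x y c) : c ∉ BB F (Pa x y) := by
  intro hb
  have ha := D.a_pos
  have h0 := dist_self x
  obtain ⟨l, l1, l2, l3⟩ := h.low x j
  obtain ⟨r, hr⟩ := hc.span D.a (by linarith) le_rfl (mp (D.wh x y) l)
    (D.wh_cyc (by linarith) (by linarith) (by push_cast; linarith) l1) (mp_mem_HD _ l2)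
  have h2 := Submodule.add_mem _ (zq5b_bp hr) (Submodule.smul_mem _ r hb)
  rw [sub_add_cancel] at h2
  have h3 := D.BB_of_wh_Pa (by linarith) (by linarith) (zq5b_zp l1) h2
  have h4 := Submodule.sub_mem _ h3 l3
  rw [sub_sub_cancel] at h4
  exact h.nz x j h4

/-- a cycle of the critical degree or above bounds at its level -/
theorem zq5b_van (hM : D.MT F) (hτ : 0 < τ) (h : FX F D τ θ n X) (h1 : θ ≤ D.a / 100) {x y : M}
    (hd : dist x y < D.a / 8) {j k : ℕ} (hp : D.Per τ ((j + 1) * n) x y) {b : ℝ} (hb : b ≤ D.a)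
    {z : Ch F (Mo M)} (hz : z ∈ ZZ F (Om x y (((j + 1) * n : ℕ) * τ + b)) ∅) (hk : z ∈ HD F _ k)
    (hh : (j + 1) * n < k ∨ (k = (j + 1) * n ∧ z ∈ BB F (Pa x y))) :
    z ∈ BB F (Om x y (((j + 1) * n : ℕ) * τ + b)) := by
  have ha := D.a_pos
  rcases hh with hh | ⟨rfl, hh⟩
  · exact hM.van hp hb (Or.inl hh) hz hk
  rcases le_or_gt b (dist x y) with h2 | h2
  · exact hM.van hp hb (Or.inr ⟨Nat.le_succ _, h2⟩) hz hk
  obtain ⟨c, hc⟩ := hM.one hτ (Nat.mul_pos (Nat.succ_pos j) h.pos) hp (by linarith)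
  obtain ⟨r, hr⟩ := hc.span b h2 hb z hz hk
  have h3 := Submodule.sub_mem _ hh (zq5b_bp hr)
  rw [sub_sub_cancel] at h3
  have h4 : r = 0 := by
    by_contra h5
    exact h.top_ne h1 hd j hc ((Submodule.smul_mem_iff _ h5).1 h3)
  rwa [h4, zero_smul, sub_zero] at hr

/-- two cycles of the critical degree are proportional -/
theorem zq5b_prop (hM : D.MT F) (hτ : 0 < τ) {x y : M} {N : ℕ} (hN : 0 < N) (hp : D.Per τ N x y)
    {b : ℝ} (hb : 0 < b) (hd : b + 2 * dist x y < D.a) {e u : Ch F (Mo M)}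
    (he : e ∈ ZZ F (Om x x (N * τ + b)) ∅) (he' : e ∈ HD F _ N)
    (hu : u ∈ ZZ F (Om x x (N * τ + b)) ∅) (hu' : u ∈ HD F _ N) (hn : u ∉ BB F (Pa x x)) :
    ∃ r : F, e - r • u ∈ BB F (Om x x (N * τ + b + 2 * dist x y)) := by
  have h0 := dist_self x
  have h1 := dist_nonneg (x := x) (y := y)
  obtain ⟨c, hc⟩ := hM.one hτ hN hp (by linarith)
  obtain ⟨r, hr⟩ := hc.span (b + dist x y) (by linarith) (by linarith) (mp (D.wh x y) e)
    (D.wh_cyc (by linarith) (by linarith) (by linarith) he) (mp_mem_HD _ he')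
  obtain ⟨r', hr'⟩ := hc.span (b + dist x y) (by linarith) (by linarith) (mp (D.wh x y) u)
    (D.wh_cyc (by linarith) (by linarith) (by linarith) hu) (mp_mem_HD _ hu')
  have h2 : r' ≠ 0 := by
    rintro rfl
    rw [zero_smul, sub_zero] at hr'
    exact hn (D.BB_of_wh_Pa (by linarith) (by linarith) (zq5b_zp hu) (zq5b_bp hr'))
  refine ⟨r / r', D.BB_of_wh (x' := x) (y' := y) (t := N * τ + b) (t' := N * τ + (b + dist x y))
    (by linarith) (by linarith) (by linarith) (by linarith)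
    (Submodule.sub_mem _ he (Submodule.smul_mem _ _ hu)) ?_⟩
  have h3 := Submodule.sub_mem _ hr (Submodule.smul_mem _ (r / r') hr')
  rwa [smul_sub, smul_smul, div_mul_cancel₀ r h2, sub_sub_sub_cancel_right, ← map_smul,
    ← map_sub] at h3

theorem FX.fine (hM : D.MT F) (hD : D.DN τ) (h : FX F D τ θ n X) (h1 : θ ≤ D.a / 100) (hs : 0 < s)
    (hsθ : s ≤ θ) (hl : Low F τ (4 * s) n X) (p : M) (j k : ℕ) (t : ℝ)
    (ht : t ≤ (j + 1) * (n * τ) + D.a / 8) {z : Ch F (Mo M)} (hz : z ∈ ZZ F (Om p p t) ∅)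
    (hd : z ∈ HD F _ k) (hk : (j + 1) * n < k ∨ (k = (j + 1) * n ∧ z ∈ BB F (Pa p p))) :
    z ∈ BB F (Om p p (t + 12 * s)) := by
  have hτ := hD.pos
  rcases le_or_gt t 0 with ht0 | ht0
  · have h2 := (mem_ZZ.1 hz).1
    rw [Om_empty (by rwa [dist_self]), CC_empty, Submodule.mem_bot] at h2
    rw [h2]
    exact Submodule.zero_mem _
  obtain ⟨⟨x, y⟩, hG, hxy⟩ := hD.dense.exists_dist_lt (p, p) (by linarith : 0 < s / 3)
  rw [Prod.dist_eq, max_lt_iff] at hxy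
  have dx : dist x p < s / 3 := by rw [dist_comm]; exact hxy.1
  have dy : dist p y < s / 3 := hxy.2
  have dxy := dist_triangle x p y
  obtain ⟨m, hm, hp⟩ := hG.1
  have z1 : mp (D.wh x y) z ∈ ZZ F (Om x y (t + 2 * s / 3)) ∅ :=
    D.wh_cyc (by linarith) (by linarith) (by linarith) hz
  obtain ⟨n', hn'⟩ : ∃ n', m * (j + 2) = j + n' + 1 + 1 :=
    ⟨m * (j + 2) - (j + 2), by have := Nat.le_mul_of_pos_left (j + 2) hm; omega⟩
  obtain ⟨N, e, hN, ⟨N0, hN0⟩, hpN, e1, e2, hmu⟩ := hM.mu hD hG (t + 10 * s)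
    (by linarith : 0 < s / 3) (Nat.mul_pos h.pos (Nat.succ_pos (n' + 1)))
  obtain ⟨n'', hn''⟩ : ∃ n'', (n' + 1).succ * N0 = n'' + 1 + (n' + 1) := by
    have h2 : 0 < N0 := Nat.pos_of_ne_zero fun h3 => by rw [h3, mul_zero] at hN0; omega
    have h3 := Nat.le_mul_of_pos_right (n' + 1).succ h2
    exact ⟨(n' + 1).succ * N0 - (n' + 2), by omega⟩
  have eN : N = (n'' + 1) * n + (n' + 1) * n := by rw [hN0, mul_assoc, hn'']; ring
  have eR : (N : ℝ) * τ = (n'' + 1) * (n * τ) + (n' + 1) * (n * τ) := by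
    rw [eN]; push_cast; ring
  obtain ⟨l', a1, a2, a3⟩ := hl x n'
  obtain ⟨l'', b1, b2, b3⟩ := hl x n''
  have hQ : D.Per τ ((j + n' + 1 + 1) * n) x y :=
    hp.dvd hτ hm (Nat.mul_pos (Nat.succ_pos _) h.pos) ⟨(j + 2) * n, by rw [← hn', mul_assoc]⟩
  have eQ : (n' + 1) * (n * τ) + 4 * s + (t + 2 * s / 3) = (((j + n' + 1 + 1) * n : ℕ) : ℝ) * τ +
      (t - (j + 1) * (n * τ) + 4 * s + 2 * s / 3) := by
    push_cast; ring
  have c1 : mul l' (mp (D.wh x y) z) ∈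
      BB F (Om x y ((n' + 1) * (n * τ) + 4 * s + (t + 2 * s / 3))) := by
    have h2 := mul_cyc a1 z1
    rw [eQ] at h2 ⊢
    refine zq5b_van hM hτ h h1 (by linarith) hQ (by linarith) h2
      (mul_mem_HD a2 (mp_mem_HD _ hd)) ?_
    have h3 : (j + n' + 1 + 1) * n = (n' + 1) * n + (j + 1) * n := by ring
    rcases hk with hk | hk
    · exact Or.inl (by omega)
    · exact Or.inr ⟨by omega, mul_Pa_right (zq5b_zp a1)
        (D.wh_BB_Pa (by linarith) (by linarith) hk.2)⟩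
  have c2 := mul_BB_right b1 c1
  rw [← mul_assoc' (zq5b_zp b1).1 (zq5b_zp a1).1 (zq5b_zp z1).1] at c2
  have u1 : mul l'' l' ∈ ZZ F (Om x x (N * τ + 8 * s)) ∅ :=
    zq5b_zz (mul_cyc b1 a1) (by linarith)
  have u2 : mul l'' l' ∉ BB F (Pa x x) := fun h2 => by
    have h3 := Submodule.sub_mem _ (Submodule.sub_mem _ h2 (mul_Pa_left b3 (zq5b_zp a1)))
      (mul_Pa_right (pwr_mem n'' (h.cyc x)) a3)
    rw [map_sub, LinearMap.sub_apply, map_sub, sub_sub_cancel, sub_sub_cancel,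
      ← pwr_add _ _ (h.cyc x)] at h3
    exact h.nz x _ h3
  obtain ⟨r, hr⟩ := zq5b_prop hM hτ hN hpN (by linarith : 0 < 8 * s) (by linarith)
    (zq5b_zz e1 (by linarith)) e2 u1 (eN ▸ mul_mem_HD b2 a2) u2
  have c3 : mul e (mp (D.wh x y) z) ∈ BB F (Om x y (N * τ + (t + 10 * s))) := by
    have h2 := Submodule.add_mem _ (zq5b_bb (t' := N * τ + (t + 10 * s)) (mul_BB_left hr z1)
      (by linarith)) (Submodule.smul_mem _ r (zq5b_bb c2 (by linarith)))
    rwa [map_sub, LinearMap.sub_apply, map_smul, LinearMap.smul_apply, sub_add_cancel] at h2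
  exact D.BB_of_wh (by linarith) (by linarith) (by linarith) (by linarith) hz
    (hmu (t + 10 * s) (by linarith) le_rfl _ (zq5b_zz z1 (by linarith)) (BB_le_NN _ _ c3))

end GD

end Pool.Agent.Fu
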