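import Mathlib
import Pool.Agent.P.MP_365c00_gt.ZQ5b

/-! The family of classes and its powers. -/

set_option linter.unusedSectionVars false
set_option linter.unusedVariables false

open Set Topology Filter Metric

namespace Pool.Agent.Fu

variable {F : Type} [Field F] {M : Type} [MetricSpace M] {Z : Type} [TopologicalSpace Z]

theorem pw_main [CompactSpace M] [ConnectedSpace M] (D : GD M) {τ : ℝ} (hD : D.DN τ)
    (hM : ∀ (F : Type) [Field F], (2 : F) ≠ 0 → D.MT F) {θ : ℝ} (h0 : 0 < θ) (h1 : θ ≤ D.a / 100) :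
    ∃ w > 0, ∀ η > 0, ∃ A : ℝ, ∀ Q : ℕ, ∃ q : ℕ, Q ≤ q ∧ ∃ _ : Fact q.Prime,
      ∃ (n : ℕ) (s : ℝ) (x : M → Ch (ZMod q) (Mo M)), w ≤ s ∧ s ≤ θ ∧
        PW (ZMod q) D.toGS D.C0 τ θ η A s n x := by
  have hτ := hD.pos
  obtain ⟨m0, x0, y0, z0, hm0, he0, hN, hT⟩ := GD.exists_both hD h0
  obtain ⟨x, y, m1, hm1, hp, hd, hg⟩ := hD.gap m0 hm0
  obtain ⟨w0, hw0, hw⟩ := hp.gap_unif hτ hm1 (c := 2 * m0 * τ - dist x y) (by
    intro w hw k e
    exact hg w hw k (by linarith))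
  refine ⟨w0 / 2, by positivity, fun η hη => ?_⟩
  obtain ⟨A, hA⟩ := GD.MT.strip hD hη
  refine ⟨A, fun Q => ?_⟩
  have : NeZero m1 := ⟨hm1.ne'⟩
  obtain ⟨q, hq, hqp, hq1⟩ := Nat.forall_exists_prime_gt_and_eq_mod (q := m1) (a := -1)
    isUnit_one.neg (max Q 2)
  have hQ : Q ≤ q := ((le_max_left _ _).trans_lt hq).le
  have hq2 : 2 < q := (le_max_right _ _).trans_lt hq
  have hf : Fact q.Prime := ⟨hqp⟩
  obtain ⟨c, hc⟩ : m1 ∣ q + 1 := by
    rw [← ZMod.natCast_eq_zero_iff]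
    push_cast
    rw [hq1]
    ring
  have h2 : (2 : ZMod q) ≠ 0 := by
    intro e
    have : ((2 : ℕ) : ZMod q) = 0 := by exact_mod_cast e
    rw [ZMod.natCast_eq_zero_iff] at this
    exact absurd (Nat.le_of_dvd (by norm_num) this) (by omega)
  have hMq := hM (ZMod q) h2
  obtain ⟨X, hX⟩ := hMq.exists_fx hD hm0 he0 h0 h1 hN hT (k := q - 2) (by
    intro r hr
    rw [show q - 2 + 1 = q - 1 by omega]
    exact ZMod.pow_card_sub_one_eq_one hr)
  generalize hn1 : (q - 2 + 1) * m0 = n1 at hX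
  have e1 : (n1 : ℝ) + 2 * m0 = c * m0 * m1 := by
    have : n1 + 2 * m0 = c * m0 * m1 := by
      rw [← hn1, ← add_mul, show q - 2 + 1 + 2 = q + 1 by omega, hc]
      ring
    exact_mod_cast this
  have nl : ¬ GD.Low (ZMod q) τ w0 n1 X := by
    refine hX.not_low hMq hτ hm1 hp hd fun w hwJ => ?_
    have a1 := hw w hwJ ((c * m0 : ℕ) : ℤ)
    have a2 : ((((c * m0 : ℕ) : ℤ) : ℝ)) * (m1 * τ) = n1 * τ + 2 * m0 * τ := by
      push_cast
      rw [← add_mul, e1]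
      ring
    rw [a2] at a1
    rcases lt_abs.1 a1 with a | a
    · right; linarith
    · left; linarith
  set S : Set ℝ := {σ | GD.Low (ZMod q) τ σ n1 X} with hS
  have θS : θ ∈ S := hX.low
  have lb : ∀ σ ∈ S, w0 ≤ σ := fun σ hσ => by
    by_contra hlt
    exact nl (GD.Low.mono hσ (not_le.1 hlt).le)
  have bb : BddBelow S := ⟨w0, lb⟩
  have i1 : w0 ≤ sInf S := le_csInf ⟨θ, θS⟩ lb
  have i2 : sInf S ≤ θ := csInf_le bb θS
  have l4 : GD.Low (ZMod q) τ (4 * (sInf S / 2)) n1 X := by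
    obtain ⟨σ, hσ, hlt⟩ := exists_lt_of_csInf_lt ⟨θ, θS⟩
      (show sInf S < 4 * (sInf S / 2) by linarith)
    exact GD.Low.mono hσ hlt.le
  have l1 : ¬ GD.Low (ZMod q) τ (sInf S / 2) n1 X := fun h => by
    have := csInf_le bb (show sInf S / 2 ∈ S from h)
    linarith
  have hs0 : 0 < sInf S / 2 := by linarith
  have hs1 : sInf S / 2 ≤ θ := by linarith
  have hs2 : w0 / 2 ≤ sInf S / 2 := by linarith
  generalize sInf S / 2 = s at l4 l1 hs0 hs1 hs2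
  unfold GD.Low at l1
  push Not at l1
  obtain ⟨p, j, hj⟩ := l1
  have hY := hX.pwr hτ j
  have l5 := l4.pwr hX.cyc j
  refine ⟨q, hQ, hf, (j + 1) * n1, s, fun p => pwr j (X p), hs2, hs1, hY.even, hY.cyc, hY.deg,
    hY.conj, l5, ?_, ?_, hA (ZMod q) hMq, p, ?_⟩
  · intro p n k t ht z hz hzd hk
    exact hY.fine hMq hD h1 hs0 hs1 l5 p n k t ht hz hzd hk
  · intro p n k b hb hk z hz hzd
    exact GD.Net.coarse hMq hτ hY.pos h1 hY.net p n k b hb hk hz hzd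
  · intro hn
    obtain ⟨h, a1, a2, a3⟩ := NN_HD (hY.deg p) hn
    have e2 : (((j + 1) * n1 : ℕ) : ℝ) * τ + s = (j + 1) * (n1 * τ) + s := by
      push_cast
      ring
    rw [e2] at a3
    refine hj _ (mem_ZZ_empty.2 ⟨a3, ?_⟩) (Submodule.sub_mem _ (hY.deg p) (bd_mem_HD a2)) ?_
    · rw [map_sub, bd_bd, (mem_ZZ_empty.1 (hY.cyc p)).2, sub_zero]
    · rw [sub_sub_cancel_left]
      exact Submodule.neg_mem _ (mem_BB.2 ⟨h, a1, rfl⟩)

end Pool.Agent.Fu
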