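import Mathlib
import Pool.Agent.P.MP_365c00_gt.NChart

/-! The orientation double cover as a topological space. -/

set_option linter.unusedSectionVars false
set_option linter.unusedVariables false

open Set Filter Topology Function
open scoped Manifold ContDiff
open Pool.Agent.GeoN

namespace Pool.Agent.Fu

variable {E : Type} [NormedAddCommGroup E] [NormedSpace ℝ E] [FiniteDimensional ℝ E]
  {M : Type} [TopologicalSpace M] [ChartedSpace E M] [IsManifold 𝓘(ℝ, E) ∞ M]

variable (E) in
/-- the determinant of the change of charts -/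
noncomputable def dt (x y p : M) : ℝ := (fderiv ℝ (κ E y ∘ (κ E x).symm) (κ E x p)).det

theorem tcc_eq (x y p : M) :
    tangentCoordChange 𝓘(ℝ, E) x y p = fderiv ℝ (κ E y ∘ (κ E x).symm) (κ E x p) := by
  rw [tangentCoordChange_def, modelWithCornersSelf_coe, range_id, fderivWithin_univ]

theorem dt_eq (x y p : M) : dt E x y p = (tangentCoordChange 𝓘(ℝ, E) x y p).det := by
  rw [tcc_eq, dt]

theorem dt_self {x p : M} (h : p ∈ (κ E x).source) : dt E x x p = 1 := by
  have : tangentCoordChange 𝓘(ℝ, E) x x p = ContinuousLinearMap.id ℝ E :=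
    ContinuousLinearMap.ext fun v => tangentCoordChange_self h
  rw [dt_eq, this]
  exact LinearMap.det_id

theorem dt_mul {x y z p : M} (hx : p ∈ (κ E x).source) (hy : p ∈ (κ E y).source)
    (hz : p ∈ (κ E z).source) : dt E y z p * dt E x y p = dt E x z p := by
  have : tangentCoordChange 𝓘(ℝ, E) x z p =
      (tangentCoordChange 𝓘(ℝ, E) y z p).comp (tangentCoordChange 𝓘(ℝ, E) x y p) :=
    ContinuousLinearMap.ext fun v => (tangentCoordChange_comp ⟨⟨hx, hy⟩, hz⟩).symm
  rw [dt_eq, dt_eq, dt_eq, this]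
  exact (LinearMap.det_comp _ _).symm

theorem dt_ne {x y p : M} (hx : p ∈ (κ E x).source) (hy : p ∈ (κ E y).source) :
    dt E x y p ≠ 0 := fun h => by
  have := dt_mul hx hy hx
  rw [h, mul_zero, dt_self hx] at this
  exact zero_ne_one this

theorem dt_cont {x y p : M} (hx : p ∈ (κ E x).source) (hy : p ∈ (κ E y).source) :
    ContinuousAt (dt E x y) p := by
  have h := (continuousOn_tangentCoordChange (I := 𝓘(ℝ, E)) x y).continuousAt
    (((source_open x).inter (source_open y)).mem_nhds ⟨hx, hy⟩)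
  rw [funext (dt_eq x y)]
  exact ContinuousLinearMap.continuous_det.continuousAt.comp h

variable (E M) in
/-- the bundle of orientations -/
noncomputable def oriCore : FiberBundleCore M M Bool where
  baseSet x := (κ E x).source
  isOpen_baseSet x := source_open x
  indexAt x := x
  mem_baseSet_at x := mem_extChartAt_source x
  coordChange x y p b := if 0 < dt E x y p then b else !b
  coordChange_self x p hp b := by rw [dt_self hp, if_pos one_pos]
  continuousOn_coordChange x y := by
    rintro ⟨p, b⟩ ⟨⟨hx, hy⟩, -⟩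
    refine ContinuousAt.continuousWithinAt ?_
    have hc : ContinuousAt (fun q : M × Bool => dt E x y q.1) (p, b) :=
      ContinuousAt.comp (f := fun q : M × Bool => q.1) (dt_cont hx hy) continuousAt_fst
    have hb : ∀ᶠ q : M × Bool in 𝓝 (p, b), q.2 = b :=
      ((isOpen_discrete ({b} : Set Bool)).preimage continuous_snd).mem_nhds rfl
    rcases (dt_ne hx hy).lt_or_gt with h | h
    · refine (continuousAt_const (y := !b)).congr ?_
      filter_upwards [hb, hc.eventually (gt_mem_nhds h)] with q h1 h2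
      rw [if_neg h2.not_gt, h1]
    · refine (continuousAt_const (y := b)).congr ?_
      filter_upwards [hb, hc.eventually (lt_mem_nhds h)] with q h1 h2
      rw [if_pos h2, h1]
  coordChange_comp x y z p hp b := by
    obtain ⟨⟨hx, hy⟩, hz⟩ := hp
    rw [← dt_mul hx hy hz]
    rcases (dt_ne hx hy).lt_or_gt with h | h <;> rcases (dt_ne hy hz).lt_or_gt with h' | h'
    · rw [if_neg h.not_gt, if_neg h'.not_gt, if_pos (mul_pos_of_neg_of_neg h' h), Bool.not_not]
    · rw [if_neg h.not_gt, if_pos h', if_neg (mul_neg_of_pos_of_neg h' h).not_gt]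
    · rw [if_pos h, if_neg h'.not_gt, if_neg (mul_neg_of_neg_of_pos h' h).not_gt]
    · rw [if_pos h, if_pos h', if_pos (mul_pos h' h)]

/-- the sign of a Boolean -/
def sgB (b : Bool) : ℝ := cond b 1 (-1)

theorem sgB_key {d e : ℝ} {b b' : Bool} (h7 : d * e = 1) (h6 : (if 0 < d then b' else !b') = b) :
    0 < sgB b * sgB b' * e := by
  have h0 : d ≠ 0 := fun h => by simp [h] at h7
  rcases h0.lt_or_gt with h | h
  · rw [if_neg h.not_gt] at h6
    have h8 : e < 0 := by nlinarith
    subst h6
    cases b' <;> simpa [sgB] using h8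
  · rw [if_pos h] at h6
    have h8 : 0 < e := by nlinarith
    subst h6
    cases b' <;> simpa [sgB] using h8

variable (E M) in
theorem exists_dc [T2Space M] [CompactSpace M] :
    ∃ (N : Type) (_ : TopologicalSpace N) (_ : T2Space N) (_ : CompactSpace N) (π : N → M)
      (s : N → ℝ), IsCoveringMap π ∧ Surjective π ∧
      (∀ a b c, π a = π b → π a = π c → a = b ∨ a = c ∨ b = c) ∧
      ∀ q, ∀ᶠ q' in 𝓝 q, 0 < s q * s q' * dt E (π q) (π q') (π q') := by
  let Z := oriCore E M
  have cov : IsCoveringMap Z.proj := FiberBundle.isCoveringMap (F := Bool) (E := Z.Fiber)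
  refine ⟨Z.TotalSpace, inferInstance, ⟨fun a b hab => ?_⟩, ⟨?_⟩, Z.proj,
    fun q => sgB q.2, cov, fun x => ⟨⟨x, true⟩, rfl⟩, ?_, ?_⟩
  · by_cases h : Z.proj a = Z.proj b
    · exact cov.isSeparatedMap a b h hab
    · exact separated_by_continuous cov.continuous h
  · have hK : ∀ x : M, ∃ K, IsCompact K ∧ x ∈ interior K ∧ K ⊆ (κ E x).source := fun x =>
      exists_compact_subset (source_open x) (mem_extChartAt_source x)
    choose K hK1 hK2 hK3 using hK
    obtain ⟨t, ht⟩ := CompactSpace.elim_nhds_subcover K fun x => mem_interior_iff_mem_nhds.1 (hK2 x)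
    have hc : IsCompact (⋃ x ∈ t, (Z.localTriv x).toOpenPartialHomeomorph.symm '' (K x ×ˢ univ)) :=
      t.isCompact_biUnion fun x _ => ((hK1 x).prod isCompact_univ).image_of_continuousOn
        ((Z.localTriv x).toOpenPartialHomeomorph.continuousOn_symm.mono
          (prod_mono (hK3 x) Subset.rfl))
    refine (eq_univ_of_forall fun q => ?_ : _ = univ) ▸ hc
    have hq : Z.proj q ∈ ⋃ x ∈ t, K x := by rw [ht]; trivial
    obtain ⟨x, hx, hq⟩ := mem_iUnion₂.1 hq
    exact mem_iUnion₂.2 ⟨x, hx, Z.localTriv x q, ⟨hq, trivial⟩,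
      (Z.localTriv x).toOpenPartialHomeomorph.left_inv (hK3 x hq)⟩
  · rintro ⟨x, a⟩ ⟨y, b⟩ ⟨z, c⟩ h1 h2
    obtain rfl : x = y := h1
    obtain rfl : x = z := h2
    have : a = b ∨ a = c ∨ b = c := by
      revert a b c
      exact (by decide : ∀ a b c : Bool, a = b ∨ a = c ∨ b = c)
    rcases this with h | h | h <;> simp [h]
  · rintro ⟨x, b⟩
    have hx : x ∈ (κ E x).source := mem_extChartAt_source x
    have h1 : ContinuousAt (fun q => (Z.localTriv x q).2) (⟨x, b⟩ : Z.TotalSpace) :=
      ((Z.localTriv x).continuousAt (show _ ∈ (Z.localTriv x).source from hx)).snd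
    have h2 : (Z.localTriv x ⟨x, b⟩).2 = b := Z.coordChange_self x x hx b
    have h3 : ∀ᶠ q : Z.TotalSpace in 𝓝 ⟨x, b⟩, Z.proj q ∈ (κ E x).source :=
      cov.continuous.continuousAt.eventually ((source_open x).mem_nhds hx)
    have h4 : ∀ᶠ q : Z.TotalSpace in 𝓝 ⟨x, b⟩, (Z.localTriv x q).2 = (Z.localTriv x ⟨x, b⟩).2 :=
      h1.preimage_mem_nhds ((isOpen_discrete ({(Z.localTriv x ⟨x, b⟩).2} : Set Bool)).mem_nhds rfl)
    filter_upwards [h4, h3] with q h4 h5
    obtain ⟨p, b'⟩ := q
    have hp : p ∈ (κ E p).source := mem_extChartAt_source p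
    exact sgB_key ((dt_mul h5 hp h5).trans (dt_self h5)) (h4.trans h2)

end Pool.Agent.Fu
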