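import Mathlib
import Pool.Agent.P.MP_365c00_gt.ZV1
import Pool.Agent.P.MP_365c00_gt.NSpace

/-! Pulling back the charts and the metric along a local homeomorphism. -/

set_option linter.unusedSectionVars false
set_option linter.unusedVariables false

open Set Filter Topology Function Bundle
open scoped Manifold ContDiff
open Pool.Agent.GeoN

namespace Pool.Agent.Fu

variable {E : Type} [NormedAddCommGroup E] [InnerProductSpace ℝ E] [FiniteDimensional ℝ E]
  {M : Type} [TopologicalSpace M] [ChartedSpace E M] [IsManifold 𝓘(ℝ, E) ∞ M]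
  {N : Type} [TopologicalSpace N] {f : N → M}

theorem symmL_eq {x p : M} (hp : p ∈ (κ E x).source) (v : E) :
    (trivializationAt E (TangentSpace 𝓘(ℝ, E)) x).symmL ℝ p v =
      tangentCoordChange 𝓘(ℝ, E) x p p v := by
  rw [TangentBundle.symmL_trivializationAt_eq_core (by rwa [extChartAt_source] at hp)]
  rfl

theorem G_eq (g : Met E M) {x p : M} (hp : p ∈ (κ E x).source) (u w : E) :
    G g x (κ E x p) u w = (g.inner p : E →L[ℝ] E →L[ℝ] ℝ) (tangentCoordChange 𝓘(ℝ, E) x p p u)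
      (tangentCoordChange 𝓘(ℝ, E) x p p w) := by
  have h1 := TangentBundle.symmL_trivializationAt (I := 𝓘(ℝ, E)) (x₀ := x) (x := p)
    (by rwa [extChartAt_source] at hp)
  rw [modelWithCornersSelf_coe, range_id, mfderivWithin_univ] at h1
  rw [← symmL_eq hp, ← symmL_eq hp, h1]
  exact ChartX.inner_congr g ((κ E x).left_inv hp) _ _

theorem geoAt_iff_chart (g : Met E M) {γ : ℝ → M} {t : ℝ} {x : M} (hc : ContinuousAt γ t)
    (hx : γ t ∈ (κ E x).source) : GeoAt g γ t ↔ (∀ᶠ s in 𝓝 t, ContDiffAt ℝ ∞ (κ E x ∘ γ) s) ∧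
      HasDerivAt (deriv (κ E x ∘ γ)) (acc g x (κ E x (γ t), deriv (κ E x ∘ γ) t)) t := by
  have h0 : ∀ᶠ s in 𝓝 t, γ s ∈ (κ E x).source :=
    hc.preimage_mem_nhds ((source_open x).mem_nhds hx)
  constructor
  · intro h
    refine ⟨?_, h.2 x hx⟩
    filter_upwards [h.1, h0] with s h1 h2 using contDiffAt_chart (n := ⊤) h1 h2
  · rintro ⟨h1, h2⟩
    refine (geoAt_of_chart g h1 ((κ E x).map_source hx) h2).congr ?_
    filter_upwards [h0] with s hs using ((κ E x).left_inv hs).symm

variable (E) in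
/-- the charts of `N` are pulled back along `f` -/
structure Pull [ChartedSpace E N] (f : N → M) : Prop where
  cont : Continuous f
  app : ∀ q a, κ E q a = κ E (f q) (f a)
  src : ∀ q, ∀ a ∈ (κ E q).source, f a ∈ (κ E (f q)).source
  atl : ∀ e ∈ atlas E N, ∃ q, e = chartAt E q

variable (E) in
theorem exists_pull (h : IsLocalHomeomorph f) : ∃ _ : ChartedSpace E N, Pull E f := by
  have hc := h.continuous
  choose e he hf using h
  let cs : ChartedSpace E N :=
    { atlas := range fun q => (e q).trans (chartAt E (f q))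
      chartAt := fun q => (e q).trans (chartAt E (f q))
      mem_chart_source := fun q => ⟨he q, by
        show e q q ∈ (chartAt E (f q)).source
        rw [← congrFun (hf q) q]
        exact mem_chart_source E _⟩
      chart_mem_atlas := fun q => ⟨q, rfl⟩ }
  refine ⟨cs, hc, fun q a => ?_, fun q a ha => ?_, fun c hc => ?_⟩
  · show chartAt E (f q) (e q a) = chartAt E (f q) (f a)
    rw [← congrFun (hf q) a]
  · rw [extChartAt_source] at ha ⊢
    rw [congrFun (hf q) a]
    exact ha.2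
  · obtain ⟨q, rfl⟩ := hc
    exact ⟨q, rfl⟩

namespace Pull

variable [ChartedSpace E N] (h : Pull E f)
include h

theorem tgt {q : N} {a : E} (ha : a ∈ (κ E q).target) :
    a ∈ (κ E (f q)).target ∧ f ((κ E q).symm a) = (κ E (f q)).symm a := by
  have h1 := h.src q _ ((κ E q).map_target ha)
  have h2 := h.app q ((κ E q).symm a)
  rw [(κ E q).right_inv ha] at h2
  refine ⟨?_, ((κ E (f q)).left_inv h1).symm.trans (congrArg _ h2.symm)⟩
  rw [h2]
  exact (κ E (f q)).map_source h1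

theorem trans_eq {q : N} (q' : N) {a : E} (ha : a ∈ (κ E q).target) :
    κ E q' ∘ (κ E q).symm =ᶠ[𝓝 a] κ E (f q') ∘ (κ E (f q)).symm := by
  filter_upwards [(target_open q).mem_nhds ha] with b hb
  rw [comp_apply, comp_apply, h.app, (h.tgt hb).2]

theorem isManifold : IsManifold 𝓘(ℝ, E) ∞ N := by
  refine isManifold_of_contDiffOn _ _ _ fun e e' he he' a ha => ?_
  obtain ⟨q, rfl⟩ := h.atl e he
  obtain ⟨q', rfl⟩ := h.atl e' he'
  have h1 : a ∈ (κ E q).target := by simpa using ha.1.1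
  have h2 : (κ E q).symm a ∈ (κ E q').source := by simpa using ha.1.2
  exact ((contDiffAt_trans (h.tgt h1).1 (x' := f q')
    ((h.tgt h1).2 ▸ h.src q' _ h2)).congr_of_eventuallyEq (h.trans_eq q' h1)).contDiffWithinAt

variable [IsManifold 𝓘(ℝ, E) ∞ N]

theorem tcc {q p : N} (q' : N) (hp : p ∈ (κ E q).source) :
    tangentCoordChange 𝓘(ℝ, E) q q' p = tangentCoordChange 𝓘(ℝ, E) (f q) (f q') (f p) := by
  rw [tcc_eq, tcc_eq, ← h.app]
  exact (h.trans_eq q' ((κ E q).map_source hp)).fderiv_eq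

theorem exists_met (g : Met E M) :
    ∃ g' : Met E N, ∀ q, (g'.inner q : E →L[ℝ] E →L[ℝ] ℝ) = g.inner (f q) := by
  refine ⟨⟨fun q => (g.inner (f q) : E →L[ℝ] E →L[ℝ] ℝ), fun q => g.symm (f q),
    fun q => g.pos (f q), fun q => g.isVonNBounded (f q), fun q₀ => ?_⟩, fun q => rfl⟩
  refine (contMDiffAt_section _).2 ?_
  have h0 : q₀ ∈ (κ E q₀).source := mem_extChartAt_source q₀
  have h1 : ContMDiffAt 𝓘(ℝ, E) 𝓘(ℝ, E →L[ℝ] E →L[ℝ] ℝ) ∞
      (fun q => G g (f q₀) (κ E q₀ q)) q₀ :=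
    (ChartX.G_diff g (f q₀) (h.tgt ((κ E q₀).map_source h0)).1).contMDiffAt.comp q₀
      contMDiffAt_extChartAt
  refine h1.congr_of_eventuallyEq ?_
  filter_upwards [(source_open q₀).mem_nhds h0] with q hq
  ext v w
  have hb : q ∈ (trivializationAt E (TangentSpace 𝓘(ℝ, E)) q₀).baseSet := by
    simpa using hq
  rw [hom_trivializationAt_apply, h.app, G_eq g (h.src _ _ hq), ← h.tcc q hq, ← symmL_eq hq,
    ← symmL_eq hq]
  refine (inCoordinates_apply_eq₂ hb hb (mem_univ _)).trans ?_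
  rw [Trivialization.symmL_apply _ hb, Trivialization.symmL_apply _ hb]
  simp
  rfl

variable {g : Met E M} {g' : Met E N}
  (hg : ∀ q, (g'.inner q : E →L[ℝ] E →L[ℝ] ℝ) = g.inner (f q))
include hg

theorem G_pull {q : N} {a : E} (ha : a ∈ (κ E q).target) : G g' q a = G g (f q) a := by
  ext u w
  have h1 := (κ E q).map_target ha
  have h2 := G_eq g' h1 u w
  have h3 := G_eq g (h.src _ _ h1) u w
  rw [← h.app, ← h.tcc _ h1, ← hg] at h3
  have h4 := h2.trans h3.symm
  rwa [(κ E q).right_inv ha] at h4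

theorem acc_pull {q : N} {a : E} (ha : a ∈ (κ E q).target) (V : E) :
    acc g' q (a, V) = acc g (f q) (a, V) := by
  have h1 : G g' q =ᶠ[𝓝 a] G g (f q) := by
    filter_upwards [(target_open q).mem_nhds ha] with b hb using h.G_pull hg hb
  refine ChartX.G_inj g' q ha fun w => ?_
  rw [acc_spec g' q ha, h1.fderiv_eq, h.G_pull hg ha, acc_spec g (f q) (h.tgt ha).1]

theorem geoAt_pull {γ : ℝ → N} (hc : Continuous γ) (t : ℝ) :
    GeoAt g' γ t ↔ GeoAt g (f ∘ γ) t := by
  have h0 : γ t ∈ (κ E (γ t)).source := mem_extChartAt_source _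
  have h1 : κ E (f (γ t)) ∘ f ∘ γ = κ E (γ t) ∘ γ := funext fun s => (h.app _ _).symm
  rw [geoAt_iff_chart g' hc.continuousAt h0,
    geoAt_iff_chart g (h.cont.comp hc).continuousAt (h.src _ _ h0), h1,
    h.acc_pull hg ((κ E (γ t)).map_source h0), comp_apply, ← h.app]

theorem ug_iff {γ : ℝ → N} (hc : Continuous γ) :
    (IsGeodesic g' γ ∧ UnitSpeed g' γ) ↔ (IsGeodesic g (f ∘ γ) ∧ UnitSpeed g (f ∘ γ)) := by
  rw [isGeodesic_iff, isGeodesic_iff, ← forall_congr' (h.geoAt_pull hg hc)]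
  refine and_congr_right fun h1 => forall_congr' fun t => ?_
  have h0 : γ t ∈ (κ E (γ t)).source := mem_extChartAt_source _
  have h2 : vel E (f (γ t)) (f ∘ γ) t = vel E (γ t) γ t :=
    congrArg (fun c => deriv c t) (funext fun s => (h.app _ _).symm)
  show energy g' γ t = 1 ↔ energy g (f ∘ γ) t = 1
  rw [energy_eq (h1 t) h0, energy_eq ((h.geoAt_pull hg hc t).1 (h1 t)) (h.src _ _ h0), h2,
    h.G_pull hg ((κ E (γ t)).map_source h0), comp_apply, ← h.app]

end Pull

end Pool.Agent.Fu
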