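import Mathlib
import Pool.Agent.P.MP_365c00_gt.ZM0
import Pool.Agent.P.MP_365c00_gt.ZV2

/-! Reduction to the orientable case. -/

set_option linter.unusedSectionVars false
set_option linter.unusedVariables false

open Set Filter Topology Metric Function MeasureTheory
open scoped Manifold ContDiff
open Pool.Agent.GeoN

namespace Pool.Agent.Fu

variable {E : Type} [NormedAddCommGroup E] [InnerProductSpace ℝ E] [FiniteDimensional ℝ E]
  {M : Type} [TopologicalSpace M] [ChartedSpace E M] [IsManifold 𝓘(ℝ, E) ∞ M]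
  [T2Space M] [CompactSpace M] [Nonempty M] [Nontrivial E] {g : Met E M}

theorem per_lift {N : Type} [TopologicalSpace N] {f : N → M} (cov : IsCoveringMap f)
    (two : ∀ a b c, f a = f b → f a = f c → a = b ∨ a = c ∨ b = c) {u : ℝ → N}
    (hc : Continuous u) {P : ℝ} (p1 : ∀ s, f (u (s + P)) = f (u s)) : Periodic u (P + P) := by
  have key : ∀ a b : ℝ, (∀ s, f (u (s + a)) = f (u (s + b))) → u a = u b →
      ∀ s, u (s + a) = u (s + b) := fun a b h1 h2 s =>
    congrFun (cov.eq_of_comp_eq (g₁ := fun s => u (s + a)) (g₂ := fun s => u (s + b))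
      (by fun_prop) (by fun_prop) (funext h1) 0 (by simpa using h2)) s
  have p2 : ∀ s, f (u (s + (P + P))) = f (u s) := fun s => by rw [← add_assoc, p1, p1]
  intro s
  rcases two (u 0) (u P) (u (P + P)) (by simpa using (p1 0).symm) (by simpa using (p2 0).symm)
    with h | h | h
  · have := key 0 P (fun s => by rw [p1, add_zero]) h
    rw [← add_assoc, ← this, add_zero, ← this, add_zero]
  · rw [← key 0 (P + P) (fun s => by rw [p2, add_zero]) h, add_zero]
  · have := key P (P + P) (fun s => by rw [p1, p2]) h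
    rw [← this, show s + P = s - P + (P + P) by ring, ← this, sub_add_cancel]

theorem finU_up {N : Type} [TopologicalSpace N] [ChartedSpace E N] [IsManifold 𝓘(ℝ, E) ∞ N]
    {f : N → M} {g' : Met E N} (h : Pull E f)
    (hg : ∀ q, (g'.inner q : E →L[ℝ] E →L[ℝ] ℝ) = g.inner (f q)) (cov : IsCoveringMap f)
    (two : ∀ a b c, f a = f b → f a = f c → a = b ∨ a = c ∨ b = c) {x y : N}
    (hF : FinU g (f x) (f y)) : FinU g' x y := by
  obtain ⟨L, U, h1, h2, h3⟩ := hF
  have hd : ∀ u : UG g', ∃ v : UG g, ⇑v.1 = f ∘ u.1 := fun u =>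
    ⟨⟨⟨f ∘ u.1, h.cont.comp u.1.continuous⟩, (h.ug_iff hg u.1.continuous).1 u.2⟩, rfl⟩
  choose d hd using hd
  refine ⟨L, {u | u.1 0 = x ∧ d u ∈ U}, ?_, fun u hu => ?_, fun u l hl hL hx hy =>
    ⟨hx, h3 (d u) l hl hL (by rw [hd, comp_apply, hx]) (by rw [hd, comp_apply, hy])⟩⟩
  · refine Finite.of_injOn (f := d) (fun u hu => hu.2) (fun u hu u' hu' e => ?_) h1
    exact Subtype.ext (ContinuousMap.ext (congrFun (cov.eq_of_comp_eq u.1.continuous
      u'.1.continuous (by rw [← hd, ← hd, e]) 0 (hu.1.trans hu'.1.symm))))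
  · obtain ⟨P, hP, hp⟩ := h2 _ hu.2
    rw [hd] at hp
    exact ⟨P + P, add_pos hP hP, per_lift cov two u.1.continuous hp⟩

theorem besse_cover [ConnectedSpace M] [MeasurableSpace (E × E)] [BorelSpace (E × E)]
    (μ : Measure (E × E)) [μ.IsAddHaarMeasure]
    (H : ∀ (M' : Type) [TopologicalSpace M'] [ChartedSpace E M'] [IsManifold 𝓘(ℝ, E) ∞ M']
      [T2Space M'] [CompactSpace M'] [ConnectedSpace M'] (g' : Met E M'), OriL E M' →
      NP E μ {z : M' × M' | ¬ FinU g' z.1 z.2} → Bes g')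
    (hf : NP E μ {z : M × M | ¬ FinU g z.1 z.2}) : Bes g := by
  obtain ⟨N, _, _, _, f, s, cov, sur, two, hs⟩ := exists_dc E M
  by_cases hN : PreconnectedSpace N
  · obtain ⟨_, h⟩ := exists_pull E cov.isLocalHomeomorph
    have := h.isManifold
    obtain ⟨g', hg⟩ := h.exists_met g
    have : ConnectedSpace N := ⟨(sur (Classical.arbitrary M)).nonempty⟩
    have h1 : OriL E N := by
      refine ⟨s, fun q => ?_⟩
      filter_upwards [hs q, (source_open (E := E) q).mem_nhds (mem_extChartAt_source q)]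
        with p h1 h2
      rw [dt_eq, ← h.tcc p h2, tcc_eq] at h1
      exact h1
    have h2 : NP E μ {z : N × N | ¬ FinU g' z.1 z.2} := fun x y => by
      refine measure_mono_null ?_ (hf (f x) (f y))
      rintro _ ⟨⟨a, b⟩, ⟨h1, h2, h3⟩, rfl⟩
      exact ⟨(f a, f b), ⟨fun hh => h1 (finU_up h hg cov two hh), h.src _ _ h2, h.src _ _ h3⟩,
        Prod.ext (h.app _ _).symm (h.app _ _).symm⟩
    obtain ⟨τ, hτ, hp⟩ := H N g' h1 h2
    refine ⟨τ, hτ, fun v => ?_⟩
    obtain ⟨e, he⟩ := sur (v.1 0)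
    obtain ⟨F, ⟨-, hF⟩, -⟩ := cov.existsUnique_continuousMap_lifts v.1 0 e he
    have h3 := hp ⟨F, (h.ug_iff hg F.continuous).2 (hF ▸ v.2)⟩
    rw [← hF]
    exact h3.comp f
  · obtain ⟨φ, hφ, x, y, hxy⟩ : ∃ φ : N → Bool, Continuous φ ∧ ∃ x y, φ x ≠ φ y := by
      by_contra hc
      refine hN (preconnectedSpace_of_forall_constant fun φ hφ x y => ?_)
      by_contra hxy
      exact hc ⟨φ, hφ, x, y, hxy⟩
    have ho := cov.isLocalHomeomorph.isOpenMap
    have key : ∀ (z : N) (p : M), ∃ q, φ q = φ z ∧ f q = p := fun z p => by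
      have hc : IsClopen (φ ⁻¹' {φ z}) := (isClopen_discrete _).preimage hφ
      have h1 : IsClopen (f '' (φ ⁻¹' {φ z})) :=
        ⟨(hc.1.isCompact.image cov.continuous).isClosed, ho _ hc.2⟩
      have h2 : p ∈ f '' (φ ⁻¹' {φ z}) := by
        rw [h1.eq_univ ⟨f z, z, rfl, rfl⟩]
        trivial
      exact h2
    choose σ hσ1 hσ2 using key
    have uq : ∀ q, φ q = φ x → σ x (f q) = q := fun q hq => by
      rcases two (σ x (f q)) q (σ y (f q)) (hσ2 _ _) ((hσ2 _ _).trans (hσ2 _ _).symm)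
        with h | h | h
      · exact h
      · exact (hxy (by rw [← hσ1 x (f q), h, hσ1])).elim
      · exact (hxy (by rw [← hq, h, hσ1])).elim
    refine H M g ⟨fun p => s (σ x p), fun p₀ => ?_⟩ hf
    have h1 : ∀ᶠ q in 𝓝 (σ x p₀), φ q = φ x :=
      ((isOpen_discrete {φ x}).preimage hφ).mem_nhds (hσ1 x p₀)
    have h2 := ho.image_mem_nhds ((hs (σ x p₀)).and h1)
    rw [hσ2] at h2
    filter_upwards [h2] with p hp
    obtain ⟨q, ⟨h3, h4⟩, rfl⟩ := hp
    rw [uq q h4]
    exact h3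

end Pool.Agent.Fu
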