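import Mathlib
import Pool.Agent.P.MP_365c00_gt.ZA
import Pool.Agent.P.MP_365c00_gt.ZA0
import Pool.Agent.P.MP_365c00_gt.ZO
import Pool.Agent.P.MP_365c00_gt.ZV
import Pool.Agent.P.MP_365c00_gt.ZQ6
import Pool.Agent.P.MP_365c00_gt.ZCore
import Pool.Agent.P.MP_365c00_gt.ZM1

/-! The theorem in dimension at least three. -/

set_option linter.unusedSectionVars false
set_option linter.unusedVariables false

open Set Filter Topology Metric Function MeasureTheory
open scoped Manifold ContDiff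
open Pool.Agent.GeoN

namespace Pool.Agent.Fu

variable {E : Type} [NormedAddCommGroup E] [InnerProductSpace ℝ E] [FiniteDimensional ℝ E]
  {M : Type} [TopologicalSpace M] [ChartedSpace E M] [IsManifold 𝓘(ℝ, E) ∞ M]
  [T2Space M] [CompactSpace M] [Nonempty M] [Nontrivial E] {g : Met E M}

theorem two_ne {q : ℕ} [Fact q.Prime] (hq : 3 ≤ q) : (2 : ZMod q) ≠ 0 := by
  intro h
  have h1 : ((2 : ℕ) : ZMod q) = 0 := by exact_mod_cast h
  have := Nat.le_of_dvd (by norm_num) ((ZMod.natCast_eq_zero_iff 2 q).1 h1)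
  omega

theorem besse_met {M : Type} [MetricSpace M] [ChartedSpace E M] [IsManifold 𝓘(ℝ, E) ∞ M]
    [CompactSpace M] [ConnectedSpace M] [MeasurableSpace (E × E)] [BorelSpace (E × E)]
    (μ : Measure (E × E)) [μ.IsAddHaarMeasure] (hE : 3 ≤ Module.finrank ℝ E) {g : Met E M}
    {sh : Short g} {a : ℝ} (h : SMd sh dist a) (ho : OriL E M)
    (hf : NP E μ {z : M × M | ¬ FinU g z.1 z.2}) : Bes g := by
  by_contra hb
  obtain ⟨S, hS⟩ := h.exists_gs
    (div_pos h.pos (by linarith [rk_pos (E := E)] : (0 : ℝ) < 2 * Module.finrank ℝ E)) (small_le h)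
  obtain ⟨τ, hτ⟩ := geo_dn μ hE h S hS hf hb
  obtain ⟨N, ι, hι⟩ := exists_emb g
  obtain ⟨θ0, h0, hc⟩ := core S (loc_euc (E := E)) ι hι (geoD h S hS).C0_pos hτ.pos
  have ha : 0 < S.a / 100 := div_pos S.a_pos (by norm_num)
  obtain ⟨w, hw, hp⟩ := pw_main (geoD h S hS) hτ (fun F _ h2 => geo_mt h S hS F h2)
    (lt_min h0 ha) (min_le_right _ _)
  obtain ⟨η, hη, hc⟩ := hc _ (lt_min h0 ha) (min_le_left _ _) w hw
  obtain ⟨A, hp⟩ := hp η hη
  obtain ⟨Q, hc⟩ := hc A
  obtain ⟨q, hq, _, n, s, x, h1, h2, h3⟩ := hp (max Q 3)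
  obtain ⟨o⟩ := exists_or ho (ZMod q) (two_ne ((le_max_right _ _).trans hq))
  exact hc q ((le_max_left _ _).trans hq) o n s x h1 h2 h3

theorem besse_ori [ConnectedSpace M] [MeasurableSpace (E × E)] [BorelSpace (E × E)]
    (μ : Measure (E × E)) [μ.IsAddHaarMeasure] (hE : 3 ≤ Module.finrank ℝ E) (ho : OriL E M)
    (hf : NP E μ {z : M × M | ¬ FinU g z.1 z.2}) : Bes g := by
  obtain ⟨sh⟩ := exists_short g
  obtain ⟨d, a, h1, h2, h3, h4, h5, h6⟩ := exists_dist sh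
  letI : MetricSpace M := MetricSpace.ofDistTopology d h1 h2 h3 h4 h5
  exact besse_met μ hE (sh := sh) (a := a) h6 ho hf

theorem besse_of_fin [ConnectedSpace M] [MeasurableSpace (E × E)] [BorelSpace (E × E)]
    (μ : Measure (E × E)) [μ.IsAddHaarMeasure] (hE : 3 ≤ Module.finrank ℝ E)
    (hf : NP E μ {z : M × M | (images g z).Finite}ᶜ) : Bes g :=
  besse_cover μ (fun M' _ _ _ _ _ _ g' ho h => besse_ori μ hE ho h) (np_finU μ hf)

end Pool.Agent.Fu
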